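import Pool.Agent.Lib.MP_de7bb2_an.H20Hur

/-! The abstract contradiction. Variables are `(s, ε, ε', l)`. TASK ABS. -/

namespace Pool.Agent.Lib.MP_de7bb2_an

open Metric Set Filter Topology

namespace Abs

lemma anal_fst {f : ℂ × ℂ → ℂ} {U V : Set ℂ} (hU : IsOpen U) (hf : DifferentiableOn ℂ f (U ×ˢ V))
    {s l : ℂ} (hs : s ∈ U) (hl : l ∈ V) : AnalyticAt ℂ (fun s => f (s, l)) s :=
  (hf.comp (f := fun s : ℂ => (s, l)) (by fun_prop) fun _ hx => ⟨hx, hl⟩).analyticAt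
    (hU.mem_nhds hs)

lemma anal_snd {f : ℂ × ℂ → ℂ} {U V : Set ℂ} (hV : IsOpen V) (hf : DifferentiableOn ℂ f (U ×ˢ V))
    {s l : ℂ} (hs : s ∈ U) (hl : l ∈ V) : AnalyticAt ℂ (fun l => f (s, l)) l :=
  (hf.comp (f := fun l : ℂ => (s, l)) (by fun_prop) fun _ hx => ⟨hs, hx⟩).analyticAt
    (hV.mem_nhds hl)

lemma order_mul' {f g h : ℂ → ℂ} {z : ℂ} (hf : AnalyticAt ℂ f z) (hg : AnalyticAt ℂ g z)
    (e : ∀ᶠ x in 𝓝 z, h x = f x * g x) :
    analyticOrderAt h z = analyticOrderAt f z + analyticOrderAt g z := by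
  rw [← analyticOrderAt_mul hf hg]
  exact analyticOrderAt_congr e

lemma order_unit {f g h : ℂ → ℂ} {z : ℂ} (hf : AnalyticAt ℂ f z) (hg : AnalyticAt ℂ g z)
    (h0 : g z ≠ 0) (e : ∀ᶠ x in 𝓝 z, h x = f x * g x) :
    analyticOrderAt h z = analyticOrderAt f z := by
  rw [order_mul' hf hg e, hg.analyticOrderAt_eq_zero.2 h0, add_zero]

lemma order_pow (n : ℕ) : analyticOrderAt (fun s : ℂ => s ^ n) 0 = n := by
  refine (analyticOrderAt_congr ?_).trans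
    (analyticOrderAt_centeredMonomial (𝕜 := ℂ) (z₀ := 0) (n := n))
  filter_upwards with s
  simp

lemma order_sub (c : ℂ) : ∃ k : ℕ, analyticOrderAt (fun s : ℂ => s - c) 0 = k ∧
    (c = 0 → k = 1) ∧ (c ≠ 0 → k = 0) := by
  by_cases h : c = 0
  · subst h
    refine ⟨1, ?_, fun _ => rfl, fun h => absurd rfl h⟩
    simpa using order_pow 1
  · refine ⟨0, ?_, fun h' => absurd h' h, fun _ => rfl⟩
    have ha : AnalyticAt ℂ (fun s : ℂ => s - c) 0 := by fun_prop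
    exact ha.analyticOrderAt_eq_zero.2 (by simpa using h)

lemma tay_congr {f g : ℂ → ℂ} (n : ℕ) (h : ∀ᶠ s in 𝓝 0, f s = g s) : tay n f = tay n g := by
  unfold tay
  rw [Filter.EventuallyEq.iteratedDeriv_eq n h]

lemma order_one_of_le {a t : ℂ → ℂ} {z : ℂ} {K : ℝ} (haa : AnalyticAt ℂ a z)
    (ha : analyticOrderAt a z = 1) (ht : AnalyticAt ℂ t z) (h0 : t z = 0)
    (h : ∀ᶠ l in 𝓝[≠] z, ‖a l‖ ≤ K * ‖t l‖) : analyticOrderAt t z = 1 := by
  have h1 : analyticOrderAt t z ≠ 0 := ht.analyticOrderAt_ne_zero.2 h0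
  by_contra h2
  have h3 : ((2 : ℕ) : ℕ∞) ≤ analyticOrderAt t z := by
    rcases hk : analyticOrderAt t z with _ | k
    · exact le_top
    · rw [hk] at h1 h2
      have h4 : k ≠ 0 := fun h => h1 (by rw [h]; rfl)
      have h5 : k ≠ 1 := fun h => h2 (by rw [h]; rfl)
      exact ENat.coe_le_coe.2 (by omega)
  obtain ⟨g, hg, eg⟩ := (natCast_le_analyticOrderAt ht).1 h3
  obtain ⟨u, hu, hu0, eu⟩ := (haa.analyticOrderAt_eq_natCast (n := 1)).1 ha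
  have h6 : ∀ᶠ l in 𝓝[≠] z, ‖u l‖ ≤ K * (‖l - z‖ * ‖g l‖) := by
    filter_upwards [h, nhdsWithin_le_nhds eg, nhdsWithin_le_nhds eu, self_mem_nhdsWithin]
      with l hl e1 e2 hne
    have hp : 0 < ‖l - z‖ := norm_pos_iff.2 (sub_ne_zero.2 hne)
    rw [e1, e2, smul_eq_mul, smul_eq_mul, norm_mul, norm_mul, norm_pow, norm_pow] at hl
    refine le_of_mul_le_mul_left ?_ hp
    calc ‖l - z‖ * ‖u l‖ = ‖l - z‖ ^ 1 * ‖u l‖ := by ring
      _ ≤ _ := hl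
      _ = _ := by ring
  have h7 : Tendsto (fun l => ‖u l‖) (𝓝[≠] z) (𝓝 ‖u z‖) :=
    hu.continuousAt.norm.tendsto.mono_left nhdsWithin_le_nhds
  have h8 : Tendsto (fun l => K * (‖l - z‖ * ‖g l‖)) (𝓝[≠] z) (𝓝 (K * (‖z - z‖ * ‖g z‖))) := by
    have : ContinuousAt (fun l => K * (‖l - z‖ * ‖g l‖)) z :=
      continuousAt_const.mul ((continuousAt_id.sub continuousAt_const).norm.mul
        hg.continuousAt.norm)
    exact this.tendsto.mono_left nhdsWithin_le_nhds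
  have h9 := le_of_tendsto_of_tendsto h7 h8 h6
  rw [sub_self, norm_zero, zero_mul, mul_zero] at h9
  exact hu0 (norm_le_zero_iff.1 h9)

end Abs

open Abs

/-- A simple zero in `l` of the leading coefficient. -/
theorem order_lead_one {Z : ℂ × ℂ → ℂ} {a : ℂ → ℂ} {l₀ : ℂ} {δ r κ : ℝ} (hδ : 0 < δ) (hr : 0 < r)
    (hκ : 0 < κ) {n : ℕ} (hZ : DifferentiableOn ℂ Z (ball 0 δ ×ˢ ball l₀ r))
    (ha : analyticOrderAt a l₀ = 1) (haa : AnalyticAt ℂ a l₀)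
    (h0 : analyticOrderAt (fun s => Z (s, l₀)) 0 = (n + 1 : ℕ))
    (h1 : ∀ l ∈ ball l₀ r, l ≠ l₀ → analyticOrderAt (fun s => Z (s, l)) 0 = n)
    (h3 : ∀ᶠ x : ℂ × ℂ in 𝓝 (0, l₀), x.1 ≠ 0 → Z x = 0 → κ * ‖a x.2‖ ≤ ‖x.1‖) :
    analyticOrderAt (fun l => tay n fun s => Z (s, l)) l₀ = 1 := by
  have hl₀ : l₀ ∈ ball l₀ r := mem_ball_self hr
  have h00 : (0 : ℂ) ∈ ball (0 : ℂ) δ := mem_ball_self hδ
  obtain ⟨Y, hY, hY0, hYe⟩ := exists_div_pow isOpen_ball hδ hZ n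
  have hge : ∀ l ∈ ball l₀ r, (n : ℕ∞) ≤ analyticOrderAt (fun s => Z (s, l)) 0 := by
    intro l hl
    by_cases h : l = l₀
    · rw [h, h0]
      exact ENat.coe_le_coe.2 (Nat.le_succ n)
    · rw [h1 l hl h]
  have hYc : DifferentiableOn ℂ (fun x : ℂ × ℂ => Y (0, x.2)) (ball 0 δ ×ˢ ball l₀ r) :=
    hY.comp (f := fun x : ℂ × ℂ => ((0 : ℂ), x.2)) (by fun_prop) fun x hx => ⟨h00, hx.2⟩
  obtain ⟨W, hW, -, hWe⟩ := exists_div_pow isOpen_ball hδ (hY.sub hYc) 1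
  have eW : ∀ l ∈ ball l₀ r, ∀ s ∈ ball (0 : ℂ) δ, Y (s, l) - Y (0, l) = s * W (s, l) := by
    intro l hl s hs
    have h2 := hWe l hl ?_ s hs
    · simpa using h2
    · have h2 : AnalyticAt ℂ (fun s => ((Y - fun x : ℂ × ℂ => Y (0, x.2)) (s, l))) 0 :=
        anal_fst isOpen_ball (hY.sub hYc) h00 hl
      have h4 := h2.analyticOrderAt_ne_zero.2 (by simp)
      exact ENat.one_le_iff_ne_zero.2 h4
  have hoY : analyticOrderAt (fun s => Y (s, l₀)) 0 = 1 := by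
    have h2 := order_mul' (f := fun s : ℂ => s ^ n) (g := fun s => Y (s, l₀))
      (h := fun s => Z (s, l₀)) (by fun_prop) (anal_fst isOpen_ball hY h00 hl₀)
      (by filter_upwards [ball_mem_nhds (0 : ℂ) hδ] with s hs using hYe l₀ hl₀ (hge l₀ hl₀) s hs)
    rw [h0, order_pow, Nat.cast_add, Nat.cast_one] at h2
    exact (ENat.add_right_injective_of_ne_top (ENat.coe_ne_top n) h2).symm
  have hY00 : Y (0, l₀) = 0 :=
    apply_eq_zero_of_analyticOrderAt_ne_zero (f := fun s => Y (s, l₀)) (by rw [hoY]; simp)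
  have hW0 : W (0, l₀) ≠ 0 := by
    have h2 := order_mul' (f := fun s : ℂ => s ^ 1) (g := fun s => W (s, l₀))
      (h := fun s => Y (s, l₀)) (by fun_prop) (anal_fst isOpen_ball hW h00 hl₀)
      (by
        filter_upwards [ball_mem_nhds (0 : ℂ) hδ] with s hs
        rw [pow_one, ← eW l₀ hl₀ s hs, hY00, sub_zero])
    rw [hoY, order_pow, Nat.cast_one] at h2
    refine (anal_fst isOpen_ball hW h00 hl₀).analyticOrderAt_eq_zero.1 ?_
    exact (ENat.add_right_injective_of_ne_top (ENat.coe_ne_top 1)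
      (show ((1 : ℕ) : ℕ∞) + 0 = ((1 : ℕ) : ℕ∞) + _ by simpa using h2)).symm
  set m : ℝ := ‖W (0, l₀)‖ / 2 with hm
  have hm0 : 0 < m := by
    have := norm_pos_iff.2 hW0
    positivity
  have hdom : ball (0 : ℂ) δ ×ˢ ball l₀ r ∈ 𝓝 ((0 : ℂ), l₀) :=
    prod_mem_nhds (ball_mem_nhds _ hδ) (ball_mem_nhds _ hr)
  have hWm : ∀ᶠ x : ℂ × ℂ in 𝓝 (0, l₀), m < ‖W x‖ :=
    (hW.differentiableAt hdom).continuousAt.norm.eventually_const_lt (by linarith)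
  obtain ⟨η, hη, hb⟩ := Metric.eventually_nhds_iff_ball.1 (hWm.and (h3.and hdom))
  have hin : ∀ s ∈ closedBall (0 : ℂ) (η / 2), ∀ l ∈ ball l₀ η, (s, l) ∈ ball ((0 : ℂ), l₀) η := by
    intro s hs l hl
    rw [← ball_prod_same]
    exact ⟨closedBall_subset_ball (by linarith) hs, hl⟩
  have ht : AnalyticAt ℂ (fun l => Y (0, l)) l₀ := anal_snd isOpen_ball hY h00 hl₀
  have hsm : ∀ᶠ l in 𝓝 l₀, ‖Y (0, l)‖ < η / 2 * m / 2 :=
    ht.continuousAt.norm.eventually_lt_const (by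
      show ‖Y (0, l₀)‖ < _
      rw [hY00, norm_zero]; positivity)
  have key : ∀ᶠ l in 𝓝[≠] l₀, ‖a l‖ ≤ (κ * m)⁻¹ * ‖Y (0, l)‖ := by
    filter_upwards [nhdsWithin_le_nhds hsm, nhdsWithin_le_nhds (ball_mem_nhds l₀ hη),
      self_mem_nhdsWithin] with l hl1 hl2 hne
    have hlr : l ∈ ball l₀ r := (hb _ (hin 0 (mem_closedBall_self (by linarith)) l hl2)).2.2.2
    have hsδ : closedBall (0 : ℂ) (η / 2) ⊆ ball 0 δ := fun s hs => (hb _ (hin s hs l hl2)).2.2.1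
    have hd : DiffContOnCl ℂ (fun s => Y (s, l)) (ball 0 (η / 2)) := by
      refine DifferentiableOn.diffContOnCl ?_
      rw [closure_ball _ (by linarith)]
      exact hY.comp (f := fun s : ℂ => (s, l)) (by fun_prop) fun s hs => ⟨hsδ hs, hlr⟩
    have hlow : ∀ s ∈ closedBall (0 : ℂ) (η / 2), ‖s‖ * m ≤ ‖Y (s, l) - Y (0, l)‖ := by
      intro s hs
      rw [eW l hlr s (hsδ hs), norm_mul]
      exact mul_le_mul_of_nonneg_left (hb _ (hin s hs l hl2)).1.le (norm_nonneg _)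
    obtain ⟨c, hc, hc0⟩ := hd.ball_subset_image_closedBall (ε := η / 2 * m) (by linarith)
      (fun s hs => by
        have := hlow s (sphere_subset_closedBall hs)
        rwa [mem_sphere_zero_iff_norm.1 hs] at this)
      (by
        refine Filter.Frequently.filter_mono (Filter.Eventually.frequently (f := 𝓝[≠] (0 : ℂ)) ?_)
          nhdsWithin_le_nhds
        filter_upwards [nhdsWithin_le_nhds (closedBall_mem_nhds (0 : ℂ) (half_pos hη)),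
          self_mem_nhdsWithin] with s hs hs0 h
        have h4 := hlow s hs
        rw [h, sub_self, norm_zero] at h4
        have h5 : 0 < ‖s‖ * m := mul_pos (norm_pos_iff.2 hs0) hm0
        linarith)
      (show (0 : ℂ) ∈ ball (Y (0, l)) (η / 2 * m / 2) by
        rw [mem_ball, dist_zero_left]
        exact hl1)
    have hc0' : Y (c, l) = 0 := hc0
    have hne0 : Y (0, l) ≠ 0 := by
      rw [hY0 l hlr]
      exact (tay_ne_zero_iff (anal_fst isOpen_ball hZ h00 hlr) (hge l hlr)).2 (h1 l hlr hne)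
    have hcne : c ≠ 0 := fun h => hne0 (h ▸ hc0')
    have h4 := (hb _ (hin c hc l hl2)).2.1 hcne
      (by rw [hYe l hlr (hge l hlr) c (hsδ hc), hc0', mul_zero])
    have h5 := hlow c hc
    rw [hc0', zero_sub, norm_neg] at h5
    rw [le_inv_mul_iff₀ (mul_pos hκ hm0)]
    calc κ * m * ‖a l‖ = κ * ‖a l‖ * m := by ring
      _ ≤ ‖c‖ * m := mul_le_mul_of_nonneg_right h4 hm0.le
      _ ≤ _ := h5
  rw [← order_one_of_le haa ha ht hY00 key]
  refine analyticOrderAt_congr ?_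
  filter_upwards [ball_mem_nhds l₀ hr] with l hl using (hY0 l hl).symm

theorem contra_abs {n : ℕ} {l₁ : ℂ} {ρ ε₀ δ : ℝ} (hρ : 0 < ρ) (hε : 0 < ε₀) (hδ : 0 < δ)
    {N DA DD : ℂ × ℂ × ℂ × ℂ → ℂ} {Z U₁ U₂ U₃ : ℂ × ℂ → ℂ} {a Rf : ℂ → ℂ}
    (hN : DifferentiableOn ℂ N (univ ×ˢ ball 0 ε₀ ×ˢ univ ×ˢ univ))
    (hDA : DifferentiableOn ℂ DA (univ ×ˢ ball 0 ε₀ ×ˢ univ ×ˢ univ))
    (hDD : DifferentiableOn ℂ DD (univ ×ˢ ball 0 ε₀ ×ˢ univ ×ˢ univ))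
    (hZ : Differentiable ℂ Z) (ha : DifferentiableOn ℂ a (ball l₁ (2 * ρ)))
    (hU : DifferentiableOn ℂ U₁ (ball 0 δ ×ˢ ball l₁ (2 * ρ)) ∧
      DifferentiableOn ℂ U₂ (ball 0 δ ×ˢ ball l₁ (2 * ρ)) ∧
      DifferentiableOn ℂ U₃ (ball 0 δ ×ˢ ball l₁ (2 * ρ)))
    (hfac : ∀ s ∈ ball (0 : ℂ) δ, ∀ l ∈ ball l₁ (2 * ρ),
      U₁ (s, l) ≠ 0 ∧ U₂ (s, l) ≠ 0 ∧ U₃ (s, l) ≠ 0 ∧
      N (s, 0, 0, l) = Z (s, l) * (s - a l) * U₁ (s, l) ∧
      DA (s, 0, 0, l) = (s - a l) * U₂ (s, l) ∧ DD (s, 0, 0, l) = (s - a l) * U₃ (s, l))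
    (ha1 : ∀ l ∈ sphere l₁ ρ, a l ≠ 0)
    (ha2 : ∀ l ∈ closedBall l₁ ρ, a l = 0 → deriv a l ≠ 0 ∧
      ∀ l' ∈ closedBall l₁ ρ, a l' = 0 → l' = l)
    (h3 : ∀ l₀ ∈ closedBall l₁ ρ, a l₀ = 0 → ∃ κ > 0, ∀ᶠ x : ℂ × ℂ in 𝓝 (0, l₀),
      x.1 ≠ 0 → Z x = 0 → κ * ‖a x.2‖ ≤ ‖x.1‖)
    (hord : ∀ᶠ e : ℝ in 𝓝 0, ∀ l ∈ ball l₁ (2 * ρ), ∃ i j : ℕ,
      analyticOrderAt (fun s => DA (s, e, 0, l)) 0 = i ∧
      analyticOrderAt (fun s => DD (s, e, 0, l)) 0 = j ∧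
      analyticOrderAt (fun s => N (s, e, 0, l)) 0 = (n + i + j : ℕ))
    (hc : ∀ e l, DA (0, 0, e, l) = DA (0, 0, 0, l) ∧ DD (0, 0, e, l) = DD (0, 0, 0, l))
    (hO : ∀ l ∈ sphere l₁ ρ, ∃ C : ℝ, ∀ s : ℝ, C < s → ∃ K : ℝ, ∀ᶠ e : ℝ in 𝓝 0,
      ‖N (s, e, 0, l) * (DA (s, 0, e, l) * DD (s, 0, e, l)) -
        N (s, 0, e, l) * (DA (s, e, 0, l) * DD (s, e, 0, l))‖ ≤ K * e ^ 2)
    (hR : ∀ l ∈ sphere l₁ ρ, (∀ e, (n : ℕ∞) ≤ analyticOrderAt (fun s => N (s, 0, e, l)) 0) ∧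
      (tay n (fun s => N (s, 0, 0, l)) ≠ 0 →
        deriv (fun e => tay n fun s => N (s, 0, e, l)) 0 = Rf l * tay n fun s => N (s, 0, 0, l))) :
    ContinuousOn Rf (sphere l₁ ρ) ∧ (∮ l in C(l₁, ρ), Rf l) = 0 := by
  have h0ε : (0 : ℂ) ∈ ball (0 : ℂ) ε₀ := mem_ball_self hε
  have h0δ : (0 : ℂ) ∈ ball (0 : ℂ) δ := mem_ball_self hδ
  have hδn : ball (0 : ℂ) δ ∈ 𝓝 (0 : ℂ) := ball_mem_nhds _ hδ
  have hsub : closedBall l₁ ρ ⊆ ball l₁ (2 * ρ) := closedBall_subset_ball (by linarith)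
  have hcomp : ∀ {F : ℂ × ℂ × ℂ × ℂ → ℂ},
      DifferentiableOn ℂ F (univ ×ˢ ball 0 ε₀ ×ˢ univ ×ˢ univ) →
      DifferentiableOn ℂ (fun x : ℂ × ℂ => F (0, x.1, 0, x.2)) (ball 0 ε₀ ×ˢ ball l₁ (2 * ρ)) ∧
      (∀ l, DifferentiableOn ℂ (fun x : ℂ × ℂ => F (x.1, x.2, 0, l)) (univ ×ˢ ball 0 ε₀)) ∧
      (∀ l, DifferentiableOn ℂ (fun x : ℂ × ℂ => F (x.1, 0, x.2, l)) (univ ×ˢ ball 0 ε₀)) := by
    intro F hF
    exact ⟨hF.comp (f := fun x : ℂ × ℂ => ((0 : ℂ), x.1, (0 : ℂ), x.2)) (by fun_prop)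
        fun x hx => ⟨trivial, hx.1, trivial, trivial⟩,
      fun l => hF.comp (f := fun x : ℂ × ℂ => (x.1, x.2, (0 : ℂ), l)) (by fun_prop)
        fun x hx => ⟨trivial, hx.2, trivial, trivial⟩,
      fun l => hF.comp (f := fun x : ℂ × ℂ => (x.1, (0 : ℂ), x.2, l)) (by fun_prop)
        fun x _ => ⟨trivial, h0ε, trivial, trivial⟩⟩
  have hC : DifferentiableOn ℂ (fun x : ℂ × ℂ => tay n fun s => N (s, x.1, 0, x.2))
      (ball 0 ε₀ ×ˢ ball l₁ (2 * ρ)) :=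
    diffOn_tay (isOpen_ball.prod isOpen_ball) one_pos
      (f := fun y : ℂ × ℂ × ℂ => N (y.1, y.2.1, 0, y.2.2))
      (hN.comp (f := fun y : ℂ × ℂ × ℂ => (y.1, y.2.1, (0 : ℂ), y.2.2)) (by fun_prop)
        fun y hy => ⟨trivial, hy.2.1, trivial, trivial⟩) n
  have hZa : ∀ l, AnalyticAt ℂ (fun s => Z (s, l)) 0 := fun l =>
    (hZ.comp (f := fun s : ℂ => (s, l)) (by fun_prop)).analyticAt 0
  have hsa : ∀ l, AnalyticAt ℂ (fun s : ℂ => s - a l) 0 := fun l => by fun_prop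
  have hoZ : ∀ l ∈ ball l₁ (2 * ρ),
      (a l = 0 → analyticOrderAt (fun s => Z (s, l)) 0 = (n + 1 : ℕ)) ∧
      (a l ≠ 0 → analyticOrderAt (fun s => Z (s, l)) 0 = n) := by
    intro l hl
    obtain ⟨i, j, hi, hj, hn⟩ := hord.self_of_nhds l hl
    rw [Complex.ofReal_zero] at hi hj hn
    obtain ⟨k, hk, hk1, hk0⟩ := order_sub (a l)
    rw [order_unit (hsa l) (anal_fst isOpen_ball hU.2.1 h0δ hl) (hfac 0 h0δ l hl).2.1
      (by filter_upwards [hδn] with s hs using (hfac s hs l hl).2.2.2.2.1), hk] at hi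
    rw [order_unit (hsa l) (anal_fst isOpen_ball hU.2.2 h0δ hl) (hfac 0 h0δ l hl).2.2.1
      (by filter_upwards [hδn] with s hs using (hfac s hs l hl).2.2.2.2.2), hk] at hj
    rw [order_unit ((hZa l).mul (hsa l)) (anal_fst isOpen_ball hU.1 h0δ hl) (hfac 0 h0δ l hl).1
      (by filter_upwards [hδn] with s hs using (hfac s hs l hl).2.2.2.1),
      analyticOrderAt_mul (hZa l) (hsa l), hk] at hn
    have e1 : k = i := ENat.coe_inj.1 hi
    have e2 : k = j := ENat.coe_inj.1 hj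
    subst e1 e2
    rw [Nat.cast_add] at hn
    have e3 := ENat.add_left_injective_of_ne_top (ENat.coe_ne_top k) hn
    exact ⟨fun h => by rw [e3, hk1 h], fun h => by rw [e3, hk0 h, add_zero]⟩
  have hgeZ : ∀ l ∈ ball l₁ (2 * ρ), (n : ℕ∞) ≤ analyticOrderAt (fun s => Z (s, l)) 0 := by
    intro l hl
    by_cases h : a l = 0
    · rw [(hoZ l hl).1 h]
      exact ENat.coe_le_coe.2 (Nat.le_succ n)
    · rw [(hoZ l hl).2 h]
  have eC : ∀ l ∈ ball l₁ (2 * ρ), tay n (fun s => N (s, 0, 0, l)) =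
      tay n (fun s => Z (s, l)) * (-a l * U₁ (0, l)) := by
    intro l hl
    rw [tay_congr (g := fun s => Z (s, l) * ((s - a l) * U₁ (s, l))) n (by
      filter_upwards [hδn] with s hs
      rw [(hfac s hs l hl).2.2.2.1, mul_assoc]),
      tay_mul (g := fun s => (s - a l) * U₁ (s, l)) (hZa l)
        ((hsa l).mul (anal_fst isOpen_ball hU.1 h0δ hl)) (hgeZ l hl), zero_sub]
  have hz3 : ∀ l ∈ closedBall l₁ ρ, ¬ (l ∈ closedBall l₁ ρ ∧ a l = 0) →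
      DA (0, 0, 0, l) ≠ 0 ∧ DD (0, 0, 0, l) ≠ 0 ∧ tay n (fun s => N (s, 0, 0, l)) ≠ 0 := by
    intro l hl h
    have h1 : a l ≠ 0 := fun h' => h ⟨hl, h'⟩
    obtain ⟨u1, u2, u3, -, e2, e3⟩ := hfac 0 h0δ l (hsub hl)
    rw [e2, e3, eC l (hsub hl), zero_sub]
    exact ⟨mul_ne_zero (neg_ne_zero.2 h1) u2, mul_ne_zero (neg_ne_zero.2 h1) u3,
      mul_ne_zero ((tay_ne_zero_iff (hZa l) (hgeZ l (hsub hl))).2 ((hoZ l (hsub hl)).2 h1))
        (mul_ne_zero (neg_ne_zero.2 h1) u1)⟩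
  have hεn : ∀ᶠ e : ℝ in 𝓝 0, (e : ℂ) ∈ ball (0 : ℂ) ε₀ := by
    filter_upwards [ball_mem_nhds (0 : ℝ) hε] with e he
    simpa using he
  obtain ⟨H1, H2⟩ := hur (A := fun x : ℂ × ℂ => DA (0, x.1, 0, x.2))
    (B := fun x : ℂ × ℂ => DD (0, x.1, 0, x.2))
    (C := fun x : ℂ × ℂ => tay n fun s => N (s, x.1, 0, x.2)) hρ hε (hcomp hDA).1 (hcomp hDD).1 hC
    (fun l => l ∈ closedBall l₁ ρ ∧ a l = 0)
    (fun l l' h h' => ((ha2 l h.1 h.2).2 l' h'.1 h'.2).symm)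
    (by
      rintro l₀ ⟨hl, h0⟩
      have hb : l₀ ∈ ball l₁ ρ := by
        rw [← closedBall_diff_sphere]
        exact ⟨hl, fun h => ha1 l₀ h h0⟩
      have hn : ball l₁ (2 * ρ) ∈ 𝓝 l₀ := isOpen_ball.mem_nhds (hsub hl)
      have haa : AnalyticAt ℂ a l₀ := ha.analyticAt hn
      have ho : analyticOrderAt a l₀ = 1 :=
        haa.analyticOrderAt_eq_one_of_zero_deriv_ne_zero h0 (ha2 l₀ hl h0).1
      have hon : analyticOrderAt (-a) l₀ = 1 := by rw [analyticOrderAt_neg, ho]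
      have hu : ∀ {U G : ℂ → ℂ}, AnalyticAt ℂ U l₀ → U l₀ ≠ 0 →
          (∀ m ∈ ball l₁ (2 * ρ), G m = (0 - a m) * U m) → analyticOrderAt G l₀ = 1 := by
        intro U G h1 h2 h4
        rw [order_unit haa.neg h1 h2 (by
          filter_upwards [hn] with m hm
          rw [h4 m hm, zero_sub, Pi.neg_apply]), hon]
      obtain ⟨u1, u2, u3, -⟩ := hfac 0 h0δ l₀ (hsub hl)
      refine ⟨hb, hu (anal_snd isOpen_ball hU.2.1 h0δ (hsub hl)) u2
          fun m hm => (hfac 0 h0δ m hm).2.2.2.2.1,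
        hu (anal_snd isOpen_ball hU.2.2 h0δ (hsub hl)) u3
          fun m hm => (hfac 0 h0δ m hm).2.2.2.2.2, ?_⟩
      obtain ⟨r, hr, hrb⟩ := Metric.isOpen_iff.1 isOpen_ball l₀ hb
      obtain ⟨κ, hκ, h4⟩ := h3 l₀ hl h0
      have h5 := order_lead_one (Z := Z) (n := n) one_pos hr hκ hZ.differentiableOn ho haa
        ((hoZ l₀ (hsub hl)).1 h0) (fun l hl' hne => (hoZ l (hsub (ball_subset_closedBall
          (hrb hl')))).2 fun h => hne ((ha2 l₀ hl h0).2 l (ball_subset_closedBall (hrb hl')) h)) h4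
      have h6 : AnalyticAt ℂ (fun l => tay n fun s => Z (s, l)) l₀ :=
        (diffOn_tay isOpen_univ one_pos hZ.differentiableOn n).analyticAt univ_mem
      have h7 : AnalyticAt ℂ (fun l => U₁ (0, l)) l₀ := anal_snd isOpen_ball hU.1 h0δ (hsub hl)
      rw [order_mul' (g := fun l => -a l * U₁ (0, l)) h6 (haa.neg.mul h7)
        (by filter_upwards [hn] with m hm using eC m hm), h5,
        hu h7 u1 fun m _ => by rw [zero_sub]]
      rfl)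
    hz3
    (by
      filter_upwards [hord, hεn] with e he hee l hl
      obtain ⟨i, j, hi, hj, hn⟩ := he l (hsub hl)
      have a1 : AnalyticAt ℂ (fun s => DA (s, e, 0, l)) 0 :=
        anal_fst isOpen_univ ((hcomp hDA).2.1 l) trivial hee
      have a2 : AnalyticAt ℂ (fun s => DD (s, e, 0, l)) 0 :=
        anal_fst isOpen_univ ((hcomp hDD).2.1 l) trivial hee
      have a3 : AnalyticAt ℂ (fun s => N (s, e, 0, l)) 0 :=
        anal_fst isOpen_univ ((hcomp hN).2.1 l) trivial hee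
      have b1 := a1.analyticOrderAt_eq_zero
      have b2 := a2.analyticOrderAt_eq_zero
      have b3 := tay_ne_zero_iff (n := n) a3 (by rw [hn]; exact ENat.coe_le_coe.2 (by omega))
      rw [hi, Nat.cast_eq_zero] at b1
      rw [hj, Nat.cast_eq_zero] at b2
      rw [hn, Nat.cast_inj] at b3
      rw [← not_iff_not]
      refine b3.trans ?_
      rw [mul_eq_zero, not_or]
      exact ⟨fun h => ⟨b1.1 (by omega), b2.1 (by omega)⟩, fun h => by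
        rw [b1.2 h.1, b2.2 h.2]; rfl⟩)
  have heq : EqOn (fun l => deriv (fun e => tay n fun s => N (s, e, 0, l)) 0 /
      (tay n fun s => N (s, 0, 0, l)) - deriv (fun e => DA (0, e, 0, l) * DD (0, e, 0, l)) 0 /
        (DA (0, 0, 0, l) * DD (0, 0, 0, l))) Rf (sphere l₁ ρ) := by
    intro l hl
    have hl' := sphere_subset_closedBall hl
    obtain ⟨n1, n2, n3⟩ := hz3 l hl' fun h => ha1 l hl h.2
    obtain ⟨C, hCO⟩ := hO l hl
    have h1 := var_lead (N₁ := fun x : ℂ × ℂ => N (x.1, x.2, 0, l))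
      (D₁ := fun x : ℂ × ℂ => DA (x.1, x.2, 0, l) * DD (x.1, x.2, 0, l))
      (N₂ := fun x : ℂ × ℂ => N (x.1, 0, x.2, l))
      (D₂ := fun x : ℂ × ℂ => DA (x.1, 0, x.2, l) * DD (x.1, 0, x.2, l)) (n := n) hε
      ((hcomp hN).2.1 l) (((hcomp hDA).2.1 l).mul ((hcomp hDD).2.1 l)) ((hcomp hN).2.2 l)
      (((hcomp hDA).2.2 l).mul ((hcomp hDD).2.2 l)) (fun _ => rfl) (fun _ => rfl)
      (fun e _ => by simp only [(hc e l).1, (hc e l).2]) hCO
      (by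
        filter_upwards [hord] with e he
        obtain ⟨i, j, -, -, hn⟩ := he l (hsub hl')
        exact ⟨by rw [hn]; exact ENat.coe_le_coe.2 (by omega), (hR l hl).1 e⟩)
    simp only at h1
    rw [(hR l hl).2 n3] at h1
    have n4 := mul_ne_zero n1 n2
    beta_reduce
    rw [div_sub_div _ _ n3 n4, div_eq_iff (mul_ne_zero n3 n4), h1]
    ring
  exact ⟨H1.congr heq.symm, (circleIntegral.integral_congr hρ.le (by
    simpa only [abs_of_pos hρ] using heq.symm)).trans H2⟩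

end Pool.Agent.Lib.MP_de7bb2_an
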