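import Pool.Agent.Lib.MP_de7bb2_an.H20Wall

/-! The Markov partition of the circle. TASK ARC. -/

namespace Pool.Agent.Lib.MP_de7bb2_an

open Metric Set Complex ComplexConjugate

variable {G : ℕ} [hG : Fact (2 ≤ G)] {b : ZMod 2} {k m m' : L G} {Y Z : V}

namespace ArcAux

/-- First coordinate in the frame of the letter `m`. -/
noncomputable def cx (m : L G) (Z : V) : ℝ := (Z.2.1 * conj (ee m)).re

/-- Second coordinate in the frame of the letter `m`. -/
noncomputable def cw (m : L G) (Z : V) : ℝ := (Z.2.1 * conj (ee m)).im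

omit hG in
theorem sg_pos : 0 < sg G := Real.sqrt_pos.2 (by positivity)

omit hG in
theorem sq_add (m : L G) (Z : V) : cx m Z ^ 2 + cw m Z ^ 2 = ‖Z.2.1‖ ^ 2 := by
  have h : ‖Z.2.1 * conj (ee m)‖ = ‖Z.2.1‖ := by rw [norm_mul, norm_conj, norm_ee, mul_one]
  rw [← h, Complex.sq_norm, normSq_apply, cx, cw]
  ring

theorem cx_succ (m : L G) (Z : V) :
    cx (m + 1) Z = c0 G ^ 2 * cx m Z + s0 G * sg G * cw m Z := by
  rw [cx, ee_add, map_mul, ← mul_assoc, mul_re, conj_re, conj_im, re_ee_one, im_ee_one, cx, cw]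
  ring

theorem cx_pred (m : L G) (Z : V) :
    cx (m - 1) Z = c0 G ^ 2 * cx m Z - s0 G * sg G * cw m Z := by
  have h1 : ee (1 : L G) * conj (ee (1 : L G)) = 1 := by
    rw [mul_conj, normSq_eq_norm_sq, norm_ee]
    simp
  have h2 : conj (ee (m - 1)) = conj (ee m) * ee (1 : L G) := by
    have := ee_add (m - 1) 1
    rw [sub_add_cancel] at this
    rw [this, map_mul, mul_assoc, mul_comm _ (ee (1 : L G)), h1, mul_one]
  rw [cx, h2, ← mul_assoc, mul_re, re_ee_one, im_ee_one, cx, cw]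
  ring

omit hG in
theorem side_NN (hZ : IsRe Z) (m : L G) (a : ℝ) : side Z (NN m a) = cx m Z - a * Z.1.re := by
  rw [side_eq hZ (isRe_NN m a), cx]
  simp [NN, mul_comm]

omit hG in
theorem side_wn (hZ : IsRe Z) (m : L G) :
    side Z (wn m) = (cx m Z - c0 G * Z.1.re) / s0 G := by
  rw [side_eq hZ (isRe_wn m), cx]
  simp only [wn, map_div₀, conj_ofReal, ← mul_div_assoc, div_ofReal_re, ofReal_re]
  ring

theorem side_wn_nonneg (hZ : IsRe Z) (m : L G) :
    0 ≤ side Z (wn m) ↔ c0 G * Z.1.re ≤ cx m Z := by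
  rw [side_wn hZ, le_div_iff₀ s0_pos, zero_mul, sub_nonneg]

theorem side_wn_nonpos (hZ : IsRe Z) (m : L G) :
    side Z (wn m) ≤ 0 ↔ cx m Z ≤ c0 G * Z.1.re := by
  rw [side_wn hZ, div_le_iff₀ s0_pos, zero_mul, sub_nonpos]

omit hG in
theorem br_self_re (hZ : IsRe Z) : (br Z Z).re = Z.1.re ^ 2 - ‖Z.2.1‖ ^ 2 := by
  have := side_eq hZ hZ
  rw [side, mul_conj, ofReal_re, normSq_eq_norm_sq] at this
  linarith

omit hG in
theorem nul_sq (hY : Nul Y) (m : L G) : cx m Y ^ 2 + cw m Y ^ 2 = Y.1.re ^ 2 := by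
  have := br_self_re hY.1
  rw [hY.2.2, zero_re] at this
  rw [sq_add]
  linarith

omit hG in
theorem key {c s g x w y : ℝ} (hs : s ^ 2 = 1 - c ^ 2) (hg : g ^ 2 = 1 + c ^ 2)
    (h : x ^ 2 + w ^ 2 = y ^ 2) : (c * y - (c ^ 2 * x + s * g * w)) *
      (c * y - (c ^ 2 * x - s * g * w)) =
      (x - (c ^ 3 + s ^ 2 * g) * y) * (x - (c ^ 3 - s ^ 2 * g) * y) := by
  have hw : w ^ 2 = y ^ 2 - x ^ 2 := by linarith
  have e1 : (c * y - (c ^ 2 * x + s * g * w)) * (c * y - (c ^ 2 * x - s * g * w)) =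
      (c * y - c ^ 2 * x) ^ 2 - s ^ 2 * g ^ 2 * w ^ 2 := by ring
  have e2 : (x - (c ^ 3 + s ^ 2 * g) * y) * (x - (c ^ 3 - s ^ 2 * g) * y) =
      (x - c ^ 3 * y) ^ 2 - (s ^ 2) ^ 2 * g ^ 2 * y ^ 2 := by ring
  rw [e1, e2, hs, hg, hw]
  ring

omit hG in
theorem add_one_eq : ∀ {a b : ZMod 2}, a ≠ b → a + 1 = b := by decide

omit hG in
theorem add_one_ne : ∀ a : ZMod 2, a + 1 ≠ a := by decide

theorem ne_succ (m : L G) : m ≠ m + 1 := by
  have := natCast_ne_zero (G := G) (i := 1) (by norm_num) (by norm_num)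
  simpa using this

theorem ne_pred (m : L G) : m ≠ m - 1 := fun h =>
  ne_succ (m - 1) (by rw [sub_add_cancel]; exact h.symm)

omit hG in
theorem far_or (h : m ≠ m') : Far m m' ∨ m' = m + 1 ∨ m' = m - 1 := by
  unfold Far
  tauto

omit hG in
theorem par_adj (h : m' = m + 1 ∨ m' = m - 1) : par m' = par m + 1 := by
  rcases h with rfl | rfl
  exacts [par_add_one m, par_sub_one m]

omit hG in
theorem edge_adj (h : Edge b m m') (h' : m' = m + 1 ∨ m' = m - 1) : par m = b := by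
  by_contra hb
  have := h.2 hb
  tauto

theorem far_nonpos (h : Far m m') (hZ : Fut Z) (h0 : 0 ≤ side Z (wn m)) : side Z (wn m') ≤ 0 := by
  obtain ⟨η, hη, hh⟩ := far_gap (G := G)
  have h1 := hh m m' h Z hZ h0
  have h2 : 0 ≤ Z.1.re := (norm_nonneg _).trans hZ.2
  nlinarith

theorem side_le (h : Edge b k m) (hZ : Reg b m Z) : side Z (wn k) ≤ 0 := by
  rcases far_or h.1 with h1 | h1
  · exact far_nonpos h1.symm hZ.1 hZ.2.1
  · have h2 : par m ≠ b := by
      rw [par_adj h1, edge_adj h h1]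
      exact add_one_ne b
    rcases h1 with rfl | rfl
    · simpa using (hZ.2.2 h2).2
    · simpa using (hZ.2.2 h2).1

theorem exists_max (Z : V) :
    ∃ m : L G, 0 ≤ cx m Z ∧ (1 + c0 G ^ 2) * ‖Z.2.1‖ ^ 2 ≤ 2 * cx m Z ^ 2 := by
  obtain ⟨m, hm⟩ := Finite.exists_max fun m : L G => cx m Z
  have h1 := hm (m + 1)
  have h2 := hm (m - 1)
  rw [cx_succ] at h1
  rw [cx_pred] at h2
  have hs := s0_pos (G := G)
  have hs2 := s0_sq (G := G)
  have h0 : s0 G * (s0 G * cx m Z) = cx m Z - c0 G ^ 2 * cx m Z := by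
    linear_combination cx m Z * hs2
  have h3 : sg G * cw m Z ≤ s0 G * cx m Z := le_of_mul_le_mul_left (by linarith) hs
  have h4 : -(s0 G * cx m Z) ≤ sg G * cw m Z := le_of_mul_le_mul_left (by linarith) hs
  have h5 := sq_le_sq' h4 h3
  rw [mul_pow, mul_pow, hs2, sg_sq] at h5
  refine ⟨m, nonneg_of_mul_nonneg_right (a := s0 G) (by linarith) hs, ?_⟩
  rw [← sq_add m]
  nlinarith

theorem norm_wn (m : L G) : ‖wn m‖ = 1 / s0 G := by
  have hs := s0_pos (G := G)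
  have h1 : c0 G / s0 G ≤ 1 / s0 G := by
    gcongr
    exact c0_lt_one.le
  simp only [wn, Prod.norm_def, norm_div, norm_conj, norm_ee, norm_real, Real.norm_eq_abs,
    abs_of_pos hs, abs_of_pos (c0_pos (G := G)), max_self]
  exact max_eq_right h1

omit hG in
theorem side_neg (Z n : V) : side Z (-n) = -side Z n := by simp [side]

end ArcAux

open ArcAux

theorem arc_iff : Arc b m Y ↔ Nul Y ∧ Reg b m Y := by
  refine and_congr_right fun hY => ?_
  have hc := c0_pos (G := G)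
  have hc1 := c0_lt_one (G := G)
  have hcQ := c0_lt_cQ (G := G)
  have hs := s0_pos (G := G)
  have hg := sg_pos (G := G)
  have hy := hY.2.1
  have hn := nul_sq hY m
  have hk := key (s0_sq (G := G)) sg_sq hn
  rw [Reg, side_NN hY.1, side_wn_nonneg hY.1, side_wn_nonpos hY.1, side_wn_nonpos hY.1, cx_succ,
    cx_pred, sub_nonneg, ca, and_iff_right hY.fut]
  split_ifs with h
  · simp [h]
  simp only [ne_eq, h, not_false_eq_true, true_implies]
  have h1 : (c0 G ^ 3 - s0 G ^ 2 * sg G) * Y.1.re < c0 G * Y.1.re := by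
    refine mul_lt_mul_of_pos_right ?_ hy
    have : 0 < s0 G ^ 2 * sg G := by positivity
    have : 0 < c0 G * (1 - c0 G ^ 2) := mul_pos hc (by nlinarith)
    nlinarith
  have h2 : c0 G * Y.1.re < cQ G * Y.1.re := mul_lt_mul_of_pos_right hcQ hy
  rw [cQ] at h2 ⊢
  constructor
  · intro h3
    have h4 : cx m Y ≤ Y.1.re := by nlinarith
    have h5 : 0 ≤ c0 G * Y.1.re - c0 G ^ 2 * cx m Y := by
      have : 0 ≤ c0 G * (Y.1.re - c0 G * cx m Y) := mul_nonneg hc.le (by nlinarith)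
      nlinarith
    have h6 := mul_nonneg (sub_nonneg.2 h3) (sub_nonneg.2 (h1.trans (h2.trans_le h3)).le)
    rw [← hk] at h6
    refine ⟨by linarith, ?_, ?_⟩ <;> by_contra h7 <;> nlinarith
  · rintro ⟨h3, h4, h5⟩
    have h6 := mul_nonneg (sub_nonneg.2 h4) (sub_nonneg.2 h5)
    rw [hk] at h6
    exact sub_nonneg.1 (nonneg_of_mul_nonneg_left h6 (by linarith))

omit hG in
theorem Arc.smul (h : Arc b m Y) {r : ℝ} (hr : 0 < r) : Arc b m ((r : ℂ) • Y) :=
  ⟨h.1.smul hr, by rw [side_smul]; exact mul_nonneg hr.le h.2⟩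

theorem arc_center (b : ZMod 2) (m : L G) : Arc b m (xi (ee m)) := by
  have h := nul_xi (norm_ee m)
  refine ⟨h, ?_⟩
  have h1 : cx m (xi (ee m)) = 1 := by
    simp [cx, xi, mul_conj, normSq_eq_norm_sq, norm_ee]
  have h2 : (xi (ee m)).1.re = 1 := by simp [xi]
  rw [side_NN h.1, h1, h2, ca]
  have := c0_lt_one (G := G)
  have := cQ_lt_one (G := G)
  split_ifs <;> linarith

theorem arcQ_gap : ∃ η > 0, ∀ (b : ZMod 2) (m : L G) (Y : V), par m ≠ b → Arc b m Y →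
    η * Y.1.re ≤ side Y (wn m) := by
  refine ⟨(cQ G - c0 G) / s0 G, div_pos (sub_pos.2 c0_lt_cQ) s0_pos, fun b m Y h hY => ?_⟩
  have h1 := hY.2
  rw [side_NN hY.1.1, ca, if_neg h] at h1
  rw [side_wn hY.1.1, div_mul_eq_mul_div]
  exact div_le_div_of_nonneg_right (by linarith) s0_pos.le

theorem arc_cover (b : ZMod 2) (hY : Nul Y) : ∃ m : L G, Arc b m Y := by
  obtain ⟨m, h0, h1⟩ := exists_max (G := G) Y
  have hc := c0_pos (G := G)
  have hc1 := c0_lt_one (G := G)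
  have h2 : 0 ≤ side Y (wn m) := by
    rw [← sq_add m, nul_sq hY] at h1
    rw [side_wn_nonneg hY.1]
    refine abs_le_of_sq_le_sq' ?_ h0 |>.2
    have : 0 ≤ (1 - c0 G ^ 2) * Y.1.re ^ 2 := mul_nonneg (by nlinarith) (sq_nonneg _)
    nlinarith
  by_cases h : par m ≠ b → side Y (wn (m + 1)) ≤ 0 ∧ side Y (wn (m - 1)) ≤ 0
  · exact ⟨m, arc_iff.2 ⟨hY, hY.fut, h2, h⟩⟩
  rw [Classical.not_imp, not_and_or, not_le, not_le] at h
  rcases h with ⟨h, h3 | h3⟩
  · exact ⟨m + 1, arc_iff.2 ⟨hY, hY.fut, h3.le, fun h4 =>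
      absurd ((par_add_one m).trans (add_one_eq h)) h4⟩⟩
  · exact ⟨m - 1, arc_iff.2 ⟨hY, hY.fut, h3.le, fun h4 =>
      absurd ((par_sub_one m).trans (add_one_eq h)) h4⟩⟩

theorem Reg.step (h : Edge b m m') (hZ : Reg b m' Z) : Reg b m (mir m Z) := by
  refine ⟨(iso_refl m).fut _ hZ.1, ?_, fun hb => ?_⟩
  · rw [side_refl_self, neg_nonneg]
    exact side_le h hZ
  · rw [side_refl_succ, side_refl_pred]
    exact ⟨side_le ⟨(h.2 hb).1.symm, fun h4 =>
        absurd ((par_add_one m).trans (add_one_eq hb)) h4⟩ hZ,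
      side_le ⟨(h.2 hb).2.symm, fun h4 => absurd ((par_sub_one m).trans (add_one_eq hb)) h4⟩ hZ⟩

theorem Arc.step (h : Edge b m m') (hY : Arc b m' Y) : Arc b m (mir m Y) :=
  arc_iff.2 ⟨(iso_refl m).nul hY.1, (arc_iff.1 hY).2.step h⟩

theorem wall_end (hY : Nul Y) (h : side Y (wn m) = 0) :
    0 < side Y (wn (m + 1)) ∨ 0 < side Y (wn (m - 1)) := by
  by_contra h1
  rw [not_or, not_lt, not_lt] at h1
  obtain ⟨η, hη, hh⟩ := arcQ_gap (G := G)
  have h2 := hh (par m + 1) m Y (add_one_ne _).symm (arc_iff.2 ⟨hY, hY.fut, h.ge, fun _ => h1⟩)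
  have := mul_pos hη hY.2.1
  linarith

theorem ArcAux.next_of_wall (b : ZMod 2) (hY : Nul Y) (h : side Y (wn m) = 0) :
    (0 < side Y (wn (m + 1)) ∧ Arc b (m + 1) Y) ∨ (0 < side Y (wn (m - 1)) ∧ Arc b (m - 1) Y) := by
  refine (wall_end hY h).imp (fun h1 => ⟨h1, arc_iff.2 ⟨hY, hY.fut, h1.le, fun _ => ⟨?_, ?_⟩⟩⟩)
    (fun h1 => ⟨h1, arc_iff.2 ⟨hY, hY.fut, h1.le, fun _ => ⟨?_, ?_⟩⟩⟩)
  · rw [add_assoc, one_add_one_eq_two]
    exact far_nonpos (far_add_two m) hY.fut h.ge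
  · rw [add_sub_cancel_right, h]
  · rw [sub_add_cancel, h]
  · refine far_nonpos (Far.symm ?_) hY.fut h.ge
    have := far_add_two (m - 1 - 1)
    rwa [show m - 1 - 1 + 2 = m by ring] at this

theorem Arc.exists_next (hY : Arc b m Y) : ∃ m', Edge b m m' ∧ Arc b m' (mir m Y) := by
  have hN := (iso_refl m).nul hY.1
  obtain ⟨-, -, h1, h2⟩ := arc_iff.1 hY
  rw [← neg_nonpos, ← side_refl_self] at h1
  rw [← side_refl_succ, ← side_refl_pred] at h2
  obtain ⟨j, hj⟩ := arc_cover (G := G) b hN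
  have h3 := (arc_iff.1 hj).2.2.1
  by_cases h : Edge b m j
  · exact ⟨j, h, hj⟩
  by_cases h4 : m = j
  · subst h4
    rcases next_of_wall b hN (le_antisymm h1 h3) with ⟨h5, h6⟩ | ⟨h5, h6⟩
    · exact ⟨_, ⟨ne_succ m, fun hb => absurd (h2 hb).1 (not_le.2 h5)⟩, h6⟩
    · exact ⟨_, ⟨ne_pred m, fun hb => absurd (h2 hb).2 (not_le.2 h5)⟩, h6⟩
  have hb : par m ≠ b := fun hb => h ⟨h4, fun h => absurd hb h⟩
  rcases far_or h4 with h5 | rfl | rfl
  · exact absurd (h5.edge b) h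
  · rcases next_of_wall b hN (le_antisymm (h2 hb).1 h3) with ⟨-, h6⟩ | ⟨h5, -⟩
    · rw [add_assoc, one_add_one_eq_two] at h6
      exact ⟨_, (far_add_two m).edge b, h6⟩
    · rw [add_sub_cancel_right] at h5
      exact absurd h1 (not_le.2 h5)
  · rcases next_of_wall b hN (le_antisymm (h2 hb).2 h3) with ⟨h5, -⟩ | ⟨-, h6⟩
    · rw [sub_add_cancel] at h5
      exact absurd h1 (not_le.2 h5)
    · refine ⟨_, (Far.symm ?_).edge b, h6⟩
      have := far_add_two (m - 1 - 1)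
      rwa [show m - 1 - 1 + 2 = m by ring] at this

theorem arc_inter (h : m ≠ m') (h1 : Arc b m Y) (h2 : Arc b m' Y) :
    ∃ k : L G, par k = b ∧ side Y (wn k) = 0 := by
  have g1 := (arc_iff.1 h1).2
  have g2 := (arc_iff.1 h2).2
  rcases far_or h with h3 | h3
  · obtain ⟨η, hη, hh⟩ := far_gap (G := G)
    have := hh m m' h3 Y g1.1 g1.2.1
    have := mul_pos hη h1.1.2.1
    linarith [g2.2.1]
  by_cases hb : par m = b
  · exact ⟨m, hb, le_antisymm (side_le ⟨h, fun h => absurd hb h⟩ g2) g1.2.1⟩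
  · have hb' : par m' = b := (par_adj h3).trans (add_one_eq hb)
    exact ⟨m', hb', le_antisymm (side_le ⟨h.symm, fun h => absurd hb' h⟩ g1) g2.2.1⟩

theorem ch_bdd : ∃ T : ℝ, ∀ Z, Hyp Z → Ch G Z → Z.1.re ≤ T := by
  refine ⟨sg G / s0 G, fun Z hZ hC => ?_⟩
  obtain ⟨m, h0, h1⟩ := exists_max (G := G) Z
  have h2 := (side_wn_nonpos hZ.1 m).1 (hC m)
  have h3 := br_self_re hZ.1
  rw [hZ.2.2, one_re] at h3
  have h4 := pow_le_pow_left₀ h0 h2 2
  rw [le_div_iff₀ s0_pos]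
  refine (abs_le_of_sq_le_sq' ?_ sg_pos.le).2
  rw [mul_pow, s0_sq, sg_sq]
  rw [show ‖Z.2.1‖ ^ 2 = Z.1.re ^ 2 - 1 by linarith] at h1
  nlinarith

theorem sep_reg : ∃ κ > 0, ∀ (b : ZMod 2) (k m : L G), Edge b k m → ∀ Z Y, Reg (b + 1) k Z →
    Arc b m Y → κ * Y.1.re * Z.1.re ≤ (br Y Z).re := by
  obtain ⟨η, hη, hh⟩ := far_gap (G := G)
  obtain ⟨η', hη', hh'⟩ := arcQ_gap (G := G)
  have hs := s0_pos (G := G)
  have hμ := lt_min hη hη'
  refine ⟨min η η' ^ 2 / (2 * (1 / s0 G) ^ 2), by positivity, fun b k m h Z Y hZ hY => ?_⟩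
  have hy := hY.1.2.1
  rcases far_or h.1 with h1 | h1
  · rw [← norm_wn k]
    refine sep_of_side hZ.1 hY.1 (isRe_wn k) hμ hZ.2.1
      ((hh m k h1.symm Y hY.1.fut (arc_iff.1 hY).2.2.1).trans ?_)
    exact neg_le_neg (mul_le_mul_of_nonneg_right (min_le_left _ _) hy.le)
  · have hb := edge_adj h h1
    have h2 := hZ.2.2 (by rw [hb]; exact (add_one_ne b).symm)
    have h3 := hh' b m Y (by rw [par_adj h1, hb]; exact add_one_ne b) hY
    rw [← norm_wn m, ← norm_neg]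
    refine sep_of_side hZ.1 hY.1 (isRe_wn m).neg hμ ?_ ?_
    · rw [side_neg, neg_nonneg]
      rcases h1 with rfl | rfl
      exacts [h2.1, h2.2]
    · rw [side_neg]
      exact neg_le_neg ((mul_le_mul_of_nonneg_right (min_le_right _ _) hy.le).trans h3)

theorem exists_offset : ∃ (v : L G → ℝ) (r₀ U : ℝ), 0 < r₀ ∧ (∀ m, |v m| ≤ U) ∧
    ∀ m m' : L G, Edge 1 m m' → ∀ y : ℂ, Arc 1 m' (xi y) →
      r₀ ≤ Real.log (mir m (xi y)).1.re + v m' - v m ∧
        Real.log (mir m (xi y)).1.re + v m' - v m ≤ U := by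
  obtain ⟨η, hη, hh⟩ := far_gap (G := G)
  obtain ⟨C, -, hC⟩ := exists_refl_fst_le (G := G)
  have hA : 0 < c0 G / s0 G := div_pos c0_pos s0_pos
  have h0 : 0 < 2 * (c0 G / s0 G) * η := by positivity
  obtain ⟨δ, hδ⟩ : ∃ δ, δ = Real.log (1 + 2 * (c0 G / s0 G) * η) / 2 := ⟨_, rfl⟩
  have hδ0 : 0 < δ := hδ ▸ half_pos (Real.log_pos (by linarith))
  have hv : ∀ m : L G, 0 ≤ (if par m = 1 then 0 else δ) ∧ (if par m = 1 then 0 else δ) ≤ δ :=
    fun m => by split_ifs <;> constructor <;> linarith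
  refine ⟨fun m => if par m = 1 then 0 else δ, δ, |Real.log C| + δ, hδ0, fun m => ?_,
    fun m m' h y hY => ?_⟩
  · rw [abs_of_nonneg (hv m).1]
    linarith [(hv m).2, abs_nonneg (Real.log C)]
  have h1 : (xi y).1.re = 1 := by simp [xi]
  have h2 := refl_fst m hY.1.1
  have h3 := hC m _ hY.1.fut
  have h4 := side_le h (arc_iff.1 hY).2
  rw [h1] at h2 h3
  have h5 : 1 ≤ (mir m (xi y)).1.re := by nlinarith
  have h6 := Real.log_le_log (by linarith) h3
  rw [mul_one] at h6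
  refine ⟨?_, by linarith [(hv m).1, (hv m').2, le_abs_self (Real.log C)]⟩
  rcases far_or h.1 with h7 | h7
  · have h8 := hh m' m h7.symm _ hY.1.fut (arc_iff.1 hY).2.2.1
    rw [h1] at h8
    have := Real.log_le_log (by linarith)
      (show 1 + 2 * (c0 G / s0 G) * η ≤ (mir m (xi y)).1.re by nlinarith)
    linarith [(hv m).2, (hv m').1]
  · have hb := edge_adj h h7
    have hb' : par m' ≠ 1 := by rw [par_adj h7, hb]; exact add_one_ne 1
    simp only [if_pos hb, if_neg hb']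
    linarith [Real.log_nonneg h5]

end Pool.Agent.Lib.MP_de7bb2_an
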