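import Mathlib

/-! Complexified Minkowski space in light cone coordinates. TASK MINK. -/

namespace Pool.Agent.Lib.MP_de7bb2_an

open Metric Set Complex ComplexConjugate

abbrev V := ℂ × ℂ × ℂ

/-- Minus the Minkowski product; positive on the future cone. -/
noncomputable def br (Z W : V) : ℂ := Z.1 * W.1 - (Z.2.1 * W.2.2 + Z.2.2 * W.2.1) / 2

/-- The Minkowski product of real vectors. -/
noncomputable def side (Z n : V) : ℝ := -(br Z n).re

def IsRe (Z : V) : Prop := Z.1.im = 0 ∧ Z.2.2 = conj Z.2.1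

/-- Future causal vectors. -/
def Fut (Z : V) : Prop := IsRe Z ∧ ‖Z.2.1‖ ≤ Z.1.re

/-- The hyperboloid. -/
def Hyp (Z : V) : Prop := IsRe Z ∧ 0 < Z.1.re ∧ br Z Z = 1

/-- Nonzero future null vectors. -/
def Nul (Z : V) : Prop := IsRe Z ∧ 0 < Z.1.re ∧ br Z Z = 0

def oo : V := (1, 0, 0)

noncomputable def xi (y : ℂ) : V := (1, y, y⁻¹)

noncomputable def pt (E : V) : ℂ := E.2.1 / E.1

noncomputable def cross (X Y : V) : V :=
  (-(I / 2) * (X.2.1 * Y.2.2 - X.2.2 * Y.2.1), -I * (X.2.1 * Y.1 - X.1 * Y.2.1),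
    I * (X.2.2 * Y.1 - X.1 * Y.2.2))

def Sq (v : ℂ × ℂ) : V := (v.1 * v.2, v.1 ^ 2, v.2 ^ 2)

noncomputable def Herm (v : ℂ × ℂ) : V :=
  (((‖v.1‖ ^ 2 + ‖v.2‖ ^ 2) / 2 : ℝ), v.1 * conj v.2, conj v.1 * v.2)

/-- The three coordinates. -/
noncomputable def mk0 : V →L[ℂ] ℂ := ContinuousLinearMap.fst ℂ ℂ (ℂ × ℂ)
noncomputable def mk1 : V →L[ℂ] ℂ :=
  (ContinuousLinearMap.fst ℂ ℂ ℂ).comp (ContinuousLinearMap.snd ℂ ℂ (ℂ × ℂ))
noncomputable def mk2 : V →L[ℂ] ℂ :=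
  (ContinuousLinearMap.snd ℂ ℂ ℂ).comp (ContinuousLinearMap.snd ℂ ℂ (ℂ × ℂ))

/-- `br` as a continuous bilinear map; the body is free. -/
noncomputable def brL : V →L[ℂ] V →L[ℂ] ℂ :=
  (ContinuousLinearMap.mul ℂ ℂ).bilinearComp mk0 mk0 - (1 / 2 : ℂ) •
    ((ContinuousLinearMap.mul ℂ ℂ).bilinearComp mk1 mk2 +
      (ContinuousLinearMap.mul ℂ ℂ).bilinearComp mk2 mk1)

@[simp] theorem brL_apply (Z W : V) : brL Z W = br Z W := by
  simp [brL, br, mk0, mk1, mk2]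
  ring

/-- Symmetric square of the matrix with rows `(a, b)` and `(c, d)`; the body is free. -/
noncomputable def sym (a b c d : ℂ) : V →L[ℂ] V :=
  ((a * c) • mk1 + (a * d + b * c) • mk0 + (b * d) • mk2).prod
    (((a ^ 2) • mk1 + (2 * a * b) • mk0 + (b ^ 2) • mk2).prod
      ((c ^ 2) • mk1 + (2 * c * d) • mk0 + (d ^ 2) • mk2))

theorem sym_apply (a b c d : ℂ) (Z : V) : sym a b c d Z =
    (a * c * Z.2.1 + (a * d + b * c) * Z.1 + b * d * Z.2.2,
      a ^ 2 * Z.2.1 + 2 * a * b * Z.1 + b ^ 2 * Z.2.2,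
      c ^ 2 * Z.2.1 + 2 * c * d * Z.1 + d ^ 2 * Z.2.2) := by
  simp [sym, mk0, mk1, mk2]

/-- Reflection in the unit spacelike vector `n`. -/
noncomputable def reflL (n : V) : V →L[ℂ] V :=
  ContinuousLinearMap.id ℂ V + (2 : ℂ) • (brL n).smulRight n

theorem reflL_apply (n Z : V) : reflL n Z = Z + (2 * br Z n) • n := by
  have : br n Z = br Z n := by simp only [br]; ring
  simp [reflL, this, smul_smul]

/-- The point of the hyperboloid over a point of the disc. -/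
noncomputable def zv (z : ℂ) : V :=
  (((1 + ‖z‖ ^ 2) / (1 - ‖z‖ ^ 2) : ℝ), (2 / (1 - ‖z‖ ^ 2) : ℝ) * z,
    (2 / (1 - ‖z‖ ^ 2) : ℝ) * conj z)

noncomputable def vz (Z : V) : ℂ := Z.2.1 / (1 + Z.1)

/-- Time orientation preserving isometries. -/
structure Iso (A : V →L[ℂ] V) : Prop where
  br_eq : ∀ Z W, br (A Z) (A W) = br Z W
  isRe : ∀ Z, IsRe Z → IsRe (A Z)
  fut : ∀ Z, Fut Z → Fut (A Z)

variable {X Y Z W n : V}

theorem br_comm (Z W : V) : br Z W = br W Z := by simp only [br]; ring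
@[simp] theorem br_add_left (X Y W : V) : br (X + Y) W = br X W + br Y W := by
  simp [br]; ring
@[simp] theorem br_add_right (X Y W : V) : br W (X + Y) = br W X + br W Y := by
  simp [br]; ring
@[simp] theorem br_sub_left (X Y W : V) : br (X - Y) W = br X W - br Y W := by
  simp [br]; ring
@[simp] theorem br_sub_right (X Y W : V) : br W (X - Y) = br W X - br W Y := by
  simp [br]; ring
@[simp] theorem br_neg_left (X W : V) : br (-X) W = -br X W := by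
  simp [br]; ring
@[simp] theorem br_neg_right (X W : V) : br W (-X) = -br W X := by
  simp [br]; ring
@[simp] theorem br_smul_left (c : ℂ) (X W : V) : br (c • X) W = c * br X W := by
  simp [br]; ring
@[simp] theorem br_smul_right (c : ℂ) (X W : V) : br W (c • X) = c * br W X := by
  simp [br]; ring
@[simp] theorem br_oo_right (Z : V) : br Z oo = Z.1 := by simp [br, oo]
@[simp] theorem br_oo_left (Z : V) : br oo Z = Z.1 := by simp [br, oo]

@[fun_prop] theorem Continuous.br {α : Type*} [TopologicalSpace α] {f g : α → V}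
    (hf : Continuous f) (hg : Continuous g) : Continuous fun x => br (f x) (g x) := by
  unfold MP_de7bb2_an.br; fun_prop
@[fun_prop] theorem ContinuousOn.br {α : Type*} [TopologicalSpace α] {f g : α → V} {s : Set α}
    (hf : ContinuousOn f s) (hg : ContinuousOn g s) : ContinuousOn (fun x => br (f x) (g x)) s := by
  unfold MP_de7bb2_an.br; fun_prop
@[fun_prop] theorem DifferentiableAt.br {P : Type*} [NormedAddCommGroup P] [NormedSpace ℂ P]
    {f g : P → V} {p : P} (hf : DifferentiableAt ℂ f p) (hg : DifferentiableAt ℂ g p) :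
    DifferentiableAt ℂ (fun x => br (f x) (g x)) p := by
  unfold MP_de7bb2_an.br; fun_prop
@[fun_prop] theorem DifferentiableOn.br {P : Type*} [NormedAddCommGroup P] [NormedSpace ℂ P]
    {f g : P → V} {s : Set P} (hf : DifferentiableOn ℂ f s) (hg : DifferentiableOn ℂ g s) :
    DifferentiableOn ℂ (fun x => br (f x) (g x)) s := by
  unfold MP_de7bb2_an.br; fun_prop

theorem norm_br_le (Z W : V) : ‖br Z W‖ ≤ 2 * ‖Z‖ * ‖W‖ := by
  have a0 : ‖Z.1‖ ≤ ‖Z‖ := norm_fst_le Z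
  have a1 : ‖Z.2.1‖ ≤ ‖Z‖ := (norm_fst_le Z.2).trans (norm_snd_le Z)
  have a2 : ‖Z.2.2‖ ≤ ‖Z‖ := (norm_snd_le Z.2).trans (norm_snd_le Z)
  have b0 : ‖W.1‖ ≤ ‖W‖ := norm_fst_le W
  have b1 : ‖W.2.1‖ ≤ ‖W‖ := (norm_fst_le W.2).trans (norm_snd_le W)
  have b2 : ‖W.2.2‖ ≤ ‖W‖ := (norm_snd_le W.2).trans (norm_snd_le W)
  have h0 := norm_mul_le_of_le a0 b0
  have h1 := norm_mul_le_of_le a1 b2
  have h2 := norm_mul_le_of_le a2 b1
  have h3 := norm_add_le (Z.2.1 * W.2.2) (Z.2.2 * W.2.1)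
  have h4 := norm_sub_le (Z.1 * W.1) ((Z.2.1 * W.2.2 + Z.2.2 * W.2.1) / 2)
  rw [norm_div, Complex.norm_two] at h4
  unfold br
  linarith
theorem br_im (hZ : IsRe Z) (hW : IsRe W) : (br Z W).im = 0 := by
  simp [br, hZ.1, hZ.2, hW.1, hW.2]
  ring
theorem br_eq_ofReal (hZ : IsRe Z) (hW : IsRe W) : br Z W = ((br Z W).re : ℂ) :=
  Complex.ext (by simp) (by simp [br_im hZ hW])
theorem IsRe.fst_eq (hZ : IsRe Z) : Z.1 = (Z.1.re : ℂ) :=
  Complex.ext (by simp) (by simp [hZ.1])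
theorem IsRe.add (hZ : IsRe Z) (hW : IsRe W) : IsRe (Z + W) :=
  ⟨by simp [hZ.1, hW.1], by simp [hZ.2, hW.2]⟩
theorem IsRe.sub (hZ : IsRe Z) (hW : IsRe W) : IsRe (Z - W) :=
  ⟨by simp [hZ.1, hW.1], by simp [hZ.2, hW.2]⟩
theorem IsRe.neg (hZ : IsRe Z) : IsRe (-Z) := ⟨by simp [hZ.1], by simp [hZ.2]⟩
theorem IsRe.smul (hZ : IsRe Z) (r : ℝ) : IsRe ((r : ℂ) • Z) :=
  ⟨by simp [hZ.1], by simp [hZ.2]⟩
theorem IsRe.cross (hX : IsRe X) (hY : IsRe Y) : IsRe (cross X Y) := by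
  refine ⟨?_, ?_⟩
  · simp [MP_de7bb2_an.cross, hX.2, hY.2]
  · simp only [MP_de7bb2_an.cross, hX.2, hY.2]
    rw [hX.fst_eq, hY.fst_eq]
    simp
theorem br_re (hZ : IsRe Z) (hW : IsRe W) :
    (br Z W).re = Z.1.re * W.1.re - (Z.2.1 * conj W.2.1).re := by
  simp [br, hZ.1, hZ.2, hW.1, hW.2]

theorem br_self_re (hZ : IsRe Z) : (br Z Z).re = Z.1.re ^ 2 - ‖Z.2.1‖ ^ 2 := by
  rw [br_re hZ hZ, Complex.mul_conj', sq]
  norm_cast
  ring

theorem abs_re_mul_conj_le (z w : ℂ) : |(z * conj w).re| ≤ ‖z‖ * ‖w‖ := by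
  simpa using Complex.abs_re_le_norm (z * conj w)

theorem fut_of (hZ : IsRe Z) (h0 : 0 ≤ Z.1.re) (h : 0 ≤ (br Z Z).re) : Fut Z :=
  ⟨hZ, (abs_le_of_sq_le_sq' (by rw [br_self_re hZ] at h; linarith) h0).2⟩

theorem Fut.self_nonneg (h : Fut Z) : 0 ≤ (br Z Z).re := by
  rw [br_self_re h.1]
  nlinarith [h.2, norm_nonneg Z.2.1]

theorem Fut.nonneg (h : Fut Z) : 0 ≤ Z.1.re := (norm_nonneg _).trans h.2

theorem Hyp.sq_eq (h : Hyp Z) : Z.1.re ^ 2 - ‖Z.2.1‖ ^ 2 = 1 := by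
  rw [← br_self_re h.1, h.2.2, one_re]

theorem Nul.norm_eq (h : Nul Z) : ‖Z.2.1‖ = Z.1.re := by
  have := br_self_re h.1
  rw [h.2.2, zero_re] at this
  exact (sq_eq_sq₀ (norm_nonneg _) h.2.1.le).1 (by linarith)

theorem side_eq (hZ : IsRe Z) (hn : IsRe n) :
    side Z n = (Z.2.1 * conj n.2.1).re - Z.1.re * n.1.re := by
  rw [side, br_re hZ hn]; ring
theorem side_smul (r : ℝ) (Z n : V) : side ((r : ℂ) • Z) n = r * side Z n := by
  rw [side, side, br_smul_left, re_ofReal_mul]; ring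
theorem Hyp.fut (h : Hyp Z) : Fut Z := fut_of h.1 h.2.1.le (by simp [h.2.2])
theorem Nul.fut (h : Nul Z) : Fut Z := fut_of h.1 h.2.1.le (by simp [h.2.2])
theorem Fut.norm_eq (h : Fut Z) : ‖Z‖ = Z.1.re := by
  have h0 : ‖Z.1‖ = Z.1.re := by
    rw [h.1.fst_eq, Complex.norm_real, ofReal_re, Real.norm_of_nonneg h.nonneg]
  rw [Prod.norm_def, Prod.norm_def, h.1.2, Complex.norm_conj, max_self, h0, max_eq_left h.2]
theorem Hyp.one_le (h : Hyp Z) : 1 ≤ Z.1.re := by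
  nlinarith [h.sq_eq, h.2.1, sq_nonneg ‖Z.2.1‖]
theorem hyp_oo : Hyp oo := ⟨⟨by simp [oo], by simp [oo]⟩, by simp [oo], by simp [br, oo]⟩
theorem Fut.br_nonneg (hZ : Fut Z) (hW : Fut W) : 0 ≤ (br Z W).re := by
  have := (abs_le.1 (abs_re_mul_conj_le Z.2.1 W.2.1)).2
  have := mul_le_mul hZ.2 hW.2 (norm_nonneg _) hZ.nonneg
  rw [br_re hZ.1 hW.1]
  linarith
theorem Fut.br_le (hZ : Fut Z) (hW : Fut W) : (br Z W).re ≤ 2 * Z.1.re * W.1.re := by
  have := (abs_le.1 (abs_re_mul_conj_le Z.2.1 W.2.1)).1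
  have := mul_le_mul hZ.2 hW.2 (norm_nonneg _) hZ.nonneg
  rw [br_re hZ.1 hW.1]
  linarith
theorem Hyp.le_br (hZ : Hyp Z) (hW : Fut W) : W.1.re / (2 * Z.1.re) ≤ (br Z W).re := by
  have h1 := (abs_le.1 (abs_re_mul_conj_le Z.2.1 W.2.1)).2
  have h2 := mul_le_mul_of_nonneg_left hW.2 (norm_nonneg Z.2.1)
  have h3 := hZ.sq_eq
  have h4 := hZ.2.1
  have h5 : 1 ≤ (Z.1.re - ‖Z.2.1‖) * (2 * Z.1.re) := by nlinarith [sq_nonneg (Z.1.re - ‖Z.2.1‖)]
  have h6 := mul_le_mul_of_nonneg_left h5 hW.nonneg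
  rw [br_re hZ.1 hW.1, div_le_iff₀ (by linarith)]
  nlinarith
theorem Hyp.one_le_br (hZ : Hyp Z) (hW : Hyp W) : 1 ≤ (br Z W).re := by
  have h1 := (abs_le.1 (abs_re_mul_conj_le Z.2.1 W.2.1)).2
  have h3 := hZ.sq_eq
  have h4 := hW.sq_eq
  have h5 := mul_pos hZ.2.1 hW.2.1
  have h6 := mul_nonneg (norm_nonneg Z.2.1) (norm_nonneg W.2.1)
  have h7 : (1 + ‖Z.2.1‖ * ‖W.2.1‖) ^ 2 ≤ (Z.1.re * W.1.re) ^ 2 := by
    rw [mul_pow Z.1.re, show Z.1.re ^ 2 = 1 + ‖Z.2.1‖ ^ 2 by linarith,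
      show W.1.re ^ 2 = 1 + ‖W.2.1‖ ^ 2 by linarith]
    nlinarith [sq_nonneg (‖Z.2.1‖ - ‖W.2.1‖)]
  have h8 := (abs_le_of_sq_le_sq' h7 h5.le).2
  rw [br_re hZ.1 hW.1]
  linarith
theorem Nul.smul (h : Nul Z) {r : ℝ} (hr : 0 < r) : Nul ((r : ℂ) • Z) :=
  ⟨h.1.smul r, by simpa using mul_pos hr h.2.1,
    by rw [br_smul_left, br_smul_right, h.2.2, mul_zero, mul_zero]⟩
theorem nul_xi {y : ℂ} (hy : ‖y‖ = 1) : Nul (xi y) := by
  have h0 : y ≠ 0 := by rintro rfl; simp at hy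
  refine ⟨⟨by simp [xi], Complex.inv_eq_conj hy⟩, by simp [xi], ?_⟩
  simp only [br, xi]
  field_simp
  ring
theorem Nul.norm_pt (h : Nul Z) : ‖pt Z‖ = 1 := by
  rw [pt, norm_div, h.norm_eq, h.1.fst_eq, Complex.norm_real, ofReal_re,
    Real.norm_of_nonneg h.2.1.le, div_self h.2.1.ne']
theorem eq_smul_xi_of_null (h : br Z Z = 0) (h0 : Z.1 ≠ 0) : pt Z ≠ 0 ∧ Z = Z.1 • xi (pt Z) := by
  have h1 : Z.2.1 * Z.2.2 = Z.1 ^ 2 := by simp only [br] at h; linear_combination -h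
  have h2 : Z.2.1 ≠ 0 := fun e => h0 (by rw [e, zero_mul] at h1; exact pow_eq_zero_iff two_ne_zero |>.1 h1.symm)
  refine ⟨div_ne_zero h2 h0, Prod.ext (by simp [xi]) (Prod.ext ?_ ?_)⟩
  · simp only [xi, pt, Prod.smul_mk, smul_eq_mul]
    field_simp
  · simp only [xi, pt, Prod.smul_mk, smul_eq_mul]
    field_simp
    linear_combination h1
theorem Nul.eq_smul_xi (h : Nul Z) : Z = (Z.1.re : ℂ) • xi (pt Z) := by
  rw [← h.1.fst_eq]
  exact (eq_smul_xi_of_null h.2.2 fun e => by simpa [e] using h.2.1).2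
@[simp] theorem pt_xi (y : ℂ) : pt (xi y) = y := by simp [pt, xi]
theorem pt_smul {c : ℂ} (hc : c ≠ 0) (Z : V) : pt (c • Z) = pt Z := by
  simp only [pt, Prod.smul_fst, Prod.smul_snd, smul_eq_mul]
  exact mul_div_mul_left _ _ hc
theorem br_xi_xi {x y : ℂ} (hx : x ≠ 0) (hy : y ≠ 0) :
    br (xi x) (xi y) = -(x - y) ^ 2 / (2 * x * y) := by
  simp only [br, xi]
  field_simp
  ring
theorem br_xi_xi_re {x y : ℂ} (hx : ‖x‖ = 1) (hy : ‖y‖ = 1) :
    br (xi x) (xi y) = (‖x - y‖ ^ 2 / 2 : ℝ) := by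
  have e1 := Complex.mul_conj' x
  have e2 := Complex.mul_conj' y
  rw [hx] at e1
  rw [hy] at e2
  simp only [br, xi, Complex.inv_eq_conj hx, Complex.inv_eq_conj hy]
  push_cast at e1 e2 ⊢
  rw [← Complex.mul_conj', map_sub]
  linear_combination (-1 / 2) * e1 - (1 / 2) * e2
theorem Nul.sq_le (hY : Nul Y) (hZ : Fut Z) :
    ‖(Y.1.re : ℂ) * Z.2.1 - (Z.1.re : ℂ) * Y.2.1‖ ^ 2 ≤ 2 * Y.1.re * Z.1.re * (br Y Z).re := by
  have h1 : ‖Z.2.1‖ ^ 2 ≤ Z.1.re ^ 2 := pow_le_pow_left₀ (norm_nonneg _) hZ.2 2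
  have h2 : ‖Y.2.1‖ ^ 2 = Y.1.re ^ 2 := by rw [hY.norm_eq]
  rw [br_re hY.1 hZ.1]
  simp only [Complex.sq_norm, Complex.normSq_apply] at h1 h2 ⊢
  simp only [sub_re, sub_im, mul_re, mul_im, ofReal_re, ofReal_im, conj_re, conj_im]
  have h3 := mul_le_mul_of_nonneg_left h1 (sq_nonneg Y.1.re)
  have h4 := congrArg (Z.1.re ^ 2 * ·) h2
  nlinarith

theorem Nul.eq_smul_of_br_eq_zero (hY : Nul Y) (hZ : Fut Z) (h : br Y Z = 0) :
    ∃ r : ℝ, 0 ≤ r ∧ Z = (r : ℂ) • Y := by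
  have h1 := hY.sq_le hZ
  rw [h, zero_re, mul_zero] at h1
  have h2 : (Y.1.re : ℂ) * Z.2.1 - (Z.1.re : ℂ) * Y.2.1 = 0 :=
    norm_eq_zero.1 (pow_eq_zero_iff two_ne_zero |>.1 (le_antisymm h1 (sq_nonneg _)))
  have h3 : (Y.1.re : ℂ) ≠ 0 := by exact_mod_cast hY.2.1.ne'
  have h4 : Z.2.1 = ((Z.1.re / Y.1.re : ℝ) : ℂ) * Y.2.1 := by
    push_cast
    field_simp
    linear_combination h2
  refine ⟨Z.1.re / Y.1.re, div_nonneg hZ.nonneg hY.2.1.le, Prod.ext ?_ (Prod.ext h4 ?_)⟩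
  · change Z.1 = _ * Y.1
    rw [hZ.1.fst_eq, hY.1.fst_eq]
    simp only [ofReal_re]
    push_cast
    field_simp
  · change Z.2.2 = _ * Y.2.2
    rw [hZ.1.2, hY.1.2, h4, map_mul, conj_ofReal]

/-- Separation by a wall. -/
theorem sep_of_side (hZ : Fut Z) (hY : Nul Y) (hn : IsRe n) {η : ℝ} (hη : 0 < η)
    (h1 : 0 ≤ side Z n) (h2 : side Y n ≤ -(η * Y.1.re)) :
    η ^ 2 / (2 * ‖n‖ ^ 2) * Y.1.re * Z.1.re ≤ (br Y Z).re := by
  have hB := hY.fut.br_nonneg hZ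
  have hs := hY.2.1
  rcases hZ.nonneg.eq_or_lt with ht | ht
  · rw [← ht, mul_zero]; exact hB
  rcases (norm_nonneg n).eq_or_lt with h0 | h0
  · rw [← h0]; simpa using hB
  have h3 := hY.sq_le hZ
  set u := (Y.1.re : ℂ) * Z.2.1 - (Z.1.re : ℂ) * Y.2.1 with hu
  have h4 := (abs_le.1 (abs_re_mul_conj_le u n.2.1)).2
  have h5 : ‖n.2.1‖ ≤ ‖n‖ := (norm_fst_le n.2).trans (norm_snd_le n)
  have h6 : (u * conj n.2.1).re =
      Y.1.re * (Z.2.1 * conj n.2.1).re - Z.1.re * (Y.2.1 * conj n.2.1).re := by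
    rw [hu, sub_mul, sub_re, mul_assoc, mul_assoc, re_ofReal_mul, re_ofReal_mul]
  rw [side_eq hZ.1 hn] at h1
  rw [side_eq hY.1 hn] at h2
  have h7 : η * (Y.1.re * Z.1.re) ≤ ‖u‖ * ‖n‖ := by
    have := mul_le_mul_of_nonneg_left h5 (norm_nonneg u)
    nlinarith [mul_le_mul_of_nonneg_left h1 hs.le, mul_le_mul_of_nonneg_left h2 ht.le]
  have hst := mul_pos hs ht
  have h8 := pow_le_pow_left₀ (by positivity) h7 2
  have h9 := mul_le_mul_of_nonneg_right h3 (sq_nonneg ‖n‖)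
  rw [div_mul_eq_mul_div, div_mul_eq_mul_div, div_le_iff₀ (by positivity)]
  refine le_of_mul_le_mul_left ?_ hst
  nlinarith

theorem finite_side_eq_zero (hn : IsRe n) (h : br n n = -1) :
    {y : ℂ | ‖y‖ = 1 ∧ side (xi y) n = 0}.Finite := by
  have hp : (Polynomial.C n.2.2 * Polynomial.X ^ 2 - Polynomial.C (2 * n.1) * Polynomial.X +
      Polynomial.C n.2.1 : Polynomial ℂ) ≠ 0 := by
    intro e
    have e0 := congrArg (Polynomial.eval 0) e
    have e1 := congrArg (Polynomial.eval 1) e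
    have e2 := congrArg (Polynomial.eval (-1)) e
    simp only [Polynomial.eval_add, Polynomial.eval_sub, Polynomial.eval_mul, Polynomial.eval_C,
      Polynomial.eval_pow, Polynomial.eval_X, Polynomial.eval_zero] at e0 e1 e2
    have a1 : n.2.1 = 0 := by linear_combination e0
    have a0 : n.1 = 0 := by linear_combination (1 / 4) * e2 - (1 / 4) * e1
    simp [br, a0, a1] at h
  refine (Polynomial.finite_setOfPred_isRoot hp).subset ?_
  rintro y ⟨hy, h1⟩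
  have h0 : y ≠ 0 := by rintro rfl; simp at hy
  have h2 : br (xi y) n = 0 := by
    rw [br_eq_ofReal (nul_xi hy).1 hn, neg_eq_zero.1 h1, ofReal_zero]
  simp only [br, xi] at h2
  field_simp at h2
  simp only [mem_ofPred_eq, Polynomial.IsRoot, Polynomial.eval_add, Polynomial.eval_sub,
    Polynomial.eval_mul, Polynomial.eval_C, Polynomial.eval_pow, Polynomial.eval_X]
  linear_combination -h2

theorem Iso.hyp {A : V →L[ℂ] V} (hA : Iso A) (h : Hyp Z) : Hyp (A Z) := by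
  have h1 : br (A Z) (A Z) = 1 := by rw [hA.br_eq, h.2.2]
  have h2 := hA.fut Z h.fut
  refine ⟨h2.1, h2.nonneg.lt_of_ne fun e => ?_, h1⟩
  have := br_self_re h2.1
  rw [h1, ← e, one_re] at this
  nlinarith [sq_nonneg ‖(A Z).2.1‖]
theorem Iso.nul {A : V →L[ℂ] V} (hA : Iso A) (h : Nul Z) : Nul (A Z) := by
  have h2 := hA.fut Z h.fut
  refine ⟨h2.1, h2.nonneg.lt_of_ne fun e => ?_, by rw [hA.br_eq, h.2.2]⟩
  have h3 : A Z = 0 := norm_eq_zero.1 (by rw [h2.norm_eq, e])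
  have h4 := hA.br_eq Z oo
  rw [h3, br_oo_right] at h4
  have := h.2.1
  simp [← h4, br] at this
theorem Iso.side_eq {A : V →L[ℂ] V} (hA : Iso A) (Z n : V) : side (A Z) (A n) = side Z n := by
  rw [side, side, hA.br_eq]
theorem Iso.one : Iso 1 := ⟨fun _ _ => rfl, fun _ h => h, fun _ h => h⟩
theorem Iso.mul {A B : V →L[ℂ] V} (hA : Iso A) (hB : Iso B) : Iso (A * B) :=
  ⟨fun _ _ => (hA.br_eq _ _).trans (hB.br_eq _ _), fun _ h => hA.isRe _ (hB.isRe _ h),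
    fun _ h => hA.fut _ (hB.fut _ h)⟩
theorem iso_of {A : V →L[ℂ] V} (h1 : ∀ Z W, br (A Z) (A W) = br Z W)
    (h2 : ∀ Z, IsRe Z → IsRe (A Z)) (h3 : 0 < (A oo).1.re) : Iso A := by
  refine ⟨h1, h2, fun Z hZ => ?_⟩
  have hO : Hyp (A oo) := ⟨h2 _ hyp_oo.1, h3, by rw [h1, hyp_oo.2.2]⟩
  have h4 : 0 ≤ (br (A Z) (A Z)).re := by rw [h1]; exact hZ.self_nonneg
  refine fut_of (h2 Z hZ.1) (not_lt.1 fun h5 => ?_) h4
  have h6 : Fut (-A Z) := fut_of (h2 Z hZ.1).neg (by simpa using h5.le) (by simpa using h4)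
  have h7 := hO.le_br h6
  rw [br_neg_right, h1, br_oo_left, neg_re] at h7
  have h8 : 0 < (-A Z).1.re / (2 * (A oo).1.re) := div_pos (by simpa using h5) (by linarith)
  linarith [hZ.nonneg]

theorem iso_reflL (hn : IsRe n) (h : br n n = -1) : Iso (reflL n) := by
  refine iso_of (fun Z W => ?_) (fun Z hZ => ?_) ?_
  · simp only [reflL_apply, br_add_left, br_add_right, br_smul_left, br_smul_right, h,
      br_comm n W]
    ring
  · rw [reflL_apply, br_eq_ofReal hZ hn]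
    exact_mod_cast hZ.add (hn.smul (2 * (br Z n).re))
  · rw [reflL_apply, br_oo_left]
    simp only [oo, Prod.fst_add, Prod.smul_fst, smul_eq_mul, add_re, one_re, mul_re, mul_im,
      hn.1, re_ofNat, im_ofNat]
    nlinarith [sq_nonneg n.1.re]
theorem reflL_reflL (h : br n n = -1) (Z : V) : reflL n (reflL n Z) = Z := by
  simp only [reflL_apply, br_add_left, br_smul_left, h]
  module
theorem cross_reflL (h : br n n = -1) (X Y : V) :
    cross (reflL n X) (reflL n Y) = -reflL n (cross X Y) := by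
  simp only [reflL_apply]
  simp only [br] at h
  refine Prod.ext ?_ (Prod.ext ?_ ?_) <;> simp only [cross, br, Prod.fst_add, Prod.snd_add,
    Prod.smul_fst, Prod.smul_snd, smul_eq_mul, Prod.fst_neg, Prod.snd_neg]
  · linear_combination (-I * (X.2.1 * Y.2.2 - X.2.2 * Y.2.1)) * h
  · linear_combination (-2 * I * (X.2.1 * Y.1 - X.1 * Y.2.1)) * h
  · linear_combination (2 * I * (X.2.2 * Y.1 - X.1 * Y.2.2)) * h

theorem br_cross_left (X Y : V) : br (cross X Y) X = 0 := by simp only [br, cross]; ring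
theorem br_cross_right (X Y : V) : br (cross X Y) Y = 0 := by simp only [br, cross]; ring
theorem br_cross_cross (X Y : V) :
    br (cross X Y) (cross X Y) = br X X * br Y Y - br X Y ^ 2 := by
  simp only [br, cross]
  have := I_mul_I
  grind
theorem frame_decomp (hX : br X X = 0) (hY : br Y Y = 0) (h : br X Y = 2) (Z : V) :
    Z = (br Z Y / 2) • X + (br Z X / 2) • Y - (br Z (cross Y X) / 4) • cross Y X := by
  simp only [br] at hX hY h
  have hI := I_mul_I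
  refine Prod.ext ?_ (Prod.ext ?_ ?_) <;> simp only [cross, br, Prod.fst_add, Prod.snd_add,
    Prod.smul_fst, Prod.smul_snd, smul_eq_mul, Prod.fst_sub, Prod.snd_sub] <;> grind

theorem br_Sq_Sq (v w : ℂ × ℂ) : br (Sq v) (Sq w) = -(v.1 * w.2 - v.2 * w.1) ^ 2 / 2 := by
  simp only [br, Sq]; ring
theorem fut_Herm (v : ℂ × ℂ) : Fut (Herm v) := by
  refine ⟨⟨by simp only [Herm, ofReal_im], by simp [Herm]⟩, ?_⟩
  simp only [Herm, ofReal_re, norm_mul, Complex.norm_conj]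
  nlinarith [sq_nonneg (‖v.1‖ - ‖v.2‖)]
theorem sym_Sq (a b c d : ℂ) (v : ℂ × ℂ) :
    sym a b c d (Sq v) = Sq (a * v.1 + b * v.2, c * v.1 + d * v.2) := by
  simp only [sym_apply, Sq]
  refine Prod.ext ?_ (Prod.ext ?_ ?_) <;> simp only <;> ring
theorem sym_Herm (a b : ℂ) (v : ℂ × ℂ) : sym a b (conj b) (conj a) (Herm v) =
    Herm (a * v.1 + b * v.2, conj b * v.1 + conj a * v.2) := by
  simp only [sym_apply, Herm]
  push_cast
  simp only [← Complex.mul_conj', map_add, map_mul, conj_conj]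
  refine Prod.ext ?_ (Prod.ext ?_ ?_) <;> simp only <;> ring
theorem br_sym (a b c d : ℂ) (Z W : V) :
    br (sym a b c d Z) (sym a b c d W) = (a * d - b * c) ^ 2 * br Z W := by
  simp only [sym_apply, br]; ring
theorem cross_sym (a b c d : ℂ) (X Y : V) :
    cross (sym a b c d X) (sym a b c d Y) = (a * d - b * c) • sym a b c d (cross X Y) := by
  simp only [sym_apply, cross, Prod.smul_mk, smul_eq_mul]
  refine Prod.ext ?_ (Prod.ext ?_ ?_) <;> simp only <;> ring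
theorem sym_mul (a b c d a' b' c' d' : ℂ) : sym a b c d * sym a' b' c' d' =
    sym (a * a' + b * c') (a * b' + b * d') (c * a' + d * c') (c * b' + d * d') := by
  refine ContinuousLinearMap.ext fun Z => ?_
  simp only [ContinuousLinearMap.mul_apply, sym_apply]
  refine Prod.ext ?_ (Prod.ext ?_ ?_) <;> simp only <;> ring
theorem sym_one : sym 1 0 0 1 = 1 := by
  refine ContinuousLinearMap.ext fun Z => ?_
  simp [sym_apply]
theorem iso_sym {a b : ℂ} (h : ‖a‖ ^ 2 - ‖b‖ ^ 2 = 1 ∨ ‖a‖ ^ 2 - ‖b‖ ^ 2 = -1) :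
    Iso (sym a b (conj b) (conj a)) := by
  have e : a * conj a - b * conj b = ((‖a‖ ^ 2 - ‖b‖ ^ 2 : ℝ) : ℂ) := by
    rw [Complex.mul_conj', Complex.mul_conj']; push_cast; ring
  refine iso_of (fun Z W => ?_) (fun Z hZ => ⟨?_, ?_⟩) ?_
  · rw [br_sym, e]
    rcases h with h | h <;> simp [h]
  · simp [sym_apply, hZ.1, hZ.2]
    ring
  · simp only [sym_apply, hZ.2]
    rw [hZ.fst_eq]
    simp only [map_add, map_mul, map_pow, conj_conj, conj_ofReal, map_ofNat]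
    ring
  · simp only [sym_apply, oo, mul_zero, mul_one, zero_add, add_zero, Complex.mul_conj']
    norm_cast
    rcases h with h | h <;> nlinarith [sq_nonneg ‖a‖, sq_nonneg ‖b‖]
theorem one_sub_pos {z : ℂ} (hz : z ∈ ball (0 : ℂ) 1) : 0 < 1 - ‖z‖ ^ 2 := by
  have := mem_ball_zero_iff.1 hz
  nlinarith [norm_nonneg z]

theorem cast_one_sub (z : ℂ) : ((1 - ‖z‖ ^ 2 : ℝ) : ℂ) = 1 - z * conj z := by
  rw [Complex.mul_conj']; push_cast; ring

theorem one_sub_ne {z : ℂ} (hz : z ∈ ball (0 : ℂ) 1) : 1 - z * conj z ≠ 0 := by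
  rw [← cast_one_sub]; exact_mod_cast (one_sub_pos hz).ne'

theorem zv_eq (z : ℂ) : zv z = ((1 + z * conj z) / (1 - z * conj z), 2 / (1 - z * conj z) * z,
    2 / (1 - z * conj z) * conj z) := by
  simp only [zv, Complex.mul_conj']
  push_cast
  rfl

theorem hyp_zv {z : ℂ} (hz : z ∈ ball (0 : ℂ) 1) : Hyp (zv z) := by
  refine ⟨⟨by simp only [zv, ofReal_im], by simp only [zv, map_mul, conj_ofReal]⟩, ?_, ?_⟩
  · simp only [zv, ofReal_re]
    exact div_pos (by positivity) (one_sub_pos hz)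
  · have := one_sub_ne hz
    simp only [zv_eq, br]
    field_simp
    ring
theorem vz_zv {z : ℂ} (hz : z ∈ ball (0 : ℂ) 1) : vz (zv z) = z := by
  have := one_sub_ne hz
  have e : 1 + (1 + z * conj z) / (1 - z * conj z) = 2 / (1 - z * conj z) := by
    field_simp
    ring
  simp only [zv_eq, vz, e]
  field_simp
theorem zv_vz (h : Hyp Z) : zv (vz Z) = Z := by
  have h0 : Z.1 + 1 ≠ 0 := fun e => by
    have := congrArg Complex.re e
    simp only [add_re, one_re, zero_re] at this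
    linarith [h.2.1]
  have h0' : 1 + Z.1 ≠ 0 := by rwa [add_comm]
  have h1 : Z.2.1 * Z.2.2 = Z.1 ^ 2 - 1 := by
    have := h.2.2
    simp only [br] at this
    linear_combination -this
  have h2 : conj (vz Z) = Z.2.2 / (1 + Z.1) := by
    rw [vz, map_div₀, map_add, map_one, h.1.2, conj_eq_iff_im.2 h.1.1]
  have h3 : 1 - vz Z * conj (vz Z) = 2 / (1 + Z.1) := by
    rw [h2, vz]
    field_simp
    linear_combination -h1
  have h4 : 1 + vz Z * conj (vz Z) = 2 * Z.1 / (1 + Z.1) := by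
    rw [h2, vz]
    field_simp
    linear_combination h1
  rw [zv_eq, h3, h4, h2, vz]
  refine Prod.ext ?_ (Prod.ext ?_ ?_) <;> simp only <;> field_simp
theorem vz_mem (h : Hyp Z) : vz Z ∈ ball (0 : ℂ) 1 := by
  have e : 1 + Z.1 = ((1 + Z.1.re : ℝ) : ℂ) := by rw [ofReal_add, ← h.1.fst_eq, ofReal_one]
  have h0 : 0 < 1 + Z.1.re := by linarith [h.2.1]
  rw [mem_ball_zero_iff, vz, norm_div, e, Complex.norm_real, Real.norm_of_nonneg h0.le,
    div_lt_one h0]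
  linarith [h.fut.2]
theorem zv_zero : zv 0 = oo := by simp [zv, oo]
theorem continuousOn_zv : ContinuousOn zv (ball 0 1) := by
  have h : ∀ z ∈ ball (0 : ℂ) 1, 1 - z * conj z ≠ 0 := fun z hz => one_sub_ne hz
  rw [funext zv_eq]
  fun_prop (disch := assumption)
theorem br_zv_zv {z w : ℂ} (hz : z ∈ ball (0 : ℂ) 1) (hw : w ∈ ball (0 : ℂ) 1) :
    br (zv z) (zv w) = (1 + 2 * ‖z - w‖ ^ 2 / ((1 - ‖z‖ ^ 2) * (1 - ‖w‖ ^ 2)) : ℝ) := by
  have h1 := one_sub_ne hz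
  have h2 := one_sub_ne hw
  rw [ofReal_add, ofReal_div, ofReal_mul, ofReal_mul, cast_one_sub, cast_one_sub, ofReal_pow,
    ← Complex.mul_conj', map_sub]
  simp only [zv_eq, br]
  push_cast
  field_simp
  ring
theorem br_xi_zv {y z : ℂ} (hy : y ≠ 0) (hz : z ∈ ball (0 : ℂ) 1) :
    br (xi y) (zv z) = (y - z) * (1 - conj z * y) / (y * (1 - ‖z‖ ^ 2 : ℝ)) := by
  have h1 := one_sub_ne hz
  rw [cast_one_sub]
  simp only [zv_eq, br, xi]
  field_simp
  ring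
theorem br_Sq_zv (v : ℂ × ℂ) {z : ℂ} (hz : z ∈ ball (0 : ℂ) 1) :
    br (Sq v) (zv z) = (v.1 - z * v.2) * (v.2 - conj z * v.1) / (1 - ‖z‖ ^ 2 : ℝ) := by
  have h1 := one_sub_ne hz
  rw [cast_one_sub]
  simp only [zv_eq, br, Sq]
  field_simp
  ring
theorem sym_zv {a b z : ℂ} (h : ‖a‖ ^ 2 - ‖b‖ ^ 2 = 1) (hz : z ∈ ball (0 : ℂ) 1) :
    conj b * z + conj a ≠ 0 ∧ (a * z + b) / (conj b * z + conj a) ∈ ball (0 : ℂ) 1 ∧
      sym a b (conj b) (conj a) (zv z) = zv ((a * z + b) / (conj b * z + conj a)) := by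
  have hA := iso_sym (Or.inl h)
  have hH := hA.hyp (hyp_zv hz)
  have h1 := one_sub_ne hz
  have e : a * conj a - b * conj b = 1 := by
    rw [Complex.mul_conj', Complex.mul_conj']; exact_mod_cast h
  have e1 : 1 + (sym a b (conj b) (conj a) (zv z)).1 =
      2 * ((conj b * z + conj a) * (b * conj z + a)) / (1 - z * conj z) := by
    simp only [sym_apply, zv_eq]
    field_simp
    linear_combination (z * conj z - 1) * e
  have e2 : (sym a b (conj b) (conj a) (zv z)).2.1 =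
      2 * ((a * z + b) * (b * conj z + a)) / (1 - z * conj z) := by
    simp only [sym_apply, zv_eq]
    field_simp
    ring
  have h2 : (conj b * z + conj a) * (b * conj z + a) ≠ 0 := fun h0 => by
    rw [h0, mul_zero, zero_div] at e1
    have := congrArg Complex.re e1
    simp only [add_re, one_re, zero_re] at this
    linarith [hH.2.1]
  have h3 := left_ne_zero_of_mul h2
  have h4 := right_ne_zero_of_mul h2
  have e3 : vz (sym a b (conj b) (conj a) (zv z)) = (a * z + b) / (conj b * z + conj a) := by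
    rw [vz, e1, e2]
    field_simp
  exact ⟨h3, e3 ▸ vz_mem hH, by rw [← e3, zv_vz hH]⟩
theorem exists_sym (hZ : Hyp Z) (hY : Nul Y) : ∃ a b : ℂ, ‖a‖ ^ 2 - ‖b‖ ^ 2 = 1 ∧
    sym a b (conj b) (conj a) oo = Z ∧ sym a b (conj b) (conj a) (xi 1) = (br Y Z)⁻¹ • Y := by
  obtain ⟨w, hw⟩ := IsAlgClosed.exists_pow_nat_eq Y.2.1 two_pos
  have hz := vz_mem hZ
  set z := vz Z with hzd
  have d0 := one_sub_pos hz
  have w1 : ‖w‖ ^ 2 = Y.1.re := by rw [← norm_pow, hw, hY.norm_eq]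
  have w0 : 0 < ‖w‖ := by
    have := hY.2.1
    rw [← w1] at this
    exact (norm_nonneg w).lt_of_ne fun e => by simp [← e] at this
  have eY : Y = Sq (w, conj w) := by
    refine Prod.ext ?_ (Prod.ext hw.symm ?_)
    · change Y.1 = w * conj w
      rw [Complex.mul_conj', hY.1.fst_eq, ← w1, ofReal_pow]
    · change Y.2.2 = conj w ^ 2
      rw [hY.1.2, ← hw, map_pow]
  set u := w - z * conj w with hu
  have u0 : 0 < ‖u‖ := by
    refine norm_pos_iff.2 fun e => ?_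
    have := congrArg norm (sub_eq_zero.1 e)
    rw [norm_mul, Complex.norm_conj] at this
    nlinarith [mem_ball_zero_iff.1 hz]
  set l : ℝ := (‖u‖ * √(1 - ‖z‖ ^ 2))⁻¹ with hl
  have s0 := Real.sqrt_pos.2 d0
  have l1 : ‖(l : ℂ) * u‖ ^ 2 * (1 - ‖z‖ ^ 2) = 1 := by
    rw [norm_mul, Complex.norm_real, Real.norm_eq_abs, mul_pow, sq_abs, hl, inv_pow, mul_pow,
      Real.sq_sqrt d0.le]
    field_simp
  set a := (l : ℂ) * u with ha
  have l2 : a * conj a * (1 - z * conj z) = 1 := by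
    rw [← cast_one_sub, Complex.mul_conj']; exact_mod_cast l1
  have d1 := one_sub_ne hz
  have h1 : ‖a‖ ^ 2 - ‖z * conj a‖ ^ 2 = 1 := by
    rw [norm_mul z, Complex.norm_conj]; linarith
  have h2 : sym a (z * conj a) (conj (z * conj a)) (conj a) oo = Z := by
    rw [← zv_vz hZ, ← hzd, zv_eq]
    have ia : a * conj a = (1 - z * conj z)⁻¹ := eq_inv_of_mul_eq_one_left l2
    clear_value a
    simp only [sym_apply, oo, map_mul, conj_conj, div_eq_mul_inv, ← ia]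
    refine Prod.ext ?_ (Prod.ext ?_ ?_) <;> simp only <;> ring
  have h3 : sym a (z * conj a) (conj (z * conj a)) (conj a) (xi 1) =
      ((l : ℂ) * (1 - z * conj z)) ^ 2 • Y := by
    rw [eY]
    simp only [sym_apply, xi, Sq, ha, hu, map_mul, map_sub, conj_conj, conj_ofReal, Prod.smul_mk,
      smul_eq_mul, inv_one]
    refine Prod.ext ?_ (Prod.ext ?_ ?_) <;> simp only <;> ring
  refine ⟨a, z * conj a, h1, h2, ?_⟩
  have h4 := (iso_sym (Or.inl h1)).br_eq (xi 1) oo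
  rw [h2, h3, br_smul_left, br_oo_right] at h4
  rw [h3, eq_inv_of_mul_eq_one_left h4]
theorem isCompact_zv_le (T : ℝ) : IsCompact {z ∈ ball (0 : ℂ) 1 | (zv z).1.re ≤ T} := by
  have e : {z ∈ ball (0 : ℂ) 1 | (zv z).1.re ≤ T} =
      closedBall (0 : ℂ) 1 ∩ {z | 1 + ‖z‖ ^ 2 ≤ T * (1 - ‖z‖ ^ 2)} := by
    ext z
    simp only [zv, ofReal_re, mem_ofPred_eq, mem_inter_iff]
    constructor
    · rintro ⟨h1, h2⟩
      exact ⟨ball_subset_closedBall h1, (div_le_iff₀ (one_sub_pos h1)).1 h2⟩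
    · rintro ⟨h1, h2⟩
      have h3 : z ∈ ball (0 : ℂ) 1 := mem_ball_zero_iff.2
        ((mem_closedBall_zero_iff.1 h1).lt_of_ne fun e => by rw [e] at h2; norm_num at h2)
      exact ⟨h3, (div_le_iff₀ (one_sub_pos h3)).2 h2⟩
  rw [e]
  exact (isCompact_closedBall _ _).inter_right (isClosed_le (by fun_prop) (by fun_prop))

end Pool.Agent.Lib.MP_de7bb2_an
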