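import Pool.Agent.Lib.MP_08f711_an.Holo

/-! Toolbox of complex analysis with parameters. TASK TOOL. -/

namespace Pool.Agent.Lib.MP_de7bb2_an

open Metric Set Filter Topology MeasureTheory

variable {P E : Type*} [NormedAddCommGroup P] [NormedSpace ℂ P] [NormedAddCommGroup E]
  [NormedSpace ℂ E] [CompleteSpace E]

namespace Tool

open Pool.Agent.Lib.MP_08f711_an

theorem tendsto_fderiv_apply {ι : Type*} {l : Filter ι} {U : Set P} (hU : IsOpen U)
    {f : ι → P → E} {g : P → E} (hf : ∀ᶠ i in l, DifferentiableOn ℂ (f i) U)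
    (h : TendstoLocallyUniformlyOn f g l U) {c : P} (hc : c ∈ U) (v : P) :
    Tendsto (fun i => fderiv ℂ (f i) c v) l (𝓝 (deriv (fun t : ℂ => g (c + t • v)) 0)) := by
  have hL : Differentiable ℂ (fun t : ℂ => c + t • v) := by fun_prop
  have hV : IsOpen ((fun t : ℂ => c + t • v) ⁻¹' U) := hU.preimage hL.continuous
  have h0 : (0 : ℂ) ∈ (fun t : ℂ => c + t • v) ⁻¹' U := by simpa using hc
  have h1 := (h.comp (fun t : ℂ => c + t • v) (mapsTo_preimage _ _)
    hL.continuous.continuousOn).deriv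
    (hf.mono fun i hi => hi.comp hL.differentiableOn (mapsTo_preimage _ _)) hV
  refine (h1.tendsto_at h0).congr' (hf.mono fun i hi => ?_)
  have h2 : HasDerivAt (fun t : ℂ => c + t • v) v 0 := by
    simpa using ((hasDerivAt_id (0 : ℂ)).smul_const v).const_add c
  have h3 : HasFDerivAt (f i) (fderiv ℂ (f i) c) (c + (0 : ℂ) • v) := by
    simpa using (hi.differentiableAt (hU.mem_nhds hc)).hasFDerivAt
  exact (h3.comp_hasDerivAt (0 : ℂ) h2).deriv

end Tool

/-- Weierstrass theorem in a normed space. -/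
theorem diffOn_of_tendsto {ι : Type*} {l : Filter ι} [l.NeBot] {U : Set P} (hU : IsOpen U)
    {f : ι → P → E} {g : P → E} (hf : ∀ᶠ i in l, DifferentiableOn ℂ (f i) U)
    (h : TendstoLocallyUniformlyOn f g l U) : DifferentiableOn ℂ g U := by
  intro c hc
  refine DifferentiableAt.differentiableWithinAt ?_
  have hg : ContinuousAt g c :=
    (h.continuousOn (hf.mono fun i hi => hi.continuousOn).frequently).continuousAt
      (hU.mem_nhds hc)
  obtain ⟨t, ht, hft⟩ := Metric.tendstoLocallyUniformlyOn_iff.1 h 1 one_pos c hc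
  rw [hU.nhdsWithin_eq hc] at ht
  have hev : ∀ᶠ y in 𝓝 c, y ∈ U ∧ y ∈ t ∧ ‖g y‖ ≤ ‖g c‖ + 1 := by
    have := hg.norm.eventually_le_const (show ‖g c‖ < ‖g c‖ + 1 by linarith)
    filter_upwards [hU.mem_nhds hc, ht, this] with y h1 h2 h3 using ⟨h1, h2, h3⟩
  obtain ⟨R, hR, hball⟩ := Metric.eventually_nhds_iff_ball.mp hev
  set M := ‖g c‖ + 2 with hM
  have hgood : ∀ᶠ i in l, DifferentiableOn ℂ (f i) (ball c R) ∧ ∀ y ∈ ball c R, ‖f i y‖ ≤ M := by
    filter_upwards [hf, hft] with i h1 h2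
    refine ⟨h1.mono fun y hy => (hball y hy).1, fun y hy => ?_⟩
    have h3 := h2 y (hball y hy).2.1
    rw [dist_comm, dist_eq_norm] at h3
    have h4 := norm_sub_norm_le (f i y) (g y)
    linarith [(hball y hy).2.2]
  have hT := Tool.tendsto_fderiv_apply hU hf h hc
  let A : P →ₗ[ℂ] E :=
    { toFun := fun v => deriv (fun t : ℂ => g (c + t • v)) 0
      map_add' := fun v w => tendsto_nhds_unique (hT (v + w)) (by
        simpa only [map_add] using (hT v).add (hT w))
      map_smul' := fun a v => tendsto_nhds_unique (hT (a • v)) (by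
        simpa only [map_smul, RingHom.id_apply] using (hT v).const_smul a) }
  have hA : ∀ v, ‖A v‖ ≤ 2 * M / R * ‖v‖ := fun v =>
    le_of_tendsto (hT v).norm (hgood.mono fun i hi => ((fderiv ℂ (f i) c).le_opNorm v).trans
      (mul_le_mul_of_nonneg_right
        (Pool.Agent.Lib.MP_08f711_an.norm_fderiv_le_of_bound hR hi.1 hi.2) (norm_nonneg v)))
  have hB : ∀ y ∈ ball c R, ‖g y - g c - A (y - c)‖ ≤ 4 * M * (‖y - c‖ / R) ^ 2 := fun y hy =>
    le_of_tendsto (((h.tendsto_at (hball y hy).1).sub (h.tendsto_at hc)).sub (hT (y - c))).norm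
      (hgood.mono fun i hi => Pool.Agent.Lib.MP_08f711_an.second_order_bound hR hi.1 hi.2 hy)
  refine HasFDerivAt.differentiableAt (f' := A.mkContinuous _ hA) ?_
  rw [hasFDerivAt_iff_isLittleO]
  have hO : (fun y => g y - g c - A (y - c)) =O[𝓝 c] fun y => ‖y - c‖ ^ 2 := by
    refine Asymptotics.IsBigO.of_bound (4 * M / R ^ 2) ?_
    filter_upwards [ball_mem_nhds c hR] with y hy
    refine (hB y hy).trans_eq ?_
    rw [norm_pow, norm_norm]
    ring
  exact hO.trans_isLittleO (Asymptotics.isLittleO_pow_sub_sub c one_lt_two)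

theorem diffOn_tsum {ι : Type*} {U : Set P} (hU : IsOpen U) {f : ι → P → E} {u : ι → ℝ}
    (hf : ∀ i, DifferentiableOn ℂ (f i) U) (hu : Summable u) (hb : ∀ i, ∀ p ∈ U, ‖f i p‖ ≤ u i) :
    DifferentiableOn ℂ (fun p => ∑' i, f i p) U :=
  diffOn_of_tendsto hU
    (Eventually.of_forall fun _ : Finset ι => DifferentiableOn.fun_sum fun i _ => hf i)
    (tendstoUniformlyOn_tsum hu hb).tendstoLocallyUniformlyOn

omit [CompleteSpace E] in
/-- Integrals over a compact set with a holomorphic parameter. -/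
theorem diffOn_setIntegral [FiniteDimensional ℂ P] {X : Type*} [PseudoMetricSpace X] [T2Space X]
    [MeasurableSpace X] [BorelSpace X] (μ : Measure X) [IsFiniteMeasureOnCompacts μ] {K : Set X}
    (hK : IsCompact K) {U : Set P} (hU : IsOpen U) {f : P → X → E}
    (hc : ContinuousOn (fun q : P × X => f q.1 q.2) (U ×ˢ K))
    (hd : ∀ x ∈ K, DifferentiableOn ℂ (fun p => f p x) U) :
    DifferentiableOn ℂ (fun p => ∫ x in K, f p x ∂μ) U := by
  intro c hc0
  refine DifferentiableAt.differentiableWithinAt ?_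
  have : ProperSpace P := FiniteDimensional.proper ℂ P
  have hKm := hK.measurableSet
  obtain ⟨r, hr, hrU⟩ := Metric.nhds_basis_closedBall.mem_iff.1 (hU.mem_nhds hc0)
  have hS : IsCompact (closedBall c r ×ˢ K) := (isCompact_closedBall c r).prod hK
  have hcS := hc.mono (prod_mono hrU (subset_refl K))
  obtain ⟨M, hM⟩ := hS.exists_bound_of_continuousOn hcS
  have hbU : ball c r ⊆ U := ball_subset_closedBall.trans hrU
  have hcp : ∀ p ∈ U, ContinuousOn (f p) K := fun p hp =>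
    hc.comp (f := fun x => (p, x)) (by fun_prop) fun x hx => ⟨hp, hx⟩
  have hD : ContinuousOn (fun x => fderiv ℂ (fun p => f p x) c) K := by
    rw [Metric.continuousOn_iff]
    intro x hx ε hε
    obtain ⟨δ, hδ, hu⟩ := Metric.uniformContinuousOn_iff.1
      (hS.uniformContinuousOn_of_continuous hcS) (ε * r / 4) (by positivity)
    refine ⟨δ, hδ, fun y hy hyx => ?_⟩
    have h1 := (hd y hy).differentiableAt (hU.mem_nhds hc0)
    have h2 := (hd x hx).differentiableAt (hU.mem_nhds hc0)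
    rw [dist_eq_norm, ← fderiv_fun_sub h1 h2]
    refine (Pool.Agent.Lib.MP_08f711_an.norm_fderiv_le_of_bound (M := ε * r / 4) hr
      (((hd y hy).sub (hd x hx)).mono hbU) fun p hp => ?_).trans_lt ?_
    · have := hu (p, y) ⟨ball_subset_closedBall hp, hy⟩ (p, x) ⟨ball_subset_closedBall hp, hx⟩
        (by simpa [Prod.dist_eq] using hyx)
      rw [dist_eq_norm] at this
      exact this.le
    · rw [div_lt_iff₀ hr]
      nlinarith [mul_pos hε hr]
  have hr2 : 0 < r / 2 := half_pos hr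
  refine (hasFDerivAt_integral_of_dominated_of_fderiv_le (𝕜 := ℂ) (μ := μ.restrict K)
    (F' := fun p x => fderiv ℂ (fun p => f p x) p) (bound := fun _ => 2 * M / (r / 2))
    (ball_mem_nhds c hr2) ?_ ((hcp c hc0).integrableOn_compact hK)
    (hD.aestronglyMeasurable_of_isCompact hK hKm) ?_ ?_ ?_).differentiableAt
  · filter_upwards [hU.mem_nhds hc0] with p hp
    exact (hcp p hp).aestronglyMeasurable_of_isCompact hK hKm
  · refine (ae_restrict_iff' hKm).2 (Eventually.of_forall fun x hx p hp => ?_)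
    have hsub : ball p (r / 2) ⊆ ball c r := ball_subset_ball' (by rw [mem_ball] at hp; linarith)
    exact Pool.Agent.Lib.MP_08f711_an.norm_fderiv_le_of_bound hr2
      ((hd x hx).mono (hsub.trans hbU))
      fun y hy => hM (y, x) ⟨ball_subset_closedBall (hsub hy), hx⟩
  · exact continuousOn_const.integrableOn_compact hK
  · refine (ae_restrict_iff' hKm).2 (Eventually.of_forall fun x hx p hp => ?_)
    exact ((hd x hx).differentiableAt
      (hU.mem_nhds (hbU (ball_subset_ball (by linarith) hp)))).hasFDerivAt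

omit [CompleteSpace E] in
theorem diffOn_intervalIntegral [FiniteDimensional ℂ P] {a b : ℝ} {U : Set P} (hU : IsOpen U)
    {f : P → ℝ → E} (hc : ContinuousOn (fun q : P × ℝ => f q.1 q.2) (U ×ˢ uIcc a b))
    (hd : ∀ x ∈ uIcc a b, DifferentiableOn ℂ (fun p => f p x) U) :
    DifferentiableOn ℂ (fun p => ∫ x in a..b, f p x) U := by
  have h := diffOn_setIntegral volume isCompact_uIcc hU hc hd
  rcases le_total a b with hab | hab
  · simpa only [intervalIntegral.integral_of_le hab, uIcc_of_le hab,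
      integral_Icc_eq_integral_Ioc] using h
  · simpa only [intervalIntegral.integral_of_ge hab, uIcc_of_ge hab,
      integral_Icc_eq_integral_Ioc] using h.fun_neg

namespace Tool

omit [CompleteSpace E] [NormedAddCommGroup E] [NormedSpace ℂ E] in
theorem frequently_of_real {f g : ℂ → E} {x : ℝ} (h : ∀ᶠ y : ℝ in 𝓝 x, f y = g y) :
    ∃ᶠ z in 𝓝[≠] (x : ℂ), f z = g z := by
  have hT : Tendsto (fun y : ℝ => (y : ℂ)) (𝓝[≠] x) (𝓝[≠] (x : ℂ)) :=
    tendsto_nhdsWithin_iff.2 ⟨Complex.continuous_ofReal.continuousAt.mono_left nhdsWithin_le_nhds,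
      eventually_mem_nhdsWithin.mono fun y hy => by simpa using hy⟩
  exact hT.frequently (h.filter_mono nhdsWithin_le_nhds).frequently

end Tool

/-- Identity theorem from the real diameter of a disc. -/
theorem eqOn_ball_of_real {f g : ℂ → E} {R : ℝ} (hf : DifferentiableOn ℂ f (ball 0 R))
    (hg : DifferentiableOn ℂ g (ball 0 R)) {r : ℝ} (hr : 0 < r)
    (h : ∀ x : ℝ, |x| < r → |x| < R → f x = g x) : EqOn f g (ball 0 R) := by
  rcases le_or_gt R 0 with hR | hR
  · rw [ball_eq_empty.2 hR]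
    exact eqOn_empty f g
  refine (hf.analyticOnNhd isOpen_ball).eqOn_of_preconnected_of_frequently_eq
    (hg.analyticOnNhd isOpen_ball) (convex_ball 0 R).isPreconnected (mem_ball_self hR) ?_
  refine Tool.frequently_of_real (x := 0) ?_
  filter_upwards [ball_mem_nhds (0 : ℝ) hr, ball_mem_nhds (0 : ℝ) hR] with x h1 h2
  exact h x (by simpa using h1) (by simpa using h2)

theorem eqOn_ball2_of_real {f g : ℂ × ℂ → E} {R : ℝ} (hf : DifferentiableOn ℂ f (ball 0 R))
    (hg : DifferentiableOn ℂ g (ball 0 R)) {r : ℝ} (hr : 0 < r)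
    (h : ∀ x y : ℝ, |x| < r → |y| < r → |x| < R → |y| < R → f (x, y) = g (x, y)) :
    EqOn f g (ball 0 R) := by
  have hm : ∀ x y : ℂ, (x, y) ∈ ball (0 : ℂ × ℂ) R ↔ x ∈ ball (0 : ℂ) R ∧ y ∈ ball (0 : ℂ) R :=
    fun x y => by simp [Prod.norm_def]
  rintro ⟨x, y⟩ hxy
  obtain ⟨hx, hy⟩ := (hm x y).1 hxy
  have hx' : MapsTo (fun y : ℂ => (x, y)) (ball 0 R) (ball 0 R) := fun y hy => (hm x y).2 ⟨hx, hy⟩
  refine eqOn_ball_of_real (f := fun y => f (x, y)) (g := fun y => g (x, y))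
    (hf.comp (by fun_prop) hx') (hg.comp (by fun_prop) hx') hr (fun t h1 h2 => ?_) hy
  have ht : MapsTo (fun x : ℂ => (x, (t : ℂ))) (ball 0 R) (ball 0 R) := fun x hx =>
    (hm x t).2 ⟨hx, by simpa using h2⟩
  exact eqOn_ball_of_real (f := fun x => f (x, t)) (g := fun x => g (x, t))
    (hf.comp (by fun_prop) ht) (hg.comp (by fun_prop) ht) hr (fun s h3 h4 => h s t h3 h1 h4 h2) hx

/-- Identity theorem on a half plane from large real values. -/
theorem eqOn_halfplane_of_real {f g : ℂ → E} {a C : ℝ}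
    (hf : DifferentiableOn ℂ f {s | a < s.re}) (hg : DifferentiableOn ℂ g {s | a < s.re})
    (h : ∀ x : ℝ, C < x → a < x → f x = g x) : EqOn f g {s | a < s.re} := by
  have hO : IsOpen {s : ℂ | a < s.re} := isOpen_lt continuous_const Complex.continuous_re
  have h1 : C < max C a + 1 := by linarith [le_max_left C a]
  have h2 : a < max C a + 1 := by linarith [le_max_right C a]
  refine (hf.analyticOnNhd hO).eqOn_of_preconnected_of_frequently_eq (hg.analyticOnNhd hO)
    (convex_halfSpace_re_gt a).isPreconnected (z₀ := ((max C a + 1 : ℝ) : ℂ)) h2 ?_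
  refine Tool.frequently_of_real ?_
  filter_upwards [Ioi_mem_nhds h1, Ioi_mem_nhds h2] with x h3 h4 using h x h3 h4

theorem eq_of_real_large {f g : ℂ → E} {C : ℝ} (hf : Differentiable ℂ f) (hg : Differentiable ℂ g)
    (h : ∀ x : ℝ, C < x → f x = g x) : f = g := by
  funext z
  exact eqOn_halfplane_of_real (a := z.re - 1) hf.differentiableOn hg.differentiableOn
    (fun x hx _ => h x hx) (by simp)

/-- The Taylor coefficient of order `n` at zero. -/
noncomputable def tay (n : ℕ) (f : ℂ → ℂ) : ℂ := iteratedDeriv n f 0 / (n.factorial : ℂ)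

namespace Tool

theorem hasDerivAt_fst {W : Set (ℂ × P)} (hW : IsOpen W) {f : ℂ × P → ℂ}
    (hf : DifferentiableOn ℂ f W) {q : ℂ × P} (hq : q ∈ W) :
    HasDerivAt (fun s => f (s, q.2)) (fderiv ℂ f q (1, 0)) q.1 := by
  have h1 : HasDerivAt (fun s : ℂ => (s, q.2)) (1, 0) q.1 :=
    (hasDerivAt_id q.1).prodMk (hasDerivAt_const q.1 q.2)
  exact (hf.differentiableAt (hW.mem_nhds hq)).hasFDerivAt.comp_hasDerivAt q.1 h1

theorem diffOn_iteratedDeriv {W : Set (ℂ × P)} (hW : IsOpen W) {f : ℂ × P → ℂ}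
    (hf : DifferentiableOn ℂ f W) (n : ℕ) :
    DifferentiableOn ℂ (fun q : ℂ × P => iteratedDeriv n (fun s => f (s, q.2)) q.1) W := by
  induction n with
  | zero => simpa using hf
  | succ n ih =>
    refine (Pool.Agent.Lib.MP_08f711_an.differentiableOn_fderiv_apply hW ih (1, 0)).congr
      fun q hq => ?_
    rw [iteratedDeriv_succ]
    exact (hasDerivAt_fst hW ih hq).deriv

theorem tay_congr {f g : ℂ → ℂ} (h : f =ᶠ[𝓝 0] g) (n : ℕ) : tay n f = tay n g := by
  rw [tay, tay, h.iteratedDeriv_eq]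

theorem tay_zero (f : ℂ → ℂ) : tay 0 f = f 0 := by simp [tay]

theorem tay_succ {f g : ℂ → ℂ} {c : ℂ} (hg : AnalyticAt ℂ g 0)
    (h : ∀ᶠ z in 𝓝 (0 : ℂ), f z = c + z * g z) (n : ℕ) : tay (n + 1) f = tay n g := by
  rw [tay_congr (g := fun z => c + z * g z) h, tay, tay, iteratedDeriv_const_add n.succ_pos,
    iteratedDeriv_fun_mul (f := fun z : ℂ => z) (by fun_prop) hg.contDiffAt,
    Finset.sum_eq_single 1 ?_ (by simp)]
  · have : ((n + 1 : ℕ) : ℂ) ≠ 0 := Nat.cast_ne_zero.2 n.succ_ne_zero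
    have h2 : (n.factorial : ℂ) ≠ 0 := Nat.cast_ne_zero.2 n.factorial_ne_zero
    simp only [Nat.choose_one_right, iteratedDeriv_one, deriv_id'', Nat.succ_sub_one,
      Nat.factorial_succ, Nat.cast_mul]
    field_simp
  · intro i _ hi
    have := iteratedDeriv_fun_pow_zero (𝕜 := ℂ) (n := i) (m := 1)
    simp only [pow_one, if_neg hi] at this
    simp [this]

theorem tay_eq {g : ℂ → ℂ} (hg : AnalyticAt ℂ g 0) (n : ℕ) {f : ℂ → ℂ}
    (h : ∀ᶠ z in 𝓝 (0 : ℂ), f z = (z - 0) ^ n • g z) : tay n f = g 0 := by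
  induction n generalizing f with
  | zero => simpa [tay_zero] using h.self_of_nhds
  | succ n ih =>
    rw [tay_succ (c := 0) (g := fun z => (z - 0) ^ n • g z) (by fun_prop)
      (h.mono fun z hz => by rw [hz]; simp; ring)]
    exact ih (Eventually.of_forall fun _ => rfl)

end Tool

theorem diffOn_tay {U : Set P} (hU : IsOpen U) {δ : ℝ} (hδ : 0 < δ) {f : ℂ × P → ℂ}
    (hf : DifferentiableOn ℂ f (ball 0 δ ×ˢ U)) (n : ℕ) :
    DifferentiableOn ℂ (fun p => tay n (fun s => f (s, p))) U := by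
  have h := (Tool.diffOn_iteratedDeriv (isOpen_ball.prod hU) hf n).comp
    (f := fun p : P => ((0 : ℂ), p)) (s := U) (by fun_prop) fun _ hp => ⟨mem_ball_self hδ, hp⟩
  exact h.mul_const ((n.factorial : ℂ))⁻¹

theorem tay_of_tendsto {f : ℂ → ℂ} (hf : AnalyticAt ℂ f 0) {n : ℕ} {c : ℂ}
    (h : Tendsto (fun s => f s / s ^ n) (𝓝[≠] 0) (𝓝 c)) :
    (n : ℕ∞) ≤ analyticOrderAt f 0 ∧ tay n f = c := by
  classical
  have hg : AnalyticAt ℂ (Function.update (fun s => f s / s ^ n) 0 c) 0 := by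
    refine Complex.analyticAt_of_differentiable_on_punctured_nhds_of_continuousAt ?_
      (continuousAt_update_same.2 h)
    filter_upwards [hf.eventually_analyticAt.filter_mono nhdsWithin_le_nhds,
      self_mem_nhdsWithin] with z h1 h2
    refine (h1.differentiableAt.div (differentiableAt_pow n)
      (pow_ne_zero n h2)).congr_of_eventuallyEq ?_
    filter_upwards [isOpen_compl_singleton.mem_nhds h2] with w hw
    exact Function.update_of_ne hw _ _
  have he : ∀ᶠ z in 𝓝 (0 : ℂ),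
      f z = (z - 0) ^ n • Function.update (fun s => f s / s ^ n) 0 c z := by
    refine (hf.frequently_eq_iff_eventually_eq (by fun_prop)).1 (Eventually.frequently ?_)
    filter_upwards [self_mem_nhdsWithin] with z hz
    rw [Function.update_of_ne hz, sub_zero, smul_eq_mul, mul_div_cancel₀ _ (pow_ne_zero n hz)]
  exact ⟨(natCast_le_analyticOrderAt hf).2 ⟨_, hg, he⟩, by simpa using Tool.tay_eq hg n he⟩

theorem tay_ne_zero_iff {f : ℂ → ℂ} (hf : AnalyticAt ℂ f 0) {n : ℕ}
    (h : (n : ℕ∞) ≤ analyticOrderAt f 0) : tay n f ≠ 0 ↔ analyticOrderAt f 0 = n := by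
  obtain ⟨g, hg, he⟩ := (natCast_le_analyticOrderAt hf).1 h
  rw [hf.analyticOrderAt_eq_natCast]
  refine ⟨fun h0 => ⟨g, hg, by rwa [Tool.tay_eq hg n he] at h0, he⟩, ?_⟩
  rintro ⟨g', hg', h0, he'⟩
  rwa [Tool.tay_eq hg' n he']

theorem tay_mul {f g : ℂ → ℂ} (hf : AnalyticAt ℂ f 0) (hg : AnalyticAt ℂ g 0) {n : ℕ}
    (h : (n : ℕ∞) ≤ analyticOrderAt f 0) : tay n (fun s => f s * g s) = tay n f * g 0 := by
  obtain ⟨k, hk, he⟩ := (natCast_le_analyticOrderAt hf).1 h
  rw [Tool.tay_eq hk n he, Tool.tay_eq (g := fun s => k s * g s) (hk.mul hg) n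
    (he.mono fun z hz => by rw [hz, smul_eq_mul, smul_eq_mul, mul_assoc])]

namespace Tool

theorem exists_slope [FiniteDimensional ℂ P] {U : Set P} (hU : IsOpen U) {δ : ℝ}
    {f : ℂ × P → ℂ} (hf : DifferentiableOn ℂ f (ball 0 δ ×ˢ U)) :
    ∃ Y : ℂ × P → ℂ, DifferentiableOn ℂ Y (ball 0 δ ×ˢ U) ∧
      ∀ p ∈ U, ∀ s ∈ ball (0 : ℂ) δ, f (s, p) = f (0, p) + s * Y (s, p) := by
  have hW : IsOpen (ball (0 : ℂ) δ ×ˢ U) := isOpen_ball.prod hU
  have hD := Pool.Agent.Lib.MP_08f711_an.differentiableOn_fderiv_apply hW hf (1, 0)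
  have hm : ∀ q ∈ ball (0 : ℂ) δ ×ˢ U, ∀ t ∈ uIcc (0 : ℝ) 1,
      ((t : ℂ) * q.1, q.2) ∈ ball (0 : ℂ) δ ×ˢ U := fun q hq t ht => by
    rw [uIcc_of_le zero_le_one] at ht
    refine ⟨?_, hq.2⟩
    have h1 := mem_ball_zero_iff.1 hq.1
    rw [mem_ball_zero_iff, norm_mul, Complex.norm_real, Real.norm_of_nonneg ht.1]
    exact (mul_le_of_le_one_left (norm_nonneg _) ht.2).trans_lt h1
  have hc : ContinuousOn (fun x : (ℂ × P) × ℝ => fderiv ℂ f ((x.2 : ℂ) * x.1.1, x.1.2) (1, 0))
      ((ball (0 : ℂ) δ ×ˢ U) ×ˢ uIcc (0 : ℝ) 1) :=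
    hD.continuousOn.comp (f := fun x : (ℂ × P) × ℝ => ((x.2 : ℂ) * x.1.1, x.1.2)) (by fun_prop)
      fun x hx => hm x.1 hx.1 x.2 hx.2
  refine ⟨fun q => ∫ t in (0 : ℝ)..1, fderiv ℂ f ((t : ℂ) * q.1, q.2) (1, 0),
    diffOn_intervalIntegral hW hc fun t ht =>
      hD.comp (f := fun q : ℂ × P => ((t : ℂ) * q.1, q.2)) (by fun_prop) fun q hq => hm q hq t ht,
    fun p hp s hs => ?_⟩
  have hcs : ContinuousOn (fun t : ℝ => fderiv ℂ f ((t : ℂ) * s, p) (1, 0)) (uIcc 0 1) :=
    hc.comp (f := fun t : ℝ => ((s, p), t)) (by fun_prop) fun t ht => ⟨⟨hs, hp⟩, ht⟩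
  have := intervalIntegral.integral_eq_sub_of_hasDerivAt (a := 0) (b := 1)
    (f := fun t : ℝ => f ((t : ℂ) * s, p))
    (f' := fun t : ℝ => s * fderiv ℂ f ((t : ℂ) * s, p) (1, 0)) (fun t ht => by
      have h1 := hasDerivAt_fst hW hf (hm (s, p) ⟨hs, hp⟩ t ht)
      have h2 : HasDerivAt (fun w : ℂ => w * s) s (t : ℂ) := by
        simpa using (hasDerivAt_id (t : ℂ)).mul_const s
      simpa [mul_comm s] using (h1.comp (t : ℂ) h2).comp_ofReal)
    (continuousOn_const.mul hcs).intervalIntegrable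
  rw [intervalIntegral.integral_const_mul] at this
  simp only [this]
  simp

end Tool

/-- Division by `s ^ n` with parameters. -/
theorem exists_div_pow [FiniteDimensional ℂ P] {U : Set P} (hU : IsOpen U) {δ : ℝ} (hδ : 0 < δ)
    {f : ℂ × P → ℂ} (hf : DifferentiableOn ℂ f (ball 0 δ ×ˢ U)) (n : ℕ) :
    ∃ Y : ℂ × P → ℂ, DifferentiableOn ℂ Y (ball 0 δ ×ˢ U) ∧
      (∀ p ∈ U, Y (0, p) = tay n (fun s => f (s, p))) ∧
      ∀ p ∈ U, (n : ℕ∞) ≤ analyticOrderAt (fun s => f (s, p)) 0 →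
        ∀ s ∈ ball (0 : ℂ) δ, f (s, p) = s ^ n * Y (s, p) := by
  induction n generalizing f with
  | zero =>
    exact ⟨f, hf, fun p _ => (Tool.tay_zero fun s => f (s, p)).symm, fun p _ _ s _ => by simp⟩
  | succ n ih =>
    obtain ⟨Z, hZ, hfZ⟩ := Tool.exists_slope hU hf
    obtain ⟨Y, hY, h1, h2⟩ := ih hZ
    have han : ∀ {g : ℂ × P → ℂ}, DifferentiableOn ℂ g (ball 0 δ ×ˢ U) → ∀ p ∈ U,
        AnalyticAt ℂ (fun s => g (s, p)) 0 := fun hg p hp =>
      (hg.comp (f := fun s : ℂ => (s, p)) (by fun_prop) fun s hs => ⟨hs, hp⟩).analyticAt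
        (ball_mem_nhds 0 hδ)
    have hev : ∀ p ∈ U, ∀ᶠ s in 𝓝 (0 : ℂ), f (s, p) = f (0, p) + s * Z (s, p) := fun p hp =>
      mem_of_superset (ball_mem_nhds 0 hδ) fun s hs => hfZ p hp s hs
    refine ⟨Y, hY, fun p hp => ?_, fun p hp hn s hs => ?_⟩
    · rw [h1 p hp, Tool.tay_succ (han hZ p hp) (hev p hp)]
    · obtain ⟨g, hg, he⟩ := (natCast_le_analyticOrderAt (han hf p hp)).1 hn
      have h0 : f (0, p) = 0 := by simpa using he.self_of_nhds
      have h3 : ∀ᶠ z in 𝓝 (0 : ℂ), Z (z, p) = (z - 0) ^ n • g z := by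
        refine ((han hZ p hp).frequently_eq_iff_eventually_eq (by fun_prop)).1
          (Eventually.frequently ?_)
        filter_upwards [self_mem_nhdsWithin, he.filter_mono nhdsWithin_le_nhds,
          (hev p hp).filter_mono nhdsWithin_le_nhds] with z hz h4 h5
        refine mul_left_cancel₀ (a := z) hz ?_
        rw [h0, zero_add] at h5
        rw [← h5, h4]
        simp
        ring
      rw [hfZ p hp s hs, h0,
        h2 p hp ((natCast_le_analyticOrderAt (han hZ p hp)).2 ⟨g, hg, h3⟩) s hs]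
      ring

/-- Montel's theorem along an ultrafilter. -/
theorem montel_ultra {ι : Type*} (𝒰 : Ultrafilter ι) {U : Set ℂ} (hU : IsOpen U) {f : ι → ℂ → ℂ}
    (hf : ∀ i, DifferentiableOn ℂ (f i) U)
    (hb : ∀ K ⊆ U, IsCompact K → ∃ M, ∀ᶠ i in (𝒰 : Filter ι), ∀ z ∈ K, ‖f i z‖ ≤ M) :
    ∃ g, DifferentiableOn ℂ g U ∧ TendstoLocallyUniformlyOn f g 𝒰 U := by
  have hl : ∀ z, ∃ w, z ∈ U → Tendsto (fun i => f i z) 𝒰 (𝓝 w) := fun z => by
    by_cases hz : z ∈ U
    · obtain ⟨M, hM⟩ := hb {z} (singleton_subset_iff.2 hz) isCompact_singleton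
      obtain ⟨w, -, hw⟩ := (isCompact_closedBall (0 : ℂ) M).ultrafilter_le_nhds
        (𝒰.map fun i => f i z) (le_principal_iff.2 (by
          rw [Ultrafilter.coe_map, mem_map]
          exact hM.mono fun i hi => mem_closedBall_zero_iff.2 (hi z rfl)))
      exact ⟨w, fun _ => hw⟩
    · exact ⟨0, fun h => absurd h hz⟩
  choose g hg using hl
  have hT : TendstoLocallyUniformlyOn f g 𝒰 U := by
    rw [Metric.tendstoLocallyUniformlyOn_iff]
    intro ε hε c hc
    obtain ⟨r, hr, hrU⟩ := Metric.nhds_basis_closedBall.mem_iff.1 (hU.mem_nhds hc)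
    obtain ⟨M, hM⟩ := hb _ hrU (isCompact_closedBall c r)
    have hbU : ball c r ⊆ U := ball_subset_closedBall.trans hrU
    have hL : ∀ᶠ i in (𝒰 : Filter ι), ∀ z ∈ ball c r,
        dist (f i z) (f i c) ≤ 2 * M / r * dist z c := hM.mono fun i hi z hz => by
      refine Complex.dist_le_div_mul_dist_of_mapsTo_ball ((hf i).mono hbU) (fun y hy => ?_) hz
      rw [mem_closedBall, dist_eq_norm]
      linarith [norm_sub_le (f i y) (f i c), hi y (ball_subset_closedBall hy),
        hi c (mem_closedBall_self hr.le)]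
    have hLg : ∀ z ∈ ball c r, dist (g z) (g c) ≤ 2 * M / r * dist z c := fun z hz =>
      le_of_tendsto ((hg z (hbU hz)).dist (hg c hc)) (hL.mono fun i hi => hi z hz)
    have hs : ∀ᶠ z in 𝓝 c, 2 * M / r * dist z c < ε / 3 := by
      have : ContinuousAt (fun z => 2 * M / r * dist z c) c := by fun_prop
      exact this.eventually_lt_const (by simpa using hε)
    refine ⟨{z | z ∈ ball c r ∧ 2 * M / r * dist z c < ε / 3},
      mem_nhdsWithin_of_mem_nhds (inter_mem (ball_mem_nhds c hr) hs), ?_⟩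
    filter_upwards [hL, Metric.tendsto_nhds.1 (hg c hc) (ε / 3) (by positivity)] with i h1 h2 z hz
    have h3 := h1 z hz.1
    have h4 := hLg z hz.1
    have h5 := dist_triangle4 (g z) (g c) (f i c) (f i z)
    rw [dist_comm] at h2 h3
    linarith [hz.2]
  exact ⟨g, hT.differentiableOn (Eventually.of_forall hf) hU, hT⟩

end Pool.Agent.Lib.MP_de7bb2_an
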