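import Pool.Agent.Lib.MP_de7bb2_an.H20Defs
import Pool.Agent.Lib.MP_de7bb2_an.H20Mink
import Pool.Agent.Lib.MP_de7bb2_an.H20Tool

/-! Hyperbolic area, partitions of unity and unfolding. TASK AREA. -/

namespace Pool.Agent.Lib.MP_de7bb2_an

open Metric Set Complex ComplexConjugate MeasureTheory

noncomputable def dens (z : ℂ) : ℝ := 4 / (1 - ‖z‖ ^ 2) ^ 2

/-- Integral for the hyperbolic area. -/
noncomputable def hI (f : ℂ → ℂ) : ℂ := ∫ z in ball (0 : ℂ) 1, (dens z : ℂ) * f z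

/-- Hyperbolic cosine of the distance. -/
noncomputable def pd (z w : ℂ) : ℝ := (br (zv z) (zv w)).re

variable {G : ℕ}

/-- A compactly supported function whose translates sum to one. -/
structure Part (S : Surface G) where
  χ : ℂ → ℝ
  r : ℝ
  r_pos : 0 < r
  r_lt : r < 1
  smooth : ContDiff ℝ 1 χ
  nonneg : ∀ z, 0 ≤ χ z
  supp : ∀ z, χ z ≠ 0 → ‖z‖ < r
  sum_one : ∀ z ∈ ball (0 : ℂ) 1, ∑ᶠ γ, χ (S.act γ z) = 1

/-- Flat integral against the partition function. -/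
noncomputable def Part.pI {S : Surface G} (P : Part S) (f : ℂ → ℂ) : ℂ := ∫ z, (P.χ z : ℂ) * f z

variable {S : Surface G} {z w : ℂ}

namespace Area

/-- The Moebius map. -/
noncomputable def mob (a b z : ℂ) : ℂ := (a * z + b) / (conj b * z + conj a)

variable {a b : ℂ}

theorem one_sub_pos (hz : z ∈ ball (0 : ℂ) 1) : 0 < 1 - ‖z‖ ^ 2 := by
  have h := mem_ball_zero_iff.1 hz
  have h0 := norm_nonneg z
  nlinarith

theorem det_c (h : ‖a‖ ^ 2 - ‖b‖ ^ 2 = 1) : a * conj a - b * conj b = 1 := by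
  rw [mul_conj', mul_conj']
  exact_mod_cast h

theorem mob_deriv (h : ‖a‖ ^ 2 - ‖b‖ ^ 2 = 1) (hz : z ∈ ball (0 : ℂ) 1) :
    HasDerivAt (mob a b) ((conj b * z + conj a) ^ 2)⁻¹ z := by
  have h0 := (sym_zv h hz).1
  have h1 : HasDerivAt (fun z => a * z + b) a z := by
    simpa using ((hasDerivAt_id z).const_mul a).add_const b
  have h2 : HasDerivAt (fun z => conj b * z + conj a) (conj b) z := by
    simpa using ((hasDerivAt_id z).const_mul (conj b)).add_const (conj a)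
  have h3 := h1.fun_div h2 h0
  have e : (a * (conj b * z + conj a) - (a * z + b) * conj b) / (conj b * z + conj a) ^ 2 =
      ((conj b * z + conj a) ^ 2)⁻¹ := by
    rw [← one_div, ← det_c h]
    ring
  rw [e] at h3
  exact h3

theorem mob_norm (h : ‖a‖ ^ 2 - ‖b‖ ^ 2 = 1) (hz : z ∈ ball (0 : ℂ) 1) :
    (‖conj b * z + conj a‖ ^ 2)⁻¹ * (1 - ‖z‖ ^ 2) = 1 - ‖mob a b z‖ ^ 2 := by
  have h0 : ‖conj b * z + conj a‖ ≠ 0 := norm_ne_zero_iff.2 (sym_zv h hz).1
  have e : ‖conj b * z + conj a‖ ^ 2 - ‖a * z + b‖ ^ 2 = (‖a‖ ^ 2 - ‖b‖ ^ 2) * (1 - ‖z‖ ^ 2) := by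
    simp only [Complex.sq_norm, normSq_apply, add_re, add_im, mul_re, mul_im, conj_re, conj_im]
    ring
  rw [h, one_mul] at e
  rw [mob, norm_div, ← e]
  field_simp

theorem mob_inv (h : ‖a‖ ^ 2 - ‖b‖ ^ 2 = 1) (hz : z ∈ ball (0 : ℂ) 1) :
    mob (conj a) (-b) (mob a b z) = z := by
  have h0 := (sym_zv h hz).1
  have hd := det_c h
  have e1 : conj a * mob a b z + -b = z / (conj b * z + conj a) := by
    rw [mob, eq_div_iff h0, add_mul, mul_assoc, div_mul_cancel₀ _ h0]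
    linear_combination z * hd
  have e2 : conj (-b) * mob a b z + conj (conj a) = 1 / (conj b * z + conj a) := by
    rw [mob, map_neg, conj_conj]
    field_simp
    linear_combination hd
  rw [mob, e1, e2, div_div_div_cancel_right₀ h0, div_one]

theorem inv_det (h : ‖a‖ ^ 2 - ‖b‖ ^ 2 = 1) : ‖conj a‖ ^ 2 - ‖-b‖ ^ 2 = 1 := by
  rw [norm_neg, RCLike.norm_conj, h]

theorem mob_injOn (h : ‖a‖ ^ 2 - ‖b‖ ^ 2 = 1) : InjOn (mob a b) (ball 0 1) := fun x hx y hy e => by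
  rw [← mob_inv h hx, e, mob_inv h hy]

theorem mob_image (h : ‖a‖ ^ 2 - ‖b‖ ^ 2 = 1) : mob a b '' ball 0 1 = ball 0 1 := by
  refine Subset.antisymm ?_ fun w hw => ⟨mob (conj a) (-b) w, (sym_zv (inv_det h) hw).2.1, ?_⟩
  · rintro _ ⟨x, hx, rfl⟩
    exact (sym_zv h hx).2.1
  · have := mob_inv (inv_det h) hw
    rwa [conj_conj, neg_neg] at this

theorem det_mul (c : ℂ) :
    ((ContinuousLinearMap.toSpanSingleton ℂ c).restrictScalars ℝ).det = ‖c‖ ^ 2 := by
  simp [ContinuousLinearMap.det, LinearMap.det_restrictScalars, Algebra.norm_complex_eq,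
    Complex.normSq_eq_norm_sq]

theorem jac (h : ‖a‖ ^ 2 - ‖b‖ ^ 2 = 1) (f : ℂ → ℂ) (hz : z ∈ ball (0 : ℂ) 1) :
    |((ContinuousLinearMap.toSpanSingleton ℂ ((conj b * z + conj a) ^ 2)⁻¹).restrictScalars
      ℝ).det| • ((dens (mob a b z) : ℂ) * f (mob a b z)) = (dens z : ℂ) * f (mob a b z) := by
  have h0 : ‖conj b * z + conj a‖ ≠ 0 := norm_ne_zero_iff.2 (sym_zv h hz).1
  have h1 := (one_sub_pos hz).ne'
  rw [det_mul, abs_of_nonneg (sq_nonneg _), real_smul, ← mul_assoc, ← ofReal_mul]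
  congr 2
  rw [dens, dens, ← mob_norm h hz, norm_inv, norm_pow]
  field_simp

theorem mob_fderiv (h : ‖a‖ ^ 2 - ‖b‖ ^ 2 = 1) : ∀ z ∈ ball (0 : ℂ) 1, HasFDerivWithinAt (mob a b)
    ((ContinuousLinearMap.toSpanSingleton ℂ ((conj b * z + conj a) ^ 2)⁻¹).restrictScalars ℝ)
    (ball 0 1) z := fun _ hz =>
  ((mob_deriv h hz).hasFDerivAt.restrictScalars ℝ).hasFDerivWithinAt

theorem integrableOn_iff (h : ‖a‖ ^ 2 - ‖b‖ ^ 2 = 1) (f : ℂ → ℂ) :
    IntegrableOn (fun z => (dens z : ℂ) * f z) (ball 0 1) ↔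
      IntegrableOn (fun z => (dens z : ℂ) * f (mob a b z)) (ball 0 1) := by
  have := integrableOn_image_iff_integrableOn_abs_det_fderiv_smul volume measurableSet_ball
    (mob_fderiv h) (mob_injOn h) fun z => (dens z : ℂ) * f z
  rw [mob_image h] at this
  rw [this]
  exact integrableOn_congr_fun (fun z hz => jac h f hz) measurableSet_ball

theorem continuousOn_dens : ContinuousOn dens (ball 0 1) :=
  continuousOn_const.div (by fun_prop) fun _ hz => pow_ne_zero _ (one_sub_pos hz).ne'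

theorem dens_pos (hz : z ∈ ball (0 : ℂ) 1) : 0 < dens z :=
  div_pos four_pos (pow_pos (one_sub_pos hz) 2)

end Area

open Area

theorem Surface.act_mem (S : Surface G) (γ : S.Γ) (hz : z ∈ ball (0 : ℂ) 1) :
    S.act γ z ∈ ball (0 : ℂ) 1 := by
  obtain ⟨a, b, h, e⟩ := S.moebius γ
  rw [e z hz]
  exact (sym_zv h hz).2.1
theorem Surface.act_one (S : Surface G) (hz : z ∈ ball (0 : ℂ) 1) : S.act 1 z = z :=
  (S.free 1 z hz).2 rfl
theorem Surface.exists_sym (S : Surface G) (γ : S.Γ) : ∃ a b : ℂ, ‖a‖ ^ 2 - ‖b‖ ^ 2 = 1 ∧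
    ∀ z ∈ ball (0 : ℂ) 1, zv (S.act γ z) = sym a b (conj b) (conj a) (zv z) ∧
      S.act γ z = (a * z + b) / (conj b * z + conj a) ∧ conj b * z + conj a ≠ 0 ∧
      HasDerivAt (S.act γ) ((conj b * z + conj a) ^ 2)⁻¹ z := by
  obtain ⟨a, b, h, e⟩ := S.moebius γ
  refine ⟨a, b, h, fun z hz => ⟨?_, e z hz, (sym_zv h hz).1, ?_⟩⟩
  · rw [e z hz]
    exact (sym_zv h hz).2.2.symm
  · exact (mob_deriv h hz).congr_of_eventuallyEq
      (Filter.eventually_of_mem (isOpen_ball.mem_nhds hz) e)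
theorem Surface.diffOn_act (S : Surface G) (γ : S.Γ) : DifferentiableOn ℂ (S.act γ) (ball 0 1) := by
  obtain ⟨a, b, -, e⟩ := S.exists_sym γ
  exact fun z hz => (e z hz).2.2.2.differentiableAt.differentiableWithinAt
theorem Surface.deriv_ne (S : Surface G) (γ : S.Γ) (hz : z ∈ ball (0 : ℂ) 1) :
    deriv (S.act γ) z ≠ 0 := by
  obtain ⟨a, b, -, e⟩ := S.exists_sym γ
  rw [(e z hz).2.2.2.deriv]
  exact inv_ne_zero (pow_ne_zero _ (e z hz).2.2.1)
theorem Surface.norm_deriv (S : Surface G) (γ : S.Γ) (hz : z ∈ ball (0 : ℂ) 1) :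
    ‖deriv (S.act γ) z‖ * (1 - ‖z‖ ^ 2) = 1 - ‖S.act γ z‖ ^ 2 := by
  obtain ⟨a, b, h, e⟩ := S.exists_sym γ
  rw [(e z hz).2.2.2.deriv, (e z hz).2.1, norm_inv, norm_pow]
  exact mob_norm h hz
theorem Surface.pd_act (S : Surface G) (γ : S.Γ) (hz : z ∈ ball (0 : ℂ) 1)
    (hw : w ∈ ball (0 : ℂ) 1) : pd (S.act γ z) (S.act γ w) = pd z w := by
  obtain ⟨a, b, h, e⟩ := S.exists_sym γ
  rw [pd, (e z hz).1, (e w hw).1, (iso_sym (Or.inl h)).br_eq, pd]
theorem Surface.countable (S : Surface G) : Countable S.Γ := by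
  rw [← Set.countable_univ_iff]
  refine (Set.countable_iUnion fun q : {q : ℚ // (q : ℝ) < 1} =>
    (S.proper (closedBall 0 (q.1 : ℝ)) (closedBall_subset_ball q.2)
      (isCompact_closedBall _ _)).countable).mono fun γ _ => ?_
  obtain ⟨q, h1, h2⟩ := exists_rat_btwn (mem_ball_zero_iff.1 (S.act_mem γ (mem_ball_self one_pos)))
  exact mem_iUnion.2 ⟨⟨q, h2⟩, 0, mem_closedBall_self ((norm_nonneg _).trans h1.le),
    mem_closedBall_zero_iff.2 h1.le⟩
theorem continuousOn_pd : ContinuousOn (fun p : ℂ × ℂ => pd p.1 p.2) (ball 0 1 ×ˢ ball 0 1) :=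
  continuous_re.comp_continuousOn (ContinuousOn.br
    (continuousOn_zv.comp continuousOn_fst fun _ hp => hp.1)
    (continuousOn_zv.comp continuousOn_snd fun _ hp => hp.2))
theorem pd_comm (z w : ℂ) : pd z w = pd w z := by rw [pd, br_comm, pd]
theorem exists_pd_le {r : ℝ} (hr : r < 1) (T : ℝ) : ∃ r' < 1, r ≤ r' ∧ ∀ z w : ℂ, ‖z‖ ≤ r →
    w ∈ ball (0 : ℂ) 1 → pd z w ≤ T → ‖w‖ ≤ r' := by
  have hT : 0 < max T 1 := one_pos.trans_le (le_max_right _ _)
  have hε : 0 < (1 - r) / 2 := by linarith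
  refine ⟨max ((1 + r) / 2) (1 - ((1 - r) / 2) ^ 2 / max T 1), max_lt (by linarith) ?_,
    le_max_of_le_left (by linarith), fun z w hz hw h => ?_⟩
  · have : 0 < ((1 - r) / 2) ^ 2 / max T 1 := by positivity
    linarith
  have hz' : z ∈ ball (0 : ℂ) 1 := mem_ball_zero_iff.2 (hz.trans_lt hr)
  rcases le_total ‖w‖ ((1 + r) / 2) with h1 | h1
  · exact le_max_of_le_left h1
  refine le_max_of_le_right ?_
  have p1 := one_sub_pos hz'
  have p2 := one_sub_pos hw
  have hw1 := mem_ball_zero_iff.1 hw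
  rw [pd, br_zv_zv hz' hw, ofReal_re] at h
  have h2 : 2 * ‖z - w‖ ^ 2 / ((1 - ‖z‖ ^ 2) * (1 - ‖w‖ ^ 2)) ≤ max T 1 := by
    linarith [le_max_left T 1]
  rw [div_le_iff₀ (mul_pos p1 p2)] at h2
  have h3 : (1 - r) / 2 ≤ ‖z - w‖ := by
    have := norm_sub_norm_le w z
    rw [norm_sub_rev] at this
    linarith
  have h4 : ((1 - r) / 2) ^ 2 ≤ ‖z - w‖ ^ 2 := pow_le_pow_left₀ hε.le h3 2
  have h5 : (1 - ‖z‖ ^ 2) * (1 - ‖w‖ ^ 2) ≤ 2 * (1 - ‖w‖) := by
    have : (1 - ‖z‖ ^ 2) * (1 - ‖w‖ ^ 2) ≤ 1 - ‖w‖ ^ 2 := by nlinarith [sq_nonneg ‖z‖]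
    nlinarith [sq_nonneg (1 - ‖w‖)]
  have h6 : ((1 - r) / 2) ^ 2 / max T 1 ≤ 1 - ‖w‖ := by
    rw [div_le_iff₀ hT]
    nlinarith [mul_le_mul_of_nonneg_left h5 hT.le]
  linarith

theorem hI_moebius {a b : ℂ} (h : ‖a‖ ^ 2 - ‖b‖ ^ 2 = 1) (f : ℂ → ℂ) :
    hI (fun z => f ((a * z + b) / (conj b * z + conj a))) = hI f := by
  have := integral_image_eq_integral_abs_det_fderiv_smul volume measurableSet_ball
    (mob_fderiv h) (mob_injOn h) fun z => (dens z : ℂ) * f z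
  rw [mob_image h] at this
  rw [hI, hI, this]
  exact setIntegral_congr_fun measurableSet_ball fun z hz => (jac h f hz).symm
theorem integrableOn_moebius {a b : ℂ} (h : ‖a‖ ^ 2 - ‖b‖ ^ 2 = 1) {f : ℂ → ℂ}
    (hf : IntegrableOn (fun z => (dens z : ℂ) * f z) (ball 0 1)) :
    IntegrableOn (fun z => (dens z : ℂ) * f ((a * z + b) / (conj b * z + conj a))) (ball 0 1) :=
  (integrableOn_iff h f).1 hf
theorem hI_congr {f g : ℂ → ℂ} (h : ∀ z ∈ ball (0 : ℂ) 1, f z = g z) : hI f = hI g :=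
  setIntegral_congr_fun measurableSet_ball fun z hz => congrArg (fun x => (dens z : ℂ) * x) (h z hz)
theorem hI_act (γ : S.Γ) (f : ℂ → ℂ) : hI (fun z => f (S.act γ z)) = hI f := by
  obtain ⟨a, b, h, e⟩ := S.exists_sym γ
  rw [← hI_moebius h f]
  exact hI_congr fun z hz => congrArg f (e z hz).2.1
theorem hI_eq_closedBall {r : ℝ} (hr : r < 1) {f : ℂ → ℂ}
    (h : ∀ z ∈ ball (0 : ℂ) 1, r < ‖z‖ → f z = 0) :
    hI f = ∫ z in closedBall (0 : ℂ) r, (dens z : ℂ) * f z :=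
  setIntegral_eq_of_subset_of_forall_sdiff_eq_zero measurableSet_ball (closedBall_subset_ball hr)
    fun z hz => by
      rw [h z hz.1 (not_le.1 fun h' => hz.2 (mem_closedBall_zero_iff.2 h')), mul_zero]

namespace Area

theorem exists_finset (S : Surface G) {β : ℂ → ℝ} {r : ℝ} (hr : r < 1)
    (hβ : ∀ z, β z ≠ 0 → ‖z‖ < r) (hz : z ∈ ball (0 : ℂ) 1) :
    ∃ ρ < 1, ‖z‖ < ρ ∧ ∃ F : Finset S.Γ, ∀ w ∈ ball (0 : ℂ) ρ,
      Function.support (fun γ => β (S.act γ w)) ⊆ F := by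
  obtain ⟨ρ, h1, h2⟩ := exists_between (max_lt hr (mem_ball_zero_iff.1 hz))
  refine ⟨ρ, h2, (le_max_right _ _).trans_lt h1, (S.proper (closedBall 0 ρ)
    (closedBall_subset_ball h2) (isCompact_closedBall _ _)).toFinset, fun w hw γ hγ => ?_⟩
  rw [Finite.coe_toFinset]
  exact ⟨w, ball_subset_closedBall hw, mem_closedBall_zero_iff.2
    ((hβ _ hγ).le.trans ((le_max_left _ _).trans h1.le))⟩

theorem finite_supp (S : Surface G) {β : ℂ → ℝ} {r : ℝ} (hr : r < 1)
    (hβ : ∀ z, β z ≠ 0 → ‖z‖ < r) (hz : z ∈ ball (0 : ℂ) 1) :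
    Function.HasFiniteSupport fun γ => β (S.act γ z) := by
  obtain ⟨ρ, -, h, F, hF⟩ := exists_finset S hr hβ hz
  exact F.finite_toSet.subset (hF z (mem_ball_zero_iff.2 h))

theorem contDiffAt_act (S : Surface G) (γ : S.Γ) (hz : z ∈ ball (0 : ℂ) 1) :
    ContDiffAt ℝ 1 (S.act γ) z :=
  (((S.diffOn_act γ).contDiffOn isOpen_ball).contDiffAt (isOpen_ball.mem_nhds hz)).restrict_scalars
    ℝ

theorem hasSum_inv (P : Part S) (hz : z ∈ ball (0 : ℂ) 1) :
    HasSum (fun γ => P.χ (S.act γ⁻¹ z)) 1 := by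
  have h := finite_supp S P.r_lt P.supp hz
  have h1 := (summable_of_hasFiniteSupport (L := SummationFilter.unconditional _) h).hasSum
  rw [tsum_eq_finsum h, P.sum_one z hz] at h1
  exact (Equiv.inv S.Γ).hasSum_iff.2 h1

end Area

theorem exists_part (S : Surface G) : Nonempty (Part S) := by
  obtain ⟨K, hK, hc, hcov⟩ := S.cocompact
  obtain ⟨r₀, hr₀, hK'⟩ := exists_pos_lt_subset_ball one_pos hc.isClosed hK
  let β : ContDiffBump (0 : ℂ) := ⟨r₀, (1 + r₀) / 2, hr₀.1, by linarith [hr₀.2]⟩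
  have hr : (1 + r₀) / 2 < 1 := by linarith [hr₀.2]
  have hβ : ∀ z, β z ≠ 0 → ‖z‖ < (1 + r₀) / 2 := fun z hz =>
    mem_ball_zero_iff.1 (β.support_eq ▸ (hz : z ∈ Function.support β))
  set s : ℂ → ℝ := fun z => ∑ᶠ γ, β (S.act γ z) with hs
  have hpos : ∀ z ∈ ball (0 : ℂ) 1, 0 < s z := by
    intro z hz
    obtain ⟨γ, hγ⟩ := hcov z hz
    have h1 : β (S.act γ z) = 1 := β.one_of_mem_closedBall (ball_subset_closedBall (hK' hγ))
    exact finsum_pos (fun _ => β.nonneg) ⟨γ, by rw [h1]; exact one_pos⟩ (finite_supp S hr hβ hz)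
  have hsm : ∀ z ∈ ball (0 : ℂ) 1, ContDiffAt ℝ 1 s z := by
    intro z hz
    obtain ⟨ρ, -, h, F, hF⟩ := exists_finset S hr hβ hz
    have h1 : ContDiffAt ℝ 1 (fun w => ∑ γ ∈ F, β (S.act γ w)) z :=
      ContDiffAt.sum fun γ _ => β.contDiffAt.comp z (contDiffAt_act S γ hz)
    exact h1.congr_of_eventuallyEq (Filter.eventually_of_mem
      (isOpen_ball.mem_nhds (mem_ball_zero_iff.2 h)) fun w hw =>
        finsum_eq_sum_of_support_subset _ (hF w hw))
  have hinv : ∀ γ, ∀ z ∈ ball (0 : ℂ) 1, s (S.act γ z) = s z := by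
    intro γ z hz
    rw [hs]
    simp only [← S.act_mul _ γ z hz]
    exact finsum_comp_equiv (Equiv.mulRight γ) (f := fun δ => β (S.act δ z))
  refine ⟨⟨fun z => β z / s z, (1 + r₀) / 2, by linarith [hr₀.1], hr, ?_, fun z => ?_,
    fun z hz => hβ z fun h => hz (by rw [h, zero_div]), fun z hz => ?_⟩⟩
  · refine contDiff_iff_contDiffAt.2 fun z => ?_
    by_cases hz : z ∈ ball (0 : ℂ) 1
    · exact β.contDiffAt.div (hsm z hz) (hpos z hz).ne'
    · have h1 : z ∈ (closedBall (0 : ℂ) ((1 + r₀) / 2))ᶜ := fun h => hz (closedBall_subset_ball hr h)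
      refine (contDiffAt_const (c := 0)).congr_of_eventuallyEq (Filter.eventually_of_mem
        (isClosed_closedBall.isOpen_compl.mem_nhds h1) fun w hw => ?_)
      have h2 : β w = 0 := by
        by_contra h
        exact hw (mem_closedBall_zero_iff.2 (hβ w h).le)
      simp only [h2, zero_div]
  · exact div_nonneg β.nonneg (finsum_nonneg fun _ => β.nonneg)
  · simp only [hinv _ z hz, div_eq_mul_inv]
    rw [← finsum_mul]
    exact mul_inv_cancel₀ (hpos z hz).ne'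
theorem Part.exists_mem (P : Part S) (hz : z ∈ ball (0 : ℂ) 1) : ∃ γ, 0 < P.χ (S.act γ z) := by
  by_contra h
  have h1 : ∀ γ, P.χ (S.act γ z) = 0 := fun γ =>
    le_antisymm (not_lt.1 fun h' => h ⟨γ, h'⟩) (P.nonneg _)
  have := P.sum_one z hz
  simp [h1] at this
theorem Part.pI_eq (P : Part S) (f : ℂ → ℂ) :
    P.pI f = ∫ z in closedBall (0 : ℂ) P.r, (P.χ z : ℂ) * f z := by
  refine (setIntegral_eq_integral_of_forall_compl_eq_zero fun z hz => ?_).symm
  have : P.χ z = 0 := by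
    by_contra h
    exact hz (mem_closedBall_zero_iff.2 (P.supp z h).le)
  rw [this, ofReal_zero, zero_mul]
theorem Part.hI_eq (P : Part S) (f : ℂ → ℂ) :
    hI (fun z => P.χ z * f z) = P.pI fun z => dens z * f z := by
  rw [hI, setIntegral_eq_integral_of_forall_compl_eq_zero fun z hz => ?_, Part.pI]
  · simp only [mul_left_comm]
  · have : P.χ z = 0 := by
      by_contra h
      exact hz (mem_ball_zero_iff.2 ((P.supp z h).trans P.r_lt))
    rw [this, ofReal_zero, zero_mul, mul_zero]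
theorem Part.hI_pos (P : Part S) : 0 < (hI fun z => (P.χ z : ℂ)).re := by
  have h0 : ∀ z, P.r < ‖z‖ → P.χ z = 0 := fun z hz => by
    by_contra h
    exact lt_asymm hz (P.supp z h)
  rw [hI_eq_closedBall P.r_lt fun z _ hz => by rw [h0 z hz, ofReal_zero]]
  simp only [← ofReal_mul]
  rw [integral_complex_ofReal, ofReal_re]
  have hsub := closedBall_subset_ball (x := (0 : ℂ)) P.r_lt
  have hc : ContinuousOn (fun z => dens z * P.χ z) (closedBall 0 P.r) :=
    (continuousOn_dens.mono hsub).mul P.smooth.continuous.continuousOn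
  rw [setIntegral_pos_iff_support_of_nonneg_ae
    (ae_restrict_of_forall_mem measurableSet_closedBall fun z hz =>
      mul_nonneg (dens_pos (hsub hz)).le (P.nonneg z))
    (hc.integrableOn_compact (isCompact_closedBall _ _))]
  obtain ⟨γ, hγ⟩ := P.exists_mem (mem_ball_self one_pos)
  have ho : IsOpen (Function.support P.χ) := P.smooth.continuous.isOpen_support
  refine (ho.measure_pos volume ⟨_, hγ.ne'⟩).trans_le (measure_mono fun z hz => ?_)
  have hz' : z ∈ closedBall (0 : ℂ) P.r := mem_closedBall_zero_iff.2 (P.supp z hz).le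
  exact ⟨mul_ne_zero (dens_pos (hsub hz')).ne' hz, hz'⟩

theorem Part.unfold (P : Part S) {f : ℂ → ℂ}
    (hf : IntegrableOn (fun z => (dens z : ℂ) * f z) (ball 0 1)) :
    HasSum (fun γ => hI fun z => P.χ z * f (S.act γ z)) (hI f) := by
  have := S.countable
  have e1 : ∀ γ, (hI fun z => P.χ z * f (S.act γ z)) =
      ∫ z in ball (0 : ℂ) 1, (P.χ (S.act γ⁻¹ z) : ℂ) * ((dens z : ℂ) * f z) := by
    intro γ
    have h1 := hI_act γ fun w => (P.χ (S.act γ⁻¹ w) : ℂ) * f w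
    rw [hI_congr (g := fun z => P.χ z * f (S.act γ z)) fun z hz => by
      rw [← S.act_mul _ _ z hz, inv_mul_cancel, S.act_one hz]] at h1
    rw [h1, hI]
    simp only [mul_left_comm]
  have hle : ∀ (s : Finset S.Γ), ∀ z ∈ ball (0 : ℂ) 1, ∑ γ ∈ s, P.χ (S.act γ⁻¹ z) ≤ 1 :=
    fun s z hz => sum_le_hasSum s (fun _ _ => P.nonneg _) (hasSum_inv P hz)
  have hi : ∀ γ, Integrable (fun z => (P.χ (S.act γ⁻¹ z) : ℂ) * ((dens z : ℂ) * f z))
      (volume.restrict (ball 0 1)) := by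
    intro γ
    refine Integrable.bdd_mul (c := 1) hf ?_
      (ae_restrict_of_forall_mem measurableSet_ball fun z hz => ?_)
    · exact (continuous_ofReal.comp_continuousOn (P.smooth.continuous.comp_continuousOn
        (S.diffOn_act γ⁻¹).continuousOn)).aestronglyMeasurable measurableSet_ball
    · rw [norm_real, Real.norm_of_nonneg (P.nonneg _)]
      simpa using hle {γ} z hz
  have hs : Summable fun γ => ∫ z in ball (0 : ℂ) 1,
      ‖(P.χ (S.act γ⁻¹ z) : ℂ) * ((dens z : ℂ) * f z)‖ := by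
    refine summable_of_sum_le (c := ∫ z in ball (0 : ℂ) 1, ‖(dens z : ℂ) * f z‖)
      (fun γ => integral_nonneg fun _ => norm_nonneg _) fun s => ?_
    rw [← integral_finsetSum s fun γ _ => (hi γ).norm]
    refine integral_mono_ae (integrable_finsetSum s fun γ _ => (hi γ).norm) hf.norm
      (ae_restrict_of_forall_mem measurableSet_ball fun z hz => ?_)
    simp only [norm_mul _ ((dens z : ℂ) * f z), norm_real, Real.norm_of_nonneg (P.nonneg _),
      ← Finset.sum_mul]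
    exact mul_le_of_le_one_left (norm_nonneg _) (hle s z hz)
  have key := hasSum_integral_of_summable_integral_norm hi hs
  have e2 : (∫ z in ball (0 : ℂ) 1, ∑' γ, (P.χ (S.act γ⁻¹ z) : ℂ) * ((dens z : ℂ) * f z)) = hI f :=
    setIntegral_congr_fun measurableSet_ball fun z hz => by
      have := ((hasSum_ofReal.2 (hasSum_inv P hz)).mul_right ((dens z : ℂ) * f z)).tsum_eq
      rwa [ofReal_one, one_mul] at this
  rw [e2] at key
  simp only [e1]
  exact key

theorem exists_I0 : ∃ I₀ : ℝ, 0 < I₀ ∧ ∀ c, Hyp c →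
    IntegrableOn (fun w => (dens w : ℂ) * (br c (zv w))⁻¹ ^ 2) (ball 0 1) ∧
      hI (fun w => (br c (zv w))⁻¹ ^ 2) = I₀ := by
  have hc : Continuous fun w : ℂ => 4 / (1 + ‖w‖ ^ 2) ^ 2 :=
    continuous_const.div (by fun_prop) fun w => by positivity
  have hi : IntegrableOn (fun w : ℂ => 4 / (1 + ‖w‖ ^ 2) ^ 2) (ball 0 1) :=
    (hc.continuousOn.integrableOn_compact (isCompact_closedBall 0 1)).mono_set
      ball_subset_closedBall
  refine ⟨∫ w in ball (0 : ℂ) 1, 4 / (1 + ‖w‖ ^ 2) ^ 2, ?_, fun c h => ?_⟩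
  · rw [setIntegral_pos_iff_support_of_nonneg_ae (Filter.Eventually.of_forall fun w => by
      positivity) hi]
    refine (measure_ball_pos volume (0 : ℂ) one_pos).trans_le (measure_mono fun z hz => ⟨?_, hz⟩)
    exact Function.mem_support.2 (by positivity)
  obtain ⟨a, b, hab, e, -⟩ := exists_sym h (nul_xi (y := 1) norm_one)
  have key : ∀ w ∈ ball (0 : ℂ) 1, (dens w : ℂ) * (br c (zv (mob a b w)))⁻¹ ^ 2 =
      ((4 / (1 + ‖w‖ ^ 2) ^ 2 : ℝ) : ℂ) := by
    intro w hw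
    have h1 := (one_sub_pos hw).ne'
    have h2 : (1 + ‖w‖ ^ 2) ≠ 0 := by positivity
    rw [mob, ← (sym_zv hab hw).2.2, ← e, (iso_sym (Or.inl hab)).br_eq, br_oo_left, zv,
      ← ofReal_inv, ← ofReal_pow, ← ofReal_mul, dens]
    congr 1
    field_simp
  constructor
  · rw [integrableOn_iff hab fun w => (br c (zv w))⁻¹ ^ 2,
      integrableOn_congr_fun key measurableSet_ball]
    exact hi.ofReal
  · rw [← hI_moebius hab, ← integral_complex_ofReal]
    exact setIntegral_congr_fun measurableSet_ball key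

end Pool.Agent.Lib.MP_de7bb2_an
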