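import Pool.Agent.Lib.MP_de7bb2_an.H20Word

/-! Codes of boundary points. TASK CODE. -/

namespace Pool.Agent.Lib.MP_de7bb2_an

open Metric Set Complex

variable {G : ℕ} [hG : Fact (2 ≤ G)] {b : ZMod 2}

/-- Product of the first `i` letters. -/
def pre (u : ℕ → L G) : ℕ → W G
  | 0 => 1
  | i + 1 => pre u i * sr (u i)

/-- `u` is an itinerary of `Y` seen from the chamber `g`. -/
def Codes (b : ZMod 2) (g : W G) (u : ℕ → L G) (Y : V) : Prop :=
  ∀ i, Arc b (u i) (lin (g * pre u i)⁻¹ Y) ∧ Edge b (u i) (u (i + 1))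

/-- The word eventually runs along a wall. -/
def Alt (u : ℕ → L G) : Prop := ∃ (i₀ : ℕ) (j : L G), ∀ i, i₀ ≤ i → u i = j + 1 ∨ u i = j - 1

namespace Code

/-- Drop the first letter. -/
def tl (u : ℕ → L G) : ℕ → L G := fun i => u (i + 1)

/-- Put a letter in front. -/
def cs (a : L G) (u : ℕ → L G) : ℕ → L G
  | 0 => a
  | i + 1 => u i

omit hG in
theorem tl_cs (a : L G) (u : ℕ → L G) : tl (cs a u) = u := rfl

/-- Two itineraries share a tail. -/
def Merge (g : W G) (u : ℕ → L G) (g' : W G) (u' : ℕ → L G) : Prop :=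
  ∃ i j, ∀ k, g * pre u (i + k) = g' * pre u' (j + k) ∧ u (i + k) = u' (j + k)

variable {g g' g'' : W G} {u u' u'' : ℕ → L G} {Y : V} {m : L G}

omit hG in
theorem pre_succ' (u : ℕ → L G) (i : ℕ) : pre u (i + 1) = sr (u 0) * pre (tl u) i := by
  induction i with
  | zero => simp [pre]
  | succ i ih =>
    rw [pre, ih, pre, mul_assoc]
    rfl

omit hG in
theorem Merge.refl (g : W G) (u : ℕ → L G) : Merge g u g u := ⟨0, 0, fun _ => ⟨rfl, rfl⟩⟩

omit hG in
theorem Merge.symm (h : Merge g u g' u') : Merge g' u' g u := by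
  obtain ⟨i, j, h⟩ := h
  exact ⟨j, i, fun k => ⟨(h k).1.symm, (h k).2.symm⟩⟩

omit hG in
theorem Merge.trans (h : Merge g u g' u') (h' : Merge g' u' g'' u'') : Merge g u g'' u'' := by
  obtain ⟨i, j, h⟩ := h
  obtain ⟨i', j', h'⟩ := h'
  refine ⟨i + i', j' + j, fun k => ?_⟩
  have e1 : i + i' + k = i + (i' + k) := by ring
  have e2 : j' + j + k = j' + (j + k) := by ring
  have e3 : j + (i' + k) = i' + (j + k) := by ring
  rw [e1, e2, (h (i' + k)).1, (h (i' + k)).2, e3]
  exact h' (j + k)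

omit hG in
theorem Merge.alt (h : Merge g u g' u') (h' : Alt u') : Alt u := by
  obtain ⟨i, j, h⟩ := h
  obtain ⟨i₀, a, ha⟩ := h'
  refine ⟨i + i₀, a, fun n hn => ?_⟩
  obtain ⟨k, rfl⟩ : ∃ k, n = i + k := ⟨n - i, by omega⟩
  rw [(h k).2]
  exact ha _ (by omega)

omit hG in
theorem merge_tl (g : W G) (u : ℕ → L G) : Merge g u (g * sr (u 0)) (tl u) := by
  refine ⟨1, 0, fun k => ?_⟩
  rw [add_comm 1 k, zero_add, pre_succ', mul_assoc]
  exact ⟨rfl, rfl⟩

theorem codes_iff : Codes b g u Y ↔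
    Arc b (u 0) (lin g⁻¹ Y) ∧ Edge b (u 0) (u 1) ∧ Codes b (g * sr (u 0)) (tl u) Y := by
  constructor
  · intro h
    refine ⟨by simpa [pre] using (h 0).1, (h 0).2, fun i => ⟨?_, (h (i + 1)).2⟩⟩
    have := (h (i + 1)).1
    rwa [pre_succ', ← mul_assoc] at this
  · rintro ⟨h1, h2, h3⟩ i
    cases i with
    | zero => exact ⟨by simpa [pre] using h1, h2⟩
    | succ i =>
      refine ⟨?_, (h3 i).2⟩
      rw [pre_succ', ← mul_assoc]
      exact (h3 i).1

theorem lin_mul_sr_inv (g : W G) (m : L G) (Y : V) :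
    lin (g * sr m)⁻¹ Y = mir m (lin g⁻¹ Y) := by
  rw [mul_inv_rev, sr_inv, lin_mul, lin_sr]

theorem succ_ne (m : L G) : m + 1 ≠ m := by
  intro h
  have h1 : ((1 : ℕ) : L G) ≠ 0 := natCast_ne_zero (by norm_num) (by norm_num)
  exact h1 (by simpa using h)

theorem pred_ne (m : L G) : m - 1 ≠ m := by
  intro h
  have h1 : ((1 : ℕ) : L G) ≠ 0 := natCast_ne_zero (by norm_num) (by norm_num)
  exact h1 (by simpa using h)

theorem two_cases {x y : ZMod 2} (h : x ≠ y) : x + 1 = y := by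
  revert x y
  decide

theorem two_ne (x : ZMod 2) : x + 1 ≠ x := by
  revert x
  decide

omit hG in
theorem par_adj (hm : par m ≠ b) {a : L G} (ha : a = m + 1 ∨ a = m - 1) : par a = b := by
  rcases ha with rfl | rfl
  · rw [par_add_one]
    exact two_cases hm
  · rw [par_sub_one]
    exact two_cases hm

omit hG in
theorem sr_comm_adj {a : L G} (ha : a = m + 1 ∨ a = m - 1) : sr m * sr a = sr a * sr m := by
  rcases ha with rfl | rfl
  · exact sr_comm m
  · exact sr_comm' m

theorem arc_mir_adj (hm : par m ≠ b) {a : L G} (ha : a = m + 1 ∨ a = m - 1) (h : Arc b a Y) :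
    Arc b a (mir m Y) := by
  have hp := par_adj hm ha
  obtain ⟨h1, h2, h3, -⟩ := arc_iff.1 h
  refine arc_iff.2 ⟨(iso_refl m).nul h1, (iso_refl m).fut _ h2, ?_, fun h => absurd hp h⟩
  rcases ha with rfl | rfl
  · rwa [side_refl_succ]
  · rwa [side_refl_pred]

theorem step_edge (h : Codes b g u Y) (he : Edge b m (u 0)) :
    Codes b (g * sr m) (cs m u) Y ∧ Merge g u (g * sr m) (cs m u) := by
  have e : g * sr m * sr m = g := by rw [mul_assoc, sr_mul_self, mul_one]
  constructor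
  · refine codes_iff.2 ⟨?_, he, ?_⟩
    · rw [lin_mul_sr_inv]
      exact Arc.step he (codes_iff.1 h).1
    · change Codes b (g * sr m * sr m) u Y
      rwa [e]
  · have := merge_tl (g * sr m) (cs m u)
    change Merge (g * sr m) (cs m u) (g * sr m * sr m) u at this
    rw [e] at this
    exact this.symm

theorem step_base (hm : par m ≠ b) (h : Codes b g u Y) (h0 : ¬(u 0 = m + 1 ∨ u 0 = m - 1)) :
    ∃ v, Codes b (g * sr m) v Y ∧ Merge g u (g * sr m) v ∧
      ∀ a, (a = m + 1 ∨ a = m - 1) → a ≠ u 0 → a ≠ v 0 := by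
  by_cases hu : u 0 = m
  · obtain ⟨-, h2, h3⟩ := codes_iff.1 h
    have h4 := merge_tl g u
    rw [hu] at h2 h3 h4
    refine ⟨tl u, h3, h4, fun a ha _ => ?_⟩
    obtain ⟨h5, h6⟩ := h2.2 hm
    rcases ha with rfl | rfl
    · exact fun e => h5 e.symm
    · exact fun e => h6 e.symm
  · have he : Edge b m (u 0) :=
      ⟨fun e => hu e.symm, fun _ => ⟨fun e => h0 (Or.inl e), fun e => h0 (Or.inr e)⟩⟩
    refine ⟨cs m u, (step_edge h he).1, (step_edge h he).2, fun a ha _ => ?_⟩
    rcases ha with rfl | rfl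
    · exact succ_ne m
    · exact pred_ne m

theorem step_run (hm : par m ≠ b) (n : ℕ) : ∀ (g : W G) (u : ℕ → L G), Codes b g u Y →
    ¬(u n = m + 1 ∨ u n = m - 1) → ∃ v, Codes b (g * sr m) v Y ∧ Merge g u (g * sr m) v ∧
      ∀ a, (a = m + 1 ∨ a = m - 1) → a ≠ u 0 → a ≠ v 0 := by
  induction n with
  | zero => exact fun g u h h0 => step_base hm h h0
  | succ n ih =>
    intro g u h hn
    by_cases h0 : u 0 = m + 1 ∨ u 0 = m - 1
    swap
    · exact step_base hm h h0
    obtain ⟨h1, h2, h3⟩ := codes_iff.1 h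
    obtain ⟨v, hv1, hv2, hv3⟩ := ih _ _ h3 hn
    have e : g * sr (u 0) * sr m = g * sr m * sr (u 0) := by
      rw [mul_assoc, mul_assoc, sr_comm_adj h0]
    rw [e] at hv1 hv2
    refine ⟨cs (u 0) v, codes_iff.2 ⟨?_, ?_, hv1⟩, ?_, fun a _ ha => ha⟩
    · rw [lin_mul_sr_inv]
      exact arc_mir_adj hm h0 h1
    · exact ⟨hv3 _ h0 h2.1, fun hp => absurd (par_adj hm h0) hp⟩
    · exact ((merge_tl g u).trans hv2).trans (merge_tl (g * sr m) (cs (u 0) v)).symm

/-- Moving to an adjacent chamber keeps the tail of the itinerary. -/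
theorem step (h : Codes b g u Y) (m : L G) :
    Alt u ∨ ∃ v, Codes b (g * sr m) v Y ∧ Merge g u (g * sr m) v := by
  by_cases he : Edge b m (u 0)
  · exact Or.inr ⟨_, step_edge h he⟩
  by_cases hu : u 0 = m
  · obtain ⟨-, -, h3⟩ := codes_iff.1 h
    have h4 := merge_tl g u
    rw [hu] at h3 h4
    exact Or.inr ⟨_, h3, h4⟩
  have hm : par m ≠ b := fun hp => he ⟨fun e => hu e.symm, fun h => absurd hp h⟩
  by_cases hA : ∀ n, u n = m + 1 ∨ u n = m - 1
  · exact Or.inl ⟨0, m, fun i _ => hA i⟩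
  obtain ⟨n, hn⟩ := not_forall.1 hA
  obtain ⟨v, h1, h2, -⟩ := step_run hm n g u h hn
  exact Or.inr ⟨v, h1, h2⟩

theorem near_of_side {a j : L G} (h : Arc b a Y) (hj : side Y (wn j) = 0) :
    a = j ∨ a = j + 1 ∨ a = j - 1 := by
  by_contra hc
  push Not at hc
  have hf : Far j a := ⟨fun e => hc.1 e.symm, hc.2.1, hc.2.2⟩
  obtain ⟨η, hη, hg⟩ := far_gap (G := G)
  obtain ⟨h1, h2, h3, -⟩ := arc_iff.1 h
  have h4 := hg a j hf.symm Y h2 h3
  have h5 := mul_pos hη h1.2.1
  linarith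

theorem side_mir_of_near {a j : L G} (hj : side Y (wn j) = 0)
    (ha : a = j ∨ a = j + 1 ∨ a = j - 1) : side (mir a Y) (wn j) = 0 := by
  rcases ha with rfl | rfl | rfl
  · rw [side_refl_self, hj, neg_zero]
  · have := side_refl_pred (j + 1) Y
    rw [add_sub_cancel_right] at this
    rw [this, hj]
  · have := side_refl_succ (j - 1) Y
    rw [sub_add_cancel] at this
    rw [this, hj]

theorem alt_of_side_same {j : L G} (h : Codes b g u Y) (hj : side (lin g⁻¹ Y) (wn j) = 0) :
    Alt u := by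
  have hs : ∀ i, side (lin (g * pre u i)⁻¹ Y) (wn j) = 0 := by
    intro i
    induction i with
    | zero => simpa [pre] using hj
    | succ i ih =>
      rw [pre, ← mul_assoc, lin_mul_sr_inv]
      exact side_mir_of_near ih (near_of_side (h i).1 ih)
  refine ⟨1, j, fun n hn => ?_⟩
  obtain ⟨i, rfl⟩ : ∃ i, n = i + 1 := ⟨n - 1, by omega⟩
  rcases near_of_side (h (i + 1)).1 (hs (i + 1)) with e | e
  swap
  · exact e
  exfalso
  by_cases hp : par j = b
  · have he := (h i).2
    rw [e] at he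
    rcases near_of_side (h i).1 (hs i) with e' | e' | e'
    · exact he.1 e'
    · rw [e'] at he
      refine (he.2 ?_).2 (add_sub_cancel_right _ _).symm
      rw [par_add_one, hp]
      exact two_ne b
    · rw [e'] at he
      refine (he.2 ?_).1 (sub_add_cancel _ _).symm
      rw [par_sub_one, hp]
      exact two_ne b
  · have ha := (h (i + 1)).1
    rw [e] at ha
    obtain ⟨h1, -, -, h4⟩ := arc_iff.1 ha
    obtain ⟨h5, h6⟩ := h4 hp
    rcases wall_end h1 (hs (i + 1)) with h7 | h7 <;> linarith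

theorem alt_of_side {j : L G} (hj : side (lin g⁻¹ Y) (wn j) = 0) (w : W G) :
    ∀ u, Codes b (g * w) u Y → Alt u := by
  induction w using W.induction_right with
  | h1 => exact fun u h => alt_of_side_same (by simpa using h) hj
  | hs w m ih =>
    intro u h
    rcases step h m with h1 | ⟨v, h1, h2⟩
    · exact h1
    · refine h2.alt (ih v ?_)
      rwa [← mul_assoc, mul_assoc (g * w), sr_mul_self, mul_one] at h1

omit hG in
theorem pre_congr {n : ℕ} (h : ∀ i < n, u i = u' i) : pre u n = pre u' n := by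
  induction n with
  | zero => rfl
  | succ n ih => rw [pre, pre, ih fun i hi => h i (by omega), h n (by omega)]

theorem alt_or_eq (h : Codes b g u Y) (h' : Codes b g u' Y) : Alt u ∨ u = u' := by
  classical
  by_cases he : ∀ i, u i = u' i
  · exact Or.inr (funext he)
  left
  have hex : ∃ i, u i ≠ u' i := not_forall.1 he
  have h1 : pre u (Nat.find hex) = pre u' (Nat.find hex) :=
    pre_congr fun i hi => not_not.1 (Nat.find_min hex hi)
  have h2 := (h' (Nat.find hex)).1
  rw [← h1] at h2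
  obtain ⟨k, -, hk⟩ := arc_inter (Nat.find_spec hex) (h (Nat.find hex)).1 h2
  refine alt_of_side (b := b) hk (pre u (Nat.find hex))⁻¹ u ?_
  rwa [mul_inv_cancel_right]

theorem alt_or_merge (h : Codes b g u Y) (w : W G) :
    Alt u ∨ ∃ v, Codes b (g * w) v Y ∧ Merge g u (g * w) v := by
  induction w using W.induction_right with
  | h1 => exact Or.inr ⟨u, by simpa using h, by simpa using Merge.refl g u⟩
  | hs w m ih =>
    rcases ih with h1 | ⟨v, h1, h2⟩
    · exact Or.inl h1
    rcases step h1 m with h3 | ⟨v', h3, h4⟩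
    · exact Or.inl (h2.alt h3)
    · rw [← mul_assoc]
      exact Or.inr ⟨v', h3, h2.trans h4⟩

theorem exists_next' (b : ZMod 2) (p : {p : L G × V // Arc b p.1 p.2}) :
    ∃ q : {p : L G × V // Arc b p.1 p.2}, Edge b p.1.1 q.1.1 ∧ q.1.2 = mir p.1.1 p.1.2 := by
  obtain ⟨m', h1, h2⟩ := p.2.exists_next
  exact ⟨⟨(m', mir p.1.1 p.1.2), h2⟩, h1, rfl⟩

end Code

theorem exists_codes (b : ZMod 2) {m : L G} {Y : V} (h : Arc b m Y) :
    ∃ u, u 0 = m ∧ Codes b 1 u Y := by
  choose f hf1 hf2 using Code.exists_next' (G := G) b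
  let s : ℕ → {p : L G × V // Arc b p.1 p.2} := fun n => f^[n] ⟨(m, Y), h⟩
  have hs : ∀ n, s (n + 1) = f (s n) := fun n => Function.iterate_succ_apply' f n _
  have h2 : ∀ n, (s n).1.2 = lin (1 * pre (fun n => (s n).1.1) n)⁻¹ Y := by
    intro n
    induction n with
    | zero => simp [pre, s]
    | succ n ih => rw [pre, ← mul_assoc, Code.lin_mul_sr_inv, ← ih, hs, hf2]
  refine ⟨fun n => (s n).1.1, rfl, fun n => ⟨?_, ?_⟩⟩
  · rw [← h2]
    exact (s n).2
  · change Edge b (s n).1.1 (s (n + 1)).1.1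
    rw [hs]
    exact hf1 _

theorem code_merge {g g' : W G} {u u' : ℕ → L G} {Y : V} (h : Codes b g u Y)
    (h' : Codes b g' u' Y) :
    Alt u ∨ ∃ i j, ∀ k, g * pre u (i + k) = g' * pre u' (j + k) ∧ u (i + k) = u' (j + k) := by
  rcases Code.alt_or_merge h (g⁻¹ * g') with h1 | ⟨v, h1, h2⟩
  · exact Or.inl h1
  rw [mul_inv_cancel_left] at h1 h2
  rcases Code.alt_or_eq h1 h' with h3 | rfl
  · exact Or.inl (h2.alt h3)
  · exact Or.inr h2

omit hG in
theorem pre_eq_wd (u : ℕ → L G) (i : ℕ) : pre u i = wd (List.ofFn fun j : Fin i => u j) := by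
  induction i with
  | zero => rfl
  | succ i ih =>
    rw [pre, ih, List.ofFn_succ', List.concat_eq_append, wd_append, wd_cons, wd_nil, mul_one]
    rfl

theorem pre_injective {u : ℕ → L G} (h : ∀ i, Edge b (u i) (u (i + 1))) :
    Function.Injective (pre u) := by
  have ha : ∀ i, Adm b (List.ofFn fun j : Fin i => u j) := by
    intro i
    unfold Adm
    rw [List.isChain_iff_getElem]
    intro n hn
    simpa using h n
  intro i j hij
  rw [pre_eq_wd, pre_eq_wd] at hij
  simpa using congrArg List.length (wd_inj (ha i) (ha j) hij)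

end Pool.Agent.Lib.MP_de7bb2_an
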