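import Pool.Agent.Lib.MP_de7bb2_an.H20Surf
import Pool.Agent.Lib.MP_de7bb2_an.H20Code

/-! Axes of closed paths. TASK AXIS. -/

namespace Pool.Agent.Lib.MP_de7bb2_an

open Metric Set Complex

/-- `A` is a boost of length `l` with attracting direction `X` and repelling direction `Y`. -/
def Axis (A : V →L[ℂ] V) (X Y : V) (l : ℝ) : Prop :=
  Nul X ∧ Nul Y ∧ br X Y = 2 ∧ 0 < l ∧ A X = (Real.exp l : ℂ) • X ∧
    A Y = (Real.exp (-l) : ℂ) • Y ∧ A (cross Y X) = cross Y X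

namespace Ax

theorem cross_smul (a b : ℂ) (X Y : V) : cross (a • X) (b • Y) = (a * b) • cross X Y := by
  ext <;> simp [cross] <;> ring

theorem ne_zero {X : V} (h : Nul X) : X ≠ 0 := by
  rintro rfl
  simpa using h.2.1

theorem smul_inj {X : V} (h : Nul X) {a b : ℂ} (e : a • X = b • X) : a = b :=
  smul_left_injective ℂ (ne_zero h) e

theorem coeffs {A : V →L[ℂ] V} {X Y Z : V} {l : ℝ} (h : Axis A X Y l) {r : ℂ}
    (hA : A Z = r • Z) :
    br Z Y * (Real.exp l - r) = 0 ∧ br Z X * (Real.exp (-l) - r) = 0 ∧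
      br Z (cross Y X) * (1 - r) = 0 := by
  obtain ⟨hX, hY, hb, -, h1, h2, h3⟩ := h
  have hd := frame_decomp hX.2.2 hY.2.2 hb Z
  have hb' : br Y X = 2 := by rw [br_comm, hb]
  have c1 : br (cross Y X) Y = 0 := br_cross_left Y X
  have c2 : br (cross Y X) X = 0 := br_cross_right Y X
  have c3 : br (cross Y X) (cross Y X) = -4 := by
    rw [br_cross_cross, hX.2.2, hY.2.2, hb']; norm_num
  have c1' : br Y (cross Y X) = 0 := by rw [br_comm, c1]
  have c2' : br X (cross Y X) = 0 := by rw [br_comm, c2]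
  have e : A Z = (br Z Y / 2 * Real.exp l) • X + (br Z X / 2 * Real.exp (-l)) • Y -
      (br Z (cross Y X) / 4) • cross Y X := by
    conv_lhs => rw [hd]
    rw [map_sub, map_add, map_smul, map_smul, map_smul, h1, h2, h3, smul_smul, smul_smul]
  rw [hA] at e
  have e1 := congrArg (fun W => br W Y) e
  have e2 := congrArg (fun W => br W X) e
  have e3 := congrArg (fun W => br W (cross Y X)) e
  simp only [br_smul_left, br_add_left, br_sub_left, hb, hb', c1, c2, c3, c1', c2', hX.2.2,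
    hY.2.2] at e1 e2 e3
  refine ⟨?_, ?_, ?_⟩
  · linear_combination -e1
  · linear_combination -e2
  · linear_combination -e3

theorem pos_of_smul {X Z : V} (hX : Nul X) (hZ : Nul Z) {a : ℂ} (e : Z = a • X) :
    ∃ r : ℝ, 0 < r ∧ Z = (r : ℂ) • X := by
  refine ⟨Z.1.re / X.1.re, div_pos hZ.2.1 hX.2.1, ?_⟩
  have h0 : (X.1.re : ℂ) ≠ 0 := by exact_mod_cast hX.2.1.ne'
  have e1 : Z.1 = a * X.1 := by rw [e]; simp
  have : a = ((Z.1.re / X.1.re : ℝ) : ℂ) := by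
    rw [hZ.1.fst_eq, hX.1.fst_eq] at e1
    push_cast
    field_simp
    exact e1.symm
  rw [← this]; exact e

end Ax

/-- A null vector fixed projectively with eigenvalue larger than one is the attracting one. -/
theorem Axis.eq_of_eigen {A : V →L[ℂ] V} {X Y Z : V} {l : ℝ} (h : Axis A X Y l) (hZ : Nul Z)
    {r : ℝ} (hr : 1 < r) (hA : A Z = (r : ℂ) • Z) : ∃ a : ℝ, 0 < a ∧ Z = (a : ℂ) • X := by
  obtain ⟨-, e2, e3⟩ := Ax.coeffs h hA
  have hl : Real.exp (-l) < 1 := Real.exp_lt_one_iff.2 (by linarith [h.2.2.2.1])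
  have n2 : (Real.exp (-l) - r : ℂ) ≠ 0 := by
    rw [sub_ne_zero]; exact_mod_cast (hl.trans hr).ne
  have n3 : (1 - r : ℂ) ≠ 0 := by
    rw [sub_ne_zero]; exact_mod_cast hr.ne
  have hd := frame_decomp h.1.2.2 h.2.1.2.2 h.2.2.1 Z
  rw [(mul_eq_zero.1 e2).resolve_right n2, (mul_eq_zero.1 e3).resolve_right n3] at hd
  exact Ax.pos_of_smul h.1 hZ (a := br Z Y / 2) (by simpa using hd)

theorem Axis.unique {A : V →L[ℂ] V} {X Y X' Y' : V} {l l' : ℝ} (h : Axis A X Y l)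
    (h' : Axis A X' Y' l') :
    l = l' ∧ ∃ a : ℝ, X' = (Real.exp a : ℂ) • X ∧ Y' = (Real.exp (-a) : ℂ) • Y := by
  obtain ⟨a, ha, e⟩ := h.eq_of_eigen h'.1 (Real.one_lt_exp_iff.2 h'.2.2.2.1) h'.2.2.2.2.1
  have e1 : (Real.exp l : ℂ) • X' = (Real.exp l' : ℂ) • X' := by
    rw [← h'.2.2.2.2.1]
    conv_rhs => rw [e, map_smul, h.2.2.2.2.1, smul_comm, ← e]
  have hl : l = l' := Real.exp_injective (by exact_mod_cast Ax.smul_inj h'.1 e1)
  subst hl
  refine ⟨rfl, Real.log a, by rw [Real.exp_log ha]; exact e, ?_⟩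
  obtain ⟨e1, -, e3⟩ := Ax.coeffs h h'.2.2.2.2.2.1
  have hl : Real.exp (-l) < 1 := Real.exp_lt_one_iff.2 (by linarith [h.2.2.2.1])
  have hl' : 1 < Real.exp l := Real.one_lt_exp_iff.2 h.2.2.2.1
  have n1 : (Real.exp l - Real.exp (-l) : ℂ) ≠ 0 := by
    rw [sub_ne_zero]; exact_mod_cast (hl.trans hl').ne'
  have n3 : (1 - Real.exp (-l) : ℂ) ≠ 0 := by
    rw [sub_ne_zero]; exact_mod_cast hl.ne'
  have hd := frame_decomp h.1.2.2 h.2.1.2.2 h.2.2.1 Y'
  rw [(mul_eq_zero.1 e1).resolve_right n1, (mul_eq_zero.1 e3).resolve_right n3] at hd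
  have hb := h'.2.2.1
  rw [e, br_smul_left, br_comm] at hb
  have ha' : (a : ℂ) ≠ 0 := by exact_mod_cast ha.ne'
  have : br Y' X / 2 = (Real.exp (-Real.log a) : ℂ) := by
    rw [Real.exp_neg, Real.exp_log ha]
    push_cast
    field_simp
    linear_combination hb
  rw [← this]
  simpa using hd

theorem Axis.pow {A : V →L[ℂ] V} {X Y : V} {l : ℝ} (h : Axis A X Y l) (k : ℕ) :
    Axis (A ^ (k + 1)) X Y ((k + 1) * l) := by
  induction k with
  | zero => simpa using h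
  | succ k ih =>
    obtain ⟨hX, hY, hb, hl, h1, h2, h3⟩ := ih
    refine ⟨hX, hY, hb, mul_pos (by positivity) h.2.2.2.1, ?_, ?_, ?_⟩
    · rw [pow_succ, mul_apply_eq_comp, h.2.2.2.2.1, map_smul, h1, smul_smul,
        ← ofReal_mul, ← Real.exp_add]
      congr 3; push_cast; ring
    · rw [pow_succ, mul_apply_eq_comp, h.2.2.2.2.2.1, map_smul, h2, smul_smul,
        ← ofReal_mul, ← Real.exp_add]
      congr 3; push_cast; ring
    · rw [pow_succ, mul_apply_eq_comp, h.2.2.2.2.2.2, h3]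

variable {G : ℕ} [hG : Fact (2 ≤ G)]

theorem Axis.conj {γ : W G} {X Y : V} {l : ℝ} (h : Axis (lin γ) X Y l) (g : W G) :
    Axis (lin (g * γ * g⁻¹)) (lin g X) (lin g Y) l := by
  obtain ⟨hX, hY, hb, hl, h1, h2, h3⟩ := h
  obtain ⟨e, -, he⟩ := cross_lin g
  refine ⟨(iso_lin g).nul hX, (iso_lin g).nul hY, by rw [(iso_lin g).br_eq, hb], hl, ?_, ?_, ?_⟩
  · rw [lin_mul, lin_mul, lin_inv_lin, h1, map_smul]
  · rw [lin_mul, lin_mul, lin_inv_lin, h2, map_smul]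
  · rw [he, map_smul, lin_mul, lin_mul, lin_inv_lin, h3]

open Classical in
/-- Hyperbolic translation length. -/
noncomputable def len0 (γ : W G) : ℝ :=
  if h : ∃ l, ∃ X Y, Axis (lin γ) X Y l then h.choose else 0

theorem Axis.len0_eq {γ : W G} {X Y : V} {l : ℝ} (h : Axis (lin γ) X Y l) : len0 γ = l := by
  have hx : ∃ l, ∃ X Y, Axis (lin γ) X Y l := ⟨l, X, Y, h⟩
  rw [len0, dif_pos hx]
  obtain ⟨X', Y', h'⟩ := hx.choose_spec
  exact (h'.unique h).1

/-- Future and past end points along a cyclic word. -/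
def CycAx {n : ℕ} (u : ZMod (n + 1) → L G) (x y : ZMod (n + 1) → ℂ) : Prop :=
  ∀ i, Arc 1 (u i) (xi (y i)) ∧ Arc 0 (u (i - 1)) (xi (x i)) ∧
    pt (mir (u i) (xi (y (i + 1)))) = y i ∧ pt (mir (u i) (xi (x i))) = x (i + 1)

namespace Ax

theorem arc_pre {b : ZMod 2} {w : ℕ → L G} (h : ∀ i, Edge b (w i) (w (i + 1))) (k d : ℕ) :
    ∀ Y, Arc b (w (k + d)) Y → Arc b (w k) (lin ((pre w k)⁻¹ * pre w (k + d)) Y) := by
  induction d with
  | zero => intro Y hY; simpa using hY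
  | succ d ih =>
    intro Y hY
    have := ih _ (Arc.step (h (k + d)) hY)
    rwa [← add_assoc, pre, ← mul_assoc, lin_mul, lin_sr]

omit hG in
theorem xi_pt {Z : V} (h : Nul Z) : xi (pt Z) = ((Z.1.re⁻¹ : ℝ) : ℂ) • Z := by
  have h0 : (Z.1.re : ℂ) ≠ 0 := by exact_mod_cast h.2.1.ne'
  conv_rhs => rw [h.eq_smul_xi]
  rw [smul_smul]
  have : (((Z.1.re : ℂ) • xi (pt Z)).1.re) = Z.1.re := by rw [← h.eq_smul_xi]
  rw [this]
  push_cast
  rw [inv_mul_cancel₀ h0, one_smul]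

theorem exists_eigen {b : ZMod 2} {m : L G} {A : V →L[ℂ] V}
    (hA : ∀ Y, Arc b m Y → Arc b m (A Y)) :
    ∃ (Y : V) (r : ℝ), Arc b m Y ∧ 0 < r ∧ A Y = (r : ℂ) • Y := by
  obtain ⟨D⟩ := exists_nest0 (G := G) b
  obtain ⟨η₀, h0, -, hη⟩ := D.arc_Xi_iff m
  let f : ℝ → ℝ := fun η => (chI (D.τ m) m (A (Xi (D.τ m) m η))).re
  have harc : ∀ η ∈ Icc (-η₀) η₀, Arc b m (A (Xi (D.τ m) m η)) := fun η h =>
    hA _ ((hη η).2 (abs_le.2 h))
  have hc : ContinuousOn f (Icc (-η₀) η₀) := by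
    refine continuous_re.comp_continuousOn ?_
    refine (continuousOn_chI D m).comp (f := fun η : ℝ => A (Xi (D.τ m) m η)) ?_ harc
    exact (A.continuous.comp
      ((differentiable_Xi (D.τ m) m).continuous.comp continuous_ofReal)).continuousOn
  have key : ∀ η ∈ Icc (-η₀) η₀, ∃ r : ℝ, 0 < r ∧
      A (Xi (D.τ m) m η) = (r : ℂ) • Xi (D.τ m) m (f η) := by
    intro η h
    obtain ⟨h1, -, h3⟩ := D.arc_chart (harc η h)
    have e : chI (D.τ m) m (A (Xi (D.τ m) m η)) = (f η : ℂ) := by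
      apply Complex.ext <;> simp [f, h1]
    refine ⟨_, div_pos (harc η h).1.2.1 (by positivity : 0 < 1 + (D.τ m * f η) ^ 2), ?_⟩
    rw [← e]; exact h3
  have hm : MapsTo f (Icc (-η₀) η₀) (Icc (-η₀) η₀) := by
    intro η h
    obtain ⟨r, hr, e⟩ := key η h
    have := (harc η h).smul (inv_pos.2 hr)
    have hr' : (r : ℂ) ≠ 0 := by exact_mod_cast hr.ne'
    rw [e, smul_smul, ofReal_inv, inv_mul_cancel₀ hr', one_smul] at this
    exact abs_le.1 ((hη _).1 this)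
  have hle : -η₀ ≤ η₀ := by linarith
  have hi := intermediate_value_Icc' hle (hc.sub continuousOn_id)
  have hz : (0 : ℝ) ∈ Icc (f η₀ - id η₀) (f (-η₀) - id (-η₀)) :=
    ⟨by simpa using (hm (right_mem_Icc.2 hle)).2,
      by have := (hm (left_mem_Icc.2 hle)).1; simp only [id]; linarith⟩
  obtain ⟨η, h, e⟩ := hi hz
  obtain ⟨r, hr, e'⟩ := key η h
  have e1 : f η = η := by simpa [sub_eq_zero] using e
  rw [e1] at e'
  exact ⟨_, r, (hη η).2 (abs_le.2 h), hr, e'⟩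

theorem exists_fut {b : ZMod 2} {n : ℕ} {u : ZMod (n + 1) → L G}
    (h : ∀ i, Edge b (u i) (u (i + 1))) : ∃ y : ZMod (n + 1) → ℂ, ∀ i,
      Arc b (u i) (xi (y i)) ∧ pt (mir (u i) (xi (y (i + 1)))) = y i := by
  let w : ℕ → L G := fun i => u i
  have hw : ∀ i, Edge b (w i) (w (i + 1)) := fun i => by simpa [w] using h i
  have hN : w (n + 1) = w 0 := by simp [w]
  obtain ⟨Y, r, hY, hr, e⟩ := exists_eigen (b := b) (m := w 0) (A := lin (pre w (n + 1)))
    fun Y hY => by simpa [pre] using arc_pre hw 0 (n + 1) Y (by rwa [zero_add, hN])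
  have hr' : (r : ℂ) ≠ 0 := by exact_mod_cast hr.ne'
  let Z : ℕ → V := fun k => lin (pre w k)⁻¹ Y
  have hZ : ∀ k ≤ n + 1, Arc b (w k) (Z k) := by
    intro k hk
    obtain ⟨d, hd⟩ := Nat.exists_eq_add_of_le hk
    have := (arc_pre hw k d Y (by rwa [← hd, hN])).smul (inv_pos.2 hr)
    rwa [← hd, lin_mul, e, map_smul, smul_smul, ofReal_inv, inv_mul_cancel₀ hr', one_smul] at this
  have hs : ∀ k, mir (w k) (Z (k + 1)) = Z k := fun k => by
    simp only [Z, pre, mul_inv_rev, sr_inv, lin_mul, lin_sr, refl_refl]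
  have hp : pt (Z (n + 1)) = pt (Z 0) := by
    have : Z 0 = (r : ℂ) • Z (n + 1) := by
      simp only [Z]
      rw [← map_smul, ← e, lin_inv_lin]; simp [pre]
    rw [this, pt_smul hr']
  refine ⟨fun i => pt (Z i.val), fun i => ?_⟩
  have hi : i.val < n + 1 := ZMod.val_lt i
  have hu : u i = w i.val := by simp [w]
  have h1 := hZ _ hi.le
  have h2 := hZ _ (Nat.succ_le_of_lt hi)
  refine ⟨?_, ?_⟩
  · rw [xi_pt h1.1, hu]
    exact h1.smul (inv_pos.2 h1.1.2.1)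
  · have : pt (Z (i + 1).val) = pt (Z (i.val + 1)) := by
      have e1 : (i + 1).val = (i.val + 1) % (n + 1) := by
        conv_lhs => rw [← ZMod.natCast_zmod_val i, ← Nat.cast_succ, ZMod.val_natCast]
      rw [e1]
      rcases (Nat.succ_le_of_lt hi).lt_or_eq with h3 | h3
      · rw [Nat.mod_eq_of_lt h3]
      · have h4 : i.val + 1 = n + 1 := h3
        rw [h4, Nat.mod_self, hp]
    simp only [this]
    rw [xi_pt h2.1, map_smul, hu, hs, pt_smul]
    exact_mod_cast (inv_pos.2 h2.1.2.1).ne'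

omit hG in
theorem sum_zmod {M : Type*} [AddCommMonoid M] {n : ℕ} (f : ZMod (n + 1) → M) :
    ∑ i ∈ Finset.range (n + 1), f i = ∑ i, f i := by
  rw [Finset.sum_range]
  exact Finset.sum_congr rfl fun i _ => congrArg f (ZMod.natCast_zmod_val (n := n + 1) i)

variable {n : ℕ} {u : ZMod (n + 1) → L G} {x y : ZMod (n + 1) → ℂ}

theorem nul_mir (h : CycAx u x y) (i : ZMod (n + 1)) : Nul (mir (u i) (xi (y (i + 1)))) :=
  (iso_refl _).nul (h (i + 1)).1.1

theorem mir_y (h : CycAx u x y) (i : ZMod (n + 1)) : mir (u i) (xi (y (i + 1))) =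
    ((mir (u i) (xi (y (i + 1)))).1.re : ℂ) • xi (y i) := by
  have := (nul_mir h i).eq_smul_xi
  rwa [(h i).2.2.1] at this

theorem pre_y (h : CycAx u x y) (k : ℕ) : lin (pre (fun i : ℕ => u i) k) (xi (y k)) =
    (Real.exp (∑ i ∈ Finset.range k,
      Real.log (mir (u i) (xi (y ((i : ZMod (n + 1)) + 1)))).1.re) : ℂ) • xi (y 0) := by
  induction k with
  | zero => simp [pre]
  | succ k ih =>
    rw [pre, lin_mul, lin_sr, Nat.cast_succ, mir_y h, map_smul, ih, smul_smul,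
      Finset.sum_range_succ, Real.exp_add, Real.exp_log (nul_mir h k).2.1, ofReal_mul, mul_comm]

theorem pre_x (h : CycAx u x y) (k : ℕ) :
    ∃ c : ℂ, lin (pre (fun i : ℕ => u i) k) (xi (x k)) = c • xi (x 0) := by
  induction k with
  | zero => exact ⟨1, by simp [pre]⟩
  | succ k ih =>
    obtain ⟨c, hc⟩ := ih
    have h1 := xi_pt ((iso_refl (u k)).nul (h k).2.1.1)
    rw [(h k).2.2.2] at h1
    exact ⟨_, by
      rw [pre, lin_mul, lin_sr, Nat.cast_succ, h1, map_smul, refl_refl, map_smul, hc, smul_smul]⟩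

omit hG in
theorem wd_cw (u : ZMod (n + 1) → L G) : wd (cw u) = pre (fun i : ℕ => u i) (n + 1) :=
  (pre_eq_wd (fun i : ℕ => u i) (n + 1)).symm

theorem eigen_y (h : CycAx u x y) : lin (wd (cw u)) (xi (y 0)) =
    (Real.exp (∑ i, Real.log (mir (u i) (xi (y (i + 1)))).1.re) : ℂ) • xi (y 0) := by
  have := pre_y h (n + 1)
  rwa [ZMod.natCast_self, ← wd_cw,
    sum_zmod fun i => Real.log (mir (u i) (xi (y (i + 1)))).1.re] at this

theorem pow_le (D : Nest G 1) (h : CycAx u x y) (hu : ∀ i, Edge 1 (u i) (u (i + 1))) :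
    D.t ^ (n + 1) ≤ Real.exp (∑ i, Real.log (mir (u i) (xi (y (i + 1)))).1.re) := by
  have e : cw u = u 0 :: List.ofFn fun i : Fin n => u ((i.succ : ℕ) : ZMod (n + 1)) := by
    rw [cw, List.ofFn_succ]; simp
  have h1 := adm_cw hu
  have h2 := eigen_y h
  rw [e] at h1 h2
  simpa using D.eigen_ge h1 (h 0).1 h2

theorem axis0 (h : CycAx u x y) (hu : ∀ i, Edge 1 (u i) (u (i + 1))) (hm : wd (cw u) ∈ Gam G) :
    Axis (lin (wd (cw u))) (xi (y 0)) ((2 / br (xi (y 0)) (xi (x 0))) • xi (x 0))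
      (∑ i, Real.log (mir (u i) (xi (y (i + 1)))).1.re) := by
  obtain ⟨D⟩ := exists_nest (G := G) 1
  obtain ⟨κ, hκ, hs⟩ := sep_reg (G := G)
  have hy := (h 0).1
  have hx := (h 0).2.1
  have h1 := hs 1 (u (0 - 1)) (u 0) (by simpa using hu (0 - 1)) (xi (x 0)) (xi (y 0))
    (arc_iff.1 hx).2 hy
  have h2 : 0 < (br (xi (y 0)) (xi (x 0))).re := lt_of_lt_of_le (by simpa [xi] using hκ) h1
  have h3 := br_eq_ofReal hy.1.1 hx.1.1
  have h4 : br (xi (y 0)) (xi (x 0)) ≠ 0 := fun e => by simp [e] at h2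
  have hY : Nul ((2 / br (xi (y 0)) (xi (x 0))) • xi (x 0)) := by
    have := hx.1.smul (div_pos two_pos h2)
    rwa [ofReal_div, ← h3, ofReal_ofNat] at this
  have e1 := eigen_y h
  set l := ∑ i, Real.log (mir (u i) (xi (y (i + 1)))).1.re
  obtain ⟨c, e2⟩ := pre_x h (n + 1)
  rw [ZMod.natCast_self, ← wd_cw] at e2
  have h5 := (iso_lin (wd (cw u))).br_eq (xi (y 0)) (xi (x 0))
  rw [e1, e2, br_smul_left, br_smul_right] at h5
  have h6 : (Real.exp (-l) : ℂ) * Real.exp l = 1 := by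
    rw [← ofReal_mul, ← Real.exp_add]; simp
  have hc : c = Real.exp (-l) := by
    have : (Real.exp l : ℂ) * c = 1 := mul_right_cancel₀ h4 (by linear_combination h5)
    linear_combination (Real.exp (-l) : ℂ) * this - c * h6
  have e3 : lin (wd (cw u)) ((2 / br (xi (y 0)) (xi (x 0))) • xi (x 0)) =
      (Real.exp (-l) : ℂ) • (2 / br (xi (y 0)) (xi (x 0))) • xi (x 0) := by
    rw [map_smul, e2, hc, smul_comm]
  refine ⟨hy.1, hY, ?_, ?_, e1, e3, ?_⟩
  · rw [br_smul_right]; field_simp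
  · exact Real.one_lt_exp_iff.1 ((one_lt_pow₀ D.one_lt_t n.succ_ne_zero).trans_le (pow_le D h hu))
  · rw [← cross_lin_of_mem hm, e1, e3, cross_smul, h6, one_smul]

end Ax

theorem exists_cycAx {n : ℕ} {u : ZMod (n + 1) → L G} (h : ∀ i, Edge 1 (u i) (u (i + 1))) :
    ∃ x y, CycAx u x y := by
  obtain ⟨y, hy⟩ := Ax.exists_fut h
  obtain ⟨z, hz⟩ := Ax.exists_fut (b := 1 + 1) (u := fun j => u (-j - 1)) fun j => by
    have := h (-(j + 1) - 1)
    rw [show -(j + 1) - 1 + 1 = -j - 1 by ring] at this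
    exact edge_symm.2 this
  refine ⟨fun i => z (-i), y, fun i => ⟨(hy i).1, ?_, (hy i).2, ?_⟩⟩
  · have := (hz (-i)).1
    rwa [neg_neg] at this
  · have := (hz (-(i + 1))).2
    rwa [show - -(i + 1) - 1 = i by ring, show -(i + 1) + 1 = -i by ring] at this

theorem CycAx.axis {n : ℕ} (π : Cyc (StE (G := G) 1) n) {x y : ZMod (n + 1) → ℂ}
    (h : CycAx (fun i => (π.1 i).2) x y) :
    Axis (lin (gam π)) (lin (sec (G := G) (π.1 0).1) (xi (y 0)))
      (lin (sec (G := G) (π.1 0).1) ((2 / br (xi (y 0)) (xi (x 0))) • xi (x 0)))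
      (∑ i, Real.log (mir (π.1 i).2 (xi (y (i + 1)))).1.re) :=
  (Ax.axis0 h (fun i => (π.2 i).1) (wd_cw_mem π)).conj _

theorem CycAx.codes {n : ℕ} {u : ZMod (n + 1) → L G} {x y : ZMod (n + 1) → ℂ} (h : CycAx u x y)
    (hu : ∀ i, Edge 1 (u i) (u (i + 1))) (g : W G) :
    Codes 1 g (fun i => u i) (lin g (xi (y 0))) := by
  intro i
  refine ⟨?_, by simpa using hu i⟩
  have e := Ax.pre_y h i
  set r := Real.exp (∑ i ∈ Finset.range i,
      Real.log (mir (u i) (xi (y ((i : ZMod (n + 1)) + 1)))).1.re)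
  have hr : 0 < r := Real.exp_pos _
  have hr' : (r : ℂ) ≠ 0 := by exact_mod_cast hr.ne'
  have e' : xi (y 0) = ((r⁻¹ : ℝ) : ℂ) • lin (pre (fun i : ℕ => u i) i) (xi (y i)) := by
    rw [e, smul_smul, ofReal_inv, inv_mul_cancel₀ hr', one_smul]
  rw [mul_inv_rev, lin_mul, lin_inv_lin, e', map_smul, lin_inv_lin]
  exact (h i).1.smul (inv_pos.2 hr)

theorem exists_axis_gam {n : ℕ} (π : Cyc (StE (G := G) 1) n) :
    ∃ X Y, Axis (lin (gam π)) X Y (len0 (gam π)) ∧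
      Codes 1 (sec (π.1 0).1) (fun i => (π.1 i).2) X := by
  obtain ⟨x, y, h⟩ := exists_cycAx (u := fun i => (π.1 i).2) fun i => (π.2 i).1
  have ha := h.axis π
  rw [ha.len0_eq]
  exact ⟨_, _, ha, h.codes (fun i => (π.2 i).1) _⟩

theorem len0_ge (D : Nest G 1) {n : ℕ} (π : Cyc (StE (G := G) 1) n) :
    (n + 1) * Real.log D.t ≤ len0 (gam π) := by
  obtain ⟨x, y, h⟩ := exists_cycAx (u := fun i => (π.1 i).2) fun i => (π.2 i).1
  rw [(h.axis π).len0_eq]
  have h1 := Ax.pow_le D h fun i => (π.2 i).1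
  have h2 := Real.log_le_log (pow_pos (one_pos.trans D.one_lt_t) _) h1
  rwa [Real.log_pow, Real.log_exp, Nat.cast_succ] at h2

theorem exp_len0_ge : ∃ κ > 0, ∀ (n : ℕ) (π : Cyc (StE (G := G) 1) n),
    κ * (lin (wd (cw fun i => (π.1 i).2)) oo).1.re ≤ Real.exp (len0 (gam π)) := by
  obtain ⟨κ, hκ, hs⟩ := sep_wd (G := G)
  refine ⟨κ, hκ, fun n π => ?_⟩
  obtain ⟨x, y, h⟩ := exists_cycAx (u := fun i => (π.1 i).2) fun i => (π.2 i).1
  rw [(h.axis π).len0_eq]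
  have h1 := hs 1 _ _ _ (adm_cw fun i => (π.2 i).1) (h 0).1
  rw [Ax.eigen_y h] at h1
  simpa [xi, ← ofReal_exp] using h1

/-- The periodic orbit of the chart maps along a closed path. -/
theorem exists_orbit1 (D : Nest G 1) {n : ℕ} (π : Cyc (StE (G := G) 1) n) :
    ∃ η : ZMod (n + 1) → ℂ, (∀ i, ‖η i‖ < D.R ∧
      D.psi (π.1 i).2 (π.1 (i + 1)).2 (η (i + 1)) = η i) ∧
      ∑ i, D.lj (π.1 i).2 (π.1 (i + 1)).2 (η (i + 1)) = len0 (gam π) ∧
      ∏ i, deriv (D.psi (π.1 i).2 (π.1 (i + 1)).2) (η (i + 1)) = exp (-len0 (gam π)) := by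
  obtain ⟨x, y, h⟩ := exists_cycAx (u := fun i => (π.1 i).2) fun i => (π.2 i).1
  rw [(h.axis π).len0_eq]
  have hev := even_length_of_mem (wd_cw_mem π)
  have hu : ∀ i, Edge 1 (π.1 i).2 (π.1 (i + 1)).2 := fun i => (π.2 i).1
  set u : ZMod (n + 1) → L G := fun i => (π.1 i).2 with hdef
  have hdef' : ∀ i, (π.1 i).2 = u i := fun _ => rfl
  simp only [hdef'] at hu ⊢
  let η : ZMod (n + 1) → ℝ := fun i => (chI (D.τ (u i)) (u i) (xi (y i))).re
  let a : ZMod (n + 1) → ℝ := fun i => 1 / (1 + (D.τ (u i) * η i) ^ 2)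
  have ha : ∀ i, 0 < a i := fun i => by positivity
  have h1 : ∀ i, |η i| < D.R ∧ xi (y i) = (a i : ℂ) • Xi (D.τ (u i)) (u i) (η i) := by
    intro i
    obtain ⟨k1, k2, k3⟩ := D.toNest0.arc_chart (h i).1
    have e : chI (D.τ (u i)) (u i) (xi (y i)) = (η i : ℂ) := by
      apply Complex.ext <;> simp [η, k1]
    refine ⟨k2.trans_lt (D.q_lt.trans D.one_lt_R), ?_⟩
    rw [← e]
    exact k3
  have hb : ∀ i, (η i : ℂ) ∈ ball (0 : ℂ) D.R := fun i => by simpa using (h1 i).1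
  let s : ZMod (n + 1) → ℝ := fun i => (mir (u i) (xi (y (i + 1)))).1.re
  have hs : ∀ i, 0 < s i := fun i => (Ax.nul_mir h i).2.1
  have h2 : ∀ i, mir (u i) (Xi (D.τ (u (i + 1))) (u (i + 1)) (η (i + 1))) =
      ((s i * a i / a (i + 1) : ℝ) : ℂ) • Xi (D.τ (u i)) (u i) (η i) := by
    intro i
    have e : mir (u i) (xi (y (i + 1))) = (s i : ℂ) • xi (y i) := Ax.mir_y h i
    have h0 : (a (i + 1) : ℂ) ≠ 0 := by exact_mod_cast (ha _).ne'
    rw [(h1 i).2, (h1 (i + 1)).2, map_smul, smul_smul] at e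
    rw [← inv_smul_smul₀ h0 (mir (u i) _), e, smul_smul]
    congr 1
    push_cast
    ring
  have hp : ∀ i, 0 < s i * a i / a (i + 1) := fun i => div_pos (mul_pos (hs i) (ha i)) (ha _)
  have h3 : ∀ i, D.psi (u i) (u (i + 1)) (η (i + 1)) = η i := fun i => by
    rw [Nest0.psi, h2, chI_Xi (D.τ_pos _).ne' (by exact_mod_cast (hp i).ne')]
  have h4 : ∀ i, D.lj (u i) (u (i + 1)) (η (i + 1)) =
      ((Real.log (s i) + Real.log (a i) - Real.log (a (i + 1)) : ℝ) : ℂ) := by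
    intro i
    have e := D.refl_Xi _ _ (hu i) _ (hb (i + 1))
    rw [h3, h2] at e
    have e1 := Ax.smul_inj (nul_Xi _ _ _) e
    have e2 : D.lj (u i) (u (i + 1)) (η (i + 1)) =
        ((D.lj (u i) (u (i + 1)) (η (i + 1))).re : ℂ) := by
      apply Complex.ext <;> simp [(D.real _ _ (hu i) _ (h1 (i + 1)).1).2]
    rw [e2, ← ofReal_exp] at e1
    rw [e2, ← Real.log_mul (hs i).ne' (ha i).ne',
      ← Real.log_div (mul_pos (hs i) (ha i)).ne' (ha _).ne', ofReal_injective e1, Real.log_exp]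
  have h5 : ∑ i, D.lj (u i) (u (i + 1)) (η (i + 1)) = ((∑ i, Real.log (s i) : ℝ) : ℂ) := by
    simp only [h4]
    rw [← ofReal_sum, Finset.sum_sub_distrib, Finset.sum_add_distrib]
    have := Equiv.sum_comp (Equiv.addRight (1 : ZMod (n + 1))) fun i => Real.log (a i)
    simp only [Equiv.coe_addRight] at this
    rw [this, add_sub_cancel_right]
  refine ⟨fun i => η i, fun i => ⟨by simpa using (h1 i).1, h3 i⟩, h5, ?_⟩
  rw [Finset.prod_congr rfl fun i _ => D.deriv_psi _ _ (hu i) _ (hb (i + 1)), Finset.prod_neg,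
    Finset.prod_mul_distrib, ← exp_sum, Finset.sum_neg_distrib, h5, ← ofReal_prod,
    Finset.prod_div_distrib]
  have := Equiv.prod_comp (Equiv.addRight (1 : ZMod (n + 1))) fun i => D.τ (u i)
  simp only [Equiv.coe_addRight] at this
  rw [this, div_self (Finset.prod_pos fun i _ => D.τ_pos _).ne', Finset.card_univ, ZMod.card,
    Even.neg_one_pow (by simpa [cw] using hev)]
  simp [s]

end Pool.Agent.Lib.MP_de7bb2_an
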