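import Pool.Agent.Lib.MP_de7bb2_an.H20Word

/-! Lebesgue measure on the circle, arc integrals and lattice sums. TASK CIRC. -/

namespace Pool.Agent.Lib.MP_de7bb2_an

open Metric Set Complex ComplexConjugate

noncomputable def cI (f : ℂ → ℂ) : ℂ := ∫ t in (0 : ℝ)..2 * Real.pi, f (exp (t * I))

/-- Positive homogeneity of degree `-s` on the real light cone. -/
def Hom (s : ℂ) (F : V → ℂ) : Prop :=
  ∀ r : ℝ, 0 < r → ∀ E, Nul E → F ((r : ℂ) • E) = exp (-s * Real.log r) * F E

variable {G : ℕ}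

open Classical in
noncomputable def arcI (b : ZMod 2) (m : L G) (F : V → ℂ) : ℂ :=
  cI fun y => if Arc b m (xi y) then F (xi y) else 0

namespace Circ

theorem norm_e (t : ℝ) : ‖exp (t * I)‖ = 1 := norm_exp_ofReal_mul_I t

theorem periodic {E : Type*} (f : ℂ → E) :
    Function.Periodic (fun t : ℝ => f (exp (t * I))) (2 * Real.pi) := fun t => by
  refine congrArg f ?_
  push_cast
  rw [add_mul, exp_add, exp_two_pi_mul_I, mul_one]

theorem cI_congr {f g : ℂ → ℂ} (h : ∀ y, ‖y‖ = 1 → f y = g y) : cI f = cI g := by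
  unfold cI
  congr 1
  funext t
  exact h _ (norm_e t)

theorem cI_congr_fin {f g : ℂ → ℂ} {B : Set ℂ} (hB : B.Finite)
    (h : ∀ y, ‖y‖ = 1 → y ∉ B → f y = g y) : cI f = cI g := by
  have h1 : ((fun t : ℝ => (t : ℂ) * I) ⁻¹' (exp ⁻¹' B)).Countable :=
    hB.countable.preimage_cexp.preimage fun x y hxy =>
      ofReal_injective (mul_right_cancel₀ I_ne_zero hxy)
  refine intervalIntegral.integral_congr_ae ?_
  filter_upwards [h1.ae_notMem MeasureTheory.volume] with t ht _
  exact h _ (norm_e t) ht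

theorem cI_const (c : ℂ) : cI (fun _ => c) = 2 * Real.pi * c := by
  simp [cI]

theorem cI_inv (f : ℂ → ℂ) : cI (fun y => f y⁻¹) = cI f := by
  have h1 : cI (fun y => f y⁻¹) = ∫ t in (0 : ℝ)..2 * Real.pi, f (exp ((-t : ℝ) * I)) := by
    unfold cI
    congr 1
    funext t
    rw [ofReal_neg, neg_mul, exp_neg]
  have h2 := (periodic f).intervalIntegral_add_eq (-(2 * Real.pi)) 0
  rw [h1, intervalIntegral.integral_comp_neg fun t : ℝ => f (exp (t * I)), cI]
  simpa using h2

theorem exp_im_log {z : ℂ} (hz : z ≠ 0) : exp ((2 * (log z).im : ℝ) * I) = z / conj z := by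
  rw [← sub_conj, exp_sub, exp_conj, exp_log hz]

theorem im_aux {z : ℂ} (hz : 1 + z ≠ 0) :
    1 + 2 * (z * -I / (1 + z)).im = (1 - ‖z‖ ^ 2) / ‖1 + z‖ ^ 2 := by
  have h := normSq_pos.mpr hz
  rw [← normSq_eq_norm_sq, ← normSq_eq_norm_sq, div_im]
  field_simp
  simp [normSq_apply]
  ring

/-- Change of variables by a Moebius map of the circle. -/
theorem moeb {a c : ℂ} (h : ‖a‖ ^ 2 - ‖c‖ ^ 2 = 1) (f : ℂ → ℂ) :
    cI (fun y => ((‖a * y + c‖ ^ 2 : ℝ) : ℂ)⁻¹ * f ((a * y + c) / (conj c * y + conj a))) =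
      cI f := by
  have hca : ‖c‖ < ‖a‖ := lt_of_pow_lt_pow_left₀ 2 (norm_nonneg a) (by linarith)
  have ha0 : 0 < ‖a‖ := (norm_nonneg c).trans_lt hca
  have ha : a ≠ 0 := norm_pos_iff.mp ha0
  let z : ℝ → ℂ := fun t => c / a * exp (-(t * I))
  have hz : ∀ t, ‖z t‖ = ‖c‖ / ‖a‖ := fun t => by
    simp only [z, norm_mul, norm_div, exp_neg, norm_inv, norm_e, inv_one, mul_one]
  have hs : ∀ t, 1 + z t ∈ slitPlane := fun t =>
    mem_slitPlane_of_norm_lt_one (by rw [hz]; exact (div_lt_one ha0).mpr hca)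
  have e1 : ∀ t : ℝ, a * exp (t * I) + c = a * (1 + z t) * exp (t * I) := fun t => by
    have := exp_ne_zero (t * I)
    simp only [z, exp_neg]
    field_simp
  have e2 : ∀ t : ℝ, conj c * exp (t * I) + conj a = conj a * conj (1 + z t) := fun t => by
    have h1 : conj a ≠ 0 := (map_ne_zero _).mpr ha
    simp only [z, map_add, map_one, map_mul, map_div₀, ← exp_conj, map_neg, conj_ofReal, conj_I,
      mul_neg, neg_neg]
    field_simp
    ring
  let θ : ℝ → ℝ := fun t => t + 2 * (log a).im + 2 * (log (1 + z t)).im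
  have hθ : ∀ t : ℝ, HasDerivAt θ (‖a * exp (t * I) + c‖ ^ 2)⁻¹ t := fun t => by
    have h1 : HasDerivAt (fun t : ℝ => 1 + z t) (z t * -I) t := by
      have h2 : HasDerivAt (fun w : ℂ => 1 + c / a * exp (-(w * I)))
          (c / a * (exp (-(t * I)) * -(1 * I))) t :=
        ((((hasDerivAt_id (t : ℂ)).mul_const I).neg.cexp).const_mul _).const_add 1
      refine h2.comp_ofReal.congr_deriv ?_
      simp only [z]
      ring
    have h3 := imCLM.hasFDerivAt.comp_hasDerivAt t (h1.clog_real (hs t))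
    refine (((hasDerivAt_id t).add_const (2 * (log a).im)).add (h3.const_mul 2)).congr_deriv ?_
    have h4 : 0 < ‖1 + z t‖ := norm_pos_iff.mpr (slitPlane_ne_zero (hs t))
    rw [imCLM_apply, im_aux (slitPlane_ne_zero (hs t)), hz, e1, norm_mul, norm_mul, norm_e]
    field_simp
    linarith
  have he : ∀ t : ℝ, exp (θ t * I) = (a * exp (t * I) + c) / (conj c * exp (t * I) + conj a) := by
    intro t
    simp only [θ]
    rw [ofReal_add, ofReal_add, add_mul, add_mul, exp_add, exp_add, exp_im_log ha,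
      exp_im_log (slitPlane_ne_zero (hs t)), e1, e2]
    ring
  have key := intervalIntegral.integral_deriv_smul_comp_of_deriv_nonneg (a := 0)
    (b := 2 * Real.pi) (g := fun t : ℝ => f (exp (t * I)))
    (fun t _ => (hθ t).continuousAt.continuousWithinAt) (fun t _ => hθ t) fun t _ => by positivity
  have h5 : θ (2 * Real.pi) = θ 0 + 2 * Real.pi := by
    have : z (2 * Real.pi) = z 0 := by
      simp only [z]
      push_cast
      rw [exp_neg, exp_two_pi_mul_I]
      simp
    simp only [θ, this]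
    ring
  rw [h5, (periodic f).intervalIntegral_add_eq (θ 0) 0, zero_add] at key
  refine Eq.trans ?_ key
  unfold cI
  congr 1
  funext t
  simp only [Function.comp_apply, he, real_smul, ofReal_inv]

theorem hom_one {F : V → ℂ} (hF : Hom 1 F) {r : ℝ} (hr : 0 < r) {E : V} (hE : Nul E) :
    F ((r : ℂ) • E) = (r : ℂ)⁻¹ * F E := by
  rw [hF r hr E hE, neg_mul, one_mul, exp_neg, ← ofReal_exp, Real.exp_log hr]

theorem hom_one_of {F : V → ℂ}
    (h : ∀ r : ℝ, 0 < r → ∀ E, Nul E → F ((r : ℂ) • E) = (r : ℂ)⁻¹ * F E) : Hom 1 F :=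
  fun r hr E hE => by
    rw [h r hr E hE, neg_mul, one_mul, exp_neg, ← ofReal_exp, Real.exp_log hr]

theorem sym_pos {a c : ℂ} (h : ‖a‖ ^ 2 - ‖c‖ ^ 2 = 1) {F : V → ℂ} (hF : Hom 1 F) :
    cI (fun y => F (sym a c (conj c) (conj a) (xi y))) = cI fun y => F (xi y) := by
  rw [← moeb h fun y => F (xi y)]
  refine cI_congr fun y hy => ?_
  have hN := (iso_sym (Or.inl h)).nul (nul_xi hy)
  have hy0 : y ≠ 0 := norm_ne_zero_iff.mp (by rw [hy]; exact one_ne_zero)
  have hc : conj y = y⁻¹ := (inv_eq_conj hy).symm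
  have h1 : (sym a c (conj c) (conj a) (xi y)).1 = (a * y + c) * conj (a * y + c) := by
    simp only [sym_apply, xi, map_add, map_mul, hc]
    field_simp
    ring
  have h2 : (sym a c (conj c) (conj a) (xi y)).1.re = ‖a * y + c‖ ^ 2 := by
    rw [h1, mul_conj, ofReal_re, normSq_eq_norm_sq]
  have h3 : a * y + c ≠ 0 := fun h0 => by
    have := hN.2.1
    rw [h2, h0] at this
    simp at this
  have h4 : conj c * y + conj a = conj (a * y + c) * y := by
    simp only [map_add, map_mul, hc]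
    field_simp
    ring
  have h5 : pt (sym a c (conj c) (conj a) (xi y)) = (a * y + c) / (conj c * y + conj a) := by
    have h6 : conj (a * y + c) ≠ 0 := (map_ne_zero _).mpr h3
    rw [pt, h1, h4]
    generalize conj (a * y + c) = w at h6
    simp only [sym_apply, xi]
    field_simp
    ring
  rw [hN.eq_smul_xi, hom_one hF hN.2.1 (nul_xi hN.norm_pt), h2, h5]

end Circ

open Circ

theorem cI_sym {a c : ℂ} (h : ‖a‖ ^ 2 - ‖c‖ ^ 2 = 1 ∨ ‖a‖ ^ 2 - ‖c‖ ^ 2 = -1) {F : V → ℂ}
    (hF : Hom 1 F) : cI (fun y => F (sym a c (conj c) (conj a) (xi y))) = cI fun y => F (xi y) := by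
  rcases h with h | h
  · exact sym_pos h hF
  · rw [← sym_pos (a := c) (c := a) (by linarith) hF,
      ← cI_inv fun y => F (sym c a (conj a) (conj c) (xi y))]
    refine cI_congr fun y _ => congrArg F ?_
    simp only [sym_apply, xi, inv_inv]
    refine Prod.ext ?_ (Prod.ext ?_ ?_) <;> simp only <;> ring

theorem cI_poisson {Z : V} (hZ : Hyp Z) : cI (fun y => (br (xi y) Z)⁻¹) = 2 * Real.pi := by
  obtain ⟨a, c, h, rfl, -⟩ := exists_sym hZ (nul_xi (y := 1) norm_one)
  have hF : Hom 1 fun E => (br E (sym a c (conj c) (conj a) oo))⁻¹ :=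
    hom_one_of fun r _ E _ => by rw [br_smul_left, mul_inv]
  rw [← cI_sym (Or.inl h) hF, ← mul_one (2 * Real.pi : ℂ), ← cI_const]
  refine cI_congr fun y _ => ?_
  rw [(iso_sym (Or.inl h)).br_eq, br_oo_right]
  exact inv_one

variable {b : ZMod 2} {m : L G} {F K : V → ℂ}

namespace Circ

theorem continuous_xi : Continuous fun t : ℝ => xi (exp (t * I)) := by
  unfold xi
  refine continuous_const.prodMk (Continuous.prodMk (by fun_prop) ?_)
  exact Continuous.inv₀ (by fun_prop) fun t => exp_ne_zero _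

theorem isClosed_arc (b : ZMod 2) (m : L G) : IsClosed {t : ℝ | Arc b m (xi (exp (t * I)))} := by
  have h1 : {t : ℝ | Arc b m (xi (exp (t * I)))} =
      {t : ℝ | 0 ≤ -(br (xi (exp (t * I))) (NN m (ca b m))).re} := by
    ext t
    exact and_iff_right (nul_xi (norm_e t))
  rw [h1]
  exact isClosed_le continuous_const
    (continuous_re.comp (Continuous.br continuous_xi continuous_const)).neg

open Classical in
theorem ii {E : Type*} [NormedAddCommGroup E] {F : V → E} (hF : ContinuousOn F {Y | Arc b m Y})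
    (c d : ℝ) : IntervalIntegrable
      (fun t : ℝ => if Arc b m (xi (exp (t * I))) then F (xi (exp (t * I))) else 0)
      MeasureTheory.volume c d := by
  have h1 : ContinuousOn (fun t : ℝ => F (xi (exp (t * I))))
      ({t : ℝ | Arc b m (xi (exp (t * I)))} ∩ uIcc c d) :=
    hF.comp continuous_xi.continuousOn fun t ht => ht.1
  have h2 := h1.integrableOn_compact (μ := MeasureTheory.volume)
    (isCompact_uIcc.inter_left (isClosed_arc b m))
  have h3 : MeasureTheory.IntegrableOn ({t : ℝ | Arc b m (xi (exp (t * I)))}.indicator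
      fun t : ℝ => F (xi (exp (t * I)))) (uIcc c d) :=
    (MeasureTheory.integrableOn_indicator_iff (isClosed_arc b m).measurableSet).mpr h2
  exact h3.intervalIntegrable

open Classical in
theorem arcI_real (f : V → ℝ) : (arcI b m fun Y => (f Y : ℂ)) =
    ((∫ t in (0 : ℝ)..2 * Real.pi,
      if Arc b m (xi (exp (t * I))) then f (xi (exp (t * I))) else 0 : ℝ) : ℂ) := by
  rw [← intervalIntegral.integral_ofReal, arcI, cI]
  congr 1
  funext t
  split_ifs <;> simp

end Circ

theorem arcI_congr (h : ∀ Y, Arc b m Y → F Y = K Y) : arcI b m F = arcI b m K := by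
  refine cI_congr fun y _ => ?_
  split_ifs with h1
  exacts [h _ h1, rfl]
theorem arcI_add (hF : ContinuousOn F {Y | Arc b m Y}) (hK : ContinuousOn K {Y | Arc b m Y}) :
    arcI b m (fun Y => F Y + K Y) = arcI b m F + arcI b m K := by
  unfold arcI cI
  rw [← intervalIntegral.integral_add (ii hF _ _) (ii hK _ _)]
  congr 1
  funext t
  dsimp only
  split_ifs <;> simp
theorem arcI_const_mul (c : ℂ) (F : V → ℂ) : arcI b m (fun Y => c * F Y) = c * arcI b m F := by
  unfold arcI cI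
  rw [← intervalIntegral.integral_const_mul]
  congr 1
  funext t
  dsimp only
  split_ifs <;> simp
theorem arcI_sum {ι : Type*} (s : Finset ι) {F : ι → V → ℂ}
    (h : ∀ i ∈ s, ContinuousOn (F i) {Y | Arc b m Y}) :
    arcI b m (fun Y => ∑ i ∈ s, F i Y) = ∑ i ∈ s, arcI b m (F i) := by
  unfold arcI cI
  rw [← intervalIntegral.integral_finsetSum fun i hi => ii (h i hi) _ _]
  congr 1
  funext t
  dsimp only
  split_ifs <;> simp
theorem norm_arcI_le {M : ℝ} (hM : 0 ≤ M) (h : ∀ y, Arc b m (xi y) → ‖F (xi y)‖ ≤ M) :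
    ‖arcI b m F‖ ≤ 2 * Real.pi * M := by
  refine (intervalIntegral.norm_integral_le_of_norm_le_const (C := M) fun t _ => ?_).trans_eq ?_
  · split_ifs with h1
    exacts [h _ h1, norm_zero.trans_le hM]
  · rw [sub_zero, abs_of_pos Real.two_pi_pos, mul_comm]
theorem hasSum_arcI {ι : Type*} [Countable ι] {F : ι → V → ℂ} {u : ι → ℝ} (hu : Summable u)
    (hc : ∀ i, ContinuousOn (F i) {Y | Arc b m Y})
    (hb : ∀ i y, Arc b m (xi y) → ‖F i (xi y)‖ ≤ u i) :
    HasSum (fun i => arcI b m (F i)) (arcI b m fun Y => ∑' i, F i Y) := by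
  refine intervalIntegral.hasSum_integral_of_dominated_convergence (fun i _ => |u i|)
    (fun i => (ii (hc i) _ _).def'.aestronglyMeasurable)
    (fun i => Filter.Eventually.of_forall fun t _ => ?_)
    (Filter.Eventually.of_forall fun t _ => hu.abs) intervalIntegrable_const
    (Filter.Eventually.of_forall fun t _ => ?_)
  · split_ifs with h1
    exacts [(hb i _ h1).trans (le_abs_self _), norm_zero.trans_le (abs_nonneg _)]
  · split_ifs with h1
    exacts [(Summable.of_norm_bounded hu fun i => hb i _ h1).hasSum, hasSum_zero]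
theorem arcI_re (hF : ContinuousOn F {Y | Arc b m Y}) :
    arcI b m (fun Y => ((F Y).re : ℂ)) = ((arcI b m F).re : ℂ) := by
  rw [arcI_real fun Y => (F Y).re]
  congr 1
  refine Eq.trans ?_ (reCLM.intervalIntegral_comp_comm (ii hF _ _))
  congr 1
  funext t
  split_ifs <;> simp
theorem arcI_nonneg {f : V → ℝ} (h : ∀ Y, Arc b m Y → 0 ≤ f Y) :
    0 ≤ (arcI b m fun Y => (f Y : ℂ)).re := by
  rw [arcI_real, ofReal_re]
  refine intervalIntegral.integral_nonneg Real.two_pi_pos.le fun t _ => ?_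
  split_ifs with h1
  exacts [h _ h1, le_rfl]

variable [hG : Fact (2 ≤ G)]

namespace Circ

omit hG in
theorem arc_iff_cos (t : ℝ) :
    Arc b m (xi (exp (t * I))) ↔ ca b m ≤ Real.cos (t - Wall.th G * m.val) := by
  have h1 := nul_xi (norm_e t)
  have h2 : exp (t * I) * conj (ee m) = exp ((t - Wall.th G * m.val : ℝ) * I) := by
    rw [Wall.ee_eq, ← exp_conj, ← exp_add, map_mul, conj_ofReal, conj_I]
    congr 1
    push_cast
    ring
  rw [Arc, and_iff_right h1, ArcAux.side_NN h1.1, ArcAux.cx]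
  simp only [xi, h2, exp_ofReal_mul_I_re, one_re, mul_one, sub_nonneg]

theorem ca_mem (b : ZMod 2) (m : L G) : 0 < ca b m ∧ ca b m < 1 := by
  unfold ca
  split_ifs
  exacts [⟨c0_pos, c0_lt_one⟩, ⟨c0_pos.trans c0_lt_cQ, cQ_lt_one⟩]

theorem finite_walls : (⋃ k : L G, {y : ℂ | ‖y‖ = 1 ∧ side (xi y) (wn k) = 0}).Finite :=
  finite_iUnion fun k => finite_side_eq_zero (isRe_wn k) (br_wn_self k)

theorem arc_unique {y : ℂ} (hy : ‖y‖ = 1)
    (hB : y ∉ ⋃ k : L G, {y : ℂ | ‖y‖ = 1 ∧ side (xi y) (wn k) = 0}) {m m' : L G}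
    (h1 : Arc b m (xi y)) (h2 : Arc b m' (xi y)) : m = m' := by
  by_contra h
  obtain ⟨k, -, hk⟩ := arc_inter h h1 h2
  exact hB (mem_iUnion.mpr ⟨k, hy, hk⟩)

end Circ

theorem arcI_pos {f : V → ℝ} (hc : ContinuousOn f {Y | Arc b m Y}) (h : ∀ Y, Arc b m Y → 0 ≤ f Y)
    {y : ℂ} (hy : Arc b m (xi y)) (h0 : 0 < f (xi y)) : 0 < (arcI b m fun Y => (f Y : ℂ)).re := by
  classical
  obtain ⟨hc0, hc1⟩ := ca_mem b m
  have hα : 0 < Real.arccos (ca b m) := Real.arccos_pos.mpr hc1
  have hπ := Real.arccos_le_pi (ca b m)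
  have hA : ∀ t ∈ Icc (Wall.th G * m.val - Real.arccos (ca b m))
      (Wall.th G * m.val + Real.arccos (ca b m)), Arc b m (xi (exp (t * I))) := by
    intro t ht
    rw [arc_iff_cos, ← Real.cos_abs]
    refine (Real.cos_arccos (by linarith) hc1.le).symm.trans_le ?_
    exact Real.cos_le_cos_of_nonneg_of_le_pi (abs_nonneg _) hπ
      (abs_le.mpr ⟨by linarith [ht.1], by linarith [ht.2]⟩)
  have hy1 : ‖y‖ = 1 := by simpa using hy.1.norm_pt
  obtain ⟨t₀, ht₀, rfl⟩ : ∃ t₀ : ℝ, |t₀ - Wall.th G * m.val| ≤ Real.pi ∧ exp (t₀ * I) = y := by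
    refine ⟨arg (y / ee m) + Wall.th G * m.val, by simpa using abs_arg_le_pi _, ?_⟩
    have h1 := norm_mul_exp_arg_mul_I (y / ee m)
    rw [norm_div, hy1, norm_ee, div_one, ofReal_one, one_mul] at h1
    rw [ofReal_add, add_mul, exp_add, h1, ← Wall.ee_eq]
    exact div_mul_cancel₀ _ (norm_ne_zero_iff.mp (by rw [norm_ee]; exact one_ne_zero))
  have ht₁ : |t₀ - Wall.th G * m.val| ≤ Real.arccos (ca b m) := by
    have h1 := Real.arccos_le_arccos ((arc_iff_cos t₀).mp hy)
    rwa [← Real.cos_abs, Real.arccos_cos (abs_nonneg _) ht₀] at h1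
  have hp := (periodic fun y => if Arc b m (xi y) then f (xi y) else 0).intervalIntegral_add_eq 0
    (Wall.th G * m.val - Real.pi)
  rw [zero_add] at hp
  rw [arcI_real, ofReal_re, hp]
  have hnn : ∀ t : ℝ, 0 ≤ if Arc b m (xi (exp (t * I))) then f (xi (exp (t * I))) else 0 := by
    intro t
    split_ifs with h1
    exacts [h _ h1, le_rfl]
  refine lt_of_lt_of_le (intervalIntegral.integral_pos (by linarith) ?_ (fun t _ => hnn t)
    ⟨t₀, ⟨by linarith [(abs_le.mp ht₁).1], by linarith [(abs_le.mp ht₁).2]⟩, ?_⟩)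
    (intervalIntegral.integral_mono_interval (a := Wall.th G * m.val - Real.arccos (ca b m))
      (b := Wall.th G * m.val + Real.arccos (ca b m)) (by linarith) (by linarith) (by linarith)
      (Filter.Eventually.of_forall hnn) (ii hc _ _))
  · exact (hc.comp continuous_xi.continuousOn hA).congr fun t ht => if_pos (hA t ht)
  · rwa [if_pos hy]

theorem arcI_step (hF : Hom 1 F) (hc : ContinuousOn F {Y | Arc b m Y}) :
    arcI b m F = ∑ m', if Edge b m m' then arcI b m' (fun Y => F (mir m Y)) else 0 := by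
  classical
  have hF' : Hom 1 fun Y => if Arc b m Y then F Y else 0 := hom_one_of fun r hr E hE => by
    by_cases h1 : Arc b m E
    · rw [if_pos h1, if_pos (h1.smul hr), hom_one hF hr hE]
    · rw [if_neg h1, if_neg, mul_zero]
      intro h2
      have h3 := h2.smul (inv_pos.mpr hr)
      rw [smul_smul, ← ofReal_mul, inv_mul_cancel₀ hr.ne', ofReal_one, one_smul] at h3
      exact h1 h3
  have h1 := cI_sym (Or.inr (refl_sym_det m)) hF'
  rw [← refl_eq_sym] at h1
  have h2 : ∀ m' ∈ Finset.univ.filter (Edge b m),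
      ContinuousOn (fun Y => F (mir m Y)) {Y | Arc b m' Y} := fun m' hm' =>
    hc.comp (mir m).continuous.continuousOn fun Y hY => Arc.step (Finset.mem_filter.mp hm').2 hY
  rw [← Finset.sum_filter]
  refine h1.symm.trans (Eq.trans (cI_congr_fin (finite_walls (G := G)) (g := fun y =>
    ∑ m' ∈ Finset.univ.filter (Edge b m), if Arc b m' (xi y) then F (mir m (xi y)) else 0)
      fun y hy hB => ?_) (intervalIntegral.integral_finsetSum fun m' hm' => ii (h2 m' hm') _ _))
  by_cases h3 : Arc b m (mir m (xi y))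
  · obtain ⟨m', he, h4⟩ := h3.exists_next
    rw [refl_refl] at h4
    rw [if_pos h3, Finset.sum_eq_single_of_mem m' (Finset.mem_filter.mpr ⟨Finset.mem_univ _, he⟩)
      fun k _ hk => if_neg fun h5 => hk (arc_unique hy hB h5 h4), if_pos h4]
  · rw [if_neg h3]
    exact (Finset.sum_eq_zero fun k hk =>
      if_neg fun h5 => h3 (Arc.step (Finset.mem_filter.mp hk).2 h5)).symm

theorem sum_arcI (b : ZMod 2) (hc : ContinuousOn F {Y | Nul Y}) :
    ∑ m : L G, arcI b m F = cI fun y => F (xi y) := by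
  classical
  refine Eq.trans (intervalIntegral.integral_finsetSum fun m _ =>
    ii (b := b) (m := m) (hc.mono fun Y hY => hY.1) _ _).symm
    (cI_congr_fin (finite_walls (G := G))
      (f := fun y => ∑ m : L G, if Arc b m (xi y) then F (xi y) else 0) fun y hy hB => ?_)
  obtain ⟨m, hm⟩ := arc_cover (G := G) b (nul_xi hy)
  rw [Finset.sum_eq_single_of_mem m (Finset.mem_univ _)
    fun k _ hk => if_neg fun h5 => hk (arc_unique hy hB h5 hm), if_pos hm]

namespace Circ

theorem cont_inv (g : W G) : ContinuousOn (fun Y => (lin g Y).1⁻¹) {Y | Nul Y} :=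
  (continuous_fst.comp (lin g).continuous).continuousOn.inv₀ fun Y hY h0 =>
    ((iso_lin g).nul hY).2.1.ne' (by rw [show (lin g Y).1 = 0 from h0, zero_re])

theorem cont_inv_re (g : W G) : ContinuousOn (fun Y => ((lin g Y).1.re)⁻¹) {Y | Nul Y} :=
  (continuous_re.comp (continuous_fst.comp (lin g).continuous)).continuousOn.inv₀ fun _ hY =>
    ((iso_lin g).nul hY).2.1.ne'

/-- The cylinders of a given depth tile the circle. -/
theorem sum_cyl (b : ZMod 2) (k : ℕ) : ∑ u ∈ admF G b (k + 1),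
    arcI b (u.getLastD 0) (fun Y => (lin (wd u.dropLast) Y).1⁻¹) = 2 * Real.pi := by
  induction k with
  | zero =>
    rw [sum_admF_one, ← mul_one (2 * Real.pi : ℂ), ← cI_const]
    refine (sum_arcI b (cont_inv (G := G) 1)).trans (cI_congr fun y _ => ?_)
    rw [lin_one]
    exact inv_one
  | succ k ih =>
    rw [sum_admF_snoc, ← ih]
    refine Finset.sum_congr rfl fun u hu => ?_
    obtain ⟨v, j, rfl⟩ := (List.eq_nil_or_concat' u).resolve_left fun h => by
      have := (mem_admF.mp hu).1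
      simp [h] at this
    simp only [List.getLastD_concat, List.dropLast_concat, Word.lin_snoc]
    refine (arcI_step (F := fun Y => (lin (wd v) Y).1⁻¹) (hom_one_of fun r _ E _ => ?_)
      ((cont_inv _).mono fun Y hY => hY.1)).symm
    rw [map_smul, Prod.smul_fst, smul_eq_mul, mul_inv]

theorem exists_len : ∃ c > 0, ∀ (b : ZMod 2) (m : L G),
    c ≤ (arcI b m fun Y => (((Y.1.re)⁻¹ : ℝ) : ℂ)).re := by
  obtain ⟨p, -, hp⟩ := Finset.exists_min_image (Finset.univ : Finset (ZMod 2 × L G))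
    (fun p => (arcI p.1 p.2 fun Y => (((Y.1.re)⁻¹ : ℝ) : ℂ)).re) Finset.univ_nonempty
  refine ⟨_, arcI_pos ?_ (fun Y hY => (inv_pos.mpr hY.1.2.1).le) (arc_center p.1 p.2) ?_,
    fun b m => hp (b, m) (Finset.mem_univ _)⟩
  · simpa only [lin_one] using (cont_inv_re (G := G) 1).mono fun Y hY => hY.1
  · simp [xi]

theorem exists_cyl : ∃ c > 0, ∀ (b : ZMod 2) (m : L G) (g : W G),
    c * ((lin (g * sr m) oo).1.re)⁻¹ ≤ (arcI b m fun Y => (lin g Y).1⁻¹).re := by
  obtain ⟨c, hc, h⟩ := exists_len (G := G)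
  obtain ⟨C, hC, hC'⟩ := exists_refl_fst_le (G := G)
  refine ⟨c / (2 * C), by positivity, fun b m g => ?_⟩
  have hp := ((iso_lin (g * sr m)).hyp hyp_oo).2.1
  set a : ℝ := (2 * C * (lin (g * sr m) oo).1.re)⁻¹ with ha
  have ha0 : 0 < a := by positivity
  have c1 : ContinuousOn (fun Y : V => (((lin g Y).1.re)⁻¹ - a * (Y.1.re)⁻¹ : ℝ))
      {Y | Arc b m Y} := by
    refine ((cont_inv_re g).sub (continuousOn_const.mul ?_)).mono fun Y hY => hY.1
    simpa only [lin_one] using cont_inv_re (G := G) 1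
  have c2 : ContinuousOn (fun Y : V => (((Y.1.re)⁻¹ : ℝ) : ℂ)) {Y | Arc b m Y} := by
    refine continuous_ofReal.comp_continuousOn ?_
    simpa only [lin_one] using (cont_inv_re (G := G) 1).mono fun Y hY => hY.1
  have h1 : (arcI b m fun Y => (lin g Y).1⁻¹) =
      (arcI b m fun Y => ((((lin g Y).1.re)⁻¹ - a * (Y.1.re)⁻¹ : ℝ) : ℂ)) +
        a * arcI b m fun Y => (((Y.1.re)⁻¹ : ℝ) : ℂ) := by
    rw [← arcI_const_mul]
    refine Eq.trans (arcI_congr fun Y hY => ?_)
      (arcI_add (continuous_ofReal.comp_continuousOn c1) (continuousOn_const.mul c2))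
    rw [((iso_lin g).nul hY.1).1.fst_eq]
    simp
  have h2 : 0 ≤ (arcI b m fun Y => ((((lin g Y).1.re)⁻¹ - a * (Y.1.re)⁻¹ : ℝ) : ℂ)).re := by
    refine arcI_nonneg fun Y hY => sub_nonneg.mpr ?_
    have h3 : lin g Y = lin (g * sr m) (mir m Y) := by rw [lin_mul, lin_sr, refl_refl]
    have h4 := ((iso_refl m).nul hY.1).fut.br_le ((iso_lin (g * sr m)⁻¹).fut _ hyp_oo.fut)
    rw [← Word.fst_eq_br, ← h3, lin_inv_oo_fst] at h4
    have h5 := hC' m Y hY.1.fut
    rw [ha, ← mul_inv]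
    refine inv_anti₀ ((iso_lin g).nul hY.1).2.1 (h4.trans ?_)
    nlinarith
  rw [h1, add_re, re_ofReal_mul]
  have h6 : c / (2 * C) * ((lin (g * sr m) oo).1.re)⁻¹ = a * c := by
    rw [ha]
    field_simp
  rw [h6]
  exact le_add_of_nonneg_of_le h2 (mul_le_mul_of_nonneg_left (h b m) ha0.le)

end Circ

theorem sum_inv_le : ∃ C : ℝ, ∀ (b : ZMod 2) (k : ℕ),
    ∑ u ∈ admF G b k, ((lin (wd u) oo).1.re)⁻¹ ≤ C := by
  obtain ⟨c, hc, h⟩ := exists_cyl (G := G)
  refine ⟨max 1 (2 * Real.pi / c), fun b k => ?_⟩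
  cases k with
  | zero => exact le_max_of_le_left (by simp [admF, oo])
  | succ k =>
    refine le_max_of_le_right ((le_div_iff₀' hc).mpr ?_)
    have h1 := congrArg re (sum_cyl (G := G) b k)
    have h2 : (2 * Real.pi : ℂ).re = 2 * Real.pi := by simp
    rw [re_sum, h2] at h1
    rw [← h1, Finset.mul_sum]
    refine Finset.sum_le_sum fun u hu => ?_
    obtain ⟨v, j, rfl⟩ := (List.eq_nil_or_concat' u).resolve_left fun h => by
      have := (mem_admF.mp hu).1
      simp [h] at this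
    simpa only [List.getLastD_concat, List.dropLast_concat, wd_append, wd_cons, wd_nil, mul_one]
      using h b j (wd v)

theorem summable_lattice : Summable fun g : W G => ((lin g oo).1.re)⁻¹ ^ 2 := by
  obtain ⟨D⟩ := exists_nest (G := G) 1
  obtain ⟨c, hc, h⟩ := D.grow_oo
  obtain ⟨C, hC⟩ := sum_inv_le (G := G)
  have ht : 0 < D.t := zero_lt_one.trans D.one_lt_t
  have h1 : Summable fun x : (Σ k : ℕ, admF G 1 k) => ((lin (wd x.2.1) oo).1.re)⁻¹ ^ 2 := by
    refine (summable_sigma_of_nonneg fun x => by positivity).mpr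
      ⟨fun k => Summable.of_finite, ?_⟩
    refine Summable.of_nonneg_of_le (fun k => tsum_nonneg fun _ => by positivity) (fun k => ?_)
      ((summable_geometric_of_lt_one (inv_pos.mpr ht).le
        (inv_lt_one_of_one_lt₀ D.one_lt_t)).mul_left (C * c⁻¹))
    rw [Finset.tsum_subtype (admF G 1 k) fun u => ((lin (wd u) oo).1.re)⁻¹ ^ 2, mul_assoc, inv_pow,
      ← mul_inv]
    refine le_trans ?_ (mul_le_mul_of_nonneg_right (hC 1 k) (by positivity))
    rw [Finset.sum_mul]
    refine Finset.sum_le_sum fun u hu => ?_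
    obtain ⟨h2, h3⟩ := mem_admF.mp hu
    rw [sq]
    refine mul_le_mul_of_nonneg_left (inv_anti₀ (by positivity) ?_)
      (inv_pos.mpr ((iso_lin _).hyp hyp_oo).2.1).le
    exact h2 ▸ h u h3
  choose nf h2 h3 using exists_nf (G := G) 1
  have h4 := h1.comp_injective
    (i := fun g => ⟨(nf g).length, nf g, mem_admF.mpr ⟨rfl, h2 g⟩⟩) fun g g' hg => by
      rw [← h3 g, ← h3 g']
      exact congrArg (fun x : (Σ k : ℕ, admF G 1 k) => wd x.2.1) hg
  refine h4.congr fun g => ?_
  simp only [Function.comp_apply, h3]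

theorem lattice_bound : ∃ C : ℝ, ∀ Z Y, Hyp Z → Hyp Y →
    (Summable fun g : W G => ((br Z (lin g Y)).re)⁻¹ ^ 2) ∧
      ∑' g : W G, ((br Z (lin g Y)).re)⁻¹ ^ 2 ≤ C := by
  obtain ⟨T, hT⟩ := ch_bdd (G := G)
  refine ⟨∑' g : W G, (4 * T ^ 2) ^ 2 * ((lin g oo).1.re)⁻¹ ^ 2, fun Z Y hZ hY => ?_⟩
  obtain ⟨g₁, h1⟩ := exists_chamber (G := G) hZ
  obtain ⟨g₂, h2⟩ := exists_chamber (G := G) hY
  have hZ' := (iso_lin g₁⁻¹).hyp hZ
  have hY' := (iso_lin g₂⁻¹).hyp hY
  have t1 := hT _ hZ' h1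
  have t2 := hT _ hY' h2
  let e : W G ≃ W G := (Equiv.mulLeft g₁⁻¹).trans (Equiv.mulRight g₂)
  have hs := (e.summable_iff (f := fun g : W G =>
    (4 * T ^ 2) ^ 2 * ((lin g oo).1.re)⁻¹ ^ 2)).mpr (summable_lattice.mul_left _)
  have hle : ∀ g : W G, ((br Z (lin g Y)).re)⁻¹ ^ 2 ≤
      (4 * T ^ 2) ^ 2 * ((lin (e g) oo).1.re)⁻¹ ^ 2 := by
    intro g
    have e1 : br Z (lin g Y) = br (lin g₁⁻¹ Z) (lin (e g) (lin g₂⁻¹ Y)) := by
      rw [← (iso_lin g₁⁻¹).br_eq, ← lin_mul, ← lin_mul]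
      congr 3
      simp [e]
    have p1 := hZ'.le_br ((iso_lin (e g)).fut _ hY'.fut)
    have p2 := hY'.le_br ((iso_lin (e g)⁻¹).fut _ hyp_oo.fut)
    rw [← Word.fst_eq_br, lin_inv_oo_fst] at p2
    have q1 := hZ'.2.1
    have q2 := hY'.2.1
    have q3 := ((iso_lin (e g)).hyp hyp_oo).2.1
    have q4 := ((iso_lin (e g)).hyp hY').2.1
    have q5 : 0 < (br Z (lin g Y)).re :=
      zero_lt_one.trans_le (hZ.one_le_br ((iso_lin g).hyp hY))
    rw [← e1, div_le_iff₀ (by positivity)] at p1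
    rw [div_le_iff₀ (by positivity)] at p2
    rw [← mul_pow]
    refine pow_le_pow_left₀ (inv_pos.mpr q5).le ?_ 2
    rw [← div_eq_mul_inv, le_div_iff₀ q3, inv_mul_le_iff₀ q5]
    calc (lin (e g) oo).1.re ≤ (br Z (lin g Y)).re * (2 * T) * (2 * T) :=
          p2.trans (mul_le_mul (p1.trans (mul_le_mul_of_nonneg_left (by linarith) q5.le))
            (by linarith) (by positivity) (mul_nonneg q5.le (by linarith)))
      _ = (br Z (lin g Y)).re * (4 * T ^ 2) := by ring
  have hs' := Summable.of_nonneg_of_le (fun g => by positivity) hle hs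
  exact ⟨hs', (hs'.tsum_le_tsum hle hs).trans_eq
    (e.tsum_eq fun g : W G => (4 * T ^ 2) ^ 2 * ((lin g oo).1.re)⁻¹ ^ 2)⟩

end Pool.Agent.Lib.MP_de7bb2_an
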