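import Pool.Agent.Lib.MP_de7bb2_an.H20Surf
import Pool.Agent.Lib.MP_de7bb2_an.H20Circ
import Pool.Agent.Lib.MP_de7bb2_an.H20Axis
import Pool.Agent.Lib.MP_de7bb2_an.H20Tool

/-! The conformal factor and the perturbed geodesic vector field. TASK B. -/

namespace Pool.Agent.Lib.MP_de7bb2_an

open Metric Set Complex

variable {ι : Type}

/-- A family of points of the hyperboloid with uniformly summable inverse squares. -/
def Famy (Wf : ι → V) (Cb : ℝ) : Prop := (∀ i, Hyp (Wf i)) ∧ ∀ Z, Hyp Z →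
  (Summable fun i => ((br Z (Wf i)).re)⁻¹ ^ 2) ∧ ∑' i, ((br Z (Wf i)).re)⁻¹ ^ 2 ≤ Cb

noncomputable def bF (Wf : ι → V) (Z : V) : ℂ := ∑' i, (br Z (Wf i))⁻¹ ^ 2

noncomputable def fF (Wf : ι → V) (Z n : V) : ℂ :=
  ∑' i, -2 * br n (Wf i) * (br Z (Wf i))⁻¹ ^ 3

noncomputable def mid (E : V × V) : V := (1 / 2 : ℂ) • (E.1 + E.2)

noncomputable def nrm (E : V × V) : V := (1 / 2 : ℂ) • cross E.2 E.1

/-- The geodesic vector field of `exp (2 ε b)` times the hyperbolic metric, written for the pair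
of null vectors `c + c'`, `c - c'`. -/
noncomputable def VF (Wf : ι → V) (ε : ℝ) (E : V × V) : V × V :=
  exp (-ε * bF Wf (mid E)) • (E.1 + (ε * fF Wf (mid E) (nrm E)) • nrm E,
    -E.2 - (ε * fF Wf (mid E) (nrm E)) • nrm E)

def SM : Set (V × V) := {E | Nul E.1 ∧ Nul E.2 ∧ br E.1 E.2 = 2}

def MG (Wf : ι → V) (ε : ℝ) (E : ℝ → V × V) : Prop :=
  ∀ t, E t ∈ SM ∧ HasDerivAt E (VF Wf ε (E t)) t

noncomputable def act2 (A : V →L[ℂ] V) (E : V × V) : V × V := (A E.1, A E.2)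

/-- An orbit which closes up after time `ℓ` under `A`. -/
def PerG (Wf : ι → V) (ε : ℝ) (A : V →L[ℂ] V) (ℓ : ℝ) (E : ℝ → V × V) : Prop :=
  MG Wf ε E ∧ 0 < ℓ ∧ ∀ t, E (t + ℓ) = act2 A (E t)

noncomputable def phiE (Wf : ι → V) (ε : ℝ) (z : ℂ) : ℝ :=
  Real.log (2 / (1 - ‖z‖ ^ 2)) + ε * (bF Wf (zv z)).re

/-- Integral of the conformal factor along an axis. -/
noncomputable def Ib (Wf : ι → V) (X Y : V) (l : ℝ) : ℝ :=
  ∫ u in (0 : ℝ)..l,
    (bF Wf (((Real.exp u / 2 : ℝ) : ℂ) • X + ((Real.exp (-u) / 2 : ℝ) : ℂ) • Y)).re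

/-- A complex neighbourhood of the hyperboloid. -/
def Near (Z : V) : Prop := ∃ c, Hyp c ∧ ‖Z - c‖ < (8 * c.1.re)⁻¹

variable {Wf : ι → V} {Cb : ℝ} {Z n : V} {E : V × V}

theorem isOpen_near : IsOpen {Z | Near Z} := by
  refine isOpen_iff_mem_nhds.2 ?_
  rintro Z ⟨c, hc, hZ⟩
  filter_upwards [isOpen_ball.mem_nhds (mem_ball_iff_norm.2 hZ)] with Y hY
  exact ⟨c, hc, mem_ball_iff_norm.1 hY⟩
theorem Hyp.near (h : Hyp Z) : Near Z := by
  refine ⟨Z, h, ?_⟩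
  have := h.2.1
  rw [sub_self, norm_zero]
  positivity
theorem half_le_br {c W : V} (hc : Hyp c) (hW : Fut W) (h : ‖Z - c‖ ≤ (8 * c.1.re)⁻¹) :
    (br c W).re / 2 ≤ (br Z W).re := by
  have h0 := hc.2.1
  have h1 : br Z W = br c W + br (Z - c) W := by rw [br_sub_left]; ring
  have h2 := norm_br_le (Z - c) W
  have h3 := hc.le_br hW
  have h4 : 2 * ‖Z - c‖ * ‖W‖ ≤ 2 * (8 * c.1.re)⁻¹ * ‖W‖ := by gcongr
  have h5 : 2 * (8 * c.1.re)⁻¹ * ‖W‖ = W.1.re / (2 * c.1.re) / 2 := by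
    rw [hW.norm_eq]; field_simp; ring
  have h6 := (abs_le.1 (abs_re_le_norm (br (Z - c) W))).1
  rw [h1, add_re]
  linarith

namespace TaskB

theorem norm_inv_le {c W : V} (hc : Hyp c) (hW : Hyp W) (h : ‖Z - c‖ ≤ (8 * c.1.re)⁻¹) :
    br Z W ≠ 0 ∧ ‖(br Z W)⁻¹‖ ≤ 2 * ((br c W).re)⁻¹ := by
  have h1 := half_le_br hc hW.fut h
  have h2 := hc.one_le_br hW
  have h3 : (br c W).re / 2 ≤ ‖br Z W‖ := h1.trans (re_le_norm _)
  have h4 : 0 < (br c W).re / 2 := by linarith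
  refine ⟨norm_pos_iff.1 (h4.trans_le h3), ?_⟩
  rw [norm_inv]
  refine (inv_anti₀ h4 h3).trans (le_of_eq ?_)
  rw [inv_div, div_eq_mul_inv]

theorem norm_b_le {c W : V} (hc : Hyp c) (hW : Hyp W) (h : ‖Z - c‖ ≤ (8 * c.1.re)⁻¹) :
    ‖(br Z W)⁻¹ ^ 2‖ ≤ 4 * ((br c W).re)⁻¹ ^ 2 := by
  rw [norm_pow]
  calc _ ≤ (2 * ((br c W).re)⁻¹) ^ 2 := pow_le_pow_left₀ (norm_nonneg _) (norm_inv_le hc hW h).2 2
    _ = _ := by ring

theorem norm_f_le {c W : V} (hc : Hyp c) (hW : Hyp W) (h : ‖Z - c‖ ≤ (8 * c.1.re)⁻¹) (n : V) :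
    ‖-2 * br n W * (br Z W)⁻¹ ^ 3‖ ≤ 64 * c.1.re * ‖n‖ * ((br c W).re)⁻¹ ^ 2 := by
  have h0 := hc.2.1
  have h2 := hc.one_le_br hW
  have h3 := hc.le_br hW.fut
  rw [div_le_iff₀ (by positivity), ← hW.fut.norm_eq] at h3
  have h4 : ‖br n W‖ ≤ 2 * ‖n‖ * ((br c W).re * (2 * c.1.re)) :=
    (norm_br_le n W).trans (mul_le_mul_of_nonneg_left h3 (by positivity))
  have h5 : ‖(br Z W)⁻¹‖ ^ 3 ≤ (2 * ((br c W).re)⁻¹) ^ 3 :=
    pow_le_pow_left₀ (norm_nonneg _) (norm_inv_le hc hW h).2 3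
  have h6 : 0 < (br c W).re := by linarith
  rw [norm_mul, norm_mul, norm_pow, norm_neg, Complex.norm_two]
  calc _ ≤ 2 * (2 * ‖n‖ * ((br c W).re * (2 * c.1.re))) * (2 * ((br c W).re)⁻¹) ^ 3 := by gcongr
    _ = _ := by field_simp; ring

theorem hasFDerivAt_b {W : V} (h : br Z W ≠ 0) : HasFDerivAt (fun Z : V => (br Z W)⁻¹ ^ 2)
    ((-2 * (br Z W)⁻¹ ^ 3) • brL.flip W) Z := by
  have h1 : HasFDerivAt (fun Z : V => br Z W) (brL.flip W) Z := by
    have := (brL.flip W).hasFDerivAt (x := Z)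
    simpa only [ContinuousLinearMap.flip_apply, brL_apply, ← funext_iff] using
      this.congr_of_eventuallyEq (Filter.Eventually.of_forall fun Y => by simp)
  have h2 : HasDerivAt (fun z : ℂ => z⁻¹ ^ 2) (-2 * (br Z W)⁻¹ ^ 3) (br Z W) := by
    refine ((hasDerivAt_inv h).fun_pow 2).congr_deriv ?_
    norm_num
    field_simp
  exact h2.comp_hasFDerivAt Z h1

theorem hasFDerivAt_bF (h : Famy Wf Cb) (hZ : Near Z) :
    (Summable fun i => (-2 * (br Z (Wf i))⁻¹ ^ 3) • brL.flip (Wf i)) ∧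
    HasFDerivAt (bF Wf) (∑' i, (-2 * (br Z (Wf i))⁻¹ ^ 3) • brL.flip (Wf i)) Z := by
  obtain ⟨c, hc, hZ⟩ := hZ
  have h0 := hc.2.1
  have hu := (h.2 c hc).1.mul_left (64 * c.1.re)
  have hb : ∀ i, ∀ Y ∈ ball c (8 * c.1.re)⁻¹,
      ‖(-2 * (br Y (Wf i))⁻¹ ^ 3) • brL.flip (Wf i)‖ ≤
        64 * c.1.re * ((br c (Wf i)).re)⁻¹ ^ 2 := by
    intro i Y hY
    refine ContinuousLinearMap.opNorm_le_bound _ (by positivity) fun n => ?_
    have := norm_f_le hc (h.1 i) (mem_ball_iff_norm.1 hY).le n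
    have e : ((-2 * (br Y (Wf i))⁻¹ ^ 3) • brL.flip (Wf i)) n =
        -2 * br n (Wf i) * (br Y (Wf i))⁻¹ ^ 3 := by
      simp only [_root_.smul_apply, ContinuousLinearMap.flip_apply, brL_apply,
        smul_eq_mul]
      ring
    rw [e]
    linarith
  have hZ' := mem_ball_iff_norm.2 hZ
  refine ⟨Summable.of_norm_bounded hu fun i => hb i Z hZ', ?_⟩
  refine hasFDerivAt_tsum_of_isPreconnected hu isOpen_ball (convex_ball _ _).isPreconnected
    (fun i Y hY => hasFDerivAt_b (norm_inv_le hc (h.1 i) (mem_ball_iff_norm.1 hY).le).1) hb hZ'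
    (Summable.of_norm_bounded ((h.2 c hc).1.mul_left 4) fun i => norm_b_le hc (h.1 i) hZ.le) hZ'

end TaskB

theorem Famy.nonneg (h : Famy Wf Cb) : 0 ≤ Cb :=
  (tsum_nonneg fun _ => sq_nonneg _).trans (h.2 oo hyp_oo).2
theorem Famy.summable_b (h : Famy Wf Cb) (hZ : Near Z) :
    Summable fun i => ‖(br Z (Wf i))⁻¹ ^ 2‖ := by
  obtain ⟨c, hc, hZ⟩ := hZ
  exact Summable.of_nonneg_of_le (fun _ => norm_nonneg _)
    (fun i => TaskB.norm_b_le hc (h.1 i) hZ.le) ((h.2 c hc).1.mul_left 4)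
theorem Famy.norm_bF_le (h : Famy Wf Cb) (hZ : Near Z) : ‖bF Wf Z‖ ≤ 4 * Cb := by
  obtain ⟨c, hc, hZ⟩ := hZ
  refine (tsum_of_norm_bounded ((h.2 c hc).1.hasSum.mul_left 4)
    fun i => TaskB.norm_b_le hc (h.1 i) hZ.le).trans ?_
  linarith [(h.2 c hc).2]
theorem Famy.diffOn_bF (h : Famy Wf Cb) : DifferentiableOn ℂ (bF Wf) {Z | Near Z} :=
  fun _ hZ => (TaskB.hasFDerivAt_bF h hZ).2.differentiableAt.differentiableWithinAt
theorem Famy.fderiv_bF (h : Famy Wf Cb) (hZ : Near Z) (n : V) :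
    fderiv ℂ (bF Wf) Z n = fF Wf Z n := by
  obtain ⟨h1, h2⟩ := TaskB.hasFDerivAt_bF h hZ
  rw [h2.fderiv]
  refine ((ContinuousLinearMap.apply ℂ ℂ n).map_tsum h1).trans (tsum_congr fun i => ?_)
  simp only [ContinuousLinearMap.apply_apply, _root_.smul_apply,
    ContinuousLinearMap.flip_apply, brL_apply, smul_eq_mul]
  ring
theorem Famy.diffOn_fF (h : Famy Wf Cb) :
    DifferentiableOn ℂ (fun p : V × V => fF Wf p.1 p.2) ({Z | Near Z} ×ˢ univ) := by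
  rintro p ⟨⟨c, hc, hZ⟩, -⟩
  have h0 := hc.2.1
  have hU : IsOpen (ball c (8 * c.1.re)⁻¹ ×ˢ ball (0 : V) (‖p.2‖ + 1)) :=
    isOpen_ball.prod isOpen_ball
  have hd := diffOn_tsum (P := V × V) (E := ℂ) hU
    (f := fun i q => -2 * br q.2 (Wf i) * (br q.1 (Wf i))⁻¹ ^ 3)
    (fun i => ?_) ((h.2 c hc).1.mul_left (64 * c.1.re * (‖p.2‖ + 1))) (fun i q hq => ?_)
  · exact (hd.differentiableAt (hU.mem_nhds ⟨mem_ball_iff_norm.2 hZ,
      mem_ball_zero_iff.2 (lt_add_one _)⟩)).differentiableWithinAt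
  · intro q hq
    have hne := (TaskB.norm_inv_le hc (h.1 i) (mem_ball_iff_norm.1 hq.1).le).1
    have d1 : DifferentiableAt ℂ (fun q : V × V => br q.2 (Wf i)) q := by fun_prop
    have d2 : DifferentiableAt ℂ (fun q : V × V => br q.1 (Wf i)) q := by fun_prop
    exact ((d1.const_mul _).fun_mul ((d2.fun_inv hne).fun_pow 3)).differentiableWithinAt
  · refine (TaskB.norm_f_le hc (h.1 i) (mem_ball_iff_norm.1 hq.1).le q.2).trans ?_
    have := (mem_ball_zero_iff.1 hq.2).le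
    gcongr
theorem Famy.norm_fF_le (h : Famy Wf Cb) {c : V} (hc : Hyp c) (hZ : ‖Z - c‖ < (8 * c.1.re)⁻¹)
    (n : V) : ‖fF Wf Z n‖ ≤ 64 * Cb * c.1.re * ‖n‖ := by
  have h0 := hc.2.1
  refine (tsum_of_norm_bounded ((h.2 c hc).1.hasSum.mul_left (64 * c.1.re * ‖n‖))
    fun i => TaskB.norm_f_le hc (h.1 i) hZ.le n).trans ?_
  calc _ ≤ 64 * c.1.re * ‖n‖ * Cb := mul_le_mul_of_nonneg_left (h.2 c hc).2 (by positivity)
    _ = _ := by ring
theorem Famy.bF_real (h : Famy Wf Cb) (hZ : Hyp Z) :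
    (bF Wf Z).im = 0 ∧ 0 ≤ (bF Wf Z).re ∧ (bF Wf Z).re ≤ Cb := by
  have e : bF Wf Z = ((∑' i, ((br Z (Wf i)).re)⁻¹ ^ 2 : ℝ) : ℂ) := by
    rw [ofReal_tsum]
    refine tsum_congr fun i => ?_
    rw [ofReal_pow, ofReal_inv, ← br_eq_ofReal hZ.1 (h.1 i).1]
  rw [e, ofReal_im, ofReal_re]
  exact ⟨rfl, tsum_nonneg fun _ => sq_nonneg _, (h.2 Z hZ).2⟩
theorem fF_im (h : Famy Wf Cb) (hZ : IsRe Z) (hn : IsRe n) : (fF Wf Z n).im = 0 := by
  have e : fF Wf Z n =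
      ((∑' i, -2 * (br n (Wf i)).re * ((br Z (Wf i)).re)⁻¹ ^ 3 : ℝ) : ℂ) := by
    rw [ofReal_tsum]
    refine tsum_congr fun i => ?_
    rw [ofReal_mul, ofReal_mul, ofReal_pow, ofReal_inv, ← br_eq_ofReal hZ (h.1 i).1,
      ← br_eq_ofReal hn (h.1 i).1]
    push_cast
    rfl
  rw [e, ofReal_im]
theorem fF_smul (Wf : ι → V) (Z n : V) (a : ℂ) : fF Wf Z (a • n) = a * fF Wf Z n := by
  rw [fF, fF, ← tsum_mul_left]
  refine tsum_congr fun i => ?_
  rw [br_smul_left]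
  ring

theorem SM.mid (h : E ∈ SM) : Hyp (mid E) := by
  obtain ⟨h1, h2, h3⟩ := h
  have e : (1 / 2 : ℂ) = ((1 / 2 : ℝ) : ℂ) := by push_cast; rfl
  unfold MP_de7bb2_an.mid
  refine ⟨?_, ?_, ?_⟩
  · rw [e]; exact (h1.1.add h2.1).smul _
  · rw [e, Prod.smul_fst, Prod.fst_add, smul_eq_mul, re_ofReal_mul, add_re]
    have := h1.2.1
    have := h2.2.1
    positivity
  · simp only [br_smul_left, br_smul_right, br_add_left, br_add_right, h1.2.2, h2.2.2, h3,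
      br_comm E.2 E.1]
    norm_num
theorem SM.nrm (h : E ∈ SM) : IsRe (nrm E) ∧ br (nrm E) (nrm E) = -1 ∧ br (nrm E) E.1 = 0 ∧
    br (nrm E) E.2 = 0 := by
  obtain ⟨h1, h2, h3⟩ := h
  have e : (1 / 2 : ℂ) = ((1 / 2 : ℝ) : ℂ) := by push_cast; rfl
  unfold MP_de7bb2_an.nrm
  refine ⟨?_, ?_, ?_, ?_⟩
  · rw [e]; exact (h2.1.cross h1.1).smul _
  · rw [br_smul_left, br_smul_right, br_cross_cross, h1.2.2, h2.2.2, br_comm E.2 E.1, h3]
    norm_num
  · rw [br_smul_left, br_cross_right, mul_zero]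
  · rw [br_smul_left, br_cross_left, mul_zero]

theorem TaskB.abs_nrm_le {W : V} (hE : E ∈ SM) (hW : Hyp W) :
    ‖br (nrm E) W‖ ≤ (br (mid E) W).re := by
  have hm := SM.mid hE
  have hn := (SM.nrm hE).1
  obtain ⟨h1, h2, h3⟩ := hE
  have h4 := congrArg (fun Y => br Y W) (frame_decomp h1.2.2 h2.2.2 h3 W)
  simp only [br_sub_left, br_add_left, br_smul_left, hW.2.2, br_comm W] at h4
  have e1 : br (nrm E) W = 1 / 2 * br (cross E.2 E.1) W := br_smul_left _ _ _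
  have e2 : br (mid E) W = 1 / 2 * (br E.1 W + br E.2 W) := by
    rw [mid, br_smul_left, br_add_left]
  have h5 : br (nrm E) W ^ 2 + 1 = br E.1 W * br E.2 W := by
    rw [e1]; linear_combination h4
  rw [br_eq_ofReal hn hW.1, br_eq_ofReal h1.1 hW.1, br_eq_ofReal h2.1 hW.1] at h5
  rw [br_eq_ofReal h1.1 hW.1, br_eq_ofReal h2.1 hW.1, br_eq_ofReal hm.1 hW.1] at e2
  have h6 : (br (nrm E) W).re ^ 2 + 1 = (br E.1 W).re * (br E.2 W).re := by exact_mod_cast h5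
  have h7 : (br (mid E) W).re = 1 / 2 * ((br E.1 W).re + (br E.2 W).re) := by
    apply ofReal_injective
    push_cast
    exact e2
  have h8 := hm.one_le_br hW
  rw [br_eq_ofReal hn hW.1, norm_real, Real.norm_eq_abs]
  refine abs_le_of_sq_le_sq' ?_ (by linarith) |> abs_le.2
  rw [h7]
  nlinarith [sq_nonneg ((br E.1 W).re - (br E.2 W).re)]

theorem Famy.abs_fF_le (h : Famy Wf Cb) (hE : E ∈ SM) : ‖fF Wf (mid E) (nrm E)‖ ≤ 2 * Cb := by
  have hm := SM.mid hE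
  refine (tsum_of_norm_bounded ((h.2 _ hm).1.hasSum.mul_left 2) fun i => ?_).trans ?_
  · have h1 := TaskB.abs_nrm_le hE (h.1 i)
    have h2 := hm.one_le_br (h.1 i)
    have h3 : 0 < (br (mid E) (Wf i)).re := by linarith
    have h4 : ‖br (mid E) (Wf i)‖ = (br (mid E) (Wf i)).re := by
      rw [br_eq_ofReal hm.1 (h.1 i).1, norm_real, ofReal_re, Real.norm_of_nonneg h3.le]
    rw [norm_mul, norm_mul, norm_pow, norm_neg, Complex.norm_two, norm_inv, h4]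
    calc _ ≤ 2 * (br (mid E) (Wf i)).re * ((br (mid E) (Wf i)).re)⁻¹ ^ 3 := by gcongr
      _ = _ := by field_simp
  · linarith [(h.2 _ hm).2]

theorem Famy.comp {A : V →L[ℂ] V} (h : Famy Wf Cb) (hA : Iso A) (hs : Function.Surjective A) :
    Famy (fun i => A (Wf i)) Cb := by
  refine ⟨fun i => hA.hyp (h.1 i), fun Z hZ => ?_⟩
  obtain ⟨Y, rfl⟩ := hs Z
  have h1 : ∀ W, IsRe W → (br Y W).im = 0 := fun W hW => by
    rw [← hA.br_eq]; exact br_im hZ.1 (hA.isRe W hW)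
  have h2 := h1 oo hyp_oo.1
  have h3 := h1 (0, 1, 1) ⟨by simp, by simp⟩
  have h4 := h1 (0, I, -I) ⟨by simp, by simp⟩
  have h5 := hZ.one_le_br (hA.hyp hyp_oo)
  rw [hA.br_eq, br_oo_right] at h5
  rw [br_oo_right] at h2
  simp [br] at h3 h4
  have hY : Hyp Y := by
    refine ⟨⟨h2, Complex.ext ?_ ?_⟩, by linarith, by rw [← hA.br_eq]; exact hZ.2.2⟩
    · rw [conj_re]; linarith
    · rw [conj_im]; linarith
  simpa only [hA.br_eq] using h.2 Y hY
theorem bF_iso {A : V →L[ℂ] V} (hA : Iso A) (Wf : ι → V) (Z : V) :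
    bF (fun i => A (Wf i)) (A Z) = bF Wf Z := by
  simp only [bF, hA.br_eq]
theorem fF_iso {A : V →L[ℂ] V} (hA : Iso A) (Wf : ι → V) (Z n : V) :
    fF (fun i => A (Wf i)) (A Z) (A n) = fF Wf Z n := by
  simp only [fF, hA.br_eq]
theorem SM.act2 {A : V →L[ℂ] V} (hA : Iso A) (h : E ∈ SM) : act2 A E ∈ SM :=
  ⟨hA.nul h.1, hA.nul h.2.1, (hA.br_eq _ _).trans h.2.2⟩
theorem VF_iso {A : V →L[ℂ] V} (hA : Iso A) {e : ℂ} (he : e ^ 2 = 1)
    (hc : ∀ X Y, cross (A X) (A Y) = e • A (cross X Y)) (Wf : ι → V) (ε : ℝ) (E : V × V) :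
    VF (fun i => A (Wf i)) ε (act2 A E) = act2 A (VF Wf ε E) := by
  have e1 : mid (act2 A E) = A (mid E) := by simp only [mid, act2, map_smul, map_add]
  have e2 : nrm (act2 A E) = e • A (nrm E) := by
    simp only [nrm, act2, hc, map_smul]
    rw [smul_comm]
  have e3 : (ε * (e * fF Wf (mid E) (nrm E))) • e • A (nrm E) =
      (ε * fF Wf (mid E) (nrm E)) • A (nrm E) := by
    rw [smul_smul]
    congr 1
    linear_combination ε * fF Wf (mid E) (nrm E) * he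
  rw [VF, e1, e2, bF_iso hA, fF_smul, fF_iso hA, e3]
  simp only [VF, act2, Prod.smul_mk, map_smul, map_add, map_sub, map_neg]

theorem TaskB.bF_equiv (Wf : ι → V) (e : ι ≃ ι) : bF (fun i => Wf (e i)) = bF Wf :=
  funext fun Z => e.tsum_eq fun i => (br Z (Wf i))⁻¹ ^ 2

theorem TaskB.fF_equiv (Wf : ι → V) (e : ι ≃ ι) : fF (fun i => Wf (e i)) = fF Wf :=
  funext fun Z => funext fun n => e.tsum_eq fun i => -2 * br n (Wf i) * (br Z (Wf i))⁻¹ ^ 3

variable {G : ℕ} [hG : Fact (2 ≤ G)]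

/-- The orbit of `w` under the surface group, seen from the chamber `g`. -/
noncomputable def fam (g : W G) (w : V) : Gam G → V := fun γ => lin (g⁻¹ * (γ : W G)) w

theorem exists_famy : ∃ Cb : ℝ, ∀ (g : W G) (w : V), Hyp w → Famy (fam g w) Cb := by
  obtain ⟨C, hC⟩ := lattice_bound (G := G)
  refine ⟨C, fun g w hw => ⟨fun γ => (iso_lin _).hyp hw, fun Z hZ => ?_⟩⟩
  have hi : Function.Injective fun γ : Gam G => g⁻¹ * (γ : W G) :=
    fun a b h => Subtype.ext (mul_left_cancel h)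
  obtain ⟨h1, h2⟩ := hC Z w hZ hw
  exact ⟨h1.comp_injective hi,
    (tsum_comp_le_tsum_of_inj h1 (fun _ => sq_nonneg _) hi).trans h2⟩

theorem TaskB.fam_mul (g h : W G) (w : V) : fam g w = fun γ => lin h (fam (g * h) w γ) := by
  funext γ
  rw [fam, fam, ← lin_mul, mul_inv_rev, ← mul_assoc, ← mul_assoc, mul_inv_cancel, one_mul]

theorem TaskB.fam_congr {g g' : W G} (h : cl g = cl g') (w : V) :
    ∃ e : Gam G ≃ Gam G, fam g w = fun γ => fam g' w (e γ) := by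
  have hm : g' * g⁻¹ ∈ Gam G := by rw [mem_Gam, cl_mul, cl_inv, h, Hom.q_add_self]
  refine ⟨Equiv.mulLeft ⟨_, hm⟩, funext fun γ => ?_⟩
  simp only [fam, Equiv.coe_mulLeft, Subgroup.coe_mul]
  rw [← mul_assoc, ← mul_assoc, inv_mul_cancel, one_mul]

theorem bF_fam (g h : W G) (w Z : V) : bF (fam (g * h) w) Z = bF (fam g w) (lin h Z) := by
  rw [TaskB.fam_mul g h w, bF_iso (iso_lin h)]
theorem bF_fam_congr {g g' : W G} (h : cl g = cl g') (w : V) : bF (fam g w) = bF (fam g' w) := by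
  obtain ⟨e, he⟩ := TaskB.fam_congr h w
  rw [he, TaskB.bF_equiv]
theorem VF_fam (g h : W G) (w : V) (ε : ℝ) (E : V × V) :
    act2 (lin h) (VF (fam (g * h) w) ε E) = VF (fam g w) ε (act2 (lin h) E) := by
  obtain ⟨e, he, hc⟩ := cross_lin h
  rw [TaskB.fam_mul g h w, VF_iso (iso_lin h) he hc]
theorem VF_fam_congr {g g' : W G} (h : cl g = cl g') (w : V) (ε : ℝ) :
    VF (fam g w) ε = VF (fam g' w) ε := by
  obtain ⟨e, he⟩ := TaskB.fam_congr h w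
  funext E
  rw [he, VF, VF, TaskB.bF_equiv, TaskB.fF_equiv]
theorem bF_fam_inv {γ : W G} (hγ : γ ∈ Gam G) (w Z : V) :
    bF (fam (1 : W G) w) (lin γ Z) = bF (fam (1 : W G) w) Z := by
  rw [← bF_fam, bF_fam_congr (g' := 1) (by rw [one_mul, cl_one]; exact mem_Gam.1 hγ)]
theorem MG.lin {γ : W G} (hγ : γ ∈ Gam G) {w : V} {ε : ℝ} {E : ℝ → V × V}
    (h : MG (fam (1 : W G) w) ε E) : MG (fam (1 : W G) w) ε fun t => act2 (lin γ) (E t) := by
  intro t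
  refine ⟨SM.act2 (iso_lin γ) (h t).1, ?_⟩
  rw [← VF_fam, VF_fam_congr (g' := 1) (by rw [one_mul, cl_one]; exact mem_Gam.1 hγ)]
  exact (((MP_de7bb2_an.lin γ).prodMap (MP_de7bb2_an.lin γ)).restrictScalars ℝ).hasFDerivAt
    |>.comp_hasDerivAt t (h t).2
omit hG in
theorem MG.shift {ε : ℝ} {E : ℝ → V × V} (h : MG Wf ε E) (a : ℝ) :
    MG Wf ε fun t => E (t + a) :=
  fun t => ⟨(h (t + a)).1, (h (t + a)).2.comp_add_const t a⟩
omit hG in
theorem MG.ext {ε : ℝ} {E E' : ℝ → V × V} (h : MG Wf ε E) (h' : MG Wf ε E')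
    (he : ∀ t, mid (E t) = mid (E' t)) : E = E' := by
  have hd : ∀ {F : ℝ → V × V}, MG Wf ε F → ∀ t, HasDerivAt (fun t => mid (F t))
      ((1 / 2 * exp (-ε * bF Wf (mid (F t)))) • ((F t).1 - (F t).2)) t := by
    intro F hF t
    have h1 := ((ContinuousLinearMap.fst ℝ V V).hasFDerivAt.comp_hasDerivAt t (hF t).2).add
      ((ContinuousLinearMap.snd ℝ V V).hasFDerivAt.comp_hasDerivAt t (hF t).2)
    refine (h1.const_smul (1 / 2 : ℂ)).congr_deriv ?_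
    simp only [VF, ContinuousLinearMap.coe_fst', ContinuousLinearMap.coe_snd', Prod.smul_mk]
    rw [← smul_add, smul_smul]
    congr 1
    abel
  funext t
  have h1 := hd h t
  have h2 := hd h' t
  rw [funext he, he t] at h1
  have h3 := smul_right_injective V (mul_ne_zero (by norm_num) (exp_ne_zero _)) (h1.unique h2)
  have h4 := smul_right_injective V (by norm_num : (1 / 2 : ℂ) ≠ 0) (he t)
  have h5 : (2 : ℂ) • (E t).1 = (2 : ℂ) • (E' t).1 := by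
    linear_combination (norm := module) h3 + h4
  have h6 : (2 : ℂ) • (E t).2 = (2 : ℂ) • (E' t).2 := by
    linear_combination (norm := module) h4 - h3
  exact Prod.ext (smul_right_injective V two_ne_zero h5) (smul_right_injective V two_ne_zero h6)

end Pool.Agent.Lib.MP_de7bb2_an
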