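import Pool.Agent.Lib.MP_de7bb2_an.H20Stokes
import Pool.Agent.Lib.MP_de7bb2_an.H20Circ

/-! A radial averaging operator and its eigenvalues. TASK KTH. -/

namespace Pool.Agent.Lib.MP_de7bb2_an

open Metric Set Complex ComplexConjugate MeasureTheory

noncomputable def kk (T : ℝ) (z w : ℂ) : ℝ := max 0 (T - pd z w)

noncomputable def Kop (T : ℝ) (φ : ℂ → ℂ) (z : ℂ) : ℂ := hI fun w => kk T z w * φ w

noncomputable def khat (T : ℝ) (s : ℂ) : ℂ := Kop T (fun w => br (xi 1) (zv w) ^ (-s)) 0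

namespace Kth

open Filter Topology

variable {T r : ℝ} {z w : ℂ} {φ ψ : ℂ → ℂ}

theorem one_sub_pos (hz : z ∈ ball (0 : ℂ) 1) : 0 < 1 - ‖z‖ ^ 2 := by
  have := mem_ball_zero_iff.1 hz
  nlinarith [norm_nonneg z]

theorem dens_pos (hz : z ∈ ball (0 : ℂ) 1) : 0 < dens z := by
  have := one_sub_pos hz
  unfold dens
  positivity

theorem cont_dens : ContinuousOn dens (ball 0 1) :=
  continuousOn_const.div (by fun_prop) fun _ hz => (pow_pos (one_sub_pos hz) 2).ne'

theorem kk_nonneg (T : ℝ) (z w : ℂ) : 0 ≤ kk T z w := le_max_left _ _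

theorem kk_comm (T : ℝ) (z w : ℂ) : kk T z w = kk T w z := by rw [kk, kk, pd_comm]

theorem kk_eq_zero (h : T < pd z w) : kk T z w = 0 := max_eq_left (by linarith)

theorem cont_kk (T : ℝ) : ContinuousOn (fun p : ℂ × ℂ => kk T p.1 p.2) (ball 0 1 ×ˢ ball 0 1) :=
  continuousOn_const.sup (continuousOn_const.sub continuousOn_pd)

/-- The density of the averaging measure. -/
noncomputable def wt (T : ℝ) (z w : ℂ) : ℝ := dens w * kk T z w

theorem wt_nonneg (T : ℝ) (z : ℂ) (hw : w ∈ ball (0 : ℂ) 1) : 0 ≤ wt T z w :=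
  mul_nonneg (dens_pos hw).le (kk_nonneg _ _ _)

theorem cont_wt (T : ℝ) : ContinuousOn (fun p : ℂ × ℂ => wt T p.1 p.2) (ball 0 1 ×ˢ ball 0 1) :=
  (cont_dens.comp continuousOn_snd fun _ hp => hp.2).mul (cont_kk T)

theorem cont_wt' (T : ℝ) (hz : z ∈ ball (0 : ℂ) 1) : ContinuousOn (wt T z) (ball 0 1) :=
  (cont_wt T).comp (f := fun w => (z, w)) (by fun_prop) fun _ hw => ⟨hz, hw⟩

theorem sub_ball (hr : r < 1) : closedBall (0 : ℂ) r ⊆ ball 0 1 := closedBall_subset_ball hr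

theorem Kop_eq (hr : r < 1) (T : ℝ) : ∃ r' < 1, r ≤ r' ∧ ∀ z : ℂ, ‖z‖ ≤ r → ∀ φ : ℂ → ℂ,
    Kop T φ z = ∫ w in closedBall (0 : ℂ) r', (wt T z w : ℂ) * φ w := by
  obtain ⟨r', h1, h2, h3⟩ := exists_pd_le hr T
  refine ⟨r', h1, h2, fun z hz φ => ?_⟩
  rw [Kop, hI_eq_closedBall h1 fun w hw h => by
    rw [kk_eq_zero (not_le.1 fun e => (h3 z w hz hw e).not_gt h), ofReal_zero, zero_mul]]
  simp only [wt, ofReal_mul, mul_assoc]

theorem intOn (hr : r < 1) (hφ : ContinuousOn φ (ball 0 1)) :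
    IntegrableOn φ (closedBall (0 : ℂ) r) :=
  (hφ.mono (sub_ball hr)).integrableOn_compact (isCompact_closedBall _ _)

theorem intOn_wt (hr : r < 1) (hz : z ∈ ball (0 : ℂ) 1) (hφ : ContinuousOn φ (ball 0 1)) :
    IntegrableOn (fun w => (wt T z w : ℂ) * φ w) (closedBall (0 : ℂ) r) :=
  intOn hr ((continuous_ofReal.comp_continuousOn (cont_wt' T hz)).mul hφ)

theorem hI_mul (f : ℂ → ℂ) (c : ℂ) : hI (fun w => c * f w) = c * hI f := by
  simp only [hI, ← integral_const_mul, mul_left_comm]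

theorem Kop_mul (c : ℂ) (φ : ℂ → ℂ) (z : ℂ) : Kop T (fun w => c * φ w) z = c * Kop T φ z := by
  simp only [Kop, ← hI_mul, mul_left_comm]

theorem Kop_add (hz : z ∈ ball (0 : ℂ) 1) (hφ : ContinuousOn φ (ball 0 1))
    (hψ : ContinuousOn ψ (ball 0 1)) :
    Kop T (fun w => φ w + ψ w) z = Kop T φ z + Kop T ψ z := by
  obtain ⟨r', h1, -, h3⟩ := Kop_eq (mem_ball_zero_iff.1 hz) T
  simp only [h3 z le_rfl, mul_add]
  exact integral_add (intOn_wt h1 hz hφ) (intOn_wt h1 hz hψ)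

theorem Kop_congr (h : ∀ w ∈ ball (0 : ℂ) 1, φ w = ψ w) (z : ℂ) : Kop T φ z = Kop T ψ z :=
  hI_congr fun w hw => by rw [h w hw]

theorem int_prod {α : Type*} [TopologicalSpace α] [T2Space α] [MeasurableSpace α] [BorelSpace α]
    [SecondCountableTopology α] {μ : Measure α} [SFinite μ] [IsFiniteMeasureOnCompacts μ]
    {K : Set α} (hK : IsCompact K) {f : α × ℂ → ℂ} (hf : ContinuousOn f (K ×ˢ closedBall 0 r)) :
    Integrable f ((μ.restrict K).prod (volume.restrict (closedBall 0 r))) := by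
  rw [Measure.prod_restrict]
  exact hf.integrableOn_compact (hK.prod (isCompact_closedBall _ _))

theorem intOn_Kop (hr : r < 1) (hφ : ContinuousOn φ (ball 0 1)) (hψ : ContinuousOn ψ (ball 0 1)) :
    IntegrableOn (fun z => ψ z * Kop T φ z) (closedBall (0 : ℂ) r) := by
  obtain ⟨r', h1, -, h3⟩ := Kop_eq hr T
  have h := (int_prod (μ := volume) (isCompact_closedBall (0 : ℂ) r)
    (f := fun p => ψ p.1 * ((wt T p.1 p.2 : ℂ) * φ p.2))
    (((hψ.comp continuousOn_fst fun _ hp => hp.1).mul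
      ((continuous_ofReal.comp_continuousOn (cont_wt T)).mul
        (hφ.comp continuousOn_snd fun _ hp => hp.2))).mono
      (prod_mono (sub_ball hr) (sub_ball h1)))).integral_prod_left
  refine IntegrableOn.congr_fun h (fun z hz => ?_) measurableSet_closedBall
  simp only [integral_const_mul, h3 z (mem_closedBall_zero_iff.1 hz)]

theorem int_pos {f : ℂ → ℝ} (hc : ContinuousOn f (closedBall 0 r))
    (h0 : ∀ z ∈ closedBall (0 : ℂ) r, 0 ≤ f z) (hz : z ∈ ball (0 : ℂ) r) (h : f z ≠ 0) :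
    0 < ∫ z in closedBall (0 : ℂ) r, f z := by
  have hn : closedBall (0 : ℂ) r ∈ 𝓝 z := mem_of_superset (isOpen_ball.mem_nhds hz)
    ball_subset_closedBall
  rw [setIntegral_pos_iff_support_of_nonneg_ae
    ((ae_restrict_iff' measurableSet_closedBall).2 (ae_of_all _ h0))
    (hc.integrableOn_compact (isCompact_closedBall _ _))]
  exact Measure.measure_pos_of_mem_nhds _ (inter_mem ((hc.continuousAt hn).eventually_ne h) hn)

theorem br_pos {E : V} (hE : Nul E) (hw : w ∈ ball (0 : ℂ) 1) : 0 < (br E (zv w)).re := by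
  have h1 := (hyp_zv hw).2.1
  have h2 := hE.2.1
  rw [br_comm]
  exact lt_of_lt_of_le (by positivity) ((hyp_zv hw).le_br hE.fut)

theorem br_real {E : V} (hE : Nul E) (hw : w ∈ ball (0 : ℂ) 1) :
    br E (zv w) = ((br E (zv w)).re : ℂ) := br_eq_ofReal hE.1 (hyp_zv hw).1

theorem br_ne {E : V} (hE : Nul E) (hw : w ∈ ball (0 : ℂ) 1) : br E (zv w) ≠ 0 := fun e =>
  (br_pos hE hw).ne' (by rw [e, zero_re])

/-- The logarithm of the inverse Poisson kernel. -/
noncomputable def lg (w : ℂ) : ℝ := Real.log (br (xi 1) (zv w)).re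

theorem cont_lg : ContinuousOn lg (ball 0 1) :=
  (continuous_re.comp_continuousOn (ContinuousOn.br continuousOn_const continuousOn_zv)).log fun _ hw =>
    (br_pos (nul_xi norm_one) hw).ne'

theorem khat_eq (T : ℝ) : ∃ r' < 1, 1 / 2 ≤ r' ∧ ∀ s : ℂ,
    khat T s = ∫ w in closedBall (0 : ℂ) r', (wt T 0 w : ℂ) * exp (-s * lg w) := by
  obtain ⟨r', h1, h2, h3⟩ := Kop_eq (r := 1 / 2) (by norm_num) T
  refine ⟨r', h1, h2, fun s => ?_⟩
  rw [← h3 0 (by simp)]
  refine Kop_congr (fun w hw => ?_) 0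
  have := br_pos (nul_xi norm_one) hw
  rw [br_real (nul_xi norm_one) hw, cpow_def_of_ne_zero (ofReal_ne_zero.2 this.ne'), lg,
    ofReal_log this.le, mul_comm]

theorem hasDerivAt_int {K : Set ℂ} (hK : IsCompact K) {g L : ℂ → ℂ} (hg : ContinuousOn g K)
    (hL : ContinuousOn L K) (s : ℂ) : HasDerivAt (fun s => ∫ w in K, g w * exp (-s * L w))
      (∫ w in K, g w * (exp (-s * L w) * -L w)) s := by
  have h1 : ∀ x : ℂ, ContinuousOn (fun w => g w * exp (-x * L w)) K := fun x => by fun_prop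
  have h2 : ContinuousOn (fun w => g w * (exp (-s * L w) * -L w)) K := by fun_prop
  have hg' : ContinuousOn (fun p : ℂ × ℂ => g p.2) (closedBall s 1 ×ˢ K) :=
    hg.comp continuousOn_snd fun _ hp => hp.2
  have hL' : ContinuousOn (fun p : ℂ × ℂ => L p.2) (closedBall s 1 ×ˢ K) :=
    hL.comp continuousOn_snd fun _ hp => hp.2
  obtain ⟨C, hC⟩ := ((isCompact_closedBall s 1).prod hK).exists_bound_of_continuousOn
    (hg'.mul (((continuousOn_fst.neg.mul hL').cexp).mul hL'.neg))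
  refine (hasDerivAt_integral_of_dominated_loc_of_deriv_le (closedBall_mem_nhds s one_pos)
    (F' := fun x w => g w * (exp (-x * L w) * -L w)) (bound := fun _ => C)
    (Eventually.of_forall fun x => (h1 x).aestronglyMeasurable hK.measurableSet)
    ((h1 s).integrableOn_compact hK) (h2.aestronglyMeasurable hK.measurableSet)
    ((ae_restrict_iff' hK.measurableSet).2 (ae_of_all _ fun w hw x hx => hC (x, w) ⟨hx, hw⟩))
    (continuousOn_const.integrableOn_compact hK) (ae_of_all _ fun w x _ => ?_)).2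
  simpa using (((hasDerivAt_id x).neg.mul_const (L w)).cexp).const_mul (g w)

theorem hasDerivAt_khat (T : ℝ) : ∃ r' < 1, 1 / 2 ≤ r' ∧
    (∀ s : ℂ, khat T s = ∫ w in closedBall (0 : ℂ) r', (wt T 0 w : ℂ) * exp (-s * lg w)) ∧
    ∀ s : ℂ, HasDerivAt (khat T)
      (∫ w in closedBall (0 : ℂ) r', (wt T 0 w : ℂ) * (exp (-s * lg w) * -(lg w : ℂ))) s := by
  obtain ⟨r', h1, h2, h3⟩ := khat_eq T
  refine ⟨r', h1, h2, h3, fun s => ?_⟩
  rw [funext h3]
  exact hasDerivAt_int (isCompact_closedBall _ _)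
    ((continuous_ofReal.comp_continuousOn (cont_wt' T (mem_ball_self one_pos))).mono (sub_ball h1))
    ((continuous_ofReal.comp_continuousOn cont_lg).mono (sub_ball h1)) s

theorem pd_self (hz : z ∈ ball (0 : ℂ) 1) : pd z z = 1 := by rw [pd, (hyp_zv hz).2.2, one_re]

end Kth

open Kth

theorem differentiable_khat (T : ℝ) : Differentiable ℂ (khat T) := fun s =>
  let ⟨_, _, _, _, h⟩ := hasDerivAt_khat T
  (h s).differentiableAt

theorem Kop_eigen (T : ℝ) (s : ℂ) {E : V} (hE : Nul E) {z : ℂ} (hz : z ∈ ball (0 : ℂ) 1) :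
    Kop T (fun w => br E (zv w) ^ (-s)) z = khat T s * br E (zv z) ^ (-s) := by
  obtain ⟨a, b, hab, h1, h2⟩ := exists_sym (hyp_zv hz) hE
  have hI' := (iso_sym (Or.inl hab)).br_eq
  rw [Kop, ← hI_moebius hab, mul_comm, khat, Kop, ← hI_mul]
  refine hI_congr fun w hw => ?_
  have h3 := (sym_zv hab hw).2.2
  have h4 := hI' (xi 1) (zv w)
  rw [h2, br_smul_left, inv_mul_eq_iff_eq_mul₀ (br_ne hE hz)] at h4
  rw [kk, kk, pd, pd, ← h3, h4, ← h1, hI', zv_zero, h1, br_real hE hz,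
    br_real (nul_xi norm_one) hw,
    mul_cpow_ofReal_nonneg (br_pos hE hz).le (br_pos (nul_xi norm_one) hw).le, mul_left_comm]

theorem Kop_one (T : ℝ) {z : ℂ} (hz : z ∈ ball (0 : ℂ) 1) : Kop T (fun _ => 1) z = khat T 0 := by
  simpa using Kop_eigen T 0 (nul_xi norm_one) hz

theorem khat_one (T : ℝ) : khat T 1 = khat T 0 := by
  obtain ⟨r', h1, -, h3⟩ := Kop_eq zero_lt_one T
  have h0 : (0 : ℂ) ∈ ball (0 : ℂ) 1 := mem_ball_self one_pos
  have hn : ∀ t : ℝ, Nul (xi (exp (t * I))) := fun t => nul_xi (norm_exp_ofReal_mul_I t)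
  have h4 : ∀ t : ℝ, ∫ w in closedBall (0 : ℂ) r',
      (wt T 0 w : ℂ) * (br (xi (exp (t * I))) (zv w))⁻¹ = khat T 1 := fun t => by
    have := Kop_eigen T 1 (hn t) h0
    rw [h3 0 (by simp), zv_zero, br_oo_right] at this
    simpa [xi, cpow_neg_one] using this
  have hx : Continuous fun t : ℝ => xi (exp (t * I)) :=
    continuous_const.prodMk ((by fun_prop : Continuous fun t : ℝ => exp (t * I)).prodMk
      ((by fun_prop : Continuous fun t : ℝ => exp (t * I)).inv₀ fun _ => exp_ne_zero _))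
  have h5 := intervalIntegral_integral_swap (a := 0) (b := 2 * Real.pi)
    (μ := volume.restrict (closedBall (0 : ℂ) r'))
    (f := fun t w => (wt T 0 w : ℂ) * (br (xi (exp (t * I))) (zv w))⁻¹)
    ((int_prod (μ := volume) (isCompact_uIcc (a := 0) (b := 2 * Real.pi))
      ((((continuous_ofReal.comp_continuousOn (cont_wt' T h0)).comp continuousOn_snd
        fun _ hp => sub_ball h1 hp.2)).mul ((ContinuousOn.br (hx.comp continuous_fst).continuousOn
          (continuousOn_zv.comp continuousOn_snd fun _ hp => sub_ball h1 hp.2)).inv₀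
            fun p hp => br_ne (hn p.1) (sub_ball h1 hp.2)))).mono_measure
      (Measure.prod_mono (Measure.restrict_mono uIoc_subset_uIcc le_rfl) le_rfl))
  rw [setIntegral_congr_fun (g := fun w => (2 * Real.pi : ℂ) * ((wt T 0 w : ℂ) * 1))
    measurableSet_closedBall fun w hw => by
      have := cI_poisson (hyp_zv (sub_ball h1 hw))
      simp only [cI] at this
      simp only [intervalIntegral.integral_const_mul, this]
      ring, integral_const_mul, ← h3 0 (by simp), Kop_one T h0] at h5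
  simp only [h4, intervalIntegral.integral_const, sub_zero, real_smul, ofReal_mul,
    ofReal_ofNat] at h5
  exact mul_left_cancel₀ (by simp) h5

theorem khat_zero_pos {T : ℝ} (hT : 1 < T) : ∃ k : ℝ, 0 < k ∧ khat T 0 = k := by
  obtain ⟨r', h1, h2, h3⟩ := khat_eq T
  have h0 : (0 : ℂ) ∈ ball (0 : ℂ) 1 := mem_ball_self one_pos
  refine ⟨∫ w in closedBall (0 : ℂ) r', wt T 0 w, int_pos ((cont_wt' T h0).mono (sub_ball h1))
    (fun w hw => wt_nonneg T 0 (sub_ball h1 hw)) (mem_ball_self (by linarith))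
    (mul_pos (dens_pos h0) (lt_max_of_lt_right (by rw [pd_self h0]; linarith))).ne', ?_⟩
  simp [h3, integral_complex_ofReal]

theorem deriv_khat_one {T : ℝ} (hT : 1 < T) : ∃ k : ℝ, 0 < k ∧ deriv (khat T) 1 = k := by
  obtain ⟨r', h1, h2, h3, h4⟩ := hasDerivAt_khat T
  have h0 : (0 : ℂ) ∈ ball (0 : ℂ) 1 := mem_ball_self one_pos
  have hw := (cont_wt' T h0).mono (sub_ball h1)
  have hl := cont_lg.mono (sub_ball h1)
  have key : ∀ L : ℝ, 1 - Real.exp (-L) + Real.exp (-L) * -L =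
      Real.exp (-L) * (Real.exp L - (L + 1)) := fun L => by
    rw [mul_sub, ← Real.exp_add, neg_add_cancel, Real.exp_zero]
    ring
  obtain ⟨x, hx1, hx2, hx3⟩ : ∃ x : ℝ, pd 0 x < T ∧ x < 1 / 2 ∧ 0 < x := by
    have hc : ContinuousAt (fun x : ℝ => pd 0 x) 0 :=
      (continuousOn_pd.continuousAt ((isOpen_ball.prod isOpen_ball).mem_nhds
        (mk_mem_prod h0 h0))).comp_of_eq (f := fun x : ℝ => ((0 : ℂ), (x : ℂ))) (by fun_prop)
          (by simp)
    have h5 := hc.eventually_lt continuousAt_const (by simpa [pd_self h0] using hT)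
    exact ((h5.filter_mono nhdsWithin_le_nhds).and
      (((eventually_lt_nhds one_half_pos).filter_mono nhdsWithin_le_nhds).and
        (self_mem_nhdsWithin (s := Ioi 0)))).exists
  have hx4 : (x : ℂ) ∈ ball (0 : ℂ) r' := by
    rw [mem_ball_zero_iff, norm_real, Real.norm_of_nonneg hx3.le]
    linarith
  have hx5 := sub_ball h1 (ball_subset_closedBall hx4)
  have hx6 : lg x ≠ 0 := by
    refine Real.log_ne_zero_of_pos_of_ne_one (br_pos (nul_xi norm_one) hx5) ?_
    have h6 : 0 < 1 - x ^ 2 := by nlinarith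
    rw [br_xi_zv one_ne_zero hx5, conj_ofReal, norm_real, Real.norm_of_nonneg hx3.le, mul_one,
      one_mul, ← ofReal_one, ← ofReal_sub, ← ofReal_mul, ← ofReal_div, ofReal_re, Ne,
      div_eq_one_iff_eq h6.ne']
    nlinarith
  refine ⟨∫ w in closedBall (0 : ℂ) r',
    wt T 0 w * (1 - Real.exp (-lg w) + Real.exp (-lg w) * -lg w), int_pos (by fun_prop)
      (fun w hw => mul_nonneg (wt_nonneg T 0 (sub_ball h1 hw)) ?_) hx4 ?_, ?_⟩
  · rw [key]
    exact mul_nonneg (Real.exp_pos _).le (sub_nonneg.2 (Real.add_one_le_exp _))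
  · rw [key]
    exact (mul_pos (mul_pos (dens_pos hx5) (lt_max_of_lt_right (sub_pos.2 hx1)))
      (mul_pos (Real.exp_pos _) (sub_pos.2 (Real.add_one_lt_exp hx6)))).ne'
  · have hK := isCompact_closedBall (0 : ℂ) r'
    have h5 := khat_one T
    rw [h3, h3, eq_comm, ← sub_eq_zero, ← integral_sub
      (ContinuousOn.integrableOn_compact hK (by fun_prop))
      (ContinuousOn.integrableOn_compact hK (by fun_prop))] at h5
    refine (h4 1).deriv.trans ((zero_add _).symm.trans ((congrArg (· + _) h5.symm).trans ?_))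
    rw [← integral_add
      (ContinuousOn.integrableOn_compact hK (by fun_prop))
      (ContinuousOn.integrableOn_compact hK (by fun_prop)), ← integral_complex_ofReal]
    congr 1
    funext w
    simp only [neg_zero, zero_mul, Complex.exp_zero, neg_mul, one_mul]
    push_cast
    ring

variable {G : ℕ} {S : Surface G}

/-- Continuous equivariant eigenfunctions of the averaging operator. -/
def Eig (S : Surface G) (T : ℝ) (θ : S.Γ → ℂ) (κ : ℂ) (φ : ℂ → ℂ) : Prop :=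
  ContinuousOn φ (ball 0 1) ∧ (∀ γ, ∀ z ∈ ball (0 : ℂ) 1, φ (S.act γ z) = exp (θ γ) * φ z) ∧
    ∀ z ∈ ball (0 : ℂ) 1, Kop T φ z = κ * φ z

namespace Kth

variable {T r : ℝ} {z w : ℂ} {φ ψ : ℂ → ℂ}

theorem hI_chi (P : Part S) (f : ℂ → ℂ) : hI (fun z => P.χ z * f z) =
    ∫ z in closedBall (0 : ℂ) P.r, ((P.χ z : ℂ) * dens z) * f z := by
  rw [P.hI_eq, P.pI_eq]
  simp only [mul_assoc]

theorem cont_chi (P : Part S) : ContinuousOn (fun z => (P.χ z : ℂ) * dens z) (ball 0 1) :=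
  (continuous_ofReal.comp P.smooth.continuous).continuousOn.mul
    (continuous_ofReal.comp_continuousOn cont_dens)

theorem swap' (P : Part S) (T : ℝ) {F : ℂ → ℂ → ℂ}
    (hc : ContinuousOn (fun p : ℂ × ℂ => F p.1 p.2) (ball 0 1 ×ˢ ball 0 1))
    (hinv : ∀ γ, ∀ z ∈ ball (0 : ℂ) 1, ∀ w ∈ ball (0 : ℂ) 1, F (S.act γ z) (S.act γ w) = F z w) :
    hI (fun z => P.χ z * Kop T (F z) z) = hI fun w => P.χ w * Kop T (fun z => F z w) w := by
  have := P.swap (H := fun z w => kk T z w * F z w) (T := T)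
    ((continuous_ofReal.comp_continuousOn (cont_kk T)).mul hc)
    (fun γ z hz w hw => by rw [hinv γ z hz w hw, kk, kk, S.pd_act γ hz hw])
    fun z _ w _ h => by rw [kk_eq_zero h, ofReal_zero, zero_mul]
  refine this.trans ?_
  simp only [Kop, kk_comm T _ _]

theorem Kop_const (hz : z ∈ ball (0 : ℂ) 1) (c : ℂ) : Kop T (fun _ => c) z = c * khat T 0 := by
  rw [← Kop_one T hz, ← Kop_mul]
  simp only [mul_one]

/-- The averaging measure dominates the area measure of a small ball. -/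
theorem low (hr : r < 1) {r' : ℝ} (hr' : r' < 1) (hrr : r ≤ r')
    (hK : ∀ φ : ℂ → ℂ, Kop T φ z = ∫ w in closedBall (0 : ℂ) r', (wt T z w : ℂ) * φ w)
    (hz : z ∈ ball (0 : ℂ) 1) (h1 : ∀ w ∈ closedBall (0 : ℂ) r, 1 ≤ kk T z w)
    (hφ : ContinuousOn φ (ball 0 1)) (h0 : ∀ w ∈ closedBall (0 : ℂ) r', 0 ≤ (φ w).re) :
    ∫ w in closedBall (0 : ℂ) r, dens w * (φ w).re ≤ (Kop T φ z).re := by
  have hsub : closedBall (0 : ℂ) r ⊆ closedBall 0 r' := closedBall_subset_closedBall hrr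
  have hre : ContinuousOn (fun w => (φ w).re) (ball 0 1) := continuous_re.comp_continuousOn hφ
  have hi : IntegrableOn (fun w => wt T z w * (φ w).re) (closedBall (0 : ℂ) r') :=
    (((cont_wt' T hz).mul hre).mono (sub_ball hr')).integrableOn_compact (isCompact_closedBall _ _)
  have e := integral_re (intOn_wt (T := T) hr' hz hφ)
  simp only [RCLike.re_to_complex, re_ofReal_mul] at e
  rw [hK, ← e]
  refine le_trans (setIntegral_mono_on (((cont_dens.mul hre).mono
    (sub_ball hr)).integrableOn_compact (isCompact_closedBall _ _)) (hi.mono_set hsub)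
    measurableSet_closedBall fun w hw => ?_) (setIntegral_mono_set hi
      ((ae_restrict_iff' measurableSet_closedBall).2 (ae_of_all _ fun w hw =>
        mul_nonneg (wt_nonneg T z (sub_ball hr' hw)) (h0 w hw))) hsub.eventuallyLE)
  exact mul_le_mul_of_nonneg_right (le_mul_of_one_le_right (dens_pos (sub_ball hr hw)).le (h1 w hw))
    (h0 w (hsub hw))

/-- Doeblin's contraction of the oscillation. -/
theorem osc (hr : r < 1) {r' : ℝ} (hr' : r' < 1) (hr0 : 0 ≤ r) (hrr : r ≤ r')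
    (hK : ∀ z : ℂ, ‖z‖ ≤ r → ∀ φ : ℂ → ℂ,
      Kop T φ z = ∫ w in closedBall (0 : ℂ) r', (wt T z w : ℂ) * φ w)
    (h1 : ∀ z ∈ closedBall (0 : ℂ) r, ∀ w ∈ closedBall (0 : ℂ) r, 1 ≤ kk T z w)
    (hφ : ContinuousOn φ (ball 0 1)) {D k : ℝ} (hk : khat T 0 = k)
    (hD : ∀ w ∈ closedBall (0 : ℂ) r', ∀ w' ∈ closedBall (0 : ℂ) r', ‖φ w - φ w'‖ ≤ D)
    (hz : z ∈ closedBall (0 : ℂ) r) (hw : w ∈ closedBall (0 : ℂ) r) :
    ‖Kop T φ z - Kop T φ w‖ + D * ∫ w in closedBall (0 : ℂ) r, dens w ≤ D * k := by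
  obtain ⟨u, hu, hd⟩ := exists_norm_eq_mul_self (Kop T φ z - Kop T φ w)
  have hc : ContinuousOn (fun w => (u * φ w).re) (ball 0 1) := by fun_prop
  obtain ⟨w₀, hw₀, hmin⟩ := (isCompact_closedBall (0 : ℂ) r').exists_isMinOn
    (nonempty_closedBall.2 (hr0.trans hrr)) (hc.mono (sub_ball hr'))
  have h2 := low hr hr' hrr (hK w (mem_closedBall_zero_iff.1 hw)) (sub_ball hr hw) (h1 w hw)
    (φ := fun x => u * φ x + -(u * φ w₀)) (by fun_prop) fun x hx => by
      have : (u * φ w₀).re ≤ (u * φ x).re := hmin hx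
      rw [add_re, neg_re]
      linarith
  have h3 := low hr hr' hrr (hK z (mem_closedBall_zero_iff.1 hz)) (sub_ball hr hz) (h1 z hz)
    (φ := fun x => -u * φ x + (u * φ w₀ + D)) (by fun_prop) fun x hx => by
      have := (re_le_norm (u * (φ x - φ w₀))).trans ((norm_mul _ _).trans_le
        (mul_le_mul hu.le (hD x hx w₀ hw₀) (norm_nonneg _) zero_le_one))
      simp only [mul_sub, sub_re, neg_mul, add_re, neg_re, ofReal_re] at this ⊢
      linarith
  rw [Kop_add (sub_ball hr hw) (by fun_prop) (by fun_prop), Kop_mul, Kop_const (sub_ball hr hw),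
    hk] at h2
  rw [Kop_add (sub_ball hr hz) (by fun_prop) (by fun_prop), Kop_mul, Kop_const (sub_ball hr hz),
    hk] at h3
  have hi : ∀ {g : ℂ → ℝ}, ContinuousOn g (ball 0 1) →
      IntegrableOn (fun w => dens w * g w) (closedBall (0 : ℂ) r) := fun hg =>
    ((cont_dens.mul hg).mono (sub_ball hr)).integrableOn_compact (isCompact_closedBall _ _)
  have h4 := add_le_add h2 h3
  rw [← integral_add (hi (by fun_prop)) (hi (by fun_prop)),
    setIntegral_congr_fun (g := fun x => D * dens x) measurableSet_closedBall fun x _ => by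
      simp only [add_re, neg_re, neg_mul, ofReal_re]
      ring, integral_const_mul] at h4
  have h5 := congrArg re hd
  simp only [mul_sub, sub_re, ofReal_re] at h5
  simp only [add_re, neg_re, neg_mul, add_mul, re_mul_ofReal, ofReal_re] at h4
  linarith

end Kth

theorem Part.green (P : Part S) {T : ℝ} {θ : S.Γ → ℂ} {κ₁ κ₂ : ℂ} {φ ψ : ℂ → ℂ}
    (h₁ : Eig S T θ κ₁ φ) (h₂ : Eig S T (-θ) κ₂ ψ) :
    (κ₁ - κ₂) * hI (fun z => P.χ z * (φ z * ψ z)) = 0 ∧
      hI (fun z => P.χ z * hI fun w => kk T z w * ((φ z - φ w) * (ψ z - ψ w))) =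
        (2 * khat T 0 - κ₁ - κ₂) * hI fun z => P.χ z * (φ z * ψ z) := by
  obtain ⟨c₁, i₁, e₁⟩ := h₁
  obtain ⟨c₂, i₂, e₂⟩ := h₂
  have inv : ∀ γ, ∀ z ∈ ball (0 : ℂ) 1, ∀ w ∈ ball (0 : ℂ) 1,
      φ (S.act γ z) * ψ (S.act γ w) = φ z * ψ w := fun γ z hz w hw => by
    rw [i₁ γ z hz, i₂ γ w hw, Pi.neg_apply, mul_mul_mul_comm, ← exp_add, add_neg_cancel, exp_zero,
      one_mul]
  constructor
  · have := swap' P T (F := fun z w => φ z * ψ w) ((c₁.comp continuousOn_fst fun _ hp => hp.1).mul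
      (c₂.comp continuousOn_snd fun _ hp => hp.2)) inv
    rw [hI_congr (g := fun z => κ₂ * (P.χ z * (φ z * ψ z))) fun z hz => by
        rw [Kop_mul, e₂ z hz]; ring,
      hI_congr (f := fun w => P.χ w * Kop T (fun z => φ z * ψ w) w)
        (g := fun z => κ₁ * (P.χ z * (φ z * ψ z))) fun z hz => by
        simp only [mul_comm _ (ψ z)]
        rw [Kop_mul, e₁ z hz]; ring, hI_mul, hI_mul] at this
    rw [sub_mul, this, sub_self]
  · have := swap' P T (F := fun _ w => φ w * ψ w) ((c₁.mul c₂).comp continuousOn_snd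
      fun _ hp => hp.2) fun γ _ _ w hw => inv γ w hw w hw
    rw [hI_congr (f := fun w => P.χ w * Kop T (fun _ => φ w * ψ w) w)
        (g := fun z => khat T 0 * (P.χ z * (φ z * ψ z))) fun z hz => by
        rw [Kop_const hz]; ring, hI_mul] at this
    have e : ∀ z ∈ ball (0 : ℂ) 1, (hI fun w => kk T z w * ((φ z - φ w) * (ψ z - ψ w))) =
        (khat T 0 - κ₁ - κ₂) * (φ z * ψ z) + Kop T (fun w => φ w * ψ w) z := fun z hz => by
      refine (Kop_congr (φ := fun w => (φ z - φ w) * (ψ z - ψ w)) (ψ := fun w => φ z * ψ z +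
        -φ z * ψ w + -ψ z * φ w + φ w * ψ w) (fun w _ => by ring) z).trans ?_
      rw [Kop_add hz (by fun_prop) (by fun_prop), Kop_add hz (by fun_prop) (by fun_prop),
        Kop_add hz (by fun_prop) (by fun_prop), Kop_const hz, Kop_mul, Kop_mul, e₁ z hz, e₂ z hz]
      ring
    rw [hI_congr fun z hz => by rw [e z hz], hI_chi]
    simp only [mul_add]
    refine (integral_add (intOn P.r_lt ((cont_chi P).mul (by fun_prop)))
      (intOn_Kop P.r_lt (c₁.mul c₂) (cont_chi P))).trans ?_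
    refine (congrArg₂ (· + ·) (hI_chi P _).symm ((hI_chi P _).symm.trans this)).trans ?_
    simp only [mul_left_comm _ (khat T 0 - κ₁ - κ₂), hI_mul]
    ring

theorem Part.doeblin (P : Part S) : ∃ T > 1, ∃ Γ₀ : Finset S.Γ, ∀ η > 0, ∃ δ > 0,
    ∀ (θ : S.Γ → ℂ) (κ : ℂ) (φ : ℂ → ℂ), (∀ γ ∈ Γ₀, ‖θ γ‖ ≤ δ) → ‖κ - khat T 0‖ ≤ δ →
      Eig S T θ κ φ → (∃ z ∈ ball (0 : ℂ) 1, φ z ≠ 0) →
        ∃ c : ℂ, c ≠ 0 ∧ ∀ z : ℂ, ‖z‖ ≤ P.r → ‖φ z - c‖ ≤ η * ‖c‖ := by
  have hK := isCompact_closedBall (0 : ℂ) P.r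
  have hne : (closedBall (0 : ℂ) P.r).Nonempty := nonempty_closedBall.2 P.r_pos.le
  have hs := sub_ball P.r_lt
  obtain ⟨C, hC⟩ := (hK.prod hK).exists_bound_of_continuousOn
    (continuousOn_pd.mono (prod_mono hs hs))
  have hT : 1 < |C| + 2 := by linarith [abs_nonneg C]
  obtain ⟨r', h1, h2, h3⟩ := Kop_eq P.r_lt (|C| + 2)
  obtain ⟨k, hk0, hk⟩ := khat_zero_pos hT
  have ha : 0 < ∫ w in closedBall (0 : ℂ) P.r, dens w := int_pos (cont_dens.mono hs)
    (fun w hw => (dens_pos (hs hw)).le) (mem_ball_self P.r_pos)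
    (dens_pos (mem_ball_self one_pos)).ne'
  set a := ∫ w in closedBall (0 : ℂ) P.r, dens w
  refine ⟨_, hT, (S.proper _ (sub_ball h1) (isCompact_closedBall _ _)).toFinset, fun η hη =>
    ⟨min 1 (min (a / 2) (η * a / (8 * k))), by positivity, ?_⟩⟩
  rintro θ κ φ hθ hκ ⟨hc, hi, he⟩ ⟨z₀, hz₀, hφ₀⟩
  obtain ⟨hδ1, hδ2, hδ3⟩ : min 1 (min (a / 2) (η * a / (8 * k))) ≤ 1 ∧
      min 1 (min (a / 2) (η * a / (8 * k))) ≤ a / 2 ∧
      min 1 (min (a / 2) (η * a / (8 * k))) * (8 * k) ≤ η * a :=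
    ⟨min_le_left _ _, (min_le_right _ _).trans (min_le_left _ _),
      (le_div_iff₀ (by positivity)).1 ((min_le_right _ _).trans (min_le_right _ _))⟩
  have hδ0 : 0 < min 1 (min (a / 2) (η * a / (8 * k))) := by positivity
  generalize min 1 (min (a / 2) (η * a / (8 * k))) = δ at *
  have hm : ∀ z ∈ ball (0 : ℂ) 1, ∃ γ, S.act γ z ∈ closedBall (0 : ℂ) P.r := fun z hz =>
    (P.exists_mem hz).imp fun γ h => mem_closedBall_zero_iff.2 (P.supp _ h.ne').le
  obtain ⟨z₁, hz₁, hM⟩ := hK.exists_isMaxOn hne (hc.mono hs).norm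
  have hc0 : φ z₁ ≠ 0 := fun e => by
    obtain ⟨γ, h⟩ := hm z₀ hz₀
    have : ‖φ (S.act γ z₀)‖ ≤ ‖φ z₁‖ := hM h
    rw [e, norm_zero, norm_le_zero_iff, hi γ z₀ hz₀] at this
    exact mul_ne_zero (exp_ne_zero _) hφ₀ this
  obtain ⟨⟨x, y⟩, ⟨hx, hy⟩, hD⟩ := (hK.prod hK).exists_isMaxOn (hne.prod hne)
    (f := fun p => ‖φ p.1 - φ p.2‖) ((((hc.comp continuousOn_fst fun _ hp => hp.1).sub
      (hc.comp continuousOn_snd fun _ hp => hp.2)).mono (prod_mono hs hs)).norm)
  have near : ∀ w ∈ closedBall (0 : ℂ) r', ∃ v ∈ closedBall (0 : ℂ) P.r,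
      ‖φ w - φ v‖ ≤ 2 * δ * ‖φ z₁‖ := fun w hw => by
    obtain ⟨γ, h⟩ := hm w (sub_ball h1 hw)
    have h4 := hθ γ ((Finite.mem_toFinset _).2 ⟨w, hw, closedBall_subset_closedBall h2 h⟩)
    have h5 : φ w - φ (S.act γ w) = (exp (-θ γ) - 1) * φ (S.act γ w) := by
      rw [sub_mul, one_mul, hi γ w (sub_ball h1 hw), ← mul_assoc, ← exp_add, neg_add_cancel,
        exp_zero, one_mul]
    refine ⟨_, h, ?_⟩
    rw [h5, norm_mul]
    refine mul_le_mul ((norm_exp_sub_one_le (by rw [norm_neg]; linarith)).trans ?_) (hM h)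
      (norm_nonneg _) (by positivity)
    rw [norm_neg]
    linarith
  have h4 := osc P.r_lt h1 P.r_pos.le h2 h3 (fun z hz w hw => le_max_of_le_right (by
      linarith [le_abs_self C, (le_abs_self _).trans (hC (z, w) ⟨hz, hw⟩)])) hc hk
    (D := ‖φ x - φ y‖ + 4 * δ * ‖φ z₁‖) (fun w hw w' hw' => by
      obtain ⟨v, hv, e⟩ := near w hw
      obtain ⟨v', hv', e'⟩ := near w' hw'
      have e'' : ‖φ v - φ v'‖ ≤ ‖φ x - φ y‖ := hD (mk_mem_prod hv hv')
      have := norm_sub_le_norm_sub_add_norm_sub (φ w) (φ v) (φ w')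
      have := norm_sub_le_norm_sub_add_norm_sub (φ v) (φ v') (φ w')
      rw [norm_sub_rev] at e'
      linarith) hx hy
  rw [he x (hs hx), he y (hs hy), ← mul_sub, norm_mul] at h4
  have h5 : k - δ ≤ ‖κ‖ := by
    have := norm_sub_norm_le (khat (|C| + 2) 0) κ
    rw [norm_sub_rev, hk, norm_real, Real.norm_of_nonneg hk0.le, ← hk] at this
    linarith
  refine ⟨φ z₁, hc0, fun z hz => (hD (mk_mem_prod (mem_closedBall_zero_iff.2 hz) hz₁)).trans ?_⟩
  have h6 := norm_nonneg (φ x - φ y)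
  have h7 := norm_nonneg (φ z₁)
  refine le_of_mul_le_mul_right ?_ (half_pos ha)
  nlinarith [mul_le_mul_of_nonneg_right h5 h6, mul_le_mul_of_nonneg_right hδ2 h6,
    mul_le_mul_of_nonneg_right hδ3 h7, mul_nonneg (mul_nonneg hδ0.le h7) ha.le]

end Pool.Agent.Lib.MP_de7bb2_an
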