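import Pool.Agent.Lib.MP_de7bb2_an.H20Lagr

/-! Weighted composition operators in one variable. TASK OP1. -/

namespace Pool.Agent.Lib.MP_de7bb2_an

open Metric Set Filter Topology

noncomputable def op1 (ψ H : ℂ → ℂ) : Nuc ℕ :=
  toVec fun x : ℕ × ℕ => coef (fun y => H y * ψ y ^ x.1) x.2

open Classical in
noncomputable def sys1 {S : Type*} [Fintype S] (E : S → S → Prop) (ψ H : S → S → ℂ → ℂ) :
    Nuc (S × ℕ) :=
  blk fun σ σ' => if E σ σ' then op1 (ψ σ σ') (H σ σ') else 0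

/-- Closed admissible paths of length `n + 1`. -/
def Cyc {S : Type*} (E : S → S → Prop) (n : ℕ) : Type _ :=
  {π : ZMod (n + 1) → S // ∀ i, E (π i) (π (i + 1))}

noncomputable instance {S : Type*} [Fintype S] (E : S → S → Prop) (n : ℕ) : Fintype (Cyc E n) := by
  classical
  exact Subtype.fintype _

namespace Op1

section One

variable {ψ φ H K F : ℂ → ℂ} {R q M ρ : ℝ}

theorem exists_bound (hH : DifferentiableOn ℂ H (ball 0 R)) (hρ : ρ < R) :
    ∃ M, 0 ≤ M ∧ ∀ y ∈ closedBall (0 : ℂ) ρ, ‖H y‖ ≤ M := by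
  obtain ⟨M, hM⟩ := (isCompact_closedBall (0 : ℂ) ρ).exists_bound_of_continuousOn
    (hH.continuousOn.mono (closedBall_subset_ball hρ))
  exact ⟨max M 0, le_max_right _ _, fun y hy => (hM y hy).trans (le_max_left _ _)⟩

theorem mem_of_norm (hR : 1 < R) {y : ℂ} (hy : ‖y‖ ≤ 1) : y ∈ ball (0 : ℂ) R :=
  mem_ball_zero_iff.2 (hy.trans_lt hR)

theorem sphere_sub (hR : 1 < R) : sphere (0 : ℂ) 1 ⊆ ball 0 R := sphere_subset_ball hR

theorem q_nonneg (hR : 1 < R) (hψ : Into R q ψ) : 0 ≤ q :=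
  (norm_nonneg _).trans (hψ.2 0 (mem_ball_self (by linarith)))

theorem maps (hR : 1 ≤ R) (hq : q < 1) (hψ : Into ρ q ψ) : MapsTo ψ (ball 0 ρ) (ball 0 R) :=
  fun y hy => mem_ball_zero_iff.2 (((hψ.2 y hy).trans_lt hq).trans_le hR)

theorem into_mono (hψ : Into R q ψ) (h : ρ ≤ R) : Into ρ q ψ :=
  ⟨hψ.1.mono (ball_subset_ball h), fun y hy => hψ.2 y (ball_subset_ball h hy)⟩

theorem into_comp (hR : 1 < R) (hq : q < 1) (hψ : Into R q ψ) (hφ : Into R q φ) :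
    Into R q fun y => ψ (φ y) :=
  ⟨hψ.1.comp hφ.1 (maps hR.le hq hφ), fun _ hy => hψ.2 _ (maps hR.le hq hφ hy)⟩

theorem norm_term_le (hψ : Into R q ψ) {y : ℂ} (hy : y ∈ ball (0 : ℂ) R) (hM : ‖H y‖ ≤ M)
    (a : ℕ) : ‖H y * ψ y ^ a‖ ≤ M * q ^ a := by
  rw [norm_mul, norm_pow]
  exact mul_le_mul hM (pow_le_pow_left₀ (norm_nonneg _) (hψ.2 y hy) a) (by positivity)
    ((norm_nonneg _).trans hM)

theorem entry_le (hR : 1 < R) (hψ : Into R q ψ) (hH : DifferentiableOn ℂ H (ball 0 R))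
    (hM : ∀ y ∈ ball (0 : ℂ) R, ‖H y‖ ≤ M) (x : ℕ × ℕ) :
    ‖coef (fun y => H y * ψ y ^ x.1) x.2‖ ≤ M * (q ^ x.1 * R⁻¹ ^ x.2) := by
  refine (norm_coef_le hR (hH.mul (hψ.1.pow _)) (fun y hy => norm_term_le hψ hy (hM y hy) _)
    x.2).trans (le_of_eq ?_)
  rw [inv_pow, div_eq_mul_inv, mul_assoc]

theorem summable_major (hR : 1 < R) (h0 : 0 ≤ q) (hq : q < 1) :
    Summable fun x : ℕ × ℕ => q ^ x.1 * R⁻¹ ^ x.2 :=
  (summable_geometric_of_lt_one h0 hq).mul_of_nonneg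
    (summable_geometric_of_lt_one (by positivity) (inv_lt_one_of_one_lt₀ hR))
    (fun _ => by positivity) (fun _ => by positivity)

theorem op1_apply (hR : 1 < R) (hq : q < 1) (hψ : Into R q ψ)
    (hH : DifferentiableOn ℂ H (ball 0 R)) (x : ℕ × ℕ) :
    op1 ψ H x = coef (fun y => H y * ψ y ^ x.1) x.2 := by
  obtain ⟨ρ, h1, h2⟩ := exists_between hR
  obtain ⟨M, -, hM⟩ := exists_bound hH h2
  refine toVec_apply (f := fun x : ℕ × ℕ => coef (fun y => H y * ψ y ^ x.1) x.2) ?_ x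
  exact Summable.of_nonneg_of_le (fun _ => norm_nonneg _)
    (entry_le h1 (into_mono hψ h2.le) (hH.mono (ball_subset_ball h2.le))
      fun y hy => hM y (ball_subset_closedBall hy))
    ((summable_major h1 (q_nonneg hR hψ) hq).mul_left M)

theorem norm_op1_le (hR : 1 < R) (hq : q < 1) (hψ : Into R q ψ)
    (hH : DifferentiableOn ℂ H (ball 0 R)) (hM : ∀ y ∈ ball (0 : ℂ) R, ‖H y‖ ≤ M) :
    ‖op1 ψ H‖ ≤ M * ∑' x : ℕ × ℕ, q ^ x.1 * R⁻¹ ^ x.2 := by
  rw [← tsum_mul_left]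
  exact norm_toVec_le ((summable_major hR (q_nonneg hR hψ) hq).mul_left M) (entry_le hR hψ hH hM)

theorem cont_term (hR : 1 < R) (hψ : Into R q ψ) (hH : DifferentiableOn ℂ H (ball 0 R)) (a : ℕ) :
    ContinuousOn (fun y => H y * ψ y ^ a) (sphere 0 1) :=
  (hH.mul (hψ.1.pow a)).continuousOn.mono (sphere_sub hR)

theorem op1_add (hR : 1 < R) (hq : q < 1) (hψ : Into R q ψ)
    (hH : DifferentiableOn ℂ H (ball 0 R)) (hK : DifferentiableOn ℂ K (ball 0 R)) :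
    op1 ψ (fun y => H y + K y) = op1 ψ H + op1 ψ K := by
  refine lp.ext (funext fun x => ?_)
  rw [lp.coeFn_add, Pi.add_apply, op1_apply hR hq hψ hH, op1_apply hR hq hψ hK,
    op1_apply hR hq hψ (hH.fun_add hK), ← coef_add (cont_term hR hψ hH _) (cont_term hR hψ hK _)]
  simp only [add_mul]

theorem op1_smul (hR : 1 < R) (hq : q < 1) (hψ : Into R q ψ)
    (hH : DifferentiableOn ℂ H (ball 0 R)) (c : ℂ) :
    op1 ψ (fun y => c * H y) = c • op1 ψ H := by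
  refine lp.ext (funext fun x => ?_)
  rw [lp.coeFn_smul, Pi.smul_apply, op1_apply hR hq hψ hH,
    op1_apply hR hq hψ (hH.const_mul c), smul_eq_mul, ← coef_const_mul]
  simp only [mul_assoc]

/-- A majorant on the unit circle for the series `∑ c a * (H * ψ ^ a)`. -/
theorem major (hR : 1 < R) (hq : q < 1) (hψ : Into R q ψ) (hH : DifferentiableOn ℂ H (ball 0 R))
    {c : ℕ → ℂ} (hc : ∀ a, ‖c a‖ ≤ M) :
    ∃ u : ℕ → ℝ, Summable u ∧ ∀ a y, ‖y‖ = 1 → ‖c a * (H y * ψ y ^ a)‖ ≤ u a := by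
  obtain ⟨N, -, hN⟩ := exists_bound hH hR
  refine ⟨fun a => M * (N * q ^ a),
    ((summable_geometric_of_lt_one (q_nonneg hR hψ) hq).mul_left N).mul_left M, fun a y hy => ?_⟩
  rw [norm_mul]
  exact mul_le_mul (hc a) (norm_term_le hψ (mem_of_norm hR hy.le)
    (hN y (mem_closedBall_zero_iff.2 hy.le)) a) (norm_nonneg _) ((norm_nonneg _).trans (hc a))

theorem coef_bdd (hR : 1 < R) (hF : DifferentiableOn ℂ F (ball 0 R)) :
    ∃ M, ∀ a, ‖coef F a‖ ≤ M := by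
  obtain ⟨N, -, hN⟩ := exists_bound hF hR
  exact ⟨N, norm_coef_le_one fun y hy => hN y (mem_closedBall_zero_iff.2 hy.le)⟩

theorem tsum_taylor (hR : 1 < R) (hq : q < 1) (hψ : Into R q ψ)
    (hF : DifferentiableOn ℂ F (ball 0 R)) (H : ℂ → ℂ) {y : ℂ} (hy : ‖y‖ = 1) :
    ∑' a, coef F a * (H y * ψ y ^ a) = H y * F (ψ y) := by
  have := (hasSum_coef hR hF (maps hR.le hq hψ (mem_of_norm hR hy.le))).mul_left (H y)
  rw [← this.tsum_eq]
  exact tsum_congr fun a => by ring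

theorem hasSum_ev_comp {S : Type*} (v : Vec (S × ℕ)) (σ : S) (hR : 1 < R) (hq : q < 1)
    (hψ : Into R q ψ) (hH : DifferentiableOn ℂ H (ball 0 R))
    (hF : DifferentiableOn ℂ F (ball 0 R)) :
    HasSum (fun a => ev v σ (fun y => H y * ψ y ^ a) * coef F a)
      (ev v σ fun y => H y * F (ψ y)) := by
  obtain ⟨M, hM⟩ := coef_bdd hR hF
  obtain ⟨u, hu, hb⟩ := major hR hq hψ hH hM
  have := hasSum_ev v σ (F := fun a y => coef F a * (H y * ψ y ^ a)) hu
    (fun a => continuousOn_const.mul (cont_term hR hψ hH a)) hb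
  rw [ev_congr v σ fun y hy => tsum_taylor hR hq hψ hF H hy] at this
  simp only [ev_const_mul] at this
  simpa only [mul_comm (coef F _)] using this

theorem hasSum_coef_series (hR : 1 < R) (hq : q < 1) (hψ : Into R q ψ)
    (hH : DifferentiableOn ℂ H (ball 0 R)) {c : ℕ → ℂ} (hc : ∀ a, ‖c a‖ ≤ M) (b : ℕ) :
    HasSum (fun a => c a * coef (fun y => H y * ψ y ^ a) b)
      (coef (fun y => ∑' a, c a * (H y * ψ y ^ a)) b) := by
  obtain ⟨u, hu, hb⟩ := major hR hq hψ hH hc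
  have := hasSum_coef_of_bound (F := fun a y => c a * (H y * ψ y ^ a)) hu
    (fun a => continuousOn_const.mul (cont_term hR hψ hH a)) hb b
  simpa only [coef_const_mul] using this

theorem nmul_op1 (hR : 1 < R) (hq : q < 1) (hψ : Into R q ψ) (hφ : Into R q φ)
    (hH : DifferentiableOn ℂ H (ball 0 R)) (hK : DifferentiableOn ℂ K (ball 0 R)) :
    nmul (op1 ψ H) (op1 φ K) = op1 (fun y => ψ (φ y)) fun y => H (φ y) * K y := by
  refine lp.ext (funext fun ⟨a, b⟩ => ?_)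
  have hF : DifferentiableOn ℂ (fun y => H y * ψ y ^ a) (ball 0 R) := hH.mul (hψ.1.pow a)
  obtain ⟨M, hM⟩ := coef_bdd hR hF
  rw [nmul_apply, op1_apply (H := fun y => H (φ y) * K y) hR hq (into_comp hR hq hψ hφ)
    ((hH.comp hφ.1 (maps hR.le hq hφ)).mul hK)]
  simp only [op1_apply hR hq hψ hH, op1_apply hR hq hφ hK]
  rw [(hasSum_coef_series hR hq hφ hK hM b).tsum_eq]
  refine coef_congr (fun y hy => ?_) b
  rw [tsum_taylor hR hq hφ hF K hy]
  ring

theorem tr_op1 (hR : 1 < R) (hq : q < 1) (hψ : Into R q ψ) (hH : DifferentiableOn ℂ H (ball 0 R))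
    {y : ℂ} (hy : ‖y‖ < R) (h : ψ y = y) : tr (op1 ψ H) = H y / (1 - deriv ψ y) := by
  rw [tr_apply, ← (lagrange hR hq hψ hH hy h).tsum_eq]
  exact tsum_congr fun b => op1_apply hR hq hψ hH (b, b)

theorem diffOn_op1 {P : Type*} [NormedAddCommGroup P] [NormedSpace ℂ P] [FiniteDimensional ℂ P]
    {U : Set P} (hU : IsOpen U) (hR : 1 < R) (hq : q < 1) (hψ : Into R q ψ) {K : P → ℂ → ℂ}
    (hK : DifferentiableOn ℂ (fun x : P × ℂ => K x.1 x.2) (U ×ˢ ball 0 R)) :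
    DifferentiableOn ℂ (fun p => op1 ψ (K p)) U := by
  intro p hp
  have := FiniteDimensional.proper ℂ P
  obtain ⟨ρ, h1, h2⟩ := exists_between hR
  obtain ⟨ε, hε, hsub⟩ := nhds_basis_closedBall.mem_iff.1 (hU.mem_nhds hp)
  obtain ⟨M, hM⟩ := ((isCompact_closedBall p ε).prod
    (isCompact_closedBall (0 : ℂ) ρ)).exists_bound_of_continuousOn
    (hK.continuousOn.mono (prod_mono hsub (closedBall_subset_ball h2)))
  have hsub' : ball p ε ⊆ U := ball_subset_closedBall.trans hsub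
  have hd : DifferentiableOn ℂ (fun p => op1 ψ (K p)) (ball p ε) := by
    refine diffOn_toVec isOpen_ball ((summable_major h1 (q_nonneg hR hψ) hq).mul_left M)
      (fun x => ?_) fun p' hp' x => ?_
    · refine diffOn_coef isOpen_ball (F := fun p y => K p y * ψ y ^ x.1) ?_ (fun y hy => ?_) _
      · refine (hK.continuousOn.mono (prod_mono hsub' (sphere_sub hR))).mul ?_
        exact ((hψ.1.continuousOn.mono (sphere_sub hR)).comp continuousOn_snd
          fun z hz => hz.2).pow _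
      · refine DifferentiableOn.mul_const ?_ _
        exact hK.comp (f := fun p => (p, y)) (by fun_prop)
          fun z hz => ⟨hsub' hz, mem_of_norm hR hy.le⟩
    · refine entry_le h1 (into_mono hψ h2.le) ?_
        (fun y hy => hM (p', y) ⟨ball_subset_closedBall hp', ball_subset_closedBall hy⟩) x
      exact hK.comp (f := fun y => (p', y)) (by fun_prop)
        fun z hz => ⟨hsub' hp', ball_subset_ball h2.le hz⟩
  exact (hd.differentiableAt (ball_mem_nhds p hε)).differentiableWithinAt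

theorem hasDerivAt_op1 (hR : 1 < R) (hq : q < 1) (hψ : Into R q ψ)
    (hH : DifferentiableOn ℂ H (ball 0 R)) {r : ℂ → ℂ} (hr : DifferentiableOn ℂ r (ball 0 R))
    (s₀ : ℂ) :
    HasDerivAt (fun s => op1 ψ fun y => H y * Complex.exp (-s * r y))
      (op1 ψ fun y => -r y * (H y * Complex.exp (-s₀ * r y))) s₀ := by
  obtain ⟨ρ, h1, h2⟩ := exists_between hR
  have hG : DifferentiableOn ℂ (fun y => H y * Complex.exp (-s₀ * r y)) (ball 0 R) :=
    hH.mul (hr.const_mul _).cexp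
  obtain ⟨M, hM0, hM⟩ := exists_bound hG h2
  obtain ⟨N, hN0, hN⟩ := exists_bound hr h2
  have hD : DifferentiableOn ℂ (fun y => -r y * (H y * Complex.exp (-s₀ * r y))) (ball 0 R) :=
    hr.neg.mul hG
  have hE : ∀ h : ℂ, DifferentiableOn ℂ (fun y => H y * Complex.exp (-s₀ * r y) *
      (Complex.exp (-h * r y) - 1 - -h * r y)) (ball 0 R) := fun h =>
    hG.mul (((hr.const_mul _).cexp.sub_const 1).sub (hr.const_mul _))
  have key : ∀ h : ℂ, (op1 ψ fun y => H y * Complex.exp (-(s₀ + h) * r y)) -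
      (op1 ψ fun y => H y * Complex.exp (-s₀ * r y)) -
      h • (op1 ψ fun y => -r y * (H y * Complex.exp (-s₀ * r y))) =
      op1 ψ fun y => H y * Complex.exp (-s₀ * r y) *
        (Complex.exp (-h * r y) - 1 - -h * r y) := fun h => by
    rw [sub_sub, sub_eq_iff_eq_add', ← op1_smul hR hq hψ hD, ← op1_add hR hq hψ hG (hD.const_mul h),
      ← op1_add hR hq hψ (hG.fun_add (hD.const_mul h)) (hE h)]
    congr 1
    funext y
    rw [show -(s₀ + h) * r y = -s₀ * r y + -h * r y by ring, Complex.exp_add]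
    ring
  rw [hasDerivAt_iff_isLittleO_nhds_zero]
  simp only [key]
  refine Asymptotics.IsBigO.trans_isLittleO (g := fun h : ℂ => h ^ 2) ?_
    (Asymptotics.isLittleO_pow_id one_lt_two)
  refine Asymptotics.IsBigO.of_bound (M * N ^ 2 * ∑' x : ℕ × ℕ, q ^ x.1 * ρ⁻¹ ^ x.2) ?_
  filter_upwards [closedBall_mem_nhds (0 : ℂ) (show 0 < (N + 1)⁻¹ by positivity)] with h hh
  rw [mem_closedBall_zero_iff] at hh
  refine (norm_op1_le (M := M * (‖h‖ * N) ^ 2) h1 hq (into_mono hψ h2.le)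
    ((hE h).mono (ball_subset_ball h2.le)) fun y hy => ?_).trans (le_of_eq ?_)
  · have h3 : ‖-h * r y‖ ≤ ‖h‖ * N := by
      rw [norm_mul, norm_neg]
      exact mul_le_mul_of_nonneg_left (hN y (ball_subset_closedBall hy)) (norm_nonneg _)
    have h4 : ‖h‖ * N ≤ 1 := by
      calc ‖h‖ * N ≤ (N + 1)⁻¹ * (N + 1) := mul_le_mul hh (by linarith) hN0 (by positivity)
        _ = 1 := inv_mul_cancel₀ (by positivity)
    rw [norm_mul]
    refine mul_le_mul (hM y (ball_subset_closedBall hy)) ?_ (norm_nonneg _) hM0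
    exact (Complex.norm_exp_sub_one_sub_id_le (h3.trans h4)).trans
      (pow_le_pow_left₀ (norm_nonneg _) h3 2)
  · rw [norm_pow]
    ring

end One

variable {S : Type*} {E : S → S → Prop} {ψ H : S → S → ℂ → ℂ} {R q : ℝ}

theorem summable_row {ι : Type*} (A : Nuc ι) (v : Vec ι) (i : ι) :
    Summable fun j => A (i, j) * v j := by
  refine Summable.of_norm_bounded ((Vec.summable_norm v).mul_left ‖A‖) fun j => ?_
  rw [norm_mul]
  exact mul_le_mul_of_nonneg_right (Vec.norm_apply_le A _) (norm_nonneg _)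

open Classical in
theorem sys1_apply [Fintype S] (hR : 1 < R) (hq : q < 1) (hψ : ∀ σ σ', E σ σ' → Into R q (ψ σ σ'))
    (hH : ∀ σ σ', E σ σ' → DifferentiableOn ℂ (H σ σ') (ball 0 R)) (σ σ' : S) (a b : ℕ) :
    sys1 E ψ H ((σ, a), (σ', b)) =
      if E σ σ' then coef (fun y => H σ σ' y * ψ σ σ' y ^ a) b else 0 := by
  rw [sys1, blk_apply]
  split_ifs with h
  · exact op1_apply hR hq (hψ _ _ h) (hH _ _ h) (a, b)
  · rfl

open Classical in
theorem mulV_apply_sys1 [Fintype S] (hR : 1 < R) (hq : q < 1)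
    (hψ : ∀ σ σ', E σ σ' → Into R q (ψ σ σ'))
    (hH : ∀ σ σ', E σ σ' → DifferentiableOn ℂ (H σ σ') (ball 0 R)) (v : Vec (S × ℕ)) (σ : S)
    (a : ℕ) : mulV (sys1 E ψ H) v (σ, a) =
      ∑ σ', if E σ σ' then ev v σ' (fun y => H σ σ' y * ψ σ σ' y ^ a) else 0 := by
  rw [mulV_apply, tsum_prod_fin (summable_row _ v _)]
  refine Finset.sum_congr rfl fun σ' _ => ?_
  simp only [sys1_apply hR hq hψ hH]
  split_ifs with h
  · exact tsum_congr fun b => mul_comm _ _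
  · simp only [zero_mul, tsum_zero]

open Classical in
theorem mulV_apply_ntr [Fintype S] (hR : 1 < R) (hq : q < 1)
    (hψ : ∀ σ σ', E σ σ' → Into R q (ψ σ σ'))
    (hH : ∀ σ σ', E σ σ' → DifferentiableOn ℂ (H σ σ') (ball 0 R)) (l : Vec (S × ℕ)) (σ' : S)
    (b : ℕ) : mulV (ntr (sys1 E ψ H)) l (σ', b) =
      ∑ σ, if E σ σ' then coef (fun y => H σ σ' y * gen l σ (ψ σ σ' y)) b else 0 := by
  rw [mulV_apply, tsum_prod_fin (summable_row _ l _)]
  refine Finset.sum_congr rfl fun σ _ => ?_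
  simp only [ntr_apply, sys1_apply hR hq hψ hH]
  split_ifs with h
  · have := hasSum_coef_series hR hq (hψ _ _ h) (hH _ _ h) (c := fun a => l (σ, a))
      (fun a => Vec.norm_apply_le l _) b
    simp only [mul_comm (l _)] at this
    rw [this.tsum_eq]
    refine coef_congr (fun y _ => ?_) b
    rw [gen, ← tsum_mul_left]
    exact tsum_congr fun a => by ring
  · simp only [zero_mul, tsum_zero]

theorem pathMul_eq_zero {κ : Type*} (B : S → S → Nuc κ) (π : ℕ → S) (n : ℕ) {i : ℕ} (hi : i ≤ n)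
    (h : B (π i) (π (i + 1)) = 0) : pathMul B π n = 0 := by
  induction n with
  | zero =>
    obtain rfl : i = 0 := by omega
    exact h
  | succ n ih =>
    rw [pathMul]
    rcases Nat.lt_or_eq_of_le hi with h' | rfl
    · rw [ih (by omega), map_zero, zero_apply]
    · rw [h, map_zero]

theorem pathMul_eq (hR : 1 < R) (hq : q < 1) (hψ : ∀ σ σ', E σ σ' → Into R q (ψ σ σ'))
    (hH : ∀ σ σ', E σ σ' → DifferentiableOn ℂ (H σ σ') (ball 0 R)) {B : S → S → Nuc ℕ}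
    (hB : ∀ σ σ', E σ σ' → B σ σ' = op1 (ψ σ σ') (H σ σ')) {π : ℕ → S}
    (hπ : ∀ i, E (π i) (π (i + 1))) {η : ℕ → ℂ} (hη : ∀ i, ‖η i‖ < R)
    (horb : ∀ i, ψ (π i) (π (i + 1)) (η (i + 1)) = η i) (n : ℕ) :
    ∃ Ψ W : ℂ → ℂ, Into R q Ψ ∧ DifferentiableOn ℂ W (ball 0 R) ∧ pathMul B π n = op1 Ψ W ∧
      Ψ (η (n + 1)) = η 0 ∧
      W (η (n + 1)) = ∏ i ∈ Finset.range (n + 1), H (π i) (π (i + 1)) (η (i + 1)) ∧
      deriv Ψ (η (n + 1)) =
        ∏ i ∈ Finset.range (n + 1), deriv (ψ (π i) (π (i + 1))) (η (i + 1)) := by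
  induction n with
  | zero =>
    exact ⟨_, _, hψ _ _ (hπ 0), hH _ _ (hπ 0), hB _ _ (hπ 0), horb 0,
      by simp only [zero_add, Finset.prod_range_one], by simp only [zero_add, Finset.prod_range_one]⟩
  | succ n ih =>
    obtain ⟨Ψ, W, h1, h2, h3, h4, h5, h6⟩ := ih
    have e := hπ (n + 1)
    refine ⟨fun y => Ψ (ψ (π (n + 1)) (π (n + 1 + 1)) y),
      fun y => W (ψ (π (n + 1)) (π (n + 1 + 1)) y) * H (π (n + 1)) (π (n + 1 + 1)) y,
      into_comp hR hq h1 (hψ _ _ e), (h2.comp (hψ _ _ e).1 (maps hR.le hq (hψ _ _ e))).mul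
        (hH _ _ e), ?_, ?_, ?_, ?_⟩
    · rw [pathMul, h3, hB _ _ e, nmul_op1 hR hq h1 (hψ _ _ e) h2 (hH _ _ e)]
    · simp only [horb, h4]
    · simp only [horb, h5, Finset.prod_range_succ _ (n + 1)]
    · have d1 : DifferentiableAt ℂ Ψ (ψ (π (n + 1)) (π (n + 1 + 1)) (η (n + 1 + 1))) := by
        rw [horb]
        exact h1.1.differentiableAt (isOpen_ball.mem_nhds (mem_ball_zero_iff.2 (hη _)))
      have d2 : DifferentiableAt ℂ (ψ (π (n + 1)) (π (n + 1 + 1))) (η (n + 1 + 1)) :=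
        (hψ _ _ e).1.differentiableAt (isOpen_ball.mem_nhds (mem_ball_zero_iff.2 (hη _)))
      rw [Finset.prod_range_succ _ (n + 1), ← h6, ← horb (n + 1)]
      exact (d1.hasDerivAt.comp _ d2.hasDerivAt).deriv

theorem prod_range_zmod (n : ℕ) (f : ZMod (n + 1) → ℂ) :
    ∏ i ∈ Finset.range (n + 1), f (i : ZMod (n + 1)) = ∏ i, f i := by
  rw [Finset.prod_range]
  exact Finset.prod_congr rfl fun i _ => congrArg f (ZMod.natCast_zmod_val (n := n + 1) i)

end Op1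

variable {S : Type*} [Fintype S] {E : S → S → Prop} {ψ H : S → S → ℂ → ℂ} {R q : ℝ}

open Classical in
theorem ev_mulV_sys1 (hR : 1 < R) (hq : q < 1) (hψ : ∀ σ σ', E σ σ' → Into R q (ψ σ σ'))
    (hH : ∀ σ σ', E σ σ' → DifferentiableOn ℂ (H σ σ') (ball 0 R)) (v : Vec (S × ℕ)) (σ : S)
    {F : ℂ → ℂ} (hF : DifferentiableOn ℂ F (ball 0 R)) :
    ev (mulV (sys1 E ψ H) v) σ F =
      ∑ σ', if E σ σ' then ev v σ' (fun y => H σ σ' y * F (ψ σ σ' y)) else 0 := by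
  rw [ev]
  simp only [Op1.mulV_apply_sys1 hR hq hψ hH, Finset.sum_mul]
  refine (hasSum_sum fun σ' _ => ?_).tsum_eq
  split_ifs with h
  · exact Op1.hasSum_ev_comp v σ' hR hq (hψ _ _ h) (hH _ _ h) hF
  · simpa only [zero_mul] using hasSum_zero

open Classical in
theorem gen_mulV_ntr_sys1 (hR : 1 < R) (hq : q < 1) (hψ : ∀ σ σ', E σ σ' → Into R q (ψ σ σ'))
    (hH : ∀ σ σ', E σ σ' → DifferentiableOn ℂ (H σ σ') (ball 0 R)) (l : Vec (S × ℕ)) (σ' : S)
    {y : ℂ} (hy : ‖y‖ ≤ 1) :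
    gen (mulV (ntr (sys1 E ψ H)) l) σ' y =
      ∑ σ, if E σ σ' then H σ σ' y * gen l σ (ψ σ σ' y) else 0 := by
  rw [gen]
  simp only [Op1.mulV_apply_ntr hR hq hψ hH, Finset.sum_mul]
  refine (hasSum_sum fun σ _ => ?_).tsum_eq
  split_ifs with h
  · exact hasSum_coef hR ((hH _ _ h).mul ((diffOn_gen l σ).comp (hψ _ _ h).1
      (Op1.maps le_rfl hq (hψ _ _ h)))) (Op1.mem_of_norm hR hy)
  · simpa only [zero_mul] using hasSum_zero

/-- Exponential decay of the image of a vector. -/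
theorem norm_mulV_sys1_le (hR : 1 < R) (hq : q < 1) (hψ : ∀ σ σ', E σ σ' → Into R q (ψ σ σ'))
    (hH : ∀ σ σ', E σ σ' → DifferentiableOn ℂ (H σ σ') (ball 0 R)) (v : Vec (S × ℕ)) :
    ∃ C, ∀ σ b, ‖mulV (sys1 E ψ H) v (σ, b)‖ ≤ C * (max q 0) ^ b := by
  classical
  have : ∀ σ σ', ∃ M, 0 ≤ M ∧ (E σ σ' → ∀ y ∈ closedBall (0 : ℂ) 1, ‖H σ σ' y‖ ≤ M) := by
    intro σ σ'
    by_cases h : E σ σ'
    · obtain ⟨M, h0, hM⟩ := Op1.exists_bound (hH _ _ h) hR
      exact ⟨M, h0, fun _ => hM⟩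
    · exact ⟨0, le_rfl, fun h' => absurd h' h⟩
  choose M h0 hM using this
  refine ⟨∑ σ, ∑ σ', ‖v‖ * M σ σ', fun σ b => ?_⟩
  have hm : 0 ≤ max q 0 ^ b := pow_nonneg (le_max_right _ _) b
  have h1 : ∀ σ σ', 0 ≤ ‖v‖ * M σ σ' := fun σ σ' => mul_nonneg (norm_nonneg _) (h0 _ _)
  rw [Op1.mulV_apply_sys1 hR hq hψ hH]
  refine (norm_sum_le _ _).trans (le_trans ?_ (mul_le_mul_of_nonneg_right
    (Finset.single_le_sum (f := fun σ => ∑ σ', ‖v‖ * M σ σ')
      (fun σ _ => Finset.sum_nonneg fun σ' _ => h1 σ σ') (Finset.mem_univ σ)) hm))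
  rw [Finset.sum_mul]
  refine Finset.sum_le_sum fun σ' _ => ?_
  split_ifs with h
  · rw [max_eq_left (Op1.q_nonneg hR (hψ _ _ h)), mul_assoc]
    exact norm_ev_le v σ' fun y hy => Op1.norm_term_le (hψ _ _ h) (Op1.mem_of_norm hR hy.le)
      (hM _ _ h y (mem_closedBall_zero_iff.2 hy.le)) b
  · rw [norm_zero]
    exact mul_nonneg (h1 _ _) hm

theorem diffOn_sys1 {P : Type*} [NormedAddCommGroup P] [NormedSpace ℂ P] [FiniteDimensional ℂ P]
    {U : Set P} (hU : IsOpen U) (hR : 1 < R) (hq : q < 1)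
    (hψ : ∀ σ σ', E σ σ' → Into R q (ψ σ σ')) {K : P → S → S → ℂ → ℂ}
    (hK : ∀ σ σ', E σ σ' →
      DifferentiableOn ℂ (fun x : P × ℂ => K x.1 σ σ' x.2) (U ×ˢ ball 0 R)) :
    DifferentiableOn ℂ (fun p => sys1 E ψ (K p)) U := by
  simp only [sys1, blk]
  refine DifferentiableOn.fun_sum fun σ _ => DifferentiableOn.fun_sum fun σ' _ => ?_
  refine (emb σ σ').differentiable.comp_differentiableOn ?_
  split_ifs with h
  · exact Op1.diffOn_op1 hU hR hq (hψ _ _ h) (hK _ _ h)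
  · exact differentiableOn_const _

theorem hasDerivAt_sys1 (hR : 1 < R) (hq : q < 1) (hψ : ∀ σ σ', E σ σ' → Into R q (ψ σ σ'))
    (hH : ∀ σ σ', E σ σ' → DifferentiableOn ℂ (H σ σ') (ball 0 R)) {r : S → S → ℂ → ℂ}
    (hr : ∀ σ σ', E σ σ' → DifferentiableOn ℂ (r σ σ') (ball 0 R)) (s₀ : ℂ) :
    HasDerivAt (fun s => sys1 E ψ fun σ σ' y => H σ σ' y * Complex.exp (-s * r σ σ' y))
      (sys1 E ψ fun σ σ' y => -r σ σ' y * (H σ σ' y * Complex.exp (-s₀ * r σ σ' y))) s₀ := by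
  simp only [sys1, blk]
  refine HasDerivAt.fun_sum fun σ _ => HasDerivAt.fun_sum fun σ' _ => ?_
  refine (emb σ σ').hasFDerivAt.comp_hasDerivAt s₀ ?_
  split_ifs with h
  · exact Op1.hasDerivAt_op1 hR hq (hψ _ _ h) (hH _ _ h) (hr _ _ h) s₀
  · exact hasDerivAt_const _ _

theorem tr_npw_sys1 (hR : 1 < R) (hq : q < 1) (hψ : ∀ σ σ', E σ σ' → Into R q (ψ σ σ'))
    (hH : ∀ σ σ', E σ σ' → DifferentiableOn ℂ (H σ σ') (ball 0 R)) (n : ℕ)
    (η : Cyc E n → ZMod (n + 1) → ℂ) (hη : ∀ π i, ‖η π i‖ < R)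
    (horb : ∀ π i, ψ (π.1 i) (π.1 (i + 1)) (η π (i + 1)) = η π i) :
    tr (npw (sys1 E ψ H) n) = ∑ π : Cyc E n,
      (∏ i, H (π.1 i) (π.1 (i + 1)) (η π (i + 1))) /
        (1 - ∏ i, deriv (ψ (π.1 i) (π.1 (i + 1))) (η π (i + 1))) := by
  classical
  rw [sys1, tr_npw_blk, ← Finset.sum_filter_of_ne (p := fun π => ∀ i, E (π i) (π (i + 1)))]
  · refine (Finset.sum_subtype (p := fun π : ZMod (n + 1) → S => ∀ i, E (π i) (π (i + 1)))
      (F := (inferInstance : Fintype (Cyc E n))) _ (by simp) _).trans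
      (Finset.sum_congr rfl fun π _ => ?_)
    obtain ⟨Ψ, W, h1, h2, h3, h4, h5, h6⟩ := Op1.pathMul_eq hR hq hψ hH
      (B := fun σ σ' => if E σ σ' then op1 (ψ σ σ') (H σ σ') else 0) (fun σ σ' h => if_pos h)
      (π := fun i : ℕ => π.1 (i : ZMod (n + 1))) (fun i => by simpa using π.2 i)
      (η := fun i : ℕ => η π (i : ZMod (n + 1))) (fun i => hη π _)
      (fun i => by simpa using horb π i) n
    simp only [ZMod.natCast_self, Nat.cast_zero] at h4 h5 h6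
    simp only [Nat.cast_succ] at h5 h6
    rw [h3, Op1.tr_op1 hR hq h1 h2 (hη π 0) h4, h5, h6,
      Op1.prod_range_zmod n fun i => H (π.1 i) (π.1 (i + 1)) (η π (i + 1)),
      Op1.prod_range_zmod n fun i => deriv (ψ (π.1 i) (π.1 (i + 1))) (η π (i + 1))]
  · intro π _ h i
    by_contra hi
    refine h ?_
    rw [Op1.pathMul_eq_zero _ _ n (i := i.val) (Nat.lt_succ_iff.1 (ZMod.val_lt i)), map_zero]
    simp only [Nat.cast_succ, ZMod.natCast_zmod_val, if_neg hi]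

end Pool.Agent.Lib.MP_de7bb2_an
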