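import Pool.Agent.Lib.MP_de7bb2_an.H20Grp
import Pool.Agent.Lib.MP_de7bb2_an.H20Op1

/-! The surface group, its characters and the symbolic states. TASK HOM. -/

namespace Pool.Agent.Lib.MP_de7bb2_an

open Metric Set Complex

abbrev Q := ZMod 2 × ZMod 2

variable {G : ℕ}

def clL (m : L G) : Q := if par m = 1 then (1, 0) else (0, 1)

namespace Hom

theorem two_cases : ∀ a : ZMod 2, a = 0 ∨ a = 1 := by decide

theorem q_add_self : ∀ q : Q, q + q = 0 := by decide

theorem q_neg : ∀ q : Q, -q = q := by decide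

theorem clL_congr {m m' : L G} (h : par m = par m') : clL m = clL m' := by
  rw [clL, clL, h]

theorem par_add_two (m : L G) : par (m + 2) = par m := by
  rw [map_add, map_ofNat, show (2 : ZMod 2) = 0 from rfl, add_zero]

theorem ind_succ {p : L G → Prop} (h0 : p 0) (hs : ∀ m, p m → p (m + 1)) (m : L G) : p m := by
  have : ∀ n : ℕ, p n := fun n => by
    induction n with
    | zero => simpa using h0
    | succ n ih => simpa using hs _ ih
  simpa using this m.val

theorem two_step {α : Type*} {x : L G → α} (h : ∀ j, x (j + 1) = x (j - 1)) (n : ℕ) :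
    x (n + 2 : ℕ) = x n := by
  have := h (n + 1)
  rw [add_sub_cancel_right] at this
  rw [← this]
  congr 1
  push_cast
  ring

theorem eq_of_par {α : Type*} {x : L G → α} (h : ∀ j, x (j + 1) = x (j - 1)) {m m' : L G}
    (hm : par m = par m') : x m = x m' := by
  have h1 : ∀ n : ℕ, x n = x (n % 2 : ℕ) := fun n => by
    induction n using Nat.twoStepInduction with
    | zero => rfl
    | one => rfl
    | more n ih _ => rw [Nat.add_mod_right, ← ih, two_step h]
  rw [← ZMod.natCast_zmod_val m, ← ZMod.natCast_zmod_val m'] at hm ⊢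
  rw [map_natCast, map_natCast, ZMod.natCast_eq_natCast_iff'] at hm
  rw [h1, hm, ← h1]

end Hom

theorem exists_cl : ∃ F : W G →* Multiplicative Q,
    ∀ m : L G, F (sr m) = Multiplicative.ofAdd (clL m) :=
  exists_hom_of _ (fun m => congrArg Multiplicative.ofAdd (Hom.q_add_self (clL m)))
    fun _ => mul_comm _ _

noncomputable def clH : W G →* Multiplicative Q := exists_cl.choose

/-- The class of a chamber. -/
noncomputable def cl (g : W G) : Q := Multiplicative.toAdd (clH g)

/-- The surface group. -/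
noncomputable def Gam (G : ℕ) : Subgroup (W G) := (clH (G := G)).ker

def sec (q : Q) : W G := sr 1 ^ q.1.val * sr 0 ^ q.2.val

def sgn (q : Q) (m : L G) : ℂ := if (if par m = 1 then q.1 else q.2) = 0 then 1 else -1

namespace Hom

theorem cl_step (g : W G) (m : L G) : cl (g * sr m) = cl g + clL m := by
  rw [cl, map_mul, show clH (sr m) = _ from exists_cl.choose_spec m]
  rfl

theorem exists_cocycle {A : Type} [AddCommGroup A] (c : Q → L G → A)
    (h1 : ∀ q m, c q m + c (q + clL m) m = 0)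
    (h2 : ∀ q m, c q m + c (q + clL m) (m + 1) = c q (m + 1) + c (q + clL (m + 1)) m) :
    ∃ F : W G → A, F 1 = 0 ∧ ∀ g m, F (g * sr m) = F g + c (cl g) m := by
  obtain ⟨φ, hφ⟩ := exists_hom_of (G := G) (M := Function.End (Q × A))
    (fun m z => (z.1 + clL m, z.2 + c z.1 m))
    (fun m => funext fun z => Prod.ext ((add_assoc _ _ _).trans (by rw [q_add_self, add_zero]; rfl))
      ((add_assoc _ _ _).trans (by rw [h1, add_zero]; rfl)))
    fun m => funext fun z => Prod.ext (add_right_comm _ _ _)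
      ((add_assoc _ _ _).trans ((congrArg _ (h2 z.1 m).symm).trans (add_assoc _ _ _).symm))
  have h3 : ∀ g m, φ (g * sr m)⁻¹ (0, 0) =
      ((φ g⁻¹ (0, 0)).1 + clL m, (φ g⁻¹ (0, 0)).2 + c (φ g⁻¹ (0, 0)).1 m) := fun g m => by
    rw [mul_inv_rev, sr_inv, map_mul, hφ]
    rfl
  have h4 : ∀ g, (φ g⁻¹ (0, 0)).1 = cl g := fun g => by
    induction g using W.induction_right with
    | h1 => rw [inv_one, map_one, cl, map_one]; rfl
    | hs g m ih => rw [h3, cl_step, ih]
  refine ⟨fun g => (φ g⁻¹ (0, 0)).2, ?_, fun g m => ?_⟩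
  · beta_reduce
    rw [inv_one, map_one]
    rfl
  · beta_reduce
    rw [h3, h4]

theorem sgn_self (q : Q) (m : L G) : sgn (q + clL m) m = -sgn q m := by
  obtain ⟨a, b⟩ := q
  rcases two_cases (par m) with h | h <;> rcases two_cases a with rfl | rfl <;>
    rcases two_cases b with rfl | rfl <;> simp [sgn, clL, h, CharTwo.add_self_eq_zero]

theorem sgn_other (q : Q) {m m' : L G} (h : par m' = par m + 1) : sgn (q + clL m') m = sgn q m := by
  rcases two_cases (par m) with h' | h' <;> simp [sgn, clL, h, h', CharTwo.add_self_eq_zero]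

theorem sgn_congr (q : Q) {m m' : L G} (h : par m = par m') : sgn q m = sgn q m' := by
  rw [sgn, sgn, h]

theorem sgn_cases (q : Q) (m : L G) : sgn q m = 1 ∨ sgn q m = -1 := by
  unfold sgn
  split_ifs <;> simp

theorem par_eq (m : L G) : par m = par (m + 1) + 1 := by
  rw [par_add_one, add_assoc, CharTwo.add_self_eq_zero, add_zero]

end Hom

theorem exists_Th : ∃ T : (L G → ℂ) →ₗ[ℂ] (W G → ℂ), ∀ x, T x 1 = 0 ∧
    ∀ g m, T x (g * sr m) = T x g + sgn (cl g) m * x m := by
  obtain ⟨F, h1, h2⟩ := Hom.exists_cocycle (G := G) (A := (L G → ℂ) →ₗ[ℂ] ℂ)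
    (fun q m => sgn q m • LinearMap.proj m) (fun q m => by rw [Hom.sgn_self, neg_smul, add_neg_cancel])
    fun q m => by rw [Hom.sgn_other q (par_add_one m), Hom.sgn_other q (Hom.par_eq m), add_comm]
  exact ⟨LinearMap.pi F, fun x => ⟨by simp [h1], fun g m => by simp [h2]⟩⟩

/-- The additive cocycle with parameters `x`. -/
noncomputable def Th : (L G → ℂ) →ₗ[ℂ] (W G → ℂ) := exists_Th.choose

/-- Symbolic states of level one. -/
abbrev St (G : ℕ) := Q × L G

def StE (b : ZMod 2) (σ σ' : St G) : Prop := Edge b σ.2 σ'.2 ∧ σ'.1 = σ.1 + clL σ.2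

/-- The word of a closed path. -/
def cw {n : ℕ} (u : ZMod (n + 1) → L G) : List (L G) :=
  List.ofFn fun i : Fin (n + 1) => u (i : ℕ)

/-- The element of the surface group attached to a closed path. -/
def gam {b : ZMod 2} {n : ℕ} (π : Cyc (StE (G := G) b) n) : W G :=
  sec (π.1 0).1 * wd (cw fun i => (π.1 i).2) * (sec (π.1 0).1)⁻¹

theorem cl_one : cl (1 : W G) = 0 := by
  rw [cl, map_one]
  rfl
theorem cl_mul (g h : W G) : cl (g * h) = cl g + cl h := by
  rw [cl, map_mul]
  rfl
theorem cl_inv (g : W G) : cl g⁻¹ = cl g := by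
  rw [cl, map_inv]
  exact Hom.q_neg _
theorem cl_sr (m : L G) : cl (sr m) = clL m := by
  rw [← one_mul (sr m), Hom.cl_step, cl_one, zero_add]
theorem cl_sec (q : Q) : cl (sec q : W G) = q := by
  obtain ⟨a, b⟩ := q
  rcases Hom.two_cases a with rfl | rfl <;> rcases Hom.two_cases b with rfl | rfl <;>
    simp [sec, cl_mul, cl_sr, cl_one, clL, ZMod.val_one, Prod.mk_zero_zero]
theorem clL_add_self (m : L G) : clL m + clL m = 0 := Hom.q_add_self _
theorem mem_Gam {g : W G} : g ∈ Gam G ↔ cl g = 0 := Iff.rfl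
theorem mul_sec_inv_mem (g : W G) : g * (sec (cl g))⁻¹ ∈ Gam G := by
  rw [mem_Gam, cl_mul, cl_inv, cl_sec, Hom.q_add_self]
theorem even_length_of_mem {u : List (L G)} (h : wd u ∈ Gam G) : Even u.length := by
  have h1 : ∀ v : List (L G), (cl (wd v)).1 + (cl (wd v)).2 = v.length := fun v => by
    induction v with
    | nil => simp [cl_one]
    | cons m v ih =>
      rw [wd_cons, cl_mul, cl_sr, List.length_cons, Nat.cast_succ, ← ih, clL]
      split_ifs <;> simp <;> ring
  rw [← ZMod.natCast_eq_zero_iff_even, ← h1, mem_Gam.1 h]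
  rfl
theorem Th_one (x : L G → ℂ) : Th x (1 : W G) = 0 := (exists_Th.choose_spec x).1
theorem Th_step (x : L G → ℂ) (g : W G) (m : L G) :
    Th x (g * sr m) = Th x g + sgn (cl g) m * x m := (exists_Th.choose_spec x).2 g m
theorem Th_mul_left (x : L G → ℂ) {γ : W G} (hγ : γ ∈ Gam G) (g : W G) :
    Th x (γ * g) = Th x γ + Th x g := by
  induction g using W.induction_right with
  | h1 => rw [mul_one, Th_one, add_zero]
  | hs g m ih => rw [← mul_assoc, Th_step, Th_step, ih, cl_mul, mem_Gam.1 hγ, zero_add, add_assoc]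
theorem Th_sub_congr (x : L G → ℂ) {g g' : W G} (h : cl g = cl g') (u : W G) :
    Th x (g * u) - Th x g = Th x (g' * u) - Th x g' := by
  induction u using W.induction_right with
  | h1 => simp
  | hs u m ih =>
    rw [← mul_assoc, ← mul_assoc, Th_step, Th_step, cl_mul, cl_mul, h]
    linear_combination ih
theorem norm_Th_sub_le (x : L G → ℂ) (g : W G) (u : List (L G)) :
    ‖Th x (g * wd u) - Th x g‖ ≤ u.length * ‖x‖ := by
  induction u generalizing g with
  | nil => simp
  | cons m u ih =>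
    have h1 : ‖sgn (cl g) m * x m‖ ≤ ‖x‖ := by
      rcases Hom.sgn_cases (cl g) m with h | h <;> simpa [h] using norm_le_pi_norm x m
    have h2 : Th x (g * wd (m :: u)) - Th x g =
        Th x (g * sr m * wd u) - Th x (g * sr m) + sgn (cl g) m * x m := by
      rw [wd_cons, ← mul_assoc, Th_step]
      ring
    rw [h2, List.length_cons, Nat.cast_succ, add_mul, one_mul]
    exact (norm_add_le _ _).trans (add_le_add (ih _) h1)
theorem exists_norm_Th_le (g : W G) : ∃ C, ∀ x : L G → ℂ, ‖Th x g‖ ≤ C * ‖x‖ := by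
  obtain ⟨u, rfl⟩ := exists_wd g
  exact ⟨u.length, fun x => by simpa [Th_one] using norm_Th_sub_le x 1 u⟩
theorem Th_im (x : L G → ℂ) (hx : ∀ m, (x m).im = 0) (g : W G) : (Th x g).im = 0 := by
  induction g using W.induction_right with
  | h1 => rw [Th_one, zero_im]
  | hs g m ih => rcases Hom.sgn_cases (cl g) m with h | h <;> simp [Th_step, ih, h, hx]
theorem Th_wall (x : L G → ℂ) (g : W G) (j : L G) : ∃ e : ℂ, (e = 1 ∨ e = -1) ∧
    Th x (g * (sr (j + 1) * sr (j - 1))) - Th x g = e * (x (j + 1) - x (j - 1)) ∧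
    Th x (g * (sr (j - 1) * sr (j + 1))) - Th x g = -e * (x (j + 1) - x (j - 1)) := by
  have h : par (j - 1) = par (j + 1) := (par_sub_one j).trans (par_add_one j).symm
  refine ⟨sgn (cl g) (j + 1), Hom.sgn_cases _ _, ?_, ?_⟩
  · rw [← mul_assoc, Th_step, Th_step, Hom.cl_step, Hom.sgn_congr _ h, Hom.sgn_self]
    ring
  · rw [← mul_assoc, Th_step, Th_step, Hom.cl_step, Hom.sgn_congr _ h, Hom.clL_congr h,
      Hom.sgn_self]
    ring
theorem Th_conj (x : L G → ℂ) (g : W G) {γ : W G} (hγ : γ ∈ Gam G) :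
    Th x (g * γ * g⁻¹) = Th x (g * γ) - Th x g := by
  have h : g * γ * g⁻¹ ∈ Gam G := by
    rw [mem_Gam, cl_mul, cl_mul, cl_inv, mem_Gam.1 hγ, add_zero, Hom.q_add_self]
  rw [eq_sub_iff_add_eq, ← Th_mul_left x h, inv_mul_cancel_right]

namespace Hom

theorem along (x : L G → ℂ) {σ : ℕ → St G} (h : ∀ i, (σ (i + 1)).1 = (σ i).1 + clL (σ i).2)
    {g : W G} (hg : cl g = (σ 0).1) (k : ℕ) :
    cl (g * wd (List.ofFn fun i : Fin k => (σ i).2)) = (σ k).1 ∧
      Th x (g * wd (List.ofFn fun i : Fin k => (σ i).2)) - Th x g =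
        ∑ i ∈ Finset.range k, sgn (σ i).1 (σ i).2 * x (σ i).2 := by
  induction k with
  | zero => simpa using hg
  | succ k ih =>
    rw [List.ofFn_succ_last, wd_append, wd_cons, wd_nil, mul_one, ← mul_assoc, Th_step, cl_step,
      Finset.sum_range_succ, h, ← ih.2]
    simp only [Fin.val_castSucc, Fin.val_last, ih.1, true_and]
    ring

theorem along_cyc {b : ZMod 2} {n : ℕ} (x : L G → ℂ) (π : Cyc (StE (G := G) b) n) :
    cl (sec (π.1 0).1 * wd (cw fun i => (π.1 i).2)) = (π.1 0).1 ∧
      Th x (sec (π.1 0).1 * wd (cw fun i => (π.1 i).2)) - Th x (sec (π.1 0).1) =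
        ∑ i, sgn (π.1 i).1 (π.1 i).2 * x (π.1 i).2 := by
  obtain ⟨h1, h2⟩ := along x (σ := fun i => π.1 i) (fun i => by simpa using (π.2 i).2)
    (g := sec (π.1 0).1) (by simpa using cl_sec _) (n + 1)
  refine ⟨h1.trans (by simp), h2.trans ?_⟩
  rw [Finset.sum_range]
  exact Finset.sum_congr rfl fun i _ => by
    rw [show ((i : ℕ) : ZMod (n + 1)) = i from ZMod.natCast_zmod_val (n := n + 1) i]

theorem cw_mem {b : ZMod 2} {n : ℕ} (π : Cyc (StE (G := G) b) n) :
    wd (cw fun i => (π.1 i).2) ∈ Gam G := by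
  have h := (along_cyc 0 π).1
  rw [cl_mul, cl_sec] at h
  exact add_eq_left.1 h

end Hom

theorem gam_mem {b : ZMod 2} {n : ℕ} (π : Cyc (StE (G := G) b) n) : gam π ∈ Gam G := by
  rw [mem_Gam, gam, cl_mul, (Hom.along_cyc 0 π).1, cl_inv, cl_sec, Hom.q_add_self]
theorem wd_cw_mem {b : ZMod 2} {n : ℕ} (π : Cyc (StE (G := G) b) n) :
    wd (cw fun i => (π.1 i).2) ∈ Gam G := Hom.cw_mem π
theorem Th_gam {b : ZMod 2} {n : ℕ} (x : L G → ℂ) (π : Cyc (StE (G := G) b) n) :
    Th x (gam π) = ∑ i, sgn (π.1 i).1 (π.1 i).2 * x (π.1 i).2 :=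
  (Th_conj x _ (Hom.cw_mem π)).trans (Hom.along_cyc x π).2
theorem adm_cw {b : ZMod 2} {n : ℕ} {u : ZMod (n + 1) → L G} (h : ∀ i, Edge b (u i) (u (i + 1))) :
    Adm b (cw u ++ [u 0]) := by
  have h1 : cw u ++ [u 0] = List.ofFn fun i : Fin (n + 2) => u (i : ℕ) := by
    rw [List.ofFn_succ_last]
    simp [cw]
  rw [h1, Adm, List.isChain_ofFn]
  exact fun i _ => by simpa using h i

/-- The additive character of the surface group. -/
noncomputable def thH (x : L G → ℂ) : Additive (Gam G) →+ ℂ :=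
  AddMonoidHom.mk' (fun γ => Th x ((Additive.toMul γ : Gam G) : W G))
    fun γ _ => Th_mul_left x (Additive.toMul γ).2 _

namespace Hom

theorem wall_eq {x : L G → ℂ} (h : ∀ γ ∈ Gam G, Th x γ = 0) (j : L G) : x (j + 1) = x (j - 1) := by
  obtain ⟨e, h1, h2, -⟩ := Th_wall x 1 j
  rw [one_mul, Th_one, h _ (by
    rw [mem_Gam, cl_mul, cl_sr, cl_sr, clL_congr ((par_sub_one j).trans (par_add_one j).symm),
      q_add_self]), sub_zero, eq_comm, mul_eq_zero, sub_eq_zero] at h2
  refine h2.resolve_left ?_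
  rcases h1 with rfl | rfl <;> simp

/-- The real characters with real parameters. -/
noncomputable def Phi (G : ℕ) : (L G → ℝ) →ₗ[ℝ] Additive (Gam G) →+ ℝ where
  toFun x := reAddGroupHom.comp (thH fun m => x m)
  map_add' x y := by
    ext γ
    have : (fun m => ((x + y) m : ℂ)) = (fun m => (x m : ℂ)) + fun m => (y m : ℂ) := by
      ext m; simp
    rw [this]
    simp [thH]
  map_smul' r x := by
    ext γ
    have : (fun m => ((r • x) m : ℂ)) = (r : ℂ) • fun m => (x m : ℂ) := by
      ext m; simp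
    rw [this]
    simp [thH]

theorem Phi_apply (x : L G → ℝ) (γ : Gam G) :
    Phi G x (Additive.ofMul γ) = (Th (fun m => (x m : ℂ)) γ).re := rfl

theorem Th_par (y : ZMod 2 → ℂ) (g : W G) : Th (fun m => y (par m)) g =
    (if (cl g).1 = 0 then 0 else y 1) + if (cl g).2 = 0 then 0 else y 0 := by
  induction g using W.induction_right with
  | h1 => simp [Th_one, cl_one]
  | hs g m ih =>
    rw [Th_step, ih, cl_step]
    generalize cl g = q
    obtain ⟨a, b⟩ := q
    rcases two_cases (par m) with h | h <;> rcases two_cases a with rfl | rfl <;>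
      rcases two_cases b with rfl | rfl <;> simp [sgn, clL, h, CharTwo.add_self_eq_zero, add_comm]

theorem ker_Phi : LinearMap.ker (Phi G) = LinearMap.range (LinearMap.funLeft ℝ ℝ (par (G := G))) := by
  ext x
  rw [LinearMap.mem_ker, LinearMap.mem_range]
  constructor
  · intro h
    have h1 : ∀ j, x (j + 1) = x (j - 1) := fun j => ofReal_injective
      (wall_eq (x := fun m => x m) (fun γ hγ => Complex.ext (by
        rw [← Phi_apply x ⟨γ, hγ⟩, h]; rfl) (Th_im _ (fun m => ofReal_im _) γ)) j)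
    exact ⟨fun b => x b.val, funext fun m => eq_of_par h1 (by simp)⟩
  · rintro ⟨y, rfl⟩
    ext γ
    have := Th_par (fun b => (y b : ℂ)) (γ : W G)
    rw [mem_Gam.1 γ.2] at this
    exact (congrArg re this).trans (by simp)

theorem surj_Phi : Function.Surjective (Phi G) := by
  intro f
  let F : W G → ℝ := fun g => f (Additive.ofMul ⟨_, mul_sec_inv_mem g⟩)
  have h1 : ∀ (γ : Gam G) (g : W G), F (γ * g) = f (Additive.ofMul γ) + F g := fun γ g => by
    rw [← map_add, ← ofMul_mul]
    refine congrArg (fun z => f (Additive.ofMul z)) (Subtype.ext ?_)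
    simp only [cl_mul, mem_Gam.1 γ.2, zero_add, Subgroup.coe_mul, mul_assoc]
  have h2 : ∀ q, F (sec q) = 0 := fun q => by
    rw [← map_zero f]
    refine congrArg (fun z => f (Additive.ofMul z)) (Subtype.ext ?_)
    simp [cl_sec]
  let c : Q → L G → ℝ := fun q m => F (sec q * sr m)
  have h3 : ∀ g m, F (g * sr m) = F g + c (cl g) m := fun g m => by
    have := h1 ⟨_, mul_sec_inv_mem g⟩ (sec (cl g) * sr m)
    rwa [← mul_assoc, inv_mul_cancel_right] at this
  have h4 : ∀ q m, c (q + clL m) m = -c q m := fun q m => by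
    have := h3 (sec q * sr m) m
    rw [mul_assoc, sr_mul_self, mul_one, h2, cl_step, cl_sec] at this
    simp only [c] at this ⊢
    linarith
  have h5 : ∀ m, c 0 (m + 1) - c (clL (m + 1 + 1)) (m + 1) = c 0 m - c (clL (m + 1)) m := fun m => by
    have e1 := h3 (sec 0 * sr m) (m + 1)
    have e2 := h3 (sec 0 * sr (m + 1)) m
    rw [mul_assoc, ← sr_comm, ← mul_assoc, e1, cl_step, cl_step, cl_sec, zero_add, zero_add] at e2
    rw [add_assoc, one_add_one_eq_two, clL_congr (par_add_two m)]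
    simp only [c] at e2 ⊢
    linarith
  have h6 : ∀ m, c 0 m - c (clL (m + 1)) m = 0 := by
    refine ind_succ ?_ fun m hm => (h5 m).trans hm
    have e1 := h2 (0, 1)
    have e2 := h2 (1, 1)
    simp only [sec, ZMod.val_zero, ZMod.val_one, pow_zero, pow_one, one_mul] at e1 e2
    simp [c, clL, sec, ZMod.val_one, e1, e2]
  have h7 : ∀ q m, c q m = (sgn q m * c 0 m).re := fun q m => by
    have e1 := h4 0 m
    have e2 := h4 (clL (m + 1)) m
    have e3 := sub_eq_zero.1 (h6 m)
    obtain ⟨a, b⟩ := q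
    rcases two_cases (par m) with h | h <;> rcases two_cases a with rfl | rfl <;>
      rcases two_cases b with rfl | rfl <;>
      simp only [clL, par_add_one, h, CharTwo.add_self_eq_zero, zero_add, zero_ne_one, if_true,
        if_false, Prod.mk_add_mk, add_zero] at e1 e2 e3 <;>
      simp [sgn, h, Prod.mk_zero_zero, e1, e2, ← e3]
  have h8 : ∀ g, (Th (fun m => (c 0 m : ℂ)) g).re = F g := fun g => by
    induction g using W.induction_right with
    | h1 => simpa [Th_one, sec] using (h2 0).symm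
    | hs g m ih => rw [Th_step, add_re, ih, h3, h7 (cl g)]
  refine ⟨c 0, AddMonoidHom.ext fun γ => ?_⟩
  have := h1 γ.toMul (sec 0)
  rw [h2, add_zero, show (sec 0 : W G) = 1 by simp [sec], mul_one] at this
  exact (h8 _).trans this

end Hom

theorem finrank_hom [Fact (2 ≤ G)] : Module.finrank ℝ (Additive (Gam G) →+ ℝ) = 2 * G := by
  have h := (Hom.Phi G).finrank_range_add_finrank_ker
  rw [LinearMap.range_eq_top.2 (Hom.surj_Phi (G := G)), finrank_top, Hom.ker_Phi,
    LinearMap.finrank_range_of_inj (LinearMap.funLeft_injective_of_surjective ℝ ℝ (par (G := G))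
      (ZMod.castHom_surjective _)), Module.finrank_fintype_fun_eq_card,
    Module.finrank_fintype_fun_eq_card, ZMod.card, ZMod.card] at h
  exact add_right_cancel h

/-- The two directions in parameter space. -/
def xa (j : L G) : L G → ℂ := Pi.single j 1
def xb (G : ℕ) : L G → ℂ := fun m => (m.val : ℂ)

theorem indep_dirs [Fact (2 ≤ G)] (a b c : ℝ)
    (h : ∀ γ ∈ Gam G, Th ((a : ℂ) • xa 0 + (b : ℂ) • xa 1 + (c : ℂ) • xb G) γ = 0) :
    a = 0 ∧ b = 0 ∧ c = 0 := by
  have hG : 2 ≤ G := Fact.out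
  have h1 : ∀ i : ℕ, i < 6 → (i : L G).val = i := fun i hi => ZMod.val_natCast_of_lt (by omega)
  have h2 : ∀ i : ℕ, i < 6 → ((a : ℂ) • xa 0 + (b : ℂ) • xa 1 + (c : ℂ) • xb G : L G → ℂ) i =
      (if i = 0 then (a : ℂ) else 0) + (if i = 1 then (b : ℂ) else 0) + c * i := fun i hi => by
    have e0 : (i : L G) = 0 ↔ i = 0 := by rw [← ZMod.val_eq_zero, h1 i hi]
    have e1 : (i : L G) = 1 ↔ i = 1 := by
      rw [← (ZMod.val_injective _).eq_iff, h1 i hi, ← Nat.cast_one, h1 1 (by norm_num)]
    simp [xa, xb, Pi.single_apply, e0, e1, h1 i hi]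
  have h3 := fun (i : ℕ) (hi : i + 2 < 6) => congrArg re (((h2 _ hi).symm.trans
    (Hom.two_step (Hom.wall_eq h) i)).trans (h2 i (by omega)))
  have e0 := h3 0 (by norm_num)
  have e1 := h3 1 (by norm_num)
  have e2 := h3 2 (by norm_num)
  simp at e0 e1 e2
  refine ⟨?_, ?_, ?_⟩ <;> linarith

theorem xb_wall_ne [Fact (2 ≤ G)] (j : L G) : xb G (j + 1) - xb G (j - 1) ≠ 0 :=
  fun h => (far_succ_pred j).1 (ZMod.val_injective _ (Nat.cast_injective (sub_eq_zero.1 h)))

/-- Irreducibility of the state graph. -/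
theorem reach [Fact (2 ≤ G)] (b : ZMod 2) (σ σ' : St G) : Relation.ReflTransGen (StE b) σ σ' := by
  have h1 : ∀ (q : Q) {m m' : L G}, Far m m' →
      Relation.ReflTransGen (StE b) (q, m) (q + clL m, m') :=
    fun q _ _ h => .single ⟨h.edge b, rfl⟩
  have h2 : ∀ (q : Q) (m : L G), Relation.ReflTransGen (StE b) (q, m) (q + clL m, m) := fun q m => by
    have e1 := h1 (q + clL m) (far_add_two (m + 2))
    have e2 := h1 q (far_add_four m).symm
    rw [Hom.clL_congr (Hom.par_add_two m), add_assoc, clL_add_self, add_zero, add_assoc,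
      two_add_two_eq_four] at e1
    rw [← two_add_two_eq_four, ← add_assoc, Hom.clL_congr ((Hom.par_add_two _).trans
      (Hom.par_add_two m)), add_assoc m, two_add_two_eq_four] at e2
    exact ((h1 q (far_add_two m)).trans e1).trans e2
  have h3 : ∀ (q : Q) {m m' : L G}, Far m m' → Relation.ReflTransGen (StE b) (q, m) (q, m') :=
    fun q m _ h => by
      have := h1 (q + clL m) h
      rw [add_assoc, clL_add_self, add_zero] at this
      exact (h2 q m).trans this
  have h4 : ∀ (q : Q) (m k : L G), Relation.ReflTransGen (StE b) (q, m) (q, m + k) := fun q m => by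
    refine Hom.ind_succ (by rw [add_zero]) fun k hk => (hk.trans (h3 q (far_add_three _))).trans ?_
    have := h3 q (far_add_two (m + (k + 1))).symm
    rwa [show m + (k + 1) + 2 = m + k + 3 by ring] at this
  have h5 : ∀ (q : Q) (m m' : L G), Relation.ReflTransGen (StE b) (q, m) (q, m') := fun q m m' => by
    simpa using h4 q m (m' - m)
  have h6 : ∀ (q : Q) (m m' j : L G), Relation.ReflTransGen (StE b) (q, m) (q + clL j, m') :=
    fun q m m' j => ((h5 q m j).trans (h2 q j)).trans (h5 _ j m')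
  obtain ⟨q, m⟩ := σ
  obtain ⟨q', m'⟩ := σ'
  have e0 : clL (0 : L G) = (0, 1) := by simp [clL]
  have e1 : clL (1 : L G) = (1, 0) := by simp [clL]
  have h7 : ∀ q q' : Q, q' = q ∨ q' = q + (0, 1) ∨ q' = q + (1, 0) ∨ q' = q + (0, 1) + (1, 0) := by
    decide
  rcases h7 q q' with rfl | rfl | rfl | rfl
  · exact h5 _ _ _
  · exact e0 ▸ h6 q m m' 0
  · exact e1 ▸ h6 q m m' 1
  · exact e0 ▸ e1 ▸ (h6 q m m 0).trans (h6 _ m m' 1)

end Pool.Agent.Lib.MP_de7bb2_an
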