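import Pool.Agent.Lib.MP_de7bb2_an.H20Ev

/-! Fixed points of holomorphic self maps of a disc and the Lagrange formula. TASK LAGR. -/

namespace Pool.Agent.Lib.MP_de7bb2_an

open Metric Set Filter Topology

/-- `g` is holomorphic on the ball of radius `R` with values of norm at most `q`. -/
def Into {E : Type*} [NormedAddCommGroup E] [NormedSpace ℂ E] (R q : ℝ) (g : E → ℂ) : Prop :=
  DifferentiableOn ℂ g (ball 0 R) ∧ ∀ y ∈ ball (0 : E) R, ‖g y‖ ≤ q

variable {R q : ℝ} {g H : ℂ → ℂ}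

namespace Lagr

open ComplexConjugate

/-- The disc automorphism that sends `a` to zero. -/
noncomputable def mob (a z : ℂ) : ℂ := (z - a) / (1 - conj a * z)

theorem norm_conj_mul_lt {a z : ℂ} (ha : ‖a‖ < 1) (hz : ‖z‖ < 1) : ‖conj a * z‖ < 1 := by
  rw [norm_mul, Complex.norm_conj]
  exact mul_lt_one_of_nonneg_of_lt_one_left (norm_nonneg _) ha hz.le

theorem den_ne {a z : ℂ} (ha : ‖a‖ < 1) (hz : ‖z‖ < 1) : 1 - conj a * z ≠ 0 := by
  intro h
  have h1 := norm_conj_mul_lt ha hz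
  rw [← sub_eq_zero.1 h] at h1
  simp at h1

theorem den_le {a z : ℂ} (ha : ‖a‖ < 1) (hz : ‖z‖ < 1) : ‖1 - conj a * z‖ ≤ 2 := by
  have h1 := norm_conj_mul_lt ha hz
  have h2 := norm_sub_le (1 : ℂ) (conj a * z)
  rw [norm_one] at h2
  linarith

theorem sq_id (a z : ℂ) :
    ‖1 - conj a * z‖ ^ 2 - ‖z - a‖ ^ 2 = (1 - ‖a‖ ^ 2) * (1 - ‖z‖ ^ 2) := by
  simp only [Complex.sq_norm, Complex.normSq_apply, Complex.sub_re, Complex.sub_im,
    Complex.mul_re, Complex.mul_im, Complex.conj_re, Complex.conj_im, Complex.one_re,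
    Complex.one_im]
  ring

theorem norm_mob_lt {a z : ℂ} (ha : ‖a‖ < 1) (hz : ‖z‖ < 1) : ‖mob a z‖ < 1 := by
  rw [mob, norm_div, div_lt_one (norm_pos_iff.2 (den_ne ha hz))]
  refine lt_of_pow_lt_pow_left₀ 2 (norm_nonneg _) ?_
  have h1 := sq_id a z
  have h2 : 0 < 1 - ‖a‖ ^ 2 := by nlinarith [norm_nonneg a]
  have h3 : 0 < 1 - ‖z‖ ^ 2 := by nlinarith [norm_nonneg z]
  nlinarith [mul_pos h2 h3]

theorem norm_mob_le (hq : q < 1) {a z : ℂ} (ha : ‖a‖ ≤ q) (hz : ‖z‖ ≤ q) :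
    ‖mob a z‖ ≤ √(1 - (1 - q ^ 2) ^ 2 / 4) := by
  have ha1 := ha.trans_lt hq
  have hz1 := hz.trans_lt hq
  have hq0 : 0 ≤ q := (norm_nonneg _).trans ha
  have hN := norm_pos_iff.2 (den_ne ha1 hz1)
  refine Real.le_sqrt_of_sq_le ?_
  rw [mob, norm_div, div_pow, div_le_iff₀ (pow_pos hN 2)]
  have h1 := sq_id a z
  have h0 : 0 ≤ 1 - q ^ 2 := by nlinarith
  have h2 : 1 - q ^ 2 ≤ 1 - ‖a‖ ^ 2 := by nlinarith [norm_nonneg a]
  have h3 : 1 - q ^ 2 ≤ 1 - ‖z‖ ^ 2 := by nlinarith [norm_nonneg z]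
  have h4 : (1 - q ^ 2) ^ 2 ≤ (1 - ‖a‖ ^ 2) * (1 - ‖z‖ ^ 2) := by
    rw [sq]
    exact mul_le_mul h2 h3 h0 (h0.trans h2)
  have h5 : ‖1 - conj a * z‖ ^ 2 ≤ 4 := by nlinarith [den_le ha1 hz1]
  nlinarith [mul_le_mul_of_nonneg_left h5 (sq_nonneg (1 - q ^ 2))]

theorem mob_mob {a z : ℂ} (ha : ‖a‖ < 1) (hz : ‖z‖ < 1) : mob (-a) (mob a z) = z := by
  have h1 := den_ne ha hz
  have h2 := den_ne ha ha
  have h3 : 1 - conj (-a) * mob a z = (1 - conj a * a) / (1 - conj a * z) := by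
    rw [mob, map_neg]
    field_simp
    ring
  have h4 : mob a z - -a = z * ((1 - conj a * a) / (1 - conj a * z)) := by
    rw [mob, sub_neg_eq_add, div_add' _ _ _ h1, ← mul_div_assoc]
    congr 1
    ring
  rw [mob, h3, h4, mul_div_cancel_right₀ _ (div_ne_zero h2 h1)]

theorem diffOn_mob {a : ℂ} (ha : ‖a‖ < 1) : DifferentiableOn ℂ (mob a) (ball 0 1) := by
  refine DifferentiableOn.div (by fun_prop) (by fun_prop) fun z hz => ?_
  exact den_ne ha (mem_ball_zero_iff.1 hz)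

/-- A uniform Schwarz-Pick inequality. -/
theorem pick (hR : 1 < R) (hq : q < 1) : ∃ c, 0 ≤ c ∧ c < 1 ∧ ∀ g : ℂ → ℂ, Into R q g →
    ∀ a z : ℂ, ‖a‖ < 1 → ‖z‖ < 1 → ‖mob (g a) (g z)‖ ≤ c * ‖mob a z‖ := by
  rcases lt_or_ge q 0 with hq0 | hq0
  · refine ⟨0, le_rfl, one_pos, fun g hg => ?_⟩
    have := hg.2 0 (mem_ball_self (by linarith))
    linarith [norm_nonneg (g 0)]
  refine ⟨√(1 - (1 - q ^ 2) ^ 2 / 4), Real.sqrt_nonneg _, ?_, fun g hg a z ha hz => ?_⟩
  · rw [Real.sqrt_lt' one_pos]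
    have h0 : 0 < 1 - q ^ 2 := by nlinarith
    nlinarith [pow_pos h0 2]
  have hb : ∀ w : ℂ, ‖w‖ < 1 → ‖g w‖ ≤ q := fun w hw =>
    hg.2 w (mem_ball_zero_iff.2 (hw.trans hR))
  have ha' : ‖-a‖ < 1 := by rwa [norm_neg]
  have hm : MapsTo (mob (-a)) (ball 0 1) (ball 0 1) := fun w hw =>
    mem_ball_zero_iff.2 (norm_mob_lt ha' (mem_ball_zero_iff.1 hw))
  have hg1 : MapsTo g (ball 0 1) (ball 0 1) := fun w hw =>
    mem_ball_zero_iff.2 ((hb w (mem_ball_zero_iff.1 hw)).trans_lt hq)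
  have hd : DifferentiableOn ℂ (mob (g a) ∘ g ∘ mob (-a)) (ball 0 1) :=
    (diffOn_mob ((hb a ha).trans_lt hq)).comp
      ((hg.1.mono (ball_subset_ball hR.le)).comp (diffOn_mob ha') hm) (hg1.comp hm)
  have h0 : (mob (g a) ∘ g ∘ mob (-a)) 0 = 0 := by simp [mob]
  have h1 := Complex.dist_le_div_mul_dist_of_mapsTo_ball (R₂ := √(1 - (1 - q ^ 2) ^ 2 / 4)) hd
    (fun w hw => by
      rw [h0, mem_closedBall_zero_iff]
      exact norm_mob_le hq (hb a ha) (hb _ (mem_ball_zero_iff.1 (hm hw))))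
    (mem_ball_zero_iff.2 (norm_mob_lt ha hz))
  rw [h0, dist_zero_right, dist_zero_right, div_one] at h1
  simpa only [Function.comp_apply, mob_mob ha hz] using h1

theorem norm_sub_eq {a z : ℂ} (ha : ‖a‖ < 1) (hz : ‖z‖ < 1) :
    ‖z - a‖ = ‖mob a z‖ * ‖1 - conj a * z‖ := by
  rw [mob, norm_div, div_mul_cancel₀ _ (norm_ne_zero_iff.2 (den_ne ha hz))]

theorem norm_fix_le (hg : Into R q g) {y : ℂ} (hy : ‖y‖ < R) (h : g y = y) : ‖y‖ ≤ q :=
  h ▸ hg.2 y (mem_ball_zero_iff.2 hy)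

/-- The iterates of zero. -/
noncomputable def iter {P : Type*} (g : P × ℂ → ℂ) : ℕ → P → ℂ
  | 0, _ => 0
  | n + 1, p => g (p, iter g n p)

theorem coef_shift (F : ℂ → ℂ) (b : ℕ) : coef (fun z => F z * z⁻¹ ^ b) 0 = coef F b := by
  unfold coef
  congr 2
  funext t
  beta_reduce
  rw [← Complex.exp_neg, ← Complex.exp_nat_mul]
  simp [mul_assoc]

theorem hasSum_geom {w : ℂ → ℂ} (hq : q < 1) (hH : ContinuousOn H (sphere 0 1))
    (hw : ContinuousOn w (sphere 0 1)) (hb : ∀ z, ‖z‖ = 1 → ‖w z‖ ≤ q) :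
    HasSum (fun b => coef (fun z => H z * w z ^ b) b)
      (coef (fun z => H z * (1 - w z * z⁻¹)⁻¹) 0) := by
  obtain ⟨M, hM⟩ := (isCompact_sphere (0 : ℂ) 1).exists_bound_of_continuousOn hH
  have hq0 : 0 ≤ q := (norm_nonneg _).trans (hb 1 norm_one)
  have hn : ∀ z : ℂ, ‖z‖ = 1 → ‖w z * z⁻¹‖ ≤ q := fun z hz => by
    rw [norm_mul, norm_inv, hz, inv_one, mul_one]
    exact hb z hz
  have hi : ContinuousOn (fun z : ℂ => z⁻¹) (sphere 0 1) :=
    continuousOn_id.inv₀ fun z hz h0 => by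
      rw [mem_sphere_zero_iff_norm] at hz
      rw [id] at h0
      simp [h0] at hz
  have h1 := hasSum_coef_of_bound (F := fun b z => H z * (w z * z⁻¹) ^ b) (u := fun b => M * q ^ b)
    ((summable_geometric_of_lt_one hq0 hq).mul_left M)
    (fun b => hH.mul ((hw.mul hi).pow b))
    (fun b z hz => by
      have hMz := hM z (mem_sphere_zero_iff_norm.2 hz)
      rw [norm_mul, norm_pow]
      exact mul_le_mul hMz (pow_le_pow_left₀ (norm_nonneg _) (hn z hz) b) (by positivity)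
        ((norm_nonneg _).trans hMz)) 0
  rw [coef_congr (K := fun z => H z * (1 - w z * z⁻¹)⁻¹) (fun z hz => by
    rw [tsum_mul_left, tsum_geometric_of_norm_lt_one ((hn z hz).trans_lt hq)])] at h1
  have h2 : (fun b => coef (fun z => H z * w z ^ b) b) =
      fun b => coef (fun z => H z * (w z * z⁻¹) ^ b) 0 := by
    funext b
    rw [← coef_shift]
    simp only [mul_pow, mul_assoc]
  rw [h2]
  exact h1

end Lagr

open Lagr ComplexConjugate

theorem fix_unique (hR : 1 < R) (hq : q < 1) (hg : Into R q g) {y y' : ℂ} (hy : ‖y‖ < R)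
    (hy' : ‖y'‖ < R) (h : g y = y) (h' : g y' = y') : y = y' := by
  obtain ⟨c, -, hc, hp⟩ := pick hR hq
  have h1 := (norm_fix_le hg hy h).trans_lt hq
  have h2 := (norm_fix_le hg hy' h').trans_lt hq
  have h3 := hp g hg y y' h1 h2
  rw [h, h'] at h3
  have h4 : ‖mob y y'‖ = 0 := by nlinarith [norm_nonneg (mob y y')]
  have h5 := norm_sub_eq h1 h2
  rw [h4, zero_mul, norm_eq_zero, sub_eq_zero] at h5
  exact h5.symm

theorem norm_deriv_fix_lt (hR : 1 < R) (hq : q < 1) (hg : Into R q g) {y : ℂ} (hy : ‖y‖ < R)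
    (h : g y = y) : ‖deriv g y‖ < 1 := by
  obtain ⟨c, hc0, hc, hp⟩ := pick hR hq
  have h1 := (norm_fix_le hg hy h).trans_lt hq
  have hd : DifferentiableAt ℂ g y :=
    hg.1.differentiableAt (isOpen_ball.mem_nhds (mem_ball_zero_iff.2 hy))
  have hs : Tendsto (fun z => ‖slope g y z‖) (𝓝[≠] y) (𝓝 ‖deriv g y‖) :=
    (hasDerivAt_iff_tendsto_slope.1 hd.hasDerivAt).norm
  have hne := norm_ne_zero_iff.2 (den_ne h1 h1)
  have ht : ContinuousAt (fun z => c * ‖1 - conj y * g z‖ / ‖1 - conj y * z‖) y := by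
    have := hd.continuousAt
    exact ContinuousAt.div (by fun_prop) (by fun_prop) hne
  have ht' : Tendsto (fun z => c * ‖1 - conj y * g z‖ / ‖1 - conj y * z‖) (𝓝[≠] y) (𝓝 c) := by
    have := ht.tendsto.mono_left (nhdsWithin_le_nhds (s := {y}ᶜ))
    rwa [h, mul_div_cancel_right₀ _ hne] at this
  refine (le_of_tendsto_of_tendsto hs ht' ?_).trans_lt hc
  filter_upwards [self_mem_nhdsWithin,
    mem_nhdsWithin_of_mem_nhds (isOpen_ball.mem_nhds (mem_ball_zero_iff.2 h1))] with z hz hz1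
  rw [mem_ball_zero_iff] at hz1
  have hgz := (hg.2 z (mem_ball_zero_iff.2 (hz1.trans hR))).trans_lt hq
  have h3 := hp g hg y z h1 hz1
  rw [h] at h3
  have h4 : 0 < ‖z - y‖ := norm_pos_iff.2 (sub_ne_zero.2 hz)
  have h5 := norm_pos_iff.2 (den_ne h1 hz1)
  rw [slope_def_field, norm_div, h, div_le_div_iff₀ h4 h5, norm_sub_eq h1 hgz, norm_sub_eq h1 hz1]
  calc ‖mob y (g z)‖ * ‖1 - conj y * g z‖ * ‖1 - conj y * z‖
      ≤ c * ‖mob y z‖ * ‖1 - conj y * g z‖ * ‖1 - conj y * z‖ := by gcongr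
    _ = _ := by ring

theorem lagrange (hR : 1 < R) (hq : q < 1) (hg : Into R q g)
    (hH : DifferentiableOn ℂ H (ball 0 R)) {y : ℂ} (hy : ‖y‖ < R) (h : g y = y) :
    HasSum (fun b => coef (fun z => H z * g z ^ b) b) (H y / (1 - deriv g y)) := by
  have hs : sphere (0 : ℂ) 1 ⊆ ball 0 R := sphere_subset_ball hR
  have hyb : y ∈ ball (0 : ℂ) R := mem_ball_zero_iff.2 hy
  have hfac : ∀ z, z - g z = (z - y) * (1 - dslope g y z) := fun z => by
    have := sub_smul_dslope g y z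
    rw [smul_eq_mul, h] at this
    rw [mul_sub, this]
    ring
  have hne : ∀ z ∈ ball (0 : ℂ) R, 1 - dslope g y z ≠ 0 := fun z hz h0 => by
    have h1 := hfac z
    rw [h0, mul_zero, sub_eq_zero] at h1
    have h2 := fix_unique hR hq hg hy (mem_ball_zero_iff.1 hz) h h1.symm
    subst h2
    have h3 := norm_deriv_fix_lt hR hq hg hy h
    rw [dslope_same, sub_eq_zero] at h0
    rw [← h0] at h3
    simp at h3
  have hK : DifferentiableOn ℂ (fun z => H z / (1 - dslope g y z)) (ball 0 R) :=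
    hH.div ((differentiableOn_const 1).sub
      ((Complex.differentiableOn_dslope (isOpen_ball.mem_nhds hyb)).2 hg.1)) hne
  have h1 := hasSum_geom hq (hH.continuousOn.mono hs) (hg.1.continuousOn.mono hs)
    fun z hz => hg.2 z (hs (mem_sphere_zero_iff_norm.2 hz))
  have h2 := hasSum_geom (w := fun _ => y) hq (hK.continuousOn.mono hs) continuousOn_const
    fun _ _ => norm_fix_le hg hy h
  have h3 := hasSum_coef hR hK hyb
  have h4 : (fun b => coef (fun z => H z / (1 - dslope g y z) * y ^ b) b) =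
      fun b => coef (fun z => H z / (1 - dslope g y z)) b * y ^ b := by
    funext b
    rw [mul_comm, ← coef_const_mul]
    simp only [mul_comm]
  rw [h4] at h2
  have h5 := h2.unique h3
  rw [dslope_same] at h5
  rw [← h5, coef_congr (K := fun z => H z * (1 - g z * z⁻¹)⁻¹)]
  · exact h1
  intro z hz
  have hz0 : z ≠ 0 := fun h0 => by simp [h0] at hz
  have h6 : 1 - g z * z⁻¹ = (1 - dslope g y z) * (1 - y * z⁻¹) := by
    have h7 : 1 - g z * z⁻¹ = (z - g z) * z⁻¹ := by field_simp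
    rw [h7, hfac z]
    field_simp
  rw [h6, mul_inv, div_eq_mul_inv, mul_assoc]

/-- The fixed point depends holomorphically on parameters and is real for real maps. -/
theorem exists_fix_param {P : Type*} [NormedAddCommGroup P] [NormedSpace ℂ P] {U : Set P}
    (hU : IsOpen U) (hR : 1 < R) (hq : q < 1) {g : P × ℂ → ℂ}
    (hd : DifferentiableOn ℂ g (U ×ˢ ball 0 R)) (hb : ∀ x ∈ U ×ˢ ball (0 : ℂ) R, ‖g x‖ ≤ q) :
    ∃ y : P → ℂ, DifferentiableOn ℂ y U ∧ ∀ p ∈ U, ‖y p‖ ≤ q ∧ g (p, y p) = y p ∧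
      ((∀ t : ℝ, |t| < R → (g (p, t)).im = 0) → (y p).im = 0) := by
  obtain ⟨c, hc0, hc, hp⟩ := pick hR hq
  have hin : ∀ p ∈ U, Into R q fun z => g (p, z) := fun p hp =>
    ⟨hd.comp (by fun_prop) fun z hz => ⟨hp, hz⟩, fun z hz => hb _ ⟨hp, hz⟩⟩
  have hn : ∀ p ∈ U, ∀ n, ‖iter g n p‖ ≤ q := fun p hp n => by
    induction n with
    | zero =>
      rw [iter, norm_zero]
      exact (norm_nonneg _).trans (hb (p, 0) ⟨hp, mem_ball_self (by linarith)⟩)
    | succ n ih => exact hb _ ⟨hp, mem_ball_zero_iff.2 (by linarith)⟩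
  have hn1 : ∀ p ∈ U, ∀ n, ‖iter g n p‖ < 1 := fun p hp n => (hn p hp n).trans_lt hq
  have hdi : ∀ n, DifferentiableOn ℂ (iter g n) U := fun n => by
    induction n with
    | zero => exact differentiableOn_const 0
    | succ n ih =>
      exact hd.comp (differentiableOn_id.prodMk ih) fun p hp =>
        ⟨hp, mem_ball_zero_iff.2 ((hn1 p hp n).trans hR)⟩
  have hm : ∀ p ∈ U, ∀ n, ‖mob (iter g n p) (iter g (n + 1) p)‖ ≤ c ^ n := fun p hpU n => by
    induction n with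
    | zero => exact (norm_mob_lt (hn1 p hpU 0) (hn1 p hpU 1)).le.trans_eq (pow_zero c).symm
    | succ n ih =>
      refine (hp _ (hin p hpU) _ _ (hn1 p hpU n) (hn1 p hpU (n + 1))).trans ?_
      rw [pow_succ']
      gcongr
  have hs : ∀ n, ∀ p ∈ U, ‖iter g (n + 1) p - iter g n p‖ ≤ c ^ n * 2 := fun n p hpU => by
    rw [norm_sub_eq (hn1 p hpU n) (hn1 p hpU (n + 1))]
    exact mul_le_mul (hm p hpU n) (den_le (hn1 p hpU n) (hn1 p hpU (n + 1))) (norm_nonneg _)
      (pow_nonneg hc0 n)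
  have hu : Summable fun n => c ^ n * 2 := (summable_geometric_of_lt_one hc0 hc).mul_right 2
  refine ⟨fun p => ∑' n, (iter g (n + 1) p - iter g n p),
    diffOn_tsum hU (fun n => (hdi (n + 1)).sub (hdi n)) hu hs, fun p hpU => ?_⟩
  have hsum : Summable fun n => iter g (n + 1) p - iter g n p :=
    Summable.of_norm_bounded hu fun n => hs n p hpU
  have ht : Tendsto (fun n => iter g n p) atTop (𝓝 (∑' n, (iter g (n + 1) p - iter g n p))) := by
    refine hsum.hasSum.tendsto_sum_nat.congr fun n => ?_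
    rw [Finset.sum_range_sub (fun n => iter g n p) n, iter, sub_zero]
  beta_reduce
  generalize (∑' n, (iter g (n + 1) p - iter g n p)) = y at ht
  have hy : ‖y‖ ≤ q := le_of_tendsto' ht.norm (hn p hpU)
  refine ⟨hy, ?_, fun hre => ?_⟩
  · have hca : ContinuousAt (fun z => g (p, z)) y :=
      (hin p hpU).1.continuousOn.continuousAt
        (isOpen_ball.mem_nhds (mem_ball_zero_iff.2 (by linarith)))
    exact tendsto_nhds_unique (hca.tendsto.comp ht) ((tendsto_add_atTop_iff_nat 1).2 ht)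
  · have him : ∀ n, (iter g n p).im = 0 := fun n => by
      induction n with
      | zero => rfl
      | succ n ih =>
        have h1 : ((iter g n p).re : ℂ) = iter g n p := Complex.ext rfl (by simp [ih])
        have h2 := hre (iter g n p).re
          ((Complex.abs_re_le_norm _).trans_lt ((hn1 p hpU n).trans hR))
        rwa [h1] at h2
    have h3 := (Complex.continuous_im.tendsto y).comp ht
    have h4 : (Complex.im ∘ fun n => iter g n p) = fun _ => 0 := funext him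
    rw [h4] at h3
    exact tendsto_nhds_unique h3 tendsto_const_nhds

theorem exists_fix (hR : 1 < R) (hq : q < 1) (hg : Into R q g) : ∃ y, ‖y‖ ≤ q ∧ g y = y := by
  obtain ⟨y, -, hy⟩ := exists_fix_param (P := ℂ) (g := fun x => g x.2) isOpen_univ hR hq
    (hg.1.comp differentiableOn_snd fun x hx => hx.2) fun x hx => hg.2 _ hx.2
  exact ⟨y 0, (hy 0 (mem_univ _)).1, (hy 0 (mem_univ _)).2.1⟩

end Pool.Agent.Lib.MP_de7bb2_an
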