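import Pool.Agent.Lib.MP_de7bb2_an.H20Nest
import Pool.Agent.Lib.MP_de7bb2_an.H20Lagr

/-! Charts of the discs and the contracting maps. TASK CHART. -/

namespace Pool.Agent.Lib.MP_de7bb2_an

open Metric Set Complex ComplexConjugate

variable {G : ℕ}

noncomputable def sp (τ : ℝ) (m : L G) (η : ℂ) : ℂ × ℂ :=
  (hh m * (1 + I * τ * η), conj (hh m) * (1 - I * τ * η))

/-- Polynomial lift of the chart to the light cone. -/
noncomputable def Xi (τ : ℝ) (m : L G) (η : ℂ) : V := Sq (sp τ m η)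

/-- Inverse of the chart. -/
noncomputable def chI (τ : ℝ) (m : L G) (E : V) : ℂ :=
  (conj (ee m) * E.2.1 - ee m * E.2.2) /
    (I * τ * (conj (ee m) * E.2.1 + ee m * E.2.2 + 2 * E.1))

noncomputable def Nest0.psi {b : ZMod 2} (D : Nest0 G b) (m m' : L G) (η : ℂ) : ℂ :=
  chI (D.τ m) m (mir m (Xi (D.τ m') m' η))

structure Nest (G : ℕ) (b : ZMod 2) extends Nest0 G b where
  lj : L G → L G → ℂ → ℂ
  into : ∀ m m' : L G, Edge b m m' → Into R q (toNest0.psi m m')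
  lj_diff : ∀ m m' : L G, Edge b m m' → DifferentiableOn ℂ (lj m m') (ball 0 R)
  refl_Xi : ∀ m m' : L G, Edge b m m' → ∀ η ∈ ball (0 : ℂ) R,
    mir m (Xi (τ m') m' η) = exp (lj m m' η) • Xi (τ m) m (toNest0.psi m m' η)
  deriv_psi : ∀ m m' : L G, Edge b m m' → ∀ η ∈ ball (0 : ℂ) R,
    deriv (toNest0.psi m m') η = -((τ m' / τ m : ℝ) * exp (-lj m m' η))
  real : ∀ m m' : L G, Edge b m m' → ∀ η : ℝ, |η| < R →
    (toNest0.psi m m' η).im = 0 ∧ (lj m m' η).im = 0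

variable {b : ZMod 2} {m : L G} {τ : ℝ} {Y Z : V}

namespace Chart

theorem hh_conj (m : L G) : hh m * conj (hh m) = 1 := by
  rw [mul_conj, normSq_eq_norm_sq, norm_hh]
  simp

theorem ee_conj (m : L G) : ee m * conj (ee m) = 1 := by
  rw [mul_conj, normSq_eq_norm_sq, norm_ee]
  simp

theorem conj_ee (m : L G) : conj (ee m) = conj (hh m) ^ 2 := by
  rw [ee, map_pow]

theorem isRe_nu (a : ℝ) (m : L G) : IsRe (nu a m) := by
  refine ⟨ofReal_im _, ?_⟩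
  simp only [nu, map_mul, conj_ofReal]

theorem side_nu (hZ : IsRe Z) (a : ℝ) (m : L G) : side Z (nu a m) =
    (1 + a ^ 2) / (2 * a) * (conj (ee m) * Z.2.1).re - (1 - a ^ 2) / (2 * a) * Z.1.re := by
  rw [side_eq hZ (isRe_nu a m)]
  have h : Z.2.1 * conj (nu a m).2.1 =
      (((1 + a ^ 2) / (2 * a) : ℝ) : ℂ) * (conj (ee m) * Z.2.1) := by
    simp only [nu, map_mul, conj_ofReal]
    ring
  rw [h, re_ofReal_mul]
  simp only [nu, ofReal_re]
  ring

theorem ee_mul_snd (hZ : IsRe Z) (m : L G) : ee m * Z.2.2 = conj (conj (ee m) * Z.2.1) := by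
  rw [hZ.2, map_mul, conj_conj]

theorem norm_w (m : L G) (Z : V) : ‖conj (ee m) * Z.2.1‖ = ‖Z.2.1‖ := by
  rw [norm_mul, RCLike.norm_conj, norm_ee, one_mul]

theorem fut_sq (hZ : Fut Z) (m : L G) :
    (conj (ee m) * Z.2.1).re ^ 2 + (conj (ee m) * Z.2.1).im ^ 2 ≤ Z.1.re ^ 2 := by
  have h1 : ‖conj (ee m) * Z.2.1‖ ^ 2 ≤ Z.1.re ^ 2 := by
    rw [norm_w]
    exact pow_le_pow_left₀ (norm_nonneg _) hZ.2 2
  rw [← normSq_eq_norm_sq, normSq_apply] at h1
  nlinarith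

theorem nul_sq (hY : Nul Y) (m : L G) :
    (conj (ee m) * Y.2.1).re ^ 2 + (conj (ee m) * Y.2.1).im ^ 2 = Y.1.re ^ 2 := by
  have h1 : conj (ee m) * Y.2.1 * conj (conj (ee m) * Y.2.1) = (Y.1.re : ℂ) ^ 2 := by
    rw [← ee_mul_snd hY.1, ← hY.1.fst_eq]
    have h2 := hY.2.2
    have h3 := ee_conj m
    unfold br at h2
    linear_combination (-1 : ℂ) * h2 + Y.2.1 * Y.2.2 * h3
  rw [mul_conj, normSq_apply] at h1
  have h2 : (conj (ee m) * Y.2.1).re * (conj (ee m) * Y.2.1).re +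
      (conj (ee m) * Y.2.1).im * (conj (ee m) * Y.2.1).im = Y.1.re ^ 2 := by exact_mod_cast h1
  nlinarith

/-- Spinors in coordinates adapted to the letter `m`. -/
noncomputable def sp2 (m : L G) (α β : ℂ) : ℂ × ℂ :=
  (hh m * (α + I * β), conj (hh m) * (α - I * β))

theorem sp_eq (τ : ℝ) (m : L G) (η : ℂ) : sp τ m η = sp2 m 1 (τ * η) := by
  simp only [sp, sp2, mul_assoc]

theorem Herm_sp2_fst (m : L G) (α β : ℂ) : (Herm (sp2 m α β)).1.re = ‖α‖ ^ 2 + ‖β‖ ^ 2 := by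
  simp only [Herm, sp2, ofReal_re, norm_mul, RCLike.norm_conj, norm_hh, one_mul]
  simp only [← normSq_eq_norm_sq, normSq_apply, add_re, add_im, sub_re, sub_im, mul_re, mul_im,
    I_re, I_im]
  ring

theorem side_sp2 {a : ℝ} (ha : a ≠ 0) (m : L G) (α β : ℂ) :
    side (Herm (sp2 m α β)) (nu a m) = a * ‖α‖ ^ 2 - ‖β‖ ^ 2 / a := by
  rw [side_nu (fut_Herm _).1, Herm_sp2_fst]
  have h : conj (ee m) * (Herm (sp2 m α β)).2.1 = (α + I * β) * conj (α - I * β) := by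
    have h1 := hh_conj m
    simp only [Herm, sp2, map_mul, conj_conj, conj_ee]
    linear_combination (α + I * β) * conj (α - I * β) * (hh m * conj (hh m) + 1) * h1
  have h2 : ((α + I * β) * conj (α - I * β)).re = ‖α‖ ^ 2 - ‖β‖ ^ 2 := by
    simp only [← normSq_eq_norm_sq, normSq_apply, add_re, add_im, sub_re, sub_im, mul_re, mul_im,
      I_re, I_im, conj_re, conj_im]
    ring
  rw [h, h2]
  field_simp
  ring

theorem Sq_sp2 (hτ : τ ≠ 0) (m : L G) {α : ℂ} (hα : α ≠ 0) (β : ℂ) :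
    Sq (sp2 m α β) = α ^ 2 • Xi τ m (β / (τ * α)) := by
  have hτ' : (τ : ℂ) ≠ 0 := ofReal_ne_zero.2 hτ
  simp only [Xi, Sq, sp, sp2, Prod.smul_mk, smul_eq_mul, Prod.mk.injEq]
  refine ⟨?_, ?_, ?_⟩ <;> field_simp

theorem slit_aux {P Q r a : ℝ} (hP : 0 ≤ P) (hPQ : 0 < P + Q) (hr : r ^ 2 ≤ P * Q)
    (ha : a ^ 2 * P ≤ Q) {u : ℂ} (hu : ‖u‖ < a) :
    (P : ℂ) * u ^ 2 - 2 * r * u + Q ∈ slitPlane := by
  have hu2 : u.re ^ 2 + u.im ^ 2 < a ^ 2 := by
    have h1 := pow_lt_pow_left₀ hu (norm_nonneg _) two_ne_zero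
    rw [← normSq_eq_norm_sq, normSq_apply] at h1
    nlinarith
  have hQ : P * (u.re ^ 2 + u.im ^ 2) < Q := by
    rcases hP.eq_or_lt with h | h
    · rw [← h] at hPQ ⊢
      linarith
    · nlinarith
  have hre : ((P : ℂ) * u ^ 2 - 2 * r * u + Q).re =
      P * (u.re ^ 2 - u.im ^ 2) - 2 * r * u.re + Q := by
    simp [pow_two]
  have him : ((P : ℂ) * u ^ 2 - 2 * r * u + Q).im = 2 * u.im * (P * u.re - r) := by
    simp [pow_two]
    ring
  rw [mem_slitPlane_iff, hre, him]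
  by_contra hc
  push Not at hc
  obtain ⟨h1, h2⟩ := hc
  rcases mul_eq_zero.1 h2 with h3 | h3
  · have h4 : u.im = 0 := by linarith
    rw [h4] at h1 hQ
    have h5 : 0 ≤ P * u.re ^ 2 := by positivity
    have h6 : P * u.re ^ 2 + Q ≤ 2 * r * u.re := by nlinarith
    have h7 : (P * u.re ^ 2 + Q) ^ 2 ≤ (2 * r * u.re) ^ 2 :=
      pow_le_pow_left₀ (by nlinarith) h6 2
    have h8 : (2 * r * u.re) ^ 2 ≤ 4 * (P * Q) * u.re ^ 2 := by nlinarith [sq_nonneg u.re]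
    have h9 : 0 < (Q - P * u.re ^ 2) ^ 2 := pow_pos (by nlinarith) 2
    nlinarith
  · have h4 : r = P * u.re := by linarith
    rw [h4] at h1
    nlinarith

theorem br_Xi (hZ : IsRe Z) (τ : ℝ) (m : L G) (η : ℂ) : br (Xi τ m η) Z =
    ((Z.1.re + (conj (ee m) * Z.2.1).re : ℝ) : ℂ) * (τ * η) ^ 2 -
      2 * ((conj (ee m) * Z.2.1).im : ℝ) * (τ * η) +
        ((Z.1.re - (conj (ee m) * Z.2.1).re : ℝ) : ℂ) := by
  have h1 := ee_mul_snd hZ m
  have h2 := hh_conj m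
  have h3 := re_add_im (conj (ee m) * Z.2.1)
  have h4 : conj (conj (ee m) * Z.2.1) =
      (conj (ee m) * Z.2.1).re - (conj (ee m) * Z.2.1).im * I := by
    generalize conj (ee m) * Z.2.1 = w
    apply Complex.ext <;> simp
  rw [h4] at h1
  push_cast
  rw [← hZ.fst_eq]
  generalize ((conj (ee m) * Z.2.1).re : ℂ) = p at *
  generalize ((conj (ee m) * Z.2.1).im : ℂ) = r at *
  rw [conj_ee] at h3
  rw [ee] at h1
  simp only [br, Xi, Sq, sp]
  linear_combination (Z.1 * (1 + I * τ * η) * (1 - I * τ * η)) * h2 -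
    (1 + I * τ * η) ^ 2 / 2 * h1 + (1 - I * τ * η) ^ 2 / 2 * h3 +
    (-Z.1 * (τ * η) ^ 2 - p * (τ * η) ^ 2 + 2 * r * τ * η) * I_mul_I

theorem slit_fut (hτ : 0 < τ) {ρ : ℝ} (hρ : 0 < ρ) (hZ : Fut Z) (h0 : 0 < Z.1.re)
    (h : side Z (nu (τ * ρ) m) ≤ 0) {η : ℂ} (hη : ‖η‖ < ρ) : br (Xi τ m η) Z ∈ slitPlane := by
  rw [br_Xi hZ.1]
  have h1 := fut_sq hZ m
  rw [side_nu hZ.1] at h
  have ha : 0 < τ * ρ := mul_pos hτ hρ
  generalize (conj (ee m) * Z.2.1).re = p at *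
  generalize (conj (ee m) * Z.2.1).im = r at *
  refine slit_aux (a := τ * ρ) ?_ (by linarith) (by nlinarith) ?_ ?_
  · nlinarith [abs_le_of_sq_le_sq' (a := p) (b := Z.1.re) (by nlinarith) h0.le]
  · rw [div_mul_eq_mul_div, div_mul_eq_mul_div, ← sub_div, div_nonpos_iff] at h
    rcases h with h | h
    · linarith [h.2]
    · nlinarith [h.1]
  · rw [norm_mul, norm_real, Real.norm_eq_abs, abs_of_pos hτ]
    exact mul_lt_mul_of_pos_left hη hτ

end Chart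

open Chart

@[fun_prop] theorem differentiable_Xi (τ : ℝ) (m : L G) : Differentiable ℂ (Xi τ m) := by
  unfold Xi Sq sp
  fun_prop

theorem Xi_fst (τ : ℝ) (m : L G) (η : ℂ) : (Xi τ m η).1 = 1 + (τ * η) ^ 2 := by
  simp only [Xi, Sq, sp]
  linear_combination (1 + I * τ * η) * (1 - I * τ * η) * hh_conj m - (τ * η) ^ 2 * I_mul_I

theorem Xi_zero (τ : ℝ) (m : L G) : Xi τ m 0 = xi (ee m) := by
  simp only [Xi, Sq, sp, xi, mul_zero, add_zero, sub_zero, mul_one, hh_conj, Prod.mk.injEq,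
    true_and]
  exact ⟨rfl, by rw [← conj_ee]; exact eq_inv_of_mul_eq_one_right (ee_conj m)⟩

theorem br_Xi_Xi (τ : ℝ) (m : L G) (η η' : ℂ) :
    br (Xi τ m η) (Xi τ m η') = 2 * τ ^ 2 * (η - η') ^ 2 := by
  have h : (sp τ m η).1 * (sp τ m η').2 - (sp τ m η).2 * (sp τ m η').1 = 2 * I * τ * (η - η') := by
    simp only [sp]
    linear_combination (2 * I * τ * (η - η')) * hh_conj m
  rw [Xi, Xi, br_Sq_Sq, h]
  linear_combination (-2 * τ ^ 2 * (η - η') ^ 2) * I_mul_I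

theorem nul_Xi (τ : ℝ) (m : L G) (η : ℝ) : Nul (Xi τ m η) := by
  have h : (Xi τ m η).1 = ((1 + (τ * η) ^ 2 : ℝ) : ℂ) := by
    rw [Xi_fst]
    push_cast
    rfl
  refine ⟨⟨by rw [h, ofReal_im], ?_⟩, by rw [h, ofReal_re]; positivity, by simp [br_Xi_Xi]⟩
  simp only [Xi, Sq, sp, map_pow, map_mul, map_add, map_one, conj_I, conj_ofReal]
  ring

theorem chI_Xi (hτ : τ ≠ 0) {c : ℂ} (hc : c ≠ 0) (m : L G) (η : ℂ) :
    chI τ m (c • Xi τ m η) = η := by
  have hτ' : (τ : ℂ) ≠ 0 := ofReal_ne_zero.2 hτ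
  have h1 : conj (ee m) * (c • Xi τ m η).2.1 = c * (1 + I * τ * η) ^ 2 := by
    simp only [Xi, Sq, sp, Prod.smul_mk, smul_eq_mul, conj_ee]
    linear_combination c * (1 + I * τ * η) ^ 2 * (hh m * conj (hh m) + 1) * hh_conj m
  have h2 : ee m * (c • Xi τ m η).2.2 = c * (1 - I * τ * η) ^ 2 := by
    simp only [Xi, Sq, sp, Prod.smul_mk, smul_eq_mul, ee]
    linear_combination c * (1 - I * τ * η) ^ 2 * (hh m * conj (hh m) + 1) * hh_conj m
  have h3 : (c • Xi τ m η).1 = c * (1 + (τ * η) ^ 2) := by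
    rw [Prod.smul_fst, Xi_fst, smul_eq_mul]
  have h4 : c * (1 + I * τ * η) ^ 2 + c * (1 - I * τ * η) ^ 2 + 2 * (c * (1 + (τ * η) ^ 2)) =
      4 * c := by
    linear_combination (2 * c * (τ * η) ^ 2) * I_mul_I
  rw [chI, h1, h2, h3, h4]
  field_simp
  ring

theorem side_Herm_sp (hτ : 0 < τ) {ρ : ℝ} (hρ : 0 < ρ) (m : L G) (η : ℂ) :
    side (Herm (sp τ m η)) (nu (τ * ρ) m) = τ * (ρ ^ 2 - ‖η‖ ^ 2) / ρ := by
  rw [sp_eq, side_sp2 (mul_pos hτ hρ).ne', norm_one, norm_mul, norm_real, Real.norm_eq_abs,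
    abs_of_pos hτ]
  field_simp

theorem Herm_sp_real (τ : ℝ) (m : L G) (η : ℝ) : Herm (sp τ m η) = Xi τ m η := by
  have h : (sp τ m η).2 = conj (sp τ m η).1 := by
    simp only [sp, map_mul, map_add, map_one, conj_I, conj_ofReal]
    ring
  simp only [Herm, Xi, Sq, h, RCLike.norm_conj, conj_conj, mul_conj, normSq_eq_norm_sq,
    Prod.mk.injEq]
  refine ⟨?_, by ring, by ring⟩
  push_cast
  ring

theorem slit_of_side (hτ : 0 < τ) {ρ : ℝ} (hρ : 0 < ρ) (hZ : Hyp Z)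
    (h : side Z (nu (τ * ρ) m) ≤ 0) {η : ℂ} (hη : ‖η‖ < ρ) : br (Xi τ m η) Z ∈ slitPlane :=
  slit_fut hτ hρ hZ.fut hZ.2.1 h hη

theorem slit_of_side_nul (hτ : 0 < τ) {ρ : ℝ} (hρ : 0 < ρ) (hY : Nul Y)
    (h : side Y (nu (τ * ρ) m) ≤ 0) {η : ℂ} (hη : ‖η‖ < ρ) : br (Xi τ m η) Y ∈ slitPlane :=
  slit_fut hτ hρ hY.fut hY.2.1 h hη

namespace Chart

theorem arc_ineq (D : Nest0 G b) (h : Arc b m Y) :
    Y.1.re - (conj (ee m) * Y.2.1).re <
      (D.τ m * D.q) ^ 2 * (Y.1.re + (conj (ee m) * Y.2.1).re) := by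
  have h1 := D.arc_sub m Y h D.q ⟨le_rfl, (D.q_lt.trans D.one_lt_R).le⟩
  have h2 : 0 < side Y (nu (D.τ m * D.q) m) := (mul_pos D.κ_pos h.1.2.1).trans_le h1
  have ha : 0 < D.τ m * D.q := mul_pos (D.τ_pos m) D.q_pos
  rw [side_nu h.1.1, div_mul_eq_mul_div, div_mul_eq_mul_div, ← sub_div,
    div_pos_iff_of_pos_right (by positivity)] at h2
  linarith

theorem arc_pos (D : Nest0 G b) (h : Arc b m Y) : 0 < Y.1.re + (conj (ee m) * Y.2.1).re := by
  have h1 := arc_ineq D h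
  have h2 := h.1.2.1
  by_contra hc
  push Not at hc
  nlinarith [sq_nonneg (D.τ m * D.q)]

theorem den_eq (hY : IsRe Y) (m : L G) : conj (ee m) * Y.2.1 + ee m * Y.2.2 + 2 * Y.1 =
    2 * ((Y.1.re + (conj (ee m) * Y.2.1).re : ℝ) : ℂ) := by
  rw [ee_mul_snd hY, add_conj]
  push_cast
  rw [← hY.fst_eq]
  ring

theorem chI_eq (hY : IsRe Y) (τ : ℝ) (m : L G) : chI τ m Y =
    (((conj (ee m) * Y.2.1).im / (τ * (Y.1.re + (conj (ee m) * Y.2.1).re)) : ℝ) : ℂ) := by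
  rw [chI, den_eq hY, ee_mul_snd hY, sub_conj]
  generalize (conj (ee m) * Y.2.1).re = p
  generalize (conj (ee m) * Y.2.1).im = r
  push_cast
  rw [show (2 * (r : ℂ) * I) = (2 * I) * r by ring,
    show I * τ * (2 * ((Y.1.re : ℂ) + p)) = (2 * I) * (τ * (Y.1.re + p)) by ring,
    mul_div_mul_left _ _ (mul_ne_zero two_ne_zero I_ne_zero)]

end Chart

theorem Nest0.arc_chart (D : Nest0 G b) (h : Arc b m Y) : (chI (D.τ m) m Y).im = 0 ∧
    |(chI (D.τ m) m Y).re| ≤ D.q ∧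
      Y = ((Y.1.re / (1 + (D.τ m * (chI (D.τ m) m Y).re) ^ 2) : ℝ) : ℂ) •
        Xi (D.τ m) m (chI (D.τ m) m Y) := by
  have h1 := arc_ineq D h
  have h2 := arc_pos D h
  have h3 := nul_sq h.1 m
  have h4 := re_add_im (conj (ee m) * Y.2.1)
  have h0 := h.1.2.1
  have hτ := D.τ_pos m
  rw [chI_eq h.1.1, ofReal_re, ofReal_im]
  generalize (conj (ee m) * Y.2.1).re = p at *
  generalize (conj (ee m) * Y.2.1).im = r at *
  refine ⟨rfl, ?_, ?_⟩
  · rw [abs_div, abs_of_pos (mul_pos hτ h2), div_le_iff₀ (mul_pos hτ h2)]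
    refine abs_le_of_sq_le_sq ?_ (by have := D.q_pos; positivity)
    nlinarith
  · have hn := nul_Xi (D.τ m) m (r / (D.τ m * (Y.1.re + p)))
    have hc : Y.1.re / (1 + (D.τ m * (r / (D.τ m * (Y.1.re + p)))) ^ 2) = (Y.1.re + p) / 2 := by
      field_simp
      nlinarith
    have hP : ((Y.1.re + p : ℝ) : ℂ) ≠ 0 := ofReal_ne_zero.2 h2.ne'
    have hτ' : (D.τ m : ℂ) ≠ 0 := ofReal_ne_zero.2 hτ.ne'
    have h3' : (p : ℂ) ^ 2 + r ^ 2 = (Y.1.re : ℂ) ^ 2 := by exact_mod_cast h3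
    have h5 : Y.2.1 = ee m * (p + r * I) := by
      rw [h4, ← mul_assoc, ee_conj, one_mul]
    have h6 : Y.2.1 = (((((Y.1.re + p) / 2 : ℝ) : ℂ)) •
        Xi (D.τ m) m (r / (D.τ m * (Y.1.re + p)) : ℝ)).2.1 := by
      rw [h5]
      simp only [Xi, Sq, sp, Prod.smul_mk, smul_eq_mul, ee]
      push_cast at hP ⊢
      field_simp
      linear_combination hh m ^ 2 * (h3' - r ^ 2 * I_mul_I)
    rw [hc]
    refine Prod.ext ?_ (Prod.ext h6 ?_)
    · rw [Prod.smul_fst, Xi_fst, smul_eq_mul]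
      conv_lhs => rw [h.1.1.fst_eq]
      push_cast at hP ⊢
      field_simp
      linear_combination -h3'
    · rw [h.1.1.2, (hn.1.smul _).2, ← h6]

theorem Nest0.arc_Xi_iff [Fact (2 ≤ G)] (D : Nest0 G b) (m : L G) : ∃ η₀ : ℝ, 0 < η₀ ∧ η₀ ≤ D.q ∧
    ∀ η : ℝ, Arc b m (Xi (D.τ m) m η) ↔ |η| ≤ η₀ := by
  have hc : 0 < ca b m ∧ ca b m < 1 := by
    unfold ca
    split_ifs
    · exact ⟨c0_pos, c0_lt_one⟩
    · exact ⟨c0_pos.trans c0_lt_cQ, cQ_lt_one⟩
  have hτ := D.τ_pos m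
  have hd : 0 < (1 - ca b m) / (1 + ca b m) := div_pos (by linarith) (by linarith)
  have key : ∀ η : ℝ, Arc b m (Xi (D.τ m) m η) ↔
      |η| ≤ √((1 - ca b m) / (1 + ca b m)) / D.τ m := fun η => by
    have h1 : (Xi (D.τ m) m η).2.1 * conj (NN m (ca b m)).2.1 = (1 + I * D.τ m * η) ^ 2 := by
      simp only [Xi, Sq, sp, NN, conj_ee]
      linear_combination (1 + I * D.τ m * η) ^ 2 * (hh m * conj (hh m) + 1) * hh_conj m
    have h2 : side (Xi (D.τ m) m η) (NN m (ca b m)) =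
        1 - (D.τ m * η) ^ 2 - (1 + (D.τ m * η) ^ 2) * ca b m := by
      rw [side_eq (nul_Xi _ _ _).1 (isRe_NN _ _), h1, Xi_fst]
      simp [NN, pow_two]
    rw [Arc, and_iff_right (nul_Xi _ _ _), h2, le_div_iff₀ hτ, Real.le_sqrt (by positivity) hd.le,
      le_div_iff₀ (by linarith), mul_pow |η|, sq_abs]
    constructor <;> intro h <;> nlinarith
  have hpos : 0 < √((1 - ca b m) / (1 + ca b m)) / D.τ m := div_pos (Real.sqrt_pos.2 hd) hτ
  refine ⟨_, hpos, ?_, key⟩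
  have h1 := (D.arc_chart ((key _).2 (abs_of_pos hpos).le)).2.1
  have h2 := chI_Xi hτ.ne' one_ne_zero m (√((1 - ca b m) / (1 + ca b m)) / D.τ m : ℝ)
  rw [one_smul] at h2
  rwa [h2, ofReal_re, abs_of_pos hpos] at h1

theorem continuousOn_chI (D : Nest0 G b) (m : L G) :
    ContinuousOn (chI (D.τ m) m) {Y | Arc b m Y} := by
  unfold chI
  refine ContinuousOn.div (by fun_prop) (by fun_prop) fun Y hY => ?_
  rw [den_eq hY.1.1]
  exact mul_ne_zero (mul_ne_zero I_ne_zero (ofReal_ne_zero.2 (D.τ_pos m).ne'))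
    (mul_ne_zero two_ne_zero (ofReal_ne_zero.2 (arc_pos D hY).ne'))

namespace Chart

variable [Fact (2 ≤ G)]

noncomputable def al (m m' : L G) (u : ℂ) : ℂ := -((c0 G / s0 G + 1 / s0 G : ℝ) : ℂ) *
  ((conj (hh m) * hh m').im + (conj (hh m) * hh m').re * u)

noncomputable def be (m m' : L G) (u : ℂ) : ℂ := ((c0 G / s0 G - 1 / s0 G : ℝ) : ℂ) *
  ((conj (hh m) * hh m').re - (conj (hh m) * hh m').im * u)

theorem mat_sp (m m' : L G) (u : ℂ) :
    (I * (c0 G / s0 G : ℝ) * (sp2 m' 1 u).1 + -I * ee m / s0 G * (sp2 m' 1 u).2,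
      conj (-I * ee m / s0 G) * (sp2 m' 1 u).1 + conj (I * (c0 G / s0 G : ℝ)) * (sp2 m' 1 u).2) =
      sp2 m (al m m' u) (be m m' u) := by
  have h1 := hh_conj m
  have h3 := re_add_im (conj (hh m) * hh m')
  have h4 : hh m * conj (hh m') = (conj (hh m) * hh m').re - (conj (hh m) * hh m').im * I := by
    rw [show hh m * conj (hh m') = conj (conj (hh m) * hh m') by rw [map_mul, conj_conj]]
    generalize conj (hh m) * hh m' = w
    apply Complex.ext <;> simp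
  simp only [sp2, al, be, map_mul, map_div₀, map_neg, conj_I, conj_ofReal, conj_ee, Prod.mk.injEq]
  rw [ee]
  push_cast
  generalize ((conj (hh m) * hh m').re : ℂ) = x at *
  generalize ((conj (hh m) * hh m').im : ℂ) = y at *
  have h5 : hh m' = hh m * (x + y * I) := by rw [h3, ← mul_assoc, h1, one_mul]
  have h6 : conj (hh m') = conj (hh m) * (x - y * I) := by
    rw [← h4, ← mul_assoc, mul_comm _ (hh m), h1, one_mul]
  rw [h6, h5]
  simp only [div_eq_mul_inv]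
  generalize (s0 G : ℂ)⁻¹ = B
  generalize (c0 G : ℂ) = c
  constructor
  · linear_combination (-I * hh m * B * (x - y * I) * (1 - I * u)) * h1 +
      hh m * (c * B * (y + x * u + I * y * u) + B * (y + x * u - I * y * u)) * I_mul_I
  · linear_combination (I * conj (hh m) * B * (x + y * I) * (1 + I * u)) * h1 +
      conj (hh m) * (c * B * (y + x * u - I * y * u) + B * (y + x * u + I * y * u)) * I_mul_I

theorem mir_Xi (τ : ℝ) (m m' : L G) (η : ℂ) :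
    mir m (Xi τ m' η) = Sq (sp2 m (al m m' (τ * η)) (be m m' (τ * η))) := by
  rw [refl_eq_sym, Xi, sym_Sq, sp_eq, mat_sp]

theorem mir_Herm (τ : ℝ) (m m' : L G) (η : ℂ) :
    mir m (Herm (sp τ m' η)) = Herm (sp2 m (al m m' (τ * η)) (be m m' (τ * η))) := by
  rw [refl_eq_sym, sym_Herm, sp_eq, mat_sp]

theorem be_lt (D : Nest0 G b) {m m' : L G} (h : Edge b m m') {η : ℂ} (hη : ‖η‖ ≤ D.R) :
    ‖be m m' (D.τ m' * η)‖ < D.τ m * D.q * ‖al m m' (D.τ m' * η)‖ := by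
  have hqR := (D.q_lt.trans D.one_lt_R).le
  have hR : 0 < D.R := one_pos.trans D.one_lt_R
  have ha : 0 < D.τ m * D.q := mul_pos (D.τ_pos m) D.q_pos
  have h1 := D.cert m m' h D.q ⟨le_rfl, hqR⟩ D.R ⟨hqR, le_rfl⟩ _ (fut_Herm (sp (D.τ m') m' η))
  rw [side_Herm_sp (D.τ_pos m') hR, mir_Herm, side_sp2 ha.ne', sp_eq, Herm_sp2_fst] at h1
  have h2 : 0 ≤ D.t * (D.τ m' * (D.R ^ 2 - ‖η‖ ^ 2) / D.R) := by
    have h3 := pow_le_pow_left₀ (norm_nonneg _) hη 2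
    exact mul_nonneg (zero_le_one.trans D.one_lt_t.le)
      (div_nonneg (mul_nonneg (D.τ_pos m').le (by linarith)) hR.le)
  have h3 : 0 < D.κ * (‖(1 : ℂ)‖ ^ 2 + ‖D.τ m' * η‖ ^ 2) := by
    rw [norm_one]
    exact mul_pos D.κ_pos (by positivity)
  have h4 : ‖be m m' (D.τ m' * η)‖ ^ 2 / (D.τ m * D.q) <
      D.τ m * D.q * ‖al m m' (D.τ m' * η)‖ ^ 2 := by linarith
  rw [div_lt_iff₀ ha] at h4
  refine lt_of_pow_lt_pow_left₀ 2 (by positivity) ?_
  linarith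

theorem al_ne (D : Nest0 G b) {m m' : L G} (h : Edge b m m') {η : ℂ} (hη : ‖η‖ ≤ D.R) :
    al m m' (D.τ m' * η) ≠ 0 := fun h0 => by
  have h1 := be_lt D h hη
  rw [h0, norm_zero, mul_zero] at h1
  exact (norm_nonneg _).not_gt h1

theorem psi_eq (D : Nest0 G b) {m m' : L G} (h : Edge b m m') {η : ℂ} (hη : ‖η‖ ≤ D.R) :
    D.psi m m' η = be m m' (D.τ m' * η) / (D.τ m * al m m' (D.τ m' * η)) := by
  rw [Nest0.psi, mir_Xi, Sq_sp2 (D.τ_pos m).ne' m (al_ne D h hη),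
    chI_Xi (D.τ_pos m).ne' (pow_ne_zero 2 (al_ne D h hη))]

noncomputable def a0 (m m' : L G) : ℝ := -(c0 G / s0 G + 1 / s0 G) * (conj (hh m) * hh m').im

noncomputable def a1 (τ : ℝ) (m m' : L G) : ℝ :=
  -(c0 G / s0 G + 1 / s0 G) * (conj (hh m) * hh m').re * τ / a0 m m'

omit [Fact (2 ≤ G)] in
theorem al_zero (m m' : L G) : al m m' 0 = a0 m m' := by
  simp only [al, a0]
  push_cast
  ring

theorem a0_ne (D : Nest0 G b) {m m' : L G} (h : Edge b m m') : (a0 m m' : ℂ) ≠ 0 := by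
  have h1 := al_ne D h (η := 0) (by rw [norm_zero]; linarith [D.one_lt_R])
  rwa [mul_zero, al_zero] at h1

theorem al_eq (D : Nest0 G b) {m m' : L G} (h : Edge b m m') (η : ℂ) :
    al m m' (D.τ m' * η) = a0 m m' * (1 + a1 (D.τ m') m m' * η) := by
  have h0 := a0_ne D h
  have h1 : (a0 m m' : ℂ) * a1 (D.τ m') m m' =
      -(c0 G / s0 G + 1 / s0 G) * (conj (hh m) * hh m').re * D.τ m' := by
    rw [a1]
    push_cast
    field_simp
  rw [mul_add, ← mul_assoc, h1, mul_one, ← al_zero]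
  simp only [al]
  push_cast
  ring

theorem a1_lt (D : Nest0 G b) {m m' : L G} (h : Edge b m m') {η : ℂ} (hη : ‖η‖ < D.R) :
    ‖a1 (D.τ m') m m' * η‖ < 1 := by
  by_contra hc
  push Not at hc
  rw [norm_mul] at hc
  have h0 : (a1 (D.τ m') m m' : ℂ) ≠ 0 := fun h0 => by
    rw [h0, norm_zero, zero_mul] at hc
    linarith
  have h1 : ‖-(a1 (D.τ m') m m' : ℂ)⁻¹‖ ≤ D.R := by
    rw [norm_neg, norm_inv, inv_le_iff_one_le_mul₀' (norm_pos_iff.2 h0)]
    exact hc.trans (mul_le_mul_of_nonneg_left hη.le (norm_nonneg _))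
  refine al_ne D h h1 ?_
  rw [al_eq D h, mul_neg, mul_inv_cancel₀ h0, add_neg_cancel, mul_zero]

noncomputable def lj (τ : ℝ) (m m' : L G) (η : ℂ) : ℂ :=
  (Real.log (a0 m m' ^ 2) : ℝ) + 2 * log (1 + a1 τ m m' * η)

theorem exp_lj (D : Nest0 G b) {m m' : L G} (h : Edge b m m') {η : ℂ} (hη : ‖η‖ < D.R) :
    exp (lj (D.τ m') m m' η) = al m m' (D.τ m' * η) ^ 2 := by
  have h0 : a0 m m' ≠ 0 := ofReal_ne_zero.1 (a0_ne D h)
  have h1 := slitPlane_ne_zero (mem_slitPlane_of_norm_lt_one (a1_lt D h hη))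
  rw [lj, exp_add, ← ofReal_exp, Real.exp_log (by positivity), two_mul, exp_add, exp_log h1,
    al_eq D h]
  push_cast
  ring

theorem hasDerivAt_psi (D : Nest0 G b) {m m' : L G} (h : Edge b m m') {η : ℂ} (hη : ‖η‖ < D.R) :
    HasDerivAt (D.psi m m') (-((D.τ m' / D.τ m : ℝ) * (al m m' (D.τ m' * η) ^ 2)⁻¹)) η := by
  have hne := al_ne D h hη.le
  have hτ : (D.τ m : ℂ) ≠ 0 := ofReal_ne_zero.2 (D.τ_pos m).ne'
  have hu : HasDerivAt (fun η : ℂ => (D.τ m' : ℂ) * η) (D.τ m') η := by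
    simpa using (hasDerivAt_id η).const_mul (D.τ m' : ℂ)
  have ha : HasDerivAt (fun η : ℂ => al m m' (D.τ m' * η))
      (-((c0 G / s0 G + 1 / s0 G : ℝ) : ℂ) * ((conj (hh m) * hh m').re * D.τ m')) η :=
    ((hu.const_mul _).const_add _).const_mul _
  have hb : HasDerivAt (fun η : ℂ => be m m' (D.τ m' * η))
      (((c0 G / s0 G - 1 / s0 G : ℝ) : ℂ) * -((conj (hh m) * hh m').im * D.τ m')) η :=
    ((hu.const_mul _).const_sub _).const_mul _
  have hd := hb.div (ha.const_mul (D.τ m : ℂ)) (mul_ne_zero hτ hne)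
  have hev : D.psi m m' =ᶠ[nhds η]
      fun η => be m m' (D.τ m' * η) / (D.τ m * al m m' (D.τ m' * η)) := by
    filter_upwards [isOpen_ball.mem_nhds (mem_ball_zero_iff.2 hη)] with z hz
    exact psi_eq D h (mem_ball_zero_iff.1 hz).le
  refine (hd.congr_of_eventuallyEq hev).congr_deriv ?_
  have hs : (c0 G / s0 G + 1 / s0 G) * (c0 G / s0 G - 1 / s0 G) = -1 := by
    have h1 := s0_pos (G := G)
    have h2 := s0_sq (G := G)
    field_simp
    linarith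
  have hs' : ((c0 G / s0 G + 1 / s0 G : ℝ) : ℂ) * ((c0 G / s0 G - 1 / s0 G : ℝ) : ℂ) = -1 := by
    exact_mod_cast hs
  have hw : (conj (hh m) * hh m').re ^ 2 + (conj (hh m) * hh m').im ^ 2 = 1 := by
    have h1 : normSq (conj (hh m) * hh m') = 1 := by
      rw [normSq_eq_norm_sq, norm_mul, RCLike.norm_conj, norm_hh, norm_hh]
      norm_num
    rw [normSq_apply] at h1
    linarith
  have hw' : ((conj (hh m) * hh m').re : ℂ) ^ 2 + ((conj (hh m) * hh m').im : ℂ) ^ 2 = 1 := by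
    exact_mod_cast hw
  have hnum : ((c0 G / s0 G - 1 / s0 G : ℝ) : ℂ) * -((conj (hh m) * hh m').im * D.τ m') *
      (D.τ m * al m m' (D.τ m' * η)) - be m m' (D.τ m' * η) * (D.τ m *
        (-((c0 G / s0 G + 1 / s0 G : ℝ) : ℂ) * ((conj (hh m) * hh m').re * D.τ m'))) =
      -(D.τ m * D.τ m') := by
    simp only [al, be]
    linear_combination (D.τ m * D.τ m' * (((conj (hh m) * hh m').re : ℂ) ^ 2 +
      ((conj (hh m) * hh m').im : ℂ) ^ 2)) * hs' - (D.τ m * D.τ m') * hw'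
  rw [hnum]
  push_cast
  field_simp

end Chart

theorem exists_nest [Fact (2 ≤ G)] (b : ZMod 2) : Nonempty (Nest G b) := by
  obtain ⟨D⟩ := exists_nest0 (G := G) b
  refine ⟨{ D with
    lj := fun m m' => lj (D.τ m') m m'
    into := fun m m' h => ⟨fun η hη => ?_, fun η hη => ?_⟩
    lj_diff := fun m m' h η hη => ?_
    refl_Xi := fun m m' h η hη => ?_
    deriv_psi := fun m m' h η hη => ?_
    real := fun m m' h η hη => ?_ }⟩
  · exact (hasDerivAt_psi D h (mem_ball_zero_iff.1 hη)).differentiableAt.differentiableWithinAt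
  · have hη' := (mem_ball_zero_iff.1 hη).le
    have h1 := be_lt D h hη'
    have h2 := norm_pos_iff.2 (al_ne D h hη')
    have h3 := D.τ_pos m
    change ‖D.psi m m' η‖ ≤ D.q
    rw [psi_eq D h hη', norm_div, norm_mul, norm_real, Real.norm_eq_abs, abs_of_pos h3,
      div_le_iff₀ (mul_pos h3 h2)]
    linarith
  · have h1 := mem_slitPlane_of_norm_lt_one (a1_lt D h (mem_ball_zero_iff.1 hη))
    refine DifferentiableAt.differentiableWithinAt ?_
    unfold lj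
    exact ((DifferentiableAt.clog (f := fun η : ℂ => 1 + a1 (D.τ m') m m' * η) (by fun_prop)
      h1).const_mul _).const_add _
  · have hη' := mem_ball_zero_iff.1 hη
    change mir m (Xi (D.τ m') m' η) = exp (lj (D.τ m') m m' η) • Xi (D.τ m) m (D.psi m m' η)
    rw [exp_lj D h hη', psi_eq D h hη'.le, mir_Xi, Sq_sp2 (D.τ_pos m).ne' m (al_ne D h hη'.le)]
  · have hη' := mem_ball_zero_iff.1 hη
    change deriv (D.psi m m') η = -((D.τ m' / D.τ m : ℝ) * exp (-lj (D.τ m') m m' η))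
    rw [(hasDerivAt_psi D h hη').deriv, exp_neg, exp_lj D h hη']
  · have hη' : ‖(η : ℂ)‖ < D.R := by rwa [norm_real, Real.norm_eq_abs]
    change (D.psi m m' η).im = 0 ∧ (lj (D.τ m') m m' η).im = 0
    constructor
    · rw [psi_eq D h hη'.le, al, be]
      norm_cast
    · have h1 := a1_lt D h hη'
      rw [← ofReal_mul, norm_real, Real.norm_eq_abs] at h1
      have h2 : 0 ≤ 1 + a1 (D.τ m') m m' * η := by linarith [(abs_lt.1 h1).1]
      have h3 : (1 + a1 (D.τ m') m m' * η : ℂ) = ((1 + a1 (D.τ m') m m' * η : ℝ) : ℂ) := by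
        push_cast
        rfl
      rw [lj, h3, ← ofReal_log h2]
      norm_cast

end Pool.Agent.Lib.MP_de7bb2_an
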