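import Pool.Agent.Lib.MP_de7bb2_an.H20Grp
import Pool.Agent.Lib.MP_de7bb2_an.H20Chart

/-! Growth, thin discs and slit planes along admissible words. TASK WORD. -/

namespace Pool.Agent.Lib.MP_de7bb2_an

open Metric Set Complex ComplexConjugate

variable {G : ℕ} [hG : Fact (2 ≤ G)] {b : ZMod 2}

/-- The lift of the chart attached to a nonempty word. -/
noncomputable def Nest.lift (D : Nest G b) (u : List (L G)) (η : ℂ) : V :=
  lin (wd u.dropLast) (Xi (D.τ (u.getLastD 0)) (u.getLastD 0) η)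

/-- All discs of depth at least `N` are `δ`-close to the arc of their first letter. -/
def Nest.Thin (D : Nest G b) (N : ℕ) (δ : ℝ) : Prop :=
  ∀ u : List (L G), Adm b u → N + 1 ≤ u.length → ∀ η ∈ ball (0 : ℂ) D.R,
    (D.lift u η).1 ≠ 0 ∧ ∃ y₀ : ℂ, Arc b (u.headD 0) (xi y₀) ∧ ‖pt (D.lift u η) - y₀‖ < δ

namespace Word

theorem one_mem (D : Nest G b) : (1 : ℝ) ∈ Icc D.q D.R := ⟨D.q_lt.le, D.one_lt_R.le⟩

theorem R_mem (D : Nest G b) : D.R ∈ Icc D.q D.R := ⟨(D.q_lt.trans D.one_lt_R).le, le_rfl⟩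

omit hG in
theorem adm_cons {k : L G} {u : List (L G)} {m : L G} :
    Adm b (k :: u ++ [m]) ↔ Edge b k ((u ++ [m]).headD 0) ∧ Adm b (u ++ [m]) := by
  cases u <;> simp [Adm]

omit hG in
theorem adm_snoc {k : L G} {u : List (L G)} {m : L G} :
    Adm b (u ++ [k] ++ [m]) ↔ Adm b (u ++ [k]) ∧ Edge b k m := by
  simp [Adm, List.isChain_append, and_assoc, and_comm, and_left_comm]

theorem lin_cons (k : L G) (u : List (L G)) (Y : V) :
    lin (wd (k :: u)) Y = mir k (lin (wd u) Y) := by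
  rw [wd_cons, lin_mul, lin_sr]

theorem lin_snoc (k : L G) (u : List (L G)) (Y : V) :
    lin (wd (u ++ [k])) Y = lin (wd u) (mir k Y) := by
  rw [wd_append, lin_mul, lin_cons, wd_nil, lin_one]

/-- Growth along a word. -/
theorem grow (D : Nest G b) {ρ : ℝ} (hρ : ρ ∈ Icc D.q D.R) {m : L G} {Y : V} (hY : Fut Y)
    {u : List (L G)} (hu : Adm b (u ++ [m])) :
    D.t ^ u.length * side Y (nu (D.τ m * ρ) m) ≤
      side (lin (wd u) Y) (nu (D.τ ((u ++ [m]).headD 0) * ρ) ((u ++ [m]).headD 0)) := by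
  induction u with
  | nil => simp
  | cons k u ih =>
    obtain ⟨h1, h2⟩ := adm_cons.1 hu
    have hZ := (iso_lin (wd u)).fut Y hY
    have h3 := D.cert _ _ h1 ρ hρ ρ hρ _ hZ
    have h4 := mul_le_mul_of_nonneg_left (ih h2) (zero_le_one.trans D.one_lt_t.le)
    have h5 := mul_nonneg D.κ_pos.le ((norm_nonneg _).trans hZ.2)
    rw [lin_cons, List.length_cons, pow_succ', mul_assoc]
    exact h4.trans ((le_add_of_nonneg_right h5).trans h3)

theorem grow2 (D : Nest G b) {ρ : ℝ} (hρ : ρ ∈ Icc D.q D.R) {k m : L G} {Y : V} (hY : Fut Y)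
    {u : List (L G)} (hu : Adm b (u ++ [k] ++ [m])) (h0 : 0 ≤ side Y (nu (D.τ m * ρ) m)) :
    D.t ^ u.length * (D.κ * Y.1.re) ≤ side (lin (wd (u ++ [k])) Y)
      (nu (D.τ ((u ++ [k]).headD 0) * ρ) ((u ++ [k]).headD 0)) := by
  obtain ⟨h1, h2⟩ := adm_snoc.1 hu
  have ht := zero_le_one.trans D.one_lt_t.le
  rw [lin_snoc]
  refine le_trans (mul_le_mul_of_nonneg_left ?_ (pow_nonneg ht _))
    (grow D hρ ((iso_refl k).fut Y hY) h1)
  exact (le_add_of_nonneg_left (mul_nonneg ht h0)).trans (D.cert _ _ h2 ρ hρ ρ hρ _ hY)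

omit hG in
theorem exists_side_le (n : L G → V) : ∃ C > 0, ∀ m Z, Fut Z → side Z (n m) ≤ C * Z.1.re := by
  refine ⟨2 * ∑ m, ‖n m‖ + 1, by positivity, fun m Z hZ => ?_⟩
  have h1 : ‖n m‖ ≤ ∑ m, ‖n m‖ :=
    Finset.single_le_sum (fun i _ => norm_nonneg (n i)) (Finset.mem_univ m)
  have h2 := norm_br_le Z (n m)
  have h3 : side Z (n m) ≤ ‖br Z (n m)‖ := (neg_le_abs _).trans (abs_re_le_norm _)
  rw [hZ.norm_eq] at h2
  have h4 := (norm_nonneg _).trans hZ.2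
  nlinarith [mul_le_mul_of_nonneg_left h1 h4]

theorem exists_succ {u : List (L G)} (hu : Adm b u) : ∃ m, Adm b (u ++ [m]) := by
  rcases List.eq_nil_or_concat' u with rfl | ⟨v, k, rfl⟩
  · exact ⟨0, by simp [Adm]⟩
  · exact ⟨k + 2, adm_snoc.2 ⟨hu, (far_add_two k).edge b⟩⟩

theorem fst_eq_br (g : W G) (Y : V) : (lin g Y).1 = br Y (lin g⁻¹ oo) := by
  rw [← br_lin_left, br_oo_right]

theorem exists_spin (u : List (L G)) : ∃ A : ℂ × ℂ → ℂ × ℂ, ∀ p,
    lin (wd u) (Sq p) = Sq (A p) ∧ lin (wd u) (Herm p) = Herm (A p) := by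
  suffices h : ∀ p, ∃ w, lin (wd u) (Sq p) = Sq w ∧ lin (wd u) (Herm p) = Herm w from
    ⟨fun p => (h p).choose, fun p => (h p).choose_spec⟩
  intro p
  induction u with
  | nil => exact ⟨p, by simp⟩
  | cons k u ih =>
    obtain ⟨w, h1, h2⟩ := ih
    exact ⟨_, by rw [lin_cons, h1, refl_eq_sym, sym_Sq], by rw [lin_cons, h2, refl_eq_sym, sym_Herm]⟩

omit hG in
theorem side_Herm_le {n : V} (hn : IsRe n) (h0 : 0 < n.1.re) (w : ℂ × ℂ) :
    side (Herm w) n ≤ ‖n.2.1‖ ^ 2 / (2 * n.1.re) * ‖w.1‖ ^ 2 ∧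
      side (Herm w) n ≤ ‖n.2.1‖ ^ 2 / (2 * n.1.re) * ‖w.2‖ ^ 2 := by
  have h1 : side (Herm w) n ≤ ‖w.1‖ * ‖w.2‖ * ‖n.2.1‖ - (‖w.1‖ ^ 2 + ‖w.2‖ ^ 2) / 2 * n.1.re := by
    rw [side_eq (fut_Herm w).1 hn]
    refine sub_le_sub ((re_le_norm _).trans (le_of_eq ?_)) (le_of_eq ?_)
    · simp [Herm]
    · simp only [Herm, ofReal_re]
  constructor <;> refine h1.trans ?_ <;> rw [div_mul_eq_mul_div (_ ^ 2), le_div_iff₀ (by positivity)]
  · nlinarith [sq_nonneg (‖w.1‖ * ‖n.2.1‖ - ‖w.2‖ * n.1.re), sq_nonneg (‖w.1‖ * n.1.re)]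
  · nlinarith [sq_nonneg (‖w.2‖ * ‖n.2.1‖ - ‖w.1‖ * n.1.re), sq_nonneg (‖w.2‖ * n.1.re)]

omit hG in
theorem isRe_nu (a : ℝ) (m : L G) : IsRe (nu a m) :=
  ⟨ofReal_im _, by simp only [nu, map_mul, conj_ofReal]⟩

omit hG in
theorem nu_fst_pos {a : ℝ} (h0 : 0 < a) (h1 : a < 1) (m : L G) : 0 < (nu a m).1.re := by
  simp only [nu, ofReal_re]
  exact div_pos (by nlinarith) (by positivity)

omit hG in
theorem one_le_Herm_sp (τ : ℝ) (m : L G) (η : ℂ) : 1 ≤ (Herm (sp τ m η)).1.re := by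
  simp only [Herm, sp, ofReal_re, norm_mul, norm_hh, RCLike.norm_conj, one_mul]
  have h := parallelogram_law_with_norm ℂ (1 : ℂ) (I * τ * η)
  rw [norm_one] at h
  nlinarith [mul_self_nonneg ‖I * τ * η‖]

/-- The spinors of deep discs are large. -/
theorem spin_lb (D : Nest G b) : ∃ c > 0, ∀ (u : List (L G)) (k m : L G) (η : ℂ),
    Adm b (u ++ [k] ++ [m]) → ‖η‖ < D.R → ∀ w : ℂ × ℂ,
      lin (wd (u ++ [k])) (Herm (sp (D.τ m) m η)) = Herm w →
        c * D.t ^ u.length ≤ ‖w.1‖ ^ 2 ∧ c * D.t ^ u.length ≤ ‖w.2‖ ^ 2 := by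
  have hR : 0 < D.R := zero_lt_one.trans D.one_lt_R
  set K : L G → ℝ := fun h => ‖(nu (D.τ h * D.R) h).2.1‖ ^ 2 / (2 * (nu (D.τ h * D.R) h).1.re)
  have hp := fun h => nu_fst_pos (mul_pos (D.τ_pos h) hR) (D.τR_lt h) h
  have hK : ∀ h, 0 ≤ K h := fun h => div_nonneg (sq_nonneg _) (by linarith [hp h])
  have hS : 0 < ∑ h, K h + 1 := add_pos_of_nonneg_of_pos (Finset.sum_nonneg fun h _ => hK h) one_pos
  refine ⟨D.κ / (∑ h, K h + 1), div_pos D.κ_pos hS, fun u k m η hu hη w hw => ?_⟩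
  have h1 := grow2 D (R_mem D) (fut_Herm (sp (D.τ m) m η)) hu (by
    rw [side_Herm_sp (D.τ_pos m) hR]
    exact div_nonneg (mul_nonneg (D.τ_pos m).le
      (sub_nonneg.2 (pow_le_pow_left₀ (norm_nonneg _) hη.le 2))) hR.le)
  rw [hw] at h1
  have h2 : D.t ^ u.length * D.κ ≤ _ := le_trans (mul_le_mul_of_nonneg_left
    (le_mul_of_one_le_right D.κ_pos.le (one_le_Herm_sp _ _ _))
    (pow_nonneg (zero_le_one.trans D.one_lt_t.le) _)) h1
  have h3 := side_Herm_le (isRe_nu _ _) (hp ((u ++ [k]).headD 0)) w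
  have h4 : K ((u ++ [k]).headD 0) ≤ ∑ h, K h + 1 :=
    (Finset.single_le_sum (fun i _ => hK i) (Finset.mem_univ _)).trans (le_add_of_nonneg_right zero_le_one)
  constructor <;> rw [div_mul_eq_mul_div, div_le_iff₀ hS, mul_comm, mul_comm (_ ^ 2)]
  · exact (h2.trans h3.1).trans (mul_le_mul_of_nonneg_right h4 (sq_nonneg _))
  · exact (h2.trans h3.2).trans (mul_le_mul_of_nonneg_right h4 (sq_nonneg _))

omit hG in
theorem exists_split {u : List (L G)} {N : ℕ} (h : N + 1 + 1 ≤ u.length) :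
    ∃ v k m, u = v ++ [k] ++ [m] ∧ N ≤ v.length := by
  rcases List.eq_nil_or_concat' u with rfl | ⟨v, m, rfl⟩
  · simp at h
  rcases List.eq_nil_or_concat' v with rfl | ⟨v, k, rfl⟩
  · simp at h
  exact ⟨v, k, m, rfl, by simpa using h⟩

theorem lift_eq (D : Nest G b) (u : List (L G)) (m : L G) (η : ℂ) :
    D.lift (u ++ [m]) η = lin (wd u) (Xi (D.τ m) m η) := by
  simp [Nest.lift]

omit hG in
theorem exists_pow (D : Nest G b) (M : ℝ) : ∃ N, ∀ n, N ≤ n → M < D.t ^ n :=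
  Filter.eventually_atTop.1
    ((tendsto_pow_atTop_atTop_of_one_lt D.one_lt_t).eventually_gt_atTop M)

end Word

open Word

theorem Nest.grow_arc (D : Nest G b) : ∃ c > 0, ∀ (u : List (L G)) (m : L G) (Y : V),
    Adm b (u ++ [m]) → Arc b m Y → c * D.t ^ u.length * Y.1.re ≤ (lin (wd u) Y).1.re := by
  obtain ⟨C, hC, h⟩ := exists_side_le fun m => nu (D.τ m * 1) m
  refine ⟨D.κ / C, div_pos D.κ_pos hC, fun u m Y hu hY => ?_⟩
  have h1 := (grow D (one_mem D) hY.1.fut hu).trans (h _ _ ((iso_lin (wd u)).fut Y hY.1.fut))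
  have h2 := mul_le_mul_of_nonneg_left (D.arc_sub m Y hY 1 (one_mem D))
    (pow_nonneg (zero_le_one.trans D.one_lt_t.le) u.length)
  rw [mul_assoc, div_mul_eq_mul_div, div_le_iff₀ hC]
  linarith

theorem Nest.grow_oo (D : Nest G b) : ∃ c > 0, ∀ u : List (L G),
    Adm b u → c * D.t ^ u.length ≤ (lin (wd u) oo).1.re := by
  obtain ⟨c, hc, h⟩ := D.grow_arc
  refine ⟨c / 2, half_pos hc, fun u hu => ?_⟩
  obtain ⟨m, hm⟩ := exists_succ hu
  have h1 := h u m _ hm (arc_center b m)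
  have h2 := (arc_center b m).1.fut.br_le ((iso_lin (wd u)⁻¹).fut _ hyp_oo.fut)
  rw [fst_eq_br] at h1
  rw [lin_inv_oo_fst] at h2
  have h3 : (xi (ee m)).1.re = 1 := rfl
  rw [h3] at h1 h2
  linarith

/-- An eigenvector in the arc of the first letter has a large eigenvalue. -/
theorem Nest.eigen_ge (D : Nest G b) {u : List (L G)} {m : L G} {Y : V} {r : ℝ}
    (hu : Adm b (m :: u ++ [m])) (hY : Arc b m Y) (h : lin (wd (m :: u)) Y = (r : ℂ) • Y) :
    D.t ^ (u.length + 1) ≤ r := by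
  have h1 := grow D (one_mem D) hY.1.fut (u := m :: u) hu
  rw [h, side_smul] at h1
  exact le_of_mul_le_mul_right h1
    ((mul_pos D.κ_pos hY.1.2.1).trans_le (D.arc_sub m Y hY 1 (one_mem D)))

theorem sep_wd : ∃ κ > 0, ∀ (b : ZMod 2) (u : List (L G)) (m : L G) (Y : V),
    Adm b (u ++ [m]) → Arc b m Y →
      κ * Y.1.re * (lin (wd u) oo).1.re ≤ (lin (wd u) Y).1.re := by
  obtain ⟨κ, hκ, h⟩ := sep_reg (G := G)
  refine ⟨min κ 1, lt_min hκ one_pos, fun b u m Y hu hY => ?_⟩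
  have hY0 := hY.1.2.1.le
  rcases List.eq_nil_or_concat' u with rfl | ⟨v, k, rfl⟩
  · have h3 : (oo).1.re = 1 := rfl
    rw [wd_nil, lin_one, lin_one, h3, mul_one]
    exact mul_le_of_le_one_left hY0 (min_le_right _ _)
  · obtain ⟨h1, h2⟩ := adm_snoc.1 hu
    have h3 := adm_reverse.2 h1
    rw [List.reverse_append, List.reverse_singleton, List.singleton_append] at h3
    have h4 := reg_wd h3 hyp_oo.fut fun j => (side_oo j).le
    have h5 : wd (k :: v.reverse) = (wd (v ++ [k]))⁻¹ := by rw [← wd_reverse]; simp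
    rw [h5] at h4
    have h6 := h b k m h2 _ Y h4 hY
    rw [← fst_eq_br, lin_inv_oo_fst] at h6
    exact le_trans (mul_le_mul_of_nonneg_right (mul_le_mul_of_nonneg_right (min_le_left _ _) hY0)
      (zero_le_one.trans ((iso_lin _).hyp hyp_oo).one_le)) h6

theorem Nest.exists_thin (D : Nest G b) {δ : ℝ} (hδ : 0 < δ) : ∃ N, D.Thin N δ := by
  obtain ⟨c, hc, h⟩ := spin_lb D
  obtain ⟨N, hN⟩ := exists_pow D (2 / (c * δ))
  have hR : 0 < D.R := zero_lt_one.trans D.one_lt_R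
  refine ⟨N + 1, fun u hu hl η hη => ?_⟩
  obtain ⟨v, k, m, rfl, hv⟩ := exists_split hl
  obtain ⟨A, hA⟩ := exists_spin (v ++ [k])
  rw [mem_ball_zero_iff] at hη
  obtain ⟨h1, h2⟩ := h v k m η hu hη _ (hA _).2
  obtain ⟨h3, h4⟩ := h v k m 0 hu (by simpa using hR) _ (hA _).2
  have e1 : ∀ η, D.lift (v ++ [k] ++ [m]) η = Sq (A (sp (D.τ m) m η)) := fun η => by
    rw [lift_eq, Xi, (hA _).1]
  have e2 := (iso_lin (wd (v ++ [k]))).br_eq (Xi (D.τ m) m η) (Xi (D.τ m) m 0)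
  rw [br_Xi_Xi, ← lift_eq, ← lift_eq, e1, e1, br_Sq_Sq] at e2
  have e3 := arc_wd hu (arc_center b m)
  rw [← Xi_zero (D.τ m), ← lift_eq] at e3
  have e4 : xi (pt (D.lift (v ++ [k] ++ [m]) 0)) =
      (((D.lift (v ++ [k] ++ [m]) 0).1.re⁻¹ : ℝ) : ℂ) • D.lift (v ++ [k] ++ [m]) 0 := by
    conv_rhs => arg 2; rw [e3.1.eq_smul_xi]
    rw [smul_smul, ← ofReal_mul, inv_mul_cancel₀ e3.1.2.1.ne', ofReal_one, one_smul]
  have hp : 0 < c * D.t ^ v.length := mul_pos hc (pow_pos (zero_lt_one.trans D.one_lt_t) _)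
  refine ⟨?_, pt (D.lift (v ++ [k] ++ [m]) 0), e4 ▸ e3.smul (inv_pos.2 e3.1.2.1), ?_⟩ <;>
    simp only [e1] <;> generalize A (sp (D.τ m) m η) = w at * <;>
    generalize A (sp (D.τ m) m 0) = w₀ at *
  all_goals
    have n1 : w.1 ≠ 0 := fun h0 => by rw [h0] at h1; simp at h1; linarith
    have n2 : w.2 ≠ 0 := fun h0 => by rw [h0] at h2; simp at h2; linarith
  · exact mul_ne_zero n1 n2
  have n3 : w₀.1 ≠ 0 := fun h0 => by rw [h0] at h3; simp at h3; linarith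
  have n4 : w₀.2 ≠ 0 := fun h0 => by rw [h0] at h4; simp at h4; linarith
  have e5 : pt (Sq w) - pt (Sq w₀) = (w.1 * w₀.2 - w.2 * w₀.1) / (w.2 * w₀.2) := by
    simp only [pt, Sq]; field_simp
  have e6 : ‖w.1 * w₀.2 - w.2 * w₀.1‖ ≤ 2 := by
    have e7 : (w.1 * w₀.2 - w.2 * w₀.1) ^ 2 = (2 * I * D.τ m * η) ^ 2 := by
      linear_combination (-2) * e2 - 4 * (D.τ m * η) ^ 2 * I_sq
    have e8 := congrArg norm e7
    rw [norm_pow, norm_pow, pow_left_inj₀ (norm_nonneg _) (norm_nonneg _) two_ne_zero] at e8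
    rw [e8]
    simp only [norm_mul, norm_I, norm_real, Real.norm_of_nonneg (D.τ_pos m).le, Complex.norm_ofNat]
    nlinarith [D.τR_lt m, mul_le_mul_of_nonneg_left hη.le (D.τ_pos m).le]
  have e9 : c * D.t ^ v.length ≤ ‖w.2‖ * ‖w₀.2‖ :=
    (pow_le_pow_iff_left₀ hp.le (by positivity) two_ne_zero).1 (by
      rw [mul_pow ‖w.2‖, sq (c * _)]; exact mul_le_mul h2 h4 hp.le (sq_nonneg _))
  have e10 := hN _ hv
  rw [div_lt_iff₀ (mul_pos hc hδ)] at e10
  rw [e5, norm_div, norm_mul, div_lt_iff₀ (hp.trans_le e9)]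
  nlinarith [mul_le_mul_of_nonneg_left e9 hδ.le]

theorem Nest.Thin.mono {D : Nest G b} {N N' : ℕ} {δ δ' : ℝ} (h : D.Thin N δ) (hN : N ≤ N')
    (hδ : δ ≤ δ') : D.Thin N' δ' := fun u hu hl η hη =>
  (h u hu (by omega) η hη).imp id fun ⟨y, h1, h2⟩ => ⟨y, h1, h2.trans_le hδ⟩

theorem Nest.exists_slit (D : Nest G b) (T : ℝ) : ∃ N, ∀ Z, Hyp Z → Z.1.re ≤ T →
    ∀ u : List (L G), Adm b u → N + 1 ≤ u.length → ∀ η ∈ ball (0 : ℂ) D.R,
      br (D.lift u η) Z ∈ slitPlane := by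
  obtain ⟨C, hC, h⟩ := exists_side_le fun m => nu (D.τ m * D.R) m
  obtain ⟨N, hN⟩ := exists_pow D (C * T / D.κ)
  refine ⟨N + 1, fun Z hZ hT u hu hl η hη => ?_⟩
  obtain ⟨v, k, m, rfl, hv⟩ := exists_split hl
  have hV := (iso_lin (wd (v ++ [k]))⁻¹).hyp hZ
  rw [lift_eq, br_lin_left]
  refine slit_of_side (D.τ_pos m) (zero_lt_one.trans D.one_lt_R) hV (le_of_not_gt fun h0 => ?_)
    (mem_ball_zero_iff.1 hη)
  have h1 := grow2 D (R_mem D) hV.fut hu h0.le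
  rw [lin_lin_inv] at h1
  have h2 := (h1.trans (h _ _ hZ.fut)).trans (mul_le_mul_of_nonneg_left hT hC.le)
  have h3 := hN _ hv
  rw [div_lt_iff₀ D.κ_pos] at h3
  have h4 := mul_le_mul_of_nonneg_left (le_mul_of_one_le_right D.κ_pos.le hV.one_le)
    (pow_nonneg (zero_le_one.trans D.one_lt_t.le) v.length)
  linarith

theorem Nest.diff_lift (D : Nest G b) (u : List (L G)) : Differentiable ℂ (D.lift u) :=
  (lin (wd u.dropLast)).differentiable.comp (differentiable_Xi _ _)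

theorem Nest.br_lift_self (D : Nest G b) (u : List (L G)) (η : ℂ) :
    br (D.lift u η) (D.lift u η) = 0 := by
  rw [Nest.lift, (iso_lin _).br_eq, br_Xi_Xi, sub_self]; ring

theorem Nest.nul_lift (D : Nest G b) (u : List (L G)) (η : ℝ) : Nul (D.lift u η) :=
  (iso_lin _).nul (nul_Xi _ _ η)

theorem Nest.lift_cons (D : Nest G b) (m : L G) {u : List (L G)} (hu : u ≠ []) (η : ℂ) :
    D.lift (m :: u) η = mir m (D.lift u η) := by
  obtain ⟨v, k, rfl⟩ := (List.eq_nil_or_concat' u).resolve_left hu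
  rw [← List.cons_append, lift_eq, lift_eq, lin_cons]

theorem Nest.lift_snoc (D : Nest G b) {u : List (L G)} (hu : u ≠ []) {m : L G}
    (h : Edge b (u.getLastD 0) m) {η : ℂ} (hη : η ∈ ball (0 : ℂ) D.R) :
    D.lift (u ++ [m]) η =
      exp (D.lj (u.getLastD 0) m η) • D.lift u (D.psi (u.getLastD 0) m η) := by
  obtain ⟨v, k, rfl⟩ := (List.eq_nil_or_concat' u).resolve_left hu
  rw [List.getLastD_concat] at h ⊢
  rw [lift_eq, lift_eq, lin_snoc, D.refl_Xi k m h η hη, map_smul]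

theorem finite_ball (T : ℝ) : {g : W G | (lin g oo).1.re ≤ T}.Finite := by
  obtain ⟨D⟩ := exists_nest (G := G) 1
  obtain ⟨c, hc, h⟩ := D.grow_oo
  obtain ⟨N, hN⟩ := exists_pow D (T / c)
  refine ((List.finite_length_le (L G) N).image wd).subset fun g hg => ?_
  obtain ⟨u, hu, rfl⟩ := exists_nf 1 g
  refine ⟨u, show u.length ≤ N from le_of_not_gt fun h1 => ?_, rfl⟩
  have h2 := hN _ h1.le
  rw [div_lt_iff₀ hc] at h2
  have h3 := (h u hu).trans hg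
  linarith

theorem exists_chamber {Z : V} (hZ : Hyp Z) : ∃ g : W G, Ch G (lin g⁻¹ Z) := by
  have hf : {g : W G | (lin g⁻¹ Z).1.re ≤ Z.1.re}.Finite :=
    (finite_ball (Z.1.re * (2 * Z.1.re))).subset fun g hg => by
      have h1 := hZ.le_br ((iso_lin g).fut _ hyp_oo.fut)
      have h2 := fst_eq_br g⁻¹ Z
      rw [inv_inv] at h2
      rw [← h2, div_le_iff₀ (by linarith [hZ.2.1])] at h1
      exact h1.trans (mul_le_mul_of_nonneg_right hg (by linarith [hZ.2.1]))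
  obtain ⟨g, hg, hmin⟩ := Set.exists_min_image _ (fun g : W G => (lin g⁻¹ Z).1.re) hf
    ⟨1, by simp⟩
  refine ⟨g, fun m => le_of_not_gt fun h0 => ?_⟩
  have h1 := refl_fst m ((iso_lin g⁻¹).isRe Z hZ.1)
  have h2 : lin (g * sr m)⁻¹ Z = mir m (lin g⁻¹ Z) := by rw [mul_inv_rev, sr_inv, lin_mul, lin_sr]
  have h3 := mul_pos (mul_pos two_pos (div_pos (c0_pos (G := G)) (s0_pos (G := G)))) h0
  have h4 := hmin (g * sr m) (by
    have : (lin g⁻¹ Z).1.re ≤ Z.1.re := hg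
    change (lin (g * sr m)⁻¹ Z).1.re ≤ Z.1.re
    rw [h2]; linarith)
  simp only [h2] at h4
  linarith

end Pool.Agent.Lib.MP_de7bb2_an
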