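import Pool.Agent.Lib.MP_de7bb2_an.H20Defs
import Pool.Agent.Lib.MP_de7bb2_an.H20Word
import Pool.Agent.Lib.MP_de7bb2_an.H20Hom

/-! The surface, and cyclic normal forms. TASK SURF. -/

namespace Pool.Agent.Lib.MP_de7bb2_an

open Metric Set Complex ComplexConjugate

variable {G : ℕ} [hG : Fact (2 ≤ G)]

namespace Surf

theorem exists_sym_wd (u : List (L G)) : ∃ a b : ℂ, ‖a‖ ^ 2 - ‖b‖ ^ 2 = (-1) ^ u.length ∧
    lin (wd u) = sym a b (conj b) (conj a) := by
  induction u with
  | nil =>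
    refine ⟨1, 0, by simp, ?_⟩
    rw [wd_nil, map_one, map_zero, map_one, sym_one]
  | cons m u ih =>
    obtain ⟨a, b, h1, h2⟩ := ih
    have h3 := refl_sym_det m
    have h4 := refl_eq_sym m
    generalize I * (c0 G / s0 G : ℝ) = α at h3 h4
    generalize -I * ee m / s0 G = β at h3 h4
    refine ⟨α * a + β * conj b, α * b + β * conj a, ?_, ?_⟩
    · have e : ‖α * a + β * conj b‖ ^ 2 - ‖α * b + β * conj a‖ ^ 2 =
          (‖α‖ ^ 2 - ‖β‖ ^ 2) * (‖a‖ ^ 2 - ‖b‖ ^ 2) := by
        simp only [Complex.sq_norm, normSq_apply, add_re, add_im, mul_re, mul_im, conj_re, conj_im]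
        ring
      rw [e, h3, h1, List.length_cons, pow_succ]
      ring
    · rw [wd_cons, map_mul, lin_sr, h4, h2, sym_mul]
      simp only [map_add, map_mul, conj_conj]
      rw [add_comm (conj α * conj b), add_comm (conj α * conj a)]

omit hG in
theorem par_eq_zero {m : L G} (h : par m ≠ 1) : par m = 0 := by
  revert h
  generalize par m = c
  revert c
  decide

omit hG in
theorem par_adj {m x : L G} (h : x = m + 1 ∨ x = m - 1) : par x = par m + 1 := by
  rcases h with rfl | rfl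
  · exact par_add_one m
  · exact par_sub_one m

omit hG in
theorem adj_of_not_far {m x : L G} (h0 : m ≠ x) (h : ¬ Far m x) : x = m + 1 ∨ x = m - 1 := by
  by_contra hc
  exact h ⟨h0, fun e => hc (Or.inl e), fun e => hc (Or.inr e)⟩

omit hG in
theorem adj_comm {m x : L G} (h : x = m + 1 ∨ x = m - 1) : sr m * sr x = sr x * sr m := by
  rcases h with rfl | rfl
  · exact sr_comm m
  · exact sr_comm' m

omit hG in
theorem not_edge {m x : L G} (h : ¬ Edge 1 m x) :
    m = x ∨ (par m ≠ 1 ∧ (x = m + 1 ∨ x = m - 1)) := by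
  by_cases h0 : m = x
  · exact Or.inl h0
  · right
    by_contra hc
    refine h ⟨h0, fun hp => ⟨fun e => hc ⟨hp, Or.inl e⟩, fun e => hc ⟨hp, Or.inr e⟩⟩⟩

omit hG in
theorem cl_fst_of_even {u : List (L G)} (h : ∀ m ∈ u, par m ≠ 1) : (cl (wd u)).1 = 0 := by
  induction u with
  | nil => rw [wd_nil, cl_one]; rfl
  | cons m u ih =>
    rw [wd_cons, cl_mul, cl_sr, Prod.fst_add, ih fun x hx => h x (List.mem_cons_of_mem _ hx),
      clL, if_neg (h m List.mem_cons_self)]
    rfl

omit hG in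
theorem cl_snd_of_odd {u : List (L G)} (h : ∀ m ∈ u, par m = 1) : (cl (wd u)).2 = 0 := by
  induction u with
  | nil => rw [wd_nil, cl_one]; rfl
  | cons m u ih =>
    rw [wd_cons, cl_mul, cl_sr, Prod.snd_add, ih fun x hx => h x (List.mem_cons_of_mem _ hx),
      clL, if_pos (h m List.mem_cons_self)]
    rfl

theorem walls_of_fix {Z : V} (hZ : Fut Z) (hC : Ch G Z) {u : List (L G)} (hu : Adm 1 u)
    (hf : lin (wd u) Z = Z) : ∀ m ∈ u, side Z (wn m) = 0 := by
  induction u with
  | nil => intro m hm; cases hm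
  | cons k u ih =>
    have h1 := (reg_wd hu hZ hC).2.1
    rw [hf] at h1
    have h2 : side Z (wn k) = 0 := le_antisymm (hC k) h1
    have h3 : lin (wd u) Z = Z := by
      rw [wd_cons, lin_mul, lin_sr] at hf
      have h4 := congrArg (mir k) hf
      rwa [refl_refl, refl_eq_self hZ.1 h2] at h4
    intro m hm
    rcases List.mem_cons.mp hm with rfl | hm
    · exact h2
    · exact ih (List.IsChain.tail hu) h3 m hm

end Surf

theorem exists_sym_lin {γ : W G} (h : γ ∈ Gam G) : ∃ a b : ℂ, ‖a‖ ^ 2 - ‖b‖ ^ 2 = 1 ∧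
    lin γ = sym a b (conj b) (conj a) := by
  obtain ⟨u, rfl⟩ := exists_wd γ
  obtain ⟨a, b, h1, h2⟩ := Surf.exists_sym_wd u
  exact ⟨a, b, by rw [h1, (even_length_of_mem h).neg_one_pow], h2⟩

theorem cross_lin_of_mem {γ : W G} (h : γ ∈ Gam G) (X Y : V) :
    cross (lin γ X) (lin γ Y) = lin γ (cross X Y) := by
  obtain ⟨a, b, h1, h2⟩ := exists_sym_lin h
  have h3 : a * conj a - b * conj b = 1 := by
    rw [Complex.mul_conj', Complex.mul_conj']
    exact_mod_cast h1
  rw [h2, cross_sym, h3, one_smul]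

theorem eq_one_of_fix {γ : W G} (h : γ ∈ Gam G) {Z : V} (hZ : Hyp Z) (hf : lin γ Z = Z) : γ = 1 := by
  obtain ⟨g, hg⟩ := exists_chamber (G := G) hZ
  have hZ' : Hyp (lin g⁻¹ Z) := (iso_lin g⁻¹).hyp hZ
  obtain ⟨u, hu, hw⟩ := exists_nf 1 (g⁻¹ * γ * g)
  have hmem : wd u ∈ Gam G := by
    rw [hw, mem_Gam, cl_mul, cl_mul, cl_inv, mem_Gam.mp h, add_zero]
    have e := cl_mul g⁻¹ g
    rw [inv_mul_cancel, cl_one, cl_inv] at e
    exact e.symm
  have hfix : lin (wd u) (lin g⁻¹ Z) = lin g⁻¹ Z := by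
    rw [hw, lin_mul, lin_mul, lin_lin_inv, hf]
  have hwall := Surf.walls_of_fix hZ'.fut hg hu hfix
  obtain ⟨η, hη, hgap⟩ := far_gap (G := G)
  have hnf : ∀ m ∈ u, ∀ m' ∈ u, ¬ Far m m' := by
    intro m hm m' hm' hfar
    have h1 := hgap m m' hfar _ hZ'.fut (hwall m hm).ge
    rw [hwall m' hm'] at h1
    have h2 := mul_pos hη hZ'.2.1
    linarith
  have hnil : u = [] := by
    rcases u with _ | ⟨m, _ | ⟨m', u⟩⟩
    · rfl
    · exact absurd (even_length_of_mem hmem) (by simp)
    · exfalso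
      have he : Edge 1 m m' := (List.isChain_cons_cons.mp hu).1
      have hadj := Surf.adj_of_not_far he.1 (hnf m (by simp) m' (by simp))
      have hp : par m = 1 := by
        by_contra hp
        rcases hadj with e | e
        · exact (he.2 hp).1 e
        · exact (he.2 hp).2 e
      have hp' : par m' ≠ 1 := by
        rw [Surf.par_adj hadj, hp]
        decide
      rcases u with _ | ⟨m'', u⟩
      · have h1 := mem_Gam.mp hmem
        rw [wd_cons, wd_cons, wd_nil, mul_one, cl_mul, cl_sr, cl_sr, clL, clL, if_pos hp,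
          if_neg hp'] at h1
        revert h1
        decide
      · have he' : Edge 1 m' m'' :=
          (List.isChain_cons_cons.mp (List.isChain_cons_cons.mp hu).2).1
        exact hnf m' (by simp) m'' (by simp) ⟨he'.1, he'.2 hp'⟩
  rw [hnil, wd_nil] at hw
  calc γ = g * (g⁻¹ * γ * g) * g⁻¹ := by group
    _ = 1 := by rw [← hw]; group

/-- The action on the disc. -/
noncomputable def actD (g : W G) (z : ℂ) : ℂ := vz (lin g (zv z))

theorem actD_mem (g : W G) {z : ℂ} (hz : z ∈ ball (0 : ℂ) 1) : actD g z ∈ ball (0 : ℂ) 1 :=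
  vz_mem ((iso_lin g).hyp (hyp_zv hz))

theorem zv_actD (g : W G) {z : ℂ} (hz : z ∈ ball (0 : ℂ) 1) : zv (actD g z) = lin g (zv z) :=
  zv_vz ((iso_lin g).hyp (hyp_zv hz))

namespace Surf

theorem moebius (γ : Gam G) : ∃ a b : ℂ, ‖a‖ ^ 2 - ‖b‖ ^ 2 = 1 ∧
    ∀ z ∈ ball (0 : ℂ) 1, actD (γ : W G) z = (a * z + b) / (star b * z + star a) := by
  obtain ⟨a, b, h1, h2⟩ := exists_sym_lin γ.2
  refine ⟨a, b, h1, fun z hz => ?_⟩
  obtain ⟨-, h3, h4⟩ := sym_zv h1 hz
  rw [actD, h2, h4, vz_zv h3]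
  rfl

theorem act_mul (γ δ : W G) {z : ℂ} (hz : z ∈ ball (0 : ℂ) 1) :
    actD (γ * δ) z = actD γ (actD δ z) := by
  rw [actD, actD, zv_actD δ hz, lin_mul]

theorem free (γ : Gam G) {z : ℂ} (hz : z ∈ ball (0 : ℂ) 1) : actD (γ : W G) z = z ↔ γ = 1 := by
  constructor
  · intro h
    have h1 := zv_actD (γ : W G) hz
    rw [h] at h1
    exact Subtype.ext (eq_one_of_fix γ.2 (hyp_zv hz) h1.symm)
  · rintro rfl
    rw [actD, OneMemClass.coe_one, lin_one, vz_zv hz]

theorem proper {K : Set ℂ} (hK : K ⊆ ball (0 : ℂ) 1) (hc : IsCompact K) :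
    {γ : Gam G | ∃ z ∈ K, actD (γ : W G) z ∈ K}.Finite := by
  have hcont : ContinuousOn (fun z => (zv z).1.re) K :=
    Complex.continuous_re.comp_continuousOn
      (continuous_fst.comp_continuousOn (continuousOn_zv.mono hK))
  obtain ⟨T, hT⟩ := (hc.image_of_continuousOn hcont).bddAbove
  have hT' : ∀ z ∈ K, (zv z).1.re ≤ T := fun z hz => hT ⟨z, hz, rfl⟩
  refine ((finite_ball (G := G) (2 * T * T)).preimage
    (Subtype.val_injective (p := fun g => g ∈ Gam G)).injOn).subset ?_
  rintro γ ⟨z, hz, hz'⟩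
  have h1 := hT' z hz
  have h2 := hT' _ hz'
  rw [zv_actD _ (hK hz)] at h2
  have hZ := hyp_zv (hK hz)
  have hZ' := (iso_lin (γ : W G)).hyp hZ
  have h3 := hZ'.le_br ((iso_lin (γ : W G)).hyp hyp_oo).fut
  rw [(iso_lin (γ : W G)).br_eq, br_oo_right, div_le_iff₀ (by linarith [hZ'.2.1])] at h3
  show (lin (γ : W G) oo).1.re ≤ 2 * T * T
  have h4 := hZ.2.1
  have h5 := hZ'.2.1
  nlinarith [mul_le_mul h1 h2 h5.le (h4.le.trans h1)]

theorem cocompact : ∃ K ⊆ ball (0 : ℂ) 1, IsCompact K ∧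
    ∀ z ∈ ball (0 : ℂ) 1, ∃ γ : Gam G, actD (γ : W G) z ∈ K := by
  obtain ⟨T, hT⟩ := ch_bdd (G := G)
  obtain ⟨C, hC⟩ := (Set.finite_range fun q : Q => (lin (sec q : W G)⁻¹ oo).1.re).bddAbove
  refine ⟨{z ∈ ball (0 : ℂ) 1 | (zv z).1.re ≤ 2 * T * C}, fun z hz => hz.1, isCompact_zv_le _,
    fun z hz => ?_⟩
  obtain ⟨g, hg⟩ := exists_chamber (G := G) (hyp_zv hz)
  refine ⟨⟨(g * (sec (cl g))⁻¹)⁻¹, (Gam G).inv_mem (mul_sec_inv_mem g)⟩, actD_mem _ hz, ?_⟩
  rw [zv_actD _ hz]
  show (lin (g * (sec (cl g))⁻¹)⁻¹ (zv z)).1.re ≤ 2 * T * C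
  have hZ := (iso_lin g⁻¹).hyp (hyp_zv hz)
  have hW := (iso_lin (sec (cl g) : W G)⁻¹).hyp hyp_oo
  have h1 := hT _ hZ hg
  have h2 : (lin (sec (cl g) : W G)⁻¹ oo).1.re ≤ C := hC ⟨cl g, rfl⟩
  have h3 := hZ.fut.br_le hW.fut
  rw [mul_inv_rev, inv_inv, lin_mul, ← br_oo_right, br_lin_left]
  have h4 := hZ.2.1
  have h5 := hW.2.1
  nlinarith [mul_le_mul h1 h2 h5.le (h4.le.trans h1)]

end Surf

noncomputable def surf (G : ℕ) [Fact (2 ≤ G)] : Surface G where
  Γ := Gam G
  act γ := actD (γ : W G)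
  moebius := Surf.moebius
  act_mul := fun γ δ _ hz => Surf.act_mul (γ : W G) (δ : W G) hz
  free := fun γ _ hz => Surf.free γ hz
  proper := fun _ hK hc => Surf.proper hK hc
  cocompact := Surf.cocompact
  genus := finrank_hom

namespace Surf

/-- `u` represents a conjugate of `γ`. -/
def Rep (γ : W G) (u : List (L G)) : Prop := ∃ g, γ = g * wd u * g⁻¹

/-- `u` is a shortest word representing a conjugate of `γ`. -/
def MinRep (γ : W G) (u : List (L G)) : Prop := Rep γ u ∧ ∀ v, Rep γ v → u.length ≤ v.length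

omit hG

theorem Rep.congr {γ : W G} {u v : List (L G)} (h : Rep γ u) (e : wd u = wd v) : Rep γ v := by
  obtain ⟨g, hg⟩ := h
  exact ⟨g, by rw [← e]; exact hg⟩

theorem Rep.rot {γ : W G} {A B : List (L G)} (h : Rep γ (A ++ B)) : Rep γ (B ++ A) := by
  obtain ⟨g, hg⟩ := h
  refine ⟨g * wd A, ?_⟩
  rw [hg, wd_append, wd_append]
  group

theorem MinRep.congr {γ : W G} {u v : List (L G)} (h : MinRep γ u) (e : wd u = wd v)
    (hl : v.length ≤ u.length) : MinRep γ v :=
  ⟨h.1.congr e, fun w hw => hl.trans (h.2 w hw)⟩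

theorem MinRep.rot {γ : W G} {A B : List (L G)} (h : MinRep γ (A ++ B)) : MinRep γ (B ++ A) :=
  ⟨h.1.rot, fun w hw => by
    have h1 := h.2 w hw
    rw [List.length_append] at h1 ⊢
    omega⟩

theorem MinRep.no_sq {γ : W G} {A B : List (L G)} {m : L G} :
    ¬ MinRep γ (A ++ m :: m :: B) := by
  intro h
  have h1 : Rep γ (A ++ B) := h.1.congr (by
    rw [wd_append, wd_append, wd_cons, wd_cons, ← mul_assoc (sr m), sr_mul_self, one_mul])
  have h2 := h.2 _ h1
  simp only [List.length_append, List.length_cons] at h2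
  omega

theorem MinRep.swap {γ : W G} {A B : List (L G)} {m x : L G} (h : MinRep γ (A ++ m :: x :: B))
    (e : sr m * sr x = sr x * sr m) : MinRep γ (A ++ x :: m :: B) :=
  h.congr (by
    rw [wd_append, wd_append, wd_cons, wd_cons, wd_cons, wd_cons, ← mul_assoc (sr m), e,
      mul_assoc (sr x)]) (by simp)

theorem Rep.mem {γ : W G} {u : List (L G)} (h : Rep γ u) (hγ : γ ∈ Gam G) : wd u ∈ Gam G := by
  obtain ⟨g, hg⟩ := h
  have h1 := mem_Gam.mp hγ
  have e := cl_mul g g⁻¹
  rw [mul_inv_cancel, cl_one] at e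
  rw [hg, cl_mul, cl_mul, add_right_comm, ← e, zero_add] at h1
  exact mem_Gam.mpr h1

theorem exists_snoc {α : Type*} (a : α) (A : List α) : ∃ B z, a :: A = B ++ [z] := by
  rcases List.eq_nil_or_concat (a :: A) with h | ⟨B, z, h⟩
  · cases h
  · exact ⟨B, z, by rw [h, List.concat_eq_append]⟩

theorem exists_cons {α : Type*} (a : α) (A : List α) : ∃ z B, A ++ [a] = z :: B := by
  cases A with
  | nil => exact ⟨a, [], rfl⟩
  | cons z B => exact ⟨z, B ++ [a], rfl⟩

theorem chain_mid {α : Type*} {R : α → α → Prop} {a c : α} {A : List α} (hA : A.IsChain R)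
    (h0 : R a c) (h1 : ∀ x A', A = x :: A' → R a x) (h2 : ∀ A' x, A = A' ++ [x] → R x c) :
    (a :: A ++ [c]).IsChain R := by
  cases A with
  | nil => simpa using h0
  | cons x A' =>
    obtain ⟨B, z, hB⟩ := exists_snoc x A'
    rw [List.cons_append, List.cons_append, List.isChain_cons_cons, ← List.cons_append, hB,
      List.append_assoc, List.singleton_append, List.isChain_append_cons_cons, ← hB]
    exact ⟨h1 x A' rfl, hA, h2 B z hB, List.isChain_singleton _⟩

include hG

theorem main_step {γ : W G} {O E : L G} (hO : par O = 1) (hE : par E ≠ 1) (hf : Far E O) :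
    ∀ (k : ℕ) (A B : List (L G)), B.length ≤ k → MinRep γ (O :: A ++ E :: B) →
      ∃ v, Rep γ (O :: v) ∧ Adm 1 (O :: v ++ [O]) := by
  intro k
  induction k using Nat.strong_induction_on with
  | _ k ih =>
    intro A₀ B₀ hk hmin₀
    obtain ⟨A, hA, eA, lA⟩ := exists_nf_le 1 A₀
    obtain ⟨B, hB, eB, lB⟩ := exists_nf_le 1 B₀
    have hmin : MinRep γ (O :: A ++ E :: B) := hmin₀.congr
      (by simp only [List.cons_append, wd_cons, wd_append, eA, eB])
      (by simp only [List.length_append, List.length_cons]; omega)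
    by_cases c1 : ∀ x B', B = x :: B' → Edge 1 E x
    · by_cases c2 : ∀ B' x, B = B' ++ [x] → Edge 1 x O
      · refine ⟨A ++ E :: B, hmin.1, ?_⟩
        have e : O :: (A ++ E :: B) ++ [O] = (O :: A) ++ E :: (B ++ [O]) := by simp
        rw [e, Adm, List.isChain_split]
        refine ⟨chain_mid hA (hf.symm.edge 1) ?_ ?_, chain_mid hB (hf.edge 1) c1 c2⟩
        · rintro x A' rfl
          refine ⟨?_, fun hp => (hp hO).elim⟩
          rintro rfl
          exact MinRep.no_sq (A := []) hmin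
        · rintro A' x rfl
          by_contra hc
          rcases not_edge hc with rfl | ⟨hp, hadj⟩
          · refine MinRep.no_sq (γ := γ) (A := O :: A') (B := B) (m := x) ?_
            simpa using hmin
          · rw [par_adj hadj, par_eq_zero hp] at hE
            exact hE (zero_add 1)
      · push Not at c2
        obtain ⟨B', x, rfl, hc⟩ := c2
        have hrot : MinRep γ ([] ++ x :: O :: (A ++ E :: B')) := by
          have h1 : MinRep γ ((O :: A ++ E :: B') ++ [x]) := by simpa using hmin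
          simpa using h1.rot
        rcases not_edge hc with rfl | ⟨-, hadj⟩
        · exact (MinRep.no_sq hrot).elim
        · refine ih B'.length ?_ (x :: A) B' le_rfl ?_
          · simp only [List.length_append, List.length_cons, List.length_nil] at lB
            omega
          · simpa using hrot.swap (adj_comm hadj)
    · push Not at c1
      obtain ⟨x, B', rfl, hc⟩ := c1
      rcases not_edge hc with rfl | ⟨-, hadj⟩
      · exact (MinRep.no_sq hmin).elim
      · refine ih B'.length ?_ (A ++ [x]) B' le_rfl ?_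
        · simp only [List.length_cons] at lB
          omega
        · simpa using hmin.swap (adj_comm hadj)

theorem exists_far {o t : L G} {X : List (L G)} (hu : Adm 1 (o :: X ++ [t]))
    (hmem : wd (o :: X ++ [t]) ∈ Gam G) (ho : par o = 1) (ht : par t ≠ 1) :
    ∃ E ∈ o :: X ++ [t], ∃ O ∈ o :: X ++ [t], par O = 1 ∧ par E ≠ 1 ∧ Far E O := by
  by_contra hcon
  have hadj : ∀ E ∈ o :: X ++ [t], ∀ O ∈ o :: X ++ [t], par O = 1 → par E ≠ 1 →
      O = E + 1 ∨ O = E - 1 := by
    intro E hE O hO h1 h2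
    refine adj_of_not_far (fun e => h2 (e ▸ h1)) fun hf => hcon ⟨E, hE, O, hO, h1, h2, hf⟩
  have hcl := mem_Gam.mp hmem
  -- two different odd letters
  obtain ⟨x, hx, hpx⟩ : ∃ x ∈ X ++ [t], par x = 1 := by
    by_contra hc
    have h1 := cl_fst_of_even (u := X ++ [t]) fun m hm hp => hc ⟨m, hm, hp⟩
    have h2 := congrArg Prod.fst hcl
    rw [List.cons_append, wd_cons, cl_mul, cl_sr, Prod.fst_add, h1, clL, if_pos ho] at h2
    revert h2
    decide
  obtain ⟨C, D, hCD⟩ := List.append_of_mem hx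
  obtain ⟨C', z, hz⟩ := exists_snoc o C
  have e1 : o :: X ++ [t] = C' ++ z :: x :: D := by
    rw [List.cons_append, hCD, ← List.cons_append, hz]
    simp
  have hzx : Edge 1 z x := by
    rw [e1, Adm, List.isChain_append_cons_cons] at hu
    exact hu.2.1
  have hzm : z ∈ o :: X ++ [t] := by rw [e1]; simp
  have hxm : x ∈ o :: X ++ [t] := by rw [e1]; simp
  have hpz : par z = 1 := by
    by_contra hp
    rcases hadj z hzm x hxm hpx hp with e | e
    · exact (hzx.2 hp).1 e
    · exact (hzx.2 hp).2 e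
  -- two different even letters
  obtain ⟨y, hy, hpy⟩ : ∃ y ∈ o :: X, par y ≠ 1 := by
    by_contra hc
    have h1 := cl_snd_of_odd (u := o :: X) fun m hm => by
      by_contra hp
      exact hc ⟨m, hm, hp⟩
    have h2 := congrArg Prod.snd hcl
    rw [wd_append, cl_mul, Prod.snd_add, h1, wd_cons, wd_nil, mul_one, cl_sr, clL,
      if_neg ht] at h2
    revert h2
    decide
  obtain ⟨C₁, D₁, hCD₁⟩ := List.append_of_mem hy
  obtain ⟨w, D₂, hw⟩ := exists_cons t D₁
  have e2 : o :: X ++ [t] = C₁ ++ y :: w :: D₂ := by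
    rw [hCD₁, ← hw]
    simp
  have hyw : Edge 1 y w := by
    rw [e2, Adm, List.isChain_append_cons_cons] at hu
    exact hu.2.1
  have hym : y ∈ o :: X ++ [t] := by rw [e2]; simp
  have hwm : w ∈ o :: X ++ [t] := by rw [e2]; simp
  have hpw : par w ≠ 1 := by
    intro hp
    rcases hadj y hym w hwm hp hpy with e | e
    · exact (hyw.2 hpy).1 e
    · exact (hyw.2 hpy).2 e
  have h4 : ((4 : ℕ) : L G) ≠ 0 := natCast_ne_zero (by omega) (by omega)
  have h4' : (4 : L G) ≠ 0 := by exact_mod_cast h4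
  have n1 := hzx.1
  have n2 := hyw.1
  rcases hadj y hym z hzm hpz hpy with a1 | a1 <;>
    rcases hadj y hym x hxm hpx hpy with a2 | a2 <;>
    rcases hadj w hwm z hzm hpz hpw with a3 | a3 <;>
    rcases hadj w hwm x hxm hpx hpw with a4 | a4 <;>
    first
      | exact n1 (a1.trans a2.symm)
      | exact n1 (a3.trans a4.symm)
      | exact n2 (by linear_combination a3 - a1)
      | exact h4' (by linear_combination a3 - a1 + a2 - a4)
      | exact h4' (by linear_combination a1 - a3 + a4 - a2)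

theorem exists_cyc_word {γ : W G} (h : γ ∈ Gam G) (h1 : γ ≠ 1) :
    ∃ (m : L G) (v : List (L G)), Rep γ (m :: v) ∧ Adm 1 (m :: v ++ [m]) := by
  classical
  have hex : ∃ n, ∃ u, Rep γ u ∧ u.length = n := by
    obtain ⟨u, hu⟩ := exists_wd γ
    exact ⟨u.length, u, ⟨1, by rw [hu]; group⟩, rfl⟩
  obtain ⟨u₀, hu₀, hl₀⟩ := Nat.find_spec hex
  have hmin₀ : MinRep γ u₀ := ⟨hu₀, fun v hv => hl₀ ▸ Nat.find_min' hex ⟨v, hv, rfl⟩⟩
  obtain ⟨u, hu, eu, lu⟩ := exists_nf_le 1 u₀
  have hmin : MinRep γ u := hmin₀.congr eu.symm lu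
  have hmem := hmin.1.mem h
  rcases u with _ | ⟨o, u⟩
  · obtain ⟨g, hg⟩ := hmin.1
    exact (h1 (by rw [hg, wd_nil]; group)).elim
  rcases List.eq_nil_or_concat u with rfl | ⟨X, t, rfl⟩
  · exact absurd (even_length_of_mem hmem) (by simp)
  rw [List.concat_eq_append] at hu hmin hmem
  by_cases hc : Edge 1 t o
  · refine ⟨o, X ++ [t], hmin.1, ?_⟩
    have e : o :: (X ++ [t]) ++ [o] = (o :: X) ++ t :: o :: [] := by simp
    rw [e, Adm, List.isChain_append_cons_cons]
    exact ⟨hu, hc, List.isChain_singleton _⟩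
  rcases not_edge hc with rfl | ⟨hp, hadj⟩
  · have h2 : MinRep γ ((t :: X) ++ [t]) := hmin
    exact (MinRep.no_sq (A := []) h2.rot).elim
  have ho : par o = 1 := by rw [par_adj hadj, par_eq_zero hp, zero_add]
  obtain ⟨E, hE, O, hO, hpO, hpE, hf⟩ := exists_far (X := X) hu hmem ho hp
  obtain ⟨A, B, hAB⟩ := List.append_of_mem hO
  have h2 : MinRep γ (A ++ O :: B) := hAB ▸ hmin
  have hE' : E ∈ B ++ A := by
    rw [hAB] at hE
    simp only [List.mem_append, List.mem_cons] at hE ⊢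
    rcases hE with hE | hE | hE
    · exact Or.inr hE
    · exact (hf.1 hE).elim
    · exact Or.inl hE
  obtain ⟨C, D, hCD⟩ := List.append_of_mem hE'
  have h3 : MinRep γ (O :: C ++ E :: D) := by
    have h4 := h2.rot
    rwa [List.cons_append, hCD] at h4
  exact ⟨O, main_step hpO hpE hf D.length C D le_rfl h3⟩

omit hG in
theorem cyc_of_nat {S : Type*} {E : S → S → Prop} {n : ℕ} (F : ℕ → S) (h0 : F (n + 1) = F 0)
    (h : ∀ k ≤ n, E (F k) (F (k + 1))) (i : ZMod (n + 1)) : E (F i.val) (F (i + 1).val) := by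
  have hi : i.val < n + 1 := ZMod.val_lt i
  have e : (i + 1).val = (i.val + 1) % (n + 1) := by
    rw [ZMod.val_add, ZMod.val_one_eq_one_mod, Nat.add_mod_mod]
  have h1 := h i.val (by omega)
  rcases Nat.lt_or_ge (i.val + 1) (n + 1) with h2 | h2
  · rwa [e, Nat.mod_eq_of_lt h2]
  · have h3 : i.val + 1 = n + 1 := by omega
    rw [h3] at h1
    rw [e, h3, Nat.mod_self, ← h0]
    exact h1

end Surf

/-- Every nontrivial element of the surface group is conjugate to a closed admissible path. -/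
theorem exists_cyc {γ : W G} (h : γ ∈ Gam G) (h1 : γ ≠ 1) :
    ∃ (n : ℕ) (π : Cyc (StE (G := G) 1) n), ∃ δ ∈ Gam G, γ = δ * gam π * δ⁻¹ := by
  obtain ⟨m, v, hrep, hadm⟩ := Surf.exists_cyc_word h h1
  have hmem := hrep.mem h
  obtain ⟨g, hg⟩ := hrep
  let F : ℕ → St G := fun k => (cl g + cl (wd ((m :: v).take k)), (m :: v ++ [m]).getD k 0)
  have hlen : (m :: v).length = v.length + 1 := rfl
  have hget : ∀ k (hk : k < (m :: v).length), (m :: v ++ [m]).getD k 0 = (m :: v)[k] := by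
    intro k hk
    rw [List.getD_append _ _ _ _ hk, List.getD_eq_getElem]
  have h0 : F (v.length + 1) = F 0 := by
    refine Prod.ext ?_ ?_
    · show cl g + cl (wd ((m :: v).take (v.length + 1))) = cl g + cl (wd ((m :: v).take 0))
      rw [← hlen, List.take_length, mem_Gam.mp hmem, List.take_zero, wd_nil, cl_one]
    · show (m :: v ++ [m]).getD (v.length + 1) 0 = (m :: v ++ [m]).getD 0 0
      rw [List.getD_append_right _ _ _ _ hlen.le, hlen, Nat.sub_self]
      rfl
  have hstep : ∀ k ≤ v.length, StE 1 (F k) (F (k + 1)) := by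
    intro k hk
    have hk' : k < (m :: v).length := by rw [hlen]; omega
    have hk2 : k + 1 < (m :: v ++ [m]).length := by
      simp only [List.length_append, List.length_cons, List.length_nil]
      omega
    constructor
    · show Edge 1 ((m :: v ++ [m]).getD k 0) ((m :: v ++ [m]).getD (k + 1) 0)
      rw [List.getD_eq_getElem _ _ (by omega), List.getD_eq_getElem _ _ hk2]
      exact List.isChain_iff_getElem.mp hadm k hk2
    · show cl g + cl (wd ((m :: v).take (k + 1))) =
        cl g + cl (wd ((m :: v).take k)) + clL ((m :: v ++ [m]).getD k 0)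
      rw [hget k hk', ← List.take_concat_get' _ _ hk', wd_append, cl_mul, wd_cons, wd_nil, mul_one,
        cl_sr, add_assoc]
  refine ⟨v.length, ⟨fun i => F i.val, Surf.cyc_of_nat F h0 hstep⟩, g * (sec (cl g))⁻¹,
    mul_sec_inv_mem g, ?_⟩
  have e1 : cw (fun i : ZMod (v.length + 1) => (F i.val).2) = m :: v := by
    refine List.ext_getElem (by simp [cw]) fun k hk1 hk2 => ?_
    simp only [cw, List.getElem_ofFn]
    rw [ZMod.val_natCast_of_lt hk2]
    exact hget k hk2
  have e2 : (F (0 : ZMod (v.length + 1)).val).1 = cl g := by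
    show cl g + cl (wd ((m :: v).take (0 : ZMod (v.length + 1)).val)) = cl g
    rw [ZMod.val_zero, List.take_zero, wd_nil, cl_one, add_zero]
  show γ = g * (sec (cl g))⁻¹ * (sec (F (0 : ZMod (v.length + 1)).val).1 *
    wd (cw fun i : ZMod (v.length + 1) => (F i.val).2) *
      (sec (F (0 : ZMod (v.length + 1)).val).1)⁻¹) * (g * (sec (cl g))⁻¹)⁻¹
  rw [e1, e2, hg]
  group

end Pool.Agent.Lib.MP_de7bb2_an
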