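import Pool.Agent.Lib.MP_de7bb2_an.H20Inj
import Pool.Agent.Lib.MP_de7bb2_an.H20Kth
import Pool.Agent.Lib.MP_de7bb2_an.H20Surf

/-! The Poisson transform of a fixed vector. TASK POIS. -/

namespace Pool.Agent.Lib.MP_de7bb2_an

open Metric Set Complex Filter

variable {G : ℕ} [hG : Fact (2 ≤ G)] {b : ZMod 2} {D : Nest G b} {s : ℂ} {x : L G → ℂ}
  {μ : Vec (St G × ℕ)}

noncomputable def pois (D : Nest G b) (x : L G → ℂ) (μ : Vec (St G × ℕ)) (s z : ℂ) : ℂ :=
  tot D x μ fun E => br E (zv z) ^ (-s)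

/-- The additive character of the surface group. -/
noncomputable def thS (x : L G → ℂ) (γ : (surf G).Γ) : ℂ := Th x (show Gam G from γ).1

theorem thS_neg (x : L G → ℂ) : thS (-x) = -thS x := by
  funext γ
  simp only [thS, map_neg, Pi.neg_apply]

theorem exists_norm_thS_le (γ : (surf G).Γ) : ∃ C, ∀ x : L G → ℂ, ‖thS x γ‖ ≤ C * ‖x‖ :=
  exists_norm_Th_le _

namespace Pois

open ComplexConjugate MeasureTheory

omit hG in
theorem sum_head (k : ℕ) (a : List (L G) → ℂ) :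
    ∑ m : L G, ∑ u ∈ admF G b k, (if u.headD 0 = m then a u else 0) = ∑ u ∈ admF G b k, a u := by
  rw [Finset.sum_comm]
  refine Finset.sum_congr rfl fun u _ => ?_
  rw [Finset.sum_ite_eq, if_pos (Finset.mem_univ _)]

omit hG in
theorem diff_Th (g : W G) : Differentiable ℂ fun x : L G → ℂ => Th x g :=
  (LinearMap.toContinuousLinearMap
    ((LinearMap.proj g : (W G → ℂ) →ₗ[ℂ] ℂ).comp (Th (G := G)))).differentiable

theorem cont_ker {X : Type*} [TopologicalSpace X] {A : Set X} {B : Set ℂ} {s z : X → ℂ}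
    (hs : ContinuousOn s A) (hz : ContinuousOn z A) (h1 : MapsTo z A (ball 0 1))
    (u : List (L G)) (hsl : ∀ p ∈ A, ∀ η ∈ B, br (D.lift u η) (zv (z p)) ∈ slitPlane) :
    ContinuousOn (fun q : X × ℂ => br (D.lift u q.2) (zv (z q.1)) ^ (-s q.1)) (A ×ˢ B) :=
  (ContinuousOn.br ((D.diff_lift u).continuous.comp continuous_snd).continuousOn
    ((continuousOn_zv.comp hz h1).comp continuousOn_fst fun _ hp => hp.1)).cpow
    (hs.comp continuousOn_fst fun _ hp => hp.1).neg fun q hq => hsl q.1 hq.1 q.2 hq.2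

end Pois

open Pois

/-- On compact sets the total functional is computed at a fixed level. -/
theorem exists_level (D : Nest G b) {r : ℝ} (hr : r < 1) : ∃ N, ∀ (z s : ℂ), ‖z‖ ≤ r →
    (∀ u : List (L G), Adm b u → N + 1 ≤ u.length → ∀ η ∈ ball (0 : ℂ) D.R,
      br (D.lift u η) (zv z) ∈ slitPlane) ∧
    ∀ (x : L G → ℂ) (μ : Vec (St G × ℕ)), Fixd D s x μ → pois D x μ s z =
      ∑ u ∈ admF G b (N + 1), exp (Th x (wd u.dropLast)) *
        ev μ (cl (wd u.dropLast), u.getLastD 0) fun η => br (D.lift u η) (zv z) ^ (-s) := by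
  obtain ⟨T, hT⟩ := (isCompact_closedBall (0 : ℂ) r).exists_bound_of_continuousOn
    (continuousOn_zv.mono (closedBall_subset_ball hr))
  obtain ⟨N, hN⟩ := D.exists_slit T
  refine ⟨N, fun z s hz => ?_⟩
  have hb : z ∈ ball (0 : ℂ) 1 := mem_ball_zero_iff.2 (hz.trans_lt hr)
  have h1 := hN _ (hyp_zv hb) ((re_le_norm _).trans
    ((norm_fst_le _).trans (hT z (mem_closedBall_zero_iff.2 hz))))
  refine ⟨h1, fun x μ h => ?_⟩
  have hg : ∀ m, Good D N 1 m fun E => br E (zv z) ^ (-s) := fun m u hu _ hl η hη => by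
    simp only [lin_one]
    exact (((Ext.diff_br _ _).comp η (D.diff_lift u η)).cpow_const
      (h1 u hu hl η hη)).differentiableWithinAt
  rw [pois, tot, Finset.sum_congr rfl fun m _ =>
    piece_eq_lev h (test_pow s (hyp_zv hb)).hom (hg m) le_rfl]
  simp only [levG, one_mul, lin_one]
  exact sum_head _ _

theorem pois_param {P : Type*} [NormedAddCommGroup P] [NormedSpace ℂ P] [FiniteDimensional ℂ P]
    {U : Set P} (hU : IsOpen U) {s : P → ℂ} {x : P → L G → ℂ} {μ : P → Vec (St G × ℕ)}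
    (hs : DifferentiableOn ℂ s U) (hx : DifferentiableOn ℂ x U) (hμ : DifferentiableOn ℂ μ U)
    (h : ∀ p ∈ U, Fixd D (s p) (x p) (μ p)) :
    ContinuousOn (fun q : P × ℂ => pois D (x q.1) (μ q.1) (s q.1) q.2) (U ×ˢ ball 0 1) ∧
      ∀ z ∈ ball (0 : ℂ) 1, DifferentiableOn ℂ (fun p => pois D (x p) (μ p) (s p) z) U := by
  have hS : sphere (0 : ℂ) 1 ⊆ ball 0 D.R := sphere_subset_ball D.one_lt_R
  constructor
  · intro q hq
    obtain ⟨r, h1, h2⟩ := exists_between (mem_ball_zero_iff.1 hq.2)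
    obtain ⟨N, hN⟩ := exists_level D h2
    have ho : IsOpen (U ×ˢ ball (0 : ℂ) r) := hU.prod isOpen_ball
    refine (ContinuousOn.continuousAt (s := U ×ˢ ball 0 r) ?_
      (ho.mem_nhds ⟨hq.1, mem_ball_zero_iff.2 h1⟩)).continuousWithinAt
    refine ContinuousOn.congr ?_ fun p hp =>
      (hN p.2 (s p.1) (mem_ball_zero_iff.1 hp.2).le).2 _ _ (h p.1 hp.1)
    refine continuousOn_finsetSum _ fun u hu => ?_
    obtain ⟨a1, a2⟩ := mem_admF.1 hu
    refine ContinuousOn.mul ((diff_Th _).continuous.comp_continuousOn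
      (hx.continuousOn.comp continuousOn_fst fun _ hp => hp.1)).cexp ?_
    refine continuousOn_ev _ (hμ.continuousOn.comp continuousOn_fst fun _ hp => hp.1)
      (F := fun (q : P × ℂ) η => br (D.lift u η) (zv q.2) ^ (-s q.1)) ?_
    exact cont_ker (s := fun q : P × ℂ => s q.1) (z := fun q : P × ℂ => q.2)
      (hs.continuousOn.comp continuousOn_fst fun _ hp => hp.1) continuousOn_snd
      (fun p hp => ball_subset_ball h2.le hp.2) u fun p hp η hη =>
        (hN p.2 0 (mem_ball_zero_iff.1 hp.2).le).1 u a2 a1.ge η (hS hη)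
  · intro z hz
    obtain ⟨N, hN⟩ := exists_level D (mem_ball_zero_iff.1 hz)
    refine DifferentiableOn.congr ?_ fun p hp => (hN z (s p) le_rfl).2 _ _ (h p hp)
    refine DifferentiableOn.fun_sum fun u hu => ?_
    obtain ⟨a1, a2⟩ := mem_admF.1 hu
    have a3 := (hN z 0 le_rfl).1 u a2 a1.ge
    refine DifferentiableOn.mul ((diff_Th _).comp_differentiableOn hx).cexp ?_
    refine diffOn_ev _ hU hμ (F := fun p η => br (D.lift u η) (zv z) ^ (-s p)) ?_ fun y hy => ?_
    · exact cont_ker (z := fun _ => z) hs.continuousOn continuousOn_const (fun _ _ => hz) u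
        fun _ _ η hη => a3 η (hS hη)
    · exact hs.neg.const_cpow (Or.inl (slitPlane_ne_zero (a3 y (Ext.mem_ball_of_norm D hy))))

namespace Pois

open ComplexConjugate MeasureTheory

theorem Kop_pois (h : Fixd D s x μ) (T : ℝ) {z : ℂ} (hz : z ∈ ball (0 : ℂ) 1) :
    Kop T (pois D x μ s) z = khat T s * pois D x μ s z := by
  have hS : sphere (0 : ℂ) 1 ⊆ ball 0 D.R := sphere_subset_ball D.one_lt_R
  obtain ⟨r, h1, h2, h3⟩ := Kth.Kop_eq (mem_ball_zero_iff.1 hz) T
  obtain ⟨N, hN⟩ := exists_level D h1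
  have hsub : closedBall (0 : ℂ) r ⊆ ball 0 1 := closedBall_subset_ball h1
  have hw : ContinuousOn (fun w => (Kth.wt T z w : ℂ)) (closedBall 0 r) :=
    continuous_ofReal.comp_continuousOn ((Kth.cont_wt' T hz).mono hsub)
  have hc : ∀ u ∈ admF G b (N + 1), ContinuousOn (fun q : ℂ × ℂ =>
      (Kth.wt T z q.1 : ℂ) * br (D.lift u q.2) (zv q.1) ^ (-s)) (closedBall 0 r ×ˢ ball 0 D.R) :=
    fun u hu => (hw.comp continuousOn_fst fun _ hp => hp.1).mul
      (cont_ker (s := fun _ => s) (z := fun w => w) continuousOn_const continuousOn_id hsub u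
        fun w hw => (hN w 0 (mem_closedBall_zero_iff.1 hw)).1 u (mem_admF.1 hu).2
          (mem_admF.1 hu).1.ge)
  have key : ∀ u ∈ admF G b (N + 1), EqOn
      (fun η => ∫ w in closedBall (0 : ℂ) r, (Kth.wt T z w : ℂ) * br (D.lift u η) (zv w) ^ (-s))
      (fun η => khat T s * br (D.lift u η) (zv z) ^ (-s)) (ball 0 D.R) := fun u hu => by
    have hd : ∀ w : ℂ, ‖w‖ ≤ r →
        DifferentiableOn ℂ (fun η => br (D.lift u η) (zv w) ^ (-s)) (ball 0 D.R) :=
      fun w hw η hη => (((Ext.diff_br _ _).comp η (D.diff_lift u η)).cpow_const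
        ((hN w 0 hw).1 u (mem_admF.1 hu).2 (mem_admF.1 hu).1.ge η hη)).differentiableWithinAt
    refine eqOn_ball_of_real ?_ ((hd z h2).const_mul _) one_pos fun η _ _ => ?_
    · refine diffOn_setIntegral volume (isCompact_closedBall _ _) isOpen_ball
        (f := fun η w => (Kth.wt T z w : ℂ) * br (D.lift u η) (zv w) ^ (-s)) ?_ fun w hw =>
          (hd w (mem_closedBall_zero_iff.1 hw)).const_mul _
      exact (hw.comp continuousOn_snd fun _ hp => hp.2).mul (((ContinuousOn.br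
        ((D.diff_lift u).continuous.comp continuous_fst).continuousOn
        ((continuousOn_zv.mono hsub).comp continuousOn_snd fun _ hp => hp.2)).cpow_const
        fun q hq => (hN q.2 0 (mem_closedBall_zero_iff.1 hq.2)).1 u (mem_admF.1 hu).2
          (mem_admF.1 hu).1.ge q.1 hq.1))
    · rw [← Kop_eigen T s (D.nul_lift u η) hz, h3 z le_rfl]
  rw [h3 z le_rfl, (hN z s h2).2 x μ h, Finset.mul_sum, setIntegral_congr_fun
    measurableSet_closedBall (g := fun w => ∑ u ∈ admF G b (N + 1), exp (Th x (wd u.dropLast)) *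
      ev μ (cl (wd u.dropLast), u.getLastD 0) fun η =>
        (Kth.wt T z w : ℂ) * br (D.lift u η) (zv w) ^ (-s)) fun w hw => ?_,
    integral_finsetSum _ fun u hu => ?_]
  · refine Finset.sum_congr rfl fun u hu => ?_
    rw [integral_const_mul, ← ev_setIntegral μ _ volume (isCompact_closedBall _ _)
      ((hc u hu).mono (prod_mono_right hS)), mul_left_comm, ← ev_const_mul μ _ (khat T s),
      ev_congr μ _ fun y hy => key u hu (Ext.mem_ball_of_norm D hy)]
  · refine ContinuousOn.integrableOn_compact (isCompact_closedBall _ _)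
      (continuousOn_const.mul ?_)
    exact continuousOn_ev _ continuousOn_const ((hc u hu).mono (prod_mono_right hS))
  · simp only [(hN w s (mem_closedBall_zero_iff.1 hw)).2 x μ h, Finset.mul_sum, ev_const_mul,
      mul_left_comm]

/-- An annulus around the unit circle. -/
def An (ρ : ℝ) : Set ℂ := {y | ρ⁻¹ < ‖y‖ ∧ ‖y‖ < ρ}

theorem isOpen_An (ρ : ℝ) : IsOpen (An ρ) :=
  (isOpen_lt continuous_const continuous_norm).inter (isOpen_lt continuous_norm continuous_const)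

theorem mem_An {ρ : ℝ} (hρ : 1 < ρ) {y : ℂ} (hy : ‖y‖ = 1) : y ∈ An ρ :=
  ⟨hy ▸ inv_lt_one_of_one_lt₀ hρ, hy ▸ hρ⟩

theorem An.ne {ρ : ℝ} (hρ : 1 < ρ) {y : ℂ} (hy : y ∈ An ρ) : y ≠ 0 :=
  norm_pos_iff.1 ((inv_pos.2 (one_pos.trans hρ)).trans hy.1)

/-- The total functional seen from the chamber `g`, on functions of the boundary point. -/
noncomputable def Lam (D : Nest G b) (s : ℂ) (x : L G → ℂ) (μ : Vec (St G × ℕ)) (g : W G)
    (f : ℂ → ℂ) : ℂ :=
  ∑ m, Inj.La D x μ g m (Inj.wt s f)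

variable {g : W G} {ρ : ℝ} {f : ℂ → ℂ}

theorem exists_rep (h : Fixd D s x μ) (g : W G) (hρ : 1 < ρ) :
    ∃ (t : Finset (List (L G))) (c : List (L G) → ℂ) (σ : List (L G) → St G)
      (A y : List (L G) → ℂ → ℂ),
      (∀ u ∈ t, ContinuousOn (A u) (sphere 0 1) ∧ ContinuousOn (y u) (sphere 0 1) ∧
        MapsTo (y u) (sphere 0 1) (An ρ)) ∧
      ∀ f, DifferentiableOn ℂ f (An ρ) →
        Lam D s x μ g f = ∑ u ∈ t, c u * ev μ (σ u) fun η => A u η * f (y u η) := by
  have hS : sphere (0 : ℂ) 1 ⊆ ball 0 D.R := sphere_subset_ball D.one_lt_R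
  have h1 : ρ⁻¹ < 1 := inv_lt_one_of_one_lt₀ hρ
  obtain ⟨N, hN⟩ := D.exists_thin (lt_min (sub_pos.2 h1) (sub_pos.2 hρ))
  have H : ∀ u : List (L G), Adm b u → N + 1 ≤ u.length →
      DifferentiableOn ℂ (fun η => br (D.lift u η) oo ^ (-s)) (ball 0 D.R) ∧
        DifferentiableOn ℂ (fun η => pt (D.lift u η)) (ball 0 D.R) ∧
        MapsTo (fun η => pt (D.lift u η)) (ball 0 D.R) (An ρ) := fun u hu hl => by
    have hne : u ≠ [] := by
      rintro rfl
      simp at hl
    refine ⟨fun η hη => ?_, fun η hη => ?_, fun η hη => ?_⟩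
    · exact (((Ext.diff_br _ _).comp η (D.diff_lift u η)).cpow_const
        (by simpa using Inj.slit_lift D hu hne hη)).differentiableWithinAt
    · exact ((Ext.diffAt_pt (hN u hu hl η hη).1).comp η (D.diff_lift u η)).differentiableWithinAt
    · obtain ⟨-, y₀, e1, e2⟩ := hN u hu hl η hη
      have e3 : ‖y₀‖ = 1 := by simpa using e1.1.norm_pt
      have e4 := abs_lt.1 ((abs_norm_sub_norm_le _ _).trans_lt e2)
      have e5 := min_le_left (1 - ρ⁻¹) (ρ - 1)
      have e6 := min_le_right (1 - ρ⁻¹) (ρ - 1)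
      rw [e3] at e4
      exact ⟨by linarith [e4.1], by linarith [e4.2]⟩
  refine ⟨admF G b (N + 1), fun u => exp (Th x (g * wd u.dropLast)),
    fun u => (cl (g * wd u.dropLast), u.getLastD 0), fun u η => br (D.lift u η) oo ^ (-s),
    fun u η => pt (D.lift u η), fun u hu => ?_, fun f hf => ?_⟩
  · obtain ⟨a1, a2, a3⟩ := H u (mem_admF.1 hu).2 (mem_admF.1 hu).1.ge
    exact ⟨a1.continuousOn.mono hS, a2.continuousOn.mono hS, a3.mono_left hS⟩
  · have hg : ∀ m, Inj.Gd D N m (Inj.wt s f) := fun m u hu _ hl =>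
      (H u hu hl).1.mul (hf.comp (H u hu hl).2.1 (H u hu hl).2.2)
    rw [Lam, Finset.sum_congr rfl fun m _ => Inj.La_eq h (Inj.hom_wt s f) (hg m) g]
    exact sum_head _ _

theorem Lam_mul (h : Fixd D s x μ) (hρ : 1 < ρ) (hf : DifferentiableOn ℂ f (An ρ)) (a : ℂ) :
    Lam D s x μ g (fun y => a * f y) = a * Lam D s x μ g f := by
  obtain ⟨t, c, σ, A, y, -, H⟩ := exists_rep h g hρ
  rw [H f hf, H _ (hf.const_mul a), Finset.mul_sum]
  refine Finset.sum_congr rfl fun u _ => ?_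
  rw [mul_left_comm a, ← ev_const_mul μ _ a,
    ev_congr μ _ fun η _ => mul_left_comm (A u η) a (f (y u η))]

theorem Lam_diff (h : Fixd D s x μ) (hρ : 1 < ρ) {U : Set (ℂ × ℂ)} (hU : IsOpen U)
    {F : ℂ × ℂ → ℂ → ℂ}
    (hF : DifferentiableOn ℂ (fun q : (ℂ × ℂ) × ℂ => F q.1 q.2) (U ×ˢ An ρ)) :
    DifferentiableOn ℂ (fun p => Lam D s x μ g (F p)) U := by
  obtain ⟨t, c, σ, A, y, H1, H⟩ := exists_rep h g hρ
  refine DifferentiableOn.congr ?_ fun p hp => H (F p)
    (hF.comp (f := fun y => (p, y)) (by fun_prop) fun _ hy => ⟨hp, hy⟩)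
  refine DifferentiableOn.fun_sum fun u hu => DifferentiableOn.const_mul ?_ _
  obtain ⟨a1, a2, a3⟩ := H1 u hu
  refine diffOn_ev _ hU (differentiableOn_const μ) (F := fun p η => A u η * F p (y u η)) ?_
    fun η hη => DifferentiableOn.const_mul ?_ _
  · exact (a1.comp continuousOn_snd fun _ hq => hq.2).mul (hF.continuousOn.comp
      (f := fun q : (ℂ × ℂ) × ℂ => (q.1, y u q.2))
      (continuousOn_fst.prodMk (a2.comp continuousOn_snd fun _ hq => hq.2))
      fun _ hq => ⟨hq.1, a3 hq.2⟩)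
  · exact hF.comp (f := fun p => (p, y u η)) (by fun_prop)
      fun _ hp => ⟨hp, a3 (mem_sphere_zero_iff_norm.2 hη)⟩

theorem Lam_hasSum (h : Fixd D s x μ) (hρ : 1 < ρ) {F : ℕ → ℂ → ℂ} {v : ℕ → ℝ} (hv : Summable v)
    (hd : ∀ n, DifferentiableOn ℂ (F n) (An ρ)) (hb : ∀ n, ∀ y ∈ An ρ, ‖F n y‖ ≤ v n)
    (hf : ∀ y ∈ An ρ, HasSum (fun n => F n y) (f y)) :
    HasSum (fun n => Lam D s x μ g (F n)) (Lam D s x μ g f) := by
  obtain ⟨t, c, σ, A, y, H1, H⟩ := exists_rep h g hρ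
  have hd' : DifferentiableOn ℂ f (An ρ) :=
    (differentiableOn_tsum_of_summable_norm hv hd (isOpen_An ρ) hb).congr
      fun y hy => (hf y hy).tsum_eq.symm
  simp only [H f hd', H _ (hd _)]
  refine hasSum_sum fun u hu => HasSum.mul_left _ ?_
  obtain ⟨a1, a2, a3⟩ := H1 u hu
  obtain ⟨M, hM⟩ := (isCompact_sphere (0 : ℂ) 1).exists_bound_of_continuousOn a1
  have e := hasSum_ev μ (σ u) (F := fun n η => A u η * F n (y u η)) (hv.mul_left M)
    (fun n => a1.mul ((hd n).continuousOn.comp a2 a3)) fun n η hη => by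
      have hη' := mem_sphere_zero_iff_norm.2 hη
      rw [norm_mul]
      exact mul_le_mul (hM η hη') (hb n _ (a3 hη')) (norm_nonneg _)
        ((norm_nonneg _).trans (hM η hη'))
  rwa [ev_congr μ _ fun η hη =>
    ((hf _ (a3 (mem_sphere_zero_iff_norm.2 hη))).mul_left (A u η)).tsum_eq] at e

theorem test_wt (s : ℂ) (hρ : 1 < ρ) (hf : DifferentiableOn ℂ f (An ρ)) : Test s (Inj.wt s f) :=
  ⟨oo, fun E => f (pt E), hyp_oo, deg0_pt fun _ hy => by
    filter_upwards [(isOpen_An ρ).mem_nhds (mem_An hρ hy)] with w hw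
    exact hf.differentiableAt ((isOpen_An ρ).mem_nhds hw), rfl⟩

theorem slit_sub {w : ℂ} (hw : ‖w‖ < 1) : 1 - w ∈ slitPlane := by
  rw [sub_eq_add_neg]
  exact mem_slitPlane_of_norm_lt_one (by rwa [norm_neg])

theorem cpow_conj (s : ℂ) {w : ℂ} (hw : w ∈ slitPlane) :
    conj w ^ (-s) * w ^ (-s) = ((‖w‖ ^ 2 : ℝ) : ℂ) ^ (-s) := by
  have h0 := slitPlane_ne_zero hw
  have h1 : 0 < ‖w‖ := norm_pos_iff.2 h0
  rw [Inj.real_cpow s (pow_pos h1 2), cpow_def_of_ne_zero h0,
    cpow_def_of_ne_zero ((map_ne_zero _).2 h0), log_conj w (slitPlane_arg_ne_pi hw), ← exp_add,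
    ← add_mul, add_comm, add_conj, log_re, Real.log_pow, mul_comm]
  norm_num

/-- The complexified Poisson kernel. -/
noncomputable def pk (s a c y : ℂ) : ℂ := (1 - a * y⁻¹) ^ (-s) * (1 - c * y) ^ (-s)

theorem norm_inv_lt (hρ : 1 < ρ) {y : ℂ} (hy : y ∈ An ρ) : ‖y⁻¹‖ < ρ := by
  rw [norm_inv]
  exact inv_lt_of_inv_lt₀ (one_pos.trans hρ) hy.1

theorem mul_small {a t : ℂ} (ha : ‖a‖ < 1 / 4) (ht : ‖t‖ < 2) : ‖a * t‖ < 1 := by
  rw [norm_mul]
  nlinarith [norm_nonneg a, norm_nonneg t]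

theorem diff_ker (s : ℂ) : DifferentiableOn ℂ (fun q : (ℂ × ℂ) × ℂ => pk s q.1.1 q.1.2 q.2)
    (ball 0 (1 / 4) ×ˢ An 2) := fun q hq => by
  have h1 := mem_ball_zero_iff.1 hq.1
  have h2 : DifferentiableAt ℂ (fun q : (ℂ × ℂ) × ℂ => 1 - q.1.1 * q.2⁻¹) q :=
    (differentiableAt_fst.fst.mul (differentiableAt_snd.inv (An.ne one_lt_two hq.2))).const_sub 1
  have h3 : DifferentiableAt ℂ (fun q : (ℂ × ℂ) × ℂ => 1 - q.1.2 * q.2) q := by fun_prop
  exact ((h2.cpow_const (slit_sub (mul_small ((norm_fst_le _).trans_lt h1)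
    (norm_inv_lt one_lt_two hq.2)))).mul (h3.cpow_const (slit_sub
      (mul_small ((norm_snd_le _).trans_lt h1) hq.2.2)))).differentiableWithinAt

theorem br_pow_eq (s : ℂ) {Y : V} (hY : Nul Y) {z : ℂ} (hz : z ∈ ball (0 : ℂ) 1) :
    br Y (zv z) ^ (-s) = (((1 - ‖z‖ ^ 2)⁻¹ : ℝ) : ℂ) ^ (-s) * Inj.wt s (pk s z (conj z)) Y := by
  have h1 := hY.norm_pt
  have h2 := one_sub_pos hz
  have h3 : pt Y ≠ 0 := by
    intro e
    simp [e] at h1
  have h4 : conj (1 - conj z * pt Y) = 1 - z * (pt Y)⁻¹ := by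
    rw [map_sub, map_one, map_mul, conj_conj, inv_eq_conj h1]
  have h5 : 1 - conj z * pt Y ∈ slitPlane := slit_sub (by
    rw [norm_mul, h1, mul_one, norm_conj]
    exact mem_ball_zero_iff.1 hz)
  have h6 : br Y (zv z) = (((1 - ‖z‖ ^ 2)⁻¹ : ℝ) : ℂ) *
      ((Y.1.re * ‖1 - conj z * pt Y‖ ^ 2 : ℝ) : ℂ) := by
    conv_lhs => rw [hY.eq_smul_xi, br_smul_left, br_xi_zv h3 hz]
    rw [ofReal_mul, ← normSq_eq_norm_sq (1 - conj z * pt Y), normSq_eq_conj_mul_self, h4,
      ofReal_inv]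
    have : ((1 - ‖z‖ ^ 2 : ℝ) : ℂ) ≠ 0 := ofReal_ne_zero.2 h2.ne'
    field_simp
  rw [h6, mul_cpow_ofReal_nonneg (inv_pos.2 h2).le (mul_nonneg hY.2.1.le (sq_nonneg _)),
    ofReal_mul, mul_cpow_ofReal_nonneg hY.2.1.le (sq_nonneg _), ← cpow_conj s h5, h4, Inj.wt,
    br_oo_right, ← hY.1.fst_eq, pk]

theorem Lam_real (h : Fixd D s x μ) (hN : NR s x)
    (h0 : ∀ z ∈ ball (0 : ℂ) 1, pois D x μ s z = 0) (g : W G) {z : ℂ} (hz : ‖z‖ < 1 / 4) :
    Lam D s x μ g (pk s z (conj z)) = 0 := by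
  have hb : z ∈ ball (0 : ℂ) 1 := mem_ball_zero_iff.2 (by linarith)
  have hf : DifferentiableOn ℂ (pk s z (conj z)) (An 2) :=
    (diff_ker s).comp (f := fun y => ((z, conj z), y)) (by fun_prop) fun _ hy =>
      ⟨by simpa [Prod.norm_def] using hz, hy⟩
  have h1 := h0 _ (actD_mem g hb)
  have hT := test_pow s ((iso_lin g).hyp (hyp_zv hb))
  rw [pois, zv_actD g hb, ← sum_piece h hN hT g, Finset.sum_congr rfl fun m _ =>
    piece_lin_comb h hT {()} (fun _ => (((1 - ‖z‖ ^ 2)⁻¹ : ℝ) : ℂ) ^ (-s))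
      (K := fun _ E => Inj.wt s (pk s z (conj z)) (lin g⁻¹ E))
      (fun _ _ => (test_wt s one_lt_two hf).comp g⁻¹) (fun Y hY => by
        rw [Finset.sum_singleton, ← br_pow_eq s ((iso_lin g⁻¹).nul hY) hb, br_lin_left, inv_inv])
      g m] at h1
  simp only [Finset.sum_singleton, ← Finset.mul_sum] at h1
  refine (mul_eq_zero.1 h1).resolve_left fun e => ?_
  exact ofReal_ne_zero.2 (inv_pos.2 (one_sub_pos hb)).ne' ((cpow_eq_zero_iff _ _).1 e).1

theorem Lam_ker (h : Fixd D s x μ) (hN : NR s x)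
    (h0 : ∀ z ∈ ball (0 : ℂ) 1, pois D x μ s z = 0) (g : W G) {p : ℂ × ℂ} (hp : ‖p‖ < 1 / 8) :
    Lam D s x μ g (pk s (p.1 + I * p.2) (p.1 - I * p.2)) = 0 := by
  have hb : ∀ p : ℂ × ℂ, ‖p‖ < 1 / 8 → ‖p.1 + I * p.2‖ < 1 / 4 ∧ ‖p.1 - I * p.2‖ < 1 / 4 :=
    fun p hp => by
      have e1 := norm_fst_le p
      have e2 := norm_snd_le p
      have e3 := norm_add_le p.1 (I * p.2)
      have e4 := norm_sub_le p.1 (I * p.2)
      rw [norm_mul, norm_I, one_mul] at e3 e4
      constructor <;> linarith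
  refine eqOn_ball2_of_real (R := 1 / 8) (g := fun _ => 0)
    (f := fun p : ℂ × ℂ => Lam D s x μ g (pk s (p.1 + I * p.2) (p.1 - I * p.2)))
    (Lam_diff h one_lt_two isOpen_ball ?_) (differentiableOn_const 0) one_pos
    (fun a c _ _ ha hc => ?_) (mem_ball_zero_iff.2 hp)
  · refine (diff_ker s).comp
      (f := fun q : (ℂ × ℂ) × ℂ => ((q.1.1 + I * q.1.2, q.1.1 - I * q.1.2), q.2)) (by fun_prop)
      fun q hq => ⟨?_, hq.2⟩
    rw [mem_ball_zero_iff, Prod.norm_def, max_lt_iff]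
    exact hb q.1 (mem_ball_zero_iff.1 hq.1)
  · have e := Lam_real h hN h0 g (hb (a, c) (by simpa [Prod.norm_def] using And.intro ha hc)).1
    simpa [sub_eq_add_neg] using e

/-- Coordinates on the annuli. -/
def Coord (t : ℂ → ℂ) : Prop :=
  ∀ ρ : ℝ, 1 < ρ → DifferentiableOn ℂ t (An ρ) ∧ ∀ y ∈ An ρ, ‖t y‖ < ρ

theorem coord_id : Coord fun y => y := fun _ _ => ⟨differentiableOn_id, fun _ hy => hy.2⟩

theorem coord_inv : Coord fun y => y⁻¹ := fun _ hρ =>
  ⟨fun _ hy => (differentiableAt_inv (An.ne hρ hy)).differentiableWithinAt,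
    fun _ hy => norm_inv_lt hρ hy⟩

/-- The binomial function. -/
noncomputable def bn (s w : ℂ) : ℂ := (1 - w / 8) ^ (-s)

theorem hasDerivAt_bn (s : ℂ) {w : ℂ} (hw : w ∈ ball (0 : ℂ) 8) :
    HasDerivAt (bn s) (s / 8 * bn (s + 1) w) w := by
  have h1 : 1 - w / 8 ∈ slitPlane := slit_sub (by
    rw [norm_div, div_lt_one (by norm_num)]
    simpa using hw)
  refine ((((hasDerivAt_id w).div_const 8).const_sub 1).cpow_const (c := -s) h1).congr_deriv ?_
  rw [bn, neg_add', id]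
  ring

theorem diff_bn (s : ℂ) : DifferentiableOn ℂ (bn s) (ball 0 8) := fun _ hw =>
  (hasDerivAt_bn s hw).differentiableAt.differentiableWithinAt

theorem coef_bn_ne (n : ℕ) : ∀ s : ℂ, (∀ k : ℕ, s ≠ -k) → coef (bn s) n ≠ 0 := by
  induction n with
  | zero =>
    intro s _
    rw [coef_zero_eq (by norm_num) (diff_bn s)]
    simp [bn]
  | succ n ih =>
    intro s hs e
    have h1 := coef_deriv (by norm_num) (diff_bn s) n
    rw [e, mul_zero, coef_congr (K := fun y => s / 8 * bn (s + 1) y) fun y hy =>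
      (hasDerivAt_bn s (by rw [mem_ball_zero_iff, hy]; norm_num)).deriv, coef_const_mul] at h1
    refine mul_ne_zero (div_ne_zero (by simpa using hs 0) (by norm_num)) (ih (s + 1) fun k hk =>
      hs (k + 1) ?_) h1
    push_cast
    linear_combination hk

theorem eq_zero_of_hasSum {a : ℕ → ℂ} (h : ∀ z : ℂ, ‖z‖ = 1 → HasSum (fun n => a n * z ^ n) 0)
    (n : ℕ) : a n = 0 := by
  have h1 : Summable fun n => ‖a n‖ := by simpa using (h 1 norm_one).summable.norm
  have h2 := hasSum_coef_of_bound (F := fun n z => a n * z ^ n) h1 (fun _ => by fun_prop)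
    (fun i y hy => by rw [norm_mul, norm_pow, hy, one_pow, mul_one]) n
  rw [coef_congr (K := fun _ => 0) fun y hy => (h y hy).tsum_eq] at h2
  simp only [coef_const_mul, coef_pow, mul_ite, mul_one, mul_zero] at h2
  have h3 : HasSum (fun i => if i = n then a i else 0) (a n) := by
    simpa using hasSum_single (f := fun i => if i = n then a i else 0) n fun i hi => if_neg hi
  rw [h3.unique h2]
  simp [coef]

variable {t : ℂ → ℂ}

theorem Lam_pow (h : Fixd D s x μ) (hs : ∀ n : ℕ, s ≠ -n) (ht : Coord t)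
    (h0 : ∀ z : ℂ, ‖z‖ < 1 / 4 → Lam D s x μ g (fun y => (1 - z * t y) ^ (-s)) = 0) (n : ℕ) :
    Lam D s x μ g (fun y => t y ^ n) = 0 := by
  obtain ⟨t1, t2⟩ := ht 2 one_lt_two
  have hp : ∀ n : ℕ, DifferentiableOn ℂ (fun y => t y ^ n) (An 2) := fun n => t1.pow n
  obtain ⟨M, hM⟩ := (isCompact_closedBall (0 : ℂ) 4).exists_bound_of_continuousOn
    ((diff_bn s).continuousOn.mono (closedBall_subset_ball (by norm_num)))
  have hd := (diff_bn s).mono (ball_subset_ball (by norm_num : (4 : ℝ) ≤ 8))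
  have hc := norm_coef_le (by norm_num) hd fun y hy => hM y (ball_subset_closedBall hy)
  refine (mul_eq_zero.1 (eq_zero_of_hasSum
    (a := fun n => coef (bn s) n * Lam D s x μ g fun y => t y ^ n) (fun z hz => ?_) n)).resolve_left
    (coef_bn_ne n s hs)
  have e := Lam_hasSum (g := g) h one_lt_two (F := fun n y => coef (bn s) n * z ^ n * t y ^ n)
    (f := fun y => (1 - z / 8 * t y) ^ (-s)) (summable_geometric_two.mul_left M)
    (fun n => (hp n).const_mul _) (fun n y hy => ?_) fun y hy => ?_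
  · rw [h0 _ (by rw [norm_div, hz]; norm_num)] at e
    simp only [Lam_mul h one_lt_two (hp _)] at e
    simpa only [mul_right_comm] using e
  · rw [norm_mul, norm_mul, norm_pow, norm_pow, hz, one_pow, mul_one]
    refine (mul_le_mul (hc n) (pow_le_pow_left₀ (norm_nonneg _) (t2 y hy).le n) (by positivity)
      ((norm_nonneg _).trans (hc n))).trans_eq ?_
    rw [div_mul_eq_mul_div, mul_div_assoc, ← div_pow]
    norm_num
  · have e := hasSum_coef (by norm_num) hd (y := z * t y) (by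
      rw [mem_ball_zero_iff, norm_mul, hz, one_mul]
      linarith [t2 y hy])
    simpa only [mul_pow, ← mul_assoc, bn, div_mul_eq_mul_div] using e

theorem Lam_geom (h : Fixd D s x μ) (ht : Coord t)
    (h0 : ∀ n : ℕ, Lam D s x μ g (fun y => t y ^ n) = 0) {a : ℂ} (ha : ‖a‖ < 1) (c : ℂ) (k : ℕ)
    (hf : ∀ y, y ≠ 0 → f y = c * t y ^ k * (1 - a * t y)⁻¹) : Lam D s x μ g f = 0 := by
  have a0 := norm_nonneg a
  have hρ : 1 < 2 / (1 + ‖a‖) := by
    rw [lt_div_iff₀ (by linarith)]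
    linarith
  have hq : ‖a‖ * (2 / (1 + ‖a‖)) < 1 := by
    rw [← mul_div_assoc, div_lt_one (by linarith)]
    linarith
  generalize 2 / (1 + ‖a‖) = ρ at hρ hq
  obtain ⟨t1, t2⟩ := ht ρ hρ
  have hp : ∀ n : ℕ, DifferentiableOn ℂ (fun y => t y ^ n) (An ρ) := fun n => t1.pow n
  have e := Lam_hasSum (g := g) h hρ (F := fun n y => c * a ^ n * t y ^ (k + n)) (f := f)
    ((summable_geometric_of_lt_one (by positivity) hq).mul_left (‖c‖ * ρ ^ k))
    (fun n => (hp _).const_mul _) (fun n y hy => ?_) fun y hy => ?_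
  · simp only [Lam_mul h hρ (hp _), h0, mul_zero] at e
    exact e.unique hasSum_zero
  · rw [norm_mul, norm_mul, norm_pow, norm_pow]
    refine (mul_le_mul_of_nonneg_left (pow_le_pow_left₀ (norm_nonneg _) (t2 y hy).le _)
      (by positivity)).trans_eq ?_
    ring
  · have e := (hasSum_geometric_of_norm_lt_one (ξ := a * t y) (by
      rw [norm_mul]
      exact (mul_le_mul_of_nonneg_left (t2 y hy).le a0).trans_lt hq)).mul_left (c * t y ^ k)
    rw [← hf y (An.ne hρ hy)] at e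
    refine e.congr_fun fun n => ?_
    ring

end Pois

theorem pois_eig (h : Fixd D s x μ) (hN : NR s x) (T : ℝ) :
    Eig (surf G) T (thS x) (khat T s) (pois D x μ s) := by
  refine ⟨?_, fun γ z hz => ?_, fun z hz => Kop_pois h T hz⟩
  · exact (pois_param (P := ℂ) isOpen_univ (differentiableOn_const s) (differentiableOn_const x)
      (differentiableOn_const μ) fun _ _ => h).1.comp (f := fun z => ((0 : ℂ), z)) (by fun_prop)
      fun _ hz => ⟨mem_univ _, hz⟩
  · obtain ⟨γ, hγ⟩ := γ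
    change pois D x μ s (actD γ z) = exp (Th x γ) * pois D x μ s z
    rw [pois, zv_actD γ hz, tot_left h hN (test_pow s ((iso_lin γ).hyp (hyp_zv hz))) hγ, pois]
    simp only [(iso_lin γ).br_eq]

theorem pois_inj (h : Fixd D s x μ) (hN : NR s x) (hs : ∀ n : ℕ, s ≠ -n)
    (h0 : ∀ z ∈ ball (0 : ℂ) 1, pois D x μ s z = 0) : μ = 0 := by
  refine eq_zero_of_cauchy h hN fun g w hw => ?_
  change Lam D s x μ g (fun y => (w - y)⁻¹) = 0
  have hn : ∀ z : ℂ, ‖z‖ < 1 / 4 → ∀ e : ℂ, ‖e‖ = 1 → ‖(z / 2, e * (z / 2))‖ < 1 / 8 :=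
    fun z hz e he => by
      rw [Prod.norm_def, norm_mul, he, one_mul, max_self, norm_div, Complex.norm_ofNat]
      linarith
  rcases lt_or_gt_of_ne hw with h1 | h1
  · refine Lam_geom h coord_inv (Lam_pow h hs coord_inv fun z hz => ?_) h1 (-1) 1 fun y hy => ?_
    · have e := Lam_ker h hN h0 g (hn z hz (-I) (by simp))
      have e1 : z / 2 + I * (-I * (z / 2)) = z := by linear_combination (-z / 2) * I_mul_I
      have e2 : z / 2 - I * (-I * (z / 2)) = 0 := by linear_combination (z / 2) * I_mul_I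
      rw [e1, e2] at e
      rw [← e]
      congr 1
      funext y
      simp [pk]
    · rw [pow_one, mul_assoc, ← mul_inv, neg_one_mul, ← inv_neg]
      congr 1
      field_simp
      ring
  · have h2 : w ≠ 0 := norm_pos_iff.1 (one_pos.trans h1)
    refine Lam_geom h coord_id (Lam_pow h hs coord_id fun z hz => ?_) (a := w⁻¹)
      (by rw [norm_inv]; exact inv_lt_one_of_one_lt₀ h1) w⁻¹ 0 fun y _ => ?_
    · have e := Lam_ker h hN h0 g (hn z hz I norm_I)
      have e1 : z / 2 + I * (I * (z / 2)) = 0 := by linear_combination (z / 2) * I_mul_I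
      have e2 : z / 2 - I * (I * (z / 2)) = z := by linear_combination (-z / 2) * I_mul_I
      rw [e1, e2] at e
      rw [← e]
      congr 1
      funext y
      simp [pk]
    · rw [pow_zero, mul_one, ← mul_inv, mul_sub, mul_one, mul_inv_cancel_left₀ h2]

theorem pois_leb_aux {z : ℂ} (hz : z ∈ ball (0 : ℂ) 1) :
    cI (fun y => br (xi y) (zv z) ^ (-(1 : ℂ))) = 2 * Real.pi := by
  simp only [cpow_neg_one]
  exact cI_poisson (hyp_zv hz)

end Pool.Agent.Lib.MP_de7bb2_an
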