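import Pool.Agent.Lib.MP_de7bb2_an.H20TelA
import Pool.Agent.Lib.MP_de7bb2_an.H20Pois

/-! Twisted holomorphic one forms attached to a fixed vector at `s = 0`. TASK FORMS. -/

namespace Pool.Agent.Lib.MP_de7bb2_an

open Metric Set Complex Filter ComplexConjugate

/-- A pair of one forms for the character `exp θ` and its conjugate. -/
def Tw {G : ℕ} (S : Surface G) (θ : S.Γ → ℂ) (l : (ℂ → ℂ) × (ℂ → ℂ)) : Prop :=
  AutF S θ l.1 ∧ AutF S (fun γ => conj (θ γ)) l.2

noncomputable def valP (l m : (ℂ → ℂ) × (ℂ → ℂ)) (z : ℂ) : ℂ :=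
  m.1 z * conj (l.2 z) + l.1 z * conj (m.2 z)

variable {G : ℕ} [hG : Fact (2 ≤ G)] {b : ZMod 2} {D : Nest G b} {x : L G → ℂ}
  {μ : Vec (St G × ℕ)}

noncomputable def frm (D : Nest G b) (x : L G → ℂ) (μ : Vec (St G × ℕ)) : (ℂ → ℂ) × (ℂ → ℂ) :=
  (fun z => tot D x μ fun E => (pt E - z)⁻¹,
    fun z => conj (tot D x μ fun E => pt E / (1 - conj z * pt E)))

namespace Forms

variable {y z : ℂ}

theorem sub_ne (hy : ‖y‖ = 1) (hz : ‖z‖ < 1) : y - z ≠ 0 := fun e => by
  rw [sub_eq_zero.1 e] at hy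
  exact hz.ne hy

theorem one_sub_ne' (hy : ‖y‖ = 1) (hz : ‖z‖ < 1) : 1 - z * y ≠ 0 := fun e => by
  have := congrArg norm (sub_eq_zero.1 e)
  rw [norm_one, norm_mul, hy, mul_one] at this
  exact hz.ne this.symm

theorem anA (hy : ‖y‖ = 1) (hz : ‖z‖ < 1) :
    AnalyticAt ℂ (fun p : ℂ × ℂ => (p.2 - p.1)⁻¹) (z, y) :=
  (analyticAt_snd.sub analyticAt_fst).inv (sub_ne hy hz)

theorem anB (hy : ‖y‖ = 1) (hz : ‖z‖ < 1) :
    AnalyticAt ℂ (fun p : ℂ × ℂ => p.2 / (1 - p.1 * p.2)) (z, y) :=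
  analyticAt_snd.div (analyticAt_const.sub (analyticAt_fst.mul analyticAt_snd)) (one_sub_ne' hy hz)

theorem test_of {f : ℂ × ℂ → ℂ} (hf : ∀ y, ‖y‖ = 1 → AnalyticAt ℂ f (z, y)) :
    Test 0 fun E => f (z, pt E) :=
  (deg0_pt (h := fun y => f (z, y)) fun y hy =>
    ((hf y hy).comp (analyticAt_const.prod analyticAt_id)).eventually_analyticAt.mono
      fun _ h => h.differentiableAt).test

theorem testA (hz : ‖z‖ < 1) : Test 0 fun E => (pt E - z)⁻¹ :=
  test_of (f := fun p => (p.2 - p.1)⁻¹) fun _ hy => anA hy hz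

theorem testB (hz : ‖z‖ < 1) : Test 0 fun E => pt E / (1 - z * pt E) :=
  test_of (f := fun p => p.2 / (1 - p.1 * p.2)) fun _ hy => anB hy hz

theorem test_one : Test 0 fun _ => (1 : ℂ) :=
  test_of (z := 0) (f := fun _ => 1) fun _ _ => analyticAt_const

theorem an_tot (h : Fixd D 0 x μ) {f : ℂ × ℂ → ℂ} (hf : ∀ y, ‖y‖ = 1 → AnalyticAt ℂ f (z, y)) :
    AnalyticAt ℂ (fun w => tot D x μ fun E => f (w, pt E)) z := by
  have e : (fun w => tot D x μ fun E => f (w, pt E)) =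
      fun w => ∑ m, Inj.La D x μ 1 m (Inj.wt 0 fun y => f (w, y)) := by
    funext w
    simp [tot, Inj.La, Inj.wt]
  rw [e]
  exact Finset.analyticAt_fun_sum _ fun m _ => Inj.analyticAt_La h 1 fun y hy =>
    Inj.HolAt.of_analytic (hf y (Inj.norm_of_arc hy))

theorem tot_comb (h : Fixd D 0 x μ) (h0 : ∀ q, ∑ m, μ ((q, m), 0) = 0) {F A B : V → ℂ}
    (hF : Test 0 F) (hA : Test 0 A) (hB : Test 0 B) (α β γ : ℂ)
    (he : ∀ Y, Nul Y → F Y = α * A Y + β * B Y + γ) :
    tot D x μ F = α * tot D x μ A + β * tot D x μ B := by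
  have e : ∀ m, piece D x μ 1 m F = α * piece D x μ 1 m A + β * piece D x μ 1 m B +
      γ * exp (Th x 1) * μ ((cl 1, m), 0) := fun m => by
    rw [piece_lin_comb h hF Finset.univ ![α, β, γ] (K := ![A, B, fun _ => 1])
      (fun i _ => by fin_cases i; exacts [hA, hB, test_one])
      (fun Y hY => by simp [Fin.sum_univ_three, he Y hY]), Fin.sum_univ_three, mul_assoc,
      ← piece_one h]
    rfl
  simp only [tot, e, Finset.sum_add_distrib, ← Finset.mul_sum, h0, mul_zero, add_zero]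

theorem alg1 {a c p q y z : ℂ} (e : a * p - c * q = 1) (h1 : q * y + p ≠ 0) (h2 : q * z + p ≠ 0)
    (h3 : y - z ≠ 0) : ((a * y + c) / (q * y + p) - (a * z + c) / (q * z + p))⁻¹ =
      (q * z + p) ^ 2 * (y - z)⁻¹ + 0 * 1 + q * (q * z + p) := by
  have e1 : (a * y + c) / (q * y + p) - (a * z + c) / (q * z + p) =
      (y - z) / ((q * y + p) * (q * z + p)) := by
    rw [div_sub_div _ _ h1 h2]
    congr 1
    linear_combination (y - z) * e
  rw [e1, inv_div, div_eq_iff h3]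
  field_simp
  ring

theorem alg2 {a c p q y w : ℂ} (e : a * p - c * q = 1) (h1 : q * y + p ≠ 0) (h2 : c * w + a ≠ 0)
    (h3 : 1 - w * y ≠ 0) : (a * y + c) / (q * y + p) /
      (1 - (p * w + q) / (c * w + a) * ((a * y + c) / (q * y + p))) =
      (c * w + a) ^ 2 * (y / (1 - w * y)) + 0 * 1 + c * (c * w + a) := by
  have e1 : 1 - (p * w + q) / (c * w + a) * ((a * y + c) / (q * y + p)) =
      (1 - w * y) / ((c * w + a) * (q * y + p)) := by
    rw [div_mul_div_comm, one_sub_div (mul_ne_zero h2 h1)]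
    congr 1
    linear_combination (1 - w * y) * e
  rw [e1]
  generalize hu : 1 - w * y = u at h3
  generalize hv : q * y + p = v at h1
  generalize ht : c * w + a = t at h2
  field_simp
  rw [← hu, ← ht]
  ring

theorem totV_eq (h : Fixd D 0 x μ) (h0 : ∀ q, ∑ m, μ ((q, m), 0) = 0)
    (hz : z ∈ ball (0 : ℂ) 1) : totV D x μ (zv z) =
      (z * (frm D x μ).1 z + conj z * conj ((frm D x μ).2 z),
        z ^ 2 * (frm D x μ).1 z + 1 * conj ((frm D x μ).2 z),
        1 * (frm D x μ).1 z + conj z ^ 2 * conj ((frm D x μ).2 z)) := by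
  have hz1 := mem_ball_zero_iff.1 hz
  have hz2 : ‖conj z‖ < 1 := by rwa [Complex.norm_conj]
  have hd := one_sub_ne hz
  have key : ∀ (A : V →L[ℂ] ℂ) (α β γ : ℂ), (∀ y, ‖y‖ = 1 →
      A (xi y) / br (xi y) (zv z) = α * (y - z)⁻¹ + β * (y / (1 - conj z * y)) + γ) →
      (tot D x μ fun E => A E / br E (zv z)) =
        α * (frm D x μ).1 z + β * conj ((frm D x μ).2 z) := fun A α β γ he => by
    simp only [frm, conj_conj]
    refine tot_comb h h0 (deg0_div (hyp_zv hz) A).test (testA hz1) (testB hz2) α β γ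
      fun Y hY => ?_
    rw [← he _ hY.norm_pt]
    conv_lhs => rw [hY.eq_smul_xi]
    exact (deg0_div (hyp_zv hz) A).1 _ (ofReal_ne_zero.2 hY.2.1.ne') _
  refine Prod.ext (key mk0 _ _ 1 fun y hy => ?_) (Prod.ext (key mk1 _ _ z fun y hy => ?_)
    (key mk2 _ _ (conj z) fun y hy => ?_))
  all_goals
    have h1 := sub_ne hy hz1
    have h2 := one_sub_ne' hy hz2
    have h3 : y ≠ 0 := by rintro rfl; simp at hy
    rw [br_xi_zv h3 hz, cast_one_sub]
    simp only [mk0, mk1, mk2, xi, ContinuousLinearMap.comp_apply, ContinuousLinearMap.coe_fst',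
      ContinuousLinearMap.coe_snd']
    generalize conj z = w at h2 hd
    have h4 : 1 - y * w ≠ 0 := by rwa [mul_comm]
    field_simp
    ring

theorem pt_sym {a c : ℂ} (h : ‖a‖ ^ 2 - ‖c‖ ^ 2 = 1) {Y : V} (hY : Nul Y) :
    conj c * pt Y + conj a ≠ 0 ∧
      pt (sym a c (conj c) (conj a) Y) = (a * pt Y + c) / (conj c * pt Y + conj a) := by
  have hy := hY.norm_pt
  have h1 : conj c * pt Y + conj a ≠ 0 := fun e => by
    have := congrArg norm (eq_neg_of_add_eq_zero_left e)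
    rw [norm_mul, hy, mul_one, norm_neg, Complex.norm_conj, Complex.norm_conj] at this
    rw [this] at h
    norm_num at h
  have h2 : a * pt Y + c ≠ 0 := fun e => by
    have := congrArg norm (eq_neg_of_add_eq_zero_left e)
    rw [norm_mul, hy, mul_one, norm_neg] at this
    rw [this] at h
    norm_num at h
  have h3 : pt Y ≠ 0 := fun e => by simp [e] at hy
  refine ⟨h1, ?_⟩
  conv_lhs => rw [hY.eq_smul_xi, map_smul, pt_smul (ofReal_ne_zero.2 hY.2.1.ne')]
  generalize pt Y = y at h1 h2 h3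
  have e1 : (sym a c (conj c) (conj a) (xi y)).1 = (a * y + c) * (conj c * y + conj a) / y := by
    simp only [sym_apply, xi]
    field_simp
    ring
  have e2 : (sym a c (conj c) (conj a) (xi y)).2.1 = (a * y + c) ^ 2 / y := by
    simp only [sym_apply, xi]
    field_simp
    ring
  rw [pt, e1, e2]
  field_simp

theorem exists_act (γ : Gam G) : ∃ a c : ℂ, ‖a‖ ^ 2 - ‖c‖ ^ 2 = 1 ∧
    lin (γ : W G) = sym a c (conj c) (conj a) ∧ ∀ z ∈ ball (0 : ℂ) 1, conj c * z + conj a ≠ 0 ∧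
      (surf G).act γ z = (a * z + c) / (conj c * z + conj a) ∧
      deriv ((surf G).act γ) z = ((conj c * z + conj a) ^ 2)⁻¹ := by
  obtain ⟨a, c, h1, h2⟩ := exists_sym_lin γ.2
  have e : ∀ z ∈ ball (0 : ℂ) 1, (surf G).act γ z = (a * z + c) / (conj c * z + conj a) :=
    fun z hz => by
      obtain ⟨-, h3, h4⟩ := sym_zv h1 hz
      change actD (γ : W G) z = _
      rw [actD, h2, h4, vz_zv h3]
  exact ⟨a, c, h1, h2, fun z hz => ⟨(sym_zv h1 hz).1, e z hz,
    ((Area.mob_deriv h1 hz).congr_of_eventuallyEq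
      (Filter.eventually_of_mem (isOpen_ball.mem_nhds hz) e)).deriv⟩⟩

end Forms

open Forms in
theorem tw_frm (h : Fixd D 0 x μ) (hN : NR 0 x) (h0 : ∀ q, ∑ m, μ ((q, m), 0) = 0) :
    Tw (surf G) (thS x) (frm D x μ) := by
  refine ⟨⟨fun z hz => ?_, fun γ z hz => ?_⟩, fun z hz => ?_, fun γ z hz => ?_⟩
  · exact (an_tot h (f := fun p => (p.2 - p.1)⁻¹) fun _ hy =>
      anA hy (mem_ball_zero_iff.1 hz)).differentiableAt.differentiableWithinAt
  · obtain ⟨a, c, h1, h2, h3⟩ := exists_act (G := G) γ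
    obtain ⟨h4, h5, h6⟩ := h3 z hz
    have e : a * conj a - c * conj c = 1 := by
      rw [Complex.mul_conj', Complex.mul_conj']; exact_mod_cast h1
    have hz1 := mem_ball_zero_iff.1 hz
    have t1 := testA (mem_ball_zero_iff.1 ((surf G).act_mem γ hz))
    simp only [frm]
    rw [tot_left h hN t1 (show Gam G from γ).2, tot_comb h h0 (t1.comp _) (testA hz1) test_one
      ((conj c * z + conj a) ^ 2) 0 (conj c * (conj c * z + conj a)) fun Y hY => ?_, h6, thS]
    · field_simp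
      ring
    · obtain ⟨h7, h8⟩ := pt_sym h1 hY
      rw [h2, h8, h5]
      exact alg1 e h7 h4 (sub_ne hY.norm_pt hz1)
  · have hz2 : ‖conj z‖ < 1 := by rw [Complex.norm_conj]; exact mem_ball_zero_iff.1 hz
    have := (an_tot h (f := fun p => p.2 / (1 - p.1 * p.2)) fun _ hy =>
      anB hy hz2).differentiableAt.conj_conj
    rw [conj_conj] at this
    exact this.differentiableWithinAt
  · obtain ⟨a, c, h1, h2, h3⟩ := exists_act (G := G) γ
    obtain ⟨h4, h5, h6⟩ := h3 z hz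
    have e : a * conj a - c * conj c = 1 := by
      rw [Complex.mul_conj', Complex.mul_conj']; exact_mod_cast h1
    have hz2 : ‖conj z‖ < 1 := by rw [Complex.norm_conj]; exact mem_ball_zero_iff.1 hz
    have h4' : c * conj z + a ≠ 0 := fun e0 => h4 (by simpa using congrArg conj e0)
    have t1 := testB (z := conj ((surf G).act γ z)) (by
      rw [Complex.norm_conj]; exact mem_ball_zero_iff.1 ((surf G).act_mem γ hz))
    simp only [frm]
    rw [tot_left h hN t1 (show Gam G from γ).2, tot_comb h h0 (t1.comp _) (testB hz2) test_one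
      ((c * conj z + a) ^ 2) 0 (c * (c * conj z + a)) fun Y hY => ?_, h6, thS]
    · generalize (tot D x μ fun E => pt E / (1 - conj z * pt E)) = T
      simp only [map_mul, map_add, map_pow, map_zero, conj_conj, exp_conj]
      field_simp
      ring
    · obtain ⟨h7, h8⟩ := pt_sym h1 hY
      rw [h2, h8, h5]
      simp only [map_div₀, map_add, map_mul, conj_conj]
      exact alg2 e h7 h4' (one_sub_ne' hY.norm_pt hz2)

theorem br_totV {b' : ZMod 2} {D' : Nest G b'} {x' : L G → ℂ} {μ' : Vec (St G × ℕ)}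
    (h : Fixd D 0 x μ) (h' : Fixd D' 0 x' μ') (h0 : ∀ q, ∑ m, μ ((q, m), 0) = 0)
    (h0' : ∀ q, ∑ m, μ' ((q, m), 0) = 0) {z : ℂ} (hz : z ∈ ball (0 : ℂ) 1) :
    br (totV D' x' μ' (zv z)) (totV D x μ (zv z)) =
      -((1 - ‖z‖ ^ 2) ^ 2 / 2 : ℝ) * valP (frm D' x' μ') (frm D x μ) z := by
  rw [Forms.totV_eq h h0 hz, Forms.totV_eq h' h0' hz, ofReal_div, ofReal_pow, cast_one_sub]
  simp only [br, valP, ofReal_ofNat]
  ring

end Pool.Agent.Lib.MP_de7bb2_an
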