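import Pool.Agent.Lib.MP_de7bb2_an.H20Tel
import Pool.Agent.Lib.MP_de7bb2_an.H20Forms

/-! The pairing through the roof function is the pairing of one forms. TASK B0. -/

namespace Pool.Agent.Lib.MP_de7bb2_an

open Metric Set Complex Filter

noncomputable def I0 : ℝ := exists_I0.choose

theorem I0_pos : 0 < I0 := exists_I0.choose_spec.1

variable {G : ℕ} [hG : Fact (2 ≤ G)]

namespace B0

open MeasureTheory Topology

theorem maj (g : W G) {c w Z : V} {T : ℝ} (hc : Hyp c) (hw : Hyp w) (hT : w.1.re ≤ T)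
    (hZ : ‖Z - c‖ ≤ (8 * c.1.re)⁻¹) (γ : Gam G) :
    ‖(br Z (fam g w γ))⁻¹ ^ 2‖ ≤ 16 * T ^ 2 * ((br c (fam g oo γ)).re)⁻¹ ^ 2 := by
  refine (TaskB.norm_b_le hc ((iso_lin _).hyp hw) hZ).trans ?_
  set h : W G := g⁻¹ * (γ : W G)
  have h1 := hw.le_br ((iso_lin h⁻¹).hyp hc).fut
  have e1 : br c (fam g oo γ) = (lin h⁻¹ c).1 := by
    rw [fam, br_comm, br_lin_left, br_oo_left]
  have e2 : br c (lin h w) = br w (lin h⁻¹ c) := by rw [br_comm, br_lin_left]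
  have h2 := ((iso_lin h⁻¹).hyp hc).2.1
  have h3 := hw.2.1
  have h4 : ((br w (lin h⁻¹ c)).re)⁻¹ ≤ 2 * T * ((lin h⁻¹ c).1.re)⁻¹ := by
    refine (inv_anti₀ (by positivity) h1).trans ?_
    rw [inv_div, div_eq_mul_inv]
    gcongr
  have h5 : 0 ≤ ((br w (lin h⁻¹ c)).re)⁻¹ := inv_nonneg.2 (le_trans (by positivity) h1)
  rw [e1, e2]
  calc _ ≤ 4 * (2 * T * ((lin h⁻¹ c).1.re)⁻¹) ^ 2 := by gcongr
    _ = _ := by ring

theorem summ (g : W G) {c : V} (hc : Hyp c) (T : ℝ) :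
    Summable fun γ : Gam G => 16 * T ^ 2 * ((br c (fam g oo γ)).re)⁻¹ ^ 2 :=
  let ⟨_, h⟩ := exists_famy (G := G)
  ((h g oo hyp_oo).2 c hc).1.mul_left _

omit hG in
theorem exists_T {r : ℝ} (hr : r < 1) : ∃ T, ∀ z ∈ closedBall (0 : ℂ) r, (zv z).1.re ≤ T := by
  obtain ⟨T, hT⟩ := (isCompact_closedBall (0 : ℂ) r).exists_bound_of_continuousOn
    (continuousOn_zv.mono (Kth.sub_ball hr))
  exact ⟨T, fun z hz => (re_le_norm _).trans ((norm_fst_le _).trans (hT z hz))⟩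

theorem cont_term (g : W G) (γ : Gam G) : ContinuousOn
    (fun p : ℂ × V => (br p.2 (fam g (zv p.1) γ))⁻¹ ^ 2) (ball 0 1 ×ˢ {Z | Near Z}) := by
  refine (ContinuousOn.inv₀ (ContinuousOn.br continuousOn_snd
    ((lin _).continuous.comp_continuousOn (continuousOn_zv.comp continuousOn_fst
      fun _ hp => hp.1))) ?_).pow 2
  rintro p ⟨h1, c, hc, h2⟩
  exact (TaskB.norm_inv_le hc ((iso_lin _).hyp (hyp_zv h1)) h2.le).1

end B0

open MeasureTheory in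
theorem hI_bF (P : Part (surf G)) (g : W G) {c : V} (hc : Hyp c) :
    hI (fun z => P.χ z * bF (fam g (zv z)) c) = I0 := by
  obtain ⟨h1, h2⟩ := exists_I0.choose_spec.2 _ ((iso_lin g).hyp hc)
  have h3 := P.unfold h1
  rw [h2] at h3
  have hs := Kth.sub_ball P.r_lt
  have hK := isCompact_closedBall (0 : ℂ) P.r
  obtain ⟨T, hT⟩ := B0.exists_T P.r_lt
  obtain ⟨M, hM⟩ := hK.exists_bound_of_continuousOn ((Kth.cont_chi P).mono hs)
  have h0 : ‖c - c‖ ≤ (8 * c.1.re)⁻¹ := by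
    have := hc.2.1
    rw [sub_self, norm_zero]
    positivity
  haveI : Countable (Gam G) := (surf G).countable
  have h4 := hasSum_integral_of_dominated_convergence (μ := volume.restrict (closedBall 0 P.r))
    (F := fun (γ : Gam G) z => ((P.χ z : ℂ) * dens z) * (br c (fam g (zv z) γ))⁻¹ ^ 2)
    (f := fun z => ((P.χ z : ℂ) * dens z) * bF (fam g (zv z)) c)
    (fun γ _ => M * (16 * T ^ 2 * ((br c (fam g oo γ)).re)⁻¹ ^ 2))
    (fun γ => (((Kth.cont_chi P).mul ((B0.cont_term g γ).comp (f := fun z => (z, c)) (by fun_prop)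
      fun _ hz => ⟨hz, hc.near⟩)).mono hs).aestronglyMeasurable measurableSet_closedBall)
    (fun γ => ae_restrict_of_forall_mem measurableSet_closedBall fun z hz => by
      rw [norm_mul]
      exact mul_le_mul (hM z hz) (B0.maj g hc (hyp_zv (hs hz)) (hT z hz) h0 γ) (norm_nonneg _)
        ((norm_nonneg _).trans (hM z hz)))
    (ae_of_all _ fun _ => (B0.summ g hc T).mul_left M)
    (continuousOn_const.integrableOn_compact hK)
    (ae_restrict_of_forall_mem measurableSet_closedBall fun z hz =>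
      (Summable.of_norm_bounded (B0.summ g hc T)
        (B0.maj g hc (hyp_zv (hs hz)) (hT z hz) h0)).hasSum.mul_left _)
  rw [Kth.hI_chi]
  have h5 : ∀ γ : Gam G, hI (fun z => P.χ z * (br (lin g c) (zv ((surf G).act γ z)))⁻¹ ^ 2) =
      ∫ z in closedBall (0 : ℂ) P.r, ((P.χ z : ℂ) * dens z) * (br c (fam g (zv z) γ))⁻¹ ^ 2 := by
    intro γ
    rw [← Kth.hI_chi P fun z => (br c (fam g (zv z) γ))⁻¹ ^ 2]
    refine hI_congr fun z hz => ?_
    have e : zv ((surf G).act γ z) = lin γ.1 (zv z) := zv_actD _ hz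
    rw [e, br_lin_left, ← lin_mul]
    rfl
  rw [← funext h5] at h4
  exact h4.unique h3

theorem continuousOn_bF_fam (g : W G) :
    ContinuousOn (fun p : ℂ × V => bF (fam g (zv p.1)) p.2) (ball 0 1 ×ˢ {Z | Near Z}) := by
  rintro p ⟨h1, c, hc, h2⟩
  obtain ⟨ρ, hρ, hρ1⟩ := exists_between (mem_ball_zero_iff.1 h1)
  obtain ⟨T, hT⟩ := B0.exists_T hρ1
  have hs : ball (0 : ℂ) ρ ×ˢ ball c (8 * c.1.re)⁻¹ ⊆ ball 0 1 ×ˢ {Z | Near Z} :=
    prod_mono (ball_subset_ball hρ1.le) fun Z hZ => ⟨c, hc, mem_ball_iff_norm.1 hZ⟩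
  have h3 := continuousOn_tsum (fun γ => (B0.cont_term g γ).mono hs) (B0.summ g hc T)
    fun γ q hq => B0.maj g hc (hyp_zv (hs hq).1) (hT _ (ball_subset_closedBall hq.1))
      (mem_ball_iff_norm.1 hq.2).le γ
  exact (h3.continuousAt ((isOpen_ball.prod isOpen_ball).mem_nhds
    ⟨mem_ball_zero_iff.2 hρ, mem_ball_iff_norm.2 h2⟩)).continuousWithinAt

namespace B0

open MeasureTheory Topology

omit hG in
theorem cont_seg {U : Set C4}
    (h : ∀ p ∈ U, p.1 ≠ 0 ∧ p.2.1 ≠ 0 ∧ br (xi p.1) (xi p.2.1) ≠ 0) : ContinuousOn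
      (fun w : C4 × ℝ => mid (pairE w.1.1 w.1.2.1 (w.1.2.2.1 + w.2 * w.1.2.2.2))) (U ×ˢ univ) :=
  fun w hw => (ContinuousAt.comp (g := fun q => mid (Hopf.PE q)) (f := fun w : C4 × ℝ =>
    ((w.1.1, w.1.2.1, w.1.2.2.1 + w.2 * w.1.2.2.2) : Hopf.C3))
    ((Hopf.diff_mid _).comp _ (Hopf.diff_PE (h _ hw.1))).continuousAt
    (by fun_prop)).continuousWithinAt

theorem cont_bF (g : W G) {U : Set C4}
    (h : ∀ p ∈ U, p.1 ≠ 0 ∧ p.2.1 ≠ 0 ∧ br (xi p.1) (xi p.2.1) ≠ 0)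
    (h' : ∀ p ∈ U, ∀ t ∈ Icc (0 : ℝ) 1, Near (mid (pairE p.1 p.2.1 (p.2.2.1 + t * p.2.2.2)))) :
    ContinuousOn (fun w : (C4 × ℂ) × ℝ => bF (fam g (zv w.1.2))
      (mid (pairE w.1.1.1 w.1.1.2.1 (w.1.1.2.2.1 + w.2 * w.1.1.2.2.2))))
      ((U ×ˢ ball 0 1) ×ˢ Icc 0 1) :=
  (continuousOn_bF_fam g).comp (f := fun w : (C4 × ℂ) × ℝ => (w.1.2,
    mid (pairE w.1.1.1 w.1.1.2.1 (w.1.1.2.2.1 + w.2 * w.1.1.2.2.2))))
    (ContinuousOn.prodMk (by fun_prop) ((cont_seg h).comp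
      (f := fun w : (C4 × ℂ) × ℝ => (w.1.1, w.2)) (by fun_prop) fun _ hw => ⟨hw.1.1, trivial⟩))
    fun _ hw => ⟨hw.1.2, h' _ hw.1.1 _ hw.2⟩

theorem cont_rbF (g : W G) {U : Set C4}
    (h : ∀ p ∈ U, p.1 ≠ 0 ∧ p.2.1 ≠ 0 ∧ br (xi p.1) (xi p.2.1) ≠ 0)
    (h' : ∀ p ∈ U, ∀ t ∈ Icc (0 : ℝ) 1, Near (mid (pairE p.1 p.2.1 (p.2.2.1 + t * p.2.2.2)))) :
    ContinuousOn (fun q : C4 × ℂ => rbF (fam g (zv q.2)) q.1) (U ×ˢ ball 0 1) :=
  ContinuousOn.mul (by fun_prop) ((Seg.cont_int (f := fun (q : C4 × ℂ) (t : ℝ) =>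
    bF (fam g (zv q.2)) (mid (pairE q.1.1 q.1.2.1 (q.1.2.2.1 + t * q.1.2.2.2))))
    (cont_bF g h h') (left_mem_Icc.2 zero_le_one)).comp (f := fun q : C4 × ℂ => (q, (1 : ℝ)))
    (by fun_prop) fun _ hq => ⟨hq, right_mem_Icc.2 zero_le_one⟩)

theorem int_real (P : Part (surf G)) (g : W G) {x y : ℂ} (hx : ‖x‖ = 1) (hy : ‖y‖ = 1)
    (h : br (xi x) (xi y) ≠ 0) (u r : ℝ) : ∫ z in closedBall (0 : ℂ) P.r,
      ((P.χ z : ℂ) * dens z) * rbF (fam g (zv z)) (x, y, (u : ℂ), (r : ℂ)) = I0 * r := by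
  have hxy : x ≠ y := fun e => h (by rw [br_xi_xi_re hx hy, e]; simp)
  have hH : ∀ t : ℝ, Hyp (mid (pairE x y (u + t * r))) := fun t => by
    have := SM.mid (pairE_mem hx hy hxy (u + t * r))
    rwa [ofReal_add, ofReal_mul] at this
  have hs := Kth.sub_ball P.r_lt
  have hc := cont_bF g (U := {(x, y, (u : ℂ), (r : ℂ))})
    (fun p hp => by
      rw [show p = _ from hp]
      exact ⟨norm_ne_zero_iff.1 (by rw [hx]; exact one_ne_zero),
        norm_ne_zero_iff.1 (by rw [hy]; exact one_ne_zero), h⟩)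
    fun p hp t _ => by
      rw [show p = _ from hp]
      exact (hH t).near
  have h5 := intervalIntegral_integral_swap (a := 0) (b := 1)
    (μ := volume.restrict (closedBall (0 : ℂ) P.r))
    (f := fun (t : ℝ) z => ((P.χ z : ℂ) * dens z) * bF (fam g (zv z)) (mid (pairE x y (u + t * r))))
    ((Kth.int_prod (μ := volume) (isCompact_Icc (a := 0) (b := 1))
      (((Kth.cont_chi P).comp continuousOn_snd fun _ hp => hs hp.2).mul
        (hc.comp (f := fun q : ℝ × ℂ => (((x, y, (u : ℂ), (r : ℂ)), q.2), q.1)) (by fun_prop)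
          fun _ hq => ⟨⟨rfl, hs hq.2⟩, hq.1⟩))).mono_measure
      (Measure.prod_mono (Measure.restrict_mono
        (by rw [uIoc_of_le zero_le_one]; exact Ioc_subset_Icc_self) le_rfl) le_rfl))
  simp only [← Kth.hI_chi, hI_bF P g (hH _), intervalIntegral.integral_const, sub_zero, one_smul,
    intervalIntegral.integral_const_mul] at h5
  simp only [rbF, mul_left_comm _ (r : ℂ), integral_const_mul, ← Kth.hI_chi, ← h5]
  exact mul_comm _ _

omit hG in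
theorem ev2_int {S : Type*} (l : Vec (S × ℕ)) (σ : S) (v : Vec (S × ℕ)) (σ' : S) {K : Set ℂ}
    (hK : IsCompact K) {F : ℂ → ℂ × ℂ → ℂ} (hF : ContinuousOn (fun q : ℂ × ℂ × ℂ => F q.1 q.2)
      (K ×ˢ sphere 0 1 ×ˢ sphere 0 1)) : ContinuousOn (fun z => ev2 l σ v σ' (F z)) K ∧
      ev2 l σ v σ' (fun p => ∫ z in K, F z p) = ∫ z in K, ev2 l σ v σ' (F z) := by
  have h1 : ContinuousOn (fun q : ℂ × ℂ => ev v σ' fun y => F q.1 (q.2, y)) (K ×ˢ sphere 0 1) :=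
    continuousOn_ev σ' (v := fun _ => v) continuousOn_const
      (hF.comp (f := fun w : (ℂ × ℂ) × ℂ => (w.1.1, w.1.2, w.2)) (by fun_prop)
        fun _ hw => ⟨hw.1.1, hw.1.2, hw.2⟩)
  refine ⟨continuousOn_ev σ (v := fun _ => l) continuousOn_const h1, ?_⟩
  rw [ev2, ev_congr l σ (K := fun x => ∫ z in K, ev v σ' fun y => F z (x, y)) fun x hx =>
    ev_setIntegral v σ' volume hK (F := fun z y => F z (x, y))
      (hF.comp (f := fun w : ℂ × ℂ => (w.1, x, w.2)) (by fun_prop)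
        fun _ hw => ⟨hw.1, mem_sphere_zero_iff_norm.2 hx, hw.2⟩)]
  exact ev_setIntegral l σ volume hK h1

omit hG in
theorem ev2_mul {S : Type*} (l : Vec (S × ℕ)) (σ : S) (v : Vec (S × ℕ)) (σ' : S) (c : ℂ)
    (H : ℂ × ℂ → ℂ) : ev2 l σ v σ' (fun p => c * H p) = c * ev2 l σ v σ' H := by
  simp only [ev2, ev_const_mul]

theorem int_rb (B : Base G) (P : Part (surf G)) : ∀ᶠ N in atTop, ∀ σ σ' : StN G N, EN σ σ' →
    ContinuousOn (fun q : (ℂ × ℂ) × ℂ => B.rb (zv q.2) σ σ' q.1) (ball 0 B.R ×ˢ ball 0 1) ∧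
      ∀ p ∈ ball (0 : ℂ × ℂ) B.R, ∫ z in closedBall (0 : ℂ) P.r,
        ((P.χ z : ℂ) * dens z) * B.rb (zv z) σ σ' p = I0 * B.r0 σ σ' p := by
  obtain ⟨δ, hδ, T, hT⟩ := exists_hnear B.κ_pos B.U
  obtain ⟨C, hC⟩ := B.rb_diff
  filter_upwards [B.par4_mem hδ, hC] with N h1 h2 σ σ' he
  obtain ⟨h3, h4⟩ := h1 σ σ' he
  have hs := Kth.sub_ball P.r_lt
  have h5 : ContinuousOn (fun q : (ℂ × ℂ) × ℂ => B.rb (zv q.2) σ σ' q.1)
      (ball 0 B.R ×ˢ ball 0 1) :=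
    (cont_rbF (sec σ.cls) (U := HDom B.κ B.U δ)
      (fun p hp => ⟨(hT p hp).1, (hT p hp).2.1, (hT p hp).2.2.1⟩) fun p hp t ht =>
        let ⟨c, c1, _, c3⟩ := (hT p hp).2.2.2 t ht
        ⟨c, c1, c3⟩).comp (f := fun q : (ℂ × ℂ) × ℂ => (B.par4 σ σ' q.1, q.2))
      ((h3.continuousOn.comp continuousOn_fst fun _ hq => hq.1).prodMk continuousOn_snd)
      fun q hq => ⟨(h4 _ hq.1).1, hq.2⟩
  refine ⟨h5, eqOn_ball2_of_real (diffOn_setIntegral volume (isCompact_closedBall _ _) isOpen_ball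
    (f := fun p z => ((P.χ z : ℂ) * dens z) * B.rb (zv z) σ σ' p)
    (((Kth.cont_chi P).comp continuousOn_snd fun _ hq => hs hq.2).mul
      (h5.mono (prod_mono_right hs))) fun z hz =>
        (h2 _ (hyp_zv (hs hz)) σ σ' he).1.const_mul _)
    ((h2 _ hyp_oo σ σ' he).2.1.const_mul _) one_pos fun a b _ _ ha hb => ?_⟩
  obtain ⟨r1, -, r2, r3⟩ := B.par4_real σ σ' a b
  have hp : ((a : ℂ), (b : ℂ)) ∈ ball (0 : ℂ × ℂ) B.R := by
    simpa [Prod.norm_def] using ⟨ha, hb⟩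
  have e : B.r0 σ σ' (a, b) = ((B.r0 σ σ' (a, b)).re : ℂ) := Complex.ext (by simp) (by simpa)
  have h6 := int_real P (sec σ.cls) r1 r2 (hT _ (h4 _ hp).1).2.2.1 (B.v σ.hd)
    (B.r0 σ σ' (a, b)).re
  rw [← e] at h6
  exact h6

end B0

open MeasureTheory in
theorem pairB_r0 (B : Base G) (P : Part (surf G)) : ∀ᶠ N in atTop, ∀ x : L G → ℂ, NR 0 x →
    ∀ ν μ, Fixd B.D0 0 (-x) ν → Fixd B.D1 0 x μ → (∀ q, ∑ m, ν ((q, m), 0) = 0) →
      (∀ q, ∑ m, μ ((q, m), 0) = 0) →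
        I0 * pairB N x ν μ B.r0 = -2 * P.pI (valP (frm B.D0 (-x) ν) (frm B.D1 x μ)) := by
  classical
  filter_upwards [B0.int_rb B P, tel B] with N h1 h2 x hx ν μ hν hμ h3 h4
  have hs := Kth.sub_ball P.r_lt
  have hK := isCompact_closedBall (0 : ℂ) P.r
  have ht := Rugh2.torus_sub B.one_lt_R
  have key : ∀ σ σ' : StN G N, ContinuousOn (fun z => if EN σ σ' then ((P.χ z : ℂ) * dens z) *
      ev2 (up StN.pa (-x) ν) σ (up StN.fu x μ) σ' (fun p => wt x σ * B.rb (zv z) σ σ' p) else 0)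
        (closedBall 0 P.r) ∧ I0 * (if EN σ σ' then
      ev2 (up StN.pa (-x) ν) σ (up StN.fu x μ) σ' (fun p => wt x σ * B.r0 σ σ' p) else 0) =
        ∫ z in closedBall (0 : ℂ) P.r, if EN σ σ' then ((P.χ z : ℂ) * dens z) *
          ev2 (up StN.pa (-x) ν) σ (up StN.fu x μ) σ' (fun p => wt x σ * B.rb (zv z) σ σ' p)
            else 0 := by
    intro σ σ'
    by_cases he : EN σ σ'
    · obtain ⟨a1, a2⟩ := h1 σ σ' he
      obtain ⟨b1, b2⟩ := B0.ev2_int (up StN.pa (-x) ν) σ (up StN.fu x μ) σ' hK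
        (F := fun z p => ((P.χ z : ℂ) * dens z) * (wt x σ * B.rb (zv z) σ σ' p))
        (((Kth.cont_chi P).comp continuousOn_fst fun _ hq => hs hq.1).mul
          (continuousOn_const.mul (a1.comp (f := fun q : ℂ × ℂ × ℂ => (q.2, q.1)) (by fun_prop)
            fun _ hq => ⟨ht hq.2, hs hq.1⟩)))
      have b3 := fun z => B0.ev2_mul (up StN.pa (-x) ν) σ (up StN.fu x μ) σ'
        ((P.χ z : ℂ) * dens z) fun p => wt x σ * B.rb (zv z) σ σ' p
      simp only [b3] at b1 b2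
      simp only [if_pos he]
      refine ⟨b1, Eq.trans ?_ b2⟩
      rw [← B0.ev2_mul]
      refine ev_congr _ _ fun ξ hξ => ev_congr _ _ fun η hη => ?_
      simp only [mul_left_comm _ (wt x σ), integral_const_mul]
      rw [a2 _ (ht ⟨mem_sphere_zero_iff_norm.2 hξ, mem_sphere_zero_iff_norm.2 hη⟩)]
    · simp only [if_neg he, mul_zero, integral_zero, and_true]
      exact continuousOn_const
  have hi := fun σ σ' => (key σ σ').1.integrableOn_compact (μ := volume) hK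
  simp only [pairB, Finset.mul_sum, fun σ σ' => (key σ σ').2]
  rw [Finset.sum_congr rfl fun σ _ => (integral_finsetSum _ fun σ' _ => hi σ σ').symm,
    ← integral_finsetSum _ fun σ _ => integrable_finsetSum _ fun σ' _ => hi σ σ', P.pI_eq,
    ← integral_const_mul]
  refine setIntegral_congr_fun measurableSet_closedBall fun z hz => ?_
  have h5 := h2 _ (hyp_zv (hs hz)) x hx ν μ hν hμ
  rw [br_totV hμ hν h4 h3 (hs hz), pairB] at h5
  have h6 : (dens z : ℂ) * ((1 - ‖z‖ ^ 2) ^ 2 / 2 : ℝ) = 2 := by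
    have := (Kth.one_sub_pos (hs hz)).ne'
    rw [← ofReal_mul, dens, show 4 / (1 - ‖z‖ ^ 2) ^ 2 * ((1 - ‖z‖ ^ 2) ^ 2 / 2) = 2 by
      field_simp; norm_num, ofReal_ofNat]
  have h7 := congrArg (fun t => ((P.χ z : ℂ) * dens z) * t) h5
  simp only [Finset.mul_sum, mul_ite, mul_zero] at h7
  rw [h7]
  linear_combination (-(P.χ z : ℂ) * valP (frm B.D0 (-x) ν) (frm B.D1 x μ) z) * h6

end Pool.Agent.Lib.MP_de7bb2_an
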