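import Pool.Agent.Lib.MP_de7bb2_an.H20Nuc

/-! Block matrices over a finite set of states. TASK BLK. -/

namespace Pool.Agent.Lib.MP_de7bb2_an

open Filter Topology

variable {κ S : Type*}

namespace Blk

open Classical in
/-- The entries of an embedded block. -/
noncomputable def embF (σ σ' : S) (A : Nuc κ) (x : (S × κ) × (S × κ)) : ℂ :=
  if x.1.1 = σ ∧ x.2.1 = σ' then A (x.1.2, x.2.2) else 0

/-- The positions of a block. -/
def pos (σ σ' : S) (p : κ × κ) : (S × κ) × (S × κ) := ((σ, p.1), (σ', p.2))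

theorem pos_inj (σ σ' : S) : Function.Injective (pos σ σ' : κ × κ → _) := fun _ _ h =>
  Prod.ext (congrArg (·.1.2) h) (congrArg (·.2.2) h)

theorem embF_pos (σ σ' : S) (A : Nuc κ) (p : κ × κ) : embF σ σ' A (pos σ σ' p) = A p :=
  if_pos ⟨rfl, rfl⟩

theorem embF_zero (σ σ' : S) (A : Nuc κ) (x : (S × κ) × (S × κ))
    (hx : x ∉ Set.range (pos σ σ')) : ‖embF σ σ' A x‖ = 0 := by
  rw [embF, if_neg, norm_zero]
  rintro ⟨rfl, rfl⟩
  exact hx ⟨(x.1.2, x.2.2), rfl⟩

theorem summable_embF (σ σ' : S) (A : Nuc κ) : Summable fun x => ‖embF σ σ' A x‖ := by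
  refine ((pos_inj σ σ').summable_iff (embF_zero σ σ' A)).1 ?_
  refine (Vec.summable_norm A).congr fun p => ?_
  rw [Function.comp_apply, embF_pos]

theorem norm_embF (σ σ' : S) (A : Nuc κ) : ‖toVec (embF σ σ' A)‖ = ‖A‖ := by
  rw [Vec.norm_eq, Vec.norm_eq]
  simp only [toVec_apply (summable_embF σ σ' A)]
  rw [← (pos_inj σ σ').tsum_eq (f := fun x => ‖embF σ σ' A x‖)
    (fun x hx => by_contra fun h => hx (embF_zero σ σ' A x h))]
  simp only [embF_pos]

/-- Embedding of one block as a linear map. -/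
noncomputable def embL (σ σ' : S) : Nuc κ →ₗ[ℂ] Nuc (S × κ) where
  toFun A := toVec (embF σ σ' A)
  map_add' A B := by
    refine lp.ext (funext fun x => ?_)
    rw [lp.coeFn_add, Pi.add_apply, toVec_apply (summable_embF _ _ _),
      toVec_apply (summable_embF _ _ _), toVec_apply (summable_embF _ _ _)]
    unfold embF
    split_ifs
    · rfl
    · exact (add_zero _).symm
  map_smul' c A := by
    refine lp.ext (funext fun x => ?_)
    rw [lp.coeFn_smul, Pi.smul_apply, toVec_apply (summable_embF _ _ _),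
      toVec_apply (summable_embF _ _ _)]
    unfold embF
    split_ifs
    · rfl
    · exact (smul_zero _).symm

theorem summable_comp {ι ι' : Type*} (v : Vec ι) {g : ι' → ι} (hg : Function.Injective g) :
    Summable fun i => ‖v (g i)‖ := (Vec.summable_norm v).comp_injective hg

theorem sum_apply {ι α : Type*} (s : Finset α) (v : α → Vec ι) (i : ι) :
    (∑ a ∈ s, v a) i = ∑ a ∈ s, v a i := by
  rw [lp.coeFn_sum, Finset.sum_apply]

end Blk

open Blk

/-- Embedding of one block. -/
noncomputable def emb (σ σ' : S) : Nuc κ →L[ℂ] Nuc (S × κ) :=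
  (embL σ σ').mkContinuous 1 fun A => ((norm_embF σ σ' A).trans (one_mul _).symm).le

open Classical in
theorem emb_apply (σ σ' : S) (A : Nuc κ) (ρ ρ' : S) (i j : κ) :
    emb σ σ' A ((ρ, i), (ρ', j)) = if ρ = σ ∧ ρ' = σ' then A (i, j) else 0 :=
  toVec_apply (summable_embF σ σ' A) _

theorem norm_emb (σ σ' : S) (A : Nuc κ) : ‖emb σ σ' A‖ = ‖A‖ := norm_embF σ σ' A

/-- Block matrix over a finite set of states. -/
noncomputable def blk [Fintype S] (B : S → S → Nuc κ) : Nuc (S × κ) :=
  ∑ σ, ∑ σ', emb σ σ' (B σ σ')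

theorem blk_apply [Fintype S] (B : S → S → Nuc κ) (σ σ' : S) (i j : κ) :
    blk B ((σ, i), (σ', j)) = B σ σ' (i, j) := by
  rw [blk, Blk.sum_apply, Finset.sum_eq_single σ, Blk.sum_apply, Finset.sum_eq_single σ',
    emb_apply, if_pos ⟨rfl, rfl⟩]
  · intro b _ hb
    rw [emb_apply, if_neg fun h => hb h.2.symm]
  · exact fun h => absurd (Finset.mem_univ _) h
  · intro b _ hb
    rw [Blk.sum_apply]
    exact Finset.sum_eq_zero fun b' _ => by rw [emb_apply, if_neg fun h => hb h.1.symm]
  · exact fun h => absurd (Finset.mem_univ _) h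

/-- Sums over a product with a finite first factor. -/
theorem tsum_prod_fin [Fintype S] {f : S × κ → ℂ} (h : Summable f) :
    ∑' x, f x = ∑ σ, ∑' i, f (σ, i) := by
  rw [h.tsum_prod, tsum_fintype]

theorem nmul_blk [Fintype S] (B C : S → S → Nuc κ) :
    nmul (blk B) (blk C) = blk fun σ σ'' => ∑ σ', nmul (B σ σ') (C σ' σ'') := by
  refine lp.ext (funext fun ⟨⟨σ, i⟩, ⟨σ'', k⟩⟩ => ?_)
  rw [nmul_apply, blk_apply, Blk.sum_apply, tsum_prod_fin]
  · simp only [blk_apply, nmul_apply]
  · refine Summable.of_norm_bounded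
      ((summable_comp (blk B) (Prod.mk_right_injective (σ, i))).mul_right ‖blk C‖) fun j => ?_
    rw [norm_mul]
    exact mul_le_mul_of_nonneg_left (Vec.norm_apply_le _ _) (norm_nonneg _)

theorem tr_blk [Fintype S] (B : S → S → Nuc κ) : tr (blk B) = ∑ σ, tr (B σ σ) := by
  rw [tr_apply, tsum_prod_fin]
  · simp only [blk_apply, tr_apply]
  · exact (summable_comp (blk B) (g := fun x => (x, x)) fun _ _ h => congrArg Prod.fst h).of_norm

theorem norm_blk_le [Fintype S] (B : S → S → Nuc κ) : ‖blk B‖ ≤ ∑ σ, ∑ σ', ‖B σ σ'‖ :=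
  (norm_sum_le _ _).trans (Finset.sum_le_sum fun _ _ =>
    (norm_sum_le _ _).trans (Finset.sum_le_sum fun _ _ => (norm_emb _ _ _).le))

/-- Product of the blocks along the path `π 0, π 1, ..., π (n + 1)`. -/
noncomputable def pathMul (B : S → S → Nuc κ) (π : ℕ → S) : ℕ → Nuc κ
  | 0 => B (π 0) (π 1)
  | n + 1 => nmul (pathMul B π n) (B (π (n + 1)) (π (n + 2)))

namespace Blk

theorem pathMul_congr (B : S → S → Nuc κ) {π π' : ℕ → S} (n : ℕ)
    (h : ∀ i ≤ n + 1, π i = π' i) : pathMul B π n = pathMul B π' n := by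
  induction n with
  | zero => rw [pathMul, pathMul, h 0 (by omega), h 1 (by omega)]
  | succ n ih =>
    rw [pathMul, pathMul, ih fun i hi => h i (by omega), h (n + 1) (by omega), h (n + 2) (by omega)]

/-- A finite path followed by a constant. -/
def extP {n : ℕ} (π : Fin n → S) (τ : S) (i : ℕ) : S := if h : i < n then π ⟨i, h⟩ else τ

theorem extP_snoc {n : ℕ} (π : Fin n → S) (ρ τ : S) {i : ℕ} (hi : i ≤ n) :
    extP (Fin.snoc π ρ : Fin (n + 1) → S) τ i = extP π ρ i := by
  unfold extP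
  rw [dif_pos (Nat.lt_succ_of_le hi)]
  split_ifs with h
  · exact Fin.snoc_castSucc (α := fun _ => S) ρ π ⟨i, h⟩
  · obtain rfl : i = n := by omega
    exact Fin.snoc_last (α := fun _ => S) ρ π

theorem extP_ge {n : ℕ} (π : Fin n → S) (τ : S) {i : ℕ} (hi : n ≤ i) : extP π τ i = τ :=
  dif_neg (not_lt.2 hi)

theorem npw_blk [Fintype S] [DecidableEq S] (B : S → S → Nuc κ) (n : ℕ) :
    npw (blk B) n = blk fun σ τ =>
      ∑ π : Fin (n + 1) → S, if π 0 = σ then pathMul B (extP π τ) n else 0 := by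
  induction n with
  | zero =>
    rw [npw]
    congr 1
    funext σ τ
    rw [Finset.sum_eq_single (fun _ => σ), if_pos rfl]
    · rfl
    · intro π _ hπ
      exact if_neg fun h => hπ (funext fun i => by rw [Subsingleton.elim (α := Fin 1) i 0, h])
    · exact fun h => absurd (Finset.mem_univ _) h
  | succ n ih =>
    rw [npw, ih, nmul_blk]
    congr 1
    funext σ τ
    rw [← (Fin.snocEquiv fun _ : Fin (n + 2) => S).sum_comp, Fintype.sum_prod_type]
    refine Finset.sum_congr rfl fun ρ _ => ?_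
    rw [map_sum, ContinuousLinearMap.sum_apply]
    refine Finset.sum_congr rfl fun π _ => ?_
    change _ = if (Fin.snoc π ρ : Fin (n + 2) → S) (Fin.castSucc 0) = σ then
      pathMul B (extP (Fin.snoc π ρ : Fin (n + 2) → S) τ) (n + 1) else 0
    rw [Fin.snoc_castSucc]
    split_ifs
    · rw [pathMul, pathMul_congr B n fun i hi => extP_snoc π ρ τ hi, extP_snoc π ρ τ le_rfl,
        extP_ge π ρ le_rfl, extP_ge _ τ le_rfl]
    · rw [map_zero, ContinuousLinearMap.zero_apply]

end Blk

/-- Trace of a power of a block matrix as a sum over closed paths. -/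
theorem tr_npw_blk [Fintype S] [DecidableEq S] (B : S → S → Nuc κ) (n : ℕ) :
    tr (npw (blk B) n) =
      ∑ π : ZMod (n + 1) → S, tr (pathMul B (fun i => π (i : ZMod (n + 1))) n) := by
  rw [npw_blk, tr_blk]
  simp only [map_sum]
  rw [Finset.sum_comm]
  refine Fintype.sum_equiv (Equiv.refl (Fin (n + 1) → S)) _
    (fun π : ZMod (n + 1) → S => tr (pathMul B (fun i => π (i : ZMod (n + 1))) n)) fun π => ?_
  rw [Finset.sum_eq_single (π 0), if_pos rfl]
  · congr 1
    refine pathMul_congr B n fun i hi => ?_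
    rcases hi.lt_or_eq with h | rfl
    · rw [extP, dif_pos h]
      exact congrArg π (Fin.ext (ZMod.val_cast_of_lt h).symm)
    · rw [extP_ge _ _ le_rfl, ZMod.natCast_self]
      rfl
  · intro b _ hb
    rw [if_neg (Ne.symm hb), map_zero]
  · exact fun h => absurd (Finset.mem_univ _) h

end Pool.Agent.Lib.MP_de7bb2_an
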