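import Pool.Agent.Lib.MP_de7bb2_an.H20Nuc
import Pool.Agent.Lib.MP_de7bb2_an.H20Tool

/-! Taylor coefficients on the unit circle and analytic functionals. TASK COEF. -/

namespace Pool.Agent.Lib.MP_de7bb2_an

open Metric Set Filter Topology MeasureTheory Complex

/-- Taylor coefficient computed on the unit circle. -/
noncomputable def coef (H : ℂ → ℂ) (b : ℕ) : ℂ :=
  (2 * Real.pi : ℂ)⁻¹ * ∫ t in (0 : ℝ)..2 * Real.pi, H (exp (t * I)) * exp (-(b * t * I))

/-- The functional with moments `μ (σ, b)` applied to `H`. -/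
noncomputable def ev {S : Type*} (μ : Vec (S × ℕ)) (σ : S) (H : ℂ → ℂ) : ℂ :=
  ∑' b, μ (σ, b) * coef H b

/-- Generating function of a slice of a vector. -/
noncomputable def gen {S : Type*} (l : Vec (S × ℕ)) (σ : S) (y : ℂ) : ℂ := ∑' b, l (σ, b) * y ^ b

variable {S : Type*} {H K : ℂ → ℂ} {R M : ℝ}

namespace Coef

theorem norm_e (t : ℝ) : ‖exp (t * I)‖ = 1 := norm_exp_ofReal_mul_I t

theorem mem_e (t : ℝ) : exp (t * I) ∈ sphere (0 : ℂ) 1 := mem_sphere_zero_iff_norm.2 (norm_e t)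

theorem e_neg (b : ℕ) (t : ℝ) : exp (-(b * t * I)) = (exp (t * I) ^ b)⁻¹ := by
  rw [exp_neg, mul_assoc, exp_nat_mul]

theorem norm_e_neg (b : ℕ) (t : ℝ) : ‖exp (-(b * t * I))‖ = 1 := by
  rw [e_neg, norm_inv, norm_pow, norm_e, one_pow, inv_one]

theorem cont_e : Continuous fun t : ℝ => exp (t * I) := by fun_prop

theorem cont_int (hH : ContinuousOn H (sphere 0 1)) (b : ℕ) :
    Continuous fun t : ℝ => H (exp (t * I)) * exp (-(b * t * I)) :=
  (hH.comp_continuous cont_e mem_e).mul (by fun_prop)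

theorem two_pi_ne : (2 * Real.pi : ℂ) ≠ 0 :=
  mul_ne_zero two_ne_zero (ofReal_ne_zero.2 Real.pi_ne_zero)

/-- The coefficient is the Taylor coefficient. -/
theorem coef_eq (hR : 1 < R) (hH : DifferentiableOn ℂ H (ball 0 R)) (b : ℕ) :
    coef H b = (b.factorial : ℂ)⁻¹ * iteratedDeriv b H 0 := by
  have h := (hH.mono (closedBall_subset_ball hR)).circleIntegral_one_div_sub_center_pow_smul
    one_pos b
  have e : (∮ z in C(0, 1), (1 / (z - 0) ^ (b + 1)) • H z) =
      I * ∫ t in (0 : ℝ)..2 * Real.pi, H (exp (t * I)) * exp (-(b * t * I)) := by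
    rw [circleIntegral, ← intervalIntegral.integral_const_mul]
    refine intervalIntegral.integral_congr fun t _ => ?_
    have h0 : exp (t * I) ≠ 0 := exp_ne_zero _
    simp only [deriv_circleMap, circleMap, ofReal_one, one_mul, zero_add, sub_zero, smul_eq_mul,
      e_neg]
    field_simp
    ring
  rw [e, smul_eq_mul] at h
  have hb : (b.factorial : ℂ) ≠ 0 := Nat.cast_ne_zero.2 b.factorial_ne_zero
  have hp : (Real.pi : ℂ) ≠ 0 := ofReal_ne_zero.2 Real.pi_ne_zero
  have h' : (∫ t in (0 : ℝ)..2 * Real.pi, H (exp (t * I)) * exp (-(b * t * I))) =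
      2 * Real.pi / b.factorial * iteratedDeriv b H 0 := by
    apply mul_left_cancel₀ I_ne_zero
    rw [h]
    ring
  rw [coef, h']
  field_simp

end Coef

open Coef

theorem coef_congr (h : ∀ y, ‖y‖ = 1 → H y = K y) (b : ℕ) : coef H b = coef K b := by
  simp only [coef, fun t : ℝ => h _ (norm_e t)]

theorem coef_add (hH : ContinuousOn H (sphere 0 1)) (hK : ContinuousOn K (sphere 0 1)) (b : ℕ) :
    coef (fun y => H y + K y) b = coef H b + coef K b := by
  simp only [coef, add_mul]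
  rw [intervalIntegral.integral_add ((cont_int hH b).intervalIntegrable _ _)
    ((cont_int hK b).intervalIntegrable _ _), mul_add]

theorem coef_const_mul (c : ℂ) (H : ℂ → ℂ) (b : ℕ) : coef (fun y => c * H y) b = c * coef H b := by
  simp only [coef, mul_assoc c]
  rw [intervalIntegral.integral_const_mul, mul_left_comm]

theorem coef_sum {ι : Type*} (s : Finset ι) {F : ι → ℂ → ℂ}
    (h : ∀ i ∈ s, ContinuousOn (F i) (sphere 0 1)) (b : ℕ) :
    coef (fun y => ∑ i ∈ s, F i y) b = ∑ i ∈ s, coef (F i) b := by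
  simp only [coef, Finset.sum_mul]
  rw [intervalIntegral.integral_finsetSum
    fun i hi => (cont_int (h i hi) b).intervalIntegrable _ _, Finset.mul_sum]

theorem coef_pow (a b : ℕ) : coef (fun y => y ^ a) b = if a = b then 1 else 0 := by
  rw [coef_eq one_lt_two (differentiable_pow a).differentiableOn, iteratedDeriv_fun_pow_zero]
  split_ifs with h h' h'
  · subst h'
    exact inv_mul_cancel₀ (Nat.cast_ne_zero.2 a.factorial_ne_zero)
  · exact absurd h.symm h'
  · exact absurd h'.symm h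
  · simp

theorem norm_coef_le_one (h : ∀ y, ‖y‖ = 1 → ‖H y‖ ≤ M) (b : ℕ) : ‖coef H b‖ ≤ M := by
  have h1 := intervalIntegral.norm_integral_le_of_norm_le_const (a := 0) (b := 2 * Real.pi)
    (C := M) (f := fun t : ℝ => H (exp (t * I)) * exp (-(b * t * I))) fun t _ => by
      rw [norm_mul, norm_e_neg, mul_one]
      exact h _ (norm_e t)
  have hp : 0 < 2 * Real.pi := Real.two_pi_pos
  rw [sub_zero, abs_of_pos hp] at h1
  have h2 : ‖(2 * Real.pi : ℂ)‖ = 2 * Real.pi := by
    rw [norm_mul, norm_real, Real.norm_of_nonneg Real.pi_pos.le, norm_ofNat]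
  rw [coef, norm_mul, norm_inv, h2, inv_mul_le_iff₀ hp, mul_comm _ M]
  exact h1

theorem norm_coef_le (hR : 1 < R) (hH : DifferentiableOn ℂ H (ball 0 R))
    (h : ∀ y ∈ ball (0 : ℂ) R, ‖H y‖ ≤ M) (b : ℕ) : ‖coef H b‖ ≤ M / R ^ b := by
  have h0 : 0 < R := one_pos.trans hR
  have key : ∀ r ∈ Ioo 0 R, ‖coef H b‖ ≤ M / r ^ b := by
    intro r hr
    have hd : DiffContOnCl ℂ H (ball 0 r) :=
      (hH.mono (closure_ball_subset_closedBall.trans (closedBall_subset_ball hr.2))).diffContOnCl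
    have := norm_iteratedDeriv_le_of_forall_mem_sphere_norm_le b hr.1 hd
      fun z hz => h z (closedBall_subset_ball hr.2 (sphere_subset_closedBall hz))
    have hb : (0 : ℝ) < b.factorial := Nat.cast_pos.2 b.factorial_pos
    rw [coef_eq hR hH, norm_mul, norm_inv, norm_natCast, inv_mul_le_iff₀ hb, ← mul_div_assoc]
    exact this
  have lim : Tendsto (fun r : ℝ => M / r ^ b) (𝓝[<] R) (𝓝 (M / R ^ b)) :=
    ((continuousAt_const.div (continuousAt_id.pow b) (pow_ne_zero b h0.ne')).tendsto).mono_left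
      nhdsWithin_le_nhds
  exact ge_of_tendsto lim (mem_of_superset (Ioo_mem_nhdsLT h0) key)

theorem hasSum_coef (hR : 1 < R) (hH : DifferentiableOn ℂ H (ball 0 R)) {y : ℂ}
    (hy : y ∈ ball (0 : ℂ) R) : HasSum (fun b => coef H b * y ^ b) (H y) := by
  have e : (fun b => coef H b * y ^ b) =
      fun n : ℕ => (n.factorial : ℂ)⁻¹ • (y - 0) ^ n • iteratedDeriv n H 0 := by
    funext n
    rw [coef_eq hR hH, sub_zero, smul_eq_mul, smul_eq_mul]
    ring
  rw [e]
  exact hasSum_taylorSeries_on_ball hH hy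

theorem coef_zero_eq (hR : 1 < R) (hH : DifferentiableOn ℂ H (ball 0 R)) : coef H 0 = H 0 := by
  rw [coef_eq hR hH]
  simp

theorem coef_deriv (hR : 1 < R) (hH : DifferentiableOn ℂ H (ball 0 R)) (b : ℕ) :
    coef (deriv H) b = (b + 1) * coef H (b + 1) := by
  rw [coef_eq hR hH, coef_eq hR (hH.deriv isOpen_ball), iteratedDeriv_succ', Nat.factorial_succ]
  have hb : (b.factorial : ℂ) ≠ 0 := Nat.cast_ne_zero.2 b.factorial_ne_zero
  have hb' : (b + 1 : ℂ) ≠ 0 := Nat.cast_add_one_ne_zero b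
  push_cast
  field_simp

theorem hasSum_coef_of_bound {ι : Type*} {F : ι → ℂ → ℂ} {u : ι → ℝ} (hu : Summable u)
    (hc : ∀ i, ContinuousOn (F i) (sphere 0 1)) (hb : ∀ i y, ‖y‖ = 1 → ‖F i y‖ ≤ u i) (b : ℕ) :
    HasSum (fun i => coef (F i) b) (coef (fun y => ∑' i, F i y) b) := by
  have hb' : ∀ i, ∀ y ∈ sphere (0 : ℂ) 1, ‖F i y‖ ≤ u i :=
    fun i y hy => hb i y (mem_sphere_zero_iff_norm.1 hy)
  have hU := tendstoUniformlyOn_tsum hu hb'
  have hC : ContinuousOn (fun y => ∑' i, F i y) (sphere 0 1) := continuousOn_tsum hc hu hb'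
  refine Metric.tendsto_nhds.2 fun ε hε => ?_
  filter_upwards [Metric.tendstoUniformlyOn_iff.1 hU (ε / 2) (half_pos hε)] with s hs
  have hS : ContinuousOn (fun y => ∑ i ∈ s, F i y) (sphere 0 1) :=
    continuousOn_finsetSum s fun i _ => hc i
  have e : coef (fun y => ∑' i, F i y) b =
      coef (fun y => ∑ i ∈ s, F i y) b + coef (fun y => ∑' i, F i y - ∑ i ∈ s, F i y) b := by
    rw [← coef_add hS (hC.fun_sub hS)]
    exact coef_congr (fun y _ => by ring) b
  rw [← coef_sum s (fun i _ => hc i), e, dist_self_add_right]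
  refine (norm_coef_le_one (M := ε / 2) (fun y hy => ?_) b).trans_lt (half_lt_self hε)
  rw [← dist_eq_norm]
  exact (hs y (mem_sphere_zero_iff_norm.2 hy)).le

theorem diffOn_coef {P : Type*} [NormedAddCommGroup P] [NormedSpace ℂ P] [FiniteDimensional ℂ P]
    {U : Set P} (hU : IsOpen U) {F : P → ℂ → ℂ}
    (hc : ContinuousOn (fun x : P × ℂ => F x.1 x.2) (U ×ˢ sphere 0 1))
    (hd : ∀ y, ‖y‖ = 1 → DifferentiableOn ℂ (fun p => F p y) U) (b : ℕ) :
    DifferentiableOn ℂ (fun p => coef (F p) b) U := by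
  refine (diffOn_intervalIntegral (a := 0) (b := 2 * Real.pi) hU
    (f := fun p t => F p (exp (t * I)) * exp (-(b * t * I))) ?_
    fun t _ => (hd _ (norm_e t)).mul_const _).const_mul _
  have h1 : Continuous fun q : P × ℝ => (q.1, exp (q.2 * I)) := by fun_prop
  exact (hc.comp h1.continuousOn fun q hq => ⟨hq.1, mem_e q.2⟩).mul (by fun_prop)

theorem continuousOn_coef {X : Type*} [TopologicalSpace X] {U : Set X} {F : X → ℂ → ℂ}
    (hc : ContinuousOn (fun x : X × ℂ => F x.1 x.2) (U ×ˢ sphere 0 1)) (b : ℕ) :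
    ContinuousOn (fun p => coef (F p) b) U := by
  rw [continuousOn_iff_continuous_domRestrict]
  have h1 : Continuous fun q : U × ℝ => (q.1.1, exp (q.2 * I)) := by fun_prop
  have h2 : Continuous fun q : U × ℝ => F q.1.1 (exp (q.2 * I)) * exp (-(b * q.2 * I)) :=
    (hc.comp_continuous h1 fun q => ⟨q.1.2, mem_e q.2⟩).mul (by fun_prop)
  exact continuous_const.mul (intervalIntegral.continuous_parametric_intervalIntegral_of_continuous'
    (f := fun (p : U) (t : ℝ) => F p.1 (exp (t * I)) * exp (-(b * t * I))) h2 _ _)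

theorem coef_swap {F : ℂ → ℂ → ℂ}
    (hc : ContinuousOn (fun x : ℂ × ℂ => F x.1 x.2) (sphere 0 1 ×ˢ sphere 0 1)) (a b : ℕ) :
    coef (fun x => coef (fun y => F x y) b) a = coef (fun y => coef (fun x => F x y) a) b := by
  have h1 : Continuous fun q : ℝ × ℝ => (exp (q.1 * I), exp (q.2 * I)) := by fun_prop
  have h2 : Continuous fun q : ℝ × ℝ => F (exp (q.1 * I)) (exp (q.2 * I)) *
      exp (-(b * q.2 * I)) * exp (-(a * q.1 * I)) :=
    ((hc.comp_continuous h1 fun q => ⟨mem_e q.1, mem_e q.2⟩).mul (by fun_prop)).mul (by fun_prop)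
  have hp : (0 : ℝ) ≤ 2 * Real.pi := Real.two_pi_pos.le
  have h3 : Integrable (Function.uncurry fun s t : ℝ => F (exp (s * I)) (exp (t * I)) *
      exp (-(b * t * I)) * exp (-(a * s * I)))
      ((volume.restrict (Ioc 0 (2 * Real.pi))).prod (volume.restrict (Ioc 0 (2 * Real.pi)))) := by
    rw [Measure.prod_restrict]
    exact (h2.continuousOn.integrableOn_compact (isCompact_Icc.prod isCompact_Icc)).mono_set
      (prod_mono Ioc_subset_Icc_self Ioc_subset_Icc_self)
  have h4 := integral_integral_swap h3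
  simp only [coef, mul_assoc (2 * Real.pi : ℂ)⁻¹, intervalIntegral.integral_const_mul,
    ← intervalIntegral.integral_mul_const]
  simp only [intervalIntegral.integral_of_le hp]
  rw [h4]
  simp only [mul_right_comm _ (exp (-(b * _ * I)))]

end Pool.Agent.Lib.MP_de7bb2_an
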