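import Pool.Agent.Lib.MP_de7bb2_an.H20B

/-! Geodesics in the disc and orbits of the vector field on pairs of null vectors. TASK CONV. -/

namespace Pool.Agent.Lib.MP_de7bb2_an

open Metric Set Complex ComplexConjugate

variable {ι : Type} {Wf : ι → V} {Cb ε : ℝ}

namespace Conv

variable {z : ℂ} {t : ℝ} {c v : ℝ → ℂ}

/-- The real derivative of `zv`. -/
noncomputable def dz (z u : ℂ) : V :=
  (2 * (z * conj u + conj z * u) / (1 - z * conj z) ^ 2,
    2 * (u + z ^ 2 * conj u) / (1 - z * conj z) ^ 2,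
    2 * (conj u + conj z ^ 2 * u) / (1 - z * conj z) ^ 2)

theorem hasDerivAt_conj {u : ℂ} (h : HasDerivAt c u t) :
    HasDerivAt (fun s => conj (c s)) (conj u) t := h.star

theorem hasDerivAt_zv {u : ℂ} (hz : c t ∈ ball (0 : ℂ) 1) (hc : HasDerivAt c u t) :
    HasDerivAt (fun s => zv (c s)) (dz (c t) u) t := by
  have d := one_sub_ne hz
  have hw := hasDerivAt_conj hc
  have hD := (hc.fun_mul hw).const_sub 1
  simp only [zv_eq]
  refine ((((hc.fun_mul hw).const_add 1).fun_div hD d).prodMk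
    (((((hasDerivAt_const t (2 : ℂ)).fun_div hD d).fun_mul hc).prodMk
      (((hasDerivAt_const t (2 : ℂ)).fun_div hD d).fun_mul hw)))).congr_deriv ?_
  refine Prod.ext ?_ (Prod.ext ?_ ?_) <;> simp only [dz] <;> field_simp <;> ring

theorem hasDerivAt_dz {a : ℂ} (hz : c t ∈ ball (0 : ℂ) 1) (hc : HasDerivAt c (v t) t)
    (hv : HasDerivAt v a t) : HasDerivAt (fun s => dz (c s) (v s))
      ((4 * (v t * conj (v t)) / (1 - c t * conj (c t)) ^ 2) • zv (c t) +
        dz (c t) (a + 2 / (1 - c t * conj (c t)) * (conj (c t) * v t ^ 2))) t := by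
  have d := one_sub_ne hz
  have d' : 1 - conj (c t) * c t ≠ 0 := by rwa [mul_comm]
  have hw := hasDerivAt_conj hc
  have hu := hasDerivAt_conj hv
  have hD := ((hc.fun_mul hw).const_sub 1).fun_pow 2
  have d2 := pow_ne_zero 2 d
  refine (((((hc.fun_mul hu).fun_add (hw.fun_mul hv)).const_mul 2).fun_div hD d2).prodMk
    ((((hv.fun_add ((hc.fun_pow 2).fun_mul hu)).const_mul 2).fun_div hD d2).prodMk
      (((hu.fun_add ((hw.fun_pow 2).fun_mul hv)).const_mul 2).fun_div hD d2))).congr_deriv ?_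
  refine Prod.ext ?_ (Prod.ext ?_ ?_) <;>
    simp only [dz, zv_eq, Prod.smul_mk, Prod.mk_add_mk, smul_eq_mul, map_add, map_mul, map_div₀,
      map_sub, map_pow, map_one, map_ofNat, conj_conj, mul_comm (conj (c t)) (c t)] <;>
    push_cast <;> field_simp <;> ring

theorem isRe_dz (z u : ℂ) : IsRe (dz z u) := by
  refine ⟨Complex.conj_eq_iff_im.1 ?_, ?_⟩ <;>
    simp only [dz, map_add, map_mul, map_div₀, map_sub, map_pow, map_one, map_ofNat, conj_conj] <;>
    ring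

theorem br_zv_dz (hz : z ∈ ball (0 : ℂ) 1) (u : ℂ) : br (zv z) (dz z u) = 0 := by
  have d := one_sub_ne hz
  simp only [zv_eq, dz, br]
  field_simp
  ring

theorem br_dz_dz (hz : z ∈ ball (0 : ℂ) 1) (u : ℂ) :
    br (dz z u) (dz z u) = -(4 * (u * conj u) / (1 - z * conj z) ^ 2) := by
  have d := one_sub_ne hz
  simp only [dz, br]
  field_simp
  ring

theorem cross_zv_dz (hz : z ∈ ball (0 : ℂ) 1) (u : ℂ) : cross (zv z) (dz z u) = dz z (I * u) := by
  have d := one_sub_ne hz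
  refine Prod.ext ?_ (Prod.ext ?_ ?_) <;> simp only [zv_eq, dz, cross, map_mul, conj_I] <;>
    field_simp <;> ring

theorem dz_lin (z x y w : ℂ) (p q : ℝ) :
    dz z (x - p * y + q * w) = dz z x - (p : ℂ) • dz z y + (q : ℂ) • dz z w := by
  refine Prod.ext ?_ (Prod.ext ?_ ?_) <;>
    simp only [dz, map_add, map_sub, map_mul, conj_ofReal, Prod.smul_mk, Prod.mk_add_mk,
      Prod.mk_sub_mk, smul_eq_mul] <;> ring

theorem dz_zero (z : ℂ) : dz z 0 = 0 := by simp [dz]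

theorem eq_zero_of_dz (hz : z ∈ ball (0 : ℂ) 1) {u : ℂ} (h : dz z u = 0) : u = 0 := by
  have d := one_sub_ne hz
  have h1 := br_dz_dz hz u
  rw [h, eq_comm] at h1
  simpa [br, d] using h1

theorem nul_of {Z Y : V} (hZ : Hyp Z) (hY : IsRe Y) (h0 : br Y Y = 0) (h1 : br Z Y = 1) :
    Nul Y := by
  refine ⟨hY, ?_, h0⟩
  by_contra hn
  have := hZ.fut.br_nonneg (fut_of hY.neg (by simpa using hn) (by simp [h0]))
  rw [br_neg_right, h1] at this
  norm_num at this

theorem hasDerivAt_bF (h : Famy Wf Cb) {Z : ℝ → V} {U : V} (hZ : Hyp (Z t))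
    (hd : HasDerivAt Z U t) : HasDerivAt (fun s => bF Wf (Z s)) (fF Wf (Z t) U) t := by
  have := ((h.diffOn_bF.differentiableAt
    (isOpen_near.mem_nhds hZ.near)).hasFDerivAt.restrictScalars ℝ).comp_hasDerivAt t hd
  rw [← h.fderiv_bF hZ.near]
  exact this

theorem hasDerivAt_b (h : Famy Wf Cb) {u : ℂ} (hz : c t ∈ ball (0 : ℂ) 1)
    (hc : HasDerivAt c u t) : HasDerivAt (fun s => ε * (bF Wf (zv (c s))).re)
      (ε * (fF Wf (zv (c t)) (dz (c t) u)).re) t :=
  (reCLM.hasFDerivAt.comp_hasDerivAt t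
    (hasDerivAt_bF h (hyp_zv hz) (hasDerivAt_zv hz hc))).const_mul ε

theorem differentiableAt_phi (h : Famy Wf Cb) (hz : z ∈ ball (0 : ℂ) 1) :
    DifferentiableAt ℝ (phiE Wf ε) z := by
  have d0 := one_sub_pos hz
  have h1 : DifferentiableAt ℝ (fun z : ℂ => 2 / (1 - ‖z‖ ^ 2)) z :=
    (((differentiableAt_id.norm_sq ℝ).const_sub 1).inv d0.ne').const_mul 2
  have h2 : DifferentiableAt ℝ (fun z : ℂ => (1 + ‖z‖ ^ 2) / (1 - ‖z‖ ^ 2)) z :=
    ((differentiableAt_id.norm_sq ℝ).const_add 1).mul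
      (((differentiableAt_id.norm_sq ℝ).const_sub 1).inv d0.ne')
  have h3 := ofRealCLM.differentiableAt.comp z h1
  have h4 : DifferentiableAt ℝ zv z := (ofRealCLM.differentiableAt.comp z h2).prodMk
    ((h3.mul differentiableAt_id).prodMk (h3.mul conjCLE.differentiableAt))
  have h5 := ((h.diffOn_bF.differentiableAt
    (isOpen_near.mem_nhds (hyp_zv hz).near)).restrictScalars ℝ).comp z h4
  exact (h1.log (div_pos two_pos d0).ne').add
    ((reCLM.differentiableAt.comp z h5).const_mul ε)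

theorem fderiv_phi (h : Famy Wf Cb) (hz : z ∈ ball (0 : ℂ) 1) (u : ℂ) :
    fderiv ℝ (phiE Wf ε) z u =
      2 / (1 - ‖z‖ ^ 2) * (u * conj z).re + ε * (fF Wf (zv z) (dz z u)).re := by
  have d0 := one_sub_pos hz
  have l : HasDerivAt (fun s : ℝ => z + s • u) u 0 := by
    simpa using ((hasDerivAt_id (0 : ℝ)).smul_const u).const_add z
  have e : z + (0 : ℝ) • u = z := by simp
  have h1 := (differentiableAt_phi (ε := ε) h hz).hasFDerivAt.comp_hasDerivAt_of_eq 0 l e.symm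
  have h2 := hasDerivAt_b (ε := ε) (c := fun s : ℝ => z + s • u) h (by rwa [e]) l
  have h3 := ((hasDerivAt_const (0 : ℝ) (2 : ℝ)).fun_div (l.norm_sq.const_sub 1)
    (by rw [e]; exact d0.ne')).log (by rw [e]; exact (div_pos two_pos d0).ne')
  rw [h1.unique (h3.fun_add h2), e, Complex.inner]
  field_simp
  ring

/-- The geodesic acceleration. -/
noncomputable def acc (Wf : ι → V) (ε : ℝ) (z u : ℂ) : ℂ :=
  -(2 / (1 - z * conj z) * (conj z * u ^ 2)) - (ε * (fF Wf (zv z) (dz z u)).re : ℝ) * u +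
    (ε * (fF Wf (zv z) (dz z (I * u))).re : ℝ) * (I * u)

theorem acc_eq (h : Famy Wf Cb) (hz : z ∈ ball (0 : ℂ) 1) (u : ℂ) :
    ‖u‖ ^ 2 • gradient (phiE Wf ε) z - (2 * fderiv ℝ (phiE Wf ε) z u) • u = acc Wf ε z u := by
  have h1 : inner ℝ (gradient (phiE Wf ε) z) u = _ := inner_gradient_left
  have h2 : inner ℝ (gradient (phiE Wf ε) z) (I * u) = _ := inner_gradient_left
  have e : 2 / (1 - z * conj z) = ((2 / (1 - ‖z‖ ^ 2) : ℝ) : ℂ) := by
    rw [← cast_one_sub, ofReal_div, ofReal_ofNat]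
  rw [fderiv_phi h hz, Complex.inner] at h1 h2
  rw [fderiv_phi h hz, acc, e, Complex.sq_norm, normSq_apply]
  generalize gradient (phiE Wf ε) z = G at *
  generalize ε * (fF Wf (zv z) (dz z u)).re = p at *
  generalize ε * (fF Wf (zv z) (dz z (I * u))).re = q at *
  generalize 2 / (1 - ‖z‖ ^ 2) = k at *
  simp only [mul_re, mul_im, conj_re, conj_im, I_re, I_im] at h1 h2
  refine Complex.ext ?_ ?_ <;>
    simp only [real_smul, sq, sub_re, sub_im, add_re, add_im, neg_re, neg_im, mul_re, mul_im,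
      conj_re, conj_im, I_re, I_im, ofReal_re, ofReal_im]
  · linear_combination u.re * h1 - u.im * h2
  · linear_combination u.im * h1 + u.re * h2

/-- The conformal factor relative to the hyperbolic metric. -/
noncomputable def sg (Wf : ι → V) (ε : ℝ) (z : ℂ) : ℝ := Real.exp (ε * (bF Wf (zv z)).re)

theorem sg_ne : (sg Wf ε z : ℂ) ≠ 0 := ofReal_ne_zero.2 (Real.exp_pos _).ne'

theorem exp_neg_eq (h : Famy Wf Cb) (hz : z ∈ ball (0 : ℂ) 1) :
    exp (-ε * bF Wf (zv z)) = (sg Wf ε z : ℂ)⁻¹ := by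
  have : ((bF Wf (zv z)).re : ℂ) = bF Wf (zv z) :=
    Complex.ext (by simp) (by simp [(h.bF_real (hyp_zv hz)).1])
  rw [sg, ofReal_exp, ofReal_mul, this, neg_mul, Complex.exp_neg]

theorem speed_iff (hz : z ∈ ball (0 : ℂ) 1) (u : ℂ) : Real.exp (phiE Wf ε z) * ‖u‖ = 1 ↔
    (sg Wf ε z : ℂ) ^ 2 * (4 * (u * conj u) / (1 - z * conj z) ^ 2) = 1 := by
  have d0 := one_sub_pos hz
  have e : (sg Wf ε z : ℂ) ^ 2 * (4 * (u * conj u) / (1 - z * conj z) ^ 2) =
      ((Real.exp (phiE Wf ε z) * ‖u‖) ^ 2 : ℝ) := by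
    rw [phiE, Real.exp_add, Real.exp_log (div_pos two_pos d0), ← sg, ← cast_one_sub,
      Complex.mul_conj']
    generalize 1 - ‖z‖ ^ 2 = d
    push_cast
    ring
  rw [e, ofReal_eq_one, pow_eq_one_iff_of_nonneg (by positivity) two_ne_zero]

/-- The pair of null vectors attached to a tangent vector. -/
noncomputable def st (Wf : ι → V) (ε : ℝ) (z u : ℂ) : V × V :=
  (zv z + (sg Wf ε z : ℂ) • dz z u, zv z - (sg Wf ε z : ℂ) • dz z u)

theorem mid_st (z u : ℂ) : mid (st Wf ε z u) = zv z := by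
  simp only [mid, st]
  module

theorem nrm_st (hz : z ∈ ball (0 : ℂ) 1) (u : ℂ) :
    nrm (st Wf ε z u) = (sg Wf ε z : ℂ) • dz z (I * u) := by
  rw [← cross_zv_dz hz]
  refine Prod.ext ?_ (Prod.ext ?_ ?_) <;> simp [nrm, st, cross] <;> ring

theorem br_st (hz : z ∈ ball (0 : ℂ) 1) (u : ℂ) : br (st Wf ε z u).1 (st Wf ε z u).2 =
    1 + (sg Wf ε z : ℂ) ^ 2 * (4 * (u * conj u) / (1 - z * conj z) ^ 2) := by
  simp only [st, br_add_left, br_sub_right, br_smul_left, br_smul_right, br_comm (dz z u) (zv z),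
    br_zv_dz hz, br_dz_dz hz, (hyp_zv hz).2.2]
  ring

theorem st_mem (hz : z ∈ ball (0 : ℂ) 1) {u : ℂ}
    (hs : (sg Wf ε z : ℂ) ^ 2 * (4 * (u * conj u) / (1 - z * conj z) ^ 2) = 1) :
    st Wf ε z u ∈ SM := by
  have H := hyp_zv hz
  refine ⟨nul_of H (H.1.add ((isRe_dz z u).smul _)) ?_ ?_,
    nul_of H (H.1.sub ((isRe_dz z u).smul _)) ?_ ?_, by rw [br_st hz, hs]; norm_num⟩ <;>
    simp only [st, br_add_left, br_add_right, br_sub_left, br_sub_right, br_smul_left,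
      br_smul_right, br_comm (dz z u) (zv z), br_zv_dz hz, br_dz_dz hz, H.2.2]
  · linear_combination -hs
  · ring
  · linear_combination -hs
  · ring

/-- The second derivative term of the vector field. -/
noncomputable def sec (Wf : ι → V) (ε : ℝ) (z u : ℂ) : V := (sg Wf ε z : ℂ)⁻¹ • zv z +
  ((sg Wf ε z : ℂ) * (ε * (fF Wf (zv z) (dz z (I * u))).re : ℝ)) • dz z (I * u)

theorem VF_st (h : Famy Wf Cb) (hz : z ∈ ball (0 : ℂ) 1) (u : ℂ) :
    VF Wf ε (st Wf ε z u) = (dz z u + sec Wf ε z u, dz z u - sec Wf ε z u) := by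
  have e : ((fF Wf (zv z) (dz z (I * u))).re : ℂ) = fF Wf (zv z) (dz z (I * u)) :=
    Complex.ext (by simp) (by simp [fF_im h (hyp_zv hz).1 (isRe_dz z _)])
  have s := sg_ne (Wf := Wf) (ε := ε) (z := z)
  rw [VF, mid_st, nrm_st hz, exp_neg_eq h hz, fF_smul, sec, ofReal_mul, e, st, Prod.smul_mk]
  refine Prod.ext ?_ ?_ <;> simp only <;> match_scalars <;> field_simp

theorem hasDerivAt_st (h : Famy Wf Cb) {a : ℂ} (hz : c t ∈ ball (0 : ℂ) 1)
    (hc : HasDerivAt c (v t) t) (hv : HasDerivAt v a t) (hs : (sg Wf ε (c t) : ℂ) ^ 2 *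
      (4 * (v t * conj (v t)) / (1 - c t * conj (c t)) ^ 2) = 1) :
    HasDerivAt (fun s => st Wf ε (c s) (v s))
      (dz (c t) (v t) + (sec Wf ε (c t) (v t) +
          (sg Wf ε (c t) : ℂ) • dz (c t) (a - acc Wf ε (c t) (v t))),
        dz (c t) (v t) - (sec Wf ε (c t) (v t) +
          (sg Wf ε (c t) : ℂ) • dz (c t) (a - acc Wf ε (c t) (v t)))) t := by
  have h1 : HasDerivAt (fun s => (sg Wf ε (c s) : ℂ)) _ t :=
    (hasDerivAt_b (ε := ε) h hz hc).exp.ofReal_comp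
  have h2 := h1.fun_smul (hasDerivAt_dz hz hc hv)
  have s := sg_ne (Wf := Wf) (ε := ε) (z := c t)
  have e1 : 4 * (v t * conj (v t)) / (1 - c t * conj (c t)) ^ 2 = ((sg Wf ε (c t) : ℂ) ^ 2)⁻¹ :=
    eq_inv_of_mul_eq_one_right hs
  have e2 : a + 2 / (1 - c t * conj (c t)) * (conj (c t) * v t ^ 2) =
      a - acc Wf ε (c t) (v t) - (ε * (fF Wf (zv (c t)) (dz (c t) (v t))).re : ℝ) * v t +
        (ε * (fF Wf (zv (c t)) (dz (c t) (I * v t))).re : ℝ) * (I * v t) := by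
    rw [acc]; ring
  rw [e1, e2, dz_lin, ← sg, ofReal_mul (sg Wf ε (c t))] at h2
  have h3 : HasDerivAt (fun s => (sg Wf ε (c s) : ℂ) • dz (c s) (v s)) (sec Wf ε (c t) (v t) +
      (sg Wf ε (c t) : ℂ) • dz (c t) (a - acc Wf ε (c t) (v t))) t := by
    refine h2.congr_deriv ?_
    rw [sec]
    match_scalars <;> field_simp
    ring
  exact ((hasDerivAt_zv hz hc).fun_add h3).prodMk ((hasDerivAt_zv hz hc).fun_sub h3)

end Conv

open Conv

theorem MG.isGeodesic (h : Famy Wf Cb) {E : ℝ → V × V} (hE : MG Wf ε E) :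
    IsGeodesic (phiE Wf ε) fun t => vz (mid (E t)) := by
  have H : ∀ t, Hyp (mid (E t)) := fun t => SM.mid (hE t).1
  let U : ℝ → V := fun t => exp (-ε * bF Wf (mid (E t))) • (1 / 2 : ℂ) • ((E t).1 - (E t).2)
  have d1 : ∀ t, HasDerivAt (fun s => (E s).1) (VF Wf ε (E t)).1 t := fun t =>
    (ContinuousLinearMap.fst ℝ V V).hasFDerivAt.comp_hasDerivAt t (hE t).2
  have d2 : ∀ t, HasDerivAt (fun s => (E s).2) (VF Wf ε (E t)).2 t := fun t =>
    (ContinuousLinearMap.snd ℝ V V).hasFDerivAt.comp_hasDerivAt t (hE t).2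
  have dZ : ∀ t, HasDerivAt (fun s => mid (E s)) (U t) t := fun t => by
    refine (((d1 t).fun_add (d2 t)).fun_const_smul (1 / 2 : ℂ)).congr_deriv ?_
    simp only [VF, U, Prod.smul_mk]
    module
  have dU : ∀ t, DifferentiableAt ℝ U t := fun t =>
    ((hasDerivAt_bF h (H t) (dZ t)).const_mul (-ε : ℂ)).cexp.differentiableAt.fun_smul
      (((d1 t).fun_sub (d2 t)).fun_const_smul (1 / 2 : ℂ)).differentiableAt
  have ne : ∀ t, 1 + (mid (E t)).1 ≠ 0 := fun t e => by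
    have := congrArg re e
    rw [add_re, one_re, zero_re] at this
    linarith [(H t).2.1]
  let v : ℝ → ℂ := fun t =>
    ((U t).2.1 * (1 + (mid (E t)).1) - (mid (E t)).2.1 * (U t).1) / (1 + (mid (E t)).1) ^ 2
  have dc : ∀ t, HasDerivAt (fun s => vz (mid (E s))) (v t) t := fun t =>
    (((mk1.restrictScalars ℝ).hasFDerivAt.comp_hasDerivAt t (dZ t)).fun_div
      (((mk0.restrictScalars ℝ).hasFDerivAt.comp_hasDerivAt t (dZ t)).const_add 1) (ne t))
  have dv : ∀ t, DifferentiableAt ℝ v t := fun t => by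
    have k1 := (dZ t).differentiableAt
    have k2 := dU t
    exact ((k2.snd.fst.fun_mul (k1.fst.const_add 1)).fun_sub (k1.snd.fst.fun_mul k2.fst)).fun_div
      ((k1.fst.const_add 1).fun_pow 2) (pow_ne_zero 2 (ne t))
  have eE : ∀ t, E t = st Wf ε (vz (mid (E t))) (v t) := fun t => by
    have k1 := hasDerivAt_zv (c := fun s => vz (mid (E s))) (vz_mem (H t)) (dc t)
    simp only [zv_vz (H _)] at k1
    have k2 := exp_neg_eq (ε := ε) h (vz_mem (H t))
    rw [zv_vz (H t)] at k2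
    have s := sg_ne (Wf := Wf) (ε := ε) (z := vz (mid (E t)))
    rw [st, k1.unique (dZ t), zv_vz (H t)]
    simp only [U, k2, smul_inv_smul₀ s]
    refine Prod.ext ?_ ?_ <;> simp only [mid] <;> module
  refine ⟨v, fun t => ?_⟩
  have hz := vz_mem (H t)
  have hs := (hE t).1.2.2
  rw [eE t, br_st hz] at hs
  replace hs : (Conv.sg Wf ε (vz (mid (E t))) : ℂ) ^ 2 * (4 * (v t * conj (v t)) /
      (1 - vz (mid (E t)) * conj (vz (mid (E t)))) ^ 2) = 1 := by linear_combination hs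
  refine ⟨hz, dc t, ?_, (speed_iff hz _).2 hs⟩
  have k1 := hasDerivAt_st (ε := ε) (c := fun s => vz (mid (E s))) h hz (dc t)
    (dv t).hasDerivAt hs
  simp only [← eE] at k1
  have k2 := congrArg Prod.fst (k1.unique (hE t).2)
  rw [congrArg (VF Wf ε) (eE t), VF_st h hz] at k2
  simp only [add_right_inj, add_eq_left] at k2
  rw [acc_eq h hz, ← sub_eq_zero.1 (eq_zero_of_dz hz ((smul_eq_zero.1 k2).resolve_left sg_ne))]
  exact (dv t).hasDerivAt

theorem IsGeodesic.exists_MG (h : Famy Wf Cb) {c : ℝ → ℂ} (hc : IsGeodesic (phiE Wf ε) c) :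
    ∃ E, MG Wf ε E ∧ ∀ t, mid (E t) = zv (c t) := by
  obtain ⟨v, hv⟩ := hc
  refine ⟨fun t => st Wf ε (c t) (v t), fun t => ?_, fun t => mid_st _ _⟩
  obtain ⟨hz, h1, h2, h3⟩ := hv t
  rw [speed_iff hz] at h3
  rw [acc_eq h hz] at h2
  refine ⟨st_mem hz h3, (hasDerivAt_st h hz h1 h2 h3).congr_deriv ?_⟩
  rw [VF_st h hz, sub_self, dz_zero, smul_zero, add_zero]

end Pool.Agent.Lib.MP_de7bb2_an
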