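import Mathlib

namespace Pool.Agent.Lib.MP_de7bb2_an

open Metric

/-- A closed orientable surface of genus `G`, presented as the quotient of the unit disc by a group
acting freely, properly discontinuously and cocompactly by Moebius automorphisms, with first Betti
number `2 G`. -/
structure Surface (G : ℕ) where
  Γ : Type
  [grp : Group Γ]
  act : Γ → ℂ → ℂ
  moebius : ∀ γ, ∃ a b : ℂ, ‖a‖ ^ 2 - ‖b‖ ^ 2 = 1 ∧
    ∀ z ∈ ball (0 : ℂ) 1, act γ z = (a * z + b) / (star b * z + star a)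
  act_mul : ∀ γ δ, ∀ z ∈ ball (0 : ℂ) 1, act (γ * δ) z = act γ (act δ z)
  free : ∀ γ, ∀ z ∈ ball (0 : ℂ) 1, act γ z = z ↔ γ = 1
  proper : ∀ K ⊆ ball (0 : ℂ) 1, IsCompact K → {γ | ∃ z ∈ K, act γ z ∈ K}.Finite
  cocompact : ∃ K ⊆ ball (0 : ℂ) 1, IsCompact K ∧ ∀ z ∈ ball (0 : ℂ) 1, ∃ γ, act γ z ∈ K
  genus : Module.finrank ℝ (Additive Γ →+ ℝ) = 2 * G

attribute [instance] Surface.grp

variable {G : ℕ}

/-- `exp (2 φ) |dz|^2` is a smooth invariant metric with negative Gaussian curvature. -/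
def NegCurved (S : Surface G) (φ : ℂ → ℝ) : Prop :=
  ContDiffOn ℝ (⊤ : ℕ∞) φ (ball 0 1) ∧
  (∀ γ, ∀ z ∈ ball (0 : ℂ) 1,
    Real.exp (φ (S.act γ z)) * ‖deriv (S.act γ) z‖ = Real.exp (φ z)) ∧
  ∀ z ∈ ball (0 : ℂ) 1, -(Real.exp (-2 * φ z) * Laplacian.laplacian φ z) < 0

/-- Unit speed geodesic of the metric `exp (2 φ) |dz|^2` on the unit disc. -/
def IsGeodesic (φ : ℂ → ℝ) (c : ℝ → ℂ) : Prop :=
  ∃ v : ℝ → ℂ, ∀ t, c t ∈ ball (0 : ℂ) 1 ∧ HasDerivAt c (v t) t ∧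
    HasDerivAt v (‖v t‖ ^ 2 • gradient φ (c t) - (2 * fderiv ℝ φ (c t) (v t)) • v t) t ∧
    Real.exp (φ (c t)) * ‖v t‖ = 1

/-- `c` is a lift of a closed geodesic with least period `l` and deck transformation `γ`. -/
def IsPrimitive (S : Surface G) (φ : ℂ → ℝ) (c : ℝ → ℂ) (l : ℝ) (γ : S.Γ) : Prop :=
  IsGeodesic φ c ∧ 0 < l ∧ (∀ t, c (t + l) = S.act γ (c t)) ∧
    ∀ (l' : ℝ) (γ' : S.Γ), 0 < l' → (∀ t, c (t + l') = S.act γ' (c t)) → l ≤ l'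

/-- Primitive closed geodesics of the quotient surface: lifts up to deck transformations and time
shifts. -/
def Primitive (S : Surface G) (φ : ℂ → ℝ) : Type :=
  Quot fun x y : {x : (ℝ → ℂ) × ℝ × S.Γ // IsPrimitive S φ x.1 x.2.1 x.2.2} =>
    ∃ (δ : S.Γ) (t₀ : ℝ), ∀ t, y.1.1 t = S.act δ (x.1.1 (t + t₀))

/-- The Euler factor of the twisted Ruelle zeta function. -/
noncomputable def factor {S : Surface G} {φ : ℂ → ℝ} {r : ℕ} (ρ : S.Γ →* GL (Fin r) ℂ) (s : ℂ)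
    (p : Primitive S φ) : ℂ :=
  (1 - Complex.exp (-s * (Quot.out p).1.2.1) •
    (ρ (Quot.out p).1.2.2 : Matrix (Fin r) (Fin r) ℂ)).det

/-- The twisted Ruelle zeta function continues meromorphically with order `m` at zero. -/
def ZetaOrder (S : Surface G) (φ : ℂ → ℝ) {r : ℕ} (ρ : S.Γ →* GL (Fin r) ℂ) (m : ℤ) : Prop :=
  ∃ (Z : ℂ → ℂ) (C : ℝ), MeromorphicOn Z Set.univ ∧
    (∀ s : ℂ, C < s.re → HasProd (fun p : Primitive S φ => factor ρ s p) (Z s)) ∧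
    meromorphicOrderAt Z 0 = m

end Pool.Agent.Lib.MP_de7bb2_an
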