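import Pool.Agent.Lib.MP_de7bb2_an.H20Nuc
import Pool.Agent.Lib.MP_de7bb2_an.H20Tool

/-! Fredholm determinants of absolutely summable matrices. TASK DET. -/

namespace Pool.Agent.Lib.MP_de7bb2_an

open Filter Topology Metric

variable {ι : Type*}

namespace Det

/-- A pointwise limit of uniformly bounded holomorphic functions is holomorphic. -/
theorem diffAt_of_pointwise {E κ : Type*} [NormedAddCommGroup E] [NormedSpace ℂ E]
    {l : Filter κ} [l.NeBot] {f : κ → E → ℂ} {g : E → ℂ} {c : E} {R M : ℝ} (hR : 0 < R)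
    (hf : ∀ k, DifferentiableOn ℂ (f k) (ball c R))
    (hM : ∀ k, ∀ y ∈ ball c R, ‖f k y‖ ≤ M)
    (hg : ∀ y ∈ ball c R, Tendsto (fun k => f k y) l (𝓝 (g y))) : DifferentiableAt ℂ g c := by
  have hU : (Ultrafilter.of l : Filter κ) ≤ l := Ultrafilter.of_le l
  set U := Ultrafilter.of l
  have hb : ∀ k, ‖fderiv ℂ (f k) c‖ ≤ 2 * M / R := fun k =>
    MP_08f711_an.norm_fderiv_le_of_bound hR (hf k) (hM k)
  have hb' : ∀ k v, ‖fderiv ℂ (f k) c v‖ ≤ 2 * M / R * ‖v‖ := fun k v =>
    (fderiv ℂ (f k) c).le_of_opNorm_le (hb k) v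
  have hex : ∀ v : E, ∃ x : ℂ, Tendsto (fun k => fderiv ℂ (f k) c v) U (𝓝 x) := by
    intro v
    obtain ⟨x, -, hx⟩ := (isCompact_closedBall (0 : ℂ) (2 * M / R * ‖v‖)).ultrafilter_le_nhds
      (U.map fun k => fderiv ℂ (f k) c v) (by
        rw [Ultrafilter.coe_map, le_principal_iff, mem_map]
        exact Eventually.of_forall fun k => by simpa using hb' k v)
    exact ⟨x, hx⟩
  choose L hL using hex
  let L1 : E →ₗ[ℂ] ℂ := linearMapOfTendsto L
    (fun k => (fderiv ℂ (f k) c : E →ₗ[ℂ] ℂ)) (l := (U : Filter κ)) (tendsto_pi_nhds.2 hL)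
  have hL1 : ∀ v, L1 v = L v := fun v => rfl
  have hLb : ∀ v, ‖L1 v‖ ≤ 2 * M / R * ‖v‖ := fun v => by
    rw [hL1]
    exact le_of_tendsto' (hL v).norm fun k => hb' k v
  let L2 : E →L[ℂ] ℂ := L1.mkContinuous _ hLb
  have hL2 : ∀ v, L2 v = L v := fun v => rfl
  have hsec : ∀ y ∈ ball c R, ‖g y - g c - L2 (y - c)‖ ≤ 4 * M * (‖y - c‖ / R) ^ 2 := by
    intro y hy
    have h1 : Tendsto (fun k => f k y - f k c - fderiv ℂ (f k) c (y - c)) U
        (𝓝 (g y - g c - L2 (y - c))) := by
      rw [hL2]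
      exact (((hg y hy).mono_left hU).sub ((hg c (mem_ball_self hR)).mono_left hU)).sub (hL _)
    exact le_of_tendsto' h1.norm fun k => MP_08f711_an.second_order_bound hR (hf k) (hM k) hy
  refine HasFDerivAt.differentiableAt (f' := L2) ?_
  rw [hasFDerivAt_iff_isLittleO]
  have h2 : (fun y => g y - g c - L2 (y - c)) =O[𝓝 c] fun y => ‖y - c‖ ^ 2 := by
    refine Asymptotics.IsBigO.of_bound (4 * M / R ^ 2) ?_
    filter_upwards [ball_mem_nhds c hR] with y hy
    refine (hsec y hy).trans_eq ?_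
    rw [Real.norm_of_nonneg (by positivity)]
    field_simp
  exact h2.trans_isLittleO (Asymptotics.isLittleO_pow_sub_sub c one_lt_two)

theorem norm_det_le {n : Type*} [Fintype n] [DecidableEq n] (N : Matrix n n ℂ) :
    ‖N.det‖ ≤ ∏ i, ∑ j, ‖N j i‖ := by
  rw [Matrix.det_apply, Finset.prod_univ_sum]
  refine (norm_sum_le _ _).trans ?_
  have h1 : ∀ σ : Equiv.Perm n, ‖Equiv.Perm.sign σ • ∏ i, N (σ i) i‖ = ∏ i, ‖N (σ i) i‖ := by
    intro σ
    rcases Int.units_eq_one_or (Equiv.Perm.sign σ) with h | h <;> simp [h]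
  simp_rw [h1]
  have h2 : ∑ σ : Equiv.Perm n, ∏ i, ‖N (σ i) i‖ =
      ∑ p ∈ Finset.univ.image (fun σ : Equiv.Perm n => (σ : n → n)), ∏ i, ‖N (p i) i‖ := by
    rw [Finset.sum_image]
    intro a _ b _ h
    exact Equiv.coe_inj.1 h
  rw [h2]
  refine Finset.sum_le_sum_of_subset_of_nonneg (fun p _ => by simp) fun p _ _ => ?_
  exact Finset.prod_nonneg fun i _ => norm_nonneg _

theorem norm_det_one_sub_le {n : Type*} [Fintype n] [DecidableEq n] (N : Matrix n n ℂ) :
    ‖(1 - N).det‖ ≤ Real.exp (∑ i, ∑ j, ‖N j i‖) := by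
  refine (norm_det_le _).trans ?_
  rw [Real.exp_sum]
  refine Finset.prod_le_prod (fun i _ => Finset.sum_nonneg fun j _ => norm_nonneg _) fun i _ => ?_
  refine le_trans ?_ (Real.add_one_le_exp _)
  have h1 : ∀ j, ‖(1 - N) j i‖ ≤ ‖N j i‖ + if j = i then 1 else 0 := by
    intro j
    rw [Matrix.sub_apply, Matrix.one_apply]
    split_ifs
    · simpa [add_comm] using norm_sub_le (1 : ℂ) (N j i)
    · simp
  refine (Finset.sum_le_sum fun j _ => h1 j).trans_eq ?_
  rw [Finset.sum_add_distrib]
  simp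

/-- The principal submatrix on a finite set. -/
def res (F : Finset ι) (A : Nuc ι) : Matrix F F ℂ := Matrix.of fun i j => A (i, j)

open Classical in
/-- The determinant of a principal submatrix of `1 - A`. -/
noncomputable def dF (F : Finset ι) (A : Nuc ι) : ℂ := (1 - res F A).det

theorem norm_dF_le (F : Finset ι) (A : Nuc ι) : ‖dF F A‖ ≤ Real.exp ‖A‖ := by
  classical
  refine (norm_det_one_sub_le _).trans (Real.exp_le_exp.2 ?_)
  rw [Vec.norm_eq, Finset.sum_comm]
  have h1 : ∑ j : F, ∑ i : F, ‖res F A j i‖ = ∑ p ∈ F ×ˢ F, ‖A p‖ := by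
    rw [Finset.sum_product, ← Finset.sum_coe_sort F]
    refine Finset.sum_congr rfl fun j _ => ?_
    rw [← Finset.sum_coe_sort F]
    rfl
  rw [h1]
  exact (Vec.summable_norm A).sum_le_tsum _ fun _ _ => norm_nonneg _

theorem differentiable_prod {E κ : Type*} [NormedAddCommGroup E] [NormedSpace ℂ E]
    {f : κ → E → ℂ} (s : Finset κ) (hf : ∀ k, Differentiable ℂ (f k)) :
    Differentiable ℂ fun x => ∏ k ∈ s, f k x := by
  classical
  induction s using Finset.induction_on with
  | empty => simp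
  | insert a s ha ih =>
    simp_rw [Finset.prod_insert ha]
    exact (hf a).mul ih

theorem differentiable_dF (F : Finset ι) : Differentiable ℂ (dF F : Nuc ι → ℂ) := by
  classical
  have h1 : (dF F : Nuc ι → ℂ) = fun A => ∑ σ : Equiv.Perm F, (Equiv.Perm.sign σ : ℤ) *
      ∏ i, ((1 : Matrix F F ℂ) (σ i) i - Vec.evalL ((σ i : ι), (i : ι)) A) := by
    ext A
    unfold dF
    rw [Matrix.det_apply']
    simp only [Matrix.sub_apply, Vec.evalL_apply]
    rfl
  rw [h1]
  refine Differentiable.fun_sum fun σ _ => (differentiable_const _).mul ?_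
  refine differentiable_prod _ fun i => ?_
  exact (differentiable_const _).sub (Vec.evalL _).differentiable

theorem dist_dF_le (F : Finset ι) {A B : Nuc ι} (h : dist B A < 1) :
    dist (dF F B) (dF F A) ≤ 2 * Real.exp (‖A‖ + 1) * dist B A := by
  have := Complex.dist_le_div_mul_dist_of_mapsTo_ball (f := dF F) (c := A) (R₁ := 1)
    (R₂ := 2 * Real.exp (‖A‖ + 1)) (differentiable_dF F).differentiableOn ?_ (mem_ball.2 h)
  · simpa using this
  · intro y hy
    rw [mem_closedBall, dist_eq_norm]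
    have h1 := norm_dF_le F y
    have h2 := norm_dF_le F A
    have h3 : ‖y‖ ≤ ‖A‖ + 1 := by
      have := norm_sub_norm_le y A
      rw [mem_ball, dist_eq_norm] at hy
      linarith
    have h4 := Real.exp_le_exp.2 h3
    have h5 : Real.exp ‖A‖ ≤ Real.exp (‖A‖ + 1) := Real.exp_le_exp.2 (by linarith)
    have := norm_sub_le (dF F y) (dF F A)
    linarith

open Classical in
/-- Truncation to a finite block. -/
noncomputable def trunc (F : Finset ι) (A : Nuc ι) : Nuc ι :=
  ∑ p ∈ F ×ˢ F, lp.single 1 p (A p)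

open Classical in
theorem trunc_apply (F : Finset ι) (A : Nuc ι) (i j : ι) :
    trunc F A (i, j) = if i ∈ F ∧ j ∈ F then A (i, j) else 0 := by
  unfold trunc
  rw [lp.coeFn_sum, Finset.sum_apply]
  simp only [lp.single_apply, Pi.single_apply]
  rw [Finset.sum_ite_eq]
  simp

theorem tendsto_trunc (A : Nuc ι) : Tendsto (fun F => trunc F A) atTop (𝓝 A) := by
  classical
  have h1 := lp.hasSum_single (p := 1) (by simp) A
  have h2 : Tendsto (fun F : Finset ι => F ×ˢ F) atTop atTop :=
    tendsto_finsetProd_atTop.comp (tendsto_atTop_diagonal (α := Finset ι))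
  have h3 := Tendsto.comp h1 h2
  refine h3.congr fun F => ?_
  simp only [Function.comp, trunc]

theorem res_trunc (F : Finset ι) (A : Nuc ι) : res F (trunc F A) = res F A := by
  ext i j
  simp [res, trunc_apply]

theorem dF_trunc {F G : Finset ι} (h : F ⊆ G) (A : Nuc ι) : dF G (trunc F A) = dF F A := by
  classical
  let P : Matrix G F ℂ := Matrix.of fun g f => if (g : ι) = f then 1 else 0
  have h1 : P.transpose * P = 1 := by
    ext a b
    simp only [Matrix.mul_apply, Matrix.transpose_apply, P, Matrix.of_apply]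
    rw [Finset.sum_eq_single (⟨a, h a.2⟩ : G)]
    · rw [if_pos rfl, one_mul, Matrix.one_apply]
      exact if_congr (Subtype.ext_iff (a1 := a) (a2 := b)).symm rfl rfl
    · intro g _ hg
      rw [if_neg, zero_mul]
      exact fun h' => hg (Subtype.ext h')
    · simp
  have h2 : res G (trunc F A) = P * (res F A * P.transpose) := by
    ext a b
    simp only [res, Matrix.mul_apply, Matrix.transpose_apply, P, Matrix.of_apply, trunc_apply]
    by_cases ha : (a : ι) ∈ F
    · rw [Finset.sum_eq_single (⟨a, ha⟩ : F)]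
      · by_cases hb : (b : ι) ∈ F
        · rw [Finset.sum_eq_single (⟨b, hb⟩ : F)]
          · simp [ha, hb]
          · intro g _ hg
            rw [if_neg, mul_zero]
            exact fun h' => hg (Subtype.ext h'.symm)
          · simp
        · rw [Finset.sum_eq_zero]
          · simp [hb]
          · intro g _
            rw [if_neg, mul_zero]
            exact fun h' => hb (h' ▸ g.2)
      · intro g _ hg
        rw [if_neg, zero_mul]
        exact fun h' => hg (Subtype.ext h'.symm)
      · simp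
    · rw [Finset.sum_eq_zero]
      · simp [ha]
      · intro g _
        rw [if_neg, zero_mul]
        exact fun h' => ha (h' ▸ g.2)
  unfold dF
  rw [h2, Matrix.det_one_sub_mul_comm, Matrix.mul_assoc, h1, Matrix.mul_one]

theorem cauchy_dF (A : Nuc ι) : CauchySeq fun F => dF F A := by
  classical
  rw [Metric.cauchySeq_iff']
  intro ε hε
  have h1 : Tendsto (fun F => dist (trunc F A) A) atTop (𝓝 0) :=
    tendsto_iff_dist_tendsto_zero.1 (tendsto_trunc A)
  have h2 : Tendsto (fun F => 2 * Real.exp (‖A‖ + 1) * dist (trunc F A) A) atTop (𝓝 0) := by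
    simpa using h1.const_mul (2 * Real.exp (‖A‖ + 1))
  obtain ⟨F, hF1, hF2⟩ := ((h1.eventually (gt_mem_nhds one_pos)).and
    (h2.eventually (gt_mem_nhds hε))).exists
  refine ⟨F, fun G hG => ?_⟩
  rw [← dF_trunc hG A, dist_comm]
  exact (dist_dF_le G hF1).trans_lt hF2

end Det

/-- `det1 A` is the determinant of `1 - A`; the body is free. -/
noncomputable def det1 (A : Nuc ι) : ℂ := limUnder atTop fun F : Finset ι => Det.dF F A

namespace Det

theorem tendsto_dF (A : Nuc ι) : Tendsto (fun F => dF F A) atTop (𝓝 (det1 A)) :=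
  (cauchy_dF A).tendsto_limUnder

theorem tendsto_dF_of_tendsto {A : Nuc ι} {X : Finset ι → Nuc ι} (h : Tendsto X atTop (𝓝 A)) :
    Tendsto (fun F => dF F (X F)) atTop (𝓝 (det1 A)) := by
  have h1 : Tendsto (fun F => dist (X F) A) atTop (𝓝 0) := tendsto_iff_dist_tendsto_zero.1 h
  have h2 : Tendsto (fun F => 2 * Real.exp (‖A‖ + 1) * dist (X F) A) atTop (𝓝 0) := by
    simpa using h1.const_mul (2 * Real.exp (‖A‖ + 1))
  refine (tendsto_dF A).congr_dist (squeeze_zero' (Eventually.of_forall fun _ => dist_nonneg) ?_ h2)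
  filter_upwards [h1.eventually (gt_mem_nhds one_pos)] with F hF
  rw [dist_comm]
  exact dist_dF_le F hF

theorem res_nmul_trunc (F : Finset ι) (A B : Nuc ι) :
    res F (nmul (trunc F A) (trunc F B)) = res F A * res F B := by
  classical
  ext i k
  simp only [res, Matrix.mul_apply, Matrix.of_apply, nmul_apply]
  rw [tsum_eq_sum (s := F), ← Finset.sum_coe_sort F]
  · refine Finset.sum_congr rfl fun j _ => ?_
    simp [trunc_apply]
  · intro j hj
    simp [trunc_apply, hj]

end Det

theorem differentiable_det1 : Differentiable ℂ (det1 : Nuc ι → ℂ) := by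
  intro A
  refine Det.diffAt_of_pointwise (l := atTop) (f := fun F => Det.dF F) (R := 1)
    (M := Real.exp (‖A‖ + 1)) one_pos (fun F => (Det.differentiable_dF F).differentiableOn)
    (fun F y hy => (Det.norm_dF_le F y).trans (Real.exp_le_exp.2 ?_)) fun y _ => Det.tendsto_dF y
  have := norm_sub_norm_le y A
  rw [mem_ball, dist_eq_norm] at hy
  linarith

theorem det1_zero : det1 (0 : Nuc ι) = 1 := by
  refine tendsto_nhds_unique (Det.tendsto_dF 0) ?_
  have : ∀ F : Finset ι, Det.dF F 0 = 1 := by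
    intro F
    have h : Det.res F (0 : Nuc ι) = 0 := by
      ext i j
      simp [Det.res]
    simp [Det.dF, h]
  simp_rw [this]
  exact tendsto_const_nhds

namespace Det

theorem res_add_sub (F : Finset ι) (A B C : Nuc ι) :
    res F (A + B - C) = res F A + res F B - res F C := by
  ext i j
  simp [res]

theorem dF_qm (F : Finset ι) (A B : Nuc ι) :
    dF F (trunc F A + trunc F B - nmul (trunc F A) (trunc F B)) = dF F A * dF F B := by
  classical
  unfold dF
  rw [res_add_sub, res_nmul_trunc, res_trunc, res_trunc, ← Matrix.det_mul]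
  refine congrArg Matrix.det ?_
  noncomm_ring

theorem tendsto_clm₂ {E κ : Type*} [NormedAddCommGroup E] [NormedSpace ℂ E] {l : Filter κ}
    (m : E →L[ℂ] E →L[ℂ] E) {x y : κ → E} {a b : E} (hx : Tendsto x l (𝓝 a))
    (hy : Tendsto y l (𝓝 b)) : Tendsto (fun k => m (x k) (y k)) l (𝓝 (m a b)) :=
  (m.continuous₂.tendsto (a, b)).comp (hx.prodMk_nhds hy)

end Det

theorem det1_mul (A B : Nuc ι) : det1 (A + B - nmul A B) = det1 A * det1 B := by
  have hA := Det.tendsto_trunc A
  have hB := Det.tendsto_trunc B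
  have h1 := Det.tendsto_dF_of_tendsto ((hA.add hB).sub (Det.tendsto_clm₂ nmul hA hB))
  refine tendsto_nhds_unique h1 (((Det.tendsto_dF A).mul (Det.tendsto_dF B)).congr fun F => ?_)
  exact (Det.dF_qm F A B).symm

theorem det1_ntr (A : Nuc ι) : det1 (ntr A) = det1 A := by
  classical
  refine tendsto_nhds_unique (Det.tendsto_dF _) ((Det.tendsto_dF A).congr fun F => ?_)
  have h : Det.res F (ntr A) = (Det.res F A).transpose := by
    ext i j
    simp [Det.res]
  unfold Det.dF
  rw [h, ← Matrix.det_transpose, Matrix.transpose_sub, Matrix.transpose_one]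

theorem det1_outer {n : Type*} [Fintype n] [DecidableEq n] (a φ : n → Vec ι) :
    det1 (-∑ j, outer (a j) (φ j)) = (1 + Matrix.of fun i j => dot (φ i) (a j)).det := by
  classical
  refine tendsto_nhds_unique (Det.tendsto_dF _) ?_
  have h1 : ∀ F : Finset ι, Det.dF F (-∑ j, outer (a j) (φ j)) =
      (1 + Matrix.of fun i j => ∑ k ∈ F, φ i k * a j k).det := by
    intro F
    let P : Matrix F n ℂ := Matrix.of fun k j => a j k
    let Q : Matrix n F ℂ := Matrix.of fun j k => φ j k
    have h2 : Det.res F (-∑ j, outer (a j) (φ j)) = -(P * Q) := by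
      ext i k
      simp only [Det.res, Matrix.of_apply, Matrix.neg_apply, Matrix.mul_apply, P, Q, lp.coeFn_neg,
        Pi.neg_apply, lp.coeFn_sum, Finset.sum_apply, outer_apply]
    have h3 : Q * P = Matrix.of fun i j => ∑ k ∈ F, φ i k * a j k := by
      ext i j
      simp only [Matrix.of_apply, Matrix.mul_apply, P, Q]
      exact Finset.sum_coe_sort F fun k => φ i k * a j k
    unfold Det.dF
    rw [h2, sub_neg_eq_add, Matrix.det_one_add_mul_comm, h3]
  simp_rw [h1]
  have hc : Continuous fun M : Matrix n n ℂ => (1 + M).det :=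
    (continuous_const.add continuous_id).matrix_det
  refine (hc.tendsto _).comp ?_
  refine tendsto_pi_nhds.2 fun i => tendsto_pi_nhds.2 fun j => ?_
  simp only [Matrix.of_apply, dot_apply]
  have hs : Summable fun k => φ i k * a j k := by
    refine Summable.of_norm_bounded ((Vec.summable_norm (φ i)).mul_right ‖a j‖) fun k => ?_
    rw [norm_mul]
    exact mul_le_mul_of_nonneg_left (Vec.norm_apply_le _ _) (norm_nonneg _)
  exact hs.hasSum

namespace Det

theorem qm_assoc (A B C : Nuc ι) :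
    (A + B - nmul A B) + C - nmul (A + B - nmul A B) C =
      A + (B + C - nmul B C) - nmul A (B + C - nmul B C) := by
  simp only [map_add, map_sub, _root_.add_apply, _root_.sub_apply,
    nmul_assoc]
  abel

theorem summable_npw {K : Nuc ι} (h : ‖K‖ < 1) : Summable (npw K) := by
  refine Summable.of_norm_bounded (g := fun n => ‖K‖ ^ (n + 1)) ?_ (norm_npw_le K)
  exact (summable_nat_add_iff 1).2 (summable_geometric_of_lt_one (norm_nonneg _) h)

theorem neumann {K : Nuc ι} (h : ‖K‖ < 1) :
    ∃ B : Nuc ι, K + B - nmul K B = 0 ∧ B + K - nmul B K = 0 := by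
  have hs := summable_npw h
  have h0 : ∑' n, npw K n = K + ∑' n, npw K (n + 1) := hs.tsum_eq_zero_add
  have h1 : nmul K (∑' n, npw K n) = ∑' n, npw K (n + 1) := by
    rw [(nmul K).map_tsum hs]
    simp_rw [npw_succ']
  have h2 : nmul (∑' n, npw K n) K = ∑' n, npw K (n + 1) := by
    have := (nmul.flip K).map_tsum hs
    simpa [npw] using this
  refine ⟨-∑' n, npw K n, ?_, ?_⟩
  · rw [map_neg, h1, h0]
    abel
  · rw [map_neg, _root_.neg_apply, h2, h0]
    abel

section FR

variable {n : Type*} [Fintype n]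

/-- The finite rank matrix `a N φ`. -/
noncomputable def fr (a φ : n → Vec ι) (N : Matrix n n ℂ) : Nuc ι :=
  ∑ j, ∑ k, N j k • outer (a j) (φ k)

theorem fr_add (a φ : n → Vec ι) (N N' : Matrix n n ℂ) :
    fr a φ (N + N') = fr a φ N + fr a φ N' := by
  simp [fr, add_smul, Finset.sum_add_distrib]

theorem fr_sub (a φ : n → Vec ι) (N N' : Matrix n n ℂ) :
    fr a φ (N - N') = fr a φ N - fr a φ N' := by
  simp [fr, sub_smul, Finset.sum_sub_distrib]

theorem fr_zero (a φ : n → Vec ι) : fr a φ 0 = 0 := by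
  simp [fr]

theorem fr_neg_one [DecidableEq n] (a φ : n → Vec ι) :
    fr a φ (-1) = -∑ j, outer (a j) (φ j) := by
  unfold fr
  rw [← Finset.sum_neg_distrib]
  refine Finset.sum_congr rfl fun j _ => ?_
  rw [Finset.sum_eq_single j]
  · simp
  · intro k _ hk
    simp [Matrix.one_apply_ne hk.symm]
  · simp

theorem mulV_fr (a φ : n → Vec ι) (N : Matrix n n ℂ) (v : Vec ι) :
    mulV (fr a φ N) v = ∑ j, (∑ k, N j k * dot (φ k) v) • a j := by
  simp only [fr, map_sum, map_smul, _root_.sum_apply,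
    _root_.smul_apply, mulV_outer, Finset.sum_smul, smul_smul]

theorem nmul_fr (a φ : n → Vec ι) (N N' : Matrix n n ℂ) :
    nmul (fr a φ N) (fr a φ N') = fr a φ (N * (Matrix.of fun i j => dot (φ i) (a j)) * N') := by
  have h1 : nmul (fr a φ N) (fr a φ N') =
      ∑ l, ∑ m, N' l m • outer (mulV (fr a φ N) (a l)) (φ m) := by
    conv_lhs => rw [show fr a φ N' = ∑ l, ∑ m, N' l m • outer (a l) (φ m) from rfl]
    simp only [map_sum, map_smul, nmul_outer]
  rw [h1]
  simp only [mulV_fr, map_sum, map_smul, _root_.sum_apply,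
    _root_.smul_apply, Finset.smul_sum, smul_smul]
  unfold fr
  simp only [Matrix.mul_apply (M := N * _), Finset.sum_smul]
  rw [Finset.sum_comm]
  conv_rhs => rw [Finset.sum_comm]
  refine Finset.sum_congr rfl fun m _ => ?_
  rw [Finset.sum_comm]
  refine Finset.sum_congr rfl fun j _ => Finset.sum_congr rfl fun l _ => ?_
  rw [mul_comm, Matrix.mul_apply]
  rfl

theorem fr_inverse [DecidableEq n] (a φ : n → Vec ι)
    (h : (1 + Matrix.of fun i j => dot (φ i) (a j)).det ≠ 0) :
    ∃ S : Nuc ι, fr a φ (-1) + S - nmul (fr a φ (-1)) S = 0 ∧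
      S + fr a φ (-1) - nmul S (fr a φ (-1)) = 0 := by
  set D : Matrix n n ℂ := Matrix.of fun i j => dot (φ i) (a j) with hD
  have hu : IsUnit (1 + D).det := isUnit_iff_ne_zero.2 h
  have h1 := Matrix.mul_nonsing_inv _ hu
  have h2 := Matrix.nonsing_inv_mul _ hu
  refine ⟨fr a φ (1 + D)⁻¹, ?_, ?_⟩
  · rw [nmul_fr, ← hD, ← fr_add, ← fr_sub, ← fr_zero a φ]
    congr 1
    rw [add_mul, one_mul] at h1
    rw [neg_mul, one_mul, neg_mul, sub_neg_eq_add, add_assoc, h1, neg_add_cancel]
  · rw [nmul_fr, ← hD, ← fr_add, ← fr_sub, ← fr_zero a φ]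
    congr 1
    rw [mul_add, mul_one] at h2
    rw [mul_neg, mul_one, sub_neg_eq_add, add_right_comm, h2, add_neg_cancel]

theorem fr_kernel [DecidableEq n] (a φ : n → Vec ι)
    (h : (1 + Matrix.of fun i j => dot (φ i) (a j)).det = 0) :
    ∃ v : Vec ι, v ≠ 0 ∧ mulV (fr a φ (-1)) v = v := by
  obtain ⟨c, hc0, hc⟩ := Matrix.exists_mulVec_eq_zero_iff.2 h
  have h1 : ∀ i, dot (φ i) (∑ j, c j • a j) = -c i := by
    intro i
    have := congrFun hc i
    rw [Matrix.add_mulVec, Matrix.one_mulVec, Pi.add_apply, Pi.zero_apply] at this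
    rw [eq_neg_iff_add_eq_zero, add_comm, ← this]
    simp [Matrix.mulVec, dotProduct, mul_comm]
  refine ⟨∑ j, c j • a j, fun h0 => hc0 ?_, ?_⟩
  · ext i
    have := h1 i
    rw [h0, map_zero] at this
    simpa using this.symm
  · rw [fr_neg_one, map_neg, _root_.neg_apply, map_sum mulV,
      _root_.sum_apply]
    simp_rw [mulV_outer, h1]
    simp

end FR

open Classical in
theorem trunc_eq_outer (F : Finset ι) (A : Nuc ι) :
    trunc F A = ∑ p : (F ×ˢ F : Finset (ι × ι)),
      outer (lp.single 1 p.1.1 (A p)) (lp.single 1 p.1.2 (1 : ℂ)) := by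
  unfold trunc
  rw [← Finset.sum_coe_sort]
  refine Finset.sum_congr rfl fun p _ => ?_
  ext ⟨i, j⟩
  rw [outer_apply]
  simp only [lp.single_apply, Pi.single_apply, Prod.ext_iff]
  by_cases h1 : i = p.1.1 <;> by_cases h2 : j = p.1.2 <;> simp [h1, h2]

/-- Reduction to finite rank. -/
theorem exists_reduce (A : Nuc ι) : ∃ (K B : Nuc ι) (s : Finset (ι × ι)) (a φ : s → Vec ι),
    K + B - nmul K B = 0 ∧ B + K - nmul B K = 0 ∧
      B + A - nmul B A = -∑ j, outer (a j) (φ j) := by
  classical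
  obtain ⟨F, hF⟩ := ((tendsto_iff_dist_tendsto_zero.1 (tendsto_trunc A)).eventually
    (gt_mem_nhds one_pos)).exists
  rw [dist_comm, dist_eq_norm] at hF
  obtain ⟨B, h1, h2⟩ := neumann hF
  refine ⟨A - trunc F A, B, F ×ˢ F,
    fun p => mulV B (lp.single 1 p.1.1 (A p)) - lp.single 1 p.1.1 (A p),
    fun p => lp.single 1 p.1.2 (1 : ℂ), h1, h2, ?_⟩
  have h3 : B + A - nmul B A = trunc F A - nmul B (trunc F A) := by
    rw [map_sub] at h2
    rw [← sub_eq_zero, ← h2]
    abel
  rw [h3]
  conv_lhs => rw [trunc_eq_outer]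
  simp only [map_sum, map_sub, _root_.sub_apply, nmul_outer, Finset.sum_sub_distrib,
    neg_sub]

theorem det1_ne_zero_of_inv {K B : Nuc ι} (h : K + B - nmul K B = 0) : det1 B ≠ 0 := by
  intro h0
  have := det1_mul K B
  rw [h, det1_zero, h0, mul_zero] at this
  exact one_ne_zero this

theorem mulV_qm (A B : Nuc ι) (v : Vec ι) :
    v - mulV (A + B - nmul A B) v = (v - mulV B v) - mulV A (v - mulV B v) := by
  simp only [map_add, map_sub, _root_.add_apply, _root_.sub_apply,
    mulV_nmul]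
  abel

end Det

theorem exists_inverse {A : Nuc ι} (h : det1 A ≠ 0) :
    ∃ B : Nuc ι, A + B - nmul A B = 0 ∧ B + A - nmul B A = 0 := by
  classical
  obtain ⟨K, B, s, a, φ, h1, h2, h3⟩ := Det.exists_reduce A
  have h4 : (1 + Matrix.of fun i j => dot (φ i) (a j)).det ≠ 0 := by
    rw [← det1_outer, ← h3, det1_mul]
    exact mul_ne_zero (Det.det1_ne_zero_of_inv h1) h
  obtain ⟨S, h5, h6⟩ := Det.fr_inverse a φ h4
  rw [Det.fr_neg_one, ← h3] at h5 h6
  refine ⟨S + B - nmul S B, ?_, ?_⟩
  · have h7 : A = K + (B + A - nmul B A) - nmul K (B + A - nmul B A) := by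
      rw [← Det.qm_assoc, h1]
      simp
    rw [← Det.qm_assoc]
    have h8 : A + S - nmul A S = K := by
      have := Det.qm_assoc K (B + A - nmul B A) S
      rw [← h7, h5] at this
      simpa using this
    rw [h8, h1]
  · rw [Det.qm_assoc, h6]

theorem det1_eq_zero_iff (A : Nuc ι) : det1 A = 0 ↔ ∃ v, v ≠ 0 ∧ mulV A v = v := by
  classical
  constructor
  · intro h
    obtain ⟨K, B, s, a, φ, h1, h2, h3⟩ := Det.exists_reduce A
    have h4 : (1 + Matrix.of fun i j => dot (φ i) (a j)).det = 0 := by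
      rw [← det1_outer, ← h3, det1_mul, h, mul_zero]
    obtain ⟨v, hv, h5⟩ := Det.fr_kernel a φ h4
    rw [Det.fr_neg_one, ← h3] at h5
    refine ⟨v, hv, ?_⟩
    have h6 := Det.mulV_qm B A v
    rw [h5, sub_self] at h6
    have h7 := Det.mulV_qm K B (v - mulV A v)
    rw [h1, ← h6] at h7
    simp only [map_zero, _root_.zero_apply, sub_zero] at h7
    exact (sub_eq_zero.1 h7).symm
  · rintro ⟨v, hv, h⟩
    by_contra h0
    obtain ⟨B, -, h2⟩ := exists_inverse h0
    have h3 := Det.mulV_qm B A v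
    rw [h2, h] at h3
    exact hv (by simpa using h3)

theorem exists_solve {A : Nuc ι} (h : det1 A ≠ 0) (y : Vec ι) : ∃ v, v - mulV A v = y := by
  obtain ⟨B, h1, -⟩ := exists_inverse h
  refine ⟨y - mulV B y, ?_⟩
  rw [← Det.mulV_qm, h1]
  simp

namespace Det

theorem tr_outer (a b : Vec ι) : tr (outer a b) = dot b a := by
  rw [tr_apply, dot_apply]
  simp [mul_comm]

theorem hasFDerivAt_det1_zero : HasFDerivAt (det1 : Nuc ι → ℂ) (-tr) 0 := by
  classical
  have h := (differentiable_det1 (ι := ι) 0).hasFDerivAt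
  have key : ∀ a b : Vec ι, fderiv ℂ det1 0 (outer a b) = -tr (outer a b) := by
    intro a b
    have h1 : HasDerivAt (fun t : ℂ => t • outer a b) (outer a b) 0 := by
      simpa using (hasDerivAt_id (0 : ℂ)).smul_const (outer a b)
    have h2 : HasDerivAt (fun t : ℂ => det1 (t • outer a b)) (fderiv ℂ det1 0 (outer a b)) 0 :=
      HasFDerivAt.comp_hasDerivAt_of_eq (0 : ℂ) h h1 (by simp)
    have h3 : (fun t : ℂ => det1 (t • outer a b)) = fun t => 1 - t * dot b a := by
      ext t
      have := det1_outer (n := Unit) (fun _ => (-t) • a) fun _ => b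
      simp only [Finset.univ_unique, Finset.sum_singleton, map_smul,
        _root_.smul_apply, neg_smul, neg_neg, map_neg,
        _root_.neg_apply] at this
      rw [this, Matrix.det_unique]
      simp [sub_eq_add_neg]
    rw [h3] at h2
    have h4 : HasDerivAt (fun t : ℂ => 1 - t * dot b a) (-dot b a) 0 := by
      simpa using ((hasDerivAt_id (0 : ℂ)).mul_const (dot b a)).const_sub 1
    rw [tr_outer]
    exact h2.unique h4
  have h5 : fderiv ℂ (det1 : Nuc ι → ℂ) 0 = -tr := by
    refine lp.ext_continuousLinearMap (by simp) fun p => ?_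
    ext
    have h6 : (lp.single 1 p (1 : ℂ) : Nuc ι) =
        outer (lp.single 1 p.1 (1 : ℂ)) (lp.single 1 p.2 (1 : ℂ)) := by
      ext ⟨i, j⟩
      rw [outer_apply]
      simp only [lp.single_apply, Pi.single_apply, Prod.ext_iff]
      by_cases h1 : i = p.1 <;> by_cases h2 : j = p.2 <;> simp [h1, h2]
    simp only [ContinuousLinearMap.comp_apply, lp.singleContinuousLinearMap_apply,
      _root_.neg_apply]
    rw [h6, key]
  rwa [h5] at h

theorem hasDerivAt_det1_smul (A : Nuc ι) {z : ℂ} (hz : ‖z‖ * ‖A‖ < 1) :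
    HasDerivAt (fun w : ℂ => det1 (w • A))
      (-(det1 (z • A) * ∑' n : ℕ, z ^ n * tr (npw A n))) z := by
  have hs : Summable fun n : ℕ => z ^ n • npw A n := by
    refine Summable.of_norm_bounded (g := fun n => (‖z‖ * ‖A‖) ^ n * ‖A‖)
      ((summable_geometric_of_lt_one (by positivity) hz).mul_right _) fun n => ?_
    rw [norm_smul, norm_pow, mul_pow, mul_assoc, ← pow_succ]
    exact mul_le_mul_of_nonneg_left (norm_npw_le A n) (by positivity)
  set C := ∑' n : ℕ, z ^ n • npw A n with hC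
  have h0 : C = A + ∑' n : ℕ, z ^ (n + 1) • npw A (n + 1) := by
    rw [hC, hs.tsum_eq_zero_add]
    simp [npw]
  have h1 : nmul (z • A) C = ∑' n : ℕ, z ^ (n + 1) • npw A (n + 1) := by
    rw [hC, (nmul (z • A)).map_tsum hs]
    refine tsum_congr fun n => ?_
    rw [npw_succ', map_smul, map_smul, _root_.smul_apply, smul_smul, pow_succ]
  have h2 : C - nmul (z • A) C = A := by
    rw [h1]
    exact sub_eq_of_eq_add h0
  have h3 : tr C = ∑' n : ℕ, z ^ n * tr (npw A n) := by
    rw [hC, tr.map_tsum hs]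
    simp
  have h4 : (fun w : ℂ => det1 (w • A)) = fun w => det1 (z • A) * det1 ((w - z) • C) := by
    ext w
    rw [← det1_mul]
    congr 1
    rw [map_smul, add_sub_assoc, ← smul_sub, h2, ← add_smul]
    simp
  have h5 : HasDerivAt (fun w : ℂ => (w - z) • C) C z := by
    simpa using ((hasDerivAt_id z).sub_const z).smul_const C
  have h6 := HasFDerivAt.comp_hasDerivAt_of_eq z (hasFDerivAt_det1_zero (ι := ι)) h5 (by simp)
  rw [h4, ← h3]
  simpa using h6.const_mul (det1 (z • A))

end Det

theorem det1_eq_exp {A : Nuc ι} (h : Summable fun n : ℕ => ‖tr (npw A n)‖ / (n + 1)) :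
    det1 A = Complex.exp (-∑' n : ℕ, tr (npw A n) / (n + 1)) := by
  let T : ℕ → ℂ → ℂ := fun n w => w ^ (n + 1) * (tr (npw A n) / (n + 1))
  let g : ℂ → ℂ := fun w => ∑' n, T n w
  let f : ℂ → ℂ := fun w => det1 (w • A)
  have hT : ∀ n, Differentiable ℂ (T n) := fun n => (differentiable_pow _).mul_const _
  have hTb : ∀ n, ∀ w ∈ closedBall (0 : ℂ) 1, ‖T n w‖ ≤ ‖tr (npw A n)‖ / (n + 1) := by
    intro n w hw
    rw [mem_closedBall_zero_iff] at hw
    have h1 : ‖(n : ℂ) + 1‖ = (n : ℝ) + 1 := by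
      exact_mod_cast Complex.norm_natCast (n + 1)
    simp only [T, norm_mul, norm_pow, norm_div, h1]
    exact mul_le_of_le_one_left (by positivity) (pow_le_one₀ (norm_nonneg _) hw)
  have hTb' : ∀ n w, w ∈ ball (0 : ℂ) 1 → ‖T n w‖ ≤ ‖tr (npw A n)‖ / (n + 1) :=
    fun n w hw => hTb n w (ball_subset_closedBall hw)
  have hg : DifferentiableOn ℂ g (ball 0 1) :=
    Complex.differentiableOn_tsum_of_summable_norm h (fun n => (hT n).differentiableOn)
      isOpen_ball hTb'
  have hgc : ContinuousOn g (closedBall 0 1) :=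
    continuousOn_tsum (fun n => (hT n).continuous.continuousOn) h hTb
  have hg' : ∀ z ∈ ball (0 : ℂ) 1, deriv g z = ∑' n : ℕ, z ^ n * tr (npw A n) := by
    intro z hz
    rw [← (Complex.hasSum_deriv_of_summable_norm h (fun n => (hT n).differentiableOn)
      isOpen_ball hTb' hz).tsum_eq]
    refine tsum_congr fun n => ?_
    have h1 := (hasDerivAt_pow (n + 1) z).mul_const (tr (npw A n) / (n + 1))
    rw [h1.deriv]
    have : (n : ℂ) + 1 ≠ 0 := Nat.cast_add_one_ne_zero n
    simp only [Nat.add_sub_cancel]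
    push_cast
    field_simp
  have hf : Differentiable ℂ f :=
    differentiable_det1.comp (differentiable_id.smul_const A)
  let H : ℂ → ℂ := fun w => f w * Complex.exp (g w)
  have hH : DifferentiableOn ℂ H (ball 0 1) := hf.differentiableOn.mul hg.cexp
  have hHc : ContinuousOn H (closedBall 0 1) := hf.continuous.continuousOn.mul hgc.cexp
  have hr : (0 : ℝ) < 1 / (‖A‖ + 1) := by positivity
  have hr1 : 1 / (‖A‖ + 1) ≤ (1 : ℝ) := by
    rw [div_le_one (by positivity)]
    linarith [norm_nonneg A]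
  have hsub : ball (0 : ℂ) (1 / (‖A‖ + 1)) ⊆ ball 0 1 := ball_subset_ball hr1
  have hH0 : H 0 = 1 := by
    simp [H, f, g, T, det1_zero]
  have hH' : Set.EqOn (deriv H) 0 (ball (0 : ℂ) (1 / (‖A‖ + 1))) := by
    intro z hz
    have hz1 := hsub hz
    rw [mem_ball_zero_iff, lt_div_iff₀ (by positivity)] at hz
    have h1 := Det.hasDerivAt_det1_smul A (z := z) (by nlinarith [norm_nonneg z])
    have h2 := ((hg.differentiableAt (isOpen_ball.mem_nhds hz1)).hasDerivAt).cexp
    rw [hg' z hz1] at h2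
    have h3 : HasDerivAt H _ z := h1.mul h2
    rw [h3.deriv]
    simp only [Pi.zero_apply]
    ring
  have h1 : Set.EqOn H (fun _ => 1) (ball 0 1) := by
    refine (hH.analyticOnNhd isOpen_ball).eqOn_of_preconnected_of_eventuallyEq
      analyticOnNhd_const (convex_ball _ _).isPreconnected (mem_ball_self one_pos) ?_
    filter_upwards [ball_mem_nhds (0 : ℂ) hr] with z hz
    rw [← hH0]
    exact isOpen_ball.is_const_of_deriv_eq_zero (convex_ball _ _).isPreconnected
      (hH.mono hsub) hH' hz (mem_ball_self hr)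
  have h2 : Set.EqOn H (fun _ => 1) (closedBall 0 1) := by
    refine h1.of_subset_closure hHc continuousOn_const ball_subset_closedBall ?_
    rw [closure_ball _ one_ne_zero]
  have h3 : H 1 = 1 := h2 (by simp)
  simp only [H, f, g, T, one_smul, one_pow, one_mul] at h3
  rw [Complex.exp_neg]
  exact eq_inv_of_mul_eq_one_left h3

theorem summable_tr_of_norm_lt {A : Nuc ι} (h : ‖A‖ < 1) :
    Summable fun n : ℕ => ‖tr (npw A n)‖ / (n + 1) := by
  refine Summable.of_nonneg_of_le (fun n => by positivity) (fun n => ?_)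
    ((summable_nat_add_iff 1).2 (summable_geometric_of_lt_one (norm_nonneg A) h))
  refine (div_le_self (norm_nonneg _) (by linarith [Nat.cast_nonneg (α := ℝ) n])).trans ?_
  exact (norm_tr_le _).trans (norm_npw_le A n)

end Pool.Agent.Lib.MP_de7bb2_an
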