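import Pool.Agent.Lib.MP_de7bb2_an.H20Ext

/-! Equivariance of the total boundary functional. TASK EQUI. -/

namespace Pool.Agent.Lib.MP_de7bb2_an

open Metric Set Complex Filter

variable {G : ℕ}

/-- No resonance with the closed geodesics carried by the walls. -/
def NR (s : ℂ) (x : L G → ℂ) : Prop := ∀ (j : L G) (e : ℂ), (e = 1 ∨ e = -1) →
  exp (e * (x (j + 1) - x (j - 1)) - s * lw G) ≠ 1 ∧
    (e * (x (j + 1) - x (j - 1)) - s * lw G).re < lw G

theorem NR.neg {s : ℂ} {x : L G → ℂ} (h : NR s x) : NR s (-x) := by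
  intro j e he
  have h1 : e * ((-x) (j + 1) - (-x) (j - 1)) = -e * (x (j + 1) - x (j - 1)) := by
    simp only [Pi.neg_apply]
    ring
  rw [h1]
  exact h j (-e) (by rcases he with rfl | rfl <;> simp)

theorem isOpen_NR : IsOpen {p : ℂ × (L G → ℂ) | NR p.1 p.2} := by
  have h : {p : ℂ × (L G → ℂ) | NR p.1 p.2} = ⋂ j : L G, ⋂ e ∈ ({1, -1} : Set ℂ),
      {p : ℂ × (L G → ℂ) | exp (e * (p.2 (j + 1) - p.2 (j - 1)) - p.1 * lw G) ≠ 1} ∩
        {p : ℂ × (L G → ℂ) | (e * (p.2 (j + 1) - p.2 (j - 1)) - p.1 * lw G).re < lw G} := by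
    ext p
    simp only [NR, mem_ofPred_eq, mem_iInter, mem_inter_iff, mem_insert_iff, mem_singleton_iff]
  rw [h]
  refine isOpen_iInter_of_finite fun j => (Set.toFinite _).isOpen_biInter fun e _ => ?_
  exact (isOpen_ne_fun (by fun_prop) continuous_const).inter
    (isOpen_lt (by fun_prop) continuous_const)

namespace Equi

open Topology

theorem seq_zero {E t : ℂ} {l C : ℝ} {B : ℕ → ℂ} (h1 : exp t ≠ 1) (h2 : t.re < l)
    (hE : ∀ᶠ j : ℕ in atTop, E = exp (j * t) * B j)
    (hB : ∀ᶠ j : ℕ in atTop, ‖B (j + 1) - B j‖ ≤ C * Real.exp (-(j * l))) : E = 0 := by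
  have hE' := (tendsto_add_atTop_nat 1).eventually hE
  have key : ∀ᶠ j : ℕ in atTop,
      ‖(1 - exp t) * E‖ ≤ C * Real.exp t.re * Real.exp (t.re - l) ^ j := by
    filter_upwards [hE, hE', hB] with j a1 a2 a3
    have e1 : exp (((j + 1 : ℕ) : ℂ) * t) = exp t * exp (j * t) := by
      rw [← Complex.exp_add]
      congr 1
      push_cast
      ring
    have e2 : (1 - exp t) * E = exp t * exp (j * t) * (B (j + 1) - B j) := by
      rw [e1] at a2
      linear_combination a2 - exp t * a1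
    have e3 : Real.exp (t.re - l) ^ j = Real.exp (j * t.re) * Real.exp (-(j * l)) := by
      rw [← Real.exp_nat_mul, ← Real.exp_add]
      congr 1
      ring
    have e4 : ((j : ℂ) * t).re = j * t.re := by simp
    rw [e2, norm_mul, norm_mul, norm_exp, norm_exp, e3, e4]
    have := mul_le_mul_of_nonneg_left a3
      (mul_pos (Real.exp_pos t.re) (Real.exp_pos (j * t.re))).le
    linarith
  have h0 : Tendsto (fun j : ℕ => C * Real.exp t.re * Real.exp (t.re - l) ^ j) atTop (𝓝 0) := by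
    have := (tendsto_pow_atTop_nhds_zero_of_lt_one (Real.exp_pos (t.re - l)).le
      (Real.exp_lt_one_iff.2 (by linarith))).const_mul (C * Real.exp t.re)
    simpa using this
  have h3 := ge_of_tendsto h0 key
  have h4 : (1 - exp t) * E = 0 := norm_le_zero_iff.1 h3
  exact (mul_eq_zero.1 h4).resolve_left (sub_ne_zero.2 h1.symm)

variable {s : ℂ} {F : V → ℂ}

theorem hom_all (hF : Test s F) {r : ℝ} (hr : 0 < r) (E : V) :
    F ((r : ℂ) • E) = exp (-s * Real.log r) * F E := by
  obtain ⟨Z, f, -, hf, rfl⟩ := hF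
  have hr' : (r : ℂ) ≠ 0 := ofReal_ne_zero.2 hr.ne'
  simp only [br_smul_left]
  rw [hf.1 _ hr', ← mul_assoc]
  congr 1
  by_cases h0 : br E Z = 0
  · by_cases hs : s = 0
    · simp [hs]
    · rw [h0, mul_zero, zero_cpow (neg_ne_zero.2 hs), mul_zero]
  · rw [cpow_def_of_ne_zero (mul_ne_zero hr' h0), cpow_def_of_ne_zero h0, log_ofReal_mul hr h0,
      ← Complex.exp_add]
    congr 1
    ring

theorem slit_mul {a : ℂ} (ha : a ∈ slitPlane) {r : ℝ} (hr : 0 < r) : a * r ∈ slitPlane := by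
  rw [mem_slitPlane_iff] at ha ⊢
  rcases ha with h | h
  · left
    simpa using mul_pos h hr
  · right
    simpa using ⟨h, hr.ne'⟩

theorem diff_near (hF : Test s F) {Y : V} (hY : Nul Y) {a : ℂ} (ha : a ∈ slitPlane) :
    ∀ᶠ E in 𝓝 (a • Y), DifferentiableAt ℂ F E := by
  obtain ⟨Z, f, hZ, hf, rfl⟩ := hF
  have ha0 : a ≠ 0 := slitPlane_ne_zero ha
  have h1 : br (a • Y) Z ∈ slitPlane := by
    rw [br_smul_left, br_eq_ofReal hY.1 hZ.1]
    exact slit_mul ha (Ext.br_pos hZ hY)
  have h2 : ∀ᶠ E in 𝓝 (a • Y), br E Z ∈ slitPlane :=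
    (Ext.cont_br Z).continuousAt.eventually (isOpen_slitPlane.mem_nhds h1)
  have h3 : Tendsto (fun E : V => a⁻¹ • E) (𝓝 (a • Y)) (𝓝 Y) := by
    have : Continuous fun E : V => a⁻¹ • E := by fun_prop
    have h4 := this.tendsto (a • Y)
    rwa [inv_smul_smul₀ ha0] at h4
  have h5 : f = fun E => f (a⁻¹ • E) := funext fun E => (hf.1 _ (inv_ne_zero ha0) E).symm
  filter_upwards [h2, h3.eventually (hf.2 Y hY)] with E a1 a2
  refine ((Ext.diff_br Z E).cpow_const a1).mul ?_
  rw [h5]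
  exact a2.comp E (by fun_prop : DifferentiableAt ℂ (fun E : V => a⁻¹ • E) E)

theorem lip (hF : Test s F) {Y : V} (hY : Nul Y) {a : ℂ → ℂ} (hc : Continuous a)
    (ha : ∀ η : ℂ, ‖η‖ = 1 → a η ∈ slitPlane) : ∃ δ > 0, ∃ C, 0 ≤ C ∧ ∀ η : ℂ, ‖η‖ = 1 → ∀ E,
      ‖E - a η • Y‖ < δ → ContinuousAt F E ∧ ‖F E - F (a η • Y)‖ ≤ C * ‖E - a η • Y‖ := by
  have hK : IsCompact ((fun η => a η • Y) '' sphere (0 : ℂ) 1) :=
    (isCompact_sphere 0 1).image (by fun_prop)
  have hU : (fun η => a η • Y) '' sphere (0 : ℂ) 1 ⊆ interior {E | DifferentiableAt ℂ F E} := by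
    rintro _ ⟨η, hη, rfl⟩
    exact mem_interior_iff_mem_nhds.2 (diff_near hF hY (ha η (mem_sphere_zero_iff_norm.1 hη)))
  obtain ⟨δ, hδ, hs⟩ := hK.exists_cthickening_subset_open isOpen_interior hU
  have hd : ∀ E ∈ cthickening δ ((fun η => a η • Y) '' sphere (0 : ℂ) 1),
      DifferentiableAt ℂ F E := fun E hE =>
    interior_subset (s := {E | DifferentiableAt ℂ F E}) (hs hE)
  obtain ⟨M, hM⟩ := (hK.cthickening (r := δ)).exists_bound_of_continuousOn
    fun E hE => (hd E hE).continuousAt.continuousWithinAt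
  refine ⟨δ, hδ, 2 * |M| / δ, by positivity, fun η hη E hE => ?_⟩
  have hb : ball (a η • Y) δ ⊆ cthickening δ ((fun η => a η • Y) '' sphere (0 : ℂ) 1) :=
    ball_subset_closedBall.trans
      (closedBall_subset_cthickening
        (mem_image_of_mem (fun η => a η • Y) (mem_sphere_zero_iff_norm.2 hη)) δ)
  have hE' : E ∈ ball (a η • Y) δ := mem_ball_iff_norm.2 hE
  refine ⟨(hd E (hb hE')).continuousAt, ?_⟩
  have := dist_le_div_mul_dist_of_mapsTo_ball (f := F) (R₂ := 2 * |M|)
    (fun E hE => (hd E (hb hE)).differentiableWithinAt) (fun E hE => by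
      rw [mem_closedBall, dist_eq_norm]
      have a1 := hM E (hb hE)
      have a2 := hM _ (hb (mem_ball_self hδ))
      have a3 := norm_sub_le (F E) (F (a η • Y))
      have a4 := le_abs_self M
      linarith) hE'
  simpa only [dist_eq_norm] using this

theorem cross_smul (c d : ℂ) (X Y : V) : cross (c • X) (d • Y) = (c * d) • cross X Y := by
  simp only [cross, Prod.smul_mk, Prod.smul_fst, Prod.smul_snd, smul_eq_mul]
  refine Prod.ext ?_ (Prod.ext ?_ ?_) <;> simp only <;> ring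

variable [hG : Fact (2 ≤ G)] {o o' e : L G}

theorem eig_aux {k : ℝ} (hk : 0 < k) (h : br (wn o) (wn o') = ((k + k⁻¹) / 2 : ℝ)) :
    Nul (wn o + (k : ℂ) • wn o') ∧
      mir o (mir o' (wn o + (k : ℂ) • wn o')) = ((k⁻¹ ^ 2 : ℝ) : ℂ) • (wn o + (k : ℂ) • wn o') := by
  have hk' : (k : ℂ) ≠ 0 := ofReal_ne_zero.2 hk.ne'
  have h' : br (wn o') (wn o) = ((k + k⁻¹) / 2 : ℝ) := by rw [br_comm, h]
  refine ⟨⟨(isRe_wn o).add ((isRe_wn o').smul k), ?_, ?_⟩, ?_⟩
  · have h1 : (wn o + (k : ℂ) • wn o').1.re = c0 G / s0 G + k * (c0 G / s0 G) := by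
      simp only [wn, Prod.fst_add, Prod.smul_fst, smul_eq_mul, add_re, ← ofReal_mul, ofReal_re]
    have h2 := c0_pos (G := G)
    have h3 := s0_pos (G := G)
    rw [h1]
    positivity
  · simp only [br_add_left, br_add_right, br_smul_left, br_smul_right, br_wn_self, h, h']
    push_cast
    field_simp
    ring
  · simp only [mir, reflL_apply, br_add_left, br_smul_left, br_wn_self, h, h']
    push_cast
    match_scalars <;> field_simp <;> ring

theorem exists_eig (h : br (wn o) (wn o') = (Real.cosh (lw G / 2) : ℝ)) :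
    ∃ X Y : V, Nul X ∧ Nul Y ∧ br X Y = 2 ∧
      mir o (mir o' X) = ((Real.exp (lw G) : ℝ) : ℂ) • X ∧
      mir o (mir o' Y) = ((Real.exp (-lw G) : ℝ) : ℂ) • Y := by
  set k := Real.exp (lw G / 2) with hk
  have hk1 : 1 < k := Real.one_lt_exp_iff.2 (half_pos lw_pos)
  have hk0 : 0 < k := one_pos.trans hk1
  have h1 : br (wn o) (wn o') = ((k + k⁻¹) / 2 : ℝ) := by
    rw [h, Real.cosh_eq, Real.exp_neg]
  have h1' : br (wn o') (wn o) = ((k + k⁻¹) / 2 : ℝ) := by rw [br_comm, h1]
  obtain ⟨a1, a2⟩ := eig_aux hk0 h1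
  obtain ⟨b1, b2⟩ := eig_aux (o := o) (o' := o') (inv_pos.2 hk0) (by rw [h1, inv_inv, add_comm])
  have e1 : k ^ 2 = Real.exp (lw G) := by
    rw [hk, ← Real.exp_nat_mul]
    congr 1
    push_cast
    ring
  have e2 : k⁻¹ ^ 2 = Real.exp (-lw G) := by rw [inv_pow, e1, Real.exp_neg]
  have hp : 0 < k ^ 2 - 1 := by nlinarith
  have hr : 0 < 4 * k ^ 2 / (k ^ 2 - 1) ^ 2 := by positivity
  refine ⟨_, _, b1.smul hr, a1, ?_, ?_, by rw [a2, e2]⟩
  · have hk' : (k : ℂ) ≠ 0 := ofReal_ne_zero.2 hk0.ne'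
    have hp' : (k : ℂ) ^ 2 - 1 ≠ 0 := by exact_mod_cast hp.ne'
    simp only [br_add_left, br_add_right, br_smul_left, br_smul_right, br_wn_self, h1, h1']
    push_cast
    field_simp
    ring
  · rw [map_smul, map_smul, b2, inv_inv, e1, smul_comm]

theorem lin_pow {γ : W G} {X : V} {c : ℂ} (h : lin γ X = c • X) (j : ℕ) :
    lin (γ ^ j) X = c ^ j • X := by
  induction j with
  | zero => simp
  | succ j ih => rw [pow_succ, lin_mul, h, map_smul, ih, smul_smul, pow_succ']

/-- The rescaled iterates. -/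
noncomputable def Yj (γ : W G) (j : ℕ) (Z : V) : V :=
  ((Real.exp (-(j * lw G)) : ℝ) : ℂ) • lin (γ ^ j) Z

variable {b : ZMod 2}

theorem side_rep (D : Nest G b) (h1 : Edge b o o') (h2 : Edge b o' o) {Y : V} (hY : Nul Y) {r : ℝ}
    (hr : r ≤ 1) (h : mir o (mir o' Y) = (r : ℂ) • Y) : side Y (nu (D.τ o * D.R) o) ≤ 0 := by
  by_contra hc
  push Not at hc
  have hf := (iso_refl o').fut Y hY.fut
  have c1 := D.cert o' o h2 _ (Word.R_mem D) _ (Word.R_mem D) Y hY.fut
  have c2 := D.cert o o' h1 _ (Word.R_mem D) _ (Word.R_mem D) _ hf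
  rw [h, side_smul] at c2
  have c3 : 0 ≤ D.κ * (mir o' Y).1.re := mul_nonneg D.κ_pos.le ((norm_nonneg _).trans hf.2)
  have c4 : 0 < D.κ * Y.1.re := mul_pos D.κ_pos hY.2.1
  have c5 := D.one_lt_t
  set σ := side Y (nu (D.τ o * D.R) o)
  set σ' := side (mir o' Y) (nu (D.τ o' * D.R) o')
  have c6 : σ < σ' := by nlinarith
  nlinarith

theorem exists_rate (D : Nest G b) (h1 : Edge b o o') (h2 : Edge b o' o)
    (h : br (wn o) (wn o') = (Real.cosh (lw G / 2) : ℝ)) :
    ∃ (X : V) (a : ℂ → ℂ) (M : ℝ), Nul X ∧ Continuous a ∧ 0 ≤ M ∧ ∀ η : ℂ, ‖η‖ = 1 →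
      a η ∈ slitPlane ∧ ∀ j : ℕ, ‖Yj (sr o * sr o') j (Xi (D.τ o) o η) - a η • X‖ ≤
        M * Real.exp (-(j * lw G)) := by
  obtain ⟨X, Y, hX, hY, hXY, eX, eY⟩ := exists_eig h
  have hl := lw_pos (G := G)
  have cX := (differentiable_Xi (D.τ o) o).continuous
  have hs := side_rep D h1 h2 hY (Real.exp_le_one_iff.2 (by linarith)) eY
  have eW : mir o (mir o' (cross Y X)) = cross Y X := by
    have a1 := cross_reflL (br_wn_self o') Y X
    have a2 := cross_reflL (br_wn_self o) (mir o' Y) (mir o' X)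
    change cross (mir o' Y) (mir o' X) = -mir o' (cross Y X) at a1
    change cross (mir o (mir o' Y)) (mir o (mir o' X)) =
      -mir o (cross (mir o' Y) (mir o' X)) at a2
    rw [a1, map_neg, neg_neg, eX, eY, cross_smul, ← ofReal_mul, ← Real.exp_add] at a2
    simpa using a2.symm
  obtain ⟨M1, hM1⟩ := (isCompact_sphere (0 : ℂ) 1).exists_bound_of_continuousOn
    (f := fun η => (br (Xi (D.τ o) o η) X / 2) • Y) (Continuous.continuousOn (by fun_prop))
  obtain ⟨M2, hM2⟩ := (isCompact_sphere (0 : ℂ) 1).exists_bound_of_continuousOn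
    (f := fun η => (br (Xi (D.τ o) o η) (cross Y X) / 4) • cross Y X)
    (Continuous.continuousOn (by fun_prop))
  refine ⟨X, fun η => br (Xi (D.τ o) o η) Y / 2, |M1| + |M2|, hX, by fun_prop, by positivity,
    fun η hη => ⟨?_, fun j => ?_⟩⟩
  · have a1 := slit_of_side_nul (D.τ_pos o) (one_pos.trans D.one_lt_R) hY hs
      (η := η) (by rw [hη]; exact D.one_lt_R)
    have a2 := slit_mul a1 (r := 1 / 2) one_half_pos
    have a3 : br (Xi (D.τ o) o η) Y * ((1 / 2 : ℝ) : ℂ) = br (Xi (D.τ o) o η) Y / 2 := by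
      push_cast
      ring
    rwa [a3] at a2
  · set Z := Xi (D.τ o) o η
    set r := Real.exp (-(j * lw G)) with hr
    have r0 : 0 < r := Real.exp_pos _
    have r1 : r ≤ 1 := Real.exp_le_one_iff.2 (neg_nonpos.2 (by positivity))
    have pX := lin_pow (γ := sr o * sr o') (by rw [lin_mul, lin_sr, lin_sr, eX]) j
    have pY := lin_pow (γ := sr o * sr o') (by rw [lin_mul, lin_sr, lin_sr, eY]) j
    have pW := lin_pow (γ := sr o * sr o') (X := cross Y X) (c := 1)
      (by rw [lin_mul, lin_sr, lin_sr, eW, one_smul]) j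
    have q1 : ((Real.exp (lw G) : ℝ) : ℂ) ^ j = (r : ℂ)⁻¹ := by
      rw [← ofReal_pow, ← ofReal_inv, hr, ← Real.exp_neg, neg_neg, Real.exp_nat_mul]
    have q2 : ((Real.exp (-lw G) : ℝ) : ℂ) ^ j = (r : ℂ) := by
      rw [← ofReal_pow, hr, ← Real.exp_nat_mul, mul_neg]
    have r0' : (r : ℂ) ≠ 0 := ofReal_ne_zero.2 r0.ne'
    have e1 : Yj (sr o * sr o') j Z - (br Z Y / 2) • X = (r : ℂ) •
        ((r : ℂ) • (br Z X / 2) • Y - (br Z (cross Y X) / 4) • cross Y X) := by
      have a1 := congrArg (lin ((sr o * sr o') ^ j)) (frame_decomp hX.2.2 hY.2.2 hXY Z)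
      rw [map_sub, map_add, map_smul, map_smul, map_smul, pX, pY, pW, q1, q2, one_pow] at a1
      rw [Yj, ← hr, a1]
      match_scalars <;> field_simp <;> ring
    have n1 := hM1 η (mem_sphere_zero_iff_norm.2 hη)
    have n2 := hM2 η (mem_sphere_zero_iff_norm.2 hη)
    have nr : ‖(r : ℂ)‖ = r := by rw [norm_real, Real.norm_eq_abs, abs_of_pos r0]
    have n3 := norm_sub_le ((r : ℂ) • (br Z X / 2) • Y) ((br Z (cross Y X) / 4) • cross Y X)
    rw [norm_smul (r : ℂ), nr] at n3
    rw [e1, norm_smul, nr, mul_comm]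
    refine mul_le_mul_of_nonneg_right (n3.trans ?_) r0.le
    have n4 := mul_le_of_le_one_left (norm_nonneg ((br Z X / 2) • Y)) r1
    have n5 := le_abs_self M1
    have n6 := le_abs_self M2
    linarith

variable {D : Nest G b} {x : L G → ℂ} {μ : Vec (St G × ℕ)}

theorem ev_rate (hF : Test s F) (h1 : Edge b o o') (h2 : Edge b o' o)
    (h : br (wn o) (wn o') = (Real.cosh (lw G / 2) : ℝ)) (D : Nest G b) (μ : Vec (St G × ℕ))
    (σ : St G) : ∃ C, ∀ᶠ j : ℕ in atTop,
      ‖ev μ σ (fun η => F (Yj (sr o * sr o') (j + 1) (Xi (D.τ o) o η))) -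
        ev μ σ (fun η => F (Yj (sr o * sr o') j (Xi (D.τ o) o η)))‖ ≤
        C * Real.exp (-(j * lw G)) := by
  obtain ⟨X, a, M, hX, ha, hM, hr⟩ := exists_rate D h1 h2 h
  obtain ⟨δ, hδ, C, hC, hl⟩ := lip hF hX ha fun η hη => (hr η hη).1
  have hw := lw_pos (G := G)
  have t0 : Tendsto (fun j : ℕ => M * Real.exp (-(j * lw G))) atTop (𝓝 0) := by
    have := (Real.tendsto_exp_atBot.comp (tendsto_neg_atTop_atBot.comp
      (tendsto_natCast_atTop_atTop.atTop_mul_const hw))).const_mul M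
    simpa using this
  have t1 := t0.eventually (gt_mem_nhds hδ)
  have cX := (differentiable_Xi (D.τ o) o).continuous
  have hc : ∀ j : ℕ, M * Real.exp (-(j * lw G)) < δ →
      ContinuousOn (fun η => F (Yj (sr o * sr o') j (Xi (D.τ o) o η))) (sphere 0 1) := by
    intro j hj η hη
    have hη' := mem_sphere_zero_iff_norm.1 hη
    have c1 : Continuous fun η => Yj (sr o * sr o') j (Xi (D.τ o) o η) := by
      unfold Yj
      fun_prop
    exact (ContinuousAt.comp (f := fun η => Yj (sr o * sr o') j (Xi (D.τ o) o η))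
      (hl η hη' _ (((hr η hη').2 j).trans_lt hj)).1 c1.continuousAt).continuousWithinAt
  refine ⟨‖μ‖ * (2 * C * M), ?_⟩
  filter_upwards [t1, (tendsto_add_atTop_nat 1).eventually t1] with j a1 a2
  rw [← ev_sub μ σ (hc _ a2) (hc _ a1), mul_assoc]
  refine norm_ev_le μ σ fun η hη => ?_
  have b1 := (hr η hη).2 j
  have b2 := (hr η hη).2 (j + 1)
  have b3 := (hl η hη _ (b1.trans_lt a1)).2
  have b4 := (hl η hη _ (b2.trans_lt a2)).2
  have b5 : Real.exp (-(((j + 1 : ℕ) : ℝ) * lw G)) ≤ Real.exp (-(j * lw G)) := by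
    refine Real.exp_le_exp.2 ?_
    push_cast
    nlinarith
  have b6 := mul_le_mul_of_nonneg_left b1 hC
  have b7 := mul_le_mul_of_nonneg_left (b2.trans (mul_le_mul_of_nonneg_left b5 hM)) hC
  have b8 := norm_sub_le_norm_sub_add_norm_sub (F (Yj (sr o * sr o') (j + 1) (Xi (D.τ o) o η)))
    (F (a η • X)) (F (Yj (sr o * sr o') j (Xi (D.τ o) o η)))
  rw [norm_sub_rev (F (a η • X))] at b8
  linarith

theorem good_pred {N : ℕ} {g : W G} {m m' : L G} (h : Good D (N + 1) g m F) (he : Edge b m m') :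
    Good D N (g * sr m) m' F := by
  intro u hu hm hl
  have hne : u ≠ [] := by
    rintro rfl
    simp at hl
  have hA : Adm b (m :: u) := by
    obtain ⟨a, v, rfl⟩ := List.exists_cons_of_ne_nil hne
    have : a = m' := hm
    exact Grp.adm_cons_cons.2 ⟨this ▸ he, hu⟩
  have h1 := h (m :: u) hA rfl (by rw [List.length_cons]; omega)
  simp only [D.lift_cons m hne] at h1
  simpa only [lin_mul, lin_sr] using h1

theorem good_pow (h1 : Edge b o o') (h2 : Edge b o' o) (j : ℕ) :
    ∀ g : W G, Good D j g o F → Good D 0 (g * (sr o * sr o') ^ j) o F := by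
  induction j with
  | zero => intro g hg; simpa using hg
  | succ j ih =>
    intro g hg
    have := ih _ ((good_pred hg h1).step h2)
    rwa [mul_assoc g, mul_assoc g, ← pow_succ'] at this

omit hG in
theorem cl_pow {γ : W G} (hγ : cl γ = 0) (g : W G) (j : ℕ) : cl (g * γ ^ j) = cl g := by
  induction j with
  | zero => simp
  | succ j ih => rw [pow_succ, ← mul_assoc, cl_mul, ih, hγ, add_zero]

omit hG in
theorem Th_pow {γ : W G} (hγ : cl γ = 0) (x : L G → ℂ) (g : W G) (j : ℕ) :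
    Th x (g * γ ^ j) = Th x g + j * (Th x (g * γ) - Th x g) := by
  induction j with
  | zero => simp
  | succ j ih =>
    have := Th_sub_congr x (cl_pow hγ g j) γ
    rw [pow_succ, ← mul_assoc]
    push_cast
    linear_combination this + ih

theorem piece_pow (h : Fixd D s x μ) (hF : Test s F) (h1 : Edge b o o') (h2 : Edge b o' o)
    (hc : cl (sr o * sr o') = 0) (g : W G) : ∀ᶠ j : ℕ in atTop,
      piece D x μ (g * (sr o * sr o') ^ j) o F =
        exp (j * (Th x (g * (sr o * sr o')) - Th x g - s * lw G)) * (exp (Th x g) *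
          ev μ (cl g, o) fun η => F (lin g (Yj (sr o * sr o') j (Xi (D.τ o) o η)))) := by
  obtain ⟨N, hN⟩ := hF.good D g
  filter_upwards [eventually_ge_atTop N] with j hj
  have e1 : ∀ Z, F (lin (g * (sr o * sr o') ^ j) Z) =
      exp (-s * (j * lw G)) * F (lin g (Yj (sr o * sr o') j Z)) := by
    intro Z
    rw [Yj, map_smul, hom_all hF (Real.exp_pos _), Real.log_exp, lin_mul, ← mul_assoc,
      ← Complex.exp_add]
    push_cast
    simp
  rw [piece_eq_lev h hF.hom (good_pow h1 h2 j g (Ext.good_mono (hN o) hj)) le_rfl, levG_zero,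
    cl_pow hc, Th_pow hc]
  simp only [e1]
  rw [ev_const_mul, ← mul_assoc (exp _), ← mul_assoc (exp _), ← Complex.exp_add,
    ← Complex.exp_add]
  congr 2
  ring

omit hG in
theorem edge_pri (ho : par o = b) (m : L G) : Edge b o m ↔ o ≠ m :=
  ⟨fun h => h.1, fun h => ⟨h, fun h' => absurd ho h'⟩⟩

theorem step_pri (h : Fixd D s x μ) (hF : Test s F) (ho : par o = b) (g : W G) :
    piece D x μ g o F + piece D x μ (g * sr o) o F = ∑ m, piece D x μ (g * sr o) m F := by
  rw [piece_step h hF g o, ← Finset.add_sum_erase _ _ (Finset.mem_univ o),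
    ← Finset.add_sum_erase _ _ (Finset.mem_univ o), if_neg fun h => h.1 rfl, zero_add, add_comm]
  congr 1
  exact Finset.sum_congr rfl fun m hm =>
    if_pos ((edge_pri ho m).2 (Finset.ne_of_mem_erase hm).symm)

theorem step_non (h : Fixd D s x μ) (hF : Test s F) (he : par e ≠ b) (g : W G) :
    piece D x μ g e F + piece D x μ (g * sr e) e F + piece D x μ (g * sr e) (e + 1) F +
      piece D x μ (g * sr e) (e - 1) F = ∑ m, piece D x μ (g * sr e) m F := by
  have n1 := ArcAux.ne_succ e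
  have n2 := ArcAux.ne_pred e
  have n3 := (far_succ_pred e).1
  have key : ∀ m, piece D x μ (g * sr e) m F =
      (if Edge b e m then piece D x μ (g * sr e) m F else 0) +
      (if e = m then piece D x μ (g * sr e) m F else 0) +
      (if e + 1 = m then piece D x μ (g * sr e) m F else 0) +
      (if e - 1 = m then piece D x μ (g * sr e) m F else 0) := by
    intro m
    rcases Grp.cases_letter e m with rfl | rfl | rfl | hf
    · rw [if_neg fun h => h.1 rfl, if_pos rfl, if_neg n1.symm, if_neg n2.symm]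
      ring
    · rw [if_neg fun h => (h.2 he).1 rfl, if_neg n1, if_pos rfl, if_neg n3.symm]
      ring
    · rw [if_neg fun h => (h.2 he).2 rfl, if_neg n2, if_neg n3, if_pos rfl]
      ring
    · rw [if_pos (hf.edge b), if_neg hf.1, if_neg hf.2.1.symm, if_neg hf.2.2.symm]
      ring
  rw [Finset.sum_congr rfl fun m _ => key m, piece_step h hF g e]
  simp only [Finset.sum_add_distrib, Finset.sum_ite_eq, Finset.mem_univ, if_true]

/-- The two neighbours of a letter. -/
def Nb (e o o' : L G) : Prop := (o = e + 1 ∧ o' = e - 1) ∨ (o = e - 1 ∧ o' = e + 1)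

omit hG in
theorem Nb.symm (h : Nb e o o') : Nb e o' o := Or.symm (h.imp And.symm And.symm)

omit hG in
theorem Nb.comm (h : Nb e o o') : sr e * sr o = sr o * sr e := by
  rcases h with ⟨rfl, -⟩ | ⟨rfl, -⟩
  exacts [sr_comm e, sr_comm' e]

omit hG in
theorem Nb.par_eq (h : Nb e o o') : par o = par e + 1 := by
  rcases h with ⟨rfl, -⟩ | ⟨rfl, -⟩
  exacts [par_add_one e, par_sub_one e]

theorem Nb.ne (h : Nb e o o') : o ≠ o' := by
  rcases h with ⟨rfl, rfl⟩ | ⟨rfl, rfl⟩
  exacts [(far_succ_pred e).1, (far_succ_pred e).1.symm]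

theorem Nb.br_eq (h : Nb e o o') : br (wn o) (wn o') = (Real.cosh (lw G / 2) : ℝ) := by
  rcases h with ⟨rfl, rfl⟩ | ⟨rfl, rfl⟩
  exacts [br_wn_two e, (br_comm _ _).trans (br_wn_two e)]

omit hG in
theorem Nb.non (h : Nb e o o') (ho : par o = b) : par e ≠ b := by
  rw [← ho, h.par_eq]
  exact (Grp.add_one_ne _).symm

omit hG in
theorem Nb.pri (h : Nb e o o') (ho : par o = b) : par o' = b := by
  rw [h.symm.par_eq, ← h.par_eq, ho]

theorem step_nb (h : Fixd D s x μ) (hF : Test s F) (hn : Nb e o o') (ho : par o = b) (g : W G) :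
    piece D x μ g e F + piece D x μ (g * sr e) e F + piece D x μ (g * sr e) o F +
      piece D x μ (g * sr e) o' F = ∑ m, piece D x μ (g * sr e) m F := by
  have := step_non h hF (hn.non ho) g
  rcases hn with ⟨rfl, rfl⟩ | ⟨rfl, rfl⟩
  · exact this
  · rw [← this]
    ring

theorem defect_step (h : Fixd D s x μ) (hF : Test s F) (hn : Nb e o o') (ho : par o = b)
    (g : W G) : piece D x μ g o F - piece D x μ (g * sr e) o F =
      piece D x μ (g * sr o) o' F - piece D x μ (g * sr o * sr e) o' F := by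
  have a1 := step_pri h hF ho g
  have a2 := step_pri h hF ho (g * sr e)
  have a3 := step_nb h hF hn ho (g * sr o)
  have a4 := step_nb h hF hn ho (g * sr o * sr e)
  rw [mul_assoc g, hn.comm, ← mul_assoc] at a2
  rw [mul_assoc (g * sr o), sr_mul_self, mul_one] at a4
  linear_combination a1 - a2 + a3 - a4

theorem defect_pow (h : Fixd D s x μ) (hF : Test s F) (hn : Nb e o o') (ho : par o = b)
    (g : W G) (j : ℕ) : piece D x μ g o F - piece D x μ (g * sr e) o F =
      piece D x μ (g * (sr o * sr o') ^ j) o F -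
        piece D x μ (g * (sr o * sr o') ^ j * sr e) o F := by
  induction j with
  | zero => simp
  | succ j ih =>
    rw [ih, defect_step h hF hn ho, defect_step h hF hn.symm (hn.pri ho), pow_succ]
    simp only [mul_assoc]

theorem defect_zero (h : Fixd D s x μ) (hN : NR s x) (hF : Test s F) (hn : Nb e o o')
    (ho : par o = b) (g : W G) : piece D x μ g o F - piece D x μ (g * sr e) o F = 0 := by
  have h1 : Edge b o o' := (edge_pri ho _).2 hn.ne
  have h2 : Edge b o' o := (edge_pri (hn.pri ho) _).2 hn.ne.symm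
  have hc : cl (sr o * sr o') = 0 := by
    rw [cl_mul, cl_sr, cl_sr, Hom.clL_congr ((hn.pri ho).trans ho.symm), clL_add_self]
  have hm : Commute (sr e) (sr o * sr o') := Commute.mul_right hn.comm hn.symm.comm
  have ht : Th x (g * sr e * (sr o * sr o')) - Th x (g * sr e) =
      Th x (g * (sr o * sr o')) - Th x g := by
    rw [mul_assoc, hm.eq, ← mul_assoc, Th_step, Th_step, cl_mul, hc, add_zero]
    ring
  obtain ⟨ε, hε, ht'⟩ : ∃ ε : ℂ, (ε = 1 ∨ ε = -1) ∧
      Th x (g * (sr o * sr o')) - Th x g = ε * (x (e + 1) - x (e - 1)) := by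
    obtain ⟨ε, a1, a2, a3⟩ := Th_wall x g e
    rcases hn with ⟨rfl, rfl⟩ | ⟨rfl, rfl⟩
    · exact ⟨ε, a1, a2⟩
    · exact ⟨-ε, by rcases a1 with rfl | rfl <;> simp, a3⟩
  obtain ⟨C1, c1⟩ := ev_rate (hF.comp g) h1 h2 hn.br_eq D μ (cl g, o)
  obtain ⟨C2, c2⟩ := ev_rate (hF.comp (g * sr e)) h1 h2 hn.br_eq D μ (cl (g * sr e), o)
  refine seq_zero (C := ‖exp (Th x g)‖ * C1 + ‖exp (Th x (g * sr e))‖ * C2)
    (B := fun j => exp (Th x g) *
      ev μ (cl g, o) (fun η => F (lin g (Yj (sr o * sr o') j (Xi (D.τ o) o η)))) -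
      exp (Th x (g * sr e)) * ev μ (cl (g * sr e), o)
        fun η => F (lin (g * sr e) (Yj (sr o * sr o') j (Xi (D.τ o) o η))))
    (hN e ε hε).1 (hN e ε hε).2 ?_ ?_
  · filter_upwards [piece_pow h hF h1 h2 hc g, piece_pow h hF h1 h2 hc (g * sr e)] with j a1 a2
    rw [defect_pow h hF hn ho g j, mul_assoc g, ← (hm.pow_right j).eq, ← mul_assoc, a1, a2, ht,
      ht']
    ring
  · filter_upwards [c1, c2] with j a1 a2
    have b1 := mul_le_mul_of_nonneg_left a1 (norm_nonneg (exp (Th x g)))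
    have b2 := mul_le_mul_of_nonneg_left a2 (norm_nonneg (exp (Th x (g * sr e))))
    rw [← norm_mul] at b1 b2
    refine le_trans (le_of_eq ?_) ((norm_sub_le _ _).trans ((add_le_add b1 b2).trans_eq ?_))
    · congr 1
      ring
    · ring

end Equi

variable [hG : Fact (2 ≤ G)] {b : ZMod 2} {D : Nest G b} {s : ℂ} {x : L G → ℂ}
  {μ : Vec (St G × ℕ)} {F : V → ℂ}

theorem nr_one_zero : NR (G := G) 1 0 := by
  intro j e _
  have hl := lw_pos (G := G)
  have h1 : e * ((0 : L G → ℂ) (j + 1) - (0 : L G → ℂ) (j - 1)) - 1 * (lw G : ℂ) =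
      ((-lw G : ℝ) : ℂ) := by simp
  rw [h1, ← ofReal_exp, ofReal_re]
  refine ⟨fun h => ?_, by linarith⟩
  have h2 : Real.exp (-lw G) = 1 := by exact_mod_cast h
  have h3 := Real.exp_eq_one_iff _ |>.1 h2
  linarith

theorem piece_comm (h : Fixd D s x μ) (hN : NR s x) (hF : Test s F) (g : W G) {o e : L G}
    (ho : par o = b) (he : e = o + 1 ∨ e = o - 1) :
    piece D x μ (g * sr e) o F = piece D x μ g o F := by
  obtain ⟨o', hn⟩ : ∃ o', Equi.Nb e o o' := by
    rcases he with rfl | rfl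
    · exact ⟨_, Or.inr ⟨by ring, rfl⟩⟩
    · exact ⟨_, Or.inl ⟨by ring, rfl⟩⟩
  exact (sub_eq_zero.1 (Equi.defect_zero h hN hF hn ho g)).symm

namespace Equi

theorem comm_succ (h : Fixd D s x μ) (hN : NR s x) (hF : Test s F) (g : W G) {m : L G}
    (hm : par m ≠ b) : piece D x μ (g * sr m) (m + 1) F = piece D x μ g (m + 1) F :=
  piece_comm h hN hF g (by rw [par_add_one, Grp.add_one_eq_of_ne hm]) (Or.inr (by ring))

theorem comm_pred (h : Fixd D s x μ) (hN : NR s x) (hF : Test s F) (g : W G) {m : L G}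
    (hm : par m ≠ b) : piece D x μ (g * sr m) (m - 1) F = piece D x μ g (m - 1) F :=
  piece_comm h hN hF g (by rw [par_sub_one, Grp.add_one_eq_of_ne hm]) (Or.inl (by ring))

end Equi

theorem sum_piece (h : Fixd D s x μ) (hN : NR s x) (hF : Test s F) (g : W G) :
    ∑ m, piece D x μ g m F = tot D x μ F := by
  induction g using W.induction_right with
  | h1 => rfl
  | hs g m ih =>
    rw [← ih]
    by_cases hm : par m = b
    · have a1 := Equi.step_pri h hF hm g
      have a2 := Equi.step_pri h hF hm (g * sr m)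
      rw [mul_assoc, sr_mul_self, mul_one] at a2
      linear_combination a2 - a1
    · have a1 := Equi.step_non h hF hm g
      have a2 := Equi.step_non h hF hm (g * sr m)
      rw [mul_assoc, sr_mul_self, mul_one] at a2
      rw [Equi.comm_succ h hN hF g hm, Equi.comm_pred h hN hF g hm] at a1
      linear_combination a2 - a1

theorem tot_left (h : Fixd D s x μ) (hN : NR s x) (hF : Test s F) {γ : W G} (hγ : γ ∈ Gam G) :
    tot D x μ F = exp (Th x γ) * tot D x μ fun E => F (lin γ E) := by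
  rw [← sum_piece h hN hF (γ * 1), tot, Finset.mul_sum]
  exact Finset.sum_congr rfl fun m _ => piece_left h hF hγ 1 m

theorem piece_pair_pri (h : Fixd D s x μ) (hN : NR s x) (hF : Test s F) (g : W G) {m : L G}
    (hm : par m = b) : piece D x μ g m F + piece D x μ (g * sr m) m F = tot D x μ F := by
  rw [Equi.step_pri h hF hm g, sum_piece h hN hF]

theorem piece_pair_non (h : Fixd D s x μ) (hN : NR s x) (hF : Test s F) (g : W G) {m : L G}
    (hm : par m ≠ b) : piece D x μ g m F + piece D x μ (g * sr m) m F + piece D x μ g (m + 1) F +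
      piece D x μ g (m - 1) F = tot D x μ F := by
  rw [← Equi.comm_succ h hN hF g hm, ← Equi.comm_pred h hN hF g hm, Equi.step_non h hF hm g,
    sum_piece h hN hF]

end Pool.Agent.Lib.MP_de7bb2_an
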