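import Pool.Agent.Lib.MP_de7bb2_an.H20Coef
import Pool.Agent.Lib.MP_de7bb2_an.H20Blk

/-! Analytic functionals given by their moments. TASK EV. -/

namespace Pool.Agent.Lib.MP_de7bb2_an

open Metric Set Filter Topology MeasureTheory Complex

variable {S : Type*} {H K : ℂ → ℂ} {R M : ℝ}

namespace EvT

theorem mk_inj (σ : S) : Function.Injective fun b : ℕ => (σ, b) :=
  fun _ _ h => (Prod.ext_iff.1 h).2

theorem summ_slice (μ : Vec (S × ℕ)) (σ : S) : Summable fun b => ‖μ (σ, b)‖ :=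
  (Vec.summable_norm μ).comp_injective (mk_inj σ)

theorem tsum_slice_le (μ : Vec (S × ℕ)) (σ : S) : ∑' b, ‖μ (σ, b)‖ ≤ ‖μ‖ := by
  rw [Vec.norm_eq]
  exact tsum_comp_le_tsum_of_inj (Vec.summable_norm μ) (fun _ => norm_nonneg _) (mk_inj σ)

theorem summ_mul (μ : Vec (S × ℕ)) (σ : S) {c : ℕ → ℂ} (h : ∀ b, ‖c b‖ ≤ M) :
    Summable fun b => ‖μ (σ, b) * c b‖ := by
  refine Summable.of_nonneg_of_le (fun _ => norm_nonneg _) (fun b => ?_)
    ((summ_slice μ σ).mul_right M)
  rw [norm_mul]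
  exact mul_le_mul_of_nonneg_left (h b) (norm_nonneg _)

theorem norm_tsum_mul_le (μ : Vec (S × ℕ)) (σ : S) {c : ℕ → ℂ} (h : ∀ b, ‖c b‖ ≤ M) :
    ‖∑' b, μ (σ, b) * c b‖ ≤ ‖μ‖ * M := by
  have hM : 0 ≤ M := (norm_nonneg _).trans (h 0)
  have h1 : ‖∑' b, μ (σ, b) * c b‖ ≤ ∑' b, ‖μ (σ, b)‖ * M := by
    refine tsum_of_norm_bounded ((summ_slice μ σ).mul_right M).hasSum fun b => ?_
    rw [norm_mul]
    exact mul_le_mul_of_nonneg_left (h b) (norm_nonneg _)
  rw [tsum_mul_right] at h1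
  exact h1.trans (mul_le_mul_of_nonneg_right (tsum_slice_le μ σ) hM)

theorem bdd (hH : ContinuousOn H (sphere 0 1)) : ∃ M, ∀ y : ℂ, ‖y‖ = 1 → ‖H y‖ ≤ M := by
  obtain ⟨M, hM⟩ := (isCompact_sphere (0 : ℂ) 1).exists_bound_of_continuousOn hH
  exact ⟨M, fun y hy => hM y (by simpa using hy)⟩

theorem summ_ev (μ : Vec (S × ℕ)) (σ : S) (hH : ContinuousOn H (sphere 0 1)) :
    Summable fun b => μ (σ, b) * coef H b := by
  obtain ⟨M, hM⟩ := bdd hH
  exact (summ_mul μ σ (norm_coef_le_one hM)).of_norm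

theorem pow_le {y : ℂ} (hy : ‖y‖ ≤ 1) (b : ℕ) : ‖y ^ b‖ ≤ 1 := by
  rw [norm_pow]
  exact pow_le_one₀ (norm_nonneg _) hy

theorem term_le (l : Vec (S × ℕ)) (σ : S) (b : ℕ) {y : ℂ} (hy : ‖y‖ ≤ 1) :
    ‖l (σ, b) * y ^ b‖ ≤ ‖l (σ, b)‖ := by
  rw [norm_mul]
  exact mul_le_of_le_one_right (norm_nonneg _) (pow_le hy b)

/-- The generating function at a point of the closed disc as a functional. -/
noncomputable def genL (σ : S) (y : ℂ) (hy : ‖y‖ ≤ 1) : Vec (S × ℕ) →L[ℂ] ℂ :=
  LinearMap.mkContinuous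
    { toFun := fun l => gen l σ y
      map_add' := fun l m => by
        simp only [gen, lp.coeFn_add, Pi.add_apply, add_mul]
        exact (summ_mul l σ (pow_le hy)).of_norm.tsum_add (summ_mul m σ (pow_le hy)).of_norm
      map_smul' := fun c l => by
        simp only [gen, lp.coeFn_smul, Pi.smul_apply, smul_eq_mul, RingHom.id_apply, mul_assoc]
        exact tsum_mul_left }
    1 (fun l => by
      have := norm_tsum_mul_le l σ (pow_le hy)
      rw [one_mul]
      rw [mul_one] at this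
      exact this)

theorem genL_apply (σ : S) (y : ℂ) (hy : ‖y‖ ≤ 1) (l : Vec (S × ℕ)) :
    genL σ y hy l = gen l σ y := rfl

theorem norm_genL_le (σ : S) (y : ℂ) (hy : ‖y‖ ≤ 1) : ‖genL σ y hy‖ ≤ 1 :=
  LinearMap.mkContinuous_norm_le _ zero_le_one _

theorem inv_norm {y : ℂ} (hy : ‖y‖ = 1) : ‖y⁻¹‖ ≤ 1 := by
  rw [norm_inv, hy, inv_one]

theorem coef_eq_zero (H : ℂ → ℂ) (b : ℕ) : coef H b = coef (fun y => H y * y⁻¹ ^ b) 0 := by
  unfold coef
  congr 1
  refine intervalIntegral.integral_congr fun t _ => ?_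
  have : (exp (t * I))⁻¹ ^ b = exp (-(b * t * I)) := by
    rw [← Complex.exp_neg, ← Complex.exp_nat_mul]
    congr 1
    ring
  simp only [this, Nat.cast_zero, zero_mul, neg_zero, Complex.exp_zero, mul_one]

theorem contOn_inv : ContinuousOn (fun y : ℂ => y⁻¹) (sphere 0 1) := by
  refine continuousOn_id.inv₀ fun y hy h => ?_
  have h' : y = 0 := h
  simp [h'] at hy

end EvT

open EvT

theorem coef_gen (l : Vec (S × ℕ)) (σ : S) (b : ℕ) : coef (gen l σ) b = l (σ, b) := by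
  have h := hasSum_coef_of_bound (F := fun a y => l (σ, a) * y ^ a) (summ_slice l σ)
    (fun a => by fun_prop) (fun a y hy => term_le l σ a hy.le) b
  have h2 : HasSum (fun a => coef (fun y => l (σ, a) * y ^ a) b) (l (σ, b)) := by
    have h3 := hasSum_single (f := fun a => coef (fun y => l (σ, a) * y ^ a) b) b
      (fun a ha => by rw [coef_const_mul, coef_pow, if_neg ha, mul_zero])
    rwa [coef_const_mul, coef_pow, if_pos rfl, mul_one] at h3
  exact h.unique h2

theorem continuousOn_gen (l : Vec (S × ℕ)) (σ : S) : ContinuousOn (gen l σ) (closedBall 0 1) :=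
  continuousOn_tsum (f := fun a (y : ℂ) => l (σ, a) * y ^ a) (fun a => by fun_prop)
    (summ_slice l σ) (fun a y hy => term_le l σ a (by simpa using hy))

theorem diffOn_gen (l : Vec (S × ℕ)) (σ : S) : DifferentiableOn ℂ (gen l σ) (ball 0 1) :=
  diffOn_tsum (f := fun a (y : ℂ) => l (σ, a) * y ^ a) isOpen_ball (fun a => by fun_prop)
    (summ_slice l σ) (fun a y hy => term_le l σ a (le_of_lt (by simpa using hy)))

theorem dot_eq_sum_ev [Fintype S] (l v : Vec (S × ℕ)) : dot l v = ∑ σ, ev v σ (gen l σ) := by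
  have hs : Summable fun i => l i * v i := by
    refine Summable.of_norm (Summable.of_nonneg_of_le (fun _ => norm_nonneg _) (fun i => ?_)
      ((Vec.summable_norm l).mul_right ‖v‖))
    rw [norm_mul]
    exact mul_le_mul_of_nonneg_left (Vec.norm_apply_le v i) (norm_nonneg _)
  rw [dot_apply, tsum_prod_fin hs]
  refine Finset.sum_congr rfl fun σ _ => ?_
  simp only [ev, coef_gen, mul_comm]

variable (μ : Vec (S × ℕ)) (σ : S)

theorem ev_congr (h : ∀ y, ‖y‖ = 1 → H y = K y) : ev μ σ H = ev μ σ K := by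
  simp only [ev, coef_congr h]

theorem norm_ev_le (h : ∀ y, ‖y‖ = 1 → ‖H y‖ ≤ M) : ‖ev μ σ H‖ ≤ ‖μ‖ * M :=
  norm_tsum_mul_le μ σ (norm_coef_le_one h)

theorem ev_add (hH : ContinuousOn H (sphere 0 1)) (hK : ContinuousOn K (sphere 0 1)) :
    ev μ σ (fun y => H y + K y) = ev μ σ H + ev μ σ K := by
  simp only [ev, coef_add hH hK, mul_add]
  exact (summ_ev μ σ hH).tsum_add (summ_ev μ σ hK)

theorem ev_sub (hH : ContinuousOn H (sphere 0 1)) (hK : ContinuousOn K (sphere 0 1)) :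
    ev μ σ (fun y => H y - K y) = ev μ σ H - ev μ σ K := by
  have h1 : ∀ b, coef (fun y => H y - K y) b = coef H b - coef K b := fun b => by
    have h2 := coef_add hH (K := fun y => (-1) * K y) (continuousOn_const.mul hK) b
    rw [coef_const_mul] at h2
    simp only [neg_one_mul, ← sub_eq_add_neg] at h2
    exact h2
  simp only [ev, h1, mul_sub]
  exact (summ_ev μ σ hH).tsum_sub (summ_ev μ σ hK)

theorem ev_const_mul (c : ℂ) (H : ℂ → ℂ) : ev μ σ (fun y => c * H y) = c * ev μ σ H := by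
  simp only [ev, coef_const_mul, mul_left_comm _ c]
  exact tsum_mul_left

theorem ev_sum {ι : Type*} (s : Finset ι) {F : ι → ℂ → ℂ}
    (h : ∀ i ∈ s, ContinuousOn (F i) (sphere 0 1)) :
    ev μ σ (fun y => ∑ i ∈ s, F i y) = ∑ i ∈ s, ev μ σ (F i) := by
  simp only [ev, coef_sum s h, Finset.mul_sum]
  exact Summable.tsum_finsetSum fun i hi => summ_ev μ σ (h i hi)

theorem ev_pow (b : ℕ) : ev μ σ (fun y => y ^ b) = μ (σ, b) := by
  unfold ev
  rw [tsum_eq_single b fun a ha => by rw [coef_pow, if_neg (Ne.symm ha), mul_zero], coef_pow,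
    if_pos rfl, mul_one]

theorem ev_const (c : ℂ) : ev μ σ (fun _ => c) = c * μ (σ, 0) := by
  have h := ev_const_mul μ σ c (fun y => y ^ 0)
  rw [ev_pow] at h
  simpa using h

theorem ev_add_left (ν : Vec (S × ℕ)) (hH : ContinuousOn H (sphere 0 1)) :
    ev (μ + ν) σ H = ev μ σ H + ev ν σ H := by
  simp only [ev, lp.coeFn_add, Pi.add_apply, add_mul]
  exact (summ_ev μ σ hH).tsum_add (summ_ev ν σ hH)

theorem ev_smul_left (c : ℂ) (H : ℂ → ℂ) : ev (c • μ) σ H = c * ev μ σ H := by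
  simp only [ev, lp.coeFn_smul, Pi.smul_apply, smul_eq_mul, mul_assoc]
  exact tsum_mul_left

theorem hasSum_ev {ι : Type*} {F : ι → ℂ → ℂ} {u : ι → ℝ} (hu : Summable u)
    (hc : ∀ i, ContinuousOn (F i) (sphere 0 1)) (hb : ∀ i y, ‖y‖ = 1 → ‖F i y‖ ≤ u i) :
    HasSum (fun i => ev μ σ (F i)) (ev μ σ fun y => ∑' i, F i y) := by
  have hu0 : ∀ i, 0 ≤ u i := fun i => (norm_nonneg _).trans (hb i 1 norm_one)
  have hs : Summable fun p : ι × ℕ => μ (σ, p.2) * coef (F p.1) p.2 := by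
    refine Summable.of_norm (Summable.of_nonneg_of_le (fun _ => norm_nonneg _) (fun p => ?_)
      (hu.mul_of_nonneg (summ_slice μ σ) hu0 fun _ => norm_nonneg _))
    rw [norm_mul, mul_comm]
    exact mul_le_mul_of_nonneg_right (norm_coef_le_one (hb p.1) _) (norm_nonneg _)
  have h1 : HasSum (fun i => ev μ σ (F i)) (∑' p : ι × ℕ, μ (σ, p.2) * coef (F p.1) p.2) :=
    hs.hasSum.prod_fiberwise fun i => (summ_ev μ σ (hc i)).hasSum
  have h2 : HasSum (fun b => μ (σ, b) * coef (fun y => ∑' i, F i y) b)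
      (∑' p : ι × ℕ, μ (σ, p.2) * coef (F p.1) p.2) :=
    ((Equiv.prodComm ℕ ι).hasSum_iff.2 hs.hasSum).prod_fiberwise fun b =>
      (hasSum_coef_of_bound hu hc hb b).mul_left _
  have h3 : (ev μ σ fun y => ∑' i, F i y) = _ := h2.tsum_eq
  rw [h3]
  exact h1

namespace EvT

theorem contOn_dens : ContinuousOn (fun y : ℂ => gen μ σ y⁻¹) (sphere 0 1) :=
  (continuousOn_gen μ σ).comp contOn_inv fun y hy => by
    simpa using inv_norm (y := y) (by simpa using hy)

theorem ev_eq (hH : ContinuousOn H (sphere 0 1)) :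
    ev μ σ H = coef (fun y => H y * gen μ σ y⁻¹) 0 := by
  obtain ⟨M, hM⟩ := bdd hH
  have h := hasSum_coef_of_bound (F := fun b y => μ (σ, b) * (H y * y⁻¹ ^ b))
    ((summ_slice μ σ).mul_right M)
    (fun b => continuousOn_const.mul (hH.mul (contOn_inv.pow b)))
    (fun b y hy => by
      rw [norm_mul, norm_mul]
      refine mul_le_mul_of_nonneg_left ?_ (norm_nonneg _)
      exact (mul_le_of_le_one_right (norm_nonneg _) (pow_le (inv_norm hy) b)).trans (hM y hy)) 0
  have h1 : ∀ b, coef (fun y => μ (σ, b) * (H y * y⁻¹ ^ b)) 0 = μ (σ, b) * coef H b := fun b => by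
    rw [coef_const_mul, ← coef_eq_zero]
  have h2 : ∀ y, ∑' b, μ (σ, b) * (H y * y⁻¹ ^ b) = H y * gen μ σ y⁻¹ := fun y => by
    simp only [gen, mul_left_comm _ (H y)]
    exact tsum_mul_left
  simp only [h1, h2] at h
  exact h.tsum_eq

theorem contOn_gen2 :
    ContinuousOn (fun x : Vec (S × ℕ) × ℂ => gen x.1 σ x.2⁻¹) (univ ×ˢ sphere 0 1) := by
  refine continuousOn_prod_of_continuousOn_lipschitzOnWith _ 1 (fun l _ => contOn_dens l σ)
    fun y hy => ?_
  have hy' := inv_norm (y := y) (by simpa using hy)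
  have h := (genL σ y⁻¹ hy').lipschitz.weaken (K' := 1) (norm_genL_le σ y⁻¹ hy')
  exact h.lipschitzOnWith

theorem contOn_fst {X : Type*} [TopologicalSpace X] {U : Set X} {F : X → ℂ → ℂ}
    (hc : ContinuousOn (fun x : X × ℂ => F x.1 x.2) (U ×ˢ sphere 0 1)) {p : X} (hp : p ∈ U) :
    ContinuousOn (F p) (sphere 0 1) :=
  hc.comp (f := fun y => (p, y)) (by fun_prop) fun _ hy => ⟨hp, hy⟩

theorem contOn_snd {X : Type*} [TopologicalSpace X] {U : Set X} {F : X → ℂ → ℂ}
    (hc : ContinuousOn (fun x : X × ℂ => F x.1 x.2) (U ×ˢ sphere 0 1)) {y : ℂ}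
    (hy : y ∈ sphere (0 : ℂ) 1) : ContinuousOn (fun p => F p y) U :=
  hc.comp (f := fun p => (p, y)) (by fun_prop) fun _ hp => ⟨hp, hy⟩

theorem contOn_mul_dens {X : Type*} [TopologicalSpace X] {U : Set X} {v : X → Vec (S × ℕ)}
    (hv : ContinuousOn v U) {F : X → ℂ → ℂ}
    (hc : ContinuousOn (fun x : X × ℂ => F x.1 x.2) (U ×ˢ sphere 0 1)) :
    ContinuousOn (fun x : X × ℂ => F x.1 x.2 * gen (v x.1) σ x.2⁻¹) (U ×ˢ sphere 0 1) := by
  refine hc.mul ((contOn_gen2 σ).comp (f := fun x : X × ℂ => (v x.1, x.2)) ?_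
    fun x hx => ⟨mem_univ _, hx.2⟩)
  exact (hv.comp continuousOn_fst fun x hx => hx.1).prodMk continuousOn_snd

theorem coef_setIntegral {X : Type*} [MetricSpace X] [MeasurableSpace X] [BorelSpace X]
    (ν : Measure X) [IsFiniteMeasureOnCompacts ν] {K : Set X} (hK : IsCompact K)
    {F : X → ℂ → ℂ} (hc : ContinuousOn (fun x : X × ℂ => F x.1 x.2) (K ×ˢ sphere 0 1)) :
    coef (fun y => ∫ x in K, F x y ∂ν) 0 = ∫ x in K, coef (F x) 0 ∂ν := by
  haveI : IsFiniteMeasure (ν.restrict K) := isFiniteMeasure_restrict.2 hK.measure_lt_top.ne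
  have hint : Integrable (Function.uncurry fun (t : ℝ) (x : X) => F x (exp (t * I)))
      ((volume.restrict (uIoc (0 : ℝ) (2 * Real.pi))).prod (ν.restrict K)) := by
    rw [← Measure.restrict_restrict_of_subset (μ := ν) (Subset.refl K), Measure.prod_restrict]
    have hc' : ContinuousOn (Function.uncurry fun (t : ℝ) (x : X) => F x (exp (t * I)))
        (uIcc (0 : ℝ) (2 * Real.pi) ×ˢ K) := by
      refine hc.comp (f := fun q : ℝ × X => (q.2, exp (q.1 * I))) (by fun_prop) fun q hq => ?_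
      exact ⟨hq.2, by simp⟩
    exact (hc'.integrableOn_compact (isCompact_uIcc.prod hK)).mono_set
      (prod_mono uIoc_subset_uIcc Subset.rfl)
  simp only [coef, Nat.cast_zero, zero_mul, neg_zero, Complex.exp_zero, mul_one]
  rw [integral_const_mul, intervalIntegral_integral_swap hint]

theorem contOn_setIntegral {X : Type*} [MetricSpace X] [MeasurableSpace X] [BorelSpace X]
    (ν : Measure X) [IsFiniteMeasureOnCompacts ν] {K : Set X} (hK : IsCompact K)
    {F : X → ℂ → ℂ} (hc : ContinuousOn (fun x : X × ℂ => F x.1 x.2) (K ×ˢ sphere 0 1)) :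
    ContinuousOn (fun y => ∫ x in K, F x y ∂ν) (sphere 0 1) := by
  haveI : IsFiniteMeasure (ν.restrict K) := isFiniteMeasure_restrict.2 hK.measure_lt_top.ne
  obtain ⟨M, hM⟩ := (hK.prod (isCompact_sphere (0 : ℂ) 1)).exists_bound_of_continuousOn hc
  refine continuousOn_of_dominated (bound := fun _ => M)
    (fun y hy => (contOn_snd hc hy).aestronglyMeasurable hK.measurableSet) (fun y hy => ?_)
    (integrable_const M) ?_
  · filter_upwards [ae_restrict_mem hK.measurableSet] with x hx using hM (x, y) ⟨hx, hy⟩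
  · filter_upwards [ae_restrict_mem hK.measurableSet] with x hx using contOn_fst hc hx

end EvT

/-- Functionals commute with integrals over compact sets. -/
theorem ev_setIntegral {X : Type*} [MetricSpace X] [MeasurableSpace X] [BorelSpace X]
    (ν : Measure X) [IsFiniteMeasureOnCompacts ν] {K : Set X} (hK : IsCompact K)
    {F : X → ℂ → ℂ} (hc : ContinuousOn (fun x : X × ℂ => F x.1 x.2) (K ×ˢ sphere 0 1)) :
    ev μ σ (fun y => ∫ x in K, F x y ∂ν) = ∫ x in K, ev μ σ (F x) ∂ν := by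
  rw [ev_eq μ σ (contOn_setIntegral ν hK hc)]
  have h := coef_setIntegral ν hK (F := fun x y => F x y * gen μ σ y⁻¹)
    (contOn_mul_dens σ (v := fun _ => μ) continuousOn_const hc)
  simp only [integral_mul_const] at h
  rw [h]
  exact setIntegral_congr_fun hK.measurableSet fun x hx => (ev_eq μ σ (contOn_fst hc hx)).symm

theorem continuousOn_ev {X : Type*} [TopologicalSpace X] {U : Set X} {v : X → Vec (S × ℕ)}
    (hv : ContinuousOn v U) {F : X → ℂ → ℂ}
    (hc : ContinuousOn (fun x : X × ℂ => F x.1 x.2) (U ×ˢ sphere 0 1)) :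
    ContinuousOn (fun p => ev (v p) σ (F p)) U :=
  (continuousOn_coef (F := fun p y => F p y * gen (v p) σ y⁻¹) (contOn_mul_dens σ hv hc) 0).congr
    fun p hp => ev_eq (v p) σ (contOn_fst hc hp)

theorem ev_swap {S' : Type*} (ν : Vec (S' × ℕ)) (σ' : S') {F : ℂ → ℂ → ℂ}
    (hc : ContinuousOn (fun x : ℂ × ℂ => F x.1 x.2) (sphere 0 1 ×ˢ sphere 0 1)) :
    ev μ σ (fun x => ev ν σ' (fun y => F x y)) = ev ν σ' (fun y => ev μ σ (fun x => F x y)) := by
  have hc' : ContinuousOn (fun x : ℂ × ℂ => F x.2 x.1) (sphere 0 1 ×ˢ sphere 0 1) :=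
    hc.comp (f := Prod.swap) continuous_swap.continuousOn fun x hx => ⟨hx.2, hx.1⟩
  have h1 := continuousOn_ev σ' (v := fun _ => ν) continuousOn_const hc
  have h2 := continuousOn_ev σ (v := fun _ => μ) (F := fun y x => F x y) continuousOn_const hc'
  have h3 := coef_swap (F := fun x y => gen μ σ x⁻¹ * (F x y * gen ν σ' y⁻¹))
    (((contOn_dens μ σ).comp continuousOn_fst fun x hx => hx.1).mul
      (contOn_mul_dens σ' (v := fun _ => ν) continuousOn_const hc)) 0 0
  rw [ev_eq μ σ h1, ev_eq ν σ' h2]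
  refine (coef_congr (fun x hx => ?_) 0).trans (h3.trans (coef_congr (fun y hy => ?_) 0))
  · rw [coef_const_mul, ev_eq ν σ' (contOn_fst hc (by simpa using hx)), mul_comm]
  · rw [ev_eq μ σ (contOn_snd hc (by simpa using hy)), mul_comm, ← coef_const_mul]
    congr 1
    funext x
    ring

theorem diffOn_ev {P : Type*} [NormedAddCommGroup P] [NormedSpace ℂ P] [FiniteDimensional ℂ P]
    {U : Set P} (hU : IsOpen U) {v : P → Vec (S × ℕ)} (hv : DifferentiableOn ℂ v U)
    {F : P → ℂ → ℂ} (hc : ContinuousOn (fun x : P × ℂ => F x.1 x.2) (U ×ˢ sphere 0 1))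
    (hd : ∀ y, ‖y‖ = 1 → DifferentiableOn ℂ (fun p => F p y) U) :
    DifferentiableOn ℂ (fun p => ev (v p) σ (F p)) U := by
  refine (diffOn_coef hU (F := fun p y => F p y * gen (v p) σ y⁻¹)
    (contOn_mul_dens σ hv.continuousOn hc) (fun y hy => (hd y hy).mul ?_) 0).congr
    fun p hp => ev_eq (v p) σ (contOn_fst hc hp)
  exact (genL σ y⁻¹ (inv_norm hy)).differentiable.comp_differentiableOn hv

end Pool.Agent.Lib.MP_de7bb2_an
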