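import Pool.Agent.Lib.MP_de7bb2_an.H20Circ
import Pool.Agent.Lib.MP_de7bb2_an.H20Hom
import Pool.Agent.Lib.MP_de7bb2_an.H20Det

/-! The Selberg type transfer operator and global boundary functionals. TASK EXT. -/

namespace Pool.Agent.Lib.MP_de7bb2_an

open Metric Set Complex Filter

variable {G : ℕ} {b : ZMod 2}

noncomputable def Lop (D : Nest G b) (s : ℂ) (x : L G → ℂ) : Nuc (St G × ℕ) :=
  sys1 (StE b) (fun σ σ' => D.psi σ.2 σ'.2)
    fun σ σ' η => exp (sgn σ.1 σ.2 * x σ.2) * exp (-s * D.lj σ.2 σ'.2 η)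

noncomputable def Zd (D : Nest G b) (s : ℂ) (x : L G → ℂ) : ℂ := det1 (Lop D s x)

def Fixd (D : Nest G b) (s : ℂ) (x : L G → ℂ) (μ : Vec (St G × ℕ)) : Prop :=
  mulV (Lop D s x) μ = μ

theorem differentiable_Lop (D : Nest G b) :
    Differentiable ℂ fun p : ℂ × (L G → ℂ) => Lop D p.1 p.2 := by
  rw [← differentiableOn_univ]
  refine diffOn_sys1 (E := StE b) (ψ := fun σ σ' => D.psi σ.2 σ'.2)
    (K := fun (p : ℂ × (L G → ℂ)) σ σ' η =>
      exp (sgn σ.1 σ.2 * p.2 σ.2) * exp (-p.1 * D.lj σ.2 σ'.2 η))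
    isOpen_univ D.one_lt_R D.q_lt (fun σ σ' h => D.into _ _ h.1) fun σ σ' h => ?_
  have h1 : DifferentiableOn ℂ (fun z : (ℂ × (L G → ℂ)) × ℂ => D.lj σ.2 σ'.2 z.2)
      (univ ×ˢ ball 0 D.R) :=
    (D.lj_diff _ _ h.1).comp differentiableOn_snd fun z hz => hz.2
  have h2 : Differentiable ℂ fun z : (ℂ × (L G → ℂ)) × ℂ => z.1.2 σ.2 := by fun_prop
  have h3 : Differentiable ℂ fun z : (ℂ × (L G → ℂ)) × ℂ => -z.1.1 := by fun_prop
  exact ((h2.differentiableOn.const_mul _).cexp).mul ((h3.differentiableOn.mul h1).cexp)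

open Classical in
theorem Fixd.ev_eq {D : Nest G b} {s : ℂ} {x : L G → ℂ} {μ : Vec (St G × ℕ)} (h : Fixd D s x μ)
    (q : Q) (m : L G) {F : ℂ → ℂ} (hF : DifferentiableOn ℂ F (ball 0 D.R)) :
    ev μ (q, m) F = ∑ m', if Edge b m m' then exp (sgn q m * x m) *
      ev μ (q + clL m, m') (fun η => exp (-s * D.lj m m' η) * F (D.psi m m' η)) else 0 := by
  have h1 := ev_mulV_sys1 (E := StE b) (ψ := fun σ σ' => D.psi σ.2 σ'.2)
    (H := fun σ σ' η => exp (sgn σ.1 σ.2 * x σ.2) * exp (-s * D.lj σ.2 σ'.2 η))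
    D.one_lt_R D.q_lt (fun σ σ' h => D.into _ _ h.1)
    (fun σ σ' h => (((D.lj_diff _ _ h.1).const_mul _).cexp).const_mul _) μ (q, m) hF
  have h2 : mulV (sys1 (StE b) (fun σ σ' => D.psi σ.2 σ'.2)
      fun σ σ' η => exp (sgn σ.1 σ.2 * x σ.2) * exp (-s * D.lj σ.2 σ'.2 η)) μ = μ := h
  rw [h2] at h1
  rw [h1, Fintype.sum_prod_type, Finset.sum_comm]
  refine Finset.sum_congr rfl fun m' _ => ?_
  by_cases he : Edge b m m'
  · rw [if_pos he, Finset.sum_eq_single (q + clL m)]
    · rw [if_pos (show StE b (q, m) (q + clL m, m') from ⟨he, rfl⟩), ← ev_const_mul]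
      exact ev_congr _ _ fun y _ => mul_assoc _ _ _
    · intro q' _ hq'
      exact if_neg fun h' => hq' h'.2
    · intro h'
      exact absurd (Finset.mem_univ _) h'
  · rw [if_neg he]
    exact Finset.sum_eq_zero fun q' _ => if_neg fun h' => he h'.1

/-- Homogeneous of degree zero and holomorphic near the real light cone. -/
def Deg0 (f : V → ℂ) : Prop := (∀ c : ℂ, c ≠ 0 → ∀ E, f (c • E) = f E) ∧
  ∀ Y, Nul Y → ∀ᶠ E in nhds Y, DifferentiableAt ℂ f E

/-- Test functions of degree `-s`. -/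
def Test (s : ℂ) (F : V → ℂ) : Prop :=
  ∃ Z f, Hyp Z ∧ Deg0 f ∧ F = fun E => br E Z ^ (-s) * f E

namespace Ext

theorem br_pos {Y Z : V} (hZ : Hyp Z) (hY : Nul Y) : 0 < (br Y Z).re := by
  rw [br_comm]
  exact lt_of_lt_of_le (div_pos hY.2.1 (mul_pos two_pos hZ.2.1)) (hZ.le_br hY.fut)

theorem fst_ne {Y : V} (hY : Nul Y) : Y.1 ≠ 0 := by
  intro h
  have := hY.2.1
  rw [h] at this
  simp at this

theorem cont_br (Z : V) : Continuous fun E : V => br E Z :=
  Continuous.br continuous_id continuous_const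

theorem diff_br (Z : V) : Differentiable ℂ fun E : V => br E Z := fun _ =>
  DifferentiableAt.br differentiableAt_id (differentiableAt_const _)

theorem diffAt_pt {E : V} (hE : E.1 ≠ 0) : DifferentiableAt ℂ pt E := by
  have h1 : DifferentiableAt ℂ (fun E : V => E.2.1) E := by fun_prop
  have h2 : DifferentiableAt ℂ (fun E : V => E.1) E := by fun_prop
  have h3 : pt = fun E : V => E.2.1 * (E.1)⁻¹ := funext fun E => div_eq_mul_inv _ _
  rw [h3]
  exact h1.mul (h2.inv hE)

theorem contAt_xi {y : ℂ} (hy : y ≠ 0) : ContinuousAt xi y := by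
  unfold xi
  exact continuousAt_const.prodMk (continuousAt_id.prodMk (continuousAt_inv₀ hy))

theorem mem_ball_of_norm (D : Nest G b) {y : ℂ} (hy : ‖y‖ = 1) : y ∈ ball (0 : ℂ) D.R := by
  rw [mem_ball_zero_iff, hy]
  exact D.one_lt_R

theorem psi_maps (D : Nest G b) {m m' : L G} (he : Edge b m m') :
    MapsTo (D.psi m m') (ball 0 D.R) (ball 0 D.R) := fun y hy => by
  rw [mem_ball_zero_iff]
  exact lt_of_le_of_lt ((D.into m m' he).2 y hy) (D.q_lt.trans D.one_lt_R)

theorem contOn_sphere (D : Nest G b) {H : ℂ → ℂ} (h : DifferentiableOn ℂ H (ball 0 D.R)) :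
    ContinuousOn H (sphere 0 1) :=
  h.continuousOn.mono fun _ hy => mem_ball_of_norm D (mem_sphere_zero_iff_norm.1 hy)

theorem snoc_last {u : List (L G)} (hu : u ≠ []) : u.dropLast ++ [u.getLastD 0] = u := by
  obtain ⟨v, a, rfl⟩ := (List.eq_nil_or_concat' u).resolve_left hu
  simp

theorem headD_snoc {u : List (L G)} (hu : u ≠ []) (m : L G) :
    (u ++ [m]).headD 0 = u.headD 0 := by
  obtain ⟨a, v, rfl⟩ := List.exists_cons_of_ne_nil hu
  rfl

theorem getLastD_cons {u : List (L G)} (hu : u ≠ []) (m : L G) :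
    (m :: u).getLastD 0 = u.getLastD 0 := by
  obtain ⟨a, v, rfl⟩ := List.exists_cons_of_ne_nil hu
  simp

theorem ne_nil_of_mem {k : ℕ} {u : List (L G)} (hu : u ∈ admF G b (k + 1)) : u ≠ [] := by
  rintro rfl
  have := (mem_admF.1 hu).1
  simp at this

end Ext

open Ext

theorem Test.hom {s : ℂ} {F : V → ℂ} (h : Test s F) : Hom s F := by
  obtain ⟨Z, f, hZ, hf, rfl⟩ := h
  intro r hr E hE
  have hr' : (r : ℂ) ≠ 0 := ofReal_ne_zero.2 hr.ne'
  have h1 := br_pos hZ hE
  have h2 : br E Z = ((br E Z).re : ℂ) := br_eq_ofReal hE.1 hZ.1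
  simp only [br_smul_left]
  rw [hf.1 _ hr', h2, mul_cpow_ofReal_nonneg hr.le h1.le, cpow_def_of_ne_zero hr',
    ← ofReal_log hr.le]
  rw [mul_comm ((Real.log r : ℝ) : ℂ) (-s), mul_assoc]

theorem Test.continuousOn {s : ℂ} {F : V → ℂ} (h : Test s F) : ContinuousOn F {Y | Nul Y} := by
  obtain ⟨Z, f, hZ, hf, rfl⟩ := h
  intro Y hY
  refine ContinuousAt.continuousWithinAt ?_
  exact (((cont_br Z).continuousAt).cpow continuousAt_const (Or.inl (br_pos hZ hY))).mul
    (hf.2 Y hY).self_of_nhds.continuousAt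

theorem Deg0.test {f : V → ℂ} (h : Deg0 f) : Test 0 f :=
  ⟨oo, f, hyp_oo, h, by funext E; simp⟩

theorem test_pow (s : ℂ) {Z : V} (hZ : Hyp Z) : Test s fun E => br E Z ^ (-s) :=
  ⟨Z, fun _ => 1, hZ, ⟨fun _ _ _ => rfl,
    fun _ _ => Eventually.of_forall fun _ => differentiableAt_const _⟩, by funext E; simp⟩

theorem deg0_pt {h : ℂ → ℂ} (hh : ∀ y, ‖y‖ = 1 → ∀ᶠ z in nhds y, DifferentiableAt ℂ h z) :
    Deg0 fun E => h (pt E) := by
  refine ⟨fun c hc E => by simp only [pt_smul hc], fun Y hY => ?_⟩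
  have h1 : ∀ᶠ E : V in nhds Y, E.1 ≠ 0 := continuous_fst.continuousAt.eventually_ne (fst_ne hY)
  have h2 := (diffAt_pt (fst_ne hY)).continuousAt.eventually (hh _ hY.norm_pt)
  filter_upwards [h1, h2] with E e1 e2
  exact e2.comp E (diffAt_pt e1)

theorem deg0_div {Z : V} (hZ : Hyp Z) (A : V →L[ℂ] ℂ) : Deg0 fun E => A E / br E Z := by
  refine ⟨fun c hc E => ?_, fun Y hY => ?_⟩
  · simp only [map_smul, smul_eq_mul, br_smul_left]
    exact mul_div_mul_left _ _ hc
  · have h0 : br Y Z ≠ 0 := by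
      intro h
      have := br_pos hZ hY
      rw [h] at this
      simp at this
    filter_upwards [(cont_br Z).continuousAt.eventually_ne h0] with E e1
    simp only [div_eq_mul_inv]
    exact A.differentiableAt.mul ((diff_br Z E).inv e1)

variable [hG : Fact (2 ≤ G)]

theorem Test.comp {s : ℂ} {F : V → ℂ} (h : Test s F) (g : W G) : Test s fun E => F (lin g E) := by
  obtain ⟨Z, f, hZ, hf, rfl⟩ := h
  refine ⟨lin g⁻¹ Z, fun E => f (lin g E), (iso_lin g⁻¹).hyp hZ, ⟨fun c hc E => ?_, fun Y hY => ?_⟩,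
    ?_⟩
  · simp only [map_smul]
    exact hf.1 c hc _
  · filter_upwards [(lin g).continuous.continuousAt.eventually (hf.2 _ ((iso_lin g).nul hY))]
      with E e1
    exact e1.comp E (lin g).differentiableAt
  · funext E
    simp only [br_lin_left]

def Good (D : Nest G b) (N : ℕ) (g : W G) (m : L G) (F : V → ℂ) : Prop :=
  ∀ u : List (L G), Adm b u → u.headD 0 = m → N + 1 ≤ u.length →
    DifferentiableOn ℂ (fun η => F (lin g (D.lift u η))) (ball 0 D.R)

noncomputable def levG (D : Nest G b) (x : L G → ℂ) (μ : Vec (St G × ℕ)) (k : ℕ) (g : W G)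
    (m : L G) (F : V → ℂ) : ℂ :=
  ∑ u ∈ admF G b (k + 1), if u.headD 0 = m then exp (Th x (g * wd u.dropLast)) *
    ev μ (cl (g * wd u.dropLast), u.getLastD 0) (fun η => F (lin g (D.lift u η))) else 0

/-- The part of the boundary functional carried by the arc `m` of the chamber `g`. -/
noncomputable def piece (D : Nest G b) (x : L G → ℂ) (μ : Vec (St G × ℕ)) (g : W G) (m : L G)
    (F : V → ℂ) : ℂ :=
  limUnder atTop fun k => levG D x μ k g m F

noncomputable def tot (D : Nest G b) (x : L G → ℂ) (μ : Vec (St G × ℕ)) (F : V → ℂ) : ℂ :=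
  ∑ m, piece D x μ 1 m F

variable {D : Nest G b} {s : ℂ} {x : L G → ℂ} {μ ν : Vec (St G × ℕ)} {F : V → ℂ} {g : W G}
  {m : L G}

namespace Ext

theorem good_mono {N N' : ℕ} (h : Good D N g m F) (hN : N ≤ N') : Good D N' g m F :=
  fun u hu hm hl => h u hu hm (by omega)

theorem snoc_eq (hF : Hom s F) {N : ℕ} (hg : Good D N g m F) {u : List (L G)} (hu : Adm b u)
    (hm : u.headD 0 = m) (hl : N + 1 ≤ u.length) {m' : L G} (he : Edge b (u.getLastD 0) m') :
    EqOn (fun η => exp (-s * D.lj (u.getLastD 0) m' η) *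
        F (lin g (D.lift u (D.psi (u.getLastD 0) m' η))))
      (fun η => F (lin g (D.lift (u ++ [m']) η))) (ball 0 D.R) := by
  have hne : u ≠ [] := by
    rintro rfl
    simp at hl
  have hR : 0 < D.R := lt_trans one_pos D.one_lt_R
  refine eqOn_ball_of_real ?_ ?_ hR fun η hη _ => ?_
  · exact (((D.lj_diff _ _ he).const_mul _).cexp).mul
      ((hg u hu hm hl).comp (D.into _ _ he).1 (psi_maps D he))
  · refine hg _ ((Grp.adm_snoc hne).2 ⟨hu, he⟩) ((headD_snoc hne m').trans hm) ?_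
    rw [List.length_append]
    omega
  · have hb : (η : ℂ) ∈ ball (0 : ℂ) D.R := by
      rw [mem_ball_zero_iff, norm_real]
      exact hη
    obtain ⟨h1, h2⟩ := D.real _ _ he η hη
    have e1 : D.psi (u.getLastD 0) m' η = ((D.psi (u.getLastD 0) m' η).re : ℂ) :=
      Complex.ext (by simp) (by simpa using h1)
    have e2 : D.lj (u.getLastD 0) m' η = ((D.lj (u.getLastD 0) m' η).re : ℂ) :=
      Complex.ext (by simp) (by simpa using h2)
    have h3 := hF (Real.exp (D.lj (u.getLastD 0) m' η).re) (Real.exp_pos _) _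
      ((iso_lin g).nul (D.nul_lift u (D.psi (u.getLastD 0) m' η).re))
    rw [Real.log_exp, ofReal_exp, ← e2, ← e1] at h3
    rw [D.lift_snoc hne he hb, map_smul, h3]

theorem levG_succ (h : Fixd D s x μ) (hF : Hom s F) {N k : ℕ} (hg : Good D N g m F)
    (hk : N ≤ k) : levG D x μ (k + 1) g m F = levG D x μ k g m F := by
  unfold levG
  rw [sum_admF_snoc]
  refine Finset.sum_congr rfl fun u hu => ?_
  have hne := ne_nil_of_mem hu
  obtain ⟨hl, hA⟩ := mem_admF.1 hu
  by_cases hm : u.headD 0 = m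
  · rw [if_pos hm, h.ev_eq _ _ (hg u hA hm (by omega)), Finset.mul_sum]
    refine Finset.sum_congr rfl fun m' _ => ?_
    by_cases he : Edge b (u.getLastD 0) m'
    · have hw : g * wd u = g * wd u.dropLast * sr (u.getLastD 0) := by
        conv_lhs => rw [← snoc_last hne]
        simp [mul_assoc]
      rw [if_pos he, if_pos he, if_pos ((headD_snoc hne m').trans hm), List.dropLast_concat,
        List.getLastD_concat, hw, Th_step, Hom.cl_step, exp_add, mul_assoc]
      congr 2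
      exact ev_congr _ _ fun y hy =>
        (snoc_eq hF hg hA hm (by omega) he (mem_ball_of_norm D hy)).symm
    · rw [if_neg he, if_neg he, mul_zero]
  · rw [if_neg hm]
    refine Finset.sum_eq_zero fun m' _ => ?_
    rw [headD_snoc hne m', if_neg hm, ite_self]

theorem levG_eq (h : Fixd D s x μ) (hF : Hom s F) {N k : ℕ} (hg : Good D N g m F)
    (hk : N ≤ k) : levG D x μ k g m F = levG D x μ N g m F := by
  induction k, hk using Nat.le_induction with
  | base => rfl
  | succ k hk ih => rw [levG_succ h hF hg hk, ih]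

end Ext

theorem piece_eq_lev (h : Fixd D s x μ) (hF : Hom s F) {N k : ℕ} (hg : Good D N g m F)
    (hk : N ≤ k) : piece D x μ g m F = levG D x μ k g m F := by
  rw [levG_eq h hF hg hk]
  refine Tendsto.limUnder_eq (tendsto_const_nhds.congr' ?_)
  filter_upwards [eventually_ge_atTop N] with j hj
  exact (levG_eq h hF hg hj).symm

theorem levG_zero : levG D x μ 0 g m F =
    exp (Th x g) * ev μ (cl g, m) fun η => F (lin g (Xi (D.τ m) m η)) := by
  unfold levG
  rw [sum_admF_one, Finset.sum_eq_single m]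
  · simp [Nest.lift]
  · intro m' _ hm'
    exact if_neg hm'
  · intro h'
    exact absurd (Finset.mem_univ _) h'

theorem good_uniform (D : Nest G b) (T : ℝ) {δ : ℝ} (hδ : 0 < δ) : ∃ N, ∀ (g : W G) (Z : V)
    (f : V → ℂ) (s : ℂ), Hyp Z → (lin g⁻¹ Z).1.re ≤ T →
    (∀ E, br E E = 0 → E.1 ≠ 0 → |‖pt E‖ - 1| < δ → DifferentiableAt ℂ f (lin g E)) →
    ∀ m, Good D N g m fun E => br E Z ^ (-s) * f E := by
  obtain ⟨N₁, h₁⟩ := D.exists_slit T
  obtain ⟨N₂, h₂⟩ := D.exists_thin hδ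
  refine ⟨max N₁ N₂, fun g Z f s hZ hT hf m u hu _ hl η hη => ?_⟩
  refine DifferentiableAt.differentiableWithinAt ?_
  have hd : DifferentiableAt ℂ (fun η => lin g (D.lift u η)) η :=
    (lin g).differentiableAt.comp η (D.diff_lift u η)
  have e1 := h₁ _ ((iso_lin g⁻¹).hyp hZ) hT u hu (by omega) η hη
  rw [← br_lin_left] at e1
  obtain ⟨e2, y₀, e3, e4⟩ := h₂ u hu (by omega) η hη
  have e5 : ‖y₀‖ = 1 := by simpa using e3.1.norm_pt
  have e6 : |‖pt (D.lift u η)‖ - 1| < δ := by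
    rw [← e5]
    exact lt_of_le_of_lt (abs_norm_sub_norm_le _ _) e4
  exact (((diff_br Z _).comp η hd).cpow_const e1).mul
    ((hf _ (D.br_lift_self u η) e2 e6).comp η hd)

theorem Deg0.exists_delta {f : V → ℂ} (h : Deg0 f) (g : W G) : ∃ δ > 0,
    ∀ E, br E E = 0 → E.1 ≠ 0 → |‖pt E‖ - 1| < δ → DifferentiableAt ℂ f (lin g E) := by
  have hs : sphere (0 : ℂ) 1 ⊆ interior {y | DifferentiableAt ℂ f (lin g (xi y))} := by
    intro y hy
    have hy' : ‖y‖ = 1 := mem_sphere_zero_iff_norm.1 hy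
    have hy0 : y ≠ 0 := by
      rintro rfl
      simp at hy'
    rw [mem_interior_iff_mem_nhds]
    exact ((lin g).continuous.continuousAt.comp (contAt_xi hy0)).eventually
      (h.2 _ ((iso_lin g).nul (nul_xi hy')))
  obtain ⟨δ, hδ, hsub⟩ := (isCompact_sphere (0 : ℂ) 1).exists_thickening_subset_open
    isOpen_interior hs
  refine ⟨δ, hδ, fun E h0 h1 h2 => ?_⟩
  obtain ⟨hy0, hE⟩ := eq_smul_xi_of_null h0 h1
  have hn : (0 : ℝ) < ‖pt E‖ := norm_pos_iff.2 hy0
  have hn' : ((‖pt E‖ : ℝ) : ℂ) ≠ 0 := ofReal_ne_zero.2 hn.ne'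
  have hmem : pt E ∈ thickening δ (sphere (0 : ℂ) 1) := by
    rw [mem_thickening_iff]
    refine ⟨pt E / ‖pt E‖, ?_, ?_⟩
    · rw [mem_sphere_zero_iff_norm, norm_div, norm_real, norm_norm, div_self hn.ne']
    · have e : pt E - pt E / ‖pt E‖ = pt E / ‖pt E‖ * ((‖pt E‖ - 1 : ℝ) : ℂ) := by
        push_cast
        field_simp
      rw [dist_eq_norm, e, norm_mul, norm_div, norm_real, norm_norm, div_self hn.ne', one_mul,
        norm_real]
      exact h2
  have h3 : DifferentiableAt ℂ f (lin g (xi (pt E))) :=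
    (interior_subset (s := {y | DifferentiableAt ℂ f (lin g (xi y))}) (hsub hmem) :)
  have h4 : f = fun X => f (E.1⁻¹ • X) := funext fun X => (h.1 _ (inv_ne_zero h1) X).symm
  have h5 : E.1⁻¹ • lin g E = lin g (xi (pt E)) := by
    rw [← map_smul]
    congr 1
    conv_lhs => rw [hE]
    simp only [Prod.smul_fst, xi, smul_eq_mul, mul_one]
    rw [smul_smul, inv_mul_cancel₀ h1, one_smul]
  rw [h4]
  rw [← h5] at h3
  have h6 : DifferentiableAt ℂ (fun X : V => E.1⁻¹ • X) (lin g E) := by fun_prop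
  exact DifferentiableAt.comp (g := f) (f := fun X : V => E.1⁻¹ • X) (lin g E) h3 h6

theorem Test.good (h : Test s F) (D : Nest G b) (g : W G) : ∃ N, ∀ m, Good D N g m F := by
  obtain ⟨Z, f, hZ, hf, rfl⟩ := h
  obtain ⟨δ, hδ, h1⟩ := hf.exists_delta g
  obtain ⟨N, hN⟩ := good_uniform D (lin g⁻¹ Z).1.re hδ
  exact ⟨N, hN g Z f s hZ le_rfl h1⟩

theorem Good.step {N : ℕ} (h : Good D N g m F) {m' : L G} (he : Edge b m m') :
    Good D N (g * sr m) m' F := by
  intro u hu hm hl
  have hne : u ≠ [] := by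
    rintro rfl
    simp at hl
  have hA : Adm b (m :: u) := by
    obtain ⟨a, v, rfl⟩ := List.exists_cons_of_ne_nil hne
    have : a = m' := hm
    exact Grp.adm_cons_cons.2 ⟨this ▸ he, hu⟩
  have h1 := h (m :: u) hA rfl (by rw [List.length_cons]; omega)
  simp only [D.lift_cons m hne] at h1
  simpa only [lin_mul, lin_sr] using h1

theorem piece_step_of_good (h : Fixd D s x μ) (hF : Hom s F) {N : ℕ} (hg : Good D N g m F) :
    piece D x μ g m F = ∑ m', if Edge b m m' then piece D x μ (g * sr m) m' F else 0 := by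
  have h1 : ∀ m', (if Edge b m m' then piece D x μ (g * sr m) m' F else 0) =
      ∑ u ∈ admF G b (N + 1), if u.headD 0 = m' then (if Edge b m (u.headD 0) then
        exp (Th x (g * sr m * wd u.dropLast)) * ev μ (cl (g * sr m * wd u.dropLast), u.getLastD 0)
          (fun η => F (lin (g * sr m) (D.lift u η))) else 0) else 0 := by
    intro m'
    by_cases he : Edge b m m'
    · rw [if_pos he, piece_eq_lev h hF (hg.step he) le_rfl]
      unfold levG
      refine Finset.sum_congr rfl fun u _ => ?_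
      by_cases hm : u.headD 0 = m'
      · rw [if_pos hm, if_pos hm, if_pos (hm ▸ he)]
      · rw [if_neg hm, if_neg hm]
    · rw [if_neg he]
      refine (Finset.sum_eq_zero fun u _ => ?_).symm
      by_cases hm : u.headD 0 = m'
      · rw [if_pos hm, if_neg (hm ▸ he)]
      · rw [if_neg hm]
  rw [Finset.sum_congr rfl fun m' _ => h1 m', Finset.sum_comm,
    piece_eq_lev h hF hg (Nat.le_succ N)]
  unfold levG
  rw [sum_admF_cons, Finset.sum_eq_single m]
  · refine Finset.sum_congr rfl fun u hu => ?_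
    have hne := ne_nil_of_mem hu
    rw [Finset.sum_ite_eq, if_pos (Finset.mem_univ _)]
    by_cases he : Edge b m (u.headD 0)
    · rw [if_pos he, if_pos he, if_pos (show (m :: u).headD 0 = m from rfl),
        List.dropLast_cons_of_ne_nil hne, wd_cons, ← mul_assoc, getLastD_cons hne]
      simp only [D.lift_cons m hne, lin_mul, lin_sr]
    · rw [if_neg he, if_neg he]
  · intro m' _ hm'
    refine Finset.sum_eq_zero fun u _ => ?_
    rw [if_neg (show ¬ (m' :: u).headD 0 = m from hm'), ite_self]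
  · intro h'
    exact absurd (Finset.mem_univ _) h'

theorem piece_step (h : Fixd D s x μ) (hF : Test s F) (g : W G) (m : L G) :
    piece D x μ g m F = ∑ m', if Edge b m m' then piece D x μ (g * sr m) m' F else 0 := by
  obtain ⟨N, hN⟩ := hF.good D g
  exact piece_step_of_good h hF.hom (hN m)

theorem levG_left {γ : W G} (hγ : γ ∈ Gam G) (k : ℕ) : levG D x μ k (γ * g) m F =
    exp (Th x γ) * levG D x μ k g m fun E => F (lin γ E) := by
  unfold levG
  rw [Finset.mul_sum]
  refine Finset.sum_congr rfl fun u _ => ?_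
  by_cases hm : u.headD 0 = m
  · rw [if_pos hm, if_pos hm, mul_assoc γ, Th_mul_left x hγ, cl_mul γ, mem_Gam.1 hγ, zero_add,
      exp_add, mul_assoc]
    simp only [lin_mul]
  · rw [if_neg hm, if_neg hm, mul_zero]

theorem piece_left (h : Fixd D s x μ) (hF : Test s F) {γ : W G} (hγ : γ ∈ Gam G) (g : W G)
    (m : L G) : piece D x μ (γ * g) m F = exp (Th x γ) * piece D x μ g m fun E => F (lin γ E) := by
  obtain ⟨N₁, h₁⟩ := hF.good D (γ * g)
  obtain ⟨N₂, h₂⟩ := (hF.comp γ).good D g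
  rw [piece_eq_lev h hF.hom (h₁ m) (le_max_left N₁ N₂),
    piece_eq_lev h (hF.comp γ).hom (h₂ m) (le_max_right N₁ N₂), levG_left hγ]

theorem piece_lin_comb (h : Fixd D s x μ) (hF : Test s F) {ι : Type*} (t : Finset ι) (c : ι → ℂ)
    {K : ι → V → ℂ} (hK : ∀ i ∈ t, Test s (K i)) (he : ∀ Y, Nul Y → F Y = ∑ i ∈ t, c i * K i Y)
    (g : W G) (m : L G) : piece D x μ g m F = ∑ i ∈ t, c i * piece D x μ g m (K i) := by
  obtain ⟨N₀, h₀⟩ := hF.good D g
  choose! n hn using fun i hi => (hK i hi).good D g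
  have hle : ∀ i ∈ t, n i ≤ N₀ + ∑ j ∈ t, n j := fun i hi =>
    (Finset.single_le_sum (fun _ _ => Nat.zero_le _) hi).trans (Nat.le_add_left _ _)
  have hp : ∀ i ∈ t, c i * piece D x μ g m (K i) =
      c i * levG D x μ (N₀ + ∑ j ∈ t, n j) g m (K i) := fun i hi => by
    rw [piece_eq_lev h (hK i hi).hom (hn i hi m) (hle i hi)]
  rw [piece_eq_lev h hF.hom (h₀ m) (Nat.le_add_right N₀ (∑ j ∈ t, n j)), Finset.sum_congr rfl hp]
  unfold levG
  simp only [Finset.mul_sum]
  rw [Finset.sum_comm]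
  refine Finset.sum_congr rfl fun u hu => ?_
  obtain ⟨hl, hA⟩ := mem_admF.1 hu
  by_cases hm : u.headD 0 = m
  · have hd : ∀ i ∈ t, DifferentiableOn ℂ (fun η => c i * K i (lin g (D.lift u η)))
        (ball 0 D.R) := fun i hi =>
      (hn i hi m u hA hm (by have := hle i hi; omega)).const_mul _
    have hE := eqOn_ball_of_real (h₀ m u hA hm (by omega)) (DifferentiableOn.fun_sum hd)
      (lt_trans one_pos D.one_lt_R) fun η _ _ => he _ ((iso_lin g).nul (D.nul_lift u η))
    simp only [if_pos hm]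
    rw [ev_congr _ _ fun y hy => hE (mem_ball_of_norm D hy),
      ev_sum _ _ t fun i hi => contOn_sphere D (hd i hi), Finset.mul_sum]
    refine Finset.sum_congr rfl fun i _ => ?_
    rw [ev_const_mul]
    ring
  · simp only [if_neg hm, mul_zero, Finset.sum_const_zero]

theorem piece_one (h : Fixd D 0 x μ) (g : W G) (m : L G) :
    piece D x μ g m (fun _ => 1) = exp (Th x g) * μ ((cl g, m), 0) := by
  have h1 : Hom 0 fun _ : V => (1 : ℂ) := fun r _ E _ => by simp
  have h2 : Good D 0 g m fun _ : V => (1 : ℂ) := fun u _ _ _ => differentiableOn_const _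
  rw [piece_eq_lev h h1 h2 le_rfl, levG_zero, ev_const, one_mul]

end Pool.Agent.Lib.MP_de7bb2_an
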