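import Pool.Agent.Lib.MP_de7bb2_an.H20Orb0

/-! Factorisation of the three determinants of the hyperbolic flow. TASK FACT. -/

namespace Pool.Agent.Lib.MP_de7bb2_an

open Metric Set Complex Filter

variable {G : ℕ} [hG : Fact (2 ≤ G)]

namespace Fact

omit hG in
/-- A closed path is determined by its first class and its word. -/
theorem cyc_inj (n : ℕ) : Function.Injective fun π : Cyc (StE (G := G) 1) n =>
    ((π.1 0).1, cw fun i => (π.1 i).2) := by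
  intro π π' h
  obtain ⟨h0, h1⟩ := Prod.mk.inj h
  have h2 : ∀ i : ℕ, (π.1 i).2 = (π'.1 i).2 := fun i => by
    have h3 := congrFun (List.ofFn_injective h1) ⟨i % (n + 1), Nat.mod_lt _ n.succ_pos⟩
    simpa only [ZMod.natCast_mod] using h3
  have h3 : ∀ i : ℕ, (π.1 i).1 = (π'.1 i).1 := fun i => by
    induction i with
    | zero => simpa using h0
    | succ i ih => rw [Nat.cast_succ, (π.2 i).2, (π'.2 i).2, ih, h2]
  refine Subtype.ext (funext fun i => ?_)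
  rw [← ZMod.natCast_zmod_val i]
  exact Prod.ext (h3 _) (h2 _)

end Fact

theorem exists_sum_len0 : ∃ C : ℝ, ∀ n : ℕ,
    ∑ π : Cyc (StE (G := G) 1) n, Real.exp (-len0 (gam π)) ≤ C := by
  classical
  obtain ⟨κ, hκ, h1⟩ := exp_len0_ge (G := G)
  obtain ⟨C, h2⟩ := sum_inv_le (G := G)
  have hp : ∀ u : List (L G), 0 < (lin (wd u) oo).1.re := fun u =>
    ((iso_lin (wd u)).hyp hyp_oo).2.1
  refine ⟨κ⁻¹ * (Fintype.card Q * C), fun n => ?_⟩
  have h3 : ∀ π : Cyc (StE (G := G) 1) n, Real.exp (-len0 (gam π)) ≤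
      κ⁻¹ * ((lin (wd (cw fun i => (π.1 i).2)) oo).1.re)⁻¹ := fun π => by
    rw [Real.exp_neg, ← mul_inv]
    exact inv_anti₀ (mul_pos hκ (hp _)) (h1 n π)
  refine (Finset.sum_le_sum fun π _ => h3 π).trans ?_
  rw [← Finset.mul_sum]
  refine mul_le_mul_of_nonneg_left ?_ (inv_pos.2 hκ).le
  have h4 := Finset.sum_image (s := Finset.univ)
    (f := fun z : Q × List (L G) => ((lin (wd z.2) oo).1.re)⁻¹)
    ((Fact.cyc_inj (G := G) n).injOn)
  rw [← h4]
  refine (Finset.sum_le_sum_of_subset_of_nonneg (t := Finset.univ ×ˢ admF G 1 (n + 1))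
    (fun z hz => ?_) fun z _ _ => (inv_pos.2 (hp _)).le).trans ?_
  · obtain ⟨π, -, rfl⟩ := Finset.mem_image.1 hz
    refine Finset.mem_product.2 ⟨Finset.mem_univ _, mem_admF.2 ⟨by simp [cw], ?_⟩⟩
    exact (adm_cw (u := fun i => (π.1 i).2) fun i => (π.2 i).1).left_of_append
  · rw [Finset.sum_product]
    simp only [Finset.sum_const, Finset.card_univ, nsmul_eq_mul]
    exact mul_le_mul_of_nonneg_left (h2 1 (n + 1)) (Nat.cast_nonneg _)

noncomputable def Base.w0 (B : Base G) {N : ℕ} (p : ℂ × (L G → ℂ)) (σ σ' : StN G N) (y : ℂ × ℂ) :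
    ℂ := wt p.2 σ * exp (-p.1 * B.r0 σ σ' y)

namespace Fact

/-- The contribution of one closed path. -/
noncomputable def term (k j : ℕ) (p : ℂ × (L G → ℂ)) (γ : W G) : ℂ :=
  exp (Th p.2 γ - p.1 * len0 γ) * exp (-len0 γ) ^ k / (1 - exp (-len0 γ)) ^ j

/-- The sum over closed paths of a given length. -/
noncomputable def T (k j : ℕ) (p : ℂ × (L G → ℂ)) (n : ℕ) : ℂ :=
  ∑ π : Cyc (StE (G := G) 1) n, term k j p (gam π)

/-- The logarithmic series. -/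
noncomputable def F (k j : ℕ) (p : ℂ × (L G → ℂ)) : ℂ := ∑' n : ℕ, T k j p n / (n + 1)

omit hG in
theorem re_Th_le (x : L G → ℂ) {n : ℕ} (π : Cyc (StE (G := G) 1) n) :
    (Th x (gam π)).re ≤ (n + 1) * ‖x‖ := by
  have h : ∀ (c : Q) (m : L G), (sgn c m * x m).re ≤ ‖x‖ := fun c m => by
    refine (re_le_norm _).trans ?_
    rcases Hom.sgn_cases c m with h | h <;> simpa [h] using norm_le_pi_norm x m
  have a1 := Finset.sum_le_card_nsmul Finset.univ _ ‖x‖ fun i _ => h (π.1 i).1 (π.1 i).2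
  rw [Finset.card_univ, ZMod.card, nsmul_eq_mul, Nat.cast_succ] at a1
  rwa [Th_gam, re_sum]

theorem le_len0 (D : Nest G 1) {n : ℕ} (π : Cyc (StE (G := G) 1) n) :
    Real.log D.t ≤ len0 (gam π) :=
  le_trans (le_mul_of_one_le_left (Real.log_pos D.one_lt_t).le (by simp)) (len0_ge D π)

theorem one_sub_ne (D : Nest G 1) {n : ℕ} (π : Cyc (StE (G := G) 1) n) :
    1 - exp (-(len0 (gam π) : ℂ)) ≠ 0 := by
  rw [← ofReal_neg, ← ofReal_exp, ← ofReal_one, ← ofReal_sub, ofReal_ne_zero, sub_ne_zero]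
  refine (Real.exp_lt_one_iff.2 ?_).ne'
  linarith [le_len0 D π, Real.log_pos D.one_lt_t]

theorem norm_term_le (D : Nest G 1) (k j : ℕ) {p : ℂ × (L G → ℂ)} (h1 : 3 / 2 ≤ p.1.re + k)
    (h2 : ‖p.2‖ ≤ Real.log D.t / 4) {n : ℕ} (π : Cyc (StE (G := G) 1) n) :
    ‖term k j p (gam π)‖ ≤ Real.exp (-len0 (gam π)) *
      (Real.exp (-(Real.log D.t / 4)) ^ n / (1 - Real.exp (-Real.log D.t)) ^ j) := by
  have hτ := Real.log_pos D.one_lt_t
  have hl := le_len0 D π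
  have hl' := len0_ge D π
  have h0 : 0 < 1 - Real.exp (-Real.log D.t) :=
    sub_pos.2 (Real.exp_lt_one_iff.2 (by linarith))
  have h3 : 1 - Real.exp (-Real.log D.t) ≤ ‖1 - exp (-(len0 (gam π) : ℂ))‖ := by
    rw [← ofReal_neg, ← ofReal_exp, ← ofReal_one, ← ofReal_sub, norm_real, Real.norm_eq_abs]
    refine le_trans ?_ (le_abs_self _)
    linarith [Real.exp_le_exp.2 (neg_le_neg hl)]
  rw [term, norm_div, norm_pow, ← mul_div_assoc]
  refine div_le_div₀ (by positivity) ?_ (pow_pos h0 _) (pow_le_pow_left₀ h0.le h3 _)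
  rw [← exp_nat_mul, ← exp_add, norm_exp, ← Real.exp_nat_mul, ← Real.exp_add, Real.exp_le_exp]
  simp only [add_re, sub_re, re_mul_ofReal, mul_neg, neg_re, ← ofReal_natCast, ofReal_re]
  have a1 := re_Th_le p.2 π
  have a2 : (n + 1) * ‖p.2‖ ≤ (n + 1) * (Real.log D.t / 4) :=
    mul_le_mul_of_nonneg_left h2 (by positivity)
  have a3 : 3 / 2 * len0 (gam π) ≤ (p.1.re + k) * len0 (gam π) :=
    mul_le_mul_of_nonneg_right h1 (by linarith)
  nlinarith

theorem exists_bound (D : Nest G 1) (j : ℕ) : ∃ u : ℕ → ℝ, Summable u ∧ ∀ (k : ℕ)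
    (p : ℂ × (L G → ℂ)), 3 / 2 ≤ p.1.re + k → ‖p.2‖ ≤ Real.log D.t / 4 → ∀ n : ℕ,
      ‖T k j p n‖ / (n + 1) ≤ u n := by
  obtain ⟨C, hC⟩ := exists_sum_len0 (G := G)
  have hτ := Real.log_pos D.one_lt_t
  have h0 : 0 < 1 - Real.exp (-Real.log D.t) :=
    sub_pos.2 (Real.exp_lt_one_iff.2 (by linarith))
  refine ⟨fun n => C * (Real.exp (-(Real.log D.t / 4)) ^ n / (1 - Real.exp (-Real.log D.t)) ^ j),
    ((summable_geometric_of_lt_one (Real.exp_pos _).le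
      (Real.exp_lt_one_iff.2 (by linarith))).div_const _).mul_left _, fun k p h1 h2 n => ?_⟩
  refine (div_le_self (norm_nonneg _) (by simp)).trans ((norm_sum_le _ _).trans ?_)
  refine (Finset.sum_le_sum fun π _ => norm_term_le D k j h1 h2 π).trans ?_
  rw [← Finset.sum_mul]
  exact mul_le_mul_of_nonneg_right (hC n) (by positivity)

omit hG in
theorem norm_div_succ (z : ℂ) (n : ℕ) : ‖z / (n + 1)‖ = ‖z‖ / (n + 1) := by
  rw [norm_div, ← Nat.cast_succ, ← Nat.cast_succ, Complex.norm_natCast]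

theorem summ_norm (D : Nest G 1) (k j : ℕ) {p : ℂ × (L G → ℂ)} (h1 : 3 / 2 ≤ p.1.re + k)
    (h2 : ‖p.2‖ ≤ Real.log D.t / 4) : Summable fun n : ℕ => ‖T k j p n‖ / (n + 1) := by
  obtain ⟨u, hu, h⟩ := exists_bound D j
  exact hu.of_nonneg_of_le (fun n => by positivity) (h k p h1 h2)

theorem summ (D : Nest G 1) (k j : ℕ) {p : ℂ × (L G → ℂ)} (h1 : 3 / 2 ≤ p.1.re + k)
    (h2 : ‖p.2‖ ≤ Real.log D.t / 4) : Summable fun n : ℕ => T k j p n / (n + 1) :=
  Summable.of_norm ((summ_norm D k j h1 h2).congr fun n => (norm_div_succ _ n).symm)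

/-- The domain of the correction factors. -/
def Om (D : Nest G 1) : Set (ℂ × (L G → ℂ)) :=
  {p | -(1 / 2) < p.1.re ∧ ‖p.2‖ < Real.log D.t / 4}

theorem diffOn_F (D : Nest G 1) : DifferentiableOn ℂ (F (G := G) 2 2) (Om D) := by
  obtain ⟨u, hu, h⟩ := exists_bound D 2
  refine diffOn_tsum (f := fun (n : ℕ) (p : ℂ × (L G → ℂ)) => T 2 2 p n / (n + 1))
    ((isOpen_lt continuous_const (continuous_re.comp continuous_fst)).inter
      (isOpen_lt continuous_snd.norm continuous_const))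
    (fun n => ?_) hu fun n p hp => ?_
  · simp only [T, term, Th_gam]
    fun_prop
  · rw [norm_div_succ]
    refine h 2 p ?_ hp.2.le n
    have : -(1 / 2) < p.1.re := hp.1
    push_cast
    linarith

theorem det_eq (D : Nest G 1) {ι : Type*} {A : Nuc ι} {k j : ℕ} {p : ℂ × (L G → ℂ)}
    (h1 : 3 / 2 ≤ p.1.re + k) (h2 : ‖p.2‖ ≤ Real.log D.t / 4)
    (h : ∀ n, tr (npw A n) = T k j p n) : det1 A = exp (-F k j p) := by
  rw [det1_eq_exp (by simpa only [h] using summ_norm D k j h1 h2), F]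
  simp only [h]

theorem tr_Lop (D : Nest G 1) (k : ℕ) (s : ℂ) (x : L G → ℂ) (n : ℕ) :
    tr (npw (Lop D (k + s) x) n) = T k 1 (s, x) n := by
  choose η h1 h2 h3 using fun π : Cyc (StE (G := G) 1) n => exists_orbit1 D π
  refine (tr_npw_sys1 (E := StE (G := G) 1) (ψ := fun σ σ' => D.psi σ.2 σ'.2)
    (H := fun σ σ' η => exp (sgn σ.1 σ.2 * x σ.2) * exp (-(k + s) * D.lj σ.2 σ'.2 η))
    D.one_lt_R D.q_lt (fun σ σ' h => D.into _ _ h.1)
    (fun σ σ' h => ((D.lj_diff _ _ h.1).const_mul _).cexp.const_mul _) n η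
    (fun π i => (h1 π i).1) fun π i => (h1 π i).2).trans (Finset.sum_congr rfl fun π _ => ?_)
  have h4 : ∀ θ l : ℂ, θ + -(k + s) * l = θ - s * l + k * -l := fun θ l => by ring
  rw [h3, Finset.prod_mul_distrib, ← exp_sum, ← exp_sum, ← Finset.mul_sum, h2, ← Th_gam, term,
    pow_one, ← exp_nat_mul, ← exp_add, ← exp_add, h4]

theorem T_O (D : Nest G 1) (p : ℂ × (L G → ℂ)) (n : ℕ) :
    T 0 2 p n + T 2 2 p n = T 0 1 p n + T 1 1 p n + (T 2 2 p n + T 2 2 p n) := by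
  simp only [T, ← Finset.sum_add_distrib]
  refine Finset.sum_congr rfl fun π _ => ?_
  have := one_sub_ne D π
  simp only [term]
  field_simp
  ring

theorem T_A (D : Nest G 1) (p : ℂ × (L G → ℂ)) (n : ℕ) : T 1 2 p n = T 1 1 p n + T 2 2 p n := by
  simp only [T, ← Finset.sum_add_distrib]
  refine Finset.sum_congr rfl fun π _ => ?_
  have := one_sub_ne D π
  simp only [term]
  field_simp
  ring

theorem traces (B : Base G) : ∀ᶠ N in atTop, ∀ (p : ℂ × (L G → ℂ)) (n : ℕ),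
    tr (npw (sysO (EN (N := N)) (fun σ σ' y => B.psS σ σ' y.1) (fun σ σ' y => B.psU σ σ' y.2)
      (B.w0 p)) n) = T 0 2 p n + T 2 2 p n ∧
    tr (npw (sysA (EN (N := N)) (fun σ σ' y => B.psS σ σ' y.1) (fun σ σ' y => B.psU σ σ' y.2)
      (B.w0 p)) n) = T 1 2 p n ∧
    tr (npw (sysD (EN (N := N)) (fun σ σ' y => B.psS σ σ' y.1) (fun σ σ' y => B.psU σ σ' y.2)
      (B.w0 p)) n) = T 1 2 p n := by
  obtain ⟨C, hC⟩ := B.rb_diff
  filter_upwards [hC, exists_orb0 B] with N hN ho p n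
  choose ξ η h1 h2 h3 h4 h5 using ho n
  obtain ⟨a1, a2, a3⟩ := tr_prod (E := EN (N := N)) (f := fun σ σ' y => B.psS σ σ' y.1)
    (g := fun σ σ' y => B.psU σ σ' y.2) (w := B.w0 p) B.one_lt_R B.q_lt B.into
    (fun σ σ' _ y _ => ⟨rfl, rfl⟩)
    (fun σ σ' h => (((hN oo hyp_oo σ σ' h).2.1.const_mul _).cexp.const_mul _)) n ξ η h1
    (fun π => exp (-len0 (gam (cycE N n π)))) (fun π => exp (-len0 (gam (cycE N n π))))
    (fun π => exp (Th p.2 (gam (cycE N n π)) - p.1 * len0 (gam (cycE N n π))))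
    (fun π => (h2 π).symm) (fun π => (h3 π).symm) fun π => by
      simp only [Base.w0]
      rw [Finset.prod_mul_distrib, prod_wt, ← exp_sum, ← exp_add, ← Finset.mul_sum, h4, neg_mul,
        ← sub_eq_add_neg]
  rw [a1, a2, a3]
  simp only [T, ← Finset.sum_add_distrib, ← (cycE N n).sum_comp, and_self]
  refine ⟨Finset.sum_congr rfl fun π _ => ?_, Finset.sum_congr rfl fun π _ => ?_⟩ <;>
    simp only [term] <;> ring

theorem diffs (B : Base G) : ∀ᶠ N in atTop, ∀ x : L G → ℂ,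
    (Differentiable ℂ fun s : ℂ => det1 (sysO (EN (N := N)) (fun σ σ' y => B.psS σ σ' y.1)
      (fun σ σ' y => B.psU σ σ' y.2) (B.w0 (s, x)))) ∧
    (Differentiable ℂ fun s : ℂ => det1 (sysA (EN (N := N)) (fun σ σ' y => B.psS σ σ' y.1)
      (fun σ σ' y => B.psU σ σ' y.2) (B.w0 (s, x)))) ∧
    Differentiable ℂ fun s : ℂ => det1 (sysD (EN (N := N)) (fun σ σ' y => B.psS σ σ' y.1)
      (fun σ σ' y => B.psU σ σ' y.2) (B.w0 (s, x))) := by
  obtain ⟨C, hC⟩ := B.rb_diff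
  filter_upwards [hC] with N hN x
  have hm : MapsTo (fun z : ℂ × ℂ × ℂ => z.2) (univ ×ˢ ball 0 B.R) (ball 0 B.R) :=
    fun z hz => hz.2
  obtain ⟨h1, h2, h3⟩ := diffOn_sys2 (E := EN (N := N))
    (f := fun (_ : ℂ) σ σ' y => B.psS σ σ' y.1) (g := fun (_ : ℂ) σ σ' y => B.psU σ σ' y.2)
    (w := fun s : ℂ => B.w0 (s, x)) isOpen_univ B.one_lt_R B.q_lt
    (fun σ σ' h => (Rugh2.into_fst (B.into σ σ' h).1).1.comp differentiableOn_snd hm)
    (fun σ σ' h => (Rugh2.into_snd (B.into σ σ' h).2).1.comp differentiableOn_snd hm)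
    (fun σ σ' h => (DifferentiableOn.mul differentiableOn_fst.neg
      ((hN oo hyp_oo σ σ' h).2.1.comp differentiableOn_snd hm)).cexp.const_mul (wt x σ))
    fun σ σ' h _ _ y hy => ⟨(Rugh2.into_fst (B.into σ σ' h).1).2 y hy,
      (Rugh2.into_snd (B.into σ σ' h).2).2 y hy⟩
  rw [differentiableOn_univ] at h1 h2 h3
  exact ⟨differentiable_det1.comp h1, differentiable_det1.comp h2, differentiable_det1.comp h3⟩

omit hG in
theorem diff_Zd (D : Nest G 1) (c : ℂ) (x : L G → ℂ) :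
    Differentiable ℂ fun s : ℂ => Zd D (c + s) x :=
  differentiable_det1.comp ((differentiable_Lop D).comp (f := fun s : ℂ => (c + s, x))
    (by fun_prop))

theorem Zd_eq (D : Nest G 1) (k : ℕ) {s : ℂ} {x : L G → ℂ} (h1 : 3 / 2 ≤ s.re)
    (h2 : ‖x‖ ≤ Real.log D.t / 4) : Zd D (k + s) x = exp (-F k 1 (s, x)) :=
  det_eq D (p := (s, x)) (le_add_of_le_of_nonneg h1 (Nat.cast_nonneg _)) h2 (tr_Lop D k s x)

end Fact

theorem exists_fact (B : Base G) : ∀ᶠ N in atTop, ∃ δ > 0, ∃ U₁ U₂ U₃ : ℂ × (L G → ℂ) → ℂ,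
    DifferentiableOn ℂ U₁ (ball 0 δ) ∧ DifferentiableOn ℂ U₂ (ball 0 δ) ∧
    DifferentiableOn ℂ U₃ (ball 0 δ) ∧ ∀ p ∈ ball (0 : ℂ × (L G → ℂ)) δ,
      U₁ p ≠ 0 ∧ U₂ p ≠ 0 ∧ U₃ p ≠ 0 ∧
      det1 (sysO (EN (N := N)) (fun σ σ' y => B.psS σ σ' y.1) (fun σ σ' y => B.psU σ σ' y.2)
        (B.w0 p)) = Zd B.D1 p.1 p.2 * Zd B.D1 (1 + p.1) p.2 * U₁ p ∧
      det1 (sysA (EN (N := N)) (fun σ σ' y => B.psS σ σ' y.1) (fun σ σ' y => B.psU σ σ' y.2)
        (B.w0 p)) = Zd B.D1 (1 + p.1) p.2 * U₂ p ∧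
      det1 (sysD (EN (N := N)) (fun σ σ' y => B.psS σ σ' y.1) (fun σ σ' y => B.psU σ σ' y.2)
        (B.w0 p)) = Zd B.D1 (1 + p.1) p.2 * U₃ p := by
  filter_upwards [Fact.traces B, Fact.diffs B] with N ht hd
  have hτ := Real.log_pos B.D1.one_lt_t
  have hsub : ball (0 : ℂ × (L G → ℂ)) (min (1 / 2) (Real.log B.D1.t / 4)) ⊆ Fact.Om B.D1 :=
    fun p hp => by
      rw [mem_ball_zero_iff, lt_min_iff] at hp
      refine ⟨?_, (norm_snd_le p).trans_lt hp.2⟩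
      linarith [(abs_le.1 (abs_re_le_norm p.1)).1, norm_fst_le p, hp.1]
  have hF := (Fact.diffOn_F B.D1).neg.cexp
  refine ⟨min (1 / 2) (Real.log B.D1.t / 4), by positivity,
    fun p => exp (-Fact.F 2 2 p) * exp (-Fact.F 2 2 p), fun p => exp (-Fact.F 2 2 p),
    fun p => exp (-Fact.F 2 2 p), (hF.mul hF).mono hsub, hF.mono hsub, hF.mono hsub,
    fun ⟨s, x⟩ hp => ⟨mul_ne_zero (exp_ne_zero _) (exp_ne_zero _), exp_ne_zero _, exp_ne_zero _,
      ?_⟩⟩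
  obtain ⟨hs, hx⟩ := hsub hp
  obtain ⟨d1, d2, d3⟩ := hd x
  have hU : DifferentiableOn ℂ (fun s : ℂ => exp (-Fact.F 2 2 (s, x))) {s | -(1 / 2) < s.re} :=
    hF.comp (f := fun s : ℂ => (s, x)) (by fun_prop) fun s hs => ⟨hs, hx⟩
  have z0 := (Fact.diff_Zd B.D1 0 x).differentiableOn (s := {s | -(1 / 2) < s.re})
  have z1 := (Fact.diff_Zd B.D1 1 x).differentiableOn (s := {s | -(1 / 2) < s.re})
  simp only [zero_add] at z0
  have hr : ∀ (t : ℝ) (k : ℕ), 3 / 2 < t → 3 / 2 ≤ ((t : ℂ), x).1.re + k := fun t k h =>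
    le_add_of_le_of_nonneg h.le (Nat.cast_nonneg _)
  have sm : ∀ (t : ℝ) (k j : ℕ), 3 / 2 < t →
      Summable fun n : ℕ => Fact.T k j ((t : ℂ), x) n / (n + 1) := fun t k j h =>
    Fact.summ B.D1 k j (hr t k h) hx.le
  have e0 : ∀ t : ℝ, 3 / 2 < t → Zd B.D1 t x = exp (-Fact.F 0 1 (t, x)) := fun t h => by
    simpa using Fact.Zd_eq B.D1 0 (s := t) h.le hx.le
  have e1 : ∀ t : ℝ, 3 / 2 < t → Zd B.D1 (1 + t) x = exp (-Fact.F 1 1 (t, x)) := fun t h => by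
    simpa using Fact.Zd_eq B.D1 1 (s := t) h.le hx.le
  have eA : ∀ t : ℝ, 3 / 2 < t → exp (-Fact.F 1 2 (t, x)) =
      Zd B.D1 (1 + t) x * exp (-Fact.F 2 2 (t, x)) := fun t h => by
    rw [e1 t h, ← exp_add, ← neg_add, Fact.F, Fact.F, Fact.F,
      ← (sm t 1 1 h).tsum_add (sm t 2 2 h)]
    simp only [Fact.T_A B.D1, add_div]
  refine ⟨eqOn_halfplane_of_real (C := 3 / 2) d1.differentiableOn ((z0.mul z1).mul (hU.mul hU))
      (fun t h _ => ?_) hs,
    eqOn_halfplane_of_real (C := 3 / 2) d2.differentiableOn (z1.mul hU) (fun t h _ =>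
      (Fact.det_eq B.D1 (hr t 1 h) hx.le fun n => (ht _ n).2.1).trans (eA t h)) hs,
    eqOn_halfplane_of_real (C := 3 / 2) d3.differentiableOn (z1.mul hU) (fun t h _ =>
      (Fact.det_eq B.D1 (hr t 1 h) hx.le fun n => (ht _ n).2.2).trans (eA t h)) hs⟩
  have hsum := ((Fact.summ_norm B.D1 0 2 (hr t 0 h) hx.le).add
    (Fact.summ_norm B.D1 2 2 (hr t 2 h) hx.le))
  rw [det1_eq_exp (hsum.of_nonneg_of_le (fun n => by positivity) fun n => by
    rw [(ht _ n).1, ← add_div]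
    exact div_le_div_of_nonneg_right (norm_add_le _ _) (by positivity))]
  simp only [(ht _ _).1, Fact.T_O B.D1, add_div, Pi.mul_apply]
  rw [((sm t 0 1 h).add (sm t 1 1 h)).tsum_add ((sm t 2 2 h).add (sm t 2 2 h)),
    (sm t 0 1 h).tsum_add (sm t 1 1 h), (sm t 2 2 h).tsum_add (sm t 2 2 h), e0 t h, e1 t h,
    ← exp_add, ← exp_add, ← exp_add]
  simp only [Fact.F]
  congr 1
  ring

end Pool.Agent.Lib.MP_de7bb2_an
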