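import Pool.Agent.Lib.MP_de7bb2_an.H20Det

/-! Leading coefficient of a determinant and families of fixed vectors. TASK LEAD. -/

namespace Pool.Agent.Lib.MP_de7bb2_an

open Filter Topology Metric

variable {ι : Type*}

namespace Lead

theorem det1_outer_one (a b : Vec ι) : det1 (outer a b) = 1 - dot b a := by
  have h := det1_outer (n := Unit) (fun _ => -a) (fun _ => b)
  simp only [Finset.univ_unique, Finset.sum_singleton, map_neg,
    _root_.neg_apply, neg_neg, Matrix.det_unique, Matrix.add_apply,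
    Matrix.one_apply_eq, Matrix.of_apply] at h
  rw [h, sub_eq_add_neg]

theorem exists_dual_one {v : Vec ι} (hv : v ≠ 0) : ∃ w : Vec ι, dot w v = 1 := by
  obtain ⟨w, hw⟩ := exists_dual (n := Unit) (v := fun _ => v)
    (linearIndependent_unique_iff.2 hv)
  exact ⟨w (), by simpa using hw () ()⟩

theorem isUnit_of_det {A : Nuc ι} (h : det1 A ≠ 0) :
    IsUnit (1 - mulV A : Vec ι →L[ℂ] Vec ι) := by
  obtain ⟨B, h1, h2⟩ := exists_inverse h
  have key : ∀ {A B : Nuc ι}, A + B - nmul A B = 0 →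
      (1 - mulV A : Vec ι →L[ℂ] Vec ι) * (1 - mulV B) = 1 := by
    intro A B h
    refine ContinuousLinearMap.ext fun v => ?_
    have h3 := congrArg (fun C => mulV C v) h
    simp only [map_sub, map_add, map_zero, _root_.sub_apply,
      _root_.add_apply, _root_.zero_apply, mulV_nmul] at h3
    simp only [mul_apply_eq_comp, _root_.sub_apply,
      one_apply_eq_self, map_sub]
    rw [← sub_eq_zero, ← neg_eq_zero, ← h3]
    abel
  exact ⟨⟨_, _, key h1, key h2⟩, rfl⟩

/-- Holomorphic implicit function and division at a simple zero. -/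
theorem implicit {P : Type*} [NormedAddCommGroup P] [NormedSpace ℂ P] [FiniteDimensional ℂ P]
    {g : ℂ × P → ℂ} {U : Set (ℂ × P)} (hU : IsOpen U) (h0 : (0 : ℂ × P) ∈ U)
    (hg : DifferentiableOn ℂ g U) (hg0 : g 0 = 0) {β : ℂ} (hβ : β ≠ 0)
    (hd : HasDerivAt (fun s => g (s, 0)) β 0) :
    ∃ δ > 0, ∃ (a : P → ℂ) (u : ℂ × P → ℂ), DifferentiableOn ℂ a (ball 0 δ) ∧
      DifferentiableOn ℂ u (ball 0 δ) ∧ a 0 = 0 ∧
      (∀ p ∈ ball (0 : P) δ, (a p, p) ∈ U ∧ g (a p, p) = 0) ∧
      ∀ x ∈ ball (0 : ℂ × P) δ, x ∈ U ∧ u x ≠ 0 ∧ g x = (x.1 - a x.2) * u x := by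
  have : CompleteSpace P := FiniteDimensional.complete ℂ P
  have hc : ContDiffAt ℂ 1 g 0 := MP_08f711_an.contDiffAt_one_of_differentiableOn hU hg h0
  have hG : ContDiffAt ℂ 1 (fun y : P × ℂ => g (y.2, y.1)) 0 :=
    ContDiffAt.comp (g := g) (f := fun y : P × ℂ => (y.2, y.1)) 0 hc (by fun_prop)
  have hinv : (fderiv ℂ (fun y : P × ℂ => g (y.2, y.1)) 0 ∘L
      ContinuousLinearMap.inr ℂ P ℂ).IsInvertible := by
    have h1 : HasFDerivAt (fun s : ℂ => g (s, 0)) (fderiv ℂ (fun y : P × ℂ => g (y.2, y.1)) 0 ∘L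
        ContinuousLinearMap.inr ℂ P ℂ) 0 :=
      HasFDerivAt.comp (g := fun y : P × ℂ => g (y.2, y.1)) (f := fun s : ℂ => ((0 : P), s)) 0
        (hG.differentiableAt one_ne_zero).hasFDerivAt (ContinuousLinearMap.inr ℂ P ℂ).hasFDerivAt
    exact ⟨_, (hd.hasFDerivAt_equiv hβ).unique h1⟩
  set a := hG.implicitFunction one_ne_zero hinv with ha
  have ha0 : a 0 = 0 := hG.implicitFunction_apply_self one_ne_zero hinv
  have ha1 : ContDiffAt ℂ 1 a 0 := hG.contDiffAt_implicitFunction one_ne_zero hinv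
  have ha2 : ∀ᶠ p in 𝓝 (0 : P), g (a p, p) = 0 :=
    (hG.eventually_apply_implicitFunction one_ne_zero hinv).mono fun p hp => hp.trans hg0
  have ha3 : ∀ᶠ p in 𝓝 (0 : P), DifferentiableAt ℂ a p :=
    (ha1.eventually (by simp)).mono fun p hp => hp.differentiableAt one_ne_zero
  have hac : ContinuousAt (fun x : ℂ × P => a x.2) 0 :=
    ContinuousAt.comp (g := a) (f := Prod.snd) ha1.continuousAt continuousAt_snd
  have hτ : Tendsto (fun x : ℂ × P => (x.1 + a x.2, x.2)) (𝓝 0) (𝓝 0) := by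
    have h1 : ContinuousAt (fun x : ℂ × P => (x.1 + a x.2, x.2)) 0 :=
      (continuousAt_fst.add hac).prodMk continuousAt_snd
    simpa [ContinuousAt, ha0, Prod.mk_zero_zero] using h1
  have hσ : Tendsto (fun x : ℂ × P => (x.1 - a x.2, x.2)) (𝓝 0) (𝓝 0) := by
    have h1 : ContinuousAt (fun x : ℂ × P => (x.1 - a x.2, x.2)) 0 :=
      (continuousAt_fst.sub hac).prodMk continuousAt_snd
    simpa [ContinuousAt, ha0, Prod.mk_zero_zero] using h1
  have hsnd : Tendsto (Prod.snd : ℂ × P → P) (𝓝 0) (𝓝 0) := continuous_snd.tendsto 0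
  obtain ⟨r, hr, h3⟩ := Metric.eventually_nhds_iff_ball.1
    ((hτ.eventually (hU.mem_nhds h0)).and (hsnd.eventually (ha2.and ha3)))
  have hmem : ∀ p ∈ ball (0 : P) r, ((0 : ℂ), p) ∈ ball (0 : ℂ × P) r := fun p hp => by
    simpa using hp
  have hf : DifferentiableOn ℂ (fun x : ℂ × P => g (x.1 + a x.2, x.2))
      (ball 0 r ×ˢ ball 0 r) := by
    rw [ball_prod_same]
    intro x hx
    have h4 := h3 x hx
    refine DifferentiableAt.differentiableWithinAt ?_
    refine DifferentiableAt.comp (g := g) (f := fun x : ℂ × P => (x.1 + a x.2, x.2)) x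
      (hg.differentiableAt (hU.mem_nhds h4.1)) ?_
    exact (differentiableAt_fst.add (DifferentiableAt.comp (g := a) (f := Prod.snd) x h4.2.2
      differentiableAt_snd)).prodMk differentiableAt_snd
  obtain ⟨Y, hY, hY0, hY1⟩ := exists_div_pow isOpen_ball hr hf 1
  rw [ball_prod_same] at hY
  have hYc : ContinuousAt Y 0 := (hY.differentiableAt (ball_mem_nhds _ hr)).continuousAt
  have hY2 : Y 0 = β := by
    have h4 := hY0 0 (mem_ball_self hr)
    simp only [ha0, add_zero, tay, iteratedDeriv_one, Nat.factorial_one, Nat.cast_one,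
      div_one] at h4
    exact h4.trans hd.deriv
  obtain ⟨δ, hδ, h5⟩ := Metric.eventually_nhds_iff_ball.1
    ((hσ.eventually ((hYc.eventually_ne (hY2 ▸ hβ)).and (ball_mem_nhds _ hr))).and
      ((Filter.Eventually.and (hU.mem_nhds h0) (ball_mem_nhds (0 : ℂ × P) hr))))
  have hmem' : ∀ p ∈ ball (0 : P) δ, ((0 : ℂ), p) ∈ ball (0 : ℂ × P) r := fun p hp =>
    (h5 (0, p) (by simpa using hp)).2.2
  refine ⟨δ, hδ, a, fun x => Y (x.1 - a x.2, x.2), fun p hp => ?_, fun x hx => ?_, ha0,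
    fun p hp => ?_, fun x hx => ⟨(h5 x hx).2.1, (h5 x hx).1.1, ?_⟩⟩
  · exact (h3 _ (hmem' p hp)).2.2.differentiableWithinAt
  · refine DifferentiableAt.differentiableWithinAt ?_
    refine DifferentiableAt.comp (g := Y) (f := fun x : ℂ × P => (x.1 - a x.2, x.2)) x
      (hY.differentiableAt (isOpen_ball.mem_nhds (h5 x hx).1.2)) ?_
    exact (differentiableAt_fst.sub (DifferentiableAt.comp (g := a) (f := Prod.snd) x
      (h3 x (h5 x hx).2.2).2.2 differentiableAt_snd)).prodMk differentiableAt_snd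
  · have h6 := h3 _ (hmem' p hp)
    have h7 : ((0 : ℂ) + a p, p) ∈ U := h6.1
    rw [zero_add] at h7
    exact ⟨h7, h6.2.1⟩
  · have h6 : (x.1 - a x.2, x.2) ∈ ball (0 : ℂ) r ×ˢ ball (0 : P) r := by
      rw [ball_prod_same]
      exact (h5 x hx).1.2
    have h7 := hY1 x.2 h6.2 (by
      rw [Nat.cast_one, Order.one_le_iff_ne_zero, Ne, analyticOrderAt_eq_zero, not_or, not_not,
        not_not]
      refine ⟨?_, by simpa using (h3 _ (hmem _ h6.2)).2.1⟩
      refine DifferentiableOn.analyticAt (s := ball 0 r) (fun s hs => ?_) (ball_mem_nhds _ hr)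
      refine DifferentiableAt.differentiableWithinAt ?_
      exact DifferentiableAt.comp (g := fun x : ℂ × P => g (x.1 + a x.2, x.2))
        (f := fun s : ℂ => (s, x.2)) s
        (hf.differentiableAt ((isOpen_ball.prod isOpen_ball).mem_nhds ⟨hs, h6.2⟩))
        (by fun_prop)) _ h6.1
    simpa using h7

end Lead

theorem lead_coeff {n : ℕ} {A₀ : Nuc ι} {l v : Fin n → Vec ι} (hl : LinearIndependent ℂ l)
    (hv : LinearIndependent ℂ v) (hl0 : ∀ i, mulV (ntr A₀) (l i) = l i)
    (hv0 : ∀ j, mulV A₀ (v j) = v j) :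
    ∃ C : ℂ, ∀ (A : ℂ → Nuc ι) (A' : Nuc ι), A 0 = A₀ → HasDerivAt A A' 0 →
      Tendsto (fun s => det1 (A s) / s ^ n) (𝓝[≠] 0)
        (𝓝 (C * (Matrix.of fun i j => -dot (l i) (mulV A' (v j))).det)) := by
  obtain ⟨w, hw⟩ := exists_dual hv
  obtain ⟨m, hm⟩ := exists_dual hl
  set Pr : Nuc ι := ∑ j, outer (v j) (w j) with hPr
  set A₁ : Nuc ι := A₀ - ∑ j, outer (m j) (w j) with hA₁
  have hAP : ∀ B : Nuc ι, nmul B Pr = ∑ j, outer (mulV B (v j)) (w j) := fun B => by
    simp only [hPr, map_sum, nmul_outer]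
  have hA0P : nmul A₀ Pr = Pr := by
    rw [hAP]
    simp only [hv0, hPr]
  refine ⟨det1 A₁, fun A A' h0 hA => ?_⟩
  have hT : det1 (A₀ + nmul A' Pr) =
      det1 A₁ * (Matrix.of fun i j => -dot (l i) (mulV A' (v j))).det := by
    have h1 := det1_outer (fun j => -mulV A' (v j) - m j) l
    have h2 : (1 + Matrix.of fun i j => dot (l i) (-mulV A' (v j) - m j)) =
        Matrix.of fun i j => -dot (l i) (mulV A' (v j)) := by
      ext i j
      simp only [Matrix.add_apply, Matrix.of_apply, map_sub, map_neg, Matrix.one_apply,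
        dot_comm (l i) (m j), hm j i]
      by_cases h : i = j
      · simp [h]
      · simp [h, Ne.symm h]
    have h3 : ∀ i, mulV (ntr A₁) (l i) = l i - w i := fun i => by
      simp only [hA₁, map_sub, map_sum, _root_.sub_apply,
        _root_.sum_apply, hl0, ntr_outer, mulV_outer, hm]
      simp
    rw [← h2, ← h1, mul_comm, ← det1_mul]
    congr 1
    simp only [map_neg, map_sum, _root_.neg_apply, _root_.sum_apply,
      outer_nmul, h3]
    simp only [hA₁, hAP, map_sub, map_neg, _root_.sub_apply,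
      _root_.neg_apply, Finset.sum_sub_distrib, Finset.sum_neg_distrib]
    abel
  have hE : ∀ s : ℂ, s ≠ 0 → det1 (A s) / s ^ n =
      det1 (A s - nmul (A s - A₀) Pr + nmul (s⁻¹ • (A s - A₀)) Pr) := fun s hs => by
    have h1 := det1_outer (fun j => (s⁻¹ - 1) • v j) w
    have h2 : (1 + Matrix.of fun i j => dot (w i) ((s⁻¹ - 1) • v j)) =
        s⁻¹ • (1 : Matrix (Fin n) (Fin n) ℂ) := by
      ext i j
      simp only [Matrix.add_apply, Matrix.of_apply, map_smul, hw, Matrix.one_apply,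
        Matrix.smul_apply, smul_eq_mul]
      split_ifs <;> ring
    rw [h2, Matrix.det_smul, Matrix.det_one, mul_one, Fintype.card_fin] at h1
    rw [div_eq_mul_inv, ← inv_pow, ← h1, ← det1_mul]
    congr 1
    have h3 : -∑ j, outer ((s⁻¹ - 1) • v j) (w j) = (1 - s⁻¹) • Pr := by
      simp only [map_smul, _root_.smul_apply, hPr, ← Finset.smul_sum]
      rw [← neg_smul, neg_sub]
    rw [h3]
    simp only [map_smul, map_sub, _root_.smul_apply, _root_.sub_apply,
      hA0P]
    module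
  have hlim1 : Tendsto A (𝓝[≠] 0) (𝓝 A₀) :=
    h0 ▸ hA.continuousAt.tendsto.mono_left nhdsWithin_le_nhds
  have hlim2 : Tendsto (fun s : ℂ => s⁻¹ • (A s - A₀)) (𝓝[≠] 0) (𝓝 A') := by
    have h1 := hasDerivAt_iff_tendsto_slope_zero.1 hA
    simpa only [zero_add, h0] using h1
  have hc : Continuous fun B : Nuc ι => nmul B Pr := by fun_prop
  have hlim : Tendsto (fun s : ℂ => A s - nmul (A s - A₀) Pr + nmul (s⁻¹ • (A s - A₀)) Pr)
      (𝓝[≠] 0) (𝓝 (A₀ - nmul (A₀ - A₀) Pr + nmul A' Pr)) :=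
    (hlim1.sub ((hc.tendsto _).comp (hlim1.sub_const A₀))).add ((hc.tendsto _).comp hlim2)
  rw [sub_self, map_zero, _root_.zero_apply, sub_zero] at hlim
  rw [← hT]
  refine ((differentiable_det1.continuous.tendsto _).comp hlim).congr' ?_
  filter_upwards [self_mem_nhdsWithin] with s hs
  exact (hE s hs).symm

/-- A simple zero and its fixed vector move holomorphically with the parameters. -/
theorem simple_family {P : Type*} [NormedAddCommGroup P] [NormedSpace ℂ P] [FiniteDimensional ℂ P]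
    {A : ℂ × P → Nuc ι} (hA : Differentiable ℂ A) {l₀ v₀ : Vec ι} {A' : Nuc ι}
    (hv : mulV (A 0) v₀ = v₀) (hl : mulV (ntr (A 0)) l₀ = l₀)
    (huniq : ∀ l, mulV (ntr (A 0)) l = l → ∃ c : ℂ, l = c • l₀)
    (hA' : HasDerivAt (fun s => A (s, 0)) A' 0) (hB : dot l₀ (mulV A' v₀) ≠ 0) :
    ∃ δ > 0, ∃ (a : P → ℂ) (v : P → Vec ι) (u : ℂ × P → ℂ),
      DifferentiableOn ℂ a (ball 0 δ) ∧ DifferentiableOn ℂ v (ball 0 δ) ∧
      DifferentiableOn ℂ u (ball 0 δ) ∧ a 0 = 0 ∧ v 0 = v₀ ∧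
      (∀ p ∈ ball (0 : P) δ, mulV (A (a p, p)) (v p) = v p) ∧
      ∀ x ∈ ball (0 : ℂ × P) δ, u x ≠ 0 ∧ det1 (A x) = (x.1 - a x.2) * u x := by
  obtain ⟨ls, hls⟩ := Lead.exists_dual_one (v := l₀) (fun h => hB (by simp [h]))
  obtain ⟨vs, hvs⟩ := Lead.exists_dual_one (v := v₀) (fun h => hB (by simp [h]))
  set A₁ : ℂ × P → Nuc ι := fun x => A x - outer ls vs with hA₁
  have hA₁d : Differentiable ℂ A₁ := hA.sub_const _
  have hDd : Differentiable ℂ fun x => det1 (A₁ x) := differentiable_det1.comp hA₁d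
  have hD0 : det1 (A₁ 0) ≠ 0 := by
    rw [← det1_ntr, Ne, det1_eq_zero_iff]
    rintro ⟨m, hm0, hm⟩
    simp only [hA₁, map_sub, _root_.sub_apply, ntr_outer, mulV_outer] at hm
    have h1 := congrArg (fun y => dot y v₀) hm
    simp only [map_sub, map_smul, _root_.sub_apply, _root_.smul_apply,
      ← dot_mulV, hv, hvs, smul_eq_mul, mul_one, sub_eq_self] at h1
    rw [h1, zero_smul, sub_zero] at hm
    obtain ⟨c, rfl⟩ := huniq m hm
    rw [map_smul, hls, smul_eq_mul, mul_one] at h1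
    exact hm0 (by rw [h1, zero_smul])
  set U : Set (ℂ × P) := {x | det1 (A₁ x) ≠ 0} with hU
  have hUo : IsOpen U := isOpen_ne_fun hDd.continuous continuous_const
  set T : ℂ × P → Vec ι →L[ℂ] Vec ι := fun x => 1 - mulV (A₁ x) with hT
  have hTd : Differentiable ℂ T := (mulV.differentiable.comp hA₁d).const_sub _
  set w : ℂ × P → Vec ι := fun x => Ring.inverse (T x) ls with hw
  have hwd : ∀ x ∈ U, DifferentiableAt ℂ w x := fun x hx =>
    (DifferentiableAt.comp (g := Ring.inverse) (f := T) x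
      (differentiableAt_inverse (Lead.isUnit_of_det hx)) (hTd x)).clm_apply
      (differentiableAt_const _)
  have hTw : ∀ x ∈ U, w x - mulV (A₁ x) (w x) = ls := fun x hx =>
    congrArg (fun L : Vec ι →L[ℂ] Vec ι => L ls)
      (Ring.mul_inverse_cancel (T x) (Lead.isUnit_of_det hx))
  have hw0 : w 0 = v₀ := by
    have h1 : T 0 v₀ = ls := by
      simp only [hT, hA₁, map_sub, _root_.sub_apply, one_apply_eq_self,
        hv, mulV_outer, hvs, one_smul, sub_sub_cancel]
    have h2 := congrArg (fun L : Vec ι →L[ℂ] Vec ι => L v₀)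
      (Ring.inverse_mul_cancel (T 0) (Lead.isUnit_of_det hD0))
    simpa only [mul_apply_eq_comp, h1, one_apply_eq_self] using h2
  set g : ℂ × P → ℂ := fun x => 1 - dot vs (w x) with hg
  have hgw : ∀ x ∈ U, w x - mulV (A x) (w x) = g x • ls := fun x hx => by
    have h1 := hTw x hx
    simp only [hA₁, map_sub, _root_.sub_apply, mulV_outer] at h1
    simp only [hg, sub_smul, one_smul]
    rw [eq_sub_iff_add_eq, ← h1, h1]
    nth_rewrite 2 [← h1]
    abel
  have hdet : ∀ x ∈ U, det1 (A x) = det1 (A₁ x) * g x := fun x hx => by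
    change det1 (A x) = det1 (A₁ x) * (1 - dot vs (w x))
    rw [← Lead.det1_outer_one, ← det1_mul, nmul_outer, add_sub_assoc]
    have h1 := congrArg (fun y => outer y vs) (hTw x hx)
    simp only [map_sub, _root_.sub_apply] at h1
    rw [h1]
    exact congrArg det1 (sub_add_cancel _ _).symm
  have hgd : DifferentiableOn ℂ g U := fun x hx =>
    (((dot vs).differentiableAt.comp x (hwd x hx)).const_sub 1).differentiableWithinAt
  have hg0 : g 0 = 0 := by simp only [hg, hw0, hvs, sub_self]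
  have hder : HasDerivAt (fun s => g (s, 0)) (-dot l₀ (mulV A' v₀)) 0 := by
    have hs : Continuous fun s : ℂ => (s, (0 : P)) := by fun_prop
    have hev : (fun s : ℂ => g (s, 0)) =ᶠ[𝓝 0]
        fun s => -dot l₀ (mulV (A (s, 0) - A 0) (w (s, 0))) := by
      filter_upwards [(hs.tendsto 0).eventually (hUo.mem_nhds hD0)] with s hs
      have h1 := congrArg (dot l₀) (hgw _ hs)
      rw [map_smul, dot_comm l₀ ls, hls, smul_eq_mul, mul_one] at h1
      rw [← h1]
      simp only [map_sub, _root_.sub_apply, dot_mulV l₀ (A 0), hl, neg_sub]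
    refine HasDerivAt.congr_of_eventuallyEq ?_ hev
    have h1 : HasDerivAt (fun s : ℂ => mulV (A (s, 0) - A 0)) (mulV A') 0 :=
      mulV.hasFDerivAt.comp_hasDerivAt 0 (hA'.sub_const _)
    have h2 : DifferentiableAt ℂ (fun s : ℂ => w (s, 0)) 0 :=
      DifferentiableAt.comp (g := w) (f := fun s : ℂ => (s, (0 : P))) 0 (hwd _ hD0) (by fun_prop)
    have h3 := h1.clm_apply h2.hasDerivAt
    have h4 : A ((0 : ℂ), (0 : P)) - A 0 = 0 := sub_self _
    have h5 : w ((0 : ℂ), (0 : P)) = v₀ := hw0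
    rw [h4, h5, map_zero, _root_.zero_apply, add_zero] at h3
    exact ((dot l₀).hasFDerivAt.comp_hasDerivAt 0 h3).neg
  obtain ⟨δ, hδ, a, u, ha, hu, ha0, h1, h2⟩ :=
    Lead.implicit hUo hD0 hgd hg0 (neg_ne_zero.2 hB) hder
  refine ⟨δ, hδ, a, fun p => w (a p, p), fun x => det1 (A₁ x) * u x, ha, fun p hp => ?_,
    hDd.differentiableOn.mul hu, ha0, ?_, fun p hp => ?_,
    fun x hx => ⟨mul_ne_zero (h2 x hx).1 (h2 x hx).2.1, ?_⟩⟩
  · exact DifferentiableAt.comp_differentiableWithinAt (g := w) (f := fun p => (a p, p)) p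
      (hwd _ (h1 p hp).1) ((ha p hp).prodMk differentiableWithinAt_id)
  · simp only [ha0]
    exact hw0
  · have h3 := hgw _ (h1 p hp).1
    rw [(h1 p hp).2, zero_smul, sub_eq_zero] at h3
    exact h3.symm
  · rw [hdet x (h2 x hx).1, (h2 x hx).2.2]
    ring

/-- Logarithmic derivative of a determinant pencil. -/
theorem hasDerivAt_det_pencil {n : ℕ} (B B' : Matrix (Fin n) (Fin n) ℂ) (hB : B.det ≠ 0) :
    HasDerivAt (fun e : ℂ => (B + e • B').det) ((B⁻¹ * B').trace * B.det) 0 := by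
  set M := B⁻¹ * B' with hM
  set q := (Matrix.det (1 + (Polynomial.X : Polynomial ℂ) • M.map Polynomial.C)).divX.divX
    with hq
  have h1 : (fun e : ℂ => (B + e • B').det) =
      fun e => (1 + M.trace * e + q.eval e * e ^ 2) * B.det := by
    funext e
    rw [hq, ← Matrix.det_one_add_smul, mul_comm, ← Matrix.det_mul, Matrix.mul_add,
      Matrix.mul_one, Matrix.mul_smul, hM, Matrix.mul_nonsing_inv_cancel_left _ _ hB.isUnit]
  rw [h1]
  have h2 := ((((hasDerivAt_id (0 : ℂ)).const_mul M.trace).const_add 1).add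
    ((q.hasDerivAt 0).mul (hasDerivAt_pow 2 (0 : ℂ)))).mul_const B.det
  simpa using h2

end Pool.Agent.Lib.MP_de7bb2_an
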