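import Pool.Agent.Lib.MP_de7bb2_an.H20LebB

/-! The simple zero at `s = 1` for the trivial character. TASK LEB. -/

namespace Pool.Agent.Lib.MP_de7bb2_an

open Metric Set Complex Filter

variable {G : ℕ} {b : ZMod 2}

/-- Lebesgue measure on the arcs. -/
noncomputable def leb (D : Nest G b) : Vec (St G × ℕ) :=
  toVec fun i => arcI b i.1.2 fun E =>
    chI (D.τ i.1.2) i.1.2 E ^ i.2 * ((1 + (D.τ i.1.2 * chI (D.τ i.1.2) i.1.2 E) ^ 2) / E.1)

namespace Leb

theorem norm_Xc_pow (D : Nest G b) (m : L G) (a : ℕ) {y : ℂ} (hy : Arc b m (xi y)) :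
    ‖Xc D m (fun η => η ^ a) (xi y)‖ ≤ 2 * D.q ^ a := by
  have h := norm_chI_le D hy
  have hτ : D.τ m ≤ 1 := by nlinarith [D.τR_lt m, D.one_lt_R, D.τ_pos m]
  have h1 : ‖(D.τ m : ℂ) * chI (D.τ m) m (xi y)‖ ≤ 1 := by
    rw [norm_mul, norm_real, Real.norm_of_nonneg (D.τ_pos m).le]
    exact mul_le_one₀ hτ (norm_nonneg _) (h.trans D.q_lt.le)
  have h2 : ‖1 + ((D.τ m : ℂ) * chI (D.τ m) m (xi y)) ^ 2‖ ≤ 2 := by
    refine (norm_add_le _ _).trans ?_
    rw [norm_one, norm_pow]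
    nlinarith [norm_nonneg ((D.τ m : ℂ) * chI (D.τ m) m (xi y))]
  have e : (xi y).1 = 1 := rfl
  unfold Xc
  rw [e, div_one, norm_mul, norm_pow, mul_comm]
  exact mul_le_mul h2 (pow_le_pow_left₀ (norm_nonneg _) h a) (by positivity) zero_le_two

theorem leb_apply (D : Nest G b) (σ : St G) (a : ℕ) :
    leb D (σ, a) = II D σ.2 fun η => η ^ a := by
  have hq := D.q_pos.le
  have hs : Summable fun i : St G × ℕ => 2 * Real.pi * 2 * D.q ^ i.2 :=
    Summable.mul_of_nonneg (f := fun _ : St G => 2 * Real.pi * 2) (g := fun a : ℕ => D.q ^ a)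
      Summable.of_finite (summable_geometric_of_lt_one hq D.q_lt)
      (fun _ => by positivity) fun _ => by positivity
  refine toVec_apply (Summable.of_nonneg_of_le (fun _ => norm_nonneg _) (fun i => ?_) hs) (σ, a)
  rw [mul_assoc _ 2]
  exact norm_arcI_le (F := Xc D i.1.2 fun η => η ^ i.2) (by positivity)
    fun y hy => norm_Xc_pow D _ _ hy

theorem ev_eq (D : Nest G b) (σ : St G) {H : ℂ → ℂ} (hH : ContinuousOn H (closedBall 0 1))
    (hH' : DifferentiableOn ℂ H (ball 0 1)) : ev (leb D) σ H = II D σ.2 H := by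
  obtain ⟨M, hM⟩ := EvT.bdd (hH.mono sphere_subset_closedBall)
  have h := hasSum_arcI (b := b) (m := σ.2)
    (F := fun a Y => coef H a * Xc D σ.2 (fun η => η ^ a) Y) (u := fun a => M * (2 * D.q ^ a))
    (((summable_geometric_of_lt_one D.q_pos.le D.q_lt).mul_left 2).mul_left M)
    (fun a => continuousOn_const.mul (cont_Xc (continuous_pow a).continuousOn)) fun a y hy => by
      rw [norm_mul]
      exact mul_le_mul (norm_coef_le_one hM a) (norm_Xc_pow D _ _ hy) (norm_nonneg _)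
        ((norm_nonneg _).trans (hM 1 norm_one))
  have e : (arcI b σ.2 fun Y => ∑' a, coef H a * Xc D σ.2 (fun η => η ^ a) Y) = II D σ.2 H := by
    refine arcI_congr fun Y hY => ?_
    have := (hasSum_coef' hH hH' (mem_ball_zero_iff.2 ((norm_chI_le D hY).trans_lt D.q_lt))).mul_right
      ((1 + (D.τ σ.2 * chI (D.τ σ.2) σ.2 Y) ^ 2) / Y.1)
    simp only [mul_assoc] at this
    exact this.tsum_eq
  rw [← e, ← h.tsum_eq, ev]
  refine tsum_congr fun a => ?_
  rw [arcI_const_mul, leb_apply, mul_comm]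
  rfl

theorem Lop_one (D : Nest G b) : Lop D 1 0 =
    sys1 (StE b) (fun σ σ' => D.psi σ.2 σ'.2) fun σ σ' η => exp (-D.lj σ.2 σ'.2 η) := by
  simp [Lop]

theorem into_St (D : Nest G b) (σ σ' : St G) (h : StE b σ σ') : Into D.R D.q (D.psi σ.2 σ'.2) :=
  D.into _ _ h.1

theorem diff_exp (D : Nest G b) (σ σ' : St G) (h : StE b σ σ') :
    DifferentiableOn ℂ (fun η => exp (-D.lj σ.2 σ'.2 η)) (ball 0 D.R) :=
  (D.lj_diff _ _ h.1).neg.cexp

theorem sub_R (D : Nest G b) : closedBall (0 : ℂ) 1 ⊆ ball 0 D.R :=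
  closedBall_subset_ball D.one_lt_R

theorem ev_eq' (D : Nest G b) (σ : St G) {H : ℂ → ℂ} (hH : DifferentiableOn ℂ H (ball 0 D.R)) :
    ev (leb D) σ H = II D σ.2 H :=
  ev_eq D σ (hH.continuousOn.mono (sub_R D)) (hH.mono (ball_subset_ball D.one_lt_R.le))

end Leb

open Leb

variable [hG : Fact (2 ≤ G)]

set_option linter.unusedSectionVars false in
theorem ev_leb (D : Nest G b) (σ : St G) {H : ℂ → ℂ} (hH : ContinuousOn H (closedBall 0 1))
    (hH' : DifferentiableOn ℂ H (ball 0 1)) : ev (leb D) σ H = arcI b σ.2 fun E =>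
      H (chI (D.τ σ.2) σ.2 E) * ((1 + (D.τ σ.2 * chI (D.τ σ.2) σ.2 E) ^ 2) / E.1) :=
  ev_eq D σ hH hH'

theorem fixd_leb (D : Nest G b) : Fixd D 1 0 (leb D) := by
  refine lp.ext (funext fun i => ?_)
  obtain ⟨σ, a⟩ := i
  rw [Lop_one, Op1.mulV_apply_sys1 D.one_lt_R D.q_lt (into_St D) (diff_exp D), leb_apply,
    II_step (continuous_pow a).continuousOn, sum_StE]
  refine Finset.sum_congr rfl fun m' _ => ?_
  split_ifs with he
  · exact ev_eq' D _ ((D.lj_diff _ _ he).neg.cexp.mul ((D.into _ _ he).1.pow a))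
  · rfl

namespace Leb

theorem sum_words (b : ZMod 2) {F : V → ℂ} (hF : Test 1 F) (k : ℕ) :
    ∑ u ∈ admF G b (k + 1), arcI b (u.getLastD 0) (fun E => F (lin (wd u.dropLast) E)) =
      ∑ m : L G, arcI b m F := by
  induction k with
  | zero =>
    rw [sum_admF_one]
    simp
  | succ k ih =>
    rw [sum_admF_snoc, ← ih]
    refine Finset.sum_congr rfl fun u hu => ?_
    have hu0 : u ≠ [] := by
      rintro rfl
      simpa using (mem_admF.1 hu).1
    obtain ⟨v, m, rfl⟩ : ∃ v m, u = v ++ [m] :=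
      ⟨u.dropLast, u.getLast hu0, (List.dropLast_append_getLast hu0).symm⟩
    simp only [List.getLastD_concat, List.dropLast_concat, Word.lin_snoc]
    exact (arcI_step (hF.comp (wd v)).hom
      ((hF.comp (wd v)).continuousOn.mono fun Y hY => hY.1)).symm

end Leb

theorem tot_leb (D : Nest G b) {F : V → ℂ} (hF : Test 1 F) :
    tot D 0 (leb D) F = cI fun y => F (xi y) := by
  obtain ⟨N, hN⟩ := hF.good D 1
  rw [← sum_arcI (G := G) b hF.continuousOn, ← sum_words b hF N, tot]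
  simp only [fun m => piece_eq_lev (fixd_leb D) hF.hom (hN m) le_rfl, levG]
  rw [Finset.sum_comm]
  refine Finset.sum_congr rfl fun u hu => ?_
  obtain ⟨h1, h2⟩ := mem_admF.1 hu
  rw [Finset.sum_ite_eq, if_pos (Finset.mem_univ _), map_zero, Pi.zero_apply, exp_zero, one_mul,
    ev_eq' D _ (hN _ u h2 rfl h1.ge)]
  refine arcI_congr fun Y hY => ?_
  obtain ⟨t, -, c, hc, rfl⟩ := exists_chart D hY
  rw [Xc_smul_Xi D _ _ (ofReal_ne_zero.2 hc.ne'), map_smul, lin_one]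
  exact (mul_comm _ _).trans ((hF.hom c hc _ (D.nul_lift u t)).trans (by rw [exp_log hc])).symm

namespace Leb

variable {D : Nest G b} {l : Vec (St G × ℕ)} {m m' : L G} {t : ℝ}

omit hG in
open Classical in
theorem gen_fix (h : mulV (ntr (Lop D 1 0)) l = l) (σ' : St G) {y : ℂ} (hy : ‖y‖ ≤ 1) :
    gen l σ' y = ∑ σ, if StE b σ σ' then
      exp (-D.lj σ.2 σ'.2 y) * gen l σ (D.psi σ.2 σ'.2 y) else 0 := by
  rw [← gen_mulV_ntr_sys1 D.one_lt_R D.q_lt (into_St D) (diff_exp D) l σ' hy, ← Lop_one, h]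

omit hG in
theorem sol_gen (h : mulV (ntr (Lop D 1 0)) l = l) (φ : ℂ →L[ℝ] ℝ) :
    Sol D fun σ t => φ (gen l σ t) := by
  refine ⟨fun σ => φ.continuous.comp_continuousOn ((continuousOn_gen l σ).comp
    continuous_ofReal.continuousOn fun t ht => ?_), fun σ t ht => ?_, fun σ' t ht => ?_⟩
  · rw [mem_closedBall_zero_iff, norm_real]
    exact abs_le.2 ht
  · have h1 : AnalyticAt ℂ (gen l σ) t := (diffOn_gen l σ).analyticOnNhd isOpen_ball _
      (by rw [mem_ball_zero_iff, norm_real]; exact abs_lt.2 ht)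
    exact (φ.analyticAt _).comp
      (AnalyticAt.comp (g := gen l σ) (f := ofRealCLM) h1.restrictScalars (ofRealCLM.analyticAt t))
  · beta_reduce
    rw [gen_fix h σ' (aa_norm ht), map_sum]
    refine Finset.sum_congr rfl fun σ _ => ?_
    split_ifs with he
    · rw [exp_lj_real he.1 (aa_lt ht), psi_real he.1 (aa_lt ht), ← real_smul, map_smul, smul_eq_mul]
    · exact (map_zero φ).symm

theorem eq_zero_of_gen (h : mulV (ntr (Lop D 1 0)) l = l) {σ : St G} (hz : gen l σ 0 = 0) :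
    l = 0 := by
  have h1 : ∀ ρ, EqOn (gen l ρ) (fun _ => 0) (ball 0 1) := fun ρ =>
    eqOn_ball_of_real (diffOn_gen l ρ) (differentiableOn_const 0) one_pos fun x hx _ =>
      Complex.ext ((sol_gen h reCLM).eq_zero (zero_mem D σ.2) (by simp [hz]) ρ hx)
        ((sol_gen h imCLM).eq_zero (zero_mem D σ.2) (by simp [hz]) ρ hx)
  refine lp.ext (funext fun i => ?_)
  obtain ⟨ρ, a⟩ := i
  rw [← coef_gen, coef_congr (K := fun y => 0 * y) fun y hy => ?_, coef_const_mul, zero_mul]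
  · rfl
  · rw [gen_fix h ρ hy.le, zero_mul]
    refine Finset.sum_eq_zero fun σ _ => ?_
    split_ifs with he
    · rw [h1 σ (mem_ball_zero_iff.2 (((D.into _ _ he.1).2 y (mem_ball_R D hy.le)).trans_lt D.q_lt)),
        mul_zero]
    · rfl

/-- The coboundary term. -/
noncomputable def vv (D : Nest G b) (m : L G) (t : ℝ) : ℝ := Real.log (1 + (D.τ m * t) ^ 2)

omit hG in
theorem cont_vv (D : Nest G b) (m : L G) : Continuous (vv D m) :=
  Continuous.log (by fun_prop) fun t => by positivity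

theorem roof_eq (he : Edge b m m') (ht : t ∈ AA D m') :
    (D.lj m m' t).re + vv D m (pr D m m' t) = Real.log (1 + (D.τ m' * t) ^ 2 -
      2 * (c0 G / s0 G) * side (Xi (D.τ m') m' t) (wn m)) := by
  have h := refl_fst m (nul_Xi (D.τ m') m' t).1
  have e : ∀ τ x : ℝ, (1 + ((τ : ℂ) * x) ^ 2).re = 1 + (τ * x) ^ 2 := fun τ x => by norm_cast
  rw [mir_Xi he (aa_lt ht), Prod.smul_fst, smul_eq_mul, re_ofReal_mul, Xi_fst, Xi_fst, e, e, wr,
    Real.exp_neg, inv_inv] at h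
  rw [← h, Real.log_mul (Real.exp_pos _).ne' (by positivity), Real.log_exp, vv]

theorem roof_nonneg (he : Edge b m m') (ht : t ∈ AA D m') :
    vv D m' t ≤ (D.lj m m' t).re + vv D m (pr D m m' t) := by
  rw [roof_eq he ht]
  have h1 := ArcAux.side_le he (arc_iff.1 ht).2
  have h2 := div_pos (c0_pos (G := G)) (s0_pos (G := G))
  exact Real.log_le_log (by positivity) (by nlinarith)

theorem roof_pos (hf : Far m' m) (ht : t ∈ AA D m') :
    vv D m' t < (D.lj m m' t).re + vv D m (pr D m m' t) := by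
  rw [roof_eq (hf.symm.edge b) ht]
  obtain ⟨η, hη, hg⟩ := far_gap (G := G)
  have c₁ := (arc_iff.1 ht).2
  have h1 := hg m' m hf _ c₁.1 c₁.2.1
  have h3 := mul_pos hη ht.1.2.1
  have h2 := div_pos (c0_pos (G := G)) (s0_pos (G := G))
  exact Real.log_lt_log (by positivity) (by nlinarith)

open Classical in
theorem pairing_pos {u : St G → ℝ → ℝ} (hu : Sol D u) (hp : ∀ σ, ∀ t ∈ AA D σ.2, 0 < u σ t) :
    0 < ∑ σ' : St G, JJ D σ'.2 fun t => ∑ σ, if StE b σ σ' then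
      (D.lj σ.2 σ'.2 t).re * (wr D σ.2 σ'.2 t * u σ (pr D σ.2 σ'.2 t)) else 0 := by
  set h : St G → ℝ → ℝ := fun σ' t => ∑ σ, if StE b σ σ' then
      (D.lj σ.2 σ'.2 t).re * (wr D σ.2 σ'.2 t * u σ (pr D σ.2 σ'.2 t)) else 0 with hh
  have ch : ∀ σ', ContinuousOn (h σ') (Icc (-1) 1) := fun σ' => by
    refine continuousOn_finsetSum _ fun σ _ => ?_
    split_ifs with he
    · exact (cont_lj he.1).mul ((cont_wr he.1).mul ((hu.1 σ).comp (cont_pr he.1) (maps_pr he.1)))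
    · exact continuousOn_const
  have cw : ∀ σ : St G, ContinuousOn (fun t => u σ t * vv D σ.2 t) (Icc (-1) 1) := fun σ =>
    (hu.1 σ).mul (cont_vv D _).continuousOn
  have cP : ∀ σ : St G, ContinuousOn (fun t => h σ t + Lr D (fun σ t => u σ t * vv D σ.2 t) σ t -
      u σ t * vv D σ.2 t) (Icc (-1) 1) := fun σ => ((ch σ).add (cont_Lr cw σ)).sub (cw σ)
  have e : ∀ σ : St G, JJ D σ.2 (h σ) + JJ D σ.2 (Lr D (fun σ t => u σ t * vv D σ.2 t) σ) =
      JJ D σ.2 (fun t => h σ t + Lr D (fun σ t => u σ t * vv D σ.2 t) σ t - u σ t * vv D σ.2 t) +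
        JJ D σ.2 fun t => u σ t * vv D σ.2 t := fun σ => by
    rw [← JJ_add (ch σ) (cont_Lr cw σ), ← JJ_add (cP σ) (cw σ)]
    exact JJ_congr fun t _ => by ring
  have h1 := Finset.sum_congr (s₁ := Finset.univ) rfl fun σ _ => e σ
  rw [Finset.sum_add_distrib, Finset.sum_add_distrib, JJ_inv cw, add_left_inj] at h1
  have hP : ∀ σ' : St G, ∀ t ∈ AA D σ'.2, 0 < h σ' t +
      Lr D (fun σ t => u σ t * vv D σ.2 t) σ' t - u σ' t * vv D σ'.2 t := by
    intro σ' t ht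
    rw [← hu.2.2 σ' t ht]
    simp only [hh, Lr]
    rw [Finset.sum_mul, ← Finset.sum_add_distrib, ← Finset.sum_sub_distrib]
    refine Finset.sum_pos' (fun σ _ => ?_) ⟨pre σ' 2, Finset.mem_univ _, ?_⟩
    · split_ifs with he
      · have := mul_nonneg (mul_pos (wr_pos D σ.2 σ'.2 t) (hp σ _ (aa_step he.1 ht))).le
          (sub_nonneg.2 (roof_nonneg he.1 ht))
        linarith
      · simp
    · have he : StE b (pre σ' 2) σ' := stE_pre (far_add_two _)
      have := mul_pos (mul_pos (wr_pos D (pre σ' 2).2 σ'.2 t) (hp _ _ (aa_step he.1 ht)))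
        (sub_pos.2 (roof_pos (m := (pre σ' 2).2) (far_add_two _) ht))
      simp only [if_pos he]
      linarith
  change 0 < ∑ σ' : St G, JJ D σ'.2 (h σ')
  rw [h1]
  exact Finset.sum_pos (fun σ _ => II_pos (cP σ) (fun t ht => (hP σ t ht).le) (zero_mem D _)
    (hP σ 0 (zero_mem D _))) Finset.univ_nonempty

theorem leb_ne (D : Nest G b) : leb D ≠ 0 := by
  intro h
  have h1 := leb_apply D 0 0
  have h2 := II_pos (D := D) (m := 0) (h := fun _ => 1) continuousOn_const (fun _ _ => zero_le_one)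
    (zero_mem D 0) one_pos
  rw [h] at h1
  simp only [pow_zero] at h1
  rw [ofReal_one] at h2
  exact h2.ne (congrArg re h1)

end Leb

theorem exists_left (D : Nest G b) : ∃ l₀ : Vec (St G × ℕ), mulV (ntr (Lop D 1 0)) l₀ = l₀ ∧
    (∀ l, mulV (ntr (Lop D 1 0)) l = l → ∃ c : ℂ, l = c • l₀) ∧
    ∃ A', HasDerivAt (fun s => Lop D (1 + s) 0) A' 0 ∧ dot l₀ (mulV A' (leb D)) ≠ 0 := by
  obtain ⟨l₁, h0, h1⟩ := (det1_eq_zero_iff _).1 ((det1_ntr (Lop D 1 0)).trans
    ((det1_eq_zero_iff _).2 ⟨leb D, leb_ne D, fixd_leb D⟩))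
  have z1 : ‖(0 : ℂ)‖ ≤ 1 := by simp
  have hc : gen l₁ 0 0 ≠ 0 := fun h => h0 (eq_zero_of_gen h1 h)
  obtain ⟨l₀, hl, hg⟩ : ∃ l₀ : Vec (St G × ℕ), mulV (ntr (Lop D 1 0)) l₀ = l₀ ∧ gen l₀ 0 0 = 1 :=
    ⟨(gen l₁ 0 0)⁻¹ • l₁, by rw [map_smul, h1], by
      rw [← EvT.genL_apply _ _ z1, map_smul, EvT.genL_apply, smul_eq_mul, inv_mul_cancel₀ hc]⟩
  refine ⟨l₀, hl, fun l h => ⟨gen l 0 0, sub_eq_zero.1 (eq_zero_of_gen (D := D) (σ := 0) ?_ ?_)⟩,
    ?_⟩
  · rw [map_sub, map_smul, h, hl]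
  · rw [← EvT.genL_apply _ _ z1, map_sub, map_smul, EvT.genL_apply, EvT.genL_apply, hg,
      smul_eq_mul, mul_one, sub_self]
  have hd := hasDerivAt_sys1 D.one_lt_R D.q_lt (into_St D)
    (H := fun σ _ _ => exp (sgn σ.1 σ.2 * (0 : L G → ℂ) σ.2))
    (fun _ _ _ => differentiableOn_const _) (r := fun σ σ' => D.lj σ.2 σ'.2)
    (fun _ _ h => D.lj_diff _ _ h.1) (1 + 0)
  refine ⟨_, hd.comp_const_add 1 0, fun hz => ?_⟩
  simp only [Pi.zero_apply, mul_zero, exp_zero, one_mul, add_zero, neg_mul] at hz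
  have him : ∀ ρ (x : ℝ), |x| < 1 → gen l₀ ρ x = ((gen l₀ ρ x).re : ℂ) := fun ρ x hx =>
    Complex.ext rfl ((sol_gen hl imCLM).eq_zero (σ := 0) (zero_mem D _) (by simp [hg]) ρ hx)
  have hp := pairing_pos (sol_gen hl reCLM)
    ((sol_gen hl reCLM).pos (σ := 0) (by simp [hg]))
  rw [dot_mulV, dot_eq_sum_ev] at hz
  have hn := congrArg (fun z => (-z).re) hz
  simp only [neg_zero, zero_re] at hn
  refine hp.ne' (Eq.trans ?_ hn)
  rw [← Finset.sum_neg_distrib, re_sum]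
  refine Finset.sum_congr rfl fun σ' _ => congrArg re ?_
  rw [ev_eq D σ' (continuousOn_gen _ _) (diffOn_gen _ _), ← neg_one_mul, II, II, ← arcI_const_mul]
  refine Eq.trans (II_congr (K := fun y => -1 * gen _ σ' y) fun t ht => ?_)
    (arcI_congr fun Y _ => mul_assoc _ _ _)
  rw [gen_mulV_ntr_sys1 D.one_lt_R D.q_lt (into_St D)
    (H := fun σ σ' y => -(D.lj σ.2 σ'.2 y * exp (-D.lj σ.2 σ'.2 y)))
    (fun σ σ' h => ((D.lj_diff _ _ h.1).mul (diff_exp D σ σ' h)).neg) l₀ σ' (aa_norm ht),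
    ofReal_re, ofReal_sum, Finset.mul_sum]
  refine Finset.sum_congr rfl fun σ _ => ?_
  split_ifs with he
  · rw [exp_lj_real he.1 (aa_lt ht), psi_real he.1 (aa_lt ht), ofReal_mul, ofReal_mul,
      ← lj_real he.1 (aa_lt ht), reCLM_apply, ← him σ _ (aa_lt (aa_step he.1 ht))]
    ring
  · simp

end Pool.Agent.Lib.MP_de7bb2_an
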