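import Pool.Agent.Lib.MP_de7bb2_an.H20Pois
import Pool.Agent.Lib.MP_de7bb2_an.H20Leb
import Pool.Agent.Lib.MP_de7bb2_an.H20Lead

/-! The simple zero near `s = 1` and its eigenfunction. TASK FAM. -/

namespace Pool.Agent.Lib.MP_de7bb2_an

open Metric Set Complex Filter

variable {G : ℕ} {b : ZMod 2}

structure Fam (D : Nest G b) where
  δ : ℝ
  a : (L G → ℂ) → ℂ
  v : (L G → ℂ) → Vec (St G × ℕ)
  u : ℂ × (L G → ℂ) → ℂ
  δ_pos : 0 < δ
  a_diff : DifferentiableOn ℂ a (ball 0 δ)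
  v_diff : DifferentiableOn ℂ v (ball 0 δ)
  u_diff : DifferentiableOn ℂ u (ball 0 δ)
  a_zero : a 0 = 0
  v_zero : v 0 = leb D
  fixd : ∀ x ∈ ball (0 : L G → ℂ) δ, Fixd D (1 + a x) x (v x)
  nr : ∀ x ∈ ball (0 : L G → ℂ) δ, NR (1 + a x) x
  fac : ∀ p ∈ ball (0 : ℂ × (L G → ℂ)) δ, u p ≠ 0 ∧ Zd D (1 + p.1) p.2 = (p.1 - a p.2) * u p

namespace FamA

open Topology ComplexConjugate Pool.Agent.Lib.MP_08f711_an

/-- A function which is locally a sum of a holomorphic and an antiholomorphic function. -/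
theorem harm_of_local {Θ : ℂ → ℂ} (h : ∀ r : ℝ, 0 < r → r < 1 → ∃ h1 h2 : ℂ → ℂ,
    DifferentiableOn ℂ h1 (ball 0 r) ∧ DifferentiableOn ℂ h2 (ball 0 r) ∧
      ∀ z ∈ ball (0 : ℂ) r, Θ z = h1 z + h2 (conj z)) :
    ∃ ω ω' : ℂ → ℂ, DifferentiableOn ℂ ω (ball 0 1) ∧
      DifferentiableOn ℂ (fun z => conj (ω' z)) (ball 0 1) ∧
      ∀ z ∈ ball (0 : ℂ) 1, HasFDerivAt Θ (wirt (ω z) (ω' z)) z := by
  have cj : ∀ {r : ℝ} {z : ℂ}, z ∈ ball (0 : ℂ) r → conj z ∈ ball (0 : ℂ) r := fun hz => by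
    simpa using hz
  have key : ∀ z ∈ ball (0 : ℂ) 1, ∃ r : ℝ, z ∈ ball (0 : ℂ) r ∧ r < 1 ∧ ∃ k1 k2 : ℂ → ℂ,
      DifferentiableOn ℂ k1 (ball 0 r) ∧ DifferentiableOn ℂ k2 (ball 0 r) ∧
        ∀ w ∈ ball (0 : ℂ) r, HasFDerivAt Θ (wirt (k1 w) (k2 (conj w))) w := fun z hz => by
    obtain ⟨r, hr, hr1⟩ := exists_between (mem_ball_zero_iff.1 hz)
    obtain ⟨h1, h2, d1, d2, e⟩ := h r ((norm_nonneg z).trans_lt hr) hr1
    refine ⟨r, mem_ball_zero_iff.2 hr, hr1, deriv h1, deriv h2, d1.deriv isOpen_ball,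
      d2.deriv isOpen_ball, fun w hw => ?_⟩
    have e1 := Stokes.hasFDerivAt_wirt (d1.differentiableAt (isOpen_ball.mem_nhds hw)).hasDerivAt
    have e2 := (Stokes.hasFDerivAt_wirt (d2.differentiableAt
      (isOpen_ball.mem_nhds (cj hw))).hasDerivAt).comp w (conjCLE : ℂ →L[ℝ] ℂ).hasFDerivAt
    refine ((e1.add e2).congr_fderiv ?_).congr_of_eventuallyEq ?_
    · ext v
      simp
    · filter_upwards [isOpen_ball.mem_nhds hw] with y hy using e y hy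
  have ex : ∀ z ∈ ball (0 : ℂ) 1, ∃ a c : ℂ, HasFDerivAt Θ (wirt a c) z := fun z hz => by
    obtain ⟨r, hr, -, k1, k2, -, -, e⟩ := key z hz
    exact ⟨_, _, e z hr⟩
  choose! ω ω' hω using ex
  have loc : ∀ z ∈ ball (0 : ℂ) 1,
      DifferentiableAt ℂ ω z ∧ DifferentiableAt ℂ (fun z => conj (ω' z)) z := fun z hz => by
    obtain ⟨r, hr, hr1, k1, k2, d1, d2, e⟩ := key z hz
    have e1 : ∀ w ∈ ball (0 : ℂ) r, ω w = k1 w ∧ ω' w = k2 (conj w) := fun w hw =>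
      Stokes.wirt_inj fun v => by rw [(hω w (ball_subset_ball hr1.le hw)).unique (e w hw)]
    refine ⟨(d1.differentiableAt (isOpen_ball.mem_nhds hr)).congr_of_eventuallyEq ?_,
      (differentiableAt_conj_conj_iff.2
        (d2.differentiableAt (isOpen_ball.mem_nhds (cj hr)))).congr_of_eventuallyEq ?_⟩
    · filter_upwards [isOpen_ball.mem_nhds hr] with w hw using (e1 w hw).1
    · filter_upwards [isOpen_ball.mem_nhds hr] with w hw using congrArg conj (e1 w hw).2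
  exact ⟨ω, ω', fun z hz => (loc z hz).1.differentiableWithinAt,
    fun z hz => (loc z hz).2.differentiableWithinAt, hω⟩

section Param

variable {P : Type*} [NormedAddCommGroup P] [NormedSpace ℂ P] [FiniteDimensional ℂ P]
  {δ : ℝ} {f : P → ℂ → ℂ}

theorem cont_fderiv (hδ : 0 < δ)
    (hc : ContinuousOn (fun q : P × ℂ => f q.1 q.2) (ball 0 δ ×ˢ ball 0 1))
    (hd : ∀ z ∈ ball (0 : ℂ) 1, DifferentiableOn ℂ (fun p => f p z) (ball 0 δ)) :
    ContinuousOn (fun z => fderiv ℂ (fun p => f p z) 0) (ball 0 1) := by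
  have := FiniteDimensional.proper ℂ P
  intro z hz
  refine ContinuousAt.continuousWithinAt (Metric.tendsto_nhds.2 fun ε hε => ?_)
  have h2 := half_pos hδ
  have hs : closedBall (0 : P) (δ / 2) ⊆ ball 0 δ := closedBall_subset_ball (half_lt_self hδ)
  have h1 : ∀ᶠ w in 𝓝 z, ∀ p ∈ closedBall (0 : P) (δ / 2), ‖f p w - f p z‖ < ε * δ / 8 := by
    refine (isCompact_closedBall _ _).eventually_forall_of_forall_eventually fun p hp => ?_
    have c1 : ContinuousAt (fun q : P × ℂ => f q.1 q.2) (p, z) :=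
      hc.continuousAt ((isOpen_ball.prod isOpen_ball).mem_nhds ⟨hs hp, hz⟩)
    have c2 : ContinuousAt (fun q : ℂ × P => ‖f q.2 q.1 - f q.2 z‖) (z, p) :=
      ((c1.comp_of_eq (f := fun q : ℂ × P => (q.2, q.1)) (by fun_prop) rfl).sub
        (c1.comp_of_eq (f := fun q : ℂ × P => (q.2, z)) (by fun_prop) rfl)).norm
    exact c2.eventually_lt_const (by simp only [sub_self, norm_zero]; positivity)
  filter_upwards [h1, isOpen_ball.mem_nhds hz] with w hw hw'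
  have h0 := ball_mem_nhds (0 : P) hδ
  rw [dist_eq_norm, ← fderiv_fun_sub ((hd w hw').differentiableAt h0)
    ((hd z hz).differentiableAt h0)]
  refine (norm_fderiv_le_of_bound h2 (((hd w hw').sub (hd z hz)).mono
    (ball_subset_closedBall.trans hs)) fun p hp => (hw p (ball_subset_closedBall hp)).le).trans_lt ?_
  rw [div_lt_iff₀ h2]
  linarith [mul_pos hε hδ]

theorem taylor_bound (hδ : 0 < δ)
    (hc : ContinuousOn (fun q : P × ℂ => f q.1 q.2) (ball 0 δ ×ˢ ball 0 1))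
    (hd : ∀ z ∈ ball (0 : ℂ) 1, DifferentiableOn ℂ (fun p => f p z) (ball 0 δ)) {r : ℝ}
    (hr : r < 1) : ∃ C : ℝ, ∀ z : ℂ, ‖z‖ ≤ r → ‖fderiv ℂ (fun p => f p z) 0‖ ≤ C ∧
      ∀ x : P, ‖x‖ < δ / 2 → ‖f x z - f 0 z - fderiv ℂ (fun p => f p z) 0 x‖ ≤ C * ‖x‖ ^ 2 := by
  have := FiniteDimensional.proper ℂ P
  have h2 := half_pos hδ
  have hs : closedBall (0 : P) (δ / 2) ⊆ ball 0 δ := closedBall_subset_ball (half_lt_self hδ)
  obtain ⟨M, hM⟩ := ((isCompact_closedBall (0 : P) (δ / 2)).prod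
    (isCompact_closedBall (0 : ℂ) r)).exists_bound_of_continuousOn
      (hc.mono (prod_mono hs (closedBall_subset_ball hr)))
  refine ⟨max (2 * M / (δ / 2)) (4 * M / (δ / 2) ^ 2), fun z hz => ?_⟩
  have d := (hd z (mem_ball_zero_iff.2 (hz.trans_lt hr))).mono (ball_subset_closedBall.trans hs)
  have b : ∀ p ∈ ball (0 : P) (δ / 2), ‖f p z‖ ≤ M := fun p hp =>
    hM (p, z) ⟨ball_subset_closedBall hp, mem_closedBall_zero_iff.2 hz⟩
  refine ⟨(norm_fderiv_le_of_bound h2 d b).trans (le_max_left _ _), fun x hx => ?_⟩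
  have h3 := second_order_bound h2 d b (mem_ball_zero_iff.2 hx)
  rw [sub_zero, div_pow, mul_div_assoc', mul_div_right_comm] at h3
  exact h3.trans (mul_le_mul_of_nonneg_right (le_max_right _ _) (sq_nonneg _))

omit [FiniteDimensional ℂ P] in
theorem hasDerivAt_line {g : P → ℂ} (hg : DifferentiableAt ℂ g 0) (x : P) :
    HasDerivAt (fun t : ℂ => g (t • x)) (fderiv ℂ g 0 x) 0 := by
  have h1 : HasDerivAt (fun t : ℂ => t • x) x 0 := by
    simpa using (hasDerivAt_id (0 : ℂ)).smul_const x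
  exact hg.hasFDerivAt.comp_hasDerivAt_of_eq 0 h1 (zero_smul _ _).symm

end Param

/-- The holomorphic part of the Poisson kernel. -/
noncomputable def k1 (E : V) (z : ℂ) : ℂ := E.1⁻¹ * (pt E / (pt E - z))

/-- The antiholomorphic part of the Poisson kernel. -/
noncomputable def k2 (E : V) (w : ℂ) : ℂ := E.1⁻¹ * (w * pt E / (1 - w * pt E))

theorem diff_pt (w : ℂ) {E : V} (hE : E.1 ≠ 0) :
    DifferentiableAt ℂ (fun q : ℂ × V => pt q.2) (w, E) :=
  DifferentiableAt.comp (g := pt) (w, E) (Ext.diffAt_pt hE) differentiableAt_snd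

theorem diff_inv (w : ℂ) {E : V} (hE : E.1 ≠ 0) :
    DifferentiableAt ℂ (fun q : ℂ × V => q.2.1⁻¹) (w, E) :=
  DifferentiableAt.fun_inv (h := fun q : ℂ × V => q.2.1) differentiableAt_snd.fst hE

theorem diff_k1 {w : ℂ} {E : V} (hE : E.1 ≠ 0) (h : pt E - w ≠ 0) :
    DifferentiableAt ℂ (fun q : ℂ × V => k1 q.2 q.1) (w, E) := by
  simp only [k1, div_eq_mul_inv]
  exact (diff_inv w hE).fun_mul ((diff_pt w hE).fun_mul
    (((diff_pt w hE).fun_sub differentiableAt_fst).fun_inv h))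

theorem diff_k2 {w : ℂ} {E : V} (hE : E.1 ≠ 0) (h : 1 - w * pt E ≠ 0) :
    DifferentiableAt ℂ (fun q : ℂ × V => k2 q.2 q.1) (w, E) := by
  simp only [k2, div_eq_mul_inv]
  exact (diff_inv w hE).fun_mul ((differentiableAt_fst.fun_mul (diff_pt w hE)).fun_mul
    (((differentiableAt_fst.fun_mul (diff_pt w hE)).const_sub 1).fun_inv h))

theorem diff_pow (w : ℂ) {E Z : V} (h : br E Z ∈ slitPlane) :
    DifferentiableAt ℂ (fun q : ℂ × V => br q.2 Z ^ (-(1 + q.1))) (w, E) :=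
  DifferentiableAt.cpow (f := fun q : ℂ × V => br q.2 Z)
    (DifferentiableAt.br differentiableAt_snd (differentiableAt_const Z))
    (differentiableAt_fst.const_add 1).fun_neg h

theorem chain {Ψ : ℂ × ℂ → ℂ} (hΨ : DifferentiableAt ℂ Ψ (0, 0)) {a : ℂ → ℂ}
    (ha : HasDerivAt a 0 0) (h0 : a 0 = 0) :
    HasDerivAt (fun t => Ψ (t, a t)) (fderiv ℂ Ψ (0, 0) (1, 0)) 0 :=
  hΨ.hasFDerivAt.comp_hasDerivAt_of_eq 0 ((hasDerivAt_id (0 : ℂ)).prodMk ha) (by simp [h0])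

theorem kernel {E : V} (hE : br E E = 0) {r : ℝ} (hr : r < 1)
    (h : ∀ z : ℂ, ‖z‖ ≤ r → br E (zv z) ∈ slitPlane) {z : ℂ} (hz : ‖z‖ ≤ r) :
    E.1 ≠ 0 ∧ pt E - z ≠ 0 ∧ 1 - z * pt E ≠ 0 ∧
      br E (zv z) ^ (-(1 + 0 : ℂ)) = k1 E z + k2 E (conj z) := by
  have h0 : E.1 ≠ 0 := by
    have := slitPlane_ne_zero (h 0 (by rw [norm_zero]; exact (norm_nonneg z).trans hz))
    rwa [zv_zero, br_oo_right] at this
  obtain ⟨h1, h2⟩ := eq_smul_xi_of_null hE h0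
  have key : ∀ w : ℂ, ‖w‖ ≤ r → br E (zv w) =
      E.1 * ((pt E - w) * (1 - conj w * pt E) / (pt E * (1 - w * conj w))) := fun w hw => by
    rw [← cast_one_sub, ← br_xi_zv h1 (mem_ball_zero_iff.2 (hw.trans_lt hr)), ← br_smul_left, ← h2]
  have ne : ∀ w : ℂ, ‖w‖ ≤ r → pt E - w ≠ 0 ∧ 1 - conj w * pt E ≠ 0 := fun w hw => by
    have := slitPlane_ne_zero (h w hw)
    rw [key w hw] at this
    exact mul_ne_zero_iff.1 (div_ne_zero_iff.1 (right_ne_zero_of_mul this)).1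
  obtain ⟨n1, n2⟩ := ne z hz
  refine ⟨h0, n1, by simpa using (ne (conj z) (by simpa using hz)).2, ?_⟩
  rw [add_zero, cpow_neg_one, key z hz, k1, k2, ← mul_add, div_add_div _ _ n1 n2, mul_inv, inv_div]
  congr 2
  ring

end FamA

variable [hG : Fact (2 ≤ G)] {D : Nest G b}

theorem exists_fam (D : Nest G b) : Nonempty (Fam D) := by
  obtain ⟨l₀, hl, hu, A', hA', hB⟩ := exists_left D
  have e0 : Lop D (1 + (0 : ℂ × (L G → ℂ)).1) (0 : ℂ × (L G → ℂ)).2 = Lop D 1 0 := by simp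
  obtain ⟨δ, hδ, a, v, u, da, dv, du, a0, v0, hf, hz⟩ :=
    simple_family (A := fun p : ℂ × (L G → ℂ) => Lop D (1 + p.1) p.2)
      ((differentiable_Lop D).comp (f := fun p : ℂ × (L G → ℂ) => (1 + p.1, p.2)) (by fun_prop))
      (l₀ := l₀) (v₀ := leb D) (A' := A') (by rw [e0]; exact fixd_leb D) (by rw [e0]; exact hl)
      (by rw [e0]; exact hu) hA' hB
  have c1 : ContinuousAt (fun x : L G → ℂ => (1 + a x, x)) 0 :=
    (continuousAt_const.add (da.differentiableAt (ball_mem_nhds _ hδ)).continuousAt).prodMk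
      continuousAt_id
  obtain ⟨ε, hε, hN⟩ := Metric.mem_nhds_iff.1 (c1.preimage_mem_nhds (isOpen_NR.mem_nhds (by
    change NR (1 + a 0) 0
    rw [a0, add_zero]
    exact nr_one_zero)))
  exact ⟨⟨min δ ε, a, v, u, lt_min hδ hε, da.mono (ball_subset_ball (min_le_left _ _)),
    dv.mono (ball_subset_ball (min_le_left _ _)), du.mono (ball_subset_ball (min_le_left _ _)),
    a0, v0, fun x hx => hf x (ball_subset_ball (min_le_left _ _) hx),
    fun x hx => hN (ball_subset_ball (min_le_right _ _) hx),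
    fun p hp => hz p (ball_subset_ball (min_le_left _ _) hp)⟩⟩

noncomputable def Fam.phi (F : Fam D) (x : L G → ℂ) (z : ℂ) : ℂ :=
  pois D x (F.v x) (1 + F.a x) z

theorem Fam.eig (F : Fam D) (T : ℝ) {x : L G → ℂ} (hx : x ∈ ball (0 : L G → ℂ) F.δ) :
    Eig (surf G) T (thS x) (khat T (1 + F.a x)) (F.phi x) :=
  pois_eig (F.fixd x hx) (F.nr x hx) T

namespace FamA

open Topology ComplexConjugate Pool.Agent.Lib.MP_08f711_an

theorem param (F : Fam D) :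
    ContinuousOn (fun q : (L G → ℂ) × ℂ => F.phi q.1 q.2) (ball 0 F.δ ×ˢ ball 0 1) ∧
      ∀ z ∈ ball (0 : ℂ) 1, DifferentiableOn ℂ (fun p => F.phi p z) (ball 0 F.δ) :=
  pois_param (s := fun p => 1 + F.a p) (x := fun p => p) isOpen_ball (F.a_diff.const_add 1)
    differentiableOn_id F.v_diff F.fixd

theorem phi_zero (F : Fam D) {z : ℂ} (hz : z ∈ ball (0 : ℂ) 1) : F.phi 0 z = 2 * Real.pi := by
  rw [Fam.phi, F.v_zero, F.a_zero, add_zero, pois, tot_leb D (test_pow 1 (hyp_zv hz))]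
  exact pois_leb_aux hz

theorem phi_line (F : Fam D) (x : L G → ℂ) {z : ℂ} (hz : z ∈ ball (0 : ℂ) 1) :
    HasDerivAt (fun t : ℂ => F.phi (t • x) z) (fderiv ℂ (fun p => F.phi p z) 0 x) 0 :=
  hasDerivAt_line (((param F).2 z hz).differentiableAt (ball_mem_nhds _ F.δ_pos)) x

omit hG in
theorem line_mem (F : Fam D) (x : L G → ℂ) :
    IsOpen {t : ℂ | t • x ∈ ball (0 : L G → ℂ) F.δ} ∧
      (0 : ℂ) ∈ {t : ℂ | t • x ∈ ball (0 : L G → ℂ) F.δ} :=
  ⟨isOpen_ball.preimage (by fun_prop), by simpa using F.δ_pos⟩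

theorem period (F : Fam D) (x : L G → ℂ) (γ : (surf G).Γ) {z : ℂ} (hz : z ∈ ball (0 : ℂ) 1) :
    fderiv ℂ (fun p => F.phi p ((surf G).act γ z)) 0 x =
      fderiv ℂ (fun p => F.phi p z) 0 x + 2 * Real.pi * thS x γ := by
  have h1 := phi_line F x (actD_mem (show Gam G from γ).1 hz)
  have h2 := (((hasDerivAt_id (0 : ℂ)).mul_const (thS x γ)).cexp).mul (phi_line F x hz)
  refine (h1.unique (h2.congr_of_eventuallyEq ?_)).trans ?_
  · filter_upwards [(line_mem F x).1.mem_nhds (line_mem F x).2] with t ht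
    have h3 : thS (t • x) γ = t * thS x γ := by simp [thS]
    have h4 := (F.eig 0 ht).2.1 γ z hz
    rw [h3] at h4
    exact h4
  · simp only [id, zero_mul, exp_zero, one_mul, zero_smul, phi_zero F hz]
    ring

/-- The level sum along a line of parameters. -/
noncomputable def lev (F : Fam D) (N : ℕ) (x : L G → ℂ) (k : V → ℂ) (t : ℂ) : ℂ :=
  ∑ u ∈ admF G b (N + 1), exp (Th (t • x) (wd u.dropLast)) *
    ev (F.v (t • x)) (cl (wd u.dropLast), u.getLastD 0) fun η => k (D.lift u η)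

theorem diff_lev (F : Fam D) (N : ℕ) (x : L G → ℂ) {O : Set ℂ} (hO : IsOpen O) {k : ℂ → V → ℂ}
    (hk : ∀ u ∈ admF G b (N + 1), ∀ w ∈ O, ∀ η : ℂ, ‖η‖ = 1 →
      DifferentiableAt ℂ (fun q : ℂ × V => k q.1 q.2) (w, D.lift u η)) :
    DifferentiableOn ℂ (fun q : ℂ × ℂ => lev F N x (k q.2) q.1)
      ({t : ℂ | t • x ∈ ball (0 : L G → ℂ) F.δ} ×ˢ O) := by
  refine DifferentiableOn.fun_sum fun u hu => DifferentiableOn.mul ?_ ?_
  · simp only [map_smul, Pi.smul_apply, smul_eq_mul]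
    fun_prop
  · refine diffOn_ev _ ((line_mem F x).1.prod hO)
      (F.v_diff.comp (f := fun q : ℂ × ℂ => q.1 • x) (by fun_prop) fun q hq => hq.1)
      (fun q hq => ?_) fun y hy q hq => ?_
    · have := (D.diff_lift u).continuous
      exact ((hk u hu q.1.2 hq.1.2 q.2 (mem_sphere_zero_iff_norm.1 hq.2)).continuousAt.comp_of_eq
        (f := fun q : (ℂ × ℂ) × ℂ => (q.1.2, D.lift u q.2)) (by fun_prop) rfl).continuousWithinAt
    · exact ((hk u hu q.2 hq.2 y hy).comp q (f := fun q : ℂ × ℂ => (q.2, D.lift u y))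
        (by fun_prop)).differentiableWithinAt

theorem local_form (F : Fam D) (ha : fderiv ℂ F.a 0 = 0) (x : L G → ℂ) {r : ℝ} (hr : r < 1) :
    ∃ h1 h2 : ℂ → ℂ, DifferentiableOn ℂ h1 (ball 0 r) ∧ DifferentiableOn ℂ h2 (ball 0 r) ∧
      ∀ z ∈ ball (0 : ℂ) r, fderiv ℂ (fun p => F.phi p z) 0 x = h1 z + h2 (conj z) := by
  obtain ⟨N, hN⟩ := exists_level D hr
  obtain ⟨T1, T0⟩ := line_mem F x
  have sl : ∀ u ∈ admF G b (N + 1), ∀ η : ℂ, ‖η‖ = 1 → ∀ z : ℂ, ‖z‖ ≤ r →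
      br (D.lift u η) (zv z) ∈ slitPlane := fun u hu η hη z hz =>
    (hN z 0 hz).1 u (mem_admF.1 hu).2 (mem_admF.1 hu).1.ge η (Ext.mem_ball_of_norm D hη)
  have ke := fun u hu η hη z (hz : z ∈ ball (0 : ℂ) r) =>
    kernel (D.br_lift_self u η) hr (sl u hu η hη) (mem_ball_zero_iff.1 hz).le
  have e1 : ∀ u ∈ admF G b (N + 1), ∀ w ∈ ball (0 : ℂ) r, ∀ η : ℂ, ‖η‖ = 1 →
      DifferentiableAt ℂ (fun q : ℂ × V => k1 q.2 q.1) (w, D.lift u η) := fun u hu w hw η hη =>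
    diff_k1 (ke u hu η hη w hw).1 (ke u hu η hη w hw).2.1
  have e2 : ∀ u ∈ admF G b (N + 1), ∀ w ∈ ball (0 : ℂ) r, ∀ η : ℂ, ‖η‖ = 1 →
      DifferentiableAt ℂ (fun q : ℂ × V => k2 q.2 q.1) (w, D.lift u η) := fun u hu w hw η hη =>
    diff_k2 (ke u hu η hη w hw).1 (ke u hu η hη w hw).2.2.1
  have d1 := diff_lev F N x isOpen_ball (k := fun w E => k1 E w) e1
  have d2 := diff_lev F N x isOpen_ball (k := fun w E => k2 E w) e2
  have hW := T1.prod (isOpen_ball (x := (0 : ℂ)) (ε := r))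
  have sl0 : DifferentiableOn ℂ (fun z : ℂ => ((0 : ℂ), z)) (ball 0 r) := by fun_prop
  refine ⟨_, _, (differentiableOn_fderiv_apply hW d1 (1, 0)).comp sl0 fun z hz => ⟨T0, hz⟩,
    (differentiableOn_fderiv_apply hW d2 (1, 0)).comp sl0 fun z hz => ⟨T0, hz⟩, fun z hz => ?_⟩
  have hz' : conj z ∈ ball (0 : ℂ) r := by simpa using hz
  have hz1 := (mem_ball_zero_iff.1 hz).le
  have e3 : ∀ u ∈ admF G b (N + 1), ∀ w ∈ (univ : Set ℂ), ∀ η : ℂ, ‖η‖ = 1 →
      DifferentiableAt ℂ (fun q : ℂ × V => br q.2 (zv z) ^ (-(1 + q.1))) (w, D.lift u η) :=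
    fun u hu w _ η hη => diff_pow w (sl u hu η hη z hz1)
  have d4 := diff_lev F N x isOpen_univ (k := fun σ E => br E (zv z) ^ (-(1 + σ))) e3
  have d3 := d4.differentiableAt (x := (0, 0))
    ((T1.prod isOpen_univ).mem_nhds (mk_mem_prod T0 (mem_univ _)))
  have g1 := chain d3 (hasDerivAt_const (0 : ℂ) (0 : ℂ)) rfl
  have g2 := (Tool.hasDerivAt_fst hW d1 (q := (0, z)) ⟨T0, hz⟩).fun_add
    (Tool.hasDerivAt_fst hW d2 (q := (0, conj z)) ⟨T0, hz'⟩)
  have g3 := hasDerivAt_line (F.a_diff.differentiableAt (ball_mem_nhds _ F.δ_pos)) x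
  rw [ha, zero_apply] at g3
  have g4 := chain d3 g3 (by rw [zero_smul, F.a_zero])
  have g5 : (fun t : ℂ => F.phi (t • x) z) =ᶠ[𝓝 0]
      fun t => lev F N x (fun E => br E (zv z) ^ (-(1 + F.a (t • x)))) t := by
    filter_upwards [T1.mem_nhds T0] with t ht
    exact (hN z _ hz1).2 _ _ (F.fixd _ ht)
  have g6 : ∀ t : ℂ, lev F N x (fun E => br E (zv z) ^ (-(1 + 0 : ℂ))) t =
      lev F N x (fun E => k1 E z) t + lev F N x (fun E => k2 E (conj z)) t := fun t => by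
    rw [lev, lev, lev, ← Finset.sum_add_distrib]
    refine Finset.sum_congr rfl fun u hu => ?_
    have := (D.diff_lift u).continuous
    rw [← mul_add, ← ev_add, ev_congr _ _ fun η hη => (ke u hu η hη z hz).2.2.2]
    · exact fun η hη => ((e1 u hu z hz η (mem_sphere_zero_iff_norm.1 hη)).continuousAt.comp_of_eq
        (f := fun η : ℂ => (z, D.lift u η)) (by fun_prop) rfl).continuousWithinAt
    · exact fun η hη => ((e2 u hu _ hz' η (mem_sphere_zero_iff_norm.1 hη)).continuousAt.comp_of_eq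
        (f := fun η : ℂ => (conj z, D.lift u η)) (by fun_prop) rfl).continuousWithinAt
  exact ((phi_line F x (ball_subset_ball hr.le hz)).unique (g4.congr_of_eventuallyEq g5)).trans
    (g1.unique (g2.congr_of_eventuallyEq (Eventually.of_forall g6)))

end FamA

theorem Fam.taylor (F : Fam D) : ∃ Θ : (L G → ℂ) →ₗ[ℂ] ℂ → ℂ,
    (∀ x, ContinuousOn (Θ x) (ball 0 1)) ∧
    (∀ r < 1, ∃ C : ℝ, ∃ δ > 0, ∀ x : L G → ℂ, ∀ z : ℂ, ‖z‖ ≤ r → ‖Θ x z‖ ≤ C * ‖x‖ ∧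
      (‖x‖ < δ → ‖F.phi x z - 2 * Real.pi * (1 + Θ x z)‖ ≤ C * ‖x‖ ^ 2)) ∧
    (fderiv ℂ F.a 0 = 0 → ∃ ω ω' : (L G → ℂ) →ₗ[ℂ] ℂ → ℂ,
      ∀ x, Harm (surf G) (thS x) (Θ x) (ω x) (ω' x)) := by
  obtain ⟨hc, hd⟩ := FamA.param F
  have hπ : (2 * Real.pi : ℂ) ≠ 0 := mul_ne_zero two_ne_zero (ofReal_ne_zero.2 Real.pi_ne_zero)
  obtain ⟨Θ, hΘ⟩ : ∃ Θ : (L G → ℂ) →ₗ[ℂ] ℂ → ℂ,
      ∀ x z, Θ x z = (2 * Real.pi : ℂ)⁻¹ * fderiv ℂ (fun p => F.phi p z) 0 x :=
    ⟨LinearMap.pi fun z => (2 * Real.pi : ℂ)⁻¹ • (fderiv ℂ (fun p => F.phi p z) 0).toLinearMap,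
      fun _ _ => rfl⟩
  refine ⟨Θ, fun x => ?_, fun r hr => ?_, fun ha => ?_⟩
  · rw [funext (hΘ x)]
    exact continuousOn_const.mul ((FamA.cont_fderiv F.δ_pos hc hd).clm_apply continuousOn_const)
  · obtain ⟨C, hC⟩ := FamA.taylor_bound F.δ_pos hc hd hr
    refine ⟨C, F.δ / 2, half_pos F.δ_pos, fun x z hz => ⟨?_, fun hx => ?_⟩⟩
    · have h1 : ‖(2 * Real.pi : ℂ)⁻¹‖ ≤ 1 := by
        rw [norm_inv, norm_mul, norm_real, Real.norm_of_nonneg Real.pi_pos.le, Complex.norm_two]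
        exact inv_le_one_of_one_le₀ (by linarith [Real.pi_gt_three])
      rw [hΘ, norm_mul]
      exact (mul_le_of_le_one_left (norm_nonneg _) h1).trans
        ((fderiv ℂ (fun p => F.phi p z) 0).le_of_opNorm_le (hC z hz).1 x)
    · have h1 := (hC z hz).2 x hx
      rwa [hΘ, mul_add, mul_one, mul_inv_cancel_left₀ hπ, ← sub_sub,
        ← FamA.phi_zero F (mem_ball_zero_iff.2 (hz.trans_lt hr))]
  · have h1 : ∀ j : L G, ∃ ω ω' : ℂ → ℂ, DifferentiableOn ℂ ω (ball 0 1) ∧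
        DifferentiableOn ℂ (fun z => (starRingEnd ℂ) (ω' z)) (ball 0 1) ∧
        ∀ z ∈ ball (0 : ℂ) 1, HasFDerivAt (Θ (Pi.single j 1)) (wirt (ω z) (ω' z)) z := fun j =>
      FamA.harm_of_local fun r _ hr => by
        obtain ⟨h1, h2, d1, d2, e⟩ := FamA.local_form F ha (Pi.single j 1) hr
        exact ⟨_, _, d1.const_mul (2 * Real.pi : ℂ)⁻¹, d2.const_mul (2 * Real.pi : ℂ)⁻¹,
          fun z hz => by rw [hΘ, e z hz, mul_add]⟩
    choose ω ω' d1 d2 e using h1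
    refine ⟨Fintype.linearCombination ℂ ω, Fintype.linearCombination ℂ ω', fun x => ?_⟩
    have s1 : ∀ f : L G → ℂ → ℂ, Fintype.linearCombination ℂ f x = fun z => ∑ j, x j * f j z :=
      fun f => funext fun z => by simp [Fintype.linearCombination_apply]
    have s2 : Θ x = fun z => ∑ j, x j * Θ (Pi.single j 1) z := funext fun z => by
      conv_lhs => rw [pi_eq_sum_univ' x]
      simp
    rw [s1, s1]
    refine ⟨DifferentiableOn.fun_sum fun j _ => (d1 j).const_mul _, ?_, fun z hz => ?_,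
      fun γ z hz => ?_⟩
    · simp only [map_sum, map_mul]
      exact DifferentiableOn.fun_sum fun j _ => (d2 j).const_mul _
    · rw [s2]
      refine (HasFDerivAt.fun_sum fun j _ => (e j z hz).const_mul (x j)).congr_fderiv ?_
      ext v
      simp [Finset.sum_add_distrib, Finset.sum_mul, mul_add, mul_assoc]
    · rw [hΘ, hΘ, FamA.period F x γ hz, mul_add, inv_mul_cancel_left₀ hπ]

end Pool.Agent.Lib.MP_de7bb2_an
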