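import Pool.Agent.Lib.MP_de7bb2_an.H20Arc

/-! The right angled Coxeter group, normal forms and descents. TASK GRP. -/

namespace Pool.Agent.Lib.MP_de7bb2_an

open Metric Set Complex ComplexConjugate

def rels (G : ℕ) : Set (FreeGroup (L G)) :=
  {r | ∃ m : L G, r = FreeGroup.of m * FreeGroup.of m ∨
    r = FreeGroup.of m * FreeGroup.of (m + 1) * (FreeGroup.of m * FreeGroup.of (m + 1))}

/-- The Coxeter group of the polygon. -/
def W (G : ℕ) : Type := PresentedGroup (rels G)

instance (G : ℕ) : Group (W G) := inferInstanceAs (Group (PresentedGroup (rels G)))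

variable {G : ℕ}

def sr (m : L G) : W G := PresentedGroup.of (rels := rels G) m

/-- The element represented by a word. -/
def wd (u : List (L G)) : W G := (u.map sr).prod

/-- Admissible words. -/
def Adm (b : ZMod 2) (u : List (L G)) : Prop := u.IsChain (Edge b)

instance (b : ZMod 2) : DecidablePred (Adm (G := G) b) := fun _ => by unfold Adm; infer_instance

/-- Admissible words of a given length. -/
def admF (G : ℕ) (b : ZMod 2) : ℕ → Finset (List (L G))
  | 0 => {[]}
  | k + 1 => (((Finset.univ : Finset (L G)) ×ˢ admF G b k).image fun x => x.1 :: x.2).filter (Adm b)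

namespace Grp

/-- The quotient map from the free group. -/
def mkW (G : ℕ) : FreeGroup (L G) →* W G := PresentedGroup.mk (rels G)

theorem mkW_of (m : L G) : mkW G (FreeGroup.of m) = sr m := rfl

theorem mkW_surj : Function.Surjective (mkW G) := PresentedGroup.mk_surjective _

theorem mkW_rel {r : FreeGroup (L G)} (h : r ∈ rels G) : mkW G r = 1 :=
  PresentedGroup.one_of_mem h

theorem exists_hom_grp {H : Type*} [Group H] (f : L G → H)
    (h : ∀ r ∈ rels G, FreeGroup.lift f r = 1) : ∃ F : W G →* H, ∀ m, F (sr m) = f m :=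
  ⟨PresentedGroup.toGroup h, fun _ => PresentedGroup.toGroup.of h⟩

end Grp

theorem exists_hom_of {M : Type*} [Monoid M] (f : L G → M) (h1 : ∀ m, f m * f m = 1)
    (h2 : ∀ m, f m * f (m + 1) = f (m + 1) * f m) : ∃ F : W G →* M, ∀ m, F (sr m) = f m := by
  let u : L G → Mˣ := fun m => ⟨f m, f m, h1 m, h1 m⟩
  have hu : ∀ r ∈ rels G, FreeGroup.lift u r = 1 := by
    rintro r ⟨m, rfl | rfl⟩
    · apply Units.ext
      simp only [map_mul, FreeGroup.lift_apply_of, Units.val_mul, Units.val_one]
      exact h1 m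
    · apply Units.ext
      simp only [map_mul, FreeGroup.lift_apply_of, Units.val_mul, Units.val_one]
      show f m * f (m + 1) * (f m * f (m + 1)) = 1
      rw [mul_assoc, ← mul_assoc (f (m + 1)), ← h2, mul_assoc, h1, mul_one, h1]
  obtain ⟨F, hF⟩ := Grp.exists_hom_grp u hu
  refine ⟨(Units.coeHom M).comp F, fun m => ?_⟩
  simp only [MonoidHom.comp_apply, hF]
  rfl

theorem sr_mul_self (m : L G) : sr m * sr m = 1 := by
  have := Grp.mkW_rel (G := G) (r := FreeGroup.of m * FreeGroup.of m) ⟨m, Or.inl rfl⟩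
  simpa only [map_mul, Grp.mkW_of] using this

theorem sr_inv (m : L G) : (sr m)⁻¹ = sr m := inv_eq_of_mul_eq_one_right (sr_mul_self m)

theorem sr_comm (m : L G) : sr m * sr (m + 1) = sr (m + 1) * sr m := by
  have h := Grp.mkW_rel (G := G)
    (r := FreeGroup.of m * FreeGroup.of (m + 1) * (FreeGroup.of m * FreeGroup.of (m + 1)))
    ⟨m, Or.inr rfl⟩
  simp only [map_mul, Grp.mkW_of] at h
  have h2 := eq_inv_of_mul_eq_one_left h
  rw [h2, mul_inv_rev, sr_inv, sr_inv]

theorem sr_comm' (m : L G) : sr m * sr (m - 1) = sr (m - 1) * sr m := by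
  have := sr_comm (m - 1)
  rw [sub_add_cancel] at this
  exact this.symm

@[simp] theorem wd_nil : wd ([] : List (L G)) = 1 := rfl

@[simp] theorem wd_cons (m : L G) (u : List (L G)) : wd (m :: u) = sr m * wd u := by
  simp only [wd, List.map_cons, List.prod_cons]

@[simp] theorem wd_append (u v : List (L G)) : wd (u ++ v) = wd u * wd v := by
  simp only [wd, List.map_append, List.prod_append]

theorem wd_reverse (u : List (L G)) : wd u.reverse = (wd u)⁻¹ := by
  induction u with
  | nil => simp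
  | cons m u ih => simp [ih, sr_inv]

theorem exists_wd (g : W G) : ∃ u, wd u = g := by
  obtain ⟨x, rfl⟩ := Grp.mkW_surj g
  induction x using FreeGroup.induction_on with
  | C1 => exact ⟨[], by simp⟩
  | of m => exact ⟨[m], by simp [Grp.mkW_of]⟩
  | inv_of m _ => exact ⟨[m], by simp [Grp.mkW_of, sr_inv]⟩
  | mul x y hx hy =>
    obtain ⟨u, hu⟩ := hx
    obtain ⟨v, hv⟩ := hy
    exact ⟨u ++ v, by simp [hu, hv]⟩

theorem W.induction_right {p : W G → Prop} (h1 : p 1) (hs : ∀ g m, p g → p (g * sr m)) (g : W G) :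
    p g := by
  obtain ⟨u, rfl⟩ := exists_wd g
  induction u using List.reverseRecOn with
  | nil => exact h1
  | append_singleton u m ih => simpa using hs _ m ih

theorem W.induction_left {p : W G → Prop} (h1 : p 1) (hs : ∀ g m, p g → p (sr m * g)) (g : W G) :
    p g := by
  obtain ⟨u, rfl⟩ := exists_wd g
  induction u with
  | nil => exact h1
  | cons m u ih => simpa using hs _ m ih

instance : Countable (W G) := Function.Surjective.countable (f := wd (G := G)) exists_wd

theorem adm_reverse {b : ZMod 2} {u : List (L G)} : Adm (b + 1) u.reverse ↔ Adm b u := by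
  unfold Adm
  rw [List.isChain_reverse]
  exact List.IsChain.iff fun _ _ => edge_symm

namespace Grp

theorem adm_cons {b : ZMod 2} {m : L G} {u : List (L G)} :
    Adm b (m :: u) ↔ (∀ y ∈ u.head?, Edge b m y) ∧ Adm b u := List.isChain_cons

theorem adm_cons_cons {b : ZMod 2} {m k : L G} {u : List (L G)} :
    Adm b (m :: k :: u) ↔ Edge b m k ∧ Adm b (k :: u) := List.isChain_cons_cons

theorem adm_nil {b : ZMod 2} : Adm b ([] : List (L G)) := List.isChain_nil

theorem adm_single {b : ZMod 2} (m : L G) : Adm b [m] := List.isChain_singleton _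

theorem adm_snoc {b : ZMod 2} {m : L G} {u : List (L G)} (hu : u ≠ []) :
    Adm b (u ++ [m]) ↔ Adm b u ∧ Edge b (u.getLastD 0) m := by
  obtain ⟨v, k, rfl⟩ : ∃ v k, u = v ++ [k] :=
    ⟨u.dropLast, u.getLast hu, (List.dropLast_append_getLast hu).symm⟩
  unfold Adm
  rw [List.isChain_append]
  simp

end Grp

theorem mem_admF {b : ZMod 2} {k : ℕ} {u : List (L G)} :
    u ∈ admF G b k ↔ u.length = k ∧ Adm b u := by
  induction k generalizing u with
  | zero =>
    simp only [admF, Finset.mem_singleton, List.length_eq_zero_iff]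
    exact ⟨fun h => ⟨h, h ▸ Grp.adm_nil⟩, fun h => h.1⟩
  | succ k ih =>
    simp only [admF, Finset.mem_filter, Finset.mem_image, Finset.mem_product, Finset.mem_univ,
      true_and, Prod.exists]
    constructor
    · rintro ⟨⟨m, v, hv, rfl⟩, h⟩
      exact ⟨by simp [(ih.1 hv).1], h⟩
    · rintro ⟨h1, h2⟩
      refine ⟨?_, h2⟩
      cases u with
      | nil => simp at h1
      | cons m v =>
        exact ⟨m, v, ih.2 ⟨by simpa using h1, (Grp.adm_cons.1 h2).2⟩, rfl⟩

theorem sum_admF_one {M : Type*} [AddCommMonoid M] (b : ZMod 2) (f : List (L G) → M) :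
    ∑ u ∈ admF G b 1, f u = ∑ m, f [m] := by
  symm
  refine Finset.sum_bij (fun m _ => [m]) (fun m _ => mem_admF.2 ⟨rfl, Grp.adm_single m⟩)
    (fun a _ c _ h => by simpa using h) (fun u hu => ?_) (fun _ _ => rfl)
  obtain ⟨m, rfl⟩ := List.length_eq_one_iff.1 (mem_admF.1 hu).1
  exact ⟨m, Finset.mem_univ _, rfl⟩

theorem sum_admF_cons {M : Type*} [AddCommMonoid M] (b : ZMod 2) (k : ℕ) (f : List (L G) → M) :
    ∑ u ∈ admF G b (k + 2), f u =
      ∑ m, ∑ u ∈ admF G b (k + 1), if Edge b m (u.headD 0) then f (m :: u) else 0 := by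
  rw [← Finset.sum_product' (f := fun m (u : List (L G)) =>
    if Edge b m (u.headD 0) then f (m :: u) else 0), ← Finset.sum_filter]
  symm
  refine Finset.sum_bij (fun x _ => x.1 :: x.2) (fun x hx => ?_)
    (fun a _ c _ h => by simpa [Prod.ext_iff] using h) (fun u hu => ?_) (fun _ _ => rfl)
  · obtain ⟨m, u⟩ := x
    simp only [Finset.mem_filter, Finset.mem_product, Finset.mem_univ, true_and, mem_admF] at hx
    obtain ⟨⟨h1, h2⟩, h3⟩ := hx
    cases u with
    | nil => simp at h1
    | cons j v => exact mem_admF.2 ⟨by simpa using h1, Grp.adm_cons_cons.2 ⟨h3, h2⟩⟩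
  · obtain ⟨h1, h2⟩ := mem_admF.1 hu
    match u, h1, h2 with
    | m :: j :: v, h1, h2 =>
      refine ⟨(m, j :: v), ?_, rfl⟩
      simp only [Finset.mem_filter, Finset.mem_product, Finset.mem_univ, true_and, mem_admF]
      exact ⟨⟨by simpa using h1, (Grp.adm_cons_cons.1 h2).2⟩, (Grp.adm_cons_cons.1 h2).1⟩

theorem sum_admF_snoc {M : Type*} [AddCommMonoid M] (b : ZMod 2) (k : ℕ) (f : List (L G) → M) :
    ∑ u ∈ admF G b (k + 2), f u =
      ∑ u ∈ admF G b (k + 1), ∑ m, if Edge b (u.getLastD 0) m then f (u ++ [m]) else 0 := by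
  rw [← Finset.sum_product' (f := fun (u : List (L G)) m =>
    if Edge b (u.getLastD 0) m then f (u ++ [m]) else 0), ← Finset.sum_filter]
  symm
  refine Finset.sum_bij (fun x _ => x.1 ++ [x.2]) (fun x hx => ?_)
    (fun a _ c _ h => by simpa [Prod.ext_iff] using h) (fun u hu => ?_) (fun _ _ => rfl)
  · obtain ⟨u, m⟩ := x
    simp only [Finset.mem_filter, Finset.mem_product, Finset.mem_univ, and_true, mem_admF] at hx
    obtain ⟨⟨h1, h2⟩, h3⟩ := hx
    have hu : u ≠ [] := by rintro rfl; simp at h1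
    exact mem_admF.2 ⟨by simp [h1], (Grp.adm_snoc hu).2 ⟨h2, h3⟩⟩
  · obtain ⟨h1, h2⟩ := mem_admF.1 hu
    have hu0 : u ≠ [] := by rintro rfl; simp at h1
    obtain ⟨v, m, rfl⟩ : ∃ v m, u = v ++ [m] :=
      ⟨u.dropLast, u.getLast hu0, (List.dropLast_append_getLast hu0).symm⟩
    have h3 : v.length = k + 1 := by simpa using h1
    have hv : v ≠ [] := by rintro rfl; simp at h3
    refine ⟨(v, m), ?_, rfl⟩
    simp only [Finset.mem_filter, Finset.mem_product, Finset.mem_univ, and_true, mem_admF]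
    exact ⟨⟨h3, ((Grp.adm_snoc hv).1 h2).1⟩, ((Grp.adm_snoc hv).1 h2).2⟩

variable [hG : Fact (2 ≤ G)]

theorem exists_lin : ∃ F : W G →* (V →L[ℂ] V), ∀ m : L G, F (sr m) = mir m :=
  exists_hom_of mir (fun m => ContinuousLinearMap.ext fun Z => refl_refl m Z)
    (fun m => ContinuousLinearMap.ext fun Z => refl_comm m Z)

/-- The geometric representation. -/
noncomputable def lin : W G →* (V →L[ℂ] V) := exists_lin.choose

@[simp] theorem lin_sr (m : L G) : lin (sr m) = mir m := exists_lin.choose_spec m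

theorem lin_mul (g h : W G) (Z : V) : lin (g * h) Z = lin g (lin h Z) := by
  rw [map_mul]; rfl

@[simp] theorem lin_one (Z : V) : lin (1 : W G) Z = Z := by
  rw [map_one]; rfl

@[simp] theorem lin_inv_lin (g : W G) (Z : V) : lin g⁻¹ (lin g Z) = Z := by
  rw [← lin_mul, inv_mul_cancel, lin_one]

@[simp] theorem lin_lin_inv (g : W G) (Z : V) : lin g (lin g⁻¹ Z) = Z := by
  rw [← lin_mul, mul_inv_cancel, lin_one]

theorem iso_lin (g : W G) : Iso (lin g) := by
  induction g using W.induction_left with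
  | h1 => rw [map_one]; exact Iso.one
  | hs g m ih => rw [map_mul, lin_sr]; exact (iso_refl m).mul ih

theorem br_lin_left (g : W G) (Z Y : V) : br (lin g Z) Y = br Z (lin g⁻¹ Y) := by
  rw [← (iso_lin g).br_eq Z, lin_lin_inv]

theorem lin_inv_oo_fst (g : W G) : (lin g⁻¹ oo).1 = (lin g oo).1 := by
  rw [← br_oo_left, ← br_lin_left, br_oo_right]

theorem cross_lin (g : W G) : ∃ e : ℂ, e ^ 2 = 1 ∧ ∀ X Y, cross (lin g X) (lin g Y) =
    e • lin g (cross X Y) := by
  induction g using W.induction_left with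
  | h1 => exact ⟨1, by norm_num, fun X Y => by simp⟩
  | hs g m ih =>
    obtain ⟨e, he, h⟩ := ih
    refine ⟨-e, by rw [neg_sq, he], fun X Y => ?_⟩
    simp only [lin_mul, lin_sr]
    unfold mir
    rw [cross_reflL (br_wn_self m), h, map_smul, neg_smul]

namespace Grp

omit hG in
theorem add_one_eq_of_ne {x y : ZMod 2} (h : x ≠ y) : x + 1 = y := by
  revert x y; decide

omit hG in
theorem add_one_ne (x : ZMod 2) : x + 1 ≠ x := by
  revert x; decide

omit hG in
theorem exists_ins (b : ZMod 2) (m : L G) (u : List (L G)) (hu : Adm b u) :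
    ∃ w, Adm b w ∧ wd w = sr m * wd u ∧ w.length ≤ u.length + 1 ∧
      ∀ x ∈ w.head?, x = m ∨ x ∈ u.head? ∨ Edge b m x := by
  induction u with
  | nil => exact ⟨[m], adm_single m, by simp, by simp, by simp⟩
  | cons k u ih =>
    obtain ⟨hk, hu'⟩ := adm_cons.1 hu
    by_cases he : Edge b m k
    · exact ⟨m :: k :: u, adm_cons_cons.2 ⟨he, hu⟩, by simp, by simp, by simp⟩
    by_cases hmk : m = k
    · subst hmk
      refine ⟨u, hu', by rw [wd_cons, ← mul_assoc, sr_mul_self, one_mul], by simp; omega,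
        fun x hx => Or.inr (Or.inr (hk x hx))⟩
    have hp : par m ≠ b := fun h => he ⟨hmk, fun h' => absurd h h'⟩
    have hadj : k = m + 1 ∨ k = m - 1 := by
      by_contra hc
      push Not at hc
      exact he ⟨hmk, fun _ => hc⟩
    have hpk : par k = b := by
      rcases hadj with rfl | rfl
      · rw [par_add_one]; exact add_one_eq_of_ne hp
      · rw [par_sub_one]; exact add_one_eq_of_ne hp
    have hcomm : sr k * sr m = sr m * sr k := by
      rcases hadj with rfl | rfl
      · exact (sr_comm m).symm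
      · exact (sr_comm' m).symm
    obtain ⟨w, hw1, hw2, hw3, hw4⟩ := ih hu'
    refine ⟨k :: w, adm_cons.2 ⟨fun x hx => ?_, hw1⟩, ?_, by simp; omega, by simp⟩
    · rcases hw4 x hx with rfl | h | h
      · exact ⟨Ne.symm hmk, fun h => absurd hpk h⟩
      · exact hk x h
      · refine ⟨?_, fun h => absurd hpk h⟩
        rintro rfl
        rcases hadj with h1 | h1
        · exact (h.2 hp).1 h1
        · exact (h.2 hp).2 h1
    · rw [wd_cons, hw2, wd_cons, ← mul_assoc, hcomm, mul_assoc]

end Grp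

set_option linter.unusedSectionVars false in
theorem exists_nf_le (b : ZMod 2) (v : List (L G)) :
    ∃ u, Adm b u ∧ wd u = wd v ∧ u.length ≤ v.length := by
  induction v with
  | nil => exact ⟨[], Grp.adm_nil, rfl, le_rfl⟩
  | cons m v ih =>
    obtain ⟨u, h1, h2, h3⟩ := ih
    obtain ⟨w, hw1, hw2, hw3, -⟩ := Grp.exists_ins b m u h1
    exact ⟨w, hw1, by rw [hw2, h2, wd_cons], by simp; omega⟩

theorem exists_nf (b : ZMod 2) (g : W G) : ∃ u, Adm b u ∧ wd u = g := by
  obtain ⟨v, rfl⟩ := exists_wd g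
  obtain ⟨u, h1, h2, -⟩ := exists_nf_le b v
  exact ⟨u, h1, h2⟩

theorem reg_wd {b : ZMod 2} {m : L G} {u : List (L G)} (h : Adm b (m :: u)) {Z : V} (hZ : Fut Z)
    (hC : Ch G Z) : Reg b m (lin (wd (m :: u)) Z) := by
  induction u generalizing m with
  | nil =>
    simp only [wd_cons, wd_nil, mul_one, lin_sr]
    refine ⟨(iso_refl m).fut Z hZ, ?_, fun _ => ⟨?_, ?_⟩⟩
    · rw [side_refl_self]; linarith [hC m]
    · rw [side_refl_succ]; exact hC _
    · rw [side_refl_pred]; exact hC _
  | cons k u ih =>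
    obtain ⟨h1, h2⟩ := Grp.adm_cons_cons.1 h
    rw [wd_cons, lin_mul, lin_sr]
    exact Reg.step h1 (ih h2)

theorem arc_wd {b : ZMod 2} {m : L G} {u : List (L G)} (h : Adm b (u ++ [m])) {Y : V}
    (hY : Arc b m Y) : Arc b ((u ++ [m]).headD 0) (lin (wd u) Y) := by
  induction u with
  | nil => simpa using hY
  | cons k u ih =>
    obtain ⟨h1, h2⟩ := Grp.adm_cons.1 (show Adm b (k :: (u ++ [m])) from h)
    have h3 : Edge b k ((u ++ [m]).headD 0) := by
      apply h1
      cases u <;> simp
    rw [wd_cons, lin_mul, lin_sr]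
    exact Arc.step h3 (ih h2)

namespace Grp

theorem ch_oo : Ch G oo := fun m => (side_oo m).le

theorem far_neg {m k : L G} (h : Far m k) {Z : V} (hZ : Fut Z) (h0 : 0 ≤ side Z (wn m)) :
    side Z (wn k) ≤ 0 := by
  obtain ⟨η, hη, hf⟩ := far_gap (G := G)
  have h1 := hf m k h Z hZ h0
  have h2 : 0 ≤ Z.1.re := (norm_nonneg _).trans hZ.2
  have h3 := mul_nonneg hη.le h2
  linarith

theorem far_neg' {m k : L G} (h : Far m k) {Z : V} (hZ : Hyp Z) (h0 : 0 ≤ side Z (wn m)) :
    side Z (wn k) < 0 := by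
  obtain ⟨η, hη, hf⟩ := far_gap (G := G)
  have h1 := hf m k h Z hZ.fut h0
  have h3 := mul_pos hη hZ.2.1
  linarith

omit hG in
theorem cases_letter (m k : L G) : k = m ∨ k = m + 1 ∨ k = m - 1 ∨ Far m k := by
  by_cases h1 : k = m
  · exact Or.inl h1
  by_cases h2 : k = m + 1
  · exact Or.inr (Or.inl h2)
  by_cases h3 : k = m - 1
  · exact Or.inr (Or.inr (Or.inl h3))
  exact Or.inr (Or.inr (Or.inr ⟨Ne.symm h1, h2, h3⟩))

theorem side_wd_ne {b : ZMod 2} {u : List (L G)} (hu : Adm b u) (k : L G) :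
    side (lin (wd u) oo) (wn k) ≠ 0 := by
  induction u generalizing k with
  | nil => simpa using (side_oo k).ne
  | cons m u ih =>
    have hu' := (adm_cons.1 hu).2
    have hr := reg_wd hu hyp_oo.fut ch_oo
    rcases cases_letter m k with rfl | rfl | rfl | h
    · rw [wd_cons, lin_mul, lin_sr, side_refl_self]
      exact neg_ne_zero.2 (ih hu' _)
    · rw [wd_cons, lin_mul, lin_sr, side_refl_succ]
      exact ih hu' _
    · rw [wd_cons, lin_mul, lin_sr, side_refl_pred]
      exact ih hu' _
    · exact (far_neg' h ((iso_lin _).hyp hyp_oo) hr.2.1).ne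

theorem side_ne (g : W G) (k : L G) : side (lin g oo) (wn k) ≠ 0 := by
  obtain ⟨u, hu, rfl⟩ := exists_nf 0 g
  exact side_wd_ne hu k

theorem side_pos {b : ZMod 2} {m : L G} {u : List (L G)} (h : Adm b (m :: u)) :
    0 < side (lin (wd (m :: u)) oo) (wn m) :=
  lt_of_le_of_ne (reg_wd h hyp_oo.fut ch_oo).2.1 (side_ne _ _).symm

theorem tits_wd {b : ZMod 2} {u : List (L G)} (hu : Adm b u) {Z : V} (hZ : Fut Z) (hC : Ch G Z)
    (k : L G) : (0 < side (lin (wd u) oo) (wn k) → 0 ≤ side (lin (wd u) Z) (wn k)) ∧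
      (side (lin (wd u) oo) (wn k) < 0 → side (lin (wd u) Z) (wn k) ≤ 0) := by
  induction u generalizing k with
  | nil =>
    simp only [wd_nil, lin_one]
    exact ⟨fun h => absurd h (side_oo k).le.not_gt, fun _ => hC k⟩
  | cons m u ih =>
    have hu' := (adm_cons.1 hu).2
    rcases cases_letter m k with rfl | rfl | rfl | h
    · simp only [wd_cons, lin_mul, lin_sr, side_refl_self]
      have := ih hu' k
      exact ⟨fun h => by linarith [this.2 (by linarith)],
        fun h => by linarith [this.1 (by linarith)]⟩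
    · simp only [wd_cons, lin_mul, lin_sr, side_refl_succ]
      exact ih hu' _
    · simp only [wd_cons, lin_mul, lin_sr, side_refl_pred]
      exact ih hu' _
    · have h1 := reg_wd hu hyp_oo.fut ch_oo
      have h2 := reg_wd hu hZ hC
      exact ⟨fun h3 => absurd h3 (far_neg h h1.1 h1.2.1).not_gt, fun _ => far_neg h h2.1 h2.2.1⟩

end Grp

theorem wd_inj {b : ZMod 2} {u v : List (L G)} (hu : Adm b u) (hv : Adm b v) (h : wd u = wd v) :
    u = v := by
  induction u generalizing v with
  | nil =>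
    cases v with
    | nil => rfl
    | cons k v =>
      have h1 := Grp.side_pos hv
      rw [← h, wd_nil, lin_one] at h1
      exact absurd h1 (side_oo k).le.not_gt
  | cons m u ih =>
    cases v with
    | nil =>
      have h1 := Grp.side_pos hu
      rw [h, wd_nil, lin_one] at h1
      exact absurd h1 (side_oo m).le.not_gt
    | cons k v =>
      have h1 := Grp.side_pos hu
      have h2 := Grp.side_pos hv
      have h3 := reg_wd hu hyp_oo.fut Grp.ch_oo
      have h4 := reg_wd hv hyp_oo.fut Grp.ch_oo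
      rw [← h] at h2 h4
      rcases Grp.cases_letter m k with rfl | rfl | rfl | hf
      · rw [wd_cons, wd_cons, mul_right_inj] at h
        rw [ih (Grp.adm_cons.1 hu).2 (Grp.adm_cons.1 hv).2 h]
      · exfalso
        by_cases hp : par m = b
        · have hp' : par (m + 1) ≠ b := by rw [par_add_one, hp]; exact Grp.add_one_ne b
          have := (h4.2.2 hp').2
          rw [add_sub_cancel_right] at this
          linarith
        · linarith [(h3.2.2 hp).1]
      · exfalso
        by_cases hp : par m = b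
        · have hp' : par (m - 1) ≠ b := by rw [par_sub_one, hp]; exact Grp.add_one_ne b
          have := (h4.2.2 hp').1
          rw [sub_add_cancel] at this
          linarith
        · linarith [(h3.2.2 hp).2]
      · exact absurd h2 (Grp.far_neg hf h3.1 h1.le).not_gt

/-- Right descents. -/
def Des (h : W G) (m : L G) : Prop := 0 < side (lin h⁻¹ oo) (wn m)

theorem tits {h : W G} {m : L G} {Z : V} (hZ : Fut Z) (hC : Ch G Z) :
    (Des h m → 0 ≤ side (lin h⁻¹ Z) (wn m)) ∧ (¬ Des h m → side (lin h⁻¹ Z) (wn m) ≤ 0) := by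
  obtain ⟨u, hu, hw⟩ := exists_nf 0 h⁻¹
  have h1 := Grp.tits_wd hu hZ hC m
  rw [hw] at h1
  exact ⟨h1.1, fun h2 => h1.2 (lt_of_le_of_ne (not_lt.1 h2) (Grp.side_ne _ _))⟩

theorem des_mul_self (h : W G) (m : L G) : Des (h * sr m) m ↔ ¬ Des h m := by
  unfold Des
  rw [mul_inv_rev, sr_inv, lin_mul, lin_sr, side_refl_self]
  have := Grp.side_ne h⁻¹ m
  constructor
  · intro h1 h2; linarith
  · intro h1
    have := lt_of_le_of_ne (not_lt.1 h1) this
    linarith

theorem des_mul_succ (h : W G) (m : L G) : Des (h * sr m) (m + 1) ↔ Des h (m + 1) := by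
  unfold Des
  rw [mul_inv_rev, sr_inv, lin_mul, lin_sr, side_refl_succ]

theorem des_mul_pred (h : W G) (m : L G) : Des (h * sr m) (m - 1) ↔ Des h (m - 1) := by
  unfold Des
  rw [mul_inv_rev, sr_inv, lin_mul, lin_sr, side_refl_pred]

theorem not_des_far {h : W G} {m m' : L G} (hf : Far m m') (h1 : Des h m) : ¬ Des h m' :=
  (Grp.far_neg hf ((iso_lin _).fut _ hyp_oo.fut) (le_of_lt h1)).not_gt

theorem no_des_iff {h : W G} : (∀ m, ¬ Des h m) ↔ h = 1 := by
  constructor
  · intro H
    obtain ⟨u, hu, hw⟩ := exists_nf 0 h⁻¹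
    cases u with
    | nil => exact inv_eq_one.1 hw.symm
    | cons m u =>
      have h1 := Grp.side_pos hu
      rw [hw] at h1
      exact absurd h1 (H m)
  · rintro rfl m
    unfold Des
    rw [inv_one, lin_one]
    exact (side_oo m).le.not_gt

end Pool.Agent.Lib.MP_de7bb2_an
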