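import Pool.Agent.Lib.MP_de7bb2_an.H20Tool

/-! A two point boundary value problem with holomorphic parameters, and gluing of orbit segments.
TASK SEG. -/

namespace Pool.Agent.Lib.MP_de7bb2_an

open Metric Set Filter Topology

namespace Seg

section glue

variable {X : Type*} [NormedAddCommGroup X] [NormedSpace ℝ X]

/-- `c` is an integral curve of `V` in `S` on the interval from `a` to `b`. -/
def Sol (S : Set X) (V : X → X) (c : ℝ → X) (a b : ℝ) : Prop :=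
  ∀ t ∈ Icc a b, c t ∈ S ∧ HasDerivWithinAt c (V (c t)) (Icc a b) t

variable {S : Set X} {V : X → X}

theorem Sol.congr {c c' : ℝ → X} {a b : ℝ} (h : Sol S V c a b) (he : EqOn c' c (Icc a b)) :
    Sol S V c' a b := by
  intro t ht
  rw [he ht]
  exact ⟨(h t ht).1, (h t ht).2.congr he (he ht)⟩

theorem Sol.union {c : ℝ → X} {a b d : ℝ} (hab : a ≤ b) (hbd : b ≤ d) (h1 : Sol S V c a b)
    (h2 : Sol S V c b d) : Sol S V c a d := by
  intro t ht
  rw [← Icc_union_Icc_eq_Icc hab hbd] at ht ⊢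
  refine ⟨ht.elim (fun h => (h1 t h).1) (fun h => (h2 t h).1), HasDerivWithinAt.union ?_ ?_⟩
  · by_cases h : t ∈ Icc a b
    · exact (h1 t h).2
    · exact HasFDerivWithinAt.of_notMem_closure (by rwa [closure_Icc])
  · by_cases h : t ∈ Icc b d
    · exact (h2 t h).2
    · exact HasFDerivWithinAt.of_notMem_closure (by rwa [closure_Icc])

theorem Sol.shift {c : ℝ → X} {a b : ℝ} (h : Sol S V c a b) (s : ℝ) :
    Sol S V (fun t => c (t - s)) (a + s) (b + s) := by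
  have hm : MapsTo (fun t => t - s) (Icc (a + s) (b + s)) (Icc a b) := fun t ht =>
    ⟨by linarith [ht.1], by linarith [ht.2]⟩
  intro t ht
  refine ⟨(h _ (hm ht)).1, ?_⟩
  have := (h _ (hm ht)).2.scomp t ((hasDerivAt_id t).sub_const s).hasDerivWithinAt hm
  rw [one_smul] at this
  exact this

theorem Sol.concat {c c' : ℝ → X} {a b : ℝ} (ha : 0 ≤ a) (hb : 0 ≤ b) (h1 : Sol S V c 0 a)
    (h2 : Sol S V c' 0 b) (hj : c a = c' 0) :
    ∃ C : ℝ → X, C 0 = c 0 ∧ C (a + b) = c' b ∧ Sol S V C 0 (a + b) := by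
  have e2 : EqOn (fun t => if t ≤ a then c t else c' (t - a)) (fun t => c' (t - a))
      (Icc (0 + a) (b + a)) := by
    intro t ht
    by_cases h : t ≤ a
    · have : t = a := le_antisymm h (by linarith [ht.1])
      simp [this, hj]
    · simp [h]
  refine ⟨fun t => if t ≤ a then c t else c' (t - a), by simp [ha], ?_, ?_⟩
  · have := e2 (x := a + b) ⟨by linarith, by linarith⟩
    simpa using this
  · refine Sol.union ha (by linarith) (h1.congr fun t ht => by simp [ht.2]) ?_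
    have := (h2.shift a).congr e2
    rwa [zero_add, add_comm b a] at this

theorem Sol.map {c : ℝ → X} {a b : ℝ} (h : Sol S V c a b) (A : X ≃L[ℝ] X)
    (hA : ∀ x ∈ S, A x ∈ S ∧ V (A x) = A (V x)) : Sol S V (fun t => A (c t)) a b := by
  intro t ht
  refine ⟨(hA _ (h t ht).1).1, ?_⟩
  rw [(hA _ (h t ht).1).2]
  exact (A : X →L[ℝ] X).hasFDerivAt.comp_hasDerivWithinAt t (h t ht).2

theorem zpow_prop (A : X ≃L[ℝ] X) (hA : ∀ x, A x ∈ S ↔ x ∈ S)
    (hAV : ∀ x ∈ S, V (A x) = A (V x)) (k : ℤ) :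
    ∀ x ∈ S, (A ^ k) x ∈ S ∧ V ((A ^ k) x) = (A ^ k) (V x) := by
  induction k using Int.induction_on with
  | zero => intro x hx; exact ⟨hx, rfl⟩
  | succ i ih =>
    intro x hx
    rw [zpow_add_one]
    have h1 := ih (A x) ((hA x).2 hx)
    refine ⟨h1.1, h1.2.trans ?_⟩
    rw [hAV x hx]
    rfl
  | pred i ih =>
    intro x hx
    rw [zpow_sub_one]
    have h0 : A.symm x ∈ S := (hA _).1 (by simpa using hx)
    have h1 := ih (A.symm x) h0
    refine ⟨h1.1, h1.2.trans ?_⟩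
    have h2 : V (A.symm x) = A.symm (V x) := by
      have := hAV _ h0
      rw [A.apply_symm_apply] at this
      rw [this, A.symm_apply_apply]
    rw [h2]
    rfl

theorem reparam {e : ℝ → X} {ρ : ℝ → ℝ} (hc : ContinuousOn ρ (Icc 0 1))
    (hp : ∀ t ∈ Icc (0 : ℝ) 1, 0 < ρ t)
    (he : ∀ t ∈ Icc (0 : ℝ) 1, e t ∈ S ∧ HasDerivWithinAt e (ρ t • V (e t)) (Icc 0 1) t) :
    0 < ∫ s in (0 : ℝ)..1, ρ s ∧ ∃ c : ℝ → X, c 0 = e 0 ∧ c (∫ s in (0 : ℝ)..1, ρ s) = e 1 ∧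
      Sol S V c 0 (∫ s in (0 : ℝ)..1, ρ s) := by
  set r : ℝ → ℝ := fun t => ρ (projIcc (0 : ℝ) 1 zero_le_one t) with hr
  have hrc : Continuous r :=
    hc.comp_continuous (continuous_subtype_val.comp continuous_projIcc) fun t => Subtype.prop _
  have hre : ∀ t ∈ Icc (0 : ℝ) 1, r t = ρ t := fun t ht => by
    simp only [hr, projIcc_of_mem _ ht]
  obtain ⟨t0, ht0, hmin⟩ := isCompact_Icc.exists_isMinOn (nonempty_Icc.2 zero_le_one) hc
  set m := ρ t0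
  have hm : 0 < m := hp t0 ht0
  have hrm : ∀ t, m ≤ r t := fun t => hmin (Subtype.prop _)
  set τ : ℝ → ℝ := fun t => ∫ s in (0 : ℝ)..t, r s with hτ
  have hd : ∀ t, HasDerivAt τ (r t) t := fun t => (hrc.integral_hasStrictDerivAt 0 t).hasDerivAt
  have hτ0 : τ 0 = 0 := by simp [hτ]
  have hτ1 : τ 1 = ∫ s in (0 : ℝ)..1, ρ s := by
    refine intervalIntegral.integral_congr fun t ht => hre t ?_
    rwa [uIcc_of_le zero_le_one] at ht
  have hmono : StrictMono τ := strictMono_of_hasDerivAt_pos hd fun t => hm.trans_le (hrm t)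
  have hm2 : Monotone fun t => τ t - m * t := by
    refine monotone_of_hasDerivAt_nonneg (f' := fun t => r t - m) (fun t => ?_) fun t => ?_
    · have := (hd t).sub ((hasDerivAt_id t).const_mul m)
      rw [mul_one] at this
      exact this
    · simpa using hrm t
  have hτc : Continuous τ := continuous_iff_continuousAt.2 fun t => (hd t).continuousAt
  have hsurj : Function.Surjective τ := by
    intro y
    have h1 : 0 ≤ |y| / m := by positivity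
    have h2 := hm2 h1
    have h3 := hm2 (neg_nonpos.2 h1)
    simp only [hτ0] at h2 h3
    have h4 : m * (|y| / m) = |y| := by field_simp
    have : y ∈ Icc (τ (-(|y| / m))) (τ (|y| / m)) :=
      ⟨by nlinarith [neg_abs_le y], by nlinarith [le_abs_self y]⟩
    obtain ⟨x, -, hx⟩ := intermediate_value_Icc (by linarith) hτc.continuousOn this
    exact ⟨x, hx⟩
  set σ := (hmono.orderIsoOfSurjective τ hsurj).symm with hσ
  have hστ : ∀ t, σ (τ t) = t := fun t => StrictMono.orderIsoOfSurjective_symm_apply_self _ _ _ t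
  have hτσ : ∀ t, τ (σ t) = t := fun t => StrictMono.orderIsoOfSurjective_self_symm_apply _ _ _ t
  have hσ0 : σ 0 = 0 := by rw [← hτ0, hστ, hτ0]
  have hσd : ∀ t, HasDerivAt σ (r (σ t))⁻¹ t := fun t =>
    HasDerivAt.of_local_left_inverse σ.continuous.continuousAt (hd _)
      (hm.trans_le (hrm _)).ne' (Eventually.of_forall hτσ)
  rw [← hτ1]
  refine ⟨hτ0 ▸ hmono zero_lt_one, fun t => e (σ t), congrArg e hσ0, congrArg e (hστ 1), ?_⟩
  have hmaps : MapsTo σ (Icc 0 (τ 1)) (Icc 0 1) := fun t ht =>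
    ⟨hσ0 ▸ σ.monotone ht.1, hστ 1 ▸ σ.monotone ht.2⟩
  intro t ht
  refine ⟨(he _ (hmaps ht)).1, ?_⟩
  have := (he _ (hmaps ht)).2.scomp t (hσd t).hasDerivWithinAt hmaps
  rwa [hre _ (hmaps ht), inv_smul_smul₀ (hp _ (hmaps ht)).ne'] at this

theorem chain (n : ℕ) (e : ℕ → ℝ → X) (ρ : ℕ → ℝ → ℝ)
    (hρ : ∀ i ≤ n, ContinuousOn (ρ i) (Icc 0 1) ∧ ∀ t ∈ Icc (0 : ℝ) 1, 0 < ρ i t)
    (he : ∀ i ≤ n, ∀ t ∈ Icc (0 : ℝ) 1,
      e i t ∈ S ∧ HasDerivWithinAt (e i) (ρ i t • V (e i t)) (Icc 0 1) t)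
    (hj : ∀ i < n, e i 1 = e (i + 1) 0) :
    0 < ∑ i ∈ Finset.range (n + 1), ∫ s in (0 : ℝ)..1, ρ i s ∧ ∃ c : ℝ → X, c 0 = e 0 0 ∧
      c (∑ i ∈ Finset.range (n + 1), ∫ s in (0 : ℝ)..1, ρ i s) = e n 1 ∧
      Sol S V c 0 (∑ i ∈ Finset.range (n + 1), ∫ s in (0 : ℝ)..1, ρ i s) := by
  induction n with
  | zero =>
    simpa using reparam (hρ 0 le_rfl).1 (hρ 0 le_rfl).2 (he 0 le_rfl)
  | succ n ih =>
    obtain ⟨h0, c, hc0, hc1, hc⟩ := ih (fun i hi => hρ i (by omega)) (fun i hi => he i (by omega))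
      (fun i hi => hj i (by omega))
    obtain ⟨h0', c', hc0', hc1', hc'⟩ := reparam (hρ _ le_rfl).1 (hρ _ le_rfl).2 (he _ le_rfl)
    rw [Finset.sum_range_succ _ (n + 1)]
    obtain ⟨C, h1, h2, h3⟩ := Sol.concat h0.le h0'.le hc hc'
      (by rw [hc1, hc0', hj n (by omega)])
    exact ⟨by linarith, C, h1.trans hc0, h2.trans hc1', h3⟩

theorem extend (A : X ≃L[ℝ] X) (hA : ∀ x, A x ∈ S ↔ x ∈ S) (hAV : ∀ x ∈ S, V (A x) = A (V x))
    {T : ℝ} (hT : 0 < T) {c : ℝ → X} (hc : Sol S V c 0 T) (hl : c T = A (c 0)) :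
    ∃ C : ℝ → X, (∀ t, C t ∈ S ∧ HasDerivAt C (V (C t)) t) ∧ ∀ t, C (t + T) = A (C t) := by
  set C : ℝ → X := fun t => (A ^ ⌊t / T⌋) (c (t - ⌊t / T⌋ * T)) with hC
  have key : ∀ k : ℤ, Sol S V C (k * T) (k * T + T) := by
    intro k
    have h1 := (hc.shift (k * T)).map (A ^ k) (zpow_prop A hA hAV k)
    rw [zero_add, add_comm T] at h1
    refine h1.congr fun t ht => ?_
    rcases ht.2.lt_or_eq with h | h
    · have : ⌊t / T⌋ = k := by
        rw [Int.floor_eq_iff, le_div_iff₀ hT, div_lt_iff₀ hT]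
        exact ⟨ht.1, by linarith⟩
      simp only [hC, this]
    · have : ⌊t / T⌋ = k + 1 := by
        rw [Int.floor_eq_iff, le_div_iff₀ hT, div_lt_iff₀ hT]
        push_cast
        constructor <;> nlinarith
      simp only [hC, this]
      rw [show t - ((k + 1 : ℤ) : ℝ) * T = 0 by push_cast; linarith,
        show t - k * T = T by linarith, hl, zpow_add_one]
      rfl
  refine ⟨C, fun t => ?_, fun t => ?_⟩
  · have h1 := key (⌊t / T⌋ - 1)
    have e1 : ((⌊t / T⌋ - 1 : ℤ) : ℝ) * T + T = ⌊t / T⌋ * T := by push_cast; ring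
    have a1 : (⌊t / T⌋ : ℝ) * T ≤ t := (le_div_iff₀ hT).1 (Int.floor_le _)
    have a2 : t < (⌊t / T⌋ + 1 : ℝ) * T := (div_lt_iff₀ hT).1 (Int.lt_floor_add_one _)
    rw [e1] at h1
    have h2 := h1.union (by linarith) (by linarith) (key ⌊t / T⌋) t ⟨by linarith, by linarith⟩
    exact ⟨h2.1, h2.2.hasDerivAt (Icc_mem_nhds (by linarith) (by linarith))⟩
  · have : ⌊(t + T) / T⌋ = 1 + ⌊t / T⌋ := by
      rw [add_div, div_self hT.ne', Int.floor_add_one, add_comm]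
    simp only [hC, this]
    rw [show t + T - ((1 + ⌊t / T⌋ : ℤ) : ℝ) * T = t - ⌊t / T⌋ * T by push_cast; ring,
      zpow_one_add]
    rfl

end glue

section seg

variable {P : Type*} [NormedAddCommGroup P] [NormedSpace ℂ P] {U : Set P} {δ : ℝ}
  {G : P → ℝ → ℂ × ℂ → ℂ × ℂ}

/-- The Picard operator of the boundary value problem. -/
noncomputable def pic (G : P → ℝ → ℂ × ℂ → ℂ × ℂ) (z : P → ℝ → ℂ × ℂ) (p : P) (t : ℝ) : ℂ × ℂ :=
  (∫ s in (0 : ℝ)..t, (G p s (z p s)).1, ∫ s in (1 : ℝ)..t, (G p s (z p s)).2)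

/-- The class of functions on which the Picard operator acts. -/
structure Good (U : Set P) (δ : ℝ) (z : P → ℝ → ℂ × ℂ) : Prop where
  cont : ContinuousOn (fun x : P × ℝ => z x.1 x.2) (U ×ˢ Icc 0 1)
  diff : ∀ t ∈ Icc (0 : ℝ) 1, DifferentiableOn ℂ (fun p => z p t) U
  bd : ∀ p ∈ U, ∀ t ∈ Icc (0 : ℝ) 1, ‖z p t‖ ≤ δ / 8

theorem norm_int_le {f : ℝ → ℂ} {a t M : ℝ} (ha : a ∈ Icc (0 : ℝ) 1) (ht : t ∈ Icc (0 : ℝ) 1)
    (h : ∀ s ∈ Icc (0 : ℝ) 1, ‖f s‖ ≤ M) : ‖∫ s in a..t, f s‖ ≤ M := by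
  have hM : 0 ≤ M := (norm_nonneg _).trans (h a ha)
  have h1 := intervalIntegral.norm_integral_le_of_norm_le_const (a := a) (b := t) (C := M) (f := f)
    fun s hs => h s (uIcc_subset_Icc ha ht (uIoc_subset_uIcc hs))
  have h2 : |t - a| ≤ 1 := abs_le.2 ⟨by linarith [ha.2, ht.1], by linarith [ha.1, ht.2]⟩
  nlinarith

theorem im_int {f : ℝ → ℂ} {a t : ℝ} (ha : a ∈ Icc (0 : ℝ) 1) (ht : t ∈ Icc (0 : ℝ) 1)
    (h : ∀ s ∈ Icc (0 : ℝ) 1, (f s).im = 0) : (∫ s in a..t, f s).im = 0 := by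
  have : ∫ s in a..t, f s = ∫ s in a..t, (((f s).re : ℝ) : ℂ) :=
    intervalIntegral.integral_congr fun s hs =>
      Complex.ext (by simp) (by simp [h s (uIcc_subset_Icc ha ht hs)])
  rw [this, intervalIntegral.integral_ofReal, Complex.ofReal_im]

omit [NormedSpace ℂ P] in
theorem cont_int {f : P → ℝ → ℂ} (hf : ContinuousOn (fun x : P × ℝ => f x.1 x.2) (U ×ˢ Icc 0 1))
    {a : ℝ} (ha : a ∈ Icc (0 : ℝ) 1) :
    ContinuousOn (fun x : P × ℝ => ∫ s in a..x.2, f x.1 s) (U ×ˢ Icc 0 1) := by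
  rw [continuousOn_iff_continuous_domRestrict]
  have h1 : Continuous (Function.uncurry fun (x : (U ×ˢ Icc (0 : ℝ) 1 : Set (P × ℝ))) (s : ℝ) =>
      f x.1.1 (projIcc (0 : ℝ) 1 zero_le_one s)) := by
    refine hf.comp_continuous (f := fun y : (U ×ˢ Icc (0 : ℝ) 1 : Set (P × ℝ)) × ℝ =>
      (y.1.1.1, ((projIcc (0 : ℝ) 1 zero_le_one y.2 : Icc (0 : ℝ) 1) : ℝ))) ?_
      fun y => ⟨y.1.2.1, Subtype.prop _⟩
    exact (continuous_fst.comp (continuous_subtype_val.comp continuous_fst)).prodMk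
      (continuous_subtype_val.comp (continuous_projIcc.comp continuous_snd))
  have h2 := intervalIntegral.continuous_parametric_intervalIntegral_of_continuous
    (μ := MeasureTheory.volume) (a₀ := a) h1 (continuous_snd.comp continuous_subtype_val)
  refine h2.congr fun x => intervalIntegral.integral_congr fun s hs => ?_
  simp only [projIcc_of_mem _ (uIcc_subset_Icc ha x.2.2 hs)]

theorem deriv_int {f : ℝ → ℂ} (hf : ContinuousOn f (Icc 0 1)) {a t : ℝ} (ha : a ∈ Icc (0 : ℝ) 1)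
    (ht : t ∈ Icc (0 : ℝ) 1) : HasDerivWithinAt (fun u => ∫ s in a..u, f s) (f t) (Icc 0 1) t := by
  have : Fact (t ∈ Icc (0 : ℝ) 1) := ⟨ht⟩
  exact intervalIntegral.integral_hasDerivWithinAt_right
    ((hf.mono (uIcc_subset_Icc ha ht)).intervalIntegrable)
    (hf.stronglyMeasurableAtFilter_nhdsWithin measurableSet_Icc t) (hf t ht)

theorem Good.mem {z : P → ℝ → ℂ × ℂ} (hz : Good U δ z) (hδ : 0 < δ) {p : P} (hp : p ∈ U) {t : ℝ}
    (ht : t ∈ Icc (0 : ℝ) 1) : z p t ∈ ball (0 : ℂ × ℂ) δ := by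
  rw [mem_ball_zero_iff]
  linarith [hz.bd p hp t ht]

theorem Good.contG {z : P → ℝ → ℂ × ℂ} (hz : Good U δ z) (hδ : 0 < δ)
    (hc : ContinuousOn (fun x : P × ℝ × ℂ × ℂ => G x.1 x.2.1 x.2.2) (U ×ˢ Icc 0 1 ×ˢ ball 0 δ)) :
    ContinuousOn (fun x : P × ℝ => G x.1 x.2 (z x.1 x.2)) (U ×ˢ Icc 0 1) :=
  hc.comp (f := fun x : P × ℝ => (x.1, x.2, z x.1 x.2))
    (continuousOn_fst.prodMk (continuousOn_snd.prodMk hz.cont))
    fun _ hx => ⟨hx.1, hx.2, hz.mem hδ hx.1 hx.2⟩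

theorem Good.contG' {z : P → ℝ → ℂ × ℂ} (hz : Good U δ z) (hδ : 0 < δ)
    (hc : ContinuousOn (fun x : P × ℝ × ℂ × ℂ => G x.1 x.2.1 x.2.2) (U ×ˢ Icc 0 1 ×ˢ ball 0 δ))
    {p : P} (hp : p ∈ U) : ContinuousOn (fun t => G p t (z p t)) (Icc 0 1) :=
  (hz.contG hδ hc).comp (f := fun t : ℝ => (p, t)) (by fun_prop) fun _ ht => ⟨hp, ht⟩

omit [NormedAddCommGroup P] [NormedSpace ℂ P] in
theorem norm_pic_le {z : P → ℝ → ℂ × ℂ} {p : P} {M : ℝ}
    (h : ∀ s ∈ Icc (0 : ℝ) 1, ‖G p s (z p s)‖ ≤ M) {t : ℝ} (ht : t ∈ Icc (0 : ℝ) 1) :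
    ‖pic G z p t‖ ≤ M :=
  norm_prod_le_iff.2
    ⟨norm_int_le (left_mem_Icc.2 zero_le_one) ht fun s hs => (norm_fst_le _).trans (h s hs),
      norm_int_le (right_mem_Icc.2 zero_le_one) ht fun s hs => (norm_snd_le _).trans (h s hs)⟩

theorem Good.pic [FiniteDimensional ℂ P] {z : P → ℝ → ℂ × ℂ} (hz : Good U δ z) (hU : IsOpen U)
    (hδ : 0 < δ)
    (hc : ContinuousOn (fun x : P × ℝ × ℂ × ℂ => G x.1 x.2.1 x.2.2) (U ×ˢ Icc 0 1 ×ˢ ball 0 δ))
    (hd : ∀ t ∈ Icc (0 : ℝ) 1,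
      DifferentiableOn ℂ (fun x : P × ℂ × ℂ => G x.1 t x.2) (U ×ˢ ball 0 δ))
    (hb : ∀ p ∈ U, ∀ t ∈ Icc (0 : ℝ) 1, ∀ z ∈ ball (0 : ℂ × ℂ) δ, ‖G p t z‖ ≤ δ / 8) :
    Good U δ (pic G z) := by
  have h0 : (0 : ℝ) ∈ Icc (0 : ℝ) 1 := left_mem_Icc.2 zero_le_one
  have h1 : (1 : ℝ) ∈ Icc (0 : ℝ) 1 := right_mem_Icc.2 zero_le_one
  have hg := hz.contG hδ hc
  have hdg : ∀ s ∈ Icc (0 : ℝ) 1, DifferentiableOn ℂ (fun p => G p s (z p s)) U := fun s hs =>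
    (hd s hs).comp (f := fun p => (p, z p s)) (differentiableOn_id.prodMk (hz.diff s hs))
      fun p hp => ⟨hp, hz.mem hδ hp hs⟩
  refine ⟨?_, fun t ht => ?_, fun p hp t ht =>
    norm_pic_le (fun s hs => hb p hp s hs _ (hz.mem hδ hp hs)) ht⟩
  · exact (cont_int (f := fun p s => (G p s (z p s)).1) hg.fst h0).prodMk
      (cont_int (f := fun p s => (G p s (z p s)).2) hg.snd h1)
  · exact (diffOn_intervalIntegral (f := fun p s => (G p s (z p s)).1) hU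
      (hg.fst.mono (prod_mono subset_rfl (uIcc_subset_Icc h0 ht)))
      fun s hs => (hdg s (uIcc_subset_Icc h0 ht hs)).fst).prodMk
      (diffOn_intervalIntegral (f := fun p s => (G p s (z p s)).2) hU
      (hg.snd.mono (prod_mono subset_rfl (uIcc_subset_Icc h1 ht)))
      fun s hs => (hdg s (uIcc_subset_Icc h1 ht hs)).snd)

theorem lip {g : ℂ × ℂ → ℂ × ℂ} (hδ : 0 < δ) (hd : DifferentiableOn ℂ g (ball 0 δ))
    (hb : ∀ z ∈ ball (0 : ℂ × ℂ) δ, ‖g z‖ ≤ δ / 8) {y y' : ℂ × ℂ} (hy : ‖y‖ ≤ δ / 8)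
    (hy' : ‖y'‖ ≤ δ / 8) : ‖g y - g y'‖ ≤ 1 / 2 * ‖y - y'‖ := by
  have hsub : ball y' (δ / 2) ⊆ ball 0 δ := by
    intro x hx
    rw [mem_ball_iff_norm] at hx
    rw [mem_ball_zero_iff]
    linarith [norm_le_norm_sub_add x y']
  have h := Complex.dist_le_div_mul_dist_of_mapsTo_ball (R₂ := δ / 4) (z := y) (hd.mono hsub)
    (fun x hx => by
      rw [mem_closedBall_iff_norm]
      linarith [norm_sub_le (g x) (g y'), hb x (hsub hx),
        hb y' (hsub (mem_ball_self (by positivity)))])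
    (by rw [mem_ball_iff_norm]; linarith [norm_sub_le y y'])
  rw [dist_eq_norm, dist_eq_norm] at h
  refine h.trans_eq ?_
  congr 1
  field_simp
  norm_num

theorem pic_sub {z z' : P → ℝ → ℂ × ℂ} (hz : Good U δ z) (hz' : Good U δ z') (hδ : 0 < δ)
    (hc : ContinuousOn (fun x : P × ℝ × ℂ × ℂ => G x.1 x.2.1 x.2.2) (U ×ˢ Icc 0 1 ×ˢ ball 0 δ))
    (hd : ∀ t ∈ Icc (0 : ℝ) 1,
      DifferentiableOn ℂ (fun x : P × ℂ × ℂ => G x.1 t x.2) (U ×ˢ ball 0 δ))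
    (hb : ∀ p ∈ U, ∀ t ∈ Icc (0 : ℝ) 1, ∀ z ∈ ball (0 : ℂ × ℂ) δ, ‖G p t z‖ ≤ δ / 8)
    {p : P} (hp : p ∈ U) {D : ℝ} (hD : ∀ s ∈ Icc (0 : ℝ) 1, ‖z p s - z' p s‖ ≤ D) :
    ∀ t ∈ Icc (0 : ℝ) 1, ‖pic G z p t - pic G z' p t‖ ≤ D * (1 / 2) := by
  intro t ht
  have h0 : (0 : ℝ) ∈ Icc (0 : ℝ) 1 := left_mem_Icc.2 zero_le_one
  have h1 : (1 : ℝ) ∈ Icc (0 : ℝ) 1 := right_mem_Icc.2 zero_le_one
  have hg := hz.contG' hδ hc hp
  have hg' := hz'.contG' hδ hc hp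
  have hl : ∀ s ∈ Icc (0 : ℝ) 1, ‖G p s (z p s) - G p s (z' p s)‖ ≤ D * (1 / 2) := fun s hs => by
    have := lip (g := G p s) hδ ((hd s hs).comp (f := fun y => (p, y)) (by fun_prop)
      fun y hy => ⟨hp, hy⟩) (hb p hp s hs) (hz.bd p hp s hs) (hz'.bd p hp s hs)
    linarith [hD s hs]
  refine norm_prod_le_iff.2 ⟨?_, ?_⟩
  · simp only [pic, Prod.fst_sub]
    rw [← intervalIntegral.integral_sub ((hg.fst.mono (uIcc_subset_Icc h0 ht)).intervalIntegrable)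
      ((hg'.fst.mono (uIcc_subset_Icc h0 ht)).intervalIntegrable)]
    exact norm_int_le h0 ht fun s hs => (norm_fst_le (G p s (z p s) - G p s (z' p s))).trans (hl s hs)
  · simp only [pic, Prod.snd_sub]
    rw [← intervalIntegral.integral_sub ((hg.snd.mono (uIcc_subset_Icc h1 ht)).intervalIntegrable)
      ((hg'.snd.mono (uIcc_subset_Icc h1 ht)).intervalIntegrable)]
    exact norm_int_le h1 ht fun s hs => (norm_snd_le (G p s (z p s) - G p s (z' p s))).trans (hl s hs)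

end seg

end Seg

theorem exists_seg {P : Type*} [NormedAddCommGroup P] [NormedSpace ℂ P] [FiniteDimensional ℂ P]
    {U : Set P} (hU : IsOpen U) {δ : ℝ} (hδ : 0 < δ) {G : P → ℝ → ℂ × ℂ → ℂ × ℂ}
    (hc : ContinuousOn (fun x : P × ℝ × ℂ × ℂ => G x.1 x.2.1 x.2.2) (U ×ˢ Icc 0 1 ×ˢ ball 0 δ))
    (hd : ∀ t ∈ Icc (0 : ℝ) 1,
      DifferentiableOn ℂ (fun x : P × ℂ × ℂ => G x.1 t x.2) (U ×ˢ ball 0 δ))
    (hb : ∀ p ∈ U, ∀ t ∈ Icc (0 : ℝ) 1, ∀ z ∈ ball (0 : ℂ × ℂ) δ, ‖G p t z‖ ≤ δ / 8) :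
    ∃ z : P → ℝ → ℂ × ℂ, ContinuousOn (fun x : P × ℝ => z x.1 x.2) (U ×ˢ Icc 0 1) ∧
      (∀ t ∈ Icc (0 : ℝ) 1, DifferentiableOn ℂ (fun p => z p t) U) ∧
      ∀ p ∈ U, (z p 0).1 = 0 ∧ (z p 1).2 = 0 ∧
        (∀ t ∈ Icc (0 : ℝ) 1, HasDerivWithinAt (z p) (G p t (z p t)) (Icc 0 1) t) ∧
        (∀ M : ℝ, (∀ t ∈ Icc (0 : ℝ) 1, ∀ y ∈ ball (0 : ℂ × ℂ) δ, ‖G p t y‖ ≤ M) →
          ∀ t ∈ Icc (0 : ℝ) 1, ‖z p t‖ ≤ M) ∧
        ((∀ t ∈ Icc (0 : ℝ) 1, ∀ a b : ℝ, |a| < δ → |b| < δ →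
          (G p t (a, b)).1.im = 0 ∧ (G p t (a, b)).2.im = 0) →
          ∀ t ∈ Icc (0 : ℝ) 1, (z p t).1.im = 0 ∧ (z p t).2.im = 0) := by
  have h0 : (0 : ℝ) ∈ Icc (0 : ℝ) 1 := left_mem_Icc.2 zero_le_one
  have h1 : (1 : ℝ) ∈ Icc (0 : ℝ) 1 := right_mem_Icc.2 zero_le_one
  set w : ℕ → P → ℝ → ℂ × ℂ := fun k => (Seg.pic G)^[k] fun _ _ => 0 with hw
  have hw0 : w 0 = fun _ _ => 0 := rfl
  have hws : ∀ k, w (k + 1) = Seg.pic G (w k) := fun k => Function.iterate_succ_apply' _ _ _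
  have hg : ∀ k, Seg.Good U δ (w k) := by
    intro k
    induction k with
    | zero =>
      exact ⟨continuousOn_const, fun _ _ => differentiableOn_const _, fun _ _ _ _ => by
        rw [hw0, norm_zero]; positivity⟩
    | succ k ih => rw [hws]; exact ih.pic hU hδ hc hd hb
  have hstep : ∀ p ∈ U, ∀ k, ∀ t ∈ Icc (0 : ℝ) 1,
      ‖w k p t - w (k + 1) p t‖ ≤ δ / 8 * (1 / 2) ^ k := by
    intro p hp k
    induction k with
    | zero =>
      intro t ht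
      have := (hg 1).bd p hp t ht
      simpa [hw0] using this
    | succ k ih =>
      intro t ht
      have := Seg.pic_sub (hg k) (hg (k + 1)) hδ hc hd hb hp ih t ht
      rwa [← hws, ← hws, mul_assoc, ← pow_succ] at this
  have hstep' : ∀ p ∈ U, ∀ t ∈ Icc (0 : ℝ) 1, ∀ k,
      dist (w k p t) (w (k + 1) p t) ≤ δ / 8 * (1 / 2) ^ k := fun p hp t ht k => by
    rw [dist_eq_norm]; exact hstep p hp k t ht
  set z : P → ℝ → ℂ × ℂ := fun p t => limUnder atTop fun k => w k p t with hz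
  have hlim : ∀ p ∈ U, ∀ t ∈ Icc (0 : ℝ) 1, Tendsto (fun k => w k p t) atTop (𝓝 (z p t)) :=
    fun p hp t ht =>
      (cauchySeq_of_le_geometric _ _ (by norm_num) (hstep' p hp t ht)).tendsto_limUnder
  have hdist : ∀ p ∈ U, ∀ k, ∀ t ∈ Icc (0 : ℝ) 1,
      ‖w k p t - z p t‖ ≤ δ / 8 * (1 / 2) ^ k / (1 - 1 / 2) := fun p hp k t ht => by
    rw [← dist_eq_norm]
    exact dist_le_of_le_geometric_of_tendsto _ _ (by norm_num) (hstep' p hp t ht) (hlim p hp t ht) k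
  have ht0 : Tendsto (fun k : ℕ => δ / 8 * (1 / 2 : ℝ) ^ k / (1 - 1 / 2)) atTop (𝓝 0) := by
    have := ((tendsto_pow_atTop_nhds_zero_of_lt_one (r := (1 / 2 : ℝ)) (by norm_num)
      (by norm_num)).const_mul (δ / 8)).div_const (1 - 1 / 2)
    rwa [mul_zero, zero_div] at this
  have hu : TendstoUniformlyOn (fun k (x : P × ℝ) => w k x.1 x.2) (fun x => z x.1 x.2) atTop
      (U ×ˢ Icc 0 1) := by
    rw [Metric.tendstoUniformlyOn_iff]
    intro ε hε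
    filter_upwards [ht0.eventually_lt_const hε] with k hk x hx
    rw [dist_comm, dist_eq_norm]
    exact (hdist _ hx.1 k _ hx.2).trans_lt hk
  have hgz : Seg.Good U δ z := by
    refine ⟨hu.continuousOn (Frequently.of_forall fun k => (hg k).cont), fun t ht => ?_,
      fun p hp t ht => le_of_tendsto' (hlim p hp t ht).norm fun k => (hg k).bd p hp t ht⟩
    refine diffOn_of_tendsto (l := atTop) (f := fun k p => w k p t) hU
      (Eventually.of_forall fun k => (hg k).diff t ht) (TendstoUniformlyOn.tendstoLocallyUniformlyOn ?_)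
    rw [Metric.tendstoUniformlyOn_iff]
    intro ε hε
    filter_upwards [ht0.eventually_lt_const hε] with k hk p hp
    rw [dist_comm, dist_eq_norm]
    exact (hdist _ hp k _ ht).trans_lt hk
  have hfix : ∀ p ∈ U, ∀ t ∈ Icc (0 : ℝ) 1, z p t = Seg.pic G z p t := by
    intro p hp t ht
    refine tendsto_nhds_unique ((hlim p hp t ht).comp (tendsto_add_atTop_nat 1)) ?_
    rw [tendsto_iff_norm_sub_tendsto_zero]
    have := ht0.mul_const (1 / 2)
    rw [zero_mul] at this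
    refine squeeze_zero (fun _ => norm_nonneg _) (fun k => ?_) this
    have := Seg.pic_sub (hg k) hgz hδ hc hd hb hp (hdist p hp k) t ht
    rwa [← hws] at this
  refine ⟨z, hgz.cont, hgz.diff, fun p hp => ⟨?_, ?_, fun t ht => ?_, fun M hM t ht => ?_,
    fun hr t ht => ?_⟩⟩
  · rw [hfix p hp 0 h0]
    exact intervalIntegral.integral_same
  · rw [hfix p hp 1 h1]
    exact intervalIntegral.integral_same
  · have hG := hgz.contG' hδ hc hp
    exact ((Seg.deriv_int hG.fst h0 ht).prodMk (Seg.deriv_int hG.snd h1 ht)).congr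
      (hfix p hp) (hfix p hp t ht)
  · rw [hfix p hp t ht]
    exact Seg.norm_pic_le (fun s hs => hM s hs _ (hgz.mem hδ hp hs)) ht
  · have hk : ∀ k, ∀ t ∈ Icc (0 : ℝ) 1, (w k p t).1.im = 0 ∧ (w k p t).2.im = 0 := by
      intro k
      induction k with
      | zero => intro t _; simp [hw0]
      | succ k ih =>
        intro t ht
        have h : ∀ s ∈ Icc (0 : ℝ) 1,
            (G p s (w k p s)).1.im = 0 ∧ (G p s (w k p s)).2.im = 0 := by
          intro s hs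
          have hn := (hg k).bd p hp s hs
          have e : w k p s = ((((w k p s).1.re : ℝ) : ℂ), (((w k p s).2.re : ℝ) : ℂ)) :=
            Prod.ext (Complex.ext (by simp) (by simp [(ih s hs).1]))
              (Complex.ext (by simp) (by simp [(ih s hs).2]))
          rw [e]
          exact hr s hs _ _
            (by linarith [Complex.abs_re_le_norm (w k p s).1, norm_fst_le (w k p s)])
            (by linarith [Complex.abs_re_le_norm (w k p s).2, norm_snd_le (w k p s)])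
        rw [hws]
        exact ⟨Seg.im_int h0 ht fun s hs => (h s hs).1, Seg.im_int h1 ht fun s hs => (h s hs).2⟩
    have t1 := ((Complex.continuous_im.comp continuous_fst).tendsto _).comp (hlim p hp t ht)
    have t2 := ((Complex.continuous_im.comp continuous_snd).tendsto _).comp (hlim p hp t ht)
    exact ⟨tendsto_nhds_unique t1 (tendsto_const_nhds.congr fun k => (hk k t ht).1.symm),
      tendsto_nhds_unique t2 (tendsto_const_nhds.congr fun k => (hk k t ht).2.symm)⟩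

theorem exists_glue {X : Type*} [NormedAddCommGroup X] [NormedSpace ℝ X] (𝒮 : Set X) (𝒱 : X → X)
    (A : X ≃L[ℝ] X) (hA : ∀ x, A x ∈ 𝒮 ↔ x ∈ 𝒮) (hAV : ∀ x ∈ 𝒮, 𝒱 (A x) = A (𝒱 x)) (n : ℕ)
    (e : ℕ → ℝ → X) (ρ : ℕ → ℝ → ℝ)
    (hρ : ∀ i ≤ n, ContinuousOn (ρ i) (Icc 0 1) ∧ ∀ t ∈ Icc (0 : ℝ) 1, 0 < ρ i t)
    (he : ∀ i ≤ n, ∀ t ∈ Icc (0 : ℝ) 1,
      e i t ∈ 𝒮 ∧ HasDerivWithinAt (e i) (ρ i t • 𝒱 (e i t)) (Icc 0 1) t)
    (hj : ∀ i < n, e i 1 = e (i + 1) 0) (hl : e n 1 = A (e 0 0)) :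
    ∃ C : ℝ → X, (∀ t, C t ∈ 𝒮 ∧ HasDerivAt C (𝒱 (C t)) t) ∧
      ∀ t, C (t + ∑ i ∈ Finset.range (n + 1), ∫ s in (0 : ℝ)..1, ρ i s) = A (C t) := by
  obtain ⟨h0, c, hc0, hc1, hc⟩ := Seg.chain n e ρ hρ he hj
  exact Seg.extend A hA hAV h0 hc (by rw [hc1, hc0, hl])

end Pool.Agent.Lib.MP_de7bb2_an
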