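import Pool.Agent.Lib.MP_de7bb2_an.H20B
import Pool.Agent.Lib.MP_de7bb2_an.H20Seg

/-! Orbit segments in Hopf coordinates with holomorphic parameters. TASK HOPF. -/

namespace Pool.Agent.Lib.MP_de7bb2_an

open Metric Set Complex

/-- The pair of null vectors with backward end `x`, forward end `y` and time `u`. -/
noncomputable def pairE (x y u : ℂ) : V × V :=
  (exp u • xi y, (2 * exp (-u) / br (xi x) (xi y)) • xi x)

abbrev C4 := ℂ × ℂ × ℂ × ℂ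

/-- Complex neighbourhood of the real parameters `(x, y, u, r)`. -/
def HDom (κ U δ : ℝ) : Set C4 := {p | ∃ (x y : ℂ) (u r : ℝ), ‖x‖ = 1 ∧ ‖y‖ = 1 ∧
  κ ≤ ‖x - y‖ ^ 2 / 2 ∧ |u| ≤ U ∧ |r| ≤ U ∧ ‖p - (x, y, (u : ℂ), (r : ℂ))‖ < δ}

/-- Integral of the conformal factor over an unperturbed segment. -/
noncomputable def rbF {ι : Type} (Wf : ι → V) (p : C4) : ℂ :=
  p.2.2.2 * ∫ t in (0 : ℝ)..1, bF Wf (mid (pairE p.1 p.2.1 (p.2.2.1 + t * p.2.2.2)))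

theorem isOpen_HDom (κ U δ : ℝ) : IsOpen (HDom κ U δ) :=
  isOpen_iff_mem_nhds.2 fun _ ⟨x, y, u, r, h1, h2, h3, h4, h5, h⟩ =>
    Filter.mem_of_superset (isOpen_ball.mem_nhds (mem_ball_iff_norm.2 h))
      fun _ hq => ⟨x, y, u, r, h1, h2, h3, h4, h5, mem_ball_iff_norm.1 hq⟩

theorem HDom.mono {κ U δ δ' : ℝ} (h : δ ≤ δ') : HDom κ U δ ⊆ HDom κ U δ' :=
  fun _ ⟨x, y, u, r, h1, h2, h3, h4, h5, h6⟩ => ⟨x, y, u, r, h1, h2, h3, h4, h5, h6.trans_le h⟩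

theorem pairE_mem {x y : ℂ} (hx : ‖x‖ = 1) (hy : ‖y‖ = 1) (h : x ≠ y) (u : ℝ) :
    pairE x y u ∈ SM := by
  have h1 : 0 < ‖x - y‖ ^ 2 / 2 := by
    have := norm_pos_iff.2 (sub_ne_zero.2 h)
    positivity
  have h2 := br_xi_xi_re hx hy
  have h3 : br (xi x) (xi y) ≠ 0 := by
    rw [h2]
    exact ofReal_ne_zero.2 h1.ne'
  refine ⟨?_, ?_, ?_⟩
  · have := (nul_xi hy).smul (Real.exp_pos u)
    rwa [ofReal_exp] at this
  · have := (nul_xi hx).smul (r := 2 * Real.exp (-u) / (‖x - y‖ ^ 2 / 2)) (by positivity)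
    rwa [ofReal_div, ← h2, ofReal_mul, ofReal_exp, ofReal_neg, ofReal_ofNat] at this
  · have h4 : br (pairE x y u).1 (pairE x y u).2 =
        exp u * (2 * exp (-u) / br (xi x) (xi y)) * br (xi x) (xi y) := by
      simp only [pairE, br, Prod.smul_fst, Prod.smul_snd, smul_eq_mul]
      ring
    rw [h4, exp_neg]
    field_simp

theorem eq_pairE {E : V × V} (h1 : br E.2 E.2 = 0) (h2 : E.2.1 ≠ 0) (h3 : br E.1 E.2 = 2)
    {y u : ℂ} (h : E.1 = exp u • xi y) : E = pairE (pt E.2) y u := by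
  have h4 := (eq_smul_xi_of_null h1 h2).2
  have h5 : exp u * E.2.1 * br (xi (pt E.2)) (xi y) = 2 := by
    rw [← h3, h]
    conv_rhs => rw [h4]
    simp only [br, Prod.smul_fst, Prod.smul_snd, smul_eq_mul]
    ring
  have h6 : br (xi (pt E.2)) (xi y) ≠ 0 := fun h0 => by simp [h0] at h5
  refine Prod.ext h (h4.trans ?_)
  change _ = (2 * exp (-u) / br (xi (pt E.2)) (xi y)) • xi (pt E.2)
  congr 1
  rw [exp_neg, ← h5]
  field_simp

namespace Hopf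

abbrev C3 := ℂ × ℂ × ℂ

noncomputable def PE (q : C3) : V × V := pairE q.1 q.2.1 q.2.2

noncomputable def bq (q : C3) : ℂ := br (xi q.1) (xi q.2.1)

def D0 : Set C3 := {q | q.1 ≠ 0 ∧ q.2.1 ≠ 0 ∧ bq q ≠ 0}

theorem diff_bq {q : C3} (h1 : q.1 ≠ 0) (h2 : q.2.1 ≠ 0) : DifferentiableAt ℂ bq q := by
  unfold bq br xi
  fun_prop (disch := assumption)

theorem diff_PE {q : C3} (h : q ∈ D0) : DifferentiableAt ℂ PE q := by
  obtain ⟨h1, h2, h3⟩ := h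
  have h4 := diff_bq h1 h2
  change DifferentiableAt ℂ (fun q : C3 => (exp q.2.2 • ((1 : ℂ), q.2.1, q.2.1⁻¹),
    (2 * exp (-q.2.2) / bq q) • ((1 : ℂ), q.1, q.1⁻¹))) q
  fun_prop (disch := assumption)

theorem diff_mid : Differentiable ℂ mid := by
  unfold mid
  fun_prop

theorem diff_nrm : Differentiable ℂ nrm := by
  unfold nrm cross
  fun_prop

theorem isOpen_D0 : IsOpen D0 := isOpen_iff_mem_nhds.2 fun q ⟨h1, h2, h3⟩ => by
  filter_upwards [continuous_fst.continuousAt.eventually_ne h1,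
    (continuous_fst.comp continuous_snd).continuousAt.eventually_ne h2,
    (diff_bq h1 h2).continuousAt.eventually_ne h3] with q a b c using ⟨a, b, c⟩

def Tube (κ U δ : ℝ) : Set C3 := {q | ∃ (x y : ℂ) (u : ℝ), ‖x‖ = 1 ∧ ‖y‖ = 1 ∧
  κ ≤ ‖x - y‖ ^ 2 / 2 ∧ |u| ≤ U ∧ ‖q - (x, y, (u : ℂ))‖ < δ}

/-- Uniform control at a point. -/
structure Ok (T : ℝ) (q : C3) : Prop where
  d0 : q ∈ D0
  near : ∃ c, Hyp c ∧ c.1.re ≤ T ∧ ‖mid (PE q) - c‖ < (8 * c.1.re)⁻¹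
  n_le : ‖nrm (PE q)‖ ≤ T
  e_le : ‖exp q.2.2‖ ≤ T
  e_le' : ‖exp (-q.2.2)‖ ≤ T
  b_le : ‖bq q‖ ≤ T

theorem exists_tube {κ : ℝ} (hκ : 0 < κ) (U : ℝ) :
    ∃ δ > 0, ∃ T, 1 ≤ T ∧ ∀ q ∈ Tube κ U δ, Ok T q := by
  let j : ℂ × ℂ × ℝ → C3 := fun k => (k.1, k.2.1, k.2.2)
  let K := j '' ((sphere 0 1 ×ˢ sphere 0 1 ×ˢ Icc (-U) U) ∩ {k | κ ≤ ‖k.1 - k.2.1‖ ^ 2 / 2})
  have hK : IsCompact K := (((isCompact_sphere 0 1).prod ((isCompact_sphere 0 1).prod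
    isCompact_Icc)).inter_right (isClosed_le continuous_const (by fun_prop))).image (by fun_prop)
  have hne : ∀ {x y : ℂ}, κ ≤ ‖x - y‖ ^ 2 / 2 → x ≠ y := by
    rintro x y h rfl
    simp at h
    linarith
  have hKD : K ⊆ D0 := by
    rintro _ ⟨⟨x, y, u⟩, ⟨⟨h1, h2, -⟩, h3⟩, rfl⟩
    rw [mem_sphere_zero_iff_norm] at h1 h2
    refine ⟨norm_ne_zero_iff.1 (h1 ▸ one_ne_zero), norm_ne_zero_iff.1 (h2 ▸ one_ne_zero), ?_⟩
    change br (xi x) (xi y) ≠ 0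
    rw [br_xi_xi_re h1 h2]
    exact ofReal_ne_zero.2 (hκ.trans_le h3).ne'
  let F : C3 → V × V × ℂ × ℂ × ℂ := fun q =>
    (mid (PE q), nrm (PE q), exp q.2.2, exp (-q.2.2), bq q)
  have hF : ∀ q ∈ K, ContinuousAt F q := fun q hq => by
    have h1 := (diff_PE (hKD hq)).continuousAt
    have h2 := (diff_bq (hKD hq).1 (hKD hq).2.1).continuousAt
    have h3 := diff_mid.continuous
    have h4 := diff_nrm.continuous
    fun_prop
  obtain ⟨T₀, hT₀⟩ := hK.exists_bound_of_continuousOn fun q hq => (hF q hq).continuousWithinAt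
  obtain ⟨δ₁, hδ₁, h1⟩ := hK.exists_thickening_subset_open isOpen_D0 hKD
  have hT : 1 ≤ |T₀| + 1 := le_add_of_nonneg_left (abs_nonneg _)
  obtain ⟨δ₂, hδ₂, h2⟩ := mem_uniformity_dist.1 (hK.uniformContinuousAt_of_continuousAt F hF
    (dist_mem_uniformity (ε := (8 * (|T₀| + 1))⁻¹) (by positivity)))
  refine ⟨min δ₁ δ₂, lt_min hδ₁ hδ₂, |T₀| + 1, hT, ?_⟩
  rintro q ⟨x, y, u, hx, hy, hxy, hu, hq⟩
  have hk : (x, y, (u : ℂ)) ∈ K := ⟨(x, y, u), ⟨⟨mem_sphere_zero_iff_norm.2 hx,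
    mem_sphere_zero_iff_norm.2 hy, abs_le.1 hu⟩, hxy⟩, rfl⟩
  rw [← dist_eq_norm, lt_min_iff] at hq
  have h3 : ‖F q - F (x, y, u)‖ < (8 * (|T₀| + 1))⁻¹ := by
    rw [← dist_eq_norm, dist_comm]
    exact h2 (a := (x, y, (u : ℂ))) (b := q) (dist_comm q _ ▸ hq.2) hk
  have h4 : ‖F (x, y, u)‖ ≤ |T₀| := (hT₀ _ hk).trans (le_abs_self _)
  have h5 : ‖F q‖ ≤ |T₀| + 1 := by
    have h6 := inv_le_one_of_one_le₀ (a := 8 * (|T₀| + 1)) (by linarith)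
    have h7 := norm_le_norm_add_norm_sub' (F q) (F (x, y, u))
    linarith
  rw [norm_prod_le_iff, norm_prod_le_iff (x := (F q).2), norm_prod_le_iff (x := (F q).2.2),
    norm_prod_le_iff (x := (F q).2.2.2)] at h5
  have hc : Hyp (mid (PE (x, y, u))) := SM.mid (pairE_mem hx hy (hne hxy) u)
  have h8 : (mid (PE (x, y, u))).1.re ≤ |T₀| + 1 := by
    rw [← hc.fut.norm_eq]
    exact ((norm_fst_le (F (x, y, u))).trans h4).trans (by linarith)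
  refine ⟨h1 (mem_thickening_iff.2 ⟨_, hk, hq.1⟩), ⟨_, hc, h8, ?_⟩, h5.2.1, h5.2.2.1, h5.2.2.2.1,
    h5.2.2.2.2⟩
  have h9 := hc.2.1
  exact ((norm_fst_le (F q - F (x, y, u))).trans_lt h3).trans_le
    (inv_anti₀ (by positivity) (by linarith))

/-- The moving parameters. -/
noncomputable def QQ (p : C4) (t : ℝ) (z : ℂ × ℂ) : C3 :=
  (p.1 * exp (z.1 * I), p.2.1 * exp (z.2 * I), p.2.2.1 + t * p.2.2.2)

theorem QQ_zero (p : C4) (t : ℝ) : QQ p t 0 = (p.1, p.2.1, p.2.2.1 + t * p.2.2.2) := by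
  simp [QQ]

theorem rot_le {x x₀ a : ℂ} {δ : ℝ} (h1 : δ ≤ 1) (h0 : ‖x₀‖ = 1) (hx : ‖x - x₀‖ < δ)
    (ha : ‖a‖ < δ) : ‖x * exp (a * I) - x₀‖ < 6 * δ := by
  have h2 : ‖exp (a * I) - 1‖ ≤ 2 * δ := by
    refine (norm_exp_sub_one_le (by simpa using (ha.trans_le h1).le)).trans ?_
    rw [norm_mul, norm_I]
    linarith
  have h3 : ‖x‖ ≤ 2 := by
    have := norm_le_norm_add_norm_sub' x x₀
    linarith
  have h4 : x * exp (a * I) - x₀ = x * (exp (a * I) - 1) + (x - x₀) := by ring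
  have h5 := norm_add_le (x * (exp (a * I) - 1)) (x - x₀)
  have h6 : ‖x * (exp (a * I) - 1)‖ ≤ 2 * (2 * δ) := by
    rw [norm_mul]
    gcongr
  have := norm_nonneg a
  rw [h4]
  linarith

theorem QQ_mem {κ U δ : ℝ} (h1 : δ ≤ 1) {p : C4} (hp : p ∈ HDom κ U δ) {t : ℝ}
    (ht : t ∈ Icc (0 : ℝ) 1) {z : ℂ × ℂ} (hz : z ∈ ball (0 : ℂ × ℂ) δ) :
    QQ p t z ∈ Tube κ (2 * U) (6 * δ) := by
  obtain ⟨x, y, u, r, hx, hy, hxy, hu, hr, h⟩ := hp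
  rw [mem_ball_zero_iff, Prod.norm_def, max_lt_iff] at hz
  simp only [Prod.norm_def, max_lt_iff, Prod.fst_sub, Prod.snd_sub] at h
  have ht' : |t| ≤ 1 := abs_le.2 ⟨by linarith [ht.1], ht.2⟩
  refine ⟨x, y, u + t * r, hx, hy, hxy, ?_, ?_⟩
  · have h2 := abs_add_le u (t * r)
    have h3 : |t * r| ≤ |r| := by
      rw [abs_mul]
      exact mul_le_of_le_one_left (abs_nonneg _) ht'
    linarith
  · simp only [Prod.norm_def, max_lt_iff, Prod.fst_sub, Prod.snd_sub, QQ]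
    refine ⟨rot_le h1 hx h.1 hz.1, rot_le h1 hy h.2.1 hz.2, ?_⟩
    have h2 : p.2.2.1 + t * p.2.2.2 - ((u + t * r : ℝ) : ℂ) =
        (p.2.2.1 - u) + t * (p.2.2.2 - r) := by
      push_cast
      ring
    have h3 := norm_add_le (p.2.2.1 - u) (t * (p.2.2.2 - r))
    have h4 : ‖(t : ℂ) * (p.2.2.2 - r)‖ ≤ ‖p.2.2.2 - r‖ := by
      rw [norm_mul, norm_real, Real.norm_eq_abs]
      exact mul_le_of_le_one_left (norm_nonneg _) ht'
    have := norm_nonneg z.1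
    rw [h2]
    linarith [h.2.2.1, h.2.2.2, hz.1]

theorem r_le {κ U δ : ℝ} (h1 : δ ≤ 1) {p : C4} (hp : p ∈ HDom κ U δ) : ‖p.2.2.2‖ ≤ |U| + 1 := by
  obtain ⟨x, y, u, r, hx, hy, hxy, hu, hr, h⟩ := hp
  simp only [Prod.norm_def, max_lt_iff, Prod.fst_sub, Prod.snd_sub] at h
  have h2 := norm_le_norm_add_norm_sub' p.2.2.2 r
  rw [norm_real, Real.norm_eq_abs] at h2
  linarith [h.2.2.2, le_abs_self U]

theorem exists_ok {κ : ℝ} (hκ : 0 < κ) (U : ℝ) : ∃ δ > 0, δ ≤ 1 ∧ ∃ T, 1 ≤ T ∧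
    ∀ p ∈ HDom κ U δ, ∀ t ∈ Icc (0 : ℝ) 1, ∀ z ∈ ball (0 : ℂ × ℂ) δ, Ok T (QQ p t z) := by
  obtain ⟨δ, hδ, T, hT, h⟩ := exists_tube hκ (2 * U)
  refine ⟨min 1 (δ / 6), by positivity, min_le_left _ _, T, hT, fun p hp t ht z hz => h _ ?_⟩
  obtain ⟨x, y, u, h1, h2, h3, h4, h5⟩ := QQ_mem (min_le_left _ _) hp ht hz
  exact ⟨x, y, u, h1, h2, h3, h4, h5.trans_le (by linarith [min_le_right 1 (δ / 6)])⟩

variable {ι : Type} (Wf : ι → V)

noncomputable def bb (q : C3) : ℂ := bF Wf (mid (PE q))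

noncomputable def ff (q : C3) : ℂ := fF Wf (mid (PE q)) (nrm (PE q))

noncomputable def aa (v : ℂ × C3) : ℂ := v.1 * exp (-v.2.2.2) * (nrm (PE v.2)).1 * ff Wf v.2

noncomputable def gg (v : ℂ × C3) : ℂ × ℂ :=
  (v.1 * exp v.2.2.2 * bq v.2 / 2 * ff Wf v.2 * (1 + aa Wf v)⁻¹,
    v.1 * exp (-v.2.2.2) * ff Wf v.2 * (1 + aa Wf v)⁻¹)

noncomputable def ss (v : ℂ × C3) : ℂ := (1 + aa Wf v)⁻¹ * exp (v.1 * bb Wf v.2)

variable {Wf} {Cb T : ℝ} {q : C3}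

theorem Ok.near' (h : Ok T q) : Near (mid (PE q)) :=
  let ⟨c, h1, _, h3⟩ := h.near
  ⟨c, h1, h3⟩

theorem Ok.diff_bb (h : Ok T q) (hW : Famy Wf Cb) : DifferentiableAt ℂ (bb Wf) q :=
  (hW.diffOn_bF.differentiableAt (isOpen_near.mem_nhds h.near')).comp q
    ((diff_mid _).comp q (diff_PE h.d0))

theorem Ok.diff_ff (h : Ok T q) (hW : Famy Wf Cb) : DifferentiableAt ℂ (ff Wf) q :=
  DifferentiableAt.comp (g := fun p : V × V => fF Wf p.1 p.2)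
    (f := fun q => (mid (PE q), nrm (PE q))) q (hW.diffOn_fF.differentiableAt
      ((isOpen_near.prod isOpen_univ).mem_nhds ⟨h.near', mem_univ _⟩))
    (((diff_mid _).comp q (diff_PE h.d0)).prodMk ((diff_nrm _).comp q (diff_PE h.d0)))

theorem Ok.ff_le (h : Ok T q) (hW : Famy Wf Cb) : ‖ff Wf q‖ ≤ 64 * Cb * T * T := by
  obtain ⟨c, h1, h2, h3⟩ := h.near
  have h4 := hW.nonneg
  have h5 := h.n_le
  have h6 := h1.2.1
  have h7 : 0 ≤ T := by linarith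
  refine (hW.norm_fF_le h1 h3 _).trans ?_
  gcongr

/-- The constant of the estimates. -/
def LL (Cb T : ℝ) : ℝ := 64 * |Cb| * T ^ 4 + 1

theorem LL_pos (Cb T : ℝ) : 0 < LL Cb T := by
  unfold LL
  positivity

theorem Ok.prod_le (h : Ok T q) (hW : Famy Wf Cb) {ε a b : ℂ} (ha : ‖a‖ ≤ T) (hb : ‖b‖ ≤ T) :
    ‖ε * a * b * ff Wf q‖ ≤ LL Cb T * ‖ε‖ := by
  have h1 := h.ff_le hW
  have h2 := hW.nonneg
  have h3 : 0 ≤ T := (norm_nonneg _).trans ha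
  calc ‖ε * a * b * ff Wf q‖ = ‖ε‖ * ‖a‖ * ‖b‖ * ‖ff Wf q‖ := by simp only [norm_mul]
    _ ≤ ‖ε‖ * T * T * (64 * Cb * T * T) := by gcongr
    _ = (64 * Cb * T ^ 4) * ‖ε‖ := by ring
    _ ≤ LL Cb T * ‖ε‖ := by
      rw [LL, abs_of_nonneg h2]
      gcongr
      linarith

theorem Ok.aa_le (h : Ok T q) (hW : Famy Wf Cb) (ε : ℂ) : ‖aa Wf (ε, q)‖ ≤ LL Cb T * ‖ε‖ :=
  h.prod_le hW h.e_le' ((norm_fst_le _).trans h.n_le)

theorem one_add_le {a : ℂ} (ha : ‖a‖ ≤ 1 / 2) : 1 + a ≠ 0 ∧ ‖(1 + a)⁻¹‖ ≤ 2 := by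
  have h1 : 1 / 2 ≤ ‖1 + a‖ := by
    have := norm_sub_le (1 + a) a
    rw [add_sub_cancel_right, norm_one] at this
    linarith
  refine ⟨norm_pos_iff.1 (by linarith), ?_⟩
  rw [norm_inv]
  exact (inv_anti₀ (by norm_num) h1).trans (by norm_num)

theorem diff_snd {F : Type} [NormedAddCommGroup F] [NormedSpace ℂ F] {f : C3 → F}
    (h : DifferentiableAt ℂ f q) (ε : ℂ) : DifferentiableAt ℂ (fun v : ℂ × C3 => f v.2) (ε, q) :=
  DifferentiableAt.comp (g := f) (f := Prod.snd) (ε, q) h differentiableAt_snd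

section

variable {ε : ℂ} (h : Ok T q) (hW : Famy Wf Cb) (hT : 1 ≤ T) (hε : LL Cb T * ‖ε‖ ≤ 1 / 2)
include h hW hT hε

omit hT hε in
theorem Ok.diff_aa : DifferentiableAt ℂ (aa Wf) (ε, q) := by
  have h1 := diff_snd (h.diff_ff hW) ε
  have h2 := diff_snd ((diff_nrm _).comp q (diff_PE h.d0)) ε
  exact (DifferentiableAt.mul (by fun_prop) h2.fst).mul h1

omit hT in
theorem Ok.diff_gg : DifferentiableAt ℂ (gg Wf) (ε, q) := by
  have h1 := diff_snd (h.diff_ff hW) ε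
  have h2 := diff_snd (diff_bq h.d0.1 h.d0.2.1) ε
  have h3 := ((h.diff_aa hW (ε := ε)).const_add 1).inv (one_add_le ((h.aa_le hW ε).trans hε)).1
  exact ((DifferentiableAt.mul (by fun_prop) h1).mul h3).prodMk
    ((DifferentiableAt.mul (by fun_prop) h1).mul h3)

omit hT in
theorem Ok.diff_ss : DifferentiableAt ℂ (ss Wf) (ε, q) := by
  have h1 := diff_snd (h.diff_bb hW) ε
  have h3 := ((h.diff_aa hW (ε := ε)).const_add 1).inv (one_add_le ((h.aa_le hW ε).trans hε)).1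
  exact h3.mul (differentiableAt_fst.mul h1).cexp

theorem Ok.gg_le : ‖gg Wf (ε, q)‖ ≤ 2 * (LL Cb T * ‖ε‖) := by
  have h1 := (one_add_le ((h.aa_le hW ε).trans hε)).2
  have h2 := h.prod_le hW (ε := ε) h.e_le (b := bq q / 2) (by
    rw [norm_div, Complex.norm_ofNat]
    linarith [h.b_le])
  have h3 := h.prod_le hW (ε := ε) h.e_le' (b := 1) (by simpa using hT)
  have h4 := (norm_nonneg _).trans h3
  rw [← mul_div_assoc] at h2
  rw [mul_one] at h3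
  rw [gg, norm_prod_le_iff, norm_mul, norm_mul _ (_⁻¹), mul_comm 2]
  constructor <;> gcongr

theorem Ok.ss_le : ‖ss Wf (ε, q) - 1‖ ≤ 6 * (LL Cb T * ‖ε‖) := by
  have h0 := h.aa_le hW ε
  obtain ⟨h1, h2⟩ := one_add_le (h0.trans hε)
  have h3 : ‖ε * bb Wf q‖ ≤ LL Cb T * ‖ε‖ := by
    rw [norm_mul, mul_comm]
    refine mul_le_mul_of_nonneg_right ((hW.norm_bF_le h.near').trans ?_) (norm_nonneg _)
    have h4 := hW.nonneg
    have h5 : 1 ≤ T ^ 4 := one_le_pow₀ hT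
    rw [LL, abs_of_nonneg h4]
    nlinarith
  have h4 := norm_exp_sub_one_le (x := ε * bb Wf q) (by linarith)
  have h5 : ss Wf (ε, q) - 1 = (1 + aa Wf (ε, q))⁻¹ * (exp (ε * bb Wf q) - 1 - aa Wf (ε, q)) := by
    rw [ss]
    field_simp
    ring
  have h6 := norm_sub_le (exp (ε * bb Wf q) - 1) (aa Wf (ε, q))
  rw [h5, norm_mul]
  calc _ ≤ 2 * (3 * (LL Cb T * ‖ε‖)) := by
        gcongr
        linarith
    _ = _ := by ring

end

theorem im_mul {a b : ℂ} (ha : a.im = 0) (hb : b.im = 0) : (a * b).im = 0 := by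
  simp [ha, hb]

theorem im_inv {a : ℂ} (ha : a.im = 0) : a⁻¹.im = 0 := by simp [ha]

theorem im_exp {a : ℂ} (ha : a.im = 0) : (exp a).im = 0 := by simp [exp_im, ha]

/-- Real points. -/
theorem Ok.real (h : Ok T q) (hW : Famy Wf Cb) (hx : ‖q.1‖ = 1) (hy : ‖q.2.1‖ = 1)
    (hu : q.2.2.im = 0) {ε : ℝ} (hε : LL Cb T * ‖(ε : ℂ)‖ ≤ 1 / 2) : PE q ∈ SM ∧
      (gg Wf (ε, q)).1.im = 0 ∧ (gg Wf (ε, q)).2.im = 0 ∧ (ss Wf (ε, q)).im = 0 ∧
      0 < (ss Wf (ε, q)).re := by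
  have h0 : bq q = (‖q.1 - q.2.1‖ ^ 2 / 2 : ℝ) := br_xi_xi_re hx hy
  have h1 : PE q ∈ SM := by
    have := pairE_mem hx hy (fun he => h.d0.2.2 (by rw [h0, he]; simp)) q.2.2.re
    rwa [show ((q.2.2.re : ℝ) : ℂ) = q.2.2 from Complex.ext rfl (by simp [hu])] at this
  have h2 : (bq q).im = 0 := by rw [h0, ofReal_im]
  have h3 : (ff Wf q).im = 0 := fF_im hW (SM.mid h1).1 (SM.nrm h1).1
  have h4 : (bb Wf q).im = 0 := (hW.bF_real (SM.mid h1)).1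
  have h5 := im_exp hu
  have h6 : (exp (-q.2.2)).im = 0 := im_exp (by simp [hu])
  have h7 : (aa Wf (ε, q)).im = 0 :=
    im_mul (im_mul (im_mul (ofReal_im ε) h6) (SM.nrm h1).1.1) h3
  have h8 : (1 + aa Wf (ε, q))⁻¹.im = 0 := im_inv (by simp [h7])
  have h9 := im_mul (ofReal_im ε) h4
  refine ⟨h1, im_mul (im_mul ?_ h3) h8, im_mul (im_mul (im_mul (ofReal_im ε) h6) h3) h8,
    im_mul h8 (im_exp h9), ?_⟩
  · rw [div_eq_mul_inv]
    exact im_mul (im_mul (im_mul (ofReal_im ε) h5) h2) (im_inv (by simp))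
  · have ha := (h.aa_le hW ε).trans hε
    have hb : 0 < (1 + aa Wf (ε, q)).re := by
      have := (abs_le.1 ((abs_re_le_norm _).trans ha)).1
      rw [add_re, one_re]
      linarith
    rw [ss, mul_re, h8, zero_mul, sub_zero, inv_re, exp_re, h9, Real.cos_zero, mul_one]
    exact mul_pos (div_pos hb (normSq_pos.2 (one_add_le ha).1)) (Real.exp_pos _)

theorem sub_ne {X Y : ℂ} (hX : X ≠ 0) (hY : Y ≠ 0) (h : br (xi X) (xi Y) ≠ 0) : X - Y ≠ 0 :=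
  fun h0 => h (by rw [br_xi_xi hX hY, h0]; simp)

theorem nrm_eq {X Y : ℂ} (w : ℂ) (hX : X ≠ 0) (hY : Y ≠ 0) (h : X - Y ≠ 0) :
    nrm (pairE X Y w) = (I * (X + Y) / (X - Y), 2 * I * X * Y / (X - Y), 2 * I / (X - Y)) := by
  have := exp_ne_zero w
  simp only [nrm, cross, pairE, br_xi_xi hX hY, exp_neg]
  simp only [xi, Prod.smul_mk, smul_eq_mul, Prod.mk.injEq]
  refine ⟨?_, ?_, ?_⟩ <;> field_simp <;> ring

/-- The differential equation in Hopf coordinates. -/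
theorem hasDeriv {Q : ℝ → C3} {s : Set ℝ} {t : ℝ} {r φ k : ℂ} (h : Q t ∈ D0)
    (hk : k * (1 + φ * exp (-(Q t).2.2) * (nrm (PE (Q t))).1) = 1)
    (h1 : HasDerivWithinAt (fun t => (Q t).1)
      ((Q t).1 * (r * (φ * exp (Q t).2.2 * bq (Q t) / 2 * k) * I)) s t)
    (h2 : HasDerivWithinAt (fun t => (Q t).2.1)
      ((Q t).2.1 * (r * (φ * exp (-(Q t).2.2) * k) * I)) s t)
    (h3 : HasDerivWithinAt (fun t => (Q t).2.2) r s t) :
    HasDerivWithinAt (fun t => PE (Q t)) ((r * k) • ((PE (Q t)).1 + φ • nrm (PE (Q t)),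
      -(PE (Q t)).2 - φ • nrm (PE (Q t)))) s t := by
  obtain ⟨hX, hY, hb⟩ := h
  have hd := sub_ne hX hY hb
  have c1 := hasDerivWithinAt_const t s (1 : ℂ)
  have x1 := c1.prodMk (h1.prodMk (h1.fun_inv hX))
  have y1 := c1.prodMk (h2.prodMk (h2.fun_inv hY))
  have b1 := (c1.fun_mul c1).fun_sub
    (((h1.fun_mul (h2.fun_inv hY)).fun_add ((h1.fun_inv hX).fun_mul h2)).div_const 2)
  refine ((h3.cexp.fun_smul y1).prodMk
    (((h3.fun_neg.cexp.const_mul 2).fun_div b1 hb).fun_smul x1)).congr_deriv ?_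
  have hb' : 1 * 1 - ((Q t).1 * (Q t).2.1⁻¹ + (Q t).1⁻¹ * (Q t).2.1) / 2 =
      -((Q t).1 - (Q t).2.1) ^ 2 / (2 * (Q t).1 * (Q t).2.1) := br_xi_xi hX hY
  have he := exp_ne_zero (Q t).2.2
  simp only [PE, nrm_eq _ hX hY hd] at hk ⊢
  simp only [hb', pairE, bq, br_xi_xi hX hY, exp_neg] at hk ⊢
  simp only [xi, Prod.smul_mk, smul_eq_mul, Prod.mk_add_mk, Prod.mk_sub_mk, Prod.neg_mk,
    Prod.mk.injEq]
  generalize (Q t).1 = X at *
  generalize (Q t).2.1 = Y at *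
  generalize exp (Q t).2.2 = e at *
  refine ⟨⟨?_, ?_, ?_⟩, ?_, ?_, ?_⟩
  · linear_combination (norm := (field_simp; ring1)) -e * r * hk
  · linear_combination (norm := (field_simp; ring1)) -e * r * Y * hk
  · linear_combination (norm := (field_simp; ring1)) -e * r * Y⁻¹ * hk
  · linear_combination (norm := (field_simp; ring1))
      2 * e⁻¹ * r / (-(X - Y) ^ 2 / (2 * X * Y)) * hk
  · linear_combination (norm := (field_simp; ring1))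
      2 * e⁻¹ * r / (-(X - Y) ^ 2 / (2 * X * Y)) * X * hk
  · linear_combination (norm := (field_simp; ring1))
      2 * e⁻¹ * r / (-(X - Y) ^ 2 / (2 * X * Y)) * X⁻¹ * hk

end Hopf

open Hopf

theorem exists_hnear {κ : ℝ} (hκ : 0 < κ) (U : ℝ) : ∃ δ > 0, ∃ T : ℝ, ∀ p ∈ HDom κ U δ,
    p.1 ≠ 0 ∧ p.2.1 ≠ 0 ∧ br (xi p.1) (xi p.2.1) ≠ 0 ∧ ∀ t ∈ Icc (0 : ℝ) 1, ∃ c, Hyp c ∧
      c.1.re ≤ T ∧ ‖mid (pairE p.1 p.2.1 (p.2.2.1 + t * p.2.2.2)) - c‖ < (8 * c.1.re)⁻¹ := by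
  obtain ⟨δ, hδ, -, T, -, h⟩ := exists_ok hκ U
  refine ⟨δ, hδ, T, fun p hp => ?_⟩
  have h1 := fun t ht => QQ_zero p t ▸ h p hp t ht 0 (mem_ball_self hδ)
  have h2 := (h1 0 (left_mem_Icc.2 zero_le_one)).d0
  exact ⟨h2.1, h2.2.1, h2.2.2, fun t ht => (h1 t ht).near⟩

theorem exists_rbF {κ : ℝ} (hκ : 0 < κ) (U Cb : ℝ) : ∃ δ > 0, ∃ C : ℝ, ∀ (ι : Type) (Wf : ι → V),
    Famy Wf Cb → DifferentiableOn ℂ (rbF Wf) (HDom κ U δ) ∧ ∀ p ∈ HDom κ U δ, ‖rbF Wf p‖ ≤ C := by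
  obtain ⟨δ, hδ, hδ1, T, -, h⟩ := exists_ok hκ U
  refine ⟨δ, hδ, (|U| + 1) * (4 * Cb), fun ι Wf hW => ?_⟩
  have h1 := fun p hp t ht => QQ_zero p t ▸ h p hp t ht 0 (mem_ball_self hδ)
  refine ⟨DifferentiableOn.mul (by fun_prop) (diffOn_intervalIntegral (isOpen_HDom κ U δ)
    (f := fun (p : C4) (t : ℝ) => bb Wf (p.1, p.2.1, p.2.2.1 + t * p.2.2.2)) ?_ ?_), fun p hp => ?_⟩
  · rw [uIcc_of_le zero_le_one]
    exact fun w hw => (ContinuousAt.comp (f := fun w : C4 × ℝ =>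
      ((w.1.1, w.1.2.1, w.1.2.2.1 + w.2 * w.1.2.2.2) : C3))
      ((h1 _ hw.1 _ hw.2).diff_bb hW).continuousAt (by fun_prop)).continuousWithinAt
  · rw [uIcc_of_le zero_le_one]
    exact fun t ht p hp => (DifferentiableAt.comp (f := fun p : C4 =>
      ((p.1, p.2.1, p.2.2.1 + t * p.2.2.2) : C3)) p
      ((h1 _ hp _ ht).diff_bb hW) (by fun_prop)).differentiableWithinAt
  · rw [rbF, norm_mul]
    exact mul_le_mul (r_le hδ1 hp) (Seg.norm_int_le (left_mem_Icc.2 zero_le_one)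
      (right_mem_Icc.2 zero_le_one) fun t ht => hW.norm_bF_le (h1 p hp t ht).near')
      (norm_nonneg _) (by positivity)

theorem exists_hopf {κ : ℝ} (hκ : 0 < κ) (U Cb : ℝ) : ∃ δ > 0, ∃ ε₀ > 0, ∃ C : ℝ,
    ∀ (ι : Type) (Wf : ι → V), Famy Wf Cb → ∃ α β ρ : ℂ × C4 → ℂ,
      DifferentiableOn ℂ α (ball 0 ε₀ ×ˢ HDom κ U δ) ∧
      DifferentiableOn ℂ β (ball 0 ε₀ ×ˢ HDom κ U δ) ∧
      DifferentiableOn ℂ ρ (ball 0 ε₀ ×ˢ HDom κ U δ) ∧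
      (∀ ε ∈ ball (0 : ℂ) ε₀, ∀ p ∈ HDom κ U δ, ‖α (ε, p)‖ ≤ C * ‖ε‖ ∧ ‖β (ε, p)‖ ≤ C * ‖ε‖ ∧
        ‖ρ (ε, p) - p.2.2.2‖ ≤ C * ‖ε‖) ∧
      ∀ ε : ℝ, |ε| < ε₀ → ∀ (x y : ℂ) (u r : ℝ), ‖x‖ = 1 → ‖y‖ = 1 → 0 < r →
        ∀ p : C4, p = (x, y, (u : ℂ), (r : ℂ)) → p ∈ HDom κ U δ →
          (α (ε, p)).im = 0 ∧ (β (ε, p)).im = 0 ∧ ∃ (e : ℝ → V × V) (σ : ℝ → ℝ),
            ContinuousOn σ (Icc 0 1) ∧ (∀ t ∈ Icc (0 : ℝ) 1, 0 < σ t ∧ e t ∈ SM ∧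
              HasDerivWithinAt e (σ t • VF Wf ε (e t)) (Icc 0 1) t) ∧
            e 0 = pairE x (y * exp (β (ε, p) * I)) u ∧
            e 1 = pairE (x * exp (α (ε, p) * I)) y (u + r) ∧
            ρ (ε, p) = (∫ t in (0 : ℝ)..1, σ t : ℝ) := by
  obtain ⟨δ, hδ, hδ1, T, hT, h⟩ := exists_ok hκ U
  have hL := LL_pos Cb T
  have hR : 1 ≤ |U| + 1 := le_add_of_nonneg_left (abs_nonneg U)
  generalize hRU : |U| + 1 = R at hR
  have hr : ∀ p ∈ HDom κ U δ, ‖p.2.2.2‖ ≤ R := fun p hp => hRU ▸ r_le hδ1 hp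
  refine ⟨δ, hδ, δ / (16 * R * LL Cb T), by positivity, R * (6 * LL Cb T), fun ι Wf hW => ?_⟩
  set S := ball (0 : ℂ) (δ / (16 * R * LL Cb T)) ×ˢ HDom κ U δ
  have hS : IsOpen S := isOpen_ball.prod (isOpen_HDom κ U δ)
  have hε : ∀ w ∈ S, R * (2 * (LL Cb T * ‖w.1‖)) ≤ δ / 8 := fun w hw => by
    have := (lt_div_iff₀ (by positivity)).1 (mem_ball_zero_iff.1 hw.1)
    linarith
  have hε' : ∀ w ∈ S, LL Cb T * ‖w.1‖ ≤ 1 / 2 := fun w hw => by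
    have h1 := hε w hw
    have h2 : 0 ≤ LL Cb T * ‖w.1‖ := by positivity
    nlinarith
  have hG : ∀ w ∈ S, ∀ t ∈ Icc (0 : ℝ) 1, ∀ z ∈ ball (0 : ℂ × ℂ) δ,
      ‖w.2.2.2.2 • gg Wf (w.1, QQ w.2 t z)‖ ≤ R * (2 * (LL Cb T * ‖w.1‖)) := fun w hw t ht z hz => by
    rw [norm_smul]
    exact mul_le_mul (hr _ hw.2) ((h _ hw.2 t ht z hz).gg_le hW hT (hε' w hw)) (norm_nonneg _)
      (by positivity)
  have hc : ∀ {F : Type} [NormedAddCommGroup F] [NormedSpace ℂ F] {f : ℂ × C3 → F},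
      (∀ ε q, Ok T q → LL Cb T * ‖ε‖ ≤ 1 / 2 → DifferentiableAt ℂ f (ε, q)) →
      ContinuousOn (fun x : (ℂ × C4) × ℝ × ℂ × ℂ => f (x.1.1, QQ x.1.2 x.2.1 x.2.2))
        (S ×ˢ Icc 0 1 ×ˢ ball 0 δ) ∧ ∀ t ∈ Icc (0 : ℝ) 1, DifferentiableOn ℂ
          (fun x : (ℂ × C4) × ℂ × ℂ => f (x.1.1, QQ x.1.2 t x.2)) (S ×ˢ ball 0 δ) := fun hf =>
    ⟨fun x hx => (ContinuousAt.comp
      (f := fun x : (ℂ × C4) × ℝ × ℂ × ℂ => (x.1.1, QQ x.1.2 x.2.1 x.2.2))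
      (hf _ _ (h _ hx.1.2 _ hx.2.1 _ hx.2.2) (hε' _ hx.1)).continuousAt
      (by unfold QQ; fun_prop)).continuousWithinAt,
    fun t ht x hx => (DifferentiableAt.comp
      (f := fun x : (ℂ × C4) × ℂ × ℂ => (x.1.1, QQ x.1.2 t x.2)) x
      (hf _ _ (h _ hx.1.2 _ ht _ hx.2) (hε' _ hx.1))
      (by unfold QQ; fun_prop)).differentiableWithinAt⟩
  obtain ⟨c1, d1⟩ := hc (f := gg Wf) fun ε q h1 h2 => h1.diff_gg hW h2
  obtain ⟨c2, d2⟩ := hc (f := ss Wf) fun ε q h1 h2 => h1.diff_ss hW h2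
  obtain ⟨z, hzc, hzd, hz⟩ := exists_seg (G := fun w t z => w.2.2.2.2 • gg Wf (w.1, QQ w.2 t z))
    hS hδ (by fun_prop) (fun t ht => by have := d1 t ht; fun_prop)
    fun w hw t ht z hz => (hG w hw t ht z hz).trans (hε w hw)
  have hzl := fun w hw => (hz w hw).2.2.2.1 _ (hG w hw)
  have hzb : ∀ w ∈ S, ∀ t ∈ Icc (0 : ℝ) 1, z w t ∈ ball (0 : ℂ × ℂ) δ := fun w hw t ht =>
    mem_ball_zero_iff.2 (((hzl w hw t ht).trans (hε w hw)).trans_lt (by linarith))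
  have h0 : (0 : ℝ) ∈ Icc (0 : ℝ) 1 := left_mem_Icc.2 zero_le_one
  have h1 : (1 : ℝ) ∈ Icc (0 : ℝ) 1 := right_mem_Icc.2 zero_le_one
  have c3 : ContinuousOn (fun x : (ℂ × C4) × ℝ =>
      x.1.2.2.2.2 * ss Wf (x.1.1, QQ x.1.2 x.2 (z x.1 x.2))) (S ×ˢ Icc 0 1) :=
    ContinuousOn.mul (by fun_prop) (c2.comp (f := fun x : (ℂ × C4) × ℝ => (x.1, x.2, z x.1 x.2))
      (continuousOn_fst.prodMk (continuousOn_snd.prodMk hzc))
      fun x hx => ⟨hx.1, hx.2, hzb _ hx.1 _ hx.2⟩)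
  have c4 : ∀ w ∈ S, ContinuousOn (fun t : ℝ => w.2.2.2.2 * ss Wf (w.1, QQ w.2 t (z w t)))
      (Icc 0 1) := fun w hw => c3.comp (f := fun t => (w, t)) (by fun_prop) fun t ht => ⟨hw, ht⟩
  refine ⟨fun w => (z w 1).1, fun w => (z w 0).2,
    fun w => ∫ t in (0 : ℝ)..1, w.2.2.2.2 * ss Wf (w.1, QQ w.2 t (z w t)), (hzd 1 h1).fst,
    (hzd 0 h0).snd, diffOn_intervalIntegral hS (by rwa [uIcc_of_le zero_le_one]) ?_, ?_, ?_⟩
  · rw [uIcc_of_le zero_le_one]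
    exact fun t ht => DifferentiableOn.mul (by fun_prop)
      ((d2 t ht).comp (f := fun w => (w, z w t)) (differentiableOn_id.prodMk (hzd t ht))
        fun w hw => ⟨hw, hzb w hw t ht⟩)
  · intro ε hε p hp
    have hw : (ε, p) ∈ S := ⟨hε, hp⟩
    have h2 : R * (2 * (LL Cb T * ‖ε‖)) ≤ R * (6 * LL Cb T) * ‖ε‖ := by
      have : 0 ≤ R * (LL Cb T * ‖ε‖) := by positivity
      linarith
    refine ⟨((norm_fst_le _).trans (hzl _ hw 1 h1)).trans h2,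
      ((norm_snd_le _).trans (hzl _ hw 0 h0)).trans h2, ?_⟩
    have h3 : p.2.2.2 = ∫ _ in (0 : ℝ)..1, p.2.2.2 := by simp
    have h4 := (c4 _ hw).intervalIntegrable_of_Icc (μ := MeasureTheory.volume) zero_le_one
    rw [show ∀ a, a - p.2.2.2 = a - ∫ _ in (0 : ℝ)..1, p.2.2.2 from fun a => congrArg (a - ·) h3,
      ← intervalIntegral.integral_sub h4 (by simp)]
    refine Seg.norm_int_le h0 h1 fun t ht => ?_
    rw [← mul_sub_one, norm_mul, mul_assoc, mul_assoc]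
    exact mul_le_mul (hr _ hp) ((h _ hp t ht _ (hzb _ hw t ht)).ss_le hW hT (hε' _ hw))
      (norm_nonneg _) (by positivity)
  · rintro ε hε x y u r hx hy hr0 p hp0 hp
    have hw : ((ε : ℂ), p) ∈ S := ⟨mem_ball_zero_iff.2 (by rwa [norm_real]), hp⟩
    have hre : ∀ t ∈ Icc (0 : ℝ) 1, ∀ v ∈ ball (0 : ℂ × ℂ) δ, v.1.im = 0 → v.2.im = 0 → _ :=
      fun t ht v hv a b => (h p hp t ht v hv).real hW
        (by simp [hp0, QQ, hx, norm_exp, a]) (by simp [hp0, QQ, hy, norm_exp, b])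
        (by simp [hp0, QQ]) (hε' _ hw)
    obtain ⟨z0, z1, zd, -, zr⟩ := hz _ hw
    have hp4 : p.2.2.2 = r := by rw [hp0]
    replace zr := zr fun t ht a b ha hb => by
      obtain ⟨-, e1, e2, -⟩ := hre t ht ((a : ℂ), (b : ℂ)) (by
        rw [mem_ball_zero_iff, Prod.norm_def, max_lt_iff, norm_real, norm_real]
        exact ⟨ha, hb⟩) (ofReal_im a) (ofReal_im b)
      exact ⟨im_mul (by simp [hp4]) e1, im_mul (by simp [hp4]) e2⟩
    replace hre := fun t ht => hre t ht _ (hzb _ hw t ht) (zr t ht).1 (zr t ht).2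
    have hσ : ∀ t ∈ Icc (0 : ℝ) 1, ((p.2.2.2 * ss Wf (ε, QQ p t (z (ε, p) t))).re : ℂ) =
        p.2.2.2 * ss Wf (ε, QQ p t (z (ε, p) t)) := fun t ht =>
      Complex.ext rfl (im_mul (by simp [hp4]) (hre t ht).2.2.2.1).symm
    refine ⟨(zr 1 h1).1, (zr 0 h0).2, fun t => PE (QQ p t (z (ε, p) t)),
      fun t => (p.2.2.2 * ss Wf (ε, QQ p t (z (ε, p) t))).re,
      continuous_re.comp_continuousOn (c4 _ hw), fun t ht => ⟨?_, (hre t ht).1, ?_⟩, ?_, ?_, ?_⟩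
    · simp only [hp4, re_ofReal_mul]
      exact mul_pos hr0 (hre t ht).2.2.2.2
    · have ok := h p hp t ht _ (hzb _ hw t ht)
      have hk := inv_mul_cancel₀ (one_add_le ((ok.aa_le hW ε).trans (hε' _ hw))).1
      have e1 := ((((ContinuousLinearMap.fst ℝ ℂ ℂ).hasFDerivAt.comp_hasDerivWithinAt t
        (zd t ht)).mul_const I).cexp.const_mul p.1)
      have e2 := ((((ContinuousLinearMap.snd ℝ ℂ ℂ).hasFDerivAt.comp_hasDerivWithinAt t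
        (zd t ht)).mul_const I).cexp.const_mul p.2.1)
      have e3 := (((hasDerivAt_id t).ofReal_comp.mul_const p.2.2.2).const_add
        p.2.2.1).hasDerivWithinAt (s := Icc 0 1)
      refine (hasDeriv (Q := fun t => QQ p t (z (ε, p) t)) (r := p.2.2.2)
        (φ := ε * ff Wf (QQ p t (z (ε, p) t))) (k := (1 + aa Wf (ε, QQ p t (z (ε, p) t)))⁻¹)
        ok.d0 ?_ (e1.congr_deriv ?_) (e2.congr_deriv ?_) (e3.congr_deriv ?_)).congr_deriv ?_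
      · refine (congrArg _ ?_).trans hk
        rw [aa]
        ring
      · simp only [gg, ContinuousLinearMap.coe_fst', Prod.smul_fst, smul_eq_mul, QQ,
          Function.comp]
        ring
      · simp only [gg, ContinuousLinearMap.coe_snd', Prod.smul_snd, smul_eq_mul, QQ,
          Function.comp]
        ring
      · simp
      · rw [← Complex.coe_smul, hσ t ht, VF, smul_smul, ss, neg_mul, exp_neg, mul_assoc,
          mul_assoc, bb, mul_inv_cancel₀ (exp_ne_zero _), mul_one]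
        rfl
    · simp only [PE, QQ, z0]
      simp [hp0]
    · simp only [PE, QQ, z1]
      simp [hp0]
    · rw [← intervalIntegral.integral_ofReal]
      exact intervalIntegral.integral_congr fun t ht =>
        (hσ t (by rwa [uIcc_of_le zero_le_one] at ht)).symm

end Pool.Agent.Lib.MP_de7bb2_an
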