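import Pool.Agent.Lib.MP_de7bb2_an.H20Tool

/-! The contour argument. TASK HUR. -/

namespace Pool.Agent.Lib.MP_de7bb2_an

open Metric Set Filter Topology

namespace Hur

open Pool.Agent.Lib.MP_08f711_an

theorem slice_fst {F : ℂ × ℂ → ℂ} {S V : Set ℂ} (hF : DifferentiableOn ℂ F (S ×ˢ V)) {l : ℂ}
    (hl : l ∈ V) : DifferentiableOn ℂ (fun e => F (e, l)) S :=
  hF.comp (f := fun e : ℂ => (e, l)) (by fun_prop) (fun _ he => ⟨he, hl⟩)

theorem slice_snd {F : ℂ × ℂ → ℂ} {S V : Set ℂ} (hF : DifferentiableOn ℂ F (S ×ˢ V)) {e : ℂ}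
    (he : e ∈ S) : DifferentiableOn ℂ (fun l => F (e, l)) V :=
  hF.comp (f := fun l : ℂ => (e, l)) (by fun_prop) (fun _ hl => ⟨he, hl⟩)

theorem swap_diff {F : ℂ × ℂ → ℂ} {S V : Set ℂ} (hF : DifferentiableOn ℂ F (S ×ˢ V)) :
    DifferentiableOn ℂ (fun p : ℂ × ℂ => F (p.2, p.1)) (V ×ˢ S) :=
  hF.comp (f := fun p : ℂ × ℂ => (p.2, p.1)) (by fun_prop) (fun _ hp => ⟨hp.2, hp.1⟩)

theorem deriv_fst_eq {F : ℂ × ℂ → ℂ} {e l : ℂ} (hF : DifferentiableAt ℂ F (e, l)) :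
    deriv (fun e => F (e, l)) e = fderiv ℂ F (e, l) (1, 0) := by
  have h1 : HasDerivAt (fun e : ℂ => (e, l)) ((1 : ℂ), (0 : ℂ)) e :=
    (hasDerivAt_id e).prodMk (hasDerivAt_const e l)
  exact (hF.hasFDerivAt.comp_hasDerivAt e h1).deriv

theorem diffOn_deriv_fst {F : ℂ × ℂ → ℂ} {S V : Set ℂ} (hS : IsOpen S) (hV : IsOpen V)
    (hF : DifferentiableOn ℂ F (S ×ˢ V)) {e : ℂ} (he : e ∈ S) :
    DifferentiableOn ℂ (fun l => deriv (fun e => F (e, l)) e) V := by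
  have h := slice_snd (differentiableOn_fderiv_apply (hS.prod hV) hF ((1 : ℂ), (0 : ℂ))) he
  refine h.congr fun l hl => deriv_fst_eq ?_
  exact hF.differentiableAt ((hS.prod hV).mem_nhds ⟨he, hl⟩)

theorem two_le_order {f : ℂ → ℂ} (hf : AnalyticAt ℂ f 0) (h0 : f 0 = 0) (h1 : deriv f 0 = 0) :
    ((2 : ℕ) : ℕ∞) ≤ analyticOrderAt f 0 := by
  rw [natCast_le_analyticOrderAt_iff_iteratedDeriv_eq_zero hf]
  intro i hi
  interval_cases i
  · simpa using h0
  · simpa using h1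

/-- Second order Taylor expansion in the first variable. -/
theorem taylor2 {F : ℂ × ℂ → ℂ} {ε : ℝ} {V : Set ℂ} (hε : 0 < ε) (hV : IsOpen V)
    (hF : DifferentiableOn ℂ F (ball 0 ε ×ˢ V)) :
    ∃ F2 : ℂ × ℂ → ℂ, DifferentiableOn ℂ F2 (ball 0 ε ×ˢ V) ∧ ∀ e ∈ ball (0 : ℂ) ε, ∀ l ∈ V,
      F (e, l) = F (0, l) + e * deriv (fun e => F (e, l)) 0 + e ^ 2 * F2 (e, l) := by
  have h0 : (0 : ℂ) ∈ ball (0 : ℂ) ε := mem_ball_self hε
  have hD := diffOn_deriv_fst isOpen_ball hV hF h0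
  have hf : DifferentiableOn ℂ (fun p : ℂ × ℂ =>
      F p - F (0, p.2) - p.1 * deriv (fun e => F (e, p.2)) 0) (ball 0 ε ×ˢ V) := by
    refine (hF.sub ?_).sub (DifferentiableOn.mul (by fun_prop) ?_)
    · exact (slice_snd hF h0).comp (f := fun p : ℂ × ℂ => p.2) (by fun_prop) (fun _ hp => hp.2)
    · exact hD.comp (f := fun p : ℂ × ℂ => p.2) (by fun_prop) (fun _ hp => hp.2)
  obtain ⟨Y, hY, -, hY2⟩ := exists_div_pow hV hε hf 2
  refine ⟨Y, hY, fun e he l hl => ?_⟩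
  have ha : AnalyticAt ℂ (fun s => F (s, l) - F (0, l) - s * deriv (fun e => F (e, l)) 0) 0 :=
    (slice_fst hf hl).analyticAt (isOpen_ball.mem_nhds h0)
  have hd : HasDerivAt (fun e => F (e, l)) (deriv (fun e => F (e, l)) 0) 0 :=
    ((slice_fst hF hl).differentiableAt (isOpen_ball.mem_nhds h0)).hasDerivAt
  have h1 : deriv (fun s => F (s, l) - F (0, l) - s * deriv (fun e => F (e, l)) 0) 0 = 0 := by
    have := (hd.sub_const (F (0, l))).fun_sub
      ((hasDerivAt_id (0 : ℂ)).mul_const (deriv (fun e => F (e, l)) 0))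
    simpa using this.deriv
  have := hY2 l hl (two_le_order ha (by simp) h1) e he
  simp only at this
  linear_combination this

/-- Division by the square of a linear factor. -/
theorem div_sq {f : ℂ → ℂ} {V : Set ℂ} (hV : IsOpen V) (hf : DifferentiableOn ℂ f V) {a : ℂ}
    (ha : a ∈ V) (h2 : analyticOrderAt f a = 2) :
    ∃ c : ℂ → ℂ, DifferentiableOn ℂ c V ∧ c a ≠ 0 ∧ ∀ l ∈ V, f l = (l - a) ^ 2 * c l := by
  classical
  obtain ⟨g, hg, hg0, hfg⟩ :=
    (AnalyticAt.analyticOrderAt_eq_natCast (n := 2) (hf.analyticAt (hV.mem_nhds ha))).1 h2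
  refine ⟨fun l => if l = a then g a else f l / (l - a) ^ 2, fun l hl => ?_, by simpa using hg0,
    fun l _ => ?_⟩
  · refine DifferentiableAt.differentiableWithinAt ?_
    by_cases h : l = a
    · subst h
      refine hg.differentiableAt.congr_of_eventuallyEq ?_
      filter_upwards [hfg] with z hz
      by_cases hza : z = l
      · simp [hza]
      · have : (z - l) ^ 2 ≠ 0 := pow_ne_zero _ (sub_ne_zero.2 hza)
        rw [if_neg hza, hz, smul_eq_mul]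
        field_simp
    · have hd : DifferentiableAt ℂ (fun l => f l / (l - a) ^ 2) l :=
        (hf.differentiableAt (hV.mem_nhds hl)).div (by fun_prop)
          (pow_ne_zero _ (sub_ne_zero.2 h))
      refine hd.congr_of_eventuallyEq ?_
      filter_upwards [isOpen_ne.mem_nhds h] with z hz
      rw [if_neg hz]
  · by_cases h : l = a
    · subst h
      have := hfg.self_of_nhds
      simpa using this
    · have : (l - a) ^ 2 ≠ 0 := pow_ne_zero _ (sub_ne_zero.2 h)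
      simp only [if_neg h]
      field_simp

/-- Blowing up a double zero. -/
theorem blow {F : ℂ × ℂ → ℂ} {ε : ℝ} {V : Set ℂ} (hε : 0 < ε) (hV : IsOpen V)
    (hF : DifferentiableOn ℂ F (ball 0 ε ×ˢ V)) {a : ℂ} (ha : a ∈ V)
    (h2 : analyticOrderAt (fun m => F (0, m)) a = 2) :
    ∃ (c d : ℂ → ℂ) (G : ℂ × ℂ → ℂ) (κ : ℂ), DifferentiableOn ℂ c V ∧ DifferentiableOn ℂ d V ∧
      c a ≠ 0 ∧ (∀ l ∈ V, F (0, l) = (l - a) ^ 2 * c l) ∧
      (∀ l ∈ V, deriv (fun e => F (e, l)) 0 = deriv (fun e => F (e, a)) 0 + (l - a) * d l) ∧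
      (∀ t, G (0, t) = c a * (t * t) + d a * t + κ) ∧
      ∀ t, ∀ᶠ p in 𝓝 ((0 : ℂ), t), DifferentiableAt ℂ G p ∧
        F (p.1, a + p.1 * p.2) = p.1 * (deriv (fun e => F (e, a)) 0 + p.1 * G p) := by
  have h0 : (0 : ℂ) ∈ ball (0 : ℂ) ε := mem_ball_self hε
  obtain ⟨F2, hF2, hT⟩ := taylor2 hε hV hF
  obtain ⟨c, hc, hca, hcf⟩ := div_sq hV (slice_snd hF h0) ha h2
  have hD := diffOn_deriv_fst isOpen_ball hV hF h0
  have hd : DifferentiableOn ℂ (dslope (fun l => deriv (fun e => F (e, l)) 0) a) V :=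
    (Complex.differentiableOn_dslope (hV.mem_nhds ha)).2 hD
  have hdf : ∀ l, deriv (fun e => F (e, l)) 0 = deriv (fun e => F (e, a)) 0 +
      (l - a) * dslope (fun l => deriv (fun e => F (e, l)) 0) a l := by
    intro l
    have := sub_smul_dslope (fun l => deriv (fun e => F (e, l)) 0) a l
    rw [smul_eq_mul] at this
    linear_combination -this
  set d := dslope (fun l => deriv (fun e => F (e, l)) 0) a
  refine ⟨c, d, fun p => p.2 ^ 2 * c (a + p.1 * p.2) + p.2 * d (a + p.1 * p.2) +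
    F2 (p.1, a + p.1 * p.2), F2 (0, a), hc, hd, hca, hcf, fun l _ => hdf l, fun t => ?_,
    fun t => ?_⟩
  · simp only [zero_mul, add_zero]
    ring
  · have hm : Continuous fun p : ℂ × ℂ => (p.1, a + p.1 * p.2) := by fun_prop
    have hev : ∀ᶠ p in 𝓝 ((0 : ℂ), t), (p.1, a + p.1 * p.2) ∈ ball (0 : ℂ) ε ×ˢ V :=
      hm.continuousAt.eventually ((isOpen_ball.prod hV).mem_nhds (by simpa using ⟨hε, ha⟩))
    filter_upwards [hev] with p hp
    constructor
    · have h1 : DifferentiableAt ℂ (fun p : ℂ × ℂ => c (a + p.1 * p.2)) p :=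
        (hc.differentiableAt (hV.mem_nhds hp.2)).comp (f := fun p : ℂ × ℂ => a + p.1 * p.2) p
          (by fun_prop)
      have h2 : DifferentiableAt ℂ (fun p : ℂ × ℂ => d (a + p.1 * p.2)) p :=
        (hd.differentiableAt (hV.mem_nhds hp.2)).comp (f := fun p : ℂ × ℂ => a + p.1 * p.2) p
          (by fun_prop)
      have h3 : DifferentiableAt ℂ (fun p : ℂ × ℂ => F2 (p.1, a + p.1 * p.2)) p :=
        (hF2.differentiableAt ((isOpen_ball.prod hV).mem_nhds hp)).comp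
          (f := fun p : ℂ × ℂ => (p.1, a + p.1 * p.2)) p (by fun_prop)
      exact (((by fun_prop : DifferentiableAt ℂ (fun p : ℂ × ℂ => p.2 ^ 2) p).mul h1).add
        ((by fun_prop : DifferentiableAt ℂ (fun p : ℂ × ℂ => p.2) p).mul h2)).add h3
    · rw [hT _ hp.1 _ hp.2, hcf _ hp.2, hdf (a + p.1 * p.2)]
      ring

/-- Hurwitz: isolated zeros of the limit are limits of zeros. -/
theorem root_transfer {G H : ℂ × ℂ → ℂ} {t₀ : ℂ}
    (hG : ∀ᶠ p in 𝓝 ((0 : ℂ), t₀), DifferentiableAt ℂ G p) (hH : ContinuousAt H (0, t₀))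
    (h0 : G (0, t₀) = 0) (hne : ∀ᶠ t in 𝓝[≠] t₀, G (0, t) ≠ 0)
    (hz : ∀ᶠ q : ℝ × ℂ in 𝓝 (0, t₀), q.1 ≠ 0 → G (q.1, q.2) = 0 → H (q.1, q.2) = 0) :
    H (0, t₀) = 0 := by
  by_contra hH0
  have hi : Continuous fun q : ℝ × ℂ => ((q.1 : ℂ), q.2) := by fun_prop
  have hi0 : Tendsto (fun q : ℝ × ℂ => ((q.1 : ℂ), q.2)) (𝓝 (0, t₀)) (𝓝 (0, t₀)) := by
    simpa using hi.tendsto (0, t₀)
  have h1 : ∀ᶠ q : ℝ × ℂ in 𝓝 (0, t₀), DifferentiableAt ℂ G (q.1, q.2) ∧
      (q.1 ≠ 0 → G (q.1, q.2) ≠ 0) := by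
    filter_upwards [hi0.eventually hG, hi0.eventually (hH.eventually_ne hH0), hz] with q a b c
    exact ⟨a, fun h h' => b (c h h')⟩
  obtain ⟨η₁, hη₁, h1⟩ := Metric.eventually_nhds_iff.1 h1
  obtain ⟨η₂, hη₂, h2⟩ := Metric.eventually_nhds_iff.1 (eventually_nhdsWithin_iff.1 hne)
  set η := min η₁ η₂ / 2 with hη
  have hη0 : 0 < η := by positivity
  have hl1 : η < η₁ := by have := min_le_left η₁ η₂; linarith
  have hl2 : η < η₂ := by have := min_le_right η₁ η₂; linarith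
  have h1' : ∀ e : ℝ, |e| < η₁ → ∀ t ∈ closedBall t₀ η, DifferentiableAt ℂ G (e, t) ∧
      (e ≠ 0 → G (e, t) ≠ 0) := by
    intro e he t ht
    refine h1 (y := (e, t)) ?_
    rw [Prod.dist_eq, max_lt_iff]
    exact ⟨by simpa using he, lt_of_le_of_lt ht hl1⟩
  have hc0 : ∀ t ∈ closedBall t₀ η, ContinuousAt G (0, t) := fun t ht => by
    simpa using (h1' 0 (by simpa using hη₁) t ht).1.continuousAt
  have hcs : ContinuousOn (fun t => ‖G (0, t)‖) (sphere t₀ η) := fun t ht =>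
    ((hc0 t (sphere_subset_closedBall ht)).comp (f := fun t : ℂ => ((0 : ℂ), t))
      (by fun_prop)).norm.continuousWithinAt
  obtain ⟨s, hs, hmin⟩ := (isCompact_sphere t₀ η).exists_isMinOn
    (NormedSpace.sphere_nonempty.2 hη0.le) hcs
  have hm : 0 < ‖G (0, s)‖ := by
    refine norm_pos_iff.2 (h2 (lt_of_eq_of_lt hs hl2) ?_)
    intro h
    rw [mem_singleton_iff] at h
    subst h
    simp at hs
    exact hη0.ne hs
  set m := ‖G (0, s)‖
  have h3 : ∀ᶠ e : ℝ in 𝓝 0, ∀ t ∈ closedBall t₀ η, ‖G (e, t) - G (0, t)‖ < m / 2 := by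
    refine (isCompact_closedBall t₀ η).eventually_forall_of_forall_eventually fun t ht => ?_
    have a1 : ContinuousAt (fun q : ℝ × ℂ => G (q.1, q.2)) (0, t) :=
      ContinuousAt.comp (f := fun q : ℝ × ℂ => ((q.1 : ℂ), q.2)) (by simpa using hc0 t ht)
        hi.continuousAt
    have a2 : ContinuousAt (fun q : ℝ × ℂ => G (0, q.2)) (0, t) :=
      ContinuousAt.comp (f := fun q : ℝ × ℂ => ((0 : ℂ), q.2)) (hc0 t ht) (by fun_prop)
    exact (a1.sub a2).norm.eventually_lt continuousAt_const (by simpa using hm)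
  have h4 : ∀ᶠ e : ℝ in 𝓝 0, |e| < η₁ := by
    filter_upwards [ball_mem_nhds (0 : ℝ) hη₁] with e he
    simpa using he
  obtain ⟨e, ⟨he3, he4⟩, he0⟩ :=
    (((h3.and h4).filter_mono nhdsWithin_le_nhds).and (self_mem_nhdsWithin (a := (0 : ℝ))
      (s := {0}ᶜ))).exists
  have hdiff : DifferentiableOn ℂ (fun t => (G (e, t))⁻¹) (closedBall t₀ η) := fun t ht =>
    (((h1' e he4 t ht).1.comp (f := fun t : ℂ => ((e : ℂ), t)) t (by fun_prop)).inv
      ((h1' e he4 t ht).2 he0)).differentiableWithinAt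
  have hb := Complex.norm_le_of_forall_mem_frontier_norm_le isBounded_ball
    (hdiff.mono closure_ball_subset_closedBall).diffContOnCl (C := (m / 2)⁻¹) (z := t₀)
    (fun t ht => by
      rw [frontier_ball t₀ hη0.ne'] at ht
      have a1 : m ≤ ‖G (0, t)‖ := hmin ht
      have a2 := he3 t (sphere_subset_closedBall ht)
      have a3 := norm_sub_norm_le (G (0, t)) (G (e, t))
      rw [norm_sub_rev] at a3
      rw [norm_inv]
      exact inv_anti₀ (by positivity) (by linarith))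
    (subset_closure (mem_ball_self hη0))
  have a1 := he3 t₀ (mem_closedBall_self hη0.le)
  rw [h0, sub_zero] at a1
  have a2 : 0 < ‖G (e, t₀)‖ := norm_pos_iff.2 ((h1' e he4 t₀ (mem_closedBall_self hη0.le)).2 he0)
  rw [norm_inv, inv_le_inv₀ a2 (by positivity)] at hb
  linarith

theorem quad_factor {c d κ : ℂ} (hc : c ≠ 0) :
    ∃ t₁ t₂, d = -c * (t₁ + t₂) ∧ ∀ t, c * (t * t) + d * t + κ = c * ((t - t₁) * (t - t₂)) := by
  obtain ⟨t₁, h⟩ := exists_quadratic_eq_zero (b := d) (c := κ) hc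
    (IsAlgClosed.exists_eq_mul_self _)
  refine ⟨t₁, -d / c - t₁, by field_simp; ring, fun t => ?_⟩
  field_simp
  linear_combination h

theorem quad_ne {c d κ : ℂ} (hc : c ≠ 0) (t₀ : ℂ) :
    ∀ᶠ t in 𝓝[≠] t₀, c * (t * t) + d * t + κ ≠ 0 := by
  obtain ⟨t₁, t₂, -, h⟩ := quad_factor (d := d) (κ := κ) hc
  have key : ∀ s : ℂ, ∀ᶠ t in 𝓝[≠] t₀, t ≠ s := fun s => by
    by_cases hs : t₀ = s
    · subst hs
      exact self_mem_nhdsWithin
    · exact nhdsWithin_le_nhds (isOpen_ne.mem_nhds hs)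
  filter_upwards [key t₁, key t₂] with t h1 h2
  rw [h]
  exact mul_ne_zero hc (mul_ne_zero (sub_ne_zero.2 h1) (sub_ne_zero.2 h2))

theorem quad_eq {c d κ c' d' κ' : ℂ} (hc : c ≠ 0) (hc' : c' ≠ 0)
    (h : ∀ t, c * (t * t) + d * t + κ = 0 ↔ c' * (t * t) + d' * t + κ' = 0) :
    d / c = d' / c' := by
  obtain ⟨t₁, t₂, hd, h1⟩ := quad_factor (d := d) (κ := κ) hc
  obtain ⟨s₁, s₂, hd', h2⟩ := quad_factor (d := d') (κ := κ') hc'
  have k : ∀ t, (t = t₁ ∨ t = t₂) ↔ (t = s₁ ∨ t = s₂) := fun t => by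
    have := h t
    rw [h1, h2] at this
    simpa [hc, hc', sub_eq_zero] using this
  have hs : t₁ + t₂ = s₁ + s₂ := by
    have a1 := (k t₁).1 (Or.inl rfl)
    have a2 := (k t₂).1 (Or.inr rfl)
    have a3 := (k s₁).2 (Or.inl rfl)
    have a4 := (k s₂).2 (Or.inr rfl)
    grind
  rw [hd, hd', hs]
  field_simp

theorem residue_eq {C P : ℂ × ℂ → ℂ} {a γ : ℂ} {G H : ℂ × ℂ → ℂ} {c d κ c' d' κ' : ℂ}
    (hc : c ≠ 0) (hc' : c' ≠ 0) (hG0 : ∀ t, G (0, t) = c * (t * t) + d * t + κ)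
    (hH0 : ∀ t, H (0, t) = c' * (t * t) + d' * t + κ')
    (hG : ∀ t, ∀ᶠ p in 𝓝 ((0 : ℂ), t), DifferentiableAt ℂ G p ∧
      C (p.1, a + p.1 * p.2) = p.1 * (γ + p.1 * G p))
    (hH : ∀ t, ∀ᶠ p in 𝓝 ((0 : ℂ), t), DifferentiableAt ℂ H p ∧
      P (p.1, a + p.1 * p.2) = p.1 * (0 + p.1 * H p))
    (hz : ∀ᶠ q : ℝ × ℂ in 𝓝 (0, a), C (q.1, q.2) = 0 ↔ P (q.1, q.2) = 0) :
    γ = 0 ∧ d / c = d' / c' := by
  have hi : Continuous fun q : ℝ × ℂ => ((q.1 : ℂ), q.2) := by fun_prop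
  have key : ∀ t : ℂ, ∀ᶠ q : ℝ × ℂ in 𝓝 (0, t), q.1 ≠ 0 →
      (γ + q.1 * G (q.1, q.2) = 0 ↔ H (q.1, q.2) = 0) := by
    intro t
    have hi0 : Tendsto (fun q : ℝ × ℂ => ((q.1 : ℂ), q.2)) (𝓝 (0, t)) (𝓝 (0, t)) := by
      simpa using hi.tendsto (0, t)
    have hj : Continuous fun q : ℝ × ℂ => (q.1, a + q.1 * q.2) := by fun_prop
    have hj0 : Tendsto (fun q : ℝ × ℂ => (q.1, a + q.1 * q.2)) (𝓝 (0, t)) (𝓝 (0, a)) := by
      simpa using hj.tendsto (0, t)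
    filter_upwards [hi0.eventually (hG t), hi0.eventually (hH t), hj0.eventually hz] with
      q h1 h2 h3 hq
    have hq' : (q.1 : ℂ) ≠ 0 := by exact_mod_cast hq
    rw [h1.2, h2.2] at h3
    simpa [hq'] using h3
  have hγ : γ = 0 := by
    obtain ⟨t, ht⟩ := exists_quadratic_eq_zero (b := d') (c := κ') hc'
      (IsAlgClosed.exists_eq_mul_self _)
    have := root_transfer (G := H) (H := fun p => γ + p.1 * G p) (t₀ := t)
      ((hH t).mono fun p hp => hp.1)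
      (continuousAt_const.add (continuousAt_fst.mul (hG t).self_of_nhds.1.continuousAt))
      (by rw [hH0, ht]) (by simpa only [hH0] using quad_ne hc' t)
      ((key t).mono fun q hq h1 h2 => (hq h1).2 h2)
    simpa using this
  refine ⟨hγ, quad_eq (κ := κ) (κ' := κ') hc hc' fun t => ?_⟩
  have key' : ∀ᶠ q : ℝ × ℂ in 𝓝 (0, t), q.1 ≠ 0 → (G (q.1, q.2) = 0 ↔ H (q.1, q.2) = 0) := by
    filter_upwards [key t] with q hq h1
    have hq' : (q.1 : ℂ) ≠ 0 := by exact_mod_cast h1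
    simpa [hγ, hq'] using hq h1
  rw [← hG0, ← hH0]
  constructor
  · intro h
    exact root_transfer ((hG t).mono fun p hp => hp.1) (hH t).self_of_nhds.1.continuousAt h
      (by simpa only [hG0] using quad_ne hc t) (key'.mono fun q hq h1 h2 => (hq h1).1 h2)
  · intro h
    exact root_transfer ((hH t).mono fun p hp => hp.1) (hG t).self_of_nhds.1.continuousAt h
      (by simpa only [hH0] using quad_ne hc' t) (key'.mono fun q hq h1 h2 => (hq h1).2 h2)

theorem deriv_eq_zero_of_real {f : ℂ → ℂ} (hf : DifferentiableAt ℂ f 0) {K : ℝ}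
    (h : ∀ᶠ e : ℝ in 𝓝 0, ‖f e‖ ≤ K * e ^ 2) : deriv f 0 = 0 := by
  have h1 : HasDerivAt (fun e : ℝ => f e) (deriv f 0) 0 := by
    have := HasDerivAt.comp_ofReal (e := f) (e' := deriv f 0) (z := 0) (by simpa using hf.hasDerivAt)
    exact this
  have h0 : f 0 = 0 := by simpa using h.self_of_nhds
  have h2 : HasDerivAt (fun e : ℝ => f e) 0 0 := by
    rw [hasDerivAt_iff_isLittleO_nhds_zero]
    have h3 : (fun e : ℝ => f e) =O[𝓝 0] fun e : ℝ => e ^ 2 :=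
      Asymptotics.IsBigO.of_bound K (h.mono fun e he => by simpa using he)
    simpa [h0] using h3.trans_isLittleO (Asymptotics.isLittleO_pow_id (𝕜 := ℝ) one_lt_two)
  exact h1.unique h2

theorem deriv_congr_real {f g : ℂ → ℂ} (hf : DifferentiableAt ℂ f 0) (hg : DifferentiableAt ℂ g 0)
    (h : ∀ᶠ e : ℝ in 𝓝 0, f e = g e) : deriv f 0 = deriv g 0 := by
  have := deriv_eq_zero_of_real (hf.fun_sub hg) (K := 0) (h.mono fun e he => by simp [he])
  rw [deriv_fun_sub hf hg] at this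
  exact sub_eq_zero.1 this

end Hur

open Hur in
theorem hur {A B C : ℂ × ℂ → ℂ} {l₁ : ℂ} {ρ ε₀ : ℝ} (hρ : 0 < ρ) (hε : 0 < ε₀)
    (hA : DifferentiableOn ℂ A (ball 0 ε₀ ×ˢ ball l₁ (2 * ρ)))
    (hB : DifferentiableOn ℂ B (ball 0 ε₀ ×ˢ ball l₁ (2 * ρ)))
    (hC : DifferentiableOn ℂ C (ball 0 ε₀ ×ˢ ball l₁ (2 * ρ))) (z : ℂ → Prop)
    (hz1 : ∀ l l', z l → z l' → l = l')
    (hz2 : ∀ l, z l → l ∈ ball l₁ ρ ∧ analyticOrderAt (fun m => A (0, m)) l = 1 ∧
      analyticOrderAt (fun m => B (0, m)) l = 1 ∧ analyticOrderAt (fun m => C (0, m)) l = 2)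
    (hz3 : ∀ l ∈ closedBall l₁ ρ, ¬ z l → A (0, l) ≠ 0 ∧ B (0, l) ≠ 0 ∧ C (0, l) ≠ 0)
    (hz : ∀ᶠ e : ℝ in 𝓝 0, ∀ l ∈ closedBall l₁ ρ,
      C ((e : ℂ), l) = 0 ↔ A ((e : ℂ), l) * B ((e : ℂ), l) = 0) :
    ContinuousOn (fun l => deriv (fun e => C (e, l)) 0 / C (0, l) -
      deriv (fun e => A (e, l) * B (e, l)) 0 / (A (0, l) * B (0, l))) (sphere l₁ ρ) ∧
    (∮ l in C(l₁, ρ), (deriv (fun e => C (e, l)) 0 / C (0, l) -
      deriv (fun e => A (e, l) * B (e, l)) 0 / (A (0, l) * B (0, l)))) = 0 := by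
  have h0 : (0 : ℂ) ∈ ball (0 : ℂ) ε₀ := mem_ball_self hε
  have hsub : closedBall l₁ ρ ⊆ ball l₁ (2 * ρ) := closedBall_subset_ball (by linarith)
  have hP : DifferentiableOn ℂ (fun p => A p * B p) (ball 0 ε₀ ×ˢ ball l₁ (2 * ρ)) := hA.mul hB
  have hDC := diffOn_deriv_fst isOpen_ball isOpen_ball hC h0
  have hDP := diffOn_deriv_fst isOpen_ball isOpen_ball hP h0
  have hdiff : ∀ l ∈ closedBall l₁ ρ, ¬ z l → DifferentiableAt ℂ
      (fun l => deriv (fun e => C (e, l)) 0 / C (0, l) -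
        deriv (fun e => A (e, l) * B (e, l)) 0 / (A (0, l) * B (0, l))) l := by
    intro l hl hn
    have hn' := isOpen_ball.mem_nhds (hsub hl)
    obtain ⟨a1, a2, a3⟩ := hz3 l hl hn
    exact ((hDC.differentiableAt hn').div ((slice_snd hC h0).differentiableAt hn') a3).sub
      ((hDP.differentiableAt hn').div ((slice_snd hP h0).differentiableAt hn') (mul_ne_zero a1 a2))
  have hsph : ∀ l ∈ sphere l₁ ρ, ¬ z l := fun l hl hzl => by
    have := (hz2 l hzl).1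
    rw [mem_ball] at this
    exact this.ne hl
  refine ⟨fun l hl =>
    (hdiff l (sphere_subset_closedBall hl) (hsph l hl)).continuousAt.continuousWithinAt, ?_⟩
  by_cases hex : ∃ a, z a
  swap
  · push Not at hex
    have hd : DifferentiableOn ℂ _ (closedBall l₁ ρ) := fun l hl =>
      (hdiff l hl (hex l)).differentiableWithinAt
    exact (hd.mono closure_ball_subset_closedBall).diffContOnCl.circleIntegral_eq_zero hρ.le
  obtain ⟨a, hza⟩ := hex
  obtain ⟨ha, oA, oB, oC⟩ := hz2 a hza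
  have haV : a ∈ ball l₁ (2 * ρ) := hsub (ball_subset_closedBall ha)
  have haN := isOpen_ball.mem_nhds haV
  have oP : analyticOrderAt (fun m => A (0, m) * B (0, m)) a = 2 := by
    have := analyticOrderAt_mul ((slice_snd hA h0).analyticAt haN) ((slice_snd hB h0).analyticAt haN)
    rw [oA, oB] at this
    exact this
  have zA : A (0, a) = 0 := apply_eq_zero_of_analyticOrderAt_ne_zero (f := fun m => A (0, m))
    (by rw [oA]; simp)
  have zB : B (0, a) = 0 := apply_eq_zero_of_analyticOrderAt_ne_zero (f := fun m => B (0, m))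
    (by rw [oB]; simp)
  have dP : deriv (fun e => A (e, a) * B (e, a)) 0 = 0 := by
    rw [deriv_fun_mul ((slice_fst hA haV).differentiableAt (isOpen_ball.mem_nhds h0))
      ((slice_fst hB haV).differentiableAt (isOpen_ball.mem_nhds h0)), zA, zB]
    simp
  obtain ⟨c, d, G, κ, hc, hd, hca, hcf, hdf, hG0, hG⟩ := blow hε isOpen_ball hC haV oC
  obtain ⟨c', d', H, κ', hc', hd', hca', hcf', hdf', hH0, hH⟩ := blow hε isOpen_ball hP haV oP
  simp only [dP] at hdf' hH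
  have hz' : ∀ᶠ q : ℝ × ℂ in 𝓝 (0, a), C (q.1, q.2) = 0 ↔ A (q.1, q.2) * B (q.1, q.2) = 0 := by
    have e1 : ∀ᶠ q : ℝ × ℂ in 𝓝 (0, a), q.2 ∈ ball l₁ ρ :=
      continuous_snd.continuousAt.eventually (isOpen_ball.mem_nhds ha)
    have e2 := (continuous_fst.tendsto (((0 : ℝ), a) : ℝ × ℂ)).eventually hz
    filter_upwards [e1, e2] with q h1 h2 using h2 _ (ball_subset_closedBall h1)
  obtain ⟨hγ, hres⟩ := residue_eq (C := C) (P := fun p => A p * B p) hca hca' hG0 hH0 hG hH hz'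
  have hne : ∀ l ∈ closedBall l₁ ρ, c l ≠ 0 ∧ c' l ≠ 0 := by
    intro l hl
    by_cases h : z l
    · rw [hz1 l a h hza]
      exact ⟨hca, hca'⟩
    · obtain ⟨a1, a2, a3⟩ := hz3 l hl h
      have a4 := mul_ne_zero a1 a2
      rw [hcf l (hsub hl)] at a3
      rw [hcf' l (hsub hl)] at a4
      exact ⟨right_ne_zero_of_mul a3, right_ne_zero_of_mul a4⟩
  have hφ : DifferentiableOn ℂ (fun l => d l / c l - d' l / c' l) (closedBall l₁ ρ) :=
    ((hd.mono hsub).div (hc.mono hsub) fun l hl => (hne l hl).1).sub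
      ((hd'.mono hsub).div (hc'.mono hsub) fun l hl => (hne l hl).2)
  have hI := hφ.circleIntegral_sub_inv_smul ha
  rw [hres, sub_self, smul_zero] at hI
  refine Eq.trans (circleIntegral.integral_congr hρ.le fun l hl => ?_) hI
  have hl' := sphere_subset_closedBall hl
  have hla : l - a ≠ 0 := sub_ne_zero.2 fun h => hsph l hl (h ▸ hza)
  obtain ⟨a1, a2⟩ := hne l hl'
  rw [hdf l (hsub hl'), hdf' l (hsub hl'), hcf l (hsub hl'), hcf' l (hsub hl'), hγ, smul_eq_mul]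
  field_simp
  ring

open Hur in
/-- First order agreement for large real `s` propagates to the leading coefficient at zero. -/
theorem var_lead {N₁ D₁ N₂ D₂ : ℂ × ℂ → ℂ} {ε₀ C : ℝ} (hε : 0 < ε₀) {n : ℕ}
    (hN₁ : DifferentiableOn ℂ N₁ (univ ×ˢ ball 0 ε₀))
    (hD₁ : DifferentiableOn ℂ D₁ (univ ×ˢ ball 0 ε₀))
    (hN₂ : DifferentiableOn ℂ N₂ (univ ×ˢ ball 0 ε₀))
    (hD₂ : DifferentiableOn ℂ D₂ (univ ×ˢ ball 0 ε₀))
    (hN0 : ∀ s, N₁ (s, 0) = N₂ (s, 0)) (hD0 : ∀ s, D₁ (s, 0) = D₂ (s, 0))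
    (hDc : ∀ e ∈ ball (0 : ℂ) ε₀, D₂ (0, e) = D₂ (0, 0))
    (hO : ∀ s : ℝ, C < s → ∃ K : ℝ, ∀ᶠ e : ℝ in 𝓝 0,
      ‖N₁ (s, e) * D₂ (s, e) - N₂ (s, e) * D₁ (s, e)‖ ≤ K * e ^ 2)
    (hord : ∀ᶠ e : ℝ in 𝓝 0, (n : ℕ∞) ≤ analyticOrderAt (fun s => N₁ (s, e)) 0 ∧
      (n : ℕ∞) ≤ analyticOrderAt (fun s => N₂ (s, e)) 0) :
    deriv (fun e => tay n fun s => N₁ (s, e)) 0 * D₁ (0, 0) -
        tay n (fun s => N₁ (s, 0)) * deriv (fun e => D₁ (0, e)) 0 =
      deriv (fun e => tay n fun s => N₂ (s, e)) 0 * D₁ (0, 0) := by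
  have h0 : (0 : ℂ) ∈ ball (0 : ℂ) ε₀ := mem_ball_self hε
  have hn0 := isOpen_ball.mem_nhds h0
  set H : ℂ × ℂ → ℂ := fun p => N₁ p * D₂ p - N₂ p * D₁ p with hHdef
  have hH : DifferentiableOn ℂ H (univ ×ˢ ball 0 ε₀) := (hN₁.mul hD₂).sub (hN₂.mul hD₁)
  have hH' := swap_diff hH
  have hD : ∀ s, deriv (fun e => H (s, e)) 0 = 0 := by
    have h1 := diffOn_deriv_fst isOpen_ball isOpen_univ hH' h0
    have h2 := eq_of_real_large (C := C) (g := fun _ => (0 : ℂ)) (differentiableOn_univ.1 h1)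
      (differentiable_const _) fun s hs => by
        obtain ⟨K, hK⟩ := hO s hs
        exact deriv_eq_zero_of_real ((slice_snd hH (mem_univ _)).differentiableAt hn0) hK
    exact fun s => congrFun h2 s
  obtain ⟨Y, hY, hYT⟩ := taylor2 hε isOpen_univ hH'
  have hHY : ∀ e ∈ ball (0 : ℂ) ε₀, ∀ s, H (s, e) = e ^ 2 * Y (e, s) := by
    intro e he s
    have := hYT e he s (mem_univ _)
    simp only [hD s] at this
    rw [this, hHdef]
    simp only [hN0, hD0]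
    ring
  have htay : ∀ {F : ℂ × ℂ → ℂ}, DifferentiableOn ℂ F (univ ×ˢ ball 0 ε₀) →
      DifferentiableAt ℂ (fun e => tay n fun s => F (s, e)) 0 := fun hF =>
    (diffOn_tay isOpen_ball one_pos (hF.mono (prod_mono (subset_univ _) Subset.rfl))
      n).differentiableAt hn0
  have hW := htay (swap_diff hY)
  have hT0 : deriv (fun e => tay n fun s => H (s, e)) 0 = 0 := by
    have h1 : (fun e => tay n fun s => H (s, e)) =ᶠ[𝓝 0]
        fun e => e ^ 2 * tay n fun s => Y (e, s) := by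
      filter_upwards [hn0] with e he
      simp only [hHY e he, tay, iteratedDeriv_const_mul_field]
      ring
    rw [h1.deriv_eq, deriv_fun_mul (by fun_prop) hW]
    simp
  have han : ∀ {F : ℂ × ℂ → ℂ}, DifferentiableOn ℂ F (univ ×ˢ ball 0 ε₀) →
      ∀ e ∈ ball (0 : ℂ) ε₀, AnalyticAt ℂ (fun s => F (s, e)) 0 := fun hF e he =>
    (slice_fst hF he).analyticAt univ_mem
  have hd1 : DifferentiableAt ℂ (fun e => D₁ (0, e)) 0 :=
    (slice_snd hD₁ (mem_univ _)).differentiableAt hn0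
  have hT : deriv (fun e => tay n fun s => H (s, e)) 0 =
      deriv (fun e => (tay n fun s => N₁ (s, e)) * D₂ (0, 0) -
        (tay n fun s => N₂ (s, e)) * D₁ (0, e)) 0 := by
    refine deriv_congr_real (htay hH) (((htay hN₁).mul_const _).sub ((htay hN₂).mul hd1)) ?_
    have hb : ∀ᶠ e : ℝ in 𝓝 0, (e : ℂ) ∈ ball (0 : ℂ) ε₀ :=
      Complex.continuous_ofReal.continuousAt.eventually (isOpen_ball.mem_nhds (by simpa using hε))
    filter_upwards [hord, hb] with e he hb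
    rw [← hDc e hb, ← tay_mul (han hN₁ e hb) (han hD₂ e hb) he.1,
      ← tay_mul (han hN₂ e hb) (han hD₁ e hb) he.2]
    simp only [tay, hHdef]
    rw [iteratedDeriv_fun_sub ((han hN₁ e hb).fun_mul (han hD₂ e hb)).contDiffAt
      ((han hN₂ e hb).fun_mul (han hD₁ e hb)).contDiffAt, sub_div]
  rw [hT0, deriv_fun_sub ((htay hN₁).mul_const _) ((htay hN₂).fun_mul hd1),
    deriv_mul_const (htay hN₁), deriv_fun_mul (htay hN₂) hd1] at hT
  simp only [hN0, hD0] at hT ⊢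
  linear_combination -hT

end Pool.Agent.Lib.MP_de7bb2_an
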