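import Pool.Agent.Lib.MP_de7bb2_an.H20InjC

/-! A fixed vector with vanishing total Cauchy transforms is zero. TASK INJ. -/

namespace Pool.Agent.Lib.MP_de7bb2_an

open Metric Set Complex Filter

noncomputable def cauF (s z : ℂ) (E : V) : ℂ := br E oo ^ (-s) * (z - pt E)⁻¹

theorem test_cauF (s : ℂ) {z : ℂ} (hz : ‖z‖ ≠ 1) : Test s (cauF s z) := by
  refine ⟨oo, fun E => (z - pt E)⁻¹, hyp_oo, deg0_pt (h := fun y => (z - y)⁻¹) fun y hy => ?_, rfl⟩
  filter_upwards [eventually_ne_nhds (show y ≠ z from fun h => hz (h ▸ hy))] with w hw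
  exact (differentiableAt_id.const_sub z).inv (sub_ne_zero.2 hw.symm)

variable {G : ℕ} [hG : Fact (2 ≤ G)] {b : ZMod 2} {D : Nest G b} {s : ℂ} {x : L G → ℂ}
  {μ : Vec (St G × ℕ)}

namespace Inj

open Topology

omit hG in
theorem Adj.par_eq {o e e' : L G} (ha : Adj o e e') : par e' = par e := by
  rcases ha with ⟨rfl, rfl⟩ | ⟨rfl, rfl⟩ <;> rw [par_add_one, par_sub_one]

theorem IsEnd.vals {o e e' : L G} {ξ : ℂ} (ha : Adj o e e') (h : IsEnd o e ξ) (s : ℂ) :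
    dsig e ξ = -(sig e ξ * exp (lw G / 2) / ξ) ∧ jj e (sig e ξ) ^ (-s) = exp (-s * (lw G / 2)) := by
  have h1 := (sig_sig e (ne_zero_of h.1) (slitPlane_ne_zero (jj_slit e h.1))).2
  rw [h.jj_eq ha] at h1
  have h2 : jj e (sig e ξ) = (Real.exp (lw G / 2) : ℝ) := by
    rw [eq_inv_of_mul_eq_one_right h1, ← ofReal_inv, ← Real.exp_neg, neg_neg]
  rw [dsig, h2, real_cpow s (Real.exp_pos _), Real.log_exp]
  push_cast
  exact ⟨rfl, rfl⟩

theorem ext_end (h : Fixd D s x μ) (hN : NR s x) (g : W G) {o e e' : L G} {ξ : ℂ}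
    (ha : Adj o e e') (he : par e ≠ b) (hξ : IsEnd o e ξ)
    (hφ : ∀ᶠ z in 𝓝[≠] ξ, Ext (cau D s x μ g e) z) : Ext (cau D s x μ g e) ξ := by
  have hξ' := hξ.step ha
  have hξ'' := hξ'.step ha.symm
  have hfix : sig e' (sig e ξ) = ξ := hξ''.unique ha hξ
  have he' : par e' ≠ b := ha.par_eq ▸ he
  obtain ⟨ρ₁, a1, a2⟩ := cau_step h g hξ.1 (ha.far.edge b) fun m' h1 h2 => hξ'.only ha he h1 h2
  obtain ⟨ρ₂, b1, b2⟩ := cau_step h (g * sr e) hξ'.1 (ha.symm.far.edge b)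
    fun m' h1 h2 => hξ''.only ha.symm he' h1 h2
  have hcl : cl (g * sr e * sr e') = cl g := by
    rw [cl_mul, cl_mul, cl_sr, cl_sr, Hom.clL_congr ha.par_eq, add_assoc, clL_add_self, add_zero]
  obtain ⟨ε, hε, hT⟩ : ∃ ε : ℂ, (ε = 1 ∨ ε = -1) ∧
      Th x (g * sr e * sr e') - Th x g = ε * (x (o + 1) - x (o - 1)) := by
    obtain ⟨ε, h1, h2, h3⟩ := Th_wall x g o
    rw [mul_assoc]
    rcases ha with ⟨rfl, rfl⟩ | ⟨rfl, rfl⟩
    · exact ⟨ε, h1, h2⟩
    · exact ⟨-ε, by rcases h1 with rfl | rfl <;> simp, h3⟩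
  obtain ⟨n1, n2⟩ := hN o ε hε
  have hs := analyticAt_sig e hξ.1
  have hA := analyticAt_mul e s hξ.1
  have hA' : AnalyticAt ℂ (fun z => dsig e' (sig e z) * jj e' (sig e' (sig e z)) ^ (-s)) ξ :=
    (analyticAt_mul e' s hξ'.1).comp hs
  have hρ : AnalyticAt ℂ (fun z => ρ₂ (sig e z)) ξ := b1.comp hs
  obtain ⟨v1, v2⟩ := hξ.vals ha s
  obtain ⟨v3, v4⟩ := hξ'.vals ha.symm s
  have z1 := ne_zero_of hξ.1
  have z2 := ne_zero_of hξ'.1
  have hl : dsig e' (sig e ξ) * dsig e ξ = exp (lw G) := by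
    rw [v1, v3, hfix, show (lw G : ℂ) = lw G / 2 + lw G / 2 by ring, exp_add]
    field_simp
    ring_nf
  have hv : dsig e ξ * jj e (sig e ξ) ^ (-s) * (dsig e' (sig e ξ) *
      jj e' (sig e' (sig e ξ)) ^ (-s) * exp (ε * (x (o + 1) - x (o - 1)))) =
      exp (lw G) * exp (ε * (x (o + 1) - x (o - 1)) - s * lw G) := by
    rw [v2, v4, ← hl, show ε * (x (o + 1) - x (o - 1)) - s * lw G = -s * (lw G / 2) +
      -s * (lw G / 2) + ε * (x (o + 1) - x (o - 1)) by ring, exp_add, exp_add]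
    ring
  have hn : ‖exp (lw G : ℂ)‖ = Real.exp (lw G) := norm_exp_ofReal _
  refine ext_of_eq (ψ := fun z => sig e' (sig e z)) (lam := exp (lw G))
    (ρ := fun z => ρ₁ z + dsig e z * jj e (sig e z) ^ (-s) * ρ₂ (sig e z))
    (A := fun z => dsig e z * jj e (sig e z) ^ (-s) * (dsig e' (sig e z) *
      jj e' (sig e' (sig e z)) ^ (-s) * exp (ε * (x (o + 1) - x (o - 1)))))
    hξ.1 hφ (a1.fun_add (hA.fun_mul hρ)) (hA.fun_mul (hA'.fun_mul analyticAt_const))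
    ((analyticAt_sig e' hξ'.1).comp hs) hfix
    (hl ▸ (hasDerivAt_sig e' hξ'.1).comp ξ (hasDerivAt_sig e hξ.1)) ?_ ?_ ?_ ?_
  · rw [hn]
    exact Real.one_lt_exp_iff.2 lw_pos
  · rw [hv, norm_mul, hn, sq, norm_exp]
    exact mul_lt_mul_of_pos_left (Real.exp_lt_exp.2 n2) (Real.exp_pos _)
  · rw [hv]
    exact fun a => n1 (mul_left_cancel₀ (exp_ne_zero _) (a.trans (mul_one _).symm))
  · filter_upwards [a2, hs.continuousAt.tendsto.eventually b2] with z c1 c2 hz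
    obtain ⟨c3, c4⟩ := c1 hz
    obtain ⟨c5, c6⟩ := c2 c3
    obtain ⟨N, c7⟩ := (hol_cau (b := b) (m := e) (not_mem_of_ne c5)).gd D s
    have c8 : cau D s x μ (g * sr e * sr e') e (sig e' (sig e z)) =
        exp (Th x (g * sr e * sr e') - Th x g) * cau D s x μ g e (sig e' (sig e z)) :=
      La_scale h (hom_wt _ _) c7 hcl
    refine ⟨c5, ?_⟩
    rw [c4, c6, c8, hT]
    ring

theorem cau_eq_zero (h : Fixd D s x μ) (hN : NR s x) (g : W G)
    (h0 : ∀ z : ℂ, ‖z‖ ≠ 1 → ∑ m, cau D s x μ g m z = 0) (m : L G) {z : ℂ} (hz : ‖z‖ ≠ 1) :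
    cau D s x μ g m z = 0 := by
  have s0 : ∀ m z, z ∉ arcS b m → Ext (cau D s x μ g m) z := fun m z hz =>
    Ext.of_analytic (analyticAt_cau h g hz)
  have s1 : ∀ m z, (∀ m', m' ≠ m → Ext (cau D s x μ g m') z) → Ext (cau D s x μ g m) z := by
    intro m z H
    refine (Ext.neg_sum (Finset.univ.erase m) fun i hi => H i (Finset.ne_of_mem_erase hi)).congr
      (Eventually.of_forall fun w hw => ?_)
    have := h0 w hw
    rw [← Finset.add_sum_erase _ _ (Finset.mem_univ m)] at this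
    exact eq_neg_of_add_eq_zero_left this
  have s2 : ∀ m z, (z ∈ arcS b m → ∀ k : L G, par k = b → side (xi z) (wn k) ≠ 0) →
      Ext (cau D s x μ g m) z := by
    intro m z H
    by_cases hm : z ∈ arcS b m
    · refine s1 m z fun m' h1 => s0 m' z fun h2 => ?_
      obtain ⟨k, h3, h4⟩ := arc_inter h1 h2 hm
      exact H hm k h3 h4
    · exact s0 m z hm
  have s3 : ∀ e z, par e ≠ b → Ext (cau D s x μ g e) z := by
    intro e z he
    by_cases H : z ∈ arcS b e → ∀ k : L G, par k = b → side (xi z) (wn k) ≠ 0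
    · exact s2 e z H
    · push Not at H
      obtain ⟨h1, o, h2, h3⟩ := H
      obtain ⟨e', h4, h5⟩ := exists_end he h1 h2 h3
      refine ext_end h hN g h4 he h5 ?_
      filter_upwards [nhdsNE_le_cofinite z (finite_ends (G := G)).compl_mem_cofinite] with w hw
      exact s2 e w fun h6 k _ h7 => hw ⟨norm_of_arc h6, k, h7⟩
  refine liouville (fun w => ?_) (tendsto_cau h g m) hz
  by_cases hm : par m = b
  · by_cases hw : w ∈ arcS b m
    · refine s1 m w fun m' h1 => ?_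
      by_cases hm' : par m' = b
      · exact s0 m' w (pri_disj hm hm' h1.symm hw)
      · exact s3 m' w hm'
    · exact s0 m w hw
  · exact s3 m w hm

omit hG in
theorem sub_pt (m : L G) {τ r : ℝ} (hτ : 0 < τ) (hr : 0 < r) {η : ℂ} (h : ‖τ * η‖ < 1) :
    ee m * (1 - τ * r) / (1 + τ * r) - pt (Xi τ m η) =
      2 * I * τ * ee m / (1 + τ * r) * ((r * I - η) / (1 - I * τ * η)) := by
  obtain ⟨h1, -, h3⟩ := pt_Xi m h
  have h2 : (1 + τ * r : ℂ) ≠ 0 := by
    exact_mod_cast (by positivity : (1 + τ * r : ℝ) ≠ 0)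
  rw [h3, div_sub_div _ _ h2 h1, div_mul_div_comm]
  congr 1
  linear_combination (-2 * τ * r * ee m) * I_mul_I

theorem level_zero (h : Fixd D s x μ) (g : W G) (m : L G)
    (h0 : ∀ z : ℂ, ‖z‖ ≠ 1 → cau D s x μ g m z = 0) (n : ℕ) : μ ((cl g, m), n) = 0 := by
  have hR := D.one_lt_R
  have hτ := D.τ_pos m
  have hb : ∀ η ∈ ball (0 : ℂ) D.R, ‖D.τ m * η‖ < 1 := fun η hη => by
    rw [norm_mul, norm_real, Real.norm_of_nonneg hτ.le]
    exact (mul_lt_mul_of_pos_left (by simpa using hη) hτ).trans (D.τR_lt m)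
  have hsl : ∀ η ∈ ball (0 : ℂ) D.R, 1 + (D.τ m * η) ^ 2 ∈ slitPlane := fun η hη =>
    mem_slitPlane_of_norm_lt_one (by
      rw [norm_pow]; exact pow_lt_one₀ (norm_nonneg _) (hb η hη) two_ne_zero)
  refine zero_of_cauchy μ _ hR (k := fun η => (1 + (D.τ m * η) ^ 2) ^ (-s) * (1 - I * D.τ m * η))
    (fun η hη => (DifferentiableAt.mul (DifferentiableAt.cpow_const
      (f := fun η => 1 + (D.τ m * η) ^ 2) (by fun_prop) (hsl η hη))
      (by fun_prop)).differentiableWithinAt)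
    (fun η hη => mul_ne_zero (fun a => slitPlane_ne_zero (hsl η hη) ((cpow_eq_zero_iff _ _).1 a).1)
      (pt_Xi m (hb η hη)).1) (fun r hr => ?_) n
  have hr0 : 0 < r := by linarith
  have h2 : (1 + D.τ m * r : ℂ) ≠ 0 := by
    exact_mod_cast (by positivity : (1 + D.τ m * r : ℝ) ≠ 0)
  have hc : 2 * I * D.τ m * ee m / (1 + D.τ m * r) ≠ 0 :=
    div_ne_zero (mul_ne_zero (mul_ne_zero (mul_ne_zero two_ne_zero I_ne_zero)
      (ofReal_ne_zero.2 hτ.ne')) (ne_zero_of (norm_ee m))) h2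
  have hz : ‖ee m * (1 - D.τ m * r) / (1 + D.τ m * r)‖ ≠ 1 := by
    have e1 : ((1 - D.τ m * r : ℝ) : ℂ) = 1 - D.τ m * r := by push_cast; rfl
    have e2 : ((1 + D.τ m * r : ℝ) : ℂ) = 1 + D.τ m * r := by push_cast; rfl
    have e3 := mul_pos hτ hr0
    rw [norm_div, norm_mul, norm_ee, one_mul, ← e1, ← e2, norm_real, norm_real,
      Real.norm_of_nonneg (by linarith : 0 ≤ 1 + D.τ m * r)]
    refine ((div_lt_one (by linarith)).2 ?_).ne
    rw [Real.norm_eq_abs, abs_lt]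
    constructor <;> linarith
  have hg : Gd D 0 m (wt s fun y => (ee m * (1 - D.τ m * r) / (1 + D.τ m * r) - y)⁻¹) := by
    intro u h1 h3 h4 η hη
    have hu : u ≠ [] := by rintro rfl; simp at h4
    have a1 := slit_lift D h1 hu hη
    obtain ⟨c, a2, η', a3, a4⟩ := lift_chart D h1 hu hη
    have a5 := D.diff_lift u η
    have a7 : DifferentiableAt ℂ (fun η => pt (D.lift u η)) η := by
      simp only [pt, div_eq_mul_inv]
      exact a5.snd.fst.mul (a5.fst.inv (slitPlane_ne_zero a1))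
    refine DifferentiableAt.differentiableWithinAt ?_
    simp only [wt, br_oo_right]
    refine (a5.fst.cpow_const a1).mul ((a7.const_sub _).inv ?_)
    rw [a4, pt_smul a2, h3, sub_pt m hτ hr0 (hb η' a3)]
    refine mul_ne_zero hc (div_ne_zero (sub_ne_zero.2 ?_) (pt_Xi m (hb η' a3)).1)
    rintro rfl
    rw [mem_ball_zero_iff, norm_mul, norm_I, mul_one, norm_real, Real.norm_of_nonneg hr0.le] at a3
    linarith
  have h3 := h0 _ hz
  rw [cau, La, piece_eq_lev h (hom_comp (hom_wt _ _) (iso_lin _)) (hg.good g) le_rfl,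
    levG_zero, mul_eq_zero] at h3
  have h4 := congrArg (fun t => 2 * I * D.τ m * ee m / (1 + D.τ m * r) * t)
    (h3.resolve_left (exp_ne_zero _))
  simp only [mul_zero] at h4
  rw [← ev_const_mul] at h4
  rw [← h4]
  refine ev_congr μ _ fun η hη => ?_
  have h5 : η ∈ ball (0 : ℂ) D.R := by rw [mem_ball_zero_iff, hη]; exact hR
  rw [lin_inv_lin, wt, br_oo_right, Xi_fst, sub_pt m hτ hr0 (hb η h5)]
  generalize 2 * I * D.τ m * ee m / (1 + D.τ m * r) = c at hc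
  rw [mul_inv, inv_div, div_eq_mul_inv, mul_left_comm c, mul_inv_cancel_left₀ hc, mul_assoc]

end Inj

theorem eq_zero_of_cauchy (h : Fixd D s x μ) (hN : NR s x)
    (h0 : ∀ (g : W G) (z : ℂ), ‖z‖ ≠ 1 →
      ∑ m, piece D x μ g m (fun E => cauF s z (lin g⁻¹ E)) = 0) : μ = 0 := by
  ext ⟨⟨q, m⟩, n⟩
  have := Inj.level_zero h (sec q) m
    (fun z hz => Inj.cau_eq_zero h hN (sec q) (h0 (sec q)) m hz) n
  rwa [cl_sec] at this

end Pool.Agent.Lib.MP_de7bb2_an
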