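import Pool.Agent.Lib.MP_de7bb2_an.H20Ev

/-! One variable complex analysis used in the injectivity proof. -/

namespace Pool.Agent.Lib.MP_de7bb2_an

namespace Inj

open Metric Set Complex Filter Topology

theorem freq_ne (z : ℂ) : ∃ᶠ w in 𝓝 z, ‖w‖ ≠ 1 := by
  intro h
  have h1 : sphere (0 : ℂ) 1 ∈ 𝓝 z := h.mono fun w hw => by simpa using hw
  have h2 := mem_interior_iff_mem_nhds.2 h1
  rw [interior_sphere _ one_ne_zero] at h2
  exact h2

theorem eq_of_off {f g : ℂ → ℂ} {z : ℂ} (hf : ContinuousAt f z) (hg : ContinuousAt g z)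
    (h : ∀ᶠ w in 𝓝 z, ‖w‖ ≠ 1 → f w = g w) : f z = g z :=
  tendsto_nhds_unique_of_frequently_eq hf hg
    (((freq_ne z).and_eventually h).mono fun _ hw => hw.2 hw.1)

/-- `φ`, considered off the unit circle, continues analytically to a neighbourhood of `z`. -/
def Ext (φ : ℂ → ℂ) (z : ℂ) : Prop :=
  ∃ ψ, AnalyticAt ℂ ψ z ∧ ∀ᶠ w in 𝓝 z, ‖w‖ ≠ 1 → φ w = ψ w

open Classical in
noncomputable def xt (φ : ℂ → ℂ) (z : ℂ) : ℂ := if h : Ext φ z then h.choose z else 0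

variable {φ ψ ρ A : ℂ → ℂ} {z ξ lam : ℂ}

theorem Ext.spec (h : Ext φ z) :
    AnalyticAt ℂ (xt φ) z ∧ ∀ᶠ w in 𝓝 z, ‖w‖ ≠ 1 → φ w = xt φ w := by
  obtain ⟨ψ, ha, he⟩ := h
  have key : ψ =ᶠ[𝓝 z] xt φ := by
    filter_upwards [ha.eventually_analyticAt, he.eventually_nhds] with w h1 h2
    have hw : Ext φ w := ⟨ψ, h1, h2⟩
    rw [xt, dif_pos hw]
    refine eq_of_off h1.continuousAt hw.choose_spec.1.continuousAt ?_
    filter_upwards [h2, hw.choose_spec.2] with v h3 h4 hv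
    rw [← h3 hv, ← h4 hv]
  refine ⟨ha.congr key, ?_⟩
  filter_upwards [he, key] with w h1 h2 hw
  rw [h1 hw, h2]

theorem Ext.of_analytic (h : AnalyticAt ℂ φ z) : Ext φ z :=
  ⟨φ, h, Eventually.of_forall fun _ _ => rfl⟩

theorem Ext.congr (h : Ext φ z) (he : ∀ᶠ w in 𝓝 z, ‖w‖ ≠ 1 → ψ w = φ w) : Ext ψ z := by
  obtain ⟨χ, ha, h1⟩ := h
  refine ⟨χ, ha, ?_⟩
  filter_upwards [h1, he] with w h2 h3 hw
  rw [h3 hw, h2 hw]

theorem Ext.neg_sum {ι : Type*} (t : Finset ι) {f : ι → ℂ → ℂ} (h : ∀ i ∈ t, Ext (f i) z) :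
    Ext (fun w => -∑ i ∈ t, f i w) z := by
  refine ⟨fun w => -∑ i ∈ t, xt (f i) w, ?_, ?_⟩
  · exact (Finset.analyticAt_fun_sum t fun i hi => (h i hi).spec.1).neg
  · have := (Finset.eventually_all t).2 fun i hi => (h i hi).spec.2
    filter_upwards [this] with w h1 hw
    rw [Finset.sum_congr rfl fun i hi => h1 i hi hw]

theorem liouville (h : ∀ z, Ext φ z) (h0 : Tendsto φ (cocompact ℂ) (𝓝 0)) (hz : ‖z‖ ≠ 1) :
    φ z = 0 := by
  have hd : Differentiable ℂ (xt φ) := fun w => (h w).spec.1.differentiableAt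
  have he : ∀ w, ‖w‖ ≠ 1 → φ w = xt φ w := fun w hw => (h w).spec.2.self_of_nhds hw
  have h1 : Tendsto (xt φ) (cocompact ℂ) (𝓝 0) := by
    refine h0.congr' ?_
    filter_upwards [(isCompact_sphere (0 : ℂ) 1).compl_mem_cocompact] with w hw
    exact he w (by simpa using hw)
  rw [he z hz, hd.apply_eq_of_tendsto_cocompact z h1]

theorem lim_of_small (hd : ∀ᶠ z in 𝓝[≠] ξ, DifferentiableAt ℂ φ z)
    (h : Tendsto (fun z => (z - ξ) * φ z) (𝓝[≠] ξ) (𝓝 0)) : ∃ c, Tendsto φ (𝓝[≠] ξ) (𝓝 c) := by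
  refine ⟨_, tendsto_limUnder_of_differentiable_on_punctured_nhds_of_isLittleO hd ?_⟩
  have hne : ∀ᶠ z in 𝓝[≠] ξ, z - ξ ≠ 0 :=
    eventually_mem_nhdsWithin.mono fun z hz => sub_ne_zero.2 hz
  rw [Asymptotics.isLittleO_iff_tendsto' (hne.mono fun z hz h0 => absurd (inv_eq_zero.1 h0) hz)]
  have h1 : Tendsto (fun z => (z - ξ) * φ ξ) (𝓝[≠] ξ) (𝓝 0) := by
    have : Tendsto (fun z => (z - ξ) * φ ξ) (𝓝 ξ) (𝓝 ((ξ - ξ) * φ ξ)) :=
      Continuous.tendsto (by fun_prop) ξ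
    simpa using this.mono_left nhdsWithin_le_nhds
  have h2 := h.sub h1
  rw [sub_zero] at h2
  refine h2.congr fun z => ?_
  rw [div_inv_eq_mul]
  ring

theorem tendsto_sl (hψ0 : ψ ξ = ξ) (hψ : HasDerivAt ψ lam ξ) :
    Tendsto (fun z => (ψ z - ξ) / (z - ξ)) (𝓝[≠] ξ) (𝓝 lam) := by
  refine (hasDerivAt_iff_tendsto_slope.1 hψ).congr fun z => ?_
  rw [slope_def_field, hψ0]

theorem tendsto_punct (hψ0 : ψ ξ = ξ) (hψ : HasDerivAt ψ lam ξ) (h : lam ≠ 0) :
    Tendsto ψ (𝓝[≠] ξ) (𝓝[≠] ξ) := by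
  refine tendsto_nhdsWithin_iff.2 ⟨?_, ?_⟩
  · have := hψ.continuousAt.tendsto
    rw [hψ0] at this
    exact this.mono_left nhdsWithin_le_nhds
  · filter_upwards [(tendsto_sl hψ0 hψ).eventually_ne h] with z hz h0
    apply hz
    rw [show ψ z = ξ from h0, sub_self, zero_div]

theorem lim_zero (hρ : ContinuousAt ρ ξ) (hA : ContinuousAt A ξ) (hψ0 : ψ ξ = ξ)
    (hψ : HasDerivAt ψ lam ξ) (h : lam ≠ 0) (he : ∀ᶠ z in 𝓝[≠] ξ, φ z = ρ z + A z * φ (ψ z))
    (k : ℕ) (hk : A ξ ≠ lam ^ (k + 1)) {c : ℂ}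
    (hc : Tendsto (fun z => (z - ξ) ^ (k + 1) * φ z) (𝓝[≠] ξ) (𝓝 c)) : c = 0 := by
  have h1 : Tendsto (fun z => (z - ξ) ^ (k + 1) * ρ z) (𝓝[≠] ξ) (𝓝 0) := by
    have : ContinuousAt (fun z => (z - ξ) ^ (k + 1) * ρ z) ξ := by fun_prop
    simpa using this.tendsto.mono_left nhdsWithin_le_nhds
  have h2 := hc.comp (tendsto_punct hψ0 hψ h)
  have h3 := ((hA.tendsto.mono_left nhdsWithin_le_nhds).div
    ((tendsto_sl hψ0 hψ).pow (k + 1)) (pow_ne_zero _ h)).mul h2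
  have h4 := h1.add h3
  have h5 : c = 0 + A ξ / lam ^ (k + 1) * c := by
    refine tendsto_nhds_unique hc (h4.congr' ?_)
    filter_upwards [he, (tendsto_punct hψ0 hψ h).eventually eventually_mem_nhdsWithin,
      eventually_mem_nhdsWithin] with z e1 e2 e3
    have e4 : ψ z - ξ ≠ 0 := sub_ne_zero.2 e2
    have e5 : z - ξ ≠ 0 := sub_ne_zero.2 e3
    simp only [Pi.div_apply, Function.comp]
    rw [e1, div_pow]
    field_simp
  have h6 : (lam ^ (k + 1) - A ξ) * c = 0 := by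
    have := pow_ne_zero (k + 1) h
    field_simp at h5
    linear_combination h5
  exact (mul_eq_zero.1 h6).resolve_left (sub_ne_zero.2 hk.symm)

theorem bdd_of_eq {v B τ : ℂ → ℂ} {θ : ℝ} (hθ : θ < 1) (hd : ∀ᶠ z in 𝓝[≠] ξ, ContinuousAt v z)
    (hψ0 : ψ ξ = ξ) (hψ : HasDerivAt ψ lam ξ) (h1 : 1 < ‖lam‖)
    (he : ∀ᶠ z in 𝓝[≠] ξ, v z = τ z + B z * v (ψ z) ∧ ‖τ z‖ ≤ 1 ∧ ‖B z‖ ≤ θ) :
    ∃ M, ∀ᶠ z in 𝓝[≠] ξ, ‖v z‖ ≤ M := by
  obtain ⟨κ, hκ1, hκ2⟩ := exists_between h1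
  have hs := (tendsto_sl hψ0 hψ).norm
  have h2 := (hd.and he).and ((hs.eventually (lt_mem_nhds hκ2)).and
    (hs.eventually (gt_mem_nhds (lt_add_one ‖lam‖))))
  obtain ⟨r0, hr0, H⟩ := Metric.eventually_nhds_iff.1 (eventually_nhdsWithin_iff.1 h2)
  set Λ := ‖lam‖ + 1 with hΛ
  have hΛ1 : 1 < Λ := by linarith
  set r := r0 / (2 * Λ) with hr
  have hrp : 0 < r := by positivity
  have hΛr : Λ * r < r0 := by
    have : Λ * r = r0 / 2 := by rw [hr]; field_simp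
    linarith
  have hrΛ : r ≤ Λ * r := by nlinarith
  have H' : ∀ z, 0 < ‖z - ξ‖ → ‖z - ξ‖ ≤ Λ * r → _ := fun z h0 hz =>
    H (y := z) (by rw [dist_eq_norm]; linarith) (sub_ne_zero.1 (norm_pos_iff.1 h0))
  have hK : IsCompact (closedBall ξ (Λ * r) \ ball ξ r) := (isCompact_closedBall _ _).diff isOpen_ball
  obtain ⟨M, hM⟩ := hK.exists_bound_of_continuousOn (f := v) fun z hz => by
    have a1 : ‖z - ξ‖ ≤ Λ * r := by simpa [dist_eq_norm] using hz.1
    have a2 : r ≤ ‖z - ξ‖ := by simpa [dist_eq_norm] using hz.2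
    exact (H' z (by linarith) a1).1.1.continuousWithinAt
  set M' := max M (1 - θ)⁻¹ with hM'
  have hM1 : 1 + θ * M' ≤ M' := by
    have a1 : (1 - θ)⁻¹ ≤ M' := le_max_right _ _
    have a2 : 0 < 1 - θ := by linarith
    have a3 := mul_le_mul_of_nonneg_left a1 a2.le
    rw [mul_inv_cancel₀ a2.ne'] at a3
    linarith
  have base : ∀ z, r ≤ ‖z - ξ‖ → ‖z - ξ‖ ≤ Λ * r → ‖v z‖ ≤ M' := fun z a1 a2 =>
    (hM z ⟨by simpa [dist_eq_norm] using a2, by simpa [dist_eq_norm] using a1⟩).trans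
      (le_max_left _ _)
  have ind : ∀ (n : ℕ) z, r ≤ κ ^ n * ‖z - ξ‖ → ‖z - ξ‖ ≤ Λ * r → ‖v z‖ ≤ M' := by
    intro n
    induction n with
    | zero => intro z a1; exact base z (by simpa using a1)
    | succ n ih =>
      intro z a1 a2
      rcases le_or_gt r ‖z - ξ‖ with a3 | a3
      · exact base z a3 a2
      have a0 : 0 < ‖z - ξ‖ := by
        rcases (norm_nonneg (z - ξ)).eq_or_lt with a | a
        · rw [← a] at a1; linarith
        · exact a
      obtain ⟨⟨-, b1, b2, b3⟩, b4, b5⟩ := H' z a0 a2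
      rw [norm_div] at b4 b5
      rw [lt_div_iff₀ a0] at b4
      rw [div_lt_iff₀ a0] at b5
      have b6 := ih (ψ z) (by
        have : 0 < κ ^ n := by positivity
        rw [pow_succ] at a1
        nlinarith) (by nlinarith)
      rw [b1]
      refine (norm_add_le _ _).trans (le_trans ?_ hM1)
      rw [norm_mul]
      have := mul_le_mul b3 b6 (norm_nonneg _) ((norm_nonneg _).trans b3)
      linarith
  refine ⟨M', eventually_nhdsWithin_iff.2 (Metric.eventually_nhds_iff.2 ⟨r, hrp, ?_⟩)⟩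
  intro z hz h0
  rw [dist_eq_norm] at hz
  have a0 : 0 < ‖z - ξ‖ := norm_pos_iff.2 (sub_ne_zero.2 h0)
  obtain ⟨n, hn⟩ := pow_unbounded_of_one_lt (r / ‖z - ξ‖) hκ1
  exact ind n z ((div_lt_iff₀ a0).1 hn).le (by linarith)

theorem removable (hd : ∀ᶠ z in 𝓝[≠] ξ, DifferentiableAt ℂ φ z) (hρ : ContinuousAt ρ ξ)
    (hA : ContinuousAt A ξ) (hψ0 : ψ ξ = ξ) (hψ : HasDerivAt ψ lam ξ) (h1 : 1 < ‖lam‖)
    (h2 : ‖A ξ‖ < ‖lam‖ ^ 2) (h3 : A ξ ≠ lam)
    (he : ∀ᶠ z in 𝓝[≠] ξ, φ z = ρ z + A z * φ (ψ z)) : ∃ c, Tendsto φ (𝓝[≠] ξ) (𝓝 c) := by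
  have hl : lam ≠ 0 := norm_pos_iff.1 (by linarith)
  have hdk : ∀ k : ℕ, ∀ᶠ z in 𝓝[≠] ξ, DifferentiableAt ℂ (fun z => (z - ξ) ^ k * φ z) z :=
    fun k => hd.mono fun z hz => by fun_prop
  have hlt : ‖A ξ / lam ^ 2‖ < 1 := by
    rw [norm_div, norm_pow, div_lt_one (by positivity)]; exact h2
  obtain ⟨θ, hθ1, hθ2⟩ := exists_between hlt
  have hz0 : Tendsto (fun z => z - ξ) (𝓝[≠] ξ) (𝓝 0) := by
    have : Tendsto (fun z => z - ξ) (𝓝 ξ) (𝓝 (ξ - ξ)) := Continuous.tendsto (by fun_prop) ξ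
    simpa using this.mono_left nhdsWithin_le_nhds
  obtain ⟨M, hM⟩ : ∃ M, ∀ᶠ z in 𝓝[≠] ξ, ‖(z - ξ) ^ 2 * φ z‖ ≤ M := by
    refine bdd_of_eq (τ := fun z => (z - ξ) ^ 2 * ρ z)
      (B := fun z => A z / ((ψ z - ξ) / (z - ξ)) ^ 2) hθ2
      ((hdk 2).mono fun z hz => hz.continuousAt) hψ0 hψ h1 ?_
    have a1 : Tendsto (fun z => ‖(z - ξ) ^ 2 * ρ z‖) (𝓝[≠] ξ) (𝓝 0) := by
      simpa using ((hz0.pow 2).mul (hρ.tendsto.mono_left nhdsWithin_le_nhds)).norm
    have a2 := ((hA.tendsto.mono_left nhdsWithin_le_nhds).div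
      ((tendsto_sl hψ0 hψ).pow 2) (pow_ne_zero _ hl)).norm
    filter_upwards [he, (tendsto_punct hψ0 hψ hl).eventually eventually_mem_nhdsWithin,
      eventually_mem_nhdsWithin, a1.eventually (gt_mem_nhds one_pos),
      a2.eventually (gt_mem_nhds hθ1)] with z e1 e2 e3 e6 e7
    have e4 : ψ z - ξ ≠ 0 := sub_ne_zero.2 e2
    have e5 : z - ξ ≠ 0 := sub_ne_zero.2 e3
    refine ⟨?_, e6.le, e7.le⟩
    rw [e1, div_pow]
    field_simp
  obtain ⟨c2, hc2⟩ := lim_of_small (hdk 2) (by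
    refine squeeze_zero_norm' (a := fun z => ‖z - ξ‖ * M) ?_ (by simpa using hz0.norm.mul_const M)
    filter_upwards [hM] with z hz
    rw [norm_mul]
    exact mul_le_mul_of_nonneg_left hz (norm_nonneg _))
  have hc2' : c2 = 0 := lim_zero hρ hA hψ0 hψ hl he 1
    (fun h => by rw [h, norm_pow] at h2; exact lt_irrefl _ h2) hc2
  obtain ⟨c1, hc1⟩ := lim_of_small (hdk 1) (by
    rw [hc2'] at hc2
    exact hc2.congr fun z => by ring)
  have hc1' : c1 = 0 := lim_zero hρ hA hψ0 hψ hl he 0 (by simpa using h3) hc1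
  refine lim_of_small hd ?_
  rw [hc1'] at hc1
  simpa using hc1

theorem ext_of_eq (hξ : ‖ξ‖ = 1) (hφ : ∀ᶠ z in 𝓝[≠] ξ, Ext φ z) (hρ : AnalyticAt ℂ ρ ξ)
    (hA : AnalyticAt ℂ A ξ) (hψa : AnalyticAt ℂ ψ ξ) (hψ0 : ψ ξ = ξ) (hψ : HasDerivAt ψ lam ξ)
    (h1 : 1 < ‖lam‖) (h2 : ‖A ξ‖ < ‖lam‖ ^ 2) (h3 : A ξ ≠ lam)
    (he : ∀ᶠ z in 𝓝 ξ, ‖z‖ ≠ 1 → ‖ψ z‖ ≠ 1 ∧ φ z = ρ z + A z * φ (ψ z)) : Ext φ ξ := by
  have hl : lam ≠ 0 := norm_pos_iff.1 (by linarith)
  have hd : ∀ᶠ z in 𝓝[≠] ξ, DifferentiableAt ℂ (xt φ) z :=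
    hφ.mono fun z hz => hz.spec.1.differentiableAt
  obtain ⟨c, hc⟩ : ∃ c, Tendsto (xt φ) (𝓝[≠] ξ) (𝓝 c) := by
    refine removable hd hρ.continuousAt hA.continuousAt hψ0 hψ h1 h2 h3 ?_
    filter_upwards [hφ, (tendsto_punct hψ0 hψ hl).eventually hφ,
      nhdsWithin_le_nhds hρ.eventually_analyticAt, nhdsWithin_le_nhds hA.eventually_analyticAt,
      nhdsWithin_le_nhds hψa.eventually_analyticAt, nhdsWithin_le_nhds he.eventually_nhds]
      with z a1 a2 a3 a4 a5 a6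
    have a7 : ContinuousAt (fun w => xt φ (ψ w)) z :=
      ContinuousAt.comp (f := ψ) a2.spec.1.continuousAt a5.continuousAt
    refine eq_of_off (g := fun z => ρ z + A z * xt φ (ψ z)) a1.spec.1.continuousAt
      (a3.continuousAt.add (a4.continuousAt.mul a7)) ?_
    filter_upwards [a1.spec.2, a5.continuousAt.tendsto.eventually a2.spec.2, a6] with w b1 b2 b3 hw
    rw [← b1 hw, ← b2 (b3 hw).1, (b3 hw).2]
  refine ⟨Function.update (xt φ) ξ c, ?_, ?_⟩
  · refine analyticAt_of_differentiable_on_punctured_nhds_of_continuousAt ?_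
      (continuousAt_update_same.2 hc)
    filter_upwards [hd, eventually_mem_nhdsWithin] with z a1 a2
    refine a1.congr_of_eventuallyEq ?_
    filter_upwards [isOpen_ne.mem_nhds (show z ≠ ξ from a2)] with w hw
    exact Function.update_of_ne hw _ _
  · filter_upwards [eventually_nhdsWithin_iff.1 hφ] with w a1 hw
    have : w ≠ ξ := fun h => hw (h ▸ hξ)
    rw [Function.update_of_ne this]
    exact (a1 this).spec.2.self_of_nhds hw

/-- Holomorphic in a neighbourhood of the point. -/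
def HolAt (f : ℂ × ℂ → ℂ) (p : ℂ × ℂ) : Prop := ∀ᶠ q in 𝓝 p, DifferentiableAt ℂ f q

theorem HolAt.of_analytic {f : ℂ × ℂ → ℂ} {p : ℂ × ℂ} (h : AnalyticAt ℂ f p) : HolAt f p :=
  h.eventually_analyticAt.mono fun _ hq => hq.differentiableAt

theorem holAt_dslope {J : ℂ → ℂ} {w y : ℂ} (hw : AnalyticAt ℂ J w) (hy : AnalyticAt ℂ J y) :
    HolAt (fun p => dslope J p.1 p.2) (w, y) := by
  by_cases h : y = w
  · subst h
    obtain ⟨r, hr, H⟩ := Metric.eventually_nhds_iff_ball.1 hw.eventually_analyticAt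
    have hf : DifferentiableOn ℂ (fun q : ℂ × ℂ => J (q.2 + q.1))
        (ball 0 (2 * (r / 3)) ×ˢ ball y (r / 3)) := by
      intro q hq
      have a1 : ‖q.1‖ < 2 * (r / 3) := by simpa using hq.1
      have a2 : ‖q.2 - y‖ < r / 3 := by simpa [dist_eq_norm] using hq.2
      have a3 : q.2 + q.1 ∈ ball y r := by
        rw [mem_ball, dist_eq_norm, show q.2 + q.1 - y = q.2 - y + q.1 by ring]
        exact (norm_add_le _ _).trans_lt (by linarith)
      exact ((H _ a3).differentiableAt.comp q (by fun_prop)).differentiableWithinAt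
    obtain ⟨Y, hY, hE⟩ := Tool.exists_slope isOpen_ball hf
    have ho : IsOpen (ball (0 : ℂ) (2 * (r / 3)) ×ˢ ball y (r / 3)) := isOpen_ball.prod isOpen_ball
    have hm : ∀ q ∈ ball y (r / 3) ×ˢ ball y (r / 3),
        (q.2 - q.1, q.1) ∈ ball (0 : ℂ) (2 * (r / 3)) ×ˢ ball y (r / 3) := by
      intro q hq
      refine ⟨?_, hq.1⟩
      have a1 : ‖q.1 - y‖ < r / 3 := by simpa [dist_eq_norm] using hq.1
      have a2 : ‖q.2 - y‖ < r / 3 := by simpa [dist_eq_norm] using hq.2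
      rw [mem_ball_zero_iff, show q.2 - q.1 = q.2 - y - (q.1 - y) by ring]
      exact (norm_sub_le _ _).trans_lt (by linarith)
    have hq : ∀ q ∈ ball y (r / 3) ×ˢ ball y (r / 3), dslope J q.1 q.2 = Y (q.2 - q.1, q.1) := by
      intro q hq
      by_cases e : q.2 = q.1
      · rw [e, dslope_same, sub_self]
        have a0 : (0 : ℂ) ∈ ball (0 : ℂ) (2 * (r / 3)) := mem_ball_self (by positivity)
        have a1 : DifferentiableAt ℂ (fun t : ℂ => Y (t - q.1, q.1)) q.1 := by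
          have := (hY (0, q.1) ⟨a0, hq.1⟩).differentiableAt (ho.mem_nhds ⟨a0, hq.1⟩)
          exact DifferentiableAt.comp (f := fun t : ℂ => (t - q.1, q.1)) q.1
            (by simpa using this) (by fun_prop)
        have a2 := (((hasDerivAt_id q.1).sub_const q.1).mul a1.hasDerivAt).const_add (J q.1)
        have a3 : J =ᶠ[𝓝 q.1] fun t => J q.1 + (t - q.1) * Y (t - q.1, q.1) := by
          filter_upwards [isOpen_ball.mem_nhds hq.1] with t ht
          simpa using hE q.1 hq.1 (t - q.1) (hm (q.1, t) ⟨hq.1, ht⟩).1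
        simpa using (a2.congr_of_eventuallyEq a3).deriv
      · have := hE q.1 hq.1 _ (hm q hq).1
        simp only [add_sub_cancel, add_zero] at this
        rw [dslope_of_ne _ e, slope_def_field, this]
        have := sub_ne_zero.2 e
        field_simp
        ring
    have ho' : IsOpen (ball y (r / 3) ×ˢ ball y (r / 3)) := isOpen_ball.prod isOpen_ball
    have h0 : y ∈ ball y (r / 3) := mem_ball_self (by positivity)
    filter_upwards [ho'.mem_nhds (show (y, y) ∈ _ from ⟨h0, h0⟩)] with q hq'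
    have a1 : DifferentiableAt ℂ (fun q : ℂ × ℂ => Y (q.2 - q.1, q.1)) q :=
      DifferentiableAt.comp (f := fun q : ℂ × ℂ => (q.2 - q.1, q.1)) q
        ((hY _ (hm q hq')).differentiableAt (ho.mem_nhds (hm q hq'))) (by fun_prop)
    exact a1.congr_of_eventuallyEq (Eventually.mono (ho'.mem_nhds hq') hq)
  · have ho : IsOpen {q : ℂ × ℂ | q.2 ≠ q.1} := isOpen_ne_fun continuous_snd continuous_fst
    have a1 : AnalyticAt ℂ (fun q : ℂ × ℂ => (J q.2 - J q.1) / (q.2 - q.1)) (w, y) :=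
      ((hy.comp_of_eq analyticAt_snd rfl).sub (hw.comp_of_eq analyticAt_fst rfl)).div
        (analyticAt_snd.sub analyticAt_fst) (sub_ne_zero.2 h)
    refine HolAt.of_analytic (a1.congr ?_)
    filter_upwards [ho.mem_nhds (show (w, y) ∈ _ from h)] with q hq
    rw [dslope_of_ne _ hq, slope_def_field]

theorem zero_of_cauchy {S : Type*} (μ : Vec (S × ℕ)) (σ : S) {R : ℝ} (hR : 1 < R) {k : ℂ → ℂ}
    (hd : DifferentiableOn ℂ k (ball 0 R)) (hne : ∀ η ∈ ball (0 : ℂ) R, k η ≠ 0)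
    (h : ∀ r : ℝ, R ≤ r → ev μ σ (fun η => k η * (r * I - η)⁻¹) = 0) (n : ℕ) : μ (σ, n) = 0 := by
  have hs : sphere (0 : ℂ) 1 ⊆ ball 0 R := sphere_subset_ball hR
  have hk : ContinuousOn k (sphere 0 1) := hd.continuousOn.mono hs
  obtain ⟨M, hM⟩ := EvT.bdd hk
  have hlb : ∀ r : ℝ, ∀ η : ℂ, ‖η‖ = 1 → r - 1 ≤ ‖r * I - η‖ := fun r η hη => by
    have := norm_sub_norm_le (r * I) η
    rw [norm_mul, norm_I, mul_one, norm_real, hη] at this
    exact le_trans (by linarith [le_abs_self r, Real.norm_eq_abs r]) this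
  have hn0 : ∀ r : ℝ, R ≤ r → ∀ η ∈ sphere (0 : ℂ) 1, r * I - η ≠ 0 := fun r hr η hη =>
    norm_pos_iff.1 (lt_of_lt_of_le (by linarith) (hlb r η (by simpa using hη)))
  have hc : ∀ (j : ℕ) (r : ℝ), R ≤ r →
      ContinuousOn (fun η => k η * η ^ j * (r * I - η)⁻¹) (sphere 0 1) := fun j r hr =>
    (hk.mul (by fun_prop)).mul (ContinuousOn.inv₀ (by fun_prop) (hn0 r hr))
  have step : ∀ (j : ℕ) (r : ℝ), R ≤ r → ev μ σ (fun η => k η * η ^ (j + 1) * (r * I - η)⁻¹) =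
      r * I * ev μ σ (fun η => k η * η ^ j * (r * I - η)⁻¹) - ev μ σ fun η => k η * η ^ j := by
    intro j r hr
    have a1 : ContinuousOn (fun η => r * I * (k η * η ^ j * (r * I - η)⁻¹)) (sphere 0 1) :=
      continuousOn_const.mul (hc j r hr)
    have a2 : ContinuousOn (fun η => k η * η ^ j) (sphere 0 1) := hk.mul (by fun_prop)
    rw [← ev_const_mul, ← ev_sub μ σ a1 a2]
    refine ev_congr μ σ fun η hη => ?_
    have := hn0 r hr η (by simpa using hη)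
    field_simp
    ring
  have lim : ∀ j : ℕ, Tendsto (fun r : ℝ => ev μ σ fun η => k η * η ^ j * (r * I - η)⁻¹) atTop
      (𝓝 0) := by
    intro j
    refine squeeze_zero_norm' (a := fun r => ‖μ‖ * (M * (r - 1)⁻¹)) ?_ ?_
    · filter_upwards [eventually_ge_atTop R] with r hr
      refine norm_ev_le μ σ fun η hη => ?_
      rw [norm_mul, norm_mul, norm_pow, hη, one_pow, mul_one, norm_inv]
      exact mul_le_mul (hM η hη) (inv_anti₀ (by linarith) (hlb r η hη)) (by positivity)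
        ((norm_nonneg _).trans (hM η hη))
    · have := (tendsto_inv_atTop_zero.comp (tendsto_atTop_add_const_right atTop (-1 : ℝ)
        tendsto_id)).const_mul M |>.const_mul ‖μ‖
      simpa [sub_eq_add_neg, Function.comp_def] using this
  have mom : ∀ j : ℕ, (∀ r : ℝ, R ≤ r → ev μ σ (fun η => k η * η ^ j * (r * I - η)⁻¹) = 0) →
      ev μ σ (fun η => k η * η ^ j) = 0 := by
    intro j hj
    have := (lim (j + 1)).congr' (f₂ := fun _ => -ev μ σ fun η => k η * η ^ j) (by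
      filter_upwards [eventually_ge_atTop R] with r hr
      rw [step j r hr, hj r hr]; ring)
    exact neg_eq_zero.1 (tendsto_const_nhds_iff.1 this)
  have all : ∀ (j : ℕ) (r : ℝ), R ≤ r → ev μ σ (fun η => k η * η ^ j * (r * I - η)⁻¹) = 0 := by
    intro j
    induction j with
    | zero => simpa using h
    | succ j ih => intro r hr; rw [step j r hr, ih r hr, mom j ih]; ring
  have hH : DifferentiableOn ℂ (fun η => η ^ n / k η) (ball 0 R) :=
    DifferentiableOn.div (by fun_prop) hd hne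
  have hsum : Summable fun j => ‖coef (fun η => η ^ n / k η) j‖ * M := by
    have := (hasSum_coef hR hH (y := 1) (by simpa using hR)).summable
    simp only [one_pow, mul_one] at this
    exact (summable_norm_iff.2 this).mul_right M
  have h1 := hasSum_ev μ σ (F := fun j η => coef (fun η => η ^ n / k η) j * (k η * η ^ j)) hsum
    (fun j => continuousOn_const.mul (hk.mul (by fun_prop))) (fun j η hη => by
      rw [norm_mul, norm_mul, norm_pow, hη, one_pow, mul_one]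
      exact mul_le_mul_of_nonneg_left (hM η hη) (norm_nonneg _))
  simp only [ev_const_mul, fun j => mom j (all j), mul_zero] at h1
  rw [← ev_pow μ σ n, hasSum_zero.unique h1]
  refine ev_congr μ σ fun η hη => ?_
  have hb : η ∈ ball (0 : ℂ) R := hs (by simpa using hη)
  have h2 := (hasSum_coef hR hH hb).mul_left (k η)
  rw [mul_div_cancel₀ _ (hne η hb)] at h2
  rw [← h2.tsum_eq]
  exact tsum_congr fun j => by ring

end Inj

end Pool.Agent.Lib.MP_de7bb2_an
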