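import Pool.Agent.Lib.MP_de7bb2_an.H20Word

/-! The mirrors as Moebius maps near the unit circle and the end points of the arcs. -/

namespace Pool.Agent.Lib.MP_de7bb2_an

namespace Inj

open Metric Set Complex Filter Topology ComplexConjugate

variable {G : ℕ} [hG : Fact (2 ≤ G)] {b : ZMod 2} {m m' o e e' : L G} {y z : ℂ}

def arcS (b : ZMod 2) (m : L G) : Set ℂ := {y | Arc b m (xi y)}

omit hG in
theorem norm_of_arc (h : y ∈ arcS b m) : ‖y‖ = 1 := by
  simpa using h.1.norm_pt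

omit hG in
theorem isCompact_arcS (b : ZMod 2) (m : L G) : IsCompact (arcS b m) := by
  have hc : ContinuousOn (fun y => side (xi y) (NN m (ca b m))) (sphere 0 1) := by
    have : ContinuousOn xi (sphere 0 1) :=
      continuousOn_const.prodMk (continuousOn_id.prodMk (continuousOn_inv₀.mono fun y hy h0 => by
        rw [mem_singleton_iff.1 h0] at hy; simp at hy))
    exact (continuous_re.comp_continuousOn (ContinuousOn.br this continuousOn_const)).neg
  have h1 := hc.preimage_isClosed_of_isClosed isClosed_sphere (isClosed_Ici (a := (0 : ℝ)))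
  refine (isCompact_sphere (0 : ℂ) 1).of_isClosed_subset ?_ fun y hy => by
    simpa using norm_of_arc hy
  convert h1 using 1
  ext y
  exact ⟨fun h => ⟨by simpa using norm_of_arc h, h.2⟩,
    fun h => ⟨nul_xi (by simpa using h.1), h.2⟩⟩

noncomputable def sig (m : L G) (y : ℂ) : ℂ := pt (mir m (xi y))

noncomputable def jj (m : L G) (y : ℂ) : ℂ := (mir m (xi y)).1

theorem ne_zero_of (hy : ‖y‖ = 1) : y ≠ 0 := norm_pos_iff.1 (by rw [hy]; exact one_pos)

theorem nul_mir (m : L G) (hy : ‖y‖ = 1) : Nul (mir m (xi y)) := (iso_refl m).nul (nul_xi hy)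

theorem norm_sig (m : L G) (hy : ‖y‖ = 1) : ‖sig m y‖ = 1 := (nul_mir m hy).norm_pt

theorem jj_real (m : L G) (hy : ‖y‖ = 1) : ∃ r : ℝ, 0 < r ∧ jj m y = r :=
  ⟨_, (nul_mir m hy).2.1, (nul_mir m hy).1.fst_eq⟩

theorem jj_slit (m : L G) (hy : ‖y‖ = 1) : jj m y ∈ slitPlane := by
  obtain ⟨r, hr, h⟩ := jj_real m hy
  rw [h]
  exact ofReal_mem_slitPlane.2 hr

theorem mir_xi (m : L G) (hy : y ≠ 0) (hj : jj m y ≠ 0) :
    sig m y ≠ 0 ∧ mir m (xi y) = jj m y • xi (sig m y) := by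
  refine eq_smul_xi_of_null ?_ hj
  rw [(iso_refl m).br_eq, br_xi_xi hy hy]
  simp

theorem sig_sig (m : L G) (hy : y ≠ 0) (hj : jj m y ≠ 0) :
    sig m (sig m y) = y ∧ jj m y * jj m (sig m y) = 1 := by
  have h := refl_refl m (xi y)
  rw [(mir_xi m hy hj).2, map_smul] at h
  refine ⟨?_, congrArg Prod.fst h⟩
  have := congrArg pt h
  rwa [pt_smul hj, pt_xi] at this

omit hG in
theorem analyticAt_mir (m : L G) (hy : y ≠ 0) : AnalyticAt ℂ (fun y => mir m (xi y)) y :=
  ((mir m).analyticAt _).comp (f := xi)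
    (analyticAt_const.prod (analyticAt_id.prod (analyticAt_id.inv hy)))

omit hG in
theorem analyticAt_jj (m : L G) (hy : y ≠ 0) : AnalyticAt ℂ (jj m) y :=
  analyticAt_fst.comp (analyticAt_mir m hy)

theorem analyticAt_sig (m : L G) (hy : ‖y‖ = 1) : AnalyticAt ℂ (sig m) y :=
  (analyticAt_fst.comp (analyticAt_snd.comp (analyticAt_mir m (ne_zero_of hy)))).div
    (analyticAt_jj m (ne_zero_of hy)) (slitPlane_ne_zero (jj_slit m hy))

theorem near_ne (m : L G) (hy : ‖y‖ = 1) : ∀ᶠ z in 𝓝 y, z ≠ 0 ∧ jj m z ≠ 0 :=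
  (eventually_ne_nhds (ne_zero_of hy)).and
    ((analyticAt_jj m (ne_zero_of hy)).continuousAt.eventually_ne
      (slitPlane_ne_zero (jj_slit m hy)))

theorem norm_sig_ne (m : L G) (h0 : z ≠ 0) (hj : jj m z ≠ 0) (hz : ‖z‖ ≠ 1) : ‖sig m z‖ ≠ 1 :=
  fun h => hz (by rw [← (sig_sig m h0 hj).1]; exact norm_sig m h)

theorem exists_moeb (m : L G) : ∃ a b c d : ℂ, a * d - b * c = -1 ∧ ∀ y, y ≠ 0 → jj m y ≠ 0 →
    c * y + d ≠ 0 ∧ sig m y = (a * y + b) / (c * y + d) ∧
      (c * y + d) ^ 2 * sig m y = y * jj m y := by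
  refine ⟨I * (c0 G / s0 G : ℝ), -I * ee m / s0 G, conj (-I * ee m / s0 G),
    conj (I * (c0 G / s0 G : ℝ)), ?_, ?_⟩
  · rw [mul_conj, mul_conj, normSq_eq_norm_sq, normSq_eq_norm_sq, ← ofReal_sub, refl_sym_det]
    simp
  · intro y hy hj
    rw [sig, pt]
    rw [jj] at hj ⊢
    rw [refl_eq_sym, sym_apply] at hj ⊢
    generalize conj (-I * ee m / s0 G) = c at hj ⊢
    generalize conj (I * (c0 G / s0 G : ℝ)) = d at hj ⊢
    generalize I * (c0 G / s0 G : ℝ) = a at hj ⊢
    generalize -I * ee m / s0 G = b at hj ⊢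
    simp only [xi] at hj ⊢
    have e1 : a * c * y + (a * d + b * c) * 1 + b * d * y⁻¹ = (a * y + b) * (c * y + d) / y := by
      field_simp; ring
    have e2 : a ^ 2 * y + 2 * a * b * 1 + b ^ 2 * y⁻¹ = (a * y + b) ^ 2 / y := by
      field_simp; ring
    rw [e1] at hj
    rw [e1, e2]
    have h1 : a * y + b ≠ 0 := fun h => hj (by rw [h]; simp)
    have h2 : c * y + d ≠ 0 := fun h => hj (by rw [h]; simp)
    refine ⟨h2, ?_, ?_⟩ <;> field_simp

/-- The derivative of `sig m`. -/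
noncomputable def dsig (m : L G) (z : ℂ) : ℂ := -(sig m z * jj m (sig m z) / z)

theorem hasDerivAt_sig (m : L G) (hy : ‖y‖ = 1) : HasDerivAt (sig m) (dsig m y) y := by
  obtain ⟨a, b, c, d, hdet, H⟩ := exists_moeb m
  obtain ⟨h0, hj⟩ := (near_ne m hy).self_of_nhds
  obtain ⟨h1, -, h3⟩ := H y h0 hj
  have h4 := (((hasDerivAt_id y).const_mul a).add_const b).div
    (((hasDerivAt_id y).const_mul c).add_const d) h1
  have h5 : sig m =ᶠ[𝓝 y] fun z => (a * z + b) / (c * z + d) :=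
    (near_ne m hy).mono fun z hz => (H z hz.1 hz.2).2.1
  refine (h4.congr_of_eventuallyEq h5).congr_deriv ?_
  have h6 := (sig_sig m h0 hj).2
  simp only [id, mul_one, dsig]
  field_simp
  linear_combination y * hdet + jj m (sig m y) * h3 + y * h6

theorem analyticAt_dsig (m : L G) (hy : ‖y‖ = 1) : AnalyticAt ℂ (dsig m) y :=
  (((analyticAt_sig m hy).mul ((analyticAt_jj m (ne_zero_of (norm_sig m hy))).comp
    (analyticAt_sig m hy))).div analyticAt_id (ne_zero_of hy)).neg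

/-- Transformation of the Cauchy kernel. -/
theorem kernel (m : L G) (J : ℂ → ℂ) : ∃ c d : ℂ, ∀ z, z ≠ 0 → jj m z ≠ 0 → ‖z‖ ≠ 1 → ∀ y, ‖y‖ = 1 →
    J y * (z - sig m y)⁻¹ = dsig m z * J (sig m z) * (sig m z - y)⁻¹ +
      (c * sig m z + d) * dslope (fun y => J y * (c * y + d)) (sig m z) y := by
  obtain ⟨a, b, c, d, hdet, H⟩ := exists_moeb m
  refine ⟨c, d, fun z h0 hj hz y hy => ?_⟩
  obtain ⟨e1, e2⟩ := sig_sig m h0 hj
  have hw := norm_sig_ne m h0 hj hz
  have hw0 := (mir_xi m h0 hj).1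
  obtain ⟨a1, a2, a3⟩ := H (sig m z) hw0 (right_ne_zero_of_mul_eq_one e2)
  obtain ⟨b1, b2, -⟩ := H y (ne_zero_of hy) (slitPlane_ne_zero (jj_slit m hy))
  rw [e1] at a2 a3
  have hne : y ≠ sig m z := fun h => hw (h ▸ hy)
  have hd : dsig m z = -(c * sig m z + d) ^ 2 := by
    rw [dsig, ← a3]; field_simp
  rw [hd, dslope_of_ne _ hne, slope_def_field, b2]
  generalize sig m z = w at *
  have e3 : z - (a * y + b) / (c * y + d) = -(w - y) / ((c * w + d) * (c * y + d)) := by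
    rw [a2, div_sub_div _ _ a1 b1]
    congr 1
    linear_combination (w - y) * hdet
  have := sub_ne_zero.2 hne
  have := sub_ne_zero.2 hne.symm
  rw [e3, show y - w = -(w - y) by ring]
  field_simp
  ring

theorem sig_mem (h : Edge b m m') (hy : y ∈ arcS b m') : sig m y ∈ arcS b m := by
  have h1 := norm_of_arc hy
  obtain ⟨r, hr, h2⟩ := jj_real m h1
  have h3 := (Arc.step h hy).smul (inv_pos.2 hr)
  rw [(mir_xi m (ne_zero_of h1) (slitPlane_ne_zero (jj_slit m h1))).2, h2, smul_smul,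
    ← ofReal_mul, inv_mul_cancel₀ hr.ne'] at h3
  simpa [arcS] using h3

def Adj (o e e' : L G) : Prop := (e = o + 1 ∧ e' = o - 1) ∨ (e = o - 1 ∧ e' = o + 1)

omit hG in
theorem Adj.symm (h : Adj o e e') : Adj o e' e := by
  rcases h with h | h
  · exact Or.inr ⟨h.2, h.1⟩
  · exact Or.inl ⟨h.2, h.1⟩

/-- `y` is the end of the wall `o` which lies beyond the wall `e`. -/
def IsEnd (o e : L G) (y : ℂ) : Prop :=
  ‖y‖ = 1 ∧ side (xi y) (wn o) = 0 ∧ 0 < side (xi y) (wn e)

theorem IsEnd.coord (ha : Adj o e e') (h : IsEnd o e y) : side (xi y) (wn e) =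
    s0 G * (sg G - c0 G) ∧ y * conj (ee o) = c0 G + (if e = o + 1 then 1 else -1) * s0 G * I := by
  obtain ⟨h1, h2, h3⟩ := h
  have hN := nul_xi h1
  have hs := s0_pos (G := G)
  have hc := c0_pos (G := G)
  have hg := ArcAux.sg_pos (G := G)
  have hs2 := s0_sq (G := G)
  have e0 : (xi y).1.re = 1 := by simp [xi]
  have hx : ArcAux.cx o (xi y) = c0 G := by
    rw [ArcAux.side_wn hN.1, e0, div_eq_zero_iff] at h2
    rcases h2 with h2 | h2 <;> linarith
  have hw := ArcAux.nul_sq hN o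
  rw [hx, e0] at hw
  have hw' : (ArcAux.cw o (xi y) - s0 G) * (ArcAux.cw o (xi y) + s0 G) = 0 := by
    linear_combination hw - hs2
  have hcs : 0 < c0 G * s0 G ^ 2 := by positivity
  have hgs : 0 < sg G * s0 G ^ 2 := by positivity
  have fin : ∀ t : ℝ, ArcAux.cw o (xi y) = t * s0 G → y * conj (ee o) = c0 G + t * s0 G * I :=
    fun t ht => Complex.ext (hx.trans (by simp)) (ht.trans (by simp))
  rw [ArcAux.side_wn hN.1, e0] at h3 ⊢
  rw [div_pos_iff_of_pos_right hs] at h3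
  rw [div_eq_iff hs.ne']
  rcases ha with ⟨rfl, -⟩ | ⟨rfl, -⟩
  · rw [ArcAux.cx_succ, hx] at h3 ⊢
    rcases mul_eq_zero.1 hw' with a | a
    · refine ⟨by linear_combination s0 G * sg G * a + c0 G * hs2, ?_⟩
      simpa using fin 1 (by linarith)
    · exfalso
      have : ArcAux.cw o (xi y) = -s0 G := by linarith
      rw [this] at h3
      nlinarith
  · rw [ArcAux.cx_pred, hx] at h3 ⊢
    rcases mul_eq_zero.1 hw' with a | a
    · exfalso
      have : ArcAux.cw o (xi y) = s0 G := by linarith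
      rw [this] at h3
      nlinarith
    · refine ⟨by linear_combination -s0 G * sg G * a + c0 G * hs2, ?_⟩
      rw [if_neg (far_succ_pred o).1.symm]
      simpa using fin (-1) (by linarith)

theorem IsEnd.unique (ha : Adj o e e') (h : IsEnd o e y) (h' : IsEnd o e z) : y = z := by
  have h1 := (h.coord ha).2.trans (h'.coord ha).2.symm
  refine mul_right_cancel₀ ?_ h1
  exact (map_ne_zero _).2 (ne_zero_of (norm_ee o))

theorem IsEnd.jj_eq (ha : Adj o e e') (h : IsEnd o e y) :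
    jj e y = (Real.exp (-(lw G / 2)) : ℝ) := by
  have h1 := refl_fst e (nul_xi h.1).1
  have hs := s0_pos (G := G)
  have hc := c0_pos (G := G)
  have hg := ArcAux.sg_pos (G := G)
  have hg2 := sg_sq (G := G)
  rw [(h.coord ha).1] at h1
  rw [jj, (nul_mir e h.1).1.fst_eq, h1]
  congr 1
  have e0 : (xi y).1.re = 1 := by simp [xi]
  have e1 : lw G / 2 = Real.log ((c0 G + sg G) ^ 2) := by
    rw [Real.log_pow, lw]; push_cast; ring
  rw [e0, e1, Real.exp_neg, Real.exp_log (by positivity)]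
  field_simp
  linear_combination (sg G ^ 2 - c0 G ^ 2 + 1 - (c0 G + sg G) ^ 2) * hg2

theorem IsEnd.step (ha : Adj o e e') (h : IsEnd o e y) : IsEnd o e' (sig e y) := by
  obtain ⟨h1, h2, h3⟩ := h
  obtain ⟨r, hr, hj⟩ := jj_real e h1
  have h4 := (mir_xi e (ne_zero_of h1) (slitPlane_ne_zero (jj_slit e h1))).2
  rw [hj] at h4
  have h5 : side (xi (sig e y)) (wn o) = 0 := by
    have : side (mir e (xi y)) (wn o) = 0 := by
      rcases ha with ⟨rfl, -⟩ | ⟨rfl, -⟩
      · have := side_refl_pred (o + 1) (xi y)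
        rwa [show o + 1 - 1 = o by ring, h2] at this
      · have := side_refl_succ (o - 1) (xi y)
        rwa [show o - 1 + 1 = o by ring, h2] at this
    rw [h4, side_smul] at this
    exact (mul_eq_zero.1 this).resolve_left hr.ne'
  have h6 : side (xi (sig e y)) (wn e) < 0 := by
    have := side_refl_self e (xi y)
    rw [h4, side_smul] at this
    by_contra hc
    nlinarith
  refine ⟨norm_sig e h1, h5, ?_⟩
  have h7 := wall_end (nul_xi (norm_sig e h1)) h5
  rcases ha with ⟨rfl, rfl⟩ | ⟨rfl, rfl⟩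
  · exact h7.resolve_left h6.not_gt
  · exact h7.resolve_right h6.not_gt

theorem far_neg (h : Far m m') (hy : ‖y‖ = 1) (h0 : 0 ≤ side (xi y) (wn m)) :
    side (xi y) (wn m') < 0 := by
  obtain ⟨η, hη, H⟩ := far_gap (G := G)
  have := H m m' h _ (nul_xi hy).fut h0
  have e0 : (xi y).1.re = 1 := by simp [xi]
  rw [e0] at this
  linarith

theorem Adj.far (ha : Adj o e e') : Far e e' := by
  rcases ha with ⟨rfl, rfl⟩ | ⟨rfl, rfl⟩
  · exact far_succ_pred o
  · exact (far_succ_pred o).symm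

theorem side_of_arc (h : y ∈ arcS b m) : 0 ≤ side (xi y) (wn m) := (arc_iff.1 h).2.2.1

theorem IsEnd.only (ha : Adj o e e') (he : par e ≠ b) (h : IsEnd o e' y) (hm : Edge b e m)
    (hy : y ∈ arcS b m) : m = e' := by
  have h0 := side_of_arc hy
  have h1 := hm.2 he
  have h2 : ¬ Far o m := fun hf => (far_neg hf h.1 h.2.1.ge).not_ge h0
  have h3 : m ≠ o := by
    rcases ha with ⟨rfl, -⟩ | ⟨rfl, -⟩
    · simpa using h1.2
    · simpa using h1.1
  rcases Grp.cases_letter o m with a | a | a | a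
  · exact absurd a h3
  · rcases ha with ⟨rfl, -⟩ | ⟨-, rfl⟩
    · exact absurd a.symm hm.1
    · exact a
  · rcases ha with ⟨-, rfl⟩ | ⟨rfl, -⟩
    · exact a
    · exact absurd a.symm hm.1
  · exact absurd a h2

theorem exists_end (he : par e ≠ b) (hy : y ∈ arcS b e) (ho : par o = b)
    (h : side (xi y) (wn o) = 0) : ∃ e', Adj o e e' ∧ IsEnd o e y := by
  obtain ⟨η, hη, H⟩ := arcQ_gap (G := G)
  have h1 := H b e _ he hy
  have e0 : (xi y).1.re = 1 := by simp [xi]
  rw [e0] at h1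
  have h2 : IsEnd o e y := ⟨norm_of_arc hy, h, by linarith⟩
  rcases Grp.cases_letter o e with a | a | a | a
  · exact absurd (a ▸ ho) he
  · exact ⟨o - 1, Or.inl ⟨a, rfl⟩, h2⟩
  · exact ⟨o + 1, Or.inr ⟨a, rfl⟩, h2⟩
  · exact absurd (far_neg a h2.1 h.ge) h2.2.2.le.not_gt

theorem pri_disj (hm : par m = b) (hm' : par m' = b) (h : m ≠ m') (hy : y ∈ arcS b m) :
    y ∉ arcS b m' := by
  intro hy'
  rcases ArcAux.far_or h with a | a
  · exact (far_neg a (norm_of_arc hy) (side_of_arc hy)).not_ge (side_of_arc hy')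
  · have := ArcAux.par_adj a
    rw [hm, hm'] at this
    exact ArcAux.add_one_ne b this.symm

theorem finite_ends : {y : ℂ | ‖y‖ = 1 ∧ ∃ k : L G, side (xi y) (wn k) = 0}.Finite := by
  refine (Set.finite_iUnion fun k : L G => finite_side_eq_zero (isRe_wn k) (br_wn_self k)).subset ?_
  rintro y ⟨h1, k, h2⟩
  exact mem_iUnion.2 ⟨k, h1, h2⟩

variable (D : Nest G b)

theorem slit_lift {u : List (L G)} (hu : Adm b u) (h0 : u ≠ []) {η : ℂ}
    (hη : η ∈ ball (0 : ℂ) D.R) : (D.lift u η).1 ∈ slitPlane := by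
  obtain ⟨v, m, rfl⟩ : ∃ v m, u = v ++ [m] := ⟨_, _, (List.dropLast_append_getLast h0).symm⟩
  have hR : 0 < D.R := by linarith [D.one_lt_R]
  have hY : Hyp (lin (wd v)⁻¹ oo) := (iso_lin _).hyp hyp_oo
  have h1 := Word.grow D (Word.R_mem D) hY.fut hu
  rw [lin_lin_inv] at h1
  have h2 := Word.nu_fst_pos (mul_pos (D.τ_pos ((v ++ [m]).headD 0)) hR) (D.τR_lt _)
    ((v ++ [m]).headD 0)
  have h3 : side (lin (wd v)⁻¹ oo) (nu (D.τ m * D.R) m) ≤ 0 := by
    by_contra hc
    have : 0 < D.t ^ v.length := pow_pos (by linarith [D.one_lt_t]) _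
    have := mul_pos this (not_le.1 hc)
    have e : ∀ n, side oo n = -n.1.re := fun n => by rw [side, br_oo_left]
    rw [e] at h1
    linarith
  rw [Word.lift_eq, Word.fst_eq_br]
  exact slit_of_side (D.τ_pos m) hR hY h3 (by simpa using hη)

theorem lift_chart {u : List (L G)} (hu : Adm b u) (h0 : u ≠ []) {η : ℂ}
    (hη : η ∈ ball (0 : ℂ) D.R) : ∃ c : ℂ, c ≠ 0 ∧ ∃ η' ∈ ball (0 : ℂ) D.R,
      D.lift u η = c • Xi (D.τ (u.headD 0)) (u.headD 0) η' := by
  induction u with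
  | nil => exact absurd rfl h0
  | cons m u ih =>
    cases u with
    | nil => exact ⟨1, one_ne_zero, η, hη, by simp [Nest.lift]⟩
    | cons k u =>
      obtain ⟨h1, h2⟩ := Grp.adm_cons_cons.1 hu
      obtain ⟨c, hc, η', h3, h4⟩ := ih h2 (List.cons_ne_nil _ _)
      refine ⟨c * exp (D.lj m k η'), mul_ne_zero hc (exp_ne_zero _), D.psi m k η', ?_, ?_⟩
      · have := (D.into m k h1).2 η' h3
        rw [mem_ball_zero_iff]
        linarith [D.q_lt, D.one_lt_R]
      · rw [D.lift_cons m (List.cons_ne_nil _ _), h4, map_smul, List.headD_cons, List.headD_cons,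
          D.refl_Xi m k h1 η' h3, smul_smul]

omit hG in
theorem pt_Xi {τ : ℝ} (m : L G) {η : ℂ} (h : ‖τ * η‖ < 1) :
    1 - I * τ * η ≠ 0 ∧ 1 + I * τ * η ≠ 0 ∧
      pt (Xi τ m η) = ee m * (1 + I * τ * η) / (1 - I * τ * η) := by
  have h0 : ‖I * τ * η‖ < 1 := by rwa [mul_assoc, norm_mul, norm_I, one_mul]
  have h1 : 1 - I * τ * η ≠ 0 := fun a => by
    rw [← sub_eq_zero.1 a] at h0; simp at h0
  have h2 : 1 + I * τ * η ≠ 0 := fun a => by
    rw [eq_neg_of_add_eq_zero_right a] at h0; simp at h0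
  refine ⟨h1, h2, ?_⟩
  have h3 := Chart.hh_conj m
  have h4 : hh m ≠ 0 := left_ne_zero_of_mul_eq_one h3
  have h5 : conj (hh m) = (hh m)⁻¹ := eq_inv_of_mul_eq_one_right h3
  simp only [pt, Xi, Sq, sp, ee, h5]
  field_simp

end Inj

end Pool.Agent.Lib.MP_de7bb2_an
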