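import Pool.Agent.Lib.MP_de7bb2_an.H20Equi
import Pool.Agent.Lib.MP_de7bb2_an.H20InjA
import Pool.Agent.Lib.MP_de7bb2_an.H20InjB

/-! The arc functionals acting on functions holomorphic near an arc. -/

namespace Pool.Agent.Lib.MP_de7bb2_an

namespace Inj

open Metric Set Complex Filter Topology

noncomputable def wt (s : ℂ) (f : ℂ → ℂ) (E : V) : ℂ := br E oo ^ (-s) * f (pt E)

theorem real_cpow (s : ℂ) {r : ℝ} (hr : 0 < r) : (r : ℂ) ^ (-s) = exp (-s * Real.log r) := by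
  rw [cpow_def_of_ne_zero (ofReal_ne_zero.2 hr.ne'), ← ofReal_log hr.le, mul_comm]

theorem hom_wt (s : ℂ) (f : ℂ → ℂ) : Hom s (wt s f) := by
  intro r hr E hE
  rw [wt, wt, pt_smul (ofReal_ne_zero.2 hr.ne'), br_smul_left, br_oo_right, hE.1.fst_eq,
    mul_cpow_ofReal_nonneg hr.le hE.2.1.le, real_cpow s hr, mul_assoc]

theorem hom_comp {s : ℂ} {F : V → ℂ} (h : Hom s F) {A : V →L[ℂ] V} (hA : Iso A) :
    Hom s fun E => F (A E) := fun r hr E hE => by
  simp only [map_smul]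
  exact h r hr _ (hA.nul hE)

variable {G : ℕ} [hG : Fact (2 ≤ G)] {b : ZMod 2}

def Gd (D : Nest G b) (N : ℕ) (m : L G) (F : V → ℂ) : Prop :=
  ∀ u : List (L G), Adm b u → u.headD 0 = m → N + 1 ≤ u.length →
    DifferentiableOn ℂ (fun η => F (D.lift u η)) (ball 0 D.R)

noncomputable def La (D : Nest G b) (x : L G → ℂ) (μ : Vec (St G × ℕ)) (g : W G) (m : L G)
    (F : V → ℂ) : ℂ :=
  piece D x μ g m fun E => F (lin g⁻¹ E)

variable {D : Nest G b} {s : ℂ} {x : L G → ℂ} {μ : Vec (St G × ℕ)} {F F₁ F₂ : V → ℂ}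
  {g g' : W G} {m m' : L G} {N N' : ℕ}

theorem Gd.mono (h : Gd D N m F) (hN : N ≤ N') : Gd D N' m F :=
  fun u h1 h2 h3 => h u h1 h2 (by omega)

theorem Gd.good (h : Gd D N m F) (g : W G) : Good D N g m fun E => F (lin g⁻¹ E) :=
  fun u h1 h2 h3 => by simpa using h u h1 h2 h3

theorem Gd.step (h : Gd D N m F) (he : Edge b m m') : Gd D N m' fun E => F (mir m E) := by
  intro u h1 h2 h3
  cases u with
  | nil => simp at h3
  | cons k u =>
    obtain rfl : k = m' := h2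
    have := h (m :: k :: u) (Grp.adm_cons_cons.2 ⟨he, h1⟩) rfl (by simp at h3 ⊢; omega)
    simpa only [D.lift_cons m (List.cons_ne_nil k u)] using this

theorem La_eq (h : Fixd D s x μ) (hF : Hom s F) (hg : Gd D N m F) (g : W G) :
    La D x μ g m F = ∑ u ∈ admF G b (N + 1), if u.headD 0 = m then exp (Th x (g * wd u.dropLast)) *
      ev μ (cl (g * wd u.dropLast), u.getLastD 0) (fun η => F (D.lift u η)) else 0 := by
  rw [La, piece_eq_lev h (hom_comp hF (iso_lin _)) (hg.good g) le_rfl, levG]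
  simp only [lin_inv_lin]

theorem La_step (h : Fixd D s x μ) (hF : Hom s F) (hg : Gd D N m F) (g : W G) :
    La D x μ g m F =
      ∑ m', if Edge b m m' then La D x μ (g * sr m) m' (fun E => F (mir m E)) else 0 := by
  rw [La, piece_step_of_good h (hom_comp hF (iso_lin _)) (hg.good g)]
  simp only [La, mul_inv_rev, sr_inv, lin_mul, lin_sr, refl_refl]

theorem La_scale (h : Fixd D s x μ) (hF : Hom s F) (hg : Gd D N m F) (hc : cl g' = cl g) :
    La D x μ g' m F = exp (Th x g' - Th x g) * La D x μ g m F := by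
  rw [La_eq h hF hg, La_eq h hF hg, Finset.mul_sum]
  refine Finset.sum_congr rfl fun u _ => ?_
  split_ifs
  · rw [cl_mul, cl_mul, hc, ← mul_assoc, ← exp_add]
    congr 2
    linear_combination Th_sub_congr x hc (wd u.dropLast)
  · rw [mul_zero]

theorem La_comb (h : Fixd D s x μ) (hF : Hom s F) (hF₁ : Hom s F₁) (hF₂ : Hom s F₂)
    (hg : Gd D N m F) (hg₁ : Gd D N m F₁) (hg₂ : Gd D N m F₂) (a : ℂ)
    (he : ∀ Y, Nul Y → F Y = a * F₁ Y + F₂ Y) (g : W G) :
    La D x μ g m F = a * La D x μ g m F₁ + La D x μ g m F₂ := by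
  rw [La_eq h hF hg, La_eq h hF₁ hg₁, La_eq h hF₂ hg₂, Finset.mul_sum, ← Finset.sum_add_distrib]
  refine Finset.sum_congr rfl fun u hu => ?_
  obtain ⟨h1, h2⟩ := mem_admF.1 hu
  split_ifs with h3
  · have hs : sphere (0 : ℂ) 1 ⊆ ball 0 D.R := sphere_subset_ball D.one_lt_R
    have d0 := hg u h2 h3 h1.ge
    have d1 : DifferentiableOn ℂ (fun η => a * F₁ (D.lift u η)) (ball 0 D.R) :=
      (hg₁ u h2 h3 h1.ge).const_mul a
    have d2 := hg₂ u h2 h3 h1.ge
    have e := eqOn_ball_of_real d0 (d1.fun_add d2) one_pos fun t _ _ => he _ (D.nul_lift u t)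
    rw [ev_congr μ _ fun y hy => e (hs (by simpa using hy)),
      ev_add μ _ (d1.continuousOn.mono hs) (d2.continuousOn.mono hs), ev_const_mul]
    ring
  · simp

theorem exists_gd (D : Nest G b) (s : ℂ) (m : L G) {f : ℂ × ℂ → ℂ} {z : ℂ}
    (hf : ∀ y ∈ arcS b m, HolAt f (z, y)) : ∃ N, ∃ δ > 0, ∀ u : List (L G), Adm b u →
      u.headD 0 = m → N + 1 ≤ u.length → DifferentiableOn ℂ
        (fun p : ℂ × ℂ => wt s (fun y => f (p.1, y)) (D.lift u p.2)) (ball z δ ×ˢ ball 0 D.R) := by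
  obtain ⟨δ, hδ, H⟩ := (isCompact_singleton.prod (isCompact_arcS b m)).exists_thickening_subset_open
    (t := {p | HolAt f p}) isOpen_setOfPred_eventually_nhds (by
      rintro ⟨w, y⟩ ⟨rfl, h2⟩
      exact hf y h2)
  obtain ⟨N, hN⟩ := D.exists_thin hδ
  refine ⟨N, δ, hδ, fun u h1 h2 h3 p hp => ?_⟩
  obtain ⟨a1, y₀, a2, a3⟩ := hN u h1 h3 p.2 hp.2
  rw [h2] at a2
  have a4 : HolAt f (p.1, pt (D.lift u p.2)) := H (mem_thickening_iff.2 ⟨(z, y₀), ⟨rfl, a2⟩, by
    rw [Prod.dist_eq, max_lt_iff]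
    exact ⟨hp.1, by rwa [dist_eq_norm]⟩⟩)
  have a5 : DifferentiableAt ℂ (fun q : ℂ × ℂ => D.lift u q.2) p :=
    (D.diff_lift u p.2).comp p differentiableAt_snd
  have a7 : DifferentiableAt ℂ (fun q : ℂ × ℂ => pt (D.lift u q.2)) p := by
    simp only [pt, div_eq_mul_inv]
    exact a5.snd.fst.mul (a5.fst.inv a1)
  have a6 := slit_lift D h1 (by rintro rfl; simp at h3) hp.2
  refine DifferentiableAt.differentiableWithinAt ?_
  simp only [wt, br_oo_right]
  exact (a5.fst.cpow_const a6).mul (DifferentiableAt.comp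
    (f := fun q : ℂ × ℂ => (q.1, pt (D.lift u q.2))) p a4.self_of_nhds
    (differentiableAt_fst.prodMk a7))

theorem gd_of_param {f : ℂ × ℂ → ℂ} {U : Set ℂ} {z : ℂ} (hz : z ∈ U)
    (h : ∀ u : List (L G), Adm b u → u.headD 0 = m → N + 1 ≤ u.length → DifferentiableOn ℂ
      (fun p : ℂ × ℂ => wt s (fun y => f (p.1, y)) (D.lift u p.2)) (U ×ˢ ball 0 D.R)) :
    Gd D N m (wt s fun y => f (z, y)) := fun u h1 h2 h3 =>
  (h u h1 h2 h3).comp (f := fun η => (z, η)) (by fun_prop) fun _ hη => ⟨hz, hη⟩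

def Hol (b : ZMod 2) (m : L G) (f : ℂ → ℂ) : Prop := ∀ y ∈ arcS b m, AnalyticAt ℂ f y

theorem Hol.gd {f : ℂ → ℂ} (h : Hol b m f) (D : Nest G b) (s : ℂ) : ∃ N, Gd D N m (wt s f) := by
  obtain ⟨N, δ, hδ, H⟩ := exists_gd D s m (f := fun p => f p.2) (z := 0) fun y hy =>
    HolAt.of_analytic ((h y hy).comp_of_eq analyticAt_snd rfl)
  exact ⟨N, gd_of_param (f := fun p => f p.2) (mem_ball_self hδ) H⟩

omit hG in
theorem hol_of_holAt {f : ℂ × ℂ → ℂ} {z : ℂ} (hf : ∀ y ∈ arcS b m, HolAt f (z, y)) :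
    Hol b m fun y => f (z, y) := fun y hy => by
  have h1 : Tendsto (fun t : ℂ => (z, t)) (𝓝 y) (𝓝 (z, y)) := Continuous.tendsto (by fun_prop) y
  refine analyticAt_iff_eventually_differentiableAt.2 ((h1.eventually (hf y hy)).mono ?_)
  exact fun t ht => ht.comp t (by fun_prop)

theorem analyticAt_La (h : Fixd D s x μ) (g : W G) {f : ℂ × ℂ → ℂ} {z : ℂ}
    (hf : ∀ y ∈ arcS b m, HolAt f (z, y)) :
    AnalyticAt ℂ (fun w => La D x μ g m (wt s fun y => f (w, y))) z := by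
  obtain ⟨N, δ, hδ, H⟩ := exists_gd D s m hf
  have hs : sphere (0 : ℂ) 1 ⊆ ball 0 D.R := sphere_subset_ball D.one_lt_R
  refine DifferentiableOn.analyticAt (s := ball z δ) ?_ (ball_mem_nhds z hδ)
  refine DifferentiableOn.congr ?_ fun w hw => La_eq h (hom_wt _ _) (gd_of_param hw H) g
  refine DifferentiableOn.fun_sum fun u hu => ?_
  obtain ⟨h1, h2⟩ := mem_admF.1 hu
  split_ifs with h3
  · have d := H u h2 h3 h1.ge
    refine DifferentiableOn.const_mul (diffOn_ev _ isOpen_ball (differentiableOn_const μ)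
      (F := fun w η => wt s (fun y => f (w, y)) (D.lift u η))
      (d.continuousOn.mono (prod_mono_right hs)) fun y hy => ?_) _
    exact d.comp (f := fun w => (w, y)) (by fun_prop) fun w hw => ⟨hw, hs (by simpa using hy)⟩
  · exact differentiableOn_const _

theorem T_comb (h : Fixd D s x μ) {f f₁ f₂ : ℂ → ℂ} (hf : Hol b m f) (hf₁ : Hol b m f₁)
    (hf₂ : Hol b m f₂) (a : ℂ) (he : ∀ y, ‖y‖ = 1 → f y = a * f₁ y + f₂ y) (g : W G) :
    La D x μ g m (wt s f) = a * La D x μ g m (wt s f₁) + La D x μ g m (wt s f₂) := by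
  obtain ⟨N, a0⟩ := hf.gd D s
  obtain ⟨N₁, a1⟩ := hf₁.gd D s
  obtain ⟨N₂, a2⟩ := hf₂.gd D s
  refine La_comb (N := N + N₁ + N₂) h (hom_wt _ _) (hom_wt _ _) (hom_wt _ _) (a0.mono (by omega))
    (a1.mono (by omega)) (a2.mono (by omega)) a (fun Y hY => ?_) g
  rw [wt, wt, wt, he _ hY.norm_pt]
  ring

theorem Hol.step {f : ℂ → ℂ} (hf : Hol b m f) (he : Edge b m m') (s : ℂ) :
    Hol b m' fun y => jj m y ^ (-s) * f (sig m y) := fun _ hy =>
  ((analyticAt_jj m (ne_zero_of (norm_of_arc hy))).cpow analyticAt_const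
    (jj_slit m (norm_of_arc hy))).mul
    ((hf _ (sig_mem he hy)).comp (analyticAt_sig m (norm_of_arc hy)))

theorem T_step (h : Fixd D s x μ) {f : ℂ → ℂ} (hf : Hol b m f) (g : W G) :
    La D x μ g m (wt s f) = ∑ m', if Edge b m m' then
      La D x μ (g * sr m) m' (wt s fun y => jj m y ^ (-s) * f (sig m y)) else 0 := by
  obtain ⟨N, a0⟩ := hf.gd D s
  rw [La_step h (hom_wt _ _) a0]
  refine Finset.sum_congr rfl fun m' _ => ?_
  split_ifs with he
  · obtain ⟨N₁, a1⟩ := (hf.step he s).gd D s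
    have a2 := a1.mono (le_add_self : N₁ ≤ N + N₁)
    rw [La_comb h (hom_comp (hom_wt _ _) (iso_refl m)) (hom_wt _ _) (hom_wt _ _)
      ((a0.step he).mono le_self_add) a2 a2 0 (fun Y hY => ?_), zero_mul, zero_add]
    have e1 := hom_comp (hom_wt s f) (iso_refl m) _ hY.2.1 _ (nul_xi hY.norm_pt)
    rw [← hY.eq_smul_xi] at e1
    simp only at e1
    rw [e1, zero_mul, zero_add, ← real_cpow s hY.2.1, ← hY.1.fst_eq]
    simp only [wt, br_oo_right, jj, sig]
  · rfl

/-- The Cauchy transform of the arc functional. -/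
noncomputable def cau (D : Nest G b) (s : ℂ) (x : L G → ℂ) (μ : Vec (St G × ℕ)) (g : W G)
    (m : L G) (z : ℂ) : ℂ :=
  La D x μ g m (wt s fun y => (z - y)⁻¹)

omit hG in
theorem hol_cau {z : ℂ} (hz : z ∉ arcS b m) : Hol b m fun y => (z - y)⁻¹ := fun y hy =>
  (analyticAt_const.sub analyticAt_id).inv (sub_ne_zero.2 fun h => hz (by
    obtain rfl : z = y := h
    exact hy))

omit hG in
theorem not_mem_of_ne {z : ℂ} (hz : ‖z‖ ≠ 1) : z ∉ arcS b m := fun h => hz (norm_of_arc h)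

theorem analyticAt_cau (h : Fixd D s x μ) (g : W G) {z : ℂ} (hz : z ∉ arcS b m) :
    AnalyticAt ℂ (cau D s x μ g m) z :=
  analyticAt_La h g (f := fun p => (p.1 - p.2)⁻¹) fun y hy => HolAt.of_analytic
    ((analyticAt_fst.sub analyticAt_snd).inv (sub_ne_zero.2 fun h => hz (by
      obtain rfl : z = y := h
      exact hy)))

theorem tendsto_cau (h : Fixd D s x μ) (g : W G) (m : L G) :
    Tendsto (cau D s x μ g m) (cocompact ℂ) (𝓝 0) := by
  have h1 := analyticAt_La (m := m) h g (f := fun p => p.1 * (1 - p.1 * p.2)⁻¹) (z := 0)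
    fun y _ => HolAt.of_analytic (analyticAt_fst.mul
      ((analyticAt_const.sub (analyticAt_fst.mul analyticAt_snd)).inv (by simp)))
  have h0 : Hol b m fun _ => 0 := fun _ _ => analyticAt_const
  have h2 := T_comb h h0 h0 h0 1 (by simp) g
  have h3 := h1.continuousAt.tendsto
  simp only [zero_mul] at h3
  rw [show La D x μ g m (wt s fun _ => 0) = 0 by linear_combination -h2] at h3
  rw [← cobounded_eq_cocompact]
  refine (h3.comp tendsto_inv₀_cobounded).congr' ?_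
  filter_upwards [Bornology.eventually_ne_cobounded 0] with z hz
  simp only [Function.comp, cau]
  congr 2
  funext y
  rw [← mul_inv]
  congr 1
  field_simp

theorem exists_rem (m : L G) (s : ℂ) : ∃ R : ℂ × ℂ → ℂ,
    (∀ z, ‖z‖ = 1 → ∀ y, ‖y‖ = 1 → HolAt R (z, y)) ∧
    ∀ z, z ≠ 0 → jj m z ≠ 0 → ‖z‖ ≠ 1 → ∀ y, ‖y‖ = 1 → jj m y ^ (-s) * (z - sig m y)⁻¹ =
      dsig m z * jj m (sig m z) ^ (-s) * (sig m z - y)⁻¹ + R (z, y) := by
  obtain ⟨c, d, H⟩ := kernel m fun y => jj m y ^ (-s)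
  have hJ : ∀ y, ‖y‖ = 1 → AnalyticAt ℂ (fun y => jj m y ^ (-s) * (c * y + d)) y := fun y hy =>
    ((analyticAt_jj m (ne_zero_of hy)).cpow analyticAt_const (jj_slit m hy)).mul (by fun_prop)
  refine ⟨fun p => (c * sig m p.1 + d) *
    dslope (fun y => jj m y ^ (-s) * (c * y + d)) (sig m p.1) p.2, fun z hz y hy => ?_, H⟩
  have a1 : AnalyticAt ℂ (fun p : ℂ × ℂ => (sig m p.1, p.2)) (z, y) :=
    ((analyticAt_sig m hz).comp_of_eq analyticAt_fst rfl).prod analyticAt_snd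
  filter_upwards [a1.eventually_analyticAt, a1.continuousAt.tendsto.eventually
    (holAt_dslope (hJ _ (norm_sig m hz)) (hJ y hy))] with p a2 a3
  exact ((a2.differentiableAt.fst.const_mul c).add_const d).mul
    (DifferentiableAt.comp (f := fun p : ℂ × ℂ => (sig m p.1, p.2)) p a3 a2.differentiableAt)

theorem analyticAt_mul (m : L G) (s : ℂ) {z₀ : ℂ} (hz₀ : ‖z₀‖ = 1) :
    AnalyticAt ℂ (fun z => dsig m z * jj m (sig m z) ^ (-s)) z₀ :=
  (analyticAt_dsig m hz₀).mul (((analyticAt_jj m (ne_zero_of (norm_sig m hz₀))).comp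
    (analyticAt_sig m hz₀)).cpow analyticAt_const (jj_slit m (norm_sig m hz₀)))

theorem cau_step (h : Fixd D s x μ) (g : W G) {z₀ : ℂ} (hz₀ : ‖z₀‖ = 1) {k : L G}
    (hk : Edge b m k) (ho : ∀ m', Edge b m m' → sig m z₀ ∈ arcS b m' → m' = k) :
    ∃ ρ, AnalyticAt ℂ ρ z₀ ∧ ∀ᶠ z in 𝓝 z₀, ‖z‖ ≠ 1 → ‖sig m z‖ ≠ 1 ∧ cau D s x μ g m z = ρ z +
      dsig m z * jj m (sig m z) ^ (-s) * cau D s x μ (g * sr m) k (sig m z) := by
  obtain ⟨R, hR, H⟩ := exists_rem m s
  have hs := analyticAt_sig m hz₀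
  have hA := analyticAt_mul m s hz₀
  have hK : ∀ m' : L G, ∀ᶠ z in 𝓝 z₀, ∀ y ∈ arcS b m', HolAt R (z, y) := fun m' =>
    (isCompact_arcS b m').eventually_forall_of_forall_eventually fun y hy =>
      (hR z₀ hz₀ y (norm_of_arc hy)).eventually_nhds
  have hL : ∀ m', AnalyticAt ℂ (fun z => La D x μ (g * sr m) m' (wt s fun y => R (z, y))) z₀ :=
    fun m' => analyticAt_La h _ fun y hy => hR z₀ hz₀ y (norm_of_arc hy)
  refine ⟨fun z => ∑ m', if Edge b m m' then (if m' = k then 0 else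
      dsig m z * jj m (sig m z) ^ (-s) * cau D s x μ (g * sr m) m' (sig m z)) +
      La D x μ (g * sr m) m' (wt s fun y => R (z, y)) else 0, ?_, ?_⟩
  · refine Finset.analyticAt_fun_sum _ fun m' _ => ?_
    split_ifs with h1 h2
    · exact analyticAt_const.fun_add (hL m')
    · have a1 : AnalyticAt ℂ (fun z => cau D s x μ (g * sr m) m' (sig m z)) z₀ :=
        (analyticAt_cau h _ fun a => h2 (ho m' h1 a)).comp hs
      exact (hA.fun_mul a1).fun_add (hL m')
    · exact analyticAt_const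
  · filter_upwards [near_ne m hz₀, eventually_all.2 hK] with z a1 a2 hz
    have hw := norm_sig_ne m a1.1 a1.2 hz
    refine ⟨hw, ?_⟩
    have hc := hol_cau (b := b) (m := m) (not_mem_of_ne hz)
    have key : ∀ m', Edge b m m' →
        La D x μ (g * sr m) m' (wt s fun y => jj m y ^ (-s) * (z - sig m y)⁻¹) =
          dsig m z * jj m (sig m z) ^ (-s) * cau D s x μ (g * sr m) m' (sig m z) +
            La D x μ (g * sr m) m' (wt s fun y => R (z, y)) := fun m' h1 =>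
      T_comb h (hc.step h1 s) (hol_cau (not_mem_of_ne hw)) (hol_of_holAt (a2 m')) _
        (H z a1.1 a1.2 hz) _
    rw [cau, T_step h hc, ← Finset.add_sum_erase _ _ (Finset.mem_univ k),
      ← Finset.add_sum_erase _ _ (Finset.mem_univ k), if_pos hk, if_pos hk, if_pos rfl,
      key k hk, zero_add, add_comm (_ * _), add_right_comm]
    congr 2
    refine Finset.sum_congr rfl fun m' hm' => ?_
    split_ifs with h1 h2
    · exact absurd h2 (Finset.ne_of_mem_erase hm')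
    · exact key m' h1
    · rfl

end Inj

end Pool.Agent.Lib.MP_de7bb2_an
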