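import Pool.Agent.Lib.MP_de7bb2_an.H20Ext

/-! Arc integrals in the charts and the positivity argument. Auxiliary file of TASK LEB. -/

namespace Pool.Agent.Lib.MP_de7bb2_an

open Metric Set Complex Filter Topology

namespace Leb

theorem coef_eq' {H : ℂ → ℂ} (hH : ContinuousOn H (closedBall 0 1))
    (hH' : DifferentiableOn ℂ H (ball 0 1)) (b : ℕ) :
    coef H b = (b.factorial : ℂ)⁻¹ * iteratedDeriv b H 0 := by
  have h := circleIntegral_one_div_sub_center_pow_smul_of_differentiable_on_off_countable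
    (s := ∅) one_pos b Set.countable_empty hH
    fun z hz => hH'.differentiableAt (isOpen_ball.mem_nhds hz.1)
  have e : (∮ z in C(0, 1), (1 / (z - 0) ^ (b + 1)) • H z) =
      I * ∫ t in (0 : ℝ)..2 * Real.pi, H (exp (t * I)) * exp (-(b * t * I)) := by
    rw [circleIntegral, ← intervalIntegral.integral_const_mul]
    refine intervalIntegral.integral_congr fun t _ => ?_
    have h0 : exp (t * I) ≠ 0 := exp_ne_zero _
    simp only [deriv_circleMap, circleMap, ofReal_one, one_mul, zero_add, sub_zero, smul_eq_mul,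
      Coef.e_neg]
    field_simp
    ring
  rw [e, smul_eq_mul] at h
  have hb : (b.factorial : ℂ) ≠ 0 := Nat.cast_ne_zero.2 b.factorial_ne_zero
  have hp : (Real.pi : ℂ) ≠ 0 := ofReal_ne_zero.2 Real.pi_ne_zero
  have h' : (∫ t in (0 : ℝ)..2 * Real.pi, H (exp (t * I)) * exp (-(b * t * I))) =
      2 * Real.pi / b.factorial * iteratedDeriv b H 0 := by
    apply mul_left_cancel₀ I_ne_zero
    rw [h]
    ring
  rw [coef, h']
  field_simp

theorem hasSum_coef' {H : ℂ → ℂ} (hH : ContinuousOn H (closedBall 0 1))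
    (hH' : DifferentiableOn ℂ H (ball 0 1)) {y : ℂ} (hy : y ∈ ball (0 : ℂ) 1) :
    HasSum (fun b => coef H b * y ^ b) (H y) := by
  have e : (fun b => coef H b * y ^ b) =
      fun n : ℕ => (n.factorial : ℂ)⁻¹ • (y - 0) ^ n • iteratedDeriv n H 0 := by
    funext n
    rw [coef_eq' hH hH', sub_zero, smul_eq_mul, smul_eq_mul]
    ring
  rw [e]
  exact hasSum_taylorSeries_on_ball hH' hy

variable {G : ℕ} {b : ZMod 2}

/-- Extension of a function on the chart to the cone, homogeneous of degree `-1`. -/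
noncomputable def Xc (D : Nest G b) (m : L G) (H : ℂ → ℂ) (E : V) : ℂ :=
  H (chI (D.τ m) m E) * ((1 + (D.τ m * chI (D.τ m) m E) ^ 2) / E.1)

/-- Arc integral in the chart. -/
noncomputable def II (D : Nest G b) (m : L G) (H : ℂ → ℂ) : ℂ := arcI b m (Xc D m H)

/-- The arc in the chart. -/
def AA (D : Nest G b) (m : L G) : Set ℝ := {t | Arc b m (Xi (D.τ m) m t)}

variable {D : Nest G b} {m m' : L G} {E : V} {H K : ℂ → ℂ} {t : ℝ}

theorem chI_smul (τ : ℝ) (m : L G) {c : ℂ} (hc : c ≠ 0) (E : V) : chI τ m (c • E) = chI τ m E := by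
  unfold chI
  simp only [Prod.smul_fst, Prod.smul_snd, smul_eq_mul]
  rw [← mul_div_mul_left ((starRingEnd ℂ) (ee m) * E.2.1 - ee m * E.2.2) _ hc]
  congr 1 <;> ring

theorem exp_log {r : ℝ} (hr : 0 < r) : exp (-1 * (Real.log r : ℂ)) = (r : ℂ)⁻¹ := by
  rw [neg_one_mul, exp_neg, ← ofReal_exp, Real.exp_log hr]

theorem hom_Xc (D : Nest G b) (m : L G) (H : ℂ → ℂ) : Hom 1 (Xc D m H) := by
  intro r hr E _
  have hr' : (r : ℂ) ≠ 0 := ofReal_ne_zero.2 hr.ne'
  rw [exp_log hr]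
  unfold Xc
  rw [chI_smul _ _ hr', Prod.smul_fst, smul_eq_mul]
  simp only [div_eq_mul_inv, mul_inv]
  ring

theorem Xc_smul_Xi (D : Nest G b) (m : L G) (H : ℂ → ℂ) {c : ℂ} (hc : c ≠ 0) (t : ℝ) :
    Xc D m H (c • Xi (D.τ m) m t) = H t * c⁻¹ := by
  unfold Xc
  have h1 : (1 + (D.τ m * t : ℂ) ^ 2) ≠ 0 := by
    have : (0 : ℝ) < 1 + (D.τ m * t) ^ 2 := by positivity
    exact_mod_cast this.ne'
  rw [chI_Xi (D.τ_pos m).ne' hc, Prod.smul_fst, Xi_fst, smul_eq_mul, div_mul_eq_div_div_swap,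
    div_self h1, one_div]

/-- Points of an arc in the chart. -/
theorem exists_chart (D : Nest G b) (h : Arc b m E) :
    ∃ t ∈ AA D m, ∃ c : ℝ, 0 < c ∧ E = (c : ℂ) • Xi (D.τ m) m t := by
  obtain ⟨h1, -, h3⟩ := D.arc_chart h
  have e : chI (D.τ m) m E = ((chI (D.τ m) m E).re : ℂ) := by
    apply Complex.ext <;> simp [h1]
  have hc : 0 < E.1.re / (1 + (D.τ m * (chI (D.τ m) m E).re) ^ 2) :=
    div_pos h.1.2.1 (by positivity)
  generalize E.1.re / (1 + (D.τ m * (chI (D.τ m) m E).re) ^ 2) = c at h3 hc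
  rw [e] at h3
  refine ⟨(chI (D.τ m) m E).re, ?_, c, hc, h3⟩
  have h4 := h.smul (inv_pos.2 hc)
  have hc' : (c : ℂ) ≠ 0 := ofReal_ne_zero.2 hc.ne'
  rw [h3, smul_smul, ofReal_inv, inv_mul_cancel₀ hc', one_smul] at h4
  exact h4

theorem aa_le (h : t ∈ AA D m) : |t| ≤ D.q := by
  have h1 := (D.arc_chart h).2.1
  have h2 := chI_Xi (D.τ_pos m).ne' one_ne_zero m (t : ℂ)
  rw [one_smul] at h2
  rwa [h2, ofReal_re] at h1

theorem aa_lt (h : t ∈ AA D m) : |t| < 1 := (aa_le h).trans_lt D.q_lt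

theorem mem_ball_R (D : Nest G b) {y : ℂ} (h : ‖y‖ ≤ 1) : y ∈ ball (0 : ℂ) D.R :=
  mem_ball_zero_iff.2 (h.trans_lt D.one_lt_R)

theorem aa_norm (h : t ∈ AA D m) : ‖(t : ℂ)‖ ≤ 1 := by
  rw [norm_real, Real.norm_eq_abs]
  exact (aa_lt h).le

theorem norm_chI_le (D : Nest G b) (h : Arc b m E) : ‖chI (D.τ m) m E‖ ≤ D.q := by
  obtain ⟨t, ht, c, hc, rfl⟩ := exists_chart D h
  rw [chI_Xi (D.τ_pos m).ne' (ofReal_ne_zero.2 hc.ne'), norm_real, Real.norm_eq_abs]
  exact aa_le ht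

theorem cont_Xc (hH : ContinuousOn H (closedBall 0 1)) : ContinuousOn (Xc D m H) {Y | Arc b m Y} := by
  have h := continuousOn_chI D.toNest0 m
  refine (hH.comp h fun Y hY => mem_closedBall_zero_iff.2 ((norm_chI_le D hY).trans D.q_lt.le)).mul
    (ContinuousOn.div (continuousOn_const.add ((continuousOn_const.mul h).pow 2))
      continuous_fst.continuousOn fun Y hY h0 => ?_)
  have := hY.1.2.1
  rw [h0] at this
  simp at this

theorem II_congr (h : ∀ t ∈ AA D m, H t = K t) : II D m H = II D m K := by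
  refine arcI_congr fun Y hY => ?_
  obtain ⟨t, ht, c, hc, rfl⟩ := exists_chart D hY
  have hc' : (c : ℂ) ≠ 0 := ofReal_ne_zero.2 hc.ne'
  rw [Xc_smul_Xi D m _ hc', Xc_smul_Xi D m _ hc', h t ht]

theorem II_sum {ι : Type*} (s : Finset ι) {F : ι → ℂ → ℂ}
    (h : ∀ i ∈ s, ContinuousOn (F i) (closedBall 0 1)) :
    II D m (fun y => ∑ i ∈ s, F i y) = ∑ i ∈ s, II D m (F i) := by
  unfold II
  rw [← arcI_sum s fun i hi => cont_Xc (h i hi)]
  refine arcI_congr fun Y _ => ?_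
  simp only [Xc, Finset.sum_mul]

theorem II_add (hH : ContinuousOn H (closedBall 0 1)) (hK : ContinuousOn K (closedBall 0 1)) :
    II D m (fun y => H y + K y) = II D m H + II D m K := by
  unfold II
  rw [← arcI_add (cont_Xc hH) (cont_Xc hK)]
  refine arcI_congr fun Y _ => ?_
  simp only [Xc, add_mul]

theorem II_zero : II D m (fun _ => 0) = 0 := by
  have := arcI_const_mul (b := b) (m := m) 0 (Xc D m fun _ => 0)
  rw [zero_mul] at this
  refine Eq.trans (arcI_congr fun Y _ => ?_) this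
  simp [Xc]

/-- The real chart map. -/
noncomputable def pr (D : Nest G b) (m m' : L G) (t : ℝ) : ℝ := (D.psi m m' t).re

/-- The real weight. -/
noncomputable def wr (D : Nest G b) (m m' : L G) (t : ℝ) : ℝ := Real.exp (-(D.lj m m' t).re)

theorem wr_pos (D : Nest G b) (m m' : L G) (t : ℝ) : 0 < wr D m m' t := Real.exp_pos _

theorem psi_real (he : Edge b m m') (ht : |t| < 1) : D.psi m m' t = pr D m m' t := by
  apply Complex.ext <;> simp [pr, (D.real m m' he t (ht.trans D.one_lt_R)).1]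

theorem lj_real (he : Edge b m m') (ht : |t| < 1) : D.lj m m' t = ((D.lj m m' t).re : ℂ) := by
  apply Complex.ext <;> simp [(D.real m m' he t (ht.trans D.one_lt_R)).2]

theorem exp_lj_real (he : Edge b m m') (ht : |t| < 1) : exp (-D.lj m m' t) = wr D m m' t := by
  rw [wr, ofReal_exp, ofReal_neg, ← lj_real he ht]

theorem mir_Xi (he : Edge b m m') (ht : |t| < 1) : mir m (Xi (D.τ m') m' t) =
    (((wr D m m' t)⁻¹ : ℝ) : ℂ) • Xi (D.τ m) m (pr D m m' t) := by
  rw [D.refl_Xi m m' he t (mem_ball_R D (by rw [norm_real]; exact ht.le)), psi_real he ht,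
    ofReal_inv, ← exp_lj_real he ht, exp_neg, inv_inv]

theorem cont_comp (he : Edge b m m') (hH : ContinuousOn H (closedBall 0 1)) :
    ContinuousOn (fun y => exp (-D.lj m m' y) * H (D.psi m m' y)) (closedBall 0 1) := by
  have hs : closedBall (0 : ℂ) 1 ⊆ ball 0 D.R := closedBall_subset_ball D.one_lt_R
  refine (((D.lj_diff m m' he).continuousOn.mono hs).neg.cexp).mul
    (hH.comp ((D.into m m' he).1.continuousOn.mono hs) fun y hy => ?_)
  exact mem_closedBall_zero_iff.2 (((D.into m m' he).2 y (hs hy)).trans D.q_lt.le)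

open Classical in
theorem sum_StE {M : Type*} [AddCommMonoid M] (σ : St G) (f : St G → M) :
    (∑ σ', if StE b σ σ' then f σ' else 0) =
      ∑ m', if Edge b σ.2 m' then f (σ.1 + clL σ.2, m') else 0 := by
  rw [Fintype.sum_prod_type, Finset.sum_comm]
  refine Finset.sum_congr rfl fun m' _ => ?_
  rw [Finset.sum_eq_single (σ.1 + clL σ.2)]
  · simp [StE]
  · intro q _ hq
    rw [if_neg fun h => hq h.2]
  · simp

variable [hG : Fact (2 ≤ G)]

theorem aa_step (he : Edge b m m') (h : t ∈ AA D m') : pr D m m' t ∈ AA D m := by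
  have h1 := (Arc.step he h).smul (wr_pos D m m' t)
  rw [mir_Xi he (aa_lt h), smul_smul, ← ofReal_mul, mul_inv_cancel₀ (wr_pos D m m' t).ne',
    ofReal_one, one_smul] at h1
  exact h1

theorem II_step (hH : ContinuousOn H (closedBall 0 1)) : II D m H =
    ∑ m', if Edge b m m' then II D m' (fun y => exp (-D.lj m m' y) * H (D.psi m m' y)) else 0 := by
  unfold II
  rw [arcI_step (hom_Xc D m H) (cont_Xc hH)]
  refine Finset.sum_congr rfl fun m' _ => ?_
  split_ifs with he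
  · refine arcI_congr fun Y hY => ?_
    obtain ⟨t, ht, c, hc, rfl⟩ := exists_chart D hY
    have hc' : (c : ℂ) ≠ 0 := ofReal_ne_zero.2 hc.ne'
    have hw : (wr D m m' t : ℂ) ≠ 0 := ofReal_ne_zero.2 (wr_pos D m m' t).ne'
    rw [map_smul, mir_Xi he (aa_lt ht), smul_smul, Xc_smul_Xi D m' _ hc',
      Xc_smul_Xi D m _ (mul_ne_zero hc' (by rw [ofReal_inv]; exact inv_ne_zero hw)),
      exp_lj_real he (aa_lt ht), psi_real he (aa_lt ht), ofReal_inv, mul_inv, inv_inv]
    ring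
  · rfl

open Classical in
/-- Invariance of the arc integrals under the transfer operator. -/
theorem II_inv {H : St G → ℂ → ℂ} (hH : ∀ σ, ContinuousOn (H σ) (closedBall 0 1)) :
    (∑ σ' : St G, II D σ'.2 fun y => ∑ σ, if StE b σ σ' then
      exp (-D.lj σ.2 σ'.2 y) * H σ (D.psi σ.2 σ'.2 y) else 0) = ∑ σ, II D σ.2 (H σ) := by
  have e : ∀ σ' : St G, (II D σ'.2 fun y => ∑ σ, if StE b σ σ' then
      exp (-D.lj σ.2 σ'.2 y) * H σ (D.psi σ.2 σ'.2 y) else 0) = ∑ σ, if StE b σ σ' then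
        II D σ'.2 (fun y => exp (-D.lj σ.2 σ'.2 y) * H σ (D.psi σ.2 σ'.2 y)) else 0 := by
    intro σ'
    rw [II_sum]
    · refine Finset.sum_congr rfl fun σ _ => ?_
      split_ifs
      · rfl
      · exact II_zero
    · intro σ _
      split_ifs with h
      · exact cont_comp h.1 (hH σ)
      · exact continuousOn_const
  simp only [e]
  rw [Finset.sum_comm]
  refine Finset.sum_congr rfl fun σ _ => ?_
  rw [II_step (hH σ), sum_StE]

omit hG in
theorem II_real {h : ℝ → ℝ} : II D m (fun y => (h y.re : ℂ)) = arcI b m fun E =>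
    ((h (chI (D.τ m) m E).re * ((1 + (D.τ m * (chI (D.τ m) m E).re) ^ 2) / E.1.re) : ℝ) : ℂ) := by
  refine arcI_congr fun Y hY => ?_
  obtain ⟨h1, -, -⟩ := D.arc_chart hY
  have e : chI (D.τ m) m Y = ((chI (D.τ m) m Y).re : ℂ) := by
    apply Complex.ext <;> simp [h1]
  unfold Xc
  push_cast
  rw [← e, ← hY.1.1.fst_eq]

omit hG in
theorem re_chI_mem (D : Nest G b) (h : Arc b m E) : (chI (D.τ m) m E).re ∈ AA D m := by
  obtain ⟨t, ht, c, hc, rfl⟩ := exists_chart D h
  rwa [chI_Xi (D.τ_pos m).ne' (ofReal_ne_zero.2 hc.ne'), ofReal_re]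

omit hG in
theorem II_nonneg {h : ℝ → ℝ} (h0 : ∀ t ∈ AA D m, 0 ≤ h t) :
    0 ≤ (II D m fun y => (h y.re : ℂ)).re := by
  rw [II_real]
  exact arcI_nonneg fun Y hY => mul_nonneg (h0 _ (re_chI_mem D hY))
    (div_nonneg (by positivity) hY.1.2.1.le)

omit hG in
theorem cont_re {h : ℝ → ℝ} (hc : ContinuousOn h (Icc (-1) 1)) :
    ContinuousOn (fun y : ℂ => (h y.re : ℂ)) (closedBall 0 1) :=
  continuous_ofReal.comp_continuousOn (hc.comp continuous_re.continuousOn fun y hy =>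
    abs_le.1 ((abs_re_le_norm y).trans (mem_closedBall_zero_iff.1 hy)))

theorem II_pos {h : ℝ → ℝ} (hc : ContinuousOn h (Icc (-1) 1)) (h0 : ∀ t ∈ AA D m, 0 ≤ h t)
    (ht : t ∈ AA D m) (h1 : 0 < h t) : 0 < (II D m fun y => (h y.re : ℂ)).re := by
  rw [II_real]
  have hn := nul_Xi (D.τ m) m t
  have hy : xi (pt (Xi (D.τ m) m t)) = (((Xi (D.τ m) m t).1.re⁻¹ : ℝ) : ℂ) • Xi (D.τ m) m t := by
    conv_rhs => rw [hn.eq_smul_xi]
    rw [Prod.smul_fst, smul_smul]
    have : (xi (pt (Xi (D.τ m) m t))).1 = 1 := rfl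
    rw [this, smul_eq_mul, mul_one, ofReal_re, ← ofReal_mul, inv_mul_cancel₀ hn.2.1.ne', ofReal_one,
      one_smul]
  have hc1 := continuous_re.comp_continuousOn (continuousOn_chI D.toNest0 m)
  refine arcI_pos (y := pt (Xi (D.τ m) m t)) ((hc.comp hc1 fun Y hY =>
    abs_le.1 (aa_lt (re_chI_mem D hY)).le).mul (ContinuousOn.div
      (continuousOn_const.add ((continuousOn_const.mul hc1).pow 2))
      (continuous_re.comp continuous_fst).continuousOn fun Y hY => hY.1.2.1.ne'))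
    (fun Y hY => mul_nonneg (h0 _ (re_chI_mem D hY)) (div_nonneg (by positivity) hY.1.2.1.le))
    (hy ▸ Arc.smul ht (inv_pos.2 hn.2.1)) (mul_pos ?_ (div_pos (by positivity) ?_))
  · rwa [hy, chI_Xi (D.τ_pos m).ne' (ofReal_ne_zero.2 (inv_pos.2 hn.2.1).ne'), ofReal_re]
  · simp [xi]

theorem zero_mem (D : Nest G b) (m : L G) : (0 : ℝ) ∈ AA D m := by
  have := arc_center b m
  rwa [← Xi_zero (D.τ m), ← ofReal_zero] at this

end Leb

end Pool.Agent.Lib.MP_de7bb2_an
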