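import Pool.Agent.Lib.MP_de7bb2_an.H20LebA

/-! Real solutions of the transfer equation. Auxiliary file of TASK LEB. -/

namespace Pool.Agent.Lib.MP_de7bb2_an

open Metric Set Complex Filter Topology

namespace Leb

variable {G : ℕ} {b : ZMod 2}

open Classical in
/-- The transfer operator on real functions. -/
noncomputable def Lr (D : Nest G b) (u : St G → ℝ → ℝ) (σ' : St G) (t : ℝ) : ℝ :=
  ∑ σ, if StE b σ σ' then wr D σ.2 σ'.2 t * u σ (pr D σ.2 σ'.2 t) else 0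

/-- The arc integral of a real function. -/
noncomputable def JJ (D : Nest G b) (m : L G) (h : ℝ → ℝ) : ℝ := (II D m fun y => (h y.re : ℂ)).re

variable {D : Nest G b} {m m' : L G} {t : ℝ} {u v : St G → ℝ → ℝ} {σ σ' : St G} {h k : ℝ → ℝ}

theorem maps_real (D : Nest G b) : MapsTo (fun t : ℝ => (t : ℂ)) (Icc (-1) 1) (ball 0 D.R) :=
  fun t ht => mem_ball_R D (by rw [norm_real]; exact abs_le.2 ht)

theorem cont_pr (he : Edge b m m') : ContinuousOn (pr D m m') (Icc (-1) 1) :=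
  continuous_re.comp_continuousOn ((D.into m m' he).1.continuousOn.comp
    continuous_ofReal.continuousOn (maps_real D))

theorem cont_lj (he : Edge b m m') : ContinuousOn (fun t : ℝ => (D.lj m m' t).re) (Icc (-1) 1) :=
  continuous_re.comp_continuousOn ((D.lj_diff m m' he).continuousOn.comp
    continuous_ofReal.continuousOn (maps_real D))

theorem cont_wr (he : Edge b m m') : ContinuousOn (wr D m m') (Icc (-1) 1) :=
  Real.continuous_exp.comp_continuousOn (cont_lj he).neg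

theorem maps_pr (he : Edge b m m') : MapsTo (pr D m m') (Icc (-1) 1) (Icc (-1) 1) := fun _ ht =>
  abs_le.1 ((abs_re_le_norm _).trans (((D.into m m' he).2 _ (maps_real D ht)).trans D.q_lt.le))

theorem cont_Lr (hu : ∀ σ, ContinuousOn (u σ) (Icc (-1) 1)) (σ' : St G) :
    ContinuousOn (Lr D u σ') (Icc (-1) 1) := by
  refine continuousOn_finsetSum _ fun σ _ => ?_
  split_ifs with he
  · exact (cont_wr he.1).mul ((hu σ).comp (cont_pr he.1) (maps_pr he.1))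
  · exact continuousOn_const

theorem Lr_sub (u v : St G → ℝ → ℝ) (σ' : St G) (t : ℝ) :
    Lr D (fun σ t => u σ t - v σ t) σ' t = Lr D u σ' t - Lr D v σ' t := by
  unfold Lr
  rw [← Finset.sum_sub_distrib]
  refine Finset.sum_congr rfl fun σ _ => ?_
  split_ifs
  · ring
  · ring

theorem JJ_congr (e : ∀ t ∈ AA D m, h t = k t) : JJ D m h = JJ D m k :=
  congrArg re (II_congr fun t ht => by rw [ofReal_re, e t ht])

theorem JJ_add (hh : ContinuousOn h (Icc (-1) 1)) (hk : ContinuousOn k (Icc (-1) 1)) :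
    JJ D m (fun t => h t + k t) = JJ D m h + JJ D m k := by
  unfold JJ
  rw [← add_re, ← II_add (cont_re hh) (cont_re hk)]
  simp only [ofReal_add]

variable [hG : Fact (2 ≤ G)]

theorem JJ_inv (hu : ∀ σ, ContinuousOn (u σ) (Icc (-1) 1)) :
    ∑ σ' : St G, JJ D σ'.2 (Lr D u σ') = ∑ σ : St G, JJ D σ.2 (u σ) := by
  unfold JJ
  rw [← re_sum, ← re_sum, ← II_inv fun σ => cont_re (hu σ)]
  refine congrArg re (Finset.sum_congr rfl fun σ' _ => II_congr fun t ht => ?_)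
  rw [ofReal_re, Lr, ofReal_sum]
  refine Finset.sum_congr rfl fun σ _ => ?_
  split_ifs with he
  · rw [exp_lj_real he.1 (aa_lt ht), ofReal_mul]
    rfl
  · rfl

theorem sub_eq (hu : ∀ σ, ContinuousOn (u σ) (Icc (-1) 1))
    (hs : ∀ σ, ∀ t ∈ AA D σ.2, u σ t ≤ Lr D u σ t) (ht : t ∈ AA D σ.2) : Lr D u σ t = u σ t := by
  have hc : ∀ σ, ContinuousOn (fun t => Lr D u σ t - u σ t) (Icc (-1) 1) := fun σ =>
    (cont_Lr hu σ).sub (hu σ)
  have e : ∀ σ : St G, JJ D σ.2 (Lr D u σ) =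
      JJ D σ.2 (u σ) + JJ D σ.2 fun t => Lr D u σ t - u σ t := fun σ => by
    rw [← JJ_add (hu σ) (hc σ)]
    exact JJ_congr fun t _ => by ring
  have h1 := JJ_inv (D := D) hu
  simp only [e, Finset.sum_add_distrib, add_eq_left] at h1
  have h0 : ∀ σ : St G, ∀ t ∈ AA D σ.2, 0 ≤ Lr D u σ t - u σ t := fun σ t ht =>
    sub_nonneg.2 (hs σ t ht)
  have h2 := (Finset.sum_eq_zero_iff_of_nonneg fun σ _ => II_nonneg (h0 σ)).1 h1 σ
    (Finset.mem_univ _)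
  by_contra hne
  exact (II_pos (hc σ) (h0 σ) ht (lt_of_le_of_ne (h0 σ t ht) (sub_ne_zero.2 hne).symm)).ne' h2

theorem back (h0 : ∀ σ, ∀ t ∈ AA D σ.2, 0 ≤ u σ t) (ht : t ∈ AA D σ'.2) (hz : Lr D u σ' t = 0)
    (he : StE b σ σ') : u σ (pr D σ.2 σ'.2 t) = 0 := by
  unfold Lr at hz
  have := (Finset.sum_eq_zero_iff_of_nonneg fun ρ _ => ?_).1 hz σ (Finset.mem_univ _)
  · rw [if_pos he] at this
    exact (mul_eq_zero.1 this).resolve_left (wr_pos D _ _ t).ne'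
  · split_ifs with h
    · exact mul_nonneg (wr_pos D _ _ t).le (h0 _ _ (aa_step h.1 ht))
    · exact le_rfl

/-- Real solutions of the transfer equation. -/
def Sol (D : Nest G b) (u : St G → ℝ → ℝ) : Prop :=
  (∀ σ, ContinuousOn (u σ) (Icc (-1) 1)) ∧ (∀ σ, AnalyticOnNhd ℝ (u σ) (Ioo (-1) 1)) ∧
    ∀ σ, ∀ t ∈ AA D σ.2, Lr D u σ t = u σ t

theorem Sol.abs_eq (hu : Sol D u) (ht : t ∈ AA D σ.2) :
    Lr D (fun σ t => |u σ t|) σ t = |u σ t| := by
  refine sub_eq (u := fun σ t => |u σ t|) (fun σ => (hu.1 σ).abs) (fun σ t ht => ?_) ht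
  rw [← hu.2.2 σ t ht]
  unfold Lr
  refine (Finset.abs_sum_le_sum_abs _ _).trans (Finset.sum_le_sum fun ρ _ => ?_)
  split_ifs
  · rw [abs_mul, abs_of_pos (wr_pos D _ _ t)]
  · simp

theorem Sol.back_zero (hu : Sol D u) (ht : t ∈ AA D σ'.2) (hz : u σ' t = 0) (he : StE b σ σ') :
    u σ (pr D σ.2 σ'.2 t) = 0 :=
  abs_eq_zero.1 (back (u := fun σ t => |u σ t|) (fun _ _ _ => abs_nonneg _) ht
    (by rw [hu.abs_eq ht, hz, abs_zero]) he)

theorem Sol.back_nonneg (hu : Sol D u) (ht : t ∈ AA D σ'.2) (hz : 0 ≤ u σ' t) (he : StE b σ σ') :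
    0 ≤ u σ (pr D σ.2 σ'.2 t) :=
  abs_eq_self.1 (sub_eq_zero.1 (back (u := fun σ t => |u σ t| - u σ t)
    (fun _ _ _ => sub_nonneg.2 (le_abs_self _)) ht
    (by rw [Lr_sub, hu.abs_eq ht, hu.2.2 _ _ ht, abs_of_nonneg hz, sub_self]) he))

theorem pr_ray {m₁ m₂ : L G} {t₁ t₂ : ℝ} (h₁ : Edge b m m₁) (h₂ : Edge b m m₂)
    (a₁ : t₁ ∈ AA D m₁) (a₂ : t₂ ∈ AA D m₂) (e : pr D m m₁ t₁ = pr D m m₂ t₂) :
    ∃ r : ℝ, 0 < r ∧ Xi (D.τ m₁) m₁ t₁ = (r : ℂ) • Xi (D.τ m₂) m₂ t₂ := by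
  have w₁ := wr_pos D m m₁ t₁
  have w₂ := wr_pos D m m₂ t₂
  refine ⟨(wr D m m₁ t₁)⁻¹ * wr D m m₂ t₂, by positivity, ?_⟩
  rw [← refl_refl m (Xi (D.τ m₁) m₁ t₁), ← refl_refl m (Xi (D.τ m₂) m₂ t₂), ← map_smul,
    mir_Xi h₁ (aa_lt a₁), mir_Xi h₂ (aa_lt a₂), smul_smul, ← ofReal_mul,
    mul_inv_cancel_right₀ w₂.ne', e]

theorem pr_inj (he : Edge b m m') : InjOn (pr D m m') (AA D m') := by
  intro t₁ a₁ t₂ a₂ e
  obtain ⟨r, hr, h⟩ := pr_ray he he a₁ a₂ e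
  have h1 := chI_Xi (D.τ_pos m').ne' one_ne_zero m' (t₁ : ℂ)
  rw [one_smul, h, chI_Xi (D.τ_pos m').ne' (ofReal_ne_zero.2 hr.ne')] at h1
  exact (ofReal_injective h1).symm

theorem pr_not_far {m₁ m₂ : L G} {t₁ t₂ : ℝ} (h₁ : Edge b m m₁) (h₂ : Edge b m m₂)
    (a₁ : t₁ ∈ AA D m₁) (a₂ : t₂ ∈ AA D m₂) (e : pr D m m₁ t₁ = pr D m m₂ t₂) : ¬ Far m₁ m₂ := by
  intro hf
  obtain ⟨r, hr, h⟩ := pr_ray h₁ h₂ a₁ a₂ e
  have b₂ := Arc.smul a₂ hr
  rw [← h] at b₂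
  obtain ⟨η, hη, hg⟩ := far_gap (G := G)
  have c₁ := (arc_iff.1 a₁).2
  have c₂ := (arc_iff.1 b₂).2.2.1
  have := hg m₁ m₂ hf _ c₁.1 c₁.2.1
  have := mul_pos hη b₂.1.2.1
  linarith

/-- A predecessor state. -/
def pre (σ : St G) (j : L G) : St G := (σ.1 + clL (σ.2 + j), σ.2 + j)

omit hG in
theorem stE_pre {j : L G} (hf : Far σ.2 (σ.2 + j)) : StE b (pre σ j) σ :=
  ⟨hf.symm.edge b, by simp only [pre, add_assoc, clL_add_self, add_zero]⟩

theorem far_j (c : Bool) (m : L G) : Far m (m + if c then 2 else 4) := by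
  cases c
  · exact far_add_four m
  · exact far_add_two m

theorem Sol.infinite (hu : Sol D u) (ht : t ∈ AA D σ.2) (hz : u σ t = 0) :
    {z : St G × ℝ | z.2 ∈ AA D z.1.2 ∧ u z.1 z.2 = 0}.Infinite := by
  intro hf
  have := hf.fintype
  let F : {z : St G × ℝ | z.2 ∈ AA D z.1.2 ∧ u z.1 z.2 = 0} × Bool →
      {z : St G × ℝ | z.2 ∈ AA D z.1.2 ∧ u z.1 z.2 = 0} := fun p =>
    ⟨(pre p.1.1.1 (if p.2 then 2 else 4),
      pr D (pre p.1.1.1 (if p.2 then 2 else 4)).2 p.1.1.1.2 p.1.1.2),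
      aa_step (stE_pre (far_j _ _)).1 p.1.2.1, hu.back_zero p.1.2.1 p.1.2.2 (stE_pre (far_j _ _))⟩
  have hF : Function.Injective F := by
    rintro ⟨⟨⟨⟨q₁, m₁⟩, t₁⟩, a₁⟩, c₁⟩ ⟨⟨⟨⟨q₂, m₂⟩, t₂⟩, a₂⟩, c₂⟩ e
    simp only [F, pre, Subtype.mk.injEq, Prod.mk.injEq] at e
    obtain ⟨⟨e1, e2⟩, e3⟩ := e
    have g₁ := (far_j c₁ m₁).symm.edge b
    have g₂ := (far_j c₂ m₂).symm.edge b
    rw [e2] at e1 e3 g₁
    have nf := pr_not_far g₁ g₂ a₁.1 a₂.1 e3
    have ec : c₁ = c₂ := by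
      cases c₁ <;> cases c₂
      · rfl
      · refine absurd ?_ nf
        have : m₂ = m₁ + 2 := by
          simp only [Bool.false_eq_true, if_false, if_true] at e2
          linear_combination -e2
        exact this ▸ far_add_two m₁
      · refine absurd ?_ nf
        have : m₁ = m₂ + 2 := by
          simp only [Bool.false_eq_true, if_false, if_true] at e2
          linear_combination e2
        exact this ▸ (far_add_two m₂).symm
      · rfl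
    subst ec
    obtain rfl : m₁ = m₂ := add_right_cancel e2
    obtain rfl : q₁ = q₂ := add_right_cancel e1
    obtain rfl : t₁ = t₂ := pr_inj g₁ a₁.1 a₂.1 e3
    rfl
  have h1 := Fintype.card_le_of_injective F hF
  have h2 : 0 < Fintype.card {z : St G × ℝ | z.2 ∈ AA D z.1.2 ∧ u z.1 z.2 = 0} :=
    Fintype.card_pos_iff.2 ⟨⟨(σ, t), ht, hz⟩⟩
  rw [Fintype.card_prod, Fintype.card_bool] at h1
  omega

theorem Sol.eq_zero (hu : Sol D u) (ht : t ∈ AA D σ.2) (hz : u σ t = 0) (ρ : St G) {x : ℝ}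
    (hx : |x| < 1) : u ρ x = 0 := by
  obtain ⟨σ₀, h0⟩ : ∃ σ₀ : St G, {t | t ∈ AA D σ₀.2 ∧ u σ₀ t = 0}.Infinite := by
    by_contra hn
    push Not at hn
    refine hu.infinite ht hz ((Set.finite_iUnion fun σ₀ =>
      (Set.finite_singleton σ₀).prod (hn σ₀)).subset fun z hz => mem_iUnion.2 ⟨z.1, rfl, hz⟩)
  have h1 : {t | t ∈ AA D ρ.2 ∧ u ρ t = 0}.Infinite := by
    induction reach b ρ σ₀ using Relation.ReflTransGen.head_induction_on with
    | refl => exact h0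
    | head he _ ih =>
      refine (ih.image ((pr_inj he.1).mono fun t ht => ht.1)).mono ?_
      rintro _ ⟨t, ht, rfl⟩
      exact ⟨aa_step he.1 ht.1, hu.back_zero ht.1 ht.2 he⟩
  obtain ⟨y, hy, hacc⟩ := h1.exists_accPt_of_subset_isCompact (isCompact_Icc (a := -D.q) (b := D.q))
    fun t ht => abs_le.1 (aa_le ht.1)
  exact (hu.2.1 ρ).eqOn_zero_of_preconnected_of_frequently_eq_zero isPreconnected_Ioo
    (abs_lt.1 ((abs_le.2 hy).trans_lt D.q_lt))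
    ((accPt_iff_frequently_nhdsNE.1 hacc).mono fun t ht => ht.2) (abs_lt.1 hx)

theorem Sol.pos (hu : Sol D u) (h0 : 0 < u σ 0) (ρ : St G) : ∀ x ∈ AA D ρ.2, 0 < u ρ x := by
  have hne : ∀ ρ : St G, ∀ x ∈ AA D ρ.2, u ρ x ≠ 0 := fun ρ x hx hz =>
    h0.ne' (hu.eq_zero hx hz σ (by simp))
  have ivt : ∀ ρ : St G, ∀ y ∈ AA D ρ.2, 0 ≤ u ρ y → ∀ x ∈ AA D ρ.2, 0 < u ρ x := by
    intro ρ y hy h1 x hx
    by_contra hn
    obtain ⟨η, -, -, hη⟩ := D.arc_Xi_iff ρ.2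
    have e : AA D ρ.2 = Icc (-η) η := Set.ext fun t => (hη t).trans abs_le
    have hp : IsPreconnected (AA D ρ.2) := e ▸ isPreconnected_Icc
    obtain ⟨z, hz, h2⟩ := hp.intermediate_value hx hy
      ((hu.1 ρ).mono fun t ht => abs_le.1 (aa_lt ht).le) ⟨not_lt.1 hn, h1⟩
    exact hne ρ z hz h2
  induction reach b ρ σ using Relation.ReflTransGen.head_induction_on with
  | refl => exact ivt σ 0 (zero_mem D _) h0.le
  | head he _ ih =>
    exact ivt _ _ (aa_step he.1 (zero_mem D _))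
      (hu.back_nonneg (zero_mem D _) (ih 0 (zero_mem D _)).le he)

end Leb

end Pool.Agent.Lib.MP_de7bb2_an
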