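import Pool.Agent.Lib.MP_de7bb2_an.H20Shad

/-! First variation of the length of closed geodesics. TASK LEN. -/

namespace Pool.Agent.Lib.MP_de7bb2_an

open Metric Set Complex

namespace Len

/-- The point of the axis at position `u`. -/
noncomputable def c0 (X Y : V) (u : ℝ) : V :=
  ((Real.exp u / 2 : ℝ) : ℂ) • X + ((Real.exp (-u) / 2 : ℝ) : ℂ) • Y

variable {X Y : V}

theorem exp_mul_exp_neg (u : ℝ) : Real.exp u * Real.exp (-u) = 1 := by
  rw [← Real.exp_add]; simp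

theorem hyp_c0 (hX : Nul X) (hY : Nul Y) (hb : br X Y = 2) (u : ℝ) : Hyp (c0 X Y u) := by
  refine ⟨(hX.1.smul _).add (hY.1.smul _), ?_, ?_⟩
  · have h1 := hX.2.1
    have h2 := hY.2.1
    have h3 := Real.exp_pos u
    have h4 := Real.exp_pos (-u)
    simp only [c0, Prod.fst_add, Prod.smul_fst, smul_eq_mul, add_re, re_ofReal_mul]
    positivity
  · have hb' : br Y X = 2 := by rw [br_comm, hb]
    have h := congrArg (fun x : ℝ => (x : ℂ)) (exp_mul_exp_neg u)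
    simp only [c0, br_add_left, br_add_right, br_smul_left, br_smul_right, hX.2.2, hY.2.2, hb, hb']
    simp only [ofReal_mul, ofReal_one, ofReal_div, ofReal_ofNat] at h ⊢
    linear_combination h

theorem continuous_c0 (X Y : V) : Continuous (c0 X Y) := by
  unfold c0
  fun_prop

/-- The quadratic relation between the frame coordinates of a point of the hyperboloid. -/
theorem frame_sq (hX : Nul X) (hY : Nul Y) (hb : br X Y = 2) {Z : V} (hZ : Hyp Z) :
    (br Z Y).re * (br Z X).re = 1 + (br Z (cross Y X)).re ^ 2 / 4 := by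
  have hd := congrArg (fun W => br Z W) (frame_decomp hX.2.2 hY.2.2 hb Z)
  simp only [br_sub_right, br_add_right, br_smul_right, hZ.2.2] at hd
  rw [br_eq_ofReal hZ.1 hX.1, br_eq_ofReal hZ.1 hY.1,
    br_eq_ofReal hZ.1 (hY.1.cross hX.1)] at hd
  have h2 : ((1 : ℝ) : ℂ) = (((br Z Y).re / 2 * (br Z X).re + (br Z X).re / 2 * (br Z Y).re -
      (br Z (cross Y X)).re / 4 * (br Z (cross Y X)).re : ℝ) : ℂ) := by
    push_cast
    exact hd
  have h3 := ofReal_injective h2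
  linarith

theorem br_pos {Z W : V} (hZ : Hyp Z) (hW : Nul W) : 0 < (br Z W).re :=
  (div_pos hW.2.1 (by linarith [hZ.2.1])).trans_le (hZ.le_br hW.fut)

theorem re_bF {ι : Type} {Wf : ι → V} {Cb : ℝ} (h : Famy Wf Cb) {Z : V} (hZ : Hyp Z) :
    (bF Wf Z).re = ∑' i, ((br Z (Wf i)).re)⁻¹ ^ 2 := by
  have : bF Wf Z = ((∑' i, ((br Z (Wf i)).re)⁻¹ ^ 2 : ℝ) : ℂ) := by
    rw [bF, ofReal_tsum]
    refine tsum_congr fun i => ?_
    rw [br_eq_ofReal hZ.1 (h.1 i).1]
    push_cast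
    simp
  rw [this, ofReal_re]

theorem inv_sq_near {p x r : ℝ} (hp : 0 < p) (hr : r ≤ 1 / 5) (h : |x - p| ≤ r * p) :
    |x⁻¹ ^ 2 - p⁻¹ ^ 2| ≤ 4 * r * p⁻¹ ^ 2 := by
  have hr0 : 0 ≤ r := by
    by_contra hc
    push Not at hc
    have := abs_nonneg (x - p)
    nlinarith
  obtain ⟨h1, h2⟩ := abs_le.1 h
  have hx : 4 / 5 * p ≤ x := by nlinarith
  have hx' : x ≤ 6 / 5 * p := by nlinarith
  have hx0 : 0 < x := by linarith
  have e : x⁻¹ ^ 2 - p⁻¹ ^ 2 = (p - x) * (p + x) / x ^ 2 * p⁻¹ ^ 2 := by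
    field_simp
    ring
  rw [e, abs_mul, abs_of_nonneg (by positivity : 0 ≤ p⁻¹ ^ 2)]
  refine mul_le_mul_of_nonneg_right ?_ (by positivity)
  rw [abs_div, abs_mul, abs_of_pos (by positivity : 0 < x ^ 2), div_le_iff₀ (by positivity),
    abs_sub_comm, abs_of_pos (by linarith : 0 < p + x)]
  have h3 : |x - p| * (p + x) ≤ r * p * (11 / 5 * p) :=
    mul_le_mul h (by linarith) (by linarith) (by positivity)
  have h4 : (4 / 5 * p) ^ 2 ≤ x ^ 2 := pow_le_pow_left₀ (by positivity) hx 2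
  have h5 := mul_le_mul_of_nonneg_left h4 hr0
  have h6 : 0 ≤ r * p ^ 2 := by positivity
  nlinarith

/-- The product with a point of the hyperboloid, compared with the projection on the axis. -/
theorem br_near (hX : Nul X) (hY : Nul Y) (hb : br X Y = 2) {Z W : V} (hZ : Hyp Z) (hW : Hyp W)
    {r : ℝ} (hr : r ≤ 1 / 5) (h : |(br Z (cross Y X)).re| ≤ r) {u : ℝ}
    (hu : (Real.log (br Z Y).re - Real.log (br Z X).re) / 2 = u) :
    |(br Z W).re - (br (c0 X Y u) W).re| ≤ r * (br (c0 X Y u) W).re := by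
  have hP := br_pos hZ hY
  have hQ := br_pos hZ hX
  have hPQ := frame_sq hX hY hb hZ
  have hab := frame_sq hX hY hb hW
  have ha := br_pos hW hX
  have hb' := br_pos hW hY
  have hd := congrArg (fun Z' => br W Z') (frame_decomp hX.2.2 hY.2.2 hb Z)
  simp only [br_sub_right, br_add_right, br_smul_right] at hd
  rw [br_eq_ofReal hZ.1 hX.1, br_eq_ofReal hZ.1 hY.1, br_eq_ofReal hZ.1 (hY.1.cross hX.1),
    br_eq_ofReal hW.1 hX.1, br_eq_ofReal hW.1 hY.1, br_eq_ofReal hW.1 (hY.1.cross hX.1)] at hd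
  set P := (br Z Y).re
  set Q := (br Z X).re
  set R := (br Z (cross Y X)).re
  set a := (br W X).re with haa
  set b := (br W Y).re with hbb
  set q := (br W (cross Y X)).re
  have e1 : (br Z W).re = P / 2 * a + Q / 2 * b - R / 4 * q := by
    have : br W Z = ((P / 2 * a + Q / 2 * b - R / 4 * q : ℝ) : ℂ) := by
      push_cast
      exact hd
    rw [br_comm, this, ofReal_re]
  have e2 : (br (c0 X Y u) W).re = Real.exp u / 2 * a + Real.exp (-u) / 2 * b := by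
    rw [br_comm]
    simp only [c0, br_add_right, br_smul_right, add_re, re_ofReal_mul, haa, hbb]
  set σ := Real.exp ((Real.log P + Real.log Q) / 2) with hσ
  have hσ0 : 0 < σ := Real.exp_pos _
  have e3 : P = σ * Real.exp u := by
    rw [hσ, ← Real.exp_add, ← hu]
    conv_lhs => rw [← Real.exp_log hP]
    congr 1
    ring
  have e4 : Q = σ * Real.exp (-u) := by
    rw [hσ, ← Real.exp_add, ← hu]
    conv_lhs => rw [← Real.exp_log hQ]
    congr 1
    ring
  have e5 := exp_mul_exp_neg u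
  have e6 : σ ^ 2 = 1 + R ^ 2 / 4 := by
    rw [← hPQ, e3, e4]
    linear_combination (-σ ^ 2) * e5
  have hu1 := Real.exp_pos u
  have hu2 := Real.exp_pos (-u)
  set s := Real.exp u
  set t := Real.exp (-u)
  set p := s / 2 * a + t / 2 * b with hp
  have hp0 : 0 < p := by positivity
  have hq : |q| ≤ 2 * p := by
    refine abs_le_of_sq_le_sq' ?_ (by positivity) |> abs_le.2
    have : (2 * p) ^ 2 = (s * a - t * b) ^ 2 + 4 * (s * t) * (b * a) := by rw [hp]; ring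
    rw [this, e5, hab]
    nlinarith [sq_nonneg (s * a - t * b)]
  have hR0 := abs_nonneg R
  have hRR : R ^ 2 = |R| ^ 2 := (sq_abs R).symm
  have hσ1 : 1 ≤ σ := by nlinarith [sq_nonneg R]
  have hσ2 : σ - 1 ≤ |R| / 2 := by nlinarith
  have e7 : (br Z W).re - (br (c0 X Y u) W).re = (σ - 1) * p - R / 4 * q := by
    rw [e1, e2, e3, e4, hp]; ring
  rw [e7, e2]
  have h1 : |(σ - 1) * p| ≤ |R| / 2 * p := by
    rw [abs_of_nonneg (mul_nonneg (by linarith) hp0.le)]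
    exact mul_le_mul_of_nonneg_right hσ2 hp0.le
  have h2 : |R / 4 * q| ≤ |R| / 4 * (2 * p) := by
    rw [abs_mul, abs_div, abs_of_pos (by norm_num : (0 : ℝ) < 4)]
    exact mul_le_mul_of_nonneg_left hq (by positivity)
  have h3 := abs_sub ((σ - 1) * p) (R / 4 * q)
  have h4 := mul_le_mul_of_nonneg_right h hp0.le
  linarith

theorem bF_near {ι : Type} {Wf : ι → V} {Cb : ℝ} (hF : Famy Wf Cb) (hX : Nul X) (hY : Nul Y)
    (hb : br X Y = 2) {Z : V} (hZ : Hyp Z) {r : ℝ} (hr : r ≤ 1 / 5)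
    (h : |(br Z (cross Y X)).re| ≤ r) {u : ℝ}
    (hu : (Real.log (br Z Y).re - Real.log (br Z X).re) / 2 = u) :
    |(bF Wf Z).re - (bF Wf (c0 X Y u)).re| ≤ 4 * r * Cb := by
  have hc := hyp_c0 hX hY hb u
  have hr0 : 0 ≤ r := (abs_nonneg _).trans h
  obtain ⟨s1, -⟩ := hF.2 Z hZ
  obtain ⟨s2, b2⟩ := hF.2 _ hc
  rw [re_bF hF hZ, re_bF hF hc, ← s1.tsum_sub s2, ← Real.norm_eq_abs]
  refine (tsum_of_norm_bounded (s2.mul_left (4 * r)).hasSum fun i => ?_).trans ?_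
  · rw [Real.norm_eq_abs]
    exact inv_sq_near (one_pos.trans_le (hc.one_le_br (hF.1 i))) hr
      (br_near hX hY hb hZ (hF.1 i) hr h hu)
  · rw [tsum_mul_left]
    exact mul_le_mul_of_nonneg_left b2 (by positivity)

theorem continuous_b0 {ι : Type} {Wf : ι → V} {Cb : ℝ} (hF : Famy Wf Cb) (hX : Nul X)
    (hY : Nul Y) (hb : br X Y = 2) : Continuous fun u => (bF Wf (c0 X Y u)).re :=
  continuous_re.comp (hF.diffOn_bF.continuousOn.comp_continuous (continuous_c0 X Y)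
    fun u => (hyp_c0 hX hY hb u).near)

/-- The elementary estimate for the integrand. -/
theorem integrand {ε Cb b b0 s : ℝ} (hε : |ε| * (40 * Cb) ≤ 1) (hb : 0 ≤ b) (hb' : b ≤ Cb)
    (h0 : |b - b0| ≤ 4 * (8 * Cb * |ε|) * Cb) (hs : |s - 1| ≤ 64 * Cb ^ 2 * ε ^ 2) :
    |Real.exp (ε * b) / s - 1 - ε * b0| ≤ 300 * Cb ^ 2 * ε ^ 2 := by
  have hC : 0 ≤ Cb := hb.trans hb'
  have he := abs_nonneg ε
  have hεε : ε ^ 2 = |ε| ^ 2 := (sq_abs ε).symm
  set d := |ε| * Cb with hd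
  have hd0 : 0 ≤ d := by positivity
  have hd1 : d ≤ 1 / 40 := by linarith
  have hdd : Cb ^ 2 * ε ^ 2 = d ^ 2 := by rw [hεε, hd]; ring
  have hx : |ε * b| ≤ d := by
    rw [abs_mul, abs_of_nonneg hb]
    exact mul_le_mul_of_nonneg_left hb' he
  have h1 : |Real.exp (ε * b) - 1 - ε * b| ≤ d ^ 2 := by
    refine (Real.abs_exp_sub_one_sub_id_le (by linarith)).trans ?_
    rw [← sq_abs]
    exact pow_le_pow_left₀ (abs_nonneg _) hx 2
  have h2 : |ε * (b - b0)| ≤ 32 * d ^ 2 := by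
    rw [abs_mul]
    calc _ ≤ |ε| * (4 * (8 * Cb * |ε|) * Cb) := mul_le_mul_of_nonneg_left h0 he
      _ = 32 * d ^ 2 := by rw [hd]; ring
  have h3 : Real.exp (ε * b) ≤ 2 := by
    have := (abs_le.1 (Real.abs_exp_sub_one_le (x := ε * b) (by linarith))).2
    linarith
  have hs' : |s - 1| ≤ 64 * d ^ 2 := by rw [← hdd]; linarith
  have hs1 : 1 / 2 ≤ s := by
    have := (abs_le.1 hs').1
    nlinarith
  have h4 : |Real.exp (ε * b) * ((1 - s) / s)| ≤ 2 * (128 * d ^ 2) := by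
    rw [abs_mul, abs_of_pos (Real.exp_pos _)]
    refine mul_le_mul h3 ?_ (abs_nonneg _) (by norm_num)
    rw [abs_div, abs_of_pos (by linarith : 0 < s), div_le_iff₀ (by linarith), abs_sub_comm]
    nlinarith [sq_nonneg d]
  have e : Real.exp (ε * b) / s - 1 - ε * b0 = (Real.exp (ε * b) - 1 - ε * b) + ε * (b - b0) +
      Real.exp (ε * b) * ((1 - s) / s) := by
    have : s ≠ 0 := by linarith
    field_simp
    ring
  rw [e, mul_assoc 300, hdd]
  refine (abs_add_three _ _ _).trans ?_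
  nlinarith [sq_nonneg d]

end Len

theorem exists_len (Cb : ℝ) : ∃ ε₀ > 0, ∃ C : ℝ, ∀ (ι : Type) (Wf : ι → V), Famy Wf Cb →
    ∀ ε : ℝ, |ε| ≤ ε₀ → ∀ (A : V →L[ℂ] V) (X Y : V) (l : ℝ), Iso A → Axis A X Y l →
      (∀ Z, bF Wf (A Z) = bF Wf Z) → ∀ (ℓ : ℝ) (E : ℝ → V × V), PerG Wf ε A ℓ E →
        |ℓ - l - ε * Ib Wf X Y l| ≤ C * ε ^ 2 * l := by
  refine ⟨1 / (40 * (|Cb| + 1)), by positivity, 300 * Cb ^ 2, ?_⟩
  intro ι Wf hF ε hε A X Y l hA hX _ ℓ E hE
  have hC := hF.nonneg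
  have he := abs_nonneg ε
  have hε40 : |ε| * (40 * Cb) ≤ 1 := by
    rw [abs_of_nonneg hC, le_div_iff₀ (by positivity)] at hε
    nlinarith
  have hε4 : |ε| * (4 * Cb) ≤ 1 := by nlinarith [mul_nonneg he hC]
  obtain ⟨T, hT1, -, hT3, hT4⟩ := hE.exists_param hF hε40 hA hX
  have hcont := Len.continuous_b0 hF hX.1 hX.2.1 hX.2.2.1
  have hl := hX.2.2.2.1
  let g : ℝ → ℝ := fun u => T u - u - ε * ∫ v in (0 : ℝ)..u, (bF Wf (Len.c0 X Y v)).re
  have hg : ∀ u, HasDerivAt g (Real.exp (ε * (bF Wf (mid (E (T u)))).re) / uSp X Y (E (T u)) - 1 -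
      ε * (bF Wf (Len.c0 X Y u)).re) u := fun u =>
    ((hT4 u).sub (hasDerivAt_id u)).sub
      ((hcont.integral_hasStrictDerivAt 0 u).hasDerivAt.const_mul ε)
  have hb : ∀ u, ‖Real.exp (ε * (bF Wf (mid (E (T u)))).re) / uSp X Y (E (T u)) - 1 -
      ε * (bF Wf (Len.c0 X Y u)).re‖ ≤ 300 * Cb ^ 2 * ε ^ 2 := by
    intro u
    have hZ : Hyp (mid (E (T u))) := SM.mid (hE.1 (T u)).1
    obtain ⟨-, h1, h2⟩ := hF.bF_real hZ
    obtain ⟨h3, h4⟩ := hE.shadow hF hε4 hA hX (T u)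
    rw [Real.norm_eq_abs]
    refine Len.integrand hε40 h1 h2 ?_ (hE.uSp_near hF hε40 hA hX (T u))
    refine Len.bF_near hF hX.1 hX.2.1 hX.2.2.1 hZ (by linarith) ?_ (hT1 u)
    refine (abs_re_le_norm _).trans ?_
    rw [mid, br_smul_left, br_add_left, norm_mul]
    have h5 := norm_add_le (br (E (T u)).1 (cross Y X)) (br (E (T u)).2 (cross Y X))
    have h6 : ‖(1 / 2 : ℂ)‖ = 1 / 2 := by simp
    rw [h6]
    linarith
  have hm := norm_image_sub_le_of_norm_deriv_le_segment' (a := 0) (b := l)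
    (fun u _ => (hg u).hasDerivWithinAt) (fun u _ => hb u) l (right_mem_Icc.2 hl.le)
  have e : g l - g 0 = ℓ - l - ε * Ib Wf X Y l := by
    have h1 := hT3 0
    rw [zero_add] at h1
    simp only [g, intervalIntegral.integral_same, h1, Ib, Len.c0]
    ring
  rw [e, sub_zero, Real.norm_eq_abs] at hm
  exact hm

theorem abs_Ib_le {ι : Type} {Wf : ι → V} {Cb : ℝ} (h : Famy Wf Cb) {A : V →L[ℂ] V} {X Y : V}
    {l : ℝ} (hX : Axis A X Y l) : |Ib Wf X Y l| ≤ Cb * l := by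
  have hl := hX.2.2.2.1
  have := intervalIntegral.norm_integral_le_of_norm_le_const (a := 0) (b := l) (C := Cb)
    (f := fun u => (bF Wf (Len.c0 X Y u)).re) fun u _ => by
      obtain ⟨-, h1, h2⟩ := h.bF_real (Len.hyp_c0 hX.1 hX.2.1 hX.2.2.1 u)
      rw [Real.norm_eq_abs, abs_of_nonneg h1]
      exact h2
  rwa [sub_zero, abs_of_pos hl, Real.norm_eq_abs] at this

end Pool.Agent.Lib.MP_de7bb2_an
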