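import Pool.Agent.Lib.MP_de7bb2_an.H20Rugh

/-! Parameters, norms and tensor vectors for systems of cross maps. TASK RUGH2. -/

namespace Pool.Agent.Lib.MP_de7bb2_an

open Metric Set Filter Topology

namespace Rugh2

open Pool.Agent.Lib.MP_08f711_an

variable {T κ α β : Type*} [Fintype T] {R R' q : ℝ}

theorem diffOn_blk {P : Type*} [NormedAddCommGroup P] [NormedSpace ℂ P] {U : Set P}
    {e : T → T → Prop} [∀ σ σ', Decidable (e σ σ')] {B : P → T → T → Nuc κ}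
    (h : ∀ σ σ', e σ σ' → DifferentiableOn ℂ (fun p => B p σ σ') U) :
    DifferentiableOn ℂ (fun p => blk fun σ σ' => if e σ σ' then B p σ σ' else 0) U := by
  refine DifferentiableOn.fun_sum fun σ _ => DifferentiableOn.fun_sum fun σ' _ =>
    (emb σ σ').differentiable.comp_differentiableOn ?_
  dsimp only
  split_ifs with he
  exacts [h σ σ' he, differentiableOn_const _]

theorem norm_blk {e : T → T → Prop} [∀ σ σ', Decidable (e σ σ')] {B : T → T → Nuc κ} {c : ℝ}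
    (hc : 0 ≤ c) (h : ∀ σ σ', e σ σ' → ‖B σ σ'‖ ≤ c) :
    ‖blk fun σ σ' => if e σ σ' then B σ σ' else 0‖ ≤ (Fintype.card T : ℝ) ^ 2 * c := by
  refine (norm_blk_le _).trans ((Finset.sum_le_sum fun σ _ => Finset.sum_le_sum
    (g := fun _ => c) fun σ' _ => ?_).trans_eq (by simp; ring))
  split_ifs with he
  exacts [h σ σ' he, by simpa using hc]

theorem diffOn_fd {P : Type*} [NormedAddCommGroup P] [NormedSpace ℂ P] {U : Set P} (hU : IsOpen U)
    {f : P → ℂ × ℂ → ℂ} (hf : DifferentiableOn ℂ (fun x : P × ℂ × ℂ => f x.1 x.2) (U ×ˢ ball 0 R))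
    (e : ℂ × ℂ) :
    DifferentiableOn ℂ (fun x : P × ℂ × ℂ => fderiv ℂ (f x.1) x.2 e) (U ×ˢ ball 0 R) := by
  have hV := hU.prod (isOpen_ball (x := (0 : ℂ × ℂ)) (ε := R))
  refine (differentiableOn_fderiv_apply hV hf (0, e)).congr fun x hx => ?_
  have := (hf.differentiableAt (hV.mem_nhds hx)).hasFDerivAt.comp x.2
    (hasFDerivAt_prodMk_right (𝕜 := ℂ) x.1 x.2)
  simpa [Function.comp_def] using congrArg (· e) this.fderiv

theorem diffOn_mat {X : Type*} [NormedAddCommGroup X] [NormedSpace ℂ X] {V : Set X}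
    {a b c d : X → ℂ} (ha : DifferentiableOn ℂ a V) (hb : DifferentiableOn ℂ b V)
    (hc : DifferentiableOn ℂ c V) (hd : DifferentiableOn ℂ d V) (i j : Fin 2) :
    DifferentiableOn ℂ (fun x =>
      (!![1, b x; -c x, a x * d x - b x * c x] : Matrix (Fin 2) (Fin 2) ℂ) i j) V := by
  fin_cases i <;> fin_cases j <;> simp <;> fun_prop

theorem diffOn_wO {f g : ℂ × ℂ → ℂ} (hf : Into R q f) (hg : Into R q g) (i j : Fin 2) :
    DifferentiableOn ℂ (wO f g i j) (ball 0 R) :=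
  diffOn_mat (differentiableOn_fderiv_apply isOpen_ball hf.1 _)
    (differentiableOn_fderiv_apply isOpen_ball hf.1 _)
    (differentiableOn_fderiv_apply isOpen_ball hg.1 _)
    (differentiableOn_fderiv_apply isOpen_ball hg.1 _) i j

theorem into_mono {X : Type*} [NormedAddCommGroup X] [NormedSpace ℂ X] {f : X → ℂ}
    (hf : Into R q f) (h : R' ≤ R) : Into R' (max q 0) f :=
  ⟨hf.1.mono (ball_subset_ball h), fun y hy =>
    (hf.2 y (ball_subset_ball h hy)).trans (le_max_left _ _)⟩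

theorem norm_fd_le {f : ℂ × ℂ → ℂ} (hR : 1 < R) (hq : q < 1) (hf : Into R q f) {p : ℂ × ℂ}
    (hp : p ∈ ball (0 : ℂ × ℂ) ((1 + R) / 2)) :
    ‖dx f p‖ ≤ 4 / (R - 1) ∧ ‖dy f p‖ ≤ 4 / (R - 1) := by
  have hs : ball p ((R - 1) / 2) ⊆ ball 0 R :=
    ball_subset_ball' (by rw [mem_ball] at hp; linarith)
  have h := norm_fderiv_le_of_bound (M := 1) (by linarith) (hf.1.mono hs) fun y hy =>
    (hf.2 y (hs hy)).trans hq.le
  rw [show 2 * 1 / ((R - 1) / 2) = 4 / (R - 1) by field_simp; norm_num] at h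
  exact ⟨((fderiv ℂ f p).le_opNorm _).trans (by simpa using h),
    ((fderiv ℂ f p).le_opNorm _).trans (by simpa using h)⟩

theorem norm_wO_le {f g : ℂ × ℂ → ℂ} {p : ℂ × ℂ} {K : ℝ} (hf : ‖dx f p‖ ≤ K ∧ ‖dy f p‖ ≤ K)
    (hg : ‖dx g p‖ ≤ K ∧ ‖dy g p‖ ≤ K) (i j : Fin 2) : ‖wO f g i j p‖ ≤ 1 + K + 2 * K ^ 2 := by
  have h0 : 0 ≤ K := (norm_nonneg _).trans hf.1
  have h1 := mul_le_mul hf.1 hg.2 (norm_nonneg _) h0
  have h2 := mul_le_mul hf.2 hg.1 (norm_nonneg _) h0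
  have h3 := norm_sub_le (dx f p * dy g p) (dy f p * dx g p)
  rw [norm_mul, norm_mul] at h3
  fin_cases i <;> fin_cases j <;> simp [wO] <;> nlinarith [hf.2, hg.1]

theorem toVec_inj {φ : α → β} (hφ : Function.Injective φ) (v : Vec α) {F : β → ℂ}
    (h1 : ∀ a, F (φ a) = v a) (h0 : ∀ b ∉ range φ, F b = 0) (b : β) : toVec F b = F b :=
  toVec_apply ((hφ.summable_iff (f := fun b => ‖F b‖) fun b hb => by simp [h0 b hb]).1
    ((Vec.summable_norm v).congr fun a => by simp [h1])) b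

theorem li_inj {n : ℕ} {φ : α → β} {L : Vec α → Vec β} (hL : ∀ v a, L v (φ a) = v a)
    {v : Fin n → Vec α} (h : LinearIndependent ℂ v) : LinearIndependent ℂ fun j => L (v j) := by
  rw [Fintype.linearIndependent_iff] at h ⊢
  refine fun c hc => h c (lp.ext (funext fun a => ?_))
  have := congrArg (Vec.evalL (φ a)) hc
  rw [← Vec.evalL_apply]
  simpa [hL] using this

theorem tsum_inj {φ : T × κ → β} (hφ : Function.Injective φ) (v : Vec (T × κ)) {F G : β → ℂ}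
    (h1 : ∀ a, F (φ a) = v a) (h0 : ∀ b ∉ range φ, F b = 0) {C : ℝ} (hG : ∀ b, ‖G b‖ ≤ C) :
    ∑' b, G b * F b = ∑ σ, ∑' i, G (φ (σ, i)) * v (σ, i) := by
  rw [← hφ.tsum_eq fun b hb => by_contra fun h => hb (by simp [h0 b h])]
  simp only [h1]
  exact tsum_prod_fin (f := fun a => G (φ a) * v a) (.of_norm_bounded
    ((Vec.summable_norm v).mul_left C) fun a => by rw [norm_mul]; gcongr; exact hG _)

theorem torus_sub (hR : 1 < R) : sphere (0 : ℂ) 1 ×ˢ sphere (0 : ℂ) 1 ⊆ ball 0 R := by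
  rintro ⟨x, y⟩ ⟨hx, hy⟩
  simp_all [Prod.norm_mk]

theorem coef2_congr (hR : 1 < R) {H K : ℂ × ℂ → ℂ} (h : EqOn H K (ball 0 R)) (a b : ℕ) :
    coef2 H a b = coef2 K a b :=
  coef_congr (fun x hx => coef_congr (fun y hy =>
    h (torus_sub hR (a := (x, y)) ⟨by simpa using hx, by simpa using hy⟩)) b) a

theorem coef_const (c : ℂ) (a : ℕ) : coef (fun _ => c) a = if a = 0 then c else 0 := by
  have := coef_const_mul c (fun y => y ^ 0) a
  rw [coef_pow] at this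
  simpa [eq_comm (a := 0)] using this

omit [Fintype T] in
theorem coef_ev (v : Vec (T × ℕ)) (σ : T) {H : ℂ × ℂ → ℂ}
    (hc : ContinuousOn H (sphere 0 1 ×ˢ sphere 0 1)) (a : ℕ) :
    ∑' b, coef2 H a b * v (σ, b) = coef (fun x => ev v σ fun y => H (x, y)) a := by
  obtain ⟨M, hM⟩ := ((isCompact_sphere _ _).prod (isCompact_sphere _ _)).exists_bound_of_continuousOn hc
  have := hasSum_coef_of_bound (F := fun b x => v (σ, b) * coef (fun y => H (x, y)) b)
    (u := fun b => ‖v (σ, b)‖ * M)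
    (((Vec.summable_norm v).comp_injective (Prod.mk_right_injective σ)).mul_right M)
    (fun b => continuousOn_const.mul (continuousOn_coef (F := fun x y => H (x, y)) hc b))
    (fun b x hx => by
      rw [norm_mul]
      gcongr
      exact norm_coef_le_one (fun y hy => hM _ ⟨by simpa using hx, by simpa using hy⟩) b) a
  simp only [coef_const_mul] at this
  exact (tsum_congr fun b => mul_comm _ _).trans this.tsum_eq

theorem ev_fix (hR : 1 < R) (hq : q < 1) {μ : Vec (T × ℕ)} {σ₀ : T} {e : T → Prop}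
    [DecidablePred e] {c : T → ℂ} {ψ : T → ℂ → ℂ} (hψ : ∀ σ, e σ → Into R q (ψ σ))
    (h : ∀ a, μ (σ₀, a) = ∑ σ, if e σ then c σ * ev μ σ (fun x => ψ σ x ^ a) else 0)
    {F : ℂ → ℂ} (hF : DifferentiableOn ℂ F (ball 0 R)) :
    (∑ σ, if e σ then c σ * ev μ σ (fun x => F (ψ σ x)) else 0) = ev μ σ₀ F := by
  have hs : sphere (0 : ℂ) 1 ⊆ ball 0 R := sphere_subset_closedBall.trans (closedBall_subset_ball hR)
  obtain ⟨M, hM⟩ := (isCompact_sphere _ _).exists_bound_of_continuousOn (hF.continuousOn.mono hs)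
  refine (HasSum.tsum_eq ?_).symm
  simp only [h, Finset.sum_mul]
  refine hasSum_sum fun σ _ => ?_
  split_ifs with he
  · have hb : ∀ y, ‖y‖ = 1 → ‖ψ σ y‖ ≤ max q 0 := fun y hy =>
      (into_mono (hψ σ he) le_rfl).2 y (hs (by simpa using hy))
    have h1 : max q 0 < 1 := max_lt hq one_pos
    have := hasSum_ev μ σ (F := fun a x => coef F a * ψ σ x ^ a) (u := fun a => M * max q 0 ^ a)
      ((summable_geometric_of_lt_one (le_max_right _ _) h1).mul_left M)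
      (fun a => continuousOn_const.mul (((hψ σ he).1.continuousOn.mono hs).pow a)) fun a y hy => by
        have h2 := norm_coef_le_one (fun y hy => hM y (by simpa using hy)) a
        rw [norm_mul, norm_pow]
        exact mul_le_mul h2 (pow_le_pow_left₀ (norm_nonneg _) (hb y hy) a) (by positivity)
          ((norm_nonneg _).trans h2)
    rw [ev_congr μ σ (K := fun x => F (ψ σ x)) fun y hy => (hasSum_coef hR hF
      (mem_ball_zero_iff.2 ((hb y hy).trans_lt (h1.trans hR)))).tsum_eq] at this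
    simp only [ev_const_mul] at this
    simpa only [mul_assoc, mul_comm, mul_left_comm] using this.mul_left (c σ)
  · simp

theorem into_fst {ψ : ℂ → ℂ} (h : Into R q ψ) : Into R q fun p : ℂ × ℂ => ψ p.1 :=
  have m : MapsTo Prod.fst (ball (0 : ℂ × ℂ) R) (ball (0 : ℂ) R) := fun p hp =>
    mem_ball_zero_iff.2 ((norm_fst_le p).trans_lt (mem_ball_zero_iff.1 hp))
  ⟨h.1.comp differentiableOn_fst m, fun _ hp => h.2 _ (m hp)⟩

theorem into_snd {ψ : ℂ → ℂ} (h : Into R q ψ) : Into R q fun p : ℂ × ℂ => ψ p.2 :=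
  have m : MapsTo Prod.snd (ball (0 : ℂ × ℂ) R) (ball (0 : ℂ) R) := fun p hp =>
    mem_ball_zero_iff.2 ((norm_snd_le p).trans_lt (mem_ball_zero_iff.1 hp))
  ⟨h.1.comp differentiableOn_snd m, fun _ hp => h.2 _ (m hp)⟩

theorem wO_prod {ψ χ : ℂ → ℂ} (h : Into R q ψ) (h' : Into R q χ) {i j : Fin 2}
    (hij : i = 0 ∨ j = 0) {p : ℂ × ℂ} (hp : p ∈ ball (0 : ℂ × ℂ) R) :
    wO (fun p => ψ p.1) (fun p => χ p.2) i j p = if i = j then 1 else 0 := by
  rw [mem_ball_zero_iff] at hp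
  have h1 := ((h.1.differentiableAt (isOpen_ball.mem_nhds (mem_ball_zero_iff.2
    ((norm_fst_le p).trans_lt hp)))).hasFDerivAt.comp p hasFDerivAt_fst).fderiv
  have h2 := ((h'.1.differentiableAt (isOpen_ball.mem_nhds (mem_ball_zero_iff.2
    ((norm_snd_le p).trans_lt hp)))).hasFDerivAt.comp p hasFDerivAt_snd).fderiv
  have h3 : dy (fun p => ψ p.1) p = 0 := (congrArg (· (0, 1)) h1).trans (by simp)
  have h4 : dx (fun p => χ p.2) p = 0 := (congrArg (· (1, 0)) h2).trans (by simp)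
  fin_cases i <;> fin_cases j <;> simp_all [wO]

end Rugh2

open Rugh2

variable {S : Type*} [Fintype S] {E : S → S → Prop} {f g w : S → S → ℂ × ℂ → ℂ} {R q : ℝ}

theorem diffOn_sys2 {P : Type*} [NormedAddCommGroup P] [NormedSpace ℂ P] [FiniteDimensional ℂ P]
    {U : Set P} (hU : IsOpen U) (hR : 1 < R) (hq : q < 1) {f g w : P → S → S → ℂ × ℂ → ℂ}
    (hf : ∀ σ σ', E σ σ' →
      DifferentiableOn ℂ (fun x : P × ℂ × ℂ => f x.1 σ σ' x.2) (U ×ˢ ball 0 R))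
    (hg : ∀ σ σ', E σ σ' →
      DifferentiableOn ℂ (fun x : P × ℂ × ℂ => g x.1 σ σ' x.2) (U ×ˢ ball 0 R))
    (hw : ∀ σ σ', E σ σ' →
      DifferentiableOn ℂ (fun x : P × ℂ × ℂ => w x.1 σ σ' x.2) (U ×ˢ ball 0 R))
    (hb : ∀ σ σ', E σ σ' → ∀ p ∈ U, ∀ x ∈ ball (0 : ℂ × ℂ) R,
      ‖f p σ σ' x‖ ≤ q ∧ ‖g p σ σ' x‖ ≤ q) :
    DifferentiableOn ℂ (fun p => sysO E (f p) (g p) (w p)) U ∧
    DifferentiableOn ℂ (fun p => sysA E (f p) (g p) (w p)) U ∧
    DifferentiableOn ℂ (fun p => sysD E (f p) (g p) (w p)) U := by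
  classical
  have key : ∀ σ σ', E σ σ' → ∀ H : P → ℂ × ℂ → ℂ,
      DifferentiableOn ℂ (fun x : P × ℂ × ℂ => H x.1 x.2) (U ×ˢ ball 0 R) → DifferentiableOn ℂ
        (fun p => op2 (f p σ σ') (g p σ σ') fun x => w p σ σ' x * H p x) U := fun σ σ' he H hH =>
    diffOn_op2 hU hR hq (hf σ σ' he) (hg σ σ' he) ((hw σ σ' he).mul hH)
      (fun p hp x hx => (hb σ σ' he p hp x hx).1) fun p hp x hx => (hb σ σ' he p hp x hx).2
  have df := fun σ σ' he => diffOn_fd hU (f := fun p => f p σ σ') (hf σ σ' he)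
  have dg := fun σ σ' he => diffOn_fd hU (f := fun p => g p σ σ') (hg σ σ' he)
  exact ⟨diffOn_blk (e := fun σ σ' : S × Fin 2 => E σ.1 σ'.1) fun σ σ' he =>
      key _ _ he (fun p => wO (f p σ.1 σ'.1) (g p σ.1 σ'.1) σ.2 σ'.2)
        (diffOn_mat (df _ _ he _) (df _ _ he _) (dg _ _ he _) (dg _ _ he _) _ _),
    diffOn_blk fun σ σ' he => key _ _ he (fun p => dx (f p σ σ')) (df _ _ he _),
    diffOn_blk fun σ σ' he => key _ _ he (fun p => dy (g p σ σ')) (dg _ _ he _)⟩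

theorem norm_sys2_le (E : S → S → Prop) (hR : 1 < R) (hq : q < 1) :
    ∃ C : ℝ, ∀ (f g w : S → S → ℂ × ℂ → ℂ) (M : ℝ), 0 ≤ M →
      (∀ σ σ', E σ σ' → Into R q (f σ σ') ∧ Into R q (g σ σ')) →
      (∀ σ σ', E σ σ' → DifferentiableOn ℂ (w σ σ') (ball 0 R)) →
      (∀ σ σ', E σ σ' → ∀ p ∈ ball (0 : ℂ × ℂ) R, ‖w σ σ' p‖ ≤ M) →
      ‖sysO E f g w‖ ≤ C * M ∧ ‖sysA E f g w‖ ≤ C * M ∧ ‖sysD E f g w‖ ≤ C * M := by
  classical
  have hK : 0 ≤ 4 / (R - 1) := div_nonneg (by norm_num) (by linarith)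
  set K := 4 / (R - 1) with hKd
  set c := (1 - max q 0)⁻¹ ^ 2 * (1 - ((1 + R) / 2)⁻¹)⁻¹ ^ 2 with hc
  refine ⟨((Fintype.card (S × Fin 2) : ℝ) ^ 2 + (Fintype.card S : ℝ) ^ 2) *
    ((1 + K + 2 * K ^ 2) * c), fun f g w M hM hfg hw hb => ?_⟩
  have hs : (1 + R) / 2 ≤ R := by linarith
  have key : ∀ σ σ', E σ σ' → ∀ H : ℂ × ℂ → ℂ, DifferentiableOn ℂ H (ball 0 R) →
      (∀ p ∈ ball (0 : ℂ × ℂ) ((1 + R) / 2), ‖H p‖ ≤ 1 + K + 2 * K ^ 2) →
      ‖op2 (f σ σ') (g σ σ') fun p => w σ σ' p * H p‖ ≤ M * (1 + K + 2 * K ^ 2) * c :=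
    fun σ σ' he H hH hB => norm_op2_le (by linarith) (le_max_right _ _) (max_lt hq one_pos)
      (into_mono (hfg σ σ' he).1 hs) (into_mono (hfg σ σ' he).2 hs)
      (((hw σ σ' he).mul hH).mono (ball_subset_ball hs)) fun p hp => by
        rw [norm_mul]
        exact mul_le_mul (hb σ σ' he p (ball_subset_ball hs hp)) (hB p hp) (norm_nonneg _) hM
  have h0 : 0 ≤ M * (1 + K + 2 * K ^ 2) * c := by positivity
  have h1 : K ≤ 1 + K + 2 * K ^ 2 := by nlinarith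
  have h2 := mul_nonneg (sq_nonneg (Fintype.card S : ℝ)) h0
  have h3 := mul_nonneg (sq_nonneg (Fintype.card (S × Fin 2) : ℝ)) h0
  refine ⟨(norm_blk (e := fun σ σ' : S × Fin 2 => E σ.1 σ'.1) h0 fun σ σ' he =>
      key _ _ he _ (diffOn_wO (hfg _ _ he).1 (hfg _ _ he).2 _ _) fun p hp => norm_wO_le
        (norm_fd_le hR hq (hfg _ _ he).1 hp) (norm_fd_le hR hq (hfg _ _ he).2 hp) _ _).trans ?_,
    (norm_blk h0 fun σ σ' he => key _ _ he _ (MP_08f711_an.differentiableOn_fderiv_apply isOpen_ball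
      (hfg _ _ he).1.1 _) fun p hp => (norm_fd_le hR hq (hfg _ _ he).1 hp).1.trans h1).trans ?_,
    (norm_blk h0 fun σ σ' he => key _ _ he _ (MP_08f711_an.differentiableOn_fderiv_apply isOpen_ball
      (hfg _ _ he).2.1 _) fun p hp => (norm_fd_le hR hq (hfg _ _ he).2 hp).2.trans h1).trans ?_⟩ <;>
  linarith

theorem sys2_congr (hR : 1 < R) {f' g' w' : S → S → ℂ × ℂ → ℂ}
    (h : ∀ σ σ', E σ σ' → ∀ p ∈ ball (0 : ℂ × ℂ) R,
      f σ σ' p = f' σ σ' p ∧ g σ σ' p = g' σ σ' p ∧ w σ σ' p = w' σ σ' p) :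
    sysO E f g w = sysO E f' g' w' ∧ sysA E f g w = sysA E f' g' w' ∧
      sysD E f g w = sysD E f' g' w' := by
  classical
  have fd : ∀ {u u' : ℂ × ℂ → ℂ}, EqOn u u' (ball 0 R) → ∀ p ∈ ball (0 : ℂ × ℂ) R,
      fderiv ℂ u p = fderiv ℂ u' p := fun h p hp =>
    (h.eventuallyEq_of_mem (isOpen_ball.mem_nhds hp)).fderiv_eq
  refine ⟨congrArg blk ?_, congrArg blk ?_, congrArg blk ?_⟩ <;> funext σ σ' <;>
    refine if_ctx_congr Iff.rfl (fun he => op2_congr hR (fun p hp => (h _ _ he p hp).1)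
      (fun p hp => (h _ _ he p hp).2.1) fun p hp => ?_) (fun _ => rfl) <;>
    simp only [wO, dx, dy, (h _ _ he p hp).2.2, fd (fun p hp => (h _ _ he p hp).1) p hp,
      fd (fun p hp => (h _ _ he p hp).2.1) p hp]

theorem Rugh2.sysO_lin (hR : 1 < R) (hq : q < 1)
    (hfg : ∀ σ σ', E σ σ' → Into R q (f σ σ') ∧ Into R q (g σ σ'))
    (hw : ∀ σ σ', E σ σ' → DifferentiableOn ℂ (w σ σ') (ball 0 R)) {u : S → S → ℂ × ℂ → ℂ}
    (hu : ∀ σ σ', E σ σ' → DifferentiableOn ℂ (u σ σ') (ball 0 R)) (s : ℂ) :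
    (sysO E f g fun σ σ' p => w σ σ' p + s * u σ σ' p) = sysO E f g w + s • sysO E f g u := by
  simp only [sysO, blk, Finset.smul_sum, ← Finset.sum_add_distrib, ← map_smul, ← map_add]
  refine Finset.sum_congr rfl fun σ _ => Finset.sum_congr rfl fun σ' _ => congrArg _ ?_
  split_ifs with he
  · obtain ⟨hf, hg⟩ := hfg _ _ he
    have d := diffOn_wO hf hg σ.2 σ'.2
    rw [← op2_const_mul hR hq hf hg ((hu _ _ he).fun_mul d), ← op2_add hR hq hf hg
      ((hw _ _ he).fun_mul d) (((hu _ _ he).fun_mul d).const_mul s)]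
    exact congrArg _ (funext fun p => by ring)
  · simp

theorem hasDerivAt_sysO (hR : 1 < R) (hq : q < 1)
    (hfg : ∀ σ σ', E σ σ' → Into R q (f σ σ') ∧ Into R q (g σ σ'))
    (hw : ∀ σ σ', E σ σ' → DifferentiableOn ℂ (w σ σ') (ball 0 R)) {r : S → S → ℂ × ℂ → ℂ}
    (hr : ∀ σ σ', E σ σ' → DifferentiableOn ℂ (r σ σ') (ball 0 R)) :
    HasDerivAt (fun s => sysO E f g fun σ σ' p => w σ σ' p * Complex.exp (-s * r σ σ' p))
      (sysO E f g fun σ σ' p => -r σ σ' p * w σ σ' p) 0 := by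
  have hs : (1 + R) / 2 < R := by linarith
  have hB := closedBall_subset_ball (x := (0 : ℂ × ℂ)) hs
  obtain ⟨C, hC⟩ := norm_sys2_le E (R := (1 + R) / 2) (by linarith) (max_lt hq one_pos)
  obtain ⟨M, h0, hM⟩ : ∃ M, 0 < M ∧ ∀ σ σ', E σ σ' → ∀ p ∈ ball (0 : ℂ × ℂ) ((1 + R) / 2),
      ‖w σ σ' p‖ ≤ M ∧ ‖r σ σ' p‖ ≤ M := by
    have : ∀ x : S × S, ∀ᶠ M in atTop, E x.1 x.2 → ∀ p ∈ ball (0 : ℂ × ℂ) ((1 + R) / 2),
        ‖w x.1 x.2 p‖ ≤ M ∧ ‖r x.1 x.2 p‖ ≤ M := fun x => by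
      by_cases he : E x.1 x.2
      · obtain ⟨A, hA⟩ := (isCompact_closedBall _ _).exists_bound_of_continuousOn
          ((hw _ _ he).continuousOn.mono hB)
        obtain ⟨B, hB⟩ := (isCompact_closedBall _ _).exists_bound_of_continuousOn
          ((hr _ _ he).continuousOn.mono hB)
        filter_upwards [eventually_ge_atTop A, eventually_ge_atTop B] with M h1 h2 _ p hp
        exact ⟨(hA p (ball_subset_closedBall hp)).trans h1, (hB p (ball_subset_closedBall hp)).trans h2⟩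
      · exact .of_forall fun _ h => absurd h he
    obtain ⟨M, h1, h2⟩ := ((eventually_gt_atTop 0).and (eventually_all.2 this)).exists
    exact ⟨M, h1, fun σ σ' => h2 (σ, σ')⟩
  rw [hasDerivAt_iff_isLittleO_nhds_zero]
  refine Asymptotics.IsBigO.trans_isLittleO (.of_bound (C * M ^ 3) ?_)
    (Asymptotics.isLittleO_pow_id one_lt_two)
  filter_upwards [ball_mem_nhds (0 : ℂ) (inv_pos.2 h0)] with s hs'
  have d1 := fun σ σ' he => (hr σ σ' he).neg.mul (hw σ σ' he)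
  have d2 : ∀ σ σ', E σ σ' → DifferentiableOn ℂ (fun p => w σ σ' p *
      (Complex.exp (-s * r σ σ' p) - 1 - -s * r σ σ' p)) (ball 0 R) := fun σ σ' he =>
    (hw σ σ' he).mul ((((hr σ σ' he).const_mul _).cexp.sub_const 1).sub ((hr σ σ' he).const_mul _))
  have e1 := sysO_lin hR hq hfg hw d1 s
  have e2 := sysO_lin hR hq hfg (fun σ σ' he => (hw σ σ' he).add ((d1 σ σ' he).const_mul s)) d2 1
  have e3 := (hC f g _ (M * (‖s‖ * M) ^ 2) (by positivity) (fun σ σ' he =>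
    ⟨into_mono (hfg σ σ' he).1 hs.le, into_mono (hfg σ σ' he).2 hs.le⟩)
    (fun σ σ' he => (d2 σ σ' he).mono (ball_subset_ball hs.le)) fun σ σ' he p hp => by
      have h1 : ‖-s * r σ σ' p‖ ≤ ‖s‖ * M := by
        rw [norm_mul, norm_neg]
        exact mul_le_mul_of_nonneg_left (hM σ σ' he p hp).2 (norm_nonneg _)
      have h2 : ‖s‖ * M ≤ 1 := by
        rw [← le_div_iff₀ h0, one_div]
        exact (mem_ball_zero_iff.1 hs').le
      rw [norm_mul]
      exact mul_le_mul (hM σ σ' he p hp).1 ((Complex.norm_exp_sub_one_sub_id_le (h1.trans h2)).trans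
        (pow_le_pow_left₀ (norm_nonneg _) h1 2)) (norm_nonneg _) h0.le).1
  refine le_of_eq_of_le (congrArg _ ?_) (e3.trans_eq (by rw [norm_pow]; ring))
  rw [sub_sub, sub_eq_iff_eq_add']
  simp only [zero_add, neg_zero, zero_mul, Complex.exp_zero, mul_one]
  refine Eq.trans (congrArg _ ?_) (e2.trans (by rw [one_smul]; exact congrArg (· + _) e1))
  funext σ σ' p
  simp only [Pi.add_apply, Pi.mul_apply, Pi.neg_apply]
  ring

/-- The vector which is constant in the first variable and given by `v` in the second. -/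
noncomputable def tenR (v : Vec (S × ℕ)) : Vec ((S × Fin 2) × ℕ × ℕ) :=
  toVec fun x => if x.1.2 = 0 ∧ x.2.1 = 0 then v (x.1.1, x.2.2) else 0

/-- The covector which is constant in the second variable and given by `l` in the first. -/
noncomputable def tenL (l : Vec (S × ℕ)) : Vec ((S × Fin 2) × ℕ × ℕ) :=
  toVec fun x => if x.1.2 = 0 ∧ x.2.2 = 0 then l (x.1.1, x.2.1) else 0

noncomputable def ev2 (l : Vec (S × ℕ)) (σ : S) (v : Vec (S × ℕ)) (σ' : S) (H : ℂ × ℂ → ℂ) : ℂ :=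
  ev l σ fun x => ev v σ' fun y => H (x, y)

omit [Fintype S] in
theorem Rugh2.tenR_apply (v : Vec (S × ℕ)) (x : (S × Fin 2) × ℕ × ℕ) :
    tenR v x = if x.1.2 = 0 ∧ x.2.1 = 0 then v (x.1.1, x.2.2) else 0 :=
  toVec_inj (φ := fun a : S × ℕ => ((a.1, (0 : Fin 2)), (0, a.2))) (fun _ _ h => by aesop) v
    (fun _ => by simp) (fun ⟨⟨σ, i⟩, a, b⟩ h => if_neg fun h' => h ⟨(σ, b), by aesop⟩) x

omit [Fintype S] in
theorem Rugh2.tenL_apply (v : Vec (S × ℕ)) (x : (S × Fin 2) × ℕ × ℕ) :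
    tenL v x = if x.1.2 = 0 ∧ x.2.2 = 0 then v (x.1.1, x.2.1) else 0 :=
  toVec_inj (φ := fun a : S × ℕ => ((a.1, (0 : Fin 2)), (a.2, 0))) (fun _ _ h => by aesop) v
    (fun _ => by simp) (fun ⟨⟨σ, i⟩, a, b⟩ h => if_neg fun h' => h ⟨(σ, a), by aesop⟩) x

theorem Rugh2.tsum_tenR (v : Vec (S × ℕ)) {G : (S × Fin 2) × ℕ × ℕ → ℂ} {C : ℝ}
    (hG : ∀ b, ‖G b‖ ≤ C) : ∑' x, G x * tenR v x = ∑ σ, ∑' b, G ((σ, 0), (0, b)) * v (σ, b) :=
  tsum_inj (φ := fun a : S × ℕ => ((a.1, 0), (0, a.2))) (fun _ _ h => by aesop) v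
    (fun _ => by simp [tenR_apply])
    (fun ⟨⟨σ, i⟩, a, b⟩ h => (tenR_apply _ _).trans (if_neg fun h' => h ⟨(σ, b), by aesop⟩)) hG

theorem Rugh2.tsum_tenL (v : Vec (S × ℕ)) {G : (S × Fin 2) × ℕ × ℕ → ℂ} {C : ℝ}
    (hG : ∀ b, ‖G b‖ ≤ C) : ∑' x, G x * tenL v x = ∑ σ, ∑' a, G ((σ, 0), (a, 0)) * v (σ, a) :=
  tsum_inj (φ := fun a : S × ℕ => ((a.1, 0), (a.2, 0))) (fun _ _ h => by aesop) v
    (fun _ => by simp [tenL_apply])
    (fun ⟨⟨σ, i⟩, a, b⟩ h => (tenL_apply _ _).trans (if_neg fun h' => h ⟨(σ, a), by aesop⟩)) hG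

theorem linearIndependent_tenR {n : ℕ} {v : Fin n → Vec (S × ℕ)} (h : LinearIndependent ℂ v) :
    LinearIndependent ℂ fun j => tenR (v j) :=
  li_inj (φ := fun a : S × ℕ => ((a.1, 0), (0, a.2))) (fun _ _ => by simp [tenR_apply]) h

theorem linearIndependent_tenL {n : ℕ} {v : Fin n → Vec (S × ℕ)} (h : LinearIndependent ℂ v) :
    LinearIndependent ℂ fun j => tenL (v j) :=
  li_inj (φ := fun a : S × ℕ => ((a.1, 0), (a.2, 0))) (fun _ _ => by simp [tenL_apply]) h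

open Classical in
/-- `v` is fixed by the forward maps with constant weights `c`. -/
def FixR (E : S → S → Prop) (ψ : S → S → ℂ → ℂ) (c : S → S → ℂ) (v : Vec (S × ℕ)) : Prop :=
  ∀ σ b, v (σ, b) = ∑ σ', if E σ σ' then c σ σ' * ev v σ' (fun y => ψ σ σ' y ^ b) else 0

open Classical in
/-- `l` is fixed by the backward maps with constant weights `c`. -/
def FixL (E : S → S → Prop) (ψ : S → S → ℂ → ℂ) (c : S → S → ℂ) (l : Vec (S × ℕ)) : Prop :=
  ∀ σ' a, l (σ', a) = ∑ σ, if E σ σ' then c σ σ' * ev l σ (fun x => ψ σ σ' x ^ a) else 0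

variable {ψs ψu : S → S → ℂ → ℂ} {c : S → S → ℂ}

open Classical in
theorem Rugh2.entry (hR : 1 < R) (hq : q < 1)
    (hψ : ∀ σ σ', E σ σ' → Into R q (ψs σ σ') ∧ Into R q (ψu σ σ'))
    (hw : ∀ σ σ', E σ σ' → DifferentiableOn ℂ (w σ σ') (ball 0 R)) (σ σ' : S) {i j : Fin 2}
    (hij : i = 0 ∨ j = 0) (a b a' b' : ℕ) :
    sysO E (fun σ σ' p => ψs σ σ' p.1) (fun σ σ' p => ψu σ σ' p.2) w
      (((σ, i), (a, b)), ((σ', j), (a', b'))) = if i = j ∧ E σ σ' then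
        coef2 (fun p => w σ σ' p * ψs σ σ' p.1 ^ a' * ψu σ σ' p.2 ^ b) a b' else 0 := by
  rw [sysO, blk_apply]
  by_cases he : E σ σ'
  · obtain ⟨h1, h2⟩ := hψ σ σ' he
    rw [if_pos he]
    refine (op2_apply hR hq (into_fst h1) (into_snd h2) ((hw σ σ' he).fun_mul
      (diffOn_wO (into_fst h1) (into_snd h2) i j)) a b a' b').trans
      ((coef2_congr hR (fun p hp => by rw [wO_prod h1 h2 hij hp]) _ _).trans ?_)
    by_cases e : i = j <;> simp [e, he, coef2, coef_const]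
  · simp [he]

theorem mulV_sysO_tenR (hR : 1 < R) (hq : q < 1)
    (hψ : ∀ σ σ', E σ σ' → Into R q (ψs σ σ') ∧ Into R q (ψu σ σ')) {v : Vec (S × ℕ)}
    (hv : FixR E ψu c v) :
    mulV (sysO E (fun σ σ' p => ψs σ σ' p.1) (fun σ σ' p => ψu σ σ' p.2) fun σ σ' _ => c σ σ')
      (tenR v) = tenR v := by
  refine lp.ext (funext fun ⟨⟨σ, i⟩, a, b⟩ => ?_)
  rw [mulV_apply, tsum_tenR v fun _ => Vec.norm_apply_le _ _, tenR_apply]
  simp only [entry hR hq hψ (fun _ _ _ => differentiableOn_const _) σ _ (Or.inr rfl), coef2,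
    pow_zero, mul_one, coef_const, coef_const_mul, hv σ b, ev]
  by_cases h : i = 0 ∧ a = 0
  · rw [if_pos h]
    refine Finset.sum_congr rfl fun σ' _ => ?_
    by_cases he : E σ σ' <;> simp [h, he, ← tsum_mul_left, mul_comm, mul_left_comm]
  · rw [if_neg h]
    refine Finset.sum_eq_zero fun σ' _ => ?_
    rcases not_and_or.1 h with h | h <;> simp [h]

theorem mulV_sysO_tenL (hR : 1 < R) (hq : q < 1)
    (hψ : ∀ σ σ', E σ σ' → Into R q (ψs σ σ') ∧ Into R q (ψu σ σ')) {l : Vec (S × ℕ)}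
    (hl : FixL E ψs c l) :
    mulV (ntr (sysO E (fun σ σ' p => ψs σ σ' p.1) (fun σ σ' p => ψu σ σ' p.2)
      fun σ σ' _ => c σ σ')) (tenL l) = tenL l := by
  refine lp.ext (funext fun ⟨⟨σ', j⟩, a, b⟩ => ?_)
  rw [mulV_apply, tsum_tenL l fun _ => Vec.norm_apply_le _ _, tenL_apply]
  simp only [ntr_apply, entry hR hq hψ (fun _ _ _ => differentiableOn_const _) _ σ' (Or.inl rfl),
    coef2, pow_zero, mul_one, coef_const, hl σ' a, ev]
  by_cases h : j = 0 ∧ b = 0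
  · rw [if_pos h]
    refine Finset.sum_congr rfl fun σ _ => ?_
    by_cases he : E σ σ' <;> simp [h, he, ← tsum_mul_left, coef_const_mul, mul_comm, mul_left_comm]
  · rw [if_neg h]
    refine Finset.sum_eq_zero fun σ _ => ?_
    rcases not_and_or.1 h with h | h <;> simp [h, eq_comm (b := j), coef_const]

open Classical in
theorem dot_sysO_ten (hR : 1 < R) (hq : q < 1)
    (hψ : ∀ σ σ', E σ σ' → Into R q (ψs σ σ') ∧ Into R q (ψu σ σ'))
    (hw : ∀ σ σ', E σ σ' → DifferentiableOn ℂ (w σ σ') (ball 0 R)) (l v : Vec (S × ℕ)) :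
    dot (tenL l) (mulV (sysO E (fun σ σ' p => ψs σ σ' p.1) (fun σ σ' p => ψu σ σ' p.2) w)
      (tenR v)) = ∑ σ, ∑ σ', if E σ σ' then ev2 l σ v σ' (w σ σ') else 0 := by
  rw [dot_comm, dot_apply, tsum_tenL l fun _ => Vec.norm_apply_le _ _]
  refine Finset.sum_congr rfl fun σ _ => ?_
  have hc := fun σ' he => (hw σ σ' he).continuousOn.mono (torus_sub hR)
  have h1 : ∀ σ' ∈ Finset.univ, ContinuousOn (fun x => if E σ σ' then
      ev v σ' fun y => w σ σ' (x, y) else 0) (sphere (0 : ℂ) 1) := fun σ' _ => by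
    split_ifs with he
    exacts [continuousOn_ev σ' continuousOn_const (F := fun x y => w σ σ' (x, y)) (hc σ' he),
      continuousOn_const]
  refine Eq.trans (tsum_congr fun a => ?_) ((ev_sum l σ _ h1).trans
    (Finset.sum_congr rfl fun σ' _ => ?_))
  · rw [mulV_apply, tsum_tenR v fun _ => Vec.norm_apply_le _ _, mul_comm, coef_sum _ h1]
    refine congrArg _ (Finset.sum_congr rfl fun σ' _ => ?_)
    simp only [entry hR hq hψ hw σ _ (Or.inr rfl), pow_zero, mul_one, true_and]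
    split_ifs with he
    exacts [coef_ev v σ' (hc σ' he) a, by simp [coef_const]]
  · split_ifs
    exacts [rfl, by simp [ev_const]]

open Classical in
/-- Coboundaries pair to zero, in the form of two summation formulas. -/
theorem ev2_cob (hR : 1 < R) (hq : q < 1)
    (hψ : ∀ σ σ', E σ σ' → Into R q (ψs σ σ') ∧ Into R q (ψu σ σ')) {l v : Vec (S × ℕ)}
    (hl : FixL E ψs c l) (hv : FixR E ψu c v) (σ₀ : S) {U : ℂ × ℂ → ℂ}
    (hU : DifferentiableOn ℂ U (ball 0 R)) :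
    (∑ σ, if E σ σ₀ then c σ σ₀ * ev2 l σ v σ₀ (fun p => U (ψs σ σ₀ p.1, p.2)) else 0) =
        ev2 l σ₀ v σ₀ U ∧
      (∑ σ', if E σ₀ σ' then c σ₀ σ' * ev2 l σ₀ v σ' (fun p => U (p.1, ψu σ₀ σ' p.2)) else 0) =
        ev2 l σ₀ v σ₀ U := by
  have hs : ball (0 : ℂ) R ×ˢ sphere (0 : ℂ) 1 ⊆ ball 0 R := by
    rintro ⟨x, y⟩ ⟨hx, hy⟩
    simp_all [Prod.norm_mk]
  have hs' : MapsTo Prod.swap (ball (0 : ℂ × ℂ) R) (ball (0 : ℂ × ℂ) R) := by
    rintro ⟨x, y⟩ h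
    simp_all [Prod.norm_mk]
  have key : ∀ (μ : Vec (S × ℕ)) {U : ℂ × ℂ → ℂ}, DifferentiableOn ℂ U (ball 0 R) →
      DifferentiableOn ℂ (fun x => ev μ σ₀ fun y => U (x, y)) (ball 0 R) := fun μ U hU =>
    diffOn_ev σ₀ isOpen_ball (differentiableOn_const μ) (F := fun x y => U (x, y))
      (hU.continuousOn.mono hs) fun y hy => hU.comp (by fun_prop) fun x hx =>
        hs (a := (x, y)) ⟨hx, by simpa using hy⟩
  have e1 := ev_fix hR hq (fun σ he => (hψ σ σ₀ he).1) (hl σ₀) (key v hU)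
  have e2 := ev_fix hR hq (fun σ he => (hψ σ₀ σ he).2) (hv σ₀)
    (key l (U := fun p => U p.swap) (hU.comp (differentiableOn_snd.prodMk differentiableOn_fst) hs'))
  have e3 := ev_swap l σ₀ v σ₀ (F := fun x y => U (x, y)) (hU.continuousOn.mono (torus_sub hR))
  simp only [ev2]
  refine ⟨e1, Eq.trans ?_ (e2.trans e3.symm)⟩
  refine Finset.sum_congr rfl fun σ' _ => if_ctx_congr Iff.rfl (fun he => congrArg _ ?_) fun _ => rfl
  have h1 := into_snd (hψ σ₀ σ' he).2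
  refine ev_swap l σ₀ v σ' (F := fun x y => U (x, ψu σ₀ σ' y)) (hU.continuousOn.comp
    (continuousOn_fst.prodMk (h1.1.continuousOn.mono (torus_sub hR))) fun p hp => ?_)
  have h2 := h1.2 p (torus_sub hR hp)
  have h3 : ‖p.1‖ = 1 := by simpa using hp.1
  simp only [mem_ball_zero_iff, Prod.norm_mk, h3]
  exact max_lt hR (by linarith)

end Pool.Agent.Lib.MP_de7bb2_an
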