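import Pool.Agent.Lib.MP_de7bb2_an.H20Hopf
import Pool.Agent.Lib.MP_de7bb2_an.H20Ext
import Pool.Agent.Lib.MP_de7bb2_an.H20Rugh2

/-! The two sided system of windows of length `2 N + 2`. TASK LEV. -/

namespace Pool.Agent.Lib.MP_de7bb2_an

open Metric Set Complex Filter

/-- Charts, section heights and separation constants. -/
structure Base (G : ℕ) where
  D0 : Nest G 0
  D1 : Nest G 1
  v : L G → ℝ
  r₀ : ℝ
  U : ℝ
  κ : ℝ
  r₀_pos : 0 < r₀
  κ_pos : 0 < κ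
  v_le : ∀ m, |v m| ≤ U
  roof : ∀ m m' : L G, Edge 1 m m' → ∀ y : ℂ, Arc 1 m' (xi y) →
    r₀ ≤ Real.log (mir m (xi y)).1.re + v m' - v m ∧
      Real.log (mir m (xi y)).1.re + v m' - v m ≤ U
  sep : ∀ k m : L G, Edge 1 k m → ∀ x y : ℂ, Arc 0 k (xi x) → Arc 1 m (xi y) →
    κ ≤ ‖x - y‖ ^ 2 / 2

variable {G : ℕ}

noncomputable def Base.R (B : Base G) : ℝ := min B.D0.R B.D1.R
noncomputable def Base.q (B : Base G) : ℝ := max B.D0.q B.D1.q

theorem Base.one_lt_R (B : Base G) : 1 < B.R := lt_min B.D0.one_lt_R B.D1.one_lt_R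
theorem Base.q_lt (B : Base G) : B.q < 1 := max_lt B.D0.q_lt B.D1.q_lt

theorem Lev.norm_of_arc {b : ZMod 2} {m : L G} {y : ℂ} (h : Arc b m (xi y)) : ‖y‖ = 1 := by
  simpa using h.1.norm_pt

theorem exists_base (G : ℕ) [Fact (2 ≤ G)] : Nonempty (Base G) := by
  obtain ⟨D0⟩ := exists_nest (G := G) 0
  obtain ⟨D1⟩ := exists_nest (G := G) 1
  obtain ⟨v, r₀, U, h0, hv, hr⟩ := exists_offset (G := G)
  obtain ⟨κ, hκ, hs⟩ := sep_reg (G := G)
  refine ⟨⟨D0, D1, v, r₀, U, κ, h0, hκ, hv, hr, fun k m he x y hx hy => ?_⟩⟩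
  have h1 := hs 1 k m he (xi x) (xi y) (arc_iff.1 hx).2 hy
  rw [br_xi_xi_re (Lev.norm_of_arc hy) (Lev.norm_of_arc hx), ofReal_re, norm_sub_rev] at h1
  simpa [xi] using h1

def stF (G N : ℕ) : Finset (Q × List (L G) × List (L G)) :=
  ((Finset.univ : Finset Q) ×ˢ admF G 0 (N + 1) ×ˢ admF G 1 (N + 1)).filter fun σ =>
    Edge 1 (σ.2.1.headD 0) (σ.2.2.headD 0)

/-- States: class of the chamber, past letters (most recent first), future letters. -/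
abbrev StN (G N : ℕ) := {σ // σ ∈ stF G N}

variable {N : ℕ}

def StN.cls (σ : StN G N) : Q := σ.1.1
def StN.pa (σ : StN G N) : List (L G) := σ.1.2.1
def StN.fu (σ : StN G N) : List (L G) := σ.1.2.2
def StN.hd (σ : StN G N) : L G := σ.fu.headD 0

def EN (σ σ' : StN G N) : Prop := σ'.cls = σ.cls + clL σ.hd ∧
  σ'.pa = σ.hd :: σ.pa.dropLast ∧ σ'.fu.dropLast = σ.fu.tail

theorem Lev.mem_stF {σ : Q × List (L G) × List (L G)} : σ ∈ stF G N ↔
    (σ.2.1.length = N + 1 ∧ Adm 0 σ.2.1) ∧ (σ.2.2.length = N + 1 ∧ Adm 1 σ.2.2) ∧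
      Edge 1 (σ.2.1.headD 0) (σ.2.2.headD 0) := by
  simp only [stF, Finset.mem_filter, Finset.mem_product, Finset.mem_univ, true_and, mem_admF,
    and_assoc]

theorem StN.pa_spec (σ : StN G N) : σ.pa.length = N + 1 ∧ Adm 0 σ.pa := (Lev.mem_stF.1 σ.2).1
theorem StN.fu_spec (σ : StN G N) : σ.fu.length = N + 1 ∧ Adm 1 σ.fu := (Lev.mem_stF.1 σ.2).2.1
theorem StN.edge (σ : StN G N) : Edge 1 (σ.pa.headD 0) σ.hd := (Lev.mem_stF.1 σ.2).2.2
theorem EN.edge {σ σ' : StN G N} (h : EN σ σ') : Edge 1 σ.hd σ'.hd := by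
  have := σ'.edge
  rwa [h.2.1] at this

namespace Lev

theorem pa_ne (σ : StN G N) : σ.pa ≠ [] := List.ne_nil_of_length_eq_add_one σ.pa_spec.1
theorem fu_ne (σ : StN G N) : σ.fu ≠ [] := List.ne_nil_of_length_eq_add_one σ.fu_spec.1

theorem head_tail {u : List (L G)} (hu : u ≠ []) : u.headD 0 :: u.tail = u := by
  obtain ⟨a, v, rfl⟩ := List.exists_cons_of_ne_nil hu
  rfl

theorem hd_tail (σ : StN G N) : σ.hd :: σ.fu.tail = σ.fu := head_tail (fu_ne σ)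

theorem adm_cons {b : ZMod 2} {m : L G} {u : List (L G)} (hu : u ≠ []) :
    Adm b (m :: u) ↔ Edge b m (u.headD 0) ∧ Adm b u := by
  obtain ⟨a, v, rfl⟩ := List.exists_cons_of_ne_nil hu
  exact Grp.adm_cons_cons

theorem edge01 {m k : L G} : Edge 1 m k ↔ Edge 0 k m := edge_symm (b := 0)

theorem ext {σ σ' : StN G N} (h1 : σ.cls = σ'.cls) (h2 : σ.pa = σ'.pa) (h3 : σ.fu = σ'.fu) :
    σ = σ' := Subtype.ext (Prod.ext h1 (Prod.ext h2 h3))

theorem adm_pa (σ : StN G N) : Adm 0 (σ.hd :: σ.pa) :=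
  (adm_cons (pa_ne σ)).2 ⟨edge01.1 σ.edge, σ.pa_spec.2⟩

theorem adm_fu (σ : StN G N) : Adm 1 (σ.pa.headD 0 :: σ.fu) :=
  (adm_cons (fu_ne σ)).2 ⟨σ.edge, σ.fu_spec.2⟩

end Lev

open Lev

theorem EN.fu_eq {σ σ' : StN G N} (h : EN σ σ') : σ.fu ++ [σ'.fu.getLastD 0] = σ.hd :: σ'.fu ∧
    Edge 1 (σ.fu.getLastD 0) (σ'.fu.getLastD 0) := by
  have h1 : σ.fu ++ [σ'.fu.getLastD 0] = σ.hd :: σ'.fu := by
    conv_lhs => rw [← hd_tail σ, ← h.2.2, List.cons_append, Ext.snoc_last (fu_ne σ')]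
  refine ⟨h1, ((Grp.adm_snoc (fu_ne σ)).1 ?_).2⟩
  rw [h1]
  exact (adm_cons (fu_ne σ')).2 ⟨h.edge, σ'.fu_spec.2⟩
theorem EN.pa_eq {σ σ' : StN G N} (h : EN σ σ') : σ'.pa ++ [σ.pa.getLastD 0] = σ.hd :: σ.pa ∧
    Edge 0 (σ'.pa.getLastD 0) (σ.pa.getLastD 0) := by
  have h1 : σ'.pa ++ [σ.pa.getLastD 0] = σ.hd :: σ.pa := by
    rw [h.2.1, List.cons_append, Ext.snoc_last (pa_ne σ)]
  refine ⟨h1, ((Grp.adm_snoc (pa_ne σ')).1 ?_).2⟩
  rw [h1]
  exact adm_pa σ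

theorem Lev.exists_succ (σ : StN G N) {m : L G} (hm : Edge 1 (σ.fu.getLastD 0) m) :
    ∃ σ', EN σ σ' ∧ σ'.fu.getLastD 0 = m := by
  have h1 : Adm 1 (σ.hd :: (σ.fu.tail ++ [m])) := by
    rw [← List.cons_append, hd_tail]
    exact (Grp.adm_snoc (fu_ne σ)).2 ⟨σ.fu_spec.2, hm⟩
  have h2 := (adm_cons (by simp)).1 h1
  have h3 : Adm 0 (σ.hd :: σ.pa.dropLast) := by
    rw [← List.dropLast_cons_of_ne_nil (pa_ne σ)]
    exact List.IsChain.dropLast (adm_pa σ)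
  refine ⟨⟨(σ.cls + clL σ.hd, σ.hd :: σ.pa.dropLast, σ.fu.tail ++ [m]),
    mem_stF.2 ⟨⟨?_, h3⟩, ⟨?_, h2.2⟩, h2.1⟩⟩, ⟨rfl, rfl, List.dropLast_concat⟩,
    List.getLastD_concat⟩
  · simp [σ.pa_spec.1]
  · simp [σ.fu_spec.1]

theorem Lev.exists_pred (σ' : StN G N) {m : L G} (hm : Edge 0 (σ'.pa.getLastD 0) m) :
    ∃ σ, EN σ σ' ∧ σ.pa.getLastD 0 = m := by
  have h1 : Adm 0 (σ'.pa.headD 0 :: (σ'.pa.tail ++ [m])) := by
    rw [← List.cons_append, head_tail (pa_ne σ')]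
    exact (Grp.adm_snoc (pa_ne σ')).2 ⟨σ'.pa_spec.2, hm⟩
  have h2 := (adm_cons (by simp)).1 h1
  have h3 : Adm 1 (σ'.pa.headD 0 :: σ'.fu.dropLast) := by
    rw [← List.dropLast_cons_of_ne_nil (fu_ne σ')]
    exact List.IsChain.dropLast (adm_fu σ')
  refine ⟨⟨(σ'.cls + clL (σ'.pa.headD 0), σ'.pa.tail ++ [m], σ'.pa.headD 0 :: σ'.fu.dropLast),
    mem_stF.2 ⟨⟨?_, h2.2⟩, ⟨?_, h3⟩, edge01.2 h2.1⟩⟩, ⟨?_, ?_, rfl⟩, List.getLastD_concat⟩
  · simp [σ'.pa_spec.1]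
  · simp [σ'.fu_spec.1]
  · change σ'.cls = σ'.cls + clL (σ'.pa.headD 0) + clL (σ'.pa.headD 0)
    rw [add_assoc, clL_add_self, add_zero]
  · change σ'.pa = σ'.pa.headD 0 :: (σ'.pa.tail ++ [m]).dropLast
    rw [List.dropLast_concat, head_tail (pa_ne σ')]

open Classical in
theorem sum_EN_succ {M : Type*} [AddCommMonoid M] (σ : StN G N) (f : L G → M) :
    (∑ σ', if EN σ σ' then f (σ'.fu.getLastD 0) else 0) =
      ∑ m, if Edge 1 (σ.fu.getLastD 0) m then f m else 0 := by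
  rw [← Finset.sum_filter, ← Finset.sum_filter]
  refine Finset.sum_bij (fun σ' _ => σ'.fu.getLastD 0) (fun σ' h => ?_) (fun a ha b hb h => ?_)
    (fun m hm => ?_) fun _ _ => rfl
  · exact Finset.mem_filter.2 ⟨Finset.mem_univ _, (Finset.mem_filter.1 h).2.fu_eq.2⟩
  · have h1 := (Finset.mem_filter.1 ha).2
    have h2 := (Finset.mem_filter.1 hb).2
    refine ext (h1.1.trans h2.1.symm) (h1.2.1.trans h2.2.1.symm) ?_
    have h3 := h1.fu_eq.1
    rw [h, h2.fu_eq.1] at h3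
    exact (List.cons.inj h3).2.symm
  · obtain ⟨σ', h1, h2⟩ := exists_succ σ (Finset.mem_filter.1 hm).2
    exact ⟨σ', Finset.mem_filter.2 ⟨Finset.mem_univ _, h1⟩, h2⟩

open Classical in
theorem sum_EN_pred {M : Type*} [AddCommMonoid M] (σ' : StN G N) (f : L G → M) :
    (∑ σ, if EN σ σ' then f (σ.pa.getLastD 0) else 0) =
      ∑ m, if Edge 0 (σ'.pa.getLastD 0) m then f m else 0 := by
  rw [← Finset.sum_filter, ← Finset.sum_filter]
  refine Finset.sum_bij (fun σ _ => σ.pa.getLastD 0) (fun σ h => ?_) (fun a ha b hb h => ?_)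
    (fun m hm => ?_) fun _ _ => rfl
  · exact Finset.mem_filter.2 ⟨Finset.mem_univ _, (Finset.mem_filter.1 h).2.pa_eq.2⟩
  · have h1 := (Finset.mem_filter.1 ha).2
    have h2 := (Finset.mem_filter.1 hb).2
    have h3 := h1.pa_eq.1
    rw [h, h2.pa_eq.1] at h3
    obtain ⟨h4, h5⟩ := List.cons.inj h3
    refine ext ?_ h5.symm ?_
    · have h6 := h1.1.symm.trans h2.1
      rw [h4] at h6
      exact add_right_cancel h6
    · rw [← hd_tail a, ← hd_tail b, h4, ← h1.2.2, ← h2.2.2]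
  · obtain ⟨σ, h1, h2⟩ := exists_pred σ' (Finset.mem_filter.1 hm).2
    exact ⟨σ, Finset.mem_filter.2 ⟨Finset.mem_univ _, h1⟩, h2⟩

namespace Lev

theorem head_get {u : List (L G)} (hu : u ≠ []) : u[0]? = some (u.headD 0) := by
  obtain ⟨a, v, rfl⟩ := List.exists_cons_of_ne_nil hu
  rfl

theorem fu_get {n : ℕ} (π : Cyc (EN (G := G) (N := N)) n) (j : ℕ) (hj : j ≤ N)
    (i : ZMod (n + 1)) : (π.1 i).fu[j]? = some (π.1 (i + j)).hd := by
  induction j generalizing i with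
  | zero => rw [head_get (fu_ne _), Nat.cast_zero, add_zero, StN.hd]
  | succ j ih =>
    rw [← List.getElem?_tail, ← (π.2 i).2.2, List.getElem?_dropLast, (π.1 (i + 1)).fu_spec.1,
      if_pos (by omega), ih (by omega), Nat.cast_succ, add_assoc, add_comm 1]

theorem pa_get {n : ℕ} (π : Cyc (EN (G := G) (N := N)) n) (j : ℕ) (hj : j ≤ N)
    (i : ZMod (n + 1)) : (π.1 i).pa[j]? = some (π.1 (i - 1 - j)).hd := by
  induction j generalizing i with
  | zero =>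
    have h := (π.2 (i - 1)).2.1
    rw [sub_add_cancel] at h
    rw [h, Nat.cast_zero, sub_zero, List.getElem?_cons_zero]
  | succ j ih =>
    have h := (π.2 (i - 1)).2.1
    rw [sub_add_cancel] at h
    rw [h, List.getElem?_cons_succ, List.getElem?_dropLast, (π.1 (i - 1)).pa_spec.1,
      if_pos (by omega), ih (by omega), Nat.cast_succ, sub_sub (i - 1), add_comm 1]

theorem eq_ofFn {u : List (L G)} {f : ℕ → L G} (hl : u.length = N + 1)
    (h : ∀ j ≤ N, u[j]? = some (f j)) : u = List.ofFn fun j : Fin (N + 1) => f j := by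
  refine List.ext_getElem (by simp [hl]) fun j h1 h2 => ?_
  have := h j (by omega)
  rw [List.getElem?_eq_getElem h1] at this
  rw [Option.some.inj this, List.getElem_ofFn]

theorem window {n : ℕ} (π : Cyc (EN (G := G) (N := N)) n) (i : ZMod (n + 1)) :
    (π.1 i).fu = List.ofFn (fun j : Fin (N + 1) => (π.1 (i + (j : ℕ))).hd) ∧
      (π.1 i).pa = List.ofFn fun j : Fin (N + 1) => (π.1 (i - 1 - (j : ℕ))).hd :=
  ⟨eq_ofFn (f := fun j => (π.1 (i + j)).hd) (π.1 i).fu_spec.1 fun j hj => fu_get π j hj i,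
    eq_ofFn (f := fun j => (π.1 (i - 1 - j)).hd) (π.1 i).pa_spec.1 fun j hj => pa_get π j hj i⟩

/-- The first `k` terms of a sequence. -/
def seg (k : ℕ) (f : ℕ → L G) : List (L G) := List.ofFn fun j : Fin k => f j

theorem seg_succ (k : ℕ) (f : ℕ → L G) : seg (k + 1) f = f 0 :: seg k fun j => f (j + 1) := by
  simp [seg, List.ofFn_succ]

theorem seg_succ' (k : ℕ) (f : ℕ → L G) : seg (k + 1) f = seg k f ++ [f k] := by
  rw [seg, List.ofFn_succ_last]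
  simp [seg]

theorem adm_seg {b : ZMod 2} {f : ℕ → L G} (h : ∀ j, Edge b (f j) (f (j + 1))) (k : ℕ) :
    Adm b (seg k f) := by
  rw [seg, Adm, List.isChain_ofFn]
  exact fun i _ => h i

/-- The state given by two sequences of letters. -/
def win (N : ℕ) (q : Q) {p f : ℕ → L G} (hp : ∀ j, Edge 0 (p j) (p (j + 1)))
    (hf : ∀ j, Edge 1 (f j) (f (j + 1))) (h : Edge 1 (p 0) (f 0)) : StN G N :=
  ⟨(q, seg (N + 1) p, seg (N + 1) f), mem_stF.2 ⟨⟨by simp [seg], adm_seg hp _⟩,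
    ⟨by simp [seg], adm_seg hf _⟩, by rw [seg_succ, seg_succ]; exact h⟩⟩

theorem win_hd (N : ℕ) (q : Q) {p f : ℕ → L G} (hp : ∀ j, Edge 0 (p j) (p (j + 1)))
    (hf : ∀ j, Edge 1 (f j) (f (j + 1))) (h : Edge 1 (p 0) (f 0)) : (win N q hp hf h).hd = f 0 := by
  change (seg (N + 1) f).headD 0 = f 0
  rw [seg_succ, List.headD_cons]

theorem exists_lift {n : ℕ} (ρ : Cyc (StE (G := G) 1) n) (N : ℕ) :
    ∃ π : Cyc (EN (G := G) (N := N)) n, ∀ i, ((π.1 i).cls, (π.1 i).hd) = ρ.1 i := by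
  have hp : ∀ (i : ZMod (n + 1)) (j : ℕ),
      Edge 0 (ρ.1 (i - 1 - j)).2 (ρ.1 (i - 1 - (j + 1 : ℕ))).2 := fun i j => by
    have := (ρ.2 (i - 1 - (j + 1 : ℕ))).1
    rw [show i - 1 - (j + 1 : ℕ) + 1 = i - 1 - j by push_cast; ring] at this
    exact edge01.1 this
  have hf : ∀ (i : ZMod (n + 1)) (j : ℕ),
      Edge 1 (ρ.1 (i + j)).2 (ρ.1 (i + (j + 1 : ℕ))).2 := fun i j => by
    have := (ρ.2 (i + j)).1
    rwa [show i + j + 1 = i + (j + 1 : ℕ) by push_cast; ring] at this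
  have h0 : ∀ i : ZMod (n + 1), Edge 1 (ρ.1 (i - 1 - (0 : ℕ))).2 (ρ.1 (i + (0 : ℕ))).2 :=
    fun i => by
      have := (ρ.2 (i - 1 - (0 : ℕ))).1
      rwa [show i - 1 - (0 : ℕ) + 1 = i + (0 : ℕ) by push_cast; ring] at this
  have hh : ∀ i, (win N (ρ.1 i).1 (hp i) (hf i) (h0 i)).hd = (ρ.1 i).2 := fun i => by
    rw [win_hd, Nat.cast_zero, add_zero]
  refine ⟨⟨fun i => win N (ρ.1 i).1 (hp i) (hf i) (h0 i), fun i => ⟨?_, ?_, ?_⟩⟩,
    fun i => Prod.ext rfl (hh i)⟩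
  · rw [hh]
    exact (ρ.2 i).2
  · rw [hh]
    change seg (N + 1) (fun j => (ρ.1 (i + 1 - 1 - j)).2) =
      _ :: (seg (N + 1) fun j => (ρ.1 (i - 1 - j)).2).dropLast
    rw [seg_succ, seg_succ' N fun j => (ρ.1 (i - 1 - j)).2, List.dropLast_concat]
    congr 2
    · simp
    · funext j
      rw [show i + 1 - 1 - (j + 1 : ℕ) = i - 1 - j by push_cast; ring]
  · change (seg (N + 1) fun j => (ρ.1 (i + 1 + j)).2).dropLast =
      (seg (N + 1) fun j => (ρ.1 (i + j)).2).tail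
    rw [seg_succ', seg_succ N fun j => (ρ.1 (i + j)).2, List.dropLast_concat, List.tail_cons]
    congr 1
    funext j
    rw [show i + 1 + j = i + (j + 1 : ℕ) by push_cast; ring]

end Lev

theorem exists_cycEquiv (N n : ℕ) : ∃ e : Cyc (EN (G := G) (N := N)) n ≃ Cyc (StE (G := G) 1) n,
    ∀ π i, (e π).1 i = ((π.1 i).cls, (π.1 i).hd) := by
  let F : Cyc (EN (G := G) (N := N)) n → Cyc (StE (G := G) 1) n := fun π =>
    ⟨fun i => ((π.1 i).cls, (π.1 i).hd), fun i => ⟨(π.2 i).edge, (π.2 i).1⟩⟩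
  refine ⟨Equiv.ofBijective F ⟨fun π π' h => ?_, fun ρ => ?_⟩, fun _ _ => rfl⟩
  · have h1 : ∀ i, ((π.1 i).cls, (π.1 i).hd) = ((π'.1 i).cls, (π'.1 i).hd) :=
      congrFun (congrArg Subtype.val h)
    have h2 : ∀ i, (π.1 i).hd = (π'.1 i).hd := fun i => (Prod.ext_iff.1 (h1 i)).2
    refine Subtype.ext (funext fun i => ext (Prod.ext_iff.1 (h1 i)).1 ?_ ?_)
    · rw [(window π i).2, (window π' i).2]
      simp only [h2]
    · rw [(window π i).1, (window π' i).1]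
      simp only [h2]
  · obtain ⟨π, h⟩ := exists_lift ρ N
    exact ⟨π, Subtype.ext (funext h)⟩

noncomputable def cycE (N n : ℕ) : Cyc (EN (G := G) (N := N)) n ≃ Cyc (StE (G := G) 1) n :=
  (exists_cycEquiv N n).choose

theorem cycE_apply {n : ℕ} (π : Cyc (EN (G := G) (N := N)) n) (i : ZMod (n + 1)) :
    (cycE N n π).1 i = ((π.1 i).cls, (π.1 i).hd) := (exists_cycEquiv N n).choose_spec π i

theorem cyc_window {n : ℕ} (π : Cyc (EN (G := G) (N := N)) n) (i : ZMod (n + 1)) :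
    (π.1 i).fu = List.ofFn (fun j : Fin (N + 1) => (π.1 (i + (j : ℕ))).hd) ∧
      (π.1 i).pa = List.ofFn fun j : Fin (N + 1) => (π.1 (i - 1 - (j : ℕ))).hd := window π i

noncomputable def wt (x : L G → ℂ) (σ : StN G N) : ℂ := exp (sgn σ.cls σ.hd * x σ.hd)

theorem prod_wt {n : ℕ} (x : L G → ℂ) (π : Cyc (EN (G := G) (N := N)) n) :
    ∏ i, wt x (π.1 i) = exp (Th x (gam (cycE N n π))) := by
  rw [Th_gam, exp_sum]
  exact Finset.prod_congr rfl fun i _ => by rw [cycE_apply, wt]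

noncomputable def Base.psS (B : Base G) (σ σ' : StN G N) : ℂ → ℂ :=
  B.D0.psi (σ'.pa.getLastD 0) (σ.pa.getLastD 0)

noncomputable def Base.psU (B : Base G) (σ σ' : StN G N) : ℂ → ℂ :=
  B.D1.psi (σ.fu.getLastD 0) (σ'.fu.getLastD 0)

theorem Base.into (B : Base G) (σ σ' : StN G N) (h : EN σ σ') :
    Into B.R B.q (B.psS σ σ') ∧ Into B.R B.q (B.psU σ σ') := by
  have h0 := Op1.into_mono (B.D0.into _ _ h.pa_eq.2) (min_le_left B.D0.R B.D1.R)
  have h1 := Op1.into_mono (B.D1.into _ _ h.fu_eq.2) (min_le_right B.D0.R B.D1.R)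
  exact ⟨⟨h0.1, fun y hy => (h0.2 y hy).trans (le_max_left _ _)⟩,
    ⟨h1.1, fun y hy => (h1.2 y hy).trans (le_max_right _ _)⟩⟩

/-- A level one vector read along the word `f σ`. -/
noncomputable def up (f : StN G N → List (L G)) (x : L G → ℂ) (μ : Vec (St G × ℕ)) :
    Vec (StN G N × ℕ) :=
  toVec fun i => exp (Th x (sec i.1.cls * wd (f i.1).dropLast) - Th x (sec i.1.cls)) *
    μ ((cl (sec i.1.cls * wd (f i.1).dropLast), (f i.1).getLastD 0), i.2)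

theorem Lev.up_apply (f : StN G N → List (L G)) (x : L G → ℂ) (μ : Vec (St G × ℕ)) (σ : StN G N)
    (b : ℕ) : up f x μ (σ, b) = exp (Th x (sec σ.cls * wd (f σ).dropLast) - Th x (sec σ.cls)) *
      μ ((cl (sec σ.cls * wd (f σ).dropLast), (f σ).getLastD 0), b) := by
  refine toVec_apply ((summable_prod_of_nonneg fun _ => norm_nonneg _).2
    ⟨fun σ => ?_, Summable.of_finite⟩) _
  simp only [norm_mul]
  exact (EvT.summ_slice μ _).mul_left _

theorem ev_up (f : StN G N → List (L G)) (x : L G → ℂ) (μ : Vec (St G × ℕ)) (σ : StN G N)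
    (H : ℂ → ℂ) : ev (up f x μ) σ H =
      exp (Th x (sec σ.cls * wd (f σ).dropLast) - Th x (sec σ.cls)) *
        ev μ (cl (sec σ.cls * wd (f σ).dropLast), (f σ).getLastD 0) H := by
  simp only [ev, up_apply, mul_assoc]
  exact tsum_mul_left

namespace Lev

theorem shift (y : L G → ℂ) {q q' : Q} {h k : L G} {u u' : List (L G)} (hq : q' = q + clL h)
    (hu : u ++ [k] = h :: u') :
    cl (sec q' * wd u' : W G) = cl (sec q * wd u : W G) + clL k ∧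
      Th y (sec q * wd u) - Th y (sec q) + sgn (cl (sec q * wd u : W G)) k * y k =
        sgn q h * y h + (Th y (sec q' * wd u') - Th y (sec q')) := by
  have h1 : (sec q * wd u * sr k : W G) = sec q * sr h * wd u' := by
    have := congrArg wd hu
    simp only [wd_append, wd_cons, wd_nil, mul_one] at this
    rw [mul_assoc, this, mul_assoc]
  have h2 : cl (sec q * sr h : W G) = cl (sec q' : W G) := by
    rw [Hom.cl_step, cl_sec, cl_sec, hq]
  have h3 := Th_sub_congr y h2 (wd u')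
  have h4 := Th_step y (sec q * wd u) k
  have h5 := Th_step y (sec q) h
  rw [cl_sec] at h5
  rw [h1] at h4
  refine ⟨?_, by linear_combination h3 - h4 + h5⟩
  rw [← Hom.cl_step, h1, cl_mul, cl_mul (sec q * sr h), h2]

open Classical in
theorem fix_pow {b : ZMod 2} {D : Nest G b} {y : L G → ℂ} {μ : Vec (St G × ℕ)}
    (h : Fixd D 0 y μ) (c : ℂ) (q : Q) (m : L G) (a : ℕ) : c * μ ((q, m), a) =
      ∑ m', if Edge b m m' then c * (exp (sgn q m * y m) *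
        ev μ (q + clL m, m') fun η => D.psi m m' η ^ a) else 0 := by
  rw [← ev_pow, h.ev_eq q m (by fun_prop), Finset.mul_sum]
  refine Finset.sum_congr rfl fun m' _ => ?_
  split_ifs
  · simp
  · exact mul_zero c

end Lev

theorem fixR_up (B : Base G) {x : L G → ℂ} {μ : Vec (St G × ℕ)} (h : Fixd B.D1 0 x μ) :
    FixR (EN (N := N)) B.psU (fun σ _ => wt x σ) (up StN.fu x μ) := by
  intro σ b
  rw [up_apply, fix_pow h, ← sum_EN_succ]
  refine Finset.sum_congr rfl fun σ' _ => ?_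
  split_ifs with he
  · obtain ⟨h1, h2⟩ := shift x (u := σ.fu.dropLast) (k := σ.fu.getLastD 0) (u' := σ'.fu.dropLast)
      he.1 (by rw [Ext.snoc_last (fu_ne σ), he.2.2, hd_tail])
    simp only [wt]
    rw [ev_up, h1, ← mul_assoc, ← mul_assoc, ← exp_add, ← exp_add, h2]
    rfl
  · rfl

theorem fixL_up (B : Base G) {x : L G → ℂ} {μ : Vec (St G × ℕ)} (h : Fixd B.D0 0 (-x) μ) :
    FixL (EN (N := N)) B.psS (fun σ _ => wt x σ) (up StN.pa (-x) μ) := by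
  intro σ' a
  rw [up_apply, fix_pow h, ← sum_EN_pred]
  refine Finset.sum_congr rfl fun σ _ => ?_
  split_ifs with he
  · obtain ⟨h1, h2⟩ := shift (-x) (q := σ'.cls) (q' := σ.cls) (h := σ.hd) (u := σ'.pa.dropLast)
      (k := σ'.pa.getLastD 0) (u' := σ.pa.dropLast)
      (by rw [he.1, add_assoc, clL_add_self, add_zero])
      (by rw [Ext.snoc_last (pa_ne σ'), he.2.1])
    have h3 : sgn σ'.cls σ.hd * (-x) σ.hd = sgn σ.cls σ.hd * x σ.hd := by
      rw [he.1, Hom.sgn_self, Pi.neg_apply, neg_mul_neg]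
    simp only [wt]
    rw [ev_up, h1, ← mul_assoc, ← mul_assoc, ← exp_add, ← exp_add, h2, h3]
    rfl
  · rfl

theorem Lev.indep_aux {n : ℕ} {f : StN G N → List (L G)}
    (hf : ∀ q m, ∃ σ, cl (sec σ.cls * wd (f σ).dropLast : W G) = q ∧ (f σ).getLastD 0 = m)
    (x : L G → ℂ) {v : Fin n → Vec (St G × ℕ)} (h : LinearIndependent ℂ v) :
    LinearIndependent ℂ fun j => up f x (v j) := by
  rw [Fintype.linearIndependent_iff] at h ⊢
  intro c hc
  refine h c (lp.ext (funext fun ⟨⟨q, m⟩, b⟩ => ?_))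
  obtain ⟨σ, h1, h2⟩ := hf q m
  have h3 := congrArg (fun w : Vec (StN G N × ℕ) => w (σ, b)) hc
  simp only [lp.coeFn_sum, lp.coeFn_smul, Finset.sum_apply, Pi.smul_apply, smul_eq_mul,
    lp.coeFn_zero, Pi.zero_apply, up_apply, h1, h2] at h3 ⊢
  refine mul_left_cancel₀ (exp_ne_zero
    (Th x (sec σ.cls * wd (f σ).dropLast) - Th x (sec σ.cls))) ?_
  rw [mul_zero, Finset.mul_sum, ← h3]
  exact Finset.sum_congr rfl fun j _ => by ring

variable [hG : Fact (2 ≤ G)]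

theorem Lev.exists_win (N : ℕ) (q : Q) (c : L G) : ∃ σ : StN G N, σ.cls = q ∧
    σ.pa = seg (N + 1) (fun j : ℕ => c - 2 - 2 * (j : L G)) ∧
      σ.fu = seg (N + 1) fun j : ℕ => c + 2 * (j : L G) := by
  refine ⟨win N q (p := fun j : ℕ => c - 2 - 2 * (j : L G)) (f := fun j : ℕ => c + 2 * (j : L G))
    (fun j => ?_) (fun j => ?_) ?_, rfl, rfl, rfl⟩
  · have := (far_add_two (G := G) (c - 2 - 2 * (j + 1 : ℕ))).symm.edge 0
    rwa [show c - 2 - 2 * (j + 1 : ℕ) + 2 = c - 2 - 2 * j by push_cast; ring] at this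
  · have := (far_add_two (G := G) (c + 2 * j)).edge 1
    rwa [show c + 2 * j + 2 = c + 2 * (j + 1 : ℕ) by push_cast; ring] at this
  · have := (far_add_two (G := G) (c - 2 - 2 * (0 : ℕ))).edge 1
    rwa [show c - 2 - 2 * (0 : ℕ) + 2 = c + 2 * (0 : ℕ) by push_cast; ring] at this

theorem indep_up {n : ℕ} (x : L G → ℂ) {v : Fin n → Vec (St G × ℕ)} (h : LinearIndependent ℂ v) :
    (LinearIndependent ℂ fun j => up (N := N) StN.fu x (v j)) ∧
      LinearIndependent ℂ fun j => up (N := N) StN.pa x (v j) := by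
  refine ⟨indep_aux (fun q m => ?_) x h, indep_aux (fun q m => ?_) x h⟩
  · obtain ⟨σ, h1, -, h2⟩ := exists_win N
      (q + cl (wd (seg N fun j : ℕ => m - 2 * (N : L G) + 2 * (j : L G))))
      (m - 2 * (N : L G))
    refine ⟨σ, ?_, ?_⟩
    · rw [h1, h2, seg_succ', List.dropLast_concat, cl_mul, cl_sec, add_assoc, Hom.q_add_self,
        add_zero]
    · rw [h2, seg_succ', List.getLastD_concat, sub_add_cancel]
  · obtain ⟨σ, h1, h2, -⟩ := exists_win N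
      (q + cl (wd (seg N fun j : ℕ => m + 2 * (N : L G) + 2 - 2 - 2 * (j : L G))))
      (m + 2 * (N : L G) + 2)
    refine ⟨σ, ?_, ?_⟩
    · rw [h1, h2, seg_succ', List.dropLast_concat, cl_mul, cl_sec, add_assoc, Hom.q_add_self,
        add_zero]
    · rw [h2, seg_succ', List.getLastD_concat, add_sub_cancel_right, add_sub_cancel_right]

noncomputable def Base.xP (B : Base G) (σ : StN G N) (ξ : ℂ) : ℂ := pt (B.D0.lift σ.pa ξ)
noncomputable def Base.yP (B : Base G) (σ : StN G N) (η : ℂ) : ℂ := pt (B.D1.lift σ.fu η)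

/-- The roof function of the hyperbolic flow. -/
noncomputable def Base.r0 (B : Base G) (σ σ' : StN G N) (p : ℂ × ℂ) : ℂ :=
  log (mir σ.hd (xi (B.yP σ' p.2))).1 + B.v σ'.hd - B.v σ.hd

noncomputable def Base.par4 (B : Base G) (σ σ' : StN G N) (p : ℂ × ℂ) : C4 :=
  (B.xP σ p.1, pt (mir σ.hd (xi (B.yP σ' p.2))), B.v σ.hd, B.r0 σ σ' p)

/-- The first variation of the roof function. -/
noncomputable def Base.rb (B : Base G) (w : V) (σ σ' : StN G N) (p : ℂ × ℂ) : ℂ :=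
  rbF (fam (sec σ.cls : W G) w) (B.par4 σ σ' p)

namespace Lev

theorem nul_mir (m : L G) {y : ℂ} (hy : ‖y‖ = 1) : Nul (mir m (xi y)) :=
  (iso_refl m).nul (nul_xi hy)

theorem log_nul {Y : V} (h : Nul Y) : log Y.1 = (Real.log Y.1.re : ℝ) := by
  rw [ofReal_log h.2.1.le, ← h.1.fst_eq]

omit hG in
theorem diffAt_xi {y : ℂ} (hy : y ≠ 0) : DifferentiableAt ℂ xi y := by
  unfold xi
  fun_prop (disch := exact hy)

theorem near {ε : ℝ} (hε : 0 < ε) : ∃ δ > 0, δ ≤ ε ∧ ∀ (m : L G) (y₀ y : ℂ), ‖y₀‖ = 1 →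
    ‖y - y₀‖ < δ → 0 < (mir m (xi y)).1.re ∧ ‖pt (mir m (xi y)) - pt (mir m (xi y₀))‖ < ε ∧
      ‖log (mir m (xi y)).1 - log (mir m (xi y₀)).1‖ < ε := by
  obtain ⟨C, hC, h1⟩ := exists_refl_fst_le (G := G)
  let F : ℂ → L G → ℂ × ℂ × ℂ := fun y m =>
    ((mir m (xi y)).1, pt (mir m (xi y)), log (mir m (xi y)).1)
  have hF : ∀ y ∈ sphere (0 : ℂ) 1, ContinuousAt F y := fun y hy => by
    have hy1 : ‖y‖ = 1 := by simpa using hy
    refine continuousAt_pi.2 fun m => ?_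
    have h2 : ContinuousAt (fun y => mir m (xi y)) y :=
      (mir m).continuous.continuousAt.comp (Ext.contAt_xi fun h => by simp [h] at hy1)
    have h3 := nul_mir m hy1
    exact h2.fst.prodMk (((Ext.diffAt_pt (Ext.fst_ne h3)).continuousAt.comp
      (f := fun y => mir m (xi y)) h2).prodMk (h2.fst.clog (Or.inl h3.2.1)))
  have h4 := (isCompact_sphere (0 : ℂ) 1).uniformContinuousAt_of_continuousAt F hF
    (dist_mem_uniformity (lt_min hε (inv_pos.2 hC)))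
  obtain ⟨δ, hδ, h5⟩ := mem_uniformity_dist.1 h4
  refine ⟨min δ ε, lt_min hδ hε, min_le_right _ _, fun m y₀ y h0 hy => ?_⟩
  have h6 : dist (F y m) (F y₀ m) < min ε C⁻¹ := by
    refine (dist_le_pi_dist _ _ m).trans_lt ?_
    rw [dist_comm]
    refine h5 (a := y₀) (b := y) ?_ (by simpa using h0)
    rw [dist_comm, dist_eq_norm]
    exact hy.trans_le (min_le_left _ _)
  simp only [F, dist_eq_norm, Prod.mk_sub_mk, Prod.norm_def, max_lt_iff, lt_min_iff] at h6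
  refine ⟨?_, h6.1.2.1, h6.1.2.2⟩
  have h7 := h1 m _ (nul_mir m h0).fut
  rw [refl_refl] at h7
  have h8 : C⁻¹ ≤ (mir m (xi y₀)).1.re := by
    rw [inv_le_iff_one_le_mul₀' hC]
    simpa [xi] using h7
  have h9 := (abs_lt.1 ((abs_re_le_norm _).trans_lt h6.2.1)).1
  rw [sub_re] at h9
  linarith

theorem pt_mir {b : ZMod 2} (D : Nest G b) {m k : L G} {u u' : List (L G)} (hu : u ≠ [])
    (hu' : u' ≠ []) (h : u ++ [k] = m :: u') (he : Edge b (u.getLastD 0) k) {η : ℂ}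
    (hη : η ∈ ball (0 : ℂ) D.R) (h0 : (D.lift u' η).1 ≠ 0) :
    pt (mir m (xi (pt (D.lift u' η)))) = pt (D.lift u (D.psi (u.getLastD 0) k η)) := by
  have h1 := D.lift_snoc hu he hη
  rw [h, D.lift_cons m hu', (eq_smul_xi_of_null (D.br_lift_self u' η) h0).2, map_smul] at h1
  rw [← pt_smul h0, h1, pt_smul (exp_ne_zero _)]

end Lev

theorem Base.par4_mem (B : Base G) {δ : ℝ} (hδ : 0 < δ) : ∀ᶠ N in atTop, ∀ σ σ' : StN G N,
    EN σ σ' → DifferentiableOn ℂ (B.par4 σ σ') (ball 0 B.R) ∧ ∀ p ∈ ball (0 : ℂ × ℂ) B.R,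
      B.par4 σ σ' p ∈ HDom B.κ B.U δ ∧ B.r₀ / 2 ≤ (B.r0 σ σ' p).re ∧
      (B.D0.lift σ.pa p.1).1 ≠ 0 ∧ (B.D1.lift σ'.fu p.2).1 ≠ 0 ∧
      0 < (mir σ.hd (xi (B.yP σ' p.2))).1.re ∧ (mir σ.hd (xi (B.xP σ p.1))).1 ≠ 0 ∧
      pt (mir σ.hd (xi (B.yP σ' p.2))) = B.yP σ (B.psU σ σ' p.2) ∧
      pt (mir σ.hd (xi (B.xP σ p.1))) = B.xP σ' (B.psS σ σ' p.1) := by
  obtain ⟨δ', hδ', hle, hn⟩ := near (G := G) (lt_min hδ (half_pos B.r₀_pos))
  obtain ⟨N0, h0⟩ := B.D0.exists_thin hδ'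
  obtain ⟨N1, h1⟩ := B.D1.exists_thin hδ'
  filter_upwards [eventually_ge_atTop N0, eventually_ge_atTop N1] with N hN0 hN1 σ σ' h
  have hb : ∀ p ∈ ball (0 : ℂ × ℂ) B.R, p.1 ∈ ball (0 : ℂ) B.D0.R ∧ p.2 ∈ ball (0 : ℂ) B.D1.R :=
    fun p hp => by
      simpa only [mem_ball_zero_iff, Prod.norm_def, Base.R, max_lt_iff, lt_min_iff] using
        And.intro (((norm_fst_le p).trans_lt (mem_ball_zero_iff.1 hp)).trans_le (min_le_left _ _))
          (((norm_snd_le p).trans_lt (mem_ball_zero_iff.1 hp)).trans_le (min_le_right _ _))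
  have hx := fun p hp => h0 σ.pa σ.pa_spec.2 (by rw [σ.pa_spec.1]; omega) _ (hb p hp).1
  have hy := fun p hp => h1 σ'.fu σ'.fu_spec.2 (by rw [σ'.fu_spec.1]; omega) _ (hb p hp).2
  refine ⟨fun p hp => DifferentiableAt.differentiableWithinAt ?_, fun p hp => ?_⟩
  · obtain ⟨hy0, y₀, hy1, hy2⟩ := hy p hp
    have h2 := (hn σ.hd y₀ _ (norm_of_arc hy1) hy2).1
    have d1 : DifferentiableAt ℂ (fun p : ℂ × ℂ => B.xP σ p.1) p :=
      (Ext.diffAt_pt (hx p hp).1).comp p ((B.D0.diff_lift σ.pa p.1).comp p differentiableAt_fst)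
    have d2 : DifferentiableAt ℂ (fun p : ℂ × ℂ => B.yP σ' p.2) p :=
      (Ext.diffAt_pt hy0).comp p ((B.D1.diff_lift σ'.fu p.2).comp p differentiableAt_snd)
    have d3 : DifferentiableAt ℂ (fun p : ℂ × ℂ => mir σ.hd (xi (B.yP σ' p.2))) p :=
      (mir σ.hd).differentiableAt.comp p
        (DifferentiableAt.comp (g := xi) p
          (diffAt_xi (eq_smul_xi_of_null (B.D1.br_lift_self _ _) hy0).1) d2)
    have d4 : DifferentiableAt ℂ (fun p : ℂ × ℂ => pt (mir σ.hd (xi (B.yP σ' p.2)))) p :=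
      DifferentiableAt.comp (g := pt) p (Ext.diffAt_pt fun e => h2.ne' (congrArg re e)) d3
    exact d1.prodMk (d4.prodMk ((differentiableAt_const _).prodMk
      (((d3.fst.clog (Or.inl h2)).add_const _).sub_const _)))
  · obtain ⟨hx0, x₀, hx1, hx2⟩ := hx p hp
    obtain ⟨hy0, y₀, hy1, hy2⟩ := hy p hp
    obtain ⟨a1, a2, a3⟩ := hn σ.hd y₀ _ (norm_of_arc hy1) hy2
    have hA := Arc.step h.edge hy1
    have hA' : Arc 1 σ.hd (xi (pt (mir σ.hd (xi y₀)))) := by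
      have := hA.smul (inv_pos.2 hA.1.2.1)
      rwa [hA.1.eq_smul_xi, smul_smul, ← hA.1.eq_smul_xi, ← ofReal_mul,
        inv_mul_cancel₀ hA.1.2.1.ne', ofReal_one, one_smul] at this
    obtain ⟨r1, r2⟩ := B.roof _ _ h.edge y₀ hy1
    have e : B.r0 σ σ' p - (Real.log (mir σ.hd (xi y₀)).1.re + B.v σ'.hd - B.v σ.hd : ℝ) =
        log (mir σ.hd (xi (B.yP σ' p.2))).1 - log (mir σ.hd (xi y₀)).1 := by
      rw [Base.r0, log_nul hA.1]
      push_cast
      ring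
    refine ⟨⟨x₀, pt (mir σ.hd (xi y₀)), B.v σ.hd,
      Real.log (mir σ.hd (xi y₀)).1.re + B.v σ'.hd - B.v σ.hd, norm_of_arc hx1, hA.1.norm_pt,
      B.sep _ _ σ.edge _ _ hx1 hA', B.v_le _, abs_le.2 ⟨by linarith [B.r₀_pos], r2⟩, ?_⟩, ?_, hx0,
      hy0, a1, fun e => (hn σ.hd x₀ _ (norm_of_arc hx1) hx2).1.ne' (congrArg re e),
      pt_mir B.D1 (fu_ne σ) (fu_ne σ') h.fu_eq.1 h.fu_eq.2 (hb p hp).2 hy0,
      pt_mir B.D0 (pa_ne σ') (pa_ne σ) h.pa_eq.1 h.pa_eq.2 (hb p hp).1 hx0⟩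
    · simp only [Base.par4, Prod.mk_sub_mk, Prod.norm_def, max_lt_iff, sub_self, norm_zero, e]
      exact ⟨hx2.trans_le (hle.trans (min_le_left _ _)), a2.trans_le (min_le_left _ _), hδ,
        a3.trans_le (min_le_left _ _)⟩
    · have h3 := (abs_lt.1 ((abs_re_le_norm _).trans_lt (a3.trans_le (min_le_right _ _)))).1
      change _ < (log (mir σ.hd (xi (B.yP σ' p.2))).1 - log (mir σ.hd (xi y₀)).1).re at h3
      rw [← e, sub_re, ofReal_re] at h3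
      linarith

theorem Base.par4_real (B : Base G) (σ σ' : StN G N) (a b : ℝ) : ‖B.xP σ a‖ = 1 ∧
    ‖B.yP σ' b‖ = 1 ∧ ‖pt (mir σ.hd (xi (B.yP σ' b)))‖ = 1 ∧ (B.r0 σ σ' (a, b)).im = 0 := by
  have h1 : ‖B.yP σ' b‖ = 1 := (B.D1.nul_lift σ'.fu b).norm_pt
  refine ⟨(B.D0.nul_lift σ.pa a).norm_pt, h1, (nul_mir _ h1).norm_pt, ?_⟩
  rw [Base.r0, log_nul (nul_mir _ h1)]
  simp only [sub_im, add_im, ofReal_im, add_zero, sub_zero]

theorem Base.rb_diff (B : Base G) : ∃ C : ℝ, ∀ᶠ N in atTop, ∀ w, Hyp w → ∀ σ σ' : StN G N,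
    EN σ σ' → DifferentiableOn ℂ (B.rb w σ σ') (ball 0 B.R) ∧
      DifferentiableOn ℂ (B.r0 σ σ') (ball 0 B.R) ∧
      ∀ p ∈ ball (0 : ℂ × ℂ) B.R, ‖B.rb w σ σ' p‖ ≤ C := by
  obtain ⟨Cb, hCb⟩ := exists_famy (G := G)
  obtain ⟨δ, hδ, C, hC⟩ := exists_rbF B.κ_pos B.U Cb
  refine ⟨C, (B.par4_mem hδ).mono fun N hN w hw σ σ' h => ?_⟩
  obtain ⟨h1, h2⟩ := hN σ σ' h
  obtain ⟨h3, h4⟩ := hC _ _ (hCb (sec σ.cls) w hw)
  exact ⟨h3.comp h1 fun p hp => (h2 p hp).1, h1.snd.snd.snd, fun p hp => h4 _ (h2 p hp).1⟩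

end Pool.Agent.Lib.MP_de7bb2_an
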