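import Pool.Agent.Lib.MP_de7bb2_an.H20Tool

/-! Limits of reproducing kernels of finite dimensional pairings; Euler products over cycles.
TASK LIMTR. -/

namespace Pool.Agent.Lib.MP_de7bb2_an

open Filter Topology

namespace LimTr

variable {X ι : Type*} [NormedAddCommGroup X] [NormedSpace ℂ X]

theorem sum_scale {n : ℕ} (c : ℂ) (a : Fin n → ℂ) (L : Fin n → X) :
    ∑ j, (c * a j) • L j = c • ∑ j, a j • L j := by
  rw [Finset.smul_sum]
  exact Finset.sum_congr rfl fun j _ => mul_smul c (a j) (L j)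

/-- eventually bounded combinations converge in `W` -/
theorem lim_of_bound (𝒰 : Ultrafilter ι) {n : ℕ} (L : ι → Fin n → X) (W : Submodule ℂ X)
    (hL : ∀ a : ι → Fin n → ℂ, (∀ i, ‖∑ j, a i j • L i j‖ ≤ 1) →
      ∃ v ∈ W, Tendsto (fun i => ∑ j, a i j • L i j) 𝒰 (𝓝 v))
    (a : ι → Fin n → ℂ) {C : ℝ} (hC : 0 < C) (h : ∀ᶠ i in 𝒰, ‖∑ j, a i j • L i j‖ ≤ C) :
    ∃ v ∈ W, Tendsto (fun i => ∑ j, a i j • L i j) 𝒰 (𝓝 v) := by
  classical
  have hC' : (C : ℂ) ≠ 0 := by exact_mod_cast hC.ne'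
  obtain ⟨v, hv, hlim⟩ := hL
    (fun i j => if ‖∑ j, a i j • L i j‖ ≤ C then (C : ℂ)⁻¹ * a i j else 0) (fun i => by
      by_cases hi : ‖∑ j, a i j • L i j‖ ≤ C
      · simp only [if_pos hi]
        rw [sum_scale, norm_smul, norm_inv, Complex.norm_real, Real.norm_of_nonneg hC.le,
          inv_mul_le_iff₀ hC, mul_one]
        exact hi
      · simp [if_neg hi])
  refine ⟨(C : ℂ) • v, W.smul_mem _ hv, ?_⟩
  refine (hlim.const_smul (C : ℂ)).congr' ?_
  filter_upwards [h] with i hi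
  simp only [if_pos hi]
  rw [sum_scale, smul_smul, mul_inv_cancel₀ hC', one_smul]

theorem eventually_le_proj (𝒰 : Ultrafilter ι) {n : ℕ} (L : ι → Fin n → X) (W : Submodule ℂ X)
    (hL : ∀ a : ι → Fin n → ℂ, (∀ i, ‖∑ j, a i j • L i j‖ ≤ 1) →
      ∃ v ∈ W, Tendsto (fun i => ∑ j, a i j • L i j) 𝒰 (𝓝 v))
    (π : X →L[ℂ] W) (hπ : ∀ x : W, π x = x) :
    ∀ᶠ i in 𝒰, ∀ a : Fin n → ℂ, ‖∑ j, a j • L i j‖ ≤ 2 * ‖π (∑ j, a j • L i j)‖ := by
  classical
  by_contra hcon
  rw [← Ultrafilter.eventually_not] at hcon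
  have hex : ∀ i, ∃ a : Fin n → ℂ,
      (¬ ∀ a : Fin n → ℂ, ‖∑ j, a j • L i j‖ ≤ 2 * ‖π (∑ j, a j • L i j)‖) →
        ‖∑ j, a j • L i j‖ = 1 ∧ ‖π (∑ j, a j • L i j)‖ ≤ 1 / 2 := by
    intro i
    by_cases hi : ∀ a : Fin n → ℂ, ‖∑ j, a j • L i j‖ ≤ 2 * ‖π (∑ j, a j • L i j)‖
    · exact ⟨0, fun h => (h hi).elim⟩
    · obtain ⟨a, ha⟩ := not_forall.mp hi
      have ha' := not_le.mp ha
      have hpos : 0 < ‖∑ j, a j • L i j‖ := lt_of_le_of_lt (by positivity) ha'
      refine ⟨fun j => ((‖∑ j, a j • L i j‖ : ℝ) : ℂ)⁻¹ * a j, fun _ => ?_⟩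
      rw [sum_scale, map_smul, norm_smul, norm_smul, norm_inv, Complex.norm_real,
        Real.norm_of_nonneg hpos.le]
      refine ⟨inv_mul_cancel₀ hpos.ne', ?_⟩
      rw [inv_mul_le_iff₀ hpos]
      linarith
  choose a ha using hex
  have h1 : ∀ᶠ i in 𝒰, ‖∑ j, a i j • L i j‖ = 1 := hcon.mono fun i hi => (ha i hi).1
  have h2 : ∀ᶠ i in 𝒰, ‖π (∑ j, a i j • L i j)‖ ≤ 1 / 2 := hcon.mono fun i hi => (ha i hi).2
  obtain ⟨v, hv, hlim⟩ := lim_of_bound 𝒰 L W hL a one_pos (h1.mono fun i hi => hi.le)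
  have e1 : ‖v‖ = 1 :=
    tendsto_nhds_unique hlim.norm (tendsto_const_nhds.congr' (h1.mono fun i hi => hi.symm))
  have e2 : ‖π v‖ ≤ 1 / 2 := le_of_tendsto ((π.continuous.tendsto v).comp hlim).norm h2
  have e3 : π v = ⟨v, hv⟩ := hπ ⟨v, hv⟩
  rw [e3] at e2
  have e4 : ‖(⟨v, hv⟩ : W)‖ = ‖v‖ := rfl
  rw [e4, e1] at e2
  norm_num at e2

/-- every vector of `W` is a limit of combinations -/
theorem exists_approx (𝒰 : Ultrafilter ι) {n : ℕ} (L : ι → Fin n → X) (W : Submodule ℂ X)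
    [FiniteDimensional ℂ W] (hW : Module.finrank ℂ W ≤ n)
    (hL : ∀ a : ι → Fin n → ℂ, (∀ i, ‖∑ j, a i j • L i j‖ ≤ 1) →
      ∃ v ∈ W, Tendsto (fun i => ∑ j, a i j • L i j) 𝒰 (𝓝 v))
    (hind : ∀ i (a : Fin n → ℂ), ∑ j, a j • L i j = 0 → a = 0) {l : X} (hl : l ∈ W) :
    ∃ a : ι → Fin n → ℂ, Tendsto (fun i => ∑ j, a i j • L i j) 𝒰 (𝓝 l) := by
  classical
  obtain ⟨π, hπ⟩ := Submodule.ClosedComplemented.of_finiteDimensional W
  have hev := eventually_le_proj 𝒰 L W hL π hπ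
  have hex : ∀ i, ∃ a : Fin n → ℂ,
      (∀ a : Fin n → ℂ, ‖∑ j, a j • L i j‖ ≤ 2 * ‖π (∑ j, a j • L i j)‖) →
        π (∑ j, a j • L i j) = ⟨l, hl⟩ := by
    intro i
    by_cases hi : ∀ a : Fin n → ℂ, ‖∑ j, a j • L i j‖ ≤ 2 * ‖π (∑ j, a j • L i j)‖
    · let Φ : (Fin n → ℂ) →ₗ[ℂ] W := π.toLinearMap ∘ₗ Fintype.linearCombination ℂ (L i)
      have hΦ : ∀ a, Φ a = π (∑ j, a j • L i j) := fun a => by
        simp [Φ, Fintype.linearCombination_apply]
      have hinj : Function.Injective Φ := by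
        rw [injective_iff_map_eq_zero]
        intro a ha
        apply hind i a
        have h := hi a
        rw [← hΦ, ha, norm_zero, mul_zero] at h
        exact norm_le_zero_iff.mp h
      have hfin : Module.finrank ℂ (Fin n → ℂ) = Module.finrank ℂ W := by
        have h1 := LinearMap.finrank_le_finrank_of_injective hinj
        have h2 : Module.finrank ℂ (Fin n → ℂ) = n := by simp
        omega
      obtain ⟨a, ha⟩ :=
        (LinearMap.injective_iff_surjective_of_finrank_eq_finrank hfin).mp hinj ⟨l, hl⟩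
      exact ⟨a, fun _ => (hΦ a).symm.trans ha⟩
    · exact ⟨0, fun h => (hi h).elim⟩
  choose a ha using hex
  have h1 : ∀ᶠ i in 𝒰, π (∑ j, a i j • L i j) = ⟨l, hl⟩ := hev.mono fun i hi => ha i hi
  have h2 : ∀ᶠ i in 𝒰, ‖∑ j, a i j • L i j‖ ≤ 2 * ‖l‖ + 1 := by
    filter_upwards [hev, h1] with i hi hi'
    have h := hi (a i)
    rw [hi'] at h
    have e4 : ‖(⟨l, hl⟩ : W)‖ = ‖l‖ := rfl
    rw [e4] at h
    linarith
  obtain ⟨v, hv, hlim⟩ := lim_of_bound 𝒰 L W hL a (by positivity) h2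
  have e1 : π v = ⟨l, hl⟩ :=
    tendsto_nhds_unique ((π.continuous.tendsto v).comp hlim)
      (tendsto_const_nhds.congr' (h1.mono fun i hi => hi.symm))
  have e3 : π v = ⟨v, hv⟩ := hπ ⟨v, hv⟩
  have e5 : v = l := congrArg Subtype.val (e3.symm.trans e1)
  exact ⟨a, e5 ▸ hlim⟩

end LimTr

theorem tendsto_trace {X ι : Type*} [NormedAddCommGroup X] [NormedSpace ℂ X] (𝒰 : Ultrafilter ι)
    {n : ℕ} (L M : ι → Fin n → X) (W : Submodule ℂ X) [FiniteDimensional ℂ W]
    (hW : Module.finrank ℂ W ≤ n) (β : X →L[ℂ] X →L[ℂ] ℂ) (f g : X →L[ℂ] ℂ)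
    (hL : ∀ a : ι → Fin n → ℂ, (∀ i, ‖∑ j, a i j • L i j‖ ≤ 1) →
      ∃ v ∈ W, Tendsto (fun i => ∑ j, a i j • L i j) 𝒰 (𝓝 v))
    (hM : ∀ a : ι → Fin n → ℂ, (∀ i, ‖∑ j, a i j • M i j‖ ≤ 1) →
      ∃ v ∈ W, Tendsto (fun i => ∑ j, a i j • M i j) 𝒰 (𝓝 v))
    (hdet : ∀ i, (Matrix.of fun j k => β (L i j) (M i k)).det ≠ 0)
    (hnd : ∀ m ∈ W, (∀ l ∈ W, β l m = 0) → m = 0) {m₀ : X} (hm₀ : m₀ ∈ W)
    (hrep : ∀ l ∈ W, β l m₀ = f l) :
    Tendsto (fun i => ((Matrix.of fun j k => β (L i j) (M i k))⁻¹ *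
      Matrix.of fun j k => f (L i j) * g (M i k)).trace) 𝒰 (𝓝 (g m₀)) := by
  classical
  set B : ι → Matrix (Fin n) (Fin n) ℂ := fun i => Matrix.of fun j k => β (L i j) (M i k) with hB
  have hBapp : ∀ i j k, B i j k = β (L i j) (M i k) := fun i j k => rfl
  have hind : ∀ i (a : Fin n → ℂ), ∑ j, a j • L i j = 0 → a = 0 := by
    intro i a ha
    refine Matrix.eq_zero_of_vecMul_eq_zero (hdet i) ?_
    funext k
    have h := congrArg (fun x => β x (M i k)) ha
    simp only [map_sum, map_smul, ContinuousLinearMap.sum_apply, ContinuousLinearMap.smul_apply,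
      smul_eq_mul, map_zero, ContinuousLinearMap.zero_apply] at h
    simpa [Matrix.vecMul, dotProduct] using h
  let c : ι → Fin n → ℂ := fun i => (B i)⁻¹.mulVec fun j => f (L i j)
  let m : ι → X := fun i => ∑ k, c i k • M i k
  have hc : ∀ i, (B i).mulVec (c i) = fun j => f (L i j) := by
    intro i
    simp only [c]
    rw [Matrix.mulVec_mulVec, Matrix.mul_nonsing_inv _ (isUnit_iff_ne_zero.mpr (hdet i)),
      Matrix.one_mulVec]
  have hm : ∀ i j, β (L i j) (m i) = f (L i j) := by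
    intro i j
    have h := congrFun (hc i) j
    simp only [Matrix.mulVec, dotProduct, hBapp] at h
    simp only [m, map_sum, map_smul, smul_eq_mul]
    rw [← h]
    exact Finset.sum_congr rfl fun k _ => mul_comm _ _
  have hm' : ∀ i (a : Fin n → ℂ), β (∑ j, a j • L i j) (m i) = f (∑ j, a j • L i j) := by
    intro i a
    simp only [map_sum, map_smul, ContinuousLinearMap.sum_apply, ContinuousLinearMap.smul_apply,
      smul_eq_mul, hm]
  have htr : ∀ i, ((B i)⁻¹ * Matrix.of fun j k => f (L i j) * g (M i k)).trace = g (m i) := by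
    intro i
    simp only [m, c, map_sum, map_smul, smul_eq_mul, Matrix.trace, Matrix.diag_apply,
      Matrix.mul_apply, Matrix.of_apply, Matrix.mulVec, dotProduct]
    refine Finset.sum_congr rfl fun k _ => ?_
    rw [Finset.sum_mul]
    exact Finset.sum_congr rfl fun j _ => (mul_assoc _ _ _).symm
  -- normalised vectors
  let t : ι → ℝ := fun i => (1 + ‖m i‖)⁻¹
  have hpos : ∀ i, 0 < 1 + ‖m i‖ := fun i => by positivity
  have hu : ∀ i, ∑ k, ((t i : ℂ) * c i k) • M i k = (t i : ℂ) • m i := fun i =>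
    LimTr.sum_scale _ _ _
  have hnorm : ∀ i, ‖(t i : ℂ) • m i‖ = 1 - t i := by
    intro i
    have h := hpos i
    rw [norm_smul, Complex.norm_real, Real.norm_of_nonneg (inv_pos.mpr h).le]
    simp only [t]
    field_simp
    ring
  obtain ⟨v, hv, hlim⟩ := hM (fun i k => (t i : ℂ) * c i k) (fun i => by
    rw [hu, hnorm]
    have h : 0 < t i := inv_pos.mpr (hpos i)
    linarith)
  have hlim' : Tendsto (fun i => (t i : ℂ) • m i) 𝒰 (𝓝 v) := hlim.congr hu
  have ht : Tendsto t 𝒰 (𝓝 (1 - ‖v‖)) := by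
    refine (tendsto_const_nhds.sub hlim'.norm).congr fun i => ?_
    rw [hnorm]
    ring
  have ht' : Tendsto (fun i => (t i : ℂ)) 𝒰 (𝓝 ((1 - ‖v‖ : ℝ) : ℂ)) :=
    (Complex.continuous_ofReal.tendsto _).comp ht
  have hv' : v = ((1 - ‖v‖ : ℝ) : ℂ) • m₀ := by
    rw [← sub_eq_zero]
    refine hnd _ (W.sub_mem hv (W.smul_mem _ hm₀)) fun l hl => ?_
    obtain ⟨a, ha⟩ := LimTr.exists_approx 𝒰 L W hW hL hind hl
    have h1 : Tendsto (fun i => β (∑ j, a i j • L i j) ((t i : ℂ) • m i)) 𝒰 (𝓝 (β l v)) :=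
      (β.continuous₂.tendsto (l, v)).comp (ha.prodMk_nhds hlim')
    have h2 : Tendsto (fun i => (t i : ℂ) * f (∑ j, a i j • L i j)) 𝒰
        (𝓝 (((1 - ‖v‖ : ℝ) : ℂ) * f l)) := ht'.mul ((f.continuous.tendsto l).comp ha)
    have h3 : β l v = ((1 - ‖v‖ : ℝ) : ℂ) * f l := by
      refine tendsto_nhds_unique h1 (h2.congr fun i => ?_)
      rw [map_smul, smul_eq_mul, hm']
    rw [map_sub, map_smul, smul_eq_mul, hrep l hl, h3, sub_self]
  have hne : ((1 - ‖v‖ : ℝ) : ℂ) ≠ 0 := by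
    intro h0
    have h1 : v = 0 := by rw [hv', h0, zero_smul]
    rw [h1] at h0
    simp at h0
  have hmlim : Tendsto m 𝒰 (𝓝 m₀) := by
    have h := (ht'.inv₀ hne).smul hlim'
    have e : (((1 - ‖v‖ : ℝ) : ℂ))⁻¹ • v = m₀ := (inv_smul_eq_iff₀ hne).mpr hv'
    rw [e] at h
    refine h.congr fun i => ?_
    have h0 : (t i : ℂ) ≠ 0 := by exact_mod_cast (inv_pos.mpr (hpos i)).ne'
    rw [smul_smul, inv_mul_cancel₀ h0, one_smul]
  exact ((g.continuous.tendsto m₀).comp hmlim).congr fun i => (htr i).symm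

namespace LimTr

open Function

variable {X : Type*}

theorem fibre_eq (T : Equiv.Perm X) (hper : ∀ x, x ∈ periodicPts T) [DecidableEq X]
    (O : Quotient (Equiv.Perm.SameCycle.setoid T)) :
    (Quotient.mk (Equiv.Perm.SameCycle.setoid T)) ⁻¹' {O} =
      ↑((Finset.range (minimalPeriod T O.out)).image fun k => T^[k] O.out) := by
  ext x
  simp only [Set.mem_preimage, Set.mem_singleton_iff, Finset.coe_image, Finset.coe_range,
    Set.mem_image, Set.mem_Iio]
  constructor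
  · intro hx
    have h1 : T.SameCycle O.out x := by
      have h2 : Quotient.mk (Equiv.Perm.SameCycle.setoid T) O.out =
          Quotient.mk (Equiv.Perm.SameCycle.setoid T) x := by rw [hx, Quotient.out_eq]
      exact Quotient.exact h2
    obtain ⟨i, hi⟩ := h1
    have hp : 0 < minimalPeriod T O.out := minimalPeriod_pos_of_mem_periodicPts (hper _)
    have hp' : (0 : ℤ) < (minimalPeriod T O.out : ℤ) := by exact_mod_cast hp
    have h3 : (T ^ (i % (minimalPeriod T O.out : ℤ))) O.out = (T ^ i) O.out :=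
      MulAction.zpow_smul_mod_minimalPeriod T O.out i
    have h4 : 0 ≤ i % (minimalPeriod T O.out : ℤ) := Int.emod_nonneg _ hp'.ne'
    have h5 : i % (minimalPeriod T O.out : ℤ) < minimalPeriod T O.out := Int.emod_lt_of_pos _ hp'
    refine ⟨(i % (minimalPeriod T O.out : ℤ)).toNat, by omega, ?_⟩
    rw [Equiv.Perm.iterate_eq_pow, ← zpow_natCast, Int.toNat_of_nonneg h4, h3, hi]
  · rintro ⟨k, -, rfl⟩
    rw [← Quotient.out_eq O, Quotient.out_eq O]
    conv_rhs => rw [← Quotient.out_eq O]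
    refine Quotient.sound ?_
    refine Equiv.Perm.SameCycle.symm ⟨k, ?_⟩
    rw [Equiv.Perm.iterate_eq_pow, zpow_natCast]

theorem tsum_fibre {K : Type*} [RCLike K] (T : Equiv.Perm X) (hper : ∀ x, x ∈ periodicPts T)
    (h : X → K) (hh : ∀ x, h (T x) = h x) (O : Quotient (Equiv.Perm.SameCycle.setoid T)) :
    ∑' x : (Quotient.mk (Equiv.Perm.SameCycle.setoid T)) ⁻¹' {O},
      h x / (minimalPeriod T (x : X) : K) = h O.out := by
  classical
  have hit : ∀ k x, h (T^[k] x) = h x := by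
    intro k
    induction k with
    | zero => intro x; rfl
    | succ k ih => intro x; rw [iterate_succ_apply', hh, ih]
  have hp : 0 < minimalPeriod T O.out := minimalPeriod_pos_of_mem_periodicPts (hper _)
  have hp' : (minimalPeriod T O.out : K) ≠ 0 := by exact_mod_cast hp.ne'
  rw [fibre_eq T hper O,
    Finset.tsum_subtype' _ (fun x => h x / (minimalPeriod T x : K)), Finset.sum_image]
  · simp only [hit, minimalPeriod_apply_iterate (hper _), Finset.sum_const, Finset.card_range,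
      nsmul_eq_mul]
    field_simp
  · rw [Finset.coe_range]
    exact iterate_injOn_Iio_minimalPeriod

theorem hasSum_cycles {K : Type*} [RCLike K] (T : Equiv.Perm X) (hper : ∀ x, x ∈ periodicPts T)
    (h : X → K) (hh : ∀ x, h (T x) = h x) {S : K}
    (hS : HasSum (fun x => h x / (minimalPeriod T x : K)) S) :
    HasSum (fun O : Quotient (Equiv.Perm.SameCycle.setoid T) => h O.out) S := by
  have h1 := hS.tsum_fiberwise (Quotient.mk (Equiv.Perm.SameCycle.setoid T))
  simpa only [tsum_fibre T hper h hh] using h1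

theorem hasSum_log {p : ℕ} (hp : 0 < p) {z : ℂ} (hz : ‖z‖ < 1) :
    HasSum (fun n : ℕ => if p ∣ n + 1 then z ^ ((n + 1) / p) / ((n : ℂ) + 1) else 0)
      (-Complex.log (1 - z) / p) := by
  have hp' : (p : ℂ) ≠ 0 := by exact_mod_cast hp.ne'
  have h1 := (Complex.hasSum_taylorSeries_neg_log hz).div_const (p : ℂ)
  let G : ℕ → ℂ := fun m => if p ∣ m then z ^ (m / p) / (m : ℂ) else 0
  have hinj : Injective fun k : ℕ => k * p := fun a b hab => Nat.eq_of_mul_eq_mul_right hp hab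
  have h2 : HasSum G (-Complex.log (1 - z) / p) := by
    rw [← hinj.hasSum_iff]
    · have e : (G ∘ fun k : ℕ => k * p) = fun k : ℕ => z ^ k / (k : ℂ) / (p : ℂ) := by
        funext k
        simp only [G, comp_apply, if_pos (dvd_mul_left p k), Nat.mul_div_cancel _ hp,
          Nat.cast_mul, div_div]
      rw [e]
      exact h1
    · intro m hm
      have : ¬ p ∣ m := fun ⟨k, hk⟩ => hm ⟨k, by rw [hk, mul_comm]⟩
      simp only [G, if_neg this]
  have h3 := (hasSum_nat_add_iff' 1).mpr h2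
  simpa [G] using h3

end LimTr

theorem hasProd_cycles {X : Type*} (T : Equiv.Perm X) (hper : ∀ x, x ∈ Function.periodicPts T)
    (A : X → ℂ) (hA : ∀ x, A (T x) = A x) (hlt : ∀ x, ‖A x‖ < 1) (F : ℕ → Finset X)
    (hF : ∀ n x, x ∈ F n ↔ Function.IsPeriodicPt T (n + 1) x)
    (hs : Summable fun n : ℕ =>
      (∑ x ∈ F n, ‖A x‖ ^ ((n + 1) / Function.minimalPeriod T x)) / (n + 1)) :
    (Summable fun O : Quotient (Equiv.Perm.SameCycle.setoid T) => ‖A O.out‖) ∧
      HasProd (fun O : Quotient (Equiv.Perm.SameCycle.setoid T) => 1 - A O.out)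
        (Complex.exp (-∑' n : ℕ,
          (∑ x ∈ F n, A x ^ ((n + 1) / Function.minimalPeriod T x)) / (n + 1))) := by
  classical
  have hp : ∀ x, 0 < Function.minimalPeriod T x := fun x =>
    Function.minimalPeriod_pos_of_mem_periodicPts (hper x)
  have hF' : ∀ n x, x ∈ F n ↔ Function.minimalPeriod T x ∣ n + 1 := fun n x =>
    (hF n x).trans Function.isPeriodicPt_iff_minimalPeriod_dvd
  let φ : ℕ × X → ℂ := fun q =>
    if q.2 ∈ F q.1 then A q.2 ^ ((q.1 + 1) / Function.minimalPeriod T q.2) / (q.1 + 1) else 0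
  let ψ : ℕ × X → ℝ := fun q =>
    if q.2 ∈ F q.1 then ‖A q.2‖ ^ ((q.1 + 1) / Function.minimalPeriod T q.2) / (q.1 + 1) else 0
  have hφψ : ∀ q, ‖φ q‖ = ψ q := by
    intro q
    simp only [φ, ψ]
    split_ifs
    · rw [norm_div, norm_pow]
      congr 1
      exact_mod_cast Complex.norm_natCast (q.1 + 1)
    · exact norm_zero
  have hψ0 : ∀ q, 0 ≤ ψ q := fun q => (hφψ q) ▸ norm_nonneg _
  have hφn : ∀ n, HasSum (fun x => φ (n, x))
      ((∑ x ∈ F n, A x ^ ((n + 1) / Function.minimalPeriod T x)) / (n + 1)) := by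
    intro n
    have h := hasSum_sum_of_ne_finset_zero (f := fun x => φ (n, x)) (s := F n)
      (L := SummationFilter.unconditional X) (fun x hx => if_neg hx)
    rw [Finset.sum_div]
    rwa [Finset.sum_congr rfl fun x hx => if_pos hx] at h
  have hψn : ∀ n, HasSum (fun x => ψ (n, x))
      ((∑ x ∈ F n, ‖A x‖ ^ ((n + 1) / Function.minimalPeriod T x)) / (n + 1)) := by
    intro n
    have h := hasSum_sum_of_ne_finset_zero (f := fun x => ψ (n, x)) (s := F n)
      (L := SummationFilter.unconditional X) (fun x hx => if_neg hx)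
    rw [Finset.sum_div]
    rwa [Finset.sum_congr rfl fun x hx => if_pos hx] at h
  have hψ : Summable ψ := by
    rw [summable_prod_of_nonneg hψ0]
    refine ⟨fun n => (hψn n).summable, ?_⟩
    simpa only [(hψn _).tsum_eq] using hs
  have hφ : Summable φ := Summable.of_norm (by simpa only [hφψ] using hψ)
  have hS : ∑' q, φ q = ∑' n : ℕ,
      (∑ x ∈ F n, A x ^ ((n + 1) / Function.minimalPeriod T x)) / (n + 1) :=
    ((hφ.hasSum.prod_fiberwise hφn).tsum_eq).symm
  constructor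
  · have hinj : Function.Injective fun x : X => (Function.minimalPeriod T x - 1, x) :=
      fun a b hab => congrArg Prod.snd hab
    have h1 := hψ.comp_injective hinj
    have h2 : Summable fun x => ‖A x‖ / (Function.minimalPeriod T x : ℝ) := by
      refine h1.congr fun x => ?_
      have e : Function.minimalPeriod T x - 1 + 1 = Function.minimalPeriod T x :=
        Nat.sub_add_cancel (hp x)
      have e' : ((Function.minimalPeriod T x - 1 : ℕ) : ℝ) + 1 = Function.minimalPeriod T x := by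
        exact_mod_cast e
      have hmem : x ∈ F (Function.minimalPeriod T x - 1) := by rw [hF', e]
      simp only [Function.comp_apply, ψ, if_pos hmem]
      rw [e, e', Nat.div_self (hp x), pow_one]
    exact (LimTr.hasSum_cycles T hper (fun x => ‖A x‖) (fun x => by rw [hA]) h2.hasSum).summable
  · have h1 : HasSum (fun q : X × ℕ => φ q.swap) (∑' q, φ q) :=
      (Equiv.prodComm X ℕ).hasSum_iff.mpr hφ.hasSum
    have h2 : HasSum (fun x => -Complex.log (1 - A x) / (Function.minimalPeriod T x : ℂ))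
        (∑' q, φ q) := by
      refine h1.prod_fiberwise fun x => ?_
      have h := LimTr.hasSum_log (hp x) (hlt x)
      simpa only [φ, Prod.swap, hF'] using h
    have h3 := (LimTr.hasSum_cycles T hper (fun x => -Complex.log (1 - A x))
      (fun x => by rw [hA]) h2).neg.cexp
    rw [hS] at h3
    refine h3.congr_fun fun O => ?_
    have hne : 1 - A O.out ≠ 0 := by
      intro h0
      have h4 := hlt O.out
      rw [← sub_eq_zero.mp h0, norm_one] at h4
      exact lt_irrefl _ h4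
    simp only [Function.comp_apply, neg_neg, Complex.exp_log hne]

end Pool.Agent.Lib.MP_de7bb2_an
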