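import Pool.Agent.Lib.MP_de7bb2_an.H20LimA
import Pool.Agent.Lib.MP_de7bb2_an.H20LimTr
import Pool.Agent.Lib.MP_de7bb2_an.H20Forms

/-! The limit of the twisted reproducing kernel at the trivial character. TASK LIM. -/

namespace Pool.Agent.Lib.MP_de7bb2_an

open Metric Set Complex Filter Topology

namespace Lim

open ComplexConjugate

section Core

variable {D : Type*} [TopologicalSpace D] [CompactSpace D]

/-- Pairs with first component and conjugate second component in `H`. -/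
def VV (H : Submodule ℂ C(D, ℂ)) : Submodule ℂ (C(D, ℂ) × C(D, ℂ)) where
  carrier := {x | x.1 ∈ H ∧ star x.2 ∈ H}
  add_mem' := fun {a b} ha hb => ⟨H.add_mem ha.1 hb.1, by
    rw [Prod.snd_add, star_add]
    exact H.add_mem ha.2 hb.2⟩
  zero_mem' := ⟨H.zero_mem, by
    rw [Prod.snd_zero, star_zero]
    exact H.zero_mem⟩
  smul_mem' := fun c x hx => ⟨H.smul_mem c hx.1, by
    rw [Prod.smul_snd, star_smul]
    exact H.smul_mem _ hx.2⟩

/-- The limit space. -/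
noncomputable def WW (J : C(D, ℂ) →L[ℂ] ℂ) (H : Submodule ℂ C(D, ℂ)) (o o' : C(D, ℂ)) :
    Submodule ℂ (C(D, ℂ) × C(D, ℂ)) :=
  VV H ⊓ LinearMap.ker (J.toLinearMap ∘ₗ LinearMap.mulLeft ℂ o' ∘ₗ LinearMap.fst ℂ _ _) ⊓
    LinearMap.ker (J.toLinearMap ∘ₗ LinearMap.mulLeft ℂ o ∘ₗ LinearMap.snd ℂ _ _)

theorem mem_WW {J : C(D, ℂ) →L[ℂ] ℂ} {H : Submodule ℂ C(D, ℂ)} {o o' : C(D, ℂ)}
    {x : C(D, ℂ) × C(D, ℂ)} : x ∈ WW J H o o' ↔
      ((x.1 ∈ H ∧ star x.2 ∈ H) ∧ J (o' * x.1) = 0) ∧ J (o * x.2) = 0 := Iff.rfl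

theorem fin_VV {H : Submodule ℂ C(D, ℂ)} {n : ℕ}
    (hrel : ∀ x : Fin (n + 1) → C(D, ℂ) × C(D, ℂ), (∀ i, x i ∈ VV H) → ¬ LinearIndependent ℂ x) :
    FiniteDimensional ℂ (VV H) ∧ Module.finrank ℂ (VV H) ≤ n := by
  have h : Module.rank ℂ (VV H) ≤ n := by
    by_contra h
    have h1 : ((n + 1 : ℕ) : Cardinal) ≤ Module.rank ℂ (VV H) := by
      rw [Nat.cast_succ]
      exact Cardinal.natCast_add_one_le_iff.2 (not_le.1 h)
    obtain ⟨f, hf⟩ := exists_linearIndependent_of_le_rank h1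
    exact hrel (fun i => f i) (fun i => (f i).2) (hf.map' (VV H).subtype (Submodule.ker_subtype _))
  exact ⟨Module.rank_lt_aleph0_iff.1 (h.trans_lt (Cardinal.natCast_lt_aleph0)),
    Module.finrank_le_of_rank_le h⟩

theorem fin_WW {J : C(D, ℂ) →L[ℂ] ℂ} {H : Submodule ℂ C(D, ℂ)} {o o' : C(D, ℂ)} {n : ℕ}
    (hrel : ∀ x : Fin (n + 2 + 1) → C(D, ℂ) × C(D, ℂ), (∀ i, x i ∈ VV H) →
      ¬ LinearIndependent ℂ x) (ho : o ∈ H) (ho' : star o' ∈ H) (hP : J (o * o') ≠ 0) :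
    FiniteDimensional ℂ (WW J H o o') ∧ Module.finrank ℂ (WW J H o o') ≤ n := by
  obtain ⟨hf, hr⟩ := fin_VV hrel
  set V₁ := VV H ⊓ LinearMap.ker (J.toLinearMap ∘ₗ LinearMap.mulLeft ℂ o' ∘ₗ LinearMap.fst ℂ _ _)
    with hV
  have h1 : V₁ < VV H := by
    refine lt_of_le_of_ne inf_le_left fun e => hP ?_
    have h : ((o, 0) : C(D, ℂ) × C(D, ℂ)) ∈ V₁ := by
      rw [e]
      exact ⟨ho, by simpa only [star_zero] using H.zero_mem⟩
    rw [mul_comm]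
    exact h.2
  have hf1 : FiniteDimensional ℂ V₁ := Submodule.finiteDimensional_of_le h1.le
  have h2 : WW J H o o' < V₁ := by
    refine lt_of_le_of_ne inf_le_left fun e => hP ?_
    have h : ((0, o') : C(D, ℂ) × C(D, ℂ)) ∈ WW J H o o' := by
      rw [e]
      refine ⟨⟨H.zero_mem, ho'⟩, ?_⟩
      change J (o' * 0) = 0
      rw [mul_zero, map_zero]
    exact h.2
  have h3 := Submodule.finrank_lt_finrank_of_lt h1
  have h4 := Submodule.finrank_lt_finrank_of_lt h2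
  exact ⟨Submodule.finiteDimensional_of_le h2.le, by omega⟩

theorem exists_beta (J : C(D, ℂ) →L[ℂ] ℂ) :
    ∃ β : (C(D, ℂ) × C(D, ℂ)) →L[ℂ] (C(D, ℂ) × C(D, ℂ)) →L[ℂ] ℂ,
      ∀ x y, β x y = J (y.1 * x.2 + x.1 * y.2) := by
  refine ⟨(ContinuousLinearMap.compL ℂ _ _ _ J).comp
    ((ContinuousLinearMap.mul ℂ C(D, ℂ)).bilinearComp (ContinuousLinearMap.snd ℂ _ _)
        (ContinuousLinearMap.fst ℂ _ _) +
      (ContinuousLinearMap.mul ℂ C(D, ℂ)).bilinearComp (ContinuousLinearMap.fst ℂ _ _)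
        (ContinuousLinearMap.snd ℂ _ _)), fun x y => ?_⟩
  simp [mul_comm]

theorem core {ι : Type*} (𝒰 : Ultrafilter ι) {n : ℕ} (J : C(D, ℂ) →L[ℂ] ℂ)
    (hJ : ∀ u, J (star u) = conj (J u)) (H : Submodule ℂ C(D, ℂ))
    (hpos : ∀ u ∈ H, J (u * star u) = 0 → u = 0)
    (hrel : ∀ x : Fin (n + 2 + 1) → C(D, ℂ) × C(D, ℂ), (∀ i, x i ∈ VV H) →
      ¬ LinearIndependent ℂ x) {k o o' : C(D, ℂ)} (hk : k ∈ H) (w : D)
    (hkw : ∀ u ∈ H, J (u * star k) = u w) (ho : o ∈ H) (ho' : star o' ∈ H) (hP : J (o * o') ≠ 0)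
    (L M : ι → Fin n → C(D, ℂ) × C(D, ℂ))
    (hL : ∀ a : ι → Fin n → ℂ, (∀ i, ‖∑ j, a i j • L i j‖ ≤ 1) →
      ∃ v ∈ WW J H o o', Tendsto (fun i => ∑ j, a i j • L i j) 𝒰 (𝓝 v))
    (hM : ∀ a : ι → Fin n → ℂ, (∀ i, ‖∑ j, a i j • M i j‖ ≤ 1) →
      ∃ v ∈ WW J H o o', Tendsto (fun i => ∑ j, a i j • M i j) 𝒰 (𝓝 v))
    (hdet : ∀ i, (Matrix.of fun j k =>
      J ((M i k).1 * (L i j).2 + (L i j).1 * (M i k).2)).det ≠ 0) :
    Tendsto (fun i => ((Matrix.of fun j k =>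
        J ((M i k).1 * (L i j).2 + (L i j).1 * (M i k).2))⁻¹ *
      Matrix.of fun j k => (M i k).1 w * (L i j).2 w + (L i j).1 w * (M i k).2 w).trace) 𝒰
      (𝓝 (k w + conj (k w) - 2 * (o w * o' w) / J (o * o'))) := by
  obtain ⟨hf, hr⟩ := fin_WW hrel ho ho' hP
  obtain ⟨β, hβ⟩ := exists_beta J
  have hkw' : ∀ u, star u ∈ H → J (k * u) = u w := fun u hu => by
    have h := congrArg conj (hkw _ hu)
    rw [← hJ, star_mul, star_star, star_star] at h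
    simpa using h
  -- test vectors
  have t1 : ∀ u ∈ H, ((u - (J (o' * u) / J (o * o')) • o, 0) : C(D, ℂ) × C(D, ℂ)) ∈
      WW J H o o' := fun u hu => by
    refine mem_WW.2 ⟨⟨⟨H.sub_mem hu (H.smul_mem _ ho), ?_⟩, ?_⟩, ?_⟩
    · simpa only [star_zero] using H.zero_mem
    · rw [mul_sub, mul_smul_comm, map_sub, map_smul, smul_eq_mul, mul_comm o' o,
        div_mul_cancel₀ _ hP, sub_self]
    · rw [mul_zero, map_zero]
  have t2 : ∀ u, star u ∈ H → ((0, u - (J (o * u) / J (o * o')) • o') : C(D, ℂ) × C(D, ℂ)) ∈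
      WW J H o o' := fun u hu => by
    refine mem_WW.2 ⟨⟨⟨H.zero_mem, ?_⟩, ?_⟩, ?_⟩
    · rw [star_sub, star_smul]
      exact H.sub_mem hu (H.smul_mem _ ho')
    · rw [mul_zero, map_zero]
    · rw [mul_sub, mul_smul_comm, map_sub, map_smul, smul_eq_mul, div_mul_cancel₀ _ hP, sub_self]
  have b1 : ∀ u c, ∀ x ∈ WW J H o o', J ((u - (c : ℂ) • o) * x.2) = J (u * x.2) :=
    fun u c x hx => by
      rw [sub_mul, smul_mul_assoc, map_sub, map_smul, (mem_WW.1 hx).2, smul_zero, sub_zero]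
  have b2 : ∀ u c, ∀ x ∈ WW J H o o', J (x.1 * (u - (c : ℂ) • o')) = J (x.1 * u) :=
    fun u c x hx => by
      rw [mul_sub, mul_smul_comm, map_sub, map_smul, mul_comm x.1 o', (mem_WW.1 hx).1.2,
        smul_zero, sub_zero]
  have hnd : ∀ m ∈ WW J H o o', (∀ l ∈ WW J H o o', β l m = 0) → m = 0 := fun m hm h => by
    obtain ⟨⟨⟨h1, h2⟩, -⟩, -⟩ := mem_WW.1 hm
    have e1 := h _ (t2 (star m.1) (by rwa [star_star]))
    have e2 := h _ (t1 _ h2)
    rw [hβ, zero_mul, add_zero, b2 _ _ m hm] at e1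
    rw [hβ, mul_zero, zero_add, b1 _ _ m hm] at e2
    refine Prod.ext (hpos _ h1 e1) (star_eq_zero.1 (hpos _ h2 ?_))
    rwa [star_star]
  have hdet' : ∀ i, (Matrix.of fun j k => β (L i j) (M i k)).det ≠ 0 := by
    simpa only [hβ] using hdet
  let ev : C(D, ℂ) →L[ℂ] ℂ := ContinuousMap.evalCLM ℂ w
  let f₁ : (C(D, ℂ) × C(D, ℂ)) →L[ℂ] ℂ := ev.comp (ContinuousLinearMap.fst ℂ _ _)
  let f₂ : (C(D, ℂ) × C(D, ℂ)) →L[ℂ] ℂ := ev.comp (ContinuousLinearMap.snd ℂ _ _)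
  have hf₁ : ∀ x, f₁ x = x.1 w := fun x => rfl
  have hf₂ : ∀ x, f₂ x = x.2 w := fun x => rfl
  have r1 := tendsto_trace 𝒰 L M _ hr β f₂ f₁ hL hM hdet' hnd (t1 k hk) fun l hl => by
    rw [hβ, mul_zero, add_zero, b1 _ _ l hl, hf₂, hkw' _ (mem_WW.1 hl).1.1.2]
  have r2 := tendsto_trace 𝒰 L M _ hr β f₁ f₂ hL hM hdet' hnd
    (t2 (star k) (by rwa [star_star])) fun l hl => by
      rw [hβ, zero_mul, zero_add, b2 _ _ l hl, hf₁, hkw _ (mem_WW.1 hl).1.1.1]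
  have r3 := r1.add r2
  rw [hf₁, hf₂, mul_comm o' k, hkw' _ ho', hkw _ ho] at r3
  have e : k w + conj (k w) - 2 * (o w * o' w) / J (o * o') =
      (k - (o' w / J (o * o')) • o) w + (star k - (o w / J (o * o')) • o') w := by
    simp only [ContinuousMap.sub_apply, ContinuousMap.smul_apply, ContinuousMap.star_apply,
      smul_eq_mul, star_def]
    ring
  rw [e]
  refine r3.congr fun i => ?_
  rw [← Matrix.trace_add, ← Matrix.mul_add]
  simp only [hβ, hf₁, hf₂]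
  congr 2
  ext j k
  simp only [Matrix.add_apply, Matrix.of_apply]
  ring

end Core

section Res

open MeasureTheory

variable {G : ℕ} {S : Surface G} {r : ℝ}

/-- `u` is the restriction of `F`. -/
def Rs (u : C(closedBall (0 : ℂ) r, ℂ)) (F : ℂ → ℂ) : Prop := ∀ z, u z = F z

theorem exists_rs (hr : r < 1) {F : ℂ → ℂ} (hF : ContinuousOn F (ball 0 1)) :
    ∃ u : C(closedBall (0 : ℂ) r, ℂ), Rs u F :=
  ⟨⟨_, (hF.mono (closedBall_subset_ball hr)).domRestrict⟩, fun _ => rfl⟩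

theorem exists_J (P : Part S) (hr : P.r ≤ r) : ∃ J : C(closedBall (0 : ℂ) r, ℂ) →L[ℂ] ℂ,
    (∀ u, J (star u) = conj (J u)) ∧ ∀ u F, Rs u F → J u = P.pI F := by
  let μ : Measure (closedBall (0 : ℂ) r) := Measure.comap Subtype.val volume
  have hμ : IsFiniteMeasure μ := ⟨by
    rw [comap_subtype_coe_apply measurableSet_closedBall, image_univ, Subtype.range_coe]
    exact measure_closedBall_lt_top⟩
  have hc : Continuous fun z : closedBall (0 : ℂ) r => (P.χ z : ℂ) :=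
    (Stokes.cont_chi P).comp continuous_subtype_val
  have hi : ∀ u : C(closedBall (0 : ℂ) r, ℂ), Integrable (fun z => (P.χ z.1 : ℂ) * u z) μ :=
    fun u => integrableOn_univ.1
      ((hc.mul u.continuous).continuousOn.integrableOn_compact isCompact_univ)
  have hi0 : Integrable (fun z : closedBall (0 : ℂ) r => ‖(P.χ z : ℂ)‖) μ :=
    integrableOn_univ.1 (hc.norm.continuousOn.integrableOn_compact isCompact_univ)
  let J₀ : C(closedBall (0 : ℂ) r, ℂ) →ₗ[ℂ] ℂ :=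
    { toFun := fun u => ∫ z, (P.χ z.1 : ℂ) * u z ∂μ
      map_add' := fun u v => by
        rw [← integral_add (hi u) (hi v)]
        simp only [ContinuousMap.add_apply, mul_add]
      map_smul' := fun c u => by
        rw [RingHom.id_apply, smul_eq_mul, ← integral_const_mul]
        simp only [ContinuousMap.smul_apply, smul_eq_mul, mul_left_comm] }
  have hb : ∀ u, ‖J₀ u‖ ≤ (∫ z, ‖(P.χ z.1 : ℂ)‖ ∂μ) * ‖u‖ := fun u => by
    rw [← integral_mul_const]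
    refine norm_integral_le_of_norm_le (hi0.mul_const _) (.of_forall fun z => ?_)
    rw [norm_mul]
    exact mul_le_mul_of_nonneg_left (u.norm_coe_le_norm z) (norm_nonneg _)
  refine ⟨J₀.mkContinuous _ hb, fun u => ?_, fun u F h => ?_⟩
  · change ∫ z, (P.χ z.1 : ℂ) * star (u z) ∂μ = conj (∫ z, (P.χ z.1 : ℂ) * u z ∂μ)
    rw [← integral_conj]
    simp only [map_mul, conj_ofReal, star_def]
  · change ∫ z, (P.χ z.1 : ℂ) * u z ∂μ = _
    simp only [h _]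
    rw [integral_subtype_comap measurableSet_closedBall fun z => (P.χ z : ℂ) * F z, Part.pI]
    refine setIntegral_eq_integral_of_forall_compl_eq_zero fun z hz => ?_
    rw [Stokes.chi_zero P (hr.trans (not_le.1 fun h' => hz (mem_closedBall_zero_iff.2 h')).le),
      ofReal_zero, zero_mul]

theorem autF_sum {θ : S.Γ → ℂ} {n : ℕ} {F : Fin n → ℂ → ℂ} (h : ∀ j, AutF S θ (F j))
    (a : Fin n → ℂ) : AutF S θ fun z => ∑ j, a j * F j z := by
  refine ⟨DifferentiableOn.fun_sum fun j _ => (h j).1.const_mul _, fun γ z hz => ?_⟩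
  rw [Finset.sum_mul, Finset.mul_sum]
  exact Finset.sum_congr rfl fun j _ => by rw [mul_assoc, (h j).2 γ z hz, mul_left_comm]

/-- Restrictions of holomorphic one forms. -/
def HH (S : Surface G) (r : ℝ) : Submodule ℂ C(closedBall (0 : ℂ) r, ℂ) where
  carrier := {u | ∃ F, AutF S 0 F ∧ Rs u F}
  add_mem' := by
    rintro u v ⟨F, hF, hu⟩ ⟨K, hK, hv⟩
    refine ⟨fun z => F z + K z, ⟨hF.1.add hK.1, fun γ z hz => ?_⟩, fun z => ?_⟩
    · rw [add_mul, hF.2 γ z hz, hK.2 γ z hz, mul_add]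
    · rw [ContinuousMap.add_apply, hu, hv]
  zero_mem' := ⟨fun _ => 0, ⟨differentiableOn_const 0, fun γ z _ => by
    rw [zero_mul, mul_zero]⟩, fun _ => rfl⟩
  smul_mem' := by
    rintro c u ⟨F, hF, hu⟩
    refine ⟨fun z => c * F z, ⟨hF.1.const_mul c, fun γ z hz => ?_⟩, fun z => ?_⟩
    · rw [mul_assoc, hF.2 γ z hz, mul_left_comm]
    · rw [ContinuousMap.smul_apply, hu, smul_eq_mul]

theorem lim_autF (P : Part S) (hr : P.r ≤ r) (hr1 : r < 1) {ι : Type*} (𝒰 : Ultrafilter ι)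
    {θ : ι → S.Γ → ℂ} (hθ : ∀ γ, Tendsto (fun i => θ i γ) 𝒰 (𝓝 0)) {F : ι → ℂ → ℂ}
    (hF : ∀ i, AutF S (θ i) (F i)) {u : ι → C(closedBall (0 : ℂ) r, ℂ)} (hu : ∀ i, Rs (u i) (F i))
    (hb : ∀ i, ‖u i‖ ≤ 1) : ∃ v ∈ HH S r, Tendsto u 𝒰 (𝓝 v) := by
  obtain ⟨F₀, hF₀, hl⟩ := montel_autF P 𝒰 hθ hF (M := 1) fun i z hz => by
    rw [← hu i ⟨z, mem_closedBall_zero_iff.2 (hz.trans hr)⟩]
    exact ((u i).norm_coe_le_norm _).trans (hb i)
  obtain ⟨v, hv⟩ := exists_rs hr1 hF₀.1.continuousOn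
  refine ⟨v, ⟨F₀, hF₀, hv⟩, ContinuousMap.tendsto_iff_tendstoUniformly.2 ?_⟩
  have h := tendstoUniformlyOn_iff_tendstoUniformly_comp_coe.1
    ((tendstoLocallyUniformlyOn_iff_forall_isCompact isOpen_ball).1 hl _
      (closedBall_subset_ball hr1) (isCompact_closedBall _ _))
  have e1 : (fun i z => u i z) = fun i (z : closedBall (0 : ℂ) r) => F i z :=
    funext fun i => funext (hu i)
  have e2 : (v : closedBall (0 : ℂ) r → ℂ) = F₀ ∘ (↑) := funext hv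
  rw [e1, e2]
  exact h

theorem lim_tw (P : Part S) (hr : P.r ≤ r) (hr1 : r < 1)
    {J : C(closedBall (0 : ℂ) r, ℂ) →L[ℂ] ℂ} (hJ : ∀ u F, Rs u F → J u = P.pI F)
    {θ θ₁ : S.Γ → ℂ} {Θ ω ω' Θ₁ ω₁ ω₁' : ℂ → ℂ} (h : Harm S θ Θ ω ω') (h₁ : Harm S θ₁ Θ₁ ω₁ ω₁')
    {o o' o₁ o₁' : C(closedBall (0 : ℂ) r, ℂ)} (ho : Rs o ω) (ho' : Rs o' ω') (ho₁ : Rs o₁ ω₁)
    (ho₁' : Rs o₁' ω₁') {ι : Type*} (𝒰 : Ultrafilter ι) {s l : ι → ℂ} {l₀ : ℂ}
    (hs : Tendsto s 𝒰 (𝓝 0)) (hs0 : ∀ i, s i ≠ 0) (hl : Tendsto l 𝒰 (𝓝 l₀)) {n : ℕ}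
    {A : ι → Fin n → (ℂ → ℂ) × (ℂ → ℂ)}
    (hA : ∀ i j, Tw S (fun γ => s i * (θ γ + l i * θ₁ γ)) (A i j))
    {L : ι → Fin n → C(closedBall (0 : ℂ) r, ℂ) × C(closedBall (0 : ℂ) r, ℂ)}
    (hL : ∀ i j, Rs (L i j).1 (A i j).1 ∧ Rs (L i j).2 fun z => conj ((A i j).2 z))
    (a : ι → Fin n → ℂ) (ha : ∀ i, ‖∑ j, a i j • L i j‖ ≤ 1) :
    ∃ v ∈ WW J (HH S r) (o + l₀ • o₁) (o' + l₀ • o₁'),
      Tendsto (fun i => ∑ j, a i j • L i j) 𝒰 (𝓝 v) := by
  set x : ι → C(closedBall (0 : ℂ) r, ℂ) × C(closedBall (0 : ℂ) r, ℂ) :=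
    fun i => ∑ j, a i j • L i j with hx
  have hF := fun i => autF_sum (fun j => (hA i j).1) (a i)
  have hK := fun i => autF_sum (fun j => (hA i j).2) fun j => conj (a i j)
  have x1 : ∀ i, Rs (x i).1 fun z => ∑ j, a i j * (A i j).1 z := fun i z => by
    simp only [hx, Prod.fst_sum, Prod.smul_fst, ContinuousMap.coe_sum, Finset.sum_apply,
      ContinuousMap.smul_apply, smul_eq_mul, (hL i _).1 z]
  have x2 : ∀ i, Rs (x i).2 fun z => conj (∑ j, conj (a i j) * (A i j).2 z) := fun i z => by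
    simp only [hx, Prod.snd_sum, Prod.smul_snd, ContinuousMap.coe_sum, Finset.sum_apply,
      ContinuousMap.smul_apply, smul_eq_mul, (hL i _).2 z, map_sum, map_mul, conj_conj]
  have x3 : ∀ i, Rs (star (x i).2) fun z => ∑ j, conj (a i j) * (A i j).2 z := fun i z => by
    rw [ContinuousMap.star_apply, x2 i z, star_def, conj_conj]
  have hθ : ∀ γ, Tendsto (fun i => s i * (θ γ + l i * θ₁ γ)) 𝒰 (𝓝 0) := fun γ => by
    simpa only [zero_mul] using hs.mul ((hl.mul_const (θ₁ γ)).const_add (θ γ))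
  have hθ' : ∀ γ, Tendsto (fun i => conj (s i * (θ γ + l i * θ₁ γ))) 𝒰 (𝓝 0) := fun γ => by
    simpa only [map_zero, Function.comp_def] using (continuous_conj.tendsto 0).comp (hθ γ)
  obtain ⟨v₁, hv₁, l1⟩ := lim_autF P hr hr1 𝒰 hθ hF x1 fun i => (norm_fst_le _).trans (ha i)
  obtain ⟨v₂, hv₂, l2⟩ := lim_autF P hr hr1 𝒰 hθ' hK x3 fun i => by
    rw [norm_star]
    exact (norm_snd_le _).trans (ha i)
  have l2' : Tendsto (fun i => (x i).2) 𝒰 (𝓝 (star v₂)) := by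
    simpa only [star_star] using l2.star
  obtain ⟨T, hT⟩ := exists_rs hr1 (F := Θ) fun z hz =>
    (h.2.2.1 z hz).continuousAt.continuousWithinAt
  obtain ⟨T₁, hT₁⟩ := exists_rs hr1 (F := Θ₁) fun z hz =>
    (h₁.2.2.1 z hz).continuousAt.continuousWithinAt
  let E : C(ℂ, ℂ) := ⟨exp, continuous_exp⟩
  have lE : Tendsto (fun i => E.comp ((-s i) • (T + l i • T₁))) 𝒰 (𝓝 1) := by
    have h1 : Tendsto (fun i => (-s i) • (T + l i • T₁)) 𝒰 (𝓝 0) := by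
      simpa only [neg_zero, zero_smul] using hs.neg.smul ((hl.smul_const T₁).const_add T)
    have h2 := ((ContinuousMap.continuous_postcomp E).tendsto 0).comp h1
    have e : E.comp (0 : C(closedBall (0 : ℂ) r, ℂ)) = 1 := ContinuousMap.ext fun z => exp_zero
    rw [e] at h2
    exact h2
  have hst := fun i => (h.add h₁ (l i)).stokes_tw P (hs0 i) (hF i) (hK i)
  have key : ∀ {p p₁ v : C(closedBall (0 : ℂ) r, ℂ)} {y : ι → C(closedBall (0 : ℂ) r, ℂ)},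
      Tendsto y 𝒰 (𝓝 v) → (∀ i, J (E.comp ((-s i) • (T + l i • T₁)) * (p + l i • p₁) * y i) = 0) →
      J ((p + l₀ • p₁) * v) = 0 := fun {p p₁ v y} hy h0 => by
    have h1 := (J.continuous.tendsto _).comp ((lE.mul ((hl.smul_const p₁).const_add p)).mul hy)
    rw [one_mul] at h1
    exact tendsto_nhds_unique h1 (tendsto_const_nhds.congr fun i => (h0 i).symm)
  refine ⟨(v₁, star v₂), mem_WW.2 ⟨⟨⟨hv₁, by rwa [star_star]⟩, key l1 fun i => ?_⟩,
    key l2' fun i => ?_⟩, l1.prodMk_nhds l2'⟩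
  · refine (hJ _ _ fun z => ?_).trans (hst i).1
    simp only [ContinuousMap.mul_apply, ContinuousMap.comp_apply, ContinuousMap.add_apply,
      ContinuousMap.smul_apply, smul_eq_mul, hT z, hT₁ z, ho' z, ho₁' z, x1 i z, E,
      ContinuousMap.coe_mk]
  · refine (hJ _ _ fun z => ?_).trans (hst i).2
    simp only [ContinuousMap.mul_apply, ContinuousMap.comp_apply, ContinuousMap.add_apply,
      ContinuousMap.smul_apply, smul_eq_mul, hT z, hT₁ z, ho z, ho₁ z, x2 i z, E,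
      ContinuousMap.coe_mk]

theorem rel_HH (P : Part S) (hG : 1 ≤ G) (hr1 : r < 1)
    (x : Fin (2 * G - 2 + 2 + 1) → C(closedBall (0 : ℂ) r, ℂ) × C(closedBall (0 : ℂ) r, ℂ))
    (hx : ∀ i, x i ∈ VV (HH S r)) : ¬ LinearIndependent ℂ x := by
  intro hli
  have e : 2 * G + 1 = 2 * G - 2 + 2 + 1 := by omega
  have h1 := hli.comp (Fin.cast e) (Fin.cast_injective e)
  choose F hF hF' using fun i => (hx (Fin.cast e i)).1
  choose K hK hK' using fun i => (hx (Fin.cast e i)).2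
  obtain ⟨c, hc, h0⟩ := exists_rel P hG hF hK
  refine hc (funext (Fintype.linearIndependent_iff.1 h1 c (Prod.ext ?_ ?_)))
  · ext z
    simpa only [Prod.fst_sum, Prod.smul_fst, ContinuousMap.coe_sum, Finset.sum_apply,
      ContinuousMap.smul_apply, smul_eq_mul, Function.comp_apply, hF' _ z, Prod.fst_zero,
      ContinuousMap.zero_apply] using (h0 z (closedBall_subset_ball hr1 z.2)).1
  · ext z
    have e2 : ∀ i, (x (Fin.cast e i)).2 z = conj (K i z) := fun i => by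
      rw [← hK' i z, ContinuousMap.star_apply, star_def, conj_conj]
    simpa only [Prod.snd_sum, Prod.smul_snd, ContinuousMap.coe_sum, Finset.sum_apply,
      ContinuousMap.smul_apply, smul_eq_mul, Function.comp_apply, e2, Prod.snd_zero,
      ContinuousMap.zero_apply] using (h0 z (closedBall_subset_ball hr1 z.2)).2

end Res

end Lim

theorem tendsto_R {G : ℕ} {S : Surface G} (P : Part S) (hG : 1 ≤ G) {θ θ₁ : S.Γ → ℂ}
    {Θ ω ω' Θ₁ ω₁ ω₁' : ℂ → ℂ} (h : Harm S θ Θ ω ω') (h₁ : Harm S θ₁ Θ₁ ω₁ ω₁') {w : ℂ}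
    (hw : w ∈ ball (0 : ℂ) 1) : ∃ C₀ : ℂ, ∀ K : Set ℂ, IsCompact K →
      (∀ l ∈ K, P.pI (fun z => (ω z + l * ω₁ z) * (ω' z + l * ω₁' z)) ≠ 0) → ∀ η > 0,
      ∀ᶠ t : ℝ in 𝓝[>] 0, ∀ l ∈ K, ∀ A B : Fin (2 * G - 2) → (ℂ → ℂ) × (ℂ → ℂ),
        (∀ j, Tw S (fun γ => -(t * (θ γ + l * θ₁ γ))) (A j)) →
        (∀ j, Tw S (fun γ => t * (θ γ + l * θ₁ γ)) (B j)) →
        (Matrix.of fun j k => P.pI (valP (A j) (B k))).det ≠ 0 →
        ‖((Matrix.of fun j k => P.pI (valP (A j) (B k)))⁻¹ *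
            Matrix.of fun j k => valP (A j) (B k) w).trace -
          (C₀ - 2 * ((ω w + l * ω₁ w) * (ω' w + l * ω₁' w)) /
            P.pI fun z => (ω z + l * ω₁ z) * (ω' z + l * ω₁' z))‖ ≤ η := by
  obtain ⟨k, hk, hkw⟩ := exists_repr P hG hw
  refine ⟨k w + starRingEnd ℂ (k w), fun K hK hP η hη => ?_⟩
  by_contra hcon
  obtain ⟨t, ht, hbad⟩ := exists_seq_forall_of_frequently
    ((not_eventually.1 hcon).and_eventually self_mem_nhdsWithin)
  have hbad' := fun i => (hbad i).1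
  push Not at hbad'
  choose l hlK A B hA hB hdet hη' using hbad'
  set r := max P.r ‖w‖ with hr
  have hr0 : P.r ≤ r := le_max_left _ _
  have hr1 : r < 1 := max_lt P.r_lt (mem_ball_zero_iff.1 hw)
  let w' : closedBall (0 : ℂ) r := ⟨w, mem_closedBall_zero_iff.2 (le_max_right _ _)⟩
  obtain ⟨J, hJs, hJ⟩ := Lim.exists_J P hr0
  let 𝒰 : Ultrafilter ℕ := Ultrafilter.of atTop
  have hU : (𝒰 : Filter ℕ) ≤ atTop := Ultrafilter.of_le _
  obtain ⟨l₀, hl₀, hl⟩ := hK.ultrafilter_le_nhds (𝒰.map l) (le_principal_iff.2 (by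
    rw [Ultrafilter.coe_map, mem_map]
    exact Eventually.of_forall hlK))
  have hl' : Tendsto l 𝒰 (𝓝 l₀) := hl
  have ht' : Tendsto (fun i => (t i : ℂ)) 𝒰 (𝓝 0) := by
    simpa only [ofReal_zero, Function.comp_def] using
      (continuous_ofReal.tendsto 0).comp ((ht.mono_right nhdsWithin_le_nhds).mono_left hU)
  have ht0 : ∀ i, (t i : ℂ) ≠ 0 := fun i => ofReal_ne_zero.2 (ne_of_gt (hbad i).2)
  have cc : ∀ {F : ℂ → ℂ}, ContinuousOn F (ball 0 1) →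
      ContinuousOn (fun z => starRingEnd ℂ (F z)) (ball 0 1) := fun hF =>
    continuous_conj.comp_continuousOn hF
  have cc' : ∀ {F : ℂ → ℂ}, ContinuousOn (fun z => starRingEnd ℂ (F z)) (ball 0 1) →
      ContinuousOn F (ball 0 1) := fun hF => by simpa only [conj_conj] using cc hF
  obtain ⟨o, ho⟩ := Lim.exists_rs hr1 h.1.continuousOn
  obtain ⟨o', ho'⟩ := Lim.exists_rs hr1 (cc' h.2.1.continuousOn)
  obtain ⟨o₁, ho₁⟩ := Lim.exists_rs hr1 h₁.1.continuousOn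
  obtain ⟨o₁', ho₁'⟩ := Lim.exists_rs hr1 (cc' h₁.2.1.continuousOn)
  obtain ⟨k', hk'⟩ := Lim.exists_rs hr1 hk.1.continuousOn
  choose L₁ hL₁ using fun i j => Lim.exists_rs hr1 (hA i j).1.1.continuousOn
  choose L₂ hL₂ using fun i j => Lim.exists_rs hr1 (cc (hA i j).2.1.continuousOn)
  choose M₁ hM₁ using fun i j => Lim.exists_rs hr1 (hB i j).1.1.continuousOn
  choose M₂ hM₂ using fun i j => Lim.exists_rs hr1 (cc (hB i j).2.1.continuousOn)
  have r1 : ∀ c : ℂ, Lim.Rs (o + c • o₁) fun z => ω z + c * ω₁ z := fun c z => by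
    rw [ContinuousMap.add_apply, ContinuousMap.smul_apply, smul_eq_mul, ho z, ho₁ z]
  have r2 : ∀ c : ℂ, Lim.Rs (o' + c • o₁') fun z => ω' z + c * ω₁' z := fun c z => by
    rw [ContinuousMap.add_apply, ContinuousMap.smul_apply, smul_eq_mul, ho' z, ho₁' z]
  have hPJ : ∀ c : ℂ, J ((o + c • o₁) * (o' + c • o₁')) =
      P.pI fun z => (ω z + c * ω₁ z) * (ω' z + c * ω₁' z) := fun c => hJ _ _ fun z => by
    rw [ContinuousMap.mul_apply, r1 c z, r2 c z]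
  have hv : ∀ i j m, Lim.Rs (M₁ i m * L₂ i j + L₁ i j * M₂ i m) (valP (A i j) (B i m)) :=
    fun i j m z => by
      rw [ContinuousMap.add_apply, ContinuousMap.mul_apply, ContinuousMap.mul_apply, hM₁ i m z,
        hL₂ i j z, hL₁ i j z, hM₂ i m z, valP]
  have hP₀ : J ((o + l₀ • o₁) * (o' + l₀ • o₁')) ≠ 0 := by
    rw [hPJ]
    exact hP l₀ hl₀
  have hA' : ∀ i j, Tw S (fun γ => -(t i : ℂ) * (θ γ + l i * θ₁ γ)) (A i j) := fun i j => by
    simpa only [neg_mul] using hA i j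
  have c1 := Lim.core 𝒰 J hJs (Lim.HH S r) (fun u ⟨F, hF, hu⟩ h0 => by
      rw [hJ _ (fun z => F z * starRingEnd ℂ (F z)) fun z => by
        rw [ContinuousMap.mul_apply, ContinuousMap.star_apply, hu z, star_def]] at h0
      ext z
      rw [hu z, P.eq_zero_of_pI hF.1 h0 z (closedBall_subset_ball hr1 z.2),
        ContinuousMap.zero_apply])
    (Lim.rel_HH P hG hr1) ⟨k, hk, hk'⟩ w' (fun u ⟨F, hF, hu⟩ => by
      rw [hJ _ (fun z => F z * starRingEnd ℂ (k z)) fun z => by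
        rw [ContinuousMap.mul_apply, ContinuousMap.star_apply, hu z, hk' z, star_def], hkw F hF,
        hu w'])
    ⟨_, (h.add h₁ l₀).autF.1, r1 l₀⟩
    ⟨_, (h.add h₁ l₀).autF.2, fun z => by rw [ContinuousMap.star_apply, r2 l₀ z, star_def]⟩ hP₀
    (fun i j => (L₁ i j, L₂ i j)) (fun i j => (M₁ i j, M₂ i j))
    (Lim.lim_tw P hr0 hr1 hJ h h₁ ho ho' ho₁ ho₁' 𝒰 (by simpa only [neg_zero] using ht'.neg)
      (fun i => neg_ne_zero.2 (ht0 i)) hl' hA' fun i j => ⟨hL₁ i j, hL₂ i j⟩)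
    (Lim.lim_tw P hr0 hr1 hJ h h₁ ho ho' ho₁ ho₁' 𝒰 ht' ht0 hl' hB fun i j => ⟨hM₁ i j, hM₂ i j⟩)
    (fun i => by simpa only [hJ _ _ (hv i _ _)] using hdet i)
  have c2 : Tendsto (fun i => k' w' + starRingEnd ℂ (k' w') -
      2 * ((o + l i • o₁) w' * (o' + l i • o₁') w') / J ((o + l i • o₁) * (o' + l i • o₁'))) 𝒰
      (𝓝 (k' w' + starRingEnd ℂ (k' w') - 2 * ((o + l₀ • o₁) w' * (o' + l₀ • o₁') w') /
        J ((o + l₀ • o₁) * (o' + l₀ • o₁')))) := by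
    have a1 := (hl'.smul_const o₁).const_add o
    have a2 := (hl'.smul_const o₁').const_add o'
    have ev := (ContinuousMap.evalCLM ℂ w' : C(closedBall (0 : ℂ) r, ℂ) →L[ℂ] ℂ).continuous
    exact ((((ev.tendsto _).comp a1).mul ((ev.tendsto _).comp a2)).const_mul 2 |>.div
      ((J.continuous.tendsto _).comp (a1.mul a2)) hP₀).const_sub _
  have c3 := (c1.sub c2).norm
  rw [sub_self, norm_zero] at c3
  refine (ge_of_tendsto' c3 fun i => ?_).not_gt hη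
  have hv' : ∀ j m, M₁ i m w' * L₂ i j w' + L₁ i j w' * M₂ i m w' = valP (A i j) (B i m) w :=
    fun j m => hv i j m w'
  simp only [hJ _ _ (hv i _ _), hv', hPJ, r1 _ w', r2 _ w', hk' w']
  exact (hη' i).le

end Pool.Agent.Lib.MP_de7bb2_an
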