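import Pool.Agent.Lib.MP_de7bb2_an.H20Stokes

/-! Compactness, dimension and reproducing kernel for holomorphic one forms. TASK LIMA. -/

namespace Pool.Agent.Lib.MP_de7bb2_an

open Metric Set Complex Filter Topology ComplexConjugate

variable {G : ℕ} {S : Surface G}

namespace LimA

theorem pI_int (P : Part S) {f : ℂ → ℂ} (hf : ContinuousOn f (ball 0 1)) :
    MeasureTheory.Integrable fun z => (P.χ z : ℂ) * f z :=
  Stokes.integrable_all ((Stokes.cont_chi P).continuousOn.mul hf) P.r_lt fun z hz => by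
    rw [Stokes.chi_zero P hz.le, ofReal_zero, zero_mul]

theorem pI_congr (P : Part S) {f g : ℂ → ℂ} (h : ∀ z ∈ ball (0 : ℂ) 1, f z = g z) :
    P.pI f = P.pI g := by
  unfold Part.pI
  congr 1
  funext z
  rcases le_total P.r ‖z‖ with h1 | h1
  · rw [Stokes.chi_zero P h1, ofReal_zero, zero_mul, zero_mul]
  · rw [h z (mem_ball_zero_iff.2 (h1.trans_lt P.r_lt))]

theorem pI_mul (P : Part S) (c : ℂ) (f : ℂ → ℂ) : P.pI (fun z => c * f z) = c * P.pI f := by
  simp only [Part.pI, mul_left_comm _ c, MeasureTheory.integral_const_mul]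

theorem pI_conj (P : Part S) (f : ℂ → ℂ) : P.pI (fun z => conj (f z)) = conj (P.pI f) := by
  simp only [Part.pI, ← integral_conj, map_mul, conj_ofReal]

theorem pI_add (P : Part S) {f g : ℂ → ℂ} (hf : ContinuousOn f (ball 0 1))
    (hg : ContinuousOn g (ball 0 1)) : P.pI (fun z => f z + g z) = P.pI f + P.pI g := by
  simp only [Part.pI, mul_add]
  exact MeasureTheory.integral_add (pI_int P hf) (pI_int P hg)

theorem pI_sum (P : Part S) {ι : Type*} (s : Finset ι) {f : ι → ℂ → ℂ}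
    (hf : ∀ i, ContinuousOn (f i) (ball 0 1)) :
    P.pI (fun z => ∑ i ∈ s, f i z) = ∑ i ∈ s, P.pI (f i) := by
  simp only [Part.pI, Finset.mul_sum]
  exact MeasureTheory.integral_finsetSum s fun i _ => pI_int P (hf i)

theorem cont_conj {f : ℂ → ℂ} (hf : ContinuousOn f (ball 0 1)) :
    ContinuousOn (fun z => conj (f z)) (ball 0 1) := continuous_conj.comp_continuousOn hf

end LimA

theorem montel_autF (P : Part S) {ι : Type*} (𝒰 : Ultrafilter ι) {θ : ι → S.Γ → ℂ}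
    {F : ι → ℂ → ℂ} (hθ : ∀ γ, Tendsto (fun i => θ i γ) 𝒰 (𝓝 0)) (hF : ∀ i, AutF S (θ i) (F i))
    {M : ℝ} (hb : ∀ i z, ‖z‖ ≤ P.r → ‖F i z‖ ≤ M) :
    ∃ F₀, AutF S 0 F₀ ∧ TendstoLocallyUniformlyOn F F₀ 𝒰 (ball 0 1) := by
  obtain ⟨g, hg, hT⟩ := montel_ultra 𝒰 isOpen_ball (fun i => (hF i).1) fun K hK hc => by
    obtain ⟨ρ₀, hρ₀, hKρ⟩ := exists_lt_subset_ball hc.isClosed hK
    have hρ : max ρ₀ P.r < 1 := max_lt hρ₀ P.r_lt
    have hρ0 : 0 ≤ max ρ₀ P.r := P.r_pos.le.trans (le_max_right _ _)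
    obtain ⟨s, -, hs⟩ := Stokes.exists_fin S hρ
    have h1 : 0 < 1 - max ρ₀ P.r ^ 2 := by nlinarith
    refine ⟨Real.exp 1 * (M * (1 / (1 - max ρ₀ P.r ^ 2))), ?_⟩
    have h2 : ∀ᶠ i in (𝒰 : Filter ι), ∀ γ ∈ s, ‖θ i γ‖ < 1 :=
      (eventually_all_finset s).2 fun γ _ => by
        simpa using (hθ γ).norm.eventually_lt_const (by simp : ‖(0 : ℂ)‖ < 1)
    filter_upwards [h2] with i hi z hz
    have hz1 := hK hz
    have hz2 : ‖z‖ ≤ max ρ₀ P.r := (mem_ball_zero_iff.1 (hKρ hz)).le.trans (le_max_left _ _)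
    obtain ⟨γ, hγ⟩ := P.exists_mem hz1
    have h3 := P.supp _ hγ.ne'
    have h4 : γ ∈ s := by
      by_contra h
      exact absurd (hs γ h z hz2) (not_lt.2 (h3.le.trans (le_max_right _ _)))
    have h5 : F i z = exp (-θ i γ) * (F i (S.act γ z) * deriv (S.act γ) z) := by
      rw [(hF i).2 γ z hz1, ← mul_assoc, ← exp_add, neg_add_cancel, exp_zero, one_mul]
    have h6 : ‖deriv (S.act γ) z‖ ≤ 1 / (1 - max ρ₀ P.r ^ 2) := by
      rw [le_div_iff₀ h1]
      have h7 := S.norm_deriv γ hz1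
      have h8 : ‖z‖ ^ 2 ≤ max ρ₀ P.r ^ 2 := pow_le_pow_left₀ (norm_nonneg _) hz2 2
      nlinarith [norm_nonneg (deriv (S.act γ) z), sq_nonneg ‖S.act γ z‖]
    have h9 := hb i _ h3.le
    rw [h5, norm_mul, norm_mul]
    refine mul_le_mul ?_ (mul_le_mul h9 h6 (norm_nonneg _) ((norm_nonneg _).trans h9))
      (by positivity) (Real.exp_pos _).le
    rw [norm_exp, Real.exp_le_exp]
    exact (re_le_norm _).trans (by rw [norm_neg]; exact (hi γ h4).le)
  refine ⟨g, ⟨hg, fun γ z hz => ?_⟩, hT⟩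
  have h1 := (hT.tendsto_at (S.act_mem γ hz)).mul_const (deriv (S.act γ) z)
  have h2 := (hθ γ).cexp.mul (hT.tendsto_at hz)
  exact tendsto_nhds_unique (h1.congr fun i => (hF i).2 γ z hz) h2

theorem Harm.add {θ θ' : S.Γ → ℂ} {Θ ω ω' Θ₁ ω₁ ω₁' : ℂ → ℂ} (h : Harm S θ Θ ω ω')
    (h' : Harm S θ' Θ₁ ω₁ ω₁') (c : ℂ) : Harm S (fun γ => θ γ + c * θ' γ)
      (fun z => Θ z + c * Θ₁ z) (fun z => ω z + c * ω₁ z) fun z => ω' z + c * ω₁' z := by
  obtain ⟨h1, h2, h3, h4⟩ := h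
  obtain ⟨k1, k2, k3, k4⟩ := h'
  refine ⟨h1.add (k1.const_mul c), ?_, fun z hz => ?_, fun γ z hz => ?_⟩
  · simp only [map_add, map_mul]
    exact h2.add (k2.const_mul _)
  · refine ((h3 z hz).add ((k3 z hz).const_mul c)).congr_fderiv ?_
    ext v
    simp
    ring
  · beta_reduce
    rw [h4 γ z hz, k4 γ z hz]
    ring

theorem LimA.harm_sum {ι : Type*} (s : Finset ι) {θ : ι → S.Γ → ℂ} {Θ ω ω' : ι → ℂ → ℂ}
    (h : ∀ i, Harm S (θ i) (Θ i) (ω i) (ω' i)) (c : ι → ℂ) :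
    Harm S (fun γ => ∑ i ∈ s, c i * θ i γ) (fun z => ∑ i ∈ s, c i * Θ i z)
      (fun z => ∑ i ∈ s, c i * ω i z) fun z => ∑ i ∈ s, c i * ω' i z := by
  classical
  induction s using Finset.induction_on with
  | empty =>
    simp only [Finset.sum_empty]
    refine ⟨differentiableOn_const _, differentiableOn_const _, fun z _ => ?_, fun _ _ _ => ?_⟩
    · refine (hasFDerivAt_const (0 : ℂ) z).congr_fderiv ?_
      ext v
      simp
    · simp
  | insert a s ha ih =>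
    simp only [Finset.sum_insert ha, add_comm (c a * _)]
    exact ih.add (h a) (c a)

theorem Harm.stokes_tw (P : Part S) {θ : S.Γ → ℂ} {Θ ω ω' F K : ℂ → ℂ} (h : Harm S θ Θ ω ω')
    {t : ℂ} (ht : t ≠ 0) (hF : AutF S (fun γ => t * θ γ) F)
    (hK : AutF S (fun γ => conj (t * θ γ)) K) :
    P.pI (fun z => exp (-t * Θ z) * ω' z * F z) = 0 ∧
      P.pI (fun z => exp (-t * Θ z) * ω z * conj (K z)) = 0 := by
  obtain ⟨h1, h2, h3, h4⟩ := h
  have c1 : ContinuousOn Θ (ball 0 1) := fun z hz => (h3 z hz).continuousAt.continuousWithinAt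
  have c2 : ContinuousOn ω' (ball 0 1) := by
    simpa only [conj_conj] using LimA.cont_conj h2.continuousOn
  have c3 := h1.continuousOn
  have ca : ContinuousOn (fun z => -t * (exp (-t * Θ z) * ω z)) (ball 0 1) := by fun_prop
  have cc : ContinuousOn (fun z => -t * (exp (-t * Θ z) * ω' z)) (ball 0 1) := by fun_prop
  have hu : ∀ z ∈ ball (0 : ℂ) 1, HasFDerivAt (fun z => exp (-t * Θ z))
      (wirt (-t * (exp (-t * Θ z) * ω z)) (-t * (exp (-t * Θ z) * ω' z))) z := fun z hz => by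
    refine ((h3 z hz).const_mul (-t)).cexp.congr_fderiv ?_
    ext v
    simp
    ring
  have e1 := P.stokes ca cc hu hF.1 fun γ z hz => by
    rw [mul_assoc, hF.2 γ z hz, h4 γ z hz, ← mul_assoc, ← exp_add]
    congr 2
    ring
  have e2 := P.stokes (LimA.cont_conj cc) (LimA.cont_conj ca)
    (fun z hz => Stokes.hasFDerivAt_conj (hu z hz)) hK.1 fun γ z hz => by
      rw [mul_assoc, hK.2 γ z hz, h4 γ z hz, ← mul_assoc, exp_conj, ← map_mul, ← exp_add]
      congr 3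
      ring
  have e3 := congrArg conj e2
  rw [← LimA.pI_conj, map_zero] at e3
  simp only [map_mul (starRingEnd ℂ) _ (K _), conj_conj, mul_assoc (-t), LimA.pI_mul] at e1 e3
  exact ⟨(mul_eq_zero.1 e1).resolve_left (neg_ne_zero.2 ht),
    (mul_eq_zero.1 e3).resolve_left (neg_ne_zero.2 ht)⟩

theorem LimA.exists_dep (hG : 1 ≤ G) (θ : Fin (2 * G + 1) → Additive S.Γ →+ ℂ) :
    ∃ c : Fin (2 * G + 1) → ℂ, c ≠ 0 ∧ ∀ γ, ∑ i, c i * θ i γ = 0 := by
  have : Module.Finite ℝ (Additive S.Γ →+ ℝ) :=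
    Module.finite_of_finrank_pos (by rw [S.genus]; omega)
  let b := Module.finBasisOfFinrankEq ℝ (Additive S.Γ →+ ℝ) S.genus
  let v : Fin (2 * G + 1) → Fin (2 * G) → ℂ := fun i k =>
    (b.repr (reAddGroupHom.comp (θ i)) k : ℝ) + (b.repr (imAddGroupHom.comp (θ i)) k : ℝ) * I
  have hv : ¬ LinearIndependent ℂ v := fun h => by
    have := h.fintype_card_le_finrank
    simp at this
  obtain ⟨c, hc, i, hi⟩ := Fintype.not_linearIndependent_iff.1 hv
  refine ⟨c, fun h => hi (congrFun h i), fun γ => ?_⟩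
  have h1 : ∀ i, θ i γ = ∑ k, v i k * (b k γ : ℝ) := fun i => by
    have a1 := DFunLike.congr_fun (b.sum_repr (reAddGroupHom.comp (θ i))) γ
    have a2 := DFunLike.congr_fun (b.sum_repr (imAddGroupHom.comp (θ i))) γ
    simp only [AddMonoidHom.finsetSum_apply, AddMonoidHom.smul_apply, smul_eq_mul,
      AddMonoidHom.comp_apply, coe_reAddGroupHom, coe_imAddGroupHom] at a1 a2
    rw [← re_add_im (θ i γ), ← a1, ← a2]
    simp only [v, add_mul, Finset.sum_add_distrib, ofReal_sum, ofReal_mul, Finset.sum_mul,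
      mul_right_comm _ I]
  simp only [h1, Finset.mul_sum, ← mul_assoc]
  rw [Finset.sum_comm]
  refine Finset.sum_eq_zero fun k _ => ?_
  have h2 := congrFun hc k
  simp only [Finset.sum_apply, Pi.smul_apply, smul_eq_mul, Pi.zero_apply] at h2
  rw [← Finset.sum_mul, h2, zero_mul]

theorem exists_rel (P : Part S) (hG : 1 ≤ G) {F K : Fin (2 * G + 1) → ℂ → ℂ}
    (hF : ∀ i, AutF S 0 (F i)) (hK : ∀ i, AutF S 0 (K i)) : ∃ c : Fin (2 * G + 1) → ℂ, c ≠ 0 ∧
      ∀ z ∈ ball (0 : ℂ) 1, ∑ i, c i * F i z = 0 ∧ ∑ i, c i * conj (K i z) = 0 := by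
  choose θ Θ hH using fun i => exists_harm (hF i) (hK i)
  obtain ⟨c, hc, h0⟩ := LimA.exists_dep hG θ
  have h1 := LimA.harm_sum Finset.univ hH c
  simp only [h0] at h1
  exact ⟨c, hc, Harm.eq_zero P h1⟩

namespace LimA

/-- Holomorphic one forms, extended by zero outside the disc. -/
def spc (S : Surface G) : Submodule ℂ (ℂ → ℂ) where
  carrier := {F | AutF S 0 F ∧ ∀ z ∉ ball (0 : ℂ) 1, F z = 0}
  zero_mem' := ⟨⟨differentiableOn_const _, fun _ _ _ => by simp⟩, fun _ _ => rfl⟩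
  add_mem' := fun {F K} hF hK => ⟨⟨hF.1.1.add hK.1.1, fun γ z hz => by
    rw [Pi.add_apply, Pi.add_apply, add_mul, hF.1.2 γ z hz, hK.1.2 γ z hz, mul_add]⟩,
    fun z hz => by rw [Pi.add_apply, hF.2 z hz, hK.2 z hz, add_zero]⟩
  smul_mem' := fun c {F} hF => ⟨⟨hF.1.1.const_smul c, fun γ z hz => by
    rw [Pi.smul_apply, Pi.smul_apply, smul_eq_mul, smul_eq_mul, mul_assoc, hF.1.2 γ z hz,
      mul_left_comm]⟩, fun z hz => by rw [Pi.smul_apply, hF.2 z hz, smul_zero]⟩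

theorem indicator_mem {F : ℂ → ℂ} (hF : AutF S 0 F) : indicator (ball 0 1) F ∈ spc S :=
  ⟨⟨hF.1.congr fun _ hz => indicator_of_mem hz _, fun γ z hz => by
    rw [indicator_of_mem hz, indicator_of_mem (S.act_mem γ hz), hF.2 γ z hz]⟩,
    fun _ hz => indicator_of_notMem hz _⟩

theorem finite_spc (P : Part S) (hG : 1 ≤ G) : Module.Finite ℂ (spc S) := by
  rw [← Module.rank_lt_aleph0_iff]
  by_contra h
  obtain ⟨f, hf⟩ := exists_linearIndependent_of_le_rank (n := 2 * G + 1)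
    (Cardinal.natCast_lt_aleph0.le.trans (not_lt.1 h))
  obtain ⟨c, hc, h0⟩ := exists_rel P hG (fun i => (f i).2.1) fun i => (f i).2.1
  refine hc (funext (Fintype.linearIndependent_iff.1 hf c (Subtype.ext (funext fun z => ?_))))
  simp only [Submodule.coe_sum, Submodule.coe_smul, Finset.sum_apply, Pi.smul_apply, smul_eq_mul,
    Submodule.coe_zero, Pi.zero_apply]
  by_cases hz : z ∈ ball (0 : ℂ) 1
  · exact (h0 z hz).1
  · exact Finset.sum_eq_zero fun i _ => by rw [(f i).2.2 z hz, mul_zero]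

end LimA

theorem exists_repr (P : Part S) (hG : 1 ≤ G) {w : ℂ} (hw : w ∈ ball (0 : ℂ) 1) :
    ∃ k, AutF S 0 k ∧ ∀ F, AutF S 0 F → P.pI (fun z => F z * conj (k z)) = F w := by
  have := LimA.finite_spc P hG
  let b := Module.finBasis ℂ (LimA.spc S)
  have hc : ∀ F : LimA.spc S, ContinuousOn F.1 (ball 0 1) := fun F => F.2.1.1.continuousOn
  let M : Matrix _ _ ℂ := Matrix.of fun i j => P.pI fun z => (b i).1 z * conj ((b j).1 z)
  have h1 : ∀ (a : _ → ℂ) i, P.pI (fun z => (b i).1 z * conj ((∑ j, conj (a j) • b j).1 z)) =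
      M.mulVec a i := fun a i => by
    simp only [Submodule.coe_sum, Submodule.coe_smul, Finset.sum_apply, Pi.smul_apply, smul_eq_mul,
      map_sum, map_mul, conj_conj, Finset.mul_sum, mul_left_comm _ (a _)]
    rw [LimA.pI_sum P _ fun j => continuousOn_const.fun_mul ((hc _).fun_mul (LimA.cont_conj (hc _)))]
    simp only [LimA.pI_mul]
    simp only [Matrix.mulVec, dotProduct, M, Matrix.of_apply, mul_comm (a _)]
  have h2 : ∀ F k : LimA.spc S, P.pI (fun z => F.1 z * conj (k.1 z)) =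
      ∑ i, b.repr F i * P.pI fun z => (b i).1 z * conj (k.1 z) := fun F k => by
    conv_lhs => rw [← b.sum_repr F]
    simp only [Submodule.coe_sum, Submodule.coe_smul, Finset.sum_apply, Pi.smul_apply, smul_eq_mul,
      Finset.sum_mul, mul_assoc]
    rw [LimA.pI_sum P _ fun j => continuousOn_const.fun_mul ((hc _).fun_mul (LimA.cont_conj (hc _)))]
    simp only [LimA.pI_mul]
  have h3 : Function.Injective M.mulVec := by
    rw [← Matrix.coe_mulVecLin, injective_iff_map_eq_zero]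
    intro a ha
    have e1 : ∀ z ∈ ball (0 : ℂ) 1, (∑ j, conj (a j) • b j).1 z = 0 :=
      P.eq_zero_of_pI (∑ j, conj (a j) • b j).2.1.1 (by
        rw [h2]
        refine Finset.sum_eq_zero fun i _ => ?_
        rw [h1, show M.mulVec a = 0 from ha, Pi.zero_apply, mul_zero])
    have e2 : ∑ j, conj (a j) • b j = 0 := Subtype.ext (funext fun z => by
      by_cases hz : z ∈ ball (0 : ℂ) 1
      exacts [e1 z hz, (∑ j, conj (a j) • b j).2.2 z hz])
    funext j
    simpa using Fintype.linearIndependent_iff.1 b.linearIndependent _ e2 j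
  obtain ⟨a, ha⟩ := Matrix.mulVec_surjective_iff_isUnit.2 (Matrix.mulVec_injective_iff_isUnit.1 h3)
    fun i => (b i).1 w
  refine ⟨(∑ j, conj (a j) • b j).1, (∑ j, conj (a j) • b j).2.1, fun F hF => ?_⟩
  have e1 := h2 ⟨_, LimA.indicator_mem hF⟩ (∑ j, conj (a j) • b j)
  have e2 := congrFun (congrArg Subtype.val (b.sum_repr ⟨_, LimA.indicator_mem hF⟩)) w
  simp only [Submodule.coe_sum, Submodule.coe_smul, Finset.sum_apply, Pi.smul_apply, smul_eq_mul,
    indicator_of_mem hw] at e2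
  simp only [h1, ha, e2] at e1
  rw [← e1]
  exact LimA.pI_congr P fun z hz => by rw [indicator_of_mem hz]

theorem LimA.exists_real (α β : ℂ) : ∃ a : Fin 3 → ℝ, a ≠ 0 ∧ a 0 * α + a 1 * β + a 2 = 0 := by
  have hv : ¬ LinearIndependent ℝ ![α, β, 1] := fun h => by
    have := h.fintype_card_le_finrank
    simp at this
  obtain ⟨c, hc, i, hi⟩ := Fintype.not_linearIndependent_iff.1 hv
  refine ⟨c, fun h => hi (congrFun h i), ?_⟩
  simpa [Fin.sum_univ_three] using hc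

theorem exists_point (P : Part S) {θ : Fin 3 → S.Γ → ℂ} {Θ ω ω' : Fin 3 → ℂ → ℂ}
    (h : ∀ i, Harm S (θ i) (Θ i) (ω i) (ω' i)) (hre : ∀ i γ, (θ i γ).im = 0)
    (hind : ∀ a : Fin 3 → ℝ, (∀ γ, ∑ i, a i * θ i γ = 0) → a = 0) :
    ∃ (j : Fin 3) (l₁ w : ℂ), j ≠ 2 ∧ l₁.im ≠ 0 ∧ w ∈ ball (0 : ℂ) 1 ∧ ∀ᶠ ρ : ℝ in 𝓝[>] 0,
      (∀ l ∈ sphere l₁ ρ, P.pI (fun z => (ω j z + l * ω 2 z) * (ω' j z + l * ω' 2 z)) ≠ 0) ∧
      ∀ C₀ : ℂ, ContinuousOn (fun l => C₀ - 2 * ((ω j w + l * ω 2 w) * (ω' j w + l * ω' 2 w)) /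
          P.pI fun z => (ω j z + l * ω 2 z) * (ω' j z + l * ω' 2 z)) (sphere l₁ ρ) ∧
        (∮ l in C(l₁, ρ), (C₀ - 2 * ((ω j w + l * ω 2 w) * (ω' j w + l * ω' 2 w)) /
          P.pI fun z => (ω j z + l * ω 2 z) * (ω' j z + l * ω' 2 z))) ≠ 0 := by
  have hc : ∀ i, ∀ z ∈ ball (0 : ℂ) 1, ω' i z = conj (ω i z) := fun i => ((h i).real P (hre i)).1
  have hrel : ∀ a : Fin 3 → ℝ, (∀ z ∈ ball (0 : ℂ) 1, ∑ i, (a i : ℂ) * ω i z = 0) → a = 0 :=
    fun a ha => hind a ((LimA.harm_sum Finset.univ h fun i => a i).period_eq_zero fun z hz =>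
      ⟨ha z hz, by
        have := congrArg conj (ha z hz)
        simpa only [map_sum, map_mul, conj_ofReal, map_zero, ← hc _ z hz] using this⟩)
  obtain ⟨j, hj, hm⟩ : ∃ j : Fin 3, j ≠ 2 ∧ ∀ l : ℂ, ¬ ∀ z ∈ ball (0 : ℂ) 1,
      ω j z + l * ω 2 z = 0 := by
    by_contra hh
    push Not at hh
    obtain ⟨α, hα⟩ := hh 0 (by decide)
    obtain ⟨β, hβ⟩ := hh 1 (by decide)
    obtain ⟨a, ha, e⟩ := LimA.exists_real (-α) (-β)
    refine ha (hrel a fun z hz => ?_)
    rw [Fin.sum_univ_three]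
    linear_combination a 0 * hα z hz + a 1 * hβ z hz + ω 2 z * e
  have hd : ∀ i, DifferentiableOn ℂ (ω i) (ball 0 1) := fun i => (h i).1
  have hd' : ∀ l, DifferentiableOn ℂ (fun z => ω j z + l * ω 2 z) (ball 0 1) := fun l =>
    (hd j).add ((hd 2).const_mul l)
  have c1 : ∀ i k, ContinuousOn (fun z => ω i z * conj (ω k z)) (ball 0 1) := fun i k =>
    (hd i).continuousOn.mul (LimA.cont_conj (hd k).continuousOn)
  obtain ⟨Q, hQ⟩ : ∃ Q : ℂ → ℂ, ∀ l,
      P.pI (fun z => (ω j z + l * ω 2 z) * (ω' j z + l * ω' 2 z)) = Q l := ⟨_, fun _ => rfl⟩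
  obtain ⟨A, B, C, hC, hq⟩ : ∃ A B C : ℂ, C ≠ 0 ∧ ∀ l, Q l = C * (l * l) + B * l + A := by
    refine ⟨P.pI fun z => ω j z * conj (ω j z), (P.pI fun z => ω j z * conj (ω 2 z)) +
      P.pI fun z => ω 2 z * conj (ω j z), P.pI fun z => ω 2 z * conj (ω 2 z), fun h0 => ?_,
      fun l => ?_⟩
    · have := hrel ![0, 0, 1] fun z hz => by
        simp [Fin.sum_univ_three, P.eq_zero_of_pI (hd 2) h0 z hz]
      simpa using congrFun this 2
    · rw [← hQ, mul_comm _ (l * l), mul_comm (_ + _) l, mul_add l, ← LimA.pI_mul,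
        ← LimA.pI_mul, ← LimA.pI_mul, ← LimA.pI_add P (continuousOn_const.fun_mul (c1 _ _))
          (continuousOn_const.fun_mul (c1 _ _)), ← LimA.pI_add P
          (continuousOn_const.fun_mul (c1 _ _)) ((continuousOn_const.fun_mul (c1 _ _)).fun_add
            (continuousOn_const.fun_mul (c1 _ _))), ← LimA.pI_add P
          ((continuousOn_const.fun_mul (c1 _ _)).fun_add ((continuousOn_const.fun_mul
            (c1 _ _)).fun_add (continuousOn_const.fun_mul (c1 _ _)))) (c1 _ _)]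
      refine LimA.pI_congr P fun z hz => ?_
      rw [hc j z hz, hc 2 z hz]
      ring
  have hconj : ∀ l, Q (conj l) = conj (Q l) := fun l => by
    rw [← hQ, ← hQ, ← LimA.pI_conj]
    refine LimA.pI_congr P fun z hz => ?_
    simp only [hc _ z hz, map_mul, map_add, conj_conj]
    ring
  obtain ⟨s, hs⟩ := IsAlgClosed.exists_eq_mul_self (discrim C B A)
  obtain ⟨l₁, hl₁⟩ := exists_quadratic_eq_zero hC ⟨s, hs⟩
  have him : l₁.im ≠ 0 := fun h0 => hm l₁ (P.eq_zero_of_pI (hd' l₁) (by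
    rw [← hl₁, ← hq, ← hQ]
    refine LimA.pI_congr P fun z hz => ?_
    simp only [hc _ z hz, map_mul, map_add, conj_eq_iff_im.2 h0]))
  have hne : l₁ - conj l₁ ≠ 0 := fun h0 => him (conj_eq_iff_im.1 (sub_eq_zero.1 h0).symm)
  have hl₂ : C * (conj l₁ * conj l₁) + B * conj l₁ + A = 0 := by
    rw [← hq, hconj, hq, hl₁, map_zero]
  have hB : C * (l₁ + conj l₁) + B = 0 :=
    mul_left_cancel₀ hne (by linear_combination hl₁ - hl₂)
  have hfac : ∀ l, Q l = C * ((l - l₁) * (l - conj l₁)) := fun l => by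
    rw [hq]
    linear_combination hl₁ + (l - l₁) * hB
  obtain ⟨w, hw, hw0⟩ : ∃ w ∈ ball (0 : ℂ) 1,
      (ω j w + l₁ * ω 2 w) * (ω j w + conj l₁ * ω 2 w) ≠ 0 := by
    by_contra hh
    push Not at hh
    exact (((hd' l₁).analyticOnNhd isOpen_ball).eq_zero_or_eq_zero_of_mul_eq_zero
      ((hd' (conj l₁)).analyticOnNhd isOpen_ball) hh (convex_ball _ _).isPreconnected).elim
      (hm _) (hm _)
  have hN : (ω j w + l₁ * ω 2 w) * (ω' j w + l₁ * ω' 2 w) ≠ 0 := by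
    refine mul_ne_zero (left_ne_zero_of_mul hw0) fun h0 => right_ne_zero_of_mul hw0 ?_
    have := congrArg conj h0
    simpa only [hc _ w hw, map_add, map_mul, conj_conj, map_zero] using this
  refine ⟨j, l₁, w, hj, him, hw, ?_⟩
  filter_upwards [Ioo_mem_nhdsGT (norm_pos_iff.2 hne)] with ρ hρ
  have n1 : ∀ l ∈ sphere l₁ ρ, l - l₁ ≠ 0 := fun l hl h0 => by
    rw [mem_sphere_iff_norm, h0, norm_zero] at hl
    exact hρ.1.ne hl
  have n2 : ∀ l ∈ closedBall l₁ ρ, l - conj l₁ ≠ 0 := fun l hl h0 => by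
    rw [sub_eq_zero.1 h0, mem_closedBall_iff_norm'] at hl
    exact hρ.2.not_ge hl
  have n3 : ∀ l ∈ sphere l₁ ρ, C * ((l - l₁) * (l - conj l₁)) ≠ 0 := fun l hl =>
    mul_ne_zero hC (mul_ne_zero (n1 l hl) (n2 l (sphere_subset_closedBall hl)))
  simp only [hQ, hfac]
  refine ⟨n3, fun C₀ => ⟨continuousOn_const.sub (ContinuousOn.div (by fun_prop) (by fun_prop) n3),
    ?_⟩⟩
  have hg : DifferentiableOn ℂ (fun l => C₀ * (l - l₁) -
      2 * ((ω j w + l * ω 2 w) * (ω' j w + l * ω' 2 w)) / (C * (l - conj l₁)))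
      (closedBall l₁ ρ) :=
    DifferentiableOn.sub (by fun_prop) (DifferentiableOn.div (by fun_prop) (by fun_prop)
      fun l hl => mul_ne_zero hC (n2 l hl))
  rw [circleIntegral.integral_congr hρ.1.le (g := fun l => (l - l₁)⁻¹ • (C₀ * (l - l₁) -
      2 * ((ω j w + l * ω 2 w) * (ω' j w + l * ω' 2 w)) / (C * (l - conj l₁)))) fun l hl => by
      have a1 := n1 l hl
      have a2 := n2 l (sphere_subset_closedBall hl)
      simp only [smul_eq_mul]
      field_simp,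
    hg.circleIntegral_sub_inv_smul (mem_ball_self hρ.1), smul_eq_mul, sub_self, mul_zero, zero_sub]
  exact mul_ne_zero two_pi_I_ne_zero (neg_ne_zero.2 (div_ne_zero (mul_ne_zero two_ne_zero hN)
    (mul_ne_zero hC hne)))

end Pool.Agent.Lib.MP_de7bb2_an
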