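import Pool.Agent.Lib.MP_de7bb2_an.H20Word

/-! Separated arcs and the unfolding identity over all chambers. TASK LOC. -/

namespace Pool.Agent.Lib.MP_de7bb2_an

open Metric Set Complex

variable {G : ℕ} [hG : Fact (2 ≤ G)]

def Sp (g : W G) (k : L G) : Prop :=
  (Des g (k + 1) ∧ ¬ Des g (k + 2)) ∨ (Des g (k - 1) ∧ ¬ Des g (k - 2))

/-- The arc `k` of the chamber `g` is far from the base chamber. -/
def SepA (b : ZMod 2) (g : W G) (k : L G) : Prop :=
  if par k = b then ¬ Des g k ∧ ¬ Sp g k else (¬ Des g k ∨ Sp (g * sr k) k)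

namespace Loc

variable {b : ZMod 2} {g h : W G} {d k x : L G}

theorem n1 : (1 : L G) ≠ 0 := by
  simpa using natCast_ne_zero (G := G) (i := 1) (by norm_num) (by norm_num)

theorem n2 : (2 : L G) ≠ 0 := by
  simpa using natCast_ne_zero (G := G) (i := 2) (by norm_num) (by norm_num)

theorem z01 : ∀ x : ZMod 2, x ≠ 0 ↔ x = 1 := by decide

theorem z10 : ∀ x : ZMod 2, x ≠ 1 ↔ x = 0 := by decide

theorem zs : ∀ x b : ZMod 2, x + 1 = b ↔ x ≠ b := by decide

omit hG in
theorem par_succ (k : L G) (b : ZMod 2) : par (k + 1) = b ↔ par k ≠ b := by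
  rw [par_add_one, zs]

omit hG in
theorem par_pred (k : L G) (b : ZMod 2) : par (k - 1) = b ↔ par k ≠ b := by
  rw [par_sub_one, zs]

omit hG in
theorem ss (g : W G) (k : L G) : g * sr k * sr k = g := by rw [mul_assoc, sr_mul_self, mul_one]

omit hG in
theorem sc (g : W G) (k : L G) : g * sr (k + 1) * sr k = g * sr k * sr (k + 1) := by
  rw [mul_assoc, mul_assoc, sr_comm]

theorem nd2 (hx : Des g x) : ¬ Des g (x + 2) := not_des_far (far_add_two x) hx

theorem nd3 (hx : Des g x) : ¬ Des g (x + 3) := not_des_far (far_add_three x) hx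

theorem nd2' (hx : Des g x) : ¬ Des g (x - 2) := fun h => nd2 h (by rwa [sub_add_cancel])

theorem nd3' (hx : Des g x) : ¬ Des g (x - 3) := fun h => nd3 h (by rwa [sub_add_cancel])

theorem near (hx : Des g x) (hk : Des g k) : k = x ∨ k = x + 1 ∨ k = x - 1 := by
  rcases Grp.cases_letter x k with h | h | h | h
  · exact Or.inl h
  · exact Or.inr (Or.inl h)
  · exact Or.inr (Or.inr h)
  · exact absurd hk (not_des_far h hx)

theorem tri (g : W G) : g = 1 ∨ (∃ d, ∀ k, Des g k ↔ k = d) ∨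
    ∃ x, ∀ k, Des g k ↔ k = x ∨ k = x + 1 := by
  have pair : ∀ x, Des g x → Des g (x + 1) → ∀ k, Des g k ↔ k = x ∨ k = x + 1 := by
    intro x hx hy k
    constructor
    · intro hk
      rcases near hx hk with h | h | h
      · exact Or.inl h
      · exact Or.inr h
      · subst h
        exact absurd hy (by simpa [show x - 1 + 2 = x + 1 by ring] using nd2 hk)
    · rintro (rfl | rfl)
      · exact hx
      · exact hy
  by_cases h1 : g = 1
  · exact Or.inl h1
  right
  obtain ⟨d, hd⟩ : ∃ d, Des g d := by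
    by_contra hn
    exact h1 (no_des_iff.1 fun m hm => hn ⟨m, hm⟩)
  by_cases h2 : Des g (d + 1)
  · exact Or.inr ⟨d, pair d hd h2⟩
  by_cases h3 : Des g (d - 1)
  · exact Or.inr ⟨d - 1, pair _ h3 (by rwa [sub_add_cancel])⟩
  refine Or.inl ⟨d, fun k => ⟨fun hk => ?_, fun e => e ▸ hd⟩⟩
  rcases near hd hk with h | h | h
  · exact h
  · exact absurd (h ▸ hk) h2
  · exact absurd (h ▸ hk) h3

theorem sep_one (b : ZMod 2) (k : L G) : SepA b (1 : W G) k := by
  have h := (no_des_iff (G := G)).2 rfl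
  simp [SepA, Sp, h]

theorem sp_single (hd : ∀ k, Des g k ↔ k = d) : Sp g k ↔ k = d + 1 ∨ k = d - 1 := by
  simp only [Sp, hd]
  constructor
  · rintro (⟨h, -⟩ | ⟨h, -⟩)
    · exact Or.inr (by rw [← h]; ring)
    · exact Or.inl (by rw [← h]; ring)
  · rintro (rfl | rfl)
    · exact Or.inr ⟨by ring, fun h => n1 (G := G) (by linear_combination -h)⟩
    · exact Or.inl ⟨by ring, fun h => n1 (G := G) (by linear_combination h)⟩

theorem not_sp_single (hd : ∀ k, Des g k ↔ k = d) : ¬ Sp (g * sr d) d := by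
  simp only [Sp, des_mul_succ, des_mul_pred, hd]
  rintro (⟨h, -⟩ | ⟨h, -⟩)
  · exact n1 (G := G) (by linear_combination h)
  · exact n1 (G := G) (by linear_combination -h)

theorem bad_single (hd : ∀ k, Des g k ↔ k = d) :
    ¬ SepA b g k ↔ k = d ∨ (par d ≠ b ∧ (k = d + 1 ∨ k = d - 1)) := by
  unfold SepA
  split_ifs with hp
  · rw [sp_single hd, hd]
    constructor
    · intro h
      by_cases e : k = d
      · exact Or.inl e
      · have h2 : k = d + 1 ∨ k = d - 1 := not_not.1 fun h2 => h ⟨e, h2⟩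
        refine Or.inr ⟨?_, h2⟩
        rcases h2 with rfl | rfl
        · exact (par_succ _ _).1 hp
        · exact (par_pred _ _).1 hp
    · rintro (h | h) h'
      · exact h'.1 h
      · exact h'.2 h.2
  · rw [hd]
    constructor
    · intro h
      exact Or.inl (not_not.1 fun e => h (Or.inl e))
    · rintro (rfl | ⟨h1, rfl | rfl⟩)
      · exact not_or.2 ⟨not_not.2 rfl, not_sp_single hd⟩
      · exact absurd ((par_succ _ _).2 h1) hp
      · exact absurd ((par_pred _ _).2 h1) hp

theorem sp_pair (hx : ∀ k, Des g k ↔ k = x ∨ k = x + 1) (h : Sp g k) : k = x ∨ k = x + 1 := by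
  simp only [Sp, hx] at h
  rcases h with ⟨h | h, h'⟩ | ⟨h | h, h'⟩
  · exact absurd (Or.inr (by linear_combination h)) h'
  · exact Or.inl (by linear_combination h)
  · exact Or.inr (by linear_combination h)
  · exact absurd (Or.inl (by linear_combination h)) h'

theorem sp_left (hx : ∀ k, Des g k ↔ k = x ∨ k = x + 1) :
    Sp (g * sr x) x ↔ ¬ Des (g * sr x * sr (x + 1)) (x + 2) := by
  have h1 : Des (g * sr x) (x + 1) := (des_mul_succ _ _).2 ((hx _).2 (Or.inr rfl))
  have h2 : ¬ Des (g * sr x) (x - 1) := by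
    simpa [show x + 1 - 2 = x - 1 by ring] using nd2' h1
  have h3 := des_mul_succ (g * sr x) (x + 1)
  rw [show x + 1 + 1 = x + 2 by ring] at h3
  simp [Sp, h1, h2, h3]

theorem sp_right (hx : ∀ k, Des g k ↔ k = x ∨ k = x + 1) :
    Sp (g * sr (x + 1)) (x + 1) ↔ ¬ Des (g * sr x * sr (x + 1)) (x - 1) := by
  have h1 : Des (g * sr (x + 1)) x := by
    have := des_mul_pred g (x + 1)
    rw [add_sub_cancel_right] at this
    exact this.2 ((hx _).2 (Or.inl rfl))
  have h3 := des_mul_pred (g * sr (x + 1)) x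
  rw [sc] at h3
  simp [Sp, h1, nd2 h1, h3, show x + 1 + 1 = x + 2 by ring, show x + 1 - 2 = x - 1 by ring]

theorem not_both (h : W G) (x : L G) : ¬ (Des h (x - 1) ∧ Des h (x + 2)) := fun hh =>
  nd3 hh.1 (by rw [show x - 1 + 3 = x + 2 by ring]; exact hh.2)

theorem bad_pair (hx : ∀ k, Des g k ↔ k = x ∨ k = x + 1) :
    ¬ SepA b g k ↔ (k = x ∧ (par x = b ∨ Des (g * sr x * sr (x + 1)) (x + 2))) ∨
      (k = x + 1 ∧ (par x ≠ b ∨ Des (g * sr x * sr (x + 1)) (x - 1))) := by
  unfold SepA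
  split_ifs with hp
  · rw [hx]
    constructor
    · intro h
      have h2 : k = x ∨ k = x + 1 := by
        by_contra hn
        exact h ⟨hn, fun hs => hn (sp_pair hx hs)⟩
      rcases h2 with rfl | rfl
      · exact Or.inl ⟨rfl, Or.inl hp⟩
      · exact Or.inr ⟨rfl, Or.inl ((par_succ _ _).1 hp)⟩
    · rintro (h | h) h'
      · exact h'.1 (Or.inl h.1)
      · exact h'.1 (Or.inr h.1)
  · rw [hx]
    constructor
    · intro h
      have h2 : k = x ∨ k = x + 1 := not_not.1 fun e => h (Or.inl e)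
      rcases h2 with rfl | rfl
      · rw [sp_left hx] at h
        exact Or.inl ⟨rfl, Or.inr (not_not.1 fun e => h (Or.inr e))⟩
      · rw [sp_right hx] at h
        exact Or.inr ⟨rfl, Or.inr (not_not.1 fun e => h (Or.inr e))⟩
    · rintro (⟨rfl, h⟩ | ⟨rfl, h⟩)
      · rw [sp_left hx]
        exact not_or.2 ⟨not_not.2 (Or.inl rfl), not_not.2 (h.resolve_left hp)⟩
      · rw [sp_right hx]
        rw [par_succ] at hp
        exact not_or.2 ⟨not_not.2 (Or.inr rfl), not_not.2 (h.resolve_left hp)⟩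

end Loc

open Loc

theorem sepA_flip (g : W G) (k : L G) : SepA 1 (g * sr k) k ↔ ¬ SepA 0 g k := by
  unfold SepA
  rw [ss, des_mul_self]
  by_cases hp : par k = 0
  · rw [if_pos hp, if_neg ((z10 _).2 hp), not_not, not_and_or, not_not, not_not]
  · rw [if_neg hp, if_pos ((z01 _).1 hp), not_or]

theorem sepA_or (g : W G) {k k' : L G} (h : Edge 1 k k') : SepA 0 g k ∨ SepA 1 g k' := by
  by_contra hn
  obtain ⟨h0, h1⟩ := not_or.1 hn
  obtain ⟨he1, he2⟩ := h
  rcases tri g with rfl | ⟨d, hd⟩ | ⟨x, hx⟩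
  · exact h0 (sep_one _ _)
  · rw [bad_single hd] at h0 h1
    rcases h0 with rfl | ⟨hp, rfl | rfl⟩
    · rcases h1 with rfl | ⟨hp, h1⟩
      · exact he1 rfl
      · exact h1.elim (he2 hp).1 (he2 hp).2
    · rcases h1 with rfl | ⟨hp', -⟩
      · exact (he2 fun e => (par_succ _ _).1 e ((z01 _).1 hp)).2 (by ring)
      · exact hp' ((z01 _).1 hp)
    · rcases h1 with rfl | ⟨hp', -⟩
      · exact (he2 fun e => (par_pred _ _).1 e ((z01 _).1 hp)).1 (by ring)
      · exact hp' ((z01 _).1 hp)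
  · rw [bad_pair hx] at h0 h1
    have hb := not_both (g * sr x * sr (x + 1)) x
    rcases h0 with ⟨rfl, h0⟩ | ⟨rfl, h0⟩ <;> rcases h1 with ⟨rfl, h1⟩ | ⟨h1', h1⟩
    · exact he1 rfl
    · by_cases hp : par k = 1
      · exact hb ⟨h1.resolve_left (not_not.2 hp), h0.resolve_left ((z01 _).2 hp)⟩
      · exact (he2 hp).1 h1'
    · by_cases hp : par k' = 1
      · exact (he2 fun e => (par_succ _ _).1 e hp).2 (by ring)
      · exact hb ⟨h0.resolve_left (not_not.2 ((z10 _).1 hp)), h1.resolve_left hp⟩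
    · exact he1 h1'.symm

theorem exists_sepA : ∃ κ > 0, ∀ (b : ZMod 2) (g : W G) (k : L G) (Z Y : V), Hyp Z → Ch G Z →
    SepA b g k → Arc b k Y → κ * Y.1.re * (lin g⁻¹ Z).1.re ≤ (br Y (lin g⁻¹ Z)).re := by
  obtain ⟨T, hT⟩ := ch_bdd (G := G)
  obtain ⟨η, hη, hfar⟩ := far_gap (G := G)
  obtain ⟨η', hη', hq⟩ := arcQ_gap (G := G)
  obtain ⟨κ, hκ, hreg⟩ := sep_reg (G := G)
  obtain ⟨C, hC, hfst⟩ := exists_refl_fst_le (G := G)
  have hT1 : 1 ≤ T := hyp_oo.one_le.trans (hT _ hyp_oo Grp.ch_oo)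
  have hs := s0_pos (G := G)
  set κ1 : ℝ := 1 / (2 * T ^ 2) with hκ1
  set κ2 : ℝ := η ^ 2 / (2 * (1 / s0 G) ^ 2) with hκ2
  set κ3 : ℝ := η' ^ 2 / (2 * (1 / s0 G) ^ 2) with hκ3
  set κ4 : ℝ := κ / C ^ 2 with hκ4
  refine ⟨min (min κ1 κ2) (min κ3 κ4), by positivity, fun b g k Z Y hZ hCh hS hY => ?_⟩
  have hZ' : Hyp (lin g⁻¹ Z) := (iso_lin _).hyp hZ
  obtain ⟨hN, hYf, hY0, hYn⟩ := arc_iff.1 hY
  have hYp : 0 < Y.1.re := hN.2.1
  have hZp : 0 < (lin g⁻¹ Z).1.re := hZ'.2.1
  have mono : ∀ κ', min (min κ1 κ2) (min κ3 κ4) ≤ κ' →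
      κ' * Y.1.re * (lin g⁻¹ Z).1.re ≤ (br Y (lin g⁻¹ Z)).re →
      min (min κ1 κ2) (min κ3 κ4) * Y.1.re * (lin g⁻¹ Z).1.re ≤ (br Y (lin g⁻¹ Z)).re := by
    intro κ' h1 h2
    refine le_trans ?_ h2
    gcongr
  have hfar' : ∀ d, Des g d → Far k d →
      κ2 * Y.1.re * (lin g⁻¹ Z).1.re ≤ (br Y (lin g⁻¹ Z)).re := by
    intro d hd hf
    have := sep_of_side hZ'.fut hN (isRe_wn d) hη ((tits hZ.fut hCh).1 hd) (hfar k d hf Y hYf hY0)
    rwa [ArcAux.norm_wn] at this
  unfold SepA at hS
  split_ifs at hS with hp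
  · by_cases h1 : g = 1
    · refine mono κ1 ((min_le_left _ _).trans (min_le_left _ _)) ?_
      have h2 := hZ'.le_br hYf
      rw [br_comm] at h2
      refine le_trans ?_ h2
      have h3 : (lin g⁻¹ Z).1.re ≤ T := by
        subst h1
        simpa using hT Z hZ hCh
      rw [hκ1, le_div_iff₀ (by positivity)]
      have h4 : (lin g⁻¹ Z).1.re ^ 2 / T ^ 2 ≤ 1 := by
        rw [div_le_one (by positivity)]
        gcongr
      calc 1 / (2 * T ^ 2) * Y.1.re * (lin g⁻¹ Z).1.re * (2 * (lin g⁻¹ Z).1.re)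
          = Y.1.re * ((lin g⁻¹ Z).1.re ^ 2 / T ^ 2) := by field_simp
        _ ≤ Y.1.re * 1 := by gcongr
        _ = _ := mul_one _
    · refine mono κ2 ((min_le_left _ _).trans (min_le_right _ _)) ?_
      obtain ⟨d, hd⟩ : ∃ d, Des g d := by
        by_contra hn
        exact h1 (no_des_iff.1 fun m hm => hn ⟨m, hm⟩)
      rcases Grp.cases_letter k d with e | e | e | e
      · exact absurd (e ▸ hd) hS.1
      · refine hfar' (k + 2) ?_ (far_add_two k)
        by_contra hn
        exact hS.2 (Or.inl ⟨e ▸ hd, hn⟩)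
      · refine hfar' (k - 2) ?_ ?_
        · by_contra hn
          exact hS.2 (Or.inr ⟨e ▸ hd, hn⟩)
        · have := (far_add_two (k - 2)).symm
          rwa [sub_add_cancel] at this
      · exact hfar' d hd e
  · by_cases hd : Des g k
    · refine mono κ4 ((min_le_right _ _).trans (min_le_right _ _)) ?_
      have hsp : Sp (g * sr k) k := hS.resolve_left (not_not.2 hd)
      have hnd : ¬ Des (g * sr k) k := fun h => (des_mul_self g k).1 h hd
      have e : lin (g * sr k)⁻¹ Z = mir k (lin g⁻¹ Z) := by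
        rw [mul_inv_rev, sr_inv, lin_mul, lin_sr]
      have hZf : Fut (lin (g * sr k)⁻¹ Z) := ((iso_lin _).hyp hZ).fut
      obtain ⟨m', he, hm'⟩ := hY.exists_next
      have key : κ * (mir k Y).1.re * (lin (g * sr k)⁻¹ Z).1.re ≤
          (br (mir k Y) (lin (g * sr k)⁻¹ Z)).re := by
        rcases hsp with ⟨h1, h2⟩ | ⟨h1, h2⟩
        · refine hreg b (k + 1) m' ⟨(he.2 hp).1.symm, fun h => absurd ((par_succ _ _).2 hp) h⟩ _ _
            ⟨hZf, (tits hZ.fut hCh).1 h1, fun _ => ⟨?_, ?_⟩⟩ hm'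
          · rw [show k + 1 + 1 = k + 2 by ring]
            exact (tits hZ.fut hCh).2 h2
          · rw [add_sub_cancel_right]
            exact (tits hZ.fut hCh).2 hnd
        · refine hreg b (k - 1) m' ⟨(he.2 hp).2.symm, fun h => absurd ((par_pred _ _).2 hp) h⟩ _ _
            ⟨hZf, (tits hZ.fut hCh).1 h1, fun _ => ⟨?_, ?_⟩⟩ hm'
          · rw [sub_add_cancel]
            exact (tits hZ.fut hCh).2 hnd
          · rw [show k - 1 - 1 = k - 2 by ring]
            exact (tits hZ.fut hCh).2 h2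
      rw [e, (iso_refl k).br_eq] at key
      refine le_trans ?_ key
      have h1 := hfst k _ ((iso_refl k).fut _ hYf)
      have h2 := hfst k _ ((iso_refl k).fut _ hZ'.fut)
      rw [refl_refl] at h1 h2
      calc κ4 * Y.1.re * (lin g⁻¹ Z).1.re
          ≤ κ4 * (C * (mir k Y).1.re) * (C * (mir k (lin g⁻¹ Z)).1.re) := by
            have : 0 ≤ C * (mir k Y).1.re := hYp.le.trans h1
            gcongr
        _ = _ := by rw [hκ4]; field_simp
    · refine mono κ3 ((min_le_right _ _).trans (min_le_left _ _)) ?_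
      have := sep_of_side (n := -wn k) hZ'.fut hN (isRe_wn k).neg hη'
        (by rw [ArcAux.side_neg]; linarith [(tits hZ.fut hCh).2 hd])
        (by rw [ArcAux.side_neg]; linarith [hq b k Y hp hY])
      rwa [norm_neg, ArcAux.norm_wn] at this

theorem exists_sepA_not : ∃ κ > 0, ∀ (g : W G) (k k' : L G) (Z Y : V), Hyp Z → Ch G Z →
    ¬ SepA 0 g k → Edge 1 k k' → Arc 1 k' Y →
      κ * Y.1.re * (lin g⁻¹ Z).1.re ≤ (br Y (lin g⁻¹ Z)).re := by
  obtain ⟨κ, hκ, h⟩ := exists_sepA (G := G)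
  exact ⟨κ, hκ, fun g k k' Z Y hZ hC hn he hY =>
    h 1 g k' Z Y hZ hC ((sepA_or g he).resolve_left hn) hY⟩

/-- The relations satisfied by the masses of the arcs. -/
def Masses (b : ZMod 2) (l : W G → L G → V) (T : V) : Prop := ∀ g : W G, ∑ k, l g k = T ∧ ∀ k,
  (par k = b → l g k + l (g * sr k) k = T ∧ l (g * sr (k + 1)) k = l g k ∧
    l (g * sr (k - 1)) k = l g k) ∧
  (par k ≠ b → l g k + l (g * sr k) k + l g (k + 1) + l g (k - 1) = T)

namespace Loc

open Classical

variable {b : ZMod 2} {g h : W G} {d k x : L G} {l m : W G → L G → V} {T LL MM : V}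

/-- Both arcs with the same letter are separated. -/
def Cu (g : W G) (k : L G) : Prop := ¬ Des g k ∧ ¬ Sp g k

theorem sep_of_par (hp : par k = b) : SepA b g k ↔ Cu g k := by
  rw [SepA, if_pos hp, Cu]

theorem sep_both (g : W G) (k : L G) : SepA 0 g k ∧ SepA 1 g k ↔ Cu g k := by
  by_cases hp : par k = 0
  · rw [sep_of_par hp, SepA, if_neg ((z10 _).2 hp)]
    exact ⟨fun h => h.1, fun h => ⟨h, Or.inl h.1⟩⟩
  · rw [sep_of_par ((z01 _).1 hp), SepA, if_neg hp]
    exact ⟨fun h => h.2, fun h => ⟨Or.inl h.1, h⟩⟩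

/-- Total separated mass. -/
noncomputable def AA (b : ZMod 2) (l : W G → L G → V) (g : W G) : V :=
  ∑ k, if SepA b g k then l g k else 0

noncomputable def Uf (l m : W G → L G → V) (k : L G) (h : W G) : ℂ :=
  if Cu h k then br (l h k) (m h k) else 0

noncomputable def cc (l m : W G → L G → V) (j : L G) (h : W G) : ℂ :=
  if par j = 0 then br (l h j) (m h (j + 1)) else br (l h (j + 1)) (m h j)

noncomputable def Cf (l m : W G → L G → V) (j : L G) (h : W G) : ℂ :=
  if Cu h j ∧ Cu h (j + 1) then cc l m j h else 0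

noncomputable def C1 (l m : W G → L G → V) (j : L G) (h : W G) : ℂ :=
  if Des h (j - 1) then Cf l m j h else 0

noncomputable def C2 (l m : W G → L G → V) (j : L G) (h : W G) : ℂ :=
  if Des h (j + 2) then Cf l m j h else 0

noncomputable def C3 (l m : W G → L G → V) (j : L G) (h : W G) : ℂ :=
  if ¬ Des h (j - 1) ∧ ¬ Des h (j + 2) then Cf l m j h else 0

theorem Cf_eq (j : L G) (h : W G) : Cf l m j h = C1 l m j h + C2 l m j h + C3 l m j h := by
  have := not_both h j
  unfold C1 C2 C3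
  by_cases h1 : Des h (j - 1) <;> by_cases h2 : Des h (j + 2) <;> simp_all

theorem br_AA (g : W G) : br (AA 0 l g) (AA 1 m g) =
    ∑ k, ∑ k', if SepA 0 g k ∧ SepA 1 g k' then br (l g k) (m g k') else 0 := by
  rw [← brL_apply, AA, AA, map_sum, map_sum]
  simp only [sum_apply]
  rw [Finset.sum_comm]
  refine Finset.sum_congr rfl fun k _ => Finset.sum_congr rfl fun k' _ => ?_
  by_cases h0 : SepA 0 g k <;> by_cases h1 : SepA 1 g k' <;>
    simp only [h0, h1, if_true, if_false, map_zero, brL_apply, and_self, and_false, false_and,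
      zero_apply]

theorem split_edge (k k' : L G) (z : ℂ) : z = (if Edge 1 k k' then z else 0) +
    (if k' = k then z else 0) + (if k' = k + 1 then (if par k = 0 then z else 0) else 0) +
    (if k' = k - 1 then (if par k = 0 then z else 0) else 0) := by
  have h1 : k + 1 ≠ k := fun h => n1 (G := G) (by linear_combination h)
  have h2 : k - 1 ≠ k := fun h => n1 (G := G) (by linear_combination -h)
  have h3 : k - 1 ≠ k + 1 := fun h => n2 (G := G) (by linear_combination -h)
  simp only [Edge, z10]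
  by_cases e0 : k' = k
  · subst e0
    simp [h1.symm, h2.symm]
  by_cases e1 : k' = k + 1
  · subst e1
    by_cases hp : par k = 0 <;> simp [hp, h1, h1.symm, h3.symm]
  by_cases e2 : k' = k - 1
  · subst e2
    by_cases hp : par k = 0 <;> simp [hp, h2, h2.symm, h3]
  · simp [e0, e1, e2, Ne.symm e0]

theorem step_one (g : W G) : br (AA 0 l g) (AA 1 m g) =
    (∑ k, ∑ k', if Edge 1 k k' ∧ SepA 0 g k ∧ SepA 1 g k' then br (l g k) (m g k') else 0) +
      ∑ k, Uf l m k g + ∑ j, Cf l m j g := by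
  have h1 : ∀ k : L G, (∑ k', if SepA 0 g k ∧ SepA 1 g k' then br (l g k) (m g k') else 0) =
      (∑ k', if Edge 1 k k' ∧ SepA 0 g k ∧ SepA 1 g k' then br (l g k) (m g k') else 0) +
      Uf l m k g + (if par k = 0 then Cf l m k g else 0) +
      (if par k = 0 then Cf l m (k - 1) g else 0) := by
    intro k
    rw [Finset.sum_congr rfl fun k' _ => split_edge k k' _]
    simp only [Finset.sum_add_distrib, Finset.sum_ite_eq', Finset.mem_univ, if_true]
    congr 1
    · congr 1
      · congr 1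
        · exact Finset.sum_congr rfl fun k' _ => by simp only [ite_and]
        · simp only [Uf, sep_both]
      · split_ifs with hp h
        · rw [sep_of_par hp, sep_of_par ((par_succ k 1).2 ((z10 _).2 hp))] at h
          rw [Cf, if_pos h, cc, if_pos hp]
        · rw [sep_of_par hp, sep_of_par ((par_succ k 1).2 ((z10 _).2 hp))] at h
          rw [Cf, if_neg h]
        · rfl
    · split_ifs with hp h
      · rw [sep_of_par hp, sep_of_par ((par_pred k 1).2 ((z10 _).2 hp))] at h
        rw [Cf, sub_add_cancel, if_pos h.symm, cc, if_neg fun e => (par_pred k 0).1 e hp,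
          sub_add_cancel]
      · rw [sep_of_par hp, sep_of_par ((par_pred k 1).2 ((z10 _).2 hp))] at h
        rw [Cf, sub_add_cancel, if_neg fun e => h e.symm]
      · rfl
  rw [br_AA, Finset.sum_congr rfl fun k _ => h1 k]
  simp only [Finset.sum_add_distrib]
  rw [add_assoc, ← Equiv.sum_comp (Equiv.addRight (1 : L G))
    (fun k => if par k = 0 then Cf l m (k - 1) g else 0),
    ← Finset.sum_add_distrib (f := fun k : L G => if par k = 0 then Cf l m k g else 0)]
  congr 1
  refine Finset.sum_congr rfl fun j _ => ?_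
  simp only [Equiv.coe_addRight, add_sub_cancel_right, par_succ]
  by_cases hp : par j = 0 <;> simp [hp]

theorem AA_eq (hl : Masses b l T) (g : W G) :
    AA b l g = T - ∑ k, if ¬ SepA b g k then l g k else 0 := by
  rw [← (hl g).1, ← Finset.sum_sub_distrib, AA]
  refine Finset.sum_congr rfl fun k _ => ?_
  by_cases h : SepA b g k <;> simp [h]

theorem AA_one (hl : Masses b l T) : AA b l 1 = T := by
  rw [AA_eq hl]
  simp [sep_one]

theorem AA_single (hl : Masses b l T) (hd : ∀ k, Des g k ↔ k = d) :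
    AA b l g = l (g * sr d) d := by
  have h1 : d + 1 ≠ d := fun h => n1 (G := G) (by linear_combination h)
  have h2 : d - 1 ≠ d := fun h => n1 (G := G) (by linear_combination -h)
  have h3 : d - 1 ≠ d + 1 := fun h => n2 (G := G) (by linear_combination -h)
  rw [AA_eq hl]
  simp only [bad_single hd]
  by_cases hp : par d = b
  · rw [← (((hl g).2 d).1 hp).1]
    simp [hp]
  · have : ∀ k : L G, (if k = d ∨ (par d ≠ b ∧ (k = d + 1 ∨ k = d - 1)) then l g k else 0) =
        (if k = d then l g k else 0) + (if k = d + 1 then l g k else 0) +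
          (if k = d - 1 then l g k else 0) := by
      intro k
      by_cases e0 : k = d
      · subst e0
        simp [h1.symm, h2.symm]
      by_cases e1 : k = d + 1
      · subst e1
        simp [hp, h1, h3.symm]
      by_cases e2 : k = d - 1
      · subst e2
        simp [hp, h2, h3]
      · simp [e0, e1, e2]
    rw [Finset.sum_congr rfl fun k _ => this k, ← ((hl g).2 d).2 hp]
    simp only [Finset.sum_add_distrib, Finset.sum_ite_eq', Finset.mem_univ, if_true]
    abel

theorem AA_pair (hl : Masses b l T) (hx : ∀ k, Des g k ↔ k = x ∨ k = x + 1) :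
    AA b l g = T - (if par x = b ∨ Des (g * sr x * sr (x + 1)) (x + 2) then l g x else 0) -
      (if par x ≠ b ∨ Des (g * sr x * sr (x + 1)) (x - 1) then l g (x + 1) else 0) := by
  have h1 : x ≠ x + 1 := fun h => n1 (G := G) (by linear_combination -h)
  rw [AA_eq hl, Fintype.sum_eq_add x (x + 1) h1, sub_sub]
  · simp only [bad_pair hx, true_and, h1, h1.symm, false_and, or_false, false_or]
  · intro k hk
    rw [if_neg]
    rw [bad_pair hx]
    rintro (h | h)
    · exact hk.1 h.1
    · exact hk.2 h.1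

theorem Uf_zero (hk : ¬ Des g k) : Uf l m k (g * sr k) = 0 :=
  if_neg fun h => h.1 ((des_mul_self _ _).2 hk)

theorem C1_zero (hk : ¬ (Des g k ∧ Des g (k - 1))) : C1 l m k (g * sr k) = 0 := by
  unfold C1 Cf
  split_ifs with h1 h2
  · exact absurd ⟨not_not.1 fun e => h2.1.1 ((des_mul_self _ _).2 e), (des_mul_pred _ _).1 h1⟩ hk
  · rfl
  · rfl

theorem C2_zero (hk : ¬ (Des g (k + 1) ∧ Des g (k + 2))) : C2 l m k (g * sr (k + 1)) = 0 := by
  unfold C2 Cf
  have h3 := des_mul_succ g (k + 1)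
  rw [show k + 1 + 1 = k + 2 by ring] at h3
  split_ifs with h1 h2
  · exact absurd ⟨not_not.1 fun e => h2.2.1 ((des_mul_self _ _).2 e), h3.1 h1⟩ hk
  · rfl
  · rfl

theorem C3_zero (hk : ¬ (Des g k ∧ Des g (k + 1))) : C3 l m k (g * sr k * sr (k + 1)) = 0 := by
  unfold C3 Cf
  split_ifs with h1 h2
  · refine absurd ⟨not_not.1 fun e => h2.1.1 ?_, not_not.1 fun e => h2.2.1 ?_⟩ hk
    · rw [← sc]
      refine (des_mul_self _ _).2 fun e' => e ?_
      have := des_mul_pred g (k + 1)
      rw [add_sub_cancel_right] at this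
      exact this.1 e'
    · exact (des_mul_self _ _).2 fun e' => e ((des_mul_succ _ _).1 e')
  · rfl
  · rfl

/-- The right hand side of the pointwise identity. -/
noncomputable def RR (l m : W G → L G → V) (g : W G) : ℂ :=
  ∑ k, Uf l m k (g * sr k) + ∑ j, C1 l m j (g * sr j) + ∑ j, C2 l m j (g * sr (j + 1)) +
    ∑ j, C3 l m j (g * sr j * sr (j + 1))

theorem RR_one : RR l m 1 = 0 := by
  have h := (no_des_iff (G := G)).2 rfl
  rw [RR, Finset.sum_eq_zero fun k _ => Uf_zero (h k),
    Finset.sum_eq_zero fun k _ => C1_zero fun e => h _ e.1,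
    Finset.sum_eq_zero fun k _ => C2_zero fun e => h _ e.1,
    Finset.sum_eq_zero fun k _ => C3_zero fun e => h _ e.1]
  simp

theorem RR_single (hd : ∀ k, Des g k ↔ k = d) :
    RR l m g = br (l (g * sr d) d) (m (g * sr d) d) := by
  rw [RR, Fintype.sum_eq_single d fun k hk => Uf_zero fun e => hk ((hd k).1 e),
    Finset.sum_eq_zero fun k _ => C1_zero fun e => n1 (G := G) (by
      linear_combination (hd _).1 e.1 - (hd _).1 e.2),
    Finset.sum_eq_zero fun k _ => C2_zero fun e => n1 (G := G) (by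
      linear_combination (hd _).1 e.2 - (hd _).1 e.1),
    Finset.sum_eq_zero fun k _ => C3_zero fun e => n1 (G := G) (by
      linear_combination (hd _).1 e.2 - (hd _).1 e.1),
    Uf, if_pos ⟨fun e => (des_mul_self _ _).1 e ((hd d).2 rfl), not_sp_single hd⟩]
  simp

theorem adj_pair (hx : ∀ k, Des g k ↔ k = x ∨ k = x + 1) (h1 : Des g k) (h2 : Des g (k + 1)) :
    k = x := by
  rcases (hx _).1 h1 with e | e
  · exact e
  · rcases (hx _).1 h2 with e' | e'
    · exact absurd (by linear_combination e' - e) (n2 (G := G))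
    · linear_combination e'

theorem RR_pair (hx : ∀ k, Des g k ↔ k = x ∨ k = x + 1) : RR l m g =
    (if Des (g * sr x * sr (x + 1)) (x + 2) then
      br (l (g * sr x) x) (m (g * sr x) x) + cc l m (x - 1) (g * sr x) else 0) +
    (if Des (g * sr x * sr (x + 1)) (x - 1) then
      br (l (g * sr (x + 1)) (x + 1)) (m (g * sr (x + 1)) (x + 1)) +
        cc l m (x + 1) (g * sr (x + 1)) else 0) +
    (if ¬ Des (g * sr x * sr (x + 1)) (x - 1) ∧ ¬ Des (g * sr x * sr (x + 1)) (x + 2) then
      cc l m x (g * sr x * sr (x + 1)) else 0) := by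
  have h1 : x ≠ x + 1 := fun h => n1 (G := G) (by linear_combination -h)
  have dx : Des g x := (hx _).2 (Or.inl rfl)
  have dy : Des g (x + 1) := (hx _).2 (Or.inr rfl)
  have a1 : ¬ Des (g * sr x) x := fun e => (des_mul_self _ _).1 e dx
  have a2 : Des (g * sr x) (x + 1) := (des_mul_succ _ _).2 dy
  have b1 : ¬ Des (g * sr (x + 1)) (x + 1) := fun e => (des_mul_self _ _).1 e dy
  have b2 : Des (g * sr (x + 1)) x := by
    have := des_mul_pred g (x + 1)
    rw [add_sub_cancel_right] at this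
    exact this.2 dx
  have c1 : ¬ Des (g * sr x * sr (x + 1)) (x + 1) := fun e => (des_mul_self _ _).1 e a2
  have c2 : ¬ Des (g * sr x * sr (x + 1)) x := by
    rw [← sc]
    exact fun e => (des_mul_self _ _).1 e b2
  have cuA : Cu (g * sr x) x ↔ Des (g * sr x * sr (x + 1)) (x + 2) := by
    simp [Cu, a1, sp_left hx]
  have cuB : Cu (g * sr (x + 1)) (x + 1) ↔ Des (g * sr x * sr (x + 1)) (x - 1) := by
    simp [Cu, b1, sp_right hx]
  have cuA' : Cu (g * sr x) (x - 1) := by
    refine ⟨by simpa [show x + 1 - 2 = x - 1 by ring] using nd2' a2, ?_⟩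
    rintro (⟨h, -⟩ | ⟨h, -⟩)
    · exact a1 (by rwa [sub_add_cancel] at h)
    · exact nd3' a2 (by rwa [show x + 1 - 3 = x - 1 - 1 by ring])
  have cuB' : Cu (g * sr (x + 1)) (x + 1 + 1) := by
    refine ⟨by simpa [show x + 1 + 1 = x + 2 by ring] using nd2 b2, ?_⟩
    rintro (⟨h, -⟩ | ⟨h, -⟩)
    · exact nd3 b2 (by rwa [show x + 3 = x + 1 + 1 + 1 by ring])
    · exact b1 (by rwa [add_sub_cancel_right] at h)
  have cuC : ¬ Des (g * sr x * sr (x + 1)) (x - 1) ∧ ¬ Des (g * sr x * sr (x + 1)) (x + 2) →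
      Cu (g * sr x * sr (x + 1)) x ∧ Cu (g * sr x * sr (x + 1)) (x + 1) := by
    rintro ⟨h2, h3⟩
    refine ⟨⟨c2, ?_⟩, ⟨c1, ?_⟩⟩
    · rintro (⟨h, -⟩ | ⟨h, -⟩)
      · exact c1 h
      · exact h2 h
    · rintro (⟨h, -⟩ | ⟨h, -⟩)
      · exact h3 (by rwa [show x + 2 = x + 1 + 1 by ring])
      · exact c2 (by rwa [add_sub_cancel_right] at h)
  rw [RR, Fintype.sum_eq_add x (x + 1) h1 fun k hk => Uf_zero fun e => by
      rcases (hx k).1 e with e' | e'
      exacts [hk.1 e', hk.2 e'],
    Fintype.sum_eq_single (x + 1) fun k hk => C1_zero fun e => hk (by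
      linear_combination adj_pair hx e.2 (by simpa using e.1)),
    Fintype.sum_eq_single (x - 1) fun k hk => C2_zero fun e => hk (by
      linear_combination adj_pair hx e.1 (by rw [show k + 1 + 1 = k + 2 by ring]; exact e.2)),
    Fintype.sum_eq_single x fun k hk => C3_zero fun e => hk (adj_pair hx e.1 e.2)]
  simp only [Uf, C1, C2, C3, Cf, add_sub_cancel_right, sub_add_cancel,
    show x - 1 + 2 = x + 1 by ring, a2, b2, if_true, cuA, cuB, cuA', cuB', true_and, and_true]
  by_cases h2 : Des (g * sr x * sr (x + 1)) (x - 1) <;>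
    by_cases h3 : Des (g * sr x * sr (x + 1)) (x + 2)
  · exact absurd ⟨h2, h3⟩ (not_both _ _)
  · simp [h2, h3]
  · simp [h2, h3]
  · simp [h2, h3, cuC ⟨h2, h3⟩]

omit hG in
theorem vals_left (hl : Masses b l T) (g : W G) (hp : par x = b) :
    l (g * sr x) x = T - l g x ∧ l (g * sr x * sr (x + 1)) x = T - l g x ∧
    l (g * sr (x + 1)) (x + 1) = T - l g (x + 1) - l g (x + 1 + 1) - l g x ∧
    l (g * sr (x + 1)) (x + 1 + 1) = l g (x + 1 + 1) := by
  have hq : par (x + 1) ≠ b := fun e => (par_succ _ _).1 e hp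
  have h1 : l (g * sr x) x = T - l g x := by
    rw [← (((hl g).2 x).1 hp).1]
    abel
  refine ⟨h1, ?_, ?_, ?_⟩
  · rw [(((hl _).2 x).1 hp).2.1, h1]
  · rw [← ((hl g).2 (x + 1)).2 hq, add_sub_cancel_right]
    abel
  · have := (((hl g).2 (x + 1 + 1)).1 ((par_succ _ _).2 hq)).2.2
    rwa [add_sub_cancel_right] at this

omit hG in
theorem vals_right (hl : Masses b l T) (g : W G) (hp : par x ≠ b) :
    l (g * sr (x + 1)) (x + 1) = T - l g (x + 1) ∧
    l (g * sr x * sr (x + 1)) (x + 1) = T - l g (x + 1) ∧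
    l (g * sr x) x = T - l g x - l g (x + 1) - l g (x - 1) ∧
    l (g * sr x) (x - 1) = l g (x - 1) := by
  have hq : par (x + 1) = b := (par_succ _ _).2 hp
  have h1 : l (g * sr (x + 1)) (x + 1) = T - l g (x + 1) := by
    rw [← (((hl g).2 (x + 1)).1 hq).1]
    abel
  refine ⟨h1, ?_, ?_, ?_⟩
  · have := (((hl (g * sr (x + 1))).2 (x + 1)).1 hq).2.2
    rw [add_sub_cancel_right, sc] at this
    rw [this, h1]
  · rw [← ((hl g).2 x).2 hp]
    abel
  · have := (((hl g).2 (x - 1)).1 ((par_pred _ _).2 hp)).2.1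
    rwa [sub_add_cancel] at this

theorem step_two (hl : Masses 0 l LL) (hm : Masses 1 m MM) (g : W G) :
    br (AA 0 l g) (AA 1 m g) = (if g = 1 then br LL MM else 0) + RR l m g := by
  by_cases h1 : g = 1
  · subst h1
    rw [AA_one hl, AA_one hm, RR_one, if_pos rfl, add_zero]
  rw [if_neg h1, zero_add]
  rcases tri g with h | ⟨d, hd⟩ | ⟨x, hx⟩
  · exact absurd h h1
  · rw [AA_single hl hd, AA_single hm hd, RR_single hd]
  · rw [AA_pair hl hx, AA_pair hm hx, RR_pair hx]
    by_cases hp : par x = 0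
    · have hq : par x ≠ 1 := (z10 _).2 hp
      have hs : par (x + 1) ≠ 0 := fun e => (par_succ _ _).1 e hp
      have ht : par (x - 1) ≠ 0 := fun e => (par_pred _ _).1 e hp
      obtain ⟨l1, l2, l3, l4⟩ := vals_left hl g hp
      obtain ⟨m1, m2, m3, m4⟩ := vals_right hm g hq
      simp only [cc, if_pos hp, if_neg hs, if_neg ht, sub_add_cancel, l1, l2, l3, l4, m1, m2, m3,
        m4]
      by_cases h2 : Des (g * sr x * sr (x + 1)) (x - 1) <;>
        by_cases h3 : Des (g * sr x * sr (x + 1)) (x + 2)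
      · exact absurd ⟨h2, h3⟩ (not_both _ _)
      all_goals
        simp [h2, h3, hp]
        try ring
    · have hq : par x = 1 := (z01 _).1 hp
      have hs : par (x + 1) = 0 := (par_succ _ _).2 hp
      have ht : par (x - 1) = 0 := (par_pred _ _).2 hp
      obtain ⟨l1, l2, l3, l4⟩ := vals_right hl g hp
      obtain ⟨m1, m2, m3, m4⟩ := vals_left hm g hq
      simp only [cc, if_neg hp, if_pos hs, if_pos ht, sub_add_cancel, l1, l2, l3, l4, m1, m2, m3,
        m4]
      by_cases h2 : Des (g * sr x * sr (x + 1)) (x - 1) <;>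
        by_cases h3 : Des (g * sr x * sr (x + 1)) (x + 2)
      · exact absurd ⟨h2, h3⟩ (not_both _ _)
      all_goals
        simp [h2, h3, hq]
        try ring

omit hG in
theorem hasSum_shift {f : W G → ℂ} (hf : Summable f) (t : W G) :
    HasSum (fun g => f (g * t)) (∑' g, f g) :=
  (Equiv.mulRight t).hasSum_iff.2 hf.hasSum

omit hG in
theorem summable_ite {f : W G → ℂ} (hf : Summable f) (p : W G → Prop) [DecidablePred p] :
    Summable fun g => if p g then f g else 0 := by
  refine (hf.indicator {g | p g}).congr fun g => ?_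
  by_cases h : p g
  · rw [if_pos h, indicator_of_mem (show g ∈ {g | p g} from h)]
  · rw [if_neg h, indicator_of_notMem (show g ∉ {g | p g} from h)]

end Loc

open Classical in
theorem hasSum_loc {l m : W G → L G → V} {LL MM : V} (hl : Masses 0 l LL) (hm : Masses 1 m MM)
    (hs : ∀ k k', Summable fun g : W G =>
      if SepA 0 g k ∧ SepA 1 g k' then br (l g k) (m g k') else 0) :
    HasSum (fun g : W G => ∑ k, ∑ k',
      if Edge 1 k k' ∧ SepA 0 g k ∧ SepA 1 g k' then br (l g k) (m g k') else 0) (br LL MM) := by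
  have hU : ∀ k, Summable (Uf l m k) := fun k =>
    (hs k k).congr fun g => by simp only [Uf, sep_both]
  have hC : ∀ j, Summable (Cf l m j) := by
    intro j
    by_cases hp : par j = 0
    · refine (hs j (j + 1)).congr fun g => ?_
      simp only [Cf, cc, if_pos hp, sep_of_par hp, sep_of_par ((par_succ j 1).2 ((z10 _).2 hp))]
    · refine (hs (j + 1) j).congr fun g => ?_
      simp only [Cf, cc, if_neg hp, sep_of_par ((z01 _).1 hp), sep_of_par ((par_succ j 0).2 hp),
        and_comm]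
  have h1 : ∀ j, Summable (C1 l m j) := fun j => summable_ite (hC j) _
  have h2 : ∀ j, Summable (C2 l m j) := fun j => summable_ite (hC j) _
  have h3 : ∀ j, Summable (C3 l m j) := fun j =>
    summable_ite (hC j) fun h => ¬ Des h (j - 1) ∧ ¬ Des h (j + 2)
  have hC' : ∀ j, HasSum (Cf l m j) (∑' g, C1 l m j g + ∑' g, C2 l m j g + ∑' g, C3 l m j g) := by
    intro j
    have := ((h1 j).hasSum.add (h2 j).hasSum).add (h3 j).hasSum
    simpa only [← Cf_eq] using this
  have hR : HasSum (RR l m) (∑ k, ∑' g, Uf l m k g + ∑ j, ∑' g, C1 l m j g +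
      ∑ j, ∑' g, C2 l m j g + ∑ j, ∑' g, C3 l m j g) := by
    refine (((hasSum_sum fun k _ => hasSum_shift (hU k) (sr k)).add
      (hasSum_sum fun k _ => hasSum_shift (h1 k) (sr k))).add
      (hasSum_sum fun k _ => hasSum_shift (h2 k) (sr (k + 1)))).add
      (hasSum_sum fun k _ => ?_)
    simpa only [mul_assoc] using hasSum_shift (h3 k) (sr k * sr (k + 1))
  have key := (((hasSum_ite_eq (1 : W G) (br LL MM)).add hR).sub
    (hasSum_sum (s := Finset.univ) fun k _ => (hU k).hasSum)).sub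
    (hasSum_sum (s := Finset.univ) fun j _ => hC' j)
  have e1 : ∀ g : W G, (if g = 1 then br LL MM else 0) + RR l m g - ∑ i, Uf l m i g -
      ∑ i, Cf l m i g = ∑ k, ∑ k',
      if Edge 1 k k' ∧ SepA 0 g k ∧ SepA 1 g k' then br (l g k) (m g k') else 0 := by
    intro g
    rw [← step_two hl hm, step_one]
    ring
  simp only [e1, Finset.sum_add_distrib] at key
  have e2 : ∀ a u c1 c2 c3 : ℂ, a + (u + c1 + c2 + c3) - u - (c1 + c2 + c3) = a := by
    intros
    ring
  rwa [e2] at key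

end Pool.Agent.Lib.MP_de7bb2_an
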