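import Pool.Agent.Lib.MP_de7bb2_an.H20Fam

/-! Small zeros of the determinant near `s = 0`. TASK LOW. -/

namespace Pool.Agent.Lib.MP_de7bb2_an

open Metric Set Complex Filter Topology

variable {G : ℕ} [hG : Fact (2 ≤ G)]

namespace Low

omit hG in
/-- The pairing of two almost constant functions does not vanish. -/
theorem pair_ne {S : Surface G} (P : Part S) {φ ψ : ℂ → ℂ} {c c' : ℂ}
    (hφ : ContinuousOn φ (ball 0 1)) (hψ : ContinuousOn ψ (ball 0 1)) (hc : c ≠ 0) (hc' : c' ≠ 0)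
    (h1 : ∀ z : ℂ, ‖z‖ ≤ P.r → ‖φ z - c‖ ≤ 1 / 4 * ‖c‖)
    (h2 : ∀ z : ℂ, ‖z‖ ≤ P.r → ‖ψ z - c'‖ ≤ 1 / 4 * ‖c'‖) :
    hI (fun z => P.χ z * (φ z * ψ z)) ≠ 0 := by
  intro h0
  have hs := Kth.sub_ball P.r_lt
  have hn : 0 < ‖c‖ := norm_pos_iff.2 hc
  have hn' : 0 < ‖c'‖ := norm_pos_iff.2 hc'
  have hre : ∀ z : ℂ, ‖z‖ ≤ P.r → 0 < ((c * c')⁻¹ * (φ z * ψ z)).re := by
    intro z hz
    have e : (c * c')⁻¹ * (φ z * ψ z) - 1 =
        (φ z - c) / c + (ψ z - c') / c' + (φ z - c) / c * ((ψ z - c') / c') := by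
      field_simp
      ring
    have a1 : ‖(φ z - c) / c‖ ≤ 1 / 4 := by
      rw [norm_div, div_le_iff₀ hn]
      exact h1 z hz
    have a2 : ‖(ψ z - c') / c'‖ ≤ 1 / 4 := by
      rw [norm_div, div_le_iff₀ hn']
      exact h2 z hz
    have a3 : ‖(c * c')⁻¹ * (φ z * ψ z) - 1‖ ≤ 1 / 4 + 1 / 4 + 1 / 4 * (1 / 4) := by
      rw [e]
      refine (norm_add_le _ _).trans (add_le_add ((norm_add_le _ _).trans (add_le_add a1 a2)) ?_)
      rw [norm_mul]
      exact mul_le_mul a1 a2 (norm_nonneg _) (by norm_num)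
    have a4 := (abs_le.1 ((abs_re_le_norm _).trans a3)).1
    rw [sub_re, one_re] at a4
    linarith
  have hcont : ContinuousOn (fun z => (c * c')⁻¹ * (φ z * ψ z)) (ball 0 1) :=
    continuousOn_const.mul (hφ.mul hψ)
  obtain ⟨γ, hγ⟩ := P.exists_mem (mem_ball_self (x := (0 : ℂ)) one_pos)
  have hpos : 0 < ∫ z in closedBall (0 : ℂ) P.r,
      P.χ z * dens z * ((c * c')⁻¹ * (φ z * ψ z)).re := by
    refine Kth.int_pos (z := S.act γ 0) ?_ (fun z hz => ?_) ?_ ?_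
    · exact ((P.smooth.continuous.continuousOn.mul Kth.cont_dens).mul
        (continuous_re.comp_continuousOn hcont)).mono hs
    · exact mul_nonneg (mul_nonneg (P.nonneg z) (Kth.dens_pos (hs hz)).le)
        (hre z (mem_closedBall_zero_iff.1 hz)).le
    · exact mem_ball_zero_iff.2 (P.supp _ hγ.ne')
    · exact (mul_pos (mul_pos hγ (Kth.dens_pos (S.act_mem γ (mem_ball_self one_pos))))
        (hre _ (P.supp _ hγ.ne').le)).ne'
  have h3 : hI (fun z => P.χ z * ((c * c')⁻¹ * (φ z * ψ z))) = 0 := by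
    have := Kth.hI_mul (fun z => P.χ z * (φ z * ψ z)) (c * c')⁻¹
    rw [h0, mul_zero] at this
    rw [← this]
    exact hI_congr fun z _ => by ring
  rw [Kth.hI_chi] at h3
  have h4 := congrArg re h3
  have h5 := Kth.intOn P.r_lt ((Kth.cont_chi P).mul hcont)
  have h6 := (reCLM : ℂ →L[ℝ] ℝ).integral_comp_comm h5
  simp only [reCLM_apply, Pi.mul_apply] at h6
  rw [← h6, zero_re] at h4
  refine hpos.ne' (Eq.trans ?_ h4)
  congr 1
  funext z
  rw [← ofReal_mul, re_ofReal_mul]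

theorem phi_close {b : ZMod 2} {D : Nest G b} (F : Fam D) {r : ℝ} (hr : r < 1) :
    ∀ᶠ x in 𝓝 (0 : L G → ℂ), ∀ z : ℂ, ‖z‖ ≤ r →
      ‖F.phi x z - 2 * Real.pi‖ ≤ 1 / 4 * ‖(2 * Real.pi : ℂ)‖ := by
  obtain ⟨Θ, -, h, -⟩ := F.taylor
  obtain ⟨C, δ, hδ, h⟩ := h r hr
  have hp : 0 < 1 / 4 * ‖(2 * Real.pi : ℂ)‖ := by
    have : (2 * Real.pi : ℂ) ≠ 0 := by simp
    have := norm_pos_iff.2 this
    positivity
  have hc : Continuous fun x : L G → ℂ => C * ‖x‖ ^ 2 + ‖(2 * Real.pi : ℂ)‖ * (C * ‖x‖) := by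
    fun_prop
  have h1 := (hc.continuousAt (x := 0)).eventually_lt
    (continuousAt_const (y := 1 / 4 * ‖(2 * Real.pi : ℂ)‖)) (by
      simpa only [norm_zero, mul_zero, ne_eq, OfNat.ofNat_ne_zero, not_false_eq_true, zero_pow,
        add_zero] using hp)
  filter_upwards [h1, ball_mem_nhds (0 : L G → ℂ) hδ] with x hx hx' z hz
  obtain ⟨h2, h3⟩ := h x z hz
  have h4 := h3 (mem_ball_zero_iff.1 hx')
  have e : F.phi x z - 2 * Real.pi =
      (F.phi x z - 2 * Real.pi * (1 + Θ x z)) + 2 * Real.pi * Θ x z := by ring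
  rw [e]
  refine (norm_add_le _ _).trans (le_trans (add_le_add h4 ?_) hx.le)
  rw [norm_mul]
  exact mul_le_mul_of_nonneg_left h2 (norm_nonneg _)

omit hG in
theorem tendsto_a {b : ZMod 2} {D : Nest G b} (F : Fam D) : Tendsto F.a (𝓝 0) (𝓝 0) := by
  have := (F.a_diff.differentiableAt (ball_mem_nhds _ F.δ_pos)).continuousAt.tendsto
  rwa [F.a_zero] at this

omit hG in
theorem khat_low {T : ℝ} (hT : 1 < T) : ∃ k > 0, ∃ ε > 0, ∀ a a' : ℂ, ‖a‖ < ε → ‖a'‖ < ε →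
    k * ‖a - a'‖ ≤ ‖khat T (1 + a) - khat T (1 + a')‖ := by
  obtain ⟨k, hk, hd⟩ := deriv_khat_one hT
  have h1 : HasStrictDerivAt (khat T) (k : ℂ) 1 := by
    rw [← hd]
    exact ((differentiable_khat T).analyticAt 1).hasStrictDerivAt
  have h2 := h1.hasStrictFDerivAt.isLittleO.def (half_pos hk)
  obtain ⟨ε, hε, h3⟩ := Metric.eventually_nhds_iff.1 h2
  refine ⟨k / 2, half_pos hk, ε, hε, fun a a' ha ha' => ?_⟩
  have h4 := h3 (y := (1 + a, 1 + a')) (by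
    rw [Prod.dist_eq]
    simpa using ⟨ha, ha'⟩)
  simp only [add_sub_add_left_eq_sub, smul_eq_mul, ContinuousLinearMap.toSpanSingleton_apply] at h4
  have h5 := norm_sub_norm_le ((a - a') * k) (khat T (1 + a) - khat T (1 + a'))
  rw [norm_sub_rev ((a - a') * k), norm_mul, norm_real, Real.norm_of_nonneg hk.le] at h5
  linarith

omit hG in
theorem khat_up (T : ℝ) : ∃ C > 0, ∀ᶠ c in 𝓝 (0 : ℂ), ‖khat T c - khat T 0‖ ≤ C * ‖c‖ := by
  obtain ⟨C, hC, h⟩ := (differentiable_khat T 0).isBigO_sub.exists_pos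
  exact ⟨C, hC, by simpa using h.bound⟩

theorem th_small (Γ₀ : Finset (surf G).Γ) {δ : ℝ} (hδ : 0 < δ) :
    ∀ᶠ x in 𝓝 (0 : L G → ℂ), ∀ γ ∈ Γ₀, ‖thS x γ‖ ≤ δ := by
  rw [eventually_all_finset]
  intro γ _
  obtain ⟨C, hC⟩ := exists_norm_thS_le γ
  have hc : Continuous fun x : L G → ℂ => C * ‖x‖ := by fun_prop
  have h1 := hc.continuousAt (x := 0) |>.eventually_lt continuousAt_const (by simpa using hδ)
  filter_upwards [h1] with x hx using (hC x).trans hx.le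

end Low

theorem exists_low {D0 : Nest G 0} {D1 : Nest G 1} (F1 : Fam D1) : ∃ δ > 0, ∃ κ > 0,
    ∀ x : L G → ℂ, ‖x‖ < δ → (F1.a x ≠ 0 → Zd D0 1 (-x) ≠ 0 ∧ Zd D1 1 x ≠ 0) ∧
      ∀ c : ℂ, ‖c‖ < δ → c ≠ 0 → NR c x → Zd D1 c x = 0 → κ * ‖F1.a x‖ ≤ ‖c‖ := by
  obtain ⟨P⟩ := exists_part (surf G)
  obtain ⟨F0⟩ := exists_fam D0
  obtain ⟨T, hT, Γ₀, hdo⟩ := P.doeblin
  obtain ⟨δ₀, hδ₀, hdo⟩ := hdo (1 / 4) (by norm_num)
  obtain ⟨k, hk, ε, hε, hlow⟩ := Low.khat_low hT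
  obtain ⟨C, hC, hup⟩ := Low.khat_up T
  have hpi : (2 * Real.pi : ℂ) ≠ 0 := by simp
  have hneg : Tendsto (fun x : L G → ℂ => -x) (𝓝 0) (𝓝 0) := by
    simpa using (continuous_neg (G := L G → ℂ)).tendsto 0
  have hx : ∀ᶠ x in 𝓝 (0 : L G → ℂ), x ∈ ball (0 : L G → ℂ) F1.δ ∧ -x ∈ ball (0 : L G → ℂ) F0.δ ∧
      ‖F1.a x‖ < ε ∧ ‖F0.a (-x)‖ < ε ∧ (∀ γ ∈ Γ₀, ‖thS x γ‖ ≤ δ₀) ∧
      (∀ z : ℂ, ‖z‖ ≤ P.r → ‖F1.phi x z - 2 * Real.pi‖ ≤ 1 / 4 * ‖(2 * Real.pi : ℂ)‖) ∧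
      ∀ z : ℂ, ‖z‖ ≤ P.r → ‖F0.phi (-x) z - 2 * Real.pi‖ ≤ 1 / 4 * ‖(2 * Real.pi : ℂ)‖ := by
    filter_upwards [ball_mem_nhds (0 : L G → ℂ) F1.δ_pos,
      hneg.eventually (ball_mem_nhds (0 : L G → ℂ) F0.δ_pos),
      (Low.tendsto_a F1).eventually (ball_mem_nhds (0 : ℂ) hε),
      ((Low.tendsto_a F0).comp hneg).eventually (ball_mem_nhds (0 : ℂ) hε),
      Low.th_small Γ₀ hδ₀, Low.phi_close F1 P.r_lt,
      hneg.eventually (Low.phi_close F0 P.r_lt)] with x h1 h2 h3 h4 h5 h6 h7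
    exact ⟨h1, h2, mem_ball_zero_iff.1 h3, mem_ball_zero_iff.1 h4, h5, h6, h7⟩
  have hc : ∀ᶠ c in 𝓝 (0 : ℂ), ‖c‖ < 1 ∧ ‖khat T c - khat T 0‖ ≤ δ₀ ∧
      ‖khat T c - khat T 0‖ ≤ C * ‖c‖ := by
    filter_upwards [ball_mem_nhds (0 : ℂ) one_pos, hup,
      (differentiable_khat T 0).continuousAt.eventually (closedBall_mem_nhds _ hδ₀)] with
      c h1 h2 h3
    exact ⟨mem_ball_zero_iff.1 h1, mem_closedBall_iff_norm.1 h3, h2⟩
  obtain ⟨δ₁, hδ₁, hx⟩ := Metric.eventually_nhds_iff.1 hx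
  obtain ⟨δ₂, hδ₂, hc⟩ := Metric.eventually_nhds_iff.1 hc
  refine ⟨min δ₁ δ₂, lt_min hδ₁ hδ₂, k / C, div_pos hk hC, fun x hx' => ?_⟩
  obtain ⟨h1, h2, h3, h4, h5, h6, h7⟩ :=
    hx (y := x) (by rw [dist_zero_right]; exact hx'.trans_le (min_le_left _ _))
  have e1 := F1.eig T h1
  have e0 := F0.eig T h2
  rw [thS_neg] at e0
  have ha : F0.a (-x) = F1.a x := by
    have g1 := (P.green e1 e0).1
    have g2 := (mul_eq_zero.1 g1).resolve_right (Low.pair_ne P e1.1 e0.1 hpi hpi h6 h7)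
    have g3 := hlow _ _ h3 h4
    rw [g2, norm_zero] at g3
    have g4 : ‖F1.a x - F0.a (-x)‖ ≤ 0 := by
      by_contra h
      exact (mul_pos hk (not_le.1 h)).not_ge g3
    exact (sub_eq_zero.1 (norm_le_zero_iff.1 g4)).symm
  refine ⟨fun hne => ⟨?_, ?_⟩, fun c hc' hc0 hN hZ => ?_⟩
  · obtain ⟨u1, u2⟩ := F0.fac (0, -x) (by
      rw [mem_ball_zero_iff, Prod.norm_mk, norm_zero, max_eq_right (norm_nonneg _)]
      exact mem_ball_zero_iff.1 h2)
    simp only [add_zero, zero_sub, ha] at u2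
    rw [u2]
    exact mul_ne_zero (neg_ne_zero.2 hne) u1
  · obtain ⟨u1, u2⟩ := F1.fac (0, x) (by
      rw [mem_ball_zero_iff, Prod.norm_mk, norm_zero, max_eq_right (norm_nonneg _)]
      exact mem_ball_zero_iff.1 h1)
    simp only [add_zero, zero_sub] at u2
    rw [u2]
    exact mul_ne_zero (neg_ne_zero.2 hne) u1
  · obtain ⟨c1, c2, c3⟩ := hc (y := c) (by
      rw [dist_zero_right]; exact hc'.trans_le (min_le_right _ _))
    obtain ⟨μ, hμ, hfix⟩ := (det1_eq_zero_iff _).1 hZ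
    have hfix' : Fixd D1 c x μ := hfix
    have ec := pois_eig hfix' hN T
    have hs : ∀ n : ℕ, c ≠ -n := by
      intro n hn
      rcases Nat.eq_zero_or_pos n with rfl | hn0
      · exact hc0 (by simpa using hn)
      · rw [hn, norm_neg, Complex.norm_natCast] at c1
        have : (1 : ℝ) ≤ n := by exact_mod_cast hn0
        linarith
    have hnz : ∃ z ∈ ball (0 : ℂ) 1, pois D1 x μ c z ≠ 0 := by
      by_contra h
      exact hμ (pois_inj hfix' hN hs fun z hz => by_contra fun h' => h ⟨z, hz, h'⟩)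
    obtain ⟨c₀, hc₀, hcl⟩ := hdo _ _ _ h5 c2 ec hnz
    have g1 := (P.green ec e0).1
    have g2 := (mul_eq_zero.1 g1).resolve_right (Low.pair_ne P ec.1 e0.1 hc₀ hpi hcl h7)
    have g3 := hlow _ 0 h3 (by simpa using hε)
    rw [sub_zero, add_zero, ← ha, ← sub_eq_zero.1 g2, khat_one, ha] at g3
    rw [div_mul_eq_mul_div, div_le_iff₀ hC]
    linarith

omit hG in
theorem small_zero {q : ℂ → ℂ} {l₁ : ℂ} (hq : AnalyticAt ℂ q l₁) (h : q l₁ = 0 → deriv q l₁ ≠ 0) :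
    ∀ᶠ ρ : ℝ in 𝓝[>] 0, ∃ η > 0, ∀ g : ℂ → ℂ, DifferentiableOn ℂ g (ball l₁ (2 * ρ)) →
      (∀ l ∈ ball l₁ (2 * ρ), ‖g l - q l‖ ≤ η) → (∀ l ∈ sphere l₁ ρ, g l ≠ 0) ∧
        ∀ l ∈ closedBall l₁ ρ, g l = 0 → deriv g l ≠ 0 ∧
          ∀ l' ∈ closedBall l₁ ρ, g l' = 0 → l' = l := by
  have key : ∀ R > 0, ∀ᶠ ρ : ℝ in 𝓝[>] 0, 0 < ρ ∧ 2 * ρ < R := fun R hR => by
    filter_upwards [Ioo_mem_nhdsGT (half_pos hR)] with ρ hρ
    exact ⟨hρ.1, by linarith [hρ.2]⟩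
  by_cases h0 : q l₁ = 0
  · have hd := norm_pos_iff.2 (h h0)
    set d := deriv q l₁ with hdd
    have h1 : ∀ᶠ l in 𝓝 l₁, DifferentiableAt ℂ q l ∧ ‖deriv q l - d‖ ≤ ‖d‖ / 4 := by
      filter_upwards [hq.eventually_analyticAt,
        hq.deriv.continuousAt.eventually (closedBall_mem_nhds _ (by positivity : 0 < ‖d‖ / 4))] with
        l h1 h2
      exact ⟨h1.differentiableAt, mem_closedBall_iff_norm.1 h2⟩
    obtain ⟨R, hR, h1⟩ := Metric.eventually_nhds_iff.1 h1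
    filter_upwards [key R hR] with ρ ⟨hρ, hρR⟩
    refine ⟨‖d‖ * ρ / 8, by positivity, fun g hg hgq => ?_⟩
    have hsub : closedBall l₁ ρ ⊆ ball l₁ (2 * ρ) := closedBall_subset_ball (by linarith)
    have hq' : DifferentiableOn ℂ q (ball l₁ (2 * ρ)) := fun l hl =>
      (h1 ((mem_ball.1 hl).trans hρR)).1.differentiableWithinAt
    have hder : ∀ l ∈ closedBall l₁ ρ, ‖deriv g l - d‖ ≤ ‖d‖ / 2 := by
      intro l hl
      have hs : closedBall l (ρ / 2) ⊆ ball l₁ (2 * ρ) :=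
        closedBall_subset_ball' (by linarith [mem_closedBall.1 hl])
      have h2 := norm_deriv_le_of_forall_mem_sphere_norm_le (half_pos hρ)
        ((hg.sub hq').diffContOnCl_ball hs) fun z hz => hgq z (hs (sphere_subset_closedBall hz))
      have hn := isOpen_ball.mem_nhds (hsub hl)
      rw [deriv_sub (hg.differentiableAt hn) (hq'.differentiableAt hn)] at h2
      have h3 := (h1 ((mem_ball.1 (hsub hl)).trans hρR)).2
      have e : ‖d‖ * ρ / 8 / (ρ / 2) = ‖d‖ / 4 := by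
        field_simp
        norm_num
      rw [e] at h2
      have := norm_sub_le_norm_sub_add_norm_sub (deriv g l) (deriv q l) d
      linarith
    have hmv : ∀ l ∈ closedBall l₁ ρ, ∀ l' ∈ closedBall l₁ ρ,
        ‖g l' - g l - d * (l' - l)‖ ≤ ‖d‖ / 2 * ‖l' - l‖ := by
      intro l hl l' hl'
      have h2 := (convex_closedBall l₁ ρ).norm_image_sub_le_of_norm_hasDerivWithin_le
        (f := fun z => g z - d * z) (f' := fun z => deriv g z - d) (fun z hz => by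
          simpa using ((hg.differentiableAt (isOpen_ball.mem_nhds (hsub hz))).hasDerivAt.fun_sub
            ((hasDerivAt_id z).const_mul d)).hasDerivWithinAt) hder hl hl'
      have e : g l' - g l - d * (l' - l) = g l' - d * l' - (g l - d * l) := by ring
      rwa [e]
    refine ⟨fun l hl hl0 => ?_, fun l hl hl0 => ⟨fun hz => ?_, fun l' hl' hl0' => ?_⟩⟩
    · have h2 := hmv l₁ (mem_closedBall_self hρ.le) l (sphere_subset_closedBall hl)
      have h3 := hgq l₁ (mem_ball_self (by linarith))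
      rw [h0, sub_zero] at h3
      have h4 : ‖l - l₁‖ = ρ := mem_sphere_iff_norm.1 hl
      have h5 := norm_sub_norm_le (d * (l - l₁)) (-g l₁)
      rw [norm_sub_rev (d * (l - l₁)), norm_mul, h4, norm_neg] at h5
      rw [hl0, h4, zero_sub] at h2
      nlinarith [mul_pos hd hρ]
    · have h2 := hder l hl
      rw [hz, zero_sub, norm_neg] at h2
      linarith
    · have h2 := hmv l hl l' hl'
      rw [hl0, hl0', sub_self, zero_sub, norm_neg, norm_mul] at h2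
      have h3 : ‖l' - l‖ ≤ 0 := by
        by_contra h4
        nlinarith [mul_pos hd (not_le.1 h4)]
      exact sub_eq_zero.1 (norm_le_zero_iff.1 h3)
  · have hd := norm_pos_iff.2 h0
    obtain ⟨R, hR, h1⟩ := Metric.eventually_nhds_iff.1
      (hq.continuousAt.eventually (closedBall_mem_nhds _ (by positivity : 0 < ‖q l₁‖ / 4)))
    filter_upwards [key R hR] with ρ ⟨hρ, hρR⟩
    refine ⟨‖q l₁‖ / 4, by positivity, fun g _ hgq => ?_⟩
    have hsub : closedBall l₁ ρ ⊆ ball l₁ (2 * ρ) := closedBall_subset_ball (by linarith)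
    have hne : ∀ l ∈ closedBall l₁ ρ, g l ≠ 0 := by
      intro l hl hl0
      have h2 := hgq l (hsub hl)
      have h3 := mem_closedBall_iff_norm.1 (h1 ((mem_ball.1 (hsub hl)).trans hρR))
      rw [hl0, zero_sub, norm_neg] at h2
      have h4 := norm_sub_norm_le (q l₁) (q l)
      rw [norm_sub_rev] at h4
      linarith
    exact ⟨fun l hl => hne l (sphere_subset_closedBall hl), fun l hl hl0 => (hne l hl hl0).elim⟩

omit hG in
/-- A real definite binary form has simple non real zeros. -/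
theorem quad_simple {a b c : ℝ}
    (h : ∀ s t : ℝ, s ≠ 0 ∨ t ≠ 0 → 0 < a * s ^ 2 + 2 * b * s * t + c * t ^ 2) :
    (∃ l : ℂ, (a : ℂ) + 2 * b * l + c * l ^ 2 = 0) ∧
      ∀ l : ℂ, (a : ℂ) + 2 * b * l + c * l ^ 2 = 0 → l.im ≠ 0 ∧ (2 * b + 2 * c * l : ℂ) ≠ 0 := by
  have hc : 0 < c := by simpa using h 0 1 (Or.inr one_ne_zero)
  have hd : 0 < a * c - b ^ 2 := by
    have h1 := h c (-b) (Or.inl hc.ne')
    by_contra h2
    nlinarith [mul_nonneg hc.le (neg_nonneg.2 (not_lt.1 h2))]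
  have hc' : (c : ℂ) ≠ 0 := ofReal_ne_zero.2 hc.ne'
  constructor
  · refine ⟨(-b + Real.sqrt (a * c - b ^ 2) * I) / c, ?_⟩
    have h1 : ((Real.sqrt (a * c - b ^ 2) : ℝ) : ℂ) ^ 2 = a * c - b ^ 2 := by
      exact_mod_cast Real.sq_sqrt hd.le
    field_simp
    linear_combination (I ^ 2) * h1 + (a * c - b ^ 2 : ℂ) * I_sq
  · intro l hl
    have him : l.im ≠ 0 := by
      intro h0
      have e : l = (l.re : ℂ) := Complex.ext (by simp) (by simpa using h0)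
      rw [e] at hl
      have h1 : a + 2 * b * l.re + c * l.re ^ 2 = 0 := by exact_mod_cast hl
      have h2 := h 1 l.re (Or.inl one_ne_zero)
      nlinarith
    refine ⟨him, fun h0 => ?_⟩
    have h1 := congrArg im h0
    simp only [add_im, mul_im, re_ofNat, ofReal_im, im_ofNat, ofReal_re, mul_re, zero_im] at h1
    exact him (by nlinarith [mul_eq_zero.1 (show c * l.im = 0 by linarith)])

end Pool.Agent.Lib.MP_de7bb2_an
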