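import Pool.Agent.Lib.MP_de7bb2_an.H20B
import Pool.Agent.Lib.MP_de7bb2_an.H20Area

/-! The perturbed metric is smooth and negatively curved. TASK NEG. -/

namespace Pool.Agent.Lib.MP_de7bb2_an

open Metric Set Complex

namespace Neg

open Filter Topology Laplacian InnerProductSpace

theorem contDiffOn_of_diffOn {E F : Type*} [NormedAddCommGroup E] [NormedSpace ℂ E]
    [FiniteDimensional ℂ E] [NormedAddCommGroup F] [NormedSpace ℂ F] [CompleteSpace F] {U : Set E}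
    (hU : IsOpen U) (n : ℕ) : ∀ f : E → F, DifferentiableOn ℂ f U → ContDiffOn ℂ n f U := by
  induction n with
  | zero => exact fun f hf => contDiffOn_zero.2 hf.continuousOn
  | succ n ih =>
    intro f hf
    rw [Nat.cast_succ]
    refine contDiffOn_succ_of_fderiv_apply hf (by simp) fun y => ?_
    exact (ih _ (MP_08f711_an.differentiableOn_fderiv_apply hU hf y)).congr fun x hx => by
      rw [fderivWithin_of_isOpen hU hx]

theorem contDiffOn_q (c : ℂ → ℝ) (hc : ContDiff ℝ (⊤ : ℕ∞) c) :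
    ContDiffOn ℝ (⊤ : ℕ∞) (fun z : ℂ => c z / (1 - ‖z‖ ^ 2)) (ball 0 1) :=
  hc.contDiffOn.div (contDiff_const.sub (contDiff_norm_sq ℝ)).contDiffOn
    fun _ hz => (one_sub_pos hz).ne'

theorem contDiffOn_zv : ContDiffOn ℝ (⊤ : ℕ∞) zv (ball 0 1) := by
  have h1 := ofRealCLM.contDiff.comp_contDiffOn (contDiffOn_q (fun z => 1 + ‖z‖ ^ 2)
    (contDiff_const.add (contDiff_norm_sq ℝ)))
  have h2 := ofRealCLM.contDiff.comp_contDiffOn (contDiffOn_q (fun _ => 2) contDiff_const)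
  exact h1.prodMk ((h2.mul contDiffOn_id).prodMk (h2.mul conjCLE.contDiff.contDiffOn))

theorem contDiffOn_u {ι : Type} {Wf : ι → V} {Cb : ℝ} (h : Famy Wf Cb) :
    ContDiffOn ℝ (⊤ : ℕ∞) (fun z => (bF Wf (zv z)).re) (ball 0 1) := by
  have h1 : ContDiffOn ℝ (⊤ : ℕ∞) (bF Wf) {Z | Near Z} :=
    contDiffOn_infty.2 fun n =>
      (contDiffOn_of_diffOn isOpen_near n _ h.diffOn_bF).restrict_scalars ℝ
  exact reCLM.contDiff.comp_contDiffOn (h1.comp contDiffOn_zv fun z hz => (hyp_zv hz).near)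

theorem contDiffOn_log :
    ContDiffOn ℝ (⊤ : ℕ∞) (fun z : ℂ => Real.log (2 / (1 - ‖z‖ ^ 2))) (ball 0 1) :=
  (contDiffOn_q (fun _ => 2) contDiff_const).log
    fun _ hz => (div_pos two_pos (one_sub_pos hz)).ne'

theorem at_two {f : ℂ → ℝ} (h : ContDiffOn ℝ (⊤ : ℕ∞) f (ball 0 1)) {z : ℂ}
    (hz : z ∈ ball (0 : ℂ) 1) : ContDiffAt ℝ 2 f z :=
  (contDiffOn_infty.1 h 2).contDiffAt (isOpen_ball.mem_nhds hz)

theorem diff_fderiv {f : ℂ → ℝ} {z : ℂ} (hf : ContDiffAt ℝ 2 f z) :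
    DifferentiableAt ℝ (fderiv ℝ f) z :=
  (hf.fderiv_right (m := 1) (by norm_num)).differentiableAt one_ne_zero

theorem lap_eq' (f : ℂ → ℝ) (z : ℂ) :
    Δ f z = fderiv ℝ (fderiv ℝ f) z 1 1 + fderiv ℝ (fderiv ℝ f) z I I := by
  rw [laplacian_eq_iteratedFDeriv_complexPlane]
  simp [iteratedFDeriv_two_apply]

theorem lap_eq {f : ℂ → ℝ} {z : ℂ} (hf : ContDiffAt ℝ 2 f z) :
    Δ f z = fderiv ℝ (fun w => fderiv ℝ f w 1) z 1 + fderiv ℝ (fun w => fderiv ℝ f w I) z I := by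
  rw [lap_eq', fderiv_clm_apply (diff_fderiv hf) (differentiableAt_const _),
    fderiv_clm_apply (diff_fderiv hf) (differentiableAt_const _)]
  simp

theorem bil (B : ℂ →L[ℝ] ℂ →L[ℝ] ℝ) (a : ℂ) :
    B (a * 1) (a * 1) + B (a * I) (a * I) = ‖a‖ ^ 2 * (B 1 1 + B I I) := by
  have e1 : a * 1 = a.re • (1 : ℂ) + a.im • I := by
    apply Complex.ext <;> simp
  have e2 : a * I = (-a.im) • (1 : ℂ) + a.re • I := by
    apply Complex.ext <;> simp
  rw [e1, e2, Complex.sq_norm, normSq_apply]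
  simp only [map_add, map_smul, _root_.add_apply, _root_.smul_apply,
    smul_eq_mul]
  ring

/-- Conformal covariance of the Laplacian. -/
theorem lap_comp {u : ℂ → ℝ} {γ : ℂ → ℂ} {U : Set ℂ} (hU : IsOpen U) {z : ℂ} (hz : z ∈ U)
    (hγ : DifferentiableOn ℂ γ U) (hu : ContDiffAt ℝ 2 u (γ z)) :
    Δ (u ∘ γ) z = ‖deriv γ z‖ ^ 2 * Δ u (γ z) := by
  have ha : AnalyticAt ℂ γ z := hγ.analyticAt (hU.mem_nhds hz)
  have h1 := ha.differentiableAt.hasDerivAt.complexToReal_fderiv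
  have key : ∀ v : ℂ, fderiv ℝ (fun w => fderiv ℝ (u ∘ γ) w v) z v =
      fderiv ℝ u (γ z) (deriv (deriv γ) z * v * v) +
        fderiv ℝ (fderiv ℝ u) (γ z) (deriv γ z * v) (deriv γ z * v) := fun v => by
    have e : (fun w => fderiv ℝ (u ∘ γ) w v) =ᶠ[𝓝 z]
        fun w => fderiv ℝ u (γ w) (deriv γ w * v) := by
      filter_upwards [hU.mem_nhds hz, ha.continuousAt.eventually (hu.eventually (by simp))]
        with w hw hw'
      have h2 := (hγ.differentiableAt (hU.mem_nhds hw)).hasDerivAt.complexToReal_fderiv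
      rw [((hw'.differentiableAt two_ne_zero).hasFDerivAt.comp w h2).fderiv]
      simp
    have h2 := (ha.deriv.differentiableAt.hasDerivAt.mul_const v).complexToReal_fderiv
    have h3 := ((diff_fderiv hu).hasFDerivAt.comp z h1).clm_apply h2
    rw [e.fderiv_eq]
    refine (congrArg (fun T : ℂ →L[ℝ] ℝ => T v) h3.fderiv).trans ?_
    simp
  rw [lap_eq (hu.comp z (ha.contDiffAt.restrict_scalars ℝ)), key, key, lap_eq', ← bil]
  have e : deriv (deriv γ) z * I * I = -(deriv (deriv γ) z * 1 * 1) := by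
    rw [mul_assoc, I_mul_I]
    ring
  rw [e, map_neg]
  ring

theorem fderiv_log {w : ℂ} (hw : w ∈ ball (0 : ℂ) 1) (v : ℂ) :
    fderiv ℝ (fun z : ℂ => Real.log (2 / (1 - ‖z‖ ^ 2))) w v =
      (1 - ‖w‖ ^ 2)⁻¹ * (2 * innerSL ℝ v w) := by
  have h0 := one_sub_pos hw
  have h1 : HasDerivAt (fun s : ℝ => Real.log (2 / (1 - s))) (1 - ‖w‖ ^ 2)⁻¹ (‖w‖ ^ 2) := by
    have h2 := ((hasDerivAt_const (‖w‖ ^ 2) (2 : ℝ)).div
      ((hasDerivAt_id (‖w‖ ^ 2)).const_sub 1) h0.ne').log (div_pos two_pos h0).ne'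
    refine h2.congr_deriv ?_
    simp only [id, Pi.div_apply]
    field_simp
    ring
  have h2 := h1.comp_hasFDerivAt w (hasStrictFDerivAt_norm_sq w).hasFDerivAt
  refine (congrArg (fun T : ℂ →L[ℝ] ℝ => T v) h2.fderiv).trans ?_
  simp only [_root_.smul_apply, innerSL_apply_apply, smul_eq_mul, nsmul_eq_mul,
    real_inner_comm w v, Nat.cast_ofNat]

theorem lap_log {z : ℂ} (hz : z ∈ ball (0 : ℂ) 1) :
    Δ (fun z : ℂ => Real.log (2 / (1 - ‖z‖ ^ 2))) z = 4 / (1 - ‖z‖ ^ 2) ^ 2 := by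
  have h0 := one_sub_pos hz
  have key : ∀ v : ℂ, fderiv ℝ
      (fun w => fderiv ℝ (fun z : ℂ => Real.log (2 / (1 - ‖z‖ ^ 2))) w v) z v =
      (1 - ‖z‖ ^ 2)⁻¹ * (2 * inner ℝ v v) +
        2 * inner ℝ v z * (((1 - ‖z‖ ^ 2) ^ 2)⁻¹ * (2 * inner ℝ z v)) := fun v => by
    have e : (fun w => fderiv ℝ (fun z : ℂ => Real.log (2 / (1 - ‖z‖ ^ 2))) w v) =ᶠ[𝓝 z]
        fun w => (1 - ‖w‖ ^ 2)⁻¹ * (2 * innerSL ℝ v w) := by
      filter_upwards [isOpen_ball.mem_nhds hz] with w hw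
      exact fderiv_log hw v
    have h1 : HasDerivAt (fun s : ℝ => (1 - s)⁻¹) ((1 - ‖z‖ ^ 2) ^ 2)⁻¹ (‖z‖ ^ 2) := by
      refine (((hasDerivAt_id (‖z‖ ^ 2)).const_sub 1).inv h0.ne').congr_deriv ?_
      simp
    have h2 := (h1.comp_hasFDerivAt z (hasStrictFDerivAt_norm_sq z).hasFDerivAt).mul
      ((innerSL ℝ v).hasFDerivAt.const_mul 2)
    rw [e.fderiv_eq]
    refine (congrArg (fun T : ℂ →L[ℝ] ℝ => T v) h2.fderiv).trans ?_
    simp only [_root_.add_apply, _root_.smul_apply, innerSL_apply_apply,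
      smul_eq_mul, nsmul_eq_mul, Nat.cast_ofNat, Function.comp_apply]
  rw [lap_eq (at_two contDiffOn_log hz), key, key]
  have e : ‖z‖ ^ 2 = z.re * z.re + z.im * z.im := by rw [Complex.sq_norm, normSq_apply]
  simp only [Complex.inner, map_one, mul_one, one_re, conj_I, mul_neg, I_mul_I, neg_neg, one_mul,
    conj_re, neg_re, mul_re, I_re, I_im, conj_im, mul_zero, zero_mul, zero_sub]
  field_simp
  rw [e]
  ring

theorem continuousOn_lap {f : ℂ → ℝ} (h : ContDiffOn ℝ (⊤ : ℕ∞) f (ball 0 1)) :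
    ContinuousOn (Δ f) (ball 0 1) := fun z hz => by
  have h1 : ContinuousAt (fderiv ℝ (fderiv ℝ f)) z :=
    (((at_two h hz).fderiv_right (m := 1) (by norm_num)).fderiv_right (m := 0)
      (by norm_num)).continuousAt
  rw [show Δ f = fun z => fderiv ℝ (fderiv ℝ f) z 1 1 + fderiv ℝ (fderiv ℝ f) z I I from
    funext (lap_eq' f)]
  exact ContinuousAt.continuousWithinAt (by fun_prop)

/-- The Laplacian of an invariant function is bounded in the hyperbolic scale. -/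
theorem exists_bound {G : ℕ} (S : Surface G) {u : ℂ → ℝ}
    (hu : ContDiffOn ℝ (⊤ : ℕ∞) u (ball 0 1))
    (hi : ∀ γ, ∀ z ∈ ball (0 : ℂ) 1, u (S.act γ z) = u z) :
    ∃ M : ℝ, 0 < M ∧ ∀ z ∈ ball (0 : ℂ) 1, |Δ u z| * (1 - ‖z‖ ^ 2) ^ 2 ≤ M := by
  obtain ⟨K, hK, hc, hcov⟩ := S.cocompact
  obtain ⟨M, hM⟩ := hc.exists_bound_of_continuousOn ((continuousOn_lap hu).mono hK)
  refine ⟨|M| + 1, by positivity, fun z hz => ?_⟩
  obtain ⟨γ, hγ⟩ := hcov z hz
  have h1 : u =ᶠ[𝓝 z] u ∘ S.act γ := by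
    filter_upwards [isOpen_ball.mem_nhds hz] with w hw
    exact (hi γ w hw).symm
  have h2 := one_sub_pos (hK hγ)
  have h3 : (1 - ‖S.act γ z‖ ^ 2) ^ 2 ≤ 1 :=
    pow_le_one₀ h2.le (sub_le_self _ (by positivity))
  have h4 : |Δ u (S.act γ z)| ≤ |M| := (hM _ hγ).trans (le_abs_self M)
  rw [(laplacian_congr_nhds h1).eq_of_nhds,
    lap_comp isOpen_ball hz (S.diffOn_act γ) (at_two hu (hK hγ)), abs_mul, abs_pow, abs_norm,
    mul_right_comm, ← mul_pow, S.norm_deriv γ hz]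
  nlinarith [abs_nonneg (Δ u (S.act γ z)), abs_nonneg M]

end Neg

theorem Famy.contDiffOn_phiE {ι : Type} {Wf : ι → V} {Cb : ℝ} (h : Famy Wf Cb) (ε : ℝ) :
    ContDiffOn ℝ (⊤ : ℕ∞) (phiE Wf ε) (ball 0 1) :=
  Neg.contDiffOn_log.add (contDiffOn_const.mul (Neg.contDiffOn_u h))

theorem exists_negCurved {G : ℕ} [Fact (2 ≤ G)] {w : V} (hw : Hyp w) : ∃ ε₀ > 0, ∀ ε : ℝ,
    |ε| < ε₀ → NegCurved (surf G) (phiE (fam (1 : W G) w) ε) := by
  obtain ⟨Cb, hCb⟩ := exists_famy (G := G)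
  have h := hCb 1 w hw
  have hi : ∀ γ : (surf G).Γ, ∀ z ∈ ball (0 : ℂ) 1,
      (bF (fam (1 : W G) w) (zv ((surf G).act γ z))).re = (bF (fam (1 : W G) w) (zv z)).re := by
    intro γ z hz
    exact congrArg Complex.re ((congrArg _ (zv_actD _ hz)).trans (bF_fam_inv γ.2 w _))
  obtain ⟨M, hM0, hM⟩ := Neg.exists_bound (surf G) (Neg.contDiffOn_u h) hi
  refine ⟨1 / M, by positivity, fun ε hε => ⟨h.contDiffOn_phiE ε, fun γ z hz => ?_, fun z hz => ?_⟩⟩
  · have h1 := one_sub_pos hz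
    have h2 := one_sub_pos ((surf G).act_mem γ hz)
    have h3 := (surf G).norm_deriv γ hz
    rw [phiE, phiE, hi γ z hz, Real.exp_add, Real.exp_add, Real.exp_log (div_pos two_pos h1),
      Real.exp_log (div_pos two_pos h2), mul_right_comm]
    congr 1
    rw [div_mul_eq_mul_div, div_eq_div_iff h2.ne' h1.ne', mul_assoc, h3]
  · have h1 := one_sub_pos hz
    have h2 := Neg.at_two (Neg.contDiffOn_u h) hz
    have e : phiE (fam (1 : W G) w) ε = (fun z : ℂ => Real.log (2 / (1 - ‖z‖ ^ 2))) +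
        ε • fun z => (bF (fam (1 : W G) w) (zv z)).re := rfl
    have h2' : ContDiffAt ℝ 2 (ε • fun z => (bF (fam (1 : W G) w) (zv z)).re) z :=
      h2.const_smul ε
    rw [neg_lt_zero, e, (Neg.at_two Neg.contDiffOn_log hz).laplacian_add h2',
      InnerProductSpace.laplacian_smul ε h2, Neg.lap_log hz, smul_eq_mul]
    refine mul_pos (Real.exp_pos _) ?_
    have h3 := hM z hz
    generalize Laplacian.laplacian (fun z => (bF (fam (1 : W G) w) (zv z)).re) z = t at h3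
    have h4 : 0 < (1 - ‖z‖ ^ 2) ^ 2 := by positivity
    rw [lt_div_iff₀ hM0] at hε
    have h5 : |ε| * (|t| * (1 - ‖z‖ ^ 2) ^ 2) ≤ |ε| * M :=
      mul_le_mul_of_nonneg_left h3 (abs_nonneg ε)
    have h6 := mul_le_mul_of_nonneg_right (neg_abs_le (ε * t)) h4.le
    rw [abs_mul] at h6
    rw [div_add' _ _ _ h4.ne']
    exact div_pos (by nlinarith) h4

end Pool.Agent.Lib.MP_de7bb2_an
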