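import Pool.Agent.Lib.MP_de7bb2_an.H20Fam

/-! Second order expansion of the simple zero. TASK QUAD. -/

namespace Pool.Agent.Lib.MP_de7bb2_an

set_option linter.unusedSectionVars false

open Metric Set Complex Filter

namespace Quad

open MeasureTheory Asymptotics Topology ComplexConjugate

section gen

variable {α : Type*} [TopologicalSpace α] [T2Space α] [MeasurableSpace α] [BorelSpace α]
  {μ : Measure α} [IsFiniteMeasureOnCompacts μ] {K : Set α} {W : α → ℝ} {f g : α → ℂ}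

/-- A weighted integral. -/
noncomputable def wI {α : Type*} [MeasurableSpace α] (μ : Measure α) (K : Set α) (W : α → ℝ)
    (f : α → ℂ) : ℂ := ∫ p in K, (W p : ℂ) * f p ∂μ

theorem wI_add (hK : IsCompact K) (hW : ContinuousOn W K) (hf : ContinuousOn f K)
    (hg : ContinuousOn g K) : wI μ K W (fun p => f p + g p) = wI μ K W f + wI μ K W g := by
  have h : ContinuousOn (fun p => (W p : ℂ)) K := continuous_ofReal.comp_continuousOn hW
  simp only [wI, mul_add]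
  exact integral_add ((h.mul hf).integrableOn_compact hK) ((h.mul hg).integrableOn_compact hK)

theorem wI_mul {α : Type*} [MeasurableSpace α] (μ : Measure α) (K : Set α) (W : α → ℝ) (c : ℂ)
    (f : α → ℂ) : wI μ K W (fun p => c * f p) = c * wI μ K W f := by
  simp only [wI, mul_left_comm _ c]
  exact integral_const_mul _ _

theorem wI_bigO (hK : IsCompact K) (hW : ContinuousOn W K) {X : Type*} {l : Filter X}
    {F : X → α → ℂ} {n : X → ℝ} (h : (fun q : X × α => F q.1 q.2) =O[l ×ˢ 𝓟 K] fun q => n q.1) :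
    (fun x => wI μ K W (F x)) =O[l] n := by
  obtain ⟨C, hC⟩ := h.bound
  obtain ⟨M, hM⟩ := hK.exists_bound_of_continuousOn hW
  refine IsBigO.of_bound (M * C * μ.real K) ((eventually_prod_principal_iff.1 hC).mono
    fun x hx => ?_)
  refine (norm_setIntegral_le_of_norm_le_const (C := M * (C * ‖n x‖)) hK.measure_lt_top
    fun p hp => ?_).trans_eq (by ring)
  rw [norm_mul, norm_real]
  exact mul_le_mul (hM p hp) (hx p hp) (norm_nonneg _) ((norm_nonneg _).trans (hM p hp))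

theorem wI_real (hK : IsCompact K) (h : ∀ p ∈ K, (f p).im = 0) :
    wI μ K W f = ((∫ p in K, W p * (f p).re ∂μ : ℝ) : ℂ) := by
  rw [← integral_complex_ofReal]
  refine setIntegral_congr_fun hK.measurableSet fun p hp => ?_
  exact Complex.ext (by simp) (by simp [h p hp])

theorem int_pos [μ.IsOpenPosMeasure] (hK : IsCompact K) (hc : ContinuousOn W K)
    (h0 : ∀ p ∈ K, 0 ≤ W p) {z : α} (hz : K ∈ 𝓝 z) (h : W z ≠ 0) : 0 < ∫ p in K, W p ∂μ := by
  rw [setIntegral_pos_iff_support_of_nonneg_ae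
    ((ae_restrict_iff' hK.measurableSet).2 (ae_of_all _ h0)) (hc.integrableOn_compact hK)]
  exact Measure.measure_pos_of_mem_nhds _ (inter_mem ((hc.continuousAt hz).eventually_ne h) hz)

end gen

section asym

variable {X : Type*} {l : Filter X} {n : X → ℝ}

theorem pow_succ_bigO (hn : Tendsto n l (𝓝 0)) (j : ℕ) :
    (fun x => n x ^ (j + 1)) =O[l] fun x => n x ^ j := by
  simpa only [mul_one, ← pow_succ] using (isBigO_refl (fun x => n x ^ j) l).mul (hn.isBigO_one ℝ)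

theorem alg1 (hn : Tendsto n l (𝓝 0)) {t φ ψ : X → ℂ} {c : ℂ} (ht : t =O[l] n)
    (h1 : (fun x => φ x - c * (1 + t x)) =O[l] fun x => n x ^ 2)
    (h2 : (fun x => ψ x - c * (1 - t x)) =O[l] fun x => n x ^ 2) :
    (fun x => φ x * ψ x + -c ^ 2 * 1) =O[l] n := by
  have h3 : (fun x => n x ^ 2) =O[l] n := by simpa only [pow_one] using pow_succ_bigO hn 1
  have u : (fun x => φ x - c) =O[l] n :=
    ((h1.trans h3).add (ht.const_mul_left c)).congr_left fun x => by ring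
  have v : (fun x => ψ x - c) =O[l] n :=
    ((h2.trans h3).sub (ht.const_mul_left c)).congr_left fun x => by ring
  have w : (fun x => (φ x - c) * (ψ x - c)) =O[l] n :=
    ((u.mul v).congr_right fun x => (sq _).symm).trans h3
  exact ((w.add (u.const_mul_left c)).add (v.const_mul_left c)).congr_left fun x => by ring

theorem alg2 (hn : Tendsto n l (𝓝 0)) {d φ ψ : X → ℂ} {c : ℂ} (hd : d =O[l] n)
    (h1 : (fun x => φ x - c * d x) =O[l] fun x => n x ^ 2)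
    (h2 : (fun x => ψ x + c * d x) =O[l] fun x => n x ^ 2) :
    (fun x => φ x * ψ x + c ^ 2 * (d x * d x)) =O[l] fun x => n x ^ 3 := by
  have u : (fun x => (φ x - c * d x) * (ψ x + c * d x)) =O[l] fun x => n x ^ 3 :=
    ((h1.mul h2).congr_right fun x => (by ring : _ = n x ^ (3 + 1))).trans (pow_succ_bigO hn 3)
  have v : (fun x => c * d x * (φ x - c * d x)) =O[l] fun x => n x ^ 3 :=
    ((hd.const_mul_left c).mul h1).congr_right fun x => by ring
  have w : (fun x => c * d x * (ψ x + c * d x)) =O[l] fun x => n x ^ 3 :=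
    ((hd.const_mul_left c).mul h2).congr_right fun x => by ring
  exact ((u.sub v).add w).congr_left fun x => by ring

theorem tendsto_of_bigO (hn : Tendsto n l (𝓝 0)) {B : X → ℂ} {B0 : ℂ}
    (hB : (fun x => B x - B0) =O[l] n) : Tendsto B l (𝓝 B0) :=
  tendsto_sub_nhds_zero_iff.1 (hB.trans_tendsto hn)

theorem alg3 (hn : Tendsto n l (𝓝 0)) {a E B q : X → ℂ} {k B0 : ℂ} (hk : k ≠ 0) (hB0 : B0 ≠ 0)
    (hE : (fun x => E x - k) =O[l] n) (hB : (fun x => B x - B0) =O[l] n)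
    (hq : q =O[l] fun x => n x ^ 2)
    (hR : (fun x => a x * (E x * B x) - q x) =O[l] fun x => n x ^ 3) :
    (a =O[l] fun x => n x ^ 2) ∧ (fun x => a x - (k * B0)⁻¹ * q x) =O[l] fun x => n x ^ 3 := by
  have h0 := mul_ne_zero hk hB0
  have h1 : (fun x => E x * B x - k * B0) =O[l] n :=
    (((hE.mul ((tendsto_of_bigO hn hB).isBigO_one ℝ)).congr_right fun x => mul_one _).add
      (hB.const_mul_left k)).congr_left fun x => by ring
  have h2 := tendsto_of_bigO hn h1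
  have h3 : (fun x => a x * (E x * B x)) =O[l] fun x => n x ^ 2 :=
    ((hR.trans (pow_succ_bigO hn 2)).add hq).congr_left fun x => by ring
  have h4 : a =O[l] fun x => n x ^ 2 :=
    (h3.mul ((h2.inv₀ h0).isBigO_one ℝ)).congr'
      ((h2.eventually_ne h0).mono fun x hx => mul_inv_cancel_right₀ hx _)
      (Eventually.of_forall fun x => mul_one _)
  refine ⟨h4, ((hR.sub ((h4.mul h1).congr_right fun x => by ring)).const_mul_left
    (k * B0)⁻¹).congr_left fun x => ?_⟩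
  field_simp
  ring

theorem pull {K K' : Set ℂ} (hK : K ⊆ K') {f : X × ℂ → ℂ}
    (h : f =O[l ×ˢ 𝓟 K'] fun q => n q.1) :
    (fun q : X × ℂ × ℂ => f (q.1, q.2.1) - f (q.1, q.2.2)) =O[l ×ˢ 𝓟 (K ×ˢ K')]
      fun q => n q.1 := by
  have t1 : Tendsto (fun q : X × ℂ × ℂ => (q.1, q.2.1)) (l ×ˢ 𝓟 (K ×ˢ K')) (l ×ˢ 𝓟 K') :=
    tendsto_id.prodMap (tendsto_principal_principal.2 fun p hp => hK hp.1)
  have t2 : Tendsto (fun q : X × ℂ × ℂ => (q.1, q.2.2)) (l ×ˢ 𝓟 (K ×ˢ K')) (l ×ˢ 𝓟 K') :=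
    tendsto_id.prodMap (tendsto_principal_principal.2 fun p hp => hp.2)
  have h1 : (fun q : X × ℂ × ℂ => f (q.1, q.2.1)) =O[l ×ˢ 𝓟 (K ×ˢ K')] fun q => n q.1 :=
    h.comp_tendsto t1
  have h2 : (fun q : X × ℂ × ℂ => f (q.1, q.2.2)) =O[l ×ˢ 𝓟 (K ×ˢ K')] fun q => n q.1 :=
    h.comp_tendsto t2
  exact h1.sub h2

end asym

variable {G : ℕ} {S : Surface G}

/-- The weight of the single integral. -/
noncomputable def W1 (P : Part S) (z : ℂ) : ℝ := P.χ z * dens z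

/-- The weight of the double integral. -/
noncomputable def W2 (P : Part S) (p : ℂ × ℂ) : ℝ := W1 P p.1 * Kth.wt 2 p.1 p.2

theorem cont_W1 (P : Part S) : ContinuousOn (W1 P) (ball 0 1) :=
  P.smooth.continuous.continuousOn.mul Kth.cont_dens

theorem cont_W2 (P : Part S) : ContinuousOn (W2 P) (ball 0 1 ×ˢ ball 0 1) :=
  ((cont_W1 P).comp continuousOn_fst fun _ hp => hp.1).mul (Kth.cont_wt 2)

theorem I1_eq (P : Part S) (f : ℂ → ℂ) :
    hI (fun z => P.χ z * f z) = wI volume (closedBall 0 P.r) (W1 P) f := by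
  simp only [Kth.hI_chi, wI, W1, ofReal_mul]

theorem I2_eq (P : Part S) : ∃ r' < 1, P.r ≤ r' ∧ ∀ F : ℂ × ℂ → ℂ,
    ContinuousOn F (ball 0 1 ×ˢ ball 0 1) →
      hI (fun z => P.χ z * hI fun w => kk 2 z w * F (z, w)) =
        wI (volume.prod volume) (closedBall 0 P.r ×ˢ closedBall 0 r') (W2 P) F := by
  obtain ⟨r', hr', hrr, h⟩ := Kth.Kop_eq P.r_lt 2
  refine ⟨r', hr', hrr, fun F hF => ?_⟩
  have hs := prod_mono (Kth.sub_ball P.r_lt) (Kth.sub_ball hr')
  have hW : ContinuousOn (fun p => (W2 P p : ℂ)) (ball 0 1 ×ˢ ball 0 1) :=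
    continuous_ofReal.comp_continuousOn (cont_W2 P)
  rw [I1_eq, wI, wI, setIntegral_prod _ (((hW.fun_mul hF).mono hs).integrableOn_compact
      ((isCompact_closedBall _ _).prod (isCompact_closedBall _ _)))]
  refine setIntegral_congr_fun measurableSet_closedBall fun z hz => ?_
  have := h z (mem_closedBall_zero_iff.1 hz) fun w => F (z, w)
  rw [Kop] at this
  simp only [this, ← integral_const_mul, W2, ofReal_mul, mul_assoc]

/-- A harmonic function with a non trivial period is nowhere locally constant. -/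
theorem not_const {θ : S.Γ → ℂ} {Θ ω ω' : ℂ → ℂ} (h : Harm S θ Θ ω ω') {z : ℂ}
    (hz : z ∈ ball (0 : ℂ) 1) (hc : ∀ᶠ w in 𝓝 z, Θ w = Θ z) (γ : S.Γ) : θ γ = 0 := by
  have h1 : ∀ᶠ w in 𝓝 z, ω w = 0 ∧ ω' w = 0 := by
    filter_upwards [hc.eventually_nhds, isOpen_ball.mem_nhds hz] with w hw hw'
    have h2 := (h.2.2.1 w hw').unique
      ((hasFDerivAt_const (Θ z) w).congr_of_eventuallyEq hw)
    exact Stokes.wirt_inj fun v => by rw [h2]; simp
  have h2 := (h.1.analyticOnNhd isOpen_ball).eqOn_zero_of_preconnected_of_eventuallyEq_zero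
    (convex_ball _ _).isPreconnected hz (h1.mono fun w hw => hw.1)
  have h3 := (h.2.1.analyticOnNhd isOpen_ball).eqOn_zero_of_preconnected_of_eventuallyEq_zero
    (convex_ball _ _).isPreconnected hz (h1.mono fun w hw => by simp [hw.2])
  exact h.period_eq_zero (fun w hw => ⟨h2 hw, by simpa using h3 hw⟩) γ

theorem cont_d {Θ : ℂ → ℂ} (h : ContinuousOn Θ (ball 0 1)) :
    ContinuousOn (fun p : ℂ × ℂ => Θ p.1 - Θ p.2) (ball 0 1 ×ˢ ball 0 1) :=
  (h.comp continuousOn_fst fun _ hp => hp.1).sub (h.comp continuousOn_snd fun _ hp => hp.2)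

/-- Positivity of the quadratic form. -/
theorem quad_pos (P : Part S) {θ : S.Γ → ℂ} {Θ ω ω' : ℂ → ℂ} (h : Harm S θ Θ ω ω')
    (hθ : ∀ γ, (θ γ).im = 0) (hne : ∃ γ, θ γ ≠ 0) {r' : ℝ} (hr' : r' < 1) (hrr : P.r ≤ r') :
    0 < ∫ p in closedBall (0 : ℂ) P.r ×ˢ closedBall (0 : ℂ) r',
      W2 P p * ((Θ p.1 - Θ p.2) * (Θ p.1 - Θ p.2)).re ∂(volume.prod volume) := by
  have hc : ContinuousOn Θ (ball 0 1) := fun z hz =>
    (h.2.2.1 z hz).continuousAt.continuousWithinAt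
  have hs := prod_mono (Kth.sub_ball P.r_lt) (Kth.sub_ball hr')
  have hre := (h.real P hθ).2
  obtain ⟨γ, hγ⟩ := P.exists_mem (mem_ball_self one_pos)
  have hz := S.act_mem γ (mem_ball_self one_pos)
  generalize S.act γ 0 = z at hγ hz
  have hzr : z ∈ ball (0 : ℂ) P.r := mem_ball_zero_iff.2 (P.supp z hγ.ne')
  have hk : ∀ᶠ w in 𝓝 z, Kth.wt 2 z w ≠ 0 := by
    refine ((Kth.cont_wt' 2 hz).continuousAt (isOpen_ball.mem_nhds hz)).eventually_ne ?_
    rw [Kth.wt, kk, Kth.pd_self hz]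
    exact mul_ne_zero (Kth.dens_pos hz).ne' (by norm_num)
  obtain ⟨γ', hγ'⟩ := hne
  have h1 : ∃ᶠ w in 𝓝 z, Θ w ≠ Θ z := fun hh => hγ' (not_const h hz (by simpa using hh) γ')
  obtain ⟨w, ⟨hw, hw1⟩, hw2⟩ := ((h1.and_eventually hk).and_eventually
    (isOpen_ball.mem_nhds hzr)).exists
  have hw3 := ball_subset_ball P.r_lt.le hw2
  refine int_pos ((isCompact_closedBall _ _).prod (isCompact_closedBall _ _))
    (((cont_W2 P).mul (continuous_re.comp_continuousOn ((cont_d hc).mul (cont_d hc)))).mono hs)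
    (fun p hp => mul_nonneg (mul_nonneg (mul_nonneg (P.nonneg _) (Kth.dens_pos (hs hp).1).le)
      (Kth.wt_nonneg _ _ (hs hp).2)) ?_) (z := (z, w))
    (prod_mem_nhds (mem_of_superset (isOpen_ball.mem_nhds hzr) ball_subset_closedBall)
      (mem_of_superset (isOpen_ball.mem_nhds hw2)
        (ball_subset_closedBall.trans (closedBall_subset_closedBall hrr))))
    (mul_ne_zero (mul_ne_zero (mul_ne_zero hγ.ne' (Kth.dens_pos hz).ne') hw1) ?_)
  · rw [mul_re, hre _ (hs hp).1 _ (hs hp).2, mul_zero, sub_zero]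
    exact mul_self_nonneg _
  · have h2 := hre z hz w hw3
    rw [mul_re, h2, mul_zero, sub_zero]
    exact mul_self_ne_zero.2 fun h3 => hw (sub_eq_zero.1 (Complex.ext h3 h2)).symm

end Quad

variable {G : ℕ} [hG : Fact (2 ≤ G)] {b : ZMod 2} {D : Nest G b}

namespace Quad

open MeasureTheory Asymptotics Topology

theorem tendsto_norm : Tendsto (fun x : L G → ℂ => ‖x‖) (𝓝 0) (𝓝 0) := tendsto_norm_zero

/-- The difference quotient of the eigenvalue along the family. -/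
theorem slope_bigO (F : Fam D) :
    (fun x => dslope (khat 2) 1 (1 + F.a x) - deriv (khat 2) 1) =O[𝓝 0] fun x => ‖x‖ := by
  have ha := F.a_diff.differentiableAt (ball_mem_nhds 0 F.δ_pos)
  have h1 : DifferentiableAt ℂ (dslope (khat 2) 1) (1 + F.a 0) :=
    ((differentiableOn_dslope univ_mem).2 (differentiable_khat 2).differentiableOn).differentiableAt
      univ_mem
  have h2 := (h1.comp 0 (ha.const_add 1)).isBigO_sub
  refine IsBigO.norm_right ?_
  simpa [F.a_zero, dslope_same] using h2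

/-- The expansion of the zero. -/
theorem expand (F : Fam D) (P : Part (surf G)) {Θ : (L G → ℂ) →ₗ[ℂ] ℂ → ℂ}
    (hc : ∀ x, ContinuousOn (Θ x) (ball 0 1)) {r' C δ : ℝ} (hr' : r' < 1) (hrr : P.r ≤ r')
    (hI2 : ∀ F : ℂ × ℂ → ℂ, ContinuousOn F (ball 0 1 ×ˢ ball 0 1) →
      hI (fun z => P.χ z * hI fun w => kk 2 z w * F (z, w)) =
        wI (volume.prod volume) (closedBall 0 P.r ×ˢ closedBall 0 r') (W2 P) F)
    (hδ : 0 < δ) (hb : ∀ x : L G → ℂ, ∀ z : ℂ, ‖z‖ ≤ r' → ‖Θ x z‖ ≤ C * ‖x‖ ∧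
      (‖x‖ < δ → ‖F.phi x z - 2 * Real.pi * (1 + Θ x z)‖ ≤ C * ‖x‖ ^ 2))
    (hk : deriv (khat 2) 1 ≠ 0) (hA : wI volume (closedBall 0 P.r) (W1 P) (fun _ => 1) ≠ 0) :
    (F.a =O[𝓝 0] fun x => ‖x‖ ^ 2) ∧
      (fun x => F.a x - (2 * deriv (khat 2) 1 * wI volume (closedBall 0 P.r) (W1 P) fun _ => 1)⁻¹ *
        wI (volume.prod volume) (closedBall 0 P.r ×ˢ closedBall 0 r') (W2 P)
          fun p => (Θ x p.1 - Θ x p.2) * (Θ x p.1 - Θ x p.2)) =O[𝓝 0] fun x => ‖x‖ ^ 3 := by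
  have hK1 := isCompact_closedBall (0 : ℂ) P.r
  have hK2 := hK1.prod (isCompact_closedBall (0 : ℂ) r')
  have hs1 := Kth.sub_ball P.r_lt
  have hs := prod_mono hs1 (Kth.sub_ball hr')
  have hc0 : (2 * Real.pi : ℂ) ≠ 0 := mul_ne_zero two_ne_zero (ofReal_ne_zero.2 Real.pi_ne_zero)
  generalize (2 * Real.pi : ℂ) = c at hb hc0
  generalize hA' : wI volume (closedBall 0 P.r) (W1 P) (fun _ => 1) = A at hA
  have hev : ∀ᶠ x : L G → ℂ in 𝓝 0, ‖x‖ < δ := tendsto_norm.eventually (gt_mem_nhds hδ)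
  have hev' : ∀ᶠ x : L G → ℂ in 𝓝 0, x ∈ ball 0 F.δ ∧ -x ∈ ball 0 F.δ :=
    mem_of_superset (ball_mem_nhds 0 F.δ_pos) fun x hx => ⟨hx, by simpa using hx⟩
  have e0 : (fun q : (L G → ℂ) × ℂ => Θ q.1 q.2) =O[𝓝 0 ×ˢ 𝓟 (closedBall 0 r')]
      fun q => ‖q.1‖ := IsBigO.of_bound C (eventually_prod_principal_iff.2
    (Eventually.of_forall fun x z hz => by
      simpa using (hb x z (mem_closedBall_zero_iff.1 hz)).1))
  have e1 : (fun q : (L G → ℂ) × ℂ => F.phi q.1 q.2 - c * (1 + Θ q.1 q.2))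
      =O[𝓝 0 ×ˢ 𝓟 (closedBall 0 r')] fun q => ‖q.1‖ ^ 2 :=
    IsBigO.of_bound C (eventually_prod_principal_iff.2 (hev.mono fun x hx z hz => by
      simpa using (hb x z (mem_closedBall_zero_iff.1 hz)).2 hx))
  have e2 : (fun q : (L G → ℂ) × ℂ => F.phi (-q.1) q.2 - c * (1 - Θ q.1 q.2))
      =O[𝓝 0 ×ˢ 𝓟 (closedBall 0 r')] fun q => ‖q.1‖ ^ 2 :=
    IsBigO.of_bound C (eventually_prod_principal_iff.2 (hev.mono fun x hx z hz => by
      simpa [sub_eq_add_neg] using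
        (hb (-x) z (mem_closedBall_zero_iff.1 hz)).2 (by rwa [norm_neg])))
  have hsub : closedBall (0 : ℂ) P.r ⊆ closedBall 0 r' := closedBall_subset_closedBall hrr
  have hB : (fun x => hI (fun z => P.χ z * (F.phi x z * F.phi (-x) z)) - c ^ 2 * A) =O[𝓝 0]
      fun x => ‖x‖ := by
    have h1 := (alg1 (tendsto_norm.comp tendsto_fst) e0 e1 e2).mono
      (prod_mono le_rfl (principal_mono.2 hsub))
    refine (wI_bigO (μ := volume) hK1 ((cont_W1 P).mono hs1)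
      (F := fun x z => F.phi x z * F.phi (-x) z + -c ^ 2 * 1) h1).congr'
      (hev'.mono fun x hx => ?_) EventuallyEq.rfl
    simp only
    rw [wI_add hK1 ((cont_W1 P).mono hs1) (((F.eig 2 hx.1).1.fun_mul (F.eig 2 hx.2).1).mono hs1)
      continuousOn_const, wI_mul, hA', I1_eq]
    ring
  have d0 : (fun q : (L G → ℂ) × ℂ × ℂ => Θ q.1 q.2.1 - Θ q.1 q.2.2)
      =O[𝓝 0 ×ˢ 𝓟 (closedBall 0 P.r ×ˢ closedBall 0 r')] fun q => ‖q.1‖ :=
    pull (n := fun x => ‖x‖) hsub e0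
  have d1 : (fun q : (L G → ℂ) × ℂ × ℂ => F.phi q.1 q.2.1 - F.phi q.1 q.2.2 -
      c * (Θ q.1 q.2.1 - Θ q.1 q.2.2))
      =O[𝓝 0 ×ˢ 𝓟 (closedBall 0 P.r ×ˢ closedBall 0 r')] fun q => ‖q.1‖ ^ 2 :=
    (pull (n := fun x => ‖x‖ ^ 2) hsub e1).congr_left fun q => by ring
  have d2 : (fun q : (L G → ℂ) × ℂ × ℂ => F.phi (-q.1) q.2.1 - F.phi (-q.1) q.2.2 +
      c * (Θ q.1 q.2.1 - Θ q.1 q.2.2))
      =O[𝓝 0 ×ˢ 𝓟 (closedBall 0 P.r ×ˢ closedBall 0 r')] fun q => ‖q.1‖ ^ 2 :=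
    (pull (n := fun x => ‖x‖ ^ 2) hsub e2).congr_left fun q => by ring
  have hq := wI_bigO (μ := volume.prod volume) hK2 ((cont_W2 P).mono hs)
    (F := fun x p => (Θ x p.1 - Θ x p.2) * (Θ x p.1 - Θ x p.2)) (n := fun x => ‖x‖ ^ 2)
    ((d0.mul d0).congr_right fun q => (sq _).symm)
  have hR := wI_bigO (μ := volume.prod volume) hK2 ((cont_W2 P).mono hs)
    (F := fun x p => (F.phi x p.1 - F.phi x p.2) * (F.phi (-x) p.1 - F.phi (-x) p.2) +
      c ^ 2 * ((Θ x p.1 - Θ x p.2) * (Θ x p.1 - Θ x p.2))) (n := fun x => ‖x‖ ^ 3)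
    (alg2 (tendsto_norm.comp tendsto_fst) d0 d1 d2)
  have hB0 : c ^ 2 * A ≠ 0 := mul_ne_zero (pow_ne_zero _ hc0) hA
  have key := alg3 (a := F.a) tendsto_norm hk hB0 (slope_bigO F) hB (hq.const_mul_left (c ^ 2 / 2))
    ((hR.const_mul_left (-1 / 2)).congr' ?_ EventuallyEq.rfl)
  · refine ⟨key.1, key.2.congr_left fun x => ?_⟩
    field_simp
  · filter_upwards [hev', (tendsto_of_bigO tendsto_norm hB).eventually_ne hB0] with x hx hne
    have g1 := F.eig 2 hx.1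
    have g2 := F.eig 2 hx.2
    rw [thS_neg] at g2
    obtain ⟨g3, g4⟩ := P.green g1 g2
    have g5 := sub_eq_zero.1 ((mul_eq_zero.1 g3).resolve_right hne)
    have g6 := (cont_d g1.1).fun_mul (cont_d g2.1)
    have g7 := sub_smul_dslope (khat 2) 1 (1 + F.a x)
    rw [add_sub_cancel_left, smul_eq_mul] at g7
    rw [wI_add hK2 ((cont_W2 P).mono hs) (g6.mono hs)
      (continuousOn_const.fun_mul (((cont_d (hc x)).fun_mul (cont_d (hc x))).mono hs)), wI_mul,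
      ← hI2 _ g6, g4, ← g5, ← khat_one, ← mul_assoc (F.a x), g7]
    ring

end Quad

open Quad MeasureTheory Asymptotics Topology in
theorem exists_quad (F : Fam D) : ∃ (Θ ω ω' : (L G → ℂ) →ₗ[ℂ] ℂ → ℂ)
    (Qb : (L G → ℂ) →ₗ[ℂ] (L G → ℂ) →ₗ[ℂ] ℂ) (C δ : ℝ), 0 < δ ∧
      (∀ x, Harm (surf G) (thS x) (Θ x) (ω x) (ω' x)) ∧ (∀ x y, Qb x y = Qb y x) ∧
      (∀ x y : L G → ℂ, (∀ m, (x m).im = 0) → (∀ m, (y m).im = 0) → (Qb x y).im = 0) ∧
      (∀ x : L G → ℂ, (∀ m, (x m).im = 0) → (∃ γ, thS x γ ≠ 0) → 0 < (Qb x x).re) ∧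
      ∀ x : L G → ℂ, ‖x‖ < δ → ‖F.a x - Qb x x‖ ≤ C * ‖x‖ ^ 3 := by
  obtain ⟨P⟩ := exists_part (surf G)
  obtain ⟨k, hk, hk'⟩ := deriv_khat_one (T := 2) one_lt_two
  obtain ⟨Θ, hc, hb, hh⟩ := F.taylor
  obtain ⟨r', hr', hrr, hI2⟩ := I2_eq P
  obtain ⟨C, δ, hδ, hb⟩ := hb r' hr'
  have hK1 := isCompact_closedBall (0 : ℂ) P.r
  have hK2 := hK1.prod (isCompact_closedBall (0 : ℂ) r')
  have hs := prod_mono (Kth.sub_ball P.r_lt) (Kth.sub_ball hr')
  obtain ⟨A, hA, hA'⟩ : ∃ A : ℝ, 0 < A ∧ wI volume (closedBall 0 P.r) (W1 P) (fun _ => 1) = A := by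
    have h1 := wI_real (μ := volume) (W := W1 P) (f := fun _ => 1) hK1 fun _ _ => one_im
    refine ⟨_, ?_, h1⟩
    have h2 := P.hI_pos
    have h3 := I1_eq P fun _ => 1
    simp only [mul_one] at h3
    rwa [h3, h1, ofReal_re] at h2
  obtain ⟨h1, h2⟩ := expand F P hc hr' hrr hI2 hδ hb (hk' ▸ ofReal_ne_zero.2 hk.ne')
    (hA' ▸ ofReal_ne_zero.2 hA.ne')
  have h3 : HasFDerivAt F.a (0 : (L G → ℂ) →L[ℂ] ℂ) 0 := by
    rw [hasFDerivAt_iff_isLittleO_nhds_zero]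
    simpa [F.a_zero] using h1.trans_isLittleO (isLittleO_norm_pow_id one_lt_two)
  obtain ⟨ω, ω', hH⟩ := hh h3.fderiv
  obtain ⟨C', h4⟩ := h2.bound
  obtain ⟨δ', hδ', h5⟩ := Metric.eventually_nhds_iff.1 h4
  have hcd := fun x => (cont_d (hc x)).mono hs
  have hW := (cont_W2 P).mono hs
  have hcst : (2 * deriv (khat 2) 1 * wI volume (closedBall 0 P.r) (W1 P) fun _ => 1)⁻¹ =
      (((2 * k * A)⁻¹ : ℝ) : ℂ) := by
    rw [hk', hA']
    push_cast
    rfl
  have hre : ∀ x y : L G → ℂ, (∀ m, (x m).im = 0) → (∀ m, (y m).im = 0) →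
      ∀ p ∈ closedBall (0 : ℂ) P.r ×ˢ closedBall (0 : ℂ) r',
        ((Θ x p.1 - Θ x p.2) * (Θ y p.1 - Θ y p.2)).im = 0 := fun x y hx hy p hp => by
    rw [mul_im, ((hH x).real P fun γ => Th_im x hx _).2 _ (hs hp).1 _ (hs hp).2,
      ((hH y).real P fun γ => Th_im y hy _).2 _ (hs hp).1 _ (hs hp).2, mul_zero, zero_mul, add_zero]
  refine ⟨Θ, ω, ω', LinearMap.mk₂ ℂ (fun x y => (((2 * k * A)⁻¹ : ℝ) : ℂ) *
    wI (volume.prod volume) (closedBall 0 P.r ×ˢ closedBall 0 r') (W2 P)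
      fun p => (Θ x p.1 - Θ x p.2) * (Θ y p.1 - Θ y p.2)) (fun x x' y => ?_) (fun c x y => ?_)
    (fun x y y' => ?_) (fun c x y => ?_), C', δ', hδ', hH, fun x y => ?_, fun x y hx hy => ?_,
    fun x hx hne => ?_, fun x hx => ?_⟩
  · rw [← mul_add, ← wI_add hK2 hW ((hcd x).fun_mul (hcd y)) ((hcd x').fun_mul (hcd y))]
    congr 2
    funext p
    simp only [map_add, Pi.add_apply]
    ring
  · rw [smul_eq_mul, mul_left_comm, ← wI_mul _ _ _ c]
    congr 2
    funext p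
    simp only [map_smul, Pi.smul_apply, smul_eq_mul]
    ring
  · rw [← mul_add, ← wI_add hK2 hW ((hcd x).fun_mul (hcd y)) ((hcd x).fun_mul (hcd y'))]
    congr 2
    funext p
    simp only [map_add, Pi.add_apply]
    ring
  · rw [smul_eq_mul, mul_left_comm, ← wI_mul _ _ _ c]
    congr 2
    funext p
    simp only [map_smul, Pi.smul_apply, smul_eq_mul]
    ring
  · simp only [LinearMap.mk₂_apply, mul_comm (Θ x _ - Θ x _)]
  · rw [LinearMap.mk₂_apply, wI_real hK2 (hre x y hx hy), ← ofReal_mul, ofReal_im]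
  · rw [LinearMap.mk₂_apply, wI_real hK2 (hre x x hx hx), ← ofReal_mul, ofReal_re]
    exact mul_pos (by positivity) (quad_pos P (hH x) (fun γ => Th_im x hx _) hne hr' hrr)
  · have h6 := h5 (y := x) (by rwa [dist_zero_right])
    rw [hcst] at h6
    simpa only [LinearMap.mk₂_apply, norm_pow, norm_norm] using h6

end Pool.Agent.Lib.MP_de7bb2_an
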