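import Pool.Agent.Lib.MP_de7bb2_an.H20Ext

/-! The kernel at `s = 0` has dimension at least `2 G - 2`. TASK MASS. -/

namespace Pool.Agent.Lib.MP_de7bb2_an

open Metric Set Complex Filter

variable {G : ℕ} [hG : Fact (2 ≤ G)] {b : ZMod 2}

namespace Mass

omit hG in
theorem sgn_clL (m : L G) : sgn (clL m) m = -1 := by
  rcases Hom.two_cases (par m) with h | h <;> simp [sgn, clL, h]

omit hG in
theorem sgn_one (m : L G) : sgn (1, 1) m = -1 := by simp [sgn]

omit hG in
theorem clL_ne (m : L G) : clL m ≠ (1, 1) := by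
  unfold clL
  split_ifs <;> decide

open Classical in
omit hG in
theorem card_le (b : ZMod 2) : 2 * G + 2 ≤
    Fintype.card {σ : St G // par σ.2 = b ∧ sgn σ.1 σ.2 = -1} := by
  let f : L G → {σ : St G // par σ.2 = b ∧ sgn σ.1 σ.2 = -1} := fun m =>
    if h : par m = b then ⟨((1, 1), m), h, sgn_one m⟩
    else ⟨(clL (m + 1), m + 1), (par_add_one m).trans (ArcAux.add_one_eq h), sgn_clL _⟩
  have hf : Function.Injective f := by
    intro m m' e
    simp only [f] at e
    split_ifs at e <;> simp only [Subtype.mk.injEq, Prod.ext_iff (x := (_, _))] at e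
    · exact e.2
    · exact absurd (Prod.ext e.1.1.symm e.1.2.symm) (clL_ne _)
    · exact absurd (Prod.ext e.1.1 e.1.2) (clL_ne _)
    · exact add_right_cancel e.2
  simpa using Fintype.card_le_of_injective f hf

open Classical in
omit hG in
theorem sum_prio {m : L G} (h : par m = b) {f : L G → ℂ} (hf : ∑ m', f m' = 0) :
    (∑ m', if Edge b m m' then f m' else 0) = -f m := by
  rw [← Finset.sum_erase_add _ _ (Finset.mem_univ m)] at hf ⊢
  rw [if_neg (fun e => e.1 rfl), add_zero, ← eq_neg_of_add_eq_zero_left hf]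
  exact Finset.sum_congr rfl fun m' hm =>
    if_pos ⟨(Finset.ne_of_mem_erase hm).symm, fun e => absurd h e⟩

/-- A sign which changes at every step. -/
def eps (q : Q) : ℂ := if q.1 = q.2 then 1 else -1

omit hG in
theorem eps_step (q : Q) (m : L G) : eps (q + clL m) = -eps q := by
  obtain ⟨a, c⟩ := q
  rcases Hom.two_cases (par m) with h | h <;> rcases Hom.two_cases a with rfl | rfl <;>
    rcases Hom.two_cases c with rfl | rfl <;> simp [eps, clL, h, CharTwo.add_self_eq_zero]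

theorem eps_cases (q : Q) : eps q = 1 ∨ eps q = -1 := by
  unfold eps
  split_ifs <;> simp

omit hG in
theorem ev_deriv {S : Type*} {μ ν : Vec (S × ℕ)} {σ : S} {c : ℂ} (h0 : μ (σ, 0) = 0)
    (h : ∀ k : ℕ, ν (σ, k) = c * μ (σ, k + 1) / (k + 1)) {R : ℝ} (hR : 1 < R) {F : ℂ → ℂ}
    (hF : DifferentiableOn ℂ F (ball 0 R)) : ev ν σ (deriv F) = c * ev μ σ F := by
  rw [ev, ev, (EvT.summ_ev μ σ (hF.continuousOn.mono (Op1.sphere_sub hR))).tsum_eq_zero_add, h0,
    zero_mul, zero_add, ← tsum_mul_left]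
  refine tsum_congr fun k => ?_
  have : (k + 1 : ℂ) ≠ 0 := Nat.cast_add_one_ne_zero k
  rw [h, coef_deriv hR hF]
  field_simp

open Classical in
omit hG in
theorem mulV_Lop (D : Nest G b) (s : ℂ) (x : L G → ℂ) (μ : Vec (St G × ℕ)) (q : Q) (m : L G)
    (a : ℕ) : mulV (Lop D s x) μ ((q, m), a) = exp (sgn q m * x m) * ∑ m', if Edge b m m' then
      ev μ (q + clL m, m') (fun η => exp (-s * D.lj m m' η) * D.psi m m' η ^ a) else 0 := by
  rw [Lop, Op1.mulV_apply_sys1 D.one_lt_R D.q_lt (fun σ σ' h => D.into _ _ h.1)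
    (fun σ σ' h => ((D.lj_diff _ _ h.1).const_mul _).cexp.const_mul _), Fintype.sum_prod_type,
    Finset.sum_comm, Finset.mul_sum]
  refine Finset.sum_congr rfl fun m' _ => ?_
  rw [Finset.sum_eq_single (q + clL m) (fun q' _ h => if_neg fun e => h e.2) (by simp)]
  by_cases h : Edge b m m'
  · rw [if_pos ⟨h, rfl⟩, if_pos h, ← ev_const_mul]
    simp only [mul_assoc]
  · rw [if_neg fun e => h e.1, if_neg h, mul_zero]

open Classical in
omit hG in
theorem mulV_mass (D : Nest G b) (x : L G → ℂ) (μ : Vec (St G × ℕ)) (q : Q) (m : L G) :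
    mulV (Lop D 0 x) μ ((q, m), 0) =
      exp (sgn q m * x m) * ∑ m', if Edge b m m' then μ ((q + clL m, m'), 0) else 0 := by
  simp [mulV_Lop, ev_const]

omit hG in
theorem eq_zero (D : Nest G b) {x : L G → ℂ} (hZ : Zd D 1 x ≠ 0) {μ : Vec (St G × ℕ)}
    (h : Fixd D 0 x μ) (h0 : ∀ σ, μ (σ, 0) = 0) : μ = 0 := by
  classical
  have hτ : ∀ m, (D.τ m : ℂ) ≠ 0 := fun m => ofReal_ne_zero.2 (D.τ_pos m).ne'
  have hs : Summable fun i : St G × ℕ =>
      ‖eps i.1.1 * D.τ i.1.2 * μ (i.1, i.2 + 1) / (i.2 + 1)‖ := by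
    refine Summable.of_nonneg_of_le (fun _ => norm_nonneg _) (fun i => ?_)
      (Blk.summable_comp μ (g := fun i : St G × ℕ => (i.1, i.2 + 1))
        fun i j e => by simpa [Prod.ext_iff] using e)
    have h1 : ‖eps i.1.1‖ = 1 := by rcases eps_cases i.1.1 with e | e <;> simp [e]
    have h2 : ‖(D.τ i.1.2 : ℂ)‖ ≤ 1 := by
      rw [norm_real, Real.norm_eq_abs, abs_of_pos (D.τ_pos _)]
      nlinarith [D.τR_lt i.1.2, D.τ_pos i.1.2, D.one_lt_R]
    have h3 : 1 ≤ ‖(i.2 + 1 : ℂ)‖ := by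
      rw [← Nat.cast_succ, Complex.norm_natCast]
      exact_mod_cast Nat.succ_pos _
    rw [norm_div, norm_mul, norm_mul, h1, one_mul]
    exact (div_le_self (by positivity) h3).trans (mul_le_of_le_one_left (norm_nonneg _) h2)
  obtain ⟨ν, hν⟩ : ∃ ν : Vec (St G × ℕ), ∀ σ k,
      ν (σ, k) = eps σ.1 * D.τ σ.2 * μ (σ, k + 1) / (k + 1) :=
    ⟨toVec _, fun σ k => toVec_apply hs (σ, k)⟩
  have h1 : mulV (Lop D 1 x) ν = ν := by
    refine lp.ext (funext ?_)
    rintro ⟨⟨q, m⟩, a⟩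
    have ha : (a + 1 : ℂ) ≠ 0 := Nat.cast_add_one_ne_zero a
    rw [hν, ← h, mulV_Lop, mulV_Lop, mul_left_comm, mul_div_assoc, Finset.mul_sum (a := _ * _),
      Finset.sum_div]
    congr 1
    refine Finset.sum_congr rfl fun m' _ => ?_
    split_ifs with he
    · have hd := (D.into _ _ he).1
      have h2 := ev_deriv (h0 (q + clL m, m')) (hν _) D.one_lt_R (hd.pow (a + 1))
      have h3 : ev ν (q + clL m, m') (fun η => exp (-1 * D.lj m m' η) * D.psi m m' η ^ a) =
          ev ν (q + clL m, m') fun η => (-(D.τ m / D.τ m') / (a + 1)) *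
            deriv (D.psi m m' ^ (a + 1)) η := by
        refine ev_congr _ _ fun y hy => ?_
        have hy' := Op1.mem_of_norm D.one_lt_R hy.le
        rw [deriv_pow (hd.differentiableAt (isOpen_ball.mem_nhds hy')), D.deriv_psi _ _ he y hy']
        have := hτ m
        have := hτ m'
        push_cast
        field_simp
      rw [h3, ev_const_mul, h2, eps_step]
      have := hτ m'
      simp only [neg_zero, zero_mul, exp_zero, one_mul]
      change _ = _ * ev μ _ (D.psi m m' ^ (a + 1)) / _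
      field_simp
    · simp
  have h2 : ν = 0 := by_contra fun e => hZ ((det1_eq_zero_iff _).2 ⟨ν, e, h1⟩)
  refine lp.ext (funext ?_)
  rintro ⟨σ, _ | k⟩
  · exact h0 σ
  · have h3 := hν σ k
    have h4 : eps σ.1 ≠ 0 := by rcases eps_cases σ.1 with e | e <;> simp [e]
    rw [h2] at h3
    simpa [h4, hτ, Nat.cast_add_one_ne_zero] using h3.symm

end Mass

open Mass

open Classical in
theorem exists_masses (b : ZMod 2) (x : L G → ℂ) : ∃ a : Fin (2 * G - 2) → St G → ℂ,
    LinearIndependent ℂ a ∧ ∀ j, (∀ q, ∑ m, a j (q, m) = 0) ∧ ∀ q m, a j (q, m) =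
      exp (sgn q m * x m) * ∑ m', if Edge b m m' then a j (q + clL m, m') else 0 := by
  let T : (St G → ℂ) →ₗ[ℂ] ({σ : St G // ¬(par σ.2 = b ∧ sgn σ.1 σ.2 = -1)} → ℂ) × (Q → ℂ) :=
    LinearMap.prod (LinearMap.pi fun σ => LinearMap.proj σ.1 - exp (sgn σ.1.1 σ.1.2 * x σ.1.2) •
      ∑ m', if Edge b σ.1.2 m' then LinearMap.proj (σ.1.1 + clL σ.1.2, m') else 0)
      (LinearMap.pi fun q => ∑ m, LinearMap.proj (q, m))
  have h1 := T.finrank_range_add_finrank_ker
  have h2 := (LinearMap.range T).finrank_le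
  have h3 := card_le (G := G) b
  have h4 := Fintype.card_subtype_le fun σ : St G => par σ.2 = b ∧ sgn σ.1 σ.2 = -1
  have h5 : Fintype.card Q = 4 := by simp
  rw [Module.finrank_prod, Module.finrank_fintype_fun_eq_card, Module.finrank_fintype_fun_eq_card,
    Fintype.card_subtype_compl, h5] at h2
  rw [Module.finrank_fintype_fun_eq_card] at h1
  obtain ⟨f, hf⟩ := exists_linearIndependent_of_le_finrank (R := ℂ) (M := LinearMap.ker T)
    (n := 2 * G - 2) (by omega)
  refine ⟨fun j => f j, hf.map' (LinearMap.ker T).subtype (Submodule.ker_subtype _), fun j => ?_⟩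
  have hg : T (f j) = 0 := (f j).2
  beta_reduce
  generalize (f j).1 = g at hg ⊢
  have h6 : ∀ q, ∑ m, g (q, m) = 0 := fun q => by
    simpa [T] using congrFun (congrArg Prod.snd hg) q
  have h7 : ∀ q m, ¬(par m = b ∧ sgn q m = -1) → g (q, m) =
      exp (sgn q m * x m) * ∑ m', if Edge b m m' then g (q + clL m, m') else 0 := by
    intro q m h
    simpa [T, sub_eq_zero, apply_ite (fun e : (St G → ℂ) →ₗ[ℂ] ℂ => e g)] using
      congrFun (congrArg Prod.fst hg) ⟨(q, m), h⟩
  refine ⟨h6, fun q m => ?_⟩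
  by_cases h : par m = b ∧ sgn q m = -1
  · have h8 := h7 (q + clL m) m fun e => by
      rw [Hom.sgn_self, h.2] at e
      norm_num at e
    rw [add_assoc, Hom.q_add_self, add_zero, sum_prio h.1 (h6 q), Hom.sgn_self] at h8
    rw [sum_prio h.1 (h6 _), h8, neg_mul, exp_neg]
    field_simp
  · exact h7 q m h

theorem exists_kernel (D : Nest G b) {x : L G → ℂ} (hZ : Zd D 1 x ≠ 0) :
    ∃ v : Fin (2 * G - 2) → Vec (St G × ℕ), LinearIndependent ℂ v ∧
      ∀ j, Fixd D 0 x (v j) ∧ ∀ q, ∑ m, v j ((q, m), 0) = 0 := by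
  classical
  obtain ⟨a, ha, ha'⟩ := exists_masses b x
  let u : (St G → ℂ) → Vec (St G × ℕ) := fun c => ∑ σ, c σ • NucA.sgl (σ, 0)
  have hu : ∀ c σ, u c (σ, 0) = c σ := fun c σ => by
    simp only [u]
    rw [Blk.sum_apply]
    simp [NucA.sgl_apply]
  let P : Nuc (St G × ℕ) := ∑ σ, outer (NucA.sgl (σ, 0)) (NucA.sgl (σ, 0))
  have hP : ∀ v, mulV P v = u fun σ => v (σ, 0) := fun v => by
    simp only [P, u, map_sum, _root_.sum_apply, mulV_outer]
    refine Finset.sum_congr rfl fun σ _ => ?_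
    rw [dot_apply, tsum_eq_single (σ, 0) fun i hi => by rw [NucA.sgl_ne hi, zero_mul],
      NucA.sgl_self, one_mul]
  let B := Lop D 0 x - nmul (Lop D 0 x) P
  have hB : ∀ v, mulV B v = mulV (Lop D 0 x) (v - u fun σ => v (σ, 0)) := fun v => by
    simp only [B, map_sub, _root_.sub_apply, mulV_nmul, hP]
  have hB0 : ∀ v σ, mulV B v (σ, 0) = 0 := by
    rintro v ⟨q, m⟩
    simp [hB, mulV_mass, hu]
  have hB1 : ∀ v : Vec (St G × ℕ), (∀ σ, v (σ, 0) = 0) → mulV B v = mulV (Lop D 0 x) v :=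
    fun v hv => by simp [hB, hv, u]
  have hd : det1 B ≠ 0 := fun e => by
    obtain ⟨v, hv, hv'⟩ := (det1_eq_zero_iff _).1 e
    have h0 : ∀ σ, v (σ, 0) = 0 := fun σ => by rw [← hv', hB0]
    exact hv (eq_zero D hZ ((hB1 v h0).symm.trans hv') h0)
  choose k hk using fun j => exists_solve hd (mulV (Lop D 0 x) (u (a j)) - u (a j))
  have h0 : ∀ j σ, k j (σ, 0) = 0 := by
    rintro j ⟨q, m⟩
    have := congrArg (Vec.evalL ((q, m), 0)) (hk j)
    simp only [map_sub, Vec.evalL_apply, hB0, mulV_mass, hu, ← (ha' j).2 q m] at this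
    simpa using this
  have h1 : ∀ j σ, (u (a j) + k j) (σ, 0) = a j σ := fun j σ => by
    simp [hu, h0]
  refine ⟨fun j => u (a j) + k j, ?_, fun j => ⟨?_, fun q => ?_⟩⟩
  · refine LinearIndependent.of_comp
      (LinearMap.pi fun σ : St G => (Vec.evalL (σ, 0)).toLinearMap) ?_
    exact (congrArg (fun c => LinearIndependent ℂ c)
      (funext fun j => funext fun σ => h1 j σ)).mpr ha
  · have := hk j
    rw [hB1 _ (h0 j), sub_eq_sub_iff_add_eq_add] at this
    rw [Fixd, map_add, ← this, add_comm]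
  · simp only [h1, (ha' j).1 q]

end Pool.Agent.Lib.MP_de7bb2_an
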