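import Pool.Agent.Lib.MP_de7bb2_an.H20Pert
import Pool.Agent.Lib.MP_de7bb2_an.H20Fact

/-! The three determinants with parameters `(s, ε, ε', x)`. TASK ZETA. -/

namespace Pool.Agent.Lib.MP_de7bb2_an

open Metric Set Complex Filter Topology

theorem Zeta.summ {a : ℕ → ℂ} (h : Summable fun n : ℕ => ‖a n‖ / (n + 1)) :
    Summable fun n : ℕ => a n / (n + 1) := by
  refine Summable.of_norm (h.congr fun n => ?_)
  rw [norm_div, ← Nat.cast_succ, ← Nat.cast_succ, Complex.norm_natCast]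

theorem det_alt {S : Type*} [Fintype S] (E : S → S → Prop) {R q : ℝ} (hR : 1 < R) (hq : q < 1) :
    ∃ M₀ > 0, ∀ f g w : S → S → ℂ × ℂ → ℂ,
      (∀ σ σ', E σ σ' → Into R q (f σ σ') ∧ Into R q (g σ σ')) →
      (∀ σ σ', E σ σ' → DifferentiableOn ℂ (w σ σ') (ball 0 R)) →
      (∀ σ σ', E σ σ' → ∀ p ∈ ball (0 : ℂ × ℂ) R, ‖w σ σ' p‖ ≤ M₀) →
      ∀ ξ η : ∀ n, Cyc E n → ZMod (n + 1) → ℂ, (∀ n π, IsOrb R f g π.1 (ξ n π) (η n π)) →
        det1 (sysA E f g w) ≠ 0 ∧ det1 (sysD E f g w) ≠ 0 ∧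
        det1 (sysO E f g w) = det1 (sysA E f g w) * det1 (sysD E f g w) * exp (-∑' n : ℕ,
          (∑ π : Cyc E n, ∏ i, w (π.1 i) (π.1 (i + 1)) (ξ n π i, η n π (i + 1))) / (n + 1)) := by
  obtain ⟨C, hC⟩ := norm_sys2_le E hR hq
  have h0 : 0 < 1 / (2 * (|C| + 1)) := by positivity
  have h1 : C * (1 / (2 * (|C| + 1))) < 1 := by
    rw [mul_one_div, div_lt_one (by positivity)]
    linarith [le_abs_self C, abs_nonneg C]
  refine ⟨_, h0, fun f g w hfg hw hb ξ η horb => ?_⟩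
  obtain ⟨b1, b2, b3⟩ := hC f g w _ h0.le hfg hw hb
  have s1 := summable_tr_of_norm_lt (b1.trans_lt h1)
  have s2 := summable_tr_of_norm_lt (b2.trans_lt h1)
  have s3 := summable_tr_of_norm_lt (b3.trans_lt h1)
  rw [det1_eq_exp s1, det1_eq_exp s2, det1_eq_exp s3]
  refine ⟨exp_ne_zero _, exp_ne_zero _, ?_⟩
  simp only [← tr_alt hR hq hfg hw _ (ξ _) (η _) (horb _), sub_div]
  rw [((Zeta.summ s1).sub (Zeta.summ s2)).tsum_sub (Zeta.summ s3),
    (Zeta.summ s1).tsum_sub (Zeta.summ s2), ← exp_add, ← exp_add]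
  congr 1
  ring

theorem card_cyc_le {S : Type*} [Fintype S] (E : S → S → Prop) (n : ℕ) :
    Fintype.card (Cyc E n) ≤ Fintype.card S ^ (n + 1) := by
  classical
  refine (Fintype.card_le_of_injective (fun π : Cyc E n => π.1) Subtype.val_injective).trans ?_
  rw [Fintype.card_fun, ZMod.card]

variable {G : ℕ} [hG : Fact (2 ≤ G)] {B : Base G} {N : ℕ} {w : V}

abbrev P4 (G : ℕ) := ℂ × ℂ × ℂ × (L G → ℂ)

noncomputable def Pert.wZ (T : Pert B N w) (p : P4 G) (σ σ' : StN G N) (y : ℂ × ℂ) : ℂ :=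
  wt p.2.2.2 σ * exp (-p.1 * (T.ρ p.2.1 σ σ' y + p.2.2.1 * B.rb w σ σ' y))

noncomputable def Pert.dN (T : Pert B N w) (p : P4 G) : ℂ :=
  det1 (sysO EN (T.f p.2.1) (T.g p.2.1) (T.wZ p))
noncomputable def Pert.dA (T : Pert B N w) (p : P4 G) : ℂ :=
  det1 (sysA EN (T.f p.2.1) (T.g p.2.1) (T.wZ p))
noncomputable def Pert.dD (T : Pert B N w) (p : P4 G) : ℂ :=
  det1 (sysD EN (T.f p.2.1) (T.g p.2.1) (T.wZ p))

/-- The weight with frozen cross maps. -/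
noncomputable def Base.w1 (B : Base G) (w : V) (s e : ℂ) (x : L G → ℂ) (σ σ' : StN G N)
    (y : ℂ × ℂ) : ℂ := wt x σ * exp (-s * (B.r0 σ σ' y + e * B.rb w σ σ' y))

theorem Pert.into (T : Pert B N w) {ε : ℂ} (hε : ε ∈ ball (0 : ℂ) T.ε₀) (σ σ' : StN G N)
    (h : EN σ σ') : Into B.R T.q (T.f ε σ σ') ∧ Into B.R T.q (T.g ε σ σ') := by
  have hm : MapsTo (fun p : ℂ × ℂ => (ε, p)) (ball 0 B.R) (ball 0 T.ε₀ ×ˢ ball 0 B.R) :=
    fun p hp => ⟨hε, hp⟩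
  have hd : DifferentiableOn ℂ (fun p : ℂ × ℂ => (ε, p)) (ball 0 B.R) := by fun_prop
  exact ⟨⟨(T.diff σ σ' h).1.comp hd hm, fun p hp => (T.bnd σ σ' h ε hε p hp).1⟩,
    (T.diff σ σ' h).2.1.comp hd hm, fun p hp => (T.bnd σ σ' h ε hε p hp).2.1⟩

theorem Pert.frozen (T : Pert B N w) (s e : ℂ) (x : L G → ℂ) :
    T.dN (s, 0, e, x) = det1 (sysO (EN (N := N)) (fun σ σ' y => B.psS σ σ' y.1)
      (fun σ σ' y => B.psU σ σ' y.2) (B.w1 w s e x)) ∧
    T.dA (s, 0, e, x) = det1 (sysA (EN (N := N)) (fun σ σ' y => B.psS σ σ' y.1)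
      (fun σ σ' y => B.psU σ σ' y.2) (B.w1 w s e x)) ∧
    T.dD (s, 0, e, x) = det1 (sysD (EN (N := N)) (fun σ σ' y => B.psS σ σ' y.1)
      (fun σ σ' y => B.psU σ σ' y.2) (B.w1 w s e x)) := by
  obtain ⟨h1, h2, h3⟩ := sys2_congr (E := EN (N := N)) (f := T.f 0) (g := T.g 0)
    (w := T.wZ (s, 0, e, x)) (f' := fun σ σ' y => B.psS σ σ' y.1)
    (g' := fun σ σ' y => B.psU σ σ' y.2) (w' := B.w1 w s e x) B.one_lt_R fun σ σ' h p hp => by
      obtain ⟨a1, a2, a3⟩ := T.zero σ σ' h p hp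
      refine ⟨a1, a2, ?_⟩
      simp only [Pert.wZ, Base.w1, a3]
  exact ⟨congrArg det1 h1, congrArg det1 h2, congrArg det1 h3⟩

theorem Base.w1_zero (B : Base G) (w : V) (s : ℂ) (x : L G → ℂ) :
    B.w1 (N := N) w s 0 x = B.w0 (s, x) := by
  funext σ σ' y
  simp only [Base.w1, Base.w0, zero_mul, add_zero]

theorem Pert.const (T : Pert B N w) (e : ℂ) (x : L G → ℂ) :
    T.dA (0, 0, e, x) = T.dA (0, 0, 0, x) ∧ T.dD (0, 0, e, x) = T.dD (0, 0, 0, x) := by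
  have h : T.wZ (0, 0, e, x) = T.wZ (0, 0, 0, x) := by
    funext σ σ' y
    simp only [Pert.wZ, neg_zero, zero_mul]
  simp only [Pert.dA, Pert.dD, h, and_self]

theorem zeta_diff (B : Base G) : ∀ᶠ N in atTop, ∀ w, Hyp w → ∀ T : Pert B N w,
    DifferentiableOn ℂ T.dN (univ ×ˢ ball 0 T.ε₀ ×ˢ univ ×ˢ univ) ∧
    DifferentiableOn ℂ T.dA (univ ×ˢ ball 0 T.ε₀ ×ˢ univ ×ˢ univ) ∧
    DifferentiableOn ℂ T.dD (univ ×ˢ ball 0 T.ε₀ ×ˢ univ ×ˢ univ) := by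
  obtain ⟨C, hC⟩ := B.rb_diff
  filter_upwards [hC] with N hN w hw T
  have hm : MapsTo (fun x : P4 G × ℂ × ℂ => (x.1.2.1, x.2))
      ((univ ×ˢ ball 0 T.ε₀ ×ˢ univ ×ˢ univ) ×ˢ ball 0 B.R) (ball 0 T.ε₀ ×ˢ ball 0 B.R) :=
    fun p hp => ⟨hp.1.2.1, hp.2⟩
  have hd : DifferentiableOn ℂ (fun x : P4 G × ℂ × ℂ => (x.1.2.1, x.2))
      ((univ ×ˢ ball 0 T.ε₀ ×ˢ univ ×ˢ univ) ×ˢ ball 0 B.R) := by fun_prop
  obtain ⟨h1, h2, h3⟩ := diffOn_sys2 (E := EN (N := N)) (f := fun p : P4 G => T.f p.2.1)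
    (g := fun p : P4 G => T.g p.2.1) (w := T.wZ)
    (isOpen_univ.prod (isOpen_ball.prod (isOpen_univ.prod isOpen_univ))) B.one_lt_R T.q_lt
    (fun σ σ' h => (T.diff σ σ' h).1.comp hd hm) (fun σ σ' h => (T.diff σ σ' h).2.1.comp hd hm)
    (fun σ σ' h => by
      have a1 := (T.diff σ σ' h).2.2.comp hd hm
      have a2 : DifferentiableOn ℂ (fun x : P4 G × ℂ × ℂ => B.rb w σ σ' x.2)
          ((univ ×ˢ ball 0 T.ε₀ ×ˢ univ ×ˢ univ) ×ˢ ball 0 B.R) :=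
        (hN w hw σ σ' h).1.comp differentiableOn_snd fun p hp => hp.2
      refine DifferentiableOn.mul ?_ (DifferentiableOn.cexp (DifferentiableOn.mul (by fun_prop)
        (a1.add (DifferentiableOn.mul (by fun_prop) a2))))
      unfold wt
      fun_prop)
    fun σ σ' h p hp x hx => ⟨(T.bnd σ σ' h _ hp.2.1 x hx).1, (T.bnd σ σ' h _ hp.2.1 x hx).2.1⟩
  exact ⟨differentiable_det1.comp_differentiableOn h1, differentiable_det1.comp_differentiableOn h2,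
    differentiable_det1.comp_differentiableOn h3⟩

omit hG in
theorem Zeta.re_sgn_le (x : L G → ℂ) (c : Q) (m : L G) : (sgn c m * x m).re ≤ ‖x‖ := by
  refine (re_le_norm _).trans ?_
  rcases Hom.sgn_cases c m with h | h <;> simpa [h] using norm_le_pi_norm x m

theorem Zeta.exists_C {r m : ℝ} (hr : 0 < r) (hm : 0 < m) (a : ℝ) :
    ∃ C : ℝ, 0 ≤ C ∧ Real.exp (a - C * r) ≤ m := by
  refine ⟨max 0 ((a - Real.log m) / r), le_max_left _ _, ?_⟩
  rw [← Real.le_log_iff_exp_le hm]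
  have := (div_le_iff₀ hr).1 (le_max_right 0 ((a - Real.log m) / r))
  linarith

/-- Periods of the perturbed flow and the product formula for large `Re s`. -/
theorem exists_periods (B : Base G) : ∀ᶠ N in atTop, ∀ w, Hyp w → ∀ T : Pert B N w,
    ∃ ℓ : ℝ → ∀ n, Cyc (StE (G := G) 1) n → ℝ, (∀ e : ℝ, |e| < T.ε₀ → ∀ n π,
      (n + 1) * (B.r₀ / 4) ≤ ℓ e n π ∧ ∃ E, PerG (fam (1 : W G) w) e (lin (gam π)) (ℓ e n π) E) ∧
      ∀ x : L G → ℂ, ∃ C : ℝ, ∀ s : ℂ, C < s.re → ∀ e : ℝ, |e| < T.ε₀ →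
        (s.im = 0 → T.dA (s, e, 0, x) ≠ 0 ∧ T.dD (s, e, 0, x) ≠ 0) ∧
        T.dN (s, e, 0, x) = T.dA (s, e, 0, x) * T.dD (s, e, 0, x) *
          exp (-∑' n : ℕ, (∑ π, exp (Th x (gam π) - s * ℓ e n π)) / (n + 1)) := by
  filter_upwards [zeta_diff B] with N hN w hw T
  obtain ⟨d1, d2, d3⟩ := hN w hw T
  have hb : ∀ e : ℝ, |e| < T.ε₀ → (e : ℂ) ∈ ball (0 : ℂ) T.ε₀ := fun e he => by
    rwa [mem_ball_zero_iff, norm_real, Real.norm_eq_abs]
  have ho : ∀ (e : ℝ) (n : ℕ) (π : Cyc (EN (G := G) (N := N)) n), ∃ ξ η : ZMod (n + 1) → ℂ,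
      |e| < T.ε₀ → IsOrb B.R (T.f e) (T.g e) π.1 ξ η ∧ ∀ i, (ξ i).im = 0 ∧ (η i).im = 0 := by
    intro e n π
    by_cases he : |e| < T.ε₀
    · obtain ⟨ξ, η, h1, h2⟩ := exists_orb B.one_lt_R T.q_lt (T.into (hb e he)) π
      exact ⟨ξ, η, fun _ => ⟨h1, h2 fun σ σ' h a b ha hb' =>
        ⟨(T.real e he σ σ' h a b ha hb').1, (T.real e he σ σ' h a b ha hb').2.1⟩⟩⟩
    · exact ⟨0, 0, fun h => absurd h he⟩
  choose ξ η ho using ho
  obtain ⟨ℓ, hℓ⟩ : ∃ ℓ : ℝ → ∀ n, Cyc (StE (G := G) 1) n → ℝ, ∀ e n π, ℓ e n (cycE N n π) =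
      ∑ i, (T.ρ e (π.1 i) (π.1 (i + 1)) (ξ e n π i, η e n π (i + 1))).re :=
    ⟨fun e n π => ∑ i, (T.ρ e (((cycE N n).symm π).1 i) (((cycE N n).symm π).1 (i + 1))
      (ξ e n ((cycE N n).symm π) i, η e n ((cycE N n).symm π) (i + 1))).re,
      fun e n π => by simp only [Equiv.symm_apply_apply]⟩
  have hlow : ∀ e : ℝ, |e| < T.ε₀ → ∀ n π, (n + 1) * (B.r₀ / 4) ≤ ℓ e n π := fun e he n π => by
    obtain ⟨π, rfl⟩ := (cycE N n).surjective π
    rw [hℓ]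
    have := Finset.card_nsmul_le_sum Finset.univ _ (B.r₀ / 4) fun i _ =>
      (T.bnd _ _ (π.2 i) e (hb e he) (ξ e n π i, η e n π (i + 1))
        (Rugh.mem_ball2.2 ⟨((ho e n π he).1 i).1, ((ho e n π he).1 (i + 1)).2.1⟩)).2.2
    rwa [Finset.card_univ, ZMod.card, nsmul_eq_mul, Nat.cast_succ] at this
  refine ⟨ℓ, fun e he n π => ⟨hlow e he n π, ?_⟩, fun x => ?_⟩
  · obtain ⟨π, rfl⟩ := (cycE N n).surjective π
    rw [hℓ]
    exact T.per e he n π _ _ (ho e n π he).1 (ho e n π he).2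
  obtain ⟨M, hM, hdet⟩ := det_alt (EN (G := G) (N := N)) B.one_lt_R T.q_lt
  have hK : (0 : ℝ) < 2 * (Fintype.card (St G) + 1) := by positivity
  have hr : 0 < B.r₀ / 4 := by linarith [B.r₀_pos]
  obtain ⟨C, hC0, hC⟩ := Zeta.exists_C hr (lt_min hM (one_div_pos.2 hK)) ‖x‖
  have real : ∀ s : ℝ, C < s → ∀ e : ℝ, |e| < T.ε₀ →
      T.dA (s, e, 0, x) ≠ 0 ∧ T.dD (s, e, 0, x) ≠ 0 ∧
        T.dN (s, e, 0, x) = T.dA (s, e, 0, x) * T.dD (s, e, 0, x) *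
          exp (-∑' n : ℕ, (∑ π, exp (Th x (gam π) - s * ℓ e n π)) / (n + 1)) := by
    intro s hs e he
    obtain ⟨a1, a2, a3⟩ := hdet (T.f e) (T.g e) (T.wZ (s, e, 0, x)) (T.into (hb e he))
      (fun σ σ' h => by
        have a1 : DifferentiableOn ℂ (T.ρ e σ σ') (ball 0 B.R) :=
          (T.diff σ σ' h).2.2.comp (f := fun p : ℂ × ℂ => ((e : ℂ), p)) (by fun_prop)
            fun p hp => ⟨hb e he, hp⟩
        have a2 : T.wZ (s, e, 0, x) σ σ' = fun y => wt x σ * exp (-s * T.ρ e σ σ' y) := by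
          funext y
          simp only [Pert.wZ, zero_mul, add_zero]
        rw [a2]
        fun_prop)
      (fun σ σ' h p hp => by
        have a1 := (T.bnd σ σ' h e (hb e he) p hp).2.2
        have a2 := Zeta.re_sgn_le x σ.cls σ.hd
        simp only [Pert.wZ, zero_mul, add_zero, wt, ← exp_add, norm_exp]
        refine le_trans (Real.exp_le_exp.2 ?_) (hC.trans (min_le_left _ _))
        rw [add_re, neg_mul, neg_re, re_ofReal_mul]
        nlinarith)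
      (ξ e) (η e) fun n π => (ho e n π he).1
    refine ⟨a1, a2, a3.trans ?_⟩
    refine congrArg (fun z => T.dA (s, e, 0, x) * T.dD (s, e, 0, x) * exp (-z))
      (tsum_congr fun n => congrArg (· / ((n : ℂ) + 1)) ?_)
    rw [← (cycE N n).sum_comp]
    refine Finset.sum_congr rfl fun π _ => ?_
    simp only [Pert.wZ, zero_mul, add_zero]
    rw [Finset.prod_mul_distrib, prod_wt, ← exp_sum, ← exp_add, hℓ, ← Finset.mul_sum, neg_mul,
      ← sub_eq_add_neg, ofReal_sum]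
    congr 3
    refine Finset.sum_congr rfl fun i _ => ?_
    have h1 : ((ξ e n π i).re : ℂ) = ξ e n π i := by
      rw [← re_add_im (ξ e n π i), ((ho e n π he).2 i).1]; simp
    have h2 : ((η e n π (i + 1)).re : ℂ) = η e n π (i + 1) := by
      rw [← re_add_im (η e n π (i + 1)), ((ho e n π he).2 (i + 1)).2]; simp
    have h3 := (T.real e he _ _ (π.2 i) (ξ e n π i).re (η e n π (i + 1)).re
      ((abs_re_le_norm _).trans_lt ((ho e n π he).1 i).1)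
      ((abs_re_le_norm _).trans_lt ((ho e n π he).1 (i + 1)).2.1)).2.2
    rw [h1, h2] at h3
    exact Complex.ext (by simp) (by simp [h3])
  refine ⟨C, fun s hs e he => ⟨fun h => ?_, ?_⟩⟩
  · have h1 : (s.re : ℂ) = s := Complex.ext (by simp) (by simp [h])
    have := real s.re hs e he
    rw [h1] at this
    exact ⟨this.1, this.2.1⟩
  have hm : MapsTo (fun s : ℂ => ((s, e, 0, x) : P4 G)) {s | C < s.re}
      (univ ×ˢ ball 0 T.ε₀ ×ˢ univ ×ˢ univ) := fun s _ => ⟨trivial, hb e he, trivial, trivial⟩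
  have hd : DifferentiableOn ℂ (fun s : ℂ => ((s, e, 0, x) : P4 G)) {s | C < s.re} := by fun_prop
  refine eqOn_halfplane_of_real (C := C) (d1.comp hd hm)
    (((d2.comp hd hm).mul (d3.comp hd hm)).mul (DifferentiableOn.cexp (DifferentiableOn.neg
      (diffOn_tsum (u := fun n : ℕ => (1 / 2 : ℝ) ^ n)
        (f := fun (n : ℕ) (s : ℂ) => (∑ π, exp (Th x (gam π) - s * ℓ e n π)) / (n + 1))
        (isOpen_lt continuous_const continuous_re)
        (fun n => by fun_prop) summable_geometric_two fun n s hs => ?_))))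
    (fun s hs _ => (real s hs e he).2.2) hs
  have h1 : ∀ π : Cyc (StE (G := G) 1) n, ‖exp (Th x (gam π) - s * ℓ e n π)‖ ≤
      (1 / (2 * (Fintype.card (St G) + 1))) ^ (n + 1) := fun π => by
    refine le_trans ?_ (pow_le_pow_left₀ (Real.exp_pos _).le (hC.trans (min_le_right _ _)) _)
    rw [norm_exp, ← Real.exp_nat_mul, Real.exp_le_exp, sub_re, re_mul_ofReal, Th_gam, re_sum]
    have a1 := Finset.sum_le_card_nsmul Finset.univ _ ‖x‖ fun i _ =>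
      Zeta.re_sgn_le x (π.1 i).1 (π.1 i).2
    rw [Finset.card_univ, ZMod.card, nsmul_eq_mul] at a1
    have a2 : C * ((n + 1) * (B.r₀ / 4)) ≤ s.re * ℓ e n π :=
      mul_le_mul (le_of_lt hs) (hlow e he n π) (by positivity) (hC0.trans (le_of_lt hs))
    push_cast at a1 ⊢
    linarith
  have h2 := (norm_sum_le _ _).trans (Finset.sum_le_card_nsmul Finset.univ _ _ fun π _ => h1 π)
  rw [Finset.card_univ, nsmul_eq_mul] at h2
  have h3 : (Fintype.card (Cyc (StE (G := G) 1) n) : ℝ) ≤ (Fintype.card (St G) + 1) ^ (n + 1) := by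
    exact_mod_cast (card_cyc_le _ n).trans (Nat.pow_le_pow_left (Nat.le_succ _) _)
  rw [norm_div, ← Nat.cast_succ, Complex.norm_natCast]
  refine (div_le_self (norm_nonneg _) (by exact_mod_cast n.succ_pos)).trans (h2.trans ?_)
  calc _ ≤ ((Fintype.card (St G) : ℝ) + 1) ^ (n + 1) *
        (1 / (2 * (Fintype.card (St G) + 1))) ^ (n + 1) := by gcongr
    _ = (1 / 2) ^ (n + 1) := by
      rw [← mul_pow]
      congr 1
      field_simp
    _ ≤ _ := pow_le_pow_of_le_one (by norm_num) (by norm_num) n.le_succ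

end Pool.Agent.Lib.MP_de7bb2_an
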