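import Pool.Agent.Lib.MP_de7bb2_an.H20B0
import Pool.Agent.Lib.MP_de7bb2_an.H20Zeta
import Pool.Agent.Lib.MP_de7bb2_an.H20Mass
import Pool.Agent.Lib.MP_de7bb2_an.H20Lead

/-! First variation of the leading coefficient at `s = 0`. TASK RF. -/

namespace Pool.Agent.Lib.MP_de7bb2_an

open Metric Set Complex Filter Topology

namespace Rf

theorem ev2_lin {S : Type*} {R : ℝ} (hR : 1 < R) (l v : Vec (S × ℕ)) (σ σ' : S)
    {H K : ℂ × ℂ → ℂ} (hH : DifferentiableOn ℂ H (ball 0 R))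
    (hK : DifferentiableOn ℂ K (ball 0 R)) (a b : ℂ) :
    ev2 l σ v σ' (fun p => a * H p + b * K p) = a * ev2 l σ v σ' H + b * ev2 l σ v σ' K := by
  have cH := hH.continuousOn.mono (Rugh2.torus_sub hR)
  have cK := hK.continuousOn.mono (Rugh2.torus_sub hR)
  have h1 := continuousOn_ev σ' (v := fun _ : ℂ => v) (F := fun x y => H (x, y))
    continuousOn_const cH
  have h2 := continuousOn_ev σ' (v := fun _ : ℂ => v) (F := fun x y => K (x, y))
    continuousOn_const cK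
  simp only [ev2]
  rw [← ev_const_mul, ← ev_const_mul, ← ev_add l σ (continuousOn_const.fun_mul h1)
    (continuousOn_const.fun_mul h2)]
  refine ev_congr l σ fun x hx => ?_
  have hx' : x ∈ sphere (0 : ℂ) 1 := mem_sphere_zero_iff_norm.2 hx
  have a1 : ContinuousOn (fun y => H (x, y)) (sphere 0 1) :=
    cH.comp (f := fun y : ℂ => (x, y)) (by fun_prop) fun y hy => ⟨hx', hy⟩
  have a2 : ContinuousOn (fun y => K (x, y)) (sphere 0 1) :=
    cK.comp (f := fun y : ℂ => (x, y)) (by fun_prop) fun y hy => ⟨hx', hy⟩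
  rw [ev_add v σ' (continuousOn_const.fun_mul a1) (continuousOn_const.fun_mul a2), ev_const_mul,
    ev_const_mul]

theorem trace_smul {n : ℕ} (M V : Matrix (Fin n) (Fin n) ℂ) {a : ℂ} (ha : a ≠ 0) (b : ℂ)
    (hM : M.det ≠ 0) : ((a • M)⁻¹ * b • V).trace = b / a * (M⁻¹ * V).trace := by
  have h : (a • M)⁻¹ = a⁻¹ • M⁻¹ := by
    refine Matrix.inv_eq_left_inv ?_
    rw [Matrix.smul_mul, Matrix.mul_smul, smul_smul, inv_mul_cancel₀ ha, one_smul,
      Matrix.nonsing_inv_mul _ (isUnit_iff_ne_zero.2 hM)]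
  rw [h, Matrix.smul_mul, Matrix.mul_smul, smul_smul, Matrix.trace_smul, smul_eq_mul,
    div_eq_inv_mul]

end Rf

variable {G : ℕ} [hG : Fact (2 ≤ G)]

theorem exists_Rf (B : Base G) (P : Part (surf G)) {w : ℂ} (hw : w ∈ ball (0 : ℂ) 1) :
    ∃ c : ℝ, 0 < c ∧ ∀ᶠ N in atTop, ∀ (T : Pert B N (zv w)) (x : L G → ℂ), NR 0 x →
      Zd B.D0 1 (-x) ≠ 0 → Zd B.D1 1 x ≠ 0 →
      (∀ e, ((2 * G - 2 : ℕ) : ℕ∞) ≤ analyticOrderAt (fun s => T.dN (s, 0, e, x)) 0) ∧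
      (tay (2 * G - 2) (fun s => T.dN (s, 0, 0, x)) ≠ 0 →
        ∃ A A' : Fin (2 * G - 2) → (ℂ → ℂ) × (ℂ → ℂ), (∀ j, Tw (surf G) (thS (-x)) (A j)) ∧
          (∀ j, Tw (surf G) (thS x) (A' j)) ∧
          (Matrix.of fun j k => P.pI (valP (A j) (A' k))).det ≠ 0 ∧
          deriv (fun e => tay (2 * G - 2) fun s => T.dN (s, 0, e, x)) 0 =
            c * ((Matrix.of fun j k => P.pI (valP (A j) (A' k)))⁻¹ *
              Matrix.of fun j k => valP (A j) (A' k) w).trace *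
              tay (2 * G - 2) fun s => T.dN (s, 0, 0, x)) := by
  have hw1 : 0 < 1 - ‖w‖ ^ 2 := Area.one_sub_pos hw
  have hI := I0_pos
  have hI' : (I0 : ℂ) ≠ 0 := ofReal_ne_zero.2 hI.ne'
  obtain ⟨C₀, hC₀⟩ := B.rb_diff
  refine ⟨I0 * (1 - ‖w‖ ^ 2) ^ 2 / 4, by positivity, ?_⟩
  filter_upwards [hC₀, pairB_r0 B P, tel B, zeta_diff B] with N hd hp ht hz T x hN h0 h1
  obtain ⟨ν, hν, hν'⟩ := exists_kernel B.D0 h0
  obtain ⟨μ, hμ, hμ'⟩ := exists_kernel B.D1 h1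
  have hψ := B.into (N := N)
  obtain ⟨C, hC⟩ := lead_coeff (linearIndependent_tenL (indep_up (N := N) (-x) hν).2)
    (linearIndependent_tenR (indep_up (N := N) x hμ).1)
    (fun i => mulV_sysO_tenL B.one_lt_R B.q_lt hψ (fixL_up B (hν' i).1))
    fun j => mulV_sysO_tenR B.one_lt_R B.q_lt hψ (fixR_up B (hμ' j).1)
  set M : Matrix (Fin (2 * G - 2)) (Fin (2 * G - 2)) ℂ :=
    Matrix.of fun j k => P.pI (valP (frm B.D0 (-x) (ν j)) (frm B.D1 x (μ k))) with hM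
  set V : Matrix (Fin (2 * G - 2)) (Fin (2 * G - 2)) ℂ :=
    Matrix.of fun j k => valP (frm B.D0 (-x) (ν j)) (frm B.D1 x (μ k)) w with hV
  have key : ∀ e : ℂ, ((2 * G - 2 : ℕ) : ℕ∞) ≤ analyticOrderAt (fun s => T.dN (s, 0, e, x)) 0 ∧
      tay (2 * G - 2) (fun s => T.dN (s, 0, e, x)) = C * (((-2 / I0 : ℂ) • M) +
        e • ((-((1 - ‖w‖ ^ 2) ^ 2 / 2 : ℝ) : ℂ) • V)).det := by
    intro e
    have hr : ∀ σ σ' : StN G N, EN σ σ' → DifferentiableOn ℂ
        (fun p => B.r0 σ σ' p + e * B.rb (zv w) σ σ' p) (ball 0 B.R) := fun σ σ' h =>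
      (hd _ (hyp_zv hw) σ σ' h).2.1.add ((hd _ (hyp_zv hw) σ σ' h).1.const_mul e)
    have hder := hasDerivAt_sysO (E := EN (N := N)) (f := fun σ σ' y => B.psS σ σ' y.1)
      (g := fun σ σ' y => B.psU σ σ' y.2) (w := fun σ _ _ => wt x σ) B.one_lt_R B.q_lt
      (fun σ σ' h => ⟨Rugh2.into_fst (hψ σ σ' h).1, Rugh2.into_snd (hψ σ σ' h).2⟩)
      (fun _ _ _ => differentiableOn_const _) hr
    have hlim := hC _ _ (by simp only [neg_zero, zero_mul, exp_zero, mul_one]) hder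
    have han : AnalyticAt ℂ (fun s => T.dN (s, 0, e, x)) 0 := by
      refine Differentiable.analyticAt (differentiableOn_univ.1 ((hz _ (hyp_zv hw) T).1.comp
        (f := fun s : ℂ => ((s, 0, e, x) : P4 G)) (by fun_prop) fun s _ => ?_)) 0
      exact ⟨trivial, mem_ball_self T.ε₀_pos, trivial, trivial⟩
    have hlim' : Tendsto (fun s => T.dN (s, 0, e, x) / s ^ (2 * G - 2)) (𝓝[≠] 0) (𝓝 _) :=
      hlim.congr fun s => by rw [(T.frozen s e x).1]; rfl
    obtain ⟨k1, k2⟩ := tay_of_tendsto han hlim'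
    refine ⟨k1, k2.trans (congrArg (fun A : Matrix _ _ ℂ => C * A.det) ?_)⟩
    ext i j
    have e0 := hp x hN (ν i) (μ j) (hν' i).1 (hμ' j).1 (hν' i).2 (hμ' j).2
    have e1 := (ht _ (hyp_zv hw) x hN (ν i) (μ j) (hν' i).1 (hμ' j).1).trans
      (br_totV (hμ' j).1 (hν' i).1 (hμ' j).2 (hν' i).2 hw)
    have e2 : -2 / (I0 : ℂ) * M i j = pairB N x (ν i) (μ j) B.r0 := by
      rw [hM, Matrix.of_apply, div_mul_eq_mul_div, ← e0, mul_div_cancel_left₀ _ hI']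
    simp only [Matrix.add_apply, Matrix.smul_apply, smul_eq_mul, Matrix.of_apply, e2]
    rw [hV, Matrix.of_apply, ← e1, dot_sysO_ten B.one_lt_R B.q_lt hψ
      (w := fun σ σ' p => -(B.r0 σ σ' p + e * B.rb (zv w) σ σ' p) * wt x σ)
      fun σ σ' h => (hr σ σ' h).neg.mul_const _]
    simp only [pairB, Finset.mul_sum, ← Finset.sum_add_distrib, ← Finset.sum_neg_distrib]
    refine Finset.sum_congr rfl fun σ _ => Finset.sum_congr rfl fun σ' _ => ?_
    split_ifs with h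
    · have := Rf.ev2_lin B.one_lt_R (up StN.pa (-x) (ν i)) (up StN.fu x (μ j)) σ σ'
        ((hd _ (hyp_zv hw) σ σ' h).2.1.const_mul (wt x σ))
        ((hd _ (hyp_zv hw) σ σ' h).1.const_mul (wt x σ)) (-1) (-e)
      rw [neg_eq_iff_eq_neg]
      refine Eq.trans (congrArg _ ?_) (this.trans (by ring))
      funext p
      ring
    · simp
  refine ⟨fun e => (key e).1, fun hne => ⟨fun j => frm B.D0 (-x) (ν j),
    fun j => frm B.D1 x (μ j), fun j => tw_frm (hν' j).1 hN.neg (hν' j).2,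
    fun j => tw_frm (hμ' j).1 hN (hμ' j).2, ?_⟩⟩
  have hk := (key 0).2
  rw [zero_smul, add_zero] at hk
  have hB : ((-2 / I0 : ℂ) • M).det ≠ 0 := fun h => hne (by rw [hk, h, mul_zero])
  have hM0 : M.det ≠ 0 := fun h => hB (by rw [Matrix.det_smul, h, mul_zero])
  refine ⟨hM0, ?_⟩
  have ha : (-2 / I0 : ℂ) ≠ 0 := div_ne_zero (by norm_num) hI'
  rw [funext fun e => (key e).2, ((hasDerivAt_det_pencil _ _ hB).const_mul C).deriv,
    Rf.trace_smul M V ha _ hM0, hk]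
  push_cast
  field_simp
  ring

end Pool.Agent.Lib.MP_de7bb2_an
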