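import Pool.Agent.Lib.MP_de7bb2_an.H20Zord
import Pool.Agent.Lib.MP_de7bb2_an.H20Rf
import Pool.Agent.Lib.MP_de7bb2_an.H20Lim
import Pool.Agent.Lib.MP_de7bb2_an.H20Quad
import Pool.Agent.Lib.MP_de7bb2_an.H20Low
import Pool.Agent.Lib.MP_de7bb2_an.H20Neg
import Pool.Agent.Lib.MP_de7bb2_an.H20Abs

/-! The order at zero is not always `2 G - 2`. -/

namespace Pool.Agent.Lib.MP_de7bb2_an

open Metric Set Complex Filter Topology

variable {G : ℕ} [hG : Fact (2 ≤ G)]

namespace Main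

theorem exp_ne_one {z : ℂ} (h0 : z ≠ 0) (h1 : ‖z‖ < 1) : exp z ≠ 1 := by
  intro h
  obtain ⟨n, hn⟩ := Complex.exp_eq_one_iff.1 h
  have hn0 : n ≠ 0 := by
    rintro rfl
    simp at hn
    exact h0 hn
  have h2 : (1 : ℝ) ≤ |(n : ℝ)| := by exact_mod_cast Int.one_le_abs hn0
  have h3 : ‖z‖ = |(n : ℝ)| * (2 * Real.pi) := by
    rw [hn]
    simp [abs_of_pos Real.pi_pos]
  nlinarith [Real.pi_gt_three]

theorem nr_of_small : ∃ δ > 0, ∀ x : L G → ℂ, ‖x‖ < δ → (∀ j, x (j + 1) - x (j - 1) ≠ 0) →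
    NR 0 x ∧ ∀ j, exp (x (j + 1) - x (j - 1)) ≠ 1 := by
  refine ⟨min (1 / 2) (lw G / 2), lt_min (by norm_num) (by linarith [lw_pos (G := G)]), ?_⟩
  intro x hx hne
  have hb : ∀ j, ‖x (j + 1) - x (j - 1)‖ < min 1 (lw G) := by
    intro j
    have h1 := norm_sub_le (x (j + 1)) (x (j - 1))
    have h2 := norm_le_pi_norm x (j + 1)
    have h3 := norm_le_pi_norm x (j - 1)
    have h4 := (lt_min_iff.1 hx).1
    have h5 := (lt_min_iff.1 hx).2
    exact lt_min (by linarith) (by linarith)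
  refine ⟨fun j e he => ?_, fun j => exp_ne_one (hne j) (lt_min_iff.1 (hb j)).1⟩
  have hn : ‖e * (x (j + 1) - x (j - 1))‖ = ‖x (j + 1) - x (j - 1)‖ := by
    rcases he with rfl | rfl <;> simp [norm_sub_rev]
  have he0 : e ≠ 0 := by rcases he with rfl | rfl <;> simp
  simp only [zero_mul, sub_zero]
  refine ⟨exp_ne_one (mul_ne_zero he0 (hne j)) (hn ▸ (lt_min_iff.1 (hb j)).1), ?_⟩
  exact lt_of_le_of_lt ((re_le_norm _).trans hn.le) (lt_min_iff.1 (hb j)).2

noncomputable def dir (G : ℕ) : Fin 3 → L G → ℂ := ![xa 0, xa 1, xb G]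

omit hG in
theorem dir_im (i : Fin 3) (m : L G) : (dir G i m).im = 0 := by
  fin_cases i
  · simp only [dir, xa, Fin.zero_eta, Matrix.cons_val_zero, Pi.single_apply]
    split_ifs <;> simp
  · simp only [dir, xa, Fin.mk_one, Matrix.cons_val_one, Matrix.cons_val_zero, Pi.single_apply]
    split_ifs <;> simp
  · exact Complex.natCast_im _

theorem dir_indep (a : Fin 3 → ℝ) (h : ∀ γ : (surf G).Γ, ∑ i, a i * thS (dir G i) γ = 0) :
    a = 0 := by
  have := indep_dirs (G := G) (a 0) (a 1) (a 2) (fun γ hγ => by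
    have h1 := h (show Gam G from ⟨γ, hγ⟩)
    simpa [Fin.sum_univ_three, thS, dir] using h1)
  funext i
  fin_cases i
  · exact this.1
  · exact this.2.1
  · exact this.2.2

theorem thS_comb (t l : ℂ) (A C : L G → ℂ) :
    thS (t • (A + l • C)) = fun γ => t * (thS A γ + l * thS C γ) := by
  funext γ
  simp [thS, mul_add]

theorem wall_ne {t : ℝ} (ht : t ≠ 0) {l : ℂ} (hl : l.im ≠ 0) (i : Fin 3) (j : L G) :
    ((t : ℂ) • (dir G i + l • dir G 2)) (j + 1) - ((t : ℂ) • (dir G i + l • dir G 2)) (j - 1) ≠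
      0 := by
  intro h
  have h1 := congrArg Complex.im h
  have h2 := xb_wall_ne (G := G) j
  have e : dir G 2 = xb G := rfl
  have a1 := dir_im (G := G) 2 (j + 1)
  have a2 := dir_im (G := G) 2 (j - 1)
  simp only [Pi.smul_apply, Pi.add_apply, smul_eq_mul, sub_im, mul_im, ofReal_re, add_im, dir_im,
    ofReal_im, zero_mul, mul_zero, zero_add, add_zero, zero_im] at h1
  apply h2
  rw [← e]
  apply Complex.ext
  · have : t * l.im * ((dir G 2 (j + 1)).re - (dir G 2 (j - 1)).re) = 0 := by linarith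
    rcases mul_eq_zero.1 this with h3 | h3
    · exact absurd h3 (mul_ne_zero ht hl)
    · simpa using h3
  · simp [a1, a2]

theorem quad_at {Qb : (L G → ℂ) →ₗ[ℂ] (L G → ℂ) →ₗ[ℂ] ℂ} (hsym : ∀ x y, Qb x y = Qb y x)
    (hre : ∀ x y : L G → ℂ, (∀ m, (x m).im = 0) → (∀ m, (y m).im = 0) → (Qb x y).im = 0)
    (hpos : ∀ x : L G → ℂ, (∀ m, (x m).im = 0) → (∃ γ, thS x γ ≠ 0) → 0 < (Qb x x).re)
    {j : Fin 3} (hj : j ≠ 2) (l₁ : ℂ) :
    AnalyticAt ℂ (fun l : ℂ => Qb (dir G j + l • dir G 2) (dir G j + l • dir G 2)) l₁ ∧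
    (Qb (dir G j + l₁ • dir G 2) (dir G j + l₁ • dir G 2) = 0 →
      deriv (fun l : ℂ => Qb (dir G j + l • dir G 2) (dir G j + l • dir G 2)) l₁ ≠ 0) := by
  set a := (Qb (dir G j) (dir G j)).re
  set b := (Qb (dir G j) (dir G 2)).re
  set c := (Qb (dir G 2) (dir G 2)).re
  have ha : Qb (dir G j) (dir G j) = a :=
    Complex.ext (by simp [a]) (by simpa using hre _ _ (dir_im j) (dir_im j))
  have hb : Qb (dir G j) (dir G 2) = b :=
    Complex.ext (by simp [b]) (by simpa using hre _ _ (dir_im j) (dir_im 2))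
  have hc : Qb (dir G 2) (dir G 2) = c :=
    Complex.ext (by simp [c]) (by simpa using hre _ _ (dir_im 2) (dir_im 2))
  have hq : ∀ s t : ℂ, Qb (s • dir G j + t • dir G 2) (s • dir G j + t • dir G 2) =
      a * s ^ 2 + 2 * b * s * t + c * t ^ 2 := by
    intro s t
    simp only [map_add, map_smul, LinearMap.add_apply, LinearMap.smul_apply, smul_eq_mul,
      hsym (dir G 2) (dir G j), ha, hb, hc]
    ring
  have hf : (fun l : ℂ => Qb (dir G j + l • dir G 2) (dir G j + l • dir G 2)) =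
      fun l => (a : ℂ) + 2 * b * l + c * l ^ 2 := by
    funext l
    have := hq 1 l
    simpa using this
  have hdef : ∀ s t : ℝ, s ≠ 0 ∨ t ≠ 0 → 0 < a * s ^ 2 + 2 * b * s * t + c * t ^ 2 := by
    intro s t hst
    have h1 := hpos ((s : ℂ) • dir G j + (t : ℂ) • dir G 2) (fun m => by simp [dir_im]) (by
      by_contra hn
      push Not at hn
      have h2 := dir_indep (G := G) (Pi.single j s + Pi.single 2 t) (fun γ => by
        have h3 := hn γ
        simp only [thS, map_add, map_smul, Pi.add_apply, Pi.smul_apply, smul_eq_mul] at h3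
        simp only [Pi.add_apply, ofReal_add, add_mul, Finset.sum_add_distrib]
        rw [Finset.sum_eq_single j, Finset.sum_eq_single 2]
        · simpa [thS] using h3
        · intro i _ hi; simp [hi]
        · simp
        · intro i _ hi; simp [hi]
        · simp)
      have h4 := congrFun h2 j
      have h5 := congrFun h2 2
      simp [hj, Ne.symm hj] at h4 h5
      rcases hst with h | h
      · exact h h4
      · exact h h5)
    rw [hq] at h1
    have e : ((a : ℂ) * (s : ℂ) ^ 2 + 2 * b * s * t + c * (t : ℂ) ^ 2) =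
        ((a * s ^ 2 + 2 * b * s * t + c * t ^ 2 : ℝ) : ℂ) := by push_cast; ring
    rwa [e, ofReal_re] at h1
  have hv := congrFun hf l₁
  rw [hf]
  refine ⟨by fun_prop, fun h0 => ?_⟩
  have hd : HasDerivAt (fun l : ℂ => (a : ℂ) + 2 * b * l + c * l ^ 2) (2 * b + 2 * c * l₁) l₁ := by
    have h1 := ((hasDerivAt_id l₁).const_mul (2 * (b : ℂ))).const_add (a : ℂ)
    have h2 := ((hasDerivAt_id l₁).pow 2).const_mul (c : ℂ)
    refine (h1.add h2).congr_deriv ?_
    simp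
    ring
  rw [hd.deriv]
  exact ((quad_simple hdef).2 l₁ (hv ▸ h0)).2

end Main

open Main

theorem main_aux : ∃ φ : ℂ → ℝ, NegCurved (surf G) φ ∧
    ∃ (ρ : (surf G).Γ →* GL (Fin 1) ℂ) (m : ℤ), ZetaOrder (surf G) φ ρ m ∧ m ≠ 2 * G - 2 := by
  by_contra hcon
  push Not at hcon
  obtain ⟨B⟩ := exists_base G
  obtain ⟨F⟩ := exists_fam B.D1
  obtain ⟨P⟩ := exists_part (surf G)
  obtain ⟨Θ, ω, ω', Qb, Cq, δq, hδq, hH, hsym, hQre, hQpos, hQa⟩ := exists_quad F
  obtain ⟨j, l₁, w, hj, hl₁, hw, hρ1⟩ := exists_point P (θ := fun i => thS (dir G i))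
    (fun i => hH (dir G i)) (fun i γ => Th_im _ (dir_im i) _) dir_indep
  obtain ⟨hqa, hqs⟩ := quad_at hsym hQre hQpos hj l₁
  have hρ2 := small_zero hqa hqs
  have hρ3 : ∀ᶠ ρ : ℝ in 𝓝[>] 0, ρ < |l₁.im| / 2 :=
    nhdsWithin_le_nhds (gt_mem_nhds (by positivity))
  obtain ⟨ρ, ⟨hP, hI⟩, ⟨η, hη, hz⟩, hρl, hρ⟩ :=
    (hρ1.and (hρ2.and (hρ3.and self_mem_nhdsWithin))).exists
  replace hρ : 0 < ρ := hρ
  have hG1 : 1 ≤ G := by have := hG.out; omega
  obtain ⟨C₀, hlim⟩ := tendsto_R P hG1 (hH (dir G j)) (hH (dir G 2)) hw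
  obtain ⟨hIc, hI0⟩ := hI C₀
  obtain ⟨c, hc, hRf⟩ := exists_Rf B P hw
  have hW := hyp_zv hw
  obtain ⟨N, hRf, hpert, hfact, hdiff, hord, hfirst⟩ := (hRf.and ((exists_pert B).and
    ((exists_fact B).and ((zeta_diff B).and ((zeta_order B).and (zeta_first B)))))).exists
  obtain ⟨T⟩ := hpert _ hW
  obtain ⟨δf, hδf, U₁, U₂, U₃, hU₁, hU₂, hU₃, hU⟩ := hfact
  obtain ⟨δl, hδl, κ, hκ, hlow⟩ := exists_low (D0 := B.D0) F
  obtain ⟨δn, hδn, hnr⟩ := nr_of_small (G := G)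
  obtain ⟨εn, hεn, hneg⟩ := exists_negCurved (G := G) hW
  set Lim : ℂ → ℂ := fun l => C₀ - 2 * ((ω (dir G j) w + l * ω (dir G 2) w) *
    (ω' (dir G j) w + l * ω' (dir G 2) w)) / P.pI fun z =>
      (ω (dir G j) z + l * ω (dir G 2) z) * (ω' (dir G j) z + l * ω' (dir G 2) z) with hLim
  set I₁ := ‖∮ l in C(l₁, ρ), Lim l‖ with hI₁
  have hI₁p : 0 < I₁ := norm_pos_iff.2 hI0
  set η' := I₁ / (4 * Real.pi * ρ) with hη'
  have hη'p : 0 < η' := by have := Real.pi_pos; positivity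
  have ht1 := hlim (sphere l₁ ρ) (isCompact_sphere _ _) hP η' hη'p
  set M := ‖dir G j‖ + (‖l₁‖ + 2 * ρ) * ‖dir G 2‖ + 1 with hM
  have hM0 : 0 < M := by positivity
  have hMb : ∀ l ∈ ball l₁ (2 * ρ), ‖dir G j + l • dir G 2‖ ≤ M := by
    intro l hl
    have h1 : ‖l‖ ≤ ‖l₁‖ + 2 * ρ := by
      have := norm_add_le l₁ (l - l₁)
      rw [mem_ball_iff_norm] at hl
      simp only [add_sub_cancel] at this
      linarith
    have h2 := norm_add_le (dir G j) (l • dir G 2)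
    rw [norm_smul] at h2
    have h3 := mul_le_mul_of_nonneg_right h1 (norm_nonneg (dir G 2))
    linarith
  set δ := min (min (min δq δf) (min δl δn)) F.δ with hδ
  have hδ0 : 0 < δ := lt_min (by positivity) F.δ_pos
  have ht2 : ∀ᶠ t : ℝ in 𝓝[>] 0, t * M < δ ∧ t * (|Cq| * M ^ 3) < η := by
    apply nhdsWithin_le_nhds
    refine Filter.Eventually.and ?_ ?_
    · exact (show Continuous fun t : ℝ => t * M by fun_prop).continuousAt.eventually_lt
        continuousAt_const (by simpa using hδ0)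
    · exact (show Continuous fun t : ℝ => t * (|Cq| * M ^ 3) by fun_prop).continuousAt.eventually_lt
        continuousAt_const (by simpa using hη)
  obtain ⟨t, htl, ⟨htM, htη⟩, ht⟩ := (ht1.and (ht2.and self_mem_nhdsWithin)).exists
  replace ht : 0 < t := ht
  set X : ℂ → L G → ℂ := fun l => (t : ℂ) • (dir G j + l • dir G 2) with hX
  have hXd : Differentiable ℂ X := by
    simp only [hX]
    fun_prop
  have hXn : ∀ l ∈ ball l₁ (2 * ρ), ‖X l‖ ≤ t * M := by
    intro l hl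
    simp only [hX, norm_smul, norm_real, Real.norm_eq_abs, abs_of_pos ht]
    exact mul_le_mul_of_nonneg_left (hMb l hl) ht.le
  have hXδ : ∀ l ∈ ball l₁ (2 * ρ), ‖X l‖ < δq ∧ ‖X l‖ < δf ∧ ‖X l‖ < δl ∧ ‖X l‖ < δn ∧
      ‖X l‖ < F.δ := by
    intro l hl
    have h := (hXn l hl).trans_lt htM
    simp only [hδ, lt_min_iff] at h
    tauto
  have hXnr : ∀ l ∈ ball l₁ (2 * ρ), NR 0 (X l) ∧ ∀ k, exp (X l (k + 1) - X l (k - 1)) ≠ 1 := by
    intro l hl
    refine hnr _ (hXδ l hl).2.2.2.1 (wall_ne ht.ne' ?_ j)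
    intro h0
    have h1 := abs_im_le_norm (l - l₁)
    rw [mem_ball_iff_norm] at hl
    simp only [sub_im, h0, zero_sub, abs_neg] at h1
    linarith
  have hsub : closedBall l₁ ρ ⊆ ball l₁ (2 * ρ) := closedBall_subset_ball (by linarith)
  have hsub' : sphere l₁ ρ ⊆ ball l₁ (2 * ρ) := sphere_subset_closedBall.trans hsub
  have had : DifferentiableOn ℂ (fun l => F.a (X l)) (ball l₁ (2 * ρ)) :=
    F.a_diff.comp hXd.differentiableOn fun l hl => by simpa using (hXδ l hl).2.2.2.2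
  have ht0 : (t : ℂ) ≠ 0 := by exact_mod_cast ht.ne'
  obtain ⟨hz1, hz2⟩ := hz (fun l => F.a (X l) / (t : ℂ) ^ 2) (had.div_const _) (by
    intro l hl
    have h1 := hQa (X l) (hXδ l hl).1
    have h2 : Qb (X l) (X l) = (t : ℂ) ^ 2 *
        Qb (dir G j + l • dir G 2) (dir G j + l • dir G 2) := by
      simp only [hX, map_smul, LinearMap.smul_apply, smul_eq_mul]
      ring
    have h3 : F.a (X l) / (t : ℂ) ^ 2 - Qb (dir G j + l • dir G 2) (dir G j + l • dir G 2) =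
        (F.a (X l) - Qb (X l) (X l)) / (t : ℂ) ^ 2 := by
      rw [h2]
      field_simp
    rw [h3, norm_div, norm_pow, norm_real, Real.norm_eq_abs, abs_of_pos ht,
      div_le_iff₀ (by positivity)]
    have h4 : ‖X l‖ ^ 3 ≤ (t * M) ^ 3 := pow_le_pow_left₀ (norm_nonneg _) (hXn l hl) 3
    have h5 : Cq * ‖X l‖ ^ 3 ≤ |Cq| * (t * M) ^ 3 :=
      (mul_le_mul_of_nonneg_right (le_abs_self _) (by positivity)).trans
        (mul_le_mul_of_nonneg_left h4 (abs_nonneg _))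
    have h6 : |Cq| * (t * M) ^ 3 = t * (|Cq| * M ^ 3) * t ^ 2 := by ring
    have h7 := mul_le_mul_of_nonneg_right htη.le (sq_nonneg t)
    linarith)
  have ha1 : ∀ l ∈ sphere l₁ ρ, F.a (X l) ≠ 0 := fun l hl h => hz1 l hl (by simp [h])
  set n := 2 * G - 2 with hn
  classical
  set Rf : ℂ → ℂ := fun l => if tay n (fun s => T.dN (s, 0, 0, X l)) = 0 then c * Lim l else
    deriv (fun e => tay n fun s => T.dN (s, 0, e, X l)) 0 / tay n fun s => T.dN (s, 0, 0, X l)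
    with hRfd
  have hRs := fun l (hl : l ∈ sphere l₁ ρ) => hRf T (X l) (hXnr l (hsub' hl)).1
    ((hlow _ (hXδ l (hsub' hl)).2.2.1).1 (ha1 l hl)).1
    ((hlow _ (hXδ l (hsub' hl)).2.2.1).1 (ha1 l hl)).2
  have hmap : Differentiable ℂ fun p : ℂ × ℂ × ℂ × ℂ => ((p.1, p.2.1, p.2.2.1, X p.2.2.2) : P4 G) := by
    fun_prop
  have hmaps : MapsTo (fun p : ℂ × ℂ × ℂ × ℂ => ((p.1, p.2.1, p.2.2.1, X p.2.2.2) : P4 G))
      (univ ×ˢ ball 0 T.ε₀ ×ˢ univ ×ˢ univ) (univ ×ˢ ball 0 T.ε₀ ×ˢ univ ×ˢ univ) :=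
    fun p hp => ⟨trivial, hp.2.1, trivial, trivial⟩
  have hm2 : Differentiable ℂ fun p : ℂ × ℂ => (p.1, X p.2) := by fun_prop
  have hm3 : ∀ d, δ ≤ d → MapsTo (fun p : ℂ × ℂ => (p.1, X p.2)) (ball 0 δ ×ˢ ball l₁ (2 * ρ))
      (ball 0 d) := by
    intro d hd p hp
    rw [mem_ball_zero_iff, Prod.norm_def, max_lt_iff]
    exact ⟨(mem_ball_zero_iff.1 hp.1).trans_le hd, ((hXn _ hp.2).trans_lt htM).trans_le hd⟩
  have hδf' : δ ≤ δf := (min_le_left _ _).trans ((min_le_left _ _).trans (min_le_right _ _))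
  have hδF : δ ≤ F.δ := min_le_right _ _
  have hu := F.u_diff.fun_comp hm2.differentiableOn (hm3 _ hδF)
  obtain ⟨hd1, hd2, hd3⟩ := hdiff _ hW T
  have hm4 : Differentiable ℂ fun p : ℂ × ℂ => Zd B.D1 p.1 (X p.2) := by
    have h1 := (differentiable_Lop B.D1).fun_comp hm2
    exact differentiable_det1.fun_comp h1
  have key : ContinuousOn Rf (sphere l₁ ρ) ∧ (∮ l in C(l₁, ρ), Rf l) = 0 := by
    refine contra_abs (n := n) (l₁ := l₁) hρ T.ε₀_pos hδ0
      (N := fun p => T.dN (p.1, p.2.1, p.2.2.1, X p.2.2.2))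
      (DA := fun p => T.dA (p.1, p.2.1, p.2.2.1, X p.2.2.2))
      (DD := fun p => T.dD (p.1, p.2.1, p.2.2.1, X p.2.2.2))
      (Z := fun p => Zd B.D1 p.1 (X p.2))
      (U₁ := fun p => F.u (p.1, X p.2) * U₁ (p.1, X p.2))
      (U₂ := fun p => F.u (p.1, X p.2) * U₂ (p.1, X p.2))
      (U₃ := fun p => F.u (p.1, X p.2) * U₃ (p.1, X p.2))
      (a := fun l => F.a (X l)) (Rf := Rf) ?_ ?_ ?_ hm4 had ⟨?_, ?_, ?_⟩ ?_ ha1 ?_ ?_ ?_ ?_ ?_ ?_
    · exact hd1.fun_comp hmap.differentiableOn hmaps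
    · exact hd2.fun_comp hmap.differentiableOn hmaps
    · exact hd3.fun_comp hmap.differentiableOn hmaps
    · exact hu.fun_mul (hU₁.fun_comp hm2.differentiableOn (hm3 _ hδf'))
    · exact hu.fun_mul (hU₂.fun_comp hm2.differentiableOn (hm3 _ hδf'))
    · exact hu.fun_mul (hU₃.fun_comp hm2.differentiableOn (hm3 _ hδf'))
    · intro s hs l hl
      obtain ⟨e1, e2, e3, e4, e5, e6⟩ := hU _ (hm3 _ hδf' (show (s, l) ∈ _ from ⟨hs, hl⟩))
      obtain ⟨f1, f2⟩ := F.fac _ (hm3 _ hδF (show (s, l) ∈ _ from ⟨hs, hl⟩))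
      obtain ⟨g1, g2, g3⟩ := T.frozen s 0 (X l)
      rw [B.w1_zero] at g1 g2 g3
      dsimp only at e1 e2 e3 e4 e5 e6 f1 f2 ⊢
      refine ⟨mul_ne_zero f1 e1, mul_ne_zero f1 e2, mul_ne_zero f1 e3, ?_, ?_, ?_⟩
      · rw [g1, e4, f2]
        ring
      · rw [g2, e5, f2]
        ring
      · rw [g3, e6, f2]
        ring
    · intro l hl h0
      obtain ⟨k1, k2⟩ := hz2 l hl (by simp [h0])
      refine ⟨fun h => k1 ?_, fun l' hl' h' => k2 l' hl' (by simp [h'])⟩
      rw [deriv_div_const, h, zero_div]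
    · intro l₀ hl₀ _
      refine ⟨κ, hκ, ?_⟩
      have e1 : ∀ᶠ p : ℂ × ℂ in 𝓝 (0, l₀), p ∈ ball (0 : ℂ) δl ×ˢ ball l₁ (2 * ρ) :=
        (isOpen_ball.prod isOpen_ball).mem_nhds ⟨mem_ball_self hδl, hsub hl₀⟩
      have e2 : ∀ᶠ p : ℂ × ℂ in 𝓝 (0, l₀), NR p.1 (X p.2) :=
        ((isOpen_NR (G := G)).preimage hm2.continuous).mem_nhds
          (show NR 0 (X l₀) from (hXnr l₀ (hsub hl₀)).1)
      filter_upwards [e1, e2] with p h1 h2 h3 h4
      exact (hlow _ (hXδ _ h1.2).2.2.1).2 _ (mem_ball_zero_iff.1 h1.1) h3 h2 h4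
    · have e1 : ∀ᶠ e : ℝ in 𝓝 0, |e| < εn :=
        continuous_abs.continuousAt.eventually_lt continuousAt_const (by simpa using hεn)
      filter_upwards [hord _ hW T, e1] with e h1 h2 l hl
      obtain ⟨i, k, m, o1, o2, o3, o4⟩ := h1 (X l) (hXnr l hl).2
      have h3 := hcon _ (hneg e h2) _ _ o4
      refine ⟨i, k, o1, o2, ?_⟩
      have h4 : m = n + i + k := by have := hG.out; omega
      rw [← h4]
      exact o3
    · exact fun e l => T.const e (X l)
    · exact fun l _ => hfirst _ hW T (X l)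
    · intro l hl
      refine ⟨(hRs l hl).1, fun h => ?_⟩
      dsimp only at h ⊢
      rw [hRfd]
      dsimp only
      rw [if_neg h, div_mul_cancel₀ _ h]
  have hclose : ∀ l ∈ sphere l₁ ρ, ‖Rf l - c * Lim l‖ ≤ c * η' := by
    intro l hl
    by_cases h : tay n (fun s => T.dN (s, 0, 0, X l)) = 0
    · simp only [hRfd, if_pos h, sub_self, norm_zero]
      positivity
    · obtain ⟨A, A', t1, t2, t3, t4⟩ := (hRs l hl).2 h
      simp only [hRfd, if_neg h]
      rw [t4, mul_div_cancel_right₀ _ h, ← mul_sub, norm_mul, norm_real, Real.norm_eq_abs,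
        abs_of_pos hc]
      refine mul_le_mul_of_nonneg_left (htl l hl A A' (fun k => ?_) (fun k => ?_) t3) hc.le
      · have := t1 k
        rw [thS_neg, hX] at this
        simp only [thS_comb] at this
        exact this
      · have := t2 k
        rw [hX] at this
        simp only [thS_comb] at this
        exact this
  have h1 := circleIntegral.norm_integral_le_of_norm_le_const hρ.le hclose
  have hc2 : ContinuousOn (fun l => (c : ℂ) * Lim l) (sphere l₁ ρ) := continuousOn_const.mul hIc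
  rw [circleIntegral.integral_sub (key.1.circleIntegrable hρ.le) (hc2.circleIntegrable hρ.le),
    key.2, zero_sub, norm_neg] at h1
  have h2 : (∮ l in C(l₁, ρ), (c : ℂ) * Lim l) = c * ∮ l in C(l₁, ρ), Lim l :=
    circleIntegral.integral_const_mul _ _ _ _
  rw [h2, norm_mul, norm_real, Real.norm_eq_abs, abs_of_pos hc, ← hI₁, hη'] at h1
  have h3 : 2 * Real.pi * ρ * (c * (I₁ / (4 * Real.pi * ρ))) = c * I₁ / 2 := by
    have := Real.pi_pos
    field_simp
    ring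
  rw [h3] at h1
  nlinarith [mul_pos hc hI₁p]

end Pool.Agent.Lib.MP_de7bb2_an
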