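import Mathlib

/-! Real inequalities for the strictly nested discs. TASK NEST, first part. -/

namespace Pool.Agent.Lib.MP_de7bb2_an

open Metric Set Complex ComplexConjugate

namespace NestAux

open Filter Topology

noncomputable def fA (a : ℝ) : ℝ := (1 - a ^ 2) / (2 * a)

noncomputable def fB (a : ℝ) : ℝ := (1 + a ^ 2) / (2 * a)

/-- Positive when the arcs of half angles `2 arctan a`, `2 arctan a'` whose centres are at an
angle with cosine `x` are disjoint. -/
def FF (a a' x : ℝ) : ℝ := (1 - x) * (1 - a * a') ^ 2 - (1 + x) * (a + a') ^ 2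

theorem FF_anti {a a' x y : ℝ} (h : x ≤ y) : FF a a' y ≤ FF a a' x := by
  unfold FF
  nlinarith [mul_nonneg (sub_nonneg.2 h) (sq_nonneg (1 - a * a')),
    mul_nonneg (sub_nonneg.2 h) (sq_nonneg (a + a'))]

theorem base {a a' x : ℝ} (ha : 0 < a) (ha' : 0 < a') (h1 : a * a' < 1) (hF : 0 < FF a a' x)
    {e e' : ℂ} (he : ‖e‖ = 1) (he' : ‖e'‖ = 1) (hx : (e' * conj e).re ≤ x) :
    ‖(fB a : ℂ) * e' + (fB a' : ℂ) * e‖ < fA a + fA a' := by
  have hF' : 0 < FF a a' (e' * conj e).re := lt_of_lt_of_le hF (FF_anti hx)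
  have h0 : fA a + fA a' = (a + a') * (1 - a * a') / (2 * a * a') := by
    unfold fA
    field_simp
    ring
  have hpos : 0 < fA a + fA a' := by
    rw [h0]
    have : 0 < 1 - a * a' := by linarith
    positivity
  refine lt_of_pow_lt_pow_left₀ 2 hpos.le ?_
  have n1 : normSq e = 1 := by rw [normSq_eq_norm_sq, he]; norm_num
  have n2 : normSq e' = 1 := by rw [normSq_eq_norm_sq, he']; norm_num
  have e1 : ((fB a : ℂ) * e' * conj ((fB a' : ℂ) * e)).re = fB a * fB a' * (e' * conj e).re := by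
    have : (fB a : ℂ) * e' * conj ((fB a' : ℂ) * e) = ((fB a * fB a' : ℝ) : ℂ) * (e' * conj e) := by
      rw [map_mul, conj_ofReal]
      push_cast
      ring
    rw [this, re_ofReal_mul]
  rw [← normSq_eq_norm_sq, normSq_add, normSq_mul, normSq_mul, n1, n2, normSq_ofReal,
    normSq_ofReal, e1]
  have e2 : (fA a + fA a') ^ 2 - (fB a * fB a * 1 + fB a' * fB a' * 1 +
      2 * (fB a * fB a' * (e' * conj e).re)) = FF a a' (e' * conj e).re / (2 * a * a') := by
    unfold fA fB FF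
    field_simp
    ring
  have e3 : 0 < FF a a' (e' * conj e).re / (2 * a * a') := by positivity
  linarith

theorem continuous_FF {α : Type*} [TopologicalSpace α] {f g : α → ℝ} {x0 : α} (x : ℝ)
    (hf : ContinuousAt f x0) (hg : ContinuousAt g x0) :
    ContinuousAt (fun p => FF (f p) (g p) x) x0 := by
  unfold FF
  fun_prop

/-- The choice of the enlarged arcs. -/
theorem exists_params {a T c : ℝ} (ha : 0 < a) (haT : a < T) (hT : 3 * T ^ 2 ≤ 1)
    (hrel : T ^ 2 * (1 + a ^ 4) = 2 * a ^ 2) (hc : c = (1 - T ^ 2) / (1 + T ^ 2)) :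
    ∃ P Q : ℝ, a < P ∧ P < 1 ∧ (T - a) / (1 + T * a) < Q ∧ Q < a ∧
      0 < FF Q (a ^ 2 / P) c ∧ 0 < FF P (a ^ 2 / P) (2 * c ^ 2 - 1) ∧
      0 < FF Q (a ^ 2 / Q) (2 * c ^ 2 - 1) ∧ 0 < FF P (a ^ 2 / Q) (4 * c ^ 3 - 3 * c) ∧
      P * (a ^ 2 / Q) < 1 := by
  have hT0 : 0 < T := ha.trans haT
  have hT1 : T < 1 := by nlinarith
  have ha1 : a < 1 := haT.trans hT1
  have hTa : T * a < 1 := by nlinarith
  have hTa' : 0 < 1 - T * a := by linarith
  have hTa'' : 0 < 1 + T * a := by positivity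
  have hT2 : 0 < 1 + T ^ 2 := by positivity
  obtain ⟨q, hq⟩ : ∃ q, q = (T - a) / (1 + T * a) := ⟨_, rfl⟩
  obtain ⟨r, hr⟩ : ∃ r, r = (T + a) / (1 - T * a) := ⟨_, rfl⟩
  rw [← hq]
  have hq0 : 0 < q := by
    rw [hq]
    exact div_pos (by linarith) hTa''
  have hr0 : a < r := by
    rw [hr, lt_div_iff₀ hTa']
    nlinarith [mul_pos hT0 (mul_pos ha ha)]
  have hqr : q * r = a ^ 2 := by
    rw [hq, hr]
    field_simp
    linear_combination hrel
  have hqa : q < a := by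
    by_contra hn
    push Not at hn
    nlinarith [mul_le_mul hn hr0.le ha.le hq0.le, mul_pos hq0 (sub_pos.2 hr0)]
  have hc0 : 0 < c := by
    rw [hc]
    exact div_pos (by nlinarith) hT2
  have hc1 : c < 1 := by
    rw [hc, div_lt_one hT2]
    nlinarith
  have z1 : FF q a c = 0 := by
    rw [hq, hc]
    unfold FF
    field_simp
    ring
  have z2 : FF q r (2 * c ^ 2 - 1) = 0 := by
    rw [hq, hr, hc]
    unfold FF
    field_simp
    ring
  have mid : ∀ τ, q < τ → τ < r → 0 < FF τ (a ^ 2 / τ) (2 * c ^ 2 - 1) := by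
    intro τ h1 h2
    have hτ : 0 < τ := hq0.trans h1
    have e1 : τ * (a ^ 2 / τ) = q * r := by
      rw [hqr]
      field_simp
    have e2 : τ + a ^ 2 / τ < q + r := by
      rw [← hqr, ← lt_sub_iff_add_lt', div_lt_iff₀ hτ]
      nlinarith [mul_pos (sub_pos.2 h1) (sub_pos.2 h2)]
    have e3 : 0 < τ + a ^ 2 / τ := by positivity
    unfold FF at z2 ⊢
    rw [e1]
    have e4 : (τ + a ^ 2 / τ) ^ 2 < (q + r) ^ 2 := by nlinarith
    have e5 : 0 < c ^ 2 := by positivity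
    nlinarith [mul_pos e5 (sub_pos.2 e4)]
  have har : a * r < 1 := by
    rw [hr, ← mul_div_assoc, div_lt_one hTa']
    nlinarith
  have z3 : 0 < FF a r (4 * c ^ 3 - 3 * c) := by
    have e1 : FF a r (4 * c ^ 3 - 3 * c) =
        2 * ((T * (3 - T ^ 2) * (1 - 2 * T * a - a ^ 2)) ^ 2 -
          ((1 - 3 * T ^ 2) * (2 * a + T - T * a ^ 2)) ^ 2) / ((1 + T ^ 2) ^ 3 * (1 - T * a) ^ 2) := by
      rw [hr, hc]
      unfold FF
      field_simp
      ring
    have e2 : T * (3 - T ^ 2) * (1 - 2 * T * a - a ^ 2) -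
        (1 - 3 * T ^ 2) * (2 * a + T - T * a ^ 2) = 2 * (1 + T ^ 2) * (T - a) * (1 + T * a) := by
      ring
    have e3 : 0 < 2 * (1 + T ^ 2) * (T - a) * (1 + T * a) := by
      have : 0 < T - a := by linarith
      positivity
    have e4 : 0 ≤ (1 - 3 * T ^ 2) * (2 * a + T - T * a ^ 2) :=
      mul_nonneg (by linarith) (by nlinarith [mul_pos hT0 (sub_pos.2 (by nlinarith : a ^ 2 < 1))])
    rw [e1]
    refine div_pos (mul_pos two_pos (sub_pos.2 ?_)) (by positivity)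
    exact pow_lt_pow_left₀ (by linarith) e4 two_ne_zero
  have s1 : ∀ᶠ P in 𝓝[>] a, a < P ∧ P < 1 ∧ P < r ∧ 0 < FF P r (4 * c ^ 3 - 3 * c) ∧ P * r < 1 := by
    refine Eventually.and self_mem_nhdsWithin (nhdsWithin_le_nhds ?_)
    refine (eventually_lt_nhds ha1).and ((eventually_lt_nhds hr0).and (Eventually.and ?_ ?_))
    · exact (continuous_FF _ continuousAt_id continuousAt_const).eventually (lt_mem_nhds z3)
    · exact (by fun_prop : ContinuousAt (fun P : ℝ => P * r) a).eventually (gt_mem_nhds har)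
  obtain ⟨P, hP1, hP2, hP3, hP4, hP5⟩ := s1.exists
  have hP0 : 0 < P := ha.trans hP1
  have hz : a ^ 2 / P < a := by
    rw [div_lt_iff₀ hP0]
    nlinarith
  have hz0 : 0 < a ^ 2 / P := by positivity
  have z4 : 0 < FF q (a ^ 2 / P) c := by
    obtain ⟨z, hzz⟩ : ∃ z, z = a ^ 2 / P := ⟨_, rfl⟩
    rw [← hzz] at hz hz0 ⊢
    unfold FF at z1 ⊢
    have e1 : (q + z) ^ 2 < (q + a) ^ 2 := by nlinarith
    have e0 : q * a < 1 := by nlinarith
    have e00 : q * z ≤ q * a := by nlinarith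
    have e2 : (1 - q * a) ^ 2 ≤ (1 - q * z) ^ 2 :=
      pow_le_pow_left₀ (by linarith) (by linarith) 2
    nlinarith [mul_pos (by linarith : 0 < 1 + c) (sub_pos.2 e1),
      mul_nonneg (by linarith : 0 ≤ 1 - c) (sub_nonneg.2 e2)]
  have hrq : r = a ^ 2 / q := by
    rw [← hqr]
    field_simp
  have cq : ContinuousAt (fun Q : ℝ => a ^ 2 / Q) q := continuousAt_const.div continuousAt_id hq0.ne'
  have s2 : ∀ᶠ Q in 𝓝[>] q, q < Q ∧ Q < a ∧ 0 < FF Q (a ^ 2 / P) c ∧
      0 < FF P (a ^ 2 / Q) (4 * c ^ 3 - 3 * c) ∧ P * (a ^ 2 / Q) < 1 := by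
    refine Eventually.and self_mem_nhdsWithin (nhdsWithin_le_nhds ?_)
    refine (eventually_lt_nhds hqa).and (Eventually.and ?_ (Eventually.and ?_ ?_))
    · exact (continuous_FF _ continuousAt_id continuousAt_const).eventually (lt_mem_nhds z4)
    · rw [hrq] at hP4
      exact (continuous_FF _ continuousAt_const cq).eventually (lt_mem_nhds hP4)
    · rw [hrq] at hP5
      exact (continuousAt_const.mul cq).eventually (gt_mem_nhds hP5)
  obtain ⟨Q, hQ1, hQ2, hQ3, hQ4, hQ5⟩ := s2.exists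
  exact ⟨P, Q, hP1, hP2, hQ1, hQ2, hQ3, mid P (hqa.trans hP1) hP3, mid Q hQ1 (hQ2.trans hr0),
    hQ4, hQ5⟩

end NestAux

end Pool.Agent.Lib.MP_de7bb2_an
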