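import Pool.Agent.Lib.MP_de7bb2_an.H20Arc
import Pool.Agent.Lib.MP_de7bb2_an.H20NestA

/-! Strictly nested discs around the Markov arcs. TASK NEST. -/

namespace Pool.Agent.Lib.MP_de7bb2_an

open Metric Set Complex ComplexConjugate

variable {G : ℕ}

/-- Unit normal of the geodesic bounding the arc of half angle `2 arctan a` centred at `ee m`. -/
noncomputable def nu (a : ℝ) (m : L G) : V :=
  (((1 - a ^ 2) / (2 * a) : ℝ), ((1 + a ^ 2) / (2 * a) : ℝ) * ee m,
    ((1 + a ^ 2) / (2 * a) : ℝ) * conj (ee m))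

structure Nest0 (G : ℕ) (b : ZMod 2) where
  τ : L G → ℝ
  q : ℝ
  R : ℝ
  t : ℝ
  κ : ℝ
  τ_pos : ∀ m, 0 < τ m
  q_pos : 0 < q
  q_lt : q < 1
  one_lt_R : 1 < R
  τR_lt : ∀ m, τ m * R < 1
  one_lt_t : 1 < t
  κ_pos : 0 < κ
  cert : ∀ m m' : L G, Edge b m m' → ∀ ρ ∈ Icc q R, ∀ ρ' ∈ Icc q R, ∀ Z, Fut Z →
    t * side Z (nu (τ m' * ρ') m') + κ * Z.1.re ≤ side (mir m Z) (nu (τ m * ρ) m)
  arc_sub : ∀ (m : L G) (Y : V), Arc b m Y → ∀ ρ ∈ Icc q R, κ * Y.1.re ≤ side Y (nu (τ m * ρ) m)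

namespace NestAux

open Filter Topology

theorem isRe_nu (α : ℝ) (m : L G) : IsRe (nu α m) := by
  refine ⟨ofReal_im _, ?_⟩
  simp only [nu, map_mul, conj_ofReal]

theorem re_mul_aux (z e : ℂ) (B : ℝ) : (z * conj ((B : ℂ) * e)).re = B * (z * conj e).re := by
  rw [map_mul, conj_ofReal, mul_left_comm, re_ofReal_mul]

theorem side_nu {Z : V} (hZ : IsRe Z) (α : ℝ) (m : L G) :
    side Z (nu α m) = fB α * (Z.2.1 * conj (ee m)).re - Z.1.re * fA α := by
  rw [side_eq hZ (isRe_nu α m)]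
  simp only [nu, re_mul_aux, ofReal_re, fA, fB]

theorem side_NN {Z : V} (hZ : IsRe Z) (c : ℝ) (m : L G) :
    side Z (NN m c) = (Z.2.1 * conj (ee m)).re - Z.1.re * c := by
  rw [side_eq hZ (isRe_NN m c)]
  simp only [NN, ofReal_re]

theorem side_wn {Z : V} (hZ : IsRe Z) (m : L G) :
    side Z (wn m) = (s0 G)⁻¹ * (Z.2.1 * conj (ee m)).re - Z.1.re * (c0 G / s0 G) := by
  rw [side_eq hZ (isRe_wn m)]
  have : ee m / (s0 G : ℂ) = (((s0 G)⁻¹ : ℝ) : ℂ) * ee m := by
    push_cast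
    ring
  simp only [wn, ofReal_re, this, re_mul_aux]

theorem ee_mul_conj (m : L G) : ee m * conj (ee m) = 1 := by
  rw [mul_conj, normSq_eq_norm_sq, norm_ee]
  norm_num

theorem side_mir {Z n : V} (hZ : IsRe Z) (hn : IsRe n) (m : L G) :
    side (mir m Z) n = side Z n - 2 * side Z (wn m) * side (wn m) n := by
  have h1 := br_im hZ (isRe_wn m)
  have h2 := br_im (isRe_wn m) hn
  simp only [mir, reflL_apply, side, br_add_left, br_smul_left, add_re, mul_re, mul_im, h1, h2,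
    re_ofNat, im_ofNat]
  ring

/-- The tangent of half the half angle of the walls. -/
noncomputable def a0 (G : ℕ) : ℝ := (1 - c0 G) / s0 G

variable [hG : Fact (2 ≤ G)]

theorem a0_pos : 0 < a0 G := div_pos (sub_pos.2 c0_lt_one) s0_pos

theorem a0_sq : a0 G ^ 2 = (1 - c0 G) / (1 + c0 G) := by
  have h1 := c0_pos (G := G)
  have h2 := c0_lt_one (G := G)
  have h3 : 1 - c0 G ≠ 0 := by linarith
  have h4 : (1 - c0 G ^ 2) = (1 - c0 G) * (1 + c0 G) := by ring
  rw [a0, div_pow, s0_sq, h4]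
  field_simp

theorem c0_eq : c0 G = (1 - a0 G ^ 2) / (1 + a0 G ^ 2) := by
  have h1 := c0_pos (G := G)
  rw [a0_sq]
  field_simp
  ring

theorem s0_eq : s0 G = 2 * a0 G / (1 + a0 G ^ 2) := by
  have h1 := c0_pos (G := G)
  have h2 := s0_pos (G := G)
  rw [a0_sq, a0]
  field_simp
  linear_combination 2 * s0_sq (G := G)

theorem side_mir_nu {Z : V} (hZ : IsRe Z) {α : ℝ} (hα : 0 < α) (m : L G) :
    side (mir m Z) (nu α m) =
      Z.1.re * fA (a0 G ^ 2 / α) - fB (a0 G ^ 2 / α) * (Z.2.1 * conj (ee m)).re := by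
  have e1 : ((wn m).2.1 * conj (ee m)).re = (s0 G)⁻¹ := by
    have : (wn m).2.1 * conj (ee m) = (((s0 G)⁻¹ : ℝ) : ℂ) := by
      simp only [wn]
      rw [div_mul_eq_mul_div, ee_mul_conj]
      push_cast
      ring
    rw [this, ofReal_re]
  have e2 : (wn m).1.re = c0 G / s0 G := by simp only [wn, ofReal_re]
  rw [side_mir hZ (isRe_nu α m), side_nu hZ, side_wn hZ, side_nu (isRe_wn m), e1, e2]
  have ha := a0_pos (G := G)
  rw [c0_eq, s0_eq]
  generalize a0 G = a at ha ⊢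
  unfold fA fB
  field_simp
  ring

theorem half_le : 1 / 2 ≤ c0 G ^ 2 := by
  have hG' : (2 : ℝ) ≤ G := by exact_mod_cast hG.out
  have h1 : 1 / 2 ≤ Real.cos (2 * Real.pi / (2 * G + 2)) := by
    rw [← Real.cos_pi_div_three]
    have hp := Real.pi_pos
    refine Real.cos_le_cos_of_nonneg_of_le_pi (by positivity) (by linarith) ?_
    rw [div_le_div_iff₀ (by positivity) (by positivity)]
    nlinarith
  rw [c0, Real.sq_sqrt (by linarith)]
  exact h1

omit hG in
theorem sg_pos : 0 < sg G := Real.sqrt_pos.2 (by positivity)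

theorem exists_PQ : ∃ P Q : ℝ, a0 G < P ∧ P < 1 ∧ 0 < Q ∧ Q < a0 G ∧
    1 - Q ^ 2 < (1 + Q ^ 2) * cQ G ∧
    0 < FF Q (a0 G ^ 2 / P) (c0 G ^ 2) ∧ 0 < FF P (a0 G ^ 2 / P) (2 * c0 G ^ 4 - 1) ∧
    0 < FF Q (a0 G ^ 2 / Q) (2 * c0 G ^ 4 - 1) ∧
    0 < FF P (a0 G ^ 2 / Q) (4 * c0 G ^ 6 - 3 * c0 G ^ 2) ∧ P * (a0 G ^ 2 / Q) < 1 := by
  have h1 := c0_pos (G := G)
  have h2 := c0_lt_one (G := G)
  have h3 := s0_pos (G := G)
  have h4 := sg_pos (G := G)
  have ha := a0_pos (G := G)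
  obtain ⟨T, hT⟩ : ∃ T, T = s0 G / sg G := ⟨_, rfl⟩
  have hT0 : 0 < T := by rw [hT]; positivity
  have hT2 : T ^ 2 = (1 - c0 G ^ 2) / (1 + c0 G ^ 2) := by rw [hT, div_pow, s0_sq, sg_sq]
  have hrel : T ^ 2 * (1 + a0 G ^ 4) = 2 * a0 G ^ 2 := by
    rw [show a0 G ^ 4 = (a0 G ^ 2) ^ 2 by ring, hT2, a0_sq]
    field_simp
    ring
  have ha1 : a0 G ^ 2 < 1 := by
    rw [a0_sq, div_lt_one (by positivity)]
    linarith
  have haT : a0 G < T := by
    refine lt_of_pow_lt_pow_left₀ 2 hT0.le ?_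
    have e1 : a0 G ^ 4 < 1 := by nlinarith [sq_nonneg (a0 G)]
    by_contra hn
    push Not at hn
    nlinarith [mul_pos (pow_pos hT0 2) (sub_pos.2 e1)]
  have hT3 : 3 * T ^ 2 ≤ 1 := by
    rw [hT2, ← mul_div_assoc, div_le_one (by positivity)]
    linarith [half_le (G := G)]
  have hc : c0 G ^ 2 = (1 - T ^ 2) / (1 + T ^ 2) := by
    rw [hT2]
    field_simp
    ring
  have hS : s0 G * sg G = 2 * T / (1 + T ^ 2) := by
    rw [hT2, hT]
    field_simp
    linear_combination 2 * sg_sq (G := G)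
  obtain ⟨P, Q, p1, p2, p3, p4, p5, p6, p7, p8, p9⟩ := exists_params ha haT hT3 hrel hc
  have hq0 : 0 < (T - a0 G) / (1 + T * a0 G) := div_pos (by linarith) (by positivity)
  refine ⟨P, Q, p1, p2, hq0.trans p3, p4, ?_, p5, ?_, ?_, ?_, p9⟩
  · have e1 : cQ G = (1 - ((T - a0 G) / (1 + T * a0 G)) ^ 2) /
        (1 + ((T - a0 G) / (1 + T * a0 G)) ^ 2) := by
      have e2 : cQ G = c0 G ^ 2 * c0 G + s0 G * sg G * s0 G := by
        rw [cQ]
        ring
      rw [e2, hS, hc]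
      have e3 := c0_eq (G := G)
      have e4 := s0_eq (G := G)
      generalize c0 G = x at e3 ⊢
      generalize s0 G = y at e4 ⊢
      rw [e3, e4]
      field_simp
      ring
    rw [e1]
    generalize (T - a0 G) / (1 + T * a0 G) = q at hq0 p3 ⊢
    rw [← mul_div_assoc, lt_div_iff₀ (by positivity)]
    nlinarith
  · rw [show c0 G ^ 4 = (c0 G ^ 2) ^ 2 by ring]
    exact p6
  · rw [show c0 G ^ 4 = (c0 G ^ 2) ^ 2 by ring]
    exact p7
  · rw [show c0 G ^ 6 = (c0 G ^ 2) ^ 3 by ring]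
    exact p8

theorem re_ee_sub (m m' : L G) : (ee m' * conj (ee m)).re = (ee (m' - m)).re := by
  have : ee m' = ee m * ee (m' - m) := by rw [← ee_add, add_sub_cancel]
  rw [this, mul_right_comm, ee_mul_conj, one_mul]

theorem re_symm (z w : ℂ) : (z * conj w).re = (w * conj z).re := by
  simp only [mul_re, conj_re, conj_im]
  ring

omit hG in
theorem far_zero {m m' : L G} (h : Far m m') : Far 0 (m' - m) := by
  refine ⟨fun e => h.1 ?_, fun e => h.2.1 ?_, fun e => h.2.2 ?_⟩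
  · linear_combination e
  · linear_combination e
  · linear_combination e

/-- The strict inequalities at the unperturbed point. -/
theorem exists_tau (b : ZMod 2) : ∃ τ : L G → ℝ, (∀ m, 0 < τ m) ∧ (∀ m, τ m < 1) ∧
    (∀ m, 0 < fB (τ m) * ca b m - fA (τ m)) ∧
    ∀ m m' : L G, Edge b m m' →
      ‖(fB (τ m') : ℂ) * ee m' + (fB (a0 G ^ 2 / τ m) : ℂ) * ee m‖ <
        fA (τ m') + fA (a0 G ^ 2 / τ m) := by
  obtain ⟨P, Q, p1, p2, q1, q2, q3, f1, f2, f3, f4, f5⟩ := exists_PQ (G := G)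
  have ha := a0_pos (G := G)
  have hP : 0 < P := ha.trans p1
  have ha1 : a0 G < 1 := p1.trans p2
  have ha2 : a0 G ^ 2 < 1 := by nlinarith
  have hc1 := c0_lt_one (G := G)
  have hc0 := c0_pos (G := G)
  refine ⟨fun m => if par m = b then P else Q, fun m => ?_, fun m => ?_, fun m => ?_,
    fun m m' h => ?_⟩
  · dsimp only
    split_ifs
    exacts [hP, q1]
  · dsimp only
    split_ifs
    exacts [p2, q2.trans ha1]
  · dsimp only
    unfold ca fA fB
    split_ifs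
    · have e : (1 + P ^ 2) / (2 * P) * c0 G - (1 - P ^ 2) / (2 * P) =
          (P ^ 2 - a0 G ^ 2) / (P * (1 + a0 G ^ 2)) := by
        have e3 := c0_eq (G := G)
        generalize c0 G = x at e3 ⊢
        rw [e3]
        field_simp
        ring
      rw [e]
      exact div_pos (by nlinarith) (by positivity)
    · have e : (1 + Q ^ 2) / (2 * Q) * cQ G - (1 - Q ^ 2) / (2 * Q) =
          ((1 + Q ^ 2) * cQ G - (1 - Q ^ 2)) / (2 * Q) := by
        field_simp
      rw [e]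
      exact div_pos (by linarith) (by positivity)
  · dsimp only
    have hQP : Q * (a0 G ^ 2 / P) < 1 := by
      rw [← mul_div_assoc, div_lt_one hP]
      nlinarith
    have hsq : ∀ x : ℝ, 0 < x → x * (a0 G ^ 2 / x) < 1 := by
      intro x hx
      rw [mul_div_cancel₀ _ hx.ne']
      exact ha2
    have hle : 2 * c0 G ^ 4 - 1 ≤ c0 G ^ 2 := by
      have : c0 G ^ 2 < 1 := by nlinarith
      nlinarith [sq_nonneg (c0 G)]
    by_cases hf : Far m m'
    · have hx : (ee m' * conj (ee m)).re ≤ 2 * c0 G ^ 4 - 1 := by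
        rw [re_ee_sub]
        exact re_ee_le (far_zero hf)
      split_ifs with h1 h2 h2
      · exact base hP (by positivity) (hsq P hP) f2 (norm_ee m) (norm_ee m') hx
      · refine base hP (by positivity) f5 f4 (norm_ee m) (norm_ee m') ?_
        rw [re_ee_sub]
        refine re_ee_le' (far_zero hf) (fun e => h2 ?_) (fun e => h2 ?_)
        · have e' : m' = m + 1 + 1 := by linear_combination e
          rw [← h1, e', par_add_one, par_add_one]
          generalize par m = x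
          revert x
          decide
        · have e' : m' = m - 1 - 1 := by linear_combination e
          rw [← h1, e', par_sub_one, par_sub_one]
          generalize par m = x
          revert x
          decide
      · exact base q1 (by positivity) hQP f1 (norm_ee m) (norm_ee m') (hx.trans hle)
      · exact base q1 (by positivity) (hsq Q q1) f3 (norm_ee m) (norm_ee m') hx
    · have hadj : m' = m + 1 ∨ m' = m - 1 := by
        by_contra hn
        rw [not_or] at hn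
        exact hf ⟨h.1, hn.1, hn.2⟩
      have hm : par m = b := by
        by_contra hn
        exact hf ⟨h.1, h.2 hn⟩
      have hm' : par m' ≠ b := by
        have : par m' = par m + 1 := by
          rcases hadj with e | e
          · rw [e, par_add_one]
          · rw [e, par_sub_one]
        rw [this, hm]
        exact fun e => one_ne_zero (add_eq_left.1 e)
      rw [if_pos hm, if_neg hm']
      refine base q1 (by positivity) hQP f1 (norm_ee m) (norm_ee m') (le_of_eq ?_)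
      rcases hadj with e | e
      · rw [re_ee_sub, e, add_sub_cancel_left, re_ee_one]
      · rw [re_symm, re_ee_sub, e, sub_sub_cancel, re_ee_one]

omit hG in
theorem cont_fA {α : Type*} [TopologicalSpace α] {f : α → ℝ} {x : α} (hf : ContinuousAt f x)
    (h : f x ≠ 0) : ContinuousAt (fun p => fA (f p)) x := by
  unfold fA
  exact ContinuousAt.div (by fun_prop) (by fun_prop) (mul_ne_zero two_ne_zero h)

omit hG in
theorem cont_fB {α : Type*} [TopologicalSpace α] {f : α → ℝ} {x : α} (hf : ContinuousAt f x)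
    (h : f x ≠ 0) : ContinuousAt (fun p => fB (f p)) x := by
  unfold fB
  exact ContinuousAt.div (by fun_prop) (by fun_prop) (mul_ne_zero two_ne_zero h)

end NestAux

open NestAux Filter Topology in
theorem exists_nest0 [Fact (2 ≤ G)] (b : ZMod 2) : Nonempty (Nest0 G b) := by
  obtain ⟨τ, h0, h1, h2, h3⟩ := exists_tau (G := G) b
  have ha := a0_pos (G := G)
  have E1 : ∀ᶠ p : ℝ × ℝ × ℝ × ℝ in 𝓝 (1, 1, 1, 0), ∀ m m' : L G, Edge b m m' →
      0 < p.1 * fA (τ m' * p.2.2.1) + fA (a0 G ^ 2 / (τ m * p.2.1)) - p.2.2.2 -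
        ‖((p.1 * fB (τ m' * p.2.2.1) : ℝ) : ℂ) * ee m' +
          (fB (a0 G ^ 2 / (τ m * p.2.1)) : ℂ) * ee m‖ := by
    refine eventually_all.2 fun m => eventually_all.2 fun m' => ?_
    by_cases h : Edge b m m'
    swap
    · exact Eventually.of_forall fun p h' => absurd h' h
    have c1 : ContinuousAt (fun p : ℝ × ℝ × ℝ × ℝ => τ m' * p.2.2.1) (1, 1, 1, 0) := by fun_prop
    have c2 : ContinuousAt (fun p : ℝ × ℝ × ℝ × ℝ => a0 G ^ 2 / (τ m * p.2.1)) (1, 1, 1, 0) :=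
      ContinuousAt.div (by fun_prop) (by fun_prop) (by simpa using (h0 m).ne')
    have n1 : τ m' * ((1, 1, 1, 0) : ℝ × ℝ × ℝ × ℝ).2.2.1 ≠ 0 := by simpa using (h0 m').ne'
    have n2 : a0 G ^ 2 / (τ m * ((1, 1, 1, 0) : ℝ × ℝ × ℝ × ℝ).2.1) ≠ 0 := by
      have := h0 m
      simp only [mul_one]
      positivity
    have a1 := cont_fA c1 n1
    have a2 := cont_fA c2 n2
    have b1 := cont_fB c1 n1
    have b2 := cont_fB c2 n2
    have c3 : ContinuousAt (fun p : ℝ × ℝ × ℝ × ℝ =>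
        p.1 * fA (τ m' * p.2.2.1) + fA (a0 G ^ 2 / (τ m * p.2.1)) - p.2.2.2 -
        ‖((p.1 * fB (τ m' * p.2.2.1) : ℝ) : ℂ) * ee m' +
          (fB (a0 G ^ 2 / (τ m * p.2.1)) : ℂ) * ee m‖) (1, 1, 1, 0) := by
      refine (((continuousAt_fst.mul a1).add a2).sub (by fun_prop)).sub (ContinuousAt.norm ?_)
      exact ((continuous_ofReal.continuousAt.comp (continuousAt_fst.mul b1)).mul
        continuousAt_const).add ((continuous_ofReal.continuousAt.comp b2).mul continuousAt_const)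
    refine (c3.eventually (lt_mem_nhds ?_)).mono fun p hp _ => hp
    have := h3 m m' h
    simp only [mul_one, one_mul, sub_zero]
    linarith
  have E2 : ∀ᶠ p : ℝ × ℝ × ℝ × ℝ in 𝓝 (1, 1, 1, 0), ∀ m : L G,
      0 < fB (τ m * p.2.1) * ca b m - fA (τ m * p.2.1) - p.2.2.2 := by
    refine eventually_all.2 fun m => ?_
    have c1 : ContinuousAt (fun p : ℝ × ℝ × ℝ × ℝ => τ m * p.2.1) (1, 1, 1, 0) := by fun_prop
    have n1 : τ m * ((1, 1, 1, 0) : ℝ × ℝ × ℝ × ℝ).2.1 ≠ 0 := by simpa using (h0 m).ne'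
    have c3 : ContinuousAt (fun p : ℝ × ℝ × ℝ × ℝ =>
        fB (τ m * p.2.1) * ca b m - fA (τ m * p.2.1) - p.2.2.2) (1, 1, 1, 0) :=
      (((cont_fB c1 n1).mul continuousAt_const).sub (cont_fA c1 n1)).sub (by fun_prop)
    refine c3.eventually (lt_mem_nhds ?_)
    simpa using h2 m
  have E3 : ∀ᶠ p : ℝ × ℝ × ℝ × ℝ in 𝓝 (1, 1, 1, 0), ∀ m : L G, τ m * p.2.1 < 1 := by
    refine eventually_all.2 fun m => ?_
    have c1 : ContinuousAt (fun p : ℝ × ℝ × ℝ × ℝ => τ m * p.2.1) (1, 1, 1, 0) := by fun_prop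
    refine c1.eventually (gt_mem_nhds ?_)
    simpa using h1 m
  obtain ⟨ε, hε, hE⟩ := Metric.eventually_nhds_iff.1 (E1.and (E2.and E3))
  obtain ⟨δ, hδ0, hδ1, hδ2⟩ : ∃ δ : ℝ, 0 < δ ∧ δ < ε ∧ δ < 1 :=
    ⟨min ε 1 / 2, by positivity, by linarith [min_le_left ε 1], by linarith [min_le_right ε 1]⟩
  have key : ∀ ρ ∈ Icc (1 - δ) (1 + δ), ∀ ρ' ∈ Icc (1 - δ) (1 + δ),
      dist ((1 + δ, ρ, ρ', δ) : ℝ × ℝ × ℝ × ℝ) (1, 1, 1, 0) < ε := by
    intro ρ hρ ρ' hρ'
    simp only [Prod.dist_eq, Real.dist_eq, max_lt_iff, abs_lt]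
    obtain ⟨a1, a2⟩ := hρ
    obtain ⟨a3, a4⟩ := hρ'
    refine ⟨⟨?_, ?_⟩, ⟨?_, ?_⟩, ⟨?_, ?_⟩, ?_, ?_⟩ <;> linarith
  have hR : 1 + δ ∈ Icc (1 - δ) (1 + δ) := ⟨by linarith, le_rfl⟩
  refine ⟨⟨τ, 1 - δ, 1 + δ, 1 + δ, δ, h0, by linarith, by linarith, by linarith,
    fun m => (hE (key _ hR _ hR)).2.2 m, by linarith, hδ0, ?_, ?_⟩⟩
  · intro m m' h ρ hρ ρ' hρ' Z hZ
    have hk := (hE (key ρ hρ ρ' hρ')).1 m m' h
    dsimp only at hk
    have hρ0 : 0 < ρ := by linarith [hρ.1]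
    rw [side_nu hZ.1, side_mir_nu hZ.1 (mul_pos (h0 m) hρ0)]
    have hZ0 : 0 ≤ Z.1.re := (norm_nonneg _).trans hZ.2
    have e1 : (Z.2.1 * conj ((((1 + δ) * fB (τ m' * ρ') : ℝ) : ℂ) * ee m' +
        (fB (a0 G ^ 2 / (τ m * ρ)) : ℂ) * ee m)).re =
        (1 + δ) * fB (τ m' * ρ') * (Z.2.1 * conj (ee m')).re +
          fB (a0 G ^ 2 / (τ m * ρ)) * (Z.2.1 * conj (ee m)).re := by
      rw [map_add, mul_add, add_re, re_mul_aux, re_mul_aux]
    have e2 := re_le_norm (Z.2.1 * conj ((((1 + δ) * fB (τ m' * ρ') : ℝ) : ℂ) * ee m' +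
        (fB (a0 G ^ 2 / (τ m * ρ)) : ℂ) * ee m))
    rw [e1, norm_mul, norm_conj] at e2
    have e3 := mul_le_mul_of_nonneg_right hZ.2 (norm_nonneg
      ((((1 + δ) * fB (τ m' * ρ') : ℝ) : ℂ) * ee m' + (fB (a0 G ^ 2 / (τ m * ρ)) : ℂ) * ee m))
    have e4 := mul_nonneg hZ0 hk.le
    linarith
  · intro m Y hY ρ hρ
    have hk := (hE (key ρ hρ ρ hρ)).2.1 m
    dsimp only at hk
    have hρ0 : 0 < ρ := by linarith [hρ.1]
    have e1 := hY.2
    rw [side_NN hY.1.1] at e1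
    rw [side_nu hY.1.1]
    have hB : 0 < fB (τ m * ρ) := by
      have := mul_pos (h0 m) hρ0
      unfold fB
      positivity
    have e2 := mul_nonneg hB.le e1
    have e3 := mul_nonneg hY.1.2.1.le hk.le
    linarith

end Pool.Agent.Lib.MP_de7bb2_an
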