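import Pool.Agent.Lib.MP_de7bb2_an.H20Tool

/-! Absolutely summable matrices. TASK NUC. The bodies of the sorried definitions are free. -/

namespace Pool.Agent.Lib.MP_de7bb2_an

open Filter Topology

noncomputable abbrev Vec (ι : Type*) := lp (fun _ : ι => ℂ) 1

noncomputable abbrev Nuc (ι : Type*) := Vec (ι × ι)

variable {ι : Type*}

open Classical in
/-- The vector with coordinates `f` if these are absolutely summable, and zero otherwise. -/
noncomputable def toVec (f : ι → ℂ) : Vec ι :=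
  if h : Memℓp f 1 then ⟨f, h⟩ else 0

theorem toVec_apply {f : ι → ℂ} (h : Summable fun i => ‖f i‖) (i : ι) : toVec f i = f i := by
  have h1 : Memℓp f 1 := memℓp_gen (by simpa using h)
  rw [toVec, dif_pos h1]

theorem Vec.summable_norm (v : Vec ι) : Summable fun i => ‖v i‖ := by
  simpa using (lp.memℓp v).summable (p := 1) (by simp)

theorem Vec.norm_eq (v : Vec ι) : ‖v‖ = ∑' i, ‖v i‖ := by
  simpa using lp.norm_eq_tsum_rpow (p := 1) (by simp) v

theorem Vec.norm_apply_le (v : Vec ι) (i : ι) : ‖v i‖ ≤ ‖v‖ := lp.norm_apply_le_norm one_ne_zero v i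

theorem norm_toVec_le {f : ι → ℂ} {u : ι → ℝ} (hu : Summable u) (h : ∀ i, ‖f i‖ ≤ u i) :
    ‖toVec f‖ ≤ ∑' i, u i := by
  have hs : Summable fun i => ‖f i‖ := hu.of_nonneg_of_le (fun _ => norm_nonneg _) h
  rw [Vec.norm_eq]
  simp only [toVec_apply hs]
  exact hs.tsum_le_tsum h hu

/-- Evaluation at a coordinate. -/
noncomputable def Vec.evalL (i : ι) : Vec ι →L[ℂ] ℂ := lp.evalCLM ℂ (fun _ : ι => ℂ) 1 i

@[simp] theorem Vec.evalL_apply (i : ι) (v : Vec ι) : Vec.evalL i v = v i := rfl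

namespace NucA

open Classical in
/-- The basis vector. -/
noncomputable def sgl (i : ι) : Vec ι := lp.single 1 i 1

open Classical in
theorem sgl_apply (i j : ι) : sgl i j = if j = i then 1 else 0 := by
  rw [sgl, lp.single_apply, Pi.single_apply]

theorem sgl_self (i : ι) : sgl i i = 1 := by
  rw [sgl_apply, if_pos rfl]

theorem sgl_ne {i j : ι} (h : j ≠ i) : sgl i j = 0 := by
  rw [sgl_apply, if_neg h]

theorem norm_sgl (i : ι) : ‖sgl i‖ = 1 := by
  classical
  rw [sgl, lp.norm_single one_pos, norm_one]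

theorem hasSum_sgl (v : Vec ι) : HasSum (fun i => v i • sgl i) v := by
  classical
  have h := lp.hasSum_single (p := 1) ENNReal.one_ne_top v
  have h1 : (fun i => v i • sgl i) = fun i => lp.single 1 i (v i) := by
    funext i
    refine lp.ext (funext fun j => ?_)
    rw [lp.coeFn_smul, Pi.smul_apply, sgl_apply, lp.single_apply, Pi.single_apply]
    split_ifs <;> simp
  rw [h1]
  exact h

section lift

variable {E : Type*} [NormedAddCommGroup E] [NormedSpace ℂ E]

theorem hasSum_clm (f : Vec ι →L[ℂ] E) (v : Vec ι) :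
    HasSum (fun i => v i • f (sgl i)) (f v) := by
  simpa only [map_smul] using f.hasSum (hasSum_sgl v)

theorem eq_of_sgl (f g : Vec ι →L[ℂ] E) (h : ∀ i, f (sgl i) = g (sgl i)) (v : Vec ι) :
    f v = g v := by
  have h1 := hasSum_clm f v
  simp only [h] at h1
  exact h1.unique (hasSum_clm g v)

theorem summable_norm_smul {x : ι → E} (h : ∀ i, ‖x i‖ ≤ 1) (v : Vec ι) :
    Summable fun i => ‖v i • x i‖ :=
  (Vec.summable_norm v).of_nonneg_of_le (fun _ => norm_nonneg _) fun i => by
    rw [norm_smul]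
    exact mul_le_of_le_one_right (norm_nonneg _) (h i)

variable [CompleteSpace E]

/-- The operator with prescribed values on the basis vectors. -/
noncomputable def liftL (x : ι → E) (h : ∀ i, ‖x i‖ ≤ 1) : Vec ι →L[ℂ] E :=
  LinearMap.mkContinuous
    { toFun := fun v => ∑' i, v i • x i
      map_add' := fun v w => by
        rw [← (summable_norm_smul h v).of_norm.tsum_add (summable_norm_smul h w).of_norm]
        exact tsum_congr fun i => by rw [lp.coeFn_add, Pi.add_apply, add_smul]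
      map_smul' := fun c v => by
        rw [RingHom.id_apply, ← (summable_norm_smul h v).of_norm.tsum_const_smul]
        exact tsum_congr fun i => by rw [lp.coeFn_smul, Pi.smul_apply, smul_assoc] } 1
    fun v => by
      rw [one_mul, Vec.norm_eq]
      refine tsum_of_norm_bounded (Vec.summable_norm v).hasSum fun i => ?_
      rw [norm_smul]
      exact mul_le_of_le_one_right (norm_nonneg _) (h i)

theorem norm_liftL_le (x : ι → E) (h : ∀ i, ‖x i‖ ≤ 1) : ‖liftL x h‖ ≤ 1 :=
  LinearMap.mkContinuous_norm_le _ zero_le_one _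

theorem norm_liftL_apply (x : ι → E) (h : ∀ i, ‖x i‖ ≤ 1) (v : Vec ι) : ‖liftL x h v‖ ≤ ‖v‖ := by
  simpa using (liftL x h).le_of_opNorm_le (norm_liftL_le x h) v

theorem liftL_sgl (x : ι → E) (h : ∀ i, ‖x i‖ ≤ 1) (i : ι) : liftL x h (sgl i) = x i := by
  change ∑' j, sgl i j • x j = x i
  rw [tsum_eq_single i fun j hj => by rw [sgl_ne hj, zero_smul], sgl_self, one_smul]

end lift

theorem norm_evalL_le (i : ι) : ‖Vec.evalL i‖ ≤ 1 :=
  ContinuousLinearMap.opNorm_le_bound _ zero_le_one fun v => by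
    rw [one_mul]
    exact Vec.norm_apply_le v i

/-- Restriction of a vector along an injective map. -/
noncomputable def res {κ : Type*} (e : κ → ι) (v : Vec ι) : Vec κ := toVec fun k => v (e k)

theorem res_apply {κ : Type*} {e : κ → ι} (he : Function.Injective e) (v : Vec ι) (k : κ) :
    res e v k = v (e k) :=
  toVec_apply ((Vec.summable_norm v).comp_injective he) k

/-- A functional that kills the basis vectors outside the range of `e`. -/
theorem clm_eq_tsum {κ : Type*} {e : κ → ι} (he : Function.Injective e) (f : Vec ι →L[ℂ] ℂ)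
    (h : ∀ i, i ∉ Set.range e → f (sgl i) = 0) (v : Vec ι) :
    f v = ∑' k, v (e k) * f (sgl (e k)) := by
  have h1 := (he.hasSum_iff (f := fun i => v i • f (sgl i))
    fun i hi => by rw [h i hi, smul_zero]).2 (hasSum_clm f v)
  exact h1.tsum_eq.symm

/-- The pairing. -/
noncomputable def dot0 : Vec ι →L[ℂ] Vec ι →L[ℂ] ℂ := liftL Vec.evalL norm_evalL_le

theorem dot0_sgl (i : ι) (b : Vec ι) : dot0 (sgl i) b = b i := by
  rw [dot0, liftL_sgl, Vec.evalL_apply]

theorem dot0_apply (a b : Vec ι) : dot0 a b = ∑' i, a i * b i := by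
  have h := (hasSum_clm (dot0.flip b) a).tsum_eq
  simp only [ContinuousLinearMap.flip_apply, dot0_sgl, smul_eq_mul] at h
  exact h.symm

theorem dot0_comm (a b : Vec ι) : dot0 a b = dot0 b a := by
  simp only [dot0_apply, mul_comm]

/-- The matrix with one nonzero row. -/
noncomputable def inRow (i : ι) : Vec ι →L[ℂ] Nuc ι :=
  liftL (fun j => sgl (i, j)) fun _ => (norm_sgl _).le

open Classical in
theorem inRow_apply (i : ι) (b : Vec ι) (k l : ι) :
    inRow i b (k, l) = if k = i then b l else 0 := by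
  refine (eq_of_sgl ((Vec.evalL (k, l)).comp (inRow i))
    (if k = i then Vec.evalL l else 0) (fun j => ?_) b).trans ?_
  · rw [ContinuousLinearMap.comp_apply, inRow, liftL_sgl, Vec.evalL_apply, sgl_apply]
    by_cases h : k = i
    · simp [h, sgl_apply]
    · simp [h]
  · split_ifs <;> rfl

/-- The row of a matrix. -/
noncomputable def rowL (i : ι) : Nuc ι →L[ℂ] Vec ι :=
  open Classical in
  liftL (fun p => if p.1 = i then sgl p.2 else 0) fun p => by
    split_ifs
    · exact (norm_sgl _).le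
    · simp

theorem rowL_apply (i : ι) (A : Nuc ι) (j : ι) : rowL i A j = A (i, j) := by
  classical
  refine eq_of_sgl ((Vec.evalL j).comp (rowL i)) (Vec.evalL (i, j)) (fun p => ?_) A
  obtain ⟨a, b⟩ := p
  rw [ContinuousLinearMap.comp_apply, rowL, liftL_sgl, Vec.evalL_apply, Vec.evalL_apply,
    sgl_apply]
  by_cases h : a = i
  · simp [h, sgl_apply, Prod.ext_iff]
  · simp [h, Ne.symm h]

theorem prod_inj (i : ι) : Function.Injective fun j : ι => (i, j) :=
  fun _ _ h => (Prod.ext_iff.1 h).2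

end NucA

open NucA

/-- A vector valued map is holomorphic if its coordinates are and have a summable majorant. -/
theorem diffOn_toVec {P : Type*} [NormedAddCommGroup P] [NormedSpace ℂ P] {U : Set P}
    (hU : IsOpen U) {f : P → ι → ℂ} {u : ι → ℝ} (hu : Summable u)
    (hd : ∀ i, DifferentiableOn ℂ (fun p => f p i) U) (hb : ∀ p ∈ U, ∀ i, ‖f p i‖ ≤ u i) :
    DifferentiableOn ℂ (fun p => toVec (f p)) U := by
  have h1 := diffOn_tsum (f := fun i p => f p i • sgl i) hU
    (fun i => (hd i).smul_const _) hu fun i p hp => by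
      rw [norm_smul, norm_sgl, mul_one]
      exact hb p hp i
  refine h1.congr fun p hp => ?_
  have hs : Summable fun i => ‖f p i‖ := hu.of_nonneg_of_le (fun _ => norm_nonneg _) (hb p hp)
  have h2 := (hasSum_sgl (toVec (f p))).tsum_eq
  simp only [toVec_apply hs] at h2
  exact h2.symm

noncomputable def nmul : Nuc ι →L[ℂ] Nuc ι →L[ℂ] Nuc ι :=
  liftL (fun p => (inRow p.1).comp (rowL p.2)) fun p =>
    (ContinuousLinearMap.opNorm_comp_le _ _).trans
      (mul_le_one₀ (norm_liftL_le _ _) (norm_nonneg _) (norm_liftL_le _ _))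

theorem nmul_apply (A B : Nuc ι) (i k : ι) : nmul A B (i, k) = ∑' j, A (i, j) * B (j, k) := by
  have h1 : ∀ p : ι × ι, ((Vec.evalL (i, k)).comp (nmul.flip B)) (sgl p) =
      inRow p.1 (rowL p.2 B) (i, k) := fun p => by
    rw [ContinuousLinearMap.comp_apply, ContinuousLinearMap.flip_apply, nmul, liftL_sgl]
    rfl
  refine (clm_eq_tsum (prod_inj i) ((Vec.evalL (i, k)).comp (nmul.flip B)) (fun p hp => ?_)
    A).trans (tsum_congr fun j => ?_)
  · rw [h1, inRow_apply, if_neg fun h => hp ⟨p.2, Prod.ext h rfl⟩]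
  · rw [h1, inRow_apply, if_pos rfl, rowL_apply]

theorem norm_nmul_le (A B : Nuc ι) : ‖nmul A B‖ ≤ ‖A‖ * ‖B‖ :=
  (nmul A).le_of_opNorm_le (norm_liftL_apply _ _ A) B

namespace NucA

/-- The action on vectors. -/
noncomputable def mulV0 : Nuc ι →L[ℂ] Vec ι →L[ℂ] Vec ι :=
  liftL (fun p => (Vec.evalL p.2).smulRight (sgl p.1)) fun p => by
    rw [ContinuousLinearMap.norm_smulRight_apply, norm_sgl, mul_one]
    exact norm_evalL_le _

theorem norm_mulV0 (A : Nuc ι) : ‖mulV0 A‖ ≤ ‖A‖ := norm_liftL_apply _ _ A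

theorem mulV0_sgl (p : ι × ι) (v : Vec ι) : mulV0 (sgl p) v = v p.2 • sgl p.1 := by
  rw [mulV0, liftL_sgl]
  rfl

theorem mulV0_apply (A : Nuc ι) (v : Vec ι) (i : ι) : mulV0 A v i = ∑' j, A (i, j) * v j := by
  have h1 : ∀ p : ι × ι, ((Vec.evalL i).comp (mulV0.flip v)) (sgl p) =
      v p.2 * sgl p.1 i := fun p => by
    rw [ContinuousLinearMap.comp_apply, ContinuousLinearMap.flip_apply, mulV0_sgl]
    rfl
  refine (clm_eq_tsum (prod_inj i) ((Vec.evalL i).comp (mulV0.flip v)) (fun p hp => ?_)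
    A).trans (tsum_congr fun j => ?_)
  · rw [h1, sgl_ne fun h => hp ⟨p.2, Prod.ext h rfl⟩, mul_zero]
  · rw [h1, sgl_self, mul_one]

/-- Transposition. -/
noncomputable def ntr0 : Nuc ι →L[ℂ] Nuc ι :=
  liftL (fun p => sgl p.swap) fun _ => (norm_sgl _).le

theorem norm_ntr0 (A : Nuc ι) : ‖ntr0 A‖ ≤ ‖A‖ := norm_liftL_apply _ _ A

theorem ntr0_sgl (p : ι × ι) : ntr0 (sgl p) = sgl p.swap := liftL_sgl _ _ _

theorem ntr0_apply (A : Nuc ι) (i j : ι) : ntr0 A (i, j) = A (j, i) := by
  classical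
  refine eq_of_sgl ((Vec.evalL (i, j)).comp ntr0) (Vec.evalL (j, i)) (fun p => ?_) A
  obtain ⟨a, b⟩ := p
  rw [ContinuousLinearMap.comp_apply, ntr0_sgl, Vec.evalL_apply, Vec.evalL_apply, sgl_apply,
    sgl_apply]
  simp [Prod.ext_iff, and_comm]

theorem dot0_mulV0 (l : Vec ι) (A : Nuc ι) (v : Vec ι) :
    dot0 (mulV0 (ntr0 A) l) v = dot0 l (mulV0 A v) := by
  refine eq_of_sgl ((dot0.flip v).comp ((mulV0.flip l).comp ntr0))
    ((dot0 l).comp (mulV0.flip v)) (fun p => ?_) A
  change dot0 (mulV0 (ntr0 (sgl p)) l) v = dot0 l (mulV0 (sgl p) v)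
  rw [ntr0_sgl, mulV0_sgl, mulV0_sgl, dot0_comm l, map_smul, map_smul,
    smul_apply, smul_apply, dot0_sgl, dot0_sgl]
  exact mul_comm _ _

theorem nmul_dot (A B : Nuc ι) (i k : ι) :
    nmul A B (i, k) = dot0 (rowL i A) (rowL k (ntr0 B)) := by
  rw [nmul_apply, dot0_apply]
  exact tsum_congr fun j => by rw [rowL_apply, rowL_apply, ntr0_apply]

theorem mulV0_dot (A : Nuc ι) (v : Vec ι) (i : ι) : mulV0 A v i = dot0 (rowL i A) v := by
  rw [mulV0_apply, dot0_apply]
  exact tsum_congr fun j => by rw [rowL_apply]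

end NucA

theorem nmul_assoc (A B C : Nuc ι) : nmul (nmul A B) C = nmul A (nmul B C) := by
  refine lp.ext (funext fun ⟨i, l⟩ => ?_)
  have h1 : rowL i (nmul A B) = mulV0 (ntr0 B) (rowL i A) := lp.ext (funext fun k => by
    rw [rowL_apply, nmul_apply, mulV0_apply]
    exact tsum_congr fun j => by rw [ntr0_apply, rowL_apply, mul_comm])
  have h2 : rowL l (ntr0 (nmul B C)) = mulV0 B (rowL l (ntr0 C)) := lp.ext (funext fun k => by
    rw [rowL_apply, ntr0_apply, nmul_apply, mulV0_apply]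
    exact tsum_congr fun j => by rw [rowL_apply, ntr0_apply])
  rw [nmul_dot, nmul_dot, h1, h2, dot0_mulV0]

noncomputable def mulV : Nuc ι →L[ℂ] Vec ι →L[ℂ] Vec ι := mulV0

theorem mulV_apply (A : Nuc ι) (v : Vec ι) (i : ι) : mulV A v i = ∑' j, A (i, j) * v j :=
  mulV0_apply A v i

theorem norm_mulV_le (A : Nuc ι) (v : Vec ι) : ‖mulV A v‖ ≤ ‖A‖ * ‖v‖ :=
  (mulV A).le_of_opNorm_le (norm_mulV0 A) v

theorem mulV_nmul (A B : Nuc ι) (v : Vec ι) : mulV (nmul A B) v = mulV A (mulV B v) := by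
  refine lp.ext (funext fun i => ?_)
  have h1 : rowL i (nmul A B) = mulV0 (ntr0 B) (rowL i A) := lp.ext (funext fun k => by
    rw [rowL_apply, nmul_apply, mulV0_apply]
    exact tsum_congr fun j => by rw [ntr0_apply, rowL_apply, mul_comm])
  change mulV0 (nmul A B) v i = mulV0 A (mulV0 B v) i
  rw [mulV0_dot, mulV0_dot, h1, dot0_mulV0]

/-- Transposition. -/
noncomputable def ntr : Nuc ι →L[ℂ] Nuc ι := ntr0

@[simp] theorem ntr_apply (A : Nuc ι) (i j : ι) : ntr A (i, j) = A (j, i) := ntr0_apply A i j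

@[simp] theorem ntr_ntr (A : Nuc ι) : ntr (ntr A) = A :=
  lp.ext (funext fun ⟨i, j⟩ => by rw [ntr_apply, ntr_apply])

theorem norm_ntr (A : Nuc ι) : ‖ntr A‖ = ‖A‖ := by
  have h : ∀ B : Nuc ι, ‖ntr B‖ ≤ ‖B‖ := norm_ntr0
  exact le_antisymm (h A) (by simpa using h (ntr A))

theorem ntr_nmul (A B : Nuc ι) : ntr (nmul A B) = nmul (ntr B) (ntr A) := by
  refine lp.ext (funext fun ⟨i, k⟩ => ?_)
  rw [ntr_apply, nmul_apply, nmul_apply]
  exact tsum_congr fun j => by rw [ntr_apply, ntr_apply, mul_comm]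

noncomputable def dot : Vec ι →L[ℂ] Vec ι →L[ℂ] ℂ := dot0

theorem dot_apply (a b : Vec ι) : dot a b = ∑' i, a i * b i := dot0_apply a b

theorem dot_comm (a b : Vec ι) : dot a b = dot b a := dot0_comm a b

theorem dot_mulV (l : Vec ι) (A : Nuc ι) (v : Vec ι) :
    dot l (mulV A v) = dot (mulV (ntr A) l) v := (dot0_mulV0 l A v).symm

noncomputable def outer : Vec ι →L[ℂ] Vec ι →L[ℂ] Nuc ι :=
  liftL inRow fun _ => norm_liftL_le _ _

@[simp] theorem outer_apply (a b : Vec ι) (i j : ι) : outer a b (i, j) = a i * b j := by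
  refine (eq_of_sgl ((Vec.evalL (i, j)).comp (outer.flip b)) (b j • Vec.evalL i)
    (fun k => ?_) a).trans (mul_comm _ _)
  rw [ContinuousLinearMap.comp_apply, ContinuousLinearMap.flip_apply, outer, liftL_sgl,
    Vec.evalL_apply, inRow_apply, smul_apply, Vec.evalL_apply, sgl_apply]
  split_ifs <;> simp

theorem mulV_outer (a b v : Vec ι) : mulV (outer a b) v = dot b v • a := by
  refine lp.ext (funext fun i => ?_)
  rw [mulV_apply, lp.coeFn_smul, Pi.smul_apply, dot_apply, smul_eq_mul, ← tsum_mul_right]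
  exact tsum_congr fun j => by rw [outer_apply]; ring

theorem nmul_outer (A : Nuc ι) (a b : Vec ι) : nmul A (outer a b) = outer (mulV A a) b := by
  refine lp.ext (funext fun ⟨i, k⟩ => ?_)
  rw [nmul_apply, outer_apply, mulV_apply, ← tsum_mul_right]
  exact tsum_congr fun j => by rw [outer_apply]; ring

theorem outer_nmul (A : Nuc ι) (a b : Vec ι) :
    nmul (outer a b) A = outer a (mulV (ntr A) b) := by
  refine lp.ext (funext fun ⟨i, k⟩ => ?_)
  rw [nmul_apply, outer_apply, mulV_apply, ← tsum_mul_left]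
  exact tsum_congr fun j => by rw [outer_apply, ntr_apply]; ring

theorem ntr_outer (a b : Vec ι) : ntr (outer a b) = outer b a :=
  lp.ext (funext fun ⟨i, j⟩ => by rw [ntr_apply, outer_apply, outer_apply, mul_comm])

noncomputable def tr : Nuc ι →L[ℂ] ℂ :=
  open Classical in
  liftL (fun p => if p.1 = p.2 then 1 else 0) fun p => by split_ifs <;> simp

theorem tr_apply (A : Nuc ι) : tr A = ∑' i, A (i, i) := by
  refine (clm_eq_tsum (e := fun i => (i, i)) (fun _ _ h => (Prod.ext_iff.1 h).1) tr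
    (fun p hp => ?_) A).trans (tsum_congr fun j => ?_)
  · rw [tr, liftL_sgl, if_neg fun h => hp ⟨p.1, Prod.ext rfl h⟩]
  · rw [tr, liftL_sgl, if_pos rfl, mul_one]

theorem norm_tr_le (A : Nuc ι) : ‖tr A‖ ≤ ‖A‖ := norm_liftL_apply _ _ A

theorem tr_nmul_comm (A B : Nuc ι) : tr (nmul A B) = tr (nmul B A) := by
  have h : ∀ (B : Nuc ι) (p : ι × ι), tr (nmul (sgl p) B) = B (p.2, p.1) := fun B p => by
    rw [nmul, liftL_sgl, tr_apply, ContinuousLinearMap.comp_apply,
      tsum_eq_single p.1 fun j hj => by rw [inRow_apply, if_neg hj], inRow_apply, if_pos rfl,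
      rowL_apply]
  have h' : ∀ C : Nuc ι, tr (ntr C) = tr C := fun C => by simp only [tr_apply, ntr_apply]
  refine eq_of_sgl (tr.comp (nmul.flip B)) (tr.comp (nmul B)) (fun p => ?_) A
  change tr (nmul (sgl p) B) = tr (nmul B (sgl p))
  rw [h, ← h', ntr_nmul, show ntr (sgl p) = sgl p.swap from ntr0_sgl p, h, ntr_apply]
  rfl

/-- `npw A n` is the power `A ^ (n + 1)`. -/
noncomputable def npw (A : Nuc ι) : ℕ → Nuc ι
  | 0 => A
  | n + 1 => nmul (npw A n) A

theorem norm_npw_le (A : Nuc ι) (n : ℕ) : ‖npw A n‖ ≤ ‖A‖ ^ (n + 1) := by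
  induction n with
  | zero => simp [npw]
  | succ n ih =>
    rw [npw, pow_succ]
    exact (norm_nmul_le _ _).trans (mul_le_mul_of_nonneg_right ih (norm_nonneg _))

theorem npw_succ' (A : Nuc ι) (n : ℕ) : npw A (n + 1) = nmul A (npw A n) := by
  induction n with
  | zero => rfl
  | succ n ih => rw [npw, ih, nmul_assoc, ← npw, ih]

/-- Independent vectors have a dual family. -/
theorem exists_dual {n : Type*} [Fintype n] [DecidableEq n] {v : n → Vec ι}
    (hv : LinearIndependent ℂ v) : ∃ w : n → Vec ι, ∀ i j, dot (w i) (v j) = if i = j then 1 else 0 := by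
  let T : Vec ι →ₗ[ℂ] n → ℂ := LinearMap.pi fun j => (dot.flip (v j)).toLinearMap
  have hT : Function.Surjective T := by
    rw [← LinearMap.range_eq_top]
    by_contra hne
    obtain ⟨φ, h0, hφ⟩ := (LinearMap.range T).exists_le_ker_of_lt_top (lt_top_iff_ne_top.2 hne)
    have h1 : ∑ j, φ (Pi.single j 1) • v j = 0 := by
      refine lp.ext (funext fun i => ?_)
      have h2 : φ (T (sgl i)) = 0 := hφ ⟨_, rfl⟩
      rw [LinearMap.pi_apply_eq_sum_univ] at h2
      change Vec.evalL i _ = 0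
      rw [map_sum, ← h2]
      refine Finset.sum_congr rfl fun j _ => ?_
      have h3 : T (sgl i) j = v j i := dot0_sgl i (v j)
      have h4 : (fun k => if j = k then (1 : ℂ) else 0) = Pi.single j 1 := by
        funext k
        rw [Pi.single_apply]
        simp only [eq_comm]
      rw [map_smul, h3, h4, Vec.evalL_apply, smul_eq_mul, smul_eq_mul, mul_comm]
    have h5 := Fintype.linearIndependent_iff.1 hv _ h1
    exact h0 ((Pi.basisFun ℂ n).ext fun j => by simpa using h5 j)
  choose w hw using fun i => hT (Pi.single i 1)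
  refine ⟨w, fun i j => ?_⟩
  have h := congrFun (hw i) j
  rw [Pi.single_apply] at h
  simp only [eq_comm (a := i)]
  exact h

end Pool.Agent.Lib.MP_de7bb2_an
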