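import Pool.Agent.Lib.MP_de7bb2_an.H20Lev

/-! Periodic orbits of the unperturbed two sided system. TASK ORB0. -/

namespace Pool.Agent.Lib.MP_de7bb2_an

open Metric Set Complex Filter

variable {G : ℕ} [hG : Fact (2 ≤ G)]

namespace Orb0

/-- The periodic orbit of the chart maps read off from the end points. -/
theorem chart_orbit {b : ZMod 2} (D : Nest G b) {ι : Type} [Fintype ι] (e : ι ≃ ι)
    {m : ι → L G} {y : ι → ℂ} (hy : ∀ i, Arc b (m i) (xi (y i)))
    (hu : ∀ i, Edge b (m i) (m (e i))) (hp : ∀ i, pt (mir (m i) (xi (y (e i)))) = y i)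
    (hev : Even (Fintype.card ι)) :
    ∃ η : ι → ℂ, (∀ i, ‖η i‖ ≤ D.q ∧ D.psi (m i) (m (e i)) (η (e i)) = η i ∧
      ∃ a : ℂ, a ≠ 0 ∧ Xi (D.τ (m i)) (m i) (η i) = a • xi (y i)) ∧
      ∏ i, deriv (D.psi (m i) (m (e i))) (η (e i)) =
        exp (-((∑ i, Real.log (mir (m i) (xi (y (e i)))).1.re : ℝ) : ℂ)) := by
  let η : ι → ℝ := fun i => (chI (D.τ (m i)) (m i) (xi (y i))).re
  let a : ι → ℝ := fun i => 1 / (1 + (D.τ (m i) * η i) ^ 2)
  have ha : ∀ i, 0 < a i := fun i => by positivity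
  have h1 : ∀ i, |η i| ≤ D.q ∧ xi (y i) = (a i : ℂ) • Xi (D.τ (m i)) (m i) (η i) := by
    intro i
    obtain ⟨k1, k2, k3⟩ := D.toNest0.arc_chart (hy i)
    have e1 : chI (D.τ (m i)) (m i) (xi (y i)) = (η i : ℂ) := by
      apply Complex.ext <;> simp [η, k1]
    refine ⟨k2, ?_⟩
    rw [← e1]
    exact k3
  have hR : ∀ i, |η i| < D.R := fun i => (h1 i).1.trans_lt (D.q_lt.trans D.one_lt_R)
  have hb : ∀ i, (η i : ℂ) ∈ ball (0 : ℂ) D.R := fun i => by simpa using hR i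
  let s : ι → ℝ := fun i => (mir (m i) (xi (y (e i)))).1.re
  have hn : ∀ i, Nul (mir (m i) (xi (y (e i)))) := fun i => (iso_refl _).nul (hy _).1
  have hs : ∀ i, 0 < s i := fun i => (hn i).2.1
  have h2 : ∀ i, mir (m i) (Xi (D.τ (m (e i))) (m (e i)) (η (e i))) =
      ((s i * a i / a (e i) : ℝ) : ℂ) • Xi (D.τ (m i)) (m i) (η i) := by
    intro i
    have e1 : mir (m i) (xi (y (e i))) = (s i : ℂ) • xi (y i) := by
      have := (hn i).eq_smul_xi
      rwa [hp i] at this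
    have h0 : (a (e i) : ℂ) ≠ 0 := by exact_mod_cast (ha _).ne'
    rw [(h1 i).2, (h1 (e i)).2, map_smul, smul_smul] at e1
    rw [← inv_smul_smul₀ h0 (mir (m i) _), e1, smul_smul]
    congr 1
    push_cast
    ring
  have hq : ∀ i, 0 < s i * a i / a (e i) := fun i => div_pos (mul_pos (hs i) (ha i)) (ha _)
  have h3 : ∀ i, D.psi (m i) (m (e i)) (η (e i)) = η i := fun i => by
    rw [Nest0.psi, h2, chI_Xi (D.τ_pos _).ne' (by exact_mod_cast (hq i).ne')]
  have h4 : ∀ i, D.lj (m i) (m (e i)) (η (e i)) =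
      ((Real.log (s i) + Real.log (a i) - Real.log (a (e i)) : ℝ) : ℂ) := by
    intro i
    have e0 := D.refl_Xi _ _ (hu i) _ (hb (e i))
    rw [h3, h2] at e0
    have e1 := Ax.smul_inj (nul_Xi _ _ _) e0
    have e2 : D.lj (m i) (m (e i)) (η (e i)) = ((D.lj (m i) (m (e i)) (η (e i))).re : ℂ) := by
      apply Complex.ext <;> simp [(D.real _ _ (hu i) _ (hR (e i))).2]
    rw [e2, ← ofReal_exp] at e1
    rw [e2, ← Real.log_mul (hs i).ne' (ha i).ne',
      ← Real.log_div (mul_pos (hs i) (ha i)).ne' (ha _).ne', ofReal_injective e1, Real.log_exp]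
  have h5 : ∑ i, D.lj (m i) (m (e i)) (η (e i)) = ((∑ i, Real.log (s i) : ℝ) : ℂ) := by
    simp only [h4]
    rw [← ofReal_sum, Finset.sum_sub_distrib, Finset.sum_add_distrib,
      Equiv.sum_comp e fun i => Real.log (a i), add_sub_cancel_right]
  refine ⟨fun i => η i, fun i => ⟨by simpa using (h1 i).1, h3 i, (a i : ℂ)⁻¹, ?_, ?_⟩, ?_⟩
  · exact inv_ne_zero (by exact_mod_cast (ha i).ne')
  · have h0 : (a i : ℂ) ≠ 0 := by exact_mod_cast (ha _).ne'
    rw [(h1 i).2, inv_smul_smul₀ h0]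
  rw [Finset.prod_congr rfl fun i _ => D.deriv_psi _ _ (hu i) _ (hb (e i)), Finset.prod_neg,
    Finset.prod_mul_distrib, ← exp_sum, Finset.sum_neg_distrib, h5, ← ofReal_prod,
    Finset.prod_div_distrib, Equiv.prod_comp e fun i => D.τ (m i),
    div_self (Finset.prod_pos fun i _ => D.τ_pos _).ne', Finset.card_univ, Even.neg_one_pow hev]
  simp [s]

theorem pre_smul {m : ℕ → L G} {y : ℕ → ℂ}
    (h : ∀ j, ∃ c : ℂ, c ≠ 0 ∧ mir (m j) (xi (y (j + 1))) = c • xi (y j)) (k : ℕ) :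
    ∃ c : ℂ, c ≠ 0 ∧ lin (pre m k) (xi (y k)) = c • xi (y 0) := by
  induction k with
  | zero => exact ⟨1, one_ne_zero, by simp [pre]⟩
  | succ k ih =>
    obtain ⟨c, hc, e⟩ := ih
    obtain ⟨d, hd, e'⟩ := h k
    exact ⟨d * c, mul_ne_zero hd hc, by rw [pre, lin_mul, lin_sr, e', map_smul, e, smul_smul]⟩

omit hG in
theorem ofFn_eq (m : ℕ → L G) (k : ℕ) : (List.ofFn fun j : Fin (k + 1) => m j) =
    (List.ofFn fun j : Fin k => m j) ++ [m k] := by
  rw [List.ofFn_succ', List.concat_eq_append]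
  rfl

omit hG in
theorem last_ofFn (m : ℕ → L G) (k : ℕ) :
    (List.ofFn fun j : Fin (k + 1) => m j).getLastD 0 = m k := by
  rw [ofFn_eq]; simp

theorem pt_lift {b : ZMod 2} (D : Nest G b) {m : ℕ → L G} {y : ℕ → ℂ}
    (h : ∀ j, ∃ c : ℂ, c ≠ 0 ∧ mir (m j) (xi (y (j + 1))) = c • xi (y j)) (k : ℕ) {η a : ℂ}
    (ha : a ≠ 0) (hX : Xi (D.τ (m k)) (m k) η = a • xi (y k)) :
    pt (D.lift (List.ofFn fun j : Fin (k + 1) => m j) η) = y 0 := by
  obtain ⟨c, hc, e⟩ := pre_smul h k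
  rw [ofFn_eq, Word.lift_eq, ← pre_eq_wd, hX, map_smul, e, pt_smul ha, pt_smul hc, pt_xi]

theorem eq_smul {k m : L G} {b : ZMod 2} {x y : ℂ} (h : Arc b k (xi x))
    (e : pt (mir m (xi x)) = y) : ∃ c : ℂ, c ≠ 0 ∧ mir m (xi x) = c • xi y := by
  have hn := (iso_refl m).nul h.1
  refine ⟨_, ?_, e ▸ hn.eq_smul_xi⟩
  exact_mod_cast hn.2.1.ne'

omit hG in
theorem axis_scale {A : V →L[ℂ] V} {X Y : V} {l : ℝ} (h : Axis A X Y l) (a : ℝ) :
    Axis A ((Real.exp a : ℂ) • X) ((Real.exp (-a) : ℂ) • Y) l := by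
  obtain ⟨hX, hY, hb, hl, h1, h2, h3⟩ := h
  have h6 : (Real.exp (-a) : ℂ) * Real.exp a = 1 := by
    rw [← ofReal_mul, ← Real.exp_add]; simp
  refine ⟨hX.smul (Real.exp_pos _), hY.smul (Real.exp_pos _), ?_, hl, ?_, ?_, ?_⟩
  · rw [br_smul_left, br_smul_right, hb]; linear_combination 2 * h6
  · rw [map_smul, h1, smul_comm]
  · rw [map_smul, h2, smul_comm]
  · rw [Ax.cross_smul, h6, one_smul, h3]

/-- The unit speed parametrisation of an axis. -/
noncomputable def cv (X Y : V) (u : ℝ) : V :=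
  ((Real.exp u / 2 : ℝ) : ℂ) • X + ((Real.exp (-u) / 2 : ℝ) : ℂ) • Y

omit hG in
theorem hyp_cv {X Y : V} (hX : Nul X) (hY : Nul Y) (hb : br X Y = 2) (u : ℝ) : Hyp (cv X Y u) := by
  have h6 : (Real.exp (-u) : ℂ) * Real.exp u = 1 := by
    rw [← ofReal_mul, ← Real.exp_add]; simp
  have : ((Real.exp u : ℂ) • X, (Real.exp (-u) : ℂ) • Y) ∈ SM := by
    refine ⟨hX.smul (Real.exp_pos _), hY.smul (Real.exp_pos _), ?_⟩
    simp only [br_smul_left, br_smul_right, hb]
    linear_combination 2 * h6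
  have h := SM.mid this
  have e : mid ((Real.exp u : ℂ) • X, (Real.exp (-u) : ℂ) • Y) = cv X Y u := by
    simp only [mid, cv, smul_add, smul_smul]
    congr 2 <;> push_cast <;> ring
  rwa [e] at h

omit hG in
theorem cont_cv (X Y : V) : Continuous (cv X Y) := by
  unfold cv
  fun_prop

omit hG in
theorem int_sum {ι : Type} {Wf : ι → V} {Cb : ℝ} (hW : Famy Wf Cb) {X Y : V} (hX : Nul X)
    (hY : Nul Y) (hb : br X Y = 2) (T : ℕ → ℝ) (k : ℕ) (h0 : T 0 = 0) :
    ∑ i ∈ Finset.range k, ((T (i + 1) - T i : ℝ) : ℂ) *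
      ∫ t in (0 : ℝ)..1, bF Wf (cv X Y (T i + t * (T (i + 1) - T i))) = Ib Wf X Y (T k) := by
  have hc : Continuous fun u => bF Wf (cv X Y u) :=
    hW.diffOn_bF.continuousOn.comp_continuous (cont_cv X Y) fun u => (hyp_cv hX hY hb u).near
  have h1 : ∀ i, ((T (i + 1) - T i : ℝ) : ℂ) *
      ∫ t in (0 : ℝ)..1, bF Wf (cv X Y (T i + t * (T (i + 1) - T i))) =
        ∫ u in T i..T (i + 1), bF Wf (cv X Y u) := by
    intro i
    have := intervalIntegral.smul_integral_comp_add_mul (a := 0) (b := 1)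
      (fun u => bF Wf (cv X Y u)) (T (i + 1) - T i) (T i)
    simp only [mul_zero, add_zero, mul_one, add_sub_cancel] at this
    rw [← this, real_smul]
    simp only [mul_comm (T (i + 1) - T i)]
  simp only [h1]
  rw [intervalIntegral.sum_integral_adjacent_intervals fun i _ => hc.intervalIntegrable _ _, h0,
    Ib, ← intervalIntegral.integral_ofReal]
  refine intervalIntegral.integral_congr fun u _ => ?_
  apply Complex.ext
  · rfl
  · simpa using (hW.bF_real (hyp_cv hX hY hb u)).1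

variable {n : ℕ} {u : ZMod (n + 1) → L G} {x y : ZMod (n + 1) → ℂ}

theorem br_pos (h : CycAx u x y) (hu : ∀ i, Edge 1 (u i) (u (i + 1))) (i : ZMod (n + 1)) :
    0 < (br (xi (y i)) (xi (x i))).re := by
  obtain ⟨κ, hκ, hs⟩ := sep_reg (G := G)
  have h1 := hs 1 (u (i - 1)) (u i) (by simpa using hu (i - 1)) (xi (x i)) (xi (y i))
    (arc_iff.1 (h i).2.1).2 (h i).1
  exact lt_of_lt_of_le (by simpa [xi] using hκ) h1

theorem sum_log_eq (h : CycAx u x y) (hu : ∀ i, Edge 1 (u i) (u (i + 1))) :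
    ∑ i, Real.log (mir (u i) (xi (x i))).1.re =
      ∑ i, Real.log (mir (u i) (xi (y (i + 1)))).1.re := by
  let β : ZMod (n + 1) → ℝ := fun i => (br (xi (y i)) (xi (x i))).re
  have hβ : ∀ i, 0 < β i := br_pos h hu
  have key : ∀ i, Real.log (mir (u i) (xi (x i))).1.re + Real.log (β (i + 1)) =
      Real.log (mir (u i) (xi (y (i + 1)))).1.re + Real.log (β i) := by
    intro i
    have n1 := (iso_refl (u i)).nul (h i).2.1.1
    have n2 := Ax.nul_mir h i
    have e1 := n1.eq_smul_xi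
    rw [(h i).2.2.2] at e1
    have e2 := Ax.mir_y h i
    have e3 := (iso_refl (u i)).br_eq (xi (y (i + 1))) (mir (u i) (xi (x i)))
    rw [refl_refl, e2, br_smul_left] at e3
    conv_rhs at e3 => rw [e1, br_smul_right]
    have e4 := congrArg re e3
    rw [re_ofReal_mul, re_ofReal_mul] at e4
    rw [← Real.log_mul n1.2.1.ne' (hβ _).ne', ← Real.log_mul n2.2.1.ne' (hβ _).ne', e4]
  have h1 := Finset.sum_congr rfl fun i (_ : i ∈ Finset.univ) => key i
  have h2 := Equiv.sum_comp (Equiv.addRight (1 : ZMod (n + 1))) fun i => Real.log (β i)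
  simp only [Equiv.coe_addRight] at h2
  rw [Finset.sum_add_distrib, Finset.sum_add_distrib, h2] at h1
  exact add_right_cancel h1

theorem lin_mid (h : CycAx u x y) (hu : ∀ i, Edge 1 (u i) (u (i + 1))) (g : W G) (k : ℕ)
    (a s : ℝ) :
    lin (g * pre (fun i : ℕ => u i) k) (mid (pairE (x k) (y k) s)) =
      cv ((Real.exp a : ℂ) • lin g (xi (y 0)))
        ((Real.exp (-a) : ℂ) • lin g ((2 / br (xi (y 0)) (xi (x 0))) • xi (x 0)))
        (s - a + ∑ i ∈ Finset.range k,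
          Real.log (mir (u i) (xi (y ((i : ZMod (n + 1)) + 1)))).1.re) := by
  have e1 := Ax.pre_y h k
  obtain ⟨c, e2⟩ := Ax.pre_x h k
  set S := ∑ i ∈ Finset.range k, Real.log (mir (u i) (xi (y ((i : ZMod (n + 1)) + 1)))).1.re
  have e3 := (iso_lin (pre (fun i : ℕ => u i) k)).br_eq (xi (y k)) (xi (x k))
  rw [e1, e2, br_smul_left, br_smul_right] at e3
  have n0 : br (xi (y 0)) (xi (x 0)) ≠ 0 := fun e => by simpa [e] using br_pos h hu 0
  have nk : br (xi (y k)) (xi (x k)) ≠ 0 := fun e => by simpa [e] using br_pos h hu k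
  have nc : c ≠ 0 := by
    rintro rfl
    exact nk (by simpa using e3.symm)
  simp only [mid, pairE, cv, map_smul, map_add, lin_mul, e1, e2, smul_add, smul_smul]
  rw [br_comm (xi (x k)), ← e3]
  congr 2
  · push_cast
    rw [exp_add, exp_sub]
    field_simp
  · push_cast
    rw [neg_add, neg_sub, exp_add, exp_sub, exp_neg, exp_neg, exp_neg]
    field_simp

end Orb0

open Orb0 in
theorem exists_orb0 (B : Base G) : ∀ᶠ N in atTop, ∀ (n : ℕ) (π : Cyc (EN (G := G) (N := N)) n),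
    ∃ ξ η : ZMod (n + 1) → ℂ,
      IsOrb B.R (fun σ σ' p => B.psS σ σ' p.1) (fun σ σ' p => B.psU σ σ' p.2) π.1 ξ η ∧
      ∏ i, deriv (B.psS (π.1 i) (π.1 (i + 1))) (ξ i) = exp (-len0 (gam (cycE N n π))) ∧
      ∏ i, deriv (B.psU (π.1 i) (π.1 (i + 1))) (η (i + 1)) = exp (-len0 (gam (cycE N n π))) ∧
      ∑ i, B.r0 (π.1 i) (π.1 (i + 1)) (ξ i, η (i + 1)) = len0 (gam (cycE N n π)) ∧
      ∃ X Y, Axis (lin (gam (cycE N n π))) X Y (len0 (gam (cycE N n π))) ∧ ∀ w, Hyp w →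
        ∑ i, B.rb w (π.1 i) (π.1 (i + 1)) (ξ i, η (i + 1)) =
          Ib (fam (1 : W G) w) X Y (len0 (gam (cycE N n π))) := by
  refine Eventually.of_forall fun N n π => ?_
  obtain ⟨u, hdu⟩ : ∃ u : ZMod (n + 1) → L G, ∀ i, (π.1 i).hd = u i := ⟨_, fun _ => rfl⟩
  have hπ : ∀ i, ((cycE N n π).1 i).2 = u i := fun i => by rw [cycE_apply, hdu]
  have hπ' : (fun i => ((cycE N n π).1 i).2) = u := funext hπ
  have hu : ∀ i, Edge 1 (u i) (u (i + 1)) := fun i => by
    rw [← hπ, ← hπ]; exact ((cycE N n π).2 i).1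
  obtain ⟨x, y, h⟩ := exists_cycAx hu
  have hax := CycAx.axis (cycE N n π) (x := x) (y := y) (by rw [hπ']; exact h)
  simp only [hπ] at hax
  have hev : Even (Fintype.card (ZMod (n + 1))) := by
    simpa [cw] using even_length_of_mem (wd_cw_mem (cycE N n π))
  obtain ⟨η, hη, hηp⟩ := chart_orbit B.D1 (Equiv.addRight (1 : ZMod (n + 1))) (m := u) (y := y)
    (fun i => (h i).1) hu (fun i => (h i).2.2.1) hev
  obtain ⟨ξ, hξ, hξp⟩ := chart_orbit B.D0 (Equiv.subRight (1 : ZMod (n + 1)))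
    (m := fun i => u (i - 1)) (y := x) (fun i => (h i).2.1)
    (fun i => edge_symm (b := 1).2 (by simpa using hu (i - 1 - 1)))
    (fun i => by simpa using (h (i - 1)).2.2.2) hev
  simp only [Equiv.coe_addRight, Equiv.subRight_apply] at hη hηp hξ hξp
  have hsum := Equiv.sum_comp (Equiv.subRight (1 : ZMod (n + 1)))
    fun i => Real.log (mir (u i) (xi (x i))).1.re
  simp only [Equiv.subRight_apply] at hsum
  rw [hsum, sum_log_eq h hu] at hξp
  rw [hax.len0_eq]
  set l := ∑ i, Real.log (mir (u i) (xi (y (i + 1)))).1.re with hl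
  have hfu : ∀ i, (π.1 i).fu = List.ofFn fun j : Fin (N + 1) => u (i + (j : ℕ)) := fun i => by
    rw [(cyc_window π i).1]; simp only [hdu]
  have hpa : ∀ i, (π.1 i).pa = List.ofFn fun j : Fin (N + 1) => u (i - (j : ℕ) - 1) := fun i => by
    rw [(cyc_window π i).2]; simp only [hdu, sub_right_comm]
  have hU : ∀ i, B.psU (π.1 i) (π.1 (i + 1)) = B.D1.psi (u (i + N)) (u (i + N + 1)) := fun i => by
    rw [Base.psU, hfu, hfu, last_ofFn fun j : ℕ => u (i + j),
      last_ofFn fun j : ℕ => u (i + 1 + j), add_right_comm]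
  have hS : ∀ i, B.psS (π.1 i) (π.1 (i + 1)) =
      B.D0.psi (u (i + 1 - N - 1)) (u (i + 1 - N - 1 - 1)) := fun i => by
    rw [Base.psS, hpa, hpa, last_ofFn fun j : ℕ => u (i - j - 1),
      last_ofFn fun j : ℕ => u (i + 1 - j - 1), show i + 1 - N - 1 - 1 = i - N - 1 by ring]
  have hy : ∀ i, B.yP (π.1 i) (η (i + N)) = y i := fun i => by
    obtain ⟨a, ha, e⟩ := (hη (i + N)).2.2
    rw [Base.yP, hfu, pt_lift B.D1 (m := fun j : ℕ => u (i + j)) (y := fun j : ℕ => y (i + j))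
      (fun j => ?_) N ha e, Nat.cast_zero, add_zero]
    rw [Nat.cast_succ, ← add_assoc]
    exact eq_smul (h _).1 (h _).2.2.1
  have hx : ∀ i, B.xP (π.1 i) (ξ (i - N)) = x i := fun i => by
    obtain ⟨a, ha, e⟩ := (hξ (i - N)).2.2
    rw [Base.xP, hpa, pt_lift B.D0 (m := fun j : ℕ => u (i - j - 1))
      (y := fun j : ℕ => x (i - j)) (fun j => ?_) N ha e, Nat.cast_zero, sub_zero]
    rw [Nat.cast_succ, ← sub_sub]
    exact eq_smul (h _).2.1 (by simpa using (h (i - j - 1)).2.2.2)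
  have hr : ∀ i (z : ℂ), B.r0 (π.1 i) (π.1 (i + 1)) (z, η (i + 1 + N)) =
      ((Real.log (mir (u i) (xi (y (i + 1)))).1.re + B.v (u (i + 1)) - B.v (u i) : ℝ) : ℂ) := by
    intro i z
    have hn := Ax.nul_mir h i
    rw [Base.r0, hy, hdu, hdu, hn.1.fst_eq, ← ofReal_log hn.2.1.le]
    push_cast
    rfl
  have hR := B.one_lt_R
  refine ⟨fun i => ξ (i - N), fun i => η (i + N), fun i => ⟨?_, ?_, ?_, ?_⟩, ?_, ?_, ?_, ?_⟩
  · exact (hξ _).1.trans_lt (B.D0.q_lt.trans hR)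
  · exact (hη _).1.trans_lt (B.D1.q_lt.trans hR)
  · have := (hξ (i + 1 - N)).2.1
    simp only [hS]
    rwa [show i - N = i + 1 - N - 1 by ring]
  · have := (hη (i + N)).2.1
    simp only [hU]
    rwa [add_right_comm i 1]
  · rw [← hξp, ← Equiv.prod_comp (Equiv.addRight (1 - N : ZMod (n + 1))) fun i =>
      deriv (B.D0.psi (u (i - 1)) (u (i - 1 - 1))) (ξ (i - 1))]
    refine Finset.prod_congr rfl fun i _ => ?_
    simp only [hS, Equiv.coe_addRight, ← add_sub_assoc]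
    rw [show i + 1 - N - 1 = i - N by ring]
  · rw [← hηp, ← Equiv.prod_comp (Equiv.addRight (N : ZMod (n + 1))) fun i =>
      deriv (B.D1.psi (u i) (u (i + 1))) (η (i + 1))]
    refine Finset.prod_congr rfl fun i _ => ?_
    simp only [hU, Equiv.coe_addRight]
    rw [add_right_comm i 1]
  · simp only [hr]
    have := Equiv.sum_comp (Equiv.addRight (1 : ZMod (n + 1))) fun i => B.v (u i)
    simp only [Equiv.coe_addRight] at this
    rw [← ofReal_sum, Finset.sum_sub_distrib, Finset.sum_add_distrib, this, add_sub_cancel_right]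
  have hax' := axis_scale hax (B.v (u 0))
  refine ⟨_, _, hax', fun w hw => ?_⟩
  obtain ⟨Cb, hCb⟩ := exists_famy (G := G)
  let T : ℕ → ℝ := fun k => B.v (u k) - B.v (u 0) + ∑ i ∈ Finset.range k,
    Real.log (mir (u i) (xi (y ((i : ZMod (n + 1)) + 1)))).1.re
  have hT : T (n + 1) = l := by
    simp only [T, ZMod.natCast_self, sub_self, zero_add]
    exact Ax.sum_zmod fun i => Real.log (mir (u i) (xi (y (i + 1)))).1.re
  have hint := int_sum (hCb 1 w hw) hax'.1 hax'.2.1 hax'.2.2.1 T (n + 1) (by simp [T])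
  rw [hT] at hint
  rw [← hint, ← Ax.sum_zmod]
  refine Finset.sum_congr rfl fun k _ => ?_
  have hd : T (k + 1) - T k = Real.log (mir (u k) (xi (y ((k : ZMod (n + 1)) + 1)))).1.re +
      B.v (u ((k : ZMod (n + 1)) + 1)) - B.v (u k) := by
    simp only [T, Finset.sum_range_succ, Nat.cast_succ]
    ring
  have hcl : cl (sec (π.1 k).cls : W G) =
      cl (1 * (sec ((cycE N n π).1 0).1 * pre (fun i : ℕ => u i) k)) := by
    have := (Hom.along 0 (σ := fun i : ℕ => (cycE N n π).1 i)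
      (fun i => by simpa using ((cycE N n π).2 i).2) (g := sec ((cycE N n π).1 0).1)
      (by simpa using cl_sec _) k).1
    simp only [hπ] at this
    rw [one_mul, pre_eq_wd, this, cl_sec, cycE_apply]
  simp only [Base.rb, rbF, Base.par4]
  rw [hr, hx, hy, hdu, (h k).2.2.1, ← hd, bF_fam_congr hcl]
  congr 1
  refine intervalIntegral.integral_congr fun t _ => ?_
  have := lin_mid h hu (sec ((cycE N n π).1 0).1) k (B.v (u 0))
    (B.v (u k) + t * (T (k + 1) - T k))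
  rw [bF_fam, ← ofReal_mul, ← ofReal_add, this]
  congr 2
  simp only [T]
  ring

end Pool.Agent.Lib.MP_de7bb2_an
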