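import Pool.Agent.Lib.MP_de7bb2_an.H20Lev

/-! Cross maps and roof function of the perturbed flow. TASK PERT. -/

namespace Pool.Agent.Lib.MP_de7bb2_an

open Metric Set Complex Filter

variable {G : ℕ} [hG : Fact (2 ≤ G)]

structure Pert (B : Base G) (N : ℕ) (w : V) where
  ε₀ : ℝ
  q : ℝ
  f : ℂ → StN G N → StN G N → ℂ × ℂ → ℂ
  g : ℂ → StN G N → StN G N → ℂ × ℂ → ℂ
  ρ : ℂ → StN G N → StN G N → ℂ × ℂ → ℂ
  ε₀_pos : 0 < ε₀
  q_lt : q < 1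
  diff : ∀ σ σ', EN σ σ' →
    DifferentiableOn ℂ (fun x : ℂ × ℂ × ℂ => f x.1 σ σ' x.2) (ball 0 ε₀ ×ˢ ball 0 B.R) ∧
    DifferentiableOn ℂ (fun x : ℂ × ℂ × ℂ => g x.1 σ σ' x.2) (ball 0 ε₀ ×ˢ ball 0 B.R) ∧
    DifferentiableOn ℂ (fun x : ℂ × ℂ × ℂ => ρ x.1 σ σ' x.2) (ball 0 ε₀ ×ˢ ball 0 B.R)
  bnd : ∀ σ σ', EN σ σ' → ∀ ε ∈ ball (0 : ℂ) ε₀, ∀ p ∈ ball (0 : ℂ × ℂ) B.R,
    ‖f ε σ σ' p‖ ≤ q ∧ ‖g ε σ σ' p‖ ≤ q ∧ B.r₀ / 4 ≤ (ρ ε σ σ' p).re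
  zero : ∀ σ σ', EN σ σ' → ∀ p ∈ ball (0 : ℂ × ℂ) B.R,
    f 0 σ σ' p = B.psS σ σ' p.1 ∧ g 0 σ σ' p = B.psU σ σ' p.2 ∧ ρ 0 σ σ' p = B.r0 σ σ' p
  real : ∀ ε : ℝ, |ε| < ε₀ → ∀ σ σ', EN σ σ' → ∀ a b : ℝ, |a| < B.R → |b| < B.R →
    (f ε σ σ' (a, b)).im = 0 ∧ (g ε σ σ' (a, b)).im = 0 ∧ (ρ ε σ σ' (a, b)).im = 0
  per : ∀ ε : ℝ, |ε| < ε₀ → ∀ (n : ℕ) (π : Cyc (EN (G := G) (N := N)) n)
    (ξ η : ZMod (n + 1) → ℂ), IsOrb B.R (f ε) (g ε) π.1 ξ η →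
      (∀ i, (ξ i).im = 0 ∧ (η i).im = 0) → ∃ E, PerG (fam (1 : W G) w) ε (lin (gam (cycE N n π)))
        (∑ i, (ρ ε (π.1 i) (π.1 (i + 1)) (ξ i, η (i + 1))).re) E

namespace PertA

open ComplexConjugate Topology

/-- Rotation about the time axis. -/
noncomputable def rot (θ : ℂ) (Z : V) : V := (Z.1, Z.2.1 * exp (θ * I), Z.2.2 * exp (-(θ * I)))

theorem rot_zero (Z : V) : rot 0 Z = Z := by simp [rot]

theorem rot_smul (θ c : ℂ) (Z : V) : rot θ (c • Z) = c • rot θ Z := by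
  simp [rot, mul_assoc]

theorem rot_xi (θ y : ℂ) : rot θ (xi y) = xi (y * exp (θ * I)) := by
  simp [rot, xi, exp_neg, mul_comm]

theorem pt_rot (θ : ℂ) (Z : V) : pt (rot θ Z) = pt Z * exp (θ * I) := by
  simp only [pt, rot]
  ring

theorem br_rot (θ : ℂ) (Z : V) : br (rot θ Z) (rot θ Z) = br Z Z := by
  have h : exp (θ * I) * exp (-(θ * I)) = 1 := by rw [← exp_add, add_neg_cancel, exp_zero]
  simp only [br, rot]
  linear_combination (-(Z.2.1 * Z.2.2)) * h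

theorem isRe_rot {θ : ℂ} (h : θ.im = 0) {Z : V} (hZ : IsRe Z) : IsRe (rot θ Z) := by
  refine ⟨hZ.1, ?_⟩
  simp only [rot, hZ.2, map_mul, ← exp_conj, conj_I, conj_eq_iff_im.2 h, mul_neg]

theorem br_xi_self {y : ℂ} (hy : y ≠ 0) : br (xi y) (xi y) = 0 := by
  rw [br_xi_xi hy hy]
  simp

theorem eq_smul_of_pt {Z Y : V} (hZ : br Z Z = 0) (hZ0 : Z.1 ≠ 0) (hY : br Y Y = 0)
    (hY0 : Y.1 ≠ 0) (h : pt Z = pt Y) : Z = (Z.1 / Y.1) • Y := by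
  conv_rhs => rw [(eq_smul_xi_of_null hY hY0).2]
  rw [smul_smul, ← h]
  simp only [xi, Prod.smul_fst, smul_eq_mul, mul_one]
  rw [div_mul_cancel₀ _ hY0]
  exact (eq_smul_xi_of_null hZ hZ0).2

/-- The denominator of the inverse chart. -/
noncomputable def den (m : L G) (E : V) : ℂ := conj (ee m) * E.2.1 + ee m * E.2.2 + 2 * E.1

omit hG in
theorem den_Xi (τ : ℝ) (m : L G) (η : ℂ) : den m (Xi τ m η) = 4 := by
  have h := Chart.hh_conj m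
  simp only [den, Xi, Sq, sp, Chart.conj_ee]
  simp only [ee]
  linear_combination ((hh m * conj (hh m) + 1) * ((1 + I * τ * η) ^ 2 + (1 - I * τ * η) ^ 2) +
    2 * (1 + I * τ * η) * (1 - I * τ * η)) * h

omit hG in
theorem eq_smul_Xi {τ : ℝ} (hτ : τ ≠ 0) (m : L G) {E : V} (h : br E E = 0) (hd : den m E ≠ 0) :
    E = (den m E / 4) • Xi τ m (chI τ m E) := by
  have h1 := Chart.hh_conj m
  have hτ' : (τ : ℂ) ≠ 0 := ofReal_ne_zero.2 hτ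
  have h2 : I * τ * chI τ m E = (conj (ee m) * E.2.1 - ee m * E.2.2) / den m E := by
    have : chI τ m E = (conj (ee m) * E.2.1 - ee m * E.2.2) / (I * τ * den m E) := rfl
    rw [this]
    field_simp
  have h3 : 1 + I * τ * chI τ m E = 2 * (conj (ee m) * E.2.1 + E.1) / den m E := by
    rw [h2, eq_div_iff hd, add_mul, div_mul_cancel₀ _ hd, den]
    ring
  have h4 : 1 - I * τ * chI τ m E = 2 * (ee m * E.2.2 + E.1) / den m E := by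
    rw [h2, eq_div_iff hd, sub_mul, div_mul_cancel₀ _ hd, den]
    ring
  have h5 : E.1 ^ 2 = E.2.1 * E.2.2 := by
    simp only [br] at h
    linear_combination h
  have h6 : den m E = conj (hh m) ^ 2 * E.2.1 + hh m ^ 2 * E.2.2 + 2 * E.1 := by
    rw [den, Chart.conj_ee, ee]
  simp only [Xi, Sq, sp, h3, h4, Chart.conj_ee]
  simp only [ee]
  generalize den m E = d at hd h6
  generalize conj (hh m) = k at h1 h6
  generalize hh m = j at h1 h6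
  obtain ⟨a, b, c⟩ := E
  simp only at h5 h6 ⊢
  refine Prod.ext ?_ (Prod.ext ?_ ?_) <;> simp only [Prod.smul_mk, smul_eq_mul] <;> field_simp
  · linear_combination 4 * a * h6 + 4 * h5 -
      4 * ((k ^ 2 * b + a) * (j ^ 2 * c + a) + (j * k + 1) * b * c) * h1
  · linear_combination 4 * b * h6 - 4 * j ^ 2 * h5 -
      4 * (j * k + 1) * b * (k ^ 2 * b + 2 * a) * h1
  · linear_combination 4 * c * h6 - 4 * k ^ 2 * h5 -
      4 * (j * k + 1) * c * (j ^ 2 * c + 2 * a) * h1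

variable {b : ZMod 2} (D : Nest G b) (u : List (L G)) (A : V →L[ℂ] V)

/-- The rotated lift seen from the last chamber. -/
noncomputable def Wv (z : ℂ × ℂ) : V :=
  lin (wd u.dropLast)⁻¹ (A (rot z.1 (A (D.lift u z.2))))

/-- The rotated chart parameter. -/
noncomputable def Ph (z : ℂ × ℂ) : ℂ := chI (D.τ (u.getLastD 0)) (u.getLastD 0) (Wv D u A z)

theorem diff_Wv : Differentiable ℂ (Wv D u A) := by
  have h := D.diff_lift u
  unfold Wv rot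
  fun_prop

theorem diff_den : Differentiable ℂ fun z => den (u.getLastD 0) (Wv D u A z) := by
  have h := diff_Wv D u A
  unfold den
  fun_prop

theorem diffAt_Ph {z : ℂ × ℂ} (hz : den (u.getLastD 0) (Wv D u A z) ≠ 0) :
    DifferentiableAt ℂ (Ph D u A) z := by
  have h := diff_Wv D u A
  have h1 := diff_den D u A
  have h2 : Differentiable ℂ fun z => conj (ee (u.getLastD 0)) * (Wv D u A z).2.1 -
      ee (u.getLastD 0) * (Wv D u A z).2.2 := by fun_prop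
  exact (h2 z).mul (((differentiableAt_const _).mul (h1 z)).inv
    (mul_ne_zero (mul_ne_zero I_ne_zero (ofReal_ne_zero.2 (D.τ_pos _).ne')) hz))

variable {A}

theorem Wv_zero (hA : ∀ Z, A (A Z) = Z) (η : ℂ) :
    Wv D u A (0, η) = Xi (D.τ (u.getLastD 0)) (u.getLastD 0) η := by
  simp only [Wv, rot_zero, hA, Nest.lift, lin_inv_lin]

theorem Ph_zero (hA : ∀ Z, A (A Z) = Z) (η : ℂ) : Ph D u A (0, η) = η := by
  rw [Ph, Wv_zero D u hA, ← one_smul ℂ (Xi _ _ η), chI_Xi (D.τ_pos _).ne' one_ne_zero]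

theorem tube (hA : ∀ Z, A (A Z) = Z) {q q' : ℝ} (hq : q < q') : ∀ᶠ θ in 𝓝 (0 : ℂ),
    ∀ η ∈ closedBall (0 : ℂ) q,
      den (u.getLastD 0) (Wv D u A (θ, η)) ≠ 0 ∧ ‖Ph D u A (θ, η)‖ ≤ q' := by
  refine (isCompact_closedBall 0 q).eventually_forall_of_forall_eventually fun η hη => ?_
  have h0 : den (u.getLastD 0) (Wv D u A (0, η)) ≠ 0 := by
    rw [Wv_zero D u hA, den_Xi]
    norm_num
  refine ((diff_den D u A).continuous.continuousAt.eventually_ne h0).and ?_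
  refine (diffAt_Ph D u A h0).continuousAt.norm.eventually_le_const ?_
  beta_reduce
  rw [Ph_zero D u hA]
  exact (mem_closedBall_zero_iff.1 hη).trans_lt hq

theorem eq_lift (hA : Iso A) {z : ℂ × ℂ} (hz : den (u.getLastD 0) (Wv D u A z) ≠ 0) {η : ℂ}
    (hη : Ph D u A z = η) : pt (A (rot z.1 (A (D.lift u z.2)))) = pt (D.lift u η) := by
  subst hη
  have h0 : br (Wv D u A z) (Wv D u A z) = 0 := by
    rw [Wv, (iso_lin _).br_eq, hA.br_eq, br_rot, hA.br_eq, D.br_lift_self]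
  have h1 := congrArg (lin (wd u.dropLast)) (eq_smul_Xi (D.τ_pos (u.getLastD 0)).ne' _ h0 hz)
  rw [map_smul] at h1
  conv_lhs at h1 => rw [Wv, lin_lin_inv]
  rw [h1, pt_smul (div_ne_zero hz (by norm_num))]
  rfl

theorem Ph_im (hA : Iso A) {θ η : ℂ} (hθ : θ.im = 0) (hη : η.im = 0) :
    (Ph D u A (θ, η)).im = 0 := by
  have h1 : IsRe (D.lift u η) := by
    rw [← conj_eq_iff_re.1 (conj_eq_iff_im.2 hη)]
    exact (D.nul_lift u _).1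
  rw [Ph, Wv, Chart.chI_eq ((iso_lin _).isRe _ (hA.isRe _ (isRe_rot hθ (hA.isRe _ h1))))]
  exact ofReal_im _

theorem iso_id : Iso (ContinuousLinearMap.id ℂ V) := ⟨fun _ _ => rfl, fun _ h => h, fun _ h => h⟩

/-- The action of a group element on pairs as a real linear equivalence. -/
noncomputable def actE (g : W G) : (V × V) ≃L[ℝ] (V × V) :=
  ContinuousLinearEquiv.equivOfInverse (((lin g).prodMap (lin g)).restrictScalars ℝ)
    (((lin g⁻¹).prodMap (lin g⁻¹)).restrictScalars ℝ)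
    (fun x => Prod.ext (lin_inv_lin g x.1) (lin_inv_lin g x.2))
    (fun x => Prod.ext (lin_lin_inv g x.1) (lin_lin_inv g x.2))

theorem actE_apply (g : W G) (E : V × V) : actE g E = act2 (lin g) E := rfl

theorem act2_mul (g h : W G) (E : V × V) :
    act2 (lin (g * h)) E = act2 (lin g) (act2 (lin h) E) :=
  Prod.ext (lin_mul g h E.1) (lin_mul g h E.2)

theorem VF_act (g : W G) (w : V) (ε : ℝ) (E : V × V) :
    VF (fam (1 : W G) w) ε (act2 (lin g) E) = act2 (lin g) (VF (fam (sec (cl g) : W G) w) ε E) := by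
  rw [← VF_fam, VF_fam_congr (g' := sec (cl g)) (by rw [one_mul, cl_sec])]

/-- Gluing of segments along a closed path. -/
theorem glue {w : V} {ε : ℝ} {n : ℕ} (π : Cyc (StE (G := G) 1) n) (e : ZMod (n + 1) → ℝ → V × V)
    (σ : ZMod (n + 1) → ℝ → ℝ) (hσ : ∀ i, ContinuousOn (σ i) (Icc 0 1))
    (he : ∀ i, ∀ t ∈ Icc (0 : ℝ) 1, 0 < σ i t ∧ e i t ∈ SM ∧
      HasDerivWithinAt (e i) (σ i t • VF (fam (sec (π.1 i).1 : W G) w) ε (e i t)) (Icc 0 1) t)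
    (hj : ∀ i, e i 1 = act2 (mir (π.1 i).2) (e (i + 1) 0))
    (hpos : 0 < ∑ i, ∫ t in (0 : ℝ)..1, σ i t) :
    ∃ E, PerG (fam (1 : W G) w) ε (lin (gam π)) (∑ i, ∫ t in (0 : ℝ)..1, σ i t) E := by
  let g : ℕ → W G := fun k => sec (π.1 0).1 * pre (fun i : ℕ => (π.1 i).2) k
  have hg : ∀ k, g (k + 1) = g k * sr (π.1 k).2 := fun k => (mul_assoc _ _ _).symm
  have hcl : ∀ k : ℕ, cl (g k) = (π.1 k).1 := fun k => by
    induction k with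
    | zero => simp [g, pre, cl_sec]
    | succ k ih => rw [hg, Hom.cl_step, ih, Nat.cast_succ, (π.2 k).2]
  have hstep : ∀ k : ℕ, act2 (lin (g k)) (e k 1) = act2 (lin (g (k + 1))) (e (k + 1 : ℕ) 0) :=
    fun k => by rw [hj, hg, act2_mul (g k), lin_sr, Nat.cast_succ]
  obtain ⟨C, h1, h2⟩ := exists_glue SM (VF (fam (1 : W G) w) ε) (actE (gam π))
    (fun x => ⟨fun h => by
      have := SM.act2 (iso_lin (gam π)⁻¹) h
      rwa [actE_apply, ← act2_mul, inv_mul_cancel, map_one] at this, SM.act2 (iso_lin _)⟩)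
    (fun x _ => by
      rw [actE_apply, actE_apply, VF_act, mem_Gam.1 (gam_mem π),
        VF_fam_congr (g' := 1) (by rw [cl_sec, cl_one])])
    n (fun k t => act2 (lin (g k)) (e k t)) (fun k => σ k)
    (fun k _ => ⟨hσ k, fun t ht => (he k t ht).1⟩)
    (fun k _ t ht => ⟨SM.act2 (iso_lin _) (he k t ht).2.1, by
      have h3 := (actE (g k)).hasFDerivAt.comp_hasDerivWithinAt t (he k t ht).2.2
      rw [ContinuousLinearEquiv.coe_coe, map_smul, actE_apply, ← hcl, ← VF_act] at h3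
      exact h3⟩)
    (fun k _ => hstep k)
    (by
      rw [hstep, actE_apply, ← act2_mul, ZMod.natCast_self, Nat.cast_zero]
      congr 2
      simp only [g, gam, Ax.wd_cw, pre, mul_one, inv_mul_cancel_right])
  rw [Ax.sum_zmod fun i => ∫ t in (0 : ℝ)..1, σ i t] at h2
  exact ⟨C, h1, hpos, h2⟩

/-- The end of a segment is the mirror image of the start of the next one. -/
theorem join (B : Base G) {N : ℕ} {σ σ' : StN G N} {p : ℂ × ℂ} {E E' : V × V} {θ ξ' : ℂ}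
    {τ : St G} (hE : act2 (mir σ.hd) E ∈ SM)
    (h1 : E = pairE (B.xP σ p.1 * exp (θ * I)) (pt (mir σ.hd (xi (B.yP σ' p.2))))
      (B.v σ.hd + B.r0 σ σ' p))
    (hx : ‖B.xP σ p.1‖ = 1) (hy : ‖B.yP σ' p.2‖ = 1) (hS : (B.psS σ σ' p.1).im = 0)
    (h3 : 0 < (mir σ.hd (xi (B.yP σ' p.2))).1.re) (h4 : (mir σ.hd (xi (B.xP σ p.1))).1 ≠ 0)
    (h5 : pt (mir σ.hd (xi (B.xP σ p.1))) = B.xP σ' (B.psS σ σ' p.1))
    (h6 : pt (mir σ.hd (rot θ (mir σ.hd (B.D0.lift σ'.pa (B.psS σ σ' p.1))))) =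
      pt (B.D0.lift σ'.pa ξ')) (hτ : τ = (σ.cls, σ.hd))
    (h7 : E' = pairE (B.xP σ' ξ') (B.yP σ' p.2) (B.v σ'.hd)) : E = act2 (mir τ.2) E' := by
  have hJ : (mir σ.hd (xi (B.yP σ' p.2))).1 ≠ 0 := fun h => by simp [h] at h3
  have hn := ((iso_refl σ.hd).nul (nul_xi hy)).2.2
  have h8 : (act2 (mir σ.hd) E).1 = exp (B.v σ'.hd) • xi (B.yP σ' p.2) := by
    have h9 : exp (B.v σ.hd + B.r0 σ σ' p) =
        exp (B.v σ'.hd) * (mir σ.hd (xi (B.yP σ' p.2))).1 := by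
      rw [← exp_log hJ, ← exp_add, Base.r0]
      congr 1
      ring
    rw [h1]
    simp only [act2, pairE]
    rw [h9, mul_smul, ← (eq_smul_xi_of_null hn hJ).2, map_smul, refl_refl]
  have h20 : (act2 (mir σ.hd) E).2.1 ≠ 0 := fun h => by simpa [h] using hE.2.1.2.1
  have h10 := eq_pairE hE.2.1.2.2 h20 hE.2.2 h8
  have hL : Nul (B.D0.lift σ'.pa (B.psS σ σ' p.1)) := by
    rw [← conj_eq_iff_re.1 (conj_eq_iff_im.2 hS)]
    exact B.D0.nul_lift _ _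
  have hL0 : (B.D0.lift σ'.pa (B.psS σ σ' p.1)).1 ≠ 0 := fun h => by simpa [h] using hL.2.1
  have h11 := eq_smul_of_pt hL.2.2 hL0 ((iso_refl σ.hd).nul (nul_xi hx)).2.2 h4 h5.symm
  rw [h11, map_smul, refl_refl, rot_smul, map_smul, pt_smul (div_ne_zero hL0 h4), rot_xi] at h6
  have h12 : pt (act2 (mir σ.hd) E).2 = B.xP σ' ξ' := by
    rw [h1] at h20 ⊢
    simp only [act2, pairE, map_smul] at h20 ⊢
    rw [pt_smul (fun h => h20 (by rw [h, zero_smul]; rfl)), h6, Base.xP]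
  rw [h12, ← h7] at h10
  rw [hτ, ← h10]
  exact Prod.ext (refl_refl _ _).symm (refl_refl _ _).symm

end PertA

open PertA Topology in
theorem exists_pert (B : Base G) : ∀ᶠ N in atTop, ∀ w, Hyp w → Nonempty (Pert B N w) := by
  obtain ⟨Cb, hCb⟩ := exists_famy (G := G)
  obtain ⟨δ, hδ, ε₀, hε₀, C, H⟩ := exists_hopf B.κ_pos B.U Cb
  filter_upwards [B.par4_mem hδ] with N hN w hw
  choose α β ρ hα hβ hρ hb hre using fun q : Q => H _ (fam (sec q : W G) w) (hCb _ w hw)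
  have hq : B.q < (1 + B.q) / 2 := by linarith [B.q_lt]
  have ht : ∀ᶠ θ in 𝓝 (0 : ℂ), ∀ σ σ' : StN G N, ∀ η ∈ closedBall (0 : ℂ) B.q,
      (den (σ'.pa.getLastD 0) (Wv B.D0 σ'.pa (mir σ.hd) (θ, η)) ≠ 0 ∧
        ‖Ph B.D0 σ'.pa (mir σ.hd) (θ, η)‖ ≤ (1 + B.q) / 2) ∧
      den (σ.fu.getLastD 0) (Wv B.D1 σ.fu (ContinuousLinearMap.id ℂ V) (θ, η)) ≠ 0 ∧
        ‖Ph B.D1 σ.fu (ContinuousLinearMap.id ℂ V) (θ, η)‖ ≤ (1 + B.q) / 2 :=
    eventually_all.2 fun σ => eventually_all.2 fun σ' =>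
      ((tube B.D0 σ'.pa (refl_refl σ.hd) hq).and
        (tube B.D1 σ.fu (A := ContinuousLinearMap.id ℂ V) (fun _ => rfl) hq)).mono
          fun θ h η hη => ⟨h.1 η hη, h.2 η hη⟩
  obtain ⟨δ₁, hδ₁, ht⟩ := Metric.eventually_nhds_iff_ball.1 ht
  have hr₀ := B.r₀_pos
  obtain ⟨ε₁, hε₁, hle, hsm⟩ : ∃ ε₁ > 0, ε₁ ≤ ε₀ ∧ ∀ ε ∈ ball (0 : ℂ) ε₁,
      C * ‖ε‖ < δ₁ ∧ C * ‖ε‖ < B.r₀ / 4 := by
    have h1 : ContinuousAt (fun ε : ℂ => C * ‖ε‖) 0 := by fun_prop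
    obtain ⟨ε₁, h2, h3⟩ := Metric.eventually_nhds_iff_ball.1
      ((h1.eventually_lt_const (u := δ₁) (by simpa)).and
        (h1.eventually_lt_const (u := B.r₀ / 4) (by simpa)))
    exact ⟨min ε₁ ε₀, lt_min h2 hε₀, min_le_right _ _,
      fun ε hε => h3 ε (ball_subset_ball (min_le_left _ _) hε)⟩
  have hsub := ball_subset_ball (x := (0 : ℂ)) hle
  have hp1 : ∀ p ∈ ball (0 : ℂ × ℂ) B.R, p.1 ∈ ball (0 : ℂ) B.R := fun p hp =>
    mem_ball_zero_iff.2 ((norm_fst_le p).trans_lt (mem_ball_zero_iff.1 hp))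
  have hp2 : ∀ p ∈ ball (0 : ℂ × ℂ) B.R, p.2 ∈ ball (0 : ℂ) B.R := fun p hp =>
    mem_ball_zero_iff.2 ((norm_snd_le p).trans_lt (mem_ball_zero_iff.1 hp))
  have hmk : ∀ a b : ℂ, ‖a‖ < B.R → ‖b‖ < B.R → (a, b) ∈ ball (0 : ℂ × ℂ) B.R :=
    fun a b ha hb => mem_ball_zero_iff.2 (max_lt ha hb)
  have hgood : ∀ σ σ' : StN G N, EN σ σ' → ∀ ε ∈ ball (0 : ℂ) ε₁, ∀ p ∈ ball (0 : ℂ × ℂ) B.R,
      (den (σ'.pa.getLastD 0) (Wv B.D0 σ'.pa (mir σ.hd)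
          (α σ.cls (ε, B.par4 σ σ' p), B.psS σ σ' p.1)) ≠ 0 ∧
        ‖Ph B.D0 σ'.pa (mir σ.hd) (α σ.cls (ε, B.par4 σ σ' p), B.psS σ σ' p.1)‖ ≤ (1 + B.q) / 2) ∧
      (den (σ.fu.getLastD 0) (Wv B.D1 σ.fu (ContinuousLinearMap.id ℂ V)
          (β σ.cls (ε, B.par4 σ σ' p), B.psU σ σ' p.2)) ≠ 0 ∧
        ‖Ph B.D1 σ.fu (ContinuousLinearMap.id ℂ V)
          (β σ.cls (ε, B.par4 σ σ' p), B.psU σ σ' p.2)‖ ≤ (1 + B.q) / 2) ∧
      B.r₀ / 4 ≤ (ρ σ.cls (ε, B.par4 σ σ' p)).re := fun σ σ' h ε hε p hp => by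
    obtain ⟨h1, h2, -⟩ := (hN σ σ' h).2 p hp
    obtain ⟨h3, h4, h5⟩ := hb σ.cls ε (hsub hε) _ h1
    obtain ⟨h6, h7⟩ := hsm ε hε
    refine ⟨(ht _ (mem_ball_zero_iff.2 (h3.trans_lt h6)) σ σ' _
      (mem_closedBall_zero_iff.2 ((B.into σ σ' h).1.2 _ (hp1 p hp)))).1,
      (ht _ (mem_ball_zero_iff.2 (h4.trans_lt h6)) σ σ' _
      (mem_closedBall_zero_iff.2 ((B.into σ σ' h).2.2 _ (hp2 p hp)))).2, ?_⟩
    have h8 := (abs_le.1 ((abs_re_le_norm _).trans h5)).1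
    have h9 : (B.par4 σ σ' p).2.2.2 = B.r0 σ σ' p := rfl
    rw [sub_re, h9] at h8
    linarith
  have hreal : ∀ ε : ℝ, |ε| < ε₁ → ∀ σ σ' : StN G N, EN σ σ' → ∀ p ∈ ball (0 : ℂ × ℂ) B.R,
      p.1.im = 0 → p.2.im = 0 → ‖B.xP σ p.1‖ = 1 ∧ ‖B.yP σ' p.2‖ = 1 ∧
      (B.psS σ σ' p.1).im = 0 ∧ (B.psU σ σ' p.2).im = 0 ∧
      (α σ.cls (ε, B.par4 σ σ' p)).im = 0 ∧ (β σ.cls (ε, B.par4 σ σ' p)).im = 0 ∧
      ∃ (e : ℝ → V × V) (s : ℝ → ℝ), ContinuousOn s (Icc 0 1) ∧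
        (∀ t ∈ Icc (0 : ℝ) 1, 0 < s t ∧ e t ∈ SM ∧
          HasDerivWithinAt e (s t • VF (fam (sec σ.cls : W G) w) ε (e t)) (Icc 0 1) t) ∧
        e 0 = pairE (B.xP σ p.1) (pt (mir σ.hd (xi (B.yP σ' p.2))) *
          exp (β σ.cls (ε, B.par4 σ σ' p) * I)) (B.v σ.hd) ∧
        e 1 = pairE (B.xP σ p.1 * exp (α σ.cls (ε, B.par4 σ σ' p) * I))
          (pt (mir σ.hd (xi (B.yP σ' p.2)))) (B.v σ.hd + B.r0 σ σ' p) ∧
        ρ σ.cls (ε, B.par4 σ σ' p) = (∫ t in (0 : ℝ)..1, s t : ℝ) := by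
    rintro ε hε σ σ' h ⟨a, b⟩ hp ha hb
    obtain ⟨a, rfl⟩ : ∃ x : ℝ, a = x := ⟨a.re, Complex.ext rfl ha⟩
    obtain ⟨b, rfl⟩ : ∃ x : ℝ, b = x := ⟨b.re, Complex.ext rfl hb⟩
    obtain ⟨h1, h2, h3, h4⟩ := B.par4_real σ σ' a b
    obtain ⟨h5, h6, -⟩ := (hN σ σ' h).2 _ hp
    have h7 : B.r0 σ σ' (a, b) = ((B.r0 σ σ' (a, b)).re : ℝ) := Complex.ext rfl h4
    have h8 := hre σ.cls ε (hε.trans_le hle) _ _ (B.v σ.hd) (B.r0 σ σ' (a, b)).re h1 h3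
      (by linarith) (B.par4 σ σ' (a, b)) (by rw [← h7]; rfl) h5
    rw [← h7] at h8
    have ha' : |a| < B.R := by simpa using hp1 _ hp
    have hb' : |b| < B.R := by simpa using hp2 _ hp
    exact ⟨h1, h2, (B.D0.real _ _ h.pa_eq.2 a (ha'.trans_le (min_le_left _ _))).1,
      (B.D1.real _ _ h.fu_eq.2 b (hb'.trans_le (min_le_right _ _))).1, h8⟩
  refine ⟨{
    ε₀ := ε₁
    q := (1 + B.q) / 2
    f := fun ε σ σ' p => Ph B.D0 σ'.pa (mir σ.hd) (α σ.cls (ε, B.par4 σ σ' p), B.psS σ σ' p.1)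
    g := fun ε σ σ' p => Ph B.D1 σ.fu (ContinuousLinearMap.id ℂ V)
      (β σ.cls (ε, B.par4 σ σ' p), B.psU σ σ' p.2)
    ρ := fun ε σ σ' p => ρ σ.cls (ε, B.par4 σ σ' p)
    ε₀_pos := hε₁
    q_lt := by linarith [B.q_lt]
    diff := fun σ σ' h => ?_
    bnd := fun σ σ' h ε hε p hp =>
      ⟨(hgood σ σ' h ε hε p hp).1.2, (hgood σ σ' h ε hε p hp).2.1.2, (hgood σ σ' h ε hε p hp).2.2⟩
    zero := fun σ σ' h p hp => ?_
    real := fun ε hε σ σ' h a b ha hb => ?_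
    per := fun ε hε n π ξ η ho hr => ?_ }⟩
  · have h1 : DifferentiableOn ℂ (fun x : ℂ × ℂ × ℂ => (x.1, B.par4 σ σ' x.2))
        (ball 0 ε₁ ×ˢ ball 0 B.R) :=
      differentiableOn_fst.prodMk ((hN σ σ' h).1.comp differentiableOn_snd fun x hx => hx.2)
    have h2 : MapsTo (fun x : ℂ × ℂ × ℂ => (x.1, B.par4 σ σ' x.2)) (ball 0 ε₁ ×ˢ ball 0 B.R)
        (ball 0 ε₀ ×ˢ HDom B.κ B.U δ) := fun x hx => ⟨hsub hx.1, ((hN σ σ' h).2 _ hx.2).1⟩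
    have h3 : DifferentiableOn ℂ (fun x : ℂ × ℂ × ℂ => B.psS σ σ' x.2.1)
        (ball 0 ε₁ ×ˢ ball 0 B.R) :=
      (B.into σ σ' h).1.1.comp (by fun_prop) fun x hx => hp1 _ hx.2
    have h4 : DifferentiableOn ℂ (fun x : ℂ × ℂ × ℂ => B.psU σ σ' x.2.2)
        (ball 0 ε₁ ×ˢ ball 0 B.R) :=
      (B.into σ σ' h).2.1.comp (by fun_prop) fun x hx => hp2 _ hx.2
    refine ⟨fun x hx => ?_, fun x hx => ?_, (hρ σ.cls).comp h1 h2⟩
    · exact DifferentiableAt.comp_differentiableWithinAt (g := Ph B.D0 σ'.pa (mir σ.hd)) x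
        (diffAt_Ph _ _ _ (hgood σ σ' h _ hx.1 _ hx.2).1.1)
        ((((hα σ.cls).comp h1 h2).prodMk h3) x hx)
    · exact DifferentiableAt.comp_differentiableWithinAt
        (g := Ph B.D1 σ.fu (ContinuousLinearMap.id ℂ V)) x
        (diffAt_Ph _ _ _ (hgood σ σ' h _ hx.1 _ hx.2).2.1.1)
        ((((hβ σ.cls).comp h1 h2).prodMk h4) x hx)
  · obtain ⟨h3, h4, h5⟩ := hb σ.cls 0 (mem_ball_self hε₀) _ ((hN σ σ' h).2 p hp).1
    rw [norm_zero, mul_zero, norm_le_zero_iff] at h3 h4 h5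
    refine ⟨?_, ?_, sub_eq_zero.1 h5⟩
    · rw [h3, Ph_zero _ _ (refl_refl σ.hd)]
    · rw [h4, Ph_zero _ _ fun _ => rfl]
  · obtain ⟨-, -, h1, h2, h3, h4, e, s, -, -, -, -, h5⟩ := hreal ε hε σ σ' h (a, b)
      (hmk _ _ (by simpa) (by simpa)) (ofReal_im a) (ofReal_im b)
    exact ⟨Ph_im _ _ (iso_refl _) h3 h1, Ph_im _ _ iso_id h4 h2, by rw [h5, ofReal_im]⟩
  · have hp : ∀ i, (ξ i, η (i + 1)) ∈ ball (0 : ℂ × ℂ) B.R := fun i =>
      hmk _ _ (ho i).1 (ho (i + 1)).2.1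
    have hεb : (ε : ℂ) ∈ ball (0 : ℂ) ε₁ := by simpa using hε
    choose hx hy hS hU hαi hβi e s hs he he0 he1 hρi using fun i =>
      hreal ε hε _ _ (π.2 i) _ (hp i) (hr i).1 (hr (i + 1)).2
    have hst : ∀ i, e i 0 = pairE (B.xP (π.1 i) (ξ i)) (B.yP (π.1 i) (η i)) (B.v (π.1 i).hd) :=
      fun i => by
        have h1 := eq_lift _ _ iso_id (hgood _ _ (π.2 i) _ hεb _ (hp i)).2.1.1 (ho i).2.2.2
        rw [he0, ((hN _ _ (π.2 i)).2 _ (hp i)).2.2.2.2.2.2.1, Base.yP, Base.yP, ← h1, ← pt_rot]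
        rfl
    have hsum : ∑ i, (ρ (π.1 i).cls (ε, B.par4 (π.1 i) (π.1 (i + 1)) (ξ i, η (i + 1)))).re =
        ∑ i, ∫ t in (0 : ℝ)..1, s i t := Finset.sum_congr rfl fun i _ => by rw [hρi, ofReal_re]
    rw [hsum]
    refine glue (cycE N n π) e s hs (fun i => by simpa only [cycE_apply] using he i)
      (fun i => ?_) ?_
    · obtain ⟨-, -, -, -, h3, h4, -, h5⟩ := (hN _ _ (π.2 i)).2 _ (hp i)
      have h6 := eq_lift _ _ (iso_refl _) (hgood _ _ (π.2 i) _ hεb _ (hp i)).1.1 (ho i).2.2.1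
      have hE := SM.act2 (iso_refl (π.1 i).hd) (he i 1 (right_mem_Icc.2 zero_le_one)).2.1
      exact join B hE (he1 i) (hx i) (hy i) (hS i) h3 h4 h5 h6 (cycE_apply π i) (hst (i + 1))
    · rw [← hsum]
      exact Finset.sum_pos (fun i _ => lt_of_lt_of_le (by linarith)
        (hgood _ _ (π.2 i) _ hεb _ (hp i)).2.2) Finset.univ_nonempty

end Pool.Agent.Lib.MP_de7bb2_an
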