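import Pool.Agent.Lib.MP_de7bb2_an.H20Lagr

/-! Pinning operators of cross maps: basic properties. TASK PIN. -/

namespace Pool.Agent.Lib.MP_de7bb2_an

open Metric Set Filter Topology

noncomputable def coef2 (H : ℂ × ℂ → ℂ) (a b : ℕ) : ℂ :=
  coef (fun x => coef (fun y => H (x, y)) b) a

/-- Entry `((a, b), (a', b'))` is the coefficient of `x ^ a y ^ b'` in `H f ^ a' g ^ b`. -/
noncomputable def op2 (f g H : ℂ × ℂ → ℂ) : Nuc (ℕ × ℕ) :=
  toVec fun x : (ℕ × ℕ) × (ℕ × ℕ) =>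
    coef2 (fun p => H p * f p ^ x.2.1 * g p ^ x.1.2) x.1.1 x.2.2

/-- Derivative in the first variable. -/
noncomputable def dx (f : ℂ × ℂ → ℂ) (p : ℂ × ℂ) : ℂ := fderiv ℂ f p (1, 0)

/-- Derivative in the second variable. -/
noncomputable def dy (f : ℂ × ℂ → ℂ) (p : ℂ × ℂ) : ℂ := fderiv ℂ f p (0, 1)

namespace Pin

theorem mem_ball_pair {R : ℝ} {x y : ℂ} (hx : x ∈ ball (0 : ℂ) R) (hy : y ∈ ball (0 : ℂ) R) :
    (x, y) ∈ ball (0 : ℂ × ℂ) R := by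
  rw [mem_ball_zero_iff] at *
  rw [Prod.norm_def]
  exact max_lt hx hy

theorem mem_ball_of_one {R : ℝ} (hR : 1 < R) {y : ℂ} (hy : ‖y‖ = 1) : y ∈ ball (0 : ℂ) R := by
  rw [mem_ball_zero_iff, hy]; exact hR

theorem mem_ball_of_sphere {R : ℝ} (hR : 1 < R) {y : ℂ} (hy : y ∈ sphere (0 : ℂ) 1) :
    y ∈ ball (0 : ℂ) R :=
  mem_ball_of_one hR (by simpa using hy)

theorem diffOn_slice {R : ℝ} {F : ℂ × ℂ → ℂ} (hF : DifferentiableOn ℂ F (ball 0 R)) {x : ℂ}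
    (hx : x ∈ ball (0 : ℂ) R) : DifferentiableOn ℂ (fun y => F (x, y)) (ball 0 R) :=
  hF.comp ((differentiableOn_const x).prodMk differentiableOn_id) fun _ hy => mem_ball_pair hx hy

theorem diffOn_inner {R : ℝ} (hR : 1 < R) {F : ℂ × ℂ → ℂ} (hF : DifferentiableOn ℂ F (ball 0 R))
    (b : ℕ) : DifferentiableOn ℂ (fun x => coef (fun y => F (x, y)) b) (ball 0 R) := by
  refine diffOn_coef (F := fun x y => F (x, y)) isOpen_ball ?_ ?_ b
  · exact hF.continuousOn.mono fun z hz => mem_ball_pair hz.1 (mem_ball_of_sphere hR hz.2)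
  · intro y hy
    exact hF.comp (differentiableOn_id.prodMk (differentiableOn_const y))
      fun _ hx => mem_ball_pair hx (mem_ball_of_one hR hy)

theorem norm_coef2_le {R M : ℝ} (hR : 1 < R) {F : ℂ × ℂ → ℂ}
    (hF : DifferentiableOn ℂ F (ball 0 R)) (hM : ∀ p ∈ ball (0 : ℂ × ℂ) R, ‖F p‖ ≤ M) (a b : ℕ) :
    ‖coef2 F a b‖ ≤ M / R ^ b / R ^ a :=
  norm_coef_le hR (diffOn_inner hR hF b)
    (fun _ hx => norm_coef_le hR (diffOn_slice hF hx) (fun _ hy => hM _ (mem_ball_pair hx hy)) b) a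

theorem coef2_congr {R : ℝ} (hR : 1 < R) {F G : ℂ × ℂ → ℂ} (h : EqOn F G (ball 0 R)) (a b : ℕ) :
    coef2 F a b = coef2 G a b :=
  coef_congr (fun _ hx => coef_congr
    (fun _ hy => h (mem_ball_pair (mem_ball_of_one hR hx) (mem_ball_of_one hR hy))) b) a

theorem coef2_add {R : ℝ} (hR : 1 < R) {F G : ℂ × ℂ → ℂ} (hF : DifferentiableOn ℂ F (ball 0 R))
    (hG : DifferentiableOn ℂ G (ball 0 R)) (a b : ℕ) :
    coef2 (fun p => F p + G p) a b = coef2 F a b + coef2 G a b := by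
  have hs : sphere (0 : ℂ) 1 ⊆ ball 0 R := fun _ hy => mem_ball_of_sphere hR hy
  unfold coef2
  rw [← coef_add ((diffOn_inner hR hF b).continuousOn.mono hs)
    ((diffOn_inner hR hG b).continuousOn.mono hs)]
  refine coef_congr (fun x hx => ?_) a
  exact coef_add ((diffOn_slice hF (mem_ball_of_one hR hx)).continuousOn.mono hs)
    ((diffOn_slice hG (mem_ball_of_one hR hx)).continuousOn.mono hs) b

theorem coef2_const_mul (c : ℂ) (F : ℂ × ℂ → ℂ) (a b : ℕ) :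
    coef2 (fun p => c * F p) a b = c * coef2 F a b := by
  unfold coef2
  rw [← coef_const_mul]
  exact coef_congr (fun x _ => coef_const_mul c (fun y => F (x, y)) b) a

/-- The majorant of the entries. -/
noncomputable def maj (R q M : ℝ) (x : (ℕ × ℕ) × (ℕ × ℕ)) : ℝ :=
  M * ((R⁻¹ ^ x.1.1 * q ^ x.1.2) * (q ^ x.2.1 * R⁻¹ ^ x.2.2))

theorem hasSum_maj {R q : ℝ} (hR : 1 < R) (hq0 : 0 ≤ q) (hq : q < 1) (M : ℝ) :
    HasSum (maj R q M) (M * ((1 - q)⁻¹ ^ 2 * (1 - R⁻¹)⁻¹ ^ 2)) := by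
  have hr0 : 0 ≤ R⁻¹ := inv_nonneg.2 (by linarith)
  have hr1 : R⁻¹ < 1 := inv_lt_one_of_one_lt₀ hR
  have h1 := hasSum_geometric_of_lt_one hr0 hr1
  have h2 := hasSum_geometric_of_lt_one hq0 hq
  have s12 : Summable fun x : ℕ × ℕ => R⁻¹ ^ x.1 * q ^ x.2 :=
    h1.summable.mul_of_nonneg h2.summable (fun _ => pow_nonneg hr0 _) (fun _ => pow_nonneg hq0 _)
  have s21 : Summable fun x : ℕ × ℕ => q ^ x.1 * R⁻¹ ^ x.2 :=
    h2.summable.mul_of_nonneg h1.summable (fun _ => pow_nonneg hq0 _) (fun _ => pow_nonneg hr0 _)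
  have h12 := h1.mul h2 s12
  have h21 := h2.mul h1 s21
  have s4 : Summable fun x : (ℕ × ℕ) × (ℕ × ℕ) =>
      (R⁻¹ ^ x.1.1 * q ^ x.1.2) * (q ^ x.2.1 * R⁻¹ ^ x.2.2) :=
    s12.mul_of_nonneg s21 (fun _ => mul_nonneg (pow_nonneg hr0 _) (pow_nonneg hq0 _))
      (fun _ => mul_nonneg (pow_nonneg hq0 _) (pow_nonneg hr0 _))
  have h4 := (h12.mul h21 s4).mul_left M
  have e : M * ((1 - q)⁻¹ ^ 2 * (1 - R⁻¹)⁻¹ ^ 2) =
      M * ((1 - R⁻¹)⁻¹ * (1 - q)⁻¹ * ((1 - q)⁻¹ * (1 - R⁻¹)⁻¹)) := by ring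
  rw [e]
  exact h4

theorem diffOn_entry {R q : ℝ} {f g H : ℂ × ℂ → ℂ} (hf : Into R q f) (hg : Into R q g)
    (hH : DifferentiableOn ℂ H (ball 0 R)) (a b : ℕ) :
    DifferentiableOn ℂ (fun p => H p * f p ^ a * g p ^ b) (ball 0 R) :=
  (hH.mul (hf.1.pow a)).mul (hg.1.pow b)

theorem entry_le {R q M : ℝ} {f g H : ℂ × ℂ → ℂ} (hR : 1 < R) (hf : Into R q f) (hg : Into R q g)
    (hH : DifferentiableOn ℂ H (ball 0 R)) (hM : ∀ p ∈ ball (0 : ℂ × ℂ) R, ‖H p‖ ≤ M)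
    (x : (ℕ × ℕ) × (ℕ × ℕ)) :
    ‖coef2 (fun p => H p * f p ^ x.2.1 * g p ^ x.1.2) x.1.1 x.2.2‖ ≤ maj R q M x := by
  have hb : ∀ p ∈ ball (0 : ℂ × ℂ) R,
      ‖H p * f p ^ x.2.1 * g p ^ x.1.2‖ ≤ M * q ^ x.2.1 * q ^ x.1.2 := by
    intro p hp
    have hM0 : 0 ≤ M := (norm_nonneg _).trans (hM p hp)
    have hq0 : 0 ≤ q := (norm_nonneg _).trans (hf.2 p hp)
    rw [norm_mul, norm_mul, norm_pow, norm_pow]
    exact mul_le_mul (mul_le_mul (hM p hp) (pow_le_pow_left₀ (norm_nonneg _) (hf.2 p hp) _)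
      (by positivity) hM0) (pow_le_pow_left₀ (norm_nonneg _) (hg.2 p hp) _) (by positivity)
      (by positivity)
  refine (norm_coef2_le hR (diffOn_entry hf hg hH _ _) hb _ _).trans (le_of_eq ?_)
  unfold maj
  rw [inv_pow, inv_pow]
  ring

theorem Into.shrink {R R' q : ℝ} {f : ℂ × ℂ → ℂ} (hf : Into R q f) (h : R' ≤ R) : Into R' q f :=
  ⟨hf.1.mono (ball_subset_ball h), fun y hy => hf.2 y (ball_subset_ball h hy)⟩

theorem nonneg_of_into {R q : ℝ} {f : ℂ × ℂ → ℂ} (hR : 1 < R) (hf : Into R q f) : 0 ≤ q :=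
  (norm_nonneg _).trans (hf.2 0 (mem_ball_self (by linarith)))

theorem summable_entry {R q : ℝ} {f g H : ℂ × ℂ → ℂ} (hR : 1 < R) (hq : q < 1) (hf : Into R q f)
    (hg : Into R q g) (hH : DifferentiableOn ℂ H (ball 0 R)) :
    Summable fun x : (ℕ × ℕ) × (ℕ × ℕ) =>
      ‖coef2 (fun p => H p * f p ^ x.2.1 * g p ^ x.1.2) x.1.1 x.2.2‖ := by
  have h1 : 1 < (1 + R) / 2 := by linarith
  have h2 : (1 + R) / 2 < R := by linarith
  obtain ⟨M, hM⟩ := (isCompact_closedBall (0 : ℂ × ℂ) ((1 + R) / 2)).exists_bound_of_continuousOn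
    (hH.continuousOn.mono (closedBall_subset_ball h2))
  exact Summable.of_nonneg_of_le (fun _ => norm_nonneg _)
    (entry_le h1 (Into.shrink hf h2.le) (Into.shrink hg h2.le) (hH.mono (ball_subset_ball h2.le))
      fun p hp => hM p (ball_subset_closedBall hp))
    (hasSum_maj h1 (nonneg_of_into hR hf) hq M).summable

theorem diffOn_coef2 {P : Type*} [NormedAddCommGroup P] [NormedSpace ℂ P] [FiniteDimensional ℂ P]
    {U : Set P} (hU : IsOpen U) {R : ℝ} (hR : 1 < R) {F : P → ℂ × ℂ → ℂ}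
    (hF : DifferentiableOn ℂ (fun x : P × ℂ × ℂ => F x.1 x.2) (U ×ˢ ball 0 R)) (a b : ℕ) :
    DifferentiableOn ℂ (fun p => coef2 (F p) a b) U := by
  refine diffOn_coef (F := fun p x => coef (fun y => F p (x, y)) b) hU ?_ ?_ a
  · refine continuousOn_coef (X := P × ℂ) (F := fun z y => F z.1 (z.2, y)) ?_ b
    have hc : Continuous fun w : (P × ℂ) × ℂ => (w.1.1, (w.1.2, w.2)) := by fun_prop
    exact hF.continuousOn.comp hc.continuousOn fun w hw =>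
      ⟨hw.1.1, mem_ball_pair (mem_ball_of_sphere hR hw.1.2) (mem_ball_of_sphere hR hw.2)⟩
  · intro x hx
    refine diffOn_coef (F := fun p y => F p (x, y)) hU ?_ ?_ b
    · have hc : Continuous fun w : P × ℂ => (w.1, (x, w.2)) := by fun_prop
      exact hF.continuousOn.comp hc.continuousOn fun w hw =>
        ⟨hw.1, mem_ball_pair (mem_ball_of_one hR hx) (mem_ball_of_sphere hR hw.2)⟩
    · intro y hy
      exact hF.comp (differentiableOn_id.prodMk (differentiableOn_const (x, y))) fun p hp =>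
        ⟨hp, mem_ball_pair (mem_ball_of_one hR hx) (mem_ball_of_one hR hy)⟩

theorem diffOn_par {P : Type*} [NormedAddCommGroup P] [NormedSpace ℂ P] {U : Set P} {R : ℝ}
    {F : P → ℂ × ℂ → ℂ}
    (hF : DifferentiableOn ℂ (fun x : P × ℂ × ℂ => F x.1 x.2) (U ×ˢ ball 0 R)) {p : P}
    (hp : p ∈ U) : DifferentiableOn ℂ (F p) (ball 0 R) :=
  hF.comp ((differentiableOn_const p).prodMk differentiableOn_id) fun _ hx => ⟨hp, hx⟩

end Pin

variable {R q M : ℝ} {f g H K : ℂ × ℂ → ℂ}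

theorem op2_apply (hR : 1 < R) (hq : q < 1) (hf : Into R q f) (hg : Into R q g)
    (hH : DifferentiableOn ℂ H (ball 0 R)) (a b a' b' : ℕ) :
    op2 f g H ((a, b), (a', b')) = coef2 (fun p => H p * f p ^ a' * g p ^ b) a b' :=
  toVec_apply (Pin.summable_entry hR hq hf hg hH) ((a, b), (a', b'))

theorem op2_congr {f' g' H' : ℂ × ℂ → ℂ} (hR : 1 < R) (h1 : EqOn f f' (ball 0 R))
    (h2 : EqOn g g' (ball 0 R)) (h3 : EqOn H H' (ball 0 R)) : op2 f g H = op2 f' g' H' := by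
  unfold op2
  refine congrArg toVec (funext fun x => Pin.coef2_congr hR (fun p hp => ?_) _ _)
  simp only [h1 hp, h2 hp, h3 hp]

theorem op2_add (hR : 1 < R) (hq : q < 1) (hf : Into R q f) (hg : Into R q g)
    (hH : DifferentiableOn ℂ H (ball 0 R)) (hK : DifferentiableOn ℂ K (ball 0 R)) :
    op2 f g (fun p => H p + K p) = op2 f g H + op2 f g K := by
  refine lp.ext (funext fun x => ?_)
  obtain ⟨⟨a, b⟩, a', b'⟩ := x
  rw [lp.coeFn_add, Pi.add_apply, op2_apply hR hq hf hg (hH.fun_add hK), op2_apply hR hq hf hg hH,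
    op2_apply hR hq hf hg hK, ← Pin.coef2_add hR (Pin.diffOn_entry hf hg hH _ _)
      (Pin.diffOn_entry hf hg hK _ _)]
  refine Pin.coef2_congr hR (fun p _ => ?_) _ _
  ring

theorem op2_const_mul (hR : 1 < R) (hq : q < 1) (hf : Into R q f) (hg : Into R q g)
    (hH : DifferentiableOn ℂ H (ball 0 R)) (c : ℂ) :
    op2 f g (fun p => c * H p) = c • op2 f g H := by
  refine lp.ext (funext fun x => ?_)
  obtain ⟨⟨a, b⟩, a', b'⟩ := x
  rw [lp.coeFn_smul, Pi.smul_apply, op2_apply hR hq hf hg (hH.const_mul c),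
    op2_apply hR hq hf hg hH, smul_eq_mul, ← Pin.coef2_const_mul]
  refine Pin.coef2_congr hR (fun p _ => ?_) _ _
  ring

theorem norm_op2_le (hR : 1 < R) (hq0 : 0 ≤ q) (hq : q < 1) (hf : Into R q f) (hg : Into R q g)
    (hH : DifferentiableOn ℂ H (ball 0 R)) (hM : ∀ p ∈ ball (0 : ℂ × ℂ) R, ‖H p‖ ≤ M) :
    ‖op2 f g H‖ ≤ M * ((1 - q)⁻¹ ^ 2 * (1 - R⁻¹)⁻¹ ^ 2) := by
  rw [← (Pin.hasSum_maj hR hq0 hq M).tsum_eq]
  exact norm_toVec_le (Pin.hasSum_maj hR hq0 hq M).summable (Pin.entry_le hR hf hg hH hM)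

theorem diffOn_op2 {P : Type*} [NormedAddCommGroup P] [NormedSpace ℂ P] [FiniteDimensional ℂ P]
    {U : Set P} (hU : IsOpen U) (hR : 1 < R) (hq : q < 1) {f g H : P → ℂ × ℂ → ℂ}
    (hf : DifferentiableOn ℂ (fun x : P × ℂ × ℂ => f x.1 x.2) (U ×ˢ ball 0 R))
    (hg : DifferentiableOn ℂ (fun x : P × ℂ × ℂ => g x.1 x.2) (U ×ˢ ball 0 R))
    (hH : DifferentiableOn ℂ (fun x : P × ℂ × ℂ => H x.1 x.2) (U ×ˢ ball 0 R))
    (hfb : ∀ p ∈ U, ∀ x ∈ ball (0 : ℂ × ℂ) R, ‖f p x‖ ≤ q)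
    (hgb : ∀ p ∈ U, ∀ x ∈ ball (0 : ℂ × ℂ) R, ‖g p x‖ ≤ q) :
    DifferentiableOn ℂ (fun p => op2 (f p) (g p) (H p)) U := by
  intro p0 hp0
  have : ProperSpace P := FiniteDimensional.proper ℂ P
  obtain ⟨δ, hδ, hδU⟩ := nhds_basis_closedBall.mem_iff.1 (hU.mem_nhds hp0)
  have h1 : 1 < (1 + R) / 2 := by linarith
  have h2 : (1 + R) / 2 < R := by linarith
  have hV : ball p0 δ ⊆ U := ball_subset_closedBall.trans hδU
  obtain ⟨M, hM⟩ := ((isCompact_closedBall p0 δ).prod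
    (isCompact_closedBall (0 : ℂ × ℂ) ((1 + R) / 2))).exists_bound_of_continuousOn
      (hH.continuousOn.mono (prod_mono hδU (closedBall_subset_ball h2)))
  have hq0 : 0 ≤ q := (norm_nonneg _).trans (hfb p0 hp0 0 (mem_ball_self (by linarith)))
  have key : DifferentiableOn ℂ (fun p => op2 (f p) (g p) (H p)) (ball p0 δ) := by
    refine diffOn_toVec isOpen_ball (Pin.hasSum_maj h1 hq0 hq M).summable (fun x => ?_)
      fun p hp x => ?_
    · exact (Pin.diffOn_coef2 (F := fun p z => H p z * f p z ^ x.2.1 * g p z ^ x.1.2) hU hR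
        ((hH.mul (hf.pow _)).mul (hg.pow _)) _ _).mono hV
    · exact Pin.entry_le h1 (Pin.Into.shrink ⟨Pin.diffOn_par hf (hV hp), hfb p (hV hp)⟩ h2.le)
        (Pin.Into.shrink ⟨Pin.diffOn_par hg (hV hp), hgb p (hV hp)⟩ h2.le)
        ((Pin.diffOn_par hH (hV hp)).mono (ball_subset_ball h2.le))
        (fun z hz => hM (p, z) ⟨ball_subset_closedBall hp, ball_subset_closedBall hz⟩) x
  exact (key.differentiableAt (ball_mem_nhds p0 hδ)).differentiableWithinAt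

end Pool.Agent.Lib.MP_de7bb2_an
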