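import Pool.Agent.Lib.MP_de7bb2_an.H20Pin

/-! Composition and trace of pinning operators. TASK PIN2. -/

namespace Pool.Agent.Lib.MP_de7bb2_an

open Metric Set Filter Topology

variable {R q M : ℝ} {f g H K f₁ g₁ H₁ f₂ g₂ H₂ : ℂ × ℂ → ℂ}

namespace Pin2

theorem mem2 {x y : ℂ} (hx : ‖x‖ < R) (hy : ‖y‖ < R) : (x, y) ∈ ball (0 : ℂ × ℂ) R := by
  rw [mem_ball_zero_iff, Prod.norm_def]; exact max_lt hx hy

theorem fst_lt {p : ℂ × ℂ} (h : p ∈ ball (0 : ℂ × ℂ) R) : ‖p.1‖ < R :=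
  (norm_fst_le p).trans_lt (mem_ball_zero_iff.1 h)

theorem snd_lt {p : ℂ × ℂ} (h : p ∈ ball (0 : ℂ × ℂ) R) : ‖p.2‖ < R :=
  (norm_snd_le p).trans_lt (mem_ball_zero_iff.1 h)

theorem lt_of {E : Type*} [NormedAddCommGroup E] [NormedSpace ℂ E] {u : E → ℂ} (hR : 1 < R)
    (hq : q < 1) (hu : Into R q u) {p : E} (hp : p ∈ ball (0 : E) R) : ‖u p‖ < R :=
  (hu.2 p hp).trans_lt (hq.trans hR)

theorem q_nonneg (hR : 1 < R) (hf : Into R q f) : 0 ≤ q :=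
  (norm_nonneg _).trans (hf.2 0 (mem_ball_self (one_pos.trans hR)))

/-- Composition with a pair of maps into the disc. -/
theorem comp2 {E : Type*} [NormedAddCommGroup E] [NormedSpace ℂ E] {U : Set E} {u v : E → ℂ}
    (hH : DifferentiableOn ℂ H (ball 0 R)) (hu : DifferentiableOn ℂ u U)
    (hv : DifferentiableOn ℂ v U) (hu' : ∀ p ∈ U, ‖u p‖ < R) (hv' : ∀ p ∈ U, ‖v p‖ < R) :
    DifferentiableOn ℂ (fun p => H (u p, v p)) U :=
  hH.comp (hu.prodMk hv) fun p hp => mem2 (hu' p hp) (hv' p hp)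

theorem sliceY (hH : DifferentiableOn ℂ H (ball 0 R)) {x : ℂ} (hx : ‖x‖ < R) :
    DifferentiableOn ℂ (fun y => H (x, y)) (ball 0 R) :=
  comp2 hH (differentiableOn_const x) differentiableOn_id (fun _ _ => hx)
    fun _ h => mem_ball_zero_iff.1 h

theorem sliceX (hH : DifferentiableOn ℂ H (ball 0 R)) {y : ℂ} (hy : ‖y‖ < R) :
    DifferentiableOn ℂ (fun x => H (x, y)) (ball 0 R) :=
  comp2 hH differentiableOn_id (differentiableOn_const y) (fun _ h => mem_ball_zero_iff.1 h)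
    fun _ _ => hy

theorem chain (hH : DifferentiableOn ℂ H (ball 0 R)) {u v : ℂ → ℂ} {u' v' t : ℂ}
    (hu : HasDerivAt u u' t) (hv : HasDerivAt v v' t) (hu' : ‖u t‖ < R) (hv' : ‖v t‖ < R) :
    HasDerivAt (fun s => H (u s, v s)) (dx H (u t, v t) * u' + dy H (u t, v t) * v') t := by
  have h := (hH.differentiableAt (isOpen_ball.mem_nhds (mem2 hu' hv'))).hasFDerivAt
  refine (h.comp_hasDerivAt t (hu.prodMk hv)).congr_deriv ?_
  rw [show (u', v') = u' • ((1 : ℂ), (0 : ℂ)) + v' • ((0 : ℂ), (1 : ℂ)) by simp, map_add, map_smul,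
    map_smul, dx, dy, smul_eq_mul, smul_eq_mul, mul_comm u', mul_comm v']

theorem derivX (hH : DifferentiableOn ℂ H (ball 0 R)) {x y : ℂ} (hx : ‖x‖ < R) (hy : ‖y‖ < R) :
    HasDerivAt (fun s => H (s, y)) (dx H (x, y)) x := by
  simpa using chain hH (hasDerivAt_id x) (hasDerivAt_const x y) hx hy

theorem derivY (hH : DifferentiableOn ℂ H (ball 0 R)) {x y : ℂ} (hx : ‖x‖ < R) (hy : ‖y‖ < R) :
    HasDerivAt (fun s => H (x, s)) (dy H (x, y)) y := by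
  simpa using chain hH (hasDerivAt_const y x) (hasDerivAt_id y) hx hy

theorem diff_dx (hH : DifferentiableOn ℂ H (ball 0 R)) : DifferentiableOn ℂ (dx H) (ball 0 R) :=
  MP_08f711_an.differentiableOn_fderiv_apply isOpen_ball hH _

theorem diff_dy (hH : DifferentiableOn ℂ H (ball 0 R)) : DifferentiableOn ℂ (dy H) (ball 0 R) :=
  MP_08f711_an.differentiableOn_fderiv_apply isOpen_ball hH _

theorem into_mid (hR : 1 < R) (hq : q < 1) (hf₁ : Into R q f₁) (hg₂ : Into R q g₂) {x z : ℂ}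
    (hx : ‖x‖ < R) (hz : ‖z‖ < R) : Into R q fun y => g₂ (f₁ (x, y), z) := by
  have h : ∀ y ∈ ball (0 : ℂ) R, ‖f₁ (x, y)‖ < R := fun y hy =>
    lt_of hR hq hf₁ (mem2 hx (mem_ball_zero_iff.1 hy))
  exact ⟨comp2 hg₂.1 (sliceY hf₁.1 hx) (differentiableOn_const z) h fun _ _ => hz,
    fun y hy => hg₂.2 _ (mem2 (h y hy) hz)⟩

theorem deriv_mid (hR : 1 < R) (hq : q < 1) (hf₁ : Into R q f₁) (hg₂ : Into R q g₂) {x y z : ℂ}
    (hx : ‖x‖ < R) (hy : ‖y‖ < R) (hz : ‖z‖ < R) :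
    deriv (fun y => g₂ (f₁ (x, y), z)) y = dy f₁ (x, y) * dx g₂ (f₁ (x, y), z) := by
  rw [(chain hg₂.1 (derivY hf₁.1 hx hy) (hasDerivAt_const y z) (lt_of hR hq hf₁ (mem2 hx hy))
    hz).deriv, mul_zero, add_zero, mul_comm]

theorem one_sub_ne {d : ℂ} (h : ‖d‖ < 1) : 1 - d ≠ 0 := fun e => by
  rw [← sub_eq_zero.1 e, norm_one] at h; exact h.false

theorem real_of {w : ℂ} (h : w.im = 0) : ∃ t : ℝ, w = t := ⟨w.re, by apply Complex.ext <;> simp [h]⟩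

theorem torus_sub (hR : 1 < R) : sphere (0 : ℂ) 1 ×ˢ sphere (0 : ℂ) 1 ⊆ ball (0 : ℂ × ℂ) R :=
  fun _ h => mem2 ((mem_sphere_zero_iff_norm.1 h.1).trans_lt hR)
    ((mem_sphere_zero_iff_norm.1 h.2).trans_lt hR)

theorem cont2 (hR : 1 < R) (hH : DifferentiableOn ℂ H (ball 0 R)) :
    ContinuousOn H (sphere 0 1 ×ˢ sphere 0 1) := hH.continuousOn.mono (torus_sub hR)

theorem cont1 {u : ℂ → ℂ} (hR : 1 < R) (hu : DifferentiableOn ℂ u (ball 0 R)) :
    ContinuousOn u (sphere 0 1) := hu.continuousOn.mono (sphere_subset_ball hR)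

theorem cont2' (hH : ContinuousOn H (sphere 0 1 ×ˢ sphere 0 1)) :
    ContinuousOn (fun p : ℂ × ℂ => H (p.2, p.1)) (sphere 0 1 ×ˢ sphere 0 1) :=
  hH.comp continuous_swap.continuousOn fun _ h => ⟨h.2, h.1⟩

theorem bound (hR : 1 < R) (hH : DifferentiableOn ℂ H (ball 0 R)) (hf : Into R q f) :
    ∃ M, ∀ (n : ℕ) x y, ‖x‖ = 1 → ‖y‖ = 1 → ‖H (x, y) * f (x, y) ^ n‖ ≤ M * q ^ n := by
  obtain ⟨M, hM⟩ := ((isCompact_sphere (0 : ℂ) 1).prod
    (isCompact_sphere (0 : ℂ) 1)).exists_bound_of_continuousOn (cont2 hR hH)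
  refine ⟨M, fun n x y hx hy => ?_⟩
  have h := hM (x, y) ⟨mem_sphere_zero_iff_norm.2 hx, mem_sphere_zero_iff_norm.2 hy⟩
  rw [norm_mul, norm_pow]
  exact mul_le_mul h (pow_le_pow_left₀ (norm_nonneg _)
    (hf.2 _ (mem2 (hx.trans_lt hR) (hy.trans_lt hR))) n) (by positivity) ((norm_nonneg _).trans h)

theorem hasSum_coef2 {ι : Type*} {F : ι → ℂ × ℂ → ℂ} {u : ι → ℝ} (hu : Summable u)
    (hc : ∀ i, ContinuousOn (F i) (sphere 0 1 ×ˢ sphere 0 1))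
    (hb : ∀ i x y, ‖x‖ = 1 → ‖y‖ = 1 → ‖F i (x, y)‖ ≤ u i) (a b : ℕ) :
    HasSum (fun i => coef2 (F i) a b) (coef2 (fun p => ∑' i, F i p) a b) := by
  have h := hasSum_coef_of_bound (F := fun i x => coef (fun y => F i (x, y)) b) hu
    (fun i => continuousOn_coef (F := fun x y => F i (x, y)) (hc i) b)
    (fun i x hx => norm_coef_le_one (fun y hy => hb i x y hx hy) b) a
  rwa [coef_congr (K := fun x => coef (fun y => ∑' i, F i (x, y)) b) fun x hx =>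
    (hasSum_coef_of_bound (F := fun i y => F i (x, y)) hu (fun i => (hc i).comp (by fun_prop)
      fun y hy => ⟨mem_sphere_zero_iff_norm.2 hx, hy⟩) (fun i y hy => hb i x y hx hy)
      b).tsum_eq] at h

theorem coef2_tensor (u v : ℂ → ℂ) (a b : ℕ) :
    coef2 (fun p => u p.1 * v p.2) a b = coef u a * coef v b := by
  simp only [coef2, coef_const_mul]
  rw [mul_comm, ← coef_const_mul]
  simp only [mul_comm]

theorem hs_congr {ι : Type*} {u v : ι → ℂ} {a b : ℂ} (h : HasSum u a) (h1 : ∀ i, v i = u i)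
    (h2 : b = a) : HasSum v b := h2 ▸ funext h1 ▸ h

theorem tsum_eq_of {T : ℕ × ℕ → ℂ} (hT : Summable T) {s : ℕ → ℂ} {c : ℂ}
    (h : ∀ b, HasSum (fun a => T (a, b)) (s b)) (hs : HasSum s c) : ∑' j, T j = c := by
  rw [← (Equiv.prodComm ℕ ℕ).tsum_eq]
  exact (hT.prod_symm.hasSum.prod_fiberwise h).unique hs

theorem summable_geo (hq0 : 0 ≤ q) (hq : q < 1) (M M' : ℝ) :
    Summable fun j : ℕ × ℕ => M * q ^ j.1 * (M' * q ^ j.2) :=
  summable_mul_of_summable_norm ((summable_geometric_of_lt_one hq0 hq).mul_left M).norm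
    ((summable_geometric_of_lt_one hq0 hq).mul_left M').norm

theorem key_mul (hR : 1 < R) (hq : q < 1) (hf : Into R q f) (hg : Into R q g)
    (hH : DifferentiableOn ℂ H (ball 0 R)) (hK : DifferentiableOn ℂ K (ball 0 R))
    {Y : ℂ × ℂ → ℂ} (hY : Into R q Y)
    (hfix : ∀ p ∈ ball (0 : ℂ × ℂ) R, g (f (p.1, Y p), p.2) = Y p) (a b : ℕ) :
    HasSum (fun j : ℕ × ℕ => coef2 (fun p => H p * f p ^ j.1) a j.2 *
      coef2 (fun p => K p * g p ^ j.2) j.1 b)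
      (coef2 (fun p => H (p.1, Y p) * K (f (p.1, Y p), p.2) /
        (1 - dy f (p.1, Y p) * dx g (f (p.1, Y p), p.2))) a b) := by
  obtain ⟨M, hM⟩ := bound hR hH hf
  obtain ⟨M', hM'⟩ := bound hR hK hg
  have hq0 := q_nonneg hR hf
  have c1 : ∀ n : ℕ, ContinuousOn (fun p => H p * f p ^ n) (sphere 0 1 ×ˢ sphere 0 1) :=
    fun n => cont2 hR (hH.mul (hf.1.pow n))
  have c2 : ∀ n : ℕ, ContinuousOn (fun p => K p * g p ^ n) (sphere 0 1 ×ˢ sphere 0 1) :=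
    fun n => cont2 hR (hK.mul (hg.1.pow n))
  have hb : ∀ (j : ℕ × ℕ) x z, ‖x‖ = 1 → ‖z‖ = 1 →
      ‖coef (fun y => H (x, y) * f (x, y) ^ j.1) j.2 *
        coef (fun w => K (w, z) * g (w, z) ^ j.2) j.1‖ ≤ M * q ^ j.1 * (M' * q ^ j.2) :=
    fun j x z hx hz => by
      have h1 := norm_coef_le_one (fun y hy => hM j.1 x y hx hy) j.2
      rw [norm_mul]
      exact mul_le_mul h1 (norm_coef_le_one (fun w hw => hM' j.2 w z hw hz) j.1) (norm_nonneg _)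
        ((norm_nonneg _).trans h1)
  have h := hasSum_coef2 (F := fun (j : ℕ × ℕ) p =>
      coef (fun y => H (p.1, y) * f (p.1, y) ^ j.1) j.2 *
        coef (fun w => K (w, p.2) * g (w, p.2) ^ j.2) j.1) (summable_geo hq0 hq M M')
    (fun j => ((continuousOn_coef (F := fun x y => H (x, y) * f (x, y) ^ j.1) (c1 j.1) j.2).comp
      continuousOn_fst fun _ h => h.1).mul
      ((continuousOn_coef (F := fun z w => K (w, z) * g (w, z) ^ j.2) (cont2' (c2 j.2)) j.1).comp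
        continuousOn_snd fun _ h => h.2)) hb a b
  refine hs_congr h (fun j => ?_) ?_
  · rw [coef2_tensor (fun x => coef (fun y => H (x, y) * f (x, y) ^ j.1) j.2)
      (fun z => coef (fun w => K (w, z) * g (w, z) ^ j.2) j.1),
      ← coef_swap (F := fun w z => K (w, z) * g (w, z) ^ j.2) (c2 j.2)]
    rfl
  refine coef_congr (fun x hx => coef_congr (fun z hz => ?_) b) a
  have hx' := hx.trans_lt hR
  have hz' := hz.trans_lt hR
  have hf' : ∀ y ∈ ball (0 : ℂ) R, ‖f (x, y)‖ < R := fun y hy =>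
    lt_of hR hq hf (mem2 hx' (mem_ball_zero_iff.1 hy))
  have hy := lt_of hR hq hY (mem2 hx' hz')
  have hl := lagrange hR hq (into_mid hR hq hf hg hx' hz') ((sliceY hH hx').mul
    (comp2 hK (sliceY hf.1 hx') (differentiableOn_const z) hf' fun _ _ => hz')) hy
    (hfix _ (mem2 hx' hz'))
  rw [deriv_mid hR hq hf hg hx' hy hz'] at hl
  refine (tsum_eq_of (.of_norm_bounded (summable_geo hq0 hq M M') fun j => hb j x z hx hz)
    (fun n => ?_) hl).symm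
  have h1 := hasSum_coef_of_bound (F := fun m y =>
      coef (fun w => K (w, z) * g (w, z) ^ n) m * (H (x, y) * f (x, y) ^ m))
    (((summable_geometric_of_lt_one hq0 hq).mul_left M).mul_left (M' * q ^ n))
    (fun m => continuousOn_const.mul (cont1 hR (sliceY (hH.mul (hf.1.pow m)) hx')))
    (fun m y hy => by
      have h1 := norm_coef_le_one (fun w hw => hM' n w z hw hz) m
      rw [norm_mul]
      exact mul_le_mul h1 (hM m x y hx hy) (norm_nonneg _) ((norm_nonneg _).trans h1)) n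
  refine hs_congr h1 (fun m => ?_) ?_
  · rw [coef_const_mul, mul_comm]
  refine coef_congr (fun y hy => ?_) n
  have h2 := (hasSum_coef hR (sliceX (hK.mul (hg.1.pow n)) hz') (mem_ball_zero_iff.2
    (hf' y (mem_ball_zero_iff.2 (hy.trans_lt hR))))).mul_left (H (x, y))
  rw [Pi.mul_apply, mul_assoc]
  exact h2.tsum_eq.symm.trans (tsum_congr fun m => mul_left_comm _ _ _)

theorem exists_X (hR : 1 < R) (hq : q < 1) (hf : Into R q f) : ∃ X : ℂ → ℂ, Into R q X ∧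
    ∀ y ∈ ball (0 : ℂ) R, f (X y, y) = X y ∧
      ((∀ t : ℝ, |t| < R → (f (t, y)).im = 0) → (X y).im = 0) := by
  obtain ⟨X, h1, h2⟩ := exists_fix_param (g := fun p : ℂ × ℂ => f (p.2, p.1)) isOpen_ball hR hq
    (comp2 hf.1 differentiableOn_snd differentiableOn_fst (fun _ h => mem_ball_zero_iff.1 h.2)
      fun _ h => mem_ball_zero_iff.1 h.1)
    fun p h => hf.2 _ (mem2 (mem_ball_zero_iff.1 h.2) (mem_ball_zero_iff.1 h.1))
  exact ⟨X, ⟨h1, fun y hy => (h2 y hy).1⟩, fun y hy => (h2 y hy).2⟩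

theorem graph (hR : 1 < R) (hq : q < 1) {X : ℂ → ℂ} (hX : Into R q X)
    (hH : DifferentiableOn ℂ H (ball 0 R)) : DifferentiableOn ℂ (fun y => H (X y, y)) (ball 0 R) :=
  comp2 hH hX.1 differentiableOn_id (fun _ h => lt_of hR hq hX h) fun _ h => mem_ball_zero_iff.1 h

theorem into_graph (hR : 1 < R) (hq : q < 1) {X : ℂ → ℂ} (hX : Into R q X) (hg : Into R q g) :
    Into R q fun y => g (X y, y) :=
  ⟨graph hR hq hX hg.1, fun _ h => hg.2 _ (mem2 (lt_of hR hq hX h) (mem_ball_zero_iff.1 h))⟩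

theorem intoX (hf : Into R q f) {y : ℂ} (hy : ‖y‖ < R) : Into R q fun x => f (x, y) :=
  ⟨sliceX hf.1 hy, fun _ h => hf.2 _ (mem2 (mem_ball_zero_iff.1 h) hy)⟩

theorem den_ne (hR : 1 < R) (hq : q < 1) (hf : Into R q f) {x y : ℂ} (hx : ‖x‖ < R)
    (hy : ‖y‖ < R) (h : f (x, y) = x) : 1 - dx f (x, y) ≠ 0 := by
  rw [← (derivX hf.1 hx hy).deriv]
  exact one_sub_ne (norm_deriv_fix_lt hR hq (intoX hf hy) hx h)

end Pin2

open Pin2

/-- The intermediate point of two consecutive cross maps. -/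
theorem exists_mid (hR : 1 < R) (hq : q < 1) (hf₁ : Into R q f₁) (hg₂ : Into R q g₂) :
    ∃ Y : ℂ × ℂ → ℂ, Into R q Y ∧ (∀ p ∈ ball (0 : ℂ × ℂ) R, g₂ (f₁ (p.1, Y p), p.2) = Y p) ∧
      ((∀ x y : ℝ, |x| < R → |y| < R → (f₁ (x, y)).im = 0 ∧ (g₂ (x, y)).im = 0) →
        ∀ x y : ℝ, |x| < R → |y| < R → (Y (x, y)).im = 0) := by
  have h : ∀ x ∈ ball (0 : ℂ × ℂ) R ×ˢ ball (0 : ℂ) R, ‖f₁ (x.1.1, x.2)‖ < R := fun x hx =>
    lt_of hR hq hf₁ (mem2 (fst_lt hx.1) (mem_ball_zero_iff.1 hx.2))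
  obtain ⟨Y, h1, h2⟩ := exists_fix_param (g := fun x : (ℂ × ℂ) × ℂ => g₂ (f₁ (x.1.1, x.2), x.1.2))
    isOpen_ball hR hq (comp2 hg₂.1 (comp2 hf₁.1 (by fun_prop) (by fun_prop)
      (fun x hx => fst_lt hx.1) fun x hx => mem_ball_zero_iff.1 hx.2) (by fun_prop) h
      fun x hx => snd_lt hx.1) fun x hx => hg₂.2 _ (mem2 (h x hx) (snd_lt hx.1))
  refine ⟨Y, ⟨h1, fun p hp => (h2 p hp).1⟩, fun p hp => (h2 p hp).2.1, fun hr x y hx hy => ?_⟩
  have hp : ((x : ℂ), (y : ℂ)) ∈ ball (0 : ℂ × ℂ) R := mem2 (by simpa using hx) (by simpa using hy)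
  refine (h2 _ hp).2.2 fun t ht => ?_
  obtain ⟨s, hs⟩ := real_of (hr x t hx ht).1
  have h3 := h ((x, y), t) ⟨hp, by simpa using ht⟩
  simp only [hs] at h3 ⊢
  exact (hr s y (by simpa using h3) hy).2

theorem mid_den_ne (hR : 1 < R) (hq : q < 1) (hf₁ : Into R q f₁) (hg₂ : Into R q g₂) {x y z : ℂ}
    (hx : ‖x‖ < R) (hy : ‖y‖ < R) (hz : ‖z‖ < R) (h : g₂ (f₁ (x, y), z) = y) :
    1 - dy f₁ (x, y) * dx g₂ (f₁ (x, y), z) ≠ 0 := by
  rw [← deriv_mid hR hq hf₁ hg₂ hx hy hz]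
  exact one_sub_ne (norm_deriv_fix_lt hR hq (into_mid hR hq hf₁ hg₂ hx hz) hy h)

theorem mid_unique (hR : 1 < R) (hq : q < 1) (hf₁ : Into R q f₁) (hg₂ : Into R q g₂)
    {x y y' z : ℂ} (hx : ‖x‖ < R) (hy : ‖y‖ < R) (hy' : ‖y'‖ < R) (hz : ‖z‖ < R)
    (h : g₂ (f₁ (x, y), z) = y) (h' : g₂ (f₁ (x, y'), z) = y') : y = y' :=
  fix_unique hR hq (into_mid hR hq hf₁ hg₂ hx hz) hy hy' h h'

theorem nmul_op2 (hR : 1 < R) (hq : q < 1) (hf₁ : Into R q f₁) (hg₁ : Into R q g₁)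
    (hH₁ : DifferentiableOn ℂ H₁ (ball 0 R)) (hf₂ : Into R q f₂) (hg₂ : Into R q g₂)
    (hH₂ : DifferentiableOn ℂ H₂ (ball 0 R)) {Y : ℂ × ℂ → ℂ} (hY : Into R q Y)
    (hfix : ∀ p ∈ ball (0 : ℂ × ℂ) R, g₂ (f₁ (p.1, Y p), p.2) = Y p) :
    nmul (op2 f₁ g₁ H₁) (op2 f₂ g₂ H₂) =
      op2 (fun p => f₂ (f₁ (p.1, Y p), p.2)) (fun p => g₁ (p.1, Y p))
        (fun p => H₁ (p.1, Y p) * H₂ (f₁ (p.1, Y p), p.2) /
          (1 - dy f₁ (p.1, Y p) * dx g₂ (f₁ (p.1, Y p), p.2))) := by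
  have hY' : ∀ p ∈ ball (0 : ℂ × ℂ) R, ‖Y p‖ < R := fun p hp => lt_of hR hq hY hp
  have hf' : ∀ p ∈ ball (0 : ℂ × ℂ) R, ‖f₁ (p.1, Y p)‖ < R := fun p hp =>
    lt_of hR hq hf₁ (mem2 (fst_lt hp) (hY' p hp))
  have d1 : ∀ {A : ℂ × ℂ → ℂ}, DifferentiableOn ℂ A (ball 0 R) →
      DifferentiableOn ℂ (fun p : ℂ × ℂ => A (p.1, Y p)) (ball 0 R) := fun hA =>
    comp2 hA differentiableOn_fst hY.1 (fun _ => fst_lt) hY'
  have d2 : ∀ {A : ℂ × ℂ → ℂ}, DifferentiableOn ℂ A (ball 0 R) →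
      DifferentiableOn ℂ (fun p : ℂ × ℂ => A (f₁ (p.1, Y p), p.2)) (ball 0 R) := fun hA =>
    comp2 hA (d1 hf₁.1) differentiableOn_snd hf' fun _ => snd_lt
  have d3 : DifferentiableOn ℂ (fun p : ℂ × ℂ => H₁ (p.1, Y p) * H₂ (f₁ (p.1, Y p), p.2) /
      (1 - dy f₁ (p.1, Y p) * dx g₂ (f₁ (p.1, Y p), p.2))) (ball 0 R) :=
    (((d1 hH₁).mul (d2 hH₂)).mul ((((d1 (diff_dy hf₁.1)).mul (d2 (diff_dx hg₂.1))).const_sub
      1).inv fun p hp => mid_den_ne hR hq hf₁ hg₂ (fst_lt hp) (hY' p hp) (snd_lt hp)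
        (hfix p hp))).congr fun _ _ => div_eq_mul_inv _ _
  refine lp.ext (funext fun ⟨⟨a, b⟩, ⟨c, d⟩⟩ => ?_)
  rw [nmul_apply, op2_apply hR hq ⟨d2 hf₂.1, fun p hp => hf₂.2 _ (mem2 (hf' p hp) (snd_lt hp))⟩
    ⟨d1 hg₁.1, fun p hp => hg₁.2 _ (mem2 (fst_lt hp) (hY' p hp))⟩ d3]
  have h := (key_mul hR hq hf₁ hg₂ (hH₁.mul (hg₁.1.pow b)) (hH₂.mul (hf₂.1.pow c)) hY hfix a
    d).tsum_eq
  refine (tsum_congr fun j => ?_).trans (h.trans ?_)
  · rw [op2_apply hR hq hf₁ hg₁ hH₁, op2_apply hR hq hf₂ hg₂ hH₂]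
    simp only [Pi.mul_apply, Pi.pow_apply, mul_right_comm]
  · congr 1
    funext p
    simp only [Pi.mul_apply, Pi.pow_apply]
    ring

theorem exists_fix2 (hR : 1 < R) (hq : q < 1) (hf : Into R q f) (hg : Into R q g) :
    ∃ p : ℂ × ℂ, ‖p‖ ≤ q ∧ f p = p.1 ∧ g p = p.2 ∧
      ((∀ x y : ℝ, |x| < R → |y| < R → (f (x, y)).im = 0 ∧ (g (x, y)).im = 0) →
        p.1.im = 0 ∧ p.2.im = 0) := by
  obtain ⟨X, hX, h1⟩ := exists_X hR hq hf
  have hG := into_graph hR hq hX hg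
  obtain ⟨Y, -, h2⟩ := exists_fix_param (g := fun p : ℂ × ℂ => g (X p.2, p.2)) isOpen_univ hR hq
    (hG.1.comp differentiableOn_snd fun _ h => h.2) fun p h => hG.2 _ h.2
  obtain ⟨h3, h4, h5⟩ := h2 0 trivial
  have hy : Y 0 ∈ ball (0 : ℂ) R := mem_ball_zero_iff.2 (h3.trans_lt (hq.trans hR))
  refine ⟨(X (Y 0), Y 0), max_le (hX.2 _ hy) h3, (h1 _ hy).1, h4, fun hr => ?_⟩
  have h6 : ∀ t : ℝ, |t| < R → (X t).im = 0 := fun t ht =>
    (h1 t (by simpa using ht)).2 fun s hs => (hr s t hs ht).1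
  have h7 : (Y 0).im = 0 := h5 fun t ht => by
    obtain ⟨s, hs⟩ := real_of (h6 t ht)
    have h8 := lt_of hR hq hX (p := (t : ℂ)) (by simpa using ht)
    simp only [hs] at h8 ⊢
    exact (hr s t (by simpa using h8) ht).2
  obtain ⟨t, ht⟩ := real_of h7
  exact ⟨ht ▸ h6 t (by simpa [ht] using hy), h7⟩

theorem tr_op2 (hR : 1 < R) (hq : q < 1) (hf : Into R q f) (hg : Into R q g)
    (hH : DifferentiableOn ℂ H (ball 0 R)) {p : ℂ × ℂ} (hp : ‖p‖ < R) (h1 : f p = p.1)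
    (h2 : g p = p.2) :
    (1 - dx f p) * (1 - dy g p) - dy f p * dx g p ≠ 0 ∧
      tr (op2 f g H) = H p / ((1 - dx f p) * (1 - dy g p) - dy f p * dx g p) := by
  obtain ⟨X, hX, hfix⟩ := exists_X hR hq hf
  obtain ⟨x, y⟩ := p
  have hx : ‖x‖ < R := fst_lt (mem_ball_zero_iff.2 hp)
  have hy : ‖y‖ < R := snd_lt (mem_ball_zero_iff.2 hp)
  have hy' := mem_ball_zero_iff.2 hy
  obtain rfl : X y = x := fix_unique hR hq (intoX hf hy) (lt_of hR hq hX hy') hx (hfix y hy').1 h1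
  have hG := into_graph hR hq hX hg
  have hd := (hX.1.differentiableAt (isOpen_ball.mem_nhds hy')).hasDerivAt
  have e1 := (chain hf.1 hd (hasDerivAt_id y) hx hy).unique (hd.congr_of_eventuallyEq
    (mem_of_superset (isOpen_ball.mem_nhds hy') fun z hz => (hfix z hz).1))
  have e2 := (chain hg.1 hd (hasDerivAt_id y) hx hy).deriv
  simp only [id, mul_one] at e1 e2
  have hne : ∀ z ∈ ball (0 : ℂ) R, 1 - dx f (X z, z) ≠ 0 := fun z hz =>
    den_ne hR hq hf (lt_of hR hq hX hz) (mem_ball_zero_iff.1 hz) (hfix z hz).1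
  have e3 : (1 - dx f (X y, y)) * (1 - dy g (X y, y)) - dy f (X y, y) * dx g (X y, y) =
      (1 - dx f (X y, y)) * (1 - deriv (fun z => g (X z, z)) y) := by
    rw [e2]; linear_combination (-dx g (X y, y)) * e1
  rw [e3]
  refine ⟨mul_ne_zero (hne y hy') (one_sub_ne (norm_deriv_fix_lt hR hq hG hy h2)), ?_⟩
  have hl := lagrange hR hq hG ((graph hR hq hX hH).div
    ((graph hR hq hX (diff_dx hf.1)).const_sub 1) hne) hy h2
  rw [tr_apply, ← div_div]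
  refine tsum_eq_of (((Vec.summable_norm (op2 f g H)).comp_injective
    (i := fun j => (j, j)) fun _ _ h => congrArg Prod.fst h).of_norm) (fun b => ?_) hl
  have hA := hH.mul (hg.1.pow b)
  obtain ⟨M, hM⟩ := bound hR hA hf
  have hc : ∀ a : ℕ, ContinuousOn (fun p => (H * g ^ b) p * f p ^ a)
      (sphere 0 1 ×ˢ sphere 0 1) := fun a => cont2 hR (hA.mul (hf.1.pow a))
  have h := hasSum_coef_of_bound (F := fun a z =>
      coef (fun w => (H * g ^ b) (w, z) * f (w, z) ^ a) a)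
    ((summable_geometric_of_lt_one (q_nonneg hR hf) hq).mul_left M)
    (fun a => continuousOn_coef (F := fun z w => (H * g ^ b) (w, z) * f (w, z) ^ a)
      (cont2' (hc a)) a) (fun a z hz => norm_coef_le_one (fun w hw => hM a w z hw hz) a) b
  refine hs_congr h (fun a => ?_) ?_
  · rw [op2_apply hR hq hf hg hH,
      ← coef_swap (F := fun w z => (H * g ^ b) (w, z) * f (w, z) ^ a) (hc a)]
    simp only [coef2, Pi.mul_apply, Pi.pow_apply, mul_right_comm]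
  refine coef_congr (fun z hz => ?_) b
  have hz' := hz.trans_lt hR
  have hz'' := mem_ball_zero_iff.2 hz'
  rw [(lagrange hR hq (intoX hf hz') (sliceX hA hz') (lt_of hR hq hX hz'') (hfix z hz'').1).tsum_eq,
    (derivX hf.1 (lt_of hR hq hX hz'') hz').deriv]
  simp only [Pi.mul_apply, Pi.pow_apply, Pi.div_apply]
  ring

end Pool.Agent.Lib.MP_de7bb2_an
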