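import Pool.Agent.Lib.MP_de7bb2_an.H20Axis

/-! Periodic admissible sequences and their group elements. TASK PRIM, part A. -/

namespace Pool.Agent.Lib.MP_de7bb2_an

open Metric Set Complex Function

namespace Prim

variable {G : ℕ}

/-- Periodic admissible sequences. -/
abbrev PS (G : ℕ) : Type :=
  {σ : ℕ → St G // (∀ i, StE 1 (σ i) (σ (i + 1))) ∧ ∃ p, 0 < p ∧ Periodic σ p}

/-- The shift. -/
def sh (σ : PS G) : PS G := ⟨fun i => σ.1 (i + 1), fun i => σ.2.1 (i + 1), by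
  obtain ⟨p, hp, h⟩ := σ.2.2
  exact ⟨p, hp, fun i => (congrArg σ.1 (add_right_comm i p 1)).trans (h _)⟩⟩

theorem sh_iter (σ : PS G) (k i : ℕ) : (sh^[k] σ).1 i = σ.1 (i + k) := by
  induction k generalizing σ with
  | zero => rfl
  | succ k ih => rw [iterate_succ_apply, ih]; rfl

theorem per_sh {σ : PS G} {p : ℕ} : IsPeriodicPt sh p σ ↔ Periodic σ.1 p :=
  ⟨fun h i => by rw [← sh_iter, h.eq], fun h => Subtype.ext (funext fun i => by
    rw [sh_iter]; exact h i)⟩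

theorem mem_per_sh (σ : PS G) : σ ∈ periodicPts (sh (G := G)) := by
  obtain ⟨p, hp, h⟩ := σ.2.2
  exact ⟨p, hp, per_sh.2 h⟩

theorem sh_bij : Bijective (sh (G := G)) := by
  have h := bijOn_periodicPts (f := sh (G := G))
  rw [eq_univ_of_forall mem_per_sh] at h
  exact bijOn_univ.1 h

/-- The shift as a permutation. -/
noncomputable def T (G : ℕ) : Equiv.Perm (PS G) := Equiv.ofBijective sh sh_bij

theorem coe_T : ⇑(T G) = sh := rfl

/-- The cycles of the shift. -/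
abbrev Cy (G : ℕ) : Type := Quotient (Equiv.Perm.SameCycle.setoid (T G))

theorem inv_of_same {β : Type} {h : PS G → β} (hh : ∀ σ, h (sh σ) = h σ) {σ σ' : PS G}
    (e : (T G).SameCycle σ σ') : h σ = h σ' := by
  obtain ⟨i, rfl⟩ := e
  induction i using Int.induction_on with
  | zero => rfl
  | succ i ih =>
    rw [ih, add_comm, zpow_add, zpow_one, Equiv.Perm.mul_apply, coe_T, hh]
  | pred i ih =>
    rw [ih, ← hh ((T G ^ (-(i : ℤ) - 1)) σ), ← coe_T, ← Equiv.Perm.mul_apply, ← zpow_one_add]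
    congr 3
    ring

theorem inv_out {β : Type} {h : PS G → β} (hh : ∀ σ, h (sh σ) = h σ) (σ : PS G) :
    h (Quotient.out (⟦σ⟧ : Cy G)) = h σ :=
  inv_of_same hh (Quotient.mk_out (s := Equiv.Perm.SameCycle.setoid (T G)) σ)

theorem same_of_iter {σ σ' : PS G} {i j : ℕ} (h : sh^[i] σ = sh^[j] σ') :
    (⟦σ⟧ : Cy G) = ⟦σ'⟧ := by
  refine Quotient.sound (s := Equiv.Perm.SameCycle.setoid (T G)) ?_
  change (T G).SameCycle σ σ'
  rw [← Equiv.Perm.sameCycle_pow_left (n := i), ← Equiv.Perm.sameCycle_pow_right (n := j),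
    Equiv.Perm.coe_pow, Equiv.Perm.coe_pow, coe_T, h]

/-- The letters. -/
def lt (σ : PS G) (i : ℕ) : L G := (σ.1 i).2

/-- The least period. -/
noncomputable def mp (σ : PS G) : ℕ := minimalPeriod sh σ

theorem mp_pos (σ : PS G) : 0 < mp σ := minimalPeriod_pos_of_mem_periodicPts (mem_per_sh σ)

theorem per_mp (σ : PS G) : Periodic σ.1 (mp σ) := per_sh.1 (isPeriodicPt_minimalPeriod _ _)

theorem mp_dvd {σ : PS G} {p : ℕ} (h : Periodic σ.1 p) : mp σ ∣ p :=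
  (per_sh.2 h).minimalPeriod_dvd

theorem mp_sh (σ : PS G) : mp (sh σ) = mp σ := minimalPeriod_apply (mem_per_sh σ)

theorem pre_add (u : ℕ → L G) (a b : ℕ) :
    pre u (a + b) = pre u a * pre (fun i => u (i + a)) b := by
  induction b with
  | zero => simp [pre]
  | succ b ih => rw [← add_assoc, pre, ih, pre, mul_assoc, add_comm a b]

theorem pre_per {σ : PS G} {p : ℕ} (h : Periodic σ.1 p) (b : ℕ) :
    pre (lt σ) (p + b) = pre (lt σ) p * pre (lt σ) b := by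
  rw [pre_add]
  congr 2
  funext i
  rw [lt, lt, h i]

theorem cl_pre (σ : PS G) {g : W G} (hg : cl g = (σ.1 0).1) (k : ℕ) :
    cl (g * pre (lt σ) k) = (σ.1 k).1 := by
  induction k with
  | zero => simpa [pre] using hg
  | succ k ih => rw [pre, ← mul_assoc, Hom.cl_step, ih, (σ.2.1 k).2]; rfl

theorem pre_mem {σ : PS G} {p : ℕ} (h : Periodic σ.1 p) : pre (lt σ) p ∈ Gam G := by
  have h1 := cl_pre σ (cl_sec (σ.1 0).1) p
  have h2 := h 0
  rw [zero_add] at h2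
  rw [cl_mul, cl_sec, h2] at h1
  exact mem_Gam.2 (add_eq_left.1 h1)

/-- The group element of the first `p` letters. -/
def gm (σ : PS G) (p : ℕ) : W G := sec (σ.1 0).1 * pre (lt σ) p * (sec (σ.1 0).1)⁻¹

theorem gm_mem {σ : PS G} {p : ℕ} (h : Periodic σ.1 p) : gm σ p ∈ Gam G := by
  rw [mem_Gam, gm, cl_mul, cl_mul, cl_inv, mem_Gam.1 (pre_mem h), add_zero, Hom.q_add_self]

theorem gm_mul {σ : PS G} {p : ℕ} (h : Periodic σ.1 p) (k : ℕ) : gm σ (k * p) = gm σ p ^ k := by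
  have : pre (lt σ) (k * p) = pre (lt σ) p ^ k := by
    induction k with
    | zero => simp [pre]
    | succ k ih => rw [add_mul, one_mul, add_comm, pre_per h, ih, pow_succ']
  rw [gm, gm, this, conj_pow]

/-- The primitive element of a periodic sequence. -/
noncomputable def gp (σ : PS G) : W G := gm σ (mp σ)

theorem gp_mem (σ : PS G) : gp σ ∈ Gam G := gm_mem (per_mp σ)

theorem gm_eq_pow {σ : PS G} {p : ℕ} (h : Periodic σ.1 p) : gm σ p = gp σ ^ (p / mp σ) := by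
  rw [gp, ← gm_mul (per_mp σ), Nat.div_mul_cancel (mp_dvd h)]

theorem gp_sh (σ : PS G) : ∃ δ ∈ Gam G, gp σ = δ * gp (sh σ) * δ⁻¹ := by
  refine ⟨sec (σ.1 0).1 * pre (lt σ) 1 * (sec (σ.1 1).1)⁻¹, ?_, ?_⟩
  · rw [mem_Gam, cl_mul, cl_pre σ (cl_sec _), cl_inv, cl_sec, Hom.q_add_self]
  · have h1 := pre_add (lt σ) 1 (mp σ)
    rw [add_comm, pre_per (per_mp σ)] at h1
    have h2 : pre (lt (sh σ)) (mp σ) = (pre (lt σ) 1)⁻¹ * (pre (lt σ) (mp σ) * pre (lt σ) 1) := by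
      rw [h1, inv_mul_cancel_left]
      rfl
    rw [gp, gp, mp_sh, gm, gm, h2]
    change _ = _ * (sec (σ.1 1).1 * _ * (sec (σ.1 1).1)⁻¹) * _
    group

/-- The periodic sequence of a closed path. -/
def ofCyc {n : ℕ} (π : Cyc (StE (G := G) 1) n) : PS G :=
  ⟨fun i => π.1 i, fun i => by simpa using π.2 i, n + 1, n.succ_pos, fun i => by simp⟩

theorem per_ofCyc {n : ℕ} (π : Cyc (StE (G := G) 1) n) : Periodic (ofCyc π).1 (n + 1) :=
  fun i => by simp [ofCyc]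

theorem ofCyc_inj {n : ℕ} : Injective (ofCyc (G := G) (n := n)) := fun π π' h =>
  Subtype.ext (funext fun i => by
    have := congrFun (congrArg Subtype.val h) i.val
    simpa [ofCyc] using this)

theorem exists_ofCyc {σ : PS G} {n : ℕ} (h : Periodic σ.1 (n + 1)) :
    ∃ π : Cyc (StE (G := G) 1) n, ofCyc π = σ := by
  refine ⟨⟨fun i => σ.1 i.val, Surf.cyc_of_nat σ.1 (by simpa using h 0) fun k _ => σ.2.1 k⟩,
    Subtype.ext (funext fun i => ?_)⟩
  change σ.1 (i : ZMod (n + 1)).val = σ.1 i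
  rw [ZMod.val_natCast, h.map_mod_nat]

theorem gam_eq {n : ℕ} (π : Cyc (StE (G := G) 1) n) : gam π = gm (ofCyc π) (n + 1) := by
  rw [gam, Ax.wd_cw, gm]
  simp only [ofCyc, Nat.cast_zero]
  rfl

theorem gam_eq_pow {n : ℕ} (π : Cyc (StE (G := G) 1) n) :
    gam π = gp (ofCyc π) ^ ((n + 1) / mp (ofCyc π)) := by
  rw [gam_eq, gm_eq_pow (per_ofCyc π)]

theorem exists_cyc_gp (σ : PS G) :
    ∃ (n : ℕ) (π : Cyc (StE (G := G) 1) n), ofCyc π = σ ∧ gam π = gp σ := by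
  obtain ⟨n, hn⟩ := Nat.exists_eq_succ_of_ne_zero (mp_pos σ).ne'
  have h := per_mp σ
  rw [hn] at h
  obtain ⟨π, rfl⟩ := exists_ofCyc h
  exact ⟨n, π, rfl, by rw [gam_eq, gp, hn]⟩

theorem Th_conj_mem (x : L G → ℂ) {δ γ : W G} (hδ : δ ∈ Gam G) (hγ : γ ∈ Gam G) :
    Th x (δ * γ * δ⁻¹) = Th x γ := by
  rw [Th_conj x δ hγ, Th_mul_left x hδ, add_sub_cancel_left]

theorem Th_pow (x : L G → ℂ) {γ : W G} (hγ : γ ∈ Gam G) (k : ℕ) : Th x (γ ^ k) = k * Th x γ := by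
  induction k with
  | zero => simp [Th_one]
  | succ k ih => rw [pow_succ', Th_mul_left x hγ, ih]; push_cast; ring

/-- Sequences that run along a wall have period two. -/
theorem alt_per {σ : PS G} (h : Alt (lt σ)) : Periodic σ.1 2 ∧ ∃ (j : L G) (e : ℂ),
    (e = 1 ∨ e = -1) ∧ ∀ x : L G → ℂ, Th x (gp σ) = e * (x (j + 1) - x (j - 1)) := by
  obtain ⟨i₀, j, hj⟩ := h
  have all : ∀ i, lt σ i = j + 1 ∨ lt σ i = j - 1 := fun i => by
    have h1 := hj (i + i₀ * mp σ) (le_add_left (Nat.le_mul_of_pos_right _ (mp_pos σ)))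
    have h2 : σ.1 (i + i₀ * mp σ) = σ.1 i := (per_mp σ).nat_mul i₀ i
    rwa [lt, h2] at h1
  have ne : ∀ i, lt σ i ≠ lt σ (i + 1) := fun i => (σ.2.1 i).1.1
  have pr : ∀ i k, par (lt σ i) = par (lt σ k) := fun i k => by
    rcases all i with a | a <;> rcases all k with b | b <;>
      simp only [a, b, par_add_one, par_sub_one]
  have h2 : Periodic σ.1 2 := fun i => by
    refine Prod.ext ?_ ?_
    · have a1 := (σ.2.1 i).2
      have a2 := (σ.2.1 (i + 1)).2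
      have a3 : clL (σ.1 (i + 1)).2 = clL (σ.1 i).2 := Hom.clL_congr (pr (i + 1) i)
      rw [a2, a1, a3, add_assoc, clL_add_self, add_zero]
    · have a1 := ne i
      have a2 := ne (i + 1)
      change lt σ (i + 1 + 1) = lt σ i
      rcases all i with a | a <;> rcases all (i + 1) with b | b <;>
        rcases all (i + 1 + 1) with c | c <;> simp_all
  have hm : mp σ = 2 := by
    refine minimalPeriod_eq_prime (per_sh.2 h2) fun hf => ne 0 ?_
    exact (congrArg (fun τ => lt τ 0) hf.eq).symm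
  have key : ∀ x : L G → ℂ, Th x (gp σ) =
      sgn (σ.1 0).1 (lt σ 0) * (x (lt σ 0) - x (lt σ 1)) := fun x => by
    rw [gp, hm, gm, Th_conj x _ (pre_mem h2), pre, pre, pre, one_mul, ← mul_assoc, Th_step,
      Th_step, Hom.cl_step, cl_sec, Hom.sgn_congr _ (pr 1 0), Hom.sgn_self]
    ring
  refine ⟨h2, j, ?_⟩
  have a1 := ne 0
  rcases all 0 with a | a
  · have b : lt σ 1 = j - 1 := (all 1).resolve_left fun b => a1 (a.trans b.symm)
    exact ⟨_, Hom.sgn_cases (σ.1 0).1 (lt σ 0), fun x => by rw [key, b]; congr 3⟩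
  · have b : lt σ 1 = j + 1 := (all 1).resolve_right fun b => a1 (a.trans b.symm)
    refine ⟨-sgn (σ.1 0).1 (lt σ 0), ?_, fun x => ?_⟩
    · rcases Hom.sgn_cases (σ.1 0).1 (lt σ 0) with c | c <;> simp [c]
    · rw [key, b, ← a]
      ring

variable [hG : Fact (2 ≤ G)]

theorem exists_axis (σ : PS G) :
    ∃ X Y l, Axis (lin (gp σ)) X Y l ∧ Codes 1 (sec (σ.1 0).1) (lt σ) X := by
  obtain ⟨n, π, rfl, h⟩ := exists_cyc_gp σ
  obtain ⟨X, Y, h1, h2⟩ := exists_axis_gam π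
  refine ⟨X, Y, _, h ▸ h1, ?_⟩
  simpa only [ofCyc, Nat.cast_zero] using! h2

/-- Two codes of the same end point merge. -/
theorem merge {σ σ' : PS G} (hA : ¬ Alt (lt σ)) {X X' : V}
    (h : Codes 1 (sec (σ.1 0).1) (lt σ) X) (h' : Codes 1 (sec (σ'.1 0).1) (lt σ') X')
    {δ : W G} (hδ : δ ∈ Gam G) {a : ℝ} (ha : 0 < a) (e : lin δ X' = (a : ℂ) • X) :
    ∃ i j, sh^[i] σ = sh^[j] σ' ∧
      sec (σ.1 0).1 * pre (lt σ) i = δ * sec (σ'.1 0).1 * pre (lt σ') j := by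
  have e' : X = ((a⁻¹ : ℝ) : ℂ) • lin δ X' := by
    rw [e, smul_smul, ← ofReal_mul, inv_mul_cancel₀ ha.ne', ofReal_one, one_smul]
  have h2 : Codes 1 (δ * sec (σ'.1 0).1) (lt σ') X := fun i => by
    refine ⟨?_, (h' i).2⟩
    rw [e', map_smul, mul_assoc, mul_inv_rev, lin_mul, lin_inv_lin]
    exact (h' i).1.smul (inv_pos.2 ha)
  obtain ⟨i, j, hij⟩ := (code_merge h h2).resolve_left hA
  refine ⟨i, j, Subtype.ext (funext fun k => ?_), (hij 0).1⟩
  rw [sh_iter, sh_iter, add_comm k, add_comm k]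
  refine Prod.ext ?_ (hij k).2
  rw [← cl_pre σ (cl_sec _), (hij k).1, cl_pre σ']
  rw [cl_mul, mem_Gam.1 hδ, zero_add, cl_sec]

/-- Conjugate primitive elements come from the same cycle. -/
theorem same_of_conj {σ σ' : PS G} (hA : ¬ Alt (lt σ)) {δ : W G} (hδ : δ ∈ Gam G)
    (e : gp σ = δ * gp σ' * δ⁻¹) : (⟦σ⟧ : Cy G) = ⟦σ'⟧ := by
  obtain ⟨X, Y, l, h1, h2⟩ := exists_axis σ
  obtain ⟨X', Y', l', h1', h2'⟩ := exists_axis σ'
  have h3 := h1'.conj δ
  rw [← e] at h3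
  obtain ⟨-, a, ha, -⟩ := h1.unique h3
  obtain ⟨i, j, h, -⟩ := merge hA h2 h2' hδ (Real.exp_pos a) ha
  exact same_of_iter h

/-- The centraliser of a primitive element. -/
theorem central {σ : PS G} (hA : ¬ Alt (lt σ)) {γ : W G} (hγ : γ ∈ Gam G)
    (hc : gp σ * γ = γ * gp σ) : ∃ k : ℕ, γ = gp σ ^ k ∨ γ * gp σ ^ k = 1 := by
  obtain ⟨X, Y, l, h1, h2⟩ := exists_axis σ
  obtain ⟨a, ha, e⟩ := h1.eq_of_eigen ((iso_lin γ).nul h1.1) (Real.one_lt_exp_iff.2 h1.2.2.2.1)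
    (by rw [← lin_mul, hc, lin_mul, h1.2.2.2.2.1, map_smul])
  obtain ⟨i, j, h, e2⟩ := merge hA h2 h2 hγ ha e
  have per : ∀ {a d : ℕ}, sh^[d + a] σ = sh^[a] σ → Periodic σ.1 d := fun {a d} h =>
    per_sh.1 ((sh_bij.1.iterate a) (by rw [← iterate_add_apply, add_comm, h]))
  rcases le_total j i with hij | hij
  · obtain ⟨d, rfl⟩ := Nat.exists_eq_add_of_le' hij
    have hp := per h
    refine ⟨d / mp σ, Or.inl ?_⟩
    rw [pre_per hp, ← mul_assoc] at e2
    rw [← gm_eq_pow hp, gm, mul_right_cancel e2, mul_inv_cancel_right]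
  · obtain ⟨d, rfl⟩ := Nat.exists_eq_add_of_le' hij
    have hp := per h.symm
    refine ⟨d / mp σ, Or.inr ?_⟩
    rw [pre_per hp, ← mul_assoc] at e2
    rw [← gm_eq_pow hp, gm, ← mul_assoc, ← mul_assoc, ← mul_right_cancel e2, mul_inv_cancel]

end Prim

end Pool.Agent.Lib.MP_de7bb2_an
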