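import Pool.Agent.Lib.MP_de7bb2_an.H20Uniq
import Pool.Agent.Lib.MP_de7bb2_an.H20Conv
import Pool.Agent.Lib.MP_de7bb2_an.H20LimTr
import Pool.Agent.Lib.MP_de7bb2_an.H20PrimA

/-! Primitive closed geodesics and primitive cycles. TASK PRIM. -/

namespace Pool.Agent.Lib.MP_de7bb2_an

open Metric Set Complex Filter

variable {G : ℕ} [hG : Fact (2 ≤ G)]

omit hG in
theorem exists_rho (x : L G → ℂ) : ∃ ρ : Gam G →* GL (Fin 1) ℂ,
    ∀ γ, (ρ γ : Matrix (Fin 1) (Fin 1) ℂ) 0 0 = exp (Th x γ) := by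
  let χ : Gam G →* ℂ :=
    { toFun := fun γ => exp (Th x γ)
      map_one' := by simp [Th_one]
      map_mul' := fun γ δ => by rw [Subgroup.coe_mul, Th_mul_left x γ.2, exp_add] }
  exact ⟨((Matrix.scalar (Fin 1)).toMonoidHom.comp χ).toHomUnits, fun γ => by simp [χ]⟩

/-- The character `exp (Th x)` of the surface group. -/
noncomputable def rho (x : L G → ℂ) : (surf G).Γ →* GL (Fin 1) ℂ := (exists_rho x).choose

namespace Prim

open Function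

theorem act2_mul (g h : W G) (E : V × V) :
    act2 (lin (g * h)) E = act2 (lin g) (act2 (lin h) E) :=
  Prod.ext (lin_mul g h _) (lin_mul g h _)

theorem act2_one (E : V × V) : act2 (lin (1 : W G)) E = E := Prod.ext (lin_one _) (lin_one _)

omit hG in
theorem mid_act2 (A : V →L[ℂ] V) (E : V × V) : mid (act2 A E) = A (mid E) := by
  rw [mid, mid, map_smul, map_add]
  rfl

variable {w : V} {ε : ℝ}

/-- Periodic orbits with deck transformation `γ`. -/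
abbrev Pe (w : V) (ε : ℝ) (γ : W G) (l : ℝ) (E : ℝ → V × V) : Prop :=
  PerG (fam (1 : W G) w) ε (lin γ) l E

theorem pe_conj {γ δ : W G} {l : ℝ} {E : ℝ → V × V} (h : Pe w ε γ l E) (hδ : δ ∈ Gam G) :
    Pe w ε (δ * γ * δ⁻¹) l fun t => act2 (lin δ) (E t) :=
  ⟨h.1.lin hδ, h.2.1, fun t => by
    beta_reduce
    rw [h.2.2, ← act2_mul, ← act2_mul, inv_mul_cancel_right]⟩

theorem pe_iter {γ : W G} {l : ℝ} {E : ℝ → V × V} (h : Pe w ε γ l E) (k : ℕ) (t : ℝ) :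
    E (t + k * l) = act2 (lin (γ ^ k)) (E t) := by
  induction k with
  | zero => rw [pow_zero, act2_one, Nat.cast_zero, zero_mul, add_zero]
  | succ k ih => rw [Nat.cast_succ, add_mul, one_mul, ← add_assoc, h.2.2, ih, pow_succ', act2_mul]

theorem pe_pow {γ : W G} {l : ℝ} {E : ℝ → V × V} (h : Pe w ε γ l E) {k : ℕ} (hk : 0 < k) :
    Pe w ε (γ ^ k) (k * l) E :=
  ⟨h.1, mul_pos (Nat.cast_pos.2 hk) h.2.1, pe_iter h k⟩

theorem pe_of_geo {E : ℝ → V × V} (hE : MG (fam (1 : W G) w) ε E) {c : ℝ → ℂ}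
    (hc : ∀ t, c t ∈ ball (0 : ℂ) 1) (hm : ∀ t, mid (E t) = zv (c t)) {γ : W G} (hγ : γ ∈ Gam G)
    {l : ℝ} (hl : 0 < l) (h : ∀ t, c (t + l) = actD γ (c t)) : Pe w ε γ l E :=
  ⟨hE, hl, congrFun ((hE.shift l).ext (hE.lin hγ) fun t => by
    rw [hm, h, zv_actD γ (hc t), mid_act2, hm])⟩

theorem geo_of {E E' : V × V} {z z' : ℂ} (hz' : z' ∈ ball (0 : ℂ) 1) (h : mid E = zv z)
    (h' : mid E' = zv z') {δ : W G} (e : E' = act2 (lin δ) E) : z' = actD δ z := by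
  rw [actD, ← h, ← mid_act2, ← e, h', vz_zv hz']

/-- What is used about the flow. -/
structure Ctx (G : ℕ) [Fact (2 ≤ G)] (w : V) (ε : ℝ) : Prop where
  famy : ∃ Cb, Famy (fam (1 : W G) w) Cb
  inj : ∀ E, MG (fam (1 : W G) w) ε E → Injective E
  uniq : ∀ γ ∈ Gam G, ∀ l l' E E', Pe w ε γ l E → Pe w ε γ l' E' →
    l' = l ∧ ∃ t₀, ∀ t, E' t = E (t + t₀)
  ex : ∀ σ : PS G, ∃ l E, Pe w ε (gp σ) l E

theorem ne_one (hi : ∀ E, MG (fam (1 : W G) w) ε E → Injective E) {γ : W G} {l : ℝ}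
    {E : ℝ → V × V} (h : Pe w ε γ l E) : γ ≠ 1 := by
  rintro rfl
  have h1 := h.2.2 0
  rw [act2_one] at h1
  linarith [hi E h.1 h1, h.2.1]

theorem exists_ctx (hw : Hyp w) : ∃ ε₀ > 0, ∀ ε : ℝ, |ε| < ε₀ →
    (∀ σ : PS G, ∃ l E, Pe w ε (gp σ) l E) → Ctx G w ε := by
  obtain ⟨Cb, hCb⟩ := exists_famy (G := G)
  have hF := hCb 1 w hw
  have h0 := hF.nonneg
  obtain ⟨ε₁, h1, hu⟩ := exists_uniq Cb
  refine ⟨min ε₁ (1 / (4 * Cb + 1)), lt_min h1 (by positivity), fun ε hε hex => ?_⟩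
  rw [lt_min_iff, lt_div_iff₀ (by positivity)] at hε
  have hi : ∀ E, MG (fam (1 : W G) w) ε E → Injective E := fun E hE =>
    hE.injective hF (by nlinarith [hε.2, abs_nonneg ε])
  refine ⟨⟨Cb, hF⟩, hi, fun γ hγ l l' E E' h h' => ?_, hex⟩
  obtain ⟨n, π, δ, -, e⟩ := exists_cyc hγ (ne_one hi h)
  obtain ⟨X, Y, hA, -⟩ := exists_axis_gam π
  have hA' := hA.conj δ
  rw [← e] at hA'
  exact hu _ _ hF ε hε.1.le _ _ _ _ (iso_lin γ) hA' l l' E E' h h'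

open Classical in
/-- The period of an element. -/
noncomputable def LL (w : V) (ε : ℝ) (γ : W G) : ℝ :=
  if h : ∃ l, ∃ E, Pe w ε γ l E then h.choose else 0

theorem Ctx.LL_eq (C : Ctx G w ε) {γ : W G} (hγ : γ ∈ Gam G) {l : ℝ} {E : ℝ → V × V}
    (h : Pe w ε γ l E) : LL w ε γ = l := by
  have h1 : ∃ l, ∃ E, Pe w ε γ l E := ⟨l, E, h⟩
  obtain ⟨E', h2⟩ := h1.choose_spec
  rw [LL, dif_pos h1]
  exact (C.uniq γ hγ _ _ _ _ h h2).1

theorem Ctx.pe_gp (C : Ctx G w ε) (σ : PS G) : ∃ E, Pe w ε (gp σ) (LL w ε (gp σ)) E := by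
  obtain ⟨l, E, h⟩ := C.ex σ
  exact ⟨E, by rwa [C.LL_eq (gp_mem σ) h]⟩

theorem Ctx.LL_sh (C : Ctx G w ε) (σ : PS G) : LL w ε (gp (sh σ)) = LL w ε (gp σ) := by
  obtain ⟨δ, hδ, e⟩ := gp_sh σ
  obtain ⟨E, h⟩ := C.pe_gp (sh σ)
  have h1 := pe_conj h hδ
  rw [← e] at h1
  exact (C.LL_eq (gp_mem σ) h1).symm

theorem Ctx.LL_gam (C : Ctx G w ε) {n : ℕ} (π : Cyc (StE (G := G) 1) n) :
    LL w ε (gam π) = ((n + 1) / mp (ofCyc π) : ℕ) * LL w ε (gp (ofCyc π)) := by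
  obtain ⟨E, h⟩ := C.pe_gp (ofCyc π)
  have h1 := pe_pow h (Nat.div_pos (Nat.le_of_dvd n.succ_pos (mp_dvd (per_ofCyc π))) (mp_pos _))
  rw [← gam_eq_pow] at h1
  exact C.LL_eq (gam_mem π) h1

/-- Lifts of primitive closed geodesics. -/
abbrev Tr (G : ℕ) [Fact (2 ≤ G)] (w : V) (ε : ℝ) : Type :=
  {x : (ℝ → ℂ) × ℝ × (surf G).Γ //
    IsPrimitive (surf G) (phiE (fam (1 : W G) w) ε) x.1 x.2.1 x.2.2}

/-- The deck transformation. -/
def dk (x : Tr G w ε) : Gam G := x.1.2.2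

theorem tr_mem (x : Tr G w ε) (t : ℝ) : x.1.1 t ∈ ball (0 : ℂ) 1 := by
  obtain ⟨v, hv⟩ := x.2.1
  exact (hv t).1

theorem tr_per (x : Tr G w ε) (t : ℝ) : x.1.1 (t + x.1.2.1) = actD (dk x : W G) (x.1.1 t) :=
  x.2.2.2.1 t

theorem tr_min (x : Tr G w ε) {l : ℝ} {γ : W G} (hγ : γ ∈ Gam G) (hl : 0 < l)
    (h : ∀ t, x.1.1 (t + l) = actD γ (x.1.1 t)) : x.1.2.1 ≤ l :=
  x.2.2.2.2 l (⟨γ, hγ⟩ : Gam G) hl h

theorem Ctx.tr_pe (C : Ctx G w ε) (x : Tr G w ε) :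
    ∃ E, Pe w ε (dk x : W G) x.1.2.1 E ∧ ∀ t, mid (E t) = zv (x.1.1 t) := by
  obtain ⟨Cb, hF⟩ := C.famy
  obtain ⟨E, hE, hm⟩ := x.2.1.exists_MG hF
  exact ⟨E, pe_of_geo hE (tr_mem x) hm (dk x).2 x.2.2.1 (tr_per x), hm⟩

/-- The deck transformation of a primitive geodesic is conjugate to a primitive element. -/
theorem Ctx.exists_ps (C : Ctx G w ε) (x : Tr G w ε) :
    ∃ σ : PS G, ∃ δ ∈ Gam G, (dk x : W G) = δ * gp σ * δ⁻¹ ∧ x.1.2.1 = LL w ε (gp σ) := by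
  obtain ⟨E, hE, hm⟩ := C.tr_pe x
  obtain ⟨n, π, δ, hδ, e⟩ := exists_cyc (dk x).2 (ne_one C.inj hE)
  obtain ⟨E₀, h₀⟩ := C.pe_gp (ofCyc π)
  have hk := Nat.div_pos (Nat.le_of_dvd n.succ_pos (mp_dvd (per_ofCyc π))) (mp_pos _)
  have h1 := pe_conj h₀ hδ
  have h2 := pe_pow h1 hk
  rw [conj_pow, ← gam_eq_pow, ← e] at h2
  obtain ⟨e1, t₀, ht⟩ := C.uniq _ (dk x).2 _ _ _ _ h2 hE
  have h3 := tr_min x ((Gam G).mul_mem ((Gam G).mul_mem hδ (gp_mem _)) ((Gam G).inv_mem hδ))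
    h1.2.1 fun t => geo_of (tr_mem x _) (hm t) (hm _) (by
      rw [ht, ht, add_right_comm]
      exact h1.2.2 _)
  have h4 : (n + 1) / mp (ofCyc π) = 1 := by
    rw [e1, mul_le_iff_le_one_left h1.2.1, Nat.cast_le_one] at h3
    exact le_antisymm h3 hk
  refine ⟨ofCyc π, δ, hδ, ?_, ?_⟩
  · rw [e, gam_eq_pow, h4, pow_one]
  · rw [e1, h4, Nat.cast_one, one_mul]

theorem Ctx.mk_eq (C : Ctx G w ε) {x y : Tr G w ε} (h : IsConj (dk x) (dk y)) :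
    (Quot.mk _ x : Primitive (surf G) (phiE (fam (1 : W G) w) ε)) = Quot.mk _ y := by
  obtain ⟨δ, e⟩ := isConj_iff.1 h
  obtain ⟨E, hE, hm⟩ := C.tr_pe x
  obtain ⟨E', hE', hm'⟩ := C.tr_pe y
  have h1 := pe_conj hE δ.2
  have e' : (δ : W G) * dk x * (δ : W G)⁻¹ = dk y := congrArg Subtype.val e
  rw [e'] at h1
  obtain ⟨-, t₀, ht⟩ := C.uniq _ (dk y).2 _ _ _ _ h1 hE'
  exact Quot.sound ⟨δ, t₀, fun t => geo_of (tr_mem y t) (hm _) (hm' t) (ht t)⟩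

theorem conj_of_rel {x y : Tr G w ε} {δ : Gam G} {t₀ : ℝ}
    (h : ∀ t, y.1.1 t = actD (δ : W G) (x.1.1 (t + t₀))) : IsConj (dk x) (dk y) := by
  have one : ∀ z ∈ ball (0 : ℂ) 1, actD (1 : W G) z = z := fun z hz => (Surf.free 1 hz).2 rfl
  have h1 : ∀ t, y.1.1 (t + x.1.2.1) =
      actD ((δ * dk x * δ⁻¹ : Gam G) : W G) (y.1.1 t) := fun t => by
    rw [h, h, add_right_comm, tr_per, ← Surf.act_mul _ _ (tr_mem x _),
      ← Surf.act_mul _ _ (tr_mem x _)]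
    simp
  have h' : ∀ t, x.1.1 t = actD (δ : W G)⁻¹ (y.1.1 (t - t₀)) := fun t => by
    rw [h, sub_add_cancel, ← Surf.act_mul _ _ (tr_mem x _), inv_mul_cancel, one _ (tr_mem x _)]
  have h2 : ∀ t, x.1.1 (t + y.1.2.1) =
      actD ((δ⁻¹ * dk y * δ : Gam G) : W G) (x.1.1 t) := fun t => by
    rw [h', h' t, add_sub_right_comm, tr_per, ← Surf.act_mul _ _ (tr_mem y _),
      ← Surf.act_mul _ _ (tr_mem y _)]
    simp
  have e := le_antisymm (tr_min y (δ * dk x * δ⁻¹).2 x.2.2.1 h1)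
    (tr_min x (δ⁻¹ * dk y * δ).2 y.2.2.1 h2)
  have h3 := h1 0
  rw [← e, tr_per] at h3
  have h4 : (dk y)⁻¹ * (δ * dk x * δ⁻¹) = 1 := by
    refine (Surf.free _ (tr_mem y 0)).1 ?_
    rw [Subgroup.coe_mul, Surf.act_mul _ _ (tr_mem y 0), ← h3, ← Surf.act_mul _ _ (tr_mem y 0),
      Subgroup.coe_inv, inv_mul_cancel, one _ (tr_mem y 0)]
  exact isConj_iff.2 ⟨δ, (inv_mul_eq_one.1 h4).symm⟩

theorem conj_of_mk {x y : Tr G w ε}
    (h : (Quot.mk _ x : Primitive (surf G) (phiE (fam (1 : W G) w) ε)) = Quot.mk _ y) :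
    IsConj (dk x) (dk y) :=
  ConjClasses.mk_eq_mk_iff_isConj.1 (congrArg (Quot.lift (fun x : Tr G w ε => ConjClasses.mk (dk x))
    fun _ _ ⟨_, _, h⟩ => ConjClasses.mk_eq_mk_iff_isConj.2 (conj_of_rel h)) h)

/-- A cycle that does not run along a wall gives a primitive geodesic. -/
theorem Ctx.exists_tr (C : Ctx G w ε) {σ : PS G} (hA : ¬ Alt (lt σ)) :
    ∃ x : Tr G w ε, (dk x : W G) = gp σ := by
  obtain ⟨Cb, hF⟩ := C.famy
  obtain ⟨l, E, hE⟩ := C.ex σ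
  have hy : ∀ t, Hyp (mid (E t)) := fun t => SM.mid (hE.1 t).1
  have hm : ∀ t, mid (E t) = zv (vz (mid (E t))) := fun t => (zv_vz (hy t)).symm
  refine ⟨⟨(fun t => vz (mid (E t)), l, (⟨gp σ, gp_mem σ⟩ : Gam G)), hE.1.isGeodesic hF, hE.2.1,
    fun t => geo_of (vz_mem (hy _)) (hm t) (hm _) (hE.2.2 t), fun l' γ hl' h => ?_⟩, rfl⟩
  obtain ⟨γ, hγ⟩ := γ
  have h1 : Pe w ε γ l' E := pe_of_geo hE.1 (fun t => vz_mem (hy t)) hm hγ hl' h
  have hc : gp σ * γ = γ * gp σ := by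
    have h2 : act2 (lin (gp σ * γ)) (E 0) = act2 (lin (γ * gp σ)) (E 0) := by
      rw [act2_mul, act2_mul, ← h1.2.2, ← hE.2.2, ← hE.2.2, ← h1.2.2, add_right_comm]
    have h3 := congrArg mid h2
    rw [mid_act2, mid_act2] at h3
    refine (inv_mul_eq_one.1 (eq_one_of_fix ((Gam G).mul_mem ((Gam G).inv_mem
      ((Gam G).mul_mem hγ (gp_mem σ))) ((Gam G).mul_mem (gp_mem σ) hγ)) (hy 0) ?_)).symm
    rw [lin_mul, h3, lin_inv_lin]
  have hl := hE.2.1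
  obtain ⟨k, hk | hk⟩ := central hA hγ hc
  · have h2 : (0 : ℝ) + l' = 0 + k * l := C.inj E hE.1 (by rw [h1.2.2, pe_iter hE, hk])
    have h3 : 0 < k := Nat.pos_of_ne_zero (by rintro rfl; simp at h2; exact hl'.ne' h2)
    have h4 : (1 : ℝ) ≤ k := Nat.one_le_cast.2 h3
    change l ≤ l'
    nlinarith
  · have h2 : (0 : ℝ) + k * l + l' = 0 :=
      C.inj E hE.1 (by rw [h1.2.2, pe_iter hE, ← act2_mul, hk, act2_one])
    have h3 := mul_nonneg (Nat.cast_nonneg (α := ℝ) k) hl.le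
    linarith

omit hG in
theorem conj_gp {σ σ' : PS G} (h : (⟦σ⟧ : Cy G) = ⟦σ'⟧) :
    IsConj (⟨gp σ, gp_mem σ⟩ : Gam G) ⟨gp σ', gp_mem σ'⟩ := by
  refine ConjClasses.mk_eq_mk_iff_isConj.1 (inv_of_same
    (h := fun σ => ConjClasses.mk (⟨gp σ, gp_mem σ⟩ : Gam G)) (fun σ => ?_) (Quotient.exact h))
  obtain ⟨δ, hδ, e⟩ := gp_sh σ
  exact ConjClasses.mk_eq_mk_iff_isConj.2 (isConj_iff.2 ⟨⟨δ, hδ⟩, Subtype.ext e.symm⟩)

/-- Primitive geodesics correspond to cycles, up to cycles along walls. -/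
theorem Ctx.exists_xi (C : Ctx G w ε) :
    ∃ σ : Primitive (surf G) (phiE (fam (1 : W G) w) ε) → PS G,
      Injective (fun p => (⟦σ p⟧ : Cy G)) ∧
      (∀ τ : PS G, ¬ Alt (lt τ) → ∃ p, (⟦σ p⟧ : Cy G) = ⟦τ⟧) ∧
      ∀ p x s, factor (rho x) s p = 1 - exp (Th x (gp (σ p)) - s * LL w ε (gp (σ p))) := by
  choose σ δ hδ e1 e2 using fun p : Primitive (surf G) (phiE (fam (1 : W G) w) ε) =>
    C.exists_ps (Quot.out p)
  have cj : ∀ p, IsConj (⟨gp (σ p), gp_mem _⟩ : Gam G) (dk (Quot.out p)) := fun p =>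
    isConj_iff.2 ⟨⟨δ p, hδ p⟩, Subtype.ext (e1 p).symm⟩
  refine ⟨σ, fun p p' h => ?_, fun τ hτ => ?_, fun p x s => ?_⟩
  · rw [← Quot.out_eq p, ← Quot.out_eq p']
    exact C.mk_eq (((cj p).symm.trans (conj_gp h)).trans (cj p'))
  · obtain ⟨y, hy⟩ := C.exists_tr hτ
    refine ⟨Quot.mk _ y, ?_⟩
    obtain ⟨η, hη⟩ := isConj_iff.1 ((cj (Quot.mk _ y)).trans (conj_of_mk (Quot.out_eq _)))
    exact (same_of_conj hτ η.2 (hy.symm.trans (congrArg Subtype.val hη).symm)).symm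
  · have h1 : (rho x (Quot.out p).1.2.2 : Matrix (Fin 1) (Fin 1) ℂ) 0 0 =
        exp (Th x (dk (Quot.out p))) := (exists_rho x).choose_spec _
    rw [factor, Matrix.det_fin_one, Matrix.sub_apply, Matrix.smul_apply, h1, e1, e2,
      Th_conj_mem x (hδ p) (gp_mem _), Matrix.one_apply_eq, smul_eq_mul, ← exp_add]
    congr 2
    ring

end Prim

open Prim Function in
theorem hasProd_prim {w : V} (hw : Hyp w) : ∃ ε₀ > 0, ∀ ε : ℝ, |ε| < ε₀ →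
    ∀ ℓ : ∀ n, Cyc (StE (G := G) 1) n → ℝ,
      (∀ n π, ∃ E, PerG (fam (1 : W G) w) ε (lin (gam π)) (ℓ n π) E) →
      ∃ (k : ℕ) (j : Fin k → L G) (e : Fin k → ℂ) (l : Fin k → ℝ),
        (∀ i, (e i = 1 ∨ e i = -1) ∧ 0 < l i) ∧ ∀ (x : L G → ℂ) (s : ℂ),
          (∀ n π, (Th x (gam π) - s * ℓ n π).re < 0) →
          (Summable fun n : ℕ => (∑ π, ‖exp (Th x (gam π) - s * ℓ n π)‖) / (n + 1)) →
          ∃ P, HasProd (fun p : Primitive (surf G) (phiE (fam (1 : W G) w) ε) =>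
              factor (rho x) s p) P ∧
            P * ∏ i, (1 - exp (e i * (x (j i + 1) - x (j i - 1)) - s * l i)) =
              exp (-∑' n : ℕ, (∑ π, exp (Th x (gam π) - s * ℓ n π)) / (n + 1)) := by
  classical
  obtain ⟨ε₀, h0, hC⟩ := exists_ctx (G := G) hw
  refine ⟨ε₀, h0, fun ε hε ℓ hℓ => ?_⟩
  have C : Ctx G w ε := hC ε hε fun σ => by
    obtain ⟨n, π, -, e⟩ := exists_cyc_gp σ
    obtain ⟨E, hE⟩ := hℓ n π
    exact ⟨_, E, e ▸ hE⟩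
  have eℓ : ∀ n π, ℓ n π = LL w ε (gam π) := fun n π => by
    obtain ⟨E, hE⟩ := hℓ n π
    exact (C.LL_eq (gam_mem π) hE).symm
  obtain ⟨σ, hinj, hsur, hfac⟩ := C.exists_xi
  set R : Set (Cy G) := range fun p => (⟦σ p⟧ : Cy G) with hR
  have alt : ∀ O : (Rᶜ : Set (Cy G)), Alt (lt O.1.out) := fun O => by
    by_contra hn
    obtain ⟨p, hp⟩ := hsur _ hn
    exact O.2 ⟨p, hp.trans (Quotient.out_eq _)⟩
  have fin : Finite (Rᶜ : Set (Cy G)) := by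
    choose π hπ using fun O : (Rᶜ : Set (Cy G)) => exists_ofCyc (n := 1) (alt_per (alt O)).1
    refine Finite.of_injective π fun O O' h => Subtype.ext (Quotient.out_injective ?_)
    rw [← hπ, ← hπ, h]
  obtain ⟨k, ⟨φ⟩⟩ := Finite.exists_equiv_fin (Rᶜ : Set (Cy G))
  choose j e he hj using fun O : (Rᶜ : Set (Cy G)) => (alt_per (alt O)).2
  refine ⟨k, fun i => j (φ.symm i), fun i => e (φ.symm i),
    fun i => LL w ε (gp (φ.symm i).1.out), fun i => ⟨he _, (C.pe_gp _).choose_spec.2.1⟩,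
    fun x s hre hsum => ?_⟩
  set A : PS G → ℂ := fun τ => exp (Th x (gp τ) - s * LL w ε (gp τ)) with hA
  have Ash : ∀ τ, A (sh τ) = A τ := fun τ => by
    obtain ⟨δ, hδ, e⟩ := gp_sh τ
    have e' : Th x (gp τ) = Th x (gp (sh τ)) := by rw [e, Th_conj_mem x hδ (gp_mem _)]
    simp only [hA, C.LL_sh, e']
  have Apow : ∀ n (π : Cyc (StE (G := G) 1) n), exp (Th x (gam π) - s * ℓ n π) =
      A (ofCyc π) ^ ((n + 1) / mp (ofCyc π)) := fun n π => by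
    rw [eℓ, C.LL_gam, hA, ← exp_nat_mul]
    conv_lhs => rw [gam_eq_pow, Th_pow x (gp_mem _)]
    congr 1
    push_cast
    ring
  have Alt1 : ∀ τ, ‖A τ‖ < 1 := fun τ => by
    obtain ⟨n, π, -, e⟩ := exists_cyc_gp τ
    have := hre n π
    rw [eℓ, e] at this
    rw [hA, norm_exp, Real.exp_lt_one_iff]
    exact this
  have key := hasProd_cycles (T G) mem_per_sh A Ash Alt1
    (fun n => Finset.univ.map ⟨ofCyc (n := n), ofCyc_inj⟩) (fun n τ => by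
      rw [coe_T, per_sh, Finset.mem_map]
      exact ⟨fun ⟨π, _, h⟩ => h ▸ per_ofCyc π, fun h =>
        (exists_ofCyc h).imp fun π h => ⟨Finset.mem_univ _, h⟩⟩) (by
      simp only [Apow, norm_pow] at hsum
      simpa only [Finset.sum_map] using! hsum)
  obtain ⟨k1, k2⟩ := key
  have hfp : ∀ p, factor (rho x) s p = 1 - A (Quotient.out (⟦σ p⟧ : Cy G)) := fun p => by
    rw [inv_out Ash, hfac]
  have m1 : Multipliable fun p => 1 + -A (Quotient.out (⟦σ p⟧ : Cy G)) :=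
    multipliable_one_add_of_summable (by simpa only [norm_neg] using! k1.comp_injective hinj)
  simp only [← sub_eq_add_neg] at m1
  refine ⟨_, by simpa only [hfp] using! m1.hasProd, ?_⟩
  have p1 : HasProd (fun O : R => 1 - A O.1.out) _ :=
    (hinj.hasProd_range_iff (f := fun O : Cy G => 1 - A O.out)).2 m1.hasProd
  have p2 : HasProd (fun O : (Rᶜ : Set (Cy G)) => 1 - A O.1.out)
      (∏ i, (1 - A (φ.symm i).1.out)) :=
    φ.symm.hasProd_iff.1 (hasProd_fintype _)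
  have p3 := (HasProd.mul_compl (f := fun O : Cy G => 1 - A O.out) p1 p2).unique k2
  simp only [Apow, ← hj]
  simpa only [Finset.sum_map] using! p3

end Pool.Agent.Lib.MP_de7bb2_an
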