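import Pool.Agent.Lib.MP_de7bb2_an.H20RughA
import Pool.Agent.Lib.MP_de7bb2_an.H20Op1

/-! Sums over closed paths. Auxiliary file of TASK RUGH. -/

namespace Pool.Agent.Lib.MP_de7bb2_an

open Metric Set Filter Topology

namespace Rugh

theorem pathMul_eq_pm {κ S : Type*} (B : S → S → Nuc κ) (p : ℕ → S) (k : ℕ) :
    pathMul B p k = pm (fun i => B (p i) (p (i + 1))) k := by
  induction k with
  | zero => rfl
  | succ k ih => rw [pathMul, pm, ih]

theorem pm_eq_zero {κ : Type*} {T : ℕ → Nuc κ} {k i : ℕ} (hi : i ≤ k) (h : T i = 0) :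
    pm T k = 0 := by
  induction k with
  | zero =>
    obtain rfl : i = 0 := by omega
    exact h
  | succ k ih =>
    rcases hi.lt_or_eq with hi | rfl
    · rw [pm, ih (by omega), map_zero]; rfl
    · rw [pm, h, map_zero]

theorem prod_zmod {n : ℕ} (φ : ZMod (n + 1) → ℂ) :
    ∏ i ∈ Finset.range (n + 1), φ i = ∏ i, φ i := by
  rw [Finset.prod_range]
  exact Finset.prod_congr rfl fun i _ => congrArg φ (ZMod.natCast_zmod_val (n := n + 1) i)

open Classical in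
theorem tr_npw_ite {κ S : Type*} [Fintype S] (E : S → S → Prop) (B : S → S → Nuc κ) (n : ℕ) :
    tr (npw (blk fun σ σ' => if E σ σ' then B σ σ' else 0) n) =
      ∑ π : ZMod (n + 1) → S, if ∀ i, E (π i) (π (i + 1)) then
        tr (pm (fun i => B (π i) (π (i + 1))) n) else 0 := by
  rw [tr_npw_blk]
  refine Finset.sum_congr rfl fun π _ => ?_
  rw [pathMul_eq_pm]
  simp only [Nat.cast_succ]
  split_ifs with h
  · simp only [h, if_true]
  · obtain ⟨i, hi⟩ := not_forall.1 h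
    rw [pm_eq_zero (i := i.val) (Nat.lt_succ_iff.1 (ZMod.val_lt i)), map_zero]
    rw [ZMod.natCast_zmod_val, if_neg hi]

open Classical in
theorem sum_cyc {S : Type*} [Fintype S] (E : S → S → Prop) (n : ℕ) (F : (ZMod (n + 1) → S) → ℂ) :
    (∑ π : ZMod (n + 1) → S, if ∀ i, E (π i) (π (i + 1)) then F π else 0) =
      ∑ π : Cyc E n, F π.1 := by
  rw [← Finset.sum_filter]
  exact Finset.sum_subtype _ (fun _ => by simp) _

theorem sum_fin_prod {ι : Type*} [Fintype ι] [DecidableEq ι] (M : ℕ → Matrix ι ι ℂ) (n : ℕ)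
    (N : Matrix ι ι ℂ) :
    ∑ ε : Fin (n + 1) → ι, (∏ i : Fin n, M i (ε i.castSucc) (ε i.succ)) * N (ε (Fin.last n)) (ε 0) =
      (lpr M n * N).trace := by
  induction n generalizing N with
  | zero =>
    rw [lpr, one_mul]
    exact Fintype.sum_equiv (Equiv.funUnique (Fin 1) ι) _ _ fun ε => by simp
  | succ n ih =>
    rw [lpr, mul_assoc, ← ih, ← (Fin.snocEquiv fun _ : Fin (n + 2) => ι).sum_comp,
      Fintype.sum_prod_type, Finset.sum_comm]
    refine Finset.sum_congr rfl fun ε _ => ?_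
    rw [Matrix.mul_apply, Finset.mul_sum]
    refine Finset.sum_congr rfl fun x _ => ?_
    rw [Fin.prod_univ_castSucc, ← mul_assoc]
    simp only [Fin.snocEquiv_apply, Fin.succ_castSucc, Fin.snoc_castSucc, Fin.succ_last,
      Fin.snoc_last, Fin.val_castSucc, Fin.val_last]
    rw [← Fin.castSucc_zero, Fin.snoc_castSucc]

theorem sum_zmod_prod {ι : Type*} [Fintype ι] [DecidableEq ι] {n : ℕ}
    (M : ZMod (n + 1) → Matrix ι ι ℂ) :
    ∑ ε : ZMod (n + 1) → ι, ∏ i, M i (ε i) (ε (i + 1)) = (lpr (fun i : ℕ => M i) (n + 1)).trace := by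
  rw [lpr, ← sum_fin_prod]
  refine Finset.sum_congr rfl fun ε _ => ?_
  refine (Fin.prod_univ_castSucc (n := n) fun i => M i (ε i) (ε (i + 1 : Fin (n + 1)))).trans ?_
  have h1 : ∀ i : Fin n, ((i : ℕ) : ZMod (n + 1)) = i.castSucc := fun i =>
    Fin.ext (ZMod.val_cast_of_lt (i.2.trans n.lt_succ_self))
  have h2 : ((n : ℕ) : ZMod (n + 1)) = Fin.last n := Fin.ext (ZMod.val_cast_of_lt n.lt_succ_self)
  simp only [h1, h2, Fin.coeSucc_eq_succ, Fin.last_add_one]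

theorem lpr_row {M : ℕ → Matrix (Fin 2) (Fin 2) ℂ} (h : ∀ i, M i 0 0 = 1 ∧ M i 0 1 = 0) (k : ℕ) :
    lpr M k 0 0 = 1 ∧ lpr M k 0 1 = 0 := by
  induction k with
  | zero => simp [lpr]
  | succ k ih => simp [lpr, Matrix.mul_apply, Fin.sum_univ_two, ih.1, ih.2, h k]

variable {R q : ℝ}

/-- The trace of the product of pinning operators along a periodic orbit. -/
theorem trace_cyc {n : ℕ} {f g : ZMod (n + 1) → ℂ × ℂ → ℂ} (hR : 1 < R) (hq : q < 1)
    (h : ∀ i, Into R q (f i) ∧ Into R q (g i)) {ξ η : ZMod (n + 1) → ℂ}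
    (hc : ∀ i, ‖ξ i‖ < R ∧ ‖η i‖ < R ∧ f i (ξ i, η (i + 1)) = ξ (i + 1) ∧
      g i (ξ i, η (i + 1)) = η i) :
    ∃ D a b c d : ℂ, (1 - a) * (1 - d) - b * c ≠ 0 ∧
      a = D * ∏ i, dx (f i) (ξ i, η (i + 1)) ∧ d = D * ∏ i, dy (g i) (ξ i, η (i + 1)) ∧
      1 + (a * d - b * c) = D * ∑ ε : ZMod (n + 1) → Fin 2,
        ∏ i, wM (f i) (g i) (ξ i, η (i + 1)) (ε i) (ε (i + 1)) ∧
      ((∀ i, dy (f i) (ξ i, η (i + 1)) = 0) → D = 1 ∧ b = 0) ∧
      ∀ H : ZMod (n + 1) → ℂ × ℂ → ℂ, (∀ i, DifferentiableOn ℂ (H i) (ball 0 R)) →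
        tr (pm (fun i => op2 (f i) (g i) (H i)) n) =
          D * (∏ i, H i (ξ i, η (i + 1))) / ((1 - a) * (1 - d) - b * c) := by
  obtain ⟨D, a, b, c, d, h0, h1, h2, h3, h4⟩ := trace_chain (f := fun i => f i) (g := fun i => g i)
    (k := n) (ξ := fun i => ξ i) (η := fun i => η i) hR hq (fun i _ => h i)
    (fun i _ => by
      simp only [Nat.cast_succ]
      exact ⟨(hc _).1, (hc _).2.1, (hc _).2.2.1, (hc _).2.2.2⟩)
    (by simp) (by simp)
  simp only [Nat.cast_succ] at h1 h2 h3 h4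
  refine ⟨D, a, b, c, d, h0, ?_, ?_, ?_, fun hy => ?_, fun H hH => ?_⟩
  · rw [h1, prod_zmod fun i => dx (f i) (ξ i, η (i + 1))]
  · rw [h2, prod_zmod fun i => dy (g i) (ξ i, η (i + 1))]
  · rw [sum_zmod_prod fun i => wM (f i) (g i) (ξ i, η (i + 1)), ← smul_eq_mul D, ← Matrix.trace_smul,
      ← h3, Matrix.trace_fin_two_of]
  · have h5 := lpr_row (M := fun i : ℕ => wM (f i) (g i) (ξ i, η (i + 1)))
      (fun i => by simp [wM, hy]) (n + 1)
    have h6 := congrFun (congrFun h3 0) 0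
    have h7 := congrFun (congrFun h3 0) 1
    rw [Matrix.smul_apply, h5.1] at h6
    rw [Matrix.smul_apply, h5.2] at h7
    exact ⟨by simpa using h6.symm, by simpa using h7⟩
  · rw [h4 (fun i => H i) fun i _ => hH i, prod_zmod fun i => H i (ξ i, η (i + 1))]

/-- Existence of the periodic orbit. -/
theorem exists_cyc {n : ℕ} {f g : ZMod (n + 1) → ℂ × ℂ → ℂ} (hR : 1 < R) (hq : q < 1)
    (h : ∀ i, Into R q (f i) ∧ Into R q (g i)) : ∃ ξ η : ZMod (n + 1) → ℂ,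
      (∀ i, ‖ξ i‖ < R ∧ ‖η i‖ < R ∧ f i (ξ i, η (i + 1)) = ξ (i + 1) ∧
        g i (ξ i, η (i + 1)) = η i) ∧
      ((∀ i, RealOn R (f i) ∧ RealOn R (g i)) → ∀ i, (ξ i).im = 0 ∧ (η i).im = 0) := by
  obtain ⟨F, G, D, hF⟩ := exists_comp (f := fun i => f i) (g := fun i => g i) hR hq n
    fun i _ => h i
  obtain ⟨⟨x, y⟩, hp, e1, e2, hr⟩ := exists_fix2 hR hq hF.hF hF.hG
  have hp' := mem_ball2.1 (mem_ball_zero_iff.2 (hp.trans_lt (hq.trans hR)))
  obtain ⟨ξ, η, hc, rfl, rfl, h3⟩ := hF.ex x y hp'.1 hp'.2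
  obtain ⟨b1, b2, -⟩ := hF.val ξ η hc
  have key : ∀ φ : ℕ → ℂ, φ (n + 1) = φ 0 → ∀ i : ZMod (n + 1), φ (i + 1).val = φ (i.val + 1) := by
    intro φ hφ i
    have hi := Nat.lt_succ_iff.1 (ZMod.val_lt i)
    rw [← ZMod.natCast_zmod_val i, ← Nat.cast_succ, ZMod.val_natCast, ZMod.natCast_zmod_val]
    rcases hi.lt_or_eq with hi | hi
    · rw [Nat.mod_eq_of_lt (Nat.succ_lt_succ hi)]
    · rw [hi, Nat.succ_eq_add_one, Nat.mod_self, hφ]
  refine ⟨fun i => ξ i.val, fun i => η i.val, fun i => ?_, fun hre i => ?_⟩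
  · have hi := Nat.lt_succ_iff.1 (ZMod.val_lt i)
    obtain ⟨c1, c2, c3, c4⟩ := hc i.val hi
    simp only [ZMod.natCast_zmod_val] at c3 c4
    simp only [key ξ (b1.symm.trans e1), key η (e2.symm.trans b2)]
    refine ⟨c1, ?_, c3, c4⟩
    rw [← c4]
    exact ((h i).2.2 _ (mem_ball2.2 ⟨c1, c2⟩)).trans_lt (hq.trans hR)
  · have h4 := hF.real fun i _ => hre i
    have h5 := hr fun a b ha hb => ⟨realOn_iff.1 h4.1 a b ha hb, realOn_iff.1 h4.2 a b ha hb⟩
    exact h3 (fun i _ => hre i) h5.1 h5.2 _ (ZMod.val_lt i).le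

end Rugh

end Pool.Agent.Lib.MP_de7bb2_an
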