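import Pool.Agent.Lib.MP_de7bb2_an.H20Pin2
import Pool.Agent.Lib.MP_de7bb2_an.H20Op1
import Pool.Agent.Lib.MP_de7bb2_an.H20RughB

/-! The three determinants of a system of cross maps. TASK RUGH. -/

namespace Pool.Agent.Lib.MP_de7bb2_an

open Metric Set Filter Topology

/-- The matrix weight of the even sector. -/
noncomputable def wO (f g : ℂ × ℂ → ℂ) (i j : Fin 2) (p : ℂ × ℂ) : ℂ :=
  (!![1, dy f p; -dx g p, dx f p * dy g p - dy f p * dx g p] : Matrix (Fin 2) (Fin 2) ℂ) i j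

variable {S : Type*} [Fintype S]

open Classical in
noncomputable def sysO (E : S → S → Prop) (f g w : S → S → ℂ × ℂ → ℂ) :
    Nuc ((S × Fin 2) × ℕ × ℕ) :=
  blk fun σ σ' => if E σ.1 σ'.1 then
    op2 (f σ.1 σ'.1) (g σ.1 σ'.1) (fun p => w σ.1 σ'.1 p * wO (f σ.1 σ'.1) (g σ.1 σ'.1) σ.2 σ'.2 p)
    else 0

open Classical in
noncomputable def sysA (E : S → S → Prop) (f g w : S → S → ℂ × ℂ → ℂ) : Nuc (S × ℕ × ℕ) :=
  blk fun σ σ' => if E σ σ' then op2 (f σ σ') (g σ σ') (fun p => w σ σ' p * dx (f σ σ') p) else 0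

open Classical in
noncomputable def sysD (E : S → S → Prop) (f g w : S → S → ℂ × ℂ → ℂ) : Nuc (S × ℕ × ℕ) :=
  blk fun σ σ' => if E σ σ' then op2 (f σ σ') (g σ σ') (fun p => w σ σ' p * dy (g σ σ') p) else 0

/-- Periodic orbit of the cross maps along a closed path. -/
def IsOrb {n : ℕ} (R : ℝ) (f g : S → S → ℂ × ℂ → ℂ) (π : ZMod (n + 1) → S)
    (ξ η : ZMod (n + 1) → ℂ) : Prop :=
  ∀ i, ‖ξ i‖ < R ∧ ‖η i‖ < R ∧ f (π i) (π (i + 1)) (ξ i, η (i + 1)) = ξ (i + 1) ∧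
    g (π i) (π (i + 1)) (ξ i, η (i + 1)) = η i

variable {E : S → S → Prop} {f g w : S → S → ℂ × ℂ → ℂ} {R q : ℝ}

theorem exists_orb (hR : 1 < R) (hq : q < 1)
    (hfg : ∀ σ σ', E σ σ' → Into R q (f σ σ') ∧ Into R q (g σ σ')) {n : ℕ} (π : Cyc E n) :
    ∃ ξ η, IsOrb R f g π.1 ξ η ∧
      ((∀ σ σ', E σ σ' → ∀ x y : ℝ, |x| < R → |y| < R →
        (f σ σ' (x, y)).im = 0 ∧ (g σ σ' (x, y)).im = 0) →
          ∀ i, (ξ i).im = 0 ∧ (η i).im = 0) := by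
  obtain ⟨ξ, η, h1, h2⟩ := Rugh.exists_cyc (f := fun i => f (π.1 i) (π.1 (i + 1)))
    (g := fun i => g (π.1 i) (π.1 (i + 1))) hR hq fun i => hfg _ _ (π.2 i)
  exact ⟨ξ, η, h1, fun h => h2 fun i =>
    ⟨Rugh.realOn_iff.2 fun x y hx hy => (h _ _ (π.2 i) x y hx hy).1,
      Rugh.realOn_iff.2 fun x y hx hy => (h _ _ (π.2 i) x y hx hy).2⟩⟩

namespace Rugh

theorem diff_wO {f g : ℂ × ℂ → ℂ} (hf : Into R q f) (hg : Into R q g) (i j : Fin 2) :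
    DifferentiableOn ℂ (wO f g i j) (ball 0 R) := by
  fin_cases i <;> fin_cases j
  · exact differentiableOn_const 1
  · exact diff_dy hf.1
  · exact (diff_dx hg.1).neg
  · exact ((diff_dx hf.1).mul (diff_dy hg.1)).sub ((diff_dy hf.1).mul (diff_dx hg.1))

theorem traces (hR : 1 < R) (hq : q < 1)
    (hfg : ∀ σ σ', E σ σ' → Into R q (f σ σ') ∧ Into R q (g σ σ'))
    (hw : ∀ σ σ', E σ σ' → DifferentiableOn ℂ (w σ σ') (ball 0 R)) (n : ℕ)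
    (ξ η : Cyc E n → ZMod (n + 1) → ℂ) (horb : ∀ π, IsOrb R f g π.1 (ξ π) (η π))
    (u : Cyc E n → ℂ) (hu : ∀ π, u π = ∏ i, w (π.1 i) (π.1 (i + 1)) (ξ π i, η π (i + 1))) :
    ∃ D a b c d : Cyc E n → ℂ, (∀ π, (1 - a π) * (1 - d π) - b π * c π ≠ 0 ∧
      a π = D π * ∏ i, dx (f (π.1 i) (π.1 (i + 1))) (ξ π i, η π (i + 1)) ∧
      d π = D π * ∏ i, dy (g (π.1 i) (π.1 (i + 1))) (ξ π i, η π (i + 1)) ∧
      ((∀ i, dy (f (π.1 i) (π.1 (i + 1))) (ξ π i, η π (i + 1)) = 0) → D π = 1 ∧ b π = 0)) ∧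
      tr (npw (sysO E f g w) n) = ∑ π, u π * (1 + (a π * d π - b π * c π)) /
        ((1 - a π) * (1 - d π) - b π * c π) ∧
      tr (npw (sysA E f g w) n) = ∑ π, u π * a π / ((1 - a π) * (1 - d π) - b π * c π) ∧
      tr (npw (sysD E f g w) n) = ∑ π, u π * d π / ((1 - a π) * (1 - d π) - b π * c π) := by
  classical
  choose D a b c d h0 h1 h2 h3 h4 h5 using fun π : Cyc E n => trace_cyc
    (f := fun i => f (π.1 i) (π.1 (i + 1))) (g := fun i => g (π.1 i) (π.1 (i + 1))) hR hq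
    (fun i => hfg _ _ (π.2 i)) (horb π)
  refine ⟨D, a, b, c, d, fun π => ⟨h0 π, h1 π, h2 π, h4 π⟩, ?_, ?_, ?_⟩
  · rw [sysO, tr_npw_ite (fun σ σ' : S × Fin 2 => E σ.1 σ'.1),
      ← (Equiv.arrowProdEquivProdArrow _ _ _).symm.sum_comp, Fintype.sum_prod_type]
    simp only [Equiv.arrowProdEquivProdArrow_symm_apply, Finset.sum_ite_irrel,
      Finset.sum_const_zero]
    rw [sum_cyc]
    refine Finset.sum_congr rfl fun π _ => ?_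
    rw [h3, hu, Finset.mul_sum, Finset.mul_sum, Finset.sum_div]
    refine Finset.sum_congr rfl fun ε _ => ?_
    rw [h5 π (fun i p => w (π.1 i) (π.1 (i + 1)) p *
      wO (f (π.1 i) (π.1 (i + 1))) (g (π.1 i) (π.1 (i + 1))) (ε i) (ε (i + 1)) p) fun i =>
        (hw _ _ (π.2 i)).mul (diff_wO (hfg _ _ (π.2 i)).1 (hfg _ _ (π.2 i)).2 _ _),
      Finset.prod_mul_distrib, mul_left_comm]
    rfl
  · rw [sysA, tr_npw_ite, sum_cyc]
    refine Finset.sum_congr rfl fun π _ => ?_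
    rw [h5 π (fun i p => w (π.1 i) (π.1 (i + 1)) p * dx (f (π.1 i) (π.1 (i + 1))) p) fun i =>
        (hw _ _ (π.2 i)).mul (diff_dx (hfg _ _ (π.2 i)).1.1),
      Finset.prod_mul_distrib, mul_left_comm, ← h1, hu]
  · rw [sysD, tr_npw_ite, sum_cyc]
    refine Finset.sum_congr rfl fun π _ => ?_
    rw [h5 π (fun i p => w (π.1 i) (π.1 (i + 1)) p * dy (g (π.1 i) (π.1 (i + 1))) p) fun i =>
        (hw _ _ (π.2 i)).mul (diff_dy (hfg _ _ (π.2 i)).2.1),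
      Finset.prod_mul_distrib, mul_left_comm, ← h2, hu]

theorem fderiv_fst' {f : ℂ × ℂ → ℂ} {ψ : ℂ → ℂ} (hψ : Into R q ψ)
    (h : ∀ p ∈ ball (0 : ℂ × ℂ) R, f p = ψ p.1) {p : ℂ × ℂ} (hp : p ∈ ball (0 : ℂ × ℂ) R)
    (v : ℂ × ℂ) : fderiv ℂ f p v = deriv ψ p.1 * v.1 := by
  have h1 := (hψ.1.differentiableAt (isOpen_ball.mem_nhds (mem_ball_zero_iff.2
    (mem_ball2.1 hp).1))).hasDerivAt.hasFDerivAt.comp p hasFDerivAt_fst
  rw [(h1.congr_of_eventuallyEq (eventually_of_mem (isOpen_ball.mem_nhds hp) h)).fderiv]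
  simp [mul_comm]

theorem fderiv_snd' {f : ℂ × ℂ → ℂ} {ψ : ℂ → ℂ} (hψ : Into R q ψ)
    (h : ∀ p ∈ ball (0 : ℂ × ℂ) R, f p = ψ p.2) {p : ℂ × ℂ} (hp : p ∈ ball (0 : ℂ × ℂ) R)
    (v : ℂ × ℂ) : fderiv ℂ f p v = deriv ψ p.2 * v.2 := by
  have h1 := (hψ.1.differentiableAt (isOpen_ball.mem_nhds (mem_ball_zero_iff.2
    (mem_ball2.1 hp).2))).hasDerivAt.hasFDerivAt.comp p hasFDerivAt_snd
  rw [(h1.congr_of_eventuallyEq (eventually_of_mem (isOpen_ball.mem_nhds hp) h)).fderiv]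
  simp [mul_comm]

theorem into_fst {f : ℂ × ℂ → ℂ} {ψ : ℂ → ℂ} (hψ : Into R q ψ)
    (h : ∀ p ∈ ball (0 : ℂ × ℂ) R, f p = ψ p.1) : Into R q f :=
  ⟨(hψ.1.comp differentiableOn_fst fun _ hp => mem_ball_zero_iff.2 (mem_ball2.1 hp).1).congr h,
    fun p hp => h p hp ▸ hψ.2 _ (mem_ball_zero_iff.2 (mem_ball2.1 hp).1)⟩

theorem into_snd {f : ℂ × ℂ → ℂ} {ψ : ℂ → ℂ} (hψ : Into R q ψ)
    (h : ∀ p ∈ ball (0 : ℂ × ℂ) R, f p = ψ p.2) : Into R q f :=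
  ⟨(hψ.1.comp differentiableOn_snd fun _ hp => mem_ball_zero_iff.2 (mem_ball2.1 hp).2).congr h,
    fun p hp => h p hp ▸ hψ.2 _ (mem_ball_zero_iff.2 (mem_ball2.1 hp).2)⟩

end Rugh

theorem tr_alt (hR : 1 < R) (hq : q < 1)
    (hfg : ∀ σ σ', E σ σ' → Into R q (f σ σ') ∧ Into R q (g σ σ'))
    (hw : ∀ σ σ', E σ σ' → DifferentiableOn ℂ (w σ σ') (ball 0 R)) (n : ℕ)
    (ξ η : Cyc E n → ZMod (n + 1) → ℂ) (horb : ∀ π, IsOrb R f g π.1 (ξ π) (η π)) :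
    tr (npw (sysO E f g w) n) - tr (npw (sysA E f g w) n) - tr (npw (sysD E f g w) n) =
      ∑ π : Cyc E n, ∏ i, w (π.1 i) (π.1 (i + 1)) (ξ π i, η π (i + 1)) := by
  obtain ⟨D, a, b, c, d, h, h1, h2, h3⟩ := Rugh.traces hR hq hfg hw n ξ η horb _ fun _ => rfl
  rw [h1, h2, h3, ← Finset.sum_sub_distrib, ← Finset.sum_sub_distrib]
  refine Finset.sum_congr rfl fun π _ => ?_
  rw [← sub_div, ← sub_div, div_eq_iff (h π).1]
  ring

/-- The three traces for product maps. -/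
theorem tr_prod {ψs ψu : S → S → ℂ → ℂ} (hR : 1 < R) (hq : q < 1)
    (hψ : ∀ σ σ', E σ σ' → Into R q (ψs σ σ') ∧ Into R q (ψu σ σ'))
    (hf : ∀ σ σ', E σ σ' → ∀ p ∈ ball (0 : ℂ × ℂ) R, f σ σ' p = ψs σ σ' p.1 ∧ g σ σ' p = ψu σ σ' p.2)
    (hw : ∀ σ σ', E σ σ' → DifferentiableOn ℂ (w σ σ') (ball 0 R)) (n : ℕ)
    (ξ η : Cyc E n → ZMod (n + 1) → ℂ) (horb : ∀ π, IsOrb R f g π.1 (ξ π) (η π))
    (a d c : Cyc E n → ℂ) (ha : ∀ π, a π = ∏ i, deriv (ψs (π.1 i) (π.1 (i + 1))) (ξ π i))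
    (hd : ∀ π, d π = ∏ i, deriv (ψu (π.1 i) (π.1 (i + 1))) (η π (i + 1)))
    (hc : ∀ π, c π = ∏ i, w (π.1 i) (π.1 (i + 1)) (ξ π i, η π (i + 1))) :
    tr (npw (sysO E f g w) n) = ∑ π, c π * (1 + a π * d π) / ((1 - a π) * (1 - d π)) ∧
    tr (npw (sysA E f g w) n) = ∑ π, c π * a π / ((1 - a π) * (1 - d π)) ∧
    tr (npw (sysD E f g w) n) = ∑ π, c π * d π / ((1 - a π) * (1 - d π)) := by
  obtain ⟨D, a', b, c', d', h, h1, h2, h3⟩ := Rugh.traces hR hq (fun σ σ' he =>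
    ⟨Rugh.into_fst (hψ σ σ' he).1 fun p hp => (hf σ σ' he p hp).1,
      Rugh.into_snd (hψ σ σ' he).2 fun p hp => (hf σ σ' he p hp).2⟩) hw n ξ η horb c hc
  have key : ∀ π, a' π = a π ∧ d' π = d π ∧ b π = 0 := fun π => by
    have hp : ∀ i, (ξ π i, η π (i + 1)) ∈ ball (0 : ℂ × ℂ) R := fun i =>
      Rugh.mem_ball2.2 ⟨(horb π i).1, (horb π (i + 1)).2.1⟩
    have e1 := fun i => Rugh.fderiv_fst' (hψ _ _ (π.2 i)).1
      (fun p hp => (hf _ _ (π.2 i) p hp).1) (hp i)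
    have e2 := fun i => Rugh.fderiv_snd' (hψ _ _ (π.2 i)).2
      (fun p hp => (hf _ _ (π.2 i) p hp).2) (hp i)
    obtain ⟨-, h4, h5, h6⟩ := h π
    obtain ⟨h7, h8⟩ := h6 fun i => by rw [dy, e1, mul_zero]
    refine ⟨?_, ?_, h8⟩
    · rw [h4, h7, one_mul, ha]
      exact Finset.prod_congr rfl fun i _ => by rw [dx, e1, mul_one]
    · rw [h5, h7, one_mul, hd]
      exact Finset.prod_congr rfl fun i _ => by rw [dy, e2, mul_one]
  rw [h1, h2, h3]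
  simp only [fun π => (key π).1, fun π => (key π).2.1, fun π => (key π).2.2, zero_mul, sub_zero,
    and_self]

end Pool.Agent.Lib.MP_de7bb2_an
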