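import Pool.Agent.Lib.MP_de7bb2_an.H20Pin2

/-! Composition of cross maps along a path. Auxiliary file of TASK RUGH. -/

namespace Pool.Agent.Lib.MP_de7bb2_an

open Metric Set Filter Topology

namespace Rugh

/-- Product of the operators `T 0, ..., T n`. -/
noncomputable def pm {κ : Type*} (T : ℕ → Nuc κ) : ℕ → Nuc κ
  | 0 => T 0
  | n + 1 => nmul (pm T n) (T (n + 1))

/-- Product of the matrices `M 0, ..., M (n - 1)`. -/
noncomputable def lpr {ι : Type*} [Fintype ι] [DecidableEq ι] (M : ℕ → Matrix ι ι ℂ) :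
    ℕ → Matrix ι ι ℂ
  | 0 => 1
  | n + 1 => lpr M n * M n

/-- The matrix weight of the even sector. -/
noncomputable def wM (f g : ℂ × ℂ → ℂ) (p : ℂ × ℂ) : Matrix (Fin 2) (Fin 2) ℂ :=
  !![1, dy f p; -dx g p, dx f p * dy g p - dy f p * dx g p]

/-- Chains of points along a sequence of cross maps. -/
def Chain (R : ℝ) (f g : ℕ → ℂ × ℂ → ℂ) (k : ℕ) (ξ η : ℕ → ℂ) : Prop :=
  ∀ i ≤ k, ‖ξ i‖ < R ∧ ‖η (i + 1)‖ < R ∧ f i (ξ i, η (i + 1)) = ξ (i + 1) ∧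
    g i (ξ i, η (i + 1)) = η i

/-- Real values at real points. -/
def RealOn (R : ℝ) (f : ℂ × ℂ → ℂ) : Prop :=
  ∀ x y : ℂ, ‖x‖ < R → ‖y‖ < R → x.im = 0 → y.im = 0 → (f (x, y)).im = 0

variable {R q : ℝ}

theorem realOn_iff {f : ℂ × ℂ → ℂ} :
    RealOn R f ↔ ∀ x y : ℝ, |x| < R → |y| < R → (f (x, y)).im = 0 := by
  refine ⟨fun h x y hx hy => h x y (by simpa using hx) (by simpa using hy) rfl rfl,
    fun h x y hx hy h1 h2 => ?_⟩
  have e1 : x = (x.re : ℂ) := Complex.ext rfl (by simpa using h1)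
  have e2 : y = (y.re : ℂ) := Complex.ext rfl (by simpa using h2)
  rw [e1, e2]
  exact h _ _ ((Complex.abs_re_le_norm x).trans_lt hx) ((Complex.abs_re_le_norm y).trans_lt hy)

theorem mem_ball2 {x y : ℂ} : (x, y) ∈ ball (0 : ℂ × ℂ) R ↔ ‖x‖ < R ∧ ‖y‖ < R := by
  rw [mem_ball_zero_iff, Prod.norm_mk, max_lt_iff]

theorem fderiv_pair (φ : ℂ × ℂ → ℂ) (p : ℂ × ℂ) (s t : ℂ) :
    fderiv ℂ φ p (s, t) = dx φ p * s + dy φ p * t := by
  have : (s, t) = s • ((1 : ℂ), (0 : ℂ)) + t • ((0 : ℂ), (1 : ℂ)) := by simp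
  rw [this, map_add, map_smul, map_smul, dx, dy, smul_eq_mul, smul_eq_mul]; ring

theorem fderiv_comp2 {φ A B : ℂ × ℂ → ℂ} {p : ℂ × ℂ} (hφ : DifferentiableAt ℂ φ (A p, B p))
    (hA : DifferentiableAt ℂ A p) (hB : DifferentiableAt ℂ B p) (v : ℂ × ℂ) :
    fderiv ℂ (fun p => φ (A p, B p)) p v =
      dx φ (A p, B p) * fderiv ℂ A p v + dy φ (A p, B p) * fderiv ℂ B p v := by
  have h := hφ.hasFDerivAt.comp p (hA.hasFDerivAt.prodMk hB.hasFDerivAt)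
  have h2 : fderiv ℂ (fun p => φ (A p, B p)) p = _ := h.fderiv
  rw [h2, ← fderiv_pair]; rfl

theorem _root_.Pool.Agent.Lib.MP_de7bb2_an.Into.dat {f : ℂ × ℂ → ℂ} (h : Into R q f) {p : ℂ × ℂ}
    (hp : p ∈ ball (0 : ℂ × ℂ) R) : DifferentiableAt ℂ f p :=
  h.1.differentiableAt (isOpen_ball.mem_nhds hp)

section step

variable {f₁ g₁ f₂ g₂ Y : ℂ × ℂ → ℂ}

theorem maps1 (hR : 1 < R) (hq : q < 1) (hY : Into R q Y) {p : ℂ × ℂ}
    (hp : p ∈ ball (0 : ℂ × ℂ) R) : (p.1, Y p) ∈ ball (0 : ℂ × ℂ) R :=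
  mem_ball2.2 ⟨(mem_ball2.1 hp).1, (hY.2 p hp).trans_lt (hq.trans hR)⟩

theorem maps2 (hR : 1 < R) (hq : q < 1) (hf₁ : Into R q f₁) (hY : Into R q Y) {p : ℂ × ℂ}
    (hp : p ∈ ball (0 : ℂ × ℂ) R) : (f₁ (p.1, Y p), p.2) ∈ ball (0 : ℂ × ℂ) R :=
  mem_ball2.2 ⟨(hf₁.2 _ (maps1 hR hq hY hp)).trans_lt (hq.trans hR), (mem_ball2.1 hp).2⟩

theorem diff1 (hR : 1 < R) (hq : q < 1) (hY : Into R q Y) {H : ℂ × ℂ → ℂ}
    (hH : DifferentiableOn ℂ H (ball 0 R)) :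
    DifferentiableOn ℂ (fun p => H (p.1, Y p)) (ball 0 R) :=
  hH.comp (differentiableOn_fst.prodMk hY.1) fun _ hp => maps1 hR hq hY hp

theorem diff2 (hR : 1 < R) (hq : q < 1) (hf₁ : Into R q f₁) (hY : Into R q Y) {H : ℂ × ℂ → ℂ}
    (hH : DifferentiableOn ℂ H (ball 0 R)) :
    DifferentiableOn ℂ (fun p => H (f₁ (p.1, Y p), p.2)) (ball 0 R) :=
  hH.comp ((diff1 hR hq hY hf₁.1).prodMk differentiableOn_snd) fun _ hp => maps2 hR hq hf₁ hY hp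

theorem den_ne (hR : 1 < R) (hq : q < 1) (hf₁ : Into R q f₁) (hg₂ : Into R q g₂) (hY : Into R q Y)
    (hfix : ∀ p ∈ ball (0 : ℂ × ℂ) R, g₂ (f₁ (p.1, Y p), p.2) = Y p) {p : ℂ × ℂ}
    (hp : p ∈ ball (0 : ℂ × ℂ) R) : 1 - dy f₁ (p.1, Y p) * dx g₂ (f₁ (p.1, Y p), p.2) ≠ 0 :=
  mid_den_ne hR hq hf₁ hg₂ (mem_ball2.1 hp).1 (mem_ball2.1 (maps1 hR hq hY hp)).2
    (mem_ball2.1 hp).2 (hfix p hp)

theorem diff_dx {f : ℂ × ℂ → ℂ} (h : DifferentiableOn ℂ f (ball 0 R)) :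
    DifferentiableOn ℂ (dx f) (ball 0 R) :=
  MP_08f711_an.differentiableOn_fderiv_apply isOpen_ball h _

theorem diff_dy {f : ℂ × ℂ → ℂ} (h : DifferentiableOn ℂ f (ball 0 R)) :
    DifferentiableOn ℂ (dy f) (ball 0 R) :=
  MP_08f711_an.differentiableOn_fderiv_apply isOpen_ball h _

/-- Derivatives of the composite cross map. -/
theorem step_deriv (hR : 1 < R) (hq : q < 1) (hf₁ : Into R q f₁) (hg₁ : Into R q g₁)
    (hf₂ : Into R q f₂) (hg₂ : Into R q g₂) (hY : Into R q Y)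
    (hfix : ∀ p ∈ ball (0 : ℂ × ℂ) R, g₂ (f₁ (p.1, Y p), p.2) = Y p) {p : ℂ × ℂ}
    (hp : p ∈ ball (0 : ℂ × ℂ) R) {Δ : ℂ}
    (hΔ : Δ = 1 - dy f₁ (p.1, Y p) * dx g₂ (f₁ (p.1, Y p), p.2)) :
    dx (fun p => f₂ (f₁ (p.1, Y p), p.2)) p =
        dx f₁ (p.1, Y p) * dx f₂ (f₁ (p.1, Y p), p.2) / Δ ∧
      dy (fun p => g₁ (p.1, Y p)) p = dy g₁ (p.1, Y p) * dy g₂ (f₁ (p.1, Y p), p.2) / Δ ∧
      wM (fun p => f₂ (f₁ (p.1, Y p), p.2)) (fun p => g₁ (p.1, Y p)) p =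
        Δ⁻¹ • (wM f₁ g₁ (p.1, Y p) * wM f₂ g₂ (f₁ (p.1, Y p), p.2)) := by
  have h0 : Δ ≠ 0 := hΔ ▸ den_ne hR hq hf₁ hg₂ hY hfix hp
  have m1 := maps1 hR hq hY hp
  have m2 := maps2 hR hq hf₁ hY hp
  have dY := hY.dat hp
  have dF : DifferentiableAt ℂ (fun p => f₁ (p.1, Y p)) p :=
    (diff1 hR hq hY hf₁.1).differentiableAt (isOpen_ball.mem_nhds hp)
  have e1 : ∀ φ : ℂ × ℂ → ℂ, Into R q φ → ∀ v, fderiv ℂ (fun p => φ (p.1, Y p)) p v =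
      dx φ (p.1, Y p) * v.1 + dy φ (p.1, Y p) * fderiv ℂ Y p v := fun φ hφ v => by
    rw [fderiv_comp2 (A := Prod.fst) (hφ.dat m1) differentiableAt_fst dY, fderiv_fst]; rfl
  have e2 : ∀ φ : ℂ × ℂ → ℂ, Into R q φ → ∀ v, fderiv ℂ (fun p => φ (f₁ (p.1, Y p), p.2)) p v =
      dx φ (f₁ (p.1, Y p), p.2) * (dx f₁ (p.1, Y p) * v.1 + dy f₁ (p.1, Y p) * fderiv ℂ Y p v) +
        dy φ (f₁ (p.1, Y p), p.2) * v.2 := fun φ hφ v => by
    rw [fderiv_comp2 (A := fun p => f₁ (p.1, Y p)) (B := Prod.snd) (hφ.dat m2) dF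
      differentiableAt_snd, fderiv_snd, e1 f₁ hf₁]; rfl
  have e3 : fderiv ℂ (fun p => g₂ (f₁ (p.1, Y p), p.2)) p = fderiv ℂ Y p :=
    Filter.EventuallyEq.fderiv_eq (eventually_of_mem (isOpen_ball.mem_nhds hp) hfix)
  have y1 := e2 g₂ hg₂ (1, 0)
  have y2 := e2 g₂ hg₂ (0, 1)
  rw [e3] at y1 y2
  have a0 := e2 f₂ hf₂ (1, 0)
  have b0 := e2 f₂ hf₂ (0, 1)
  have c0 := e1 g₁ hg₁ (1, 0)
  have d0 := e1 g₁ hg₁ (0, 1)
  simp only [wM]
  change dx _ p = _ at a0 c0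
  change dy _ p = _ at b0 d0
  rw [a0, b0, c0, d0]
  generalize fderiv ℂ Y p (1, 0) = s at *
  generalize fderiv ℂ Y p (0, 1) = t at *
  generalize dx f₁ (p.1, Y p) = a1 at *
  generalize dy f₁ (p.1, Y p) = b1 at *
  generalize dx g₁ (p.1, Y p) = c1 at *
  generalize dy g₁ (p.1, Y p) = d1 at *
  generalize dx f₂ (f₁ (p.1, Y p), p.2) = a2 at *
  generalize dy f₂ (f₁ (p.1, Y p), p.2) = b2 at *
  generalize dx g₂ (f₁ (p.1, Y p), p.2) = c2 at *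
  generalize dy g₂ (f₁ (p.1, Y p), p.2) = d2 at *
  simp only [mul_one, mul_zero, add_zero, zero_add] at y1 y2 ⊢
  have hs : s = c2 * a1 / Δ := by rw [eq_div_iff h0, hΔ]; linear_combination y1
  have ht : t = d2 / Δ := by rw [eq_div_iff h0, hΔ]; linear_combination y2
  rw [hs, ht]
  refine ⟨by field_simp; rw [hΔ]; ring, by ring, ?_⟩
  ext i j
  fin_cases i <;> fin_cases j <;> simp [Matrix.mul_apply, Fin.sum_univ_two] <;> field_simp <;>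
    rw [hΔ] <;> ring

end step

/-- The composite cross map of a path. -/
structure Comp (R q : ℝ) (f g : ℕ → ℂ × ℂ → ℂ) (k : ℕ) (F G D : ℂ × ℂ → ℂ) : Prop where
  hF : Into R q F
  hG : Into R q G
  op : ∀ H : ℕ → ℂ × ℂ → ℂ, (∀ i ≤ k, DifferentiableOn ℂ (H i) (ball 0 R)) →
    ∃ W : ℂ × ℂ → ℂ, DifferentiableOn ℂ W (ball 0 R) ∧
      pm (fun i => op2 (f i) (g i) (H i)) k = op2 F G W ∧
      ∀ ξ η, Chain R f g k ξ η → W (ξ 0, η (k + 1)) =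
        D (ξ 0, η (k + 1)) * ∏ i ∈ Finset.range (k + 1), H i (ξ i, η (i + 1))
  val : ∀ ξ η, Chain R f g k ξ η → F (ξ 0, η (k + 1)) = ξ (k + 1) ∧ G (ξ 0, η (k + 1)) = η 0 ∧
    dx F (ξ 0, η (k + 1)) =
      D (ξ 0, η (k + 1)) * ∏ i ∈ Finset.range (k + 1), dx (f i) (ξ i, η (i + 1)) ∧
    dy G (ξ 0, η (k + 1)) =
      D (ξ 0, η (k + 1)) * ∏ i ∈ Finset.range (k + 1), dy (g i) (ξ i, η (i + 1)) ∧
    wM F G (ξ 0, η (k + 1)) =
      D (ξ 0, η (k + 1)) • lpr (fun i => wM (f i) (g i) (ξ i, η (i + 1))) (k + 1)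
  ex : ∀ x y, ‖x‖ < R → ‖y‖ < R → ∃ ξ η, Chain R f g k ξ η ∧ ξ 0 = x ∧ η (k + 1) = y ∧
    ((∀ i ≤ k, RealOn R (f i) ∧ RealOn R (g i)) → x.im = 0 → y.im = 0 →
      ∀ i ≤ k + 1, (ξ i).im = 0 ∧ (η i).im = 0)

variable {f g : ℕ → ℂ × ℂ → ℂ} {k : ℕ} {F G D : ℂ × ℂ → ℂ}

theorem Comp.real (h : Comp R q f g k F G D) (hr : ∀ i ≤ k, RealOn R (f i) ∧ RealOn R (g i)) :
    RealOn R F ∧ RealOn R G := by
  constructor <;> intro x y hx hy h1 h2 <;> obtain ⟨ξ, η, hc, rfl, rfl, h3⟩ := h.ex x y hx hy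
  · rw [(h.val ξ η hc).1]; exact (h3 hr h1 h2 _ le_rfl).1
  · rw [(h.val ξ η hc).2.1]; exact (h3 hr h1 h2 0 (Nat.zero_le _)).2

theorem comp_zero (hf : Into R q (f 0)) (hg : Into R q (g 0)) :
    Comp R q f g 0 (f 0) (g 0) fun _ => 1 := by
  refine ⟨hf, hg, fun H hH => ⟨H 0, hH 0 le_rfl, rfl, fun ξ η _ => by simp⟩,
    fun ξ η hc => ⟨(hc 0 le_rfl).2.2.1, (hc 0 le_rfl).2.2.2, by simp, by simp, by simp [lpr]⟩,
    fun x y hx hy => ⟨fun i => if i = 0 then x else f 0 (x, y),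
      fun i => if i = 0 then g 0 (x, y) else y, fun i hi => ?_, rfl, rfl, fun hr h1 h2 i _ => ?_⟩⟩
  · obtain rfl : i = 0 := by omega
    simp [hx, hy]
  · have := hr 0 le_rfl
    by_cases h : i = 0 <;> simp [h, h1, h2, this.1 x y hx hy h1 h2, this.2 x y hx hy h1 h2]

theorem Comp.succ (hR : 1 < R) (hq : q < 1) (h : Comp R q f g k F G D)
    (hf : Into R q (f (k + 1))) (hg : Into R q (g (k + 1))) :
    ∃ F' G' D', Comp R q f g (k + 1) F' G' D' := by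
  obtain ⟨Y, hY, hfix, hYr⟩ := exists_mid hR hq h.hF hg
  have hres : ∀ ξ η, Chain R f g (k + 1) ξ η → Chain R f g k ξ η := fun ξ η hc i hi =>
    hc i (by omega)
  have hmem : ∀ ξ η, Chain R f g (k + 1) ξ η → (ξ 0, η (k + 1 + 1)) ∈ ball (0 : ℂ × ℂ) R :=
    fun ξ η hc => mem_ball2.2 ⟨(hc 0 (by omega)).1, (hc _ le_rfl).2.1⟩
  have hmid : ∀ ξ η, Chain R f g (k + 1) ξ η → Y (ξ 0, η (k + 1 + 1)) = η (k + 1) :=
    fun ξ η hc => mid_unique hR hq h.hF hg (hc 0 (by omega)).1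
      (mem_ball2.1 (maps1 hR hq hY (hmem ξ η hc))).2 (hc k (by omega)).2.1 (hc _ le_rfl).2.1
      (hfix _ (hmem ξ η hc)) (by rw [(h.val ξ η (hres ξ η hc)).1]; exact (hc _ le_rfl).2.2.2)
  refine ⟨fun p => f (k + 1) (F (p.1, Y p), p.2), fun p => G (p.1, Y p),
    fun p => D (p.1, Y p) / (1 - dy F (p.1, Y p) * dx (g (k + 1)) (F (p.1, Y p), p.2)),
    ⟨diff2 hR hq h.hF hY hf.1, fun p hp => hf.2 _ (maps2 hR hq h.hF hY hp)⟩,
    ⟨diff1 hR hq hY h.hG.1, fun p hp => h.hG.2 _ (maps1 hR hq hY hp)⟩,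
    fun H hH => ?_, fun ξ η hc => ?_, fun x z hx hz => ?_⟩
  · obtain ⟨W, hW, e1, e2⟩ := h.op H fun i hi => hH i (by omega)
    refine ⟨_, ?_, by rw [pm, e1, nmul_op2 hR hq h.hF h.hG hW hf hg (hH _ le_rfl) hY hfix],
      fun ξ η hc => ?_⟩
    · simp only [div_eq_mul_inv]
      exact ((diff1 hR hq hY hW).fun_mul (diff2 hR hq h.hF hY (hH _ le_rfl))).fun_mul
        (((differentiableOn_const 1).fun_sub ((diff1 hR hq hY (diff_dy h.hF.1)).fun_mul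
          (diff2 hR hq h.hF hY (diff_dx hg.1)))).fun_inv
            fun p hp => den_ne hR hq h.hF hg hY hfix hp)
    · simp only [hmid ξ η hc, (h.val ξ η (hres ξ η hc)).1, e2 ξ η (hres ξ η hc)]
      rw [Finset.prod_range_succ _ (k + 1)]; ring
  · obtain ⟨a1, a2, a3⟩ := step_deriv hR hq h.hF h.hG hf hg hY hfix (hmem ξ η hc) rfl
    obtain ⟨b1, b2, b3, b4, b5⟩ := h.val ξ η (hres ξ η hc)
    rw [a1, a2, a3]
    simp only [hmid ξ η hc, b1, b2, b3, b4, b5]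
    refine ⟨(hc _ le_rfl).2.2.1, trivial, ?_, ?_, ?_⟩
    · rw [Finset.prod_range_succ _ (k + 1)]; ring
    · rw [Finset.prod_range_succ _ (k + 1)]; ring
    · rw [lpr.eq_2 _ (k + 1), smul_mul_assoc, smul_smul, div_eq_inv_mul]
  · have hp : (x, z) ∈ ball (0 : ℂ × ℂ) R := mem_ball2.2 ⟨hx, hz⟩
    obtain ⟨ξ, η, hc, h1, h2, h3⟩ := h.ex x (Y (x, z)) hx (mem_ball2.1 (maps1 hR hq hY hp)).2
    have h4 : F (x, Y (x, z)) = ξ (k + 1) := by rw [← (h.val ξ η hc).1, h1, h2]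
    have h5 : ‖ξ (k + 1)‖ < R := h4 ▸ (mem_ball2.1 (maps2 hR hq h.hF hY hp)).1
    refine ⟨Function.update ξ (k + 2) (f (k + 1) (ξ (k + 1), z)), Function.update η (k + 2) z,
      fun i hi => ?_, by simpa using h1, by simp, fun hr hx0 hz0 i hi => ?_⟩
    · rcases hi.lt_or_eq with hi | rfl
      · simp only [Function.update_of_ne (show i ≠ k + 2 by omega),
          Function.update_of_ne (show i + 1 ≠ k + 2 by omega)]
        exact hc i (by omega)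
      · simp only [Function.update_of_ne (show k + 1 ≠ k + 2 by omega), Function.update_self]
        refine ⟨h5, hz, trivial, ?_⟩
        rw [h2, ← h4]; exact hfix _ hp
    · have hr' : ∀ i ≤ k, RealOn R (f i) ∧ RealOn R (g i) := fun i hi => hr i (by omega)
      have hY0 : (Y (x, z)).im = 0 := realOn_iff.2 (hYr fun a b ha hb =>
        ⟨realOn_iff.1 (h.real hr').1 a b ha hb, realOn_iff.1 (hr _ le_rfl).2 a b ha hb⟩)
        x z hx hz hx0 hz0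
      have h6 := h3 hr' hx0 hY0
      rcases hi.lt_or_eq with hi | rfl
      · simp only [Function.update_of_ne (show i ≠ k + 2 by omega)]
        exact h6 i (by omega)
      · simp only [Function.update_self]
        exact ⟨(hr _ le_rfl).1 _ _ h5 hz (h6 _ le_rfl).1 hz0, hz0⟩

theorem exists_comp (hR : 1 < R) (hq : q < 1) (k : ℕ)
    (h : ∀ i ≤ k, Into R q (f i) ∧ Into R q (g i)) : ∃ F G D, Comp R q f g k F G D := by
  induction k with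
  | zero => exact ⟨_, _, _, comp_zero (h 0 le_rfl).1 (h 0 le_rfl).2⟩
  | succ k ih =>
    obtain ⟨F, G, D, hc⟩ := ih fun i hi => h i (by omega)
    exact hc.succ hR hq (h _ le_rfl).1 (h _ le_rfl).2

/-- The trace of the product of pinning operators along a closed chain. -/
theorem trace_chain (hR : 1 < R) (hq : q < 1) (h : ∀ i ≤ k, Into R q (f i) ∧ Into R q (g i))
    {ξ η : ℕ → ℂ} (hc : Chain R f g k ξ η) (h1 : ξ (k + 1) = ξ 0) (h2 : η (k + 1) = η 0) :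
    ∃ D a b c d : ℂ, (1 - a) * (1 - d) - b * c ≠ 0 ∧
      a = D * ∏ i ∈ Finset.range (k + 1), dx (f i) (ξ i, η (i + 1)) ∧
      d = D * ∏ i ∈ Finset.range (k + 1), dy (g i) (ξ i, η (i + 1)) ∧
      !![1, b; -c, a * d - b * c] = D • lpr (fun i => wM (f i) (g i) (ξ i, η (i + 1))) (k + 1) ∧
      ∀ H : ℕ → ℂ × ℂ → ℂ, (∀ i ≤ k, DifferentiableOn ℂ (H i) (ball 0 R)) →
        tr (pm (fun i => op2 (f i) (g i) (H i)) k) =
          D * (∏ i ∈ Finset.range (k + 1), H i (ξ i, η (i + 1))) / ((1 - a) * (1 - d) - b * c) := by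
  obtain ⟨F, G, D, hF⟩ := exists_comp hR hq k h
  obtain ⟨b1, b2, b3, b4, b5⟩ := hF.val ξ η hc
  have hp : ‖(ξ 0, η (k + 1))‖ < R :=
    mem_ball_zero_iff.1 (mem_ball2.2 ⟨(hc 0 (by omega)).1, (hc _ le_rfl).2.1⟩)
  have key := fun W hW => tr_op2 (H := W) hR hq hF.hF hF.hG hW hp (b1.trans h1) (b2.trans h2.symm)
  refine ⟨_, _, _, _, _, (key (fun _ => 1) (differentiableOn_const _)).1, b3, b4, b5,
    fun H hH => ?_⟩
  obtain ⟨W, hW, e1, e2⟩ := hF.op H hH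
  rw [e1, (key W hW).2, e2 ξ η hc]

end Rugh

end Pool.Agent.Lib.MP_de7bb2_an
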