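import Pool.Agent.Lib.MP_de7bb2_an.H20B

/-! Periodic orbits stay close to the axis. TASK SHAD. -/

namespace Pool.Agent.Lib.MP_de7bb2_an

open Metric Set Complex

variable {ι : Type} {Wf : ι → V} {Cb ε ℓ l : ℝ} {E : ℝ → V × V} {A : V →L[ℂ] V} {X Y : V}

namespace Shad

/-- The product in a null frame. -/
theorem br_frame (hX : Nul X) (hY : Nul Y) (h : br X Y = 2) {Z W : V} (hZ : IsRe Z)
    (hW : IsRe W) : (br Z W).re = ((br Z Y).re * (br W X).re + (br Z X).re * (br W Y).re) / 2 -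
      (br Z (cross Y X)).re * (br W (cross Y X)).re / 4 := by
  have hC : IsRe (cross Y X) := hY.1.cross hX.1
  have e := congrArg (fun U => br U W) (frame_decomp hX.2.2 hY.2.2 h Z)
  simp only [br_sub_left, br_add_left, br_smul_left] at e
  rw [br_comm X W, br_comm Y W, br_comm (cross Y X) W, br_eq_ofReal hZ hW, br_eq_ofReal hZ hY.1,
    br_eq_ofReal hW hX.1, br_eq_ofReal hZ hX.1, br_eq_ofReal hW hY.1, br_eq_ofReal hZ hC,
    br_eq_ofReal hW hC] at e
  have e' : (br Z W).re = (br Z Y).re / 2 * (br W X).re + (br Z X).re / 2 * (br W Y).re -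
      (br Z (cross Y X)).re / 4 * (br W (cross Y X)).re := by exact_mod_cast e
  rw [e']; ring

theorem half_re (z : ℂ) : ((1 / 2 : ℂ) * z).re = z.re / 2 := by
  simp [mul_re]; ring

theorem sq_nrm {F : V × V} (hF : F ∈ SM) {Z : V} (hZ : IsRe Z) :
    (br (nrm F) Z).re ^ 2 = (br F.1 Z).re * (br F.2 Z).re - (br Z Z).re := by
  rw [br_frame hF.1 hF.2.1 hF.2.2 hZ hZ, nrm, br_smul_left, half_re, br_comm F.1 Z, br_comm F.2 Z,
    br_comm (cross F.2 F.1) Z]
  ring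

theorem mid_re (F : V × V) (Z : V) :
    (br (mid F) Z).re = ((br F.1 Z).re + (br F.2 Z).re) / 2 := by
  rw [mid, br_smul_left, half_re, br_add_left, add_re]

theorem hasDerivAt_br {f : ℝ → V} {f' : V} {t : ℝ} (hf : HasDerivAt f f' t) (Z : V) :
    HasDerivAt (fun t => (br (f t) Z).re) (br f' Z).re t := by
  have h1 := (reCLM.comp ((brL Z).restrictScalars ℝ)).hasFDerivAt.comp_hasDerivAt t hf
  simpa [Function.comp_def, br_comm Z] using h1

theorem exp_eq (h : Famy Wf Cb) {F : V × V} (hF : F ∈ SM) :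
    exp (-ε * bF Wf (mid F)) = (Real.exp (-ε * (bF Wf (mid F)).re) : ℂ) := by
  have : bF Wf (mid F) = ((bF Wf (mid F)).re : ℂ) :=
    Complex.ext (by simp) (by simp [(h.bF_real (SM.mid hF)).1])
  rw [this]
  push_cast
  simp

theorem fF_eq (h : Famy Wf Cb) {F : V × V} (hF : F ∈ SM) :
    fF Wf (mid F) (nrm F) = ((fF Wf (mid F) (nrm F)).re : ℂ) :=
  Complex.ext (by simp) (by simp [fF_im h (SM.mid hF).1 (SM.nrm hF).1])

theorem deriv_fst (h : Famy Wf Cb) (hE : MG Wf ε E) (Z : V) (t : ℝ) :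
    HasDerivAt (fun t => (br (E t).1 Z).re) (Real.exp (-ε * (bF Wf (mid (E t))).re) *
      ((br (E t).1 Z).re + ε * (fF Wf (mid (E t)) (nrm (E t))).re * (br (nrm (E t)) Z).re)) t := by
  have h1 := hasDerivAt_br (hE t).2.fst Z
  convert h1 using 1
  rw [VF, exp_eq h (hE t).1, fF_eq h (hE t).1]
  simp only [Prod.smul_fst, br_smul_left, br_add_left, re_ofReal_mul, add_re, ofReal_re,
    ← ofReal_mul]

theorem deriv_snd (h : Famy Wf Cb) (hE : MG Wf ε E) (Z : V) (t : ℝ) :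
    HasDerivAt (fun t => (br (E t).2 Z).re) (Real.exp (-ε * (bF Wf (mid (E t))).re) *
      (-(br (E t).2 Z).re - ε * (fF Wf (mid (E t)) (nrm (E t))).re * (br (nrm (E t)) Z).re)) t := by
  have h1 := hasDerivAt_br (hE t).2.snd Z
  convert h1 using 1
  rw [VF, exp_eq h (hE t).1, fF_eq h (hE t).1]
  simp only [Prod.smul_snd, br_smul_left, br_sub_left, br_neg_left, re_ofReal_mul, sub_re, neg_re,
    ofReal_re, ← ofReal_mul]

theorem sq_le (h : Famy Wf Cb) {F : V × V} (hF : F ∈ SM) (ε : ℝ) :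
    (ε * (fF Wf (mid F) (nrm F)).re) ^ 2 ≤ (2 * Cb * |ε|) ^ 2 := by
  have h1 := (abs_re_le_norm _).trans (h.abs_fF_le hF)
  rw [← sq_abs, abs_mul]
  refine pow_le_pow_left₀ (by positivity) ?_ 2
  rw [mul_comm]
  exact mul_le_mul_of_nonneg_right h1 (abs_nonneg _)

/-- A periodic function has a maximum of its square. -/
theorem exists_max {a a' : ℝ → ℝ} (ha : ∀ t, HasDerivAt a (a' t) t) (hl : 0 < ℓ)
    (hp : ∀ t, a (t + ℓ) = a t) : ∃ s, (∀ t, a t ^ 2 ≤ a s ^ 2) ∧ (a s = 0 ∨ a' s = 0) := by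
  have hc : Continuous a := continuous_iff_continuousAt.2 fun t => (ha t).continuousAt
  obtain ⟨s, -, hs⟩ := (isCompact_Icc (a := (0 : ℝ)) (b := ℓ)).exists_isMaxOn
    (nonempty_Icc.2 hl.le) (hc.pow 2).continuousOn
  have hm : ∀ t, a t ^ 2 ≤ a s ^ 2 := fun t => by
    obtain ⟨y, hy, e⟩ := Function.Periodic.exists_mem_Ico₀ (f := a) hp hl t
    rw [e]
    exact hs (Ico_subset_Icc_self hy)
  refine ⟨s, hm, ?_⟩
  have h0 : IsLocalMax (fun t => a t ^ 2) s := Filter.Eventually.of_forall hm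
  have h1 := h0.hasDerivAt_eq_zero ((ha s).fun_pow 2)
  simpa using h1

theorem br_pos {c Z : V} (hc : Hyp c) (hZ : Nul Z) : 0 < (br c Z).re :=
  (div_pos hZ.2.1 (by linarith [hc.2.1])).trans_le (hc.le_br hZ.fut)

/-- The algebra of Fermi coordinates. -/
theorem fermi {a b c d y z M : ℝ} (hP : 0 < a + b) (hQ : 0 < c + d) (h1 : a * c = y ^ 2 / 4)
    (h2 : b * d = z ^ 2 / 4) (h3 : (a * d + c * b) / 2 - y * z / 4 = 2) (hy : |y| ≤ M)
    (hz : |z| ≤ M) : (((a - b) / ((a + b) / 2) - (c - d) / ((c + d) / 2)) / 4) ^ 2 ≤ 1 ∧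
      1 - M ^ 2 / 2 ≤ (((a - b) / ((a + b) / 2) - (c - d) / ((c + d) / 2)) / 4) ^ 2 := by
  have e0 : ((a - b) / ((a + b) / 2) - (c - d) / ((c + d) / 2)) / 4 =
      (a * d - c * b) / ((a + b) * (c + d)) := by field_simp; ring
  have e1 : (a + b) * (c + d) = 4 + (y + z) ^ 2 / 4 := by linear_combination h1 + h2 + 2 * h3
  have e2 : (a * d - c * b) ^ 2 = 16 + 4 * (y * z) := by
    have : a * d + c * b = 4 + y * z / 2 := by linarith
    have e : (a * d - c * b) ^ 2 = (a * d + c * b) ^ 2 - 4 * (a * c) * (b * d) := by ring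
    rw [e, this, h1, h2]; ring
  have hy2 : y ^ 2 ≤ M ^ 2 := by rw [← sq_abs y]; exact pow_le_pow_left₀ (abs_nonneg _) hy 2
  have hz2 : z ^ 2 ≤ M ^ 2 := by rw [← sq_abs z]; exact pow_le_pow_left₀ (abs_nonneg _) hz 2
  rw [e0, div_pow, e1, e2]
  set s := (y + z) ^ 2 / 4 with hs
  have s0 : 0 ≤ s := by positivity
  have s1 : y * z ≤ s := by rw [hs]; nlinarith [sq_nonneg (y - z)]
  have s2 : s ≤ M ^ 2 := by rw [hs]; nlinarith [sq_nonneg (y - z)]
  have s3 : 8 * s - 4 * (y * z) ≤ 4 * M ^ 2 := by rw [hs]; nlinarith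
  have hD : 0 < (4 + s) ^ 2 := by positivity
  constructor
  · rw [div_le_one hD]; nlinarith
  · rw [le_div_iff₀ hD]
    have M0 : 0 ≤ M ^ 2 := sq_nonneg M
    nlinarith [mul_nonneg M0 s0, mul_nonneg s0 (sub_nonneg.2 s2), mul_nonneg M0 (sq_nonneg s)]

end Shad

open Shad

theorem MG.injective (h : Famy Wf Cb) (hε : |ε| * (4 * Cb) ≤ 1) (hE : MG Wf ε E) :
    Function.Injective E := by
  have hm : StrictMono fun t => (br (E t).1 oo).re - (br (E t).2 oo).re := by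
    refine strictMono_of_hasDerivAt_pos
      (fun t => (deriv_fst h hE oo t).sub (deriv_snd h hE oo t)) fun t => ?_
    have h1 := sq_nrm (hE t).1 hyp_oo.1
    have h2 := sq_le h (hE t).1 ε
    have h3 : 0 < (br (E t).1 oo).re := by rw [br_oo_right]; exact (hE t).1.1.2.1
    have h4 : 0 < (br (E t).2 oo).re := by rw [br_oo_right]; exact (hE t).1.2.1.2.1
    rw [hyp_oo.2.2, one_re] at h1
    have h0 : 0 ≤ 2 * Cb * |ε| := by have := h.nonneg; positivity
    have h5 : (2 * Cb * |ε|) ^ 2 ≤ (1 / 2) ^ 2 := pow_le_pow_left₀ h0 (by linarith) 2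
    rw [← mul_sub]
    refine mul_pos (Real.exp_pos _) ?_
    set k := ε * (fF Wf (mid (E t)) (nrm (E t))).re
    set ν := (br (nrm (E t)) oo).re
    set a := (br (E t).1 oo).re
    set b := (br (E t).2 oo).re
    have h6 : (2 * (k * ν)) ^ 2 < (a + b) ^ 2 := by
      have : k ^ 2 * ν ^ 2 ≤ (1 / 2) ^ 2 * ν ^ 2 :=
        mul_le_mul_of_nonneg_right (h2.trans h5) (sq_nonneg _)
      nlinarith [sq_nonneg (a - b), mul_pos h3 h4]
    have h7 := (abs_lt_of_sq_lt_sq' h6 (by linarith)).1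
    linarith
  exact fun s t e => hm.injective (by simp only [e])

theorem PerG.shadow (h : Famy Wf Cb) (hε : |ε| * (4 * Cb) ≤ 1) (hA : Iso A) (hX : Axis A X Y l)
    (hE : PerG Wf ε A ℓ E) (t : ℝ) : ‖br (E t).1 (cross Y X)‖ ≤ 8 * Cb * |ε| ∧
      ‖br (E t).2 (cross Y X)‖ ≤ 8 * Cb * |ε| := by
  obtain ⟨nX, nY, hb, -, -, -, hC⟩ := hX
  obtain ⟨hM, hl, hp⟩ := hE
  have rC : IsRe (cross Y X) := nY.1.cross nX.1
  have c3 : (br (cross Y X) (cross Y X)).re = -4 := by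
    rw [br_cross_cross, nX.2.2, nY.2.2, br_comm, hb]; norm_num
  have hA' : ∀ Z, br (A Z) (cross Y X) = br Z (cross Y X) := fun Z => by
    conv_lhs => rw [← hC]
    exact hA.br_eq _ _
  obtain ⟨s, hs, hs'⟩ := exists_max (deriv_fst h hM (cross Y X)) hl fun t => by
    rw [hp, act2, hA']
  obtain ⟨r, hr, hr'⟩ := exists_max (deriv_snd h hM (cross Y X)) hl fun t => by
    rw [hp, act2, hA']
  have h0 : 0 ≤ 2 * Cb * |ε| := by have := h.nonneg; positivity
  have h5 : (2 * Cb * |ε|) ^ 2 ≤ (1 / 2) ^ 2 := pow_le_pow_left₀ h0 (by linarith) 2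
  have key : ∀ (u x : ℝ), (x = 0 ∨ x ^ 2 =
      (ε * (fF Wf (mid (E u)) (nrm (E u))).re * (br (nrm (E u)) (cross Y X)).re) ^ 2) →
      x ^ 2 ≤ (2 * Cb * |ε|) ^ 2 * (4 + ((br (E s).1 (cross Y X)).re ^ 2 +
        (br (E r).2 (cross Y X)).re ^ 2) / 2) := fun u x hx => by
    rcases hx with rfl | hx
    · rw [zero_pow two_ne_zero]; positivity
    rw [hx, mul_pow]
    refine mul_le_mul (sq_le h (hM u).1 ε) ?_ (sq_nonneg _) (sq_nonneg _)
    rw [sq_nrm (hM u).1 rC, c3]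
    nlinarith [hs u, hr u, sq_nonneg ((br (E u).1 (cross Y X)).re - (br (E u).2 (cross Y X)).re)]
  have k1 := key s _ (hs'.imp_right fun e => by
    rw [eq_neg_of_add_eq_zero_left ((mul_eq_zero.1 e).resolve_left (Real.exp_pos _).ne'), neg_sq])
  have k2 := key r _ (hr'.imp_right fun e => by
    rw [← sub_eq_zero.1 ((mul_eq_zero.1 e).resolve_left (Real.exp_pos _).ne'), neg_sq])
  set p := (br (E s).1 (cross Y X)).re ^ 2
  set q := (br (E r).2 (cross Y X)).re ^ 2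
  have p0 : 0 ≤ p := sq_nonneg _
  have q0 : 0 ≤ q := sq_nonneg _
  have hS : p + q ≤ (8 * Cb * |ε|) ^ 2 := by
    have := mul_le_mul_of_nonneg_right h5 (add_nonneg p0 q0)
    nlinarith [sq_nonneg (2 * Cb * |ε|)]
  have h8 : 0 ≤ 8 * Cb * |ε| := by linarith
  constructor
  · rw [br_eq_ofReal (hM t).1.1.1 rC, Complex.norm_real, Real.norm_eq_abs]
    exact abs_le_of_sq_le_sq (by linarith [hs t]) h8
  · rw [br_eq_ofReal (hM t).1.2.1.1 rC, Complex.norm_real, Real.norm_eq_abs]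
    exact abs_le_of_sq_le_sq (by linarith [hr t]) h8

/-- Position along the axis. -/
noncomputable def uAx (X Y : V) (E : V × V) : ℝ :=
  (Real.log (br (mid E) Y).re - Real.log (br (mid E) X).re) / 2

/-- Speed along the axis for hyperbolic arc length. -/
noncomputable def uSp (X Y : V) (E : V × V) : ℝ :=
  ((br (E.1 - E.2) Y).re / (br (mid E) Y).re - (br (E.1 - E.2) X).re / (br (mid E) X).re) / 4

theorem MG.hasDerivAt_uAx (h : Famy Wf Cb) (hE : MG Wf ε E) (hX : Nul X) (hY : Nul Y) (t : ℝ) :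
    HasDerivAt (fun t => uAx X Y (E t))
      (Real.exp (-ε * (bF Wf (mid (E t))).re) * uSp X Y (E t)) t := by
  have key : ∀ Z, Nul Z → HasDerivAt (fun t => Real.log (br (mid (E t)) Z).re)
      (Real.exp (-ε * (bF Wf (mid (E t))).re) * ((br ((E t).1 - (E t).2) Z).re / 2) /
        (br (mid (E t)) Z).re) t := fun Z hZ => by
    refine HasDerivAt.log ?_ (br_pos (SM.mid (hE t).1) hZ).ne'
    simp only [mid_re]
    refine (((deriv_fst h hE Z t).add (deriv_snd h hE Z t)).div_const 2).congr_deriv ?_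
    rw [br_sub_left, sub_re]
    ring
  refine (((key Y hY).sub (key X hX)).div_const 2).congr_deriv ?_
  rw [uSp]
  ring

theorem PerG.uAx_add (hA : Iso A) (hX : Axis A X Y l) (hE : PerG Wf ε A ℓ E) (t : ℝ) :
    uAx X Y (E (t + ℓ)) = uAx X Y (E t) + l := by
  obtain ⟨nX, nY, -, -, aX, aY, -⟩ := hX
  have hc := SM.mid (hE.1 t).1
  have e : mid (E (t + ℓ)) = A (mid (E t)) := by
    rw [hE.2.2, mid, mid, act2, map_smul, map_add]
  have key : ∀ (Z : V) (r : ℝ), Nul Z → A Z = (Real.exp r : ℂ) • Z →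
      Real.log (br (A (mid (E t))) Z).re = Real.log (br (mid (E t)) Z).re - r := fun Z r hZ hr => by
    have h1 := congrArg re (hA.br_eq (mid (E t)) Z)
    rw [hr, br_smul_right, re_ofReal_mul] at h1
    rw [← h1, Real.log_mul (Real.exp_pos _).ne' (br_pos (hA.hyp hc) hZ).ne', Real.log_exp]
    ring
  rw [uAx, uAx, e, key X l nX aX, key Y (-l) nY aY]
  ring

namespace Shad

theorem uSp_sq (hX : Nul X) (hY : Nul Y) (hb : br X Y = 2) {F : V × V} (hF : F ∈ SM) {M : ℝ}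
    (h1 : ‖br F.1 (cross Y X)‖ ≤ M) (h2 : ‖br F.2 (cross Y X)‖ ≤ M) :
    uSp X Y F ^ 2 ≤ 1 ∧ 1 - M ^ 2 / 2 ≤ uSp X Y F ^ 2 := by
  have e1 := br_frame hX hY hb hF.1.1 hF.1.1
  have e2 := br_frame hX hY hb hF.2.1.1 hF.2.1.1
  have e3 := br_frame hX hY hb hF.1.1 hF.2.1.1
  rw [hF.1.2.2, zero_re] at e1
  rw [hF.2.1.2.2, zero_re] at e2
  rw [hF.2.2, re_ofNat] at e3
  have pY := br_pos (SM.mid hF) hY
  have pX := br_pos (SM.mid hF) hX
  rw [mid_re] at pX pY
  simp only [uSp, mid_re, br_sub_left, sub_re]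
  exact fermi (by linarith) (by linarith) (by linarith) (by linarith) e3.symm
    ((abs_re_le_norm _).trans h1) ((abs_re_le_norm _).trans h2)

theorem small (h : Famy Wf Cb) (hε : |ε| * (40 * Cb) ≤ 1) :
    |ε| * (4 * Cb) ≤ 1 ∧ (8 * Cb * |ε|) ^ 2 / 2 < 1 := by
  have h0 : 0 ≤ Cb * |ε| := by have := h.nonneg; positivity
  have h1 : (8 * Cb * |ε|) ^ 2 ≤ 1 ^ 2 := pow_le_pow_left₀ (by linarith) (by linarith) 2
  exact ⟨by linarith, by linarith⟩

theorem uSp_pos (h : Famy Wf Cb) (hε : |ε| * (40 * Cb) ≤ 1) (hA : Iso A)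
    (hX : Axis A X Y l) (hE : PerG Wf ε A ℓ E) (t : ℝ) : 0 < uSp X Y (E t) := by
  have hd := fun t => hE.1.hasDerivAt_uAx h hX.1 hX.2.1 t
  have hne : ∀ t, Real.exp (-ε * (bF Wf (mid (E t))).re) * uSp X Y (E t) ≠ 0 := fun t => by
    refine mul_ne_zero (Real.exp_pos _).ne' fun e => ?_
    have h1 := hE.shadow h (small h hε).1 hA hX t
    have h2 := (uSp_sq hX.1 hX.2.1 hX.2.2.1 (hE.1 t).1 h1.1 h1.2).2
    rw [e, zero_pow two_ne_zero] at h2
    linarith [(small h hε).2]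
  rcases hasDerivWithinAt_forall_lt_or_forall_gt_of_forall_ne convex_univ
    (fun t _ => (hd t).hasDerivWithinAt) (fun t _ => hne t) with hn | hp
  · have := strictAnti_of_hasDerivAt_neg hd (fun t => hn t (mem_univ _))
      (show (0 : ℝ) < 0 + ℓ by linarith [hE.2.1])
    simp only [hE.uAx_add hA hX] at this
    linarith [hX.2.2.2.1]
  · exact (mul_pos_iff_of_pos_left (Real.exp_pos _)).1 (hp t (mem_univ _))

end Shad

theorem PerG.uSp_near (h : Famy Wf Cb) (hε : |ε| * (40 * Cb) ≤ 1) (hA : Iso A)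
    (hX : Axis A X Y l) (hE : PerG Wf ε A ℓ E) (t : ℝ) :
    |uSp X Y (E t) - 1| ≤ 64 * Cb ^ 2 * ε ^ 2 := by
  have h0 := uSp_pos h hε hA hX hE t
  have h1 := hE.shadow h (small h hε).1 hA hX t
  obtain ⟨h2, h3⟩ := uSp_sq hX.1 hX.2.1 hX.2.2.1 (hE.1 t).1 h1.1 h1.2
  have h4 : uSp X Y (E t) ≤ 1 := by nlinarith
  have e : (8 * Cb * |ε|) ^ 2 = 64 * Cb ^ 2 * ε ^ 2 := by rw [mul_pow, sq_abs]; ring
  rw [e] at h3
  have h5 : 0 ≤ 64 * Cb ^ 2 * ε ^ 2 := by positivity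
  rw [abs_le]
  constructor <;> nlinarith

/-- Reparametrisation by the position along the axis. -/
theorem PerG.exists_param (h : Famy Wf Cb) (hε : |ε| * (40 * Cb) ≤ 1) (hA : Iso A)
    (hX : Axis A X Y l) (hE : PerG Wf ε A ℓ E) : ∃ T : ℝ → ℝ, (∀ u, uAx X Y (E (T u)) = u) ∧
      (∀ t, T (uAx X Y (E t)) = t) ∧ (∀ u, T (u + l) = T u + ℓ) ∧ ∀ u, HasDerivAt T
        (Real.exp (ε * (bF Wf (mid (E (T u)))).re) / uSp X Y (E (T u))) u := by
  have hd := fun t => hE.1.hasDerivAt_uAx h hX.1 hX.2.1 t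
  have hp := fun t => mul_pos (Real.exp_pos (-ε * (bF Wf (mid (E t))).re))
    (uSp_pos h hε hA hX hE t)
  have hm : StrictMono fun t => uAx X Y (E t) := strictMono_of_hasDerivAt_pos hd hp
  have hc : Continuous fun t => uAx X Y (E t) :=
    continuous_iff_continuousAt.2 fun t => (hd t).continuousAt
  have hl := hX.2.2.2.1
  have hn : ∀ (n : ℕ) (t : ℝ), uAx X Y (E (t + n * ℓ)) = uAx X Y (E t) + n * l := fun n t => by
    induction n with
    | zero => simp
    | succ n ih =>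
      push_cast
      rw [add_mul, one_mul, ← add_assoc, hE.uAx_add hA hX, ih]
      ring
  have hs : Function.Surjective fun t => uAx X Y (E t) := fun u => by
    obtain ⟨n, hn'⟩ := exists_nat_ge (|u - uAx X Y (E 0)| / l)
    rw [div_le_iff₀ hl, abs_le] at hn'
    have e1 := hn n 0
    have e2 := hn n (-(n * ℓ))
    rw [neg_add_cancel] at e2
    exact intermediate_value_univ (-(n * ℓ)) (0 + n * ℓ) hc ⟨by linarith [hn'.1], by linarith [hn'.2]⟩
  let e := hm.orderIsoOfSurjective _ hs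
  have e1 : ∀ u, uAx X Y (E (e.symm u)) = u := fun u => e.apply_symm_apply u
  have e2 : ∀ t, e.symm (uAx X Y (E t)) = t := fun t => e.symm_apply_apply t
  refine ⟨e.symm, e1, e2, fun u => ?_, fun u => ?_⟩
  · rw [← e2 (e.symm u + ℓ), hE.uAx_add hA hX, e1]
  · refine (HasDerivAt.of_local_left_inverse e.symm.continuous.continuousAt (hd (e.symm u))
      (hp _).ne' (Filter.Eventually.of_forall e1)).congr_deriv ?_
    rw [neg_mul, Real.exp_neg, mul_inv, inv_inv, div_eq_mul_inv]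

end Pool.Agent.Lib.MP_de7bb2_an
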