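import Pool.Agent.Lib.MP_de7bb2_an.H20Area

/-! Symmetry of invariant kernels and Stokes' formula on the quotient. TASK STOKES. -/

namespace Pool.Agent.Lib.MP_de7bb2_an

open Metric Set Complex ComplexConjugate MeasureTheory

/-- The real linear map `h ↦ a h + c (conj h)`. -/
noncomputable def wirt (a c : ℂ) : ℂ →L[ℝ] ℂ :=
  a • ContinuousLinearMap.id ℝ ℂ + c • (conjCLE : ℂ →L[ℝ] ℂ)

@[simp] theorem wirt_apply (a c h : ℂ) : wirt a c h = a * h + c * conj h := by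
  simp [wirt]

variable {G : ℕ} {S : Surface G}

/-- Holomorphic one forms twisted by the character `exp θ`. -/
def AutF (S : Surface G) (θ : S.Γ → ℂ) (F : ℂ → ℂ) : Prop := DifferentiableOn ℂ F (ball 0 1) ∧
  ∀ γ, ∀ z ∈ ball (0 : ℂ) 1, F (S.act γ z) * deriv (S.act γ) z = exp (θ γ) * F z

/-- `Θ` is harmonic with periods `θ` and differential `ω dz + ω' dz̄`. -/
def Harm (S : Surface G) (θ : S.Γ → ℂ) (Θ ω ω' : ℂ → ℂ) : Prop :=
  DifferentiableOn ℂ ω (ball 0 1) ∧ DifferentiableOn ℂ (fun z => conj (ω' z)) (ball 0 1) ∧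
    (∀ z ∈ ball (0 : ℂ) 1, HasFDerivAt Θ (wirt (ω z) (ω' z)) z) ∧
    ∀ γ, ∀ z ∈ ball (0 : ℂ) 1, Θ (S.act γ z) = Θ z + θ γ

namespace Stokes

open Filter Topology

theorem exists_fin (S : Surface G) {ρ : ℝ} (hρ : ρ < 1) : ∃ s : Finset S.Γ,
    (∀ γ, γ ∈ s ↔ γ⁻¹ ∈ s) ∧ ∀ γ ∉ s, ∀ z : ℂ, ‖z‖ ≤ ρ → ρ < ‖S.act γ z‖ := by
  have hK : closedBall (0 : ℂ) ρ ⊆ ball 0 1 := closedBall_subset_ball hρ
  have hf := S.proper _ hK (isCompact_closedBall 0 ρ)
  have key : ∀ γ, γ ∈ hf.toFinset → γ⁻¹ ∈ hf.toFinset := by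
    intro γ h
    obtain ⟨z, hz, hz'⟩ := hf.mem_toFinset.1 h
    refine hf.mem_toFinset.2 ⟨_, hz', ?_⟩
    rwa [← S.act_mul _ _ _ (hK hz), inv_mul_cancel, S.act_one (hK hz)]
  refine ⟨hf.toFinset, fun γ => ⟨key γ, fun h => by simpa using key _ h⟩, fun γ hγ z hz => ?_⟩
  by_contra h
  exact hγ (hf.mem_toFinset.2 ⟨z, mem_closedBall_zero_iff.2 hz,
    mem_closedBall_zero_iff.2 (not_lt.1 h)⟩)

theorem chi_zero (P : Part S) {z : ℂ} (h : P.r ≤ ‖z‖) : P.χ z = 0 :=
  by_contra fun h' => (P.supp z h').not_ge h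

theorem sum_chi (P : Part S) {ρ : ℝ} (hρ : ρ < 1) (hr : P.r ≤ ρ) {s : Finset S.Γ}
    (hs : ∀ γ ∉ s, ∀ z : ℂ, ‖z‖ ≤ ρ → ρ < ‖S.act γ z‖) {z : ℂ} (hz : ‖z‖ ≤ ρ) :
    ∑ γ ∈ s, (P.χ (S.act γ z) : ℂ) = 1 := by
  have h := P.sum_one z (mem_ball_zero_iff.2 (hz.trans_lt hρ))
  rw [finsum_eq_sum_of_support_subset (s := s)] at h
  · exact_mod_cast h
  · intro γ hγ
    by_contra h'
    exact hγ (chi_zero P (hr.trans (hs γ h' z hz).le))

theorem act_inv (S : Surface G) (γ : S.Γ) {z : ℂ} (hz : z ∈ ball (0 : ℂ) 1) :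
    S.act γ (S.act γ⁻¹ z) = z := by
  rw [← S.act_mul _ _ _ hz, mul_inv_cancel, S.act_one hz]

theorem one_sub_pos {z : ℂ} (hz : z ∈ ball (0 : ℂ) 1) : 0 < 1 - ‖z‖ ^ 2 := by
  have := mem_ball_zero_iff.1 hz
  nlinarith [norm_nonneg z]

theorem cont_dens : ContinuousOn (fun z => (dens z : ℂ)) (ball 0 1) := by
  refine continuous_ofReal.comp_continuousOn (ContinuousOn.div continuousOn_const (by fun_prop) ?_)
  exact fun z hz => (pow_pos (one_sub_pos hz) 2).ne'

theorem dens_ne {z : ℂ} (hz : z ∈ ball (0 : ℂ) 1) : (dens z : ℂ) ≠ 0 :=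
  ofReal_ne_zero.2 (div_pos (by norm_num) (pow_pos (one_sub_pos hz) 2)).ne'

theorem dens_act (γ : S.Γ) {z : ℂ} (hz : z ∈ ball (0 : ℂ) 1) : (dens (S.act γ z) : ℂ)⁻¹ =
    deriv (S.act γ) z * conj (deriv (S.act γ) z) * (dens z : ℂ)⁻¹ := by
  rw [mul_conj, normSq_eq_norm_sq, dens, dens, ← S.norm_deriv γ hz]
  norm_cast
  rw [inv_div, inv_div]
  ring

theorem cont_chi (P : Part S) : Continuous fun z => (P.χ z : ℂ) :=
  continuous_ofReal.comp P.smooth.continuous

theorem cont_chi_act (P : Part S) (γ : S.Γ) :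
    ContinuousOn (fun z => (P.χ (S.act γ z) : ℂ)) (ball 0 1) :=
  (cont_chi P).comp_continuousOn (S.diffOn_act γ).continuousOn

theorem integrableOn_ball {f : ℂ → ℂ} {ρ : ℝ} (hf : ContinuousOn f (ball 0 1)) (hρ : ρ < 1)
    (h0 : ∀ z ∈ ball (0 : ℂ) 1, ρ < ‖z‖ → f z = 0) : IntegrableOn f (ball 0 1) :=
  ((hf.mono (closedBall_subset_ball hρ)).integrableOn_compact
    (isCompact_closedBall 0 ρ)).of_forall_sdiff_eq_zero measurableSet_ball fun z hz =>
      h0 z hz.1 (not_le.1 fun h => hz.2 (mem_closedBall_zero_iff.2 h))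

theorem integrable_all {E : Type*} [NormedAddCommGroup E] {f : ℂ → E} {ρ : ℝ}
    (hf : ContinuousOn f (ball 0 1)) (hρ : ρ < 1) (h0 : ∀ z, ρ < ‖z‖ → f z = 0) : Integrable f :=
  ((hf.mono (closedBall_subset_ball hρ)).integrableOn_compact
    (isCompact_closedBall 0 ρ)).integrable_of_forall_notMem_eq_zero fun z hz =>
      h0 z (not_le.1 fun h => hz (mem_closedBall_zero_iff.2 h))

theorem hI_const_mul (c : ℂ) (f : ℂ → ℂ) : hI (fun z => c * f z) = c * hI f := by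
  rw [hI, hI, ← integral_const_mul]
  simp only [mul_left_comm]

theorem hI_zero : hI (fun _ => 0) = 0 := by simp [hI]

/-- Double integral for the hyperbolic area. -/
noncomputable def II (g : ℂ → ℂ → ℂ) : ℂ := hI fun z => hI fun w => g z w

/-- Continuous with compact support in the bidisc. -/
def Good (g : ℂ → ℂ → ℂ) : Prop :=
  ContinuousOn (fun p : ℂ × ℂ => g p.1 p.2) (ball 0 1 ×ˢ ball 0 1) ∧ ∃ ρ < (1 : ℝ),
    ∀ z ∈ ball (0 : ℂ) 1, ∀ w ∈ ball (0 : ℂ) 1, ρ < ‖z‖ ∨ ρ < ‖w‖ → g z w = 0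

theorem Good.integrable {g : ℂ → ℂ → ℂ} (h : Good g) :
    IntegrableOn (fun p : ℂ × ℂ => (dens p.1 : ℂ) * (dens p.2 * g p.1 p.2))
      (ball 0 1 ×ˢ ball 0 1) (volume.prod volume) := by
  obtain ⟨hc, ρ, hρ, h0⟩ := h
  have h1 : ContinuousOn (fun p : ℂ × ℂ => (dens p.1 : ℂ) * (dens p.2 * g p.1 p.2))
      (ball 0 1 ×ˢ ball 0 1) :=
    (cont_dens.comp continuousOn_fst fun p hp => hp.1).mul
      ((cont_dens.comp continuousOn_snd fun p hp => hp.2).mul hc)
  refine ((h1.mono (prod_mono (closedBall_subset_ball hρ)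
    (closedBall_subset_ball hρ))).integrableOn_compact ((isCompact_closedBall 0 ρ).prod
    (isCompact_closedBall 0 ρ))).of_forall_sdiff_eq_zero
      (measurableSet_ball.prod measurableSet_ball) fun p hp => ?_
  rw [h0 _ hp.1.1 _ hp.1.2, mul_zero, mul_zero]
  by_contra h
  rw [not_or, not_lt, not_lt] at h
  exact hp.2 ⟨mem_closedBall_zero_iff.2 h.1, mem_closedBall_zero_iff.2 h.2⟩

theorem Good.II_eq {g : ℂ → ℂ → ℂ} (h : Good g) : II g =
    ∫ p in ball (0 : ℂ) 1 ×ˢ ball (0 : ℂ) 1, (dens p.1 : ℂ) * (dens p.2 * g p.1 p.2)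
      ∂(volume.prod volume) := by
  rw [setIntegral_prod _ h.integrable]
  simp only [II, hI, integral_const_mul]

theorem Good.flip {g : ℂ → ℂ → ℂ} (h : Good g) : Good fun w z => g z w := by
  obtain ⟨hc, ρ, hρ, h0⟩ := h
  exact ⟨hc.comp continuous_swap.continuousOn fun p hp => ⟨hp.2, hp.1⟩, ρ, hρ,
    fun z hz w hw e => h0 w hw z hz e.symm⟩

theorem Good.II_flip {g : ℂ → ℂ → ℂ} (h : Good g) : (II fun w z => g z w) = II g := by
  rw [h.II_eq, h.flip.II_eq, ← setIntegral_prod_swap]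
  simp only [Prod.fst_swap, Prod.snd_swap, mul_left_comm]

theorem II_congr {g g' : ℂ → ℂ → ℂ}
    (h : ∀ z ∈ ball (0 : ℂ) 1, ∀ w ∈ ball (0 : ℂ) 1, g z w = g' z w) : II g = II g' :=
  hI_congr fun z hz => hI_congr (h z hz)

theorem II_act (γ : S.Γ) (g : ℂ → ℂ → ℂ) :
    (II fun z w => g (S.act γ z) (S.act γ w)) = II g := by
  rw [II, II, ← hI_act γ fun z => hI fun w => g z w]
  exact hI_congr fun z _ => hI_act γ (g (S.act γ z))

theorem II_sum {ι : Type*} (s : Finset ι) {g : ι → ℂ → ℂ → ℂ} (h : ∀ i, Good (g i)) :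
    (II fun z w => ∑ i ∈ s, g i z w) = ∑ i ∈ s, II (g i) := by
  have h1 : Good fun z w => ∑ i ∈ s, g i z w := by
    classical
    induction s using Finset.induction_on with
    | empty => exact ⟨by simpa using continuousOn_const, 0, one_pos, by simp⟩
    | insert i s hi ih =>
      obtain ⟨hc, ρ, hρ, h0⟩ := ih
      obtain ⟨hc', ρ', hρ', h0'⟩ := h i
      simp only [Finset.sum_insert hi]
      refine ⟨hc'.add hc, max ρ ρ', max_lt hρ hρ', fun z hz w hw e => ?_⟩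
      beta_reduce at h0 ⊢
      rw [h0 z hz w hw (e.imp (le_max_left _ _).trans_lt (le_max_left _ _).trans_lt),
        h0' z hz w hw (e.imp (le_max_right _ _).trans_lt (le_max_right _ _).trans_lt), add_zero]
  simp only [h1.II_eq, (h _).II_eq, Finset.mul_sum]
  exact integral_finsetSum s fun i _ => (h i).integrable

theorem unfold_II (P : Part S) {H : ℂ → ℂ → ℂ} {ρ : ℝ} (hρ : ρ < 1) (hr : P.r ≤ ρ)
    {s : Finset S.Γ} (hs : ∀ γ ∉ s, ∀ z : ℂ, ‖z‖ ≤ ρ → ρ < ‖S.act γ z‖)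
    (hc : ContinuousOn (fun p : ℂ × ℂ => H p.1 p.2) (ball 0 1 ×ˢ ball 0 1))
    (h0 : ∀ z, ‖z‖ ≤ P.r → ∀ w ∈ ball (0 : ℂ) 1, ρ < ‖w‖ → H z w = 0) :
    (∀ γ, Good fun z w => P.χ z * P.χ (S.act γ w) * H z w) ∧
      hI (fun z => P.χ z * hI fun w => H z w) =
        ∑ γ ∈ s, II fun z w => P.χ z * P.χ (S.act γ w) * H z w := by
  have hg : ∀ γ, Good fun z w => P.χ z * P.χ (S.act γ w) * H z w := fun γ => by
    refine ⟨(((cont_chi P).comp_continuousOn continuousOn_fst).mul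
      ((cont_chi_act P γ).comp continuousOn_snd fun p hp => hp.2)).mul hc, ρ, hρ,
      fun z _ w hw e => ?_⟩
    beta_reduce
    rcases le_total P.r ‖z‖ with h | h
    · rw [chi_zero P h, ofReal_zero, zero_mul, zero_mul]
    · rw [h0 z h w hw (e.resolve_left (not_lt.2 (h.trans hr))), mul_zero]
  refine ⟨hg, ?_⟩
  rw [← II_sum s hg]
  simp only [← hI_const_mul]
  refine II_congr (g := fun z w => P.χ z * H z w) fun z _ w hw => ?_
  rw [← Finset.sum_mul, ← Finset.mul_sum]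
  rcases le_or_gt ‖w‖ ρ with h | h
  · rw [sum_chi P hρ hr hs h, mul_one]
  · rcases le_total P.r ‖z‖ with h' | h'
    · rw [chi_zero P h', ofReal_zero, zero_mul, zero_mul, zero_mul]
    · rw [h0 z h' w hw h, mul_zero, mul_zero]

/-- Twice the antiholomorphic component of a real linear map. -/
noncomputable def DB (L : ℂ →L[ℝ] ℂ) : ℂ := L 1 + I * L I

theorem DB_comp (L : ℂ →L[ℝ] ℂ) (d : ℂ) : DB (L.comp (d • (1 : ℂ →L[ℝ] ℂ))) = conj d * DB L := by
  have h : ∀ w : ℂ, L w = w.re * L 1 + w.im * L I := fun w => by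
    conv_lhs => rw [show w = w.re • (1 : ℂ) + w.im • I by simp]
    rw [map_add, map_smul, map_smul, real_smul, real_smul]
  have h1 : conj d = d.re - d.im * I := by
    apply Complex.ext <;> simp
  simp only [DB, ContinuousLinearMap.comp_apply, smul_apply,
    one_apply_eq_self, smul_eq_mul, mul_one]
  rw [h d, h (d * I), h1, mul_I_re, mul_I_im]
  push_cast
  linear_combination (d.im * L I) * I_mul_I

theorem wirt_inj {a c a' c' : ℂ} (h : ∀ v, wirt a c v = wirt a' c' v) : a = a' ∧ c = c' := by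
  have h1 := h 1
  have h2 := h I
  simp only [wirt_apply, map_one, mul_one, conj_I] at h1 h2
  have h3 : a - c = a' - c' := mul_right_cancel₀ I_ne_zero (by linear_combination h2)
  exact ⟨by linear_combination (h1 + h3) / 2, by linear_combination (h1 - h3) / 2⟩

theorem hasFDerivAt_conj {u : ℂ → ℂ} {a c z : ℂ} (h : HasFDerivAt u (wirt a c) z) :
    HasFDerivAt (fun z => conj (u z)) (wirt (conj c) (conj a)) z := by
  refine ((conjCLE : ℂ →L[ℝ] ℂ).hasFDerivAt.comp z h).congr_fderiv ?_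
  ext v
  simp [add_comm]

theorem hasFDerivAt_wirt {u : ℂ → ℂ} {a z : ℂ} (h : HasDerivAt u a z) :
    HasFDerivAt u (wirt a 0) z := by
  refine h.complexToReal_fderiv.congr_fderiv ?_
  ext v
  simp

theorem wirt_add (a c a' c' : ℂ) : wirt a c + wirt a' c' = wirt (a + a') (c + c') := by
  ext v
  simp
  ring

theorem wirt_sub (a c a' c' : ℂ) : wirt a c - wirt a' c' = wirt (a - a') (c - c') := by
  ext v
  simp
  ring

theorem const_of {Θ : ℂ → ℂ} (h : ∀ z ∈ ball (0 : ℂ) 1, HasFDerivAt Θ (wirt 0 0) z) {z w : ℂ}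
    (hz : z ∈ ball (0 : ℂ) 1) (hw : w ∈ ball (0 : ℂ) 1) : Θ z = Θ w := by
  refine isOpen_ball.is_const_of_fderiv_eq_zero (𝕜 := ℝ) (convex_ball _ _).isPreconnected
    (fun z hz => (h z hz).differentiableAt.differentiableWithinAt) (fun z hz => ?_) hz hw
  rw [(h z hz).fderiv]
  ext v
  simp

theorem hasDerivAt_act (γ : S.Γ) {z : ℂ} (hz : z ∈ ball (0 : ℂ) 1) :
    HasDerivAt (S.act γ) (deriv (S.act γ) z) z :=
  ((S.diffOn_act γ).differentiableAt (isOpen_ball.mem_nhds hz)).hasDerivAt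

theorem smooth_chi (P : Part S) : ContDiff ℝ 1 fun z => (P.χ z : ℂ) :=
  ofRealCLM.contDiff.comp P.smooth

theorem fderiv_chi_zero (P : Part S) {z : ℂ} (hz : P.r < ‖z‖) :
    fderiv ℝ (fun z => (P.χ z : ℂ)) z = 0 := by
  have : (fun z => (P.χ z : ℂ)) =ᶠ[𝓝 z] fun _ => 0 := by
    filter_upwards [(isOpen_lt continuous_const continuous_norm).mem_nhds hz] with w hw
    rw [chi_zero P (le_of_lt hw), ofReal_zero]
  rw [this.fderiv_eq, fderiv_fun_const, Pi.zero_apply]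

theorem cont_fderiv_chi (P : Part S) (v : ℂ) :
    Continuous fun z => fderiv ℝ (fun z => (P.χ z : ℂ)) z v :=
  ((smooth_chi P).continuous_fderiv one_ne_zero).clm_apply continuous_const

/-- The antiholomorphic derivative of the partition function pairs to zero with invariant forms. -/
theorem integral_DB (P : Part S) {Φ : ℂ → ℂ} (hc : ContinuousOn Φ (ball 0 1))
    (hinv : ∀ γ, ∀ z ∈ ball (0 : ℂ) 1, Φ (S.act γ z) * deriv (S.act γ) z = Φ z) :
    ∫ z, DB (fderiv ℝ (fun z => (P.χ z : ℂ)) z) * Φ z = 0 := by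
  obtain ⟨ρ, hr, hρ⟩ := exists_between P.r_lt
  obtain ⟨s, -, hs⟩ := exists_fin S hρ
  set β : ℂ → ℂ := fun z => DB (fderiv ℝ (fun z => (P.χ z : ℂ)) z) with hβ
  have hβc : Continuous β := (cont_fderiv_chi P 1).add (continuous_const.mul (cont_fderiv_chi P I))
  have hβ0 : ∀ z, P.r < ‖z‖ → β z = 0 := fun z hz => by
    simp only [hβ, fderiv_chi_zero P hz, DB, zero_apply, mul_zero, add_zero]
  let f : ℂ → ℂ := fun z => β z * Φ z * (dens z : ℂ)⁻¹
  have hfc : ContinuousOn f (ball 0 1) :=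
    (hβc.continuousOn.mul hc).mul (cont_dens.inv₀ fun z hz => dens_ne hz)
  have hf0 : ∀ z, P.r < ‖z‖ → f z = 0 := fun z hz => by
    simp only [f, hβ0 z hz, zero_mul]
  have h1 : hI f = ∫ z, β z * Φ z := by
    rw [hI, setIntegral_congr_fun (g := fun z => β z * Φ z) measurableSet_ball fun z hz => ?_,
      setIntegral_eq_integral_of_forall_compl_eq_zero fun z hz => ?_]
    · rw [hβ0 z (P.r_lt.trans_le (not_lt.1 fun h => hz (mem_ball_zero_iff.2 h))), zero_mul]
    · simp only [f]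
      rw [mul_comm, mul_assoc, inv_mul_cancel₀ (dens_ne hz), mul_one]
  have h2 := P.unfold (f := f) (integrableOn_ball (cont_dens.mul hfc) P.r_lt fun z _ hz => by
    rw [hf0 z hz, mul_zero])
  have h3 : hI f = ∑ γ ∈ s, hI fun z => P.χ z * f (S.act γ z) := by
    refine h2.unique (hasSum_sum_of_ne_finset_zero fun γ hγ => ?_)
    refine (hI_congr fun z _ => ?_).trans hI_zero
    rcases le_total P.r ‖z‖ with h | h
    · rw [chi_zero P h, ofReal_zero, zero_mul]
    · rw [hf0 _ (hr.trans (hs γ hγ z (h.trans hr.le))), mul_zero]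
  change ∫ z, β z * Φ z = 0
  rw [← h1, h3]
  simp only [hI]
  rw [← integral_finsetSum]
  · refine setIntegral_eq_zero_of_forall_eq_zero fun z hz => ?_
    rw [← Finset.mul_sum, ← Finset.mul_sum]
    rcases le_total P.r ‖z‖ with h | h
    · rw [chi_zero P h, ofReal_zero, zero_mul, mul_zero]
    have h4 : HasFDerivAt (fun z => ∑ γ ∈ s, (P.χ (S.act γ z) : ℂ))
        (∑ γ ∈ s, (fderiv ℝ (fun z => (P.χ z : ℂ)) (S.act γ z)).comp
          (deriv (S.act γ) z • (1 : ℂ →L[ℝ] ℂ))) z :=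
      HasFDerivAt.fun_sum fun γ _ =>
        ((smooth_chi P).differentiable one_ne_zero _).hasFDerivAt.comp z
          (hasDerivAt_act γ hz).complexToReal_fderiv
    have h5 : HasFDerivAt (fun z => ∑ γ ∈ s, (P.χ (S.act γ z) : ℂ)) (0 : ℂ →L[ℝ] ℂ) z := by
      refine (hasFDerivAt_const (1 : ℂ) z).congr_of_eventuallyEq ?_
      filter_upwards [(isOpen_lt continuous_norm continuous_const).mem_nhds (h.trans_lt hr)]
        with w hw using sum_chi P hρ hr.le hs (le_of_lt hw)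
    have h6 : ∑ γ ∈ s, conj (deriv (S.act γ) z) * β (S.act γ z) = 0 := by
      have := congrArg DB (h4.unique h5)
      simp only [hβ, ← DB_comp]
      simpa only [DB, sum_apply, zero_apply, mul_zero,
        add_zero, Finset.mul_sum, ← Finset.sum_add_distrib] using this
    have h7 : ∑ γ ∈ s, f (S.act γ z) =
        (∑ γ ∈ s, conj (deriv (S.act γ) z) * β (S.act γ z)) * (Φ z * (dens z : ℂ)⁻¹) := by
      rw [Finset.sum_mul]
      refine Finset.sum_congr rfl fun γ _ => ?_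
      simp only [f]
      rw [dens_act γ hz, ← hinv γ z hz]
      ring
    rw [h7, h6, zero_mul, mul_zero, mul_zero]
  · intro γ _
    refine integrableOn_ball (cont_dens.mul ((cont_chi P).continuousOn.mul
      (hfc.comp (S.diffOn_act γ).continuousOn fun z hz => S.act_mem γ hz))) P.r_lt
      fun z _ hz => ?_
    rw [chi_zero P hz.le, ofReal_zero, zero_mul, mul_zero]

theorem pI_eq_real (P : Part S) (F : ℂ → ℂ) :
    P.pI (fun z => F z * conj (F z)) = ((∫ z, P.χ z * ‖F z‖ ^ 2 : ℝ) : ℂ) := by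
  rw [Part.pI, ← integral_complex_ofReal]
  simp only [mul_conj, normSq_eq_norm_sq, ofReal_mul]

end Stokes

theorem Part.swap (P : Part S) {H : ℂ → ℂ → ℂ} {T : ℝ}
    (hc : ContinuousOn (fun p : ℂ × ℂ => H p.1 p.2) (ball 0 1 ×ˢ ball 0 1))
    (hinv : ∀ γ, ∀ z ∈ ball (0 : ℂ) 1, ∀ w ∈ ball (0 : ℂ) 1, H (S.act γ z) (S.act γ w) = H z w)
    (h0 : ∀ z ∈ ball (0 : ℂ) 1, ∀ w ∈ ball (0 : ℂ) 1, T < pd z w → H z w = 0) :
    hI (fun z => P.χ z * hI fun w => H z w) = hI fun w => P.χ w * hI fun z => H z w := by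
  obtain ⟨ρ, hρ, hr, hT⟩ := exists_pd_le P.r_lt T
  obtain ⟨s, hs', hs⟩ := Stokes.exists_fin S hρ
  have hm : ∀ z : ℂ, ‖z‖ ≤ P.r → z ∈ ball (0 : ℂ) 1 := fun z hz =>
    mem_ball_zero_iff.2 (hz.trans_lt P.r_lt)
  have hl : ∀ z : ℂ, ‖z‖ ≤ P.r → ∀ w ∈ ball (0 : ℂ) 1, ρ < ‖w‖ → T < pd z w := fun z hz w hw h =>
    not_le.1 fun h' => (hT z w hz hw h').not_gt h
  obtain ⟨-, h1⟩ := Stokes.unfold_II P hρ hr hs hc fun z hz w hw h =>
    h0 z (hm z hz) w hw (hl z hz w hw h)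
  obtain ⟨hg, h2⟩ := Stokes.unfold_II P (H := fun w z => H z w) hρ hr hs
    (hc.comp continuous_swap.continuousOn fun p hp => ⟨hp.2, hp.1⟩) fun z hz w hw h =>
      h0 w hw z (hm z hz) (pd_comm z w ▸ hl z hz w hw h)
  rw [h1, h2]
  refine Finset.sum_equiv (Equiv.inv S.Γ) hs' fun γ _ => ?_
  rw [← (hg _).II_flip, ← Stokes.II_act γ⁻¹]
  refine Stokes.II_congr fun z hz w hw => ?_
  rw [Stokes.act_inv S γ hw, hinv _ z hz w hw, Equiv.inv_apply, mul_comm (P.χ w : ℂ)]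

theorem Part.stokes (P : Part S) {u a c F : ℂ → ℂ} (ha : ContinuousOn a (ball 0 1))
    (hc : ContinuousOn c (ball 0 1)) (hu : ∀ z ∈ ball (0 : ℂ) 1, HasFDerivAt u (wirt (a z) (c z)) z)
    (hF : DifferentiableOn ℂ F (ball 0 1))
    (hinv : ∀ γ, ∀ z ∈ ball (0 : ℂ) 1,
      u (S.act γ z) * F (S.act γ z) * deriv (S.act γ) z = u z * F z) :
    P.pI (fun z => c z * F z) = 0 := by
  have huc : ContinuousOn u (ball 0 1) := fun z hz => (hu z hz).continuousAt.continuousWithinAt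
  have hΦc : ContinuousOn (fun z => u z * F z) (ball 0 1) := huc.mul hF.continuousOn
  have hF' : ContinuousOn (deriv F) (ball 0 1) := (hF.deriv isOpen_ball).continuousOn
  have hd : ∀ z ∈ ball (0 : ℂ) 1, HasFDerivAt (fun z => u z * F z)
      (wirt (u z * deriv F z + F z * a z) (F z * c z)) z := fun z hz => by
    refine ((hu z hz).mul (Stokes.hasFDerivAt_wirt
      (hF.differentiableAt (isOpen_ball.mem_nhds hz)).hasDerivAt)).congr_fderiv ?_
    ext v
    simp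
    ring
  have hi : ∀ v, Integrable fun z => (P.χ z : ℂ) * fderiv ℝ (fun z => u z * F z) z v := fun v => by
    refine Stokes.integrable_all ((Stokes.cont_chi P).continuousOn.mul (ContinuousOn.congr
      (f := fun z => (u z * deriv F z + F z * a z) * v + F z * c z * conj v) ?_ fun z hz => ?_))
      P.r_lt fun z hz => by rw [Stokes.chi_zero P hz.le, ofReal_zero, zero_mul]
    · exact (((huc.mul hF').add (hF.continuousOn.mul ha)).mul continuousOn_const).add
        ((hF.continuousOn.mul hc).mul continuousOn_const)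
    · simp only [(hd z hz).fderiv, wirt_apply]
  have hj : ∀ v, Integrable fun z => fderiv ℝ (fun z => (P.χ z : ℂ)) z v * (u z * F z) := fun v =>
    Stokes.integrable_all ((Stokes.cont_fderiv_chi P v).continuousOn.mul hΦc) P.r_lt fun z hz => by
      rw [Stokes.fderiv_chi_zero P hz, zero_apply, zero_mul]
  have hts : tsupport (fun z => (P.χ z : ℂ)) ⊆ ball 0 1 :=
    (closure_minimal (fun z hz => mem_closedBall_zero_iff.2 (P.supp z fun h =>
      Function.mem_support.1 hz (by simp only [h, ofReal_zero])).le) isClosed_closedBall).trans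
      (closedBall_subset_ball P.r_lt)
  have hp : ∀ v, ∫ z, (P.χ z : ℂ) * fderiv ℝ (fun z => u z * F z) z v =
      -∫ z, fderiv ℝ (fun z => (P.χ z : ℂ)) z v * (u z * F z) := fun v =>
    integral_mul_fderiv_eq_neg_fderiv_mul_of_integrable (hj v) (hi v)
      (Stokes.integrable_all ((Stokes.cont_chi P).continuousOn.mul hΦc) P.r_lt fun z hz => by
        rw [Stokes.chi_zero P hz.le, ofReal_zero, zero_mul])
      (fun z _ => (Stokes.smooth_chi P).differentiable one_ne_zero z)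
      fun z hz => (hd z (hts hz)).differentiableAt
  have h1 := Stokes.integral_DB P hΦc hinv
  simp only [Stokes.DB, add_mul, mul_assoc I] at h1
  rw [integral_add (hj 1) ((hj I).const_mul I), integral_const_mul] at h1
  have h2 : 2 * P.pI (fun z => c z * F z) =
      (∫ z, (P.χ z : ℂ) * fderiv ℝ (fun z => u z * F z) z 1) +
        I * ∫ z, (P.χ z : ℂ) * fderiv ℝ (fun z => u z * F z) z I := by
    rw [Part.pI, ← integral_const_mul, ← integral_const_mul,
      ← integral_add (hi 1) ((hi I).const_mul I)]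
    refine integral_congr_ae (.of_forall fun z => ?_)
    rcases le_total P.r ‖z‖ with h | h
    · simp only [Stokes.chi_zero P h, ofReal_zero, zero_mul, mul_zero, add_zero]
    · simp only [(hd z (mem_ball_zero_iff.2 (h.trans_lt P.r_lt))).fderiv, wirt_apply, map_one,
        conj_I]
      linear_combination (P.χ z * (F z * c z - (u z * deriv F z + F z * a z))) * I_mul_I
  rw [hp, hp] at h2
  linear_combination h2 / 2 - h1 / 2

theorem Part.eq_zero_of_pI (P : Part S) {F : ℂ → ℂ} (hF : DifferentiableOn ℂ F (ball 0 1))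
    (h : P.pI (fun z => F z * conj (F z)) = 0) : ∀ z ∈ ball (0 : ℂ) 1, F z = 0 := by
  rw [Stokes.pI_eq_real, ofReal_eq_zero] at h
  have hc : ContinuousOn (fun z => P.χ z * ‖F z‖ ^ 2) (ball 0 1) :=
    P.smooth.continuous.continuousOn.mul (hF.continuousOn.norm.pow 2)
  rw [integral_eq_zero_iff_of_nonneg (fun z => mul_nonneg (P.nonneg z) (sq_nonneg _))
    (Stokes.integrable_all hc P.r_lt fun z hz => by rw [Stokes.chi_zero P hz.le, zero_mul])] at h
  have h1 := Measure.eqOn_open_of_ae_eq (ae_restrict_of_ae h) isOpen_ball hc continuousOn_const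
  obtain ⟨γ, hγ⟩ := P.exists_mem (mem_ball_self one_pos)
  have hm := S.act_mem γ (mem_ball_self one_pos)
  refine (hF.analyticOnNhd isOpen_ball).eqOn_zero_of_preconnected_of_eventuallyEq_zero
    (convex_ball _ _).isPreconnected hm ?_
  filter_upwards [isOpen_ball.mem_nhds hm,
    (isOpen_lt continuous_const P.smooth.continuous).mem_nhds hγ] with z hz hz'
  exact norm_eq_zero.1 (pow_eq_zero_iff two_ne_zero |>.1
    ((mul_eq_zero.1 (h1 hz)).resolve_left (ne_of_gt hz')))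

theorem Part.pI_normSq (P : Part S) (F : ℂ → ℂ) :
    ∃ r : ℝ, 0 ≤ r ∧ P.pI (fun z => F z * conj (F z)) = r :=
  ⟨_, integral_nonneg fun z => mul_nonneg (P.nonneg z) (sq_nonneg _), Stokes.pI_eq_real P F⟩

theorem Harm.autF {θ : S.Γ → ℂ} {Θ ω ω' : ℂ → ℂ} (h : Harm S θ Θ ω ω') :
    AutF S 0 ω ∧ AutF S 0 fun z => conj (ω' z) := by
  obtain ⟨h1, h2, h3, h4⟩ := h
  have key : ∀ γ, ∀ z ∈ ball (0 : ℂ) 1, ω (S.act γ z) * deriv (S.act γ) z = ω z ∧
      ω' (S.act γ z) * conj (deriv (S.act γ) z) = ω' z := fun γ z hz => by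
    have e1 := (h3 _ (S.act_mem γ hz)).comp z (Stokes.hasDerivAt_act γ hz).complexToReal_fderiv
    have e2 : HasFDerivAt (Θ ∘ S.act γ) (wirt (ω z) (ω' z)) z := by
      refine ((h3 z hz).add_const (θ γ)).congr_of_eventuallyEq ?_
      filter_upwards [isOpen_ball.mem_nhds hz] with w hw using h4 γ w hw
    refine Stokes.wirt_inj fun v => ?_
    rw [← e1.unique e2]
    simp [mul_assoc]
  refine ⟨⟨h1, fun γ z hz => ?_⟩, h2, fun γ z hz => ?_⟩
  · rw [(key γ z hz).1, Pi.zero_apply, exp_zero, one_mul]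
  · beta_reduce
    rw [← (key γ z hz).2, Pi.zero_apply, exp_zero, one_mul, map_mul, conj_conj]

theorem Harm.eq_zero (P : Part S) {Θ ω ω' : ℂ → ℂ} (h : Harm S 0 Θ ω ω') :
    ∀ z ∈ ball (0 : ℂ) 1, ω z = 0 ∧ ω' z = 0 := by
  obtain ⟨hA, hB⟩ := h.autF
  obtain ⟨h1, h2, h3, h4⟩ := h
  have h5 : ContinuousOn ω' (ball 0 1) := by
    simpa only [Function.comp_def, conj_conj] using continuous_conj.comp_continuousOn h2.continuousOn
  have e1 := P.stokes h2.continuousOn (continuous_conj.comp_continuousOn h1.continuousOn)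
    (fun z hz => Stokes.hasFDerivAt_conj (h3 z hz)) h1 fun γ z hz => by
      rw [mul_assoc, hA.2 γ z hz, h4 γ z hz, Pi.zero_apply, add_zero, exp_zero, one_mul]
  have e2 := P.stokes h1.continuousOn h5 h3 h2 fun γ z hz => by
    rw [mul_assoc, hB.2 γ z hz, h4 γ z hz, Pi.zero_apply, add_zero, exp_zero, one_mul]
  intro z hz
  refine ⟨P.eq_zero_of_pI h1 (by simpa only [mul_comm, Function.comp_def] using e1) z hz, ?_⟩
  simpa using P.eq_zero_of_pI h2 (by simpa only [mul_comm, conj_conj] using e2) z hz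

theorem Harm.real (P : Part S) {θ : S.Γ → ℂ} {Θ ω ω' : ℂ → ℂ} (h : Harm S θ Θ ω ω')
    (hθ : ∀ γ, (θ γ).im = 0) : (∀ z ∈ ball (0 : ℂ) 1, ω' z = conj (ω z)) ∧
      ∀ z ∈ ball (0 : ℂ) 1, ∀ w ∈ ball (0 : ℂ) 1, (Θ z - Θ w).im = 0 := by
  obtain ⟨h1, h2, h3, h4⟩ := h
  have hH : Harm S 0 (fun z => Θ z - conj (Θ z)) (fun z => ω z - conj (ω' z))
      fun z => ω' z - conj (ω z) := by
    refine ⟨h1.sub h2, ?_, fun z hz => ?_, fun γ z hz => ?_⟩
    · simp only [map_sub, conj_conj]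
      exact h2.sub h1
    · rw [← Stokes.wirt_sub]
      exact (h3 z hz).sub (Stokes.hasFDerivAt_conj (h3 z hz))
    · beta_reduce
      rw [h4 γ z hz, map_add, conj_eq_iff_im.2 (hθ γ), Pi.zero_apply]
      ring
  have h5 := hH.eq_zero P
  refine ⟨fun z hz => sub_eq_zero.1 (h5 z hz).2, fun z hz w hw => ?_⟩
  have := Stokes.const_of (Θ := fun z => Θ z - conj (Θ z)) (fun z hz => by
    have := hH.2.2.1 z hz
    beta_reduce at this
    rwa [(h5 z hz).1, (h5 z hz).2] at this) hz hw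
  rw [← conj_eq_iff_im, map_sub]
  linear_combination -this

theorem Harm.period_eq_zero {θ : S.Γ → ℂ} {Θ ω ω' : ℂ → ℂ} (h : Harm S θ Θ ω ω')
    (h0 : ∀ z ∈ ball (0 : ℂ) 1, ω z = 0 ∧ ω' z = 0) : ∀ γ, θ γ = 0 := by
  intro γ
  have hz : (0 : ℂ) ∈ ball (0 : ℂ) 1 := mem_ball_self one_pos
  have := Stokes.const_of (Θ := Θ) (fun z hz => by
    have := h.2.2.1 z hz
    rwa [(h0 z hz).1, (h0 z hz).2] at this) (S.act_mem γ hz) hz
  rw [h.2.2.2 γ 0 hz] at this
  exact add_eq_left.1 this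

theorem exists_harm {F K : ℂ → ℂ} (hF : AutF S 0 F) (hK : AutF S 0 K) :
    ∃ (θ : Additive S.Γ →+ ℂ) (Θ : ℂ → ℂ),
      Harm S (fun γ => θ (Additive.ofMul γ)) Θ F fun z => conj (K z) := by
  have hz : (0 : ℂ) ∈ ball (0 : ℂ) 1 := mem_ball_self one_pos
  have key : ∀ {F : ℂ → ℂ}, AutF S 0 F → ∃ A : ℂ → ℂ, (∀ z ∈ ball (0 : ℂ) 1, HasDerivAt A (F z) z) ∧
      ∀ γ, ∀ z ∈ ball (0 : ℂ) 1, A (S.act γ z) - A z = A (S.act γ 0) - A 0 := fun {F} hF => by
    obtain ⟨A, hA⟩ := hF.1.isExactOn_ball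
    refine ⟨A, hA, fun γ z hz' => Stokes.const_of (Θ := fun z => A (S.act γ z) - A z)
      (fun w hw => Stokes.hasFDerivAt_wirt ?_) hz' hz⟩
    have := ((hA _ (S.act_mem γ hw)).comp w (Stokes.hasDerivAt_act γ hw)).sub (hA w hw)
    rwa [hF.2 γ w hw, Pi.zero_apply, exp_zero, one_mul, sub_self] at this
  obtain ⟨A, hA, hA'⟩ := key hF
  obtain ⟨B, hB, hB'⟩ := key hK
  have hp : ∀ γ, ∀ z ∈ ball (0 : ℂ) 1, A (S.act γ z) + conj (B (S.act γ z)) = A z + conj (B z) +
      (A (S.act γ 0) + conj (B (S.act γ 0)) - (A 0 + conj (B 0))) := fun γ z hz => by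
    have := congrArg conj (hB' γ z hz)
    rw [map_sub, map_sub] at this
    linear_combination hA' γ z hz + this
  refine ⟨AddMonoidHom.mk' (fun γ => A (S.act γ.toMul 0) + conj (B (S.act γ.toMul 0)) -
    (A 0 + conj (B 0))) fun γ δ => ?_, fun z => A z + conj (B z), hF.1, ?_, fun z hz => ?_, hp⟩
  · rw [toMul_add, S.act_mul _ _ _ hz, hp _ _ (S.act_mem _ hz)]
    ring
  · simpa only [conj_conj] using hK.1
  · have := (Stokes.hasFDerivAt_wirt (hA z hz)).add
      (Stokes.hasFDerivAt_conj (Stokes.hasFDerivAt_wirt (hB z hz)))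
    rwa [Stokes.wirt_add, map_zero, add_zero, zero_add] at this

end Pool.Agent.Lib.MP_de7bb2_an
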