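import Pool.Agent.Lib.MP_de7bb2_an.H20TelC

/-! Unfolding of the first variation of the roof function. TASK TEL. -/

namespace Pool.Agent.Lib.MP_de7bb2_an

open Metric Set Complex Filter

variable {G : ℕ} [hG : Fact (2 ≤ G)]

open Classical in
/-- The pairing of a backward and a forward fixed vector through the function `H`. -/
noncomputable def pairB (N : ℕ) (x : L G → ℂ) (ν μ : Vec (St G × ℕ))
    (H : StN G N → StN G N → ℂ × ℂ → ℂ) : ℂ :=
  ∑ σ, ∑ σ', if EN σ σ' then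
    ev2 (up StN.pa (-x) ν) σ (up StN.fu x μ) σ' (fun p => wt x σ * H σ σ' p) else 0

namespace Tel

open Classical

variable {B : Base G} {N : ℕ} {κ T : ℝ} {Z w : V} {g h : W G} {σ σ' : StN G N} {x : L G → ℂ}
  {ν μ : Vec (St G × ℕ)}

theorem Ok.away0 (o : Ok B N κ T) (hZ : Hyp Z) (hC : Ch G Z) {k : L G} (hS : SepA 0 h k) :
    Away B.D0 N k (lin h⁻¹ Z) := fun u hu hk hl η hη => by
  obtain ⟨a1, -, a3⟩ := o.s0 u hu hl η hη
  rw [(eq_smul_xi_of_null (B.D0.br_lift_self u η) a1).2, br_smul_left]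
  exact mul_ne_zero a1 (ne_of_le o hZ (a3 h Z hZ hC (hk ▸ hS)))

theorem Ok.away1 (o : Ok B N κ T) (hZ : Hyp Z) (hC : Ch G Z) {k : L G} (hS : SepA 1 h k) :
    Away B.D1 N k (lin h⁻¹ Z) := fun u hu hk hl η hη => by
  obtain ⟨a1, -, a3⟩ := o.s1 u hu hl η hη
  rw [(eq_smul_xi_of_null (B.D1.br_lift_self u η) a1).2, br_smul_left]
  exact mul_ne_zero a1 (ne_of_le o hZ (a3 h Z hZ hC (.inl (hk ▸ hS))))

omit hG in
theorem TT_sub (B : Base G) : TT ⊆ ball (0 : ℂ × ℂ) B.R := Rugh2.torus_sub B.one_lt_R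

theorem Ok.XT_cont (o : Ok B N κ T) (hZ : Hyp Z) (hC : Ch G Z) (h : W G) (he : EN σ σ') :
    ContinuousOn (XT B Z h σ σ') TT := by
  unfold XT
  split_ifs with hS
  · have c0 := (B.D0.diff_lift σ.pa).continuous
    have c1 := (B.D1.diff_lift (σ.hd :: σ'.fu)).continuous
    unfold XX
    refine ContinuousOn.div (by fun_prop) (by fun_prop) fun p hp => mul_ne_zero
      (o.away0 hZ hC hS.1 _ σ.pa_spec.2 rfl σ.pa_spec.1.ge _ (mem_ball2 B (TT_sub B hp)).1)
      (o.away1 hZ hC hS.2 _ ((Lev.adm_cons (Lev.fu_ne σ')).2 ⟨he.edge, σ'.fu_spec.2⟩) rfl ?_ _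
        (mem_ball2 B (TT_sub B hp)).2)
    rw [List.length_cons, σ'.fu_spec.1]
    omega
  · exact continuousOn_const

theorem Ok.Phi_cont (o : Ok B N κ T) (hZ : Hyp Z) (hC : Ch G Z) (h h' : W G) (he : EN σ σ') :
    ContinuousOn (fun p : ℂ × ℂ => Phi B Z h σ' (B.psS σ σ' p.1, p.2)) TT ∧
      ContinuousOn (fun p : ℂ × ℂ => Phi B Z h' σ (p.1, B.psU σ σ' p.2)) TT := by
  have c1 := (Rugh2.into_fst (B.into σ σ' he).1).1.continuousOn.mono (TT_sub B)
  have c2 := (Rugh2.into_snd (B.into σ σ' he).2).1.continuousOn.mono (TT_sub B)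
  exact ⟨(o.Phi_diff hZ hC h σ').continuousOn.comp (c1.prodMk continuousOn_snd)
      fun p hp => (maps B he (TT_sub B hp)).1,
    (o.Phi_diff hZ hC h' σ).continuousOn.comp (continuousOn_fst.prodMk c2)
      fun p hp => (maps B he (TT_sub B hp)).2⟩

theorem Ok.hasSum_edge (o : Ok B N κ T) (hw : Hyp w) {g₀ : W G} (hC : Ch G (lin g₀⁻¹ w))
    (he : EN σ σ') (l v : Vec (StN G N × ℕ)) (c : ℂ) :
    HasSum (fun h : W G =>
      (if cl (g₀ * h) = σ.cls then c * ev2 l σ v σ'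
        (fun p => Phi B (lin g₀⁻¹ w) (h * sr σ.hd) σ' (B.psS σ σ' p.1, p.2)) else 0) -
      (if cl (g₀ * h) = σ.cls then c * ev2 l σ v σ'
        (fun p => Phi B (lin g₀⁻¹ w) h σ (p.1, B.psU σ σ' p.2)) else 0) +
      (if cl (g₀ * h) = σ.cls then c * ev2 l σ v σ' (XT B (lin g₀⁻¹ w) h σ σ') else 0))
      (ev2 l σ v σ' fun p => c * B.rb w σ σ' p) := by
  have hZ := (iso_lin g₀⁻¹).hyp hw
  have h1 : ∀ h : W G, EqOn (TG B (lin h⁻¹ (lin g₀⁻¹ w)) σ σ') _ TT := fun h p hp =>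
    o.seg hZ hC h he (TT_sub B hp)
  have h2 := fun h : W G => o.Phi_cont hZ hC (h * sr σ.hd) h he
  have h3 := fun h : W G => o.XT_cont hZ hC h he
  have h4 := (hasSum_ev2 l σ v σ' (F := fun h p =>
    if cl (g₀ * h) = σ.cls then TG B (lin h⁻¹ (lin g₀⁻¹ w)) σ σ' p else 0)
    ((summable_uu (G := G) hZ).mul_left (T ^ 3)) (fun h => by
      split_ifs
      · exact (((h2 h).1.sub (h2 h).2).add (h3 h)).congr (h1 h)
      · exact continuousOn_const) (fun h p hp => by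
      split_ifs
      · exact o.TG_le ((iso_lin h⁻¹).hyp hZ) he (TT_sub B hp)
      · rw [norm_zero]
        exact mul_nonneg (pow_pos o.T_pos 3).le (sq_nonneg _))
    fun p hp => o.hasSum_rb hw g₀ he (TT_sub B hp)).mul_left c
  rw [ev2_const_mul]
  refine (congrArg (HasSum · _) (funext fun h => ?_)).mp h4
  split_ifs
  · rw [ev2_congr l σ v σ' (h1 h), ev2_add _ _ _ _ ((h2 h).1.fun_sub (h2 h).2) (h3 h),
      ev2_sub _ _ _ _ (h2 h).1 (h2 h).2]
    ring
  · simp [ev2, ev_const]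

/-- The contribution of a pair of cylinders. -/
noncomputable def GG (B : Base G) (x : L G → ℂ) (ν μ : Vec (St G × ℕ)) (w : V) (g : W G)
    (u u' : List (L G)) : ℂ :=
  exp (Th (-x) (g * wd u.dropLast) + Th x (g * wd u'.dropLast)) *
    ev ν (cl (g * wd u.dropLast), u.getLastD 0) fun ξ =>
      ev μ (cl (g * wd u'.dropLast), u'.getLastD 0) fun η =>
        XX (B.D0.lift u ξ) (B.D1.lift u' η) (lin g⁻¹ w)

theorem cross_term {g₀ : W G} (he : EN σ σ') (hg : cl (g₀ * h) = σ.cls) :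
    wt x σ * ev2 (up StN.pa (-x) ν) σ (up StN.fu x μ) σ' (XT B (lin g₀⁻¹ w) h σ σ') =
      if SepA 0 h (σ.pa.headD 0) ∧ SepA 1 h σ.hd then
        GG B x ν μ w (g₀ * h) σ.pa (σ.fu ++ [σ'.fu.getLastD 0]) else 0 := by
  unfold XT
  split_ifs
  · have e1 : cl (g₀ * h) = cl (sec σ.cls : W G) := by rw [cl_sec, hg]
    have e2 : cl (g₀ * h * sr σ.hd) = cl (sec σ'.cls : W G) := by
      rw [cl_sec, Hom.cl_step, hg, he.1]
    have e3 := Th_sub_congr (-x) e1 (wd σ.pa.dropLast)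
    have e4 := Th_sub_congr x e2 (wd σ'.fu.dropLast)
    have e5 := Th_step x (g₀ * h) σ.hd
    have e6 : Th (-x) (g₀ * h) = -Th x (g₀ * h) := by rw [map_neg]; rfl
    rw [he.fu_eq.1, GG, List.dropLast_cons_of_ne_nil (Lev.fu_ne σ'),
      Ext.getLastD_cons (Lev.fu_ne σ'), wd_cons, ← mul_assoc, cl_mul _ (wd σ.pa.dropLast),
      cl_mul _ (wd σ'.fu.dropLast), e1, e2, ← cl_mul, ← cl_mul, mul_inv_rev, lin_mul]
    simp only [ev2, ev_up, ev_const_mul, wt]
    rw [← mul_assoc, ← mul_assoc, ← exp_add, ← exp_add]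
    rw [hg] at e5
    congr 2
    linear_combination -e6 - e3 - e4 - e5
  · simp [ev2, ev_const]

omit hG in
theorem sum_StN (q : Q) (f : List (L G) → List (L G) → ℂ) :
    (∑ σ : StN G N, if q = σ.cls then f σ.pa σ.fu else 0) = ∑ u ∈ admF G 0 (N + 1),
      ∑ u' ∈ admF G 1 (N + 1), if Edge 1 (u.headD 0) (u'.headD 0) then f u u' else 0 := by
  refine (Finset.sum_coe_sort (stF G N) fun σ => if q = σ.1 then f σ.2.1 σ.2.2 else 0).trans ?_
  rw [stF, Finset.sum_filter, Finset.sum_product, Finset.sum_comm, Finset.sum_product]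
  refine Finset.sum_congr rfl fun u _ => Finset.sum_congr rfl fun u' _ => ?_
  split_ifs <;> simp

omit hG in
theorem sum_heads {K α : Type*} [Fintype K] [DecidableEq K] (P : K → K → Prop)
    [∀ k k', Decidable (P k k')] (s t : Finset α) (a : α → K)
    (F : α → α → ℂ) : (∑ k, ∑ k', if P k k' then ∑ u ∈ s, ∑ u' ∈ t,
      (if a u = k ∧ a u' = k' then F u u' else 0) else 0) =
      ∑ u ∈ s, ∑ u' ∈ t, if P (a u) (a u') then F u u' else 0 := by
  have h1 : ∀ u u', (if P (a u) (a u') then F u u' else 0) = ∑ k, ∑ k',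
      if P k k' then (if a u = k ∧ a u' = k' then F u u' else 0) else 0 := fun u u' => by
    rw [Finset.sum_eq_single (a u) (fun k _ hk => by simp [hk.symm]) (by simp),
      Finset.sum_eq_single (a u') (fun k _ hk => by simp [hk.symm]) (by simp)]
    simp
  simp only [h1]
  symm
  rw [Finset.sum_congr rfl fun u _ => Finset.sum_comm, Finset.sum_comm]
  refine Finset.sum_congr rfl fun k _ => ?_
  rw [Finset.sum_congr rfl fun u _ => Finset.sum_comm, Finset.sum_comm]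
  refine Finset.sum_congr rfl fun k' _ => ?_
  split_ifs <;> simp

theorem Ok.cross_sum (o : Ok B N κ T) (hw : Hyp w) {g₀ : W G} (hC : Ch G (lin g₀⁻¹ w))
    (h0 : Fixd B.D0 0 (-x) ν) (h1 : Fixd B.D1 0 x μ) (h : W G) :
    (∑ σ : StN G N, ∑ σ', if EN σ σ' then (if cl (g₀ * h) = σ.cls then wt x σ *
      ev2 (up StN.pa (-x) ν) σ (up StN.fu x μ) σ' (XT B (lin g₀⁻¹ w) h σ σ') else 0) else 0) =
    ∑ k, ∑ k', if Edge 1 k k' ∧ SepA 0 h k ∧ SepA 1 h k' then
      br (pieceV B.D0 (-x) ν w (g₀ * h) k) (pieceV B.D1 x μ w (g₀ * h) k') else 0 := by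
  have hZ := (iso_lin g₀⁻¹).hyp hw
  have e : lin h⁻¹ (lin g₀⁻¹ w) = lin (g₀ * h)⁻¹ w := by rw [mul_inv_rev, lin_mul]
  have e1 : ∀ σ : StN G N, (∑ σ', if EN σ σ' then (if cl (g₀ * h) = σ.cls then wt x σ *
      ev2 (up StN.pa (-x) ν) σ (up StN.fu x μ) σ' (XT B (lin g₀⁻¹ w) h σ σ') else 0) else 0) =
      if cl (g₀ * h) = σ.cls then ∑ m, if Edge 1 (σ.fu.getLastD 0) m then
        (if SepA 0 h (σ.pa.headD 0) ∧ SepA 1 h (σ.fu.headD 0) then
          GG B x ν μ w (g₀ * h) σ.pa (σ.fu ++ [m]) else 0) else 0 else 0 := fun σ => by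
    by_cases hg : cl (g₀ * h) = σ.cls
    · rw [if_pos hg, ← sum_EN_succ]
      refine Finset.sum_congr rfl fun σ' _ => if_ctx_congr Iff.rfl (fun he => ?_) fun _ => rfl
      rw [if_pos hg, cross_term he hg]
      rfl
    · simp only [if_neg hg, ite_self, Finset.sum_const_zero]
  have e2 : ∀ k k', (if Edge 1 k k' ∧ SepA 0 h k ∧ SepA 1 h k' then
      br (pieceV B.D0 (-x) ν w (g₀ * h) k) (pieceV B.D1 x μ w (g₀ * h) k') else 0) =
      if Edge 1 k k' ∧ SepA 0 h k ∧ SepA 1 h k' then ∑ u ∈ admF G 0 (N + 1),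
        ∑ u' ∈ admF G 1 (N + 1 + 1), (if u.headD 0 = k ∧ u'.headD 0 = k' then
          GG B x ν μ w (g₀ * h) u u' else 0) else 0 := fun k k' =>
    if_ctx_congr Iff.rfl (fun hS => br_pieceV h0 h1 hw le_rfl N.le_succ
      (e ▸ o.away0 hZ hC hS.2.1) (e ▸ o.away1 hZ hC hS.2.2)) fun _ => rfl
  simp only [e1, e2]
  rw [sum_heads (fun k k' => Edge 1 k k' ∧ SepA 0 h k ∧ SepA 1 h k') _ _
    fun u : List (L G) => u.headD 0,
    sum_StN _ fun u u' => ∑ m, if Edge 1 (u'.getLastD 0) m then (if SepA 0 h (u.headD 0) ∧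
      SepA 1 h (u'.headD 0) then GG B x ν μ w (g₀ * h) u (u' ++ [m]) else 0) else 0]
  refine Finset.sum_congr rfl fun u _ => ?_
  rw [sum_admF_snoc]
  refine Finset.sum_congr rfl fun u' hu' => ?_
  simp only [Ext.headD_snoc (Ext.ne_nil_of_mem hu')]
  split_ifs with a1 a2 a3 a4 <;> first | rfl | tauto | simp

/-- The coboundary term of a state. -/
noncomputable def aa (B : Base G) (l v : Vec (StN G N × ℕ)) (g₀ : W G) (Z : V) (σ : StN G N)
    (h : W G) : ℂ :=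
  if cl (g₀ * h) = σ.cls then ev2 l σ v σ (Phi B Z h σ) else 0

theorem Ok.summable_aa (o : Ok B N κ T) (hZ : Hyp Z) (hC : Ch G Z) (l v : Vec (StN G N × ℕ))
    (g₀ : W G) (σ : StN G N) : Summable (aa B l v g₀ Z σ) := by
  refine Summable.of_norm_bounded ((((summable_uu (G := G) hZ).mul_left
    (4 * Real.exp B.U * T / κ)).mul_left ‖v‖).mul_left ‖l‖) fun h => ?_
  unfold aa
  split_ifs
  · exact norm_ev2_le _ _ _ _ fun p hp => o.Phi_le hZ hC h σ (TT_sub B hp)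
  · have := o.T_pos
    have := o.κ_pos
    rw [norm_zero, uu]
    positivity

theorem Ok.cob (o : Ok B N κ T) (hZ : Hyp Z) (hC : Ch G Z) {l v : Vec (StN G N × ℕ)}
    (hl : FixL EN B.psS (fun σ _ => wt x σ) l) (hv : FixR EN B.psU (fun σ _ => wt x σ) v)
    (g₀ h : W G) :
    (∑ σ : StN G N, ∑ σ', if EN σ σ' then (if cl (g₀ * h) = σ.cls then wt x σ * ev2 l σ v σ'
      (fun p => Phi B Z (h * sr σ.hd) σ' (B.psS σ σ' p.1, p.2)) else 0) else 0) =
        ∑ σ, aa B l v g₀ Z σ (h * sr (σ.pa.headD 0)) ∧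
    (∑ σ : StN G N, ∑ σ', if EN σ σ' then (if cl (g₀ * h) = σ.cls then wt x σ * ev2 l σ v σ'
      (fun p => Phi B Z h σ (p.1, B.psU σ σ' p.2)) else 0) else 0) = ∑ σ, aa B l v g₀ Z σ h := by
  have h1 := fun h σ => ev2_cob B.one_lt_R B.q_lt B.into hl hv σ (o.Phi_diff hZ hC h σ)
  constructor
  · rw [Finset.sum_comm]
    refine Finset.sum_congr rfl fun σ' _ => ?_
    have h2 : ∀ σ, EN σ σ' →
        (cl (g₀ * h) = σ.cls ↔ cl (g₀ * (h * sr (σ'.pa.headD 0))) = σ'.cls) := fun σ he => by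
      rw [← mul_assoc, Hom.cl_step, head_pa he, he.1, add_left_inj]
    rw [aa, ← (h1 _ σ').1]
    split_ifs with hg
    · refine Finset.sum_congr rfl fun σ _ => if_ctx_congr Iff.rfl (fun he => ?_) fun _ => rfl
      rw [if_pos ((h2 σ he).2 hg), head_pa he]
    · refine Finset.sum_eq_zero fun σ _ => ?_
      split_ifs with he h3
      exacts [(hg ((h2 σ he).1 h3)).elim, rfl, rfl]
  · refine Finset.sum_congr rfl fun σ _ => ?_
    rw [aa, ← (h1 _ σ).2]
    split_ifs <;> simp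

end Tel

theorem tel (B : Base G) : ∀ᶠ N in atTop, ∀ w, Hyp w → ∀ x : L G → ℂ, NR 0 x →
    ∀ ν μ, Fixd B.D0 0 (-x) ν → Fixd B.D1 0 x μ →
      pairB N x ν μ (B.rb w) = br (totV B.D0 (-x) ν w) (totV B.D1 x μ w) := by
  obtain ⟨κ, T, ho⟩ := Tel.exists_ok B
  filter_upwards [ho] with N o w hw x hN ν μ h0 h1
  obtain ⟨g₀, hC⟩ := exists_chamber (G := G) hw
  have hZ := (iso_lin g₀⁻¹).hyp hw
  have h2 := o.summable_aa hZ hC (up StN.pa (-x) ν) (up StN.fu x μ) g₀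
  have h3 := o.cob hZ hC (fixL_up B h0) (fixR_up B h1) g₀
  have s1 := (hasSum_sum (s := Finset.univ) fun σ _ =>
    Loc.hasSum_shift (h2 σ) (sr (σ.pa.headD 0))).sub
      (hasSum_sum (s := Finset.univ) fun σ _ => (h2 σ).hasSum)
  have s2 := s1.add (hasSum_loc (masses_pieceV h0 hN.neg hw g₀) (masses_pieceV h1 hN hw g₀)
    (summable_pieceV h0 h1 hw hC))
  rw [sub_self, zero_add] at s2
  simp only [← (h3 _).1, ← (h3 _).2, ← o.cross_sum hw hC h0 h1, ← Finset.sum_sub_distrib,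
    ← Finset.sum_add_distrib] at s2
  refine HasSum.unique (hasSum_sum fun σ _ => hasSum_sum fun σ' _ => ?_) s2
  split_ifs with he
  · exact o.hasSum_edge hw hC he _ _ _
  · simp

end Pool.Agent.Lib.MP_de7bb2_an
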