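import Pool.Agent.Lib.MP_de7bb2_an.H20Equi
import Pool.Agent.Lib.MP_de7bb2_an.H20Loc

/-! Vector valued masses of arcs. TASK TELA. -/

namespace Pool.Agent.Lib.MP_de7bb2_an

open Metric Set Complex Filter

variable {G : ℕ} [hG : Fact (2 ≤ G)] {b : ZMod 2} {D : Nest G b} {x : L G → ℂ}
  {μ : Vec (St G × ℕ)} {w : V}

noncomputable def pieceV (D : Nest G b) (x : L G → ℂ) (μ : Vec (St G × ℕ)) (w : V) (g : W G)
    (m : L G) : V :=
  (piece D x μ g m fun E => E.1 / br E w, piece D x μ g m fun E => E.2.1 / br E w,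
    piece D x μ g m fun E => E.2.2 / br E w)

noncomputable def totV (D : Nest G b) (x : L G → ℂ) (μ : Vec (St G × ℕ)) (w : V) : V :=
  (tot D x μ fun E => E.1 / br E w, tot D x μ fun E => E.2.1 / br E w,
    tot D x μ fun E => E.2.2 / br E w)

namespace TelA

omit hG in
theorem test0 (hw : Hyp w) : Test 0 fun E : V => E.1 / br E w := (deg0_div hw mk0).test

omit hG in
theorem test1 (hw : Hyp w) : Test 0 fun E : V => E.2.1 / br E w := (deg0_div hw mk1).test

omit hG in
theorem test2 (hw : Hyp w) : Test 0 fun E : V => E.2.2 / br E w := (deg0_div hw mk2).test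

theorem xi_close {y y₀ : ℂ} {δ : ℝ} (h0 : ‖y₀‖ = 1) (hδ : δ ≤ 1 / 2) (h : ‖y - y₀‖ < δ) :
    ‖xi y‖ ≤ 2 ∧ ‖xi y - xi y₀‖ ≤ 2 * δ := by
  have h1 : ‖y‖ ≤ 3 / 2 := by
    have := norm_add_le (y - y₀) y₀
    rw [sub_add_cancel] at this
    linarith
  have h2 : 1 / 2 ≤ ‖y‖ := by
    have := norm_sub_le y (y - y₀)
    rw [sub_sub_cancel] at this
    linarith
  have hy : y ≠ 0 := by
    intro e
    rw [e, norm_zero] at h2
    linarith
  have hy0 : y₀ ≠ 0 := by
    intro e
    rw [e, norm_zero] at h0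
    linarith
  have h3 : ‖y⁻¹‖ ≤ 2 := by
    rw [norm_inv, inv_le_comm₀ (by linarith) (by norm_num)]
    linarith
  have hd : 0 ≤ ‖y - y₀‖ := norm_nonneg _
  have h4 : ‖y⁻¹ - y₀⁻¹‖ ≤ 2 * δ := by
    have e : y⁻¹ - y₀⁻¹ = -(y⁻¹ * (y - y₀) * y₀⁻¹) := by
      field_simp
      ring
    rw [e, norm_neg, norm_mul, norm_mul, norm_inv y₀, h0, inv_one, mul_one]
    exact mul_le_mul h3 h.le hd (by norm_num)
  constructor
  · simp only [xi, Prod.norm_def, norm_one]
    exact max_le (by norm_num) (max_le (by linarith) h3)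
  · simp only [xi, Prod.mk_sub_mk, Prod.norm_def, sub_self, norm_zero]
    exact max_le (by linarith) (max_le (by linarith) h4)

end TelA

open TelA

theorem masses_pieceV (h : Fixd D 0 x μ) (hN : NR 0 x) (hw : Hyp w) (g₀ : W G) :
    Masses b (fun g => pieceV D x μ w (g₀ * g)) (totV D x μ w) := by
  intro g
  refine ⟨?_, fun k => ⟨fun hk => ⟨?_, ?_, ?_⟩, fun hk => ?_⟩⟩
  · simp only [pieceV, totV]
    rw [← sum_piece h hN (test0 hw) (g₀ * g), ← sum_piece h hN (test1 hw) (g₀ * g),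
      ← sum_piece h hN (test2 hw) (g₀ * g)]
    refine Prod.ext ?_ (Prod.ext ?_ ?_) <;> simp only [Prod.fst_sum, Prod.snd_sum]
  · simp only [pieceV, totV, ← mul_assoc, Prod.mk_add_mk]
    rw [piece_pair_pri h hN (test0 hw) _ hk, piece_pair_pri h hN (test1 hw) _ hk,
      piece_pair_pri h hN (test2 hw) _ hk]
  · simp only [pieceV, ← mul_assoc]
    rw [piece_comm h hN (test0 hw) _ hk (Or.inl rfl), piece_comm h hN (test1 hw) _ hk (Or.inl rfl),
      piece_comm h hN (test2 hw) _ hk (Or.inl rfl)]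
  · simp only [pieceV, ← mul_assoc]
    rw [piece_comm h hN (test0 hw) _ hk (Or.inr rfl), piece_comm h hN (test1 hw) _ hk (Or.inr rfl),
      piece_comm h hN (test2 hw) _ hk (Or.inr rfl)]
  · simp only [pieceV, totV, ← mul_assoc, Prod.mk_add_mk]
    rw [piece_pair_non h hN (test0 hw) _ hk, piece_pair_non h hN (test1 hw) _ hk,
      piece_pair_non h hN (test2 hw) _ hk]

theorem exists_sep_lift (D : Nest G b) {κ : ℝ} (hκ : 0 < κ) : ∀ᶠ N in atTop, ∀ (Z : V) (m : L G),
    Fut Z → (∀ Y, Arc b m Y → κ * Y.1.re * Z.1.re ≤ (br Y Z).re) → ∀ u : List (L G), Adm b u →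
      u.headD 0 = m → N + 1 ≤ u.length → ∀ η ∈ ball (0 : ℂ) D.R, (D.lift u η).1 ≠ 0 ∧
        ‖xi (pt (D.lift u η))‖ ≤ 2 ∧ κ / 2 * Z.1.re ≤ (br (xi (pt (D.lift u η))) Z).re := by
  obtain ⟨N, hN⟩ := D.exists_thin (δ := min (1 / 2) (κ / 8)) (lt_min (by norm_num) (by linarith))
  filter_upwards [eventually_ge_atTop N] with n hn Z m hZ hs u hu hm hl η hη
  obtain ⟨h1, y₀, hy₀, hd⟩ := hN.mono hn le_rfl u hu hl η hη
  have h0 : ‖y₀‖ = 1 := by
    have := hy₀.1.norm_pt
    rwa [pt_xi] at this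
  obtain ⟨h2, h3⟩ := xi_close h0 (min_le_left _ _) hd
  refine ⟨h1, h2, ?_⟩
  have h4 := hs _ (hm ▸ hy₀)
  have h5 : (xi y₀).1.re = 1 := rfl
  rw [h5, mul_one] at h4
  have h6 := norm_br_le (xi (pt (D.lift u η)) - xi y₀) Z
  rw [hZ.norm_eq, br_sub_left] at h6
  have h7 := (abs_le.1 (abs_re_le_norm (br (xi (pt (D.lift u η))) Z - br (xi y₀) Z))).1
  rw [sub_re] at h7
  have h8 : ‖xi (pt (D.lift u η)) - xi y₀‖ ≤ κ / 4 := by
    have := min_le_right (1 / 2 : ℝ) (κ / 8)
    linarith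
  have h9 := mul_le_mul_of_nonneg_right h8 hZ.nonneg
  linarith

/-- No cylinder of length `N + 1` with head `m` meets the complex light cone of `Z`. -/
def Away (D : Nest G b) (N : ℕ) (m : L G) (Z : V) : Prop := ∀ u : List (L G), Adm b u →
  u.headD 0 = m → N + 1 ≤ u.length → ∀ η ∈ ball (0 : ℂ) D.R, br (D.lift u η) Z ≠ 0

namespace TelA

theorem good_div {N : ℕ} {g : W G} {m : L G} (ha : Away D N m (lin g⁻¹ w)) (A : V →L[ℂ] ℂ) :
    Good D N g m fun E => A E / br E w := by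
  intro u hu hm hl
  have h1 : Differentiable ℂ fun η => lin g (D.lift u η) :=
    (lin g).differentiable.comp (D.diff_lift u)
  refine DifferentiableOn.div (A.differentiable.comp h1).differentiableOn
    ((Ext.diff_br w).comp h1).differentiableOn fun η hη => ?_
  rw [br_lin_left]
  exact ha u hu hm hl η hη

omit hG in
theorem ev_comb {S : Type*} (μ : Vec (S × ℕ)) (σ : S) {A B C : ℂ → ℂ}
    (hA : ContinuousOn A (sphere 0 1)) (hB : ContinuousOn B (sphere 0 1))
    (hC : ContinuousOn C (sphere 0 1)) (n : V) :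
    ev μ σ (fun η => br (A η, B η, C η) n) = br (ev μ σ A, ev μ σ B, ev μ σ C) n := by
  have e : (fun η => br (A η, B η, C η) n) =
      fun η => n.1 * A η - (n.2.2 / 2 * B η + n.2.1 / 2 * C η) := by
    funext η
    simp only [br]
    ring
  have hB' : ContinuousOn (fun η => n.2.2 / 2 * B η) (sphere 0 1) := continuousOn_const.mul hB
  have hC' : ContinuousOn (fun η => n.2.1 / 2 * C η) (sphere 0 1) := continuousOn_const.mul hC
  have hA' : ContinuousOn (fun η => n.1 * A η) (sphere 0 1) := continuousOn_const.mul hA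
  rw [e, ev_sub μ σ hA' (hB'.fun_add hC'), ev_add μ σ hB' hC', ev_const_mul, ev_const_mul,
    ev_const_mul]
  simp only [br]
  ring

omit hG in
theorem br_sum {ι : Type*} (s : Finset ι) (A B C : ι → ℂ) (n : V) :
    br (∑ i ∈ s, A i, ∑ i ∈ s, B i, ∑ i ∈ s, C i) n = ∑ i ∈ s, br (A i, B i, C i) n := by
  simp only [br, Finset.sum_sub_distrib, ← Finset.sum_div, Finset.sum_add_distrib,
    ← Finset.sum_mul]

omit hG in
theorem len_le {N k : ℕ} (hk : N ≤ k) {u : List (L G)} (hu : u ∈ admF G b (k + 1)) :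
    N + 1 ≤ u.length := by
  rw [(mem_admF.1 hu).1]
  omega

omit hG in
theorem mem_ball (D : Nest G b) {y : ℂ} (hy : y ∈ sphere (0 : ℂ) 1) : y ∈ ball (0 : ℂ) D.R :=
  Ext.mem_ball_of_norm D (mem_sphere_zero_iff_norm.1 hy)

end TelA

theorem br_pieceV_left (h : Fixd D 0 x μ) (hw : Hyp w) {N k : ℕ} (hk : N ≤ k) {g : W G} {m : L G}
    (ha : Away D N m (lin g⁻¹ w)) (n : V) : br (pieceV D x μ w g m) (lin g n) =
      ∑ u ∈ admF G b (k + 1), if u.headD 0 = m then exp (Th x (g * wd u.dropLast)) *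
        ev μ (cl (g * wd u.dropLast), u.getLastD 0)
          (fun η => br (D.lift u η) n / br (D.lift u η) (lin g⁻¹ w)) else 0 := by
  have g0 : Good D N g m fun E => E.1 / br E w := good_div ha mk0
  have g1 : Good D N g m fun E => E.2.1 / br E w := good_div ha mk1
  have g2 : Good D N g m fun E => E.2.2 / br E w := good_div ha mk2
  rw [pieceV, piece_eq_lev h (test0 hw).hom g0 hk, piece_eq_lev h (test1 hw).hom g1 hk,
    piece_eq_lev h (test2 hw).hom g2 hk, levG, levG, levG, br_sum]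
  refine Finset.sum_congr rfl fun u hu => ?_
  by_cases hm : u.headD 0 = m
  · have hu' := (mem_admF.1 hu).2
    have hl := len_le hk hu
    have key := ev_comb μ (cl (g * wd u.dropLast), u.getLastD 0)
      (Ext.contOn_sphere D (g0 u hu' hm hl)) (Ext.contOn_sphere D (g1 u hu' hm hl))
      (Ext.contOn_sphere D (g2 u hu' hm hl)) (lin g n)
    have e : (fun η => br (D.lift u η) n / br (D.lift u η) (lin g⁻¹ w)) = fun η =>
        br ((lin g (D.lift u η)).1 / br (lin g (D.lift u η)) w,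
          (lin g (D.lift u η)).2.1 / br (lin g (D.lift u η)) w,
          (lin g (D.lift u η)).2.2 / br (lin g (D.lift u η)) w) (lin g n) := by
      funext η
      rw [← (iso_lin g).br_eq (D.lift u η) n, ← br_lin_left]
      generalize br (lin g (D.lift u η)) w = c
      simp only [br]
      ring
    simp only [if_pos hm]
    rw [e, key]
    simp only [br]
    ring
  · simp only [if_neg hm, br]
    ring

theorem br_pieceV {b' : ZMod 2} {D' : Nest G b'} {x' : L G → ℂ} {μ' : Vec (St G × ℕ)}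
    (h : Fixd D 0 x μ) (h' : Fixd D' 0 x' μ') (hw : Hyp w) {N k k' : ℕ} (hk : N ≤ k) (hk' : N ≤ k')
    {g : W G} {m m' : L G} (ha : Away D N m (lin g⁻¹ w)) (ha' : Away D' N m' (lin g⁻¹ w)) :
    br (pieceV D x μ w g m) (pieceV D' x' μ' w g m') =
      ∑ u ∈ admF G b (k + 1), ∑ u' ∈ admF G b' (k' + 1),
        if u.headD 0 = m ∧ u'.headD 0 = m' then
          exp (Th x (g * wd u.dropLast) + Th x' (g * wd u'.dropLast)) *
            ev μ (cl (g * wd u.dropLast), u.getLastD 0) (fun ξ =>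
              ev μ' (cl (g * wd u'.dropLast), u'.getLastD 0) fun η =>
                br (D.lift u ξ) (D'.lift u' η) /
                  (br (D.lift u ξ) (lin g⁻¹ w) * br (D'.lift u' η) (lin g⁻¹ w))) else 0 := by
  have e0 := br_pieceV_left h hw hk ha (lin g⁻¹ (pieceV D' x' μ' w g m'))
  rw [lin_lin_inv] at e0
  rw [e0]
  refine Finset.sum_congr rfl fun u hu => ?_
  by_cases hm : u.headD 0 = m
  · have hu1 := (mem_admF.1 hu).2
    have hl := len_le hk hu
    have e1 : (fun ξ => br (D.lift u ξ) (lin g⁻¹ (pieceV D' x' μ' w g m')) /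
        br (D.lift u ξ) (lin g⁻¹ w)) = fun ξ => ∑ u' ∈ admF G b' (k' + 1),
          if u'.headD 0 = m' then exp (Th x' (g * wd u'.dropLast)) *
            ev μ' (cl (g * wd u'.dropLast), u'.getLastD 0) (fun η =>
              br (D.lift u ξ) (D'.lift u' η) /
                (br (D.lift u ξ) (lin g⁻¹ w) * br (D'.lift u' η) (lin g⁻¹ w))) else 0 := by
      funext ξ
      rw [← br_lin_left, br_comm, br_pieceV_left h' hw hk' ha', Finset.sum_div]
      refine Finset.sum_congr rfl fun u' _ => ?_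
      by_cases hm' : u'.headD 0 = m'
      · simp only [if_pos hm']
        have e2 : (fun η => br (D.lift u ξ) (D'.lift u' η) /
            (br (D.lift u ξ) (lin g⁻¹ w) * br (D'.lift u' η) (lin g⁻¹ w))) = fun η =>
            (br (D.lift u ξ) (lin g⁻¹ w))⁻¹ *
              (br (D'.lift u' η) (D.lift u ξ) / br (D'.lift u' η) (lin g⁻¹ w)) := by
          funext η
          rw [br_comm (D'.lift u' η) (D.lift u ξ)]
          simp only [div_eq_mul_inv, mul_inv]
          ring
        rw [e2, ev_const_mul, div_eq_mul_inv]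
        ring
      · simp only [if_neg hm', zero_div]
    rw [if_pos hm, e1, ev_sum, Finset.mul_sum]
    · refine Finset.sum_congr rfl fun u' _ => ?_
      by_cases hm' : u'.headD 0 = m'
      · simp only [if_pos hm', if_pos (And.intro hm hm')]
        rw [ev_const_mul, exp_add, mul_assoc]
      · have : ¬ (u.headD 0 = m ∧ u'.headD 0 = m') := fun hh => hm' hh.2
        simp only [if_neg hm', if_neg this]
        rw [ev_const, zero_mul, mul_zero]
    · intro u' hu'
      by_cases hm' : u'.headD 0 = m'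
      · simp only [if_pos hm']
        refine continuousOn_const.mul ?_
        have c1 : Continuous fun p : ℂ × ℂ => D.lift u p.1 :=
          (D.diff_lift u).continuous.comp continuous_fst
        have c2 : Continuous fun p : ℂ × ℂ => D'.lift u' p.2 :=
          (D'.diff_lift u').continuous.comp continuous_snd
        refine continuousOn_ev (v := fun _ : ℂ => μ') _ continuousOn_const
          (F := fun ξ η => br (D.lift u ξ) (D'.lift u' η) /
            (br (D.lift u ξ) (lin g⁻¹ w) * br (D'.lift u' η) (lin g⁻¹ w))) ?_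
        refine ContinuousOn.div (Continuous.br c1 c2).continuousOn
          (((Ext.cont_br _).comp c1).mul ((Ext.cont_br _).comp c2)).continuousOn fun p hp => ?_
        exact mul_ne_zero (ha u hu1 hm hl _ (mem_ball D hp.1))
          (ha' u' (mem_admF.1 hu').2 hm' (len_le hk' hu') _ (mem_ball D' hp.2))
      · simp only [if_neg hm']
        exact continuousOn_const
  · have : ∀ u' : List (L G), ¬ (u.headD 0 = m ∧ u'.headD 0 = m') := fun _ hh => hm hh.1
    simp only [if_neg hm, if_neg (this _), Finset.sum_const_zero]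

namespace TelA

omit hG in
theorem br_ne {E Z : V} {c : ℝ} (hE : br E E = 0) (h1 : E.1 ≠ 0) (hc : 0 < c)
    (h : c ≤ (br (xi (pt E)) Z).re) : br E Z ≠ 0 := by
  rw [(eq_smul_xi_of_null hE h1).2, br_smul_left]
  refine mul_ne_zero h1 fun e => ?_
  rw [e, zero_re] at h
  linarith

omit hG in
theorem ratio_le {E E' Z : V} {c : ℝ} (hE : br E E = 0) (h1 : E.1 ≠ 0) (hE' : br E' E' = 0)
    (h1' : E'.1 ≠ 0) (hc : 0 < c) (h2 : ‖xi (pt E)‖ ≤ 2) (h2' : ‖xi (pt E')‖ ≤ 2)
    (h : c ≤ (br (xi (pt E)) Z).re) (h' : c ≤ (br (xi (pt E')) Z).re) :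
    ‖br E E' / (br E Z * br E' Z)‖ ≤ 8 * c⁻¹ ^ 2 := by
  have e : br E E' / (br E Z * br E' Z) =
      br (xi (pt E)) (xi (pt E')) / (br (xi (pt E)) Z * br (xi (pt E')) Z) := by
    have a1 : br E Z = E.1 * br (xi (pt E)) Z := by
      rw [← br_smul_left, ← (eq_smul_xi_of_null hE h1).2]
    have a2 : br E' Z = E'.1 * br (xi (pt E')) Z := by
      rw [← br_smul_left, ← (eq_smul_xi_of_null hE' h1').2]
    have a3 : br E E' = E.1 * E'.1 * br (xi (pt E)) (xi (pt E')) := by
      rw [mul_assoc, ← br_smul_right, ← br_smul_left, ← (eq_smul_xi_of_null hE h1).2,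
        ← (eq_smul_xi_of_null hE' h1').2]
    rw [a1, a2, a3, mul_mul_mul_comm, mul_div_mul_left _ _ (mul_ne_zero h1 h1')]
  have b1 : c ≤ ‖br (xi (pt E)) Z‖ := h.trans (re_le_norm _)
  have b2 : c ≤ ‖br (xi (pt E')) Z‖ := h'.trans (re_le_norm _)
  have b3 : ‖br (xi (pt E)) (xi (pt E'))‖ ≤ 8 := by
    refine (norm_br_le _ _).trans ?_
    have := mul_le_mul h2 h2' (norm_nonneg _) (by norm_num)
    linarith
  rw [e, norm_div, norm_mul, inv_pow, ← div_eq_mul_inv, sq]
  exact div_le_div₀ (by norm_num) b3 (mul_pos hc hc)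
    (mul_le_mul b1 b2 hc.le (norm_nonneg _))

omit hG in
theorem weight_le (x : L G → ℂ) (g : W G) {N : ℕ} {u u' : List (L G)} (hu : u.length = N)
    (hu' : u'.length = N) :
    ‖exp (Th (-x) (g * wd u) + Th x (g * wd u'))‖ ≤ Real.exp (2 * (N * ‖x‖)) := by
  refine (norm_exp_le_exp_norm _).trans (Real.exp_le_exp.2 ?_)
  have h1 := norm_Th_sub_le (-x) g u
  have h2 := norm_Th_sub_le x g u'
  rw [hu, norm_neg] at h1
  rw [hu'] at h2
  have e : Th (-x) (g * wd u) + Th x (g * wd u') =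
      (Th (-x) (g * wd u) - Th (-x) g) + (Th x (g * wd u') - Th x g) := by
    have : Th (-x) g = -Th x g := by rw [map_neg, Pi.neg_apply]
    rw [this]
    ring
  rw [e]
  refine (norm_add_le _ _).trans ?_
  linarith

end TelA

open Classical in
theorem summable_pieceV {D0 : Nest G 0} {D1 : Nest G 1} {ν : Vec (St G × ℕ)}
    (h0 : Fixd D0 0 (-x) ν) (h1 : Fixd D1 0 x μ) (hw : Hyp w) {g₀ : W G}
    (hC : Ch G (lin g₀⁻¹ w)) (k k' : L G) : Summable fun g : W G =>
      if SepA 0 g k ∧ SepA 1 g k' then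
        br (pieceV D0 (-x) ν w (g₀ * g) k) (pieceV D1 x μ w (g₀ * g) k') else 0 := by
  obtain ⟨κ, hκ, hsep⟩ := exists_sepA (G := G)
  obtain ⟨N, hN0, hN1⟩ := ((exists_sep_lift D0 hκ).and (exists_sep_lift D1 hκ)).exists
  have hZ₀ : Hyp (lin g₀⁻¹ w) := (iso_lin _).hyp hw
  obtain ⟨C, hlat⟩ := lattice_bound (G := G)
  have hs : Summable fun g : W G => ((lin g⁻¹ (lin g₀⁻¹ w)).1.re)⁻¹ ^ 2 := by
    have h2 := (hlat oo _ hyp_oo hZ₀).1
    simp only [br_oo_left] at h2
    exact (Equiv.inv (W G)).summable_iff.2 h2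
  refine Summable.of_norm_bounded ((((((hs.mul_left (32 * κ⁻¹ ^ 2)).mul_left ‖μ‖).mul_left
    ‖ν‖).mul_left (Real.exp (2 * (N * ‖x‖)))).mul_left
    ((admF G 1 (N + 1)).card : ℝ)).mul_left ((admF G 0 (N + 1)).card : ℝ)) fun g => ?_
  have hZ : Hyp (lin g⁻¹ (lin g₀⁻¹ w)) := (iso_lin _).hyp hZ₀
  have eZ : lin (g₀ * g)⁻¹ w = lin g⁻¹ (lin g₀⁻¹ w) := by rw [mul_inv_rev, lin_mul]
  have hc : 0 < κ / 2 * (lin g⁻¹ (lin g₀⁻¹ w)).1.re := mul_pos (by linarith) hZ.2.1
  by_cases hg : SepA 0 g k ∧ SepA 1 g k'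
  · have A0 := hN0 _ k hZ.fut fun Y hY => hsep 0 g k _ Y hZ₀ hC hg.1 hY
    have A1 := hN1 _ k' hZ.fut fun Y hY => hsep 1 g k' _ Y hZ₀ hC hg.2 hY
    have W0 : Away D0 N k (lin (g₀ * g)⁻¹ w) := fun u hu hm hl η hη => by
      rw [eZ]
      exact br_ne (D0.br_lift_self u η) (A0 u hu hm hl η hη).1 hc (A0 u hu hm hl η hη).2.2
    have W1 : Away D1 N k' (lin (g₀ * g)⁻¹ w) := fun u hu hm hl η hη => by
      rw [eZ]
      exact br_ne (D1.br_lift_self u η) (A1 u hu hm hl η hη).1 hc (A1 u hu hm hl η hη).2.2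
    rw [if_pos hg, br_pieceV h0 h1 hw le_rfl le_rfl W0 W1, eZ, ← nsmul_eq_mul]
    refine (norm_sum_le _ _).trans (Finset.sum_le_card_nsmul _ _ _ fun u hu => ?_)
    rw [← nsmul_eq_mul]
    refine (norm_sum_le _ _).trans (Finset.sum_le_card_nsmul _ _ _ fun u' hu' => ?_)
    by_cases hm : u.headD 0 = k ∧ u'.headD 0 = k'
    · rw [if_pos hm, norm_mul]
      have l0 : u.dropLast.length = N := by rw [List.length_dropLast, (mem_admF.1 hu).1]; rfl
      have l1 : u'.dropLast.length = N := by rw [List.length_dropLast, (mem_admF.1 hu').1]; rfl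
      refine mul_le_mul (weight_le x _ l0 l1) ?_ (norm_nonneg _) (Real.exp_pos _).le
      refine norm_ev_le _ _ fun ξ hξ => norm_ev_le _ _ fun η hη => ?_
      obtain ⟨a1, a2, a3⟩ := A0 u (mem_admF.1 hu).2 hm.1 (len_le le_rfl hu) ξ
        (Ext.mem_ball_of_norm D0 hξ)
      obtain ⟨b1, b2, b3⟩ := A1 u' (mem_admF.1 hu').2 hm.2 (len_le le_rfl hu') η
        (Ext.mem_ball_of_norm D1 hη)
      refine (ratio_le (D0.br_lift_self u ξ) a1 (D1.br_lift_self u' η) b1 hc a2 b2 a3 b3).trans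
        (le_of_eq ?_)
      rw [mul_inv, inv_div, div_eq_mul_inv]
      ring
    · rw [if_neg hm, norm_zero]
      positivity
  · rw [if_neg hg, norm_zero]
    positivity

end Pool.Agent.Lib.MP_de7bb2_an
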