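import Pool.Agent.Lib.MP_de7bb2_an.H20Lev

/-! Primitives along geodesic segments and double functionals. Part of TASK TEL. -/

namespace Pool.Agent.Lib.MP_de7bb2_an

open Metric Set Complex Filter

namespace Tel

section ev

variable {S : Type*} (l : Vec (S × ℕ)) (σ : S) (v : Vec (S × ℕ)) (σ' : S) {H K : ℂ × ℂ → ℂ}

/-- The torus. -/
abbrev TT : Set (ℂ × ℂ) := sphere 0 1 ×ˢ sphere 0 1

theorem mem_TT {x y : ℂ} (hx : ‖x‖ = 1) (hy : ‖y‖ = 1) : (x, y) ∈ TT :=
  ⟨mem_sphere_zero_iff_norm.2 hx, mem_sphere_zero_iff_norm.2 hy⟩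

theorem ev2_congr (h : EqOn H K TT) : ev2 l σ v σ' H = ev2 l σ v σ' K :=
  ev_congr _ _ fun _ hx => ev_congr _ _ fun _ hy => h (mem_TT hx hy)

theorem cont_inner (h : ContinuousOn H TT) :
    ContinuousOn (fun x => ev v σ' fun y => H (x, y)) (sphere 0 1) :=
  continuousOn_ev σ' (v := fun _ => v) continuousOn_const h

theorem cont_slice (h : ContinuousOn H TT) {x : ℂ} (hx : ‖x‖ = 1) :
    ContinuousOn (fun y => H (x, y)) (sphere 0 1) :=
  h.comp (by fun_prop) fun _ hy => ⟨mem_sphere_zero_iff_norm.2 hx, hy⟩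

theorem norm_ev2_le {M : ℝ} (h : ∀ p ∈ TT, ‖H p‖ ≤ M) : ‖ev2 l σ v σ' H‖ ≤ ‖l‖ * (‖v‖ * M) :=
  norm_ev_le _ _ fun _ hx => norm_ev_le _ _ fun _ hy => h _ (mem_TT hx hy)

theorem ev2_add (hH : ContinuousOn H TT) (hK : ContinuousOn K TT) :
    ev2 l σ v σ' (fun p => H p + K p) = ev2 l σ v σ' H + ev2 l σ v σ' K := by
  rw [ev2, ev2, ev2, ← ev_add _ _ (cont_inner v σ' hH) (cont_inner v σ' hK)]
  exact ev_congr _ _ fun x hx => ev_add _ _ (cont_slice hH hx) (cont_slice hK hx)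

theorem ev2_const_mul (c : ℂ) (H : ℂ × ℂ → ℂ) :
    ev2 l σ v σ' (fun p => c * H p) = c * ev2 l σ v σ' H := by
  simp only [ev2, ev_const_mul]

theorem ev2_sub (hH : ContinuousOn H TT) (hK : ContinuousOn K TT) :
    ev2 l σ v σ' (fun p => H p - K p) = ev2 l σ v σ' H - ev2 l σ v σ' K := by
  rw [ev2, ev2, ev2, ← ev_sub _ _ (cont_inner v σ' hH) (cont_inner v σ' hK)]
  exact ev_congr _ _ fun x hx => ev_sub _ _ (cont_slice hH hx) (cont_slice hK hx)

theorem hasSum_ev2 {ι : Type*} {F : ι → ℂ × ℂ → ℂ} {u : ι → ℝ} (hu : Summable u)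
    (hc : ∀ i, ContinuousOn (F i) TT) (hb : ∀ i, ∀ p ∈ TT, ‖F i p‖ ≤ u i)
    (hs : ∀ p ∈ TT, HasSum (fun i => F i p) (H p)) :
    HasSum (fun i => ev2 l σ v σ' (F i)) (ev2 l σ v σ' H) := by
  have h1 := hasSum_ev l σ (F := fun i x => ev v σ' fun y => F i (x, y)) (hu.mul_left ‖v‖)
    (fun i => cont_inner v σ' (hc i))
    fun i x hx => norm_ev_le _ _ fun y hy => hb i _ (mem_TT hx hy)
  have h2 : (ev l σ fun x => ∑' i, ev v σ' fun y => F i (x, y)) = ev2 l σ v σ' H := by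
    refine ev_congr _ _ fun x hx => ?_
    rw [(hasSum_ev v σ' hu (fun i => cont_slice (hc i) hx)
      fun i y hy => hb i _ (mem_TT hx hy)).tsum_eq]
    exact ev_congr _ _ fun y hy => (hs _ (mem_TT hx hy)).tsum_eq
  rwa [h2] at h1

end ev

open Classical in
/-- The two primitives of `br (mid E) Z ^ (-2)` along the geodesic flow. -/
noncomputable def PP (t : Prop) (E : V × V) (Z : V) : ℂ :=
  if t then 1 / (br E.2 Z * br (mid E) Z) else -1 / (br E.1 Z * br (mid E) Z)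

/-- The difference of the two primitives. -/
noncomputable def XX (A B Z : V) : ℂ := br A B / (br A Z * br B Z)

variable {x y u r : ℂ} {Z : V} {t : Prop}

theorem br_fst (x y u : ℂ) (Z : V) : br (pairE x y u).1 Z = exp u * br (xi y) Z :=
  br_smul_left _ _ _

theorem br_snd (x y u : ℂ) (Z : V) :
    br (pairE x y u).2 Z = exp (-u) * (2 / br (xi x) (xi y) * br (xi x) Z) := by
  rw [pairE, br_smul_left]
  ring

theorem br_mid (E : V × V) (Z : V) : br (mid E) Z = (br E.1 Z + br E.2 Z) / 2 := by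
  rw [mid, br_smul_left, br_add_left]
  ring

theorem hasDerivAt_PP (hb : br (xi x) (xi y) ≠ 0) (h1 : t → br (xi x) Z ≠ 0)
    (h2 : ¬ t → br (xi y) Z ≠ 0) (h3 : br (mid (pairE x y u)) Z ≠ 0) :
    HasDerivAt (fun u => PP t (pairE x y u) Z) ((br (mid (pairE x y u)) Z)⁻¹ ^ 2) u := by
  simp only [PP, br_mid, br_fst, br_snd] at h3 ⊢
  set a := br (xi y) Z
  set b := 2 / br (xi x) (xi y) * br (xi x) Z with hb'
  have d1 : HasDerivAt (fun u => exp u * a) (exp u * a) u := (hasDerivAt_exp u).mul_const a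
  have d2 : HasDerivAt (fun u => exp (-u) * b) (-(exp (-u) * b)) u := by
    simpa using (hasDerivAt_neg u).cexp.mul_const b
  have d3 := (d1.add d2).div_const 2
  have h4 : exp u * a + exp (-u) * b ≠ 0 := fun h => h3 (by rw [h, zero_div])
  by_cases ht : t
  · have h5 : exp (-u) * b ≠ 0 :=
      mul_ne_zero (exp_ne_zero _) (mul_ne_zero (div_ne_zero two_ne_zero hb) (h1 ht))
    simp only [if_pos ht]
    refine ((hasDerivAt_const u (1 : ℂ)).div (d2.mul d3) (mul_ne_zero h5 h3)).congr_deriv ?_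
    simp only [Pi.mul_apply, Pi.add_apply]
    generalize exp (-u) * b = B at *
    generalize exp u * a = A at *
    field_simp
    ring
  · have h5 : exp u * a ≠ 0 := mul_ne_zero (exp_ne_zero _) (h2 ht)
    simp only [if_neg ht]
    refine ((hasDerivAt_const u (-1 : ℂ)).div (d1.mul d3) (mul_ne_zero h5 h3)).congr_deriv ?_
    simp only [Pi.mul_apply, Pi.add_apply]
    generalize exp (-u) * b = B at *
    generalize exp u * a = A at *
    field_simp
    ring

theorem cont_seg (h3 : ∀ s ∈ Icc (0 : ℝ) 1, br (mid (pairE x y (u + s * r))) Z ≠ 0) :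
    ContinuousOn (fun s : ℝ => (br (mid (pairE x y (u + s * r))) Z)⁻¹ ^ 2) (Icc 0 1) := by
  refine (ContinuousOn.inv₀ ?_ h3).pow 2
  simp only [br_mid, br_fst, br_snd]
  fun_prop

theorem ftc (hb : br (xi x) (xi y) ≠ 0) (h1 : t → br (xi x) Z ≠ 0) (h2 : ¬ t → br (xi y) Z ≠ 0)
    (h3 : ∀ s ∈ Icc (0 : ℝ) 1, br (mid (pairE x y (u + s * r))) Z ≠ 0) :
    r * ∫ s in (0 : ℝ)..1, (br (mid (pairE x y (u + s * r))) Z)⁻¹ ^ 2 =
      PP t (pairE x y (u + r)) Z - PP t (pairE x y u) Z := by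
  have h4 := intervalIntegral.integral_eq_sub_of_hasDerivAt (a := 0) (b := 1)
    (f := fun s : ℝ => PP t (pairE x y (u + s * r)) Z)
    (f' := fun s : ℝ => r * (br (mid (pairE x y (u + s * r))) Z)⁻¹ ^ 2) (fun s hs => by
      rw [uIcc_of_le zero_le_one] at hs
      have h5 : HasDerivAt (fun z : ℂ => u + z * r) r s := by
        simpa using ((hasDerivAt_id (s : ℂ)).mul_const r).const_add u
      have h6 := ((hasDerivAt_PP hb h1 h2 (h3 s hs)).comp (s : ℂ) h5).comp_ofReal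
      rwa [mul_comm] at h6)
    ((continuousOn_const.mul (cont_seg h3)).intervalIntegrable_of_Icc zero_le_one)
  rw [intervalIntegral.integral_const_mul] at h4
  simpa using h4

theorem PP_jump (hb : br (xi x) (xi y) ≠ 0) (h1 : br (xi x) Z ≠ 0) (h2 : br (xi y) Z ≠ 0)
    (h3 : br (mid (pairE x y u)) Z ≠ 0) {t' : Prop} (ht : t) (ht' : ¬ t') :
    PP t (pairE x y u) Z = PP t' (pairE x y u) Z + XX (xi x) (xi y) Z := by
  have h4 : XX (xi x) (xi y) Z = 2 / (br (pairE x y u).1 Z * br (pairE x y u).2 Z) := by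
    have := exp_ne_zero u
    rw [XX, br_fst, br_snd, exp_neg]
    field_simp
  have h5 : br (pairE x y u).1 Z ≠ 0 := by
    rw [br_fst]; exact mul_ne_zero (exp_ne_zero _) h2
  have h6 : br (pairE x y u).2 Z ≠ 0 := by
    rw [br_snd]
    exact mul_ne_zero (exp_ne_zero _) (mul_ne_zero (div_ne_zero two_ne_zero hb) h1)
  rw [h4, PP, PP, if_pos ht, if_neg ht']
  rw [br_mid] at h3 ⊢
  have h7 : br (pairE x y u).1 Z + br (pairE x y u).2 Z ≠ 0 := fun h => h3 (by rw [h, zero_div])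
  field_simp
  ring

theorem PP_congr {t' : Prop} (h : t ↔ t') (E : V × V) (Z : V) : PP t E Z = PP t' E Z := by
  rw [propext h]

theorem XX_smul {a b : ℂ} (ha : a ≠ 0) (hb : b ≠ 0) (A B Z : V) :
    XX (a • A) (b • B) Z = XX A B Z := by
  rw [XX, XX, br_smul_left, br_smul_right, br_smul_left, br_smul_left,
    show a * br A Z * (b * br B Z) = a * (b * (br A Z * br B Z)) by ring,
    mul_div_mul_left _ _ ha, mul_div_mul_left _ _ hb]

theorem norm_PP_le {κ U T Z₀ : ℝ} {w : ℝ} (hκ : 0 < κ) (hT : 0 < T) (hZ : 0 < Z₀) (hw : |w| ≤ U)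
    (hb : br (xi x) (xi y) ≠ 0) (hx : ‖xi x‖ ≤ 2) (hy : ‖xi y‖ ≤ 2)
    (h1 : t → κ * Z₀ ≤ (br (xi x) Z).re) (h2 : ¬ t → κ * Z₀ ≤ (br (xi y) Z).re)
    (h3 : ‖(br (mid (pairE x y w)) Z)⁻¹‖ ≤ T * Z₀⁻¹) :
    ‖PP t (pairE x y w) Z‖ ≤ 4 * Real.exp U * T / κ * Z₀⁻¹ ^ 2 := by
  have key : ∀ A : ℂ, Real.exp (-U) * (κ * Z₀ / 4) ≤ ‖A‖ →
      ‖A⁻¹‖ * ‖(br (mid (pairE x y w)) Z)⁻¹‖ ≤ 4 * Real.exp U * T / κ * Z₀⁻¹ ^ 2 := fun A hA => by
    have h4 : ‖A⁻¹‖ ≤ (Real.exp (-U) * (κ * Z₀ / 4))⁻¹ := by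
      rw [norm_inv]
      exact inv_anti₀ (by positivity) hA
    refine (mul_le_mul h4 h3 (norm_nonneg _) (by positivity)).trans (le_of_eq ?_)
    rw [Real.exp_neg]
    field_simp
  obtain ⟨w1, w2⟩ := abs_le.1 hw
  rw [PP]
  split_ifs with ht
  · rw [one_div, mul_inv, norm_mul]
    refine key _ ?_
    have h4 : ‖br (xi x) (xi y)‖ ≤ 8 := (norm_br_le _ _).trans (by nlinarith [norm_nonneg (xi x)])
    have h5 : 1 / 4 ≤ ‖2 / br (xi x) (xi y)‖ := by
      rw [norm_div, le_div_iff₀ (norm_pos_iff.2 hb), norm_ofNat]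
      linarith
    have h6 := (h1 ht).trans (re_le_norm _)
    rw [br_snd, norm_mul, norm_mul, ← ofReal_neg, norm_exp_ofReal]
    exact mul_le_mul (Real.exp_le_exp.2 (by linarith))
      ((le_of_eq (by ring)).trans (mul_le_mul h5 h6 (by positivity) (norm_nonneg _)))
      (by positivity) (by positivity)
  · rw [neg_div, norm_neg, one_div, mul_inv, norm_mul]
    refine key _ ?_
    have h6 := (h2 ht).trans (re_le_norm _)
    have h7 : 0 < κ * Z₀ := by positivity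
    rw [br_fst, norm_mul, norm_exp_ofReal]
    exact mul_le_mul (Real.exp_le_exp.2 w1) (by linarith) (by positivity) (by positivity)

theorem diffAt_PP {f : ℂ × ℂ → V × V} {p : ℂ × ℂ} (hf : DifferentiableAt ℂ f p)
    (h1 : t → br (f p).2 Z ≠ 0) (h2 : ¬ t → br (f p).1 Z ≠ 0) (h3 : br (mid (f p)) Z ≠ 0) :
    DifferentiableAt ℂ (fun p => PP t (f p) Z) p := by
  have hm : DifferentiableAt ℂ (fun p => mid (f p)) p := (Hopf.diff_mid _).comp p hf
  by_cases ht : t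
  · simp only [PP, if_pos ht, one_div]
    exact DifferentiableAt.inv (by fun_prop) (mul_ne_zero (h1 ht) h3)
  · simp only [PP, if_neg ht, neg_div, one_div]
    exact (DifferentiableAt.inv (h := fun p => br (f p).1 Z * br (mid (f p)) Z) (by fun_prop)
      (mul_ne_zero (h2 ht) h3)).neg

theorem near_inv {c E : V} {T : ℝ} (hc : Hyp c) (hT : c.1.re ≤ T) (hZ : Hyp Z)
    (h : ‖E - c‖ < (8 * c.1.re)⁻¹) : br E Z ≠ 0 ∧ ‖(br E Z)⁻¹‖ ≤ 4 * T * (Z.1.re)⁻¹ := by
  obtain ⟨h1, h2⟩ := TaskB.norm_inv_le hc hZ h.le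
  refine ⟨h1, h2.trans ?_⟩
  have h3 := hc.one_le
  have h4 := hZ.one_le
  have h5 : Z.1.re / (2 * T) ≤ (br c Z).re := le_trans (by gcongr) (hc.le_br hZ.fut)
  have h6 := inv_anti₀ (div_pos (by linarith) (by linarith)) h5
  rw [inv_div, div_eq_mul_inv] at h6
  linarith

variable {G : ℕ} [hG : Fact (2 ≤ G)]

theorem br_mir (m : L G) (A Z : V) : br (mir m A) Z = br A (mir m Z) := by
  rw [← (iso_refl m).br_eq A, refl_refl]

theorem PP_mir (m : L G) (E : V × V) (Z : V) :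
    PP t (act2 (mir m) E) Z = PP t E (mir m Z) := by
  simp only [PP, br_mid, act2, br_mir]

theorem br_xi_self (hx : x ≠ 0) : br (xi x) (xi x) = 0 := by
  rw [br_xi_xi hx hx]
  simp

theorem end_eq (m : L G) {y' a b : ℂ} (hx : x ≠ 0) (hy' : y' ≠ 0)
    (h1 : (mir m (xi y')).1 ≠ 0) (h2 : (mir m (xi x)).1 ≠ 0)
    (hb : br (xi x) (xi (pt (mir m (xi y')))) ≠ 0) :
    pairE x (pt (mir m (xi y'))) (a + (log (mir m (xi y')).1 + b - a)) =
      act2 (mir m) (pairE (pt (mir m (xi x))) y' b) := by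
  set Y := mir m (xi y') with hY
  set u := a + (log Y.1 + b - a) with hu
  have hc : 2 * exp (-u) / br (xi x) (xi (pt Y)) ≠ 0 :=
    div_ne_zero (mul_ne_zero two_ne_zero (exp_ne_zero _)) hb
  have h3 : br Y Y = 0 := by rw [hY, (iso_refl m).br_eq, br_xi_self hy']
  have h4 : (act2 (mir m) (pairE x (pt Y) u)).2 =
      (2 * exp (-u) / br (xi x) (xi (pt Y))) • mir m (xi x) := map_smul _ _ _
  have h5 : (act2 (mir m) (pairE x (pt Y) u)).1 = exp b • xi y' := by
    show mir m (exp u • xi (pt Y)) = _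
    rw [show u = b + log Y.1 by rw [hu]; ring, exp_add, exp_log h1, mul_smul,
      ← (eq_smul_xi_of_null h3 h1).2, map_smul, hY, refl_refl]
  have h6 := eq_pairE (E := act2 (mir m) (pairE x (pt Y) u))
    (by rw [h4, br_smul_left, br_smul_right, (iso_refl m).br_eq, br_xi_self hx]; simp)
    (by rw [h4]; exact mul_ne_zero hc h2)
    (by
      show br (mir m _) (mir m _) = 2
      have := exp_ne_zero u
      rw [(iso_refl m).br_eq, br_fst, pairE, br_smul_right, br_comm (xi (pt Y)), exp_neg]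
      field_simp) h5
  have h7 : pt (act2 (mir m) (pairE x (pt Y) u)).2 = pt (mir m (xi x)) := by
    rw [h4]
    exact mul_div_mul_left _ _ hc
  rw [← h7, ← h6]
  exact Prod.ext (refl_refl _ _).symm (refl_refl _ _).symm

end Tel

end Pool.Agent.Lib.MP_de7bb2_an
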