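import Pool.Agent.Lib.MP_de7bb2_an.H20TelA
import Pool.Agent.Lib.MP_de7bb2_an.H20TelB

/-! The roof function as a sum of coboundaries and cross terms. Part of TASK TEL. -/

namespace Pool.Agent.Lib.MP_de7bb2_an

open Metric Set Complex Filter

namespace Tel

variable {G : ℕ} [hG : Fact (2 ≤ G)]

/-- The properties of a large level `N`. -/
structure Ok (B : Base G) (N : ℕ) (κ T : ℝ) : Prop where
  κ_pos : 0 < κ
  T_pos : 0 < T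
  s0 : ∀ u, Adm 0 u → N + 1 ≤ u.length → ∀ η ∈ ball (0 : ℂ) B.D0.R, (B.D0.lift u η).1 ≠ 0 ∧
    ‖xi (pt (B.D0.lift u η))‖ ≤ 2 ∧ ∀ (h : W G) Z, Hyp Z → Ch G Z → SepA 0 h (u.headD 0) →
      κ * (lin h⁻¹ Z).1.re ≤ (br (xi (pt (B.D0.lift u η))) (lin h⁻¹ Z)).re
  s1 : ∀ u, Adm 1 u → N + 1 ≤ u.length → ∀ η ∈ ball (0 : ℂ) B.D1.R, (B.D1.lift u η).1 ≠ 0 ∧
    ‖xi (pt (B.D1.lift u η))‖ ≤ 2 ∧ ∀ (h : W G) Z, Hyp Z → Ch G Z →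
      (SepA 1 h (u.headD 0) ∨ ∃ k, ¬ SepA 0 h k ∧ Edge 1 k (u.headD 0)) →
      κ * (lin h⁻¹ Z).1.re ≤ (br (xi (pt (B.D1.lift u η))) (lin h⁻¹ Z)).re
  st : ∀ σ : StN G N, ∀ p ∈ ball (0 : ℂ × ℂ) B.R,
    br (xi (B.xP σ p.1)) (xi (B.yP σ p.2)) ≠ 0 ∧ ∀ Z, Hyp Z →
      br (mid (pairE (B.xP σ p.1) (B.yP σ p.2) (B.v σ.hd))) Z ≠ 0 ∧
      ‖(br (mid (pairE (B.xP σ p.1) (B.yP σ p.2) (B.v σ.hd))) Z)⁻¹‖ ≤ T * (Z.1.re)⁻¹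
  tr : ∀ σ σ' : StN G N, EN σ σ' → ∀ p ∈ ball (0 : ℂ × ℂ) B.R, ‖B.r0 σ σ' p‖ ≤ T ∧
    (mir σ.hd (xi (B.yP σ' p.2))).1 ≠ 0 ∧ (mir σ.hd (xi (B.xP σ p.1))).1 ≠ 0 ∧
    pt (mir σ.hd (xi (B.yP σ' p.2))) = B.yP σ (B.psU σ σ' p.2) ∧
    pt (mir σ.hd (xi (B.xP σ p.1))) = B.xP σ' (B.psS σ σ' p.1) ∧
    ∀ s ∈ Icc (0 : ℝ) 1, ∀ Z, Hyp Z →
      br (mid (pairE (B.xP σ p.1) (B.yP σ (B.psU σ σ' p.2)) (B.v σ.hd + s * B.r0 σ σ' p))) Z ≠ 0 ∧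
      ‖(br (mid (pairE (B.xP σ p.1) (B.yP σ (B.psU σ σ' p.2))
        (B.v σ.hd + s * B.r0 σ σ' p))) Z)⁻¹‖ ≤ T * (Z.1.re)⁻¹

omit hG in
theorem mem_ball2 (B : Base G) {p : ℂ × ℂ} (hp : p ∈ ball (0 : ℂ × ℂ) B.R) :
    p.1 ∈ ball (0 : ℂ) B.D0.R ∧ p.2 ∈ ball (0 : ℂ) B.D1.R :=
  ⟨mem_ball_zero_iff.2
      (((norm_fst_le p).trans_lt (mem_ball_zero_iff.1 hp)).trans_le (min_le_left _ _)),
    mem_ball_zero_iff.2
      (((norm_snd_le p).trans_lt (mem_ball_zero_iff.1 hp)).trans_le (min_le_right _ _))⟩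

theorem fut_zero : Fut (0 : V) := ⟨⟨rfl, by simp⟩, by simp⟩

theorem exists_ok (B : Base G) : ∃ κ T, ∀ᶠ N in atTop, Ok B N κ T := by
  obtain ⟨κ₁, h₁, hs₁⟩ := exists_sepA (G := G)
  obtain ⟨κ₂, h₂, hs₂⟩ := exists_sepA_not (G := G)
  obtain ⟨δ, hδ, T, hn⟩ := exists_hnear B.κ_pos B.U
  have hδ' : 0 < min δ 1 := lt_min hδ one_pos
  obtain ⟨N0, h0⟩ := B.D0.exists_thin hδ
  obtain ⟨N1, h1⟩ := B.D1.exists_thin hδ
  have hκ : 0 < min κ₁ κ₂ := lt_min h₁ h₂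
  have hm : ∀ {κ' : ℝ} {Y Z : V}, min κ₁ κ₂ ≤ κ' → Nul Y → Hyp Z →
      κ' * Y.1.re * Z.1.re ≤ (br Y Z).re → min κ₁ κ₂ * Y.1.re * Z.1.re ≤ (br Y Z).re :=
    fun h hY hZ h' => le_trans (by
      have := hY.2.1
      have := hZ.2.1
      gcongr) h'
  have hT : ∀ {c E Z : V}, Hyp c → c.1.re ≤ T → Hyp Z → ‖E - c‖ < (8 * c.1.re)⁻¹ →
      br E Z ≠ 0 ∧ ‖(br E Z)⁻¹‖ ≤ max (4 * T) (|B.U| + 1) * (Z.1.re)⁻¹ := fun hc hT hZ h =>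
    ⟨(near_inv hc hT hZ h).1, (near_inv hc hT hZ h).2.trans
      (mul_le_mul_of_nonneg_right (le_max_left _ _) (inv_pos.2 hZ.2.1).le)⟩
  refine ⟨min κ₁ κ₂ / 2, max (4 * T) (|B.U| + 1), ?_⟩
  filter_upwards [eventually_ge_atTop N0, eventually_ge_atTop N1, exists_sep_lift B.D0 hκ,
    exists_sep_lift B.D1 hκ, B.par4_mem hδ'] with N hN0 hN1 l0 l1 hp
  refine ⟨half_pos hκ, lt_max_of_lt_right (by positivity), fun u hu hl η hη => ?_,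
    fun u hu hl η hη => ?_, fun σ p hp => ?_, fun σ σ' he p hp' => ?_⟩
  · obtain ⟨a1, a2, -⟩ := l0 0 _ fut_zero (fun Y _ => by simp [br]) u hu rfl hl η hη
    refine ⟨a1, a2, fun h Z hZ hC hS => ?_⟩
    have hZ' := (iso_lin h⁻¹).hyp hZ
    exact (l0 _ _ hZ'.fut (fun Y hY => hm (min_le_left _ _) hY.1 hZ' (hs₁ 0 h _ Z Y hZ hC hS hY))
      u hu rfl hl η hη).2.2
  · obtain ⟨a1, a2, -⟩ := l1 0 _ fut_zero (fun Y _ => by simp [br]) u hu rfl hl η hη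
    refine ⟨a1, a2, fun h Z hZ hC hS => ?_⟩
    have hZ' := (iso_lin h⁻¹).hyp hZ
    refine (l1 _ _ hZ'.fut (fun Y hY => ?_) u hu rfl hl η hη).2.2
    obtain hS | ⟨k, hk, he⟩ := hS
    · exact hm (min_le_left _ _) hY.1 hZ' (hs₁ 1 h _ Z Y hZ hC hS hY)
    · exact hm (min_le_right _ _) hY.1 hZ' (hs₂ h k _ Z Y hZ hC hk he hY)
  · obtain ⟨-, x₀, hx1, hx2⟩ := h0 σ.pa σ.pa_spec.2 (by rw [σ.pa_spec.1]; omega) _
      (mem_ball2 B hp).1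
    obtain ⟨-, y₀, hy1, hy2⟩ := h1 σ.fu σ.fu_spec.2 (by rw [σ.fu_spec.1]; omega) _
      (mem_ball2 B hp).2
    have hD : ((B.xP σ p.1, B.yP σ p.2, (B.v σ.hd : ℂ), (0 : ℂ)) : C4) ∈ HDom B.κ B.U δ :=
      ⟨x₀, y₀, B.v σ.hd, 0, Lev.norm_of_arc hx1, Lev.norm_of_arc hy1,
        B.sep _ _ σ.edge x₀ y₀ hx1 hy1, B.v_le _,
        by rw [abs_zero]; exact (abs_nonneg _).trans (B.v_le 0), by
          simp only [Prod.mk_sub_mk, Prod.norm_mk, sub_self, ofReal_zero, norm_zero, max_lt_iff]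
          exact ⟨hx2, hy2, hδ⟩⟩
    obtain ⟨-, -, a3, a4⟩ := hn _ hD
    obtain ⟨c, c1, c2, c3⟩ := a4 0 ⟨le_rfl, zero_le_one⟩
    rw [mul_zero, add_zero] at c3
    exact ⟨a3, fun Z hZ => hT c1 c2 hZ c3⟩
  · obtain ⟨a1, -, -, -, a5, a6, a7, a8⟩ := (hp σ σ' he).2 p hp'
    obtain ⟨-, -, -, a4⟩ := hn _ (HDom.mono (min_le_left _ _) a1)
    refine ⟨(Hopf.r_le (min_le_right _ _) a1).trans (le_max_right _ _),
      fun e => a5.ne' (congrArg re e), a6, a7, a8, fun s hs Z hZ => ?_⟩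
    obtain ⟨c, c1, c2, c3⟩ := a4 s hs
    rw [← a7]
    exact hT c1 c2 hZ c3

variable {B : Base G} {N : ℕ} {κ T : ℝ} {Z : V} {h : W G} {σ σ' : StN G N} {p : ℂ × ℂ}

/-- The coboundary function. -/
noncomputable def Phi (B : Base G) (Z : V) (h : W G) (σ : StN G N) (p : ℂ × ℂ) : ℂ :=
  PP (SepA 0 h (σ.pa.headD 0)) (pairE (B.xP σ p.1) (B.yP σ p.2) (B.v σ.hd)) (lin h⁻¹ Z)

/-- The majorant. -/
noncomputable def uu (Z : V) (h : W G) : ℝ := ((lin h⁻¹ Z).1.re)⁻¹ ^ 2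

theorem summable_uu (hZ : Hyp Z) : Summable (uu (G := G) Z) := by
  obtain ⟨C, hC⟩ := lattice_bound (G := G)
  have h1 := (hC oo Z hyp_oo hZ).1
  simp only [br_oo_left] at h1
  exact (Equiv.inv (W G)).summable_iff.2 h1

theorem ne_of_le {a : ℂ} (o : Ok B N κ T) (hZ : Hyp Z) (h1 : κ * (lin h⁻¹ Z).1.re ≤ a.re) :
    a ≠ 0 := fun e => by
  have := mul_pos o.κ_pos ((iso_lin h⁻¹).hyp hZ).2.1
  rw [e, zero_re] at h1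
  linarith

theorem Ok.x (o : Ok B N κ T) (σ : StN G N) {ξ : ℂ} (hξ : ξ ∈ ball (0 : ℂ) B.D0.R) :
    (B.D0.lift σ.pa ξ).1 ≠ 0 ∧ B.xP σ ξ ≠ 0 ∧ ‖xi (B.xP σ ξ)‖ ≤ 2 ∧ ∀ (h : W G) Z, Hyp Z →
      Ch G Z → SepA 0 h (σ.pa.headD 0) →
        κ * (lin h⁻¹ Z).1.re ≤ (br (xi (B.xP σ ξ)) (lin h⁻¹ Z)).re := by
  obtain ⟨a1, a2, a3⟩ := o.s0 σ.pa σ.pa_spec.2 σ.pa_spec.1.ge ξ hξ
  exact ⟨a1, (eq_smul_xi_of_null (B.D0.br_lift_self _ _) a1).1, a2, a3⟩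

theorem Ok.y (o : Ok B N κ T) (σ : StN G N) {η : ℂ} (hη : η ∈ ball (0 : ℂ) B.D1.R) :
    (B.D1.lift σ.fu η).1 ≠ 0 ∧ B.yP σ η ≠ 0 ∧ ‖xi (B.yP σ η)‖ ≤ 2 ∧ ∀ (h : W G) Z, Hyp Z →
      Ch G Z → (SepA 1 h σ.hd ∨ ¬ SepA 0 h (σ.pa.headD 0)) →
        κ * (lin h⁻¹ Z).1.re ≤ (br (xi (B.yP σ η)) (lin h⁻¹ Z)).re := by
  obtain ⟨a1, a2, a3⟩ := o.s1 σ.fu σ.fu_spec.2 σ.fu_spec.1.ge η hη
  exact ⟨a1, (eq_smul_xi_of_null (B.D1.br_lift_self _ _) a1).1, a2,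
    fun h Z hZ hC hS => a3 h Z hZ hC (hS.imp_right fun hS => ⟨_, hS, σ.edge⟩)⟩

theorem Ok.Phi_le (o : Ok B N κ T) (hZ : Hyp Z) (hC : Ch G Z) (h : W G) (σ : StN G N)
    (hp : p ∈ ball (0 : ℂ × ℂ) B.R) :
    ‖Phi B Z h σ p‖ ≤ 4 * Real.exp B.U * T / κ * uu Z h := by
  obtain ⟨-, -, a2, a3⟩ := o.x σ (mem_ball2 B hp).1
  obtain ⟨-, -, b2, b3⟩ := o.y σ (mem_ball2 B hp).2
  have hZ' := (iso_lin h⁻¹).hyp hZ
  exact norm_PP_le o.κ_pos o.T_pos hZ'.2.1 (B.v_le _) (o.st σ p hp).1 a2 b2 (a3 h Z hZ hC)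
    (fun hS => b3 h Z hZ hC (.inr hS)) ((o.st σ p hp).2 _ hZ').2

omit hG in
theorem diffAt_pairE {f g : ℂ × ℂ → ℂ} (hf : DifferentiableAt ℂ f p) (hg : DifferentiableAt ℂ g p)
    (h1 : f p ≠ 0) (h2 : g p ≠ 0) (h3 : br (xi (f p)) (xi (g p)) ≠ 0) (u : ℂ) :
    DifferentiableAt ℂ (fun p => pairE (f p) (g p) u) p := by
  have h4 : DifferentiableAt ℂ (Hopf.PE ∘ fun p => (f p, g p, u)) p :=
    DifferentiableAt.comp p (Hopf.diff_PE ⟨h1, h2, h3⟩)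
      (hf.prodMk (hg.prodMk (differentiableAt_const u)))
  exact h4

theorem Ok.Phi_diff (o : Ok B N κ T) (hZ : Hyp Z) (hC : Ch G Z) (h : W G) (σ : StN G N) :
    DifferentiableOn ℂ (Phi B Z h σ) (ball 0 B.R) := fun p hp => by
  obtain ⟨a0, a1, -, a3⟩ := o.x σ (mem_ball2 B hp).1
  obtain ⟨b0, b1, -, b3⟩ := o.y σ (mem_ball2 B hp).2
  obtain ⟨c1, c2⟩ := o.st σ p hp
  have d1 : DifferentiableAt ℂ (fun p : ℂ × ℂ => B.xP σ p.1) p :=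
    (Ext.diffAt_pt a0).comp p ((B.D0.diff_lift σ.pa p.1).comp p differentiableAt_fst)
  have d2 : DifferentiableAt ℂ (fun p : ℂ × ℂ => B.yP σ p.2) p :=
    (Ext.diffAt_pt b0).comp p ((B.D1.diff_lift σ.fu p.2).comp p differentiableAt_snd)
  have d3 : DifferentiableAt ℂ
      (fun p : ℂ × ℂ => pairE (B.xP σ p.1) (B.yP σ p.2) (B.v σ.hd)) p :=
    diffAt_pairE d1 d2 a1 b1 c1 _
  refine (diffAt_PP (t := SepA 0 h (σ.pa.headD 0)) (Z := lin h⁻¹ Z) d3 (fun hS => ?_)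
    (fun hS => ?_) (c2 _ ((iso_lin h⁻¹).hyp hZ)).1).differentiableWithinAt
  · rw [br_snd]
    exact mul_ne_zero (exp_ne_zero _)
      (mul_ne_zero (div_ne_zero two_ne_zero c1) (ne_of_le o hZ (a3 h Z hZ hC hS)))
  · rw [br_fst]
    exact mul_ne_zero (exp_ne_zero _) (ne_of_le o hZ (b3 h Z hZ hC (.inr hS)))

omit hG in
theorem maps (B : Base G) (he : EN σ σ') (hp : p ∈ ball (0 : ℂ × ℂ) B.R) :
    (B.psS σ σ' p.1, p.2) ∈ ball (0 : ℂ × ℂ) B.R ∧ (p.1, B.psU σ σ' p.2) ∈ ball (0 : ℂ × ℂ) B.R := by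
  have h1 := (norm_fst_le p).trans_lt (mem_ball_zero_iff.1 hp)
  have h2 := (norm_snd_le p).trans_lt (mem_ball_zero_iff.1 hp)
  have h3 := B.q_lt.trans B.one_lt_R
  simp only [mem_ball_zero_iff, Prod.norm_mk, max_lt_iff]
  exact ⟨⟨((B.into σ σ' he).1.2 _ (mem_ball_zero_iff.2 h1)).trans_lt h3, h2⟩, h1,
    ((B.into σ σ' he).2.2 _ (mem_ball_zero_iff.2 h2)).trans_lt h3⟩

/-- The contribution of one chamber to the roof function. -/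
noncomputable def TG (B : Base G) (Z : V) (σ σ' : StN G N) (p : ℂ × ℂ) : ℂ :=
  B.r0 σ σ' p * ∫ s in (0 : ℝ)..1, (br (mid (pairE (B.xP σ p.1) (B.yP σ (B.psU σ σ' p.2))
    (B.v σ.hd + s * B.r0 σ σ' p))) Z)⁻¹ ^ 2

open Classical in
/-- The cross term. -/
noncomputable def XT (B : Base G) (Z : V) (h : W G) (σ σ' : StN G N) (p : ℂ × ℂ) : ℂ :=
  if SepA 0 h (σ.pa.headD 0) ∧ SepA 1 h σ.hd then
    XX (B.D0.lift σ.pa p.1) (B.D1.lift (σ.hd :: σ'.fu) p.2) (lin h⁻¹ Z) else 0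

omit hG in
theorem head_pa (he : EN σ σ') : σ'.pa.headD 0 = σ.hd := by rw [he.2.1]; rfl

theorem Ok.seg (o : Ok B N κ T) (hZ : Hyp Z) (hC : Ch G Z) (h : W G) (he : EN σ σ')
    (hp : p ∈ ball (0 : ℂ × ℂ) B.R) : TG B (lin h⁻¹ Z) σ σ' p =
      Phi B Z (h * sr σ.hd) σ' (B.psS σ σ' p.1, p.2) - Phi B Z h σ (p.1, B.psU σ σ' p.2) +
        XT B Z h σ σ' p := by
  obtain ⟨m1, m2⟩ := maps B he hp
  obtain ⟨a0, a1, -, a3⟩ := o.x σ (mem_ball2 B hp).1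
  obtain ⟨-, -, -, b3⟩ := o.y σ (mem_ball2 B m2).2
  obtain ⟨e0, e1, -⟩ := o.y σ' (mem_ball2 B hp).2
  obtain ⟨-, t1, t2, t3, t4, t5⟩ := o.tr σ σ' he p hp
  have c1 := (o.st σ _ m2).1
  have hZ' := (iso_lin h⁻¹).hyp hZ
  have h1 := end_eq σ.hd (a := B.v σ.hd) (b := B.v σ'.hd) a1 e1 t1 t2 (by rwa [t3])
  rw [t3, t4] at h1
  have h2 : ∀ t, PP t (pairE (B.xP σ p.1) (B.yP σ (B.psU σ σ' p.2)) (B.v σ.hd + B.r0 σ σ' p))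
      (lin h⁻¹ Z) = PP t (pairE (B.xP σ' (B.psS σ σ' p.1)) (B.yP σ' p.2) (B.v σ'.hd))
        (lin (h * sr σ.hd)⁻¹ Z) := fun t => by
    rw [Base.r0, h1, PP_mir, mul_inv_rev, lin_mul, sr_inv, lin_sr]
  have h3 : SepA 0 (h * sr σ.hd) (σ'.pa.headD 0) ↔ ¬ SepA 1 h σ.hd := by
    have := sepA_flip (h * sr σ.hd) σ.hd
    rw [Loc.ss] at this
    rw [head_pa he, this, not_not]
  rw [TG, ftc (t := SepA 0 h (σ.pa.headD 0)) c1 (fun hS => ne_of_le o hZ (a3 h Z hZ hC hS))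
    (fun hS => ne_of_le o hZ (b3 h Z hZ hC (.inr hS))) fun s hs => (t5 s hs _ hZ').1,
    Phi, Phi, ← h2, XT, sub_add_eq_add_sub, sub_left_inj]
  split_ifs with hS
  · have h4 := (t5 1 ⟨zero_le_one, le_rfl⟩ _ hZ').1
    rw [ofReal_one, one_mul] at h4
    rw [PP_jump c1 (ne_of_le o hZ (a3 h Z hZ hC hS.1)) (ne_of_le o hZ (b3 h Z hZ hC (.inl hS.2)))
      h4 hS.1 fun h5 => h3.1 h5 hS.2, add_right_inj, B.D1.lift_cons _ (Lev.fu_ne σ'),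
      (eq_smul_xi_of_null (B.D0.br_lift_self σ.pa p.1) a0).2,
      (eq_smul_xi_of_null (B.D1.br_lift_self σ'.fu p.2) e0).2, map_smul, XX_smul a0 e0, ← t3]
    have h5 : br (mir σ.hd (xi (B.yP σ' p.2))) (mir σ.hd (xi (B.yP σ' p.2))) = 0 := by
      rw [(iso_refl _).br_eq, br_xi_self e1]
    have h6 := XX_smul one_ne_zero t1 (xi (B.xP σ p.1))
      (xi (pt (mir σ.hd (xi (B.yP σ' p.2))))) (lin h⁻¹ Z)
    rw [one_smul, ← (eq_smul_xi_of_null h5 t1).2] at h6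
    exact h6.symm
  · rw [add_zero]
    refine PP_congr (Iff.trans ⟨fun h4 h5 => hS ⟨h4, h5⟩, fun h4 => ?_⟩ h3.symm) _ _
    exact (sepA_or h σ.edge).resolve_right h4

theorem Ok.TG_le (o : Ok B N κ T) (hZ : Hyp Z) (he : EN σ σ') (hp : p ∈ ball (0 : ℂ × ℂ) B.R) :
    ‖TG B Z σ σ' p‖ ≤ T ^ 3 * (Z.1.re)⁻¹ ^ 2 := by
  obtain ⟨t0, -, -, -, -, t5⟩ := o.tr σ σ' he p hp
  have h1 := intervalIntegral.norm_integral_le_of_norm_le_const (a := 0) (b := 1)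
    (C := (T * (Z.1.re)⁻¹) ^ 2) (f := fun s : ℝ => (br (mid (pairE (B.xP σ p.1)
      (B.yP σ (B.psU σ σ' p.2)) (B.v σ.hd + s * B.r0 σ σ' p))) Z)⁻¹ ^ 2) fun s hs => by
    rw [uIoc_of_le zero_le_one] at hs
    rw [norm_pow]
    exact pow_le_pow_left₀ (norm_nonneg _) (t5 s (Ioc_subset_Icc_self hs) Z hZ).2 2
  rw [TG, norm_mul]
  refine (mul_le_mul t0 h1 (norm_nonneg _) o.T_pos.le).trans (le_of_eq ?_)
  norm_num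
  ring

theorem hasSum_cls {w : V} (g₀ : W G) (q : Q) {f : V → ℂ} {a : ℂ}
    (hf : HasSum (fun γ : Gam G => f (fam (sec q : W G) w γ)) a) :
    HasSum (fun h : W G => if cl (g₀ * h) = q then f (lin h⁻¹ (lin g₀⁻¹ w)) else 0) a := by
  have hi : Function.Injective fun γ : Gam G => g₀⁻¹ * ((γ : W G)⁻¹ * sec q) := fun γ γ' e =>
    Subtype.ext (inv_injective (mul_right_cancel (mul_left_cancel e)))
  refine (hi.hasSum_iff fun h hh => if_neg fun e => hh ⟨⟨sec q * (g₀ * h)⁻¹, ?_⟩, ?_⟩).1 ?_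
  · rw [mem_Gam, cl_mul, cl_sec, cl_inv, e, Hom.q_add_self]
  · simp only
    group
  · have e : ((fun h : W G => if cl (g₀ * h) = q then f (lin h⁻¹ (lin g₀⁻¹ w)) else 0) ∘
        fun γ : Gam G => g₀⁻¹ * ((γ : W G)⁻¹ * sec q)) = fun γ => f (fam (sec q : W G) w γ) := by
      funext γ
      rw [Function.comp_apply, mul_inv_cancel_left, if_pos (by
        rw [cl_mul, cl_inv, mem_Gam.1 γ.2, cl_sec, zero_add]), ← lin_mul, fam]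
      congr 3
      group
    rwa [e]

theorem Ok.hasSum_rb (o : Ok B N κ T) {w : V} (hw : Hyp w) (g₀ : W G) (he : EN σ σ')
    (hp : p ∈ ball (0 : ℂ × ℂ) B.R) :
    HasSum (fun h : W G => if cl (g₀ * h) = σ.cls then TG B (lin h⁻¹ (lin g₀⁻¹ w)) σ σ' p else 0)
      (B.rb w σ σ' p) := by
  obtain ⟨-, -, -, t3, -, t5⟩ := o.tr σ σ' he p hp
  refine hasSum_cls g₀ σ.cls (f := fun Z => TG B Z σ σ' p) ?_
  obtain ⟨Cb, hF⟩ := exists_famy (G := G)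
  obtain ⟨h1, h2⟩ := hF (sec σ.cls) w hw
  have h3 : Summable fun γ : Gam G => (T * ((fam (sec σ.cls : W G) w γ).1.re)⁻¹) ^ 2 := by
    simpa only [mul_pow, br_oo_left] using (h2 oo hyp_oo).1.mul_left (T ^ 2)
  have h4 : ∀ γ, ∀ s ∈ uIoc (0 : ℝ) 1, ‖(br (mid (pairE (B.xP σ p.1) (B.yP σ (B.psU σ σ' p.2))
      (B.v σ.hd + s * B.r0 σ σ' p))) (fam (sec σ.cls : W G) w γ))⁻¹ ^ 2‖ ≤
        (T * ((fam (sec σ.cls : W G) w γ).1.re)⁻¹) ^ 2 := fun γ s hs => by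
    rw [uIoc_of_le zero_le_one] at hs
    rw [norm_pow]
    exact pow_le_pow_left₀ (norm_nonneg _) (t5 s (Ioc_subset_Icc_self hs) _ (h1 γ)).2 2
  rw [Base.rb, rbF, Base.par4, t3]
  refine HasSum.mul_left _ (intervalIntegral.hasSum_integral_of_dominated_convergence
    (fun γ _ => (T * ((fam (sec σ.cls : W G) w γ).1.re)⁻¹) ^ 2) (fun γ => ?_)
    (fun γ => .of_forall (h4 γ)) (.of_forall fun _ _ => h3) intervalIntegrable_const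
    (.of_forall fun s hs => (Summable.of_norm_bounded h3 fun γ => h4 γ s hs).hasSum))
  rw [uIoc_of_le zero_le_one]
  exact ((cont_seg fun s hs => (t5 s hs _ (h1 γ)).1).mono
    Ioc_subset_Icc_self).aestronglyMeasurable measurableSet_Ioc

end Tel

end Pool.Agent.Lib.MP_de7bb2_an
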