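import Pool.Agent.Lib.MP_de7bb2_an.H20Shad

/-! Uniqueness of closed geodesics in a free homotopy class. TASK UNIQ. -/

namespace Pool.Agent.Lib.MP_de7bb2_an

open Metric Set Complex

namespace Uniq

/-- A vector given by its coordinates in the frame of an axis. -/
noncomputable def fr (X Y : V) (u a b c : ℝ) : V :=
  ((Real.exp u * a / 2 : ℝ) : ℂ) • X + ((Real.exp (-u) * b / 2 : ℝ) : ℂ) • Y +
    ((c / 2 : ℝ) : ℂ) • cross Y X

/-- The normal coordinate. -/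
noncomputable def cy (X Y Z : V) : ℝ := -(br Z (cross Y X)).re / 2

noncomputable def yy (z : ℝ × ℝ) : ℝ := (z.1 + z.2) / 2
noncomputable def gg (z : ℝ × ℝ) : ℝ := 1 + yy z ^ 2
noncomputable def rr (z : ℝ × ℝ) : ℝ := √(gg z)
noncomputable def nn (z : ℝ × ℝ) : ℝ := √(1 + z.1 * z.2)
noncomputable def aa (z : ℝ × ℝ) : ℝ := (nn z * yy z - (z.1 - z.2) / 2) / rr z
noncomputable def bb (z : ℝ × ℝ) : ℝ := (nn z * yy z + (z.1 - z.2) / 2) / rr z

variable {X Y Z W : V} {u a b c : ℝ}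

theorem br_fr (hX : Nul X) (hY : Nul Y) (hW : IsRe W) (u a b c : ℝ) : br (fr X Y u a b c) W =
    ((a * (Real.exp u * (br W X).re / 2) + b * (Real.exp (-u) * (br W Y).re / 2) -
      c * cy X Y W : ℝ) : ℂ) := by
  have h1 := br_eq_ofReal hW hX.1
  have h2 := br_eq_ofReal hW hY.1
  have h3 := br_eq_ofReal hW (hY.1.cross hX.1)
  simp only [fr, cy, br_add_left, br_smul_left, br_comm X W, br_comm Y W, br_comm (cross Y X) W]
  conv_lhs => rw [h1, h2, h3]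
  push_cast; ring

theorem eq_fr (hX : Nul X) (hY : Nul Y) (h : br X Y = 2) (hZ : IsRe Z)
    (ha : (br Z Y).re = Real.exp u * a) (hb : (br Z X).re = Real.exp (-u) * b)
    (hc : cy X Y Z = c) : Z = fr X Y u a b c := by
  have h0 := frame_decomp hX.2.2 hY.2.2 h Z
  rw [br_eq_ofReal hZ hX.1, br_eq_ofReal hZ hY.1, br_eq_ofReal hZ (hY.1.cross hX.1), ha, hb] at h0
  rw [fr, ← hc, cy]
  refine h0.trans ?_
  rw [sub_eq_add_neg, ← neg_smul]
  congr 2 <;> push_cast <;> ring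

theorem br_re (hX : Nul X) (hY : Nul Y) (h : br X Y = 2) (hZ : IsRe Z) (hW : IsRe W) :
    (br Z W).re = ((br Z Y).re * (br W X).re + (br Z X).re * (br W Y).re) / 2 -
      cy X Y Z * cy X Y W := by
  conv_lhs => rw [eq_fr (u := 0) (a := (br Z Y).re) (b := (br Z X).re) hX hY h hZ (by simp)
    (by simp) rfl, br_fr hX hY hW, ofReal_re]
  simp only [neg_zero, Real.exp_zero]; ring

theorem hyp_fr (hX : Nul X) (hY : Nul Y) (h : br X Y = 2) (u : ℝ) : Hyp (fr X Y u 1 1 0) := by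
  refine ⟨((hX.1.smul _).add (hY.1.smul _)).add ((hY.1.cross hX.1).smul _), ?_, ?_⟩
  · have h1 := hX.2.1
    have h2 := hY.2.1
    simp only [fr, Prod.fst_add, Prod.smul_fst, smul_eq_mul, add_re, re_ofReal_mul, zero_div,
      zero_mul, add_zero]
    positivity
  · simp only [fr, zero_div, ofReal_zero, zero_smul, add_zero, br_add_left, br_add_right,
      br_smul_left, br_smul_right, hX.2.2, hY.2.2, br_comm Y X, h]
    have : (Real.exp u : ℂ) * Real.exp (-u) = 1 := by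
      rw [← ofReal_mul, ← Real.exp_add, add_neg_cancel, Real.exp_zero, ofReal_one]
    push_cast at this ⊢
    linear_combination this

theorem br_cross2 (A B C D : V) :
    br (cross A B) (cross C D) = br A C * br B D - br A D * br B C := by
  simp only [br, cross]
  linear_combination ((A.2.1 * B.2.2 - A.2.2 * B.2.1) * (C.2.1 * D.2.2 - C.2.2 * D.2.1) / 4 +
    ((A.2.1 * B.1 - A.1 * B.2.1) * (C.2.2 * D.1 - C.1 * D.2.2) +
      (A.2.2 * B.1 - A.1 * B.2.2) * (C.2.1 * D.1 - C.1 * D.2.1)) / 2) * I_sq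

/-- A state is determined by its position along the axis and the two normal coordinates. -/
theorem state (hX : Nul X) (hY : Nul Y) (h : br X Y = 2) {E : V × V} (hE : E ∈ SM)
    (hσ : 0 < uSp X Y E) {z : ℝ × ℝ} (hz : z = (cy X Y E.1, cy X Y E.2)) :
    uSp X Y E = nn z / gg z ∧ cy X Y (nrm E) = nn z ∧ 0 < nn z ∧
      mid E = fr X Y (uAx X Y E) (rr z) (rr z) (yy z) ∧
      nrm E = fr X Y (uAx X Y E) (aa z) (bb z) (nn z) := by
  obtain ⟨n1, -, n2, n3⟩ := SM.nrm hE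
  have hc := SM.mid hE
  have h1 := br_re hX hY h hE.1.1 hE.1.1
  have h2 := br_re hX hY h hE.2.1.1 hE.2.1.1
  have h3 := br_re hX hY h hE.1.1 hE.2.1.1
  have h4 := br_re hX hY h n1 hE.1.1
  have h5 := br_re hX hY h n1 hE.2.1.1
  rw [hE.1.2.2] at h1
  rw [hE.2.1.2.2] at h2
  rw [hE.2.2] at h3
  rw [n2] at h4
  rw [n3] at h5
  have h6 : cy X Y (nrm E) =
      ((br E.1 Y).re * (br E.2 X).re - (br E.1 X).re * (br E.2 Y).re) / 4 := by
    rw [cy, nrm, br_smul_left, br_cross2, br_eq_ofReal hE.1.1 hX.1, br_eq_ofReal hE.1.1 hY.1,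
      br_eq_ofReal hE.2.1.1 hX.1, br_eq_ofReal hE.2.1.1 hY.1]
    simp; ring
  have hm : ∀ U, (br (mid E) U).re = ((br E.1 U).re + (br E.2 U).re) / 2 := fun U => by
    rw [mid, br_smul_left, br_add_left]; simp; ring
  have hP : 0 < (br (mid E) Y).re :=
    (div_pos hY.2.1 (mul_pos two_pos hc.2.1)).trans_le (hc.le_br hY.fut)
  have hQ : 0 < (br (mid E) X).re :=
    (div_pos hX.2.1 (mul_pos two_pos hc.2.1)).trans_le (hc.le_br hX.fut)
  have hy : cy X Y (mid E) = yy z := by simp only [cy, hm, yy, hz]; ring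
  have hg : 0 < gg z := by rw [gg]; positivity
  have hr : 0 < rr z := Real.sqrt_pos.2 hg
  have hPQ : (br (mid E) Y).re * (br (mid E) X).re = gg z := by
    have := br_re hX hY h hc.1 hc.1
    rw [hc.2.2, hy] at this
    simp only [one_re] at this
    rw [gg]; linear_combination -this
  have hl : Real.log (br (mid E) Y).re + Real.log (br (mid E) X).re = 2 * Real.log (rr z) := by
    rw [← Real.log_mul hP.ne' hQ.ne', hPQ, rr, Real.log_sqrt hg.le]; ring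
  have eP : (br (mid E) Y).re = Real.exp (uAx X Y E) * rr z := by
    rw [← Real.exp_log hP, ← Real.exp_log hr, ← Real.exp_add, uAx]; congr 1; linarith
  have eQ : (br (mid E) X).re = Real.exp (-uAx X Y E) * rr z := by
    rw [← Real.exp_log hQ, ← Real.exp_log hr, ← Real.exp_add, uAx]; congr 1; linarith
  have hs : uSp X Y E = cy X Y (nrm E) / gg z := by
    rw [uSp, ← hPQ, h6, br_sub_left, br_sub_left, sub_re, sub_re]
    field_simp
    rw [hm, hm]; ring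
  have hν : 0 < cy X Y (nrm E) := (div_pos_iff_of_pos_right hg).1 (hs ▸ hσ)
  simp only [zero_re, re_ofNat] at h1 h2 h3 h4 h5
  have hn : cy X Y (nrm E) = nn z := by
    rw [nn, eq_comm, Real.sqrt_eq_iff_mul_self_eq_of_pos hν, h6, hz]
    linear_combination (-((br E.1 Y).re * (br E.2 X).re + (br E.1 X).re * (br E.2 Y).re) / 8 -
      (2 + cy X Y E.1 * cy X Y E.2) / 4) * h3 + (br E.2 Y).re * (br E.2 X).re / 4 * h1 +
        cy X Y E.1 ^ 2 / 4 * h2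
  have he : Real.exp (uAx X Y E) * Real.exp (-uAx X Y E) = 1 := by
    rw [← Real.exp_add, add_neg_cancel, Real.exp_zero]
  have ePn : (br (nrm E) Y).re = (cy X Y E.2 * (br E.1 Y).re - cy X Y E.1 * (br E.2 Y).re) / 2 :=
    mul_left_cancel₀ hν.ne' (by
      linear_combination (br E.2 Y).re / 2 * h4 - (br E.1 Y).re / 2 * h5 + (br (nrm E) Y).re * h6)
  have eQn : (br (nrm E) X).re = (cy X Y E.1 * (br E.2 X).re - cy X Y E.2 * (br E.1 X).re) / 2 :=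
    mul_left_cancel₀ hν.ne' (by
      linear_combination (br E.1 X).re / 2 * h5 - (br E.2 X).re / 2 * h4 + (br (nrm E) X).re * h6)
  refine ⟨hn ▸ hs, hn, hn ▸ hν, eq_fr hX hY h hc.1 eP eQ hy, eq_fr hX hY h n1 ?_ ?_ hn⟩
  · have : (br (nrm E) Y).re * (br (mid E) X).re = nn z * yy z - (z.1 - z.2) / 2 := by
      rw [← hn, ePn, hm, h6, yy, hz]
      linear_combination (-cy X Y E.2 / 4) * h1 + cy X Y E.1 / 4 * h2 +
        (cy X Y E.1 - cy X Y E.2) / 4 * h3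
    rw [aa, ← this, eQ]; field_simp
    linear_combination (-(br (nrm E) Y).re) * he
  · have : (br (nrm E) X).re * (br (mid E) Y).re = nn z * yy z + (z.1 - z.2) / 2 := by
      rw [← hn, eQn, hm, h6, yy, hz]
      linear_combination cy X Y E.2 / 4 * h1 - cy X Y E.1 / 4 * h2 -
        (cy X Y E.1 - cy X Y E.2) / 4 * h3
    rw [bb, ← this, eP]; field_simp
    linear_combination (-(br (nrm E) X).re) * he

theorem term_le {x x' s s' w δ : ℝ} (hw : 0 < w) (h1 : |x - x'| ≤ 2 * δ * w)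
    (h2 : |s - s'| ≤ 2 * δ * w) (h3 : w / 2 ≤ s) (h4 : w / 2 ≤ s') (h5 : |x'| ≤ 4 * w) :
    |x * s⁻¹ ^ 3 - x' * s'⁻¹ ^ 3| ≤ 400 * δ * w⁻¹ ^ 2 := by
  have hs : 0 < s := by linarith
  have hs' : 0 < s' := by linarith
  have hδ : 0 ≤ δ := by nlinarith [abs_nonneg (x - x')]
  have k1 : s⁻¹ ≤ 2 * w⁻¹ := (inv_anti₀ (half_pos hw) h3).trans_eq (by field_simp)
  have k2 : s'⁻¹ ≤ 2 * w⁻¹ := (inv_anti₀ (half_pos hw) h4).trans_eq (by field_simp)
  have e : x * s⁻¹ ^ 3 - x' * s'⁻¹ ^ 3 = (x - x') * s⁻¹ ^ 3 -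
      x' * (s - s') * (s⁻¹ * s'⁻¹ * (s⁻¹ ^ 2 + s⁻¹ * s'⁻¹ + s'⁻¹ ^ 2)) := by
    field_simp; ring
  rw [e]
  refine (abs_sub _ _).trans ?_
  rw [abs_mul, abs_mul, abs_mul x', abs_of_pos (by positivity : 0 < s⁻¹ ^ 3),
    abs_of_pos (by positivity : 0 < s⁻¹ * s'⁻¹ * (s⁻¹ ^ 2 + s⁻¹ * s'⁻¹ + s'⁻¹ ^ 2))]
  calc _ ≤ 2 * δ * w * (2 * w⁻¹) ^ 3 + 4 * w * (2 * δ * w) * (2 * w⁻¹ * (2 * w⁻¹) *
        ((2 * w⁻¹) ^ 2 + 2 * w⁻¹ * (2 * w⁻¹) + (2 * w⁻¹) ^ 2)) := by gcongr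
    _ = _ := by field_simp; ring

theorem lin_le {α β γ a b c K : ℝ} (hα : 0 ≤ α) (hβ : 0 ≤ β) (hγ : |γ| ≤ α + β) (ha : |a| ≤ K)
    (hb : |b| ≤ K) (hc : |c| ≤ K) : |a * α + b * β - c * γ| ≤ 2 * K * (α + β) := by
  refine (abs_sub _ _).trans ((add_le_add_left (abs_add_le _ _) _).trans ?_)
  rw [abs_mul, abs_mul, abs_mul, abs_of_nonneg hα, abs_of_nonneg hβ]
  nlinarith [mul_le_mul_of_nonneg_right ha hα, mul_le_mul_of_nonneg_right hb hβ,
    mul_le_mul hc hγ (abs_nonneg _) ((abs_nonneg _).trans hc)]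

/-- The normal derivative of the conformal factor is Lipschitz in the frame coordinates. -/
theorem lip_f {ι : Type} {Wf : ι → V} {Cb : ℝ} (hF : Famy Wf Cb) (hX : Nul X) (hY : Nul Y)
    (h : br X Y = 2) {r y r' y' a' b' c' δ : ℝ} (h1 : 1 ≤ r) (h1' : 1 ≤ r') (h2 : |y| ≤ 1 / 2)
    (h2' : |y'| ≤ 1 / 2) (h3 : |a| ≤ 2 ∧ |b| ≤ 2 ∧ |c| ≤ 2) (h3' : |a'| ≤ 2 ∧ |b'| ≤ 2 ∧ |c'| ≤ 2)
    (d1 : |r - r'| ≤ δ) (d2 : |y - y'| ≤ δ) (d3 : |a - a'| ≤ δ) (d4 : |b - b'| ≤ δ)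
    (d5 : |c - c'| ≤ δ) : ‖fF Wf (fr X Y u r r y) (fr X Y u a b c) -
      fF Wf (fr X Y u r' r' y') (fr X Y u a' b' c')‖ ≤ 800 * δ * Cb := by
  obtain ⟨hS, hC⟩ := hF.2 _ (hyp_fr hX hY h u)
  have hδ := (abs_nonneg _).trans d1
  have key : ∀ i, ∃ α β γ : ℝ, 0 ≤ α ∧ 0 ≤ β ∧ |γ| ≤ α + β ∧ 0 < α + β ∧
      ∀ a b c, br (fr X Y u a b c) (Wf i) = ((a * α + b * β - c * γ : ℝ) : ℂ) := fun i => by
    have hW := hF.1 i
    have k1 := hW.fut.br_nonneg hX.fut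
    have k2 := hW.fut.br_nonneg hY.fut
    have k3 := br_re hX hY h hW.1 hW.1
    have he : Real.exp u * Real.exp (-u) = 1 := by
      rw [← Real.exp_add, add_neg_cancel, Real.exp_zero]
    rw [hW.2.2, one_re] at k3
    have k4 : cy X Y (Wf i) ^ 2 < (Real.exp u * (br (Wf i) X).re / 2 +
        Real.exp (-u) * (br (Wf i) Y).re / 2) ^ 2 := by
      nlinarith [sq_nonneg (Real.exp u * (br (Wf i) X).re / 2 -
        Real.exp (-u) * (br (Wf i) Y).re / 2)]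
    have k5 := abs_lt_of_sq_lt_sq k4 (by positivity)
    exact ⟨_, _, _, by positivity, by positivity, k5.le, (abs_nonneg _).trans_lt k5,
      br_fr hX hY hW.1 u⟩
  have tm : ∀ {r y a b c r' y' a' b' c' δ : ℝ}, 1 ≤ r → 1 ≤ r' → |y| ≤ 1 / 2 → |y'| ≤ 1 / 2 →
      |a'| ≤ 2 ∧ |b'| ≤ 2 ∧ |c'| ≤ 2 → |r - r'| ≤ δ → |y - y'| ≤ δ → |a - a'| ≤ δ → |b - b'| ≤ δ →
      |c - c'| ≤ δ → ∀ i, ‖-2 * br (fr X Y u a b c) (Wf i) * (br (fr X Y u r r y) (Wf i))⁻¹ ^ 3 -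
        -2 * br (fr X Y u a' b' c') (Wf i) * (br (fr X Y u r' r' y') (Wf i))⁻¹ ^ 3‖ ≤
          800 * δ * (br (fr X Y u 1 1 0) (Wf i)).re⁻¹ ^ 2 := by
    intro r y a b c r' y' a' b' c' δ h1 h1' h2 h2' h3' d1 d2 d3 d4 d5 i
    obtain ⟨α, β, γ, hα, hβ, hγ, hw, e⟩ := key i
    have lb : ∀ {r y : ℝ}, 1 ≤ r → |y| ≤ 1 / 2 → (α + β) / 2 ≤ r * α + r * β - y * γ :=
      fun {r y} h1 h2 => by
        have := (le_abs_self _).trans ((abs_mul y γ).trans_le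
          (mul_le_mul h2 hγ (abs_nonneg _) (by norm_num)))
        nlinarith
    have := term_le (x := a * α + b * β - c * γ) (δ := δ) hw
      ((congrArg _ (by ring)).trans_le (lin_le hα hβ hγ d3 d4 d5))
      ((congrArg _ (by ring)).trans_le (lin_le hα hβ hγ d1 d1 d2)) (lb h1 h2) (lb h1' h2')
      ((lin_le hα hβ hγ h3'.1 h3'.2.1 h3'.2.2).trans_eq (by ring))
    simp only [e, ofReal_re, one_mul, zero_mul, sub_zero, mul_assoc]
    rw [← mul_sub, norm_mul]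
    norm_cast
    rw [Real.norm_eq_abs]
    norm_num at this ⊢
    linarith
  have sm : ∀ {r y a b c : ℝ}, 1 ≤ r → |y| ≤ 1 / 2 → |a| ≤ 2 ∧ |b| ≤ 2 ∧ |c| ≤ 2 → Summable fun i =>
      -2 * br (fr X Y u a b c) (Wf i) * (br (fr X Y u r r y) (Wf i))⁻¹ ^ 3 :=
    fun {r y a b c} h1 h2 h3 => Summable.of_norm_bounded (hS.mul_left (800 * 2)) fun i => by
      have := tm (a' := 0) (b' := 0) (c' := 0) (δ := 2) h1 h1 h2 h2 (by simp) (by simp) (by simp)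
        (by simpa using h3.1) (by simpa using h3.2.1) (by simpa using h3.2.2) i
      obtain ⟨α, β, γ, -, -, -, -, e⟩ := key i
      rwa [e 0 0 0, zero_mul, zero_mul, zero_mul, add_zero, sub_zero, ofReal_zero, mul_zero,
        zero_mul, sub_zero] at this
  rw [fF, fF, ← (sm h1 h2 h3).tsum_sub (sm h1' h2' h3')]
  exact (tsum_of_norm_bounded (hS.hasSum.mul_left (800 * δ))
    (tm h1 h1' h2 h2' h3' d1 d2 d3 d4 d5)).trans (mul_le_mul_of_nonneg_left hC (by positivity))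

theorem exists_lip : ∃ K η : ℝ, 1 ≤ K ∧ 0 < η ∧ K * η ≤ 1 / 8 ∧ ∀ z z' : ℝ × ℝ, ‖z‖ ≤ η → ‖z'‖ ≤ η →
    |rr z - rr z'| ≤ K * ‖z - z'‖ ∧ |yy z - yy z'| ≤ K * ‖z - z'‖ ∧
    |aa z - aa z'| ≤ K * ‖z - z'‖ ∧ |bb z - bb z'| ≤ K * ‖z - z'‖ ∧
    |nn z - nn z'| ≤ K * ‖z - z'‖ ∧ |gg z - gg z'| ≤ K * ‖z - z'‖ ∧
    |gg z / nn z - gg z' / nn z'| ≤ K * ‖z - z'‖ := by
  have hc : ContDiffAt ℝ 1 (fun z => (rr z, yy z, aa z, bb z, nn z, gg z, gg z / nn z)) 0 := by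
    unfold aa bb rr nn gg yy
    fun_prop (disch := simp)
  obtain ⟨K, t, ht, hL⟩ := hc.exists_lipschitzOnWith
  obtain ⟨η, hη, hs⟩ := nhds_basis_closedBall.mem_iff.1 ht
  have hK : (0 : ℝ) < K + 1 := by positivity
  refine ⟨K + 1, min η (1 / 8 / (K + 1)), by simp, by positivity,
    (le_div_iff₀' hK).1 (min_le_right _ _), fun z z' h1 h2 => ?_⟩
  have h := (hL.dist_le_mul z (hs (mem_closedBall_zero_iff.2 (h1.trans (min_le_left _ _)))) z'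
    (hs (mem_closedBall_zero_iff.2 (h2.trans (min_le_left _ _))))).trans
    (mul_le_mul_of_nonneg_right (le_add_of_nonneg_right zero_le_one) dist_nonneg)
  rw [dist_eq_norm z z'] at h
  simpa only [Prod.dist_eq, max_le_iff, Real.dist_eq] using h

theorem exists_crit {φ φ' : ℝ → ℝ} {l : ℝ} (hl : 0 < l) (hp : Function.Periodic φ l)
    (hd : ∀ u, HasDerivAt φ (φ' u) u) : ∃ u₀, φ' u₀ = 0 ∧ ∀ u, |φ u| ≤ |φ u₀| := by
  have hc := hp.compact_of_continuous hl.ne'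
    (continuous_iff_continuousAt.2 fun u => (hd u).continuousAt)
  obtain ⟨_, ⟨a, rfl⟩, ha⟩ := hc.exists_isGreatest (range_nonempty φ)
  obtain ⟨_, ⟨b, rfl⟩, hb⟩ := hc.exists_isLeast (range_nonempty φ)
  have h1 : ∀ u, φ u ≤ φ a := fun u => ha ⟨u, rfl⟩
  have h2 : ∀ u, φ b ≤ φ u := fun u => hb ⟨u, rfl⟩
  have h3 : ∀ u, |φ u| ≤ max |φ b| |φ a| := fun u => abs_le_max_abs_abs (h2 u) (h1 u)
  rcases le_total |φ a| |φ b| with h | h
  · exact ⟨b, IsLocalMin.hasDerivAt_eq_zero (Filter.Eventually.of_forall h2) (hd b),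
      fun u => (h3 u).trans_eq (max_eq_left h)⟩
  · exact ⟨a, IsLocalMax.hasDerivAt_eq_zero (Filter.Eventually.of_forall h1) (hd a),
      fun u => (h3 u).trans_eq (max_eq_right h)⟩

theorem hasDerivAt_cy {ι : Type} {Wf : ι → V} {Cb ε : ℝ} (hF : Famy Wf Cb) (hX : Nul X)
    (hY : Nul Y) {E : ℝ → V × V} (hE : MG Wf ε E) (t : ℝ) :
    HasDerivAt (fun t => cy X Y (E t).1) (Real.exp (-ε * (bF Wf (mid (E t))).re) *
      (cy X Y (E t).1 + ε * (fF Wf (mid (E t)) (nrm (E t))).re * cy X Y (nrm (E t)))) t ∧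
    HasDerivAt (fun t => cy X Y (E t).2) (-(Real.exp (-ε * (bF Wf (mid (E t))).re) *
      (cy X Y (E t).2 + ε * (fF Wf (mid (E t)) (nrm (E t))).re * cy X Y (nrm (E t))))) t := by
  obtain ⟨h1, h2⟩ := hE t
  have hb := (hF.bF_real (SM.mid h1)).1
  have hf := fF_im hF (SM.mid h1).1 (SM.nrm h1).1
  have eb : exp (-ε * bF Wf (mid (E t))) = Real.exp (-ε * (bF Wf (mid (E t))).re) := by
    rw [ofReal_exp]; congr 1; exact Complex.ext (by simp) (by simp [hb])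
  have ef : ε * fF Wf (mid (E t)) (nrm (E t)) = (ε * (fF Wf (mid (E t)) (nrm (E t))).re : ℝ) :=
    Complex.ext (by simp) (by simp [hf])
  let L : V →L[ℝ] ℝ := reCLM.comp ((brL (cross Y X)).restrictScalars ℝ)
  have hL : ∀ Z, cy X Y Z = -L Z / 2 := fun Z => by rw [cy, br_comm]; simp [L]
  simp only [hL]
  constructor
  · refine ((L.hasFDerivAt.comp_hasDerivAt t h2.fst).neg.div_const 2).congr_deriv ?_
    simp only [VF, eb, ef, Prod.smul_fst, coe_smul, map_smul, map_add, smul_eq_mul]; ring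
  · refine ((L.hasFDerivAt.comp_hasDerivAt t h2.snd).neg.div_const 2).congr_deriv ?_
    simp only [VF, eb, ef, Prod.smul_snd, coe_smul, map_smul, map_sub, map_neg, smul_eq_mul]; ring

/-- The equations of a periodic orbit in the coordinate along the axis. -/
theorem orbit {ι : Type} {Wf : ι → V} {Cb ε ℓ l : ℝ} {A : V →L[ℂ] V} (hF : Famy Wf Cb)
    (hε : |ε| * (40 * Cb) ≤ 1) (hA : Iso A) (hX : Axis A X Y l) {E : ℝ → V × V}
    (hE : PerG Wf ε A ℓ E) : ∃ (T : ℝ → ℝ) (z : ℝ → ℝ × ℝ) (f : ℝ → ℂ),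
      (∀ t, T (uAx X Y (E t)) = t) ∧ (∀ u, T (u + l) = T u + ℓ) ∧ (∀ u, z (u + l) = z u) ∧
      ∀ u, ‖z u‖ ≤ 4 * (|ε| * Cb) ∧ mid (E (T u)) = fr X Y u (rr (z u)) (rr (z u)) (yy (z u)) ∧
        f u = fF Wf (fr X Y u (rr (z u)) (rr (z u)) (yy (z u)))
          (fr X Y u (aa (z u)) (bb (z u)) (nn (z u))) ∧ ‖f u‖ ≤ 2 * Cb ∧
        HasDerivAt T (Real.exp (ε * (bF Wf (mid (E (T u)))).re) / (nn (z u) / gg (z u))) u ∧
        HasDerivAt (fun u => (z u).1)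
          (gg (z u) / nn (z u) * (z u).1 + ε * (gg (z u) * (f u).re)) u ∧
        HasDerivAt (fun u => (z u).2)
          (-(gg (z u) / nn (z u) * (z u).2 + ε * (gg (z u) * (f u).re))) u := by
  obtain ⟨T, h1, h2, h3, h4⟩ := hE.exists_param hF hε hA hX
  have hC := hF.nonneg
  have hx : 0 ≤ |ε| * Cb := by positivity
  refine ⟨T, fun u => (cy X Y (E (T u)).1, cy X Y (E (T u)).2),
    fun u => fF Wf (mid (E (T u))) (nrm (E (T u))), h2, h3, fun u => ?_, fun u => ?_⟩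
  · have : ∀ Z, cy X Y (A Z) = cy X Y Z := fun Z => by
      rw [cy, cy, ← hA.br_eq Z, hX.2.2.2.2.2.2]
    simp only [h3, hE.2.2, act2, this]
  have hσ : 0 < uSp X Y (E (T u)) := by
    have k1 := (abs_le.1 (hE.uSp_near hF hε hA hX (T u))).1
    have k2 : 64 * Cb ^ 2 * ε ^ 2 = 64 * (|ε| * Cb) ^ 2 := by rw [mul_pow, sq_abs]; ring
    nlinarith
  obtain ⟨s1, s2, s3, s4, s5⟩ := state hX.1 hX.2.1 hX.2.2.1 (hE.1 (T u)).1 hσ rfl
  rw [h1] at s4 s5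
  obtain ⟨d1, d2⟩ := hasDerivAt_cy hF hX.1 hX.2.1 hE.1 (T u)
  have hT := h4 u
  rw [s1] at hT
  rw [s2] at d1 d2
  have he : Real.exp (-ε * (bF Wf (mid (E (T u)))).re) =
      (Real.exp (ε * (bF Wf (mid (E (T u)))).re))⁻¹ := by rw [neg_mul, Real.exp_neg]
  have hg : 0 < gg (cy X Y (E (T u)).1, cy X Y (E (T u)).2) := by rw [gg]; positivity
  have k := hE.shadow hF (by linarith) hA hX (T u)
  have hb : ∀ Z, ‖br Z (cross Y X)‖ ≤ 8 * Cb * |ε| → |cy X Y Z| ≤ 4 * (|ε| * Cb) := fun Z hZ => by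
    have := abs_re_le_norm (br Z (cross Y X))
    rw [cy, abs_div, abs_neg, abs_two]; linarith
  refine ⟨max_le (hb _ k.1) (hb _ k.2), s4, by rw [← s4, ← s5], hF.abs_fF_le (hE.1 _).1, hT,
    (d1.comp u hT).congr_deriv ?_, (d2.comp u hT).congr_deriv ?_⟩ <;> rw [he] <;> field_simp

theorem contr {k k' g g' f f' s s' ε Cb K η D : ℝ} (hη : K * η ≤ 1 / 8) (hK : 1 ≤ K) (hC : 0 ≤ Cb)
    (hε : |ε| * Cb ≤ η / 1000) (h1 : |1 - k| ≤ 1 / 8) (h2 : |k - k'| ≤ K * D)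
    (h3 : |g - g'| ≤ K * D) (h4 : |g'| ≤ 9 / 8) (h5 : |f| ≤ 2 * Cb) (h6 : |f - f'| ≤ 800 * (K * D) * Cb)
    (h7 : |s'| ≤ η) (h8 : |s - s'| ≤ D) (h : k * s + ε * (g * f) = k' * s' + ε * (g' * f')) :
    |s - s'| ≤ D / 2 := by
  have hD := (abs_nonneg _).trans h8
  have e : s - s' = (1 - k) * (s - s') - (k - k') * s' - ε * ((g - g') * f + g' * (f - f')) := by
    linear_combination h
  have k1 : |(g - g') * f + g' * (f - f')| ≤ K * D * (2 * Cb) + 9 / 8 * (800 * (K * D) * Cb) := by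
    refine (abs_add_le _ _).trans ?_
    rw [abs_mul, abs_mul]
    gcongr
  have k2 : |ε * ((g - g') * f + g' * (f - f'))| ≤ 902 * (K * D) * (η / 1000) := by
    rw [abs_mul]
    refine (mul_le_mul_of_nonneg_left k1 (abs_nonneg _)).trans ?_
    nlinarith [mul_le_mul_of_nonneg_left hε (by positivity : 0 ≤ K * D)]
  have k3 : |(k - k') * s'| ≤ K * D * η := by rw [abs_mul]; gcongr
  have k4 : |(1 - k) * (s - s')| ≤ 1 / 8 * D := by rw [abs_mul]; gcongr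
  have k5 := mul_le_mul_of_nonneg_left hη hD
  rw [e]
  refine (abs_sub _ _).trans ((add_le_add_left (abs_sub _ _) _).trans ?_)
  nlinarith

end Uniq

open Uniq in
theorem exists_uniq (Cb : ℝ) : ∃ ε₀ > 0, ∀ (ι : Type) (Wf : ι → V), Famy Wf Cb →
    ∀ ε : ℝ, |ε| ≤ ε₀ → ∀ (A : V →L[ℂ] V) (X Y : V) (l : ℝ), Iso A → Axis A X Y l →
      ∀ (ℓ ℓ' : ℝ) (E E' : ℝ → V × V), PerG Wf ε A ℓ E → PerG Wf ε A ℓ' E' →
        ℓ' = ℓ ∧ ∃ t₀, ∀ t, E' t = E (t + t₀) := by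
  obtain ⟨K, η, hK, hη, hKη, hL⟩ := exists_lip
  refine ⟨η / 1000 / (|Cb| + 1), by positivity, fun ι Wf hF ε hε A X Y l hA hX ℓ ℓ' E E' hE hE' => ?_⟩
  have hC := hF.nonneg
  have hx : |ε| * Cb ≤ η / 1000 := by
    rw [le_div_iff₀ (by positivity), abs_of_nonneg hC] at hε
    nlinarith [abs_nonneg ε]
  have hη1 : η ≤ 1 / 8 := by nlinarith
  have h40 : |ε| * (40 * Cb) ≤ 1 := by linarith
  obtain ⟨T, z, f, -, a2, a3, a4⟩ := orbit hF h40 hA hX hE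
  obtain ⟨T', z', f', b1, b2, b3, b4⟩ := orbit hF h40 hA hX hE'
  have hz : ∀ u, ‖z u‖ ≤ η := fun u => by linarith [(a4 u).1]
  have hz' : ∀ u, ‖z' u‖ ≤ η := fun u => by linarith [(b4 u).1]
  have h0 : ∀ w : ℝ × ℝ, ‖w‖ ≤ η → 1 ≤ rr w ∧ |yy w| ≤ 1 / 2 ∧
      (|aa w| ≤ 2 ∧ |bb w| ≤ 2 ∧ |nn w| ≤ 2) ∧ |gg w| ≤ 9 / 8 ∧ |1 - gg w / nn w| ≤ 1 / 8 := by
    intro w hw
    have h1 := hL w 0 hw (by simpa using hη.le)
    have h2 : K * ‖w‖ ≤ 1 / 8 := (mul_le_mul_of_nonneg_left hw (by linarith)).trans hKη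
    have e1 : yy 0 = 0 := by simp [yy]
    have e2 : gg 0 = 1 := by simp [gg, e1]
    have e3 : nn 0 = 1 := by simp [nn]
    have e4 : aa 0 = 0 := by simp [aa, e1]
    have e5 : bb 0 = 0 := by simp [bb, e1]
    simp only [e1, e2, e3, e4, e5, sub_zero, div_one, abs_le] at h1
    simp only [abs_le]
    refine ⟨Real.one_le_sqrt.2 (le_add_of_nonneg_right (sq_nonneg _)), ?_⟩
    obtain ⟨-, ⟨_, _⟩, ⟨_, _⟩, ⟨_, _⟩, ⟨_, _⟩, ⟨_, _⟩, _, _⟩ := h1
    refine ⟨⟨?_, ?_⟩, ⟨⟨?_, ?_⟩, ⟨?_, ?_⟩, ?_, ?_⟩, ⟨?_, ?_⟩, ?_, ?_⟩ <;> linarith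
  have key : ∀ u s s', |s'| ≤ η → |s - s'| ≤ ‖z u - z' u‖ →
      gg (z u) / nn (z u) * s + ε * (gg (z u) * (f u).re) =
        gg (z' u) / nn (z' u) * s' + ε * (gg (z' u) * (f' u).re) → |s - s'| ≤ ‖z u - z' u‖ / 2 := by
    intro u s s' h1 h2 h3
    obtain ⟨l1, l2, l3, l4, l5, l6, l7⟩ := hL _ _ (hz u) (hz' u)
    obtain ⟨m1, m2, m3, -, m5⟩ := h0 _ (hz u)
    obtain ⟨n1, n2, n3, n4, -⟩ := h0 _ (hz' u)
    refine contr hKη hK hC hx m5 l7 l6 n4 ((abs_re_le_norm _).trans (a4 u).2.2.2.1) ?_ h1 h2 h3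
    rw [← sub_re, (a4 u).2.2.1, (b4 u).2.2.1]
    exact (abs_re_le_norm _).trans
      (lip_f hF hX.1 hX.2.1 hX.2.2.1 m1 n1 m2 n2 m3 n3 l1 l2 l3 l4 l5)
  obtain ⟨u₁, c1, c2⟩ := exists_crit (φ := fun u => (z u).1 - (z' u).1) hX.2.2.2.1
    (fun u => by simp only [a3, b3]) fun u => (a4 u).2.2.2.2.2.1.sub (b4 u).2.2.2.2.2.1
  obtain ⟨u₂, c3, c4⟩ := exists_crit (φ := fun u => (z u).2 - (z' u).2) hX.2.2.2.1
    (fun u => by simp only [a3, b3]) fun u => (a4 u).2.2.2.2.2.2.sub (b4 u).2.2.2.2.2.2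
  have hM : ∀ u, ‖z u - z' u‖ ≤ max |(z u₁).1 - (z' u₁).1| |(z u₂).2 - (z' u₂).2| := fun u =>
    max_le_max (c2 u) (c4 u)
  have k1 := key u₁ _ _ ((norm_fst_le _).trans (hz' u₁)) (norm_fst_le (z u₁ - z' u₁)) (by linarith)
  have k2 := key u₂ _ _ ((norm_snd_le _).trans (hz' u₂)) (norm_snd_le (z u₂ - z' u₂)) (by linarith)
  have k3 := max_le (k1.trans (div_le_div_of_nonneg_right (hM u₁) two_pos.le))
    (k2.trans (div_le_div_of_nonneg_right (hM u₂) two_pos.le))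
  have hzz : ∀ u, z' u = z u := fun u =>
    (sub_eq_zero.1 (norm_le_zero_iff.1 ((hM u).trans (by linarith)))).symm
  have hm : ∀ u, mid (E' (T' u)) = mid (E (T u)) := fun u => by rw [(a4 u).2.1, (b4 u).2.1, hzz]
  have hd : ∀ u, HasDerivAt (fun u => T u - T' u) 0 u := fun u =>
    ((a4 u).2.2.2.2.1.sub (b4 u).2.2.2.2.1).congr_deriv (by rw [hm, hzz, sub_self])
  have hc := is_const_of_deriv_eq_zero (fun u => (hd u).differentiableAt) fun u => (hd u).deriv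
  refine ⟨by have := hc (0 + l) 0; simp only [a2, b2] at this; linarith, T 0 - T' 0,
    congrFun (hE'.1.ext (hE.1.shift _) fun t => ?_)⟩
  have := hc (uAx X Y (E' t)) 0
  have h2 := hm (uAx X Y (E' t))
  simp only [b1] at this h2
  rw [h2, ← this, add_sub_cancel]

end Pool.Agent.Lib.MP_de7bb2_an
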