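import Pool.Agent.Lib.MP_de7bb2_an.H20Mink

/-! The walls of the regular right angled polygon with `2 G + 2` sides. TASK WALL. -/

namespace Pool.Agent.Lib.MP_de7bb2_an

open Metric Set Complex ComplexConjugate

/-- The letters. -/
abbrev L (G : ℕ) := ZMod (2 * G + 2)

variable {G : ℕ}

/-- Parity of a letter. -/
def par : L G →+* ZMod 2 := ZMod.castHom ⟨G + 1, by ring⟩ (ZMod 2)

noncomputable def c0 (G : ℕ) : ℝ := √(Real.cos (2 * Real.pi / (2 * G + 2)))
noncomputable def s0 (G : ℕ) : ℝ := √(1 - c0 G ^ 2)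
noncomputable def sg (G : ℕ) : ℝ := √(1 + c0 G ^ 2)
noncomputable def cQ (G : ℕ) : ℝ := c0 G ^ 3 + s0 G ^ 2 * sg G
/-- Translation length of the product of the two reflections adjacent to a wall. -/
noncomputable def lw (G : ℕ) : ℝ := 4 * Real.log (c0 G + sg G)

noncomputable def hh (m : L G) : ℂ := exp (Real.pi * I * m.val / (2 * G + 2))
noncomputable def ee (m : L G) : ℂ := hh m ^ 2

/-- Outer unit normal of the wall `m`. -/
noncomputable def wn (m : L G) : V := ((c0 G / s0 G : ℝ), ee m / s0 G, conj (ee m) / s0 G)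

noncomputable def mir (m : L G) : V →L[ℂ] V := reflL (wn m)

noncomputable def NN (m : L G) (c : ℝ) : V := (c, ee m, conj (ee m))

noncomputable def ca (b : ZMod 2) (m : L G) : ℝ := if par m = b then c0 G else cQ G

/-- The Markov arcs; letters of parity `b` have priority. -/
def Arc (b : ZMod 2) (m : L G) (Y : V) : Prop := Nul Y ∧ 0 ≤ side Y (NN m (ca b m))

def Edge (b : ZMod 2) (m m' : L G) : Prop := m ≠ m' ∧ (par m ≠ b → m' ≠ m + 1 ∧ m' ≠ m - 1)

instance (b : ZMod 2) : DecidableRel (Edge (G := G) b) := fun _ _ => by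
  unfold Edge; infer_instance

def Far (m m' : L G) : Prop := m ≠ m' ∧ m' ≠ m + 1 ∧ m' ≠ m - 1

def Reg (b : ZMod 2) (m : L G) (Z : V) : Prop := Fut Z ∧ 0 ≤ side Z (wn m) ∧
  (par m ≠ b → side Z (wn (m + 1)) ≤ 0 ∧ side Z (wn (m - 1)) ≤ 0)

/-- The closed chamber. -/
def Ch (G : ℕ) (Z : V) : Prop := ∀ m : L G, side Z (wn m) ≤ 0

variable [hG : Fact (2 ≤ G)] {b : ZMod 2} {k m m' : L G} {Y Z : V}

theorem natCast_ne_zero {i : ℕ} (h0 : 0 < i) (h6 : i < 6) : (i : L G) ≠ 0 := fun h => by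
  have h1 := Nat.le_of_dvd h0 ((ZMod.natCast_eq_zero_iff _ _).1 h)
  have := hG.out
  omega
omit hG in
theorem par_add_one (m : L G) : par (m + 1) = par m + 1 := by rw [map_add, map_one]
omit hG in
theorem par_sub_one (m : L G) : par (m - 1) = par m + 1 := by
  rw [map_sub, map_one, sub_eq_add_neg]
  rfl
omit hG in
theorem edge_symm : Edge (b + 1) m k ↔ Edge b k m := by
  have key : ∀ (b : ZMod 2) (m k : L G), Edge (b + 1) m k → Edge b k m := by
    rintro b m k ⟨h1, h2⟩
    refine ⟨h1.symm, fun h => ⟨?_, ?_⟩⟩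
    · rintro rfl
      exact (h2 (by rw [par_add_one]; exact fun e => h (add_right_cancel e))).2 (by ring)
    · rintro rfl
      exact (h2 (by rw [par_sub_one]; exact fun e => h (add_right_cancel e))).1 (by ring)
  refine ⟨key b m k, fun h => key (b + 1) k m ?_⟩
  rwa [add_assoc, show (1 + 1 : ZMod 2) = 0 from rfl, add_zero]
omit hG in
theorem Far.symm (h : Far m m') : Far m' m := 
  ⟨h.1.symm, fun e => h.2.2 (by rw [e]; ring), fun e => h.2.1 (by rw [e]; ring)⟩
omit hG in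
theorem Far.edge (h : Far m m') (b : ZMod 2) : Edge b m m' := h.imp id fun h _ => h
theorem Wall.far_add (m : L G) {i : ℕ} (h2 : 2 ≤ i) (h4 : i ≤ 4) : Far m (m + i) := by
  obtain ⟨j, rfl⟩ : ∃ j, i = j + 1 := ⟨i - 1, by omega⟩
  refine ⟨fun e => natCast_ne_zero (G := G) (i := j + 1) (by omega) (by omega) ?_,
    fun e => natCast_ne_zero (G := G) (i := j) (by omega) (by omega) ?_,
    fun e => natCast_ne_zero (G := G) (i := j + 2) (by omega) (by omega) ?_⟩
  · linear_combination -e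
  · push_cast at e; linear_combination e
  · push_cast at e ⊢; linear_combination e
theorem far_add_two (m : L G) : Far m (m + 2) := by simpa using Wall.far_add m (i := 2) le_rfl (by omega)
theorem far_add_three (m : L G) : Far m (m + 3) := by simpa using Wall.far_add m (i := 3) (by omega) (by omega)
theorem far_add_four (m : L G) : Far m (m + 4) := by simpa using Wall.far_add m (i := 4) (by omega) le_rfl
theorem far_succ_pred (m : L G) : Far (m + 1) (m - 1) := by
  have := (far_add_two (m - 1)).symm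
  rwa [show m - 1 + 2 = m + 1 by ring] at this

namespace Wall

/-- The central angle. -/
noncomputable def th (G : ℕ) : ℝ := 2 * Real.pi / (2 * G + 2)

omit hG in
theorem th_pos : 0 < th G := by
  have := Real.pi_pos
  unfold th
  positivity

omit hG in
theorem th_mul : th G * (2 * G + 2) = 2 * Real.pi := div_mul_cancel₀ _ (by positivity)

theorem th_le : th G ≤ Real.pi / 3 := by
  have h : (2 : ℝ) ≤ G := by exact_mod_cast hG.out
  nlinarith [th_mul (G := G), th_pos (G := G)]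

theorem cos_ge : 1 / 2 ≤ Real.cos (th G) := by
  rw [← Real.cos_pi_div_three]
  exact Real.cos_le_cos_of_nonneg_of_le_pi th_pos.le (by linarith [Real.pi_pos]) th_le

theorem cos_lt : Real.cos (th G) < 1 := by
  rw [← Real.cos_zero]
  exact Real.cos_lt_cos_of_nonneg_of_le_pi le_rfl (by linarith [Real.pi_pos, th_le (G := G)]) th_pos

theorem c0_sq : c0 G ^ 2 = Real.cos (th G) := Real.sq_sqrt (one_half_pos.le.trans cos_ge)

omit hG in
theorem cos_le {i j : ℕ} (h : i ≤ j) (h' : j + i ≤ 2 * G + 2) :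
    Real.cos (th G * j) ≤ Real.cos (th G * i) := by
  have h1 : (i : ℝ) ≤ j := by exact_mod_cast h
  have h2 : (j : ℝ) + i ≤ 2 * G + 2 := by exact_mod_cast h'
  have h3 := th_pos (G := G)
  have h4 := th_mul (G := G)
  rcases le_total (th G * j) Real.pi with h5 | h5
  · exact Real.cos_le_cos_of_nonneg_of_le_pi (by positivity) h5 (by gcongr)
  · rw [← Real.cos_two_pi_sub]
    exact Real.cos_le_cos_of_nonneg_of_le_pi (by positivity) (by linarith) (by nlinarith)

omit hG in
theorem ee_eq (m : L G) : ee m = exp ((th G * m.val : ℝ) * I) := by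
  rw [ee, hh, ← Complex.exp_nat_mul, th]
  congr 1
  push_cast
  ring

omit hG in
theorem ee_pow (m : L G) : ee m = exp (th G * I) ^ m.val := by
  rw [ee_eq, ← Complex.exp_nat_mul]
  congr 1
  push_cast
  ring

omit hG in
theorem root : exp (th G * I) ^ (2 * G + 2) = 1 := by
  rw [← Complex.exp_nat_mul, ← Complex.exp_two_pi_mul_I]
  congr 1
  have := congrArg ((↑) : ℝ → ℂ) (th_mul (G := G))
  push_cast at this ⊢
  linear_combination I * this

omit hG in
theorem re_ee (m : L G) : (ee m).re = Real.cos (th G * m.val) := by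
  rw [ee_eq, Complex.exp_ofReal_mul_I_re]

omit hG in
theorem ee_nat (n : ℕ) : ee (n : L G) = exp ((th G * n : ℝ) * I) := by
  rw [ee_pow, ZMod.val_natCast, ← pow_eq_pow_mod _ root, ← Complex.exp_nat_mul]
  congr 1
  push_cast
  ring

omit hG in
theorem val_ne {i : ℕ} (h : m ≠ i) : m.val ≠ i := fun e => h (by rw [← e, ZMod.natCast_zmod_val])

omit hG in
theorem val_ne' {i : ℕ} (h : m ≠ -i) : m.val + i ≠ 2 * G + 2 := fun e => h (by
  have := congrArg (Nat.cast : ℕ → L G) e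
  rw [ZMod.natCast_self, Nat.cast_add, ZMod.natCast_zmod_val] at this
  exact eq_neg_of_add_eq_zero_left this)

end Wall

theorem c0_pos : 0 < c0 G := Real.sqrt_pos.2 (lt_of_lt_of_le one_half_pos Wall.cos_ge)
theorem c0_lt_one : c0 G < 1 := by
  nlinarith [Wall.c0_sq (G := G), Wall.cos_lt (G := G), c0_pos (G := G)]
theorem s0_pos : 0 < s0 G := 
  Real.sqrt_pos.2 (by linarith [Wall.c0_sq (G := G), Wall.cos_lt (G := G)])
theorem s0_sq : s0 G ^ 2 = 1 - c0 G ^ 2 := 
  Real.sq_sqrt (by linarith [Wall.c0_sq (G := G), Wall.cos_lt (G := G)])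
theorem sg_sq : sg G ^ 2 = 1 + c0 G ^ 2 := by
  have _ := hG
  exact Real.sq_sqrt (by positivity)
theorem c0_lt_cQ : c0 G < cQ G := by
  have h1 : c0 G < sg G := Real.lt_sqrt_of_sq_lt (by linarith)
  have h2 := mul_pos (pow_pos (s0_pos (G := G)) 2) (sub_pos.2 h1)
  rw [cQ]
  rw [s0_sq] at h2 ⊢
  linarith
theorem cQ_lt_one : cQ G < 1 := by
  have h0 := c0_pos (G := G)
  have h1 := c0_lt_one (G := G)
  have h3 := Wall.c0_sq (G := G)
  have h4 := Wall.cos_ge (G := G)
  have h2 : sg G < 1 + c0 G ^ 2 / 2 :=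
    (Real.sqrt_lt' (by positivity)).2 (by nlinarith [pow_pos h0 4])
  have h5 := mul_pos (pow_pos (s0_pos (G := G)) 2) (sub_pos.2 h2)
  rw [cQ]
  rw [s0_sq] at h5 ⊢
  nlinarith [mul_nonneg (sq_nonneg (c0 G)) (sq_nonneg (1 - c0 G))]
theorem lw_pos : 0 < lw G := by
  have h1 : 1 ≤ sg G := Real.one_le_sqrt.2 (by nlinarith [sq_nonneg (c0 G)])
  exact mul_pos four_pos (Real.log_pos (by linarith [c0_pos (G := G)]))
omit hG in
theorem norm_hh (m : L G) : ‖hh m‖ = 1 := by
  rw [hh, show (Real.pi * I * m.val / (2 * G + 2) : ℂ) = (Real.pi * m.val / (2 * G + 2) : ℝ) * I by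
    push_cast; ring, Complex.norm_exp_ofReal_mul_I]
omit hG in
theorem norm_ee (m : L G) : ‖ee m‖ = 1 := by rw [ee, norm_pow, norm_hh, one_pow]
theorem ee_add (m j : L G) : ee (m + j) = ee m * ee j := by
  have _ := hG
  simp only [Wall.ee_pow]
  rw [ZMod.val_add, ← pow_eq_pow_mod _ Wall.root, pow_add]
theorem re_ee_one : (ee (1 : L G)).re = c0 G ^ 2 := by
  have := Wall.ee_nat (G := G) 1
  rw [Nat.cast_one] at this
  rw [this, Complex.exp_ofReal_mul_I_re, Nat.cast_one, mul_one, Wall.c0_sq]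
theorem im_ee_one : (ee (1 : L G)).im = s0 G * sg G := by
  have := Wall.ee_nat (G := G) 1
  rw [Nat.cast_one] at this
  rw [this, Complex.exp_ofReal_mul_I_im, Nat.cast_one, mul_one]
  refine (sq_eq_sq₀ (Real.sin_nonneg_of_nonneg_of_le_pi Wall.th_pos.le
    (by linarith [Real.pi_pos, Wall.th_le (G := G)]))
    (mul_nonneg s0_pos.le (show 0 ≤ sg G from Real.sqrt_nonneg _))).1 ?_
  rw [mul_pow, s0_sq, sg_sq, Wall.c0_sq, Real.sin_sq]
  ring
theorem re_ee_le (h : Far 0 m) : (ee m).re ≤ 2 * c0 G ^ 4 - 1 := by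
  have h0 := Wall.val_ne (m := m) (i := 0) (by simpa using h.1.symm)
  have h1 := Wall.val_ne (m := m) (i := 1) (by simpa using h.2.1)
  have h2 := Wall.val_ne' (m := m) (i := 1) (by simpa using h.2.2)
  have h3 := ZMod.val_lt m
  refine (Wall.re_ee m).trans_le ((Wall.cos_le (i := 2) (by omega) (by omega)).trans_eq ?_)
  rw [Nat.cast_ofNat, mul_comm, Real.cos_two_mul, ← Wall.c0_sq]
  ring
theorem re_ee_le' (h : Far 0 m) (h2 : m ≠ 2) (h3 : m ≠ -2) :
    (ee m).re ≤ 4 * c0 G ^ 6 - 3 * c0 G ^ 2 := by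
  have h0 := Wall.val_ne (m := m) (i := 0) (by simpa using h.1.symm)
  have h1 := Wall.val_ne (m := m) (i := 1) (by simpa using h.2.1)
  have h4 := Wall.val_ne' (m := m) (i := 1) (by simpa using h.2.2)
  have h5 := Wall.val_ne (m := m) (i := 2) (by simpa using h2)
  have h6 := Wall.val_ne' (m := m) (i := 2) (by simpa using h3)
  have h7 := ZMod.val_lt m
  refine (Wall.re_ee m).trans_le ((Wall.cos_le (i := 3) (by omega) (by omega)).trans_eq ?_)
  rw [Nat.cast_ofNat, mul_comm, Real.cos_three_mul, ← Wall.c0_sq]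
  ring

omit hG in
theorem isRe_wn (m : L G) : IsRe (wn m) := ⟨ofReal_im _, by simp [wn]⟩
omit hG in
theorem isRe_NN (m : L G) (c : ℝ) : IsRe (NN m c) := ⟨ofReal_im _, rfl⟩
namespace Wall

omit hG in
theorem ee_zero : ee (0 : L G) = 1 := by rw [ee_pow, ZMod.val_zero, pow_zero]

omit hG in
theorem ee_conj (m : L G) : ee m * conj (ee m) = 1 := by
  rw [Complex.mul_conj', norm_ee]
  simp

theorem s0_ne : (s0 G : ℂ) ≠ 0 := ofReal_ne_zero.2 s0_pos.ne'

theorem s0_sqC : (s0 G : ℂ) ^ 2 = 1 - (c0 G : ℂ) ^ 2 := by exact_mod_cast s0_sq (G := G)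

theorem br_wn (m j : L G) :
    br (wn m) (wn (m + j)) = ((c0 G ^ 2 - (ee j).re) / s0 G ^ 2 : ℝ) := by
  have h1 := ee_conj m
  have h2 := s0_ne (G := G)
  simp only [br, wn, ee_add, map_mul]
  push_cast
  rw [Complex.re_eq_add_conj]
  field_simp
  linear_combination -(ee j + conj (ee j)) * h1

end Wall

theorem br_wn_self (m : L G) : br (wn m) (wn m) = -1 := by
  have := Wall.br_wn m 0
  rw [add_zero, Wall.ee_zero, one_re, ← neg_sub, ← s0_sq, neg_div,
    div_self (pow_pos s0_pos 2).ne'] at this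
  simpa using this
theorem br_wn_succ (m : L G) : br (wn m) (wn (m + 1)) = 0 := by rw [Wall.br_wn, re_ee_one]; simp
theorem br_wn_pred (m : L G) : br (wn m) (wn (m - 1)) = 0 := by
  have := br_wn_succ (m - 1)
  rwa [sub_add_cancel, br_comm] at this
theorem br_wn_two (m : L G) : br (wn (m + 1)) (wn (m - 1)) = (Real.cosh (lw G / 2) : ℝ) := by
  have h1 := Wall.br_wn (m - 1) 2
  have h2 := Wall.ee_nat (G := G) 2
  have h3 : 0 < c0 G + sg G := add_pos_of_pos_of_nonneg c0_pos (Real.sqrt_nonneg _)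
  have h4 : (c0 G + sg G)⁻¹ = sg G - c0 G :=
    inv_eq_of_mul_eq_one_right (by linear_combination sg_sq (G := G))
  rw [Nat.cast_ofNat] at h2
  rw [show m - 1 + 2 = m + 1 by ring, br_comm, h2, Complex.exp_ofReal_mul_I_re, Nat.cast_ofNat,
    mul_comm (Wall.th G), Real.cos_two_mul, ← Wall.c0_sq] at h1
  rw [h1, show lw G / 2 = Real.log ((c0 G + sg G) ^ 2) by rw [Real.log_pow, lw]; push_cast; ring,
    Real.cosh_log (pow_pos h3 2), ← inv_pow, h4]
  congr 1
  rw [div_eq_iff (pow_pos s0_pos 2).ne', s0_sq]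
  linear_combination (c0 G ^ 2 - 1) * sg_sq (G := G)
theorem side_oo (m : L G) : side oo (wn m) < 0 := by
  rw [side, br_oo_left]
  exact neg_lt_zero.2 (div_pos c0_pos s0_pos)
theorem iso_refl (m : L G) : Iso (mir m) := iso_reflL (isRe_wn m) (br_wn_self m)
theorem refl_refl (m : L G) (Z : V) : mir m (mir m Z) = Z := reflL_reflL (br_wn_self m) Z
theorem refl_comm (m : L G) (Z : V) : mir m (mir (m + 1) Z) = mir (m + 1) (mir m Z) := by
  simp only [mir, reflL_apply, br_add_left, br_smul_left, br_wn_succ, br_comm (wn (m + 1)) (wn m),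
    mul_zero, add_zero]
  abel
theorem refl_eq_sym (m : L G) : mir m = sym (I * (c0 G / s0 G : ℝ)) (-I * ee m / s0 G)
    (conj (-I * ee m / s0 G)) (conj (I * (c0 G / s0 G : ℝ))) := by
  have h1 := Wall.ee_conj m
  have h2 := Wall.s0_ne (G := G)
  have h3 := Wall.s0_sqC (G := G)
  refine ContinuousLinearMap.ext fun Z => ?_
  rw [mir, reflL_apply, sym_apply]
  simp only [br, wn, map_mul, map_div₀, map_neg, conj_I, conj_ofReal]
  refine Prod.ext ?_ (Prod.ext ?_ ?_) <;>
    simp only [Prod.fst_add, Prod.snd_add, Prod.smul_fst, Prod.smul_snd, smul_eq_mul] <;>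
    push_cast <;> field_simp
  · linear_combination Z.1 * h3 - Z.1 * h1 + (c0 G * conj (ee m) * -Z.2.1 + c0 G ^ 2 * Z.1 +
      ee m * conj (ee m) * Z.1 - ee m * c0 G * Z.2.2) * I_sq
  · linear_combination Z.2.1 * h3 - Z.2.1 * h1 - (c0 G ^ 2 * Z.2.1 - 2 * c0 G * ee m * Z.1 +
      ee m ^ 2 * Z.2.2) * I_sq
  · linear_combination Z.2.2 * h3 - Z.2.2 * h1 - (conj (ee m) ^ 2 * Z.2.1 -
      2 * c0 G * conj (ee m) * Z.1 + c0 G ^ 2 * Z.2.2) * I_sq
theorem refl_sym_det (m : L G) : ‖I * (c0 G / s0 G : ℝ)‖ ^ 2 - ‖-I * ee m / s0 G‖ ^ 2 = -1 := by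
  have h := s0_pos (G := G)
  simp only [norm_mul, norm_div, norm_neg, norm_I, norm_ee, norm_real, Real.norm_eq_abs, one_mul,
    div_pow, sq_abs]
  field_simp
  linear_combination s0_sq (G := G)
theorem side_refl_self (m : L G) (Z : V) : side (mir m Z) (wn m) = -side Z (wn m) := by
  simp only [side, mir, reflL_apply, br_add_left, br_smul_left, br_wn_self]
  rw [show br Z (wn m) + 2 * br Z (wn m) * -1 = -br Z (wn m) by ring, neg_re]
theorem side_refl_succ (m : L G) (Z : V) : side (mir m Z) (wn (m + 1)) = side Z (wn (m + 1)) :=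
  by
  simp only [side, mir, reflL_apply, br_add_left, br_smul_left, br_wn_succ, mul_zero, add_zero]
theorem side_refl_pred (m : L G) (Z : V) : side (mir m Z) (wn (m - 1)) = side Z (wn (m - 1)) :=
  by
  simp only [side, mir, reflL_apply, br_add_left, br_smul_left, br_wn_pred, mul_zero, add_zero]
theorem refl_eq_self (hZ : IsRe Z) (h : side Z (wn m) = 0) : mir m Z = Z := by
  have _ := hG
  rw [mir, reflL_apply, br_eq_ofReal hZ (isRe_wn m), neg_eq_zero.1 h]
  simp
theorem refl_fst (m : L G) (hZ : IsRe Z) :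
    (mir m Z).1.re = Z.1.re - 2 * (c0 G / s0 G) * side Z (wn m) := by
  have _ := hG
  rw [mir, reflL_apply, br_eq_ofReal hZ (isRe_wn m), side]
  simp only [wn, Prod.fst_add, Prod.smul_fst, smul_eq_mul, add_re]
  rw [← ofReal_ofNat, ← ofReal_mul, ← ofReal_mul, ofReal_re]
  ring
theorem exists_refl_fst_le : ∃ C : ℝ, 0 < C ∧ ∀ (m : L G) (Z : V), Fut Z →
    (mir m Z).1.re ≤ C * Z.1.re := by
  have _ := hG
  refine ⟨1 + ∑ m : L G, ‖mir m‖, by positivity, fun m Z hZ => ?_⟩
  have h1 := Finset.single_le_sum (f := fun m : L G => ‖mir m‖) (fun _ _ => norm_nonneg _)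
    (Finset.mem_univ m)
  rw [← hZ.norm_eq]
  calc _ ≤ ‖mir m Z‖ := (re_le_norm _).trans (norm_fst_le _)
    _ ≤ ‖mir m‖ * ‖Z‖ := (mir m).le_opNorm Z
    _ ≤ _ := by gcongr; linarith

theorem far_gap : ∃ η > 0, ∀ m m' : L G, Far m m' → ∀ Z, Fut Z → 0 ≤ side Z (wn m) →
    side Z (wn m') ≤ -(η * Z.1.re) := by
  have h0 := c0_pos (G := G)
  have h1 := c0_lt_one (G := G)
  have hs := s0_pos (G := G)
  refine ⟨2 * (c0 G - c0 G ^ 2) / s0 G, div_pos (by nlinarith) hs, fun m m' h Z hZ hm => ?_⟩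
  obtain ⟨j, rfl⟩ : ∃ j, m' = m + j := ⟨m' - m, by ring⟩
  have hj : Far 0 j := ⟨fun e => h.1 (by rw [← e, add_zero]), fun e => h.2.1 (by rw [e, zero_add]),
    fun e => h.2.2 (by rw [e]; ring)⟩
  have h2 : ‖1 + ee j‖ ≤ 2 * c0 G ^ 2 := by
    refine (sq_le_sq₀ (norm_nonneg _) (by positivity)).1 ?_
    have h3 := re_ee_le hj
    have h4 : (ee j).re ^ 2 + (ee j).im ^ 2 = 1 := by
      rw [← one_pow 2, ← norm_ee j, Complex.sq_norm, normSq_apply]; ring
    rw [Complex.sq_norm, normSq_apply, add_re, add_im, one_re, one_im]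
    nlinarith
  have h3 : (Z.2.1 * conj (ee m * (1 + ee j) / s0 G)).re ≤ Z.1.re * (2 * c0 G ^ 2 / s0 G) := by
    refine (re_le_norm _).trans ?_
    rw [norm_mul, norm_conj, norm_div, norm_mul, norm_ee, one_mul, norm_real, Real.norm_of_nonneg hs.le]
    exact mul_le_mul hZ.2 (by gcongr) (by positivity) ((norm_nonneg _).trans hZ.2)
  rw [side_eq hZ.1 (isRe_wn _)] at hm ⊢
  simp only [wn, ofReal_re, ee_add] at hm ⊢
  rw [mul_add, mul_one, add_div, map_add, mul_add, add_re] at h3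
  have e : 2 * (c0 G - c0 G ^ 2) / s0 G * Z.1.re =
    2 * (Z.1.re * (c0 G / s0 G)) - Z.1.re * (2 * c0 G ^ 2 / s0 G) := by ring
  linarith

end Pool.Agent.Lib.MP_de7bb2_an
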