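import Pool.Agent.Lib.MP_de7bb2_an.H20Zeta
import Pool.Agent.Lib.MP_de7bb2_an.H20Prim
import Pool.Agent.Lib.MP_de7bb2_an.H20Len

/-! Order of the zeta function and first order comparison. TASK ZORD. -/

namespace Pool.Agent.Lib.MP_de7bb2_an

open Metric Set Complex Filter Topology

namespace Zord

theorem not_ev_zero {f : ℂ → ℂ} (hf : Differentiable ℂ f) {s₀ : ℂ} (h : f s₀ ≠ 0) (z : ℂ) :
    ¬ ∀ᶠ s in 𝓝 z, f s = 0 := fun h0 =>
  h ((hf.differentiableOn.analyticOnNhd isOpen_univ).eqOn_zero_of_preconnected_of_eventuallyEq_zero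
    isPreconnected_univ (mem_univ z) h0 (mem_univ s₀))

theorem ev_ne {f : ℂ → ℂ} (hf : Differentiable ℂ f) {s₀ : ℂ} (h : f s₀ ≠ 0) (z : ℂ) :
    ∀ᶠ s in 𝓝[≠] z, f s ≠ 0 :=
  (hf.analyticAt z).eventually_eq_zero_or_eventually_ne_zero.resolve_left (not_ev_zero hf h z)

theorem exists_order {f : ℂ → ℂ} (hf : Differentiable ℂ f) {s₀ : ℂ} (h : f s₀ ≠ 0) (z : ℂ) :
    ∃ i : ℕ, analyticOrderAt f z = i ∧ meromorphicOrderAt f z = (i : ℤ) := by
  obtain ⟨i, hi⟩ := ENat.ne_top_iff_exists.1 (mt analyticOrderAt_eq_top.1 (not_ev_zero hf h z))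
  refine ⟨i, hi.symm, ?_⟩
  rw [(hf.analyticAt z).meromorphicOrderAt_eq, ← hi, ENat.map_natCast]

theorem order_aux {A D Nn E Z : ℂ → ℂ} (hA : Differentiable ℂ A) (hD : Differentiable ℂ D)
    (hN : Differentiable ℂ Nn) (hE : Differentiable ℂ E) {s₀ : ℂ} (hA0 : A s₀ ≠ 0)
    (hD0 : D s₀ ≠ 0) (hN0 : Nn s₀ ≠ 0) (hE0 : E 0 ≠ 0)
    (hZ : ∀ s, A s ≠ 0 → D s ≠ 0 → Z s = Nn s / (A s * D s * E s)) :
    ∃ i j k : ℕ, analyticOrderAt A 0 = i ∧ analyticOrderAt D 0 = j ∧ analyticOrderAt Nn 0 = k ∧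
      MeromorphicOn Z univ ∧ meromorphicOrderAt Z 0 = (((k : ℤ) - i - j : ℤ) : WithTop ℤ) := by
  obtain ⟨i, hi, hi'⟩ := exists_order hA hA0 0
  obtain ⟨j, hj, hj'⟩ := exists_order hD hD0 0
  obtain ⟨k, hk, hk'⟩ := exists_order hN hN0 0
  have hev : ∀ z, (Nn / (A * D * E)) =ᶠ[𝓝[≠] z] Z := fun z => by
    filter_upwards [ev_ne hA hA0 z, ev_ne hD hD0 z] with s h1 h2
    rw [hZ s h1 h2]
    rfl
  have mA := fun z => (hA.analyticAt z).meromorphicAt
  have mD := fun z => (hD.analyticAt z).meromorphicAt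
  have mN := fun z => (hN.analyticAt z).meromorphicAt
  have mE := fun z => (hE.analyticAt z).meromorphicAt
  have hE' : meromorphicOrderAt E 0 = 0 := by
    rw [(hE.analyticAt 0).meromorphicOrderAt_eq, analyticOrderAt_eq_zero.2 (Or.inr hE0)]
    rfl
  refine ⟨i, j, k, hi, hj, hk,
    fun z _ => ((mN z).div (((mA z).mul (mD z)).mul (mE z))).congr (hev z), ?_⟩
  rw [← meromorphicOrderAt_congr (hev 0),
    meromorphicOrderAt_div (mN 0) (((mA 0).mul (mD 0)).mul (mE 0)),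
    meromorphicOrderAt_mul ((mA 0).mul (mD 0)) (mE 0), meromorphicOrderAt_mul (mA 0) (mD 0),
    hi', hj', hk', hE', add_zero, sub_sub]
  norm_cast

theorem norm_exp_sub_le {a b : ℂ} {M : ℝ} (ha : a.re ≤ M) (hb : b.re ≤ M) :
    ‖exp a - exp b‖ ≤ Real.exp M * ‖a - b‖ :=
  (convex_halfSpace_re_le M).norm_image_sub_le_of_norm_deriv_le (𝕜 := ℂ) (f := exp)
    (fun _ _ => differentiableAt_exp)
    (fun z hz => by rw [Complex.deriv_exp, norm_exp]; exact Real.exp_le_exp.2 hz) hb ha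

/-- The exponential growth rate of the number of cycles, with a margin. -/
noncomputable def lam (S : Type*) [Fintype S] : ℝ := Real.log (2 * (Fintype.card S + 1))

theorem lam_nonneg (S : Type*) [Fintype S] : 0 ≤ lam S :=
  Real.log_nonneg (by have := Nat.cast_nonneg (α := ℝ) (Fintype.card S); linarith)

theorem lam_pos (S : Type*) [Fintype S] : 0 < lam S :=
  Real.log_pos (by have := Nat.cast_nonneg (α := ℝ) (Fintype.card S); linarith)

theorem cyc_sum {S : Type*} [Fintype S] {E : S → S → Prop} {K : ℝ} (hK : 0 ≤ K)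
    {a : ∀ n, Cyc E n → ℂ} (h : ∀ n π, ‖a n π‖ ≤ K * Real.exp (-((n + 1) * lam S))) :
    (Summable fun n : ℕ => (∑ π, ‖a n π‖) / (n + 1)) ∧
      (Summable fun n : ℕ => (∑ π, a n π) / (n + 1)) ∧ ‖∑' n : ℕ, (∑ π, a n π) / (n + 1)‖ ≤ K := by
  set c : ℝ := Fintype.card S + 1 with hc
  have hc0 : 0 < c := by positivity
  have h1 : ∀ n : ℕ, (∑ π, ‖a n π‖) / (n + 1) ≤ K / 2 / 2 ^ n := by
    intro n
    have e1 : Real.exp (-((n + 1) * lam S)) = ((2 * c) ^ (n + 1))⁻¹ := by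
      rw [Real.exp_neg, ← Nat.cast_succ, Real.exp_nat_mul, lam, Real.exp_log (by positivity)]
    have h2 : ∑ π, ‖a n π‖ ≤ Fintype.card (Cyc E n) * (K * ((2 * c) ^ (n + 1))⁻¹) := by
      rw [← e1, ← nsmul_eq_mul, ← Finset.card_univ]
      exact Finset.sum_le_card_nsmul _ _ _ fun π _ => h n π
    have h3 : (Fintype.card (Cyc E n) : ℝ) ≤ c ^ (n + 1) := by
      have h4 : (Fintype.card (Cyc E n) : ℝ) ≤ (Fintype.card S : ℝ) ^ (n + 1) := by
        exact_mod_cast card_cyc_le E n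
      exact h4.trans (pow_le_pow_left₀ (by positivity) (by linarith) _)
    have h5 : ∑ π, ‖a n π‖ ≤ K / 2 / 2 ^ n := by
      refine h2.trans ((mul_le_mul_of_nonneg_right h3 (by positivity)).trans (le_of_eq ?_))
      rw [mul_pow]
      field_simp
      ring
    refine (div_le_self (Finset.sum_nonneg fun _ _ => norm_nonneg _) ?_).trans h5
    have := Nat.cast_nonneg (α := ℝ) n
    linarith
  have h6 : ∀ n : ℕ, ‖(∑ π, a n π) / (n + 1)‖ ≤ K / 2 / 2 ^ n := by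
    intro n
    refine le_trans ?_ (h1 n)
    rw [norm_div, ← Nat.cast_succ, Complex.norm_natCast, Nat.cast_succ]
    exact div_le_div_of_nonneg_right (norm_sum_le _ _) (by positivity)
  have hs := hasSum_geometric_two' K
  exact ⟨Summable.of_nonneg_of_le (fun n => by positivity) h1 hs.summable,
    Summable.of_norm_bounded hs.summable h6, tsum_of_norm_bounded hs h6⟩

variable {G : ℕ}

theorem norm_sgn_mul_le (x : L G → ℂ) (q : Q) (m : L G) : ‖sgn q m * x m‖ ≤ ‖x‖ := by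
  have := norm_le_pi_norm x m
  rcases Hom.sgn_cases q m with h | h <;> simpa [h] using this

theorem th_le (x : L G → ℂ) {n : ℕ} (π : Cyc (StE (G := G) 1) n) :
    (Th x (gam π)).re ≤ (n + 1) * ‖x‖ := by
  refine (re_le_norm _).trans ?_
  rw [Th_gam]
  refine (norm_sum_le _ _).trans ((Finset.sum_le_card_nsmul _ _ _
    fun i _ => norm_sgn_mul_le x _ _).trans (le_of_eq ?_))
  rw [Finset.card_univ, ZMod.card, nsmul_eq_mul, Nat.cast_succ]

theorem diff_slice {P : Type*} [NormedAddCommGroup P] [NormedSpace ℂ P] {f : ℂ × ℂ × P → ℂ}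
    {r : ℝ} (hf : DifferentiableOn ℂ f (univ ×ˢ ball 0 r ×ˢ univ)) {e : ℝ} (he : |e| < r) (p : P) :
    Differentiable ℂ fun s => f (s, e, p) :=
  differentiableOn_univ.1 (hf.comp (f := fun s : ℂ => (s, (e : ℂ), p)) (by fun_prop)
    fun s _ => ⟨mem_univ _, by simpa using he, mem_univ _⟩)

theorem cont_slice {P : Type*} [NormedAddCommGroup P] [NormedSpace ℂ P] {f : ℂ × ℂ × ℂ × P → ℂ}
    {r : ℝ} (hr : 0 < r) (hf : DifferentiableOn ℂ f (univ ×ˢ ball 0 r ×ˢ univ)) (s : ℂ) (p : P) :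
    ContinuousAt (fun e : ℝ => f (s, e, 0, p)) 0 ∧ ContinuousAt (fun e : ℝ => f (s, 0, e, p)) 0 := by
  have h : ContinuousAt f (s, 0, 0, p) := hf.continuousOn.continuousAt
    ((isOpen_univ.prod (isOpen_ball.prod isOpen_univ)).mem_nhds
      ⟨mem_univ _, mem_ball_self hr, mem_univ _⟩)
  exact ⟨h.comp_of_eq (f := fun e : ℝ => (s, (e : ℂ), (0 : ℂ), p)) (by fun_prop) (by simp),
    h.comp_of_eq (f := fun e : ℝ => (s, (0 : ℂ), (e : ℂ), p)) (by fun_prop) (by simp)⟩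

theorem ev_abs_lt {r : ℝ} (hr : 0 < r) : ∀ᶠ e : ℝ in 𝓝 0, |e| < r := by
  filter_upwards [ball_mem_nhds (0 : ℝ) hr] with e he
  simpa using he

theorem ev_mul_le (C : ℝ) {r : ℝ} (hr : 0 < r) : ∀ᶠ e : ℝ in 𝓝 0, |e| * C ≤ r := by
  have h : ContinuousAt (fun e : ℝ => |e| * C) 0 := by fun_prop
  exact h.eventually_le_const (by simpa using hr)

/-- Comparison of two weights attached to one cycle. -/
theorem term_le {θ : ℂ} {s l ℓ I' e C Cb X τ lam' m : ℝ} (hθ : θ.re ≤ m * X) (hl : m * τ ≤ l)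
    (hm : 0 ≤ m) (hτ : 0 < τ) (hs : 2 ≤ s) (hs' : X + lam' ≤ (s / 2 - 1) * τ) (hI : |I'| ≤ Cb * l)
    (he : |e| * Cb ≤ 1 / 4) (hC : 0 ≤ C) (he' : C * e ^ 2 ≤ 1 / 4)
    (h : |ℓ - l - e * I'| ≤ C * e ^ 2 * l) :
    ‖exp (θ - s * ℓ)‖ ≤ 1 * Real.exp (-(m * lam')) ∧
    ‖exp (θ - s * (l + e * I'))‖ ≤ 1 * Real.exp (-(m * lam')) ∧
    ‖exp (θ - s * ℓ) - exp (θ - s * (l + e * I'))‖ ≤
      s * C * e ^ 2 * Real.exp (-(m * lam')) := by
  have hl0 : 0 ≤ l := le_trans (by positivity) hl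
  have h1 : |e * I'| ≤ l / 4 := by
    rw [abs_mul]
    calc _ ≤ |e| * (Cb * l) := mul_le_mul_of_nonneg_left hI (abs_nonneg _)
      _ = |e| * Cb * l := by ring
      _ ≤ 1 / 4 * l := mul_le_mul_of_nonneg_right he hl0
      _ = _ := by ring
  have h2 : C * e ^ 2 * l ≤ 1 / 4 * l := mul_le_mul_of_nonneg_right he' hl0
  obtain ⟨h3, -⟩ := abs_le.1 h
  obtain ⟨h4, -⟩ := abs_le.1 h1
  have h5 : s * (l / 2) ≤ s * ℓ := mul_le_mul_of_nonneg_left (by linarith) (by linarith)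
  have h6 : s * (l / 2) ≤ s * (l + e * I') := mul_le_mul_of_nonneg_left (by linarith) (by linarith)
  have h7 : m * X - s * (l / 2) + l ≤ -(m * lam') := by
    have k1 := mul_le_mul_of_nonneg_left hs' hm
    have k2 := mul_le_mul_of_nonneg_left hl (show 0 ≤ s / 2 - 1 by linarith)
    nlinarith
  have r1 : (θ - s * ℓ).re ≤ m * X - s * (l / 2) := by
    rw [← ofReal_mul, sub_re, ofReal_re]; linarith
  have r2 : (θ - s * (l + e * I')).re ≤ m * X - s * (l / 2) := by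
    rw [← ofReal_mul, ← ofReal_add, ← ofReal_mul, sub_re, ofReal_re]; linarith
  refine ⟨?_, ?_, (norm_exp_sub_le r1 r2).trans ?_⟩
  · rw [norm_exp, one_mul]; exact Real.exp_le_exp.2 (by linarith)
  · rw [norm_exp, one_mul]; exact Real.exp_le_exp.2 (by linarith)
  · have e1 : θ - s * ℓ - (θ - s * (l + e * I')) = ((-(s * (ℓ - l - e * I')) : ℝ) : ℂ) := by
      push_cast; ring
    rw [e1, norm_real, Real.norm_eq_abs, abs_neg, abs_mul, abs_of_nonneg (by linarith : 0 ≤ s)]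
    have k1 : l ≤ Real.exp l := by linarith [Real.add_one_le_exp l]
    have k2 : |ℓ - l - e * I'| ≤ C * e ^ 2 * Real.exp l :=
      h.trans (mul_le_mul_of_nonneg_left k1 (by positivity))
    have k3 : Real.exp (m * X - s * (l / 2)) * Real.exp l ≤ Real.exp (-(m * lam')) := by
      rw [← Real.exp_add]; exact Real.exp_le_exp.2 h7
    have hs0 : 0 ≤ s := by linarith
    calc _ ≤ Real.exp (m * X - s * (l / 2)) * (s * (C * e ^ 2 * Real.exp l)) := by gcongr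
      _ = s * C * e ^ 2 * (Real.exp (m * X - s * (l / 2)) * Real.exp l) := by ring
      _ ≤ _ := mul_le_mul_of_nonneg_left k3 (by positivity)

end Zord

open Zord

variable {G : ℕ} [hG : Fact (2 ≤ G)]

theorem zeta_order (B : Base G) : ∀ᶠ N in atTop, ∀ w, Hyp w → ∀ T : Pert B N w,
    ∀ᶠ e : ℝ in 𝓝 0, ∀ x : L G → ℂ, (∀ j, exp (x (j + 1) - x (j - 1)) ≠ 1) → ∃ i j k : ℕ,
      analyticOrderAt (fun s => T.dA (s, e, 0, x)) 0 = i ∧
      analyticOrderAt (fun s => T.dD (s, e, 0, x)) 0 = j ∧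
      analyticOrderAt (fun s => T.dN (s, e, 0, x)) 0 = k ∧
      ZetaOrder (surf G) (phiE (fam (1 : W G) w) e) (rho x) ((k : ℤ) - i - j) := by
  filter_upwards [zeta_diff B, exists_periods B] with N hd hp w hw T
  obtain ⟨dN, dA, dD⟩ := hd w hw T
  rw [univ_prod_univ] at dN dA dD
  obtain ⟨ℓ, hℓ, hx⟩ := hp w hw T
  obtain ⟨ε₁, hε₁, hprim⟩ := hasProd_prim (G := G) hw
  filter_upwards [ev_abs_lt T.ε₀_pos, ev_abs_lt hε₁] with e he0 he1 x hx1
  obtain ⟨k, j, ee, l, hl, hP⟩ := hprim e he1 (ℓ e) fun n π => (hℓ e he0 n π).2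
  obtain ⟨C, hC⟩ := hx x
  have hr : 0 < B.r₀ / 4 := by have := B.r₀_pos; positivity
  set E : ℂ → ℂ := fun s => ∏ i, (1 - exp (ee i * (x (j i + 1) - x (j i - 1)) - s * l i)) with hE
  set S : ℂ → ℂ := fun s => ∑' n : ℕ, (∑ π, exp (Th x (gam π) - s * ℓ e n π)) / (n + 1) with hS
  have hev : ∀ᶠ σ : ℝ in atTop, C < σ ∧ 0 ≤ σ ∧ ‖x‖ + lam (St G) ≤ σ * (B.r₀ / 4) ∧
      ∀ i, (ee i * (x (j i + 1) - x (j i - 1))).re < σ * l i := by
    refine (eventually_gt_atTop C).and ((eventually_ge_atTop 0).and (Eventually.and ?_ ?_))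
    · exact (tendsto_id.atTop_mul_const hr).eventually_ge_atTop _
    · exact eventually_all.2 fun i => (tendsto_id.atTop_mul_const (hl i).2).eventually_gt_atTop _
  obtain ⟨C', hC'⟩ := eventually_atTop.1 hev
  have hE0 : E 0 ≠ 0 := by
    refine Finset.prod_ne_zero_iff.2 fun i _ => sub_ne_zero.2 (Ne.symm ?_)
    rw [zero_mul, sub_zero]
    rcases (hl i).1 with h | h
    · rw [h, one_mul]; exact hx1 _
    · rw [h, neg_one_mul, exp_neg]; exact fun h' => hx1 _ (inv_eq_one.1 h')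
  have hEs : ∀ s : ℂ, C' < s.re → E s ≠ 0 := fun s hs => by
    refine Finset.prod_ne_zero_iff.2 fun i _ => sub_ne_zero.2 (Ne.symm fun h => ?_)
    have h1 := congrArg norm h
    rw [norm_exp, norm_one, Real.exp_eq_one_iff, sub_re, re_mul_ofReal] at h1
    linarith [(hC' s.re hs.le).2.2.2 i]
  have hEd : Differentiable ℂ E := by
    rw [hE]
    fun_prop
  have hprod : ∀ s : ℂ, C' < s.re → HasProd (fun p : Primitive (surf G)
      (phiE (fam (1 : W G) w) e) => factor (rho x) s p) (exp (-S s) / E s) := by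
    intro s hs
    obtain ⟨-, h2, h3, -⟩ := hC' s.re hs.le
    have hre : ∀ n (π : Cyc (StE (G := G) 1) n),
        (Th x (gam π) - s * ℓ e n π).re ≤ -((n + 1) * lam (St G)) := fun n π => by
      have k1 := th_le x π
      have k2 := mul_le_mul_of_nonneg_left (hℓ e he0 n π).1 h2
      have k3 := mul_le_mul_of_nonneg_left h3 (show (0 : ℝ) ≤ n + 1 by positivity)
      rw [sub_re, re_mul_ofReal]
      nlinarith
    obtain ⟨P, hP1, hP2⟩ := hP x s
      (fun n π => (hre n π).trans_lt (neg_lt_zero.2 (mul_pos (by positivity) (lam_pos _))))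
      (cyc_sum (K := 1) zero_le_one (a := fun n π => exp (Th x (gam π) - s * ℓ e n π))
        fun n π => by rw [norm_exp, one_mul]; exact Real.exp_le_exp.2 (hre n π)).1
    rwa [← eq_div_of_mul_eq (hEs s hs) hP2]
  classical
  have hs₀ := hC' C' le_rfl
  obtain ⟨h1, h2⟩ := hC (C' : ℂ) (by simpa using hs₀.1) e he0
  obtain ⟨h3, h4⟩ := h1 (ofReal_im _)
  obtain ⟨i, j', k', o1, o2, o3, o4, o5⟩ := order_aux (E := E)
    (Z := fun s => if C' < s.re then exp (-S s) / E s else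
      T.dN (s, e, 0, x) / (T.dA (s, e, 0, x) * T.dD (s, e, 0, x) * E s))
    (diff_slice dA he0 (0, x)) (diff_slice dD he0 (0, x)) (diff_slice dN he0 (0, x)) hEd
    (s₀ := (C' : ℂ)) h3 h4 (by rw [h2]; exact mul_ne_zero (mul_ne_zero h3 h4) (exp_ne_zero _)) hE0
    (fun s k1 k2 => by
      split_ifs with hs
      · rw [(hC s (hC' s.re hs.le).1 e he0).2]
        exact (mul_div_mul_left _ _ (mul_ne_zero k1 k2)).symm
      · rfl)
  refine ⟨i, j', k', o1, o2, o3, _, C', o4, fun s hs => ?_, o5⟩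
  rw [if_pos hs]
  exact hprod s hs

theorem zeta_first (B : Base G) : ∀ᶠ N in atTop, ∀ w, Hyp w → ∀ (T : Pert B N w) (x : L G → ℂ),
    ∃ C : ℝ, ∀ s : ℝ, C < s → ∃ K : ℝ, ∀ᶠ e : ℝ in 𝓝 0,
      ‖T.dN (s, e, 0, x) * (T.dA (s, 0, e, x) * T.dD (s, 0, e, x)) -
        T.dN (s, 0, e, x) * (T.dA (s, e, 0, x) * T.dD (s, e, 0, x))‖ ≤ K * e ^ 2 := by
  obtain ⟨Cr, hCr⟩ := B.rb_diff
  filter_upwards [zeta_diff B, exists_periods B, exists_orb0 B, hCr, B.par4_mem one_pos]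
    with N hd hp ho hb h4 w hw T x
  obtain ⟨dN, dA, dD⟩ := hd w hw T
  rw [univ_prod_univ] at dA dD
  obtain ⟨ℓ, hℓ, hx⟩ := hp w hw T
  obtain ⟨C, hC⟩ := hx x
  choose ξ η hO _ _ hr0 X Y hA hI using ho
  obtain ⟨M₀, hM₀, halt⟩ := det_alt (EN (G := G) (N := N)) B.one_lt_R B.q_lt
  obtain ⟨Cb, hCb⟩ := exists_famy (G := G)
  have hF := hCb 1 w hw
  obtain ⟨ε₁, hε₁, C₁, hlen⟩ := exists_len Cb
  have hr : 0 < B.r₀ / 4 := by have := B.r₀_pos; positivity
  have hτ : 0 < Real.log B.D1.t := Real.log_pos B.D1.one_lt_t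
  have hev : ∀ᶠ s : ℝ in atTop, C < s ∧ 2 ≤ s ∧ ‖x‖ - Real.log M₀ ≤ s * (B.r₀ / 4) ∧
      ‖x‖ + lam (StN G N) ≤ (s / 2 - 1) * Real.log B.D1.t := by
    refine (eventually_gt_atTop C).and ((eventually_ge_atTop 2).and (Eventually.and ?_ ?_))
    · exact (tendsto_id.atTop_mul_const hr).eventually_ge_atTop _
    · exact ((tendsto_atTop_add_const_right _ (-1) (tendsto_id.atTop_div_const two_pos)
        ).atTop_mul_const hτ).eventually_ge_atTop _
  obtain ⟨C', hC'⟩ := eventually_atTop.1 hev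
  refine ⟨C', fun s hs => ?_⟩
  obtain ⟨s1, s2, s3, s4⟩ := hC' s hs.le
  set F : ℝ → ℂ := fun e => T.dA (s, e, 0, x) * T.dD (s, e, 0, x) *
    (T.dA (s, 0, e, x) * T.dD (s, 0, e, x)) with hFdef
  have hFc : ContinuousAt F 0 :=
    ((cont_slice T.ε₀_pos dA s x).1.mul (cont_slice T.ε₀_pos dD s x).1).mul
      ((cont_slice T.ε₀_pos dA s x).2.mul (cont_slice T.ε₀_pos dD s x).2)
  refine ⟨(‖F 0‖ + 1) * (Real.exp 1 * (s * |C₁|)), ?_⟩
  have hsq : ∀ᶠ e : ℝ in 𝓝 0, |C₁| * e ^ 2 ≤ 1 / 4 := by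
    have h : ContinuousAt (fun e : ℝ => |C₁| * e ^ 2) 0 := by fun_prop
    exact h.eventually_le_const (by simp)
  filter_upwards [hFc.norm.eventually_le_const (lt_add_one _), ev_abs_lt T.ε₀_pos, ev_abs_lt hε₁,
    ev_mul_le Cr hr, ev_mul_le Cb (show (0 : ℝ) < 1 / 4 by norm_num), hsq]
    with e e1 e2 e3 e4 e5 e6
  set a : ∀ n, Cyc (EN (G := G) (N := N)) n → ℂ := fun n π =>
    exp (Th x (gam (cycE N n π)) - s * ℓ e n (cycE N n π)) with ha
  set b : ∀ n, Cyc (EN (G := G) (N := N)) n → ℂ := fun n π =>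
    exp (Th x (gam (cycE N n π)) - s * (len0 (gam (cycE N n π)) +
      e * Ib (fam (1 : W G) w) (X n π) (Y n π) (len0 (gam (cycE N n π))))) with hb'
  have n1 : T.dN (s, e, 0, x) = T.dA (s, e, 0, x) * T.dD (s, e, 0, x) *
      exp (-∑' n : ℕ, (∑ π, a n π) / (n + 1)) := by
    rw [(hC s (by simpa using s1) e e2).2]
    congr 3
    refine tsum_congr fun n => ?_
    rw [← (cycE N n).sum_comp]
  have n2 : T.dN (s, 0, e, x) = T.dA (s, 0, e, x) * T.dD (s, 0, e, x) *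
      exp (-∑' n : ℕ, (∑ π, b n π) / (n + 1)) := by
    obtain ⟨f1, f2, f3⟩ := T.frozen s e x
    have hfst : MapsTo (Prod.fst : ℂ × ℂ → ℂ) (ball 0 B.R) (ball 0 B.R) := fun y hy =>
      mem_ball_zero_iff.2 ((norm_fst_le y).trans_lt (mem_ball_zero_iff.1 hy))
    have hsnd : MapsTo (Prod.snd : ℂ × ℂ → ℂ) (ball 0 B.R) (ball 0 B.R) := fun y hy =>
      mem_ball_zero_iff.2 ((norm_snd_le y).trans_lt (mem_ball_zero_iff.1 hy))
    obtain ⟨-, -, h⟩ := halt (fun σ σ' y => B.psS σ σ' y.1) (fun σ σ' y => B.psU σ σ' y.2)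
      (B.w1 w s e x)
      (fun σ σ' h => ⟨⟨(B.into σ σ' h).1.1.comp differentiableOn_fst hfst,
          fun y hy => (B.into σ σ' h).1.2 _ (hfst hy)⟩,
        ⟨(B.into σ σ' h).2.1.comp differentiableOn_snd hsnd,
          fun y hy => (B.into σ σ' h).2.2 _ (hsnd hy)⟩⟩)
      (fun σ σ' h => by
        obtain ⟨d1, d2, -⟩ := hb w hw σ σ' h
        exact ((d2.add (d1.const_mul _)).const_mul _).cexp.const_mul _)
      (fun σ σ' h p hp => by
        have k1 := (hb w hw σ σ' h).2.2 p hp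
        have k2 := ((h4 σ σ' h).2 p hp).2.1
        have k3 := (re_le_norm _).trans (norm_sgn_mul_le x σ.cls σ.hd)
        have k4 : |e * (B.rb w σ σ' p).re| ≤ B.r₀ / 4 := by
          rw [abs_mul]
          exact (mul_le_mul_of_nonneg_left ((abs_re_le_norm _).trans k1) (abs_nonneg _)).trans e4
        have k5 : s * (B.r₀ / 4) ≤ s * ((B.r0 σ σ' p).re + e * (B.rb w σ σ' p).re) :=
          mul_le_mul_of_nonneg_left (by linarith [(abs_le.1 k4).1]) (by linarith)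
        rw [Base.w1, wt, ← exp_add, norm_exp, ← Real.exp_log hM₀, Real.exp_le_exp, add_re,
          neg_mul, neg_re, re_ofReal_mul, add_re, re_ofReal_mul]
        linarith)
      ξ η hO
    rw [f1, f2, f3, h]
    congr 3
    refine tsum_congr fun n => ?_
    congr 1
    refine Finset.sum_congr rfl fun π _ => ?_
    simp only [Base.w1]
    rw [Finset.prod_mul_distrib, prod_wt, ← exp_sum, ← exp_add, ← Finset.mul_sum,
      Finset.sum_add_distrib, ← Finset.mul_sum, hr0, hI n π w hw, neg_mul, ← sub_eq_add_neg]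
  have ht : ∀ n π, ‖a n π‖ ≤ 1 * Real.exp (-((n + 1) * lam (StN G N))) ∧
      ‖b n π‖ ≤ 1 * Real.exp (-((n + 1) * lam (StN G N))) ∧
      ‖a n π - b n π‖ ≤ s * |C₁| * e ^ 2 * Real.exp (-((n + 1) * lam (StN G N))) := by
    intro n π
    obtain ⟨E, hE⟩ := (hℓ e e2 n (cycE N n π)).2
    have k1 := hlen _ _ hF e e3.le _ _ _ _ (iso_lin _) (hA n π)
      (bF_fam_inv (gam_mem _) w) _ E hE
    have k2 : 0 ≤ len0 (gam (cycE N n π)) := (hA n π).2.2.2.1.le
    refine term_le (th_le x _) (len0_ge B.D1 _) (by positivity) hτ s2 s4 (abs_Ib_le hF (hA n π)) e5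
      (abs_nonneg _) e6 (k1.trans ?_)
    gcongr
    exact le_abs_self _
  obtain ⟨-, a1, a2⟩ := cyc_sum zero_le_one fun n π => (ht n π).1
  obtain ⟨-, b1, b2⟩ := cyc_sum zero_le_one fun n π => (ht n π).2.1
  have hs0 : 0 ≤ s := by linarith
  obtain ⟨-, -, c2⟩ := cyc_sum (a := fun n π => a n π - b n π) (by positivity)
    fun n π => (ht n π).2.2
  simp only [Finset.sum_sub_distrib, sub_div] at c2
  rw [a1.tsum_sub b1] at c2
  set Sa := ∑' n : ℕ, (∑ π, a n π) / (n + 1)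
  set Sb := ∑' n : ℕ, (∑ π, b n π) / (n + 1)
  have k1 : ‖exp (-Sa) - exp (-Sb)‖ ≤ Real.exp 1 * (s * |C₁| * e ^ 2) := by
    refine (norm_exp_sub_le (M := 1) ((re_le_norm _).trans (by rwa [norm_neg]))
      ((re_le_norm _).trans (by rwa [norm_neg]))).trans ?_
    rw [neg_sub_neg, norm_sub_rev]
    exact mul_le_mul_of_nonneg_left c2 (Real.exp_pos _).le
  have k2 : T.dN (s, e, 0, x) * (T.dA (s, 0, e, x) * T.dD (s, 0, e, x)) -
      T.dN (s, 0, e, x) * (T.dA (s, e, 0, x) * T.dD (s, e, 0, x)) =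
      F e * (exp (-Sa) - exp (-Sb)) := by
    rw [n1, n2, hFdef]
    ring
  rw [k2, norm_mul]
  calc _ ≤ (‖F 0‖ + 1) * (Real.exp 1 * (s * |C₁| * e ^ 2)) :=
        mul_le_mul e1 k1 (norm_nonneg _) (by positivity)
    _ = _ := by ring

end Pool.Agent.Lib.MP_de7bb2_an
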